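import Mathlib

section

/-!
# MP_5532fa_co : spectral radius and Perron vector of a finite graph
-/

open Finset

namespace MP5532fa

open Classical in
/-- The spectral radius of a finite graph: the largest (real) eigenvalue of its
adjacency matrix. -/
noncomputable def specRad {V : Type*} [Fintype V] (G : SimpleGraph V) : ℝ :=
  sSup (spectrum ℝ (G.adjMatrix ℝ))

variable {V : Type*} [Fintype V]

open Classical in
/-- The quadratic form of the adjacency matrix. -/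
noncomputable def qf (G : SimpleGraph V) (x : V → ℝ) : ℝ :=
  ∑ u, ∑ v, if G.Adj u v then x u * x v else 0

open Classical in
theorem mulVec_adj (G : SimpleGraph V) (x : V → ℝ) (u : V) :
    (G.adjMatrix ℝ).mulVec x u = ∑ v, if G.Adj u v then x v else 0 := by
  simp [Matrix.mulVec, dotProduct, SimpleGraph.adjMatrix_apply, ite_mul]

open Classical in
theorem mem_spectrum_iff (G : SimpleGraph V) (μ : ℝ) :
    μ ∈ spectrum ℝ (G.adjMatrix ℝ) ↔
      ∃ x : V → ℝ, x ≠ 0 ∧ ∀ u, (∑ v, if G.Adj u v then x v else 0) = μ * x u := by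
  rw [spectrum.mem_iff, Matrix.isUnit_iff_isUnit_det, isUnit_iff_ne_zero, not_not,
    ← Matrix.exists_mulVec_eq_zero_iff]
  constructor
  · rintro ⟨x, hx, h⟩
    refine ⟨x, hx, fun u => ?_⟩
    have h1 := congrFun h u
    rw [Matrix.sub_mulVec, Pi.sub_apply, Pi.zero_apply, mulVec_adj] at h1
    have h2 : ((algebraMap ℝ (Matrix V V ℝ)) μ).mulVec x u = μ * x u := by
      rw [Algebra.algebraMap_eq_smul_one, Matrix.smul_mulVec, Matrix.one_mulVec]
      rfl
    rw [h2] at h1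
    linarith
  · rintro ⟨x, hx, h⟩
    refine ⟨x, hx, ?_⟩
    funext u
    rw [Matrix.sub_mulVec, Pi.sub_apply, Pi.zero_apply, mulVec_adj, h u]
    have h2 : ((algebraMap ℝ (Matrix V V ℝ)) μ).mulVec x u = μ * x u := by
      rw [Algebra.algebraMap_eq_smul_one, Matrix.smul_mulVec, Matrix.one_mulVec]
      rfl
    rw [h2, sub_self]

open Classical in
theorem qf_eq_of_eig {G : SimpleGraph V} {x : V → ℝ} {μ : ℝ}
    (h : ∀ u, (∑ v, if G.Adj u v then x v else 0) = μ * x u) :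
    qf G x = μ * ∑ u, x u ^ 2 := by
  unfold qf
  rw [Finset.mul_sum]
  refine Finset.sum_congr rfl fun u _ => ?_
  have : (∑ v, if G.Adj u v then x u * x v else 0)
      = x u * ∑ v, if G.Adj u v then x v else 0 := by
    rw [Finset.mul_sum]
    refine Finset.sum_congr rfl fun v _ => ?_
    split_ifs <;> ring
  rw [this, h u]; ring

theorem qf_smul (G : SimpleGraph V) (x : V → ℝ) (c : ℝ) :
    qf G (fun v => c * x v) = c ^ 2 * qf G x := by
  classical
  unfold qf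
  rw [Finset.mul_sum]
  refine Finset.sum_congr rfl fun u _ => ?_
  rw [Finset.mul_sum]
  refine Finset.sum_congr rfl fun v _ => ?_
  split_ifs <;> ring

theorem qf_abs (G : SimpleGraph V) (x : V → ℝ) : qf G x ≤ qf G (fun v => |x v|) := by
  classical
  unfold qf
  refine Finset.sum_le_sum fun u _ => Finset.sum_le_sum fun v _ => ?_
  split_ifs
  · rw [← abs_mul]; exact le_abs_self _
  · exact le_rfl

theorem continuous_qf (G : SimpleGraph V) : Continuous (qf G) := by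
  classical
  unfold qf
  refine continuous_finsetSum _ fun u _ => continuous_finsetSum _ fun v _ => ?_
  split_ifs
  · exact (continuous_apply u).mul (continuous_apply v)
  · exact continuous_const

theorem exists_maximizer [Nonempty V] (G : SimpleGraph V) :
    ∃ x : V → ℝ, (∀ v, 0 ≤ x v) ∧ ∑ v, x v ^ 2 = 1 ∧
      ∀ z : V → ℝ, qf G z ≤ qf G x * ∑ v, z v ^ 2 := by
  classical
  set S : Set (V → ℝ) := {x | ∑ v, x v ^ 2 = 1} with hS
  have hclosed : IsClosed S := by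
    have : Continuous (fun x : V → ℝ => ∑ v, x v ^ 2) :=
      continuous_finsetSum _ fun v _ => (continuous_apply v).pow 2
    exact isClosed_singleton.preimage this
  have hbdd : Bornology.IsBounded S := by
    rw [isBounded_iff_forall_norm_le]
    refine ⟨1, fun x hx => ?_⟩
    rw [pi_norm_le_iff_of_nonneg zero_le_one]
    intro v
    have h1 : x v ^ 2 ≤ ∑ v, x v ^ 2 :=
      Finset.single_le_sum (f := fun v => x v ^ 2) (fun i _ => sq_nonneg _) (Finset.mem_univ v)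
    rw [hx] at h1
    rw [Real.norm_eq_abs]
    exact abs_le_one_iff_mul_self_le_one.mpr (by nlinarith)
  have hcomp : IsCompact S := Metric.isCompact_of_isClosed_isBounded hclosed hbdd
  have hne : S.Nonempty := by
    obtain ⟨v0⟩ := ‹Nonempty V›
    refine ⟨Pi.single v0 1, ?_⟩
    show ∑ v, (Pi.single v0 (1:ℝ) : V → ℝ) v ^ 2 = 1
    rw [Finset.sum_eq_single v0]
    · simp
    · intro b _ hb; simp [Pi.single_eq_of_ne hb]
    · simp
  obtain ⟨x0, hx0, hmax⟩ := hcomp.exists_isMaxOn hne (continuous_qf G).continuousOn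
  have habs : (fun v => |x0 v|) ∈ S := by
    show ∑ v, |x0 v| ^ 2 = 1
    simp only [sq_abs]; exact hx0
  have hmax' : ∀ z ∈ S, qf G z ≤ qf G (fun v => |x0 v|) := fun z hz =>
    (hmax hz).trans (qf_abs G x0)
  refine ⟨fun v => |x0 v|, fun v => abs_nonneg _, habs, fun z => ?_⟩
  by_cases hz : ∑ v, z v ^ 2 = 0
  · have hz0 : ∀ v, z v = 0 := by
      intro v
      have := (Finset.sum_eq_zero_iff_of_nonneg (fun i _ => sq_nonneg (z i))).mp hz v
        (Finset.mem_univ v)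
      exact pow_eq_zero_iff (two_ne_zero) |>.mp this
    have : qf G z = 0 := by
      unfold qf
      refine Finset.sum_eq_zero fun u _ => Finset.sum_eq_zero fun v _ => ?_
      simp [hz0 u]
    rw [this, hz, mul_zero]
  · have hpos : 0 < ∑ v, z v ^ 2 :=
      lt_of_le_of_ne (Finset.sum_nonneg fun i _ => sq_nonneg _) (Ne.symm hz)
    set c := Real.sqrt (∑ v, z v ^ 2) with hc
    have hcpos : 0 < c := Real.sqrt_pos.mpr hpos
    have hc2 : c ^ 2 = ∑ v, z v ^ 2 := Real.sq_sqrt hpos.le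
    have hzS : (fun v => c⁻¹ * z v) ∈ S := by
      show ∑ v, (c⁻¹ * z v) ^ 2 = 1
      have : ∑ v, (c⁻¹ * z v) ^ 2 = (c⁻¹) ^ 2 * ∑ v, z v ^ 2 := by
        rw [Finset.mul_sum]; exact Finset.sum_congr rfl fun v _ => by ring
      rw [this, ← hc2]
      field_simp
    have h1 := hmax' _ hzS
    rw [qf_smul] at h1
    have h2 : qf G z = c ^ 2 * (c⁻¹ ^ 2 * qf G z) := by
      field_simp
    rw [h2, ← hc2, mul_comm (qf G _)]
    exact mul_le_mul_of_nonneg_left h1 (sq_nonneg c)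

/-- variation -/
theorem eig_of_max {G : SimpleGraph V} {x : V → ℝ} {μ : ℝ} [DecidableRel G.Adj]
    (h1 : qf G x = μ * ∑ v, x v ^ 2)
    (h2 : ∀ z : V → ℝ, qf G z ≤ μ * ∑ v, z v ^ 2) (u : V) :
    (∑ v, if G.Adj u v then x v else 0) = μ * x u := by
  classical
  -- consider z = x + t e_u
  set e : V → ℝ := Pi.single u 1 with he
  set s : ℝ := ∑ v, if G.Adj u v then x v else 0 with hs
  have key : ∀ t : ℝ, 2 * t * (s - μ * x u) ≤ μ * t ^ 2 := by
    intro t
    have hz := h2 (fun v => x v + t * e v)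
    have e1 : qf G (fun v => x v + t * e v) = qf G x + 2 * t * s := by
      have hexp : qf G (fun v => x v + t * e v) =
          qf G x + t * (∑ a, ∑ b, if G.Adj a b then x a * e b else 0)
            + t * (∑ a, ∑ b, if G.Adj a b then e a * x b else 0)
            + t ^ 2 * (∑ a, ∑ b, if G.Adj a b then e a * e b else 0) := by
        unfold qf
        simp only [Finset.mul_sum, ← Finset.sum_add_distrib]
        refine Finset.sum_congr rfl fun a _ => Finset.sum_congr rfl fun b _ => ?_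
        by_cases h : G.Adj a b
        · simp only [h, if_true]; ring
        · simp [h]
      have A1 : (∑ a, ∑ b, if G.Adj a b then x a * e b else 0) = s := by
        rw [Finset.sum_comm, Finset.sum_eq_single u]
        · rw [hs]
          refine Finset.sum_congr rfl fun a _ => ?_
          have hsym := G.adj_comm a u
          by_cases h : G.Adj u a
          · simp [he, h, hsym.mpr h]
          · simp [h, mt hsym.mp h]
        · intro b _ hb
          refine Finset.sum_eq_zero fun a _ => ?_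
          simp [he, Pi.single_eq_of_ne hb]
        · simp
      have A2 : (∑ a, ∑ b, if G.Adj a b then e a * x b else 0) = s := by
        rw [Finset.sum_eq_single u]
        · rw [hs]
          refine Finset.sum_congr rfl fun a _ => ?_
          simp [he]
        · intro b _ hb
          refine Finset.sum_eq_zero fun a _ => ?_
          simp [he, Pi.single_eq_of_ne hb]
        · simp
      have A3 : (∑ a, ∑ b, if G.Adj a b then e a * e b else 0) = 0 := by
        refine Finset.sum_eq_zero fun a _ => Finset.sum_eq_zero fun b _ => ?_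
        split_ifs with h
        · by_cases ha : a = u
          · have hb : b ≠ u := fun hb => by subst ha; subst hb; exact G.irrefl h
            simp [he, Pi.single_eq_of_ne hb]
          · simp [he, Pi.single_eq_of_ne ha]
        · rfl
      rw [hexp, A1, A2, A3]; ring
    have e2 : ∑ v, (x v + t * e v) ^ 2 = ∑ v, x v ^ 2 + 2 * t * x u + t ^ 2 := by
      have : ∀ v, (x v + t * e v) ^ 2 = x v ^ 2 + (if v = u then 2 * t * x u + t ^ 2 else 0) := by
        intro v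
        by_cases hv : v = u
        · subst hv; simp [he]; ring
        · simp [he, hv]
      simp only [this, Finset.sum_add_distrib, Finset.sum_ite_eq', Finset.mem_univ, if_true]
      ring
    rw [e1, e2, h1] at hz
    nlinarith
  by_contra hne
  set d := s - μ * x u with hd
  have hd0 : d ≠ 0 := sub_ne_zero.mpr hne
  -- choose t
  by_cases hμ : μ ≤ 0
  · have := key d
    have hdd : 0 < d ^ 2 := by positivity
    nlinarith
  · push Not at hμ
    have := key (d / μ)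
    have hdd : 0 < d ^ 2 := by positivity
    have e3 : μ * (d / μ) ^ 2 = d ^ 2 / μ := by field_simp
    have e4 : 2 * (d / μ) * d = 2 * (d ^ 2 / μ) := by ring
    rw [e3, e4] at this
    have : 0 < d ^ 2 / μ := by positivity
    linarith

open Classical in
/-- Perron vector. -/
theorem perron [Nonempty V] (G : SimpleGraph V) :
    ∃ x : V → ℝ, (∀ v, 0 ≤ x v) ∧ ∑ v, x v ^ 2 = 1 ∧
      (∀ u, (∑ v, if G.Adj u v then x v else 0) = specRad G * x u) ∧
      ∀ z : V → ℝ, qf G z ≤ specRad G * ∑ v, z v ^ 2 := by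
  obtain ⟨x, hx0, hx1, hmax⟩ := exists_maximizer G
  have heig := eig_of_max (G := G) (x := x) (μ := qf G x) (by rw [hx1, mul_one]) hmax
  have hxne : x ≠ 0 := by
    rintro rfl
    simp at hx1
  have hmem : qf G x ∈ spectrum ℝ (G.adjMatrix ℝ) :=
    (mem_spectrum_iff G _).mpr ⟨x, hxne, heig⟩
  have hub : ∀ μ ∈ spectrum ℝ (G.adjMatrix ℝ), μ ≤ qf G x := by
    intro μ hμ
    obtain ⟨z, hz, hez⟩ := (mem_spectrum_iff G _).mp hμ
    have h1 := qf_eq_of_eig hez
    have h2 := hmax z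
    rw [h1] at h2
    have hpos : 0 < ∑ v, z v ^ 2 := by
      obtain ⟨v, hv⟩ := Function.ne_iff.mp hz
      have hv' : z v ≠ 0 := hv
      exact Finset.sum_pos' (fun i _ => sq_nonneg _) ⟨v, Finset.mem_univ v, by positivity⟩
    exact le_of_mul_le_mul_right h2 hpos
  have hsup : specRad G = qf G x := by
    unfold specRad
    apply le_antisymm
    · exact csSup_le ⟨_, hmem⟩ hub
    · exact le_csSup ⟨qf G x, hub⟩ hmem
  refine ⟨x, hx0, hx1, ?_, ?_⟩
  · rw [hsup]; exact heig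
  · rw [hsup]; exact hmax

theorem qf_le [Nonempty V] (G : SimpleGraph V) (z : V → ℝ) :
    qf G z ≤ specRad G * ∑ v, z v ^ 2 := by
  obtain ⟨x, _, _, _, h⟩ := perron G
  exact h z

theorem specRad_nonneg [Nonempty V] (G : SimpleGraph V) : 0 ≤ specRad G := by
  classical
  obtain ⟨v0⟩ := ‹Nonempty V›
  have h := qf_le G (fun v => if v = v0 then 1 else 0)
  have h0 : qf G (fun v => if v = v0 then (1:ℝ) else 0) = 0 := by
    unfold qf
    refine Finset.sum_eq_zero fun a _ => Finset.sum_eq_zero fun b _ => ?_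
    by_cases hab : G.Adj a b
    · by_cases h1 : a = v0
      · by_cases h2 : b = v0
        · subst h1; subst h2; exact absurd hab (G.irrefl)
        · simp [h2]
      · simp [h1]
    · simp [hab]
  rw [h0] at h
  have h1 : ∑ v, (if v = v0 then (1:ℝ) else 0) ^ 2 = 1 := by
    simp [ite_pow]
  rw [h1, mul_one] at h
  exact h

end MP5532fa

end

section

/-!
# MP_5532fa_co : Motzkin-Straus inequality with an explicit partition (Füredi's argument)
-/

open Finset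

namespace MP5532fa

variable {V : Type*}

open Classical in
/-- weight of the ordered adjacent pairs inside `W` -/
noncomputable def LW (G : SimpleGraph V) (y : V → ℝ) (W : Finset V) : ℝ :=
  ∑ u ∈ W, ∑ v ∈ W, if G.Adj u v then y u * y v else 0

open Classical in
/-- weight of the ordered adjacent monochromatic pairs inside `W` -/
noncomputable def IW (G : SimpleGraph V) (y : V → ℝ) {r : ℕ} (c : V → Fin r) (W : Finset V) : ℝ :=
  ∑ u ∈ W, ∑ v ∈ W, if G.Adj u v ∧ c u = c v then y u * y v else 0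

theorem ms_partition (G : SimpleGraph V) (y : V → ℝ) (hy : ∀ v, 0 ≤ y v) :
    ∀ (r : ℕ) (W : Finset V), (∀ s ⊆ W, ¬ G.IsNClique (r + 2) s) →
      ∃ c : V → Fin (r + 1), LW G y W + IW G y c W
        ≤ (1 - 1 / ((r : ℝ) + 1)) * (∑ v ∈ W, y v) ^ 2 := by
  classical
  intro r
  induction r with
  | zero =>
    intro W hW
    have hno : ∀ u ∈ W, ∀ v ∈ W, ¬ G.Adj u v := by
      intro u hu v hv h
      refine hW {u, v} ?_ ?_
      · intro z hz
        simp only [Finset.mem_insert, Finset.mem_singleton] at hz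
        rcases hz with rfl | rfl <;> assumption
      · rw [SimpleGraph.isNClique_iff, SimpleGraph.isClique_iff]
        refine ⟨?_, Finset.card_pair h.ne⟩
        intro a ha b hb hab
        simp only [Finset.coe_insert, Finset.coe_singleton, Set.mem_insert_iff,
          Set.mem_singleton_iff] at ha hb
        rcases ha with rfl | rfl <;> rcases hb with rfl | rfl
        · exact absurd rfl hab
        · exact h
        · exact h.symm
        · exact absurd rfl hab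
    refine ⟨fun _ => 0, ?_⟩
    have h1 : LW G y W = 0 := by
      unfold LW
      refine Finset.sum_eq_zero fun u hu => Finset.sum_eq_zero fun v hv => ?_
      rw [if_neg (hno u hu v hv)]
    have h2 : IW G y (fun _ => (0 : Fin 1)) W = 0 := by
      unfold IW
      refine Finset.sum_eq_zero fun u hu => Finset.sum_eq_zero fun v hv => ?_
      rw [if_neg (fun h => hno u hu v hv h.1)]
    have h3 : IW G y (fun _ => (0 : Fin (0 + 1))) W = 0 := h2
    rw [h1, h3]
    simp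
  | succ r ih =>
    intro W hW
    by_cases hWe : W = ∅
    · subst hWe
      refine ⟨fun _ => 0, ?_⟩
      simp [LW, IW]
    · have hWne : W.Nonempty := Finset.nonempty_iff_ne_empty.mpr hWe
      -- weighted degree
      set d : V → ℝ := fun u => ∑ w ∈ W, if G.Adj u w then y w else 0 with hd
      obtain ⟨v, hv, hmax⟩ := Finset.exists_max_image W d hWne
      set N : Finset V := W.filter (fun w => G.Adj v w) with hN
      set R : Finset V := W.filter (fun w => ¬ G.Adj v w) with hR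
      have hNW : N ⊆ W := Finset.filter_subset _ _
      have hRW : R ⊆ W := Finset.filter_subset _ _
      have hNR : Disjoint N R := Finset.disjoint_filter_filter_not W W (fun w => G.Adj v w)
      have hNRu : N ∪ R = W := Finset.filter_union_filter_not_eq (fun w => G.Adj v w) W
      have hcl : ∀ s ⊆ N, ¬ G.IsNClique (r + 2) s := by
        intro s hs hcl
        refine hW (insert v s) ?_ ?_
        · intro z hz
          rcases Finset.mem_insert.mp hz with rfl | hz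
          · exact hv
          · exact hNW (hs hz)
        · exact hcl.insert (fun b hb => (Finset.mem_filter.mp (hs hb)).2)
      obtain ⟨c', hc'⟩ := ih N hcl
      set c : V → Fin (r + 1 + 1) := fun u => if u ∈ N then (c' u).castSucc else Fin.last _ with hc
      refine ⟨c, ?_⟩
      have hsumN : ∑ w ∈ N, y w = d v := by
        rw [hd, hN, Finset.sum_filter]
      set Y := ∑ w ∈ W, y w with hY
      set M := d v with hM
      have hsumR : ∑ w ∈ R, y w = Y - M := by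
        have : ∑ w ∈ N, y w + ∑ w ∈ R, y w = Y := by
          rw [← Finset.sum_union hNR, hNRu]
        linarith
      -- split a double sum over W
      have split : ∀ f : V → V → ℝ, ∑ u ∈ W, ∑ w ∈ W, f u w
          = (∑ u ∈ N, ∑ w ∈ N, f u w) + (∑ u ∈ N, ∑ w ∈ R, f u w)
            + ((∑ u ∈ R, ∑ w ∈ N, f u w) + ∑ u ∈ R, ∑ w ∈ R, f u w) := by
        intro f
        rw [← hNRu, Finset.sum_union hNR]
        simp only [Finset.sum_union hNR, Finset.sum_add_distrib]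
      have hL : LW G y W = LW G y N + 2 * (∑ u ∈ R, y u * d u) - LW G y R := by
        have h1 : LW G y W = (∑ u ∈ N, ∑ w ∈ N, if G.Adj u w then y u * y w else 0)
            + (∑ u ∈ N, ∑ w ∈ R, if G.Adj u w then y u * y w else 0)
            + ((∑ u ∈ R, ∑ w ∈ N, if G.Adj u w then y u * y w else 0)
              + ∑ u ∈ R, ∑ w ∈ R, if G.Adj u w then y u * y w else 0) := split _
        have h2 : (∑ u ∈ N, ∑ w ∈ R, if G.Adj u w then y u * y w else 0)
            = ∑ u ∈ R, ∑ w ∈ N, if G.Adj u w then y u * y w else 0 := by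
          rw [Finset.sum_comm]
          refine Finset.sum_congr rfl fun a _ => Finset.sum_congr rfl fun b _ => ?_
          have hsym := G.adj_comm a b
          by_cases h : G.Adj a b
          · rw [if_pos h, if_pos (hsym.mp h), mul_comm]
          · rw [if_neg h, if_neg (mt hsym.mpr h)]
        have h3 : (∑ u ∈ R, y u * d u)
            = (∑ u ∈ R, ∑ w ∈ N, if G.Adj u w then y u * y w else 0)
              + ∑ u ∈ R, ∑ w ∈ R, if G.Adj u w then y u * y w else 0 := by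
          rw [← Finset.sum_add_distrib]
          refine Finset.sum_congr rfl fun u _ => ?_
          rw [hd]
          simp only
          rw [← hNRu, Finset.sum_union hNR, mul_add, Finset.mul_sum, Finset.mul_sum]
          congr 1
          · refine Finset.sum_congr rfl fun w _ => ?_
            split_ifs <;> ring
          · refine Finset.sum_congr rfl fun w _ => ?_
            split_ifs <;> ring
        rw [h1, h2, h3]
        unfold LW
        ring
      have hI : IW G y c W = IW G y c' N + LW G y R := by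
        have h1 : IW G y c W = (∑ u ∈ N, ∑ w ∈ N, if G.Adj u w ∧ c u = c w then y u * y w else 0)
            + (∑ u ∈ N, ∑ w ∈ R, if G.Adj u w ∧ c u = c w then y u * y w else 0)
            + ((∑ u ∈ R, ∑ w ∈ N, if G.Adj u w ∧ c u = c w then y u * y w else 0)
              + ∑ u ∈ R, ∑ w ∈ R, if G.Adj u w ∧ c u = c w then y u * y w else 0) := split _
        have hRN : ∀ u ∈ R, u ∉ N := fun u hu hn => (Finset.disjoint_left.mp hNR hn) hu
        have hcN : ∀ u ∈ N, c u = (c' u).castSucc := fun u hu => by simp [hc, hu]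
        have hcR : ∀ u ∈ R, c u = Fin.last _ := fun u hu => by simp [hc, hRN u hu]
        have h2 : (∑ u ∈ N, ∑ w ∈ R, if G.Adj u w ∧ c u = c w then y u * y w else 0) = 0 := by
          refine Finset.sum_eq_zero fun u hu => Finset.sum_eq_zero fun w hw => ?_
          rw [if_neg]
          rintro ⟨_, h⟩
          rw [hcN u hu, hcR w hw] at h
          exact (Fin.castSucc_lt_last (c' u)).ne h
        have h3 : (∑ u ∈ R, ∑ w ∈ N, if G.Adj u w ∧ c u = c w then y u * y w else 0) = 0 := by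
          refine Finset.sum_eq_zero fun u hu => Finset.sum_eq_zero fun w hw => ?_
          rw [if_neg]
          rintro ⟨_, h⟩
          rw [hcR u hu, hcN w hw] at h
          exact (Fin.castSucc_lt_last (c' w)).ne h.symm
        have h4 : (∑ u ∈ R, ∑ w ∈ R, if G.Adj u w ∧ c u = c w then y u * y w else 0)
            = LW G y R := by
          unfold LW
          refine Finset.sum_congr rfl fun u hu => Finset.sum_congr rfl fun w hw => ?_
          have : c u = c w := by rw [hcR u hu, hcR w hw]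
          simp [this]
        have h5 : (∑ u ∈ N, ∑ w ∈ N, if G.Adj u w ∧ c u = c w then y u * y w else 0)
            = IW G y c' N := by
          unfold IW
          refine Finset.sum_congr rfl fun u hu => Finset.sum_congr rfl fun w hw => ?_
          have : (c u = c w) ↔ (c' u = c' w) := by
            rw [hcN u hu, hcN w hw]
            exact Fin.castSucc_inj
          simp only [this]
        rw [h1, h2, h3, h4, h5]; ring
      have hb : ∑ u ∈ R, y u * d u ≤ M * (Y - M) := by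
        calc ∑ u ∈ R, y u * d u ≤ ∑ u ∈ R, y u * M :=
              Finset.sum_le_sum fun u hu => mul_le_mul_of_nonneg_left (hmax u (hRW hu)) (hy u)
          _ = M * (Y - M) := by rw [← Finset.sum_mul, hsumR]; ring
      rw [hsumN] at hc'
      rw [hL, hI]
      have hr : (0 : ℝ) < (r : ℝ) + 1 := by positivity
      have hr2 : (0 : ℝ) < (r : ℝ) + 1 + 1 := by positivity
      have key : (1 - 1 / ((r : ℝ) + 1)) * M ^ 2 + 2 * (M * (Y - M))
          ≤ (1 - 1 / ((r : ℝ) + 1 + 1)) * Y ^ 2 := by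
        have e : (1 - 1 / ((r : ℝ) + 1 + 1)) * Y ^ 2
            - ((1 - 1 / ((r : ℝ) + 1)) * M ^ 2 + 2 * (M * (Y - M)))
            = ((r : ℝ) + 1 + 1) / ((r : ℝ) + 1)
              * (M - ((r : ℝ) + 1) / ((r : ℝ) + 1 + 1) * Y) ^ 2 := by
          field_simp
          ring
        have : 0 ≤ ((r : ℝ) + 1 + 1) / ((r : ℝ) + 1)
              * (M - ((r : ℝ) + 1) / ((r : ℝ) + 1 + 1) * Y) ^ 2 := by positivity
        linarith
      push_cast
      linarith

end MP5532fa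

end

section

/-!
# MP_5532fa_co : building the context, the general bound
-/

open Finset

namespace MP5532fa

variable {V : Type*} [Fintype V]

open Classical in
/-- the number of ordered edges -/
noncomputable def pE (G : SimpleGraph V) : ℝ :=
  (((univ : Finset (V × V)).filter (fun e => G.Adj e.1 e.2)).card : ℝ)

theorem pE_eq (G : SimpleGraph V) : pE G = 2 * (G.edgeSet.ncard : ℝ) := by
  classical
  unfold pE
  have h := SimpleGraph.two_mul_card_edgeFinset (G := G)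
  have h2 : G.edgeSet.ncard = G.edgeFinset.card := by
    rw [← SimpleGraph.coe_edgeFinset, Set.ncard_coe_finset]
  rw [h2]
  have h3 : ((univ : Finset (V × V)).filter (fun e => G.Adj e.1 e.2)).card
      = 2 * G.edgeFinset.card := by
    rw [h]
  rw [h3]
  push_cast
  ring

/-- `Σ_E (x_u x_v)²` and the spectral radius: data coming from the Perron vector. -/
theorem nik_data [Nonempty V] {q : ℕ} (G : SimpleGraph V) (free : G.CliqueFree (q + 2))
    {x : V → ℝ} (hx1 : ∑ v, x v ^ 2 = 1) :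
    ∃ c : V → Fin (q + 1),
      LW G (fun v => x v ^ 2) univ + IW G (fun v => x v ^ 2) c univ ≤ 1 - 1 / ((q : ℝ) + 1) := by
  classical
  obtain ⟨c, hc⟩ := ms_partition G (fun v => x v ^ 2) (fun v => sq_nonneg _) q univ
    (fun s _ => free s)
  refine ⟨c, ?_⟩
  rw [hx1] at hc
  simpa using hc

omit [Fintype V] in
theorem IW_nonneg [Fintype V] {G : SimpleGraph V} {y : V → ℝ} (hy : ∀ v, 0 ≤ y v) {r : ℕ} (c : V → Fin r)
    (W : Finset V) : 0 ≤ IW G y c W := by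
  classical
  unfold IW
  refine Finset.sum_nonneg fun u _ => Finset.sum_nonneg fun v _ => ?_
  split_ifs
  · exact mul_nonneg (hy u) (hy v)
  · exact le_rfl

/-- Nikiforov's bound. -/
theorem nikiforov [Nonempty V] {q : ℕ} (G : SimpleGraph V) (free : G.CliqueFree (q + 2)) :
    specRad G ^ 2 ≤ (1 - 1 / ((q : ℝ) + 1)) * pE G := by
  classical
  obtain ⟨x, hx0, hx1, heig, _⟩ := perron G
  obtain ⟨c, hc⟩ := nik_data G free hx1
  have hI := IW_nonneg (G := G) (y := fun v => x v ^ 2) (fun v => sq_nonneg _) c univ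
  have h1 : specRad G = ∑ e ∈ univ.filter (fun e : V × V => G.Adj e.1 e.2), x e.1 * x e.2 := by
    have := qf_eq_of_eig heig
    rw [hx1, mul_one] at this
    rw [← this]
    unfold qf
    rw [Finset.sum_filter, ← Finset.univ_product_univ, Finset.sum_product]
  have h2 : LW G (fun v => x v ^ 2) univ
      = ∑ e ∈ univ.filter (fun e : V × V => G.Adj e.1 e.2), (x e.1 * x e.2) ^ 2 := by
    unfold LW
    rw [Finset.sum_filter, ← Finset.univ_product_univ, Finset.sum_product]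
    refine Finset.sum_congr rfl fun u _ => Finset.sum_congr rfl fun v _ => ?_
    split_ifs
    · ring
    · rfl
  have h3 := sq_sum_le_card_mul_sum_sq (s := univ.filter (fun e : V × V => G.Adj e.1 e.2))
    (f := fun e => x e.1 * x e.2)
  rw [← h1, ← h2] at h3
  have h4 : (0:ℝ) ≤ ((univ.filter (fun e : V × V => G.Adj e.1 e.2)).card : ℝ) := by positivity
  unfold pE
  calc specRad G ^ 2 ≤ _ := h3
    _ ≤ ((univ.filter (fun e : V × V => G.Adj e.1 e.2)).card : ℝ) * (1 - 1 / ((q : ℝ) + 1)) :=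
      mul_le_mul_of_nonneg_left (by linarith) h4
    _ = _ := by ring

end MP5532fa

end

section

/-!
# MP_5532fa_co : the defect graphs
-/

open Finset

namespace MP5532fa

section

variable {U : Type*} {r : ℕ} {c : U → Fin r} {v : Fin r → U} {a b : Fin r}

variable [Fintype U]

/-- class sizes -/
noncomputable def sz (c : U → Fin r) (i : Fin r) : ℕ := Nat.card {u // c u = i}

theorem sz_eq (c : U → Fin r) (i : Fin r) :
    sz c i = (open Classical in univ.filter (fun u => c u = i)).card := by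
  classical
  unfold sz
  rw [Nat.card_eq_fintype_card, Fintype.card_subtype]

theorem sum_sz (c : U → Fin r) : ∑ i, sz c i = Fintype.card U := by
  classical
  simp only [sz_eq]
  rw [← Finset.card_univ]
  exact (Finset.card_eq_sum_card_fiberwise (fun _ _ => Finset.mem_univ _)).symm

theorem pE_qf {V : Type*} [Fintype V] (G : SimpleGraph V) : pE G = qf G (fun _ => 1) := by
  classical
  unfold pE qf
  rw [Finset.card_filter]
  push_cast
  rw [← Finset.univ_product_univ, Finset.sum_product]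
  simp

end

end MP5532fa

end

section

/-!
# MP_5532fa_co : graphs up to isolated vertices, isomorphisms of the defect graphs
-/

open Finset

namespace MP5532fa

/-- `G` is isomorphic to `D` together with isolated vertices. -/
def UpToIsolated {V W : Type*} (G : SimpleGraph V) (D : SimpleGraph W) : Prop :=
  ∃ f : D ↪g G, ∀ v, v ∉ Set.range f → ∀ w, ¬ G.Adj v w

theorem UpToIsolated.trans_iso {V W W' : Type*} {G : SimpleGraph V} {D : SimpleGraph W}
    {D' : SimpleGraph W'} (h : UpToIsolated G D) (e : D' ≃g D) : UpToIsolated G D' := by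
  obtain ⟨f, hf⟩ := h
  refine ⟨e.toEmbedding.trans f, ?_⟩
  intro v hv w
  apply hf v
  rintro ⟨u, rfl⟩
  apply hv
  exact ⟨e.symm u, by simp⟩

theorem specRad_of_upTo {V W : Type*} [Fintype V] [Fintype W] [Nonempty W]
    {G : SimpleGraph V} {D : SimpleGraph W} (h : UpToIsolated G D) : specRad G = specRad D := by
  classical
  obtain ⟨f, hf⟩ := h
  have hinj : Function.Injective f := f.injective
  have : Nonempty V := ⟨f (Classical.arbitrary W)⟩
  have hadj : ∀ a b, G.Adj (f a) (f b) ↔ D.Adj a b := fun a b => f.map_adj_iff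
  -- transfer of the form
  have hqf : ∀ x : V → ℝ, qf G x = qf D (fun w => x (f w)) := by
    intro x
    unfold qf
    have h1 : ∀ u, (∑ v, if G.Adj u v then x u * x v else 0)
        = ∑ w, if G.Adj u (f w) then x u * x (f w) else 0 := by
      intro u
      rw [← Finset.sum_image (f := fun v => if G.Adj u v then x u * x v else 0) (g := f)
        (s := univ) (fun a _ b _ h => hinj h)]
      symm
      refine Finset.sum_subset (Finset.subset_univ _) ?_
      intro v _ hv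
      have : v ∉ Set.range f := by
        rintro ⟨w, rfl⟩
        exact hv (Finset.mem_image.mpr ⟨w, Finset.mem_univ _, rfl⟩)
      rw [if_neg (fun h => hf v this u h.symm)]
    simp only [h1]
    rw [← Finset.sum_subset (Finset.subset_univ (univ.image f))]
    · rw [Finset.sum_image (fun a _ b _ h => hinj h)]
      simp only [hadj]
    · intro v _ hv
      have : v ∉ Set.range f := by
        rintro ⟨w, rfl⟩
        exact hv (Finset.mem_image.mpr ⟨w, Finset.mem_univ _, rfl⟩)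
      refine Finset.sum_eq_zero fun w _ => ?_
      rw [if_neg (hf v this _)]
  apply le_antisymm
  · obtain ⟨x, hx0, hx1, heig, _⟩ := perron G
    have h1 : qf G x = specRad G := by rw [qf_eq_of_eig heig, hx1, mul_one]
    rw [← h1, hqf]
    have h2 := qf_le D (fun w => x (f w))
    have h3 : ∑ w, x (f w) ^ 2 ≤ 1 := by
      rw [← hx1, ← Finset.sum_image (f := fun v => x v ^ 2) (g := f) (s := univ)
        (fun a _ b _ h => hinj h)]
      exact Finset.sum_le_sum_of_subset_of_nonneg (Finset.subset_univ _) fun u _ _ => sq_nonneg _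
    have h4 := specRad_nonneg D
    nlinarith
  · obtain ⟨y, hy0, hy1, heig, _⟩ := perron D
    have h1 : qf D y = specRad D := by rw [qf_eq_of_eig heig, hy1, mul_one]
    set x : V → ℝ := fun v => if h : ∃ w, f w = v then y h.choose else 0 with hx
    have hxf : ∀ w, x (f w) = y w := by
      intro w
      have h : ∃ w', f w' = f w := ⟨w, rfl⟩
      rw [hx]
      simp only [h, dif_pos]
      congr 1
      exact hinj h.choose_spec
    have h2 : qf G x = qf D y := by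
      rw [hqf]; congr 1; funext w; exact hxf w
    have h3 : ∑ v, x v ^ 2 = 1 := by
      rw [← hy1, ← Finset.sum_subset (Finset.subset_univ (univ.image f))]
      · rw [Finset.sum_image (fun a _ b _ h => hinj h)]
        exact Finset.sum_congr rfl fun w _ => by rw [hxf]
      · intro v _ hv
        have : ¬ ∃ w, f w = v := by
          rintro ⟨w, rfl⟩
          exact hv (Finset.mem_image.mpr ⟨w, Finset.mem_univ _, rfl⟩)
        rw [hx]
        simp only [this, dif_neg, not_false_eq_true]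
        norm_num
    rw [← h1, ← h2]
    have := qf_le G x
    rw [h3, mul_one] at this
    exact this

theorem pE_of_upTo {V W : Type*} [Fintype V] [Fintype W]
    {G : SimpleGraph V} {D : SimpleGraph W} (h : UpToIsolated G D) : pE G = pE D := by
  classical
  obtain ⟨f, hf⟩ := h
  have hinj : Function.Injective f := f.injective
  unfold pE
  congr 1
  symm
  refine Finset.card_bij (fun e _ => (f e.1, f e.2)) ?_ ?_ ?_
  · intro e he
    rw [Finset.mem_filter] at he ⊢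
    exact ⟨Finset.mem_univ _, f.map_adj_iff.mpr he.2⟩
  · intro a _ b _ h
    have h1 := (Prod.mk.inj h).1
    have h2 := (Prod.mk.inj h).2
    exact Prod.ext (hinj h1) (hinj h2)
  · intro e he
    have hadj := (Finset.mem_filter.mp he).2
    have h1 : e.1 ∈ Set.range f := by
      by_contra h
      exact hf _ h _ hadj
    have h2 : e.2 ∈ Set.range f := by
      by_contra h
      exact hf _ h _ hadj.symm
    obtain ⟨a, ha⟩ := h1
    obtain ⟨b, hb⟩ := h2
    refine ⟨(a, b), ?_, ?_⟩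
    · rw [Finset.mem_filter]
      refine ⟨Finset.mem_univ _, ?_⟩
      rw [← ha, ← hb] at hadj
      exact f.map_adj_iff.mp hadj
    · exact Prod.ext ha hb

end MP5532fa

end

section

/-!
# MP_5532fa_co : Turán sizes
-/

open Finset

namespace MP5532fa

/-- residue class map -/
def cT (r N : ℕ) (hr : 0 < r) : Fin N → Fin r := fun k => ⟨k.val % r, Nat.mod_lt _ hr⟩

theorem sz_cT {r N : ℕ} (hr : 0 < r) (i : Fin r) :
    sz (cT r N hr) i = N / r + if i.val < N % r then 1 else 0 := by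
  classical
  have h1 := Nat.count_modEq_card N hr i.val
  rw [Nat.mod_eq_of_lt i.2, Nat.count_eq_card_filter_range] at h1
  rw [← h1, sz_eq]
  refine Finset.card_bij (fun k _ => k.val) ?_ ?_ ?_
  · intro k hk
    have hk' := congrArg Fin.val (Finset.mem_filter.mp hk).2
    refine Finset.mem_filter.mpr ⟨Finset.mem_range.mpr k.2, ?_⟩
    show k.val % r = i.val % r
    rw [Nat.mod_eq_of_lt i.2]
    exact hk'
  · intro a _ b _ h
    exact Fin.ext h
  · intro k hk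
    obtain ⟨hk1, hk2⟩ := Finset.mem_filter.mp hk
    refine ⟨⟨k, Finset.mem_range.mp hk1⟩, ?_, rfl⟩
    refine Finset.mem_filter.mpr ⟨Finset.mem_univ _, ?_⟩
    apply Fin.ext
    show k % r = i.val
    have : k % r = i.val % r := hk2
    rw [this, Nat.mod_eq_of_lt i.2]

theorem cT_bal {r N : ℕ} (hr : 0 < r) (i j : Fin r) :
    sz (cT r N hr) i ≤ sz (cT r N hr) j + 1 := by
  rw [sz_cT, sz_cT]
  split_ifs <;> omega

/-- edges of a complete multipartite graph -/
theorem pE_mult {U : Type*} [Fintype U] {r : ℕ} (c : U → Fin r) (T : SimpleGraph U)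
    (hT : ∀ u w, T.Adj u w ↔ c u ≠ c w) :
    pE T = (Fintype.card U : ℝ) ^ 2 - ∑ i, (sz c i : ℝ) ^ 2 := by
  classical
  rw [pE_qf]
  unfold qf
  have e1 : ∀ u, (∑ w, if T.Adj u w then (1:ℝ) * 1 else 0)
      = (Fintype.card U : ℝ) - sz c (c u) := by
    intro u
    have e2 : ∀ w, (if T.Adj u w then (1:ℝ) * 1 else 0) = 1 - (if c w = c u then 1 else 0) := by
      intro w
      by_cases h : c w = c u
      · rw [if_neg (fun h' => (hT u w).mp h' h.symm), if_pos h]; ring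
      · rw [if_pos ((hT u w).mpr (fun h' => h h'.symm)), if_neg h]; ring
    simp only [e2, Finset.sum_sub_distrib]
    rw [sz_eq, Finset.card_filter]
    push_cast
    simp
  simp only [e1, Finset.sum_sub_distrib]
  have e3 : ∑ u, (sz c (c u) : ℝ) = ∑ i, (sz c i : ℝ) ^ 2 := by
    rw [← Finset.sum_fiberwise univ c]
    refine Finset.sum_congr rfl fun i _ => ?_
    have : ∑ u ∈ univ.filter (fun u => c u = i), (sz c (c u) : ℝ)
        = ∑ u ∈ univ.filter (fun u => c u = i), (sz c i : ℝ) :=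
      Finset.sum_congr rfl fun u hu => by rw [(Finset.mem_filter.mp hu).2]
    rw [this, Finset.sum_const, nsmul_eq_mul, ← sz_eq]
    ring
  rw [e3]
  simp
  ring

end MP5532fa

end

section

/-!
# MP_5532fa_co, upgrade: definitions and basic lemmas

All graphs live on a finite type `V : Type`. No decidability instances occur in the statements:
use `chi`, `ad`, `nb`, `nn`, `out`, `fib` and their membership lemmas.
-/

open Finset

namespace Pool.Agent.Work.MP_5532fa_up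

open MP5532fa (specRad qf pE)

/-! ## indicator, adjacency, neighbourhoods -/

open Classical in
/-- indicator of a proposition -/
noncomputable def chi (p : Prop) : ℝ := if p then 1 else 0

theorem chi_pos {p : Prop} (h : p) : chi p = 1 := by unfold chi; rw [if_pos h]
theorem chi_neg {p : Prop} (h : ¬ p) : chi p = 0 := by unfold chi; rw [if_neg h]
theorem chi_nonneg (p : Prop) : 0 ≤ chi p := by unfold chi; split_ifs <;> norm_num
theorem chi_le_one (p : Prop) : chi p ≤ 1 := by unfold chi; split_ifs <;> norm_num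
theorem chi_congr {p q : Prop} (h : p ↔ q) : chi p = chi q := by rw [propext h]

/-- `1 - 1/r` -/
noncomputable def al (r : ℕ) : ℝ := 1 - 1 / (r : ℝ)

theorem al_ge {r : ℕ} (hr : 3 ≤ r) : 2 / 3 ≤ al r := by
  unfold al
  have h : (3 : ℝ) ≤ r := by exact_mod_cast hr
  have : 1 / (r : ℝ) ≤ 1 / 3 := one_div_le_one_div_of_le (by norm_num) h
  linarith

theorem al_lt {r : ℕ} (hr : 3 ≤ r) : al r < 1 := by
  unfold al
  have h : (3 : ℝ) ≤ r := by exact_mod_cast hr
  have : 0 < 1 / (r : ℝ) := by positivity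
  linarith

section
variable {V : Type} [Fintype V] {r : ℕ}

/-- adjacency as a real number -/
noncomputable def ad (G : SimpleGraph V) (a b : V) : ℝ := chi (G.Adj a b)

omit [Fintype V] in
theorem ad_comm (G : SimpleGraph V) (a b : V) : ad G a b = ad G b a := chi_congr (G.adj_comm a b)

/-- the part of `S` in the class `i` -/
def cl (S : Finset V) (c : V → Fin r) (i : Fin r) : Finset V := S.filter (fun v => c v = i)

omit [Fintype V] in
theorem mem_cl {S : Finset V} {c : V → Fin r} {i : Fin r} {v : V} :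
    v ∈ cl S c i ↔ v ∈ S ∧ c v = i := by simp [cl]

open Classical in
/-- neighbours of `v` in `S` -/
noncomputable def nb (G : SimpleGraph V) (S : Finset V) (v : V) : Finset V :=
  S.filter (fun u => G.Adj v u)

omit [Fintype V] in
theorem mem_nb {G : SimpleGraph V} {S : Finset V} {u v : V} :
    u ∈ nb G S v ↔ u ∈ S ∧ G.Adj v u := by simp [nb]

open Classical in
/-- non-neighbours of `v` in `S` -/
noncomputable def nn (G : SimpleGraph V) (S : Finset V) (v : V) : Finset V :=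
  S.filter (fun u => ¬ G.Adj v u)

omit [Fintype V] in
theorem mem_nn {G : SimpleGraph V} {S : Finset V} {u v : V} :
    u ∈ nn G S v ↔ u ∈ S ∧ ¬ G.Adj v u := by simp [nn]

/-- number of neighbours of `v` in `S` -/
noncomputable def dg (G : SimpleGraph V) (S : Finset V) (v : V) : ℕ := (nb G S v).card

open Classical in
/-- complement of a finite set -/
noncomputable def out (S : Finset V) : Finset V := univ.filter (fun v => v ∉ S)

theorem mem_out {S : Finset V} {v : V} : v ∈ out S ↔ v ∉ S := by simp [out]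

open Classical in
/-- fibre of a label function -/
noncomputable def fib {L : Type} (S : Finset V) (l : V → L) (a : L) : Finset V :=
  S.filter (fun v => l v = a)

omit [Fintype V] in
theorem mem_fib {L : Type} {S : Finset V} {l : V → L} {a : L} {v : V} :
    v ∈ fib S l a ↔ v ∈ S ∧ l v = a := by simp [fib]

open Classical in
/-- number of ordered pairs in `S` from different classes which are not adjacent -/
noncomputable def mis (G : SimpleGraph V) (S : Finset V) (c : V → Fin r) : ℕ :=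
  ((S ×ˢ S).filter (fun e => c e.1 ≠ c e.2 ∧ ¬ G.Adj e.1 e.2)).card

open Classical in
/-- number of ordered adjacent pairs whose first vertex is outside `S` -/
noncomputable def eo (G : SimpleGraph V) (S : Finset V) : ℕ :=
  ((univ : Finset (V × V)).filter (fun e => G.Adj e.1 e.2 ∧ e.1 ∉ S)).card

open Classical in
/-- number of ordered adjacent pairs outside `S` -/
noncomputable def eu (G : SimpleGraph V) (S : Finset V) : ℕ :=
  ((univ : Finset (V × V)).filter (fun e => G.Adj e.1 e.2 ∧ e.1 ∉ S ∧ e.2 ∉ S)).card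

/-- size of the class `i` as a real number -/
noncomputable def sz (S : Finset V) (c : V → Fin r) (i : Fin r) : ℝ := ((cl S c i).card : ℝ)

/-- imbalance of the class sizes -/
noncomputable def imb (S : Finset V) (c : V → Fin r) : ℝ :=
  ∑ i, (sz S c i - (S.card : ℝ) / r) ^ 2

/-- sum of `x` over the class `i` of `S` -/
noncomputable def cs (x : V → ℝ) (S : Finset V) (c : V → Fin r) (i : Fin r) : ℝ :=
  ∑ v ∈ cl S c i, x v

omit [Fintype V] in
theorem sum_cl (S : Finset V) (c : V → Fin r) (f : V → ℝ) :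
    ∑ i, ∑ v ∈ cl S c i, f v = ∑ v ∈ S, f v :=
  Finset.sum_fiberwise S c f

omit [Fintype V] in
theorem sum_card_cl (S : Finset V) (c : V → Fin r) : ∑ i, (cl S c i).card = S.card := by
  have h := Finset.card_eq_sum_card_fiberwise (s := S) (t := (univ : Finset (Fin r))) (f := c)
    (fun _ _ => Finset.mem_coe.mpr (Finset.mem_univ _))
  exact h.symm

/-! ## eigenvectors -/

/-- `x` is a nonnegative unit eigenvector for the spectral radius `lam` of `G` -/
structure PV (G : SimpleGraph V) (x : V → ℝ) (lam : ℝ) : Prop where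
  nn : ∀ v, 0 ≤ x v
  unit : ∑ v, x v ^ 2 = 1
  eig : ∀ u, ∑ v, ad G u v * x v = lam * x u
  rad : lam = specRad G

theorem ad_qf (G : SimpleGraph V) (z : V → ℝ) :
    ∑ u, ∑ v, ad G u v * (z u * z v) = qf G z := by
  classical
  unfold qf
  refine Finset.sum_congr rfl fun u _ => Finset.sum_congr rfl fun v _ => ?_
  by_cases h : G.Adj u v
  · rw [if_pos h]; unfold ad; rw [chi_pos h, one_mul]
  · rw [if_neg h]; unfold ad; rw [chi_neg h, zero_mul]

theorem exists_PV [Nonempty V] (G : SimpleGraph V) : ∃ x, PV G x (specRad G) := by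
  classical
  obtain ⟨x, h0, h1, h2, _⟩ := MP5532fa.perron G
  refine ⟨x, h0, h1, fun u => ?_, rfl⟩
  rw [← h2 u]
  refine Finset.sum_congr rfl fun v _ => ?_
  by_cases h : G.Adj u v
  · rw [if_pos h]; unfold ad; rw [chi_pos h, one_mul]
  · rw [if_neg h]; unfold ad; rw [chi_neg h, zero_mul]

/-- Rayleigh quotient bound -/
theorem rayleigh [Nonempty V] (G : SimpleGraph V) (z : V → ℝ) :
    ∑ u, ∑ v, ad G u v * (z u * z v) ≤ specRad G * ∑ v, z v ^ 2 := by
  rw [ad_qf]; exact MP5532fa.qf_le G z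

theorem pE_ad (G : SimpleGraph V) : pE G = ∑ u, ∑ v, ad G u v := by
  rw [MP5532fa.pE_qf, ← ad_qf]
  simp

theorem PV.nonempty {G : SimpleGraph V} {x : V → ℝ} {lam : ℝ} (h : PV G x lam) : Nonempty V := by
  by_contra hV
  rw [not_nonempty_iff] at hV
  have := h.unit
  simp at this

theorem PV.form {G : SimpleGraph V} {x : V → ℝ} {lam : ℝ} (h : PV G x lam) :
    ∑ u, ∑ v, ad G u v * (x u * x v) = lam := by
  have h1 : ∀ u, ∑ v, ad G u v * (x u * x v) = lam * x u ^ 2 := by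
    intro u
    have : ∑ v, ad G u v * (x u * x v) = x u * ∑ v, ad G u v * x v := by
      rw [Finset.mul_sum]; exact Finset.sum_congr rfl fun v _ => by ring
    rw [this, h.eig]; ring
  simp only [h1]
  rw [← Finset.mul_sum, h.unit, mul_one]

/-- the pairing identity for two graphs -/
theorem pairing {G G' : SimpleGraph V} {x y : V → ℝ} {lam lam' : ℝ} (h : PV G x lam)
    (h' : PV G' y lam') :
    ∑ a, ∑ b, (ad G' a b - ad G a b) * (x a * y b) = (lam' - lam) * ∑ v, x v * y v := by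
  have e1 : ∑ a, ∑ b, ad G' a b * (x a * y b) = lam' * ∑ v, x v * y v := by
    rw [Finset.mul_sum]
    refine Finset.sum_congr rfl fun a _ => ?_
    have : ∑ b, ad G' a b * (x a * y b) = x a * ∑ b, ad G' a b * y b := by
      rw [Finset.mul_sum]; exact Finset.sum_congr rfl fun b _ => by ring
    rw [this, h'.eig]; ring
  have e2 : ∑ a, ∑ b, ad G a b * (x a * y b) = lam * ∑ v, x v * y v := by
    rw [Finset.sum_comm, Finset.mul_sum]
    refine Finset.sum_congr rfl fun b _ => ?_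
    have : ∑ a, ad G a b * (x a * y b) = y b * ∑ a, ad G b a * x a := by
      rw [Finset.mul_sum]
      exact Finset.sum_congr rfl fun a _ => by rw [ad_comm G a b]; ring
    rw [this, h.eig]; ring
  rw [sub_mul, ← e1, ← e2, ← Finset.sum_sub_distrib]
  refine Finset.sum_congr rfl fun a _ => ?_
  rw [← Finset.sum_sub_distrib]
  exact Finset.sum_congr rfl fun b _ => by ring

/-- `G` maximises the spectral radius among the graphs on `V` with the same number of edges,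
without a clique on `r + 1` vertices and not `r`-colourable -/
def MX (r : ℕ) (G : SimpleGraph V) : Prop :=
  ∀ G' : SimpleGraph V, G'.CliqueFree (r + 1) → ¬ G'.Colorable r → pE G' = pE G →
    specRad G' ≤ specRad G

/-! ## the two types of graphs -/

/-- `G` is the complete multipartite graph on `H` (classes given by `c`) without the edge `v1 v2`,
together with the vertex `w` joined exactly to `A`; all other vertices are isolated.
`v1`, `v2` are the only vertices of `A` in their classes and all classes meet `A`. -/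
structure WD (G : SimpleGraph V) (N : ℕ) (H : Finset V) (c : V → Fin r) (w : V) (A : Finset V)
    (v1 v2 : V) : Prop where
  card : H.card = N
  hw : w ∉ H
  hA : A ⊆ H
  h12 : c v1 ≠ c v2
  h1 : cl A c (c v1) = {v1}
  h2 : cl A c (c v2) = {v2}
  hne : ∀ i, (cl A c i).Nonempty
  adj : ∀ a b, G.Adj a b ↔
    (a ∈ H ∧ b ∈ H ∧ c a ≠ c b ∧ ¬ (a = v1 ∧ b = v2) ∧ ¬ (a = v2 ∧ b = v1)) ∨
      (a = w ∧ b ∈ A) ∨ (b = w ∧ a ∈ A)

/-- `G` is the complete multipartite graph on `H` (classes given by `c`), together with the vertex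
`w` joined to `A` and the vertex `u` joined to `B`, and with the edge `u w`; all other vertices are
isolated. The class `i0` meets neither `A` nor `B`, every other class meets `A` and contains exactly
one vertex of `B`, and `B` is not contained in `A`. -/
structure WE (G : SimpleGraph V) (N : ℕ) (H : Finset V) (c : V → Fin r) (w u : V) (A B : Finset V)
    (i0 : Fin r) : Prop where
  card : H.card = N
  hw : w ∉ H
  hu : u ∉ H
  hwu : w ≠ u
  hA : A ⊆ H
  hB : B ⊆ H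
  hA0 : cl A c i0 = ∅
  hB0 : cl B c i0 = ∅
  hAne : ∀ i, i ≠ i0 → (cl A c i).Nonempty
  hB1 : ∀ i, i ≠ i0 → (cl B c i).card = 1
  hBA : ¬ B ⊆ A
  adj : ∀ a b, G.Adj a b ↔
    (a ∈ H ∧ b ∈ H ∧ c a ≠ c b) ∨ (a = w ∧ b ∈ A) ∨ (b = w ∧ a ∈ A) ∨
      (a = u ∧ b ∈ B) ∨ (b = u ∧ a ∈ B) ∨ (a = w ∧ b = u) ∨ (a = u ∧ b = w)

/-- the graph of `WD` -/
def gD (H : Finset V) (c : V → Fin r) (w : V) (A : Finset V) (v1 v2 : V) : SimpleGraph V where
  Adj a b := a ≠ b ∧ ((a ∈ H ∧ b ∈ H ∧ c a ≠ c b ∧ ¬ (a = v1 ∧ b = v2) ∧ ¬ (a = v2 ∧ b = v1)) ∨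
      (a = w ∧ b ∈ A) ∨ (b = w ∧ a ∈ A))
  symm := ⟨by
    rintro a b ⟨hab, h⟩
    refine ⟨hab.symm, ?_⟩
    rcases h with ⟨h1, h2, h3, h4, h5⟩ | h | h
    · exact Or.inl ⟨h2, h1, h3.symm, fun h => h5 ⟨h.2, h.1⟩, fun h => h4 ⟨h.2, h.1⟩⟩
    · exact Or.inr (Or.inr h)
    · exact Or.inr (Or.inl h)⟩
  loopless := ⟨fun _ h => h.1 rfl⟩

/-- the graph of `WE` -/
def gE (H : Finset V) (c : V → Fin r) (w u : V) (A B : Finset V) : SimpleGraph V where
  Adj a b := a ≠ b ∧ ((a ∈ H ∧ b ∈ H ∧ c a ≠ c b) ∨ (a = w ∧ b ∈ A) ∨ (b = w ∧ a ∈ A) ∨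
      (a = u ∧ b ∈ B) ∨ (b = u ∧ a ∈ B) ∨ (a = w ∧ b = u) ∨ (a = u ∧ b = w))
  symm := ⟨by
    rintro a b ⟨hab, h⟩
    refine ⟨hab.symm, ?_⟩
    rcases h with ⟨h1, h2, h3⟩ | h | h | h | h | h | h
    · exact Or.inl ⟨h2, h1, h3.symm⟩
    · exact Or.inr (Or.inr (Or.inl h))
    · exact Or.inr (Or.inl h)
    · exact Or.inr (Or.inr (Or.inr (Or.inr (Or.inl h))))
    · exact Or.inr (Or.inr (Or.inr (Or.inl h)))
    · exact Or.inr (Or.inr (Or.inr (Or.inr (Or.inr (Or.inr ⟨h.2, h.1⟩)))))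
    · exact Or.inr (Or.inr (Or.inr (Or.inr (Or.inr (Or.inl ⟨h.2, h.1⟩)))))⟩
  loopless := ⟨fun _ h => h.1 rfl⟩

omit [Fintype V] in
theorem gD_WD {N : ℕ} {H : Finset V} {c : V → Fin r} {w : V} {A : Finset V} {v1 v2 : V}
    (card : H.card = N) (hw : w ∉ H) (hA : A ⊆ H) (h12 : c v1 ≠ c v2)
    (h1 : cl A c (c v1) = {v1}) (h2 : cl A c (c v2) = {v2}) (hne : ∀ i, (cl A c i).Nonempty) :
    WD (gD H c w A v1 v2) N H c w A v1 v2 := by
  refine ⟨card, hw, hA, h12, h1, h2, hne, fun a b => ?_⟩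
  constructor
  · rintro ⟨_, h⟩; exact h
  · intro h
    refine ⟨?_, h⟩
    rcases h with h | h | h
    · rintro rfl; exact h.2.2.1 rfl
    · rintro rfl; exact hw (h.1 ▸ hA h.2)
    · rintro rfl; exact hw (h.1 ▸ hA h.2)

omit [Fintype V] in
theorem gE_WE {N : ℕ} {H : Finset V} {c : V → Fin r} {w u : V} {A B : Finset V} {i0 : Fin r}
    (card : H.card = N) (hw : w ∉ H) (hu : u ∉ H) (hwu : w ≠ u) (hA : A ⊆ H) (hB : B ⊆ H)
    (hA0 : cl A c i0 = ∅) (hB0 : cl B c i0 = ∅) (hAne : ∀ i, i ≠ i0 → (cl A c i).Nonempty)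
    (hB1 : ∀ i, i ≠ i0 → (cl B c i).card = 1) (hBA : ¬ B ⊆ A) :
    WE (gE H c w u A B) N H c w u A B i0 := by
  refine ⟨card, hw, hu, hwu, hA, hB, hA0, hB0, hAne, hB1, hBA, fun a b => ?_⟩
  constructor
  · rintro ⟨_, h⟩; exact h
  · intro h
    refine ⟨?_, h⟩
    rcases h with h | h | h | h | h | h | h
    · rintro rfl; exact h.2.2 rfl
    · rintro rfl; exact hw (h.1 ▸ hA h.2)
    · rintro rfl; exact hw (h.1 ▸ hA h.2)
    · rintro rfl; exact hu (h.1 ▸ hB h.2)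
    · rintro rfl; exact hu (h.1 ▸ hB h.2)
    · rintro rfl; exact hwu (h.1.symm.trans h.2)
    · rintro rfl; exact hwu (h.2.symm.trans h.1)

/-- perturbation of the type D graphs -/
noncomputable def JD (v1 v2 : V) (a b : V) : ℝ := -chi (a = v1 ∧ b = v2) - chi (a = v2 ∧ b = v1)

/-- perturbation of the type E graphs -/
noncomputable def JE (w u : V) (B : Finset V) (a b : V) : ℝ :=
  chi (a = u ∧ b ∈ B) + chi (b = u ∧ a ∈ B) + chi (a = w ∧ b = u) + chi (a = u ∧ b = w)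

/-- common description of both types: complete multipartite graph on `H`, vertex `w` joined to
`A`, and a perturbation `J` -/
structure Fam (G : SimpleGraph V) (H : Finset V) (c : V → Fin r) (w : V) (A : Finset V)
    (J : V → V → ℝ) : Prop where
  hw : w ∉ H
  hA : A ⊆ H
  Js : ∀ a b, J a b = J b a
  Jt : ∑ a, ∑ b, |J a b| ≤ 2 * r
  adj : ∀ a b, ad G a b = chi (a ∈ H ∧ b ∈ H ∧ c a ≠ c b) + chi (a = w ∧ b ∈ A)
    + chi (b = w ∧ a ∈ A) + J a b

/-- class sizes differ by at most one -/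
def Bal (H : Finset V) (c : V → Fin r) : Prop :=
  ∀ i k, (cl H c i).card ≤ (cl H c k).card + 1

/-- outside the classes in `P`: balanced in classes of equal size, the smaller classes first -/
def Place (H A : Finset V) (c : V → Fin r) (P : Finset (Fin r)) : Prop :=
  ∀ i k, i ∉ P → k ∉ P →
    ((cl H c i).card = (cl H c k).card → (cl A c i).card ≤ (cl A c k).card + 1) ∧
    ((cl H c i).card < (cl H c k).card →
      (cl A c i).card = (cl H c i).card ∨ (cl A c k).card = 1)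

/-- no class is larger than a class in `P` -/
def Top (H : Finset V) (c : V → Fin r) (P : Finset (Fin r)) : Prop :=
  ∀ i k, i ∈ P → k ∉ P → (cl H c k).card ≤ (cl H c i).card

end

/-! ## contexts of the stability analysis -/

section
variable {V : Type} [Fintype V]

/-- a graph without a clique on `r+1` vertices, its eigenvector, and `t = lam / (number of ordered
edges)`; the spectral radius is within a constant of the maximum -/
structure Ctx (r : ℕ) (D : ℝ) (G : SimpleGraph V) (x : V → ℝ) (lam t : ℝ) : Prop where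
  free : G.CliqueFree (r + 1)
  pv : PV G x lam
  pos : 0 < lam
  pe : 0 < pE G
  ht : t = lam / pE G
  defi : al r * pE G - lam ^ 2 ≤ D * lam

/-- typical vertices -/
structure TD (r : ℕ) (η K : ℝ) (G : SimpleGraph V) (x : V → ℝ) (lam t : ℝ) (c : V → Fin r)
    (T : Finset V) : Prop where
  tpos : 0 < t
  lamt1 : lam * t ≤ 1
  lamt2 : 1 / 2 ≤ lam * t
  near : ∀ v ∈ T, (1 - η) * √t ≤ x v ∧ x v ≤ (1 + η) * √t
  rest : ∑ v ∈ out T, x v ^ 2 ≤ K * t
  ind : ∀ u ∈ T, ∀ v ∈ T, c u = c v → ¬ G.Adj u v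
  few : ∀ v ∈ T, ∀ i, i ≠ c v → ((nn G (cl T c i) v).card : ℝ) ≤ η / t
  size : ∀ i, 1 / (4 * r * t) ≤ sz T c i
  cardT : (T.card : ℝ) ≤ 2 / t
  cross : ∑ u ∈ T, ∑ v ∈ T, chi (c u ≠ c v ∧ ¬ G.Adj u v) * (x u ^ 2 * x v ^ 2) ≤ K * t
  esum : ∑ u, ∑ v, ad G u v * (x u * x v - t) ^ 2 ≤ K * t

/-- consequences for the numbers of edges -/
structure TE (r : ℕ) (K : ℝ) (G : SimpleGraph V) (x : V → ℝ) (t : ℝ) (c : V → Fin r)
    (T : Finset V) : Prop where
  mis : (mis G T c : ℝ) ≤ K / t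
  eout : (eo G T : ℝ) ≤ K / t
  sout : ∑ v ∈ out T, x v ≤ K * √t
  xmax : ∀ v, x v ≤ K * √t
  dev : ∑ u ∈ T, ∑ v ∈ T, chi (c u ≠ c v) * (x u * x v - t) ^ 2 ≤ K * t

theorem TD.mono {r : ℕ} {η K K' : ℝ} {G : SimpleGraph V} {x : V → ℝ} {lam t : ℝ} {c : V → Fin r}
    {T : Finset V} (h : TD r η K G x lam t c T) (hK : K ≤ K') : TD r η K' G x lam t c T :=
  { h with
    rest := h.rest.trans (mul_le_mul_of_nonneg_right hK h.tpos.le)
    cross := h.cross.trans (mul_le_mul_of_nonneg_right hK h.tpos.le)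
    esum := h.esum.trans (mul_le_mul_of_nonneg_right hK h.tpos.le) }

theorem TE.mono {r : ℕ} {K K' : ℝ} {G : SimpleGraph V} {x : V → ℝ} {t : ℝ} {c : V → Fin r}
    {T : Finset V} (h : TE r K G x t c T) (ht : 0 < t) (hK : K ≤ K') : TE r K' G x t c T where
  mis := h.mis.trans (div_le_div_of_nonneg_right hK ht.le)
  eout := h.eout.trans (div_le_div_of_nonneg_right hK ht.le)
  sout := h.sout.trans (mul_le_mul_of_nonneg_right hK (Real.sqrt_nonneg t))
  xmax := fun v => (h.xmax v).trans (mul_le_mul_of_nonneg_right hK (Real.sqrt_nonneg t))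
  dev := h.dev.trans (mul_le_mul_of_nonneg_right hK ht.le)

/-- the heavy vertices -/
structure HD (r : ℕ) (η K : ℝ) (G : SimpleGraph V) (x : V → ℝ) (lam t : ℝ) (c : V → Fin r)
    (H : Finset V) : Prop where
  tpos : 0 < t
  lamt1 : lam * t ≤ al r
  lamt2 : 1 / 2 ≤ lam * t
  big : ∀ v ∈ H, (1 - η) * √t ≤ x v
  small : ∀ v, v ∉ H → x v < (1 - η) * √t
  ind : ∀ u ∈ H, ∀ v ∈ H, c u = c v → ¬ G.Adj u v
  xmax : ∀ v, x v ≤ √t * (1 + K * √t)
  mis : (mis G H c : ℝ) ≤ K / t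
  eout : (eo G H : ℝ) ≤ K / t
  rest : ∑ v ∈ out H, x v ^ 2 ≤ K * t
  all : ∀ v, |lam * x v - √t * dg G H v| ≤ K
  size : ∀ i, |((r : ℝ) - 1) * sz H c i - lam| ≤ K / √t

/-- the fine data: all but a small part of the graph is the complete multipartite graph on `H`
(balanced up to `δ N`), and a vertex `w` with about `j` neighbours in `H` -/
structure FD (r : ℕ) (δ : ℝ) (N j : ℕ) (G : SimpleGraph V) (x : V → ℝ) (lam : ℝ) (c : V → Fin r)
    (H : Finset V) (w : V) : Prop where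
  pv : PV G x lam
  card : H.card = N
  hw : w ∉ H
  ind : ∀ u ∈ H, ∀ v ∈ H, c u = c v → ¬ G.Adj u v
  mis : (mis G H c : ℝ) ≤ δ * N
  bal : ∀ i, |sz H c i - N / r| ≤ δ * N
  deg : |(dg G H w : ℝ) - j| ≤ δ * N
  rest : ∑ v ∈ out H, (dg G H v : ℝ) - dg G H w + eu G H ≤ δ * N
  xH : ∀ v ∈ H, |x v * √N - 1| ≤ δ
  xw : |x w * √N - j / (al r * N)| ≤ δ
  xo : ∀ v, v ∉ H → v ≠ w → x v * √N ≤ δ

/-- estimates for the eigenvector of a graph of the common description; `xb` is the typical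
value of `x` on `H` -/
structure Est (r : ℕ) (e : ℝ) (N j : ℕ) (x : V → ℝ) (lam : ℝ) (c : V → Fin r) (H : Finset V)
    (w : V) (A : Finset V) (xb : ℝ) : Prop where
  xb0 : 0 < xb
  xH : ∀ v ∈ H, |x v - xb| ≤ e * xb
  xw : |x w - j / (al r * N) * xb| ≤ e * xb
  xo : ∀ v, v ∉ H → v ≠ w → x v ≤ e * xb
  lamN : |lam - al r * N| ≤ e * N
  dif : ∀ i k, |cs x H c i - cs x H c k - xb * (al r * (sz H c i - sz H c k)
    + j / (al r * N) * ((sz A c i - sz A c k) / N))| ≤ e * xb * (|sz H c i - sz H c k| + 1)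

end

/-- exactly one vertex of `B` is not in `A` -/
def OneOut {V : Type} (A B : Finset V) : Prop := ∃ b, b ∈ B ∧ b ∉ A ∧ ∀ a, a ∈ B → a ∉ A → a = b

/-- the sizes are close to those of the reference graphs -/
def Near {V : Type} (r : ℕ) (δ : ℝ) (N j : ℕ) (H A : Finset V) (c : V → Fin r) : Prop :=
  (∀ i, |sz H c i - N / r| ≤ δ * N) ∧ |(A.card : ℝ) - j| ≤ δ * N

/-- the range of `N`, `j` in which the extremal graphs are determined -/
def Rg (r : ℕ) (ε : ℝ) (N j : ℕ) : Prop :=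
  ε * N ≤ j ∧ (j : ℝ) ≤ ((1 - 2 / r) * al r - ε) * N

/-- number of edges of the Turan graph -/
noncomputable def tn (r N : ℕ) : ℕ := (SimpleGraph.turanGraph N r).edgeSet.ncard

/-- type D: the candidates with one missing edge and one new vertex -/
def TypeD {V : Type} (r N j : ℕ) (G : SimpleGraph V) : Prop :=
  ∃ (H : Finset V) (c : V → Fin r) (w : V) (A : Finset V) (v1 v2 : V),
    WD G N H c w A v1 v2 ∧ A.card = j + 1 ∧ Bal H c ∧ Place H A c {c v1, c v2} ∧
      Top H c {c v1, c v2}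

/-- type E: the candidates with two new vertices -/
def TypeE {V : Type} (r N j : ℕ) (G : SimpleGraph V) : Prop :=
  ∃ (H : Finset V) (c : V → Fin r) (w u : V) (A B : Finset V) (i0 : Fin r),
    WE G N H c w u A B i0 ∧ OneOut A B ∧ A.card + r = j ∧
      Bal H c ∧ Place H A c {i0} ∧ Top H c {i0}

end Pool.Agent.Work.MP_5532fa_up

end

section

/-!
# MP_5532fa_co, upgrade: statements of the blocks
-/

open Finset

namespace Pool.Agent.Work.MP_5532fa_up

open MP5532fa (specRad qf pE)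

/-! ## Part A: stability -/

/-- greedy choice of a transversal clique -/
def Stmt_GRD : Prop := ∀ (ι V : Type) [Fintype ι] [Fintype V] (G : SimpleGraph V)
  (A : ι → Finset V) (wt : V → ℝ) (κ : ℝ), (∀ v, 0 ≤ wt v) → 0 ≤ κ →
  (∀ i k, i ≠ k → ∀ v ∈ A i, ∑ u ∈ A k, chi (¬ G.Adj v u) * wt u ≤ κ) →
  (∀ i, (Fintype.card ι : ℝ) * κ < ∑ u ∈ A i, wt u) →
  ∃ f : ι → V, (∀ i, f i ∈ A i) ∧ ∀ i k, i ≠ k → G.Adj (f i) (f k)

/-- measure form of stability -/
def Stmt_MEAS : Prop := ∀ (r : ℕ) (D : ℝ), 3 ≤ r → 1 ≤ D → ∀ (V : Type) [Fintype V]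
  (G : SimpleGraph V) (x : V → ℝ) (lam t : ℝ), Ctx r D G x lam t →
  0 < t ∧ lam * t ≤ al r ∧ al r - D * t ≤ lam * t ∧
  ∑ u, ∑ v, ad G u v * (x u * x v - t) ^ 2 ≤ D * t ∧
  ∃ c : V → Fin r,
    ∑ u, ∑ v, chi (c u ≠ c v ∧ ¬ G.Adj u v) * (x u ^ 2 * x v ^ 2) ≤ 2 * D * t ∧
    ∀ i, (∑ v ∈ cl univ c i, x v ^ 2 - 1 / (r : ℝ)) ^ 2 ≤ 2 * D * t

/-- typical vertices -/
def Stmt_TYP : Prop := ∀ (r : ℕ) (D η : ℝ), 3 ≤ r → 1 ≤ D → 0 < η → η ≤ 1 / 4 →
  ∃ K : ℝ, 1 ≤ K ∧ ∀ (V : Type) [Fintype V] (G : SimpleGraph V) (x : V → ℝ) (lam t : ℝ),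
    Ctx r D G x lam t → K * t ≤ 1 → ∃ (c : V → Fin r) (T : Finset V), TD r η K G x lam t c T

/-- numbers of edges -/
def Stmt_EDG : Prop := ∀ (r : ℕ) (η K : ℝ), 3 ≤ r → 0 < η → η ≤ 1 / 4 → 1 ≤ K →
  ∃ K' : ℝ, 1 ≤ K' ∧ ∀ (V : Type) [Fintype V] (G : SimpleGraph V) (x : V → ℝ) (lam t : ℝ)
    (c : V → Fin r) (T : Finset V), PV G x lam → TD r η K G x lam t c T → TE r K' G x t c T

/-- sizes of the classes and flatness of the eigenvector -/
def Stmt_AVG : Prop := ∀ (r : ℕ) (η K : ℝ), 3 ≤ r → 0 < η → η ≤ 1 / 4 → 1 ≤ K →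
  ∃ K' : ℝ, 1 ≤ K' ∧ ∀ (V : Type) [Fintype V] (G : SimpleGraph V) (x : V → ℝ) (lam t : ℝ)
    (c : V → Fin r) (T : Finset V), PV G x lam → TD r η K G x lam t c T → TE r K G x t c T →
    K' * t ≤ 1 →
    (∀ i, |((r : ℝ) - 1) * sz T c i - lam| ≤ K' / √t) ∧ ∑ v ∈ T, (x v - √t) ^ 2 ≤ K' * t

/-- the entries of the eigenvector are given by the degrees into `T` -/
def Stmt_ALLV : Prop := ∀ (r : ℕ) (η K : ℝ), 3 ≤ r → 0 < η → η ≤ 1 / 4 → 1 ≤ K →
  ∃ K' : ℝ, 1 ≤ K' ∧ ∀ (V : Type) [Fintype V] (G : SimpleGraph V) (x : V → ℝ) (lam t : ℝ)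
    (c : V → Fin r) (T : Finset V), PV G x lam → TD r η K G x lam t c T → TE r K G x t c T →
    ∑ v ∈ T, (x v - √t) ^ 2 ≤ K * t → K' * t ≤ 1 →
    ∀ v, |lam * x v - √t * dg G T v| ≤ K'

/-- every vertex has few neighbours in some class -/
def Stmt_MIND : Prop := ∀ (r : ℕ) (η K : ℝ), 3 ≤ r → 0 < η → η ≤ 1 / 4 → 1 ≤ K →
  ∃ K' : ℝ, 1 ≤ K' ∧ ∀ (V : Type) [Fintype V] (G : SimpleGraph V) (x : V → ℝ) (lam t : ℝ)
    (c : V → Fin r) (T : Finset V), G.CliqueFree (r + 1) → TD r η K G x lam t c T →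
    TE r K G x t c T → ∀ v, ∃ i, ((nb G (cl T c i) v).card : ℝ) ≤ K' / √t

/-- the heavy vertices -/
def Stmt_HSET : Prop := ∀ (r : ℕ) (D η : ℝ), 3 ≤ r → 1 ≤ D → 0 < η → η ≤ 1 / (8 * r) →
  ∃ K : ℝ, 1 ≤ K ∧ ∀ (V : Type) [Fintype V] (G : SimpleGraph V) (x : V → ℝ) (lam t : ℝ),
    Ctx r D G x lam t → K * t ≤ 1 → ∃ (c : V → Fin r) (H : Finset V), HD r η K G x lam t c H

/-- counting the edges -/
def Stmt_EID : Prop := ∀ (r : ℕ) (V : Type) [Fintype V] (G : SimpleGraph V) (c : V → Fin r)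
  (H : Finset V), (∀ u ∈ H, ∀ v ∈ H, c u = c v → ¬ G.Adj u v) →
  pE G = (H.card : ℝ) ^ 2 - ∑ i, sz H c i ^ 2 - mis G H c + 2 * ∑ v ∈ out H, (dg G H v : ℝ)
    + eu G H

/-- parity -/
def Stmt_EVN : Prop := ∀ (r : ℕ) (V : Type) [Fintype V] (G : SimpleGraph V) (c : V → Fin r)
  (H : Finset V), Even (mis G H c) ∧ Even (eu G H)

/-- spectral inequality -/
def Stmt_ACC0 : Prop := ∀ (r : ℕ) (η K : ℝ), 3 ≤ r → 0 < η → η ≤ 1 / 4 → 1 ≤ K →
  ∃ K' : ℝ, 1 ≤ K' ∧ ∀ (V : Type) [Fintype V] (G : SimpleGraph V) (x : V → ℝ) (lam t : ℝ)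
    (c : V → Fin r) (H : Finset V) (mu : ℝ), PV G x lam → HD r η K G x lam t c H → K' * t ≤ 1 →
    (∀ y : V → ℝ, ∑ u, ∑ v, chi (u ∈ H ∧ v ∈ H ∧ c u ≠ c v) * (y u * y v)
      ≤ mu * ∑ v, y v ^ 2) →
    lam ≤ mu - (1 - η) ^ 2 * t * mis G H c + t / lam * ∑ v ∈ out H, (dg G H v : ℝ) ^ 2
      + K' * √t

/-- bound for the root of the characteristic equation of a complete multipartite graph -/
def Stmt_KM : Prop := ∀ (r : ℕ) (B : ℝ), 3 ≤ r → 1 ≤ B → ∃ K : ℝ, 1 ≤ K ∧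
  ∀ (n : Fin r → ℝ) (M S : ℝ), (∀ i, 0 ≤ n i) → M = ∑ i, n i →
    S = ∑ i, (n i - M / r) ^ 2 → K ≤ M → (∀ i, |n i - M / r| ≤ B * √M) →
    ∃ mu : ℝ, 0 < mu ∧ mu ≤ al r * M - al r * S / M + K / √M ∧ ∑ i, n i / (mu + n i) ≤ 1

/-- Schur test for a complete multipartite graph -/
def Stmt_KS : Prop := ∀ (r : ℕ) (V : Type) [Fintype V] (H : Finset V) (c : V → Fin r) (mu : ℝ),
  0 < mu → ∑ i, sz H c i / (mu + sz H c i) ≤ 1 → ∀ y : V → ℝ,
    ∑ u, ∑ v, chi (u ∈ H ∧ v ∈ H ∧ c u ≠ c v) * (y u * y v) ≤ mu * ∑ v, y v ^ 2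

/-- the context gives `lam` and `t` up to constants -/
def Stmt_REL : Prop := ∀ (r : ℕ) (D : ℝ), 3 ≤ r → 1 ≤ D → ∃ (K : ℝ) (N0 : ℕ), 1 ≤ K ∧
  ∀ N ≥ N0, ∀ j : ℕ, (j : ℝ) ≤ al r * N → ∀ (V : Type) [Fintype V] (G : SimpleGraph V)
    (x : V → ℝ) (lam t : ℝ), Ctx r D G x lam t → |pE G - al r * N ^ 2 - 2 * j| ≤ (r : ℝ) →
    |lam - al r * N| ≤ K ∧ |t * N - 1| ≤ K / N

/-- making a context -/
def Stmt_MKC : Prop := ∀ (r : ℕ) (B : ℝ), 3 ≤ r → 1 ≤ B → ∃ (D : ℝ) (N0 : ℕ), 1 ≤ D ∧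
  ∀ N ≥ N0, ∀ j : ℕ, (j : ℝ) ≤ al r * N → ∀ (V : Type) [Fintype V] (G : SimpleGraph V)
    (x : V → ℝ) (lam : ℝ), G.CliqueFree (r + 1) → PV G x lam →
    |pE G - al r * N ^ 2 - 2 * j| ≤ (r : ℝ) → al r * N - B ≤ lam →
    Ctx r D G x lam (lam / pE G)

/-- accounting -/
def Stmt_ACC : Prop := ∀ (r : ℕ) (D η K : ℝ), 3 ≤ r → 1 ≤ D → 0 < η → η ≤ 1 / (8 * r) →
  1 ≤ K → ∃ (K' : ℝ) (N0 : ℕ), 1 ≤ K' ∧ ∀ N ≥ N0, ∀ j : ℕ, (j : ℝ) ≤ al r * N →
  ∀ (V : Type) [Fintype V] (G : SimpleGraph V) (x : V → ℝ) (lam t : ℝ) (c : V → Fin r)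
    (H : Finset V), Ctx r D G x lam t → HD r η K G x lam t c H →
    |pE G - al r * N ^ 2 - 2 * j| ≤ (r : ℝ) →
    |∑ v ∈ out H, (dg G H v : ℝ) / lam + eu G H / (2 * al r * N) - imb H c / (2 * al r * N)
      - mis G H c / (2 * al r * N) - ((N : ℝ) - H.card) - j / (al r * N)| ≤ K' / √N ∧
    ∑ v ∈ out H, (dg G H v : ℝ) / lam * (1 - dg G H v / lam) + eu G H / (2 * al r * N)
      + (1 - 2 / r) * (imb H c / (2 * al r * N))
      + (2 * (1 - η) ^ 2 - 1) * (mis G H c / (2 * al r * N))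
      ≤ (al r * N + j / N - lam) / al r + K' / √N ∧
    ∀ v, v ∉ H → (dg G H v : ℝ) / lam ≤ 1 - η / 2

/-- the optimisation, lower bound for the cost -/
def Stmt_OPT1 : Prop := ∀ (ι : Type) (s : Finset ι) (X : ι → ℝ) (e sg mu x κ κ' δ : ℝ) (k : ℤ),
  (∀ v ∈ s, 0 ≤ X v ∧ X v < 1) → 0 ≤ e → 0 ≤ sg → 0 ≤ mu → 0 ≤ x → x ≤ 1 → 0 ≤ κ → κ ≤ 1 →
  κ ≤ κ' → 0 ≤ δ → |∑ v ∈ s, X v + e - sg - mu - k - x| ≤ δ →
  (1 - x) * min x κ ≤ ∑ v ∈ s, X v * (1 - X v) + e + κ * sg + κ' * mu + δ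

/-- the fine data of a graph with large spectral radius -/
def Stmt_FINA : Prop := ∀ (r : ℕ) (ε δ : ℝ), 3 ≤ r → 0 < ε → 0 < δ → ∃ (δ1 : ℝ) (N0 : ℕ),
  0 < δ1 ∧ ∀ N ≥ N0, ∀ j : ℕ, Rg r ε N j → ∀ (V : Type) [Fintype V] (G : SimpleGraph V)
    (x : V → ℝ) (lam : ℝ), G.CliqueFree (r + 1) → PV G x lam →
    |pE G - al r * N ^ 2 - 2 * j| ≤ (r : ℝ) → al r * N + j ^ 2 / (al r * N ^ 2) - δ1 ≤ lam →
    ∃ (c : V → Fin r) (H : Finset V) (w : V), FD r δ N j G x lam c H w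

/-- upper bound for all numbers of edges -/
def Stmt_UPX : Prop := ∀ (r : ℕ) (δ : ℝ), 3 ≤ r → 0 < δ → ∃ N0 : ℕ, ∀ N ≥ N0, ∀ j : ℕ,
  (j : ℝ) ≤ al r * N → ∀ (V : Type) [Fintype V] (G : SimpleGraph V), Nonempty V →
    G.CliqueFree (r + 1) → |pE G - al r * N ^ 2 - 2 * j| ≤ (r : ℝ) →
    specRad G ≤ al r * N + j / N
      - al r * ((1 - j / (al r * N)) * min (j / (al r * N)) (1 - 2 / r)) + δ

/-! ## Part B: from the fine data to the two types -/

/-- facts on the graphs of type D -/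
def Stmt_GD : Prop := ∀ (r : ℕ), 3 ≤ r → ∀ (V : Type) [Fintype V] (G : SimpleGraph V) (N : ℕ)
  (H : Finset V) (c : V → Fin r) (w : V) (A : Finset V) (v1 v2 : V), WD G N H c w A v1 v2 →
  G.CliqueFree (r + 1) ∧ ((∀ i, 2 ≤ (cl H c i).card) → ¬ G.Colorable r) ∧
  pE G = (N : ℝ) ^ 2 - ∑ i, sz H c i ^ 2 - 2 + 2 * A.card

/-- facts on the graphs of type E -/
def Stmt_GE : Prop := ∀ (r : ℕ), 3 ≤ r → ∀ (V : Type) [Fintype V] (G : SimpleGraph V) (N : ℕ)
  (H : Finset V) (c : V → Fin r) (w u : V) (A B : Finset V) (i0 : Fin r),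
  WE G N H c w u A B i0 →
  G.CliqueFree (r + 1) ∧ ((∀ i, 1 ≤ (cl H c i).card) → ¬ G.Colorable r) ∧
  pE G = (N : ℝ) ^ 2 - ∑ i, sz H c i ^ 2 + 2 * A.card + 2 * r

/-- transversals in the neighbourhood of `w` -/
def Stmt_TRV : Prop := ∀ (r : ℕ), 3 ≤ r → ∀ (V : Type) [Fintype V] (G : SimpleGraph V)
  (c : V → Fin r) (H A : Finset V) (w : V), G.CliqueFree (r + 1) →
  (∀ u ∈ H, ∀ v ∈ H, c u = c v → ¬ G.Adj u v) → w ∉ H → A = nb G H w →
  (∀ i, (cl A c i).Nonempty) →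
  (∃ i0 i1 : Fin r, i0 ≠ i1 ∧ (cl A c i0).card ≤ (cl A c i1).card ∧
    2 * (cl A c i1).card ≤ mis G H c) ∧
  (mis G H c = 2 → ∃ v1 v2 : V, c v1 ≠ c v2 ∧ cl A c (c v1) = {v1} ∧ cl A c (c v2) = {v2} ∧
    ∀ a ∈ H, ∀ b ∈ H, c a ≠ c b → (¬ G.Adj a b ↔ (a = v1 ∧ b = v2) ∨ (a = v2 ∧ b = v1)))

/-- colouring the rest of the graph -/
def Stmt_LC : Prop := ∀ (r : ℕ), 3 ≤ r → ∀ (V : Type) [Fintype V] (G : SimpleGraph V)
  (c : V → Fin r) (H A : Finset V) (w : V) (i0 : Fin r) (Q : ℕ), G.CliqueFree (r + 1) →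
  ¬ G.Colorable r → (∀ u ∈ H, ∀ v ∈ H, c u = c v → ¬ G.Adj u v) → w ∉ H → A = nb G H w →
  cl A c i0 = ∅ → 2 * ∑ v ∈ out H, dg G H v + eu G H = 2 * A.card + Q →
  2 * r ≤ Q ∧ (mis G H c = 0 → Q = 2 * r →
    ∃ (u : V) (B : Finset V) (i1 : Fin r), WE G H.card H c w u A B i1)

/-- fine data, first case: `w` has neighbours in all classes -/
def Stmt_B1U : Prop := ∀ (r : ℕ) (ε : ℝ), 3 ≤ r → 0 < ε → ∃ (δ : ℝ) (N0 : ℕ), 0 < δ ∧
  ∀ N ≥ N0, ∀ j : ℕ, Rg r ε N j → ∀ (V : Type) [Fintype V] (G : SimpleGraph V) (x : V → ℝ)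
    (lam : ℝ) (c : V → Fin r) (H : Finset V) (w : V), FD r δ N j G x lam c H w →
    G.CliqueFree (r + 1) → MX r G → (∀ i, (cl (nb G H w) c i).Nonempty) →
    ∃ v1 v2 : V, WD G N H c w (nb G H w) v1 v2

/-- fine data, second case: `w` has no neighbours in one class -/
def Stmt_B1C : Prop := ∀ (r : ℕ) (ε : ℝ), 3 ≤ r → 0 < ε → ∃ (δ : ℝ) (N0 : ℕ), 0 < δ ∧
  ∀ N ≥ N0, ∀ j : ℕ, Rg r ε N j → ∀ (V : Type) [Fintype V] (G : SimpleGraph V) (x : V → ℝ)
    (lam : ℝ) (c : V → Fin r) (H : Finset V) (w : V) (i0 : Fin r),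
    FD r δ N j G x lam c H w → G.CliqueFree (r + 1) → ¬ G.Colorable r → MX r G →
    cl (nb G H w) c i0 = ∅ →
    ∃ (u : V) (B : Finset V) (i1 : Fin r), WE G N H c w u (nb G H w) B i1

/-- the common description -/
def Stmt_FAM : Prop := ∀ (r : ℕ), 3 ≤ r → ∀ (V : Type) [Fintype V] (G : SimpleGraph V) (N : ℕ)
  (H : Finset V) (c : V → Fin r) (w : V) (A : Finset V),
  (∀ v1 v2 : V, WD G N H c w A v1 v2 → Fam G H c w A (JD v1 v2)) ∧
  (∀ (u : V) (B : Finset V) (i0 : Fin r), WE G N H c w u A B i0 → Fam G H c w A (JE w u B))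

/-- eigenvalue equations and their sums over the classes -/
def Stmt_CSE : Prop := ∀ (r : ℕ) (V : Type) [Fintype V] (G : SimpleGraph V) (H : Finset V)
  (c : V → Fin r) (w : V) (A : Finset V) (J : V → V → ℝ) (x : V → ℝ) (lam : ℝ),
  Fam G H c w A J → PV G x lam →
  (∀ v ∈ H, lam * x v = (∑ u ∈ H, x u - cs x H c (c v)) + chi (v ∈ A) * x w
    + ∑ z, J v z * x z) ∧
  (∀ i, lam * cs x H c i = sz H c i * (∑ u ∈ H, x u - cs x H c i) + sz A c i * x w
    + ∑ v ∈ cl H c i, ∑ z, J v z * x z) ∧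
  lam * x w = ∑ v ∈ A, x v + ∑ z, J w z * x z ∧
  (∀ v, v ∉ H → v ≠ w → lam * x v = ∑ z, J v z * x z)

/-- estimates for the eigenvector -/
def Stmt_EST : Prop := ∀ (r : ℕ) (ε e : ℝ), 3 ≤ r → 0 < ε → 0 < e → ∃ (δ : ℝ) (N0 : ℕ),
  0 < δ ∧ ∀ N ≥ N0, ∀ j : ℕ, Rg r ε N j → ∀ (V : Type) [Fintype V] (G : SimpleGraph V)
    (H : Finset V) (c : V → Fin r) (w : V) (A : Finset V) (J : V → V → ℝ) (x : V → ℝ)
    (lam : ℝ), Fam G H c w A J → PV G x lam → H.card = N → Near r δ N j H A c →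
    ∃ xb : ℝ, Est r e N j x lam c H w A xb

/-- exchange of one neighbour of `w` -/
def Stmt_MV1 : Prop := ∀ (r : ℕ) (V : Type) [Fintype V] (G G' : SimpleGraph V) (H : Finset V)
  (c : V → Fin r) (w : V) (A A' : Finset V) (J : V → V → ℝ) (a b : V) (x y : V → ℝ)
  (lam lam' : ℝ), Fam G H c w A J → Fam G' H c w A' J → PV G x lam → PV G' y lam' →
  0 < lam → 0 < lam' → 0 < x w → 0 < y w → a ∈ A → b ∈ H → b ∉ A →
  (∀ v, v ∈ A' ↔ (v ∈ A ∧ v ≠ a) ∨ v = b) → (∀ z, J a z = J b z) →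
  cs x H c (c b) < cs x H c (c a) → cs y H c (c b) ≤ cs y H c (c a) → lam < lam'

/-- type D: the classes are balanced -/
def Stmt_D1 : Prop := ∀ (r : ℕ) (ε : ℝ), 3 ≤ r → 0 < ε → ∃ (δ : ℝ) (N0 : ℕ), 0 < δ ∧
  ∀ N ≥ N0, ∀ j : ℕ, Rg r ε N j → ∀ (V : Type) [Fintype V] (G : SimpleGraph V)
    (H : Finset V) (c : V → Fin r) (w : V) (A : Finset V) (v1 v2 : V),
    WD G N H c w A v1 v2 → Near r δ N j H A c → MX r G → Bal H c

/-- type D: placement of the neighbours of `w` -/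
def Stmt_D2 : Prop := ∀ (r : ℕ) (ε : ℝ), 3 ≤ r → 0 < ε → ∃ (δ : ℝ) (N0 : ℕ), 0 < δ ∧
  ∀ N ≥ N0, ∀ j : ℕ, Rg r ε N j → ∀ (V : Type) [Fintype V] (G : SimpleGraph V)
    (H : Finset V) (c : V → Fin r) (w : V) (A : Finset V) (v1 v2 : V),
    WD G N H c w A v1 v2 → Near r δ N j H A c → Bal H c → MX r G →
    Place H A c {c v1, c v2}

/-- type D: the classes of the missing edge are the largest ones -/
def Stmt_D3 : Prop := ∀ (r : ℕ) (ε : ℝ), 3 ≤ r → 0 < ε → ∃ (δ : ℝ) (N0 : ℕ), 0 < δ ∧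
  ∀ N ≥ N0, ∀ j : ℕ, Rg r ε N j → ∀ (V : Type) [Fintype V] (G : SimpleGraph V)
    (H : Finset V) (c : V → Fin r) (w : V) (A : Finset V) (v1 v2 : V),
    WD G N H c w A v1 v2 → Near r δ N j H A c → Bal H c → Place H A c {c v1, c v2} → MX r G →
    Top H c {c v1, c v2}

/-- type E: only one vertex of `B` is not adjacent to `w` -/
def Stmt_EB : Prop := ∀ (r : ℕ) (ε : ℝ), 3 ≤ r → 0 < ε → ∃ (δ : ℝ) (N0 : ℕ), 0 < δ ∧
  ∀ N ≥ N0, ∀ j : ℕ, Rg r ε N j → ∀ (V : Type) [Fintype V] (G : SimpleGraph V)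
    (H : Finset V) (c : V → Fin r) (w u : V) (A B : Finset V) (i0 : Fin r),
    WE G N H c w u A B i0 → Near r δ N j H A c → MX r G → OneOut A B

/-- type E: the classes are balanced -/
def Stmt_E1 : Prop := ∀ (r : ℕ) (ε : ℝ), 3 ≤ r → 0 < ε → ∃ (δ : ℝ) (N0 : ℕ), 0 < δ ∧
  ∀ N ≥ N0, ∀ j : ℕ, Rg r ε N j → ∀ (V : Type) [Fintype V] (G : SimpleGraph V)
    (H : Finset V) (c : V → Fin r) (w u : V) (A B : Finset V) (i0 : Fin r),
    WE G N H c w u A B i0 → Near r δ N j H A c → MX r G → Bal H c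

/-- type E: placement of the neighbours of `w` -/
def Stmt_E2 : Prop := ∀ (r : ℕ) (ε : ℝ), 3 ≤ r → 0 < ε → ∃ (δ : ℝ) (N0 : ℕ), 0 < δ ∧
  ∀ N ≥ N0, ∀ j : ℕ, Rg r ε N j → ∀ (V : Type) [Fintype V] (G : SimpleGraph V)
    (H : Finset V) (c : V → Fin r) (w u : V) (A B : Finset V) (i0 : Fin r),
    WE G N H c w u A B i0 → Near r δ N j H A c → OneOut A B → Bal H c → MX r G →
    Place H A c {i0}

/-- type E: the class without neighbours of `w` is a largest one -/
def Stmt_E3 : Prop := ∀ (r : ℕ) (ε : ℝ), 3 ≤ r → 0 < ε → ∃ (δ : ℝ) (N0 : ℕ), 0 < δ ∧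
  ∀ N ≥ N0, ∀ j : ℕ, Rg r ε N j → ∀ (V : Type) [Fintype V] (G : SimpleGraph V)
    (H : Finset V) (c : V → Fin r) (w u : V) (A B : Finset V) (i0 : Fin r),
    WE G N H c w u A B i0 → Near r δ N j H A c → OneOut A B → Bal H c →
    Place H A c {i0} → MX r G → Top H c {i0}

/-! ## Part C: uniqueness, existence, lower bounds, thresholds -/

/-- graphs given by labels -/
def Stmt_LAB : Prop := ∀ (L V V' : Type) [Fintype V] [Fintype V'] (R : L → L → Prop)
  (G : SimpleGraph V) (G' : SimpleGraph V') (K : Finset V) (K' : Finset V') (l : V → L)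
  (l' : V' → L), (∀ a b, G.Adj a b ↔ a ∈ K ∧ b ∈ K ∧ a ≠ b ∧ R (l a) (l b)) →
  (∀ a b, G'.Adj a b ↔ a ∈ K' ∧ b ∈ K' ∧ a ≠ b ∧ R (l' a) (l' b)) →
  (∀ s : L, (fib K l s).card = (fib K' l' s).card) → K.Nonempty → specRad G = specRad G'

/-- the canonical parameters are unique up to a permutation of the classes -/
def Stmt_CANP : Prop := ∀ (r : ℕ) (n a n' a' : Fin r → ℕ) (P P' : Finset (Fin r)) (p0 : ℕ),
  P.card = P'.card → ∑ i, n i = ∑ i, n' i → ∑ i, a i = ∑ i, a' i →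
  (∀ i k, n i ≤ n k + 1) → (∀ i k, n' i ≤ n' k + 1) →
  (∀ i k, i ∈ P → k ∉ P → n k ≤ n i) → (∀ i k, i ∈ P' → k ∉ P' → n' k ≤ n' i) →
  (∀ i, i ∈ P → a i = p0) → (∀ i, i ∈ P' → a' i = p0) →
  (∀ i, i ∉ P → 1 ≤ a i ∧ a i ≤ n i) → (∀ i, i ∉ P' → 1 ≤ a' i ∧ a' i ≤ n' i) →
  (∀ i k, i ∉ P → k ∉ P → (n i = n k → a i ≤ a k + 1) ∧ (n i < n k → a i = n i ∨ a k = 1)) →
  (∀ i k, i ∉ P' → k ∉ P' →
    (n' i = n' k → a' i ≤ a' k + 1) ∧ (n' i < n' k → a' i = n' i ∨ a' k = 1)) →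
  ∃ σ : Equiv.Perm (Fin r), ∀ i, (i ∈ P ↔ σ i ∈ P') ∧ n' (σ i) = n i ∧ a' (σ i) = a i

/-- existence of canonical parameters -/
def Stmt_PARX : Prop := ∀ (r p p0 N s : ℕ), 3 ≤ r → p < r → 2 * r ≤ N → r ≤ s + p →
  s + p * (N / r + 1) ≤ N → ∃ (n a : Fin r → ℕ) (P : Finset (Fin r)), P.card = p ∧
  ∑ i, n i = N ∧ ∑ i, a i = s + p * p0 ∧ (∀ i, 2 ≤ n i) ∧ (∀ i k, n i ≤ n k + 1) ∧
  (∀ i k, i ∈ P → k ∉ P → n k ≤ n i) ∧ (∀ i, i ∈ P → a i = p0) ∧
  (∀ i, i ∉ P → 1 ≤ a i ∧ a i ≤ n i) ∧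
  (∀ i k, i ∉ P → k ∉ P → (n i = n k → a i ≤ a k + 1) ∧ (n i < n k → a i = n i ∨ a k = 1))

/-- realising parameters by sets -/
def Stmt_EMB : Prop := ∀ (r N : ℕ) (n a : Fin r → ℕ) (V : Type) [Fintype V], 1 ≤ r →
  ∑ i, n i = N → (∀ i, a i ≤ n i) → N + 2 ≤ Fintype.card V →
  ∃ (H : Finset V) (c : V → Fin r) (w u : V) (A : Finset V), w ≠ u ∧ w ∉ H ∧ u ∉ H ∧ A ⊆ H ∧
    H.card = N ∧ (∀ i, (cl H c i).card = n i) ∧ ∀ i, (cl A c i).card = a i

/-- existence of type D graphs -/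
def Stmt_EXD : Prop := ∀ (r : ℕ) (ε : ℝ), 3 ≤ r → 0 < ε → ∃ N0 : ℕ, ∀ N ≥ N0, ∀ j : ℕ,
  Rg r ε N j → ∀ (V : Type) [Fintype V], N + 2 ≤ Fintype.card V →
  ∃ G : SimpleGraph V, TypeD r N j G

/-- existence of type E graphs -/
def Stmt_EXE : Prop := ∀ (r : ℕ) (ε : ℝ), 3 ≤ r → 0 < ε → ∃ N0 : ℕ, ∀ N ≥ N0, ∀ j : ℕ,
  Rg r ε N j → ∀ (V : Type) [Fintype V], N + 2 ≤ Fintype.card V →
  ∃ G : SimpleGraph V, TypeE r N j G

/-- all type D graphs have the same spectral radius -/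
def Stmt_ISOD : Prop := ∀ (r : ℕ) (ε : ℝ), 3 ≤ r → 0 < ε → ∃ N0 : ℕ, ∀ N ≥ N0, ∀ j : ℕ,
  Rg r ε N j → ∀ (V V' : Type) [Fintype V] [Fintype V'] (G : SimpleGraph V)
    (G' : SimpleGraph V'), TypeD r N j G → TypeD r N j G' → specRad G = specRad G'

/-- all type E graphs have the same spectral radius -/
def Stmt_ISOE : Prop := ∀ (r : ℕ) (ε : ℝ), 3 ≤ r → 0 < ε → ∃ N0 : ℕ, ∀ N ≥ N0, ∀ j : ℕ,
  Rg r ε N j → ∀ (V V' : Type) [Fintype V] [Fintype V'] (G : SimpleGraph V)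
    (G' : SimpleGraph V'), TypeE r N j G → TypeE r N j G' → specRad G = specRad G'

/-- the Turan numbers -/
def Stmt_TN : Prop := ∀ (r : ℕ), 3 ≤ r → ∀ N : ℕ,
  (∀ n : Fin r → ℕ, ∑ i, n i = N → (∀ i k, n i ≤ n k + 1) →
    2 * tn r N + ∑ i, n i ^ 2 = N ^ 2) ∧
  |2 * (tn r N : ℝ) - al r * N ^ 2| ≤ (r : ℝ) ∧ tn r (N + 1) + N / r = tn r N + N

/-- moving a graph to another vertex set -/
def Stmt_TRANS : Prop := ∀ (V V' : Type) [Fintype V] [Fintype V'] (G : SimpleGraph V),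
  Nonempty V → Fintype.card V ≤ Fintype.card V' → ∃ G' : SimpleGraph V',
    specRad G' = specRad G ∧ pE G' = pE G ∧
    ∀ r : ℕ, 1 ≤ r → (G.CliqueFree (r + 1) → G'.CliqueFree (r + 1)) ∧
      (G'.Colorable r → G.Colorable r)

/-- lower bound for the spectral radius of the type D graphs, unbalanced classes allowed -/
def Stmt_LOWG : Prop := ∀ (r : ℕ) (B : ℝ), 3 ≤ r → 1 ≤ B → ∃ K : ℝ, 1 ≤ K ∧
  ∀ (V : Type) [Fintype V] (G : SimpleGraph V) (N : ℕ) (H : Finset V) (c : V → Fin r) (w : V)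
    (A : Finset V) (v1 v2 : V), WD G N H c w A v1 v2 → K ≤ N →
    (∀ i, |sz H c i - N / r| ≤ B * √N) →
    al r * N - al r * imb H c / N + al r * ((A.card : ℝ) / (al r * N)) ^ 2 - K / √N
      ≤ specRad G

/-- constructions for all numbers of edges -/
def Stmt_LOWX : Prop := ∀ (r : ℕ) (δ : ℝ), 3 ≤ r → 0 < δ → ∃ N0 : ℕ, ∀ N ≥ N0, ∀ j : ℕ,
  (j : ℝ) ≤ al r * N → ∃ G : SimpleGraph (Fin (N + 3)), G.CliqueFree (r + 1) ∧
    ¬ G.Colorable r ∧ pE G = 2 * ((tn r N : ℝ) + j) ∧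
    al r * N + j / N - al r * ((1 - j / (al r * N)) * min (j / (al r * N)) (1 - 2 / r)) - δ
      ≤ specRad G

/-- for small `j` type D is not optimal -/
def Stmt_THRE : Prop := ∀ (r : ℕ) (ε : ℝ), 3 ≤ r → 0 < ε → ∃ N0 : ℕ, ∀ N ≥ N0, ∀ j : ℕ,
  Rg r ε N j → ((r : ℝ) + 1) * (j / (al r * N)) ≤ 1 - ε → ∀ (V : Type) [Fintype V]
    (G : SimpleGraph V), N + 2 ≤ Fintype.card V → TypeD r N j G → ¬ MX r G

/-- for large `j` type E is not optimal -/
def Stmt_THRD : Prop := ∀ (r : ℕ) (ε : ℝ), 3 ≤ r → 0 < ε → ∃ N0 : ℕ, ∀ N ≥ N0, ∀ j : ℕ,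
  Rg r ε N j →
  1 + (j / (al r * N)) ^ 4 / (r * ((r : ℝ) - 1)) + ε ≤ ((r : ℝ) + 1) * (j / (al r * N)) →
  ∀ (V : Type) [Fintype V] (G : SimpleGraph V), TypeE r N j G → ¬ MX r G

end Pool.Agent.Work.MP_5532fa_up

end

section

/-!
# MP_5532fa_co, upgrade, second round: definitions
-/

open Finset

namespace Pool.Agent.Work.MP_5532fa_up

open MP5532fa (specRad qf pE)

section
variable {V : Type} [Fintype V] {r : ℕ}

open Classical in
/-- the elements of `S` outside `T` -/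
noncomputable def df (S T : Finset V) : Finset V := S.filter (fun v => v ∉ T)

omit [Fintype V] in
theorem mem_df {S T : Finset V} {v : V} : v ∈ df S T ↔ v ∈ S ∧ v ∉ T := by simp [df]

/-- `G` is close to the complete multipartite graph on `H` (classes given by `c`) -/
structure C0 (r : ℕ) (δ : ℝ) (N : ℕ) (G : SimpleGraph V) (c : V → Fin r) (H : Finset V) :
    Prop where
  card : H.card = N
  ind : ∀ u ∈ H, ∀ v ∈ H, c u = c v → ¬ G.Adj u v
  mis : (mis G H c : ℝ) ≤ δ * N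
  bal : ∀ i, |sz H c i - N / r| ≤ δ * N
  eo : (eo G H : ℝ) ≤ δ * N

/-- the vector `x` is almost constant on `H` and small outside; `lam` is about `al r * N` -/
structure Fl (r : ℕ) (e : ℝ) (N : ℕ) (H : Finset V) (x : V → ℝ) (lam xb : ℝ) : Prop where
  xb0 : 0 < xb
  xH : ∀ v ∈ H, |x v - xb| ≤ e * xb
  xo : ∀ v, v ∉ H → x v ≤ e * xb
  lamN : |lam - al r * N| ≤ e * N

/-- sum of `x a * y b` over the ordered pairs in `H` from different classes which are not
adjacent -/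
noncomputable def mH (G : SimpleGraph V) (H : Finset V) (c : V → Fin r) (x y : V → ℝ) : ℝ :=
  ∑ a ∈ H, ∑ b ∈ H, chi (c a ≠ c b ∧ ¬ G.Adj a b) * (x a * y b)

/-- complete multipartite graph on `H` with missing edges, and a vertex `w` joined exactly to a
transversal `T` which is not a clique; all other vertices are isolated -/
structure WF (G : SimpleGraph V) (N : ℕ) (H : Finset V) (c : V → Fin r) (w : V) (T : Finset V) :
    Prop where
  card : H.card = N
  hw : w ∉ H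
  hT : T ⊆ H
  hT1 : ∀ i, (cl T c i).card = 1
  hF : ∃ a ∈ T, ∃ b ∈ T, a ≠ b ∧ ¬ G.Adj a b
  sub : ∀ a b, G.Adj a b →
    (a ∈ H ∧ b ∈ H ∧ c a ≠ c b) ∨ (a = w ∧ b ∈ T) ∨ (b = w ∧ a ∈ T)
  hwT : ∀ b ∈ T, G.Adj w b

/-- the graph of `WF` with missing pairs `F` -/
def gF (H : Finset V) (c : V → Fin r) (w : V) (T : Finset V) (F : V → V → Prop) :
    SimpleGraph V where
  Adj a b := a ≠ b ∧ ((a ∈ H ∧ b ∈ H ∧ c a ≠ c b ∧ ¬ F a b ∧ ¬ F b a) ∨
      (a = w ∧ b ∈ T) ∨ (b = w ∧ a ∈ T))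
  symm := ⟨by
    rintro a b ⟨hab, h⟩
    refine ⟨hab.symm, ?_⟩
    rcases h with ⟨h1, h2, h3, h4, h5⟩ | h | h
    · exact Or.inl ⟨h2, h1, h3.symm, h5, h4⟩
    · exact Or.inr (Or.inr h)
    · exact Or.inr (Or.inl h)⟩
  loopless := ⟨fun _ h => h.1 rfl⟩

end

/-- the range without a lower bound -/
def RgU (r : ℕ) (ε : ℝ) (N j : ℕ) : Prop := (j : ℝ) ≤ ((1 - 2 / r) * al r - ε) * N

/-- the range in which a vertex with about `j` neighbours may be optimal -/
def RgA (r : ℕ) (ε : ℝ) (N j : ℕ) : Prop := ε * N ≤ j ∧ (j : ℝ) ≤ (1 - 2 / r - ε) * N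

end Pool.Agent.Work.MP_5532fa_up

end

section

/-!
# MP_5532fa_co, upgrade, second round: statements of the blocks
-/

open Finset

namespace Pool.Agent.Work.MP_5532fa_up

open MP5532fa (specRad qf pE)

/-- the optimisation for all `x`: only two kinds of almost optimal configurations -/
def Stmt_OPT3 : Prop := ∀ (κ κ' η' ε ε2 : ℝ), 0 < κ → κ < κ' → κ' ≤ 1 → 0 < η' → η' ≤ 1 / 2 →
  0 < ε → 0 < ε2 →
  ∃ δ : ℝ, 0 < δ ∧ ∀ (ι : Type) (s : Finset ι) (X : ι → ℝ) (e sg mu x : ℝ) (k : ℤ),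
  (∀ v ∈ s, 0 ≤ X v ∧ X v ≤ 1 - η') → 0 ≤ e → 0 ≤ sg → 0 ≤ mu → ε ≤ x → x ≤ 1 →
  |∑ v ∈ s, X v + e - sg - mu - k - x| ≤ δ →
  ∑ v ∈ s, X v * (1 - X v) + e + κ * sg + κ' * mu ≤ (1 - x) * min x κ + δ →
  (k = 0 ∧ x ≤ κ + ε2 ∧ ∃ w ∈ s, |X w - x| ≤ ε2 ∧ ∑ v ∈ s, X v - X w + e + sg + mu ≤ ε2) ∨
  (k = -1 ∧ κ - ε2 ≤ x ∧ ∑ v ∈ s, X v + e + mu ≤ ε2)

/-- the fine data of the graphs with large spectral radius, for all numbers of edges -/
def Stmt_FIN3 : Prop := ∀ (r : ℕ) (δ : ℝ), 3 ≤ r → 0 < δ → ∃ ε : ℝ, 0 < ε ∧ ∀ δ' : ℝ, 0 < δ' →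
  ∃ (δ1 : ℝ) (N0 : ℕ), 0 < δ1 ∧ ∀ N ≥ N0, ∀ j : ℕ, (j : ℝ) ≤ al r * N →
  ∀ (V : Type) [Fintype V] (G : SimpleGraph V) (x : V → ℝ) (lam : ℝ),
    G.CliqueFree (r + 1) → PV G x lam → |pE G - al r * N ^ 2 - 2 * j| ≤ (r : ℝ) →
    al r * N + j / N - al r * ((1 - j / (al r * N)) * min (j / (al r * N)) (1 - 2 / r)) - δ1
      ≤ lam →
    (∃ (c : V → Fin r) (H : Finset V), C0 r δ N G c H ∧ (∀ i, |sz H c i - N / r| ≤ 2 * √N) ∧
      (j : ℝ) ≤ δ * N) ∨
    (∃ (c : V → Fin r) (H : Finset V), C0 r δ (N + 1) G c H ∧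
      (∀ i, |sz H c i - (N + 1) / r| ≤ 2 * √(N + 1)) ∧
      (1 - 2 / r - δ) * (al r * N) ≤ j) ∨
    (RgA r ε N j ∧ ∃ (c : V → Fin r) (H : Finset V) (w : V), FD r δ' N j G x lam c H w ∧
      ∀ i, |sz H c i - N / r| ≤ 2 * √N)

/-- B1U for the larger range -/
def Stmt_B1U2 : Prop := ∀ (r : ℕ) (ε : ℝ), 3 ≤ r → 0 < ε → ∃ (δ : ℝ) (N0 : ℕ), 0 < δ ∧
  ∀ N ≥ N0, ∀ j : ℕ, RgA r ε N j → ∀ (V : Type) [Fintype V] (G : SimpleGraph V) (x : V → ℝ)
    (lam : ℝ) (c : V → Fin r) (H : Finset V) (w : V), FD r δ N j G x lam c H w →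
    G.CliqueFree (r + 1) → MX r G → (∀ i, (cl (nb G H w) c i).Nonempty) →
    ∃ v1 v2 : V, WD G N H c w (nb G H w) v1 v2

/-- B1C for the larger range -/
def Stmt_B1C2 : Prop := ∀ (r : ℕ) (ε : ℝ), 3 ≤ r → 0 < ε → ∃ (δ : ℝ) (N0 : ℕ), 0 < δ ∧
  ∀ N ≥ N0, ∀ j : ℕ, RgA r ε N j → ∀ (V : Type) [Fintype V] (G : SimpleGraph V) (x : V → ℝ)
    (lam : ℝ) (c : V → Fin r) (H : Finset V) (w : V) (i0 : Fin r),
    FD r δ N j G x lam c H w → G.CliqueFree (r + 1) → ¬ G.Colorable r → MX r G →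
    cl (nb G H w) c i0 = ∅ →
    ∃ (u : V) (B : Finset V) (i1 : Fin r), WE G N H c w u (nb G H w) B i1

/-- the eigenvector of a graph close to a complete multipartite graph is almost constant -/
def Stmt_EST1 : Prop := ∀ (r : ℕ) (e : ℝ), 3 ≤ r → 0 < e → ∃ (δ : ℝ) (N0 : ℕ), 0 < δ ∧
  δ ≤ e ∧ ∀ N ≥ N0, ∀ (V : Type) [Fintype V] (G : SimpleGraph V) (x : V → ℝ) (lam : ℝ)
    (c : V → Fin r) (H : Finset V), C0 r δ N G c H → PV G x lam →
    ∃ xb : ℝ, Fl r e N H x lam xb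

/-- finer estimates for the eigenvector -/
def Stmt_FLAT : Prop := ∀ (r : ℕ), 3 ≤ r → ∃ K : ℝ, 1 ≤ K ∧ ∀ e : ℝ, 0 < e →
  ∃ (δ : ℝ) (N0 : ℕ), 0 < δ ∧ δ ≤ e ∧ ∀ N ≥ N0, ∀ (V : Type) [Fintype V] (G : SimpleGraph V)
    (x : V → ℝ) (lam : ℝ) (c : V → Fin r) (H : Finset V), C0 r δ N G c H → PV G x lam →
    ∃ xb : ℝ, Fl r e N H x lam xb ∧
      (∀ i k, |cs x H c i - cs x H c k - al r * (sz H c i - sz H c k) * xb|
        ≤ e * xb * (|sz H c i - sz H c k| + 1)) ∧
      (∀ u ∈ H, ∀ v ∈ H, |x u - x v|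
        ≤ K / N * xb * (|sz H c (c u) - sz H c (c v)| + mis G H c + 1))

/-- a comparison graph on the same set `H` has the same kind of data -/
def Stmt_TRF : Prop := ∀ (r : ℕ) (δ : ℝ) (N : ℕ) (V : Type) [Fintype V]
  (G G' : SimpleGraph V) (c : V → Fin r) (H : Finset V), C0 r δ N G c H →
  (∀ u ∈ H, ∀ v ∈ H, c u = c v → ¬ G'.Adj u v) → pE G' = pE G →
  mis G' H c ≤ mis G H c → C0 r (2 * δ) N G' c H

/-- comparison of two graphs on the same set `H` -/
def Stmt_CORE : Prop := ∀ (r : ℕ), 3 ≤ r → ∀ (V : Type) [Fintype V] (G G' : SimpleGraph V)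
  (c : V → Fin r) (H : Finset V) (w : V) (x y : V → ℝ) (lam lam' xb yb e : ℝ) (N : ℕ),
  0 ≤ e → e ≤ 1 / 10 → 1 ≤ N → C0 r e N G c H →
  (∀ u ∈ H, ∀ v ∈ H, c u = c v → ¬ G'.Adj u v) → w ∉ H →
  PV G x lam → PV G' y lam' → Fl r e N H x lam xb → Fl r e N H y lam' yb → lam' ≤ lam →
  lam * (mH G H c x y - mH G' H c x y) + xb * yb *
    (∑ v ∈ out H, (dg G' H v : ℝ) ^ 2 - ∑ v ∈ out H, (dg G H v : ℝ) ^ 2
      - 30 * e * ((((df (nb G' H w) (nb G H w)).card : ℝ) + (df (nb G H w) (nb G' H w)).card)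
          * ((dg G' H w : ℝ) + dg G H w)
        + (∑ v ∈ out H, (dg G' H v : ℝ) ^ 2 - (dg G' H w : ℝ) ^ 2)
        + (∑ v ∈ out H, (dg G H v : ℝ) ^ 2 - (dg G H w : ℝ) ^ 2)
        + (∑ v ∈ out H, (dg G H v : ℝ) - dg G H w + eu G H / 2))) ≤ 0

/-- facts on the graphs `WF` -/
def Stmt_GF : Prop := ∀ (r : ℕ), 3 ≤ r → ∀ (V : Type) [Fintype V] (G : SimpleGraph V) (N : ℕ)
  (H : Finset V) (c : V → Fin r) (w : V) (T : Finset V), WF G N H c w T →
  G.CliqueFree (r + 1) ∧ ((∀ i, mis G H c < (cl H c i).card) → ¬ G.Colorable r) ∧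
  pE G = (N : ℝ) ^ 2 - ∑ i, sz H c i ^ 2 - mis G H c + 2 * r

/-- combinatorics without missing pairs -/
def Stmt_CMB0 : Prop := ∀ (r : ℕ), 3 ≤ r → ∀ (V : Type) [Fintype V] (G : SimpleGraph V)
  (c : V → Fin r) (H : Finset V), G.CliqueFree (r + 1) → ¬ G.Colorable r →
  (∀ u ∈ H, ∀ v ∈ H, c u = c v → ¬ G.Adj u v) → mis G H c = 0 →
  ∃ (w : V) (i0 : Fin r) (Q : ℕ), w ∉ H ∧ (∀ v, v ∉ H → dg G H v ≤ dg G H w) ∧
    cl (nb G H w) c i0 = ∅ ∧
    2 * ∑ v ∈ out H, dg G H v + eu G H = 2 * dg G H w + 2 * Q ∧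
    ((∃ (u : V) (B : Finset V) (i1 : Fin r), WE G H.card H c w u (nb G H w) B i1) ∨
      (r + 1 ≤ Q ∧ 2 * r ≤ dg G H w + Q + 1 ∧
        ∑ v ∈ out H, dg G H v + 1 ≤ dg G H w + Q ∧ ∃ u : V, u ∉ H ∧ u ≠ w))

/-- choice of the neighbourhoods of the vertices `w`, `u` of a graph `WE` -/
def Stmt_SETS : Prop := ∀ (r : ℕ), 3 ≤ r → ∀ (V : Type) [Fintype V] (H A : Finset V)
  (c : V → Fin r) (i0 : Fin r) (T : ℕ), A ⊆ H → cl A c i0 = ∅ →
  (∀ i, 2 ≤ (cl H c i).card) → r ≤ T + 1 → T + (cl H c i0).card + 1 ≤ H.card →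
  A.card + (cl H c i0).card < H.card →
  ∃ A' B : Finset V, A' ⊆ H ∧ B ⊆ H ∧ cl A' c i0 = ∅ ∧ cl B c i0 = ∅ ∧
    (∀ i, i ≠ i0 → (cl A' c i).Nonempty) ∧ (∀ i, i ≠ i0 → (cl B c i).card = 1) ∧ ¬ B ⊆ A' ∧
    A'.card = T ∧ (df A' A).card + (df A A').card ≤ (T - A.card) + (A.card - T) + 2 * r

/-- no missing pairs: the graph is of the type `WE` -/
def Stmt_SM0 : Prop := ∀ (r : ℕ), 3 ≤ r → ∃ (δ : ℝ) (N0 : ℕ), 0 < δ ∧ ∀ N ≥ N0,
  ∀ (V : Type) [Fintype V] (G : SimpleGraph V) (c : V → Fin r) (H : Finset V),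
    C0 r δ N G c H → G.CliqueFree (r + 1) → ¬ G.Colorable r → MX r G → mis G H c = 0 →
    ∃ (w u : V) (A B : Finset V) (i0 : Fin r), WE G N H c w u A B i0

/-- missing pairs, many outside edges, `w` has no neighbour in one class -/
def Stmt_SM1a : Prop := ∀ (r : ℕ), 3 ≤ r → ∃ (δ : ℝ) (N0 : ℕ), 0 < δ ∧ ∀ N ≥ N0,
  ∀ (V : Type) [Fintype V] (G : SimpleGraph V) (c : V → Fin r) (H : Finset V) (w : V)
    (i0 : Fin r), C0 r δ N G c H → G.CliqueFree (r + 1) → ¬ G.Colorable r → MX r G →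
    0 < mis G H c → 4 * r + mis G H c ≤ 2 * ∑ v ∈ out H, dg G H v + eu G H + 2 →
    w ∉ H → (∀ v, v ∉ H → dg G H v ≤ dg G H w) → cl (nb G H w) c i0 = ∅ → False

/-- `w` has neighbours in all classes -/
def Stmt_SM1b : Prop := ∀ (r : ℕ), 3 ≤ r → ∃ (δ : ℝ) (N0 : ℕ), 0 < δ ∧ ∀ N ≥ N0,
  ∀ (V : Type) [Fintype V] (G : SimpleGraph V) (c : V → Fin r) (H : Finset V) (w : V),
    C0 r δ N G c H → G.CliqueFree (r + 1) → MX r G →
    2 * r + mis G H c ≤ 2 * ∑ v ∈ out H, dg G H v + eu G H + 2 →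
    w ∉ H → (∀ v, v ∉ H → dg G H v ≤ dg G H w) → (∀ i, (cl (nb G H w) c i).Nonempty) →
    ∃ v1 v2 : V, WD G N H c w (nb G H w) v1 v2

/-- missing pairs, an intermediate number of outside edges, `w` has no neighbour in one class -/
def Stmt_SM1c : Prop := ∀ (r : ℕ), 3 ≤ r → ∃ (δ : ℝ) (N0 : ℕ), 0 < δ ∧ ∀ N ≥ N0,
  ∀ (V : Type) [Fintype V] (G : SimpleGraph V) (c : V → Fin r) (H : Finset V) (w : V)
    (i0 : Fin r), C0 r δ N G c H → G.CliqueFree (r + 1) → ¬ G.Colorable r → MX r G →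
    0 < mis G H c → 2 * r + mis G H c ≤ 2 * ∑ v ∈ out H, dg G H v + eu G H + 2 →
    2 * ∑ v ∈ out H, dg G H v + eu G H + 2 < 4 * r + mis G H c →
    w ∉ H → (∀ v, v ∉ H → dg G H v ≤ dg G H w) → cl (nb G H w) c i0 = ∅ → False

/-- few outside edges -/
def Stmt_SM2 : Prop := ∀ (r : ℕ), 3 ≤ r → ∃ (δ : ℝ) (N0 : ℕ), 0 < δ ∧ ∀ N ≥ N0,
  ∀ (V : Type) [Fintype V] (G : SimpleGraph V) (c : V → Fin r) (H : Finset V),
    C0 r δ N G c H → G.CliqueFree (r + 1) → ¬ G.Colorable r → MX r G →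
    2 * ∑ v ∈ out H, dg G H v + eu G H + 2 < 2 * r + mis G H c →
    ∃ (w : V) (T : Finset V), WF G N H c w T

/-- the Turan number is the maximum -/
def Stmt_TNB : Prop := ∀ (r N : ℕ) (n : Fin r → ℕ), 3 ≤ r → ∑ i, n i = N →
  N ^ 2 ≤ 2 * tn r N + ∑ i, n i ^ 2

/-- small `j`: no missing pairs and balanced classes -/
def Stmt_S1 : Prop := ∀ (r : ℕ), 3 ≤ r → ∃ (δ : ℝ) (N0 : ℕ), 0 < δ ∧ ∀ N ≥ N0, ∀ j : ℕ,
  2 * r ≤ j + 1 → ∀ (V : Type) [Fintype V] (G : SimpleGraph V) (c : V → Fin r)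
    (H : Finset V), N + 2 ≤ Fintype.card V → C0 r δ N G c H → G.CliqueFree (r + 1) →
    MX r G → pE G = 2 * ((tn r N : ℝ) + j) → mis G H c = 0 ∧ Bal H c

/-! ## versions of the first round without a lower bound for `j` -/

def Stmt_ESTU : Prop := ∀ (r : ℕ) (e : ℝ), 3 ≤ r → 0 < e → ∃ (δ : ℝ) (N0 : ℕ),
  0 < δ ∧ ∀ N ≥ N0, ∀ j : ℕ, (j : ℝ) ≤ al r * N → ∀ (V : Type) [Fintype V] (G : SimpleGraph V)
    (H : Finset V) (c : V → Fin r) (w : V) (A : Finset V) (J : V → V → ℝ) (x : V → ℝ)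
    (lam : ℝ), Fam G H c w A J → PV G x lam → H.card = N → Near r δ N j H A c →
    ∃ xb : ℝ, Est r e N j x lam c H w A xb

def Stmt_EBU : Prop := ∀ (r : ℕ) (ε : ℝ), 3 ≤ r → 0 < ε → ∃ (δ : ℝ) (N0 : ℕ), 0 < δ ∧
  ∀ N ≥ N0, ∀ j : ℕ, RgU r ε N j → ∀ (V : Type) [Fintype V] (G : SimpleGraph V)
    (H : Finset V) (c : V → Fin r) (w u : V) (A B : Finset V) (i0 : Fin r),
    WE G N H c w u A B i0 → Near r δ N j H A c → MX r G → OneOut A B

def Stmt_E2U : Prop := ∀ (r : ℕ) (ε : ℝ), 3 ≤ r → 0 < ε → ∃ (δ : ℝ) (N0 : ℕ), 0 < δ ∧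
  ∀ N ≥ N0, ∀ j : ℕ, RgU r ε N j → ∀ (V : Type) [Fintype V] (G : SimpleGraph V)
    (H : Finset V) (c : V → Fin r) (w u : V) (A B : Finset V) (i0 : Fin r),
    WE G N H c w u A B i0 → Near r δ N j H A c → OneOut A B → Bal H c → MX r G →
    Place H A c {i0}

def Stmt_E3U : Prop := ∀ (r : ℕ) (ε : ℝ), 3 ≤ r → 0 < ε → ∃ (δ : ℝ) (N0 : ℕ), 0 < δ ∧
  ∀ N ≥ N0, ∀ j : ℕ, RgU r ε N j → ∀ (V : Type) [Fintype V] (G : SimpleGraph V)
    (H : Finset V) (c : V → Fin r) (w u : V) (A B : Finset V) (i0 : Fin r),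
    WE G N H c w u A B i0 → Near r δ N j H A c → OneOut A B → Bal H c →
    Place H A c {i0} → MX r G → Top H c {i0}

def Stmt_TIEU : Prop := ∀ (r : ℕ) (ε : ℝ), 3 ≤ r → 0 < ε → ∃ (δ : ℝ) (N0 : ℕ), 0 < δ ∧
  ∀ N ≥ N0, ∀ j : ℕ, RgU r ε N j → ∀ (V : Type) [Fintype V] (G G' : SimpleGraph V)
    (H : Finset V) (c : V → Fin r) (w u : V) (A B B' : Finset V) (i0 : Fin r),
    WE G N H c w u A B i0 → WE G' N H c w u A B' i0 → OneOut A B → OneOut A B' →
    Near r δ N j H A c → specRad G = specRad G'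

def Stmt_EXU : Prop := ∀ (r : ℕ) (ε : ℝ), 3 ≤ r → 0 < ε → ∃ N0 : ℕ, ∀ N ≥ N0, ∀ j : ℕ,
  RgU r ε N j → 2 * r ≤ j + 1 → ∀ (V : Type) [Fintype V], N + 2 ≤ Fintype.card V →
  (∃ G : SimpleGraph V, TypeD r N j G) ∧ ∃ G : SimpleGraph V, TypeE r N j G

def Stmt_ISOEU : Prop := ∀ (r : ℕ) (ε : ℝ), 3 ≤ r → 0 < ε → ∃ N0 : ℕ, ∀ N ≥ N0, ∀ j : ℕ,
  RgU r ε N j → ∀ (V V' : Type) [Fintype V] [Fintype V'] (G : SimpleGraph V)
    (G' : SimpleGraph V'), TypeE r N j G → TypeE r N j G' → specRad G = specRad G'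

/-- moving a graph to another vertex set, with a bound for the non-isolated vertices -/
def Stmt_TRANS2 : Prop := ∀ (V V' : Type) [Fintype V] [Fintype V'] (G : SimpleGraph V),
  Nonempty V → Fintype.card V ≤ Fintype.card V' → ∃ G' : SimpleGraph V',
    specRad G' = specRad G ∧ pE G' = pE G ∧
    (∀ S : Finset V', (∀ v ∈ S, ∃ u, G'.Adj v u) → S.card ≤ Fintype.card V) ∧
    ∀ r : ℕ, 1 ≤ r → (G.CliqueFree (r + 1) → G'.CliqueFree (r + 1)) ∧
      (G'.Colorable r → G.Colorable r)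

end Pool.Agent.Work.MP_5532fa_up

end

section

/-!
# MP_5532fa_co, upgrade, third round: the missing pairs form a star
-/

open Finset

namespace Pool.Agent.Work.MP_5532fa_up

open MP5532fa (specRad qf pE)

/-- missing pair -/
def FM {V : Type} {r : ℕ} (G : SimpleGraph V) (H : Finset V) (c : V → Fin r) (a b : V) : Prop :=
  a ∈ H ∧ b ∈ H ∧ c a ≠ c b ∧ ¬ G.Adj a b

/-- graphs (given by a symmetric relation) with two disjoint edges have a small sum of squares of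
the degrees; without two disjoint edges they are stars or triangles -/
def Stmt_GAPF : Prop := ∀ (V : Type) [Fintype V] [Nonempty V] (F : V → V → Prop),
  (∀ a b, F a b → F b a) → (∀ a, ¬ F a a) →
  (∃ p, ∀ a b, F a b → a = p ∨ b = p) ∨
  (12 * ∑ v, (∑ b, chi (F v b)) ^ 2 ≤ 3 * (∑ v, ∑ b, chi (F v b)) ^ 2
    + 4 * ∑ v, ∑ b, chi (F v b)) ∨
  (∃ p q s, p ≠ q ∧ p ≠ s ∧ q ≠ s ∧
    ∀ a b, F a b ↔ a ≠ b ∧ (a = p ∨ a = q ∨ a = s) ∧ (b = p ∨ b = q ∨ b = s))

/-- weighted version of the bound for the sum of squares of the degrees -/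
def Stmt_STC : Prop := ∀ (r : ℕ) (V : Type) [Fintype V] (F : V → V → Prop) (c : V → Fin r)
  (β : Fin r → ℝ) (i1 i2 : Fin r) (e s E : ℝ), 0 ≤ e → e ≤ 1 / 10 →
  (∀ a b, F a b → F b a) → (∀ a b, F a b → c a ≠ c b) → (∀ i, |β i - 1| ≤ e) →
  i1 ≠ i2 → β i1 ≤ β i2 → (∀ i, i ≠ i1 → β i2 ≤ β i) →
  s = ∑ a, ∑ b, chi (F a b) →
  E = ∑ a, ∑ b, chi (F a b) * (β (c a) + β (c b) - β i1 - β i2) →
  0 ≤ E ∧ s * (β i1 * β i2) + (1 - e) * E ≤ ∑ a, ∑ b, chi (F a b) * (β (c a) * β (c b)) ∧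
  ∑ v, (∑ b, chi (F v b) * β (c b)) ^ 2
    ≤ (∑ v, (∑ b, chi (F v b)) ^ 2 - s) * β i2 ^ 2 + s / 2 * (β i1 ^ 2 + β i2 ^ 2)
      + (3 * s + 2) * E

/-- second order comparison of two systems of missing pairs -/
def Stmt_STA : Prop := ∀ (r : ℕ), 3 ≤ r → ∃ C : ℝ, 1 ≤ C ∧ ∀ (V : Type) [Fintype V]
  (G G' : SimpleGraph V) (c : V → Fin r) (H : Finset V) (w : V) (T : Finset V) (x : V → ℝ)
  (lam xb e : ℝ) (N : ℕ) (β : Fin r → ℝ), 0 ≤ e → e ≤ 1 / 10 → 1 ≤ N → WF G N H c w T →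
  1 ≤ mis G H c → (∀ a b, (a ∉ H ∨ b ∉ H) → (G'.Adj a b ↔ G.Adj a b)) →
  (∀ u ∈ H, ∀ v ∈ H, c u = c v → ¬ G'.Adj u v) → mis G' H c = mis G H c →
  PV G x lam → Fl r e N H x lam xb → specRad G' ≤ lam →
  (∀ i, β i = (∑ v ∈ H, x v - cs x H c i) / lam) →
  ∑ a, ∑ b, chi (FM G H c a b) * (β (c a) * β (c b))
    - ∑ a, ∑ b, chi (FM G' H c a b) * (β (c a) * β (c b))
    + (∑ v, (∑ b, chi (FM G' H c v b) * β (c b)) ^ 2
        - ∑ v, (∑ b, chi (FM G H c v b) * β (c b)) ^ 2) / lam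
    ≤ C * (mis G H c) ^ 2 * xb ^ 2 / N ^ 2

/-- two classes of the same size -/
def Stmt_EQS : Prop := ∀ (r : ℕ), 3 ≤ r → ∃ (δ : ℝ) (N0 : ℕ), 0 < δ ∧ ∀ N ≥ N0,
  ∀ (V : Type) [Fintype V] (G : SimpleGraph V) (c : V → Fin r) (H : Finset V) (w : V)
    (T : Finset V) (k l : Fin r), C0 r δ N G c H → WF G N H c w T → MX r G →
    4 ≤ mis G H c → k ≠ l → (cl H c k).card = (cl H c l).card → False

/-- the missing pairs form a star -/
def Stmt_STAR : Prop := ∀ (r : ℕ), 3 ≤ r → ∃ (δ : ℝ) (N0 : ℕ), 0 < δ ∧ ∀ N ≥ N0,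
  ∀ (V : Type) [Fintype V] (G : SimpleGraph V) (c : V → Fin r) (H : Finset V) (w : V)
    (T : Finset V), C0 r δ N G c H → WF G N H c w T → MX r G → 4 ≤ mis G H c →
    ∃ p ∈ T, ∀ a b, FM G H c a b → a = p ∨ b = p

/-- a star of missing pairs gives a graph of the type `WE` -/
def Stmt_FWE : Prop := ∀ (r : ℕ), 3 ≤ r → ∀ (V : Type) [Fintype V] [DecidableEq V]
  (G : SimpleGraph V) (N : ℕ) (c : V → Fin r) (H : Finset V) (w p : V) (T : Finset V),
  WF G (N + 1) H c w T → (∀ i, mis G H c < (cl H c i).card) → p ∈ T →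
  (∀ a b, FM G H c a b → a = p ∨ b = p) →
  ∃ A B : Finset V, WE G N (H.erase p) c p w A B (c p)

end Pool.Agent.Work.MP_5532fa_up

end
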