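import Mathlib
import Pool.Agent.Work.MP_5532fa_full.P01

section

/-!
# MP_5532fa_up, block TN (helper20)
-/

set_option autoImplicit false

namespace Pool.Agent.Work.MP_5532fa_up

open Finset

namespace TN

/-- the sum of squares of balanced class sizes -/
lemma sq_sum {N r : ℕ} (hr : 0 < r) (n : Fin r → ℕ) (hsum : ∑ i, n i = N)
    (hb : ∀ i k, n i ≤ n k + 1) :
    ∑ i, ((n i : ℤ)) ^ 2 = (2 * (N / r : ℕ) + 1) * N - r * ((N / r : ℕ) * ((N / r : ℕ) + 1)) := by
  have hne : (univ : Finset (Fin r)).Nonempty := ⟨⟨0, hr⟩, Finset.mem_univ _⟩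
  obtain ⟨i0, _, hmin⟩ := Finset.exists_min_image univ (fun i => n i) hne
  set k := n i0 with hk
  have hval : ∀ i, n i = k ∨ n i = k + 1 := by
    intro i
    have h1 := hmin i (Finset.mem_univ _)
    have h2 := hb i i0
    omega
  have hlow : r * k ≤ N := by
    rw [← hsum]
    have : ∑ _i : Fin r, k ≤ ∑ i, n i := Finset.sum_le_sum fun i _ => hmin i (Finset.mem_univ _)
    simpa using this
  have hup : N < r * (k + 1) := by
    rw [← hsum]
    have : ∑ i, n i < ∑ _i : Fin r, (k + 1) := by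
      refine Finset.sum_lt_sum (fun i _ => ?_) ⟨i0, Finset.mem_univ _, ?_⟩
      · rcases hval i with h | h <;> omega
      · omega
    simpa using this
  have hNr : N / r = k := by
    apply Nat.div_eq_of_lt_le
    · rw [mul_comm]; exact hlow
    · rw [mul_comm]; exact hup
  rw [hNr]
  have e : ∀ i, ((n i : ℤ)) ^ 2 = (2 * k + 1) * n i - k * (k + 1) := by
    intro i
    rcases hval i with h | h
    · rw [h]; ring
    · rw [h]; push_cast; ring
  simp only [e, Finset.sum_sub_distrib, ← Finset.mul_sum]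
  have e1 : ∑ i, (n i : ℤ) = N := by exact_mod_cast hsum
  rw [e1]
  simp
  ring

/-- the number of edges of the Turan graph -/
lemma tn_eq {r : ℕ} (hr : 0 < r) (N : ℕ) :
    2 * (tn r N : ℤ) + ((2 * (N / r : ℕ) + 1) * N - r * ((N / r : ℕ) * ((N / r : ℕ) + 1)))
      = (N : ℤ) ^ 2 := by
  have h1 := MP5532fa.pE_mult (MP5532fa.cT r N hr) (SimpleGraph.turanGraph N r) (by
    intro u w
    unfold MP5532fa.cT SimpleGraph.turanGraph
    simp)
  rw [MP5532fa.pE_eq, Fintype.card_fin] at h1
  have h2 := sq_sum hr (fun i => MP5532fa.sz (MP5532fa.cT r N hr) i)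
    (by rw [MP5532fa.sum_sz, Fintype.card_fin]) (MP5532fa.cT_bal hr)
  rw [← h2]
  have h3 : (2 * (tn r N : ℝ)) + ∑ i, ((MP5532fa.sz (MP5532fa.cT r N hr) i : ℝ)) ^ 2
      = (N : ℝ) ^ 2 := by
    unfold tn
    linarith
  exact_mod_cast h3

end TN

/-- TN -/
theorem blk_TN : Stmt_TN := by
  intro r hr N
  have hr0 : 0 < r := by omega
  refine ⟨?_, ?_, ?_⟩
  · intro n hsum hb
    have h1 := TN.sq_sum hr0 n hsum hb
    have h2 := TN.tn_eq hr0 N
    rw [← h1] at h2
    exact_mod_cast h2
  · have h2 := TN.tn_eq hr0 N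
    have h3 : 2 * (tn r N : ℝ) + ((2 * ((N / r : ℕ) : ℝ) + 1) * N
        - r * (((N / r : ℕ) : ℝ) * (((N / r : ℕ) : ℝ) + 1))) = (N : ℝ) ^ 2 := by
      exact_mod_cast h2
    have hrR : (3 : ℝ) ≤ r := by exact_mod_cast hr
    have hrpos : (0 : ℝ) < r := by linarith
    obtain ⟨s, hs, hN⟩ : ∃ s : ℕ, s < r ∧ N = r * (N / r) + s :=
      ⟨N % r, Nat.mod_lt _ hr0, (Nat.div_add_mod N r).symm⟩
    set k := N / r with hk
    have hNR : (N : ℝ) = r * k + s := by exact_mod_cast hN
    have hsR : (s : ℝ) < r := by exact_mod_cast hs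
    have hs0 : (0 : ℝ) ≤ s := Nat.cast_nonneg s
    have e : 2 * (tn r N : ℝ) - al r * (N : ℝ) ^ 2 = (s : ℝ) * ((s : ℝ) - r) / r := by
      unfold al
      rw [hNR] at h3 ⊢
      field_simp
      field_simp at h3
      linear_combination (r : ℝ) * h3
    rw [e, abs_le]
    constructor
    · rw [le_div_iff₀ hrpos]
      nlinarith
    · rw [div_le_iff₀ hrpos]
      nlinarith
  · have h2 := TN.tn_eq hr0 N
    have h3 := TN.tn_eq hr0 (N + 1)
    have hdiv : (N + 1) / r = N / r ∨ ((N + 1) / r = N / r + 1 ∧ N + 1 = r * (N / r + 1)) := by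
      have h4 := Nat.div_add_mod N r
      have h5 := Nat.mod_lt N hr0
      by_cases hc : N % r + 1 = r
      · right
        have h6 : N + 1 = r * (N / r + 1) := by rw [mul_add, mul_one]; omega
        refine ⟨?_, h6⟩
        conv_lhs => rw [h6]
        exact Nat.mul_div_cancel_left _ hr0
      · left
        apply Nat.div_eq_of_lt_le
        · rw [mul_comm]; omega
        · rw [mul_comm, mul_add, mul_one]; omega
    have hgoal : (tn r (N + 1) : ℤ) + (N / r : ℕ) = tn r N + N := by
      rcases hdiv with h | ⟨h, h'⟩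
      · rw [h] at h3
        push_cast at h2 h3 ⊢
        have : 2 * ((tn r (N + 1) : ℤ) + (N : ℤ) / (r : ℤ)) = 2 * (tn r N + N) := by
          linear_combination h3 - h2
        linarith
      · rw [h] at h3
        have h'' : (N : ℤ) + 1 = r * ((N / r : ℕ) + 1) := by exact_mod_cast h'
        generalize (N / r : ℕ) = k at h2 h3 h'' ⊢
        push_cast at h2 h3 ⊢
        have : 2 * ((tn r (N + 1) : ℤ) + k) = 2 * (tn r N + N) := by
          linear_combination h3 - h2 - 2 * h''
        linarith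
    exact_mod_cast hgoal

end Pool.Agent.Work.MP_5532fa_up

end

section

/-!
# MP_5532fa_co, upgrade, block D3: the classes of the missing edge are the largest ones
-/

open Finset

namespace Pool.Agent.Work.MP_5532fa_up

open MP5532fa (specRad qf pE)

namespace D3

section
variable {V : Type} [Fintype V] {r : ℕ}

omit [Fintype V] in
theorem wd_symm {G : SimpleGraph V} {N : ℕ} {H : Finset V} {c : V → Fin r} {w : V} {A : Finset V}
    {v1 v2 : V} (h : WD G N H c w A v1 v2) : WD G N H c w A v2 v1 := by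
  refine ⟨h.card, h.hw, h.hA, h.h12.symm, h.h2, h.h1, h.hne, fun a b => ?_⟩
  rw [h.adj a b]
  constructor
  · rintro (⟨h1, h2, h3, h4, h5⟩ | h1)
    · exact Or.inl ⟨h1, h2, h3, h5, h4⟩
    · exact Or.inr h1
  · rintro (⟨h1, h2, h3, h4, h5⟩ | h1)
    · exact Or.inl ⟨h1, h2, h3, h5, h4⟩
    · exact Or.inr h1

theorem sum_left (x y : V → ℝ) (p : V) (S : Finset V) :
    ∑ a, ∑ b, chi (a = p ∧ b ∈ S) * (x a * y b) = x p * ∑ b ∈ S, y b := by
  classical
  rw [Finset.sum_eq_single p]
  · rw [Finset.mul_sum, ← Finset.sum_filter_add_sum_filter_not univ (fun b => b ∈ S)]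
    have h1 : ∑ b ∈ univ.filter (fun b => ¬ b ∈ S), chi (p = p ∧ b ∈ S) * (x p * y b) = 0 := by
      refine Finset.sum_eq_zero fun b hb => ?_
      rw [chi_neg (fun h => (Finset.mem_filter.mp hb).2 h.2), zero_mul]
    rw [h1, add_zero]
    have h2 : univ.filter (fun b => b ∈ S) = S := by ext; simp
    rw [h2]
    refine Finset.sum_congr rfl fun b hb => ?_
    rw [chi_pos ⟨rfl, hb⟩, one_mul]
  · intro a _ ha
    refine Finset.sum_eq_zero fun b _ => ?_
    rw [chi_neg (fun h => ha h.1), zero_mul]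
  · intro h; exact absurd (Finset.mem_univ _) h

theorem sum_right (x y : V → ℝ) (p : V) (S : Finset V) :
    ∑ a, ∑ b, chi (b = p ∧ a ∈ S) * (x a * y b) = y p * ∑ a ∈ S, x a := by
  rw [Finset.sum_comm, ← sum_left y x p S]
  refine Finset.sum_congr rfl fun b _ => Finset.sum_congr rfl fun a _ => ?_
  ring

theorem sum_pt (x y : V → ℝ) (p q : V) :
    ∑ a, ∑ b, chi (a = p ∧ b = q) * (x a * y b) = x p * y q := by
  have h := sum_left x y p {q}
  rw [Finset.sum_singleton] at h
  rw [← h]
  refine Finset.sum_congr rfl fun a _ => Finset.sum_congr rfl fun b _ => ?_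
  rw [chi_congr (p := a = p ∧ b = q) (q := a = p ∧ b ∈ ({q} : Finset V)) (by simp)]

theorem JD_sum (v1 v2 : V) (x : V → ℝ) (v : V) :
    ∑ z, JD v1 v2 v z * x z = -(chi (v = v1) * x v2) - chi (v = v2) * x v1 := by
  classical
  have h1 : ∀ p q : V, ∑ z, chi (v = p ∧ z = q) * x z = chi (v = p) * x q := by
    intro p q
    rw [Finset.sum_eq_single q]
    · rw [chi_congr (p := v = p ∧ q = q) (q := v = p) (by simp)]
    · intro b _ hb
      rw [chi_neg (fun h => hb h.2), zero_mul]
    · intro h; exact absurd (Finset.mem_univ _) h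
  have h2 : ∀ z, JD v1 v2 v z * x z = -(chi (v = v1 ∧ z = v2) * x z) - chi (v = v2 ∧ z = v1) * x z := by
    intro z; unfold JD; ring
  rw [Finset.sum_congr rfl fun z _ => h2 z, Finset.sum_sub_distrib, Finset.sum_neg_distrib,
    h1, h1]

/-- the pairing sum for two families with the same `H`, `c`, `w` and gadgets `JD` -/
theorem pair_diff {G G' : SimpleGraph V} {H : Finset V} {c : V → Fin r} {w : V} {A A' : Finset V}
    {v1 v2 u1 : V} (hF : Fam G H c w A (JD v1 v2)) (hF' : Fam G' H c w A' (JD u1 v2))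
    (x y : V → ℝ) :
    ∑ a, ∑ b, (ad G' a b - ad G a b) * (x a * y b) =
      x w * (∑ b ∈ A', y b - ∑ b ∈ A, y b) + y w * (∑ a ∈ A', x a - ∑ a ∈ A, x a)
      + (x v1 * y v2 + x v2 * y v1) - (x u1 * y v2 + x v2 * y u1) := by
  have h1 : ∀ a b, (ad G' a b - ad G a b) * (x a * y b) =
      chi (a = w ∧ b ∈ A') * (x a * y b) - chi (a = w ∧ b ∈ A) * (x a * y b)
      + chi (b = w ∧ a ∈ A') * (x a * y b) - chi (b = w ∧ a ∈ A) * (x a * y b)
      - chi (a = u1 ∧ b = v2) * (x a * y b) - chi (a = v2 ∧ b = u1) * (x a * y b)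
      + chi (a = v1 ∧ b = v2) * (x a * y b) + chi (a = v2 ∧ b = v1) * (x a * y b) := by
    intro a b
    rw [hF.adj, hF'.adj]
    unfold JD
    ring
  simp only [h1, Finset.sum_add_distrib, Finset.sum_sub_distrib, sum_left, sum_right, sum_pt]
  ring

end

/-- the final inequality -/
theorem final_ineq {lam lam' P T x2 y2 xw yw D D' b p1 q1 p2 q2 : ℝ} (hl : lam' ≤ lam)
    (hl' : 0 < lam') (hP : 0 ≤ P) (hT : T = (lam' - lam) * P) (hx2 : 0 < x2) (hy2 : 0 < y2)
    (hxw : 0 ≤ xw) (hyw : 0 ≤ yw) (hD : 0 < D) (hD' : 0 < D') (hb : 0 ≤ b)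
    (hp1 : lam * p1 = D - x2) (hq1 : lam' * q1 = D' + y2) (hp2 : lam * p2 = b * (D - xw))
    (hq2 : lam' * q2 = b * (D' + yw)) (hTT : T = y2 * p1 + x2 * q1 + xw * q2 + yw * p2) : False := by
  have hlam : 0 < lam := lt_of_lt_of_le hl' hl
  have h1 : 0 < q1 := by
    by_contra h
    push Not at h
    have : lam' * q1 ≤ 0 := mul_nonpos_of_nonneg_of_nonpos hl'.le h
    linarith
  have h2 : 0 ≤ q2 := by
    by_contra h
    push Not at h
    have h3 : lam' * q2 < 0 := mul_neg_of_pos_of_neg hl' h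
    have h4 : 0 ≤ b * (D' + yw) := mul_nonneg hb (by linarith)
    linarith
  have h3 : D' + y2 ≤ lam * q1 := by
    rw [← hq1]; exact mul_le_mul_of_nonneg_right hl h1.le
  have h4 : b * (D' + yw) ≤ lam * q2 := by
    rw [← hq2]; exact mul_le_mul_of_nonneg_right hl h2
  have h5 : lam * T = y2 * (D - x2) + x2 * (lam * q1) + xw * (lam * q2) + yw * (b * (D - xw)) := by
    rw [hTT, ← hp1, ← hp2]; ring
  have h6 : x2 * (D' + y2) ≤ x2 * (lam * q1) := mul_le_mul_of_nonneg_left h3 hx2.le
  have h7 : xw * (b * (D' + yw)) ≤ xw * (lam * q2) := mul_le_mul_of_nonneg_left h4 hxw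
  have h8 : 0 < y2 * D := mul_pos hy2 hD
  have h9 : 0 < x2 * D' := mul_pos hx2 hD'
  have h10 : 0 ≤ xw * b * D' := mul_nonneg (mul_nonneg hxw hb) hD'.le
  have h11 : 0 ≤ yw * b * D := mul_nonneg (mul_nonneg hyw hb) hD.le
  have h12 : lam * T ≤ 0 := by
    rw [hT]
    have : (lam' - lam) * P ≤ 0 := mul_nonpos_of_nonpos_of_nonneg (by linarith) hP
    exact mul_nonpos_of_nonneg_of_nonpos hlam.le this
  nlinarith

/-- the conclusion of `EST` for `e = 1/12` -/
def EstC (r : ℕ) (δ : ℝ) (N j : ℕ) : Prop := ∀ (V : Type) [Fintype V] (G : SimpleGraph V)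
    (H : Finset V) (c : V → Fin r) (w : V) (A : Finset V) (J : V → V → ℝ) (x : V → ℝ)
    (lam : ℝ), Fam G H c w A J → PV G x lam → H.card = N → Near r δ N j H A c →
    ∃ xb : ℝ, Est r (1 / 12) N j x lam c H w A xb

end D3

end Pool.Agent.Work.MP_5532fa_up

end

section

/-!
# MP_5532fa_up, block PARX (helper20)
-/

set_option autoImplicit false

namespace Pool.Agent.Work.MP_5532fa_up

open Finset

namespace PARX

/-- the placement condition -/
def Pl {r : ℕ} (n a : Fin r → ℕ) (P : Finset (Fin r)) : Prop :=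
  ∀ i k, i ∉ P → k ∉ P → (n i = n k → a i ≤ a k + 1) ∧ (n i < n k → a i = n i ∨ a k = 1)

/-- filling the classes one unit at a time -/
lemma fillup {r : ℕ} (n : Fin r → ℕ) (P : Finset (Fin r)) (hn : ∀ i, 1 ≤ n i) (s : ℕ)
    (hs : (Pᶜ).card ≤ s) : s ≤ ∑ i ∈ Pᶜ, n i → ∃ a : Fin r → ℕ, ∑ i ∈ Pᶜ, a i = s ∧
      (∀ i, i ∉ P → 1 ≤ a i ∧ a i ≤ n i) ∧ Pl n a P := by
  induction s, hs using Nat.le_induction with
  | base =>
    intro _
    refine ⟨fun _ => 1, by simp, fun i _ => ⟨le_rfl, hn i⟩, ?_⟩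
    intro i k _ _
    exact ⟨fun _ => Nat.le_succ _, fun _ => Or.inr rfl⟩
  | succ s hs ih =>
    intro hle
    obtain ⟨a, hsum, hb, hpl⟩ := ih (by omega)
    -- a class which is not full
    have hex : ∃ i, i ∉ P ∧ a i < n i := by
      by_contra hcon
      have : ∑ i ∈ Pᶜ, n i ≤ ∑ i ∈ Pᶜ, a i := by
        refine Finset.sum_le_sum fun i hi => ?_
        by_contra h
        exact hcon ⟨i, Finset.mem_compl.mp hi, by omega⟩
      omega
    obtain ⟨i1, h1⟩ := hex
    -- first the size, then the content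
    obtain ⟨i2, hi2, hmin2⟩ := Finset.exists_min_image
      ((univ : Finset (Fin r)).filter (fun i => i ∉ P ∧ a i < n i)) n
      ⟨i1, by simp [h1]⟩
    obtain ⟨i, hi, hmin⟩ := Finset.exists_min_image
      ((univ : Finset (Fin r)).filter (fun i => (i ∉ P ∧ a i < n i) ∧ n i = n i2)) a
      ⟨i2, by simpa using hi2⟩
    have hi' : (i ∉ P ∧ a i < n i) ∧ n i = n i2 := by simpa using hi
    have hsz : ∀ k, k ∉ P → a k < n k → n i ≤ n k := by
      intro k hk hk2
      rw [hi'.2]
      exact hmin2 k (by simp [hk, hk2])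
    have hct : ∀ k, k ∉ P → a k < n k → n k = n i → a i ≤ a k := by
      intro k hk hk2 hk3
      exact hmin k (Finset.mem_filter.mpr ⟨Finset.mem_univ _, ⟨hk, hk2⟩, hk3.trans hi'.2⟩)
    have hiP : i ∉ P := hi'.1.1
    have hlt : a i < n i := hi'.1.2
    refine ⟨Function.update a i (a i + 1), ?_, ?_, ?_⟩
    · have hmem : i ∈ Pᶜ := Finset.mem_compl.mpr hiP
      rw [← Finset.add_sum_erase _ _ hmem, Function.update_self]
      rw [← Finset.add_sum_erase _ _ hmem] at hsum
      have : ∑ x ∈ (Pᶜ).erase i, Function.update a i (a i + 1) x = ∑ x ∈ (Pᶜ).erase i, a x := by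
        refine Finset.sum_congr rfl fun x hx => ?_
        rw [Function.update_of_ne (Finset.ne_of_mem_erase hx)]
      rw [this]
      omega
    · intro k hk
      by_cases hki : k = i
      · rw [hki, Function.update_self]
        omega
      · rw [Function.update_of_ne hki]
        exact hb k hk
    · intro j k hj hk
      by_cases hji : j = i
      · by_cases hki : k = i
        · rw [hji, hki]
          exact ⟨fun _ => by omega, fun h => absurd h (lt_irrefl _)⟩
        · rw [hji, Function.update_self, Function.update_of_ne hki]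
          refine ⟨fun h => ?_, fun h => ?_⟩
          · by_cases hf : a k < n k
            · have := hct k hk hf h.symm
              omega
            · omega
          · rcases (hpl i k hiP hk).2 h with h' | h'
            · omega
            · exact Or.inr h'
      · by_cases hki : k = i
        · rw [hki, Function.update_self, Function.update_of_ne hji]
          refine ⟨fun h => ?_, fun h => ?_⟩
          · have := (hpl j i hj hiP).1 h
            omega
          · left
            by_contra hne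
            have h2 := (hb j hj).2
            have := hsz j hj (by omega)
            omega
        · rw [Function.update_of_ne hji, Function.update_of_ne hki]
          exact hpl j k hj hk

lemma sum_ite_lt {r t : ℕ} (ht : t ≤ r) : ∑ i : Fin r, (if i.val < t then 1 else 0) = t := by
  rw [Fin.sum_univ_eq_sum_range (fun i => if i < t then 1 else 0) r, Finset.sum_boole]
  have : (Finset.range r).filter (fun i => i < t) = Finset.range t := by
    ext i
    simp only [Finset.mem_filter, Finset.mem_range]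
    omega
  rw [this, Finset.card_range]
  simp

end PARX

/-- PARX -/
theorem blk_PARX : Stmt_PARX := by
  intro r p p0 N s hr hp hN hs hs2
  set q := N / r with hq
  set t := N % r with ht
  have hr0 : 0 < r := by omega
  have htr : t < r := Nat.mod_lt _ hr0
  have hNq : r * q + t = N := Nat.div_add_mod N r
  have hq2 : 2 ≤ q := by
    rw [hq, Nat.le_div_iff_mul_le hr0]
    exact hN
  set n : Fin r → ℕ := fun i => q + (if i.val < t then 1 else 0) with hn
  set P : Finset (Fin r) := univ.filter (fun i => i.val < p) with hP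
  have hPcard : P.card = p := by
    rw [hP, Finset.card_filter]
    exact PARX.sum_ite_lt hp.le
  have hsum : ∑ i, n i = N := by
    rw [hn]
    simp only [Finset.sum_add_distrib]
    rw [PARX.sum_ite_lt htr.le]
    simpa using hNq
  have hle1 : ∀ i, n i ≤ q + 1 := by
    intro i
    rw [hn]
    dsimp only
    split_ifs <;> omega
  have hge : ∀ i, q ≤ n i := by
    intro i
    rw [hn]
    dsimp only
    omega
  have hsplit : ∑ i ∈ P, n i + ∑ i ∈ Pᶜ, n i = N := by
    rw [Finset.sum_add_sum_compl, hsum]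
  have hPs : ∑ i ∈ P, n i ≤ p * (q + 1) := by
    calc ∑ i ∈ P, n i ≤ ∑ _i ∈ P, (q + 1) := Finset.sum_le_sum fun i _ => hle1 i
      _ = p * (q + 1) := by rw [Finset.sum_const, hPcard, smul_eq_mul]
  have hcompl : (Pᶜ).card + p = r := by
    rw [Finset.card_compl, hPcard, Fintype.card_fin]
    omega
  obtain ⟨a, ha1, ha2, ha3⟩ := PARX.fillup n P (fun i => by have := hge i; omega) s
    (by omega) (by omega)
  refine ⟨n, fun i => if i ∈ P then p0 else a i, P, hPcard, hsum, ?_, ?_, ?_, ?_, ?_, ?_, ?_⟩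
  · rw [← Finset.sum_add_sum_compl P]
    have e1 : ∑ i ∈ P, (if i ∈ P then p0 else a i) = p * p0 := by
      rw [Finset.sum_congr rfl (fun i hi => if_pos hi), Finset.sum_const, hPcard, smul_eq_mul]
    have e2 : ∑ i ∈ Pᶜ, (if i ∈ P then p0 else a i) = s := by
      rw [← ha1]
      exact Finset.sum_congr rfl (fun i hi => if_neg (Finset.mem_compl.mp hi))
    rw [e1, e2]
    ring
  · intro i
    have := hge i
    omega
  · intro i k
    have := hge k
    have := hle1 i
    omega
  · intro i k hi hk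
    have hi' : i.val < p := (Finset.mem_filter.mp hi).2
    have hk' : ¬ k.val < p := fun h => hk (Finset.mem_filter.mpr ⟨Finset.mem_univ _, h⟩)
    rw [hn]
    dsimp only
    split_ifs <;> omega
  · intro i hi
    exact if_pos hi
  · intro i hi
    dsimp only
    rw [if_neg hi]
    exact ha2 i hi
  · intro i k hi hk
    dsimp only
    rw [if_neg hi, if_neg hk]
    exact ha3 i k hi hk

end Pool.Agent.Work.MP_5532fa_up

end

section

/-!
# Block GE: facts on the graphs of type E
-/

open Finset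

namespace Pool.Agent.Work.MP_5532fa_up

open MP5532fa (specRad qf pE)

namespace GE

theorem chi_or {p q : Prop} (h : ¬ (p ∧ q)) : chi (p ∨ q) = chi p + chi q := by
  by_cases hp : p
  · have hq : ¬ q := fun hq => h ⟨hp, hq⟩
    rw [chi_pos hp, chi_neg hq, chi_pos (Or.inl hp), add_zero]
  · by_cases hq : q
    · rw [chi_neg hp, chi_pos hq, chi_pos (Or.inr hq), zero_add]
    · rw [chi_neg hp, chi_neg hq, chi_neg (fun h => h.elim hp hq), zero_add]

theorem chi_and (p q : Prop) : chi (p ∧ q) = chi p * chi q := by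
  by_cases hp : p
  · by_cases hq : q
    · rw [chi_pos hp, chi_pos hq, chi_pos ⟨hp, hq⟩, one_mul]
    · rw [chi_pos hp, chi_neg hq, chi_neg (fun h => hq h.2), mul_zero]
  · rw [chi_neg hp, chi_neg (fun h => hp h.1), zero_mul]

section
variable {V : Type} [Fintype V] {r : ℕ}

theorem sum_chi_mem (S : Finset V) : ∑ a, chi (a ∈ S) = S.card := by
  have h1 : ∑ a ∈ S, chi (a ∈ S) = ∑ a, chi (a ∈ S) :=
    Finset.sum_subset (Finset.subset_univ S) (fun x _ hx => chi_neg hx)
  rw [← h1, Finset.sum_congr rfl fun a ha => chi_pos ha, Finset.sum_const, nsmul_eq_mul, mul_one]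

theorem sum_chi_eq (w : V) : ∑ a, chi (a = w) = 1 := by
  classical
  have := sum_chi_mem ({w} : Finset V)
  simpa using this

theorem sum_chi_cl (S : Finset V) (c : V → Fin r) (i : Fin r) :
    ∑ a, chi (a ∈ S ∧ c a = i) = sz S c i := by
  unfold sz
  rw [← sum_chi_mem]
  exact Finset.sum_congr rfl fun a _ => chi_congr mem_cl.symm

theorem sum_prod (f g : V → ℝ) : ∑ a, ∑ b, f a * g b = (∑ a, f a) * ∑ b, g b := by
  rw [Finset.sum_mul]
  exact Finset.sum_congr rfl fun a _ => (Finset.mul_sum _ _ _).symm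

omit [Fintype V] in
theorem chi_multi (H : Finset V) (c : V → Fin r) (a b : V) :
    chi (a ∈ H ∧ b ∈ H ∧ c a ≠ c b) = chi (a ∈ H) * chi (b ∈ H)
      - ∑ i, chi (a ∈ H ∧ c a = i) * chi (b ∈ H ∧ c b = i) := by
  classical
  have h1 : ∀ i, chi (a ∈ H ∧ c a = i) * chi (b ∈ H ∧ c b = i)
      = chi (a ∈ H) * chi (b ∈ H) * (if i = c a then chi (c a = c b) else 0) := by
    intro i
    rw [chi_and, chi_and]
    by_cases hi : i = c a
    · subst hi
      rw [if_pos rfl, chi_pos rfl, chi_congr (p := c b = c a) (q := c a = c b) eq_comm]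
      ring
    · rw [if_neg hi, chi_neg (p := c a = i) (fun h => hi h.symm)]
      ring
  rw [Finset.sum_congr rfl fun i _ => h1 i, ← Finset.mul_sum, Finset.sum_ite_eq' Finset.univ (c a),
    if_pos (Finset.mem_univ _), chi_and, chi_and]
  by_cases h : c a = c b
  · rw [chi_pos h, chi_neg (p := c a ≠ c b) (fun h' => h' h)]; ring
  · rw [chi_neg h, chi_pos (p := c a ≠ c b) h]; ring

theorem sum_multi (H : Finset V) (c : V → Fin r) :
    ∑ a, ∑ b, chi (a ∈ H ∧ b ∈ H ∧ c a ≠ c b) = (H.card : ℝ) ^ 2 - ∑ i, sz H c i ^ 2 := by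
  simp_rw [chi_multi H c, Finset.sum_sub_distrib]
  rw [sum_prod, sum_chi_mem, ← sq]
  have h1 : ∑ a, ∑ b, ∑ i, chi (a ∈ H ∧ c a = i) * chi (b ∈ H ∧ c b = i)
      = ∑ i, sz H c i ^ 2 := by
    have h2 : ∀ a : V, ∑ b, ∑ i, chi (a ∈ H ∧ c a = i) * chi (b ∈ H ∧ c b = i)
        = ∑ i, ∑ b, chi (a ∈ H ∧ c a = i) * chi (b ∈ H ∧ c b = i) := fun a => Finset.sum_comm
    rw [Finset.sum_congr rfl fun a _ => h2 a, Finset.sum_comm]
    refine Finset.sum_congr rfl fun i _ => ?_
    rw [sum_prod, sum_chi_cl, sq]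
  rw [h1]

theorem sum_pair (w : V) (A : Finset V) : ∑ a, ∑ b, chi (a = w ∧ b ∈ A) = A.card := by
  have h : ∀ a b : V, chi (a = w ∧ b ∈ A) = chi (a = w) * chi (b ∈ A) := fun a b => chi_and _ _
  simp_rw [h]
  rw [sum_prod, sum_chi_eq, sum_chi_mem, one_mul]

theorem sum_pair' (w : V) (A : Finset V) : ∑ a, ∑ b, chi (b = w ∧ a ∈ A) = A.card := by
  rw [Finset.sum_comm]; exact sum_pair w A

theorem sum_pt (w u : V) : ∑ a, ∑ b, chi (a = w ∧ b = u) = 1 := by
  have h : ∀ a b : V, chi (a = w ∧ b = u) = chi (a = w) * chi (b = u) := fun a b => chi_and _ _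
  simp_rw [h]
  rw [sum_prod, sum_chi_eq, sum_chi_eq, one_mul]

variable {G : SimpleGraph V} {N : ℕ} {H : Finset V} {c : V → Fin r} {w u : V} {A B : Finset V}
  {i0 : Fin r}

omit [Fintype V] in
theorem ad_eq (h : WE G N H c w u A B i0) (a b : V) :
    ad G a b = chi (a ∈ H ∧ b ∈ H ∧ c a ≠ c b) + (chi (a = w ∧ b ∈ A) + (chi (b = w ∧ a ∈ A)
      + (chi (a = u ∧ b ∈ B) + (chi (b = u ∧ a ∈ B) + (chi (a = w ∧ b = u)
      + chi (a = u ∧ b = w)))))) := by
  unfold ad
  rw [chi_congr (h.adj a b)]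
  have hw := h.hw
  have hu := h.hu
  have hwu := h.hwu
  have hA := h.hA
  have hB := h.hB
  have hwA : w ∉ A := fun h' => hw (hA h')
  have huA : u ∉ A := fun h' => hu (hA h')
  have hwB : w ∉ B := fun h' => hw (hB h')
  have huB : u ∉ B := fun h' => hu (hB h')
  rw [chi_or, chi_or, chi_or, chi_or, chi_or, chi_or]
  · rintro ⟨⟨h1, h2⟩, h3, h4⟩
    exact hwu (h1.symm.trans h3)
  · rintro ⟨⟨h1, h2⟩, ⟨h3, h4⟩ | ⟨h3, h4⟩⟩
    · exact hwB (h3 ▸ h2)
    · exact hwu (h4.symm.trans h1)
  · rintro ⟨⟨h1, h2⟩, ⟨h3, h4⟩ | ⟨h3, h4⟩ | ⟨h3, h4⟩⟩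
    · exact huB (h3 ▸ h2)
    · exact hwu (h3.symm.trans h1)
    · exact hwB (h4 ▸ h2)
  · rintro ⟨⟨h1, h2⟩, ⟨h3, h4⟩ | ⟨h3, h4⟩ | ⟨h3, h4⟩ | ⟨h3, h4⟩⟩
    · exact huA (h3 ▸ h2)
    · exact hwu (h1.symm.trans h3)
    · exact hwu (h1.symm.trans h4)
    · exact huA (h3 ▸ h2)
  · rintro ⟨⟨h1, h2⟩, ⟨h3, h4⟩ | ⟨h3, h4⟩ | ⟨h3, h4⟩ | ⟨h3, h4⟩ | ⟨h3, h4⟩⟩
    · exact hwA (h3 ▸ h2)
    · exact hwu (h1.symm.trans h3)
    · exact huA (h3 ▸ h2)
    · exact huA (h4 ▸ h2)
    · exact hwu (h1.symm.trans h3)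
  · rintro ⟨⟨h1, h2, h3⟩, ⟨h4, h5⟩ | ⟨h4, h5⟩ | ⟨h4, h5⟩ | ⟨h4, h5⟩ | ⟨h4, h5⟩ | ⟨h4, h5⟩⟩
    · exact hw (h4 ▸ h1)
    · exact hw (h4 ▸ h2)
    · exact hu (h4 ▸ h1)
    · exact hu (h4 ▸ h2)
    · exact hw (h4 ▸ h1)
    · exact hu (h4 ▸ h1)

omit [Fintype V] in
theorem card_B (hr : 3 ≤ r) (h : WE G N H c w u A B i0) : (B.card : ℝ) = r - 1 := by
  classical
  have h1 := sum_card_cl B c
  rw [← Finset.add_sum_erase Finset.univ (fun i => (cl B c i).card) (Finset.mem_univ i0), h.hB0,
    Finset.card_empty, zero_add,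
    Finset.sum_congr rfl fun i hi => h.hB1 i (Finset.ne_of_mem_erase hi), Finset.sum_const,
    Finset.card_erase_of_mem (Finset.mem_univ _), Finset.card_univ, Fintype.card_fin] at h1
  rw [← h1]
  simp only [smul_eq_mul, mul_one]
  rw [Nat.cast_sub (by omega), Nat.cast_one]

theorem pE_eq (hr : 3 ≤ r) (h : WE G N H c w u A B i0) :
    pE G = (N : ℝ) ^ 2 - ∑ i, sz H c i ^ 2 + 2 * A.card + 2 * r := by
  rw [pE_ad]
  simp_rw [ad_eq h, Finset.sum_add_distrib]
  rw [sum_multi, sum_pair, sum_pair', sum_pair, sum_pair', sum_pt, sum_pt, card_B hr h, h.card]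
  ring

omit [Fintype V] in
/-- the part of a clique in `H` has at most one vertex in each class -/
theorem inj_clique (h : WE G N H c w u A B i0) {s : Finset V} (hs : G.IsClique s)
    (hsH : s ⊆ H) : Set.InjOn c s := by
  intro a ha b hb hab
  by_contra hne
  have h1 := hs ha hb hne
  rw [h.adj] at h1
  have haH := hsH ha
  have hbH := hsH hb
  have hw := h.hw
  have hu := h.hu
  rcases h1 with h1 | h1 | h1 | h1 | h1 | h1 | h1
  · exact h1.2.2 hab
  · exact hw (h1.1 ▸ haH)
  · exact hw (h1.1 ▸ hbH)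
  · exact hu (h1.1 ▸ haH)
  · exact hu (h1.1 ▸ hbH)
  · exact hw (h1.1 ▸ haH)
  · exact hu (h1.1 ▸ haH)

omit [Fintype V] in
theorem adj_w (h : WE G N H c w u A B i0) {b : V} (hb : G.Adj w b) : b ∈ A ∨ b = u := by
  rw [h.adj] at hb
  rcases hb with h1 | h1 | h1 | h1 | h1 | h1 | h1
  · exact absurd h1.1 h.hw
  · exact Or.inl h1.2
  · exact absurd (h.hA h1.2) h.hw
  · exact absurd h1.1 h.hwu
  · exact absurd (h.hB h1.2) h.hw
  · exact Or.inr h1.2
  · exact absurd h1.1 h.hwu

omit [Fintype V] in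
theorem adj_u (h : WE G N H c w u A B i0) {b : V} (hb : G.Adj u b) : b ∈ B ∨ b = w := by
  rw [h.adj] at hb
  rcases hb with h1 | h1 | h1 | h1 | h1 | h1 | h1
  · exact absurd h1.1 h.hu
  · exact absurd h1.1.symm h.hwu
  · exact absurd (h.hA h1.2) h.hu
  · exact Or.inl h1.2
  · exact absurd (h.hB h1.2) h.hu
  · exact absurd h1.1.symm h.hwu
  · exact Or.inr h1.2

omit [Fintype V] in
theorem adj_supp (h : WE G N H c w u A B i0) {a b : V} (hb : G.Adj a b) :
    a ∈ H ∨ a = w ∨ a = u := by
  rw [h.adj] at hb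
  rcases hb with h1 | h1 | h1 | h1 | h1 | h1 | h1
  · exact Or.inl h1.1
  · exact Or.inr (Or.inl h1.1)
  · exact Or.inl (h.hA h1.2)
  · exact Or.inr (Or.inr h1.1)
  · exact Or.inl (h.hB h1.2)
  · exact Or.inr (Or.inl h1.1)
  · exact Or.inr (Or.inr h1.1)

omit [Fintype V] in
/-- a clique inside a part of `H` missing the class `i0` has at most `r - 1` vertices -/
theorem card_le (h : WE G N H c w u A B i0) {s X : Finset V} (hs : G.IsClique s)
    (hX : X ⊆ H) (hX0 : cl X c i0 = ∅) (hsX : s ⊆ X) : s.card + 1 ≤ r := by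
  classical
  have h1 := inj_clique h hs (hsX.trans hX)
  have h2 : (s.image c).card = s.card := Finset.card_image_of_injOn h1
  have h3 : s.image c ⊆ Finset.univ.erase i0 := by
    intro i hi
    rw [Finset.mem_image] at hi
    obtain ⟨a, ha, rfl⟩ := hi
    refine Finset.mem_erase.2 ⟨fun h0 => ?_, Finset.mem_univ _⟩
    have : a ∈ cl X c i0 := mem_cl.2 ⟨hsX ha, h0⟩
    rw [hX0] at this
    exact Finset.notMem_empty _ this
  have h4 := Finset.card_le_card h3
  rw [h2, Finset.card_erase_of_mem (Finset.mem_univ _), Finset.card_univ, Fintype.card_fin] at h4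
  have : 0 < r := Fin.pos i0
  omega

omit [Fintype V] in
theorem cliqueFree (hr : 3 ≤ r) (h : WE G N H c w u A B i0) : G.CliqueFree (r + 1) := by
  classical
  intro s hs
  rw [SimpleGraph.isNClique_iff] at hs
  obtain ⟨hcl, hcard⟩ := hs
  have hsub : ∀ t ⊆ s, G.IsClique t := fun t ht => hcl.subset (by exact_mod_cast ht)
  have hne : ∀ a ∈ s, ∃ b, b ∈ s ∧ b ≠ a := by
    intro a ha
    have : 1 < s.card := by omega
    obtain ⟨b, hb, hba⟩ := Finset.exists_mem_ne this a
    exact ⟨b, hb, hba⟩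
  have hsupp : ∀ a ∈ s, a ∈ H ∨ a = w ∨ a = u := by
    intro a ha
    obtain ⟨b, hb, hba⟩ := hne a ha
    exact adj_supp h (hcl ha hb hba.symm)
  by_cases hw : w ∈ s
  · by_cases hu : u ∈ s
    · -- both
      set t := (s.erase w).erase u with ht
      have htc : t.card + 2 = r + 1 := by
        rw [ht, Finset.card_erase_of_mem (Finset.mem_erase.2 ⟨h.hwu.symm, hu⟩),
          Finset.card_erase_of_mem hw, hcard]
        omega
      have htA : t ⊆ A := by
        intro a ha
        rw [ht, Finset.mem_erase, Finset.mem_erase] at ha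
        rcases adj_w h (hcl hw ha.2.2 (fun h' => ha.2.1 h'.symm)) with h1 | h1
        · exact h1
        · exact absurd h1 ha.1
      have htB : t ⊆ B := by
        intro a ha
        rw [ht, Finset.mem_erase, Finset.mem_erase] at ha
        rcases adj_u h (hcl hu ha.2.2 (fun h' => ha.1 h'.symm)) with h1 | h1
        · exact h1
        · exact absurd h1 ha.2.1
      have hts : t ⊆ s := (Finset.erase_subset _ _).trans (Finset.erase_subset _ _)
      have hinj := inj_clique h (hsub t hts) (htB.trans h.hB)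
      have himg : t.image c = Finset.univ.erase i0 := by
        apply Finset.eq_of_subset_of_card_le
        · intro i hi
          rw [Finset.mem_image] at hi
          obtain ⟨a, ha, rfl⟩ := hi
          refine Finset.mem_erase.2 ⟨fun h0 => ?_, Finset.mem_univ _⟩
          have : a ∈ cl B c i0 := mem_cl.2 ⟨htB ha, h0⟩
          rw [h.hB0] at this
          exact Finset.notMem_empty _ this
        · rw [Finset.card_image_of_injOn hinj, Finset.card_erase_of_mem (Finset.mem_univ _),
            Finset.card_univ, Fintype.card_fin]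
          omega
      apply h.hBA
      intro b hb
      have hb0 : c b ≠ i0 := by
        intro h0
        have : b ∈ cl B c i0 := mem_cl.2 ⟨hb, h0⟩
        rw [h.hB0] at this
        exact Finset.notMem_empty _ this
      have hmem : c b ∈ t.image c := by
        rw [himg]; exact Finset.mem_erase.2 ⟨hb0, Finset.mem_univ _⟩
      rw [Finset.mem_image] at hmem
      obtain ⟨b', hb', hbb⟩ := hmem
      have h1 := h.hB1 (c b) hb0
      rw [Finset.card_eq_one] at h1
      obtain ⟨z, hz⟩ := h1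
      have e1 : b ∈ cl B c (c b) := mem_cl.2 ⟨hb, rfl⟩
      have e2 : b' ∈ cl B c (c b) := mem_cl.2 ⟨htB hb', hbb⟩
      rw [hz, Finset.mem_singleton] at e1 e2
      rw [e1, ← e2]
      exact htA hb'
    · -- only w
      have hsA : s.erase w ⊆ A := by
        intro a ha
        rw [Finset.mem_erase] at ha
        rcases adj_w h (hcl hw ha.2 (fun h' => ha.1 h'.symm)) with h1 | h1
        · exact h1
        · exact absurd (h1 ▸ ha.2) hu
      have := card_le h (hsub _ (Finset.erase_subset w s)) h.hA h.hA0 hsA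
      rw [Finset.card_erase_of_mem hw, hcard] at this
      omega
  · by_cases hu : u ∈ s
    · have hsB : s.erase u ⊆ B := by
        intro a ha
        rw [Finset.mem_erase] at ha
        rcases adj_u h (hcl hu ha.2 (fun h' => ha.1 h'.symm)) with h1 | h1
        · exact h1
        · exact absurd (h1 ▸ ha.2) hw
      have := card_le h (hsub _ (Finset.erase_subset u s)) h.hB h.hB0 hsB
      rw [Finset.card_erase_of_mem hu, hcard] at this
      omega
    · have hsH : s ⊆ H := by
        intro a ha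
        rcases hsupp a ha with h1 | h1 | h1
        · exact h1
        · exact absurd (h1 ▸ ha) hw
        · exact absurd (h1 ▸ ha) hu
      have h1 := inj_clique h hcl hsH
      have h2 : (s.image c).card = s.card := Finset.card_image_of_injOn h1
      have h3 := Finset.card_le_univ (s.image c)
      rw [h2, Fintype.card_fin, hcard] at h3
      omega

omit [Fintype V] in
theorem not_colorable (h : WE G N H c w u A B i0) (hne : ∀ i, 1 ≤ (cl H c i).card) :
    ¬ G.Colorable r := by
  classical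
  rintro ⟨col⟩
  have hrep : ∀ i, ∃ v, v ∈ H ∧ c v = i := by
    intro i
    obtain ⟨v, hv⟩ := Finset.card_pos.1 (hne i)
    exact ⟨v, mem_cl.1 hv⟩
  choose f hfH hfc using hrep
  have hadj : ∀ a b, a ∈ H → b ∈ H → c a ≠ c b → G.Adj a b :=
    fun a b ha hb hab => (h.adj a b).2 (Or.inl ⟨ha, hb, hab⟩)
  have hinj : Function.Injective (fun i => col (f i)) := by
    intro i k hik
    by_contra hne
    exact col.valid (hadj (f i) (f k) (hfH i) (hfH k) (by rw [hfc, hfc]; exact hne)) hik
  have hsurj : Function.Surjective (fun i => col (f i)) := Finite.surjective_of_injective hinj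
  have hcls : ∀ v ∈ H, col v = col (f (c v)) := by
    intro v hv
    obtain ⟨k, hk⟩ := hsurj (col v)
    simp only at hk
    by_cases hkv : k = c v
    · rw [← hk, hkv]
    · exfalso
      exact col.valid (hadj (f k) v (hfH k) hv (by rw [hfc]; exact hkv)) hk
  have hw : col w = col (f i0) := by
    obtain ⟨k, hk⟩ := hsurj (col w)
    simp only at hk
    by_cases hk0 : k = i0
    · rw [← hk, hk0]
    · exfalso
      obtain ⟨a, ha⟩ := h.hAne k hk0
      rw [mem_cl] at ha
      have h1 : G.Adj w a := (h.adj w a).2 (Or.inr (Or.inl ⟨rfl, ha.1⟩))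
      apply col.valid h1
      rw [hcls a (h.hA ha.1), ha.2, hk]
  have hu : col u = col (f i0) := by
    obtain ⟨k, hk⟩ := hsurj (col u)
    simp only at hk
    by_cases hk0 : k = i0
    · rw [← hk, hk0]
    · exfalso
      have h0 := h.hB1 k hk0
      obtain ⟨a, ha⟩ : (cl B c k).Nonempty := Finset.card_pos.1 (by omega)
      rw [mem_cl] at ha
      have h1 : G.Adj u a :=
        (h.adj u a).2 (Or.inr (Or.inr (Or.inr (Or.inl ⟨rfl, ha.1⟩))))
      apply col.valid h1
      rw [hcls a (h.hB ha.1), ha.2, hk]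
  have h1 : G.Adj w u :=
    (h.adj w u).2 (Or.inr (Or.inr (Or.inr (Or.inr (Or.inr (Or.inl ⟨rfl, rfl⟩))))))
  exact col.valid h1 (hw.trans hu.symm)

end

end GE

theorem blk_GE : Stmt_GE := by
  intro r hr V _ G N H c w u A B i0 h
  exact ⟨GE.cliqueFree hr h, GE.not_colorable h, GE.pE_eq hr h⟩

end Pool.Agent.Work.MP_5532fa_up

end

section

open Finset

namespace Pool.Agent.Work.MP_5532fa_up

theorem blk_ALLV : Stmt_ALLV := by
  intro r η K hr hη hη4 hK
  refine ⟨3 * K, by linarith, ?_⟩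
  intro V _ G x lam t c T hpv hTD hTE hdev ht v
  classical
  have htpos := hTD.tpos
  have ht1 : t ≤ 1 := by nlinarith
  have hst1 : √t ≤ 1 := Real.sqrt_le_one.2 ht1
  have hst0 := Real.sqrt_nonneg t
  -- split of the eigenvalue equation
  have h1 : lam * x v = ∑ u ∈ T, ad G v u * x u + ∑ u ∈ out T, ad G v u * x u := by
    rw [← hpv.eig v]
    have h2 : (univ : Finset V) = T ∪ out T := by
      ext u
      simp only [Finset.mem_univ, Finset.mem_union, mem_out, true_iff]
      exact em _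
    rw [h2, Finset.sum_union]
    rw [Finset.disjoint_left]
    intro u hu hu'
    exact mem_out.1 hu' hu
  have h2 : (∑ u ∈ T, ad G v u) = dg G T v := by
    unfold dg nb ad chi
    rw [Finset.card_filter]
    push_cast
    rfl
  have h3 : ∑ u ∈ T, ad G v u * x u = √t * dg G T v + ∑ u ∈ T, ad G v u * (x u - √t) := by
    rw [← h2, Finset.mul_sum, ← Finset.sum_add_distrib]
    exact Finset.sum_congr rfl fun u _ => by ring
  have had0 : ∀ u, 0 ≤ ad G v u := fun u => chi_nonneg _
  have had1 : ∀ u, ad G v u ≤ 1 := fun u => chi_le_one _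
  have h4 : |∑ u ∈ T, ad G v u * (x u - √t)| ≤ 2 * K := by
    have h5 : |∑ u ∈ T, ad G v u * (x u - √t)| ≤ ∑ u ∈ T, |x u - √t| := by
      refine (Finset.abs_sum_le_sum_abs _ _).trans (Finset.sum_le_sum fun u _ => ?_)
      rw [abs_mul, abs_of_nonneg (had0 u)]
      exact mul_le_of_le_one_left (abs_nonneg _) (had1 u)
    have h6 : (∑ u ∈ T, |x u - √t|) ^ 2 ≤ T.card * ∑ u ∈ T, |x u - √t| ^ 2 :=
      sq_sum_le_card_mul_sum_sq
    have h7 : ∑ u ∈ T, |x u - √t| ^ 2 ≤ K * t := by
      refine le_trans (le_of_eq ?_) hdev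
      exact Finset.sum_congr rfl fun u _ => by rw [sq_abs]
    have h8 : (T.card : ℝ) * ∑ u ∈ T, |x u - √t| ^ 2 ≤ (2 / t) * (K * t) := by
      apply mul_le_mul hTD.cardT h7 _ (by positivity)
      exact Finset.sum_nonneg fun u _ => by positivity
    have h9 : (2 / t) * (K * t) = 2 * K := by
      field_simp
    have h10 : (∑ u ∈ T, |x u - √t|) ^ 2 ≤ (2 * K) ^ 2 := by
      refine h6.trans (h8.trans ?_)
      rw [h9]
      nlinarith
    exact h5.trans (abs_le_of_sq_le_sq' h10 (by linarith)).2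
  have h5 : |∑ u ∈ out T, ad G v u * x u| ≤ K := by
    rw [abs_of_nonneg (Finset.sum_nonneg fun u _ => mul_nonneg (had0 u) (hpv.nn u))]
    refine le_trans (Finset.sum_le_sum (g := fun u => x u) fun u _ => ?_) (hTE.sout.trans ?_)
    · exact mul_le_of_le_one_left (hpv.nn u) (had1 u)
    · nlinarith
  rw [h1, h3]
  have h6 : √t * (dg G T v : ℝ) + ∑ u ∈ T, ad G v u * (x u - √t) + ∑ u ∈ out T, ad G v u * x u
      - √t * (dg G T v : ℝ) = ∑ u ∈ T, ad G v u * (x u - √t) + ∑ u ∈ out T, ad G v u * x u := by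
    ring
  rw [h6]
  refine (abs_add_le _ _).trans ?_
  linarith

end Pool.Agent.Work.MP_5532fa_up

end

section

set_option autoImplicit false

open Finset

namespace Pool.Agent.Work.MP_5532fa_up

namespace CANP

variable {ι : Type} [Fintype ι] [DecidableEq ι]

omit [Fintype ι] [DecidableEq ι] in
lemma bal_form (s : Finset ι) (f : ι → ℕ) (hs : s.Nonempty)
    (h : ∀ i ∈ s, ∀ k ∈ s, f i ≤ f k + 1) :
    ∃ q, (∀ i ∈ s, f i = q ∨ f i = q + 1) ∧
      ∑ i ∈ s, f i = q * s.card + (s.filter (fun i => f i = q + 1)).card ∧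
      (s.filter (fun i => f i = q + 1)).card < s.card := by
  obtain ⟨i0, hi0, hmin⟩ := Finset.exists_min_image s f hs
  refine ⟨f i0, fun i hi => ?_, ?_, ?_⟩
  · have h1 := hmin i hi
    have h2 := h i hi i0 hi0
    omega
  · have e : ∀ i ∈ s, f i = f i0 + (if f i = f i0 + 1 then 1 else 0) := by
      intro i hi
      have h1 := hmin i hi
      have h2 := h i hi i0 hi0
      split_ifs <;> omega
    rw [Finset.sum_congr rfl e, Finset.sum_add_distrib, Finset.sum_const, smul_eq_mul,
      Finset.card_filter, mul_comm]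
  · apply Finset.card_lt_card
    refine ⟨Finset.filter_subset _ _, fun hsub => ?_⟩
    have := hsub hi0
    rw [Finset.mem_filter] at this
    omega

omit [Fintype ι] [DecidableEq ι] in
lemma bal2 (s s' : Finset ι) (f g : ι → ℕ) (hs : s.Nonempty) (hc : s.card = s'.card)
    (hsum : ∑ i ∈ s, f i = ∑ i ∈ s', g i)
    (h : ∀ i ∈ s, ∀ k ∈ s, f i ≤ f k + 1) (h' : ∀ i ∈ s', ∀ k ∈ s', g i ≤ g k + 1) :
    ∃ q, (∀ i ∈ s, f i = q ∨ f i = q + 1) ∧ (∀ i ∈ s', g i = q ∨ g i = q + 1) ∧
      (s.filter (fun i => f i = q + 1)).card = (s'.filter (fun i => g i = q + 1)).card := by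
  have hs' : s'.Nonempty := by
    rw [← Finset.card_pos, ← hc]; exact Finset.card_pos.2 hs
  obtain ⟨q, h1, h2, h3⟩ := bal_form s f hs h
  obtain ⟨q', h1', h2', h3'⟩ := bal_form s' g hs' h'
  rw [← hc] at h2' h3'
  generalize ht : (s.filter (fun i => f i = q + 1)).card = t at h2 h3
  generalize ht' : (s'.filter (fun i => g i = q' + 1)).card = t' at h2' h3'
  have hcp : 0 < s.card := Finset.card_pos.2 hs
  have key : q * s.card + t = q' * s.card + t' := by omega
  have hq : q = q' := by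
    have e1 : (q * s.card + t) / s.card = q := by
      rw [Nat.add_div_of_dvd_right (Dvd.intro_left q rfl), Nat.mul_div_cancel _ hcp,
        Nat.div_eq_of_lt h3, add_zero]
    have e2 : (q' * s.card + t') / s.card = q' := by
      rw [Nat.add_div_of_dvd_right (Dvd.intro_left q' rfl), Nat.mul_div_cancel _ hcp,
        Nat.div_eq_of_lt h3', add_zero]
    rw [← e1, ← e2, key]
  subst hq
  exact ⟨q, h1, h1', by rw [ht, ht']; omega⟩

omit [Fintype ι] [DecidableEq ι] in
lemma count_low (s : Finset ι) (f : ι → ℕ) (q : ℕ) (h1 : ∀ i ∈ s, f i = q ∨ f i = q + 1) :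
    (s.filter (fun i => f i = q)).card + (s.filter (fun i => f i = q + 1)).card = s.card := by
  have := Finset.card_filter_add_card_filter_not (s := s) (fun i => f i = q)
  rw [← this]
  congr 2
  apply Finset.filter_congr
  intro i hi
  rcases h1 i hi with h | h <;> omega

omit [Fintype ι] [DecidableEq ι] in
lemma count_other (s : Finset ι) (f : ι → ℕ) (q v : ℕ) (h1 : ∀ i ∈ s, f i = q ∨ f i = q + 1)
    (hv : v ≠ q) (hv' : v ≠ q + 1) : (s.filter (fun i => f i = v)).card = 0 := by
  rw [Finset.card_eq_zero, Finset.filter_eq_empty_iff]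
  intro i hi
  rcases h1 i hi with h | h <;> omega

omit [Fintype ι] [DecidableEq ι] in
lemma bal_eq (s s' : Finset ι) (f g : ι → ℕ) (hc : s.card = s'.card)
    (hsum : ∑ i ∈ s, f i = ∑ i ∈ s', g i)
    (h : ∀ i ∈ s, ∀ k ∈ s, f i ≤ f k + 1) (h' : ∀ i ∈ s', ∀ k ∈ s', g i ≤ g k + 1) (v : ℕ) :
    (s.filter (fun i => f i = v)).card = (s'.filter (fun i => g i = v)).card := by
  rcases s.eq_empty_or_nonempty with rfl | hs
  · rw [Finset.card_empty] at hc
    have := Finset.card_eq_zero.1 hc.symm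
    subst this
    simp
  · obtain ⟨q, h1, h2, h3⟩ := bal2 s s' f g hs hc hsum h h'
    have c1 := count_low s f q h1
    have c2 := count_low s' g q h2
    by_cases hv : v = q
    · subst hv; omega
    by_cases hv' : v = q + 1
    · subst hv'; exact h3
    rw [count_other s f q v h1 hv hv', count_other s' g q v h2 hv hv']

omit [Fintype ι] [DecidableEq ι] in
/-- constant functions are balanced -/
lemma const_count (s s' : Finset ι) (f g : ι → ℕ) (hc : s.card = s'.card) (w : ℕ)
    (h : ∀ i ∈ s, f i = w) (h' : ∀ i ∈ s', g i = w) (v : ℕ) :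
    (s.filter (fun i => f i = v)).card = (s'.filter (fun i => g i = v)).card := by
  apply bal_eq s s' f g hc
  · rw [Finset.sum_congr rfl h, Finset.sum_congr rfl h', Finset.sum_const, Finset.sum_const, hc]
  · intro i hi k hk; rw [h i hi, h k hk]; omega
  · intro i hi k hk; rw [h' i hi, h' k hk]; omega

/-- the two groups `L`, `B` outside `P` -/
lemma two_level (L B L' B' : Finset ι) (a a' : ι → ℕ) (q : ℕ)
    (hL : L.card = L'.card) (hB : B.card = B'.card)
    (hs : ∑ i ∈ L, a i + ∑ i ∈ B, a i = ∑ i ∈ L', a' i + ∑ i ∈ B', a' i)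
    (hLq : ∀ i ∈ L, a i ≤ q) (hLq' : ∀ i ∈ L', a' i ≤ q)
    (hB1 : ∀ i ∈ B, 1 ≤ a i) (hB1' : ∀ i ∈ B', 1 ≤ a' i)
    (hLb : ∀ i ∈ L, ∀ k ∈ L, a i ≤ a k + 1) (hLb' : ∀ i ∈ L', ∀ k ∈ L', a' i ≤ a' k + 1)
    (hBb : ∀ i ∈ B, ∀ k ∈ B, a i ≤ a k + 1) (hBb' : ∀ i ∈ B', ∀ k ∈ B', a' i ≤ a' k + 1)
    (hx : ∀ i ∈ L, ∀ k ∈ B, a i = q ∨ a k = 1) (hx' : ∀ i ∈ L', ∀ k ∈ B', a' i = q ∨ a' k = 1) :
    (∀ v, (L.filter (fun i => a i = v)).card = (L'.filter (fun i => a' i = v)).card) ∧
    (∀ v, (B.filter (fun i => a i = v)).card = (B'.filter (fun i => a' i = v)).card) := by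
  have hor : (∀ i ∈ L, a i = q) ∨ (∀ k ∈ B, a k = 1) := by
    by_cases h : ∀ i ∈ L, a i = q
    · exact Or.inl h
    · push Not at h
      obtain ⟨i, hi, hiq⟩ := h
      exact Or.inr fun k hk => (hx i hi k hk).resolve_left hiq
  have hor' : (∀ i ∈ L', a' i = q) ∨ (∀ k ∈ B', a' k = 1) := by
    by_cases h : ∀ i ∈ L', a' i = q
    · exact Or.inl h
    · push Not at h
      obtain ⟨i, hi, hiq⟩ := h
      exact Or.inr fun k hk => (hx' i hi k hk).resolve_left hiq
  have sL : ∑ i ∈ L, a i ≤ L.card * q := by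
    have := Finset.sum_le_card_nsmul L a q hLq
    simpa using this
  have sL' : ∑ i ∈ L', a' i ≤ L.card * q := by
    have := Finset.sum_le_card_nsmul L' a' q hLq'
    rw [hL]; simpa using this
  have sB : B.card ≤ ∑ i ∈ B, a i := by
    have := Finset.card_nsmul_le_sum B a 1 hB1
    simpa using this
  have sB' : B.card ≤ ∑ i ∈ B', a' i := by
    have := Finset.card_nsmul_le_sum B' a' 1 hB1'
    rw [hB]; simpa using this
  -- equality cases
  have eqL : ∀ (M : Finset ι) (b : ι → ℕ), (∀ i ∈ M, b i ≤ q) → ∑ i ∈ M, b i = M.card * q →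
      ∀ i ∈ M, b i = q := by
    intro M b hb hsum
    have h1 : ∑ i ∈ M, b i = ∑ i ∈ M, q := by rw [hsum, Finset.sum_const, smul_eq_mul]
    exact (Finset.sum_eq_sum_iff_of_le hb).1 h1
  have both : ((∀ i ∈ L, a i = q) ∧ (∀ i ∈ L', a' i = q)) ∨
      ((∀ k ∈ B, a k = 1) ∧ (∀ k ∈ B', a' k = 1)) := by
    rcases hor with h | h <;> rcases hor' with h' | h'
    · exact Or.inl ⟨h, h'⟩
    · left
      refine ⟨h, eqL L' a' hLq' ?_⟩
      have e1 : ∑ i ∈ L, a i = L.card * q := by
        rw [Finset.sum_congr rfl h, Finset.sum_const, smul_eq_mul]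
      have e2 : ∑ i ∈ B', a' i = B.card := by
        rw [Finset.sum_congr rfl h', Finset.sum_const, smul_eq_mul, mul_one, hB]
      rw [← hL]
      omega
    · left
      refine ⟨eqL L a hLq ?_, h'⟩
      have e1 : ∑ i ∈ L', a' i = L.card * q := by
        rw [Finset.sum_congr rfl h', Finset.sum_const, smul_eq_mul, hL]
      have e2 : ∑ i ∈ B, a i = B.card := by
        rw [Finset.sum_congr rfl h, Finset.sum_const, smul_eq_mul, mul_one]
      omega
    · exact Or.inr ⟨h, h'⟩
  rcases both with ⟨h, h'⟩ | ⟨h, h'⟩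
  · refine ⟨const_count L L' a a' hL q h h', bal_eq B B' a a' hB ?_ hBb hBb'⟩
    have e1 : ∑ i ∈ L, a i = L.card * q := by
      rw [Finset.sum_congr rfl h, Finset.sum_const, smul_eq_mul]
    have e1' : ∑ i ∈ L', a' i = L.card * q := by
      rw [Finset.sum_congr rfl h', Finset.sum_const, smul_eq_mul, hL]
    omega
  · refine ⟨bal_eq L L' a a' hL ?_ hLb hLb', const_count B B' a a' hB 1 h h'⟩
    have e1 : ∑ i ∈ B, a i = B.card := by
      rw [Finset.sum_congr rfl h, Finset.sum_const, smul_eq_mul, mul_one]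
    have e1' : ∑ i ∈ B', a' i = B.card := by
      rw [Finset.sum_congr rfl h', Finset.sum_const, smul_eq_mul, mul_one, hB]
    omega

/-- the large values of `n` lie in `P` first -/
lemma card_inter (P : Finset ι) (n : ι → ℕ) (q : ℕ) (h1 : ∀ i, n i = q ∨ n i = q + 1)
    (hP : ∀ i k, i ∈ P → k ∉ P → n k ≤ n i) :
    (P.filter (fun i => n i = q + 1)).card =
      min P.card ((univ : Finset ι).filter (fun i => n i = q + 1)).card := by
  by_cases h : ∃ k, k ∉ P ∧ n k = q + 1
  · obtain ⟨k, hk, hnk⟩ := h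
    have hall : ∀ i ∈ P, n i = q + 1 := by
      intro i hi
      have := hP i k hi hk
      rcases h1 i with h | h <;> omega
    rw [Finset.filter_true_of_mem hall, min_eq_left]
    apply Finset.card_le_card
    intro i hi
    rw [Finset.mem_filter]
    exact ⟨Finset.mem_univ _, hall i hi⟩
  · push Not at h
    have e : P.filter (fun i => n i = q + 1) =
        (univ : Finset ι).filter (fun i => n i = q + 1) := by
      ext i
      rw [Finset.mem_filter, Finset.mem_filter]
      constructor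
      · rintro ⟨_, h2⟩; exact ⟨Finset.mem_univ _, h2⟩
      · rintro ⟨_, h2⟩
        refine ⟨?_, h2⟩
        by_contra hi
        exact h i hi h2
    rw [e, min_eq_right]
    rw [← e]
    exact Finset.card_le_card (Finset.filter_subset _ _)

omit [DecidableEq ι] in
/-- equal fibre sizes give a permutation -/
lemma perm_of_fibres {β : Type} [DecidableEq β] (f g : ι → β)
    (h : ∀ b, ((univ : Finset ι).filter (fun i => f i = b)).card =
      ((univ : Finset ι).filter (fun i => g i = b)).card) :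
    ∃ σ : Equiv.Perm ι, ∀ i, g (σ i) = f i := by
  have hc : ∀ b, Fintype.card {i // f i = b} = Fintype.card {i // g i = b} := by
    intro b
    rw [Fintype.card_subtype, Fintype.card_subtype]
    exact h b
  let e : ∀ b, {i // f i = b} ≃ {i // g i = b} := fun b => Fintype.equivOfCardEq (hc b)
  refine ⟨(Equiv.sigmaFiberEquiv f).symm.trans
    ((Equiv.sigmaCongrRight e).trans (Equiv.sigmaFiberEquiv g)), fun i => ?_⟩
  exact (e (f i) ⟨i, rfl⟩).2

end CANP

open CANP in
theorem blk_CANP : Stmt_CANP := by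
  classical
  intro r n a n' a' P P' p0 hPc hn ha hbal hbal' hPn hPn' hPa hPa' hQ hQ' hX hX'
  rcases Nat.eq_zero_or_pos r with rfl | hr
  · exact ⟨1, fun i => i.elim0⟩
  have hne : (univ : Finset (Fin r)).Nonempty := ⟨⟨0, hr⟩, Finset.mem_univ _⟩
  obtain ⟨q, h1, h1', hT⟩ := bal2 (univ : Finset (Fin r)) univ n n' hne rfl hn
    (fun i _ k _ => hbal i k) (fun i _ k _ => hbal' i k)
  replace h1 : ∀ i, n i = q ∨ n i = q + 1 := fun i => h1 i (Finset.mem_univ _)
  replace h1' : ∀ i, n' i = q ∨ n' i = q + 1 := fun i => h1' i (Finset.mem_univ _)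
  have hPT : (P.filter (fun i => n i = q + 1)).card = (P'.filter (fun i => n' i = q + 1)).card := by
    rw [card_inter P n q h1 hPn, card_inter P' n' q h1' hPn', hPc, hT]
  have hPS : (P.filter (fun i => n i = q)).card = (P'.filter (fun i => n' i = q)).card := by
    have c1 := count_low P n q (fun i _ => h1 i)
    have c2 := count_low P' n' q (fun i _ => h1' i)
    omega
  -- the sets outside P
  have hBc : ∀ (P : Finset (Fin r)) (n : Fin r → ℕ) (v : ℕ),
      (Pᶜ.filter (fun i => n i = v)).card + (P.filter (fun i => n i = v)).card =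
        ((univ : Finset (Fin r)).filter (fun i => n i = v)).card := by
    intro P n v
    rw [← Finset.card_union_of_disjoint, ← Finset.filter_union, Finset.union_comm,
      Finset.union_compl]
    exact Finset.disjoint_filter_filter (disjoint_compl_left)
  have hB : (Pᶜ.filter (fun i => n i = q + 1)).card =
      (P'ᶜ.filter (fun i => n' i = q + 1)).card := by
    have c1 := hBc P n (q + 1)
    have c2 := hBc P' n' (q + 1)
    omega
  have hL : (Pᶜ.filter (fun i => n i = q)).card = (P'ᶜ.filter (fun i => n' i = q)).card := by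
    have c1 := count_low Pᶜ n q (fun i _ => h1 i)
    have c2 := count_low P'ᶜ n' q (fun i _ => h1' i)
    have c3 : Pᶜ.card = P'ᶜ.card := by rw [Finset.card_compl, Finset.card_compl, hPc]
    omega
  have hsum : ∀ (P : Finset (Fin r)) (n a : Fin r → ℕ), (∀ i, n i = q ∨ n i = q + 1) →
      (∀ i, i ∈ P → a i = p0) →
      ∑ i, a i = P.card * p0 + (∑ i ∈ Pᶜ.filter (fun i => n i = q), a i +
        ∑ i ∈ Pᶜ.filter (fun i => n i = q + 1), a i) := by
    intro P n a h1 hPa
    rw [← Finset.sum_add_sum_compl P a, Finset.sum_congr rfl hPa, Finset.sum_const, smul_eq_mul,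
      ← Finset.sum_filter_add_sum_filter_not Pᶜ (fun i => n i = q) a]
    congr 2
    apply Finset.sum_congr _ (fun _ _ => rfl)
    apply Finset.filter_congr
    intro i _
    rcases h1 i with h | h <;> omega
  have hs := hsum P n a h1 hPa
  have hs' := hsum P' n' a' h1' hPa'
  have mem : ∀ (P : Finset (Fin r)) (n : Fin r → ℕ) (v : ℕ) (i : Fin r),
      i ∈ Pᶜ.filter (fun i => n i = v) ↔ i ∉ P ∧ n i = v := by
    intro P n v i
    rw [Finset.mem_filter, Finset.mem_compl]
  obtain ⟨kL, kB⟩ := two_level (Pᶜ.filter (fun i => n i = q)) (Pᶜ.filter (fun i => n i = q + 1))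
    (P'ᶜ.filter (fun i => n' i = q)) (P'ᶜ.filter (fun i => n' i = q + 1)) a a' q hL hB
    (by rw [hPc] at hs; omega)
    (fun i hi => by
      rw [mem] at hi
      have := (hQ i hi.1).2
      omega)
    (fun i hi => by
      rw [mem] at hi
      have := (hQ' i hi.1).2
      omega)
    (fun i hi => by rw [mem] at hi; exact (hQ i hi.1).1)
    (fun i hi => by rw [mem] at hi; exact (hQ' i hi.1).1)
    (fun i hi k hk => by
      rw [mem] at hi hk
      exact (hX i k hi.1 hk.1).1 (by omega))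
    (fun i hi k hk => by
      rw [mem] at hi hk
      exact (hX' i k hi.1 hk.1).1 (by omega))
    (fun i hi k hk => by
      rw [mem] at hi hk
      exact (hX i k hi.1 hk.1).1 (by omega))
    (fun i hi k hk => by
      rw [mem] at hi hk
      exact (hX' i k hi.1 hk.1).1 (by omega))
    (fun i hi k hk => by
      rw [mem] at hi hk
      have := (hX i k hi.1 hk.1).2 (by omega)
      rw [hi.2] at this
      exact this)
    (fun i hi k hk => by
      rw [mem] at hi hk
      have := (hX' i k hi.1 hk.1).2 (by omega)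
      rw [hi.2] at this
      exact this)
  obtain ⟨σ, hσ⟩ := perm_of_fibres
    (fun i : Fin r => ((decide (i ∈ P), n i, a i) : Bool × ℕ × ℕ))
    (fun i : Fin r => ((decide (i ∈ P'), n' i, a' i) : Bool × ℕ × ℕ)) (by
      rintro ⟨b, v, w⟩
      -- reduce to the sets
      have red : ∀ (P : Finset (Fin r)) (n a : Fin r → ℕ),
          (∀ i, i ∈ P → a i = p0) →
          ((univ : Finset (Fin r)).filter
            (fun i => ((decide (i ∈ P), n i, a i) : Bool × ℕ × ℕ) = (b, v, w))).card =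
          if b = true then (if w = p0 then (P.filter (fun i => n i = v)).card else 0)
          else ((Pᶜ.filter (fun i => n i = v)).filter (fun i => a i = w)).card := by
        intro P n a hPa
        cases b with
        | true =>
          rw [if_pos rfl]
          by_cases hw : w = p0
          · rw [if_pos hw]
            congr 1
            ext i
            simp only [Finset.mem_filter, Finset.mem_univ, true_and, Prod.mk.injEq,
              decide_eq_true_eq]
            constructor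
            · rintro ⟨h1, h2, _⟩; exact ⟨h1, h2⟩
            · rintro ⟨h1, h2⟩; exact ⟨h1, h2, by rw [hPa i h1, hw]⟩
          · rw [if_neg hw, Finset.card_eq_zero, Finset.filter_eq_empty_iff]
            intro i _
            simp only [Prod.mk.injEq, decide_eq_true_eq, not_and]
            intro h1 _ h3
            exact hw (by rw [← h3, hPa i h1])
        | false =>
          rw [if_neg (by simp)]
          congr 1
          ext i
          simp only [Finset.mem_filter, Finset.mem_univ, true_and, Prod.mk.injEq,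
            decide_eq_false_iff_not, Finset.mem_compl]
          tauto
      rw [red P n a hPa, red P' n' a' hPa']
      cases b with
      | true =>
        rw [if_pos rfl, if_pos rfl]
        by_cases hw : w = p0
        · rw [if_pos hw, if_pos hw]
          by_cases hv : v = q
          · subst hv; exact hPS
          by_cases hv' : v = q + 1
          · subst hv'; exact hPT
          rw [count_other P n q v (fun i _ => h1 i) hv hv',
            count_other P' n' q v (fun i _ => h1' i) hv hv']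
        · rw [if_neg hw, if_neg hw]
      | false =>
        rw [if_neg (by simp), if_neg (by simp)]
        by_cases hv : v = q
        · subst hv; exact kL w
        by_cases hv' : v = q + 1
        · subst hv'; exact kB w
        have e1 := count_other Pᶜ n q v (fun i _ => h1 i) hv hv'
        have e2 := count_other P'ᶜ n' q v (fun i _ => h1' i) hv hv'
        rw [Finset.card_eq_zero] at e1 e2
        rw [e1, e2, Finset.filter_empty, Finset.filter_empty])
  refine ⟨σ, fun i => ?_⟩
  have := hσ i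
  simp only [Prod.mk.injEq, decide_eq_decide] at this
  exact ⟨this.1.symm, this.2.1, this.2.2⟩

end Pool.Agent.Work.MP_5532fa_up

end

section

open Finset

namespace Pool.Agent.Work.MP_5532fa_up

namespace OPT2

/-- `f (1 - f)` for the fractional part `f` -/
noncomputable def gg (z : ℝ) : ℝ := Int.fract z * (1 - Int.fract z)

theorem gg_of {z : ℝ} (h0 : 0 ≤ z) (h1 : z < 1) : gg z = z * (1 - z) := by
  unfold gg; rw [Int.fract_eq_self.mpr ⟨h0, h1⟩]

theorem gg_add_le (a b : ℝ) : gg (a + b) ≤ gg a + gg b := by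
  have ha := Int.fract_nonneg a
  have hb := Int.fract_nonneg b
  have ha1 := Int.fract_lt_one a
  have hb1 := Int.fract_lt_one b
  have ea : a = Int.fract a + ⌊a⌋ := (Int.fract_add_floor a).symm
  have eb : b = Int.fract b + ⌊b⌋ := (Int.fract_add_floor b).symm
  by_cases h : Int.fract a + Int.fract b < 1
  · have e : Int.fract (a + b) = Int.fract a + Int.fract b := by
      rw [Int.fract_eq_iff]
      refine ⟨by linarith, h, ⌊a⌋ + ⌊b⌋, ?_⟩
      push_cast
      linarith
    unfold gg
    rw [e]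
    nlinarith [mul_nonneg ha hb]
  · have e : Int.fract (a + b) = Int.fract a + Int.fract b - 1 := by
      rw [Int.fract_eq_iff]
      refine ⟨by linarith, by linarith, ⌊a⌋ + ⌊b⌋ + 1, ?_⟩
      push_cast
      linarith
    unfold gg
    rw [e]
    nlinarith [mul_nonneg (by linarith : 0 ≤ 1 - Int.fract a) (by linarith : 0 ≤ 1 - Int.fract b)]

theorem gg_le_abs (z : ℝ) : gg z ≤ |z| := by
  have h0 := Int.fract_nonneg z
  have h1 := Int.fract_lt_one z
  have e : z = Int.fract z + ⌊z⌋ := (Int.fract_add_floor z).symm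
  unfold gg
  rcases le_or_gt 0 z with h | h
  · have h2 : (0 : ℝ) ≤ ⌊z⌋ := by exact_mod_cast Int.floor_nonneg.mpr h
    rw [abs_of_nonneg h]
    nlinarith
  · have h2 : ⌊z⌋ ≤ -1 := by
      have : ⌊z⌋ < 0 := Int.floor_lt_zero.mpr h
      omega
    have h2' : (⌊z⌋ : ℝ) ≤ -1 := by exact_mod_cast h2
    rw [abs_of_neg h]
    nlinarith

theorem gg_sub_int (z : ℝ) (k : ℤ) : gg (z - k) = gg z := by
  unfold gg; rw [Int.fract_sub_intCast]

theorem gg_sum {ι : Type} (s : Finset ι) (X : ι → ℝ) (h : ∀ v ∈ s, 0 ≤ X v ∧ X v < 1) :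
    gg (∑ v ∈ s, X v) ≤ ∑ v ∈ s, X v * (1 - X v) := by
  classical
  induction s using Finset.induction_on with
  | empty => simp [gg]
  | insert a s ha ih =>
    rw [Finset.sum_insert ha, Finset.sum_insert ha]
    have h1 := gg_add_le (X a) (∑ v ∈ s, X v)
    have h2 := ih fun v hv => h v (Finset.mem_insert_of_mem hv)
    have h3 := h a (Finset.mem_insert_self a s)
    rw [gg_of h3.1 h3.2] at h1
    linarith

theorem F_ge {ι : Type} (s : Finset ι) (X : ι → ℝ) (e : ℝ) (he : 0 ≤ e)
    (h : ∀ v ∈ s, 0 ≤ X v ∧ X v < 1) :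
    gg (∑ v ∈ s, X v + e) ≤ ∑ v ∈ s, X v * (1 - X v) + e := by
  have h1 := gg_add_le (∑ v ∈ s, X v) e
  have h2 := gg_sum s X h
  have h3 := gg_le_abs e
  rw [abs_of_nonneg he] at h3
  linarith

end OPT2

end Pool.Agent.Work.MP_5532fa_up

end

section

/-! Block EXD: existence of type D graphs. -/

open Finset

namespace Pool.Agent.Work.MP_5532fa_up

namespace EXD

/-- arithmetic: the parameters are admissible -/
theorem arith (r : ℕ) (ε : ℝ) (hr : 3 ≤ r) (hε : 0 < ε) : ∃ N0 : ℕ, ∀ N ≥ N0, ∀ j : ℕ,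
    Rg r ε N j → 2 * r ≤ N ∧ 2 * r ≤ j ∧ (j : ℝ) + 2 * (N / r) + r + 1 ≤ N ∧
      ((N / r : ℕ) : ℝ) ≤ (N : ℝ) / r := by
  obtain ⟨N0, hN0⟩ := exists_nat_ge ((2 * (r : ℝ) + 2) / ε + 2 * r)
  refine ⟨N0, fun N hN j hj => ?_⟩
  obtain ⟨h1, h2⟩ := hj
  have hr' : (3 : ℝ) ≤ r := by exact_mod_cast hr
  have hNr : (N0 : ℝ) ≤ N := by exact_mod_cast hN
  have h3 : (2 * (r : ℝ) + 2) / ε ≤ N := by
    have : (0 : ℝ) ≤ 2 * r := by linarith
    linarith
  have h4 : 2 * (r : ℝ) + 2 ≤ ε * N := by
    rw [div_le_iff₀ hε] at h3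
    linarith
  have h5 : 2 * (r : ℝ) ≤ N := by
    have : (0 : ℝ) ≤ (2 * (r : ℝ) + 2) / ε := by positivity
    linarith
  have h6 : 2 * (r : ℝ) ≤ j := by linarith
  refine ⟨by exact_mod_cast h5, by exact_mod_cast h6, ?_, Nat.cast_div_le⟩
  have hN : (0 : ℝ) ≤ N := Nat.cast_nonneg _
  have h7 : 0 ≤ 1 - 2 / (r : ℝ) := by
    have : 2 / (r : ℝ) ≤ 1 := by
      rw [div_le_one (by linarith)]
      linarith
    linarith
  have h8 : (1 - 2 / (r : ℝ)) * al r ≤ (1 - 2 / (r : ℝ)) :=
    mul_le_of_le_one_right h7 (al_lt hr).le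
  have h9 : ((1 - 2 / (r : ℝ)) * al r - ε) * N ≤ ((1 - 2 / (r : ℝ)) - ε) * N :=
    mul_le_mul_of_nonneg_right (by linarith) hN
  have h10 : ((1 - 2 / (r : ℝ)) - ε) * N = N - 2 * (N / r) - ε * N := by ring
  linarith

theorem a_le {r : ℕ} {n a : Fin r → ℕ} {P : Finset (Fin r)} {p0 : ℕ}
    (hn : ∀ i, 2 ≤ n i) (hp0 : p0 ≤ 2) (haP : ∀ i, i ∈ P → a i = p0)
    (haQ : ∀ i, i ∉ P → 1 ≤ a i ∧ a i ≤ n i) (i : Fin r) : a i ≤ n i := by
  by_cases hi : i ∈ P
  · rw [haP i hi]
    exact hp0.trans (hn i)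
  · exact (haQ i hi).2

end EXD

open EXD in
theorem blk_EXD (h1 : Stmt_PARX) (h2 : Stmt_EMB) : Stmt_EXD := by
  intro r ε hr hε
  obtain ⟨N0, hN0⟩ := arith r ε hr hε
  refine ⟨N0, fun N hN j hj V _ hV => ?_⟩
  obtain ⟨b1, b2, b3, b4⟩ := hN0 N hN j hj
  have c1 : 1 ≤ j := by omega
  have c2 : j - 1 + 2 * (N / r + 1) ≤ N := by
    have e : ((j - 1 + 2 * (N / r + 1) : ℕ) : ℝ) ≤ (N : ℝ) := by
      push_cast [Nat.cast_sub c1]
      have : (0 : ℝ) ≤ r := Nat.cast_nonneg _
      linarith
    exact_mod_cast e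
  obtain ⟨n, a, P, hP, hsn, hsa, hn2, hbal, htop, haP, haQ, hpl⟩ :=
    h1 r 2 1 N (j - 1) hr (by omega) b1 (by omega) c2
  have hle := a_le hn2 (by norm_num) haP (fun i hi => haQ i hi)
  obtain ⟨H, c, w, u, A, hwu, hw, hu, hA, hH, hcH, hcA⟩ :=
    h2 r N n a V (by omega) hsn hle hV
  obtain ⟨i1, i2, hi12, rfl⟩ := Finset.card_eq_two.1 hP
  have hi1 : (cl A c i1).card = 1 := by
    rw [hcA, haP i1 (by simp)]
  have hi2 : (cl A c i2).card = 1 := by
    rw [hcA, haP i2 (by simp)]
  obtain ⟨v1, hv1⟩ := Finset.card_eq_one.1 hi1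
  obtain ⟨v2, hv2⟩ := Finset.card_eq_one.1 hi2
  have hc1 : c v1 = i1 := by
    have : v1 ∈ cl A c i1 := by rw [hv1]; exact Finset.mem_singleton_self _
    exact (mem_cl.1 this).2
  have hc2 : c v2 = i2 := by
    have : v2 ∈ cl A c i2 := by rw [hv2]; exact Finset.mem_singleton_self _
    exact (mem_cl.1 this).2
  refine ⟨gD H c w A v1 v2, H, c, w, A, v1, v2, ?_, ?_, ?_, ?_, ?_⟩
  · apply gD_WD hH hw hA
    · rw [hc1, hc2]; exact hi12
    · rw [hc1]; exact hv1
    · rw [hc2]; exact hv2
    · intro i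
      rw [← Finset.card_pos, hcA]
      by_cases hi : i ∈ ({i1, i2} : Finset (Fin r))
      · rw [haP i hi]; norm_num
      · exact (haQ i hi).1
  · have := sum_card_cl A c
    rw [← this]
    simp only [hcA]
    rw [hsa]
    omega
  · intro i k
    rw [hcH, hcH]
    exact hbal i k
  · intro i k hi hk
    rw [hc1, hc2] at hi hk
    rw [hcH, hcH, hcA, hcA]
    exact hpl i k hi hk
  · intro i k hi hk
    rw [hc1, hc2] at hi hk
    rw [hcH, hcH]
    exact htop i k hi hk

end Pool.Agent.Work.MP_5532fa_up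

end

section

open Finset

namespace Pool.Agent.Work.MP_5532fa_up

namespace FAM

theorem chi_or {p q : Prop} (h : p → q → False) : chi (p ∨ q) = chi p + chi q := by
  by_cases hp : p
  · by_cases hq : q
    · exact (h hp hq).elim
    · rw [chi_pos (Or.inl hp), chi_pos hp, chi_neg hq, add_zero]
  · by_cases hq : q
    · rw [chi_pos (Or.inr hq), chi_neg hp, chi_pos hq, zero_add]
    · rw [chi_neg (fun h => h.elim hp hq), chi_neg hp, chi_neg hq, add_zero]

theorem chi_and (p q : Prop) : chi (p ∧ q) = chi p * chi q := by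
  by_cases hp : p
  · by_cases hq : q
    · rw [chi_pos ⟨hp, hq⟩, chi_pos hp, chi_pos hq, one_mul]
    · rw [chi_neg (fun h => hq h.2), chi_pos hp, chi_neg hq, one_mul]
  · rw [chi_neg (fun h => hp h.1), chi_neg hp, zero_mul]

variable {V : Type} [Fintype V]

theorem sum_chi_eq (q : V) : ∑ b, chi (b = q) = 1 := by
  classical
  rw [Finset.sum_eq_single q]
  · exact chi_pos rfl
  · intro b _ hb
    exact chi_neg hb
  · intro h
    exact absurd (Finset.mem_univ q) h

theorem sum_chi_mem (B : Finset V) : ∑ b, chi (b ∈ B) = B.card := by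
  classical
  rw [← Finset.sum_subset (Finset.subset_univ B)]
  · rw [Finset.sum_congr rfl (fun b hb => chi_pos hb)]
    simp
  · intro b _ hb
    exact chi_neg hb

theorem sum2_eq (p q : V) : ∑ a, ∑ b, chi (a = p ∧ b = q) = 1 := by
  simp only [chi_and]
  rw [← Finset.sum_mul_sum, sum_chi_eq, sum_chi_eq, one_mul]

theorem sum2_mem (p : V) (B : Finset V) : ∑ a, ∑ b, chi (a = p ∧ b ∈ B) = B.card := by
  simp only [chi_and]
  rw [← Finset.sum_mul_sum, sum_chi_eq, sum_chi_mem, one_mul]

theorem sum2_mem' (p : V) (B : Finset V) : ∑ a, ∑ b, chi (b = p ∧ a ∈ B) = B.card := by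
  rw [Finset.sum_comm]
  exact sum2_mem p B

end FAM

open FAM in
theorem blk_FAM : Stmt_FAM := by
  intro r hr V _ G N H c w A
  classical
  have hr' : (3 : ℝ) ≤ r := by exact_mod_cast hr
  constructor
  · intro v1 v2 hW
    have hv1 : v1 ∈ H := by
      have : v1 ∈ cl A c (c v1) := by rw [hW.h1]; exact Finset.mem_singleton_self _
      exact hW.hA (mem_cl.1 this).1
    have hv2 : v2 ∈ H := by
      have : v2 ∈ cl A c (c v2) := by rw [hW.h2]; exact Finset.mem_singleton_self _
      exact hW.hA (mem_cl.1 this).1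
    refine ⟨hW.hw, hW.hA, ?_, ?_, ?_⟩
    · intro a b
      unfold JD
      rw [chi_congr (p := b = v1 ∧ a = v2) (q := a = v2 ∧ b = v1) and_comm,
        chi_congr (p := b = v2 ∧ a = v1) (q := a = v1 ∧ b = v2) and_comm]
      ring
    · have h1 : ∀ a b, |JD v1 v2 a b| ≤ chi (a = v1 ∧ b = v2) + chi (a = v2 ∧ b = v1) := by
        intro a b
        unfold JD
        have h1 := chi_nonneg (a = v1 ∧ b = v2)
        have h2 := chi_nonneg (a = v2 ∧ b = v1)
        rw [abs_le]
        constructor <;> linarith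
      refine (Finset.sum_le_sum fun a _ => Finset.sum_le_sum fun b _ => h1 a b).trans ?_
      simp only [Finset.sum_add_distrib]
      rw [sum2_eq, sum2_eq]
      linarith
    · intro a b
      have h1 : chi (a ∈ H ∧ b ∈ H ∧ c a ≠ c b) =
          chi (a ∈ H ∧ b ∈ H ∧ c a ≠ c b ∧ ¬ (a = v1 ∧ b = v2) ∧ ¬ (a = v2 ∧ b = v1))
            + (chi (a = v1 ∧ b = v2) + chi (a = v2 ∧ b = v1)) := by
        rw [← chi_or (p := a = v1 ∧ b = v2) (q := a = v2 ∧ b = v1), ← chi_or]
        · apply chi_congr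
          constructor
          · intro h
            by_cases h1 : a = v1 ∧ b = v2
            · exact Or.inr (Or.inl h1)
            by_cases h2 : a = v2 ∧ b = v1
            · exact Or.inr (Or.inr h2)
            exact Or.inl ⟨h.1, h.2.1, h.2.2, h1, h2⟩
          · rintro (h | ⟨rfl, rfl⟩ | ⟨rfl, rfl⟩)
            · exact ⟨h.1, h.2.1, h.2.2.1⟩
            · exact ⟨hv1, hv2, hW.h12⟩
            · exact ⟨hv2, hv1, hW.h12.symm⟩
        · rintro ⟨_, _, _, h1, h2⟩ (h | h)
          · exact h1 h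
          · exact h2 h
        · rintro ⟨rfl, rfl⟩ ⟨h, _⟩
          exact hW.h12 (by rw [h])
      have h2 : ad G a b = chi (a ∈ H ∧ b ∈ H ∧ c a ≠ c b ∧ ¬ (a = v1 ∧ b = v2)
          ∧ ¬ (a = v2 ∧ b = v1)) + (chi (a = w ∧ b ∈ A) + chi (b = w ∧ a ∈ A)) := by
        unfold ad
        rw [← chi_or (p := a = w ∧ b ∈ A) (q := b = w ∧ a ∈ A), ← chi_or]
        · exact chi_congr (hW.adj a b)
        · rintro ⟨h1, h2, _⟩ (h | h)
          · exact hW.hw (h.1 ▸ h1)
          · exact hW.hw (h.1 ▸ h2)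
        · rintro ⟨h1, h2⟩ ⟨h3, h4⟩
          exact hW.hw (h1 ▸ hW.hA h4)
      rw [h2, h1]
      unfold JD
      ring
  · intro u B i0 hW
    have hBc : (B.card : ℝ) = r - 1 := by
      have h1 : B.card = r - 1 := by
        rw [← sum_card_cl B c, ← Finset.add_sum_erase univ _ (Finset.mem_univ i0), hW.hB0,
          Finset.card_empty, zero_add]
        rw [Finset.sum_congr rfl (fun i hi => hW.hB1 i (Finset.mem_erase.1 hi).1)]
        simp
      rw [h1, Nat.cast_sub (by omega), Nat.cast_one]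
    have hex1 : ∀ a : V, a ∈ H → a = w → False := fun a h1 h2 => hW.hw (h2 ▸ h1)
    have hex2 : ∀ a : V, a ∈ H → a = u → False := fun a h1 h2 => hW.hu (h2 ▸ h1)
    have hex3 : ∀ a : V, a = w → a = u → False := fun a h1 h2 => hW.hwu (h1.symm.trans h2)
    refine ⟨hW.hw, hW.hA, ?_, ?_, ?_⟩
    · intro a b
      unfold JE
      rw [chi_congr (p := a = w ∧ b = u) (q := b = u ∧ a = w) and_comm,
        chi_congr (p := a = u ∧ b = w) (q := b = w ∧ a = u) and_comm]
      ring
    · have h1 : ∀ a b, |JE w u B a b| = JE w u B a b := by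
        intro a b
        apply abs_of_nonneg
        unfold JE
        have h1 := chi_nonneg (a = u ∧ b ∈ B)
        have h2 := chi_nonneg (b = u ∧ a ∈ B)
        have h3 := chi_nonneg (a = w ∧ b = u)
        have h4 := chi_nonneg (a = u ∧ b = w)
        linarith
      simp only [h1]
      unfold JE
      simp only [Finset.sum_add_distrib]
      rw [sum2_mem, sum2_mem', sum2_eq, sum2_eq, hBc]
      linarith
    · intro a b
      have h2 : ad G a b = chi (a ∈ H ∧ b ∈ H ∧ c a ≠ c b) + (chi (a = w ∧ b ∈ A)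
          + (chi (b = w ∧ a ∈ A) + (chi (a = u ∧ b ∈ B) + (chi (b = u ∧ a ∈ B)
          + (chi (a = w ∧ b = u) + chi (a = u ∧ b = w)))))) := by
        unfold ad
        rw [← chi_or (p := a = w ∧ b = u) (q := a = u ∧ b = w),
          ← chi_or (p := b = u ∧ a ∈ B), ← chi_or (p := a = u ∧ b ∈ B),
          ← chi_or (p := b = w ∧ a ∈ A), ← chi_or (p := a = w ∧ b ∈ A), ← chi_or]
        · exact chi_congr (hW.adj a b)
        · rintro ⟨h1, h2, _⟩ (h | h | h | h | h | h)
          · exact hex1 a h1 h.1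
          · exact hex1 b h2 h.1
          · exact hex2 a h1 h.1
          · exact hex2 b h2 h.1
          · exact hex1 a h1 h.1
          · exact hex2 a h1 h.1
        · rintro ⟨h1, h2⟩ (h | h | h | h | h)
          · exact hex1 a (hW.hA h.2) h1
          · exact hex3 a h1 h.1
          · exact hex1 a (hW.hB h.2) h1
          · exact hex2 b (hW.hA h2) h.2
          · exact hex3 a h1 h.1
        · rintro ⟨h1, h2⟩ (h | h | h | h)
          · exact hex1 b (hW.hB h.2) h1
          · exact hex3 b h1 h.1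
          · exact hex3 b h1 h.2
          · exact hex2 a (hW.hA h2) h.1
        · rintro ⟨h1, h2⟩ (h | h | h)
          · exact hex2 b (hW.hB h2) h.1
          · exact hex3 a h.1 h1
          · exact hex1 b (hW.hB h2) h.2
        · rintro ⟨h1, h2⟩ (h | h)
          · exact hex1 a (hW.hB h2) h.1
          · exact hex2 a (hW.hB h2) h.1
        · rintro ⟨h1, h2⟩ ⟨h3, h4⟩
          exact hex3 a h1 h3
      rw [h2]
      unfold JE
      ring

end Pool.Agent.Work.MP_5532fa_up

end

section

/-!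
# MP_5532fa_co, upgrade: uniqueness of the type D graphs
-/

open Finset

namespace Pool.Agent.Work.MP_5532fa_up

open MP5532fa (specRad qf pE UpToIsolated)

/-- graphs given by labels, isomorphism form -/
def Stmt_LAB2 : Prop := ∀ (L V V' : Type) [Fintype V] [Fintype V'] (R : L → L → Prop)
  (G : SimpleGraph V) (G' : SimpleGraph V') (K : Finset V) (K' : Finset V') (l : V → L)
  (l' : V' → L), (∀ a b, G.Adj a b ↔ a ∈ K ∧ b ∈ K ∧ a ≠ b ∧ R (l a) (l b)) →
  (∀ a b, G'.Adj a b ↔ a ∈ K' ∧ b ∈ K' ∧ a ≠ b ∧ R (l' a) (l' b)) →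
  (∀ s : L, (fib K l s).card = (fib K' l' s).card) →
  ∃ (W : Type) (D : SimpleGraph W), UpToIsolated G D ∧ UpToIsolated G' D

/-- all type D graphs are isomorphic up to isolated vertices -/
def Stmt_ISOD2 : Prop := ∀ (r N j : ℕ) (V V' : Type) [Fintype V] [Fintype V']
  (G : SimpleGraph V) (G' : SimpleGraph V'), TypeD r N j G → TypeD r N j G' →
  ∃ (W : Type) (D : SimpleGraph W), UpToIsolated G D ∧ UpToIsolated G' D

namespace ISOD

variable {V : Type} [Fintype V] {r : ℕ}

/-- the relation on the labels -/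
def R (P : Finset (Fin r)) : Option (Fin r × Bool) → Option (Fin r × Bool) → Prop
  | none, none => False
  | none, some (_, b) => b = true
  | some (_, b), none => b = true
  | some (i, b), some (k, b') => i ≠ k ∧ ¬ (b = true ∧ b' = true ∧ i ∈ P ∧ k ∈ P)

open Classical in
/-- the labels -/
noncomputable def lab (c : V → Fin r) (w : V) (A : Finset V) (τ : Fin r → Fin r) (v : V) :
    Option (Fin r × Bool) :=
  if v = w then none else some (τ (c v), decide (v ∈ A))

omit [Fintype V] in
theorem lab_w (c : V → Fin r) (w : V) (A : Finset V) (τ : Fin r → Fin r) :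
    lab c w A τ w = none := by unfold lab; rw [if_pos rfl]

omit [Fintype V] in
open Classical in
theorem lab_ne (c : V → Fin r) (w : V) (A : Finset V) (τ : Fin r → Fin r) {v : V} (h : v ≠ w) :
    lab c w A τ v = some (τ (c v), decide (v ∈ A)) := by unfold lab; rw [if_neg h]

omit [Fintype V] in
theorem mem_sp {c : V → Fin r} {A : Finset V} {v1 v : V} (h1 : cl A c (c v1) = {v1}) :
    v ∈ A ∧ c v = c v1 ↔ v = v1 := by
  constructor
  · rintro ⟨a, b⟩
    have : v ∈ cl A c (c v1) := mem_cl.mpr ⟨a, b⟩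
    rw [h1, Finset.mem_singleton] at this
    exact this
  · rintro rfl
    have : v ∈ cl A c (c v) := by rw [h1]; exact Finset.mem_singleton_self _
    exact ⟨(mem_cl.mp this).1, rfl⟩

theorem adj_iff {G : SimpleGraph V} {N : ℕ} {H : Finset V} {c : V → Fin r} {w : V}
    {A : Finset V} {v1 v2 : V} (h : WD G N H c w A v1 v2) (τ : Equiv.Perm (Fin r))
    (P : Finset (Fin r)) (hP : ∀ i, τ i ∈ P ↔ i ∈ ({c v1, c v2} : Finset (Fin r))) (K : Finset V)
    (hK : ∀ v, v ∈ K ↔ v = w ∨ v ∈ H) (a b : V) :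
    G.Adj a b ↔ a ∈ K ∧ b ∈ K ∧ a ≠ b ∧ R P (lab c w A τ a) (lab c w A τ b) := by
  classical
  have hwA : w ∉ A := fun hw => h.hw (h.hA hw)
  have g1 : ∀ {v : V}, v ∈ A ∧ c v = c v1 ↔ v = v1 := mem_sp h.h1
  have g2 : ∀ {v : V}, v ∈ A ∧ c v = c v2 ↔ v = v2 := mem_sp h.h2
  rw [h.adj, hK, hK]
  by_cases ha : a = w
  · subst ha
    by_cases hb : b = a
    · subst hb
      simp only [lab_w, R]
      constructor
      · rintro (⟨h1, _⟩ | ⟨_, h2⟩ | ⟨_, h2⟩)
        · exact absurd h1 h.hw
        · exact absurd h2 hwA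
        · exact absurd h2 hwA
      · rintro ⟨_, _, h3, _⟩
        exact absurd rfl h3
    · rw [lab_w, lab_ne c a A τ hb]
      simp only [R, decide_eq_true_eq]
      constructor
      · rintro (⟨h1, _⟩ | ⟨_, h2⟩ | ⟨h1, _⟩)
        · exact absurd h1 h.hw
        · exact ⟨Or.inl trivial, Or.inr (h.hA h2), fun e => hb e.symm, h2⟩
        · exact absurd h1 hb
      · rintro ⟨_, _, _, h4⟩
        exact Or.inr (Or.inl ⟨trivial, h4⟩)
  · by_cases hb : b = w
    · subst hb
      rw [lab_w, lab_ne c b A τ ha]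
      simp only [R, decide_eq_true_eq]
      constructor
      · rintro (⟨_, h1, _⟩ | ⟨h1, _⟩ | ⟨_, h2⟩)
        · exact absurd h1 h.hw
        · exact absurd h1 ha
        · exact ⟨Or.inr (h.hA h2), Or.inl trivial, ha, h2⟩
      · rintro ⟨_, _, _, h4⟩
        exact Or.inr (Or.inr ⟨trivial, h4⟩)
    · rw [lab_ne c w A τ ha, lab_ne c w A τ hb]
      simp only [R, decide_eq_true_eq, hP, Finset.mem_insert, Finset.mem_singleton]
      constructor
      · rintro (⟨h1, h2, h3, h4, h5⟩ | ⟨h1, _⟩ | ⟨h1, _⟩)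
        · refine ⟨Or.inr h1, Or.inr h2, fun e => h3 (by rw [e]), fun e => h3 (τ.injective e), ?_⟩
          rintro ⟨aA, bA, ca, cb⟩
          rcases ca with ca | ca <;> rcases cb with cb | cb
          · exact h3 (ca.trans cb.symm)
          · exact h4 ⟨g1.mp ⟨aA, ca⟩, g2.mp ⟨bA, cb⟩⟩
          · exact h5 ⟨g2.mp ⟨aA, ca⟩, g1.mp ⟨bA, cb⟩⟩
          · exact h3 (ca.trans cb.symm)
        · exact absurd h1 ha
        · exact absurd h1 hb
      · rintro ⟨h1, h2, h3, h4, h5⟩
        left
        refine ⟨h1.resolve_left ha, h2.resolve_left hb, fun e => h4 (by rw [e]), ?_, ?_⟩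
        · rintro ⟨rfl, rfl⟩
          exact h5 ⟨(g1.mpr rfl).1, (g2.mpr rfl).1, Or.inl rfl, Or.inr rfl⟩
        · rintro ⟨rfl, rfl⟩
          exact h5 ⟨(g2.mpr rfl).1, (g1.mpr rfl).1, Or.inr rfl, Or.inl rfl⟩

theorem fib_none {H : Finset V} {c : V → Fin r} {w : V} {A : Finset V}
    (τ : Equiv.Perm (Fin r)) (K : Finset V) (hK : ∀ v, v ∈ K ↔ v = w ∨ v ∈ H) :
    (fib K (lab c w A τ) none).card = 1 := by
  classical
  have : fib K (lab c w A τ) none = {w} := by
    ext v
    rw [mem_fib, hK, Finset.mem_singleton]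
    constructor
    · rintro ⟨_, h2⟩
      by_contra hv
      rw [lab_ne c w A τ hv] at h2
      simp at h2
    · rintro rfl
      exact ⟨Or.inl rfl, lab_w _ _ _ _⟩
  rw [this, Finset.card_singleton]

theorem fib_true {H : Finset V} {c : V → Fin r} {w : V} {A : Finset V} (hw : w ∉ H) (hA : A ⊆ H)
    (τ : Equiv.Perm (Fin r)) (K : Finset V) (hK : ∀ v, v ∈ K ↔ v = w ∨ v ∈ H) (i : Fin r) :
    (fib K (lab c w A τ) (some (τ i, true))).card = (cl A c i).card := by
  classical
  congr 1
  ext v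
  rw [mem_fib, hK, mem_cl]
  constructor
  · rintro ⟨_, h2⟩
    by_cases hv : v = w
    · rw [hv, lab_w] at h2; simp at h2
    · rw [lab_ne c w A τ hv] at h2
      simp only [Option.some.injEq, Prod.mk.injEq, decide_eq_true_eq,
        EmbeddingLike.apply_eq_iff_eq] at h2
      exact ⟨h2.2, h2.1⟩
  · rintro ⟨h1, h2⟩
    have hv : v ≠ w := fun e => hw (e ▸ hA h1)
    refine ⟨Or.inr (hA h1), ?_⟩
    rw [lab_ne c w A τ hv, h2]
    simp [h1]

theorem fib_false {H : Finset V} {c : V → Fin r} {w : V} {A : Finset V} (hw : w ∉ H) (hA : A ⊆ H)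
    (τ : Equiv.Perm (Fin r)) (K : Finset V) (hK : ∀ v, v ∈ K ↔ v = w ∨ v ∈ H) (i : Fin r) :
    (fib K (lab c w A τ) (some (τ i, false))).card = (cl H c i).card - (cl A c i).card := by
  classical
  have hsub : cl A c i ⊆ cl H c i := fun v hv => by
    rw [mem_cl] at hv ⊢
    exact ⟨hA hv.1, hv.2⟩
  rw [← Finset.card_sdiff_of_subset hsub]
  congr 1
  ext v
  rw [mem_fib, hK, Finset.mem_sdiff, mem_cl, mem_cl]
  constructor
  · rintro ⟨h1, h2⟩
    by_cases hv : v = w
    · rw [hv, lab_w] at h2; simp at h2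
    · rw [lab_ne c w A τ hv] at h2
      simp only [Option.some.injEq, Prod.mk.injEq, decide_eq_false_iff_not,
        EmbeddingLike.apply_eq_iff_eq] at h2
      exact ⟨⟨h1.resolve_left hv, h2.1⟩, fun h => h2.2 h.1⟩
  · rintro ⟨⟨h1, h2⟩, h3⟩
    have hv : v ≠ w := fun e => hw (e ▸ h1)
    refine ⟨Or.inr h1, ?_⟩
    rw [lab_ne c w A τ hv, h2]
    have : v ∉ A := fun h => h3 ⟨h, h2⟩
    simp [this]

omit [Fintype V] in
theorem sum_card_cl' (S : Finset V) (c : V → Fin r) : ∑ i, (cl S c i).card = S.card :=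
  sum_card_cl S c

/-- the permutation from CANP -/
theorem perm_of {V' : Type} [Fintype V'] (hCANP : Stmt_CANP) {H A : Finset V} {c : V → Fin r}
    {H' A' : Finset V'} {c' : V' → Fin r} {P P' : Finset (Fin r)} {p0 : ℕ}
    (hPc : P.card = P'.card) (hH : H.card = H'.card) (hAc : A.card = A'.card)
    (hA : A ⊆ H) (hA' : A' ⊆ H') (hB : Bal H c) (hB' : Bal H' c') (hPl : Place H A c P)
    (hPl' : Place H' A' c' P') (hT : Top H c P) (hT' : Top H' c' P')
    (h0 : ∀ i, i ∈ P → (cl A c i).card = p0) (h0' : ∀ i, i ∈ P' → (cl A' c' i).card = p0)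
    (h1 : ∀ i, i ∉ P → (cl A c i).Nonempty) (h1' : ∀ i, i ∉ P' → (cl A' c' i).Nonempty) :
    ∃ σ : Equiv.Perm (Fin r), ∀ i, (i ∈ P ↔ σ i ∈ P') ∧
      (cl H' c' (σ i)).card = (cl H c i).card ∧ (cl A' c' (σ i)).card = (cl A c i).card := by
  have hsub : ∀ i, (cl A c i).card ≤ (cl H c i).card := fun i => Finset.card_le_card fun v hv => by
    rw [mem_cl] at hv ⊢
    exact ⟨hA hv.1, hv.2⟩
  have hsub' : ∀ i, (cl A' c' i).card ≤ (cl H' c' i).card :=
    fun i => Finset.card_le_card fun v hv => by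
      rw [mem_cl] at hv ⊢
      exact ⟨hA' hv.1, hv.2⟩
  exact hCANP r (fun i => (cl H c i).card) (fun i => (cl A c i).card)
    (fun i => (cl H' c' i).card) (fun i => (cl A' c' i).card) P P' p0 hPc
    (by rw [sum_card_cl', sum_card_cl', hH]) (by rw [sum_card_cl', sum_card_cl', hAc]) hB hB' hT
    hT' h0 h0' (fun i hi => ⟨Finset.card_pos.mpr (h1 i hi), hsub i⟩)
    (fun i hi => ⟨Finset.card_pos.mpr (h1' i hi), hsub' i⟩) hPl hPl'

end ISOD

theorem isod2 (hLAB : Stmt_LAB2) (hCANP : Stmt_CANP) : Stmt_ISOD2 := by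
  classical
  intro r N j V V' _ _ G G' hG hG'
  obtain ⟨H, c, w, A, v1, v2, hW, hA, hB, hP, hT⟩ := hG
  obtain ⟨H', c', w', A', v1', v2', hW', hA', hB', hP', hT'⟩ := hG'
  have hc : ({c v1, c v2} : Finset (Fin r)).card = ({c' v1', c' v2'} : Finset (Fin r)).card := by
    rw [Finset.card_pair hW.h12, Finset.card_pair hW'.h12]
  have s1 : ∀ i, i ∈ ({c v1, c v2} : Finset (Fin r)) → (cl A c i).card = 1 := by
    intro i hi
    simp only [Finset.mem_insert, Finset.mem_singleton] at hi
    rcases hi with rfl | rfl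
    · rw [hW.h1, Finset.card_singleton]
    · rw [hW.h2, Finset.card_singleton]
  have s1' : ∀ i, i ∈ ({c' v1', c' v2'} : Finset (Fin r)) → (cl A' c' i).card = 1 := by
    intro i hi
    simp only [Finset.mem_insert, Finset.mem_singleton] at hi
    rcases hi with rfl | rfl
    · rw [hW'.h1, Finset.card_singleton]
    · rw [hW'.h2, Finset.card_singleton]
  obtain ⟨σ, hσ⟩ := ISOD.perm_of hCANP hc (hW.card.trans hW'.card.symm) (hA.trans hA'.symm) hW.hA
    hW'.hA hB hB' hP hP' hT hT' s1 s1' (fun i _ => hW.hne i) (fun i _ => hW'.hne i)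
  set P := ({c v1, c v2} : Finset (Fin r)) with hPd
  have hK : ∀ v, v ∈ insert w H ↔ v = w ∨ v ∈ H := fun v => Finset.mem_insert
  have hK' : ∀ v, v ∈ insert w' H' ↔ v = w' ∨ v ∈ H' := fun v => Finset.mem_insert
  refine hLAB _ V V' (ISOD.R P) G G' (insert w H) (insert w' H')
    (ISOD.lab c w A (1 : Equiv.Perm (Fin r))) (ISOD.lab c' w' A' (σ⁻¹ : Equiv.Perm (Fin r)))
    (fun a b => ISOD.adj_iff hW 1 P (fun i => by simp [hPd]) _ hK a b)
    (fun a b => ISOD.adj_iff hW' σ⁻¹ P (fun i => ?_) _ hK' a b) ?_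
  · have := (hσ (σ⁻¹ i)).1
    rw [this]
    simp
  · intro s
    rcases s with _ | ⟨i, b⟩
    · rw [ISOD.fib_none 1 _ hK, ISOD.fib_none σ⁻¹ _ hK']
    · have e1 : i = (1 : Equiv.Perm (Fin r)) i := rfl
      have e2 : i = (σ⁻¹ : Equiv.Perm (Fin r)) (σ i) := by simp
      cases b
      · have h1 := ISOD.fib_false (c := c) hW.hw hW.hA 1 _ hK i
        have h2 := ISOD.fib_false (c := c') hW'.hw hW'.hA σ⁻¹ _ hK' (σ i)
        rw [← e1] at h1
        rw [← e2] at h2
        rw [h1, h2, (hσ i).2.1, (hσ i).2.2]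
      · have h1 := ISOD.fib_true (c := c) hW.hw hW.hA 1 _ hK i
        have h2 := ISOD.fib_true (c := c') hW'.hw hW'.hA σ⁻¹ _ hK' (σ i)
        rw [← e1] at h1
        rw [← e2] at h2
        rw [h1, h2, (hσ i).2.2]

theorem blk_ISOD (hLAB : Stmt_LAB) (hCANP : Stmt_CANP) : Stmt_ISOD := by
  classical
  intro r ε _ _
  refine ⟨0, ?_⟩
  intro N _ j _ V V' _ _ G G' hG hG'
  obtain ⟨H, c, w, A, v1, v2, hW, hA, hB, hP, hT⟩ := hG
  obtain ⟨H', c', w', A', v1', v2', hW', hA', hB', hP', hT'⟩ := hG'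
  have hc : ({c v1, c v2} : Finset (Fin r)).card = ({c' v1', c' v2'} : Finset (Fin r)).card := by
    rw [Finset.card_pair hW.h12, Finset.card_pair hW'.h12]
  have s1 : ∀ i, i ∈ ({c v1, c v2} : Finset (Fin r)) → (cl A c i).card = 1 := by
    intro i hi
    simp only [Finset.mem_insert, Finset.mem_singleton] at hi
    rcases hi with rfl | rfl
    · rw [hW.h1, Finset.card_singleton]
    · rw [hW.h2, Finset.card_singleton]
  have s1' : ∀ i, i ∈ ({c' v1', c' v2'} : Finset (Fin r)) → (cl A' c' i).card = 1 := by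
    intro i hi
    simp only [Finset.mem_insert, Finset.mem_singleton] at hi
    rcases hi with rfl | rfl
    · rw [hW'.h1, Finset.card_singleton]
    · rw [hW'.h2, Finset.card_singleton]
  obtain ⟨σ, hσ⟩ := ISOD.perm_of hCANP hc (hW.card.trans hW'.card.symm) (hA.trans hA'.symm) hW.hA
    hW'.hA hB hB' hP hP' hT hT' s1 s1' (fun i _ => hW.hne i) (fun i _ => hW'.hne i)
  set P := ({c v1, c v2} : Finset (Fin r)) with hPd
  have hK : ∀ v, v ∈ insert w H ↔ v = w ∨ v ∈ H := fun v => Finset.mem_insert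
  have hK' : ∀ v, v ∈ insert w' H' ↔ v = w' ∨ v ∈ H' := fun v => Finset.mem_insert
  refine hLAB _ V V' (ISOD.R P) G G' (insert w H) (insert w' H')
    (ISOD.lab c w A (1 : Equiv.Perm (Fin r))) (ISOD.lab c' w' A' (σ⁻¹ : Equiv.Perm (Fin r)))
    (fun a b => ISOD.adj_iff hW 1 P (fun i => by simp [hPd]) _ hK a b)
    (fun a b => ISOD.adj_iff hW' σ⁻¹ P (fun i => ?_) _ hK' a b) ?_ ⟨w, by simp⟩
  · have := (hσ (σ⁻¹ i)).1
    rw [this]
    simp
  · intro s
    rcases s with _ | ⟨i, b⟩
    · rw [ISOD.fib_none 1 _ hK, ISOD.fib_none σ⁻¹ _ hK']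
    · have e1 : i = (1 : Equiv.Perm (Fin r)) i := rfl
      have e2 : i = (σ⁻¹ : Equiv.Perm (Fin r)) (σ i) := by simp
      cases b
      · have h1 := ISOD.fib_false (c := c) hW.hw hW.hA 1 _ hK i
        have h2 := ISOD.fib_false (c := c') hW'.hw hW'.hA σ⁻¹ _ hK' (σ i)
        rw [← e1] at h1
        rw [← e2] at h2
        rw [h1, h2, (hσ i).2.1, (hσ i).2.2]
      · have h1 := ISOD.fib_true (c := c) hW.hw hW.hA 1 _ hK i
        have h2 := ISOD.fib_true (c := c') hW'.hw hW'.hA σ⁻¹ _ hK' (σ i)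
        rw [← e1] at h1
        rw [← e2] at h2
        rw [h1, h2, (hσ i).2.2]

end Pool.Agent.Work.MP_5532fa_up

end

section

open Finset

namespace Pool.Agent.Work.MP_5532fa_up

namespace EVN

theorem even_of_symm {V : Type} (S : Finset (V × V)) (hs : ∀ e ∈ S, (e.2, e.1) ∈ S)
    (hd : ∀ e ∈ S, e.1 ≠ e.2) : Even S.card := by
  classical
  rw [← ZMod.natCast_eq_zero_iff_even]
  have h : ((S.card : ℕ) : ZMod 2) = ∑ _e ∈ S, (1 : ZMod 2) := by simp
  rw [h]
  refine Finset.sum_involution (fun e _ => (e.2, e.1)) ?_ ?_ ?_ ?_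
  · intro e _
    decide
  · intro e he _ heq
    have := congrArg Prod.fst heq
    exact hd e he this.symm
  · intro e he
    exact hs e he
  · intro e _
    rfl

end EVN

theorem blk_EVN : Stmt_EVN := by
  intro r V _ G c H
  constructor
  · unfold mis
    apply EVN.even_of_symm
    · intro e he
      simp only [Finset.mem_filter, Finset.mem_product] at he ⊢
      exact ⟨⟨he.1.2, he.1.1⟩, he.2.1.symm, fun h => he.2.2 h.symm⟩
    · intro e he
      simp only [Finset.mem_filter, Finset.mem_product] at he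
      intro h
      exact he.2.1 (by rw [h])
  · unfold eu
    apply EVN.even_of_symm
    · intro e he
      simp only [Finset.mem_filter, Finset.mem_univ, true_and] at he ⊢
      exact ⟨he.1.symm, he.2.2, he.2.1⟩
    · intro e he
      simp only [Finset.mem_filter, Finset.mem_univ, true_and] at he
      exact he.1.ne

end Pool.Agent.Work.MP_5532fa_up

end

section

/-!
# Block TRV: transversals in the neighbourhood of `w`
-/

open Finset

namespace Pool.Agent.Work.MP_5532fa_up

open MP5532fa (specRad qf pE)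

namespace TRV

section
variable {V : Type} {r : ℕ} {G : SimpleGraph V} {H A : Finset V} {c : V → Fin r} {w : V}

theorem trans (hG : G.CliqueFree (r + 1)) (hA : A = nb G H w) (g : Fin r → V)
    (hg : ∀ i, g i ∈ cl A c i) : ∃ i k, i ≠ k ∧ ¬ G.Adj (g i) (g k) := by
  classical
  by_contra hcon
  push Not at hcon
  have hinj : Function.Injective g := by
    intro i k hik
    have h1 := (mem_cl.1 (hg i)).2
    have h2 := (mem_cl.1 (hg k)).2
    rw [← h1, ← h2, hik]
  have h1 : G.IsNClique r (Finset.univ.image g) := by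
    rw [SimpleGraph.isNClique_iff]
    constructor
    · intro a ha b hb hab
      rw [Finset.coe_image] at ha hb
      obtain ⟨i, -, rfl⟩ := ha
      obtain ⟨k, -, rfl⟩ := hb
      exact hcon i k (fun h => hab (by rw [h]))
    · rw [Finset.card_image_of_injective _ hinj, Finset.card_univ, Fintype.card_fin]
  apply hG (insert w (Finset.univ.image g))
  apply h1.insert
  intro b hb
  rw [Finset.mem_image] at hb
  obtain ⟨i, -, rfl⟩ := hb
  have h2 := (mem_cl.1 (hg i)).1
  rw [hA, mem_nb] at h2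
  exact h2.2

/-- the set of the missing pairs -/
noncomputable def Ms (G : SimpleGraph V) (H : Finset V) (c : V → Fin r) : Finset (V × V) := by
  classical
  exact (H ×ˢ H).filter (fun e => c e.1 ≠ c e.2 ∧ ¬ G.Adj e.1 e.2)

theorem mem_Ms {a b : V} : (a, b) ∈ Ms G H c ↔ a ∈ H ∧ b ∈ H ∧ c a ≠ c b ∧ ¬ G.Adj a b := by
  classical
  unfold Ms
  rw [Finset.mem_filter, Finset.mem_product]
  constructor
  · rintro ⟨⟨h1, h2⟩, h3, h4⟩; exact ⟨h1, h2, h3, h4⟩
  · rintro ⟨h1, h2, h3, h4⟩; exact ⟨⟨h1, h2⟩, h3, h4⟩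

theorem mis_eq : mis G H c = (Ms G H c).card := rfl

theorem part1 (hr : 3 ≤ r) (hG : G.CliqueFree (r + 1)) (hA : A = nb G H w)
    (hne : ∀ i, (cl A c i).Nonempty) :
    ∃ i0 i1 : Fin r, i0 ≠ i1 ∧ (cl A c i0).card ≤ (cl A c i1).card ∧
      2 * (cl A c i1).card ≤ mis G H c := by
  classical
  have hAH : ∀ v ∈ A, v ∈ H := by
    intro v hv; rw [hA, mem_nb] at hv; exact hv.1
  have hr0 : 0 < r := by omega
  have huniv : (Finset.univ : Finset (Fin r)).Nonempty := ⟨⟨0, hr0⟩, Finset.mem_univ _⟩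
  obtain ⟨i0, -, hi0⟩ := Finset.exists_min_image Finset.univ (fun i => (cl A c i).card) huniv
  have hne1 : ((Finset.univ : Finset (Fin r)).erase i0).Nonempty := by
    rw [← Finset.card_pos, Finset.card_erase_of_mem (Finset.mem_univ _), Finset.card_univ,
      Fintype.card_fin]
    omega
  obtain ⟨i1, hi1m, hi1⟩ := Finset.exists_min_image _ (fun i => (cl A c i).card) hne1
  have hi10 : i1 ≠ i0 := Finset.ne_of_mem_erase hi1m
  refine ⟨i0, i1, hi10.symm, hi0 i1 (Finset.mem_univ _), ?_⟩
  set m := (cl A c i1).card with hm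
  obtain ⟨a, ha⟩ := hne i0
  have hemb : ∀ l, l ≠ i0 → ∃ e : Fin m → V, Function.Injective e ∧ ∀ s, e s ∈ cl A c l := by
    intro l hl
    have h1 : m ≤ (cl A c l).card := hi1 l (Finset.mem_erase.2 ⟨hl, Finset.mem_univ _⟩)
    have e1 : Fin (cl A c l).card ≃ (cl A c l) := (cl A c l).equivFin.symm
    refine ⟨fun s => ((e1 (Fin.castLE h1 s)) : V), ?_, fun s => (e1 (Fin.castLE h1 s)).2⟩
    intro s s' hss
    have h2 := e1.injective (Subtype.ext hss)
    exact Fin.castLE_injective h1 h2
  have hV : Nonempty V := ⟨a⟩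
  choose! e heinj hemem using hemb
  let g : Fin m → Fin r → V := fun s i => if i = i0 then a else e i s
  have hg : ∀ s i, g s i ∈ cl A c i := by
    intro s i
    by_cases hi : i = i0
    · simp only [g, if_pos hi]; rw [hi]; exact ha
    · simp only [g, if_neg hi]; exact hemem i hi s
  have hgc : ∀ s i, c (g s i) = i := fun s i => (mem_cl.1 (hg s i)).2
  have hgH : ∀ s i, g s i ∈ H := fun s i => hAH _ (mem_cl.1 (hg s i)).1
  choose p q hpq hadj using fun s => trans hG hA (g s) (hg s)
  let F : Fin m × Bool → V × V := fun x =>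
    if x.2 then (g x.1 (p x.1), g x.1 (q x.1)) else (g x.1 (q x.1), g x.1 (p x.1))
  have hFmem : ∀ x, F x ∈ Ms G H c := by
    intro x
    by_cases hx : x.2 = true
    · simp only [F, if_pos hx]
      rw [mem_Ms]
      exact ⟨hgH _ _, hgH _ _, by rw [hgc, hgc]; exact hpq _, hadj _⟩
    · simp only [F, if_neg hx]
      rw [mem_Ms]
      exact ⟨hgH _ _, hgH _ _, by rw [hgc, hgc]; exact (hpq _).symm,
        fun h => hadj _ h.symm⟩
  have hginj : ∀ s s' i, i ≠ i0 → g s i = g s' i → s = s' := by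
    intro s s' i hi h
    simp only [g, if_neg hi] at h
    exact heinj i hi h
  -- a general form of the values of F
  have hFval : ∀ x, ∃ i k, i ≠ k ∧ F x = (g x.1 i, g x.1 k) ∧
      ((x.2 = true ∧ i = p x.1 ∧ k = q x.1) ∨ (x.2 = false ∧ i = q x.1 ∧ k = p x.1)) := by
    intro x
    by_cases hx : x.2 = true
    · exact ⟨p x.1, q x.1, hpq _, by simp only [F, if_pos hx], Or.inl ⟨hx, rfl, rfl⟩⟩
    · refine ⟨q x.1, p x.1, (hpq _).symm, by simp only [F, if_neg hx], Or.inr ⟨?_, rfl, rfl⟩⟩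
      simpa using hx
  have hFinj : Function.Injective F := by
    intro x y hxy
    obtain ⟨i, k, hik, hx, hx'⟩ := hFval x
    obtain ⟨i', k', hik', hy, hy'⟩ := hFval y
    rw [hx, hy, Prod.mk.injEq] at hxy
    obtain ⟨h1, h2⟩ := hxy
    have e1 : i = i' := by
      have := congrArg c h1; rwa [hgc, hgc] at this
    have e2 : k = k' := by
      have := congrArg c h2; rwa [hgc, hgc] at this
    subst e1
    subst e2
    have hs : x.1 = y.1 := by
      by_cases hi : i = i0
      · have hk : k ≠ i0 := fun h => hik (hi.trans h.symm)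
        exact hginj _ _ k hk h2
      · exact hginj _ _ i hi h1
    have hb : x.2 = y.2 := by
      rcases hx' with ⟨a1, a2, a3⟩ | ⟨a1, a2, a3⟩ <;> rcases hy' with ⟨b1, b2, b3⟩ | ⟨b1, b2, b3⟩
      · rw [a1, b1]
      · exfalso; rw [hs] at a2; exact hpq y.1 (a2.symm.trans b2)
      · exfalso; rw [hs] at a2; exact hpq y.1 (b2.symm.trans a2)
      · rw [a1, b1]
    exact Prod.ext hs hb
  rw [mis_eq]
  have h1 := Finset.card_le_card_of_injOn (s := (Finset.univ : Finset (Fin m × Bool)))
    (t := Ms G H c) F (fun x _ => hFmem x) (fun x _ y _ h => hFinj h)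
  rw [Finset.card_univ, Fintype.card_prod, Fintype.card_fin, Fintype.card_bool] at h1
  omega

theorem part2 (hG : G.CliqueFree (r + 1)) (hA : A = nb G H w)
    (hne : ∀ i, (cl A c i).Nonempty) (hm : mis G H c = 2) :
    ∃ v1 v2 : V, c v1 ≠ c v2 ∧ cl A c (c v1) = {v1} ∧ cl A c (c v2) = {v2} ∧
    ∀ a ∈ H, ∀ b ∈ H, c a ≠ c b → (¬ G.Adj a b ↔ (a = v1 ∧ b = v2) ∨ (a = v2 ∧ b = v1)) := by
  classical
  have hAH : ∀ v ∈ A, v ∈ H := by
    intro v hv; rw [hA, mem_nb] at hv; exact hv.1
  choose g hg using hne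
  obtain ⟨i, k, hik, hadj⟩ := trans hG hA g hg
  have hgc : ∀ i, c (g i) = i := fun i => (mem_cl.1 (hg i)).2
  have hgH : ∀ i, g i ∈ H := fun i => hAH _ (mem_cl.1 (hg i)).1
  have h1 : (g i, g k) ∈ Ms G H c :=
    mem_Ms.2 ⟨hgH i, hgH k, by rw [hgc, hgc]; exact hik, hadj⟩
  have h2 : (g k, g i) ∈ Ms G H c :=
    mem_Ms.2 ⟨hgH k, hgH i, by rw [hgc, hgc]; exact hik.symm, fun h => hadj h.symm⟩
  have hne2 : (g i, g k) ≠ (g k, g i) := by
    intro h
    rw [Prod.mk.injEq] at h
    have := congrArg c h.1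
    rw [hgc, hgc] at this
    exact hik this
  have hMs : Ms G H c = {(g i, g k), (g k, g i)} := by
    symm
    apply Finset.eq_of_subset_of_card_le
    · intro x hx
      rw [Finset.mem_insert, Finset.mem_singleton] at hx
      rcases hx with rfl | rfl
      · exact h1
      · exact h2
    · rw [← mis_eq, hm, Finset.card_pair hne2]
  have hmem : ∀ a b, (a, b) ∈ Ms G H c ↔ (a = g i ∧ b = g k) ∨ (a = g k ∧ b = g i) := by
    intro a b
    rw [hMs, Finset.mem_insert, Finset.mem_singleton, Prod.mk.injEq, Prod.mk.injEq]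
  -- every choice function passes through both
  have hchoice : ∀ f : Fin r → V, (∀ l, f l ∈ cl A c l) → f i = g i ∧ f k = g k := by
    intro f hf
    obtain ⟨i', k', hik', hadj'⟩ := trans hG hA f hf
    have hfc : ∀ i, c (f i) = i := fun i => (mem_cl.1 (hf i)).2
    have hfH : ∀ i, f i ∈ H := fun i => hAH _ (mem_cl.1 (hf i)).1
    have h3 : (f i', f k') ∈ Ms G H c :=
      mem_Ms.2 ⟨hfH i', hfH k', by rw [hfc, hfc]; exact hik', hadj'⟩
    rw [hmem] at h3
    rcases h3 with ⟨e1, e2⟩ | ⟨e1, e2⟩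
    · have c1 := congrArg c e1
      have c2 := congrArg c e2
      rw [hfc, hgc] at c1 c2
      subst c1
      subst c2
      exact ⟨e1, e2⟩
    · have c1 := congrArg c e1
      have c2 := congrArg c e2
      rw [hfc, hgc] at c1 c2
      subst c1
      subst c2
      exact ⟨e2, e1⟩
  refine ⟨g i, g k, by rw [hgc, hgc]; exact hik, ?_, ?_, ?_⟩
  · rw [hgc]
    apply Finset.eq_singleton_iff_unique_mem.2
    refine ⟨hg i, fun v hv => ?_⟩
    have h3 := hchoice (Function.update g i v) (by
      intro l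
      by_cases hl : l = i
      · subst hl; rw [Function.update_self]; exact hv
      · rw [Function.update_of_ne hl]; exact hg l)
    have h4 := h3.1
    rwa [Function.update_self] at h4
  · rw [hgc]
    apply Finset.eq_singleton_iff_unique_mem.2
    refine ⟨hg k, fun v hv => ?_⟩
    have h3 := hchoice (Function.update g k v) (by
      intro l
      by_cases hl : l = k
      · subst hl; rw [Function.update_self]; exact hv
      · rw [Function.update_of_ne hl]; exact hg l)
    have h4 := h3.2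
    rwa [Function.update_self] at h4
  · intro a ha b hb hab
    rw [← hmem, mem_Ms]
    exact ⟨fun h => ⟨ha, hb, hab, h⟩, fun h => h.2.2.2⟩

end

end TRV

theorem blk_TRV : Stmt_TRV := by
  intro r hr V _ G c H A w hG _ _ hA hne
  exact ⟨TRV.part1 hr hG hA hne, TRV.part2 hG hA hne⟩

end Pool.Agent.Work.MP_5532fa_up

end

section

/-!
# MP_5532fa_co, upgrade: block GD (facts on the graphs of type D)
-/

open Finset

namespace Pool.Agent.Work.MP_5532fa_up

open MP5532fa (specRad qf pE)

namespace GD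

section
variable {V : Type} [Fintype V] {r : ℕ}

omit [Fintype V] in
theorem v1_mem {G : SimpleGraph V} {N : ℕ} {H : Finset V} {c : V → Fin r} {w : V} {A : Finset V}
    {v1 v2 : V} (h : WD G N H c w A v1 v2) : v1 ∈ A := by
  have : v1 ∈ cl A c (c v1) := by rw [h.h1]; exact mem_singleton_self _
  exact (mem_cl.mp this).1

omit [Fintype V] in
theorem v2_mem {G : SimpleGraph V} {N : ℕ} {H : Finset V} {c : V → Fin r} {w : V} {A : Finset V}
    {v1 v2 : V} (h : WD G N H c w A v1 v2) : v2 ∈ A := by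
  have : v2 ∈ cl A c (c v2) := by rw [h.h2]; exact mem_singleton_self _
  exact (mem_cl.mp this).1

omit [Fintype V] in
theorem adj_w {G : SimpleGraph V} {N : ℕ} {H : Finset V} {c : V → Fin r} {w : V} {A : Finset V}
    {v1 v2 : V} (h : WD G N H c w A v1 v2) {b : V} : G.Adj w b ↔ b ∈ A := by
  rw [h.adj]
  constructor
  · rintro (h1 | h1 | h1)
    · exact absurd h1.1 h.hw
    · exact h1.2
    · exact absurd (h.hA h1.2) h.hw
  · intro hb
    exact Or.inr (Or.inl ⟨rfl, hb⟩)

omit [Fintype V] in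
theorem adj_H {G : SimpleGraph V} {N : ℕ} {H : Finset V} {c : V → Fin r} {w : V} {A : Finset V}
    {v1 v2 : V} (h : WD G N H c w A v1 v2) {a b : V} (ha : a ≠ w) (hb : b ≠ w)
    (hab : G.Adj a b) : a ∈ H ∧ b ∈ H ∧ c a ≠ c b := by
  rw [h.adj] at hab
  rcases hab with h1 | h1 | h1
  · exact ⟨h1.1, h1.2.1, h1.2.2.1⟩
  · exact absurd h1.1 ha
  · exact absurd h1.1 hb

omit [Fintype V] in
theorem free {G : SimpleGraph V} {N : ℕ} {H : Finset V} {c : V → Fin r} {w : V} {A : Finset V}
    {v1 v2 : V} (h : WD G N H c w A v1 v2) : G.CliqueFree (r + 1) := by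
  classical
  intro s hs
  rw [SimpleGraph.isNClique_iff] at hs
  obtain ⟨hs, hc⟩ := hs
  have hinj : Set.InjOn c ((s.erase w : Finset V) : Set V) := by
    intro a ha b hb hcab
    by_contra hne
    rw [Finset.mem_coe, Finset.mem_erase] at ha hb
    have h1 := hs (Finset.mem_coe.mpr ha.2) (Finset.mem_coe.mpr hb.2) hne
    exact (adj_H h ha.1 hb.1 h1).2.2 hcab
  have hle : (s.erase w).card ≤ r := by
    have h1 := Finset.card_le_card_of_injOn (t := (univ : Finset (Fin r))) c
      (fun _ _ => Finset.mem_coe.mpr (Finset.mem_univ _)) hinj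
    rw [Finset.card_univ, Fintype.card_fin] at h1
    exact h1
  have hw : w ∈ s := by
    by_contra hw
    rw [Finset.erase_eq_of_notMem hw] at hle
    omega
  have hcard : (s.erase w).card = r := by
    rw [Finset.card_erase_of_mem hw]; omega
  have hsurj : ∀ i : Fin r, ∃ a ∈ s.erase w, c a = i := by
    intro i
    have h1 : (s.erase w).image c = univ := by
      apply Finset.eq_univ_of_card
      rw [Finset.card_image_of_injOn hinj, hcard, Fintype.card_fin]
    have h2 : i ∈ (s.erase w).image c := by rw [h1]; exact Finset.mem_univ _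
    obtain ⟨a, ha, hai⟩ := Finset.mem_image.mp h2
    exact ⟨a, ha, hai⟩
  have hA : ∀ a ∈ s.erase w, a ∈ A := by
    intro a ha
    rw [Finset.mem_erase] at ha
    exact (adj_w h).mp (hs (Finset.mem_coe.mpr hw) (Finset.mem_coe.mpr ha.2) (Ne.symm ha.1))
  obtain ⟨a, ha, hac⟩ := hsurj (c v1)
  obtain ⟨b, hb, hbc⟩ := hsurj (c v2)
  have ha1 : a = v1 := by
    have : a ∈ cl A c (c v1) := mem_cl.mpr ⟨hA a ha, hac⟩
    rw [h.h1] at this
    exact Finset.mem_singleton.mp this
  have hb1 : b = v2 := by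
    have : b ∈ cl A c (c v2) := mem_cl.mpr ⟨hA b hb, hbc⟩
    rw [h.h2] at this
    exact Finset.mem_singleton.mp this
  subst ha1
  subst hb1
  rw [Finset.mem_erase] at ha hb
  have hne : a ≠ b := fun h0 => h.h12 (by rw [h0])
  have hab := hs (Finset.mem_coe.mpr ha.2) (Finset.mem_coe.mpr hb.2) hne
  rw [h.adj] at hab
  rcases hab with h1 | h1 | h1
  · exact h1.2.2.2.1 ⟨rfl, rfl⟩
  · exact ha.1 h1.1
  · exact hb.1 h1.1

omit [Fintype V] in
theorem ncol {G : SimpleGraph V} {N : ℕ} {H : Finset V} {c : V → Fin r} {w : V} {A : Finset V}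
    {v1 v2 : V} (h : WD G N H c w A v1 v2) (h2 : ∀ i, 2 ≤ (cl H c i).card) :
    ¬ G.Colorable r := by
  classical
  rintro ⟨f⟩
  have hrep : ∀ i, ∃ p ∈ H, c p = i ∧ p ≠ v1 ∧ p ≠ v2 := by
    intro i
    by_cases hi : c v1 = i
    · have hpos : 0 < ((cl H c i).erase v1).card := by
        have := Finset.pred_card_le_card_erase (s := cl H c i) (a := v1)
        have := h2 i
        omega
      obtain ⟨p, hp⟩ := Finset.card_pos.mp hpos
      rw [Finset.mem_erase, mem_cl] at hp
      refine ⟨p, hp.2.1, hp.2.2, hp.1, ?_⟩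
      rintro rfl
      exact h.h12 (hi.trans hp.2.2.symm)
    · have hpos : 0 < ((cl H c i).erase v2).card := by
        have := Finset.pred_card_le_card_erase (s := cl H c i) (a := v2)
        have := h2 i
        omega
      obtain ⟨p, hp⟩ := Finset.card_pos.mp hpos
      rw [Finset.mem_erase, mem_cl] at hp
      refine ⟨p, hp.2.1, hp.2.2, ?_, hp.1⟩
      rintro rfl
      exact hi hp.2.2
  choose ρ hρH hρc hρ1 hρ2 using hrep
  have hadj : ∀ a ∈ H, ∀ k, k ≠ c a → G.Adj a (ρ k) := by
    intro a ha k hk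
    rw [h.adj]
    refine Or.inl ⟨ha, hρH k, ?_, fun h0 => hρ2 k h0.2, fun h0 => hρ1 k h0.2⟩
    rw [hρc k]; exact Ne.symm hk
  have hinj : Function.Injective (fun i => f (ρ i)) := by
    intro i k hik
    by_contra hne
    have h1 := hadj (ρ i) (hρH i) k (by rw [hρc i]; exact Ne.symm hne)
    exact f.valid h1 hik
  have hsurj : Function.Surjective (fun i => f (ρ i)) := Finite.surjective_of_injective hinj
  obtain ⟨i, hi⟩ := hsurj (f w)
  obtain ⟨a, ha⟩ := h.hne i
  rw [mem_cl] at ha
  obtain ⟨k, hk⟩ := hsurj (f a)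
  have hk' : k = c a := by
    by_contra hne
    exact f.valid (hadj a (h.hA ha.1) k hne) hk.symm
  have h3 : f w = f a := by
    rw [← hi, ← hk, hk', ha.2]
  exact f.valid ((adj_w h).mpr ha.1) h3

theorem sum_chi_mem (S : Finset V) : ∑ b, chi (b ∈ S) = (S.card : ℝ) := by
  classical
  have h1 : ∀ b : V, chi (b ∈ S) = if b ∈ S then (1 : ℝ) else 0 := by
    intro b
    by_cases hb : b ∈ S
    · rw [chi_pos hb, if_pos hb]
    · rw [chi_neg hb, if_neg hb]
  rw [Finset.sum_congr rfl (fun b _ => h1 b)]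
  rw [Finset.sum_ite_mem, Finset.univ_inter, Finset.sum_const, nsmul_eq_mul, mul_one]

omit [Fintype V] in
theorem chi_and (p q : Prop) : chi (p ∧ q) = chi p * chi q := by
  by_cases hp : p
  · by_cases hq : q
    · rw [chi_pos ⟨hp, hq⟩, chi_pos hp, chi_pos hq, mul_one]
    · rw [chi_neg (fun h => hq h.2), chi_neg hq, mul_zero]
  · rw [chi_neg (fun h => hp h.1), chi_neg hp, zero_mul]

omit [Fintype V] in
theorem chi_not (p : Prop) : chi (¬ p) = 1 - chi p := by
  by_cases hp : p
  · rw [chi_neg (fun h => h hp), chi_pos hp, sub_self]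
  · rw [chi_pos hp, chi_neg hp, sub_zero]

theorem sum_chi_eq (a : V) : ∑ b, chi (b = a) = (1 : ℝ) := by
  classical
  rw [Finset.sum_eq_single a]
  · exact chi_pos rfl
  · intro b _ hb; exact chi_neg hb
  · intro h0; exact absurd (Finset.mem_univ _) h0

theorem sum_cross (H : Finset V) (c : V → Fin r) :
    ∑ a, ∑ b, chi (a ∈ H ∧ b ∈ H ∧ c a ≠ c b) = (H.card : ℝ) ^ 2 - ∑ i, sz H c i ^ 2 := by
  classical
  have h1 : ∀ a b : V, chi (a ∈ H ∧ b ∈ H ∧ c a ≠ c b)
      = chi (a ∈ H) * chi (b ∈ H) - chi (a ∈ H) * chi (b ∈ cl H c (c a)) := by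
    intro a b
    rw [chi_and, chi_and, chi_not]
    have : chi (b ∈ cl H c (c a)) = chi (b ∈ H) * chi (c a = c b) := by
      rw [← chi_and]
      exact chi_congr (by rw [mem_cl]; exact ⟨fun h => ⟨h.1, h.2.symm⟩, fun h => ⟨h.1, h.2.symm⟩⟩)
    rw [this]; ring
  have h2 : ∀ a : V, ∑ b, chi (a ∈ H ∧ b ∈ H ∧ c a ≠ c b)
      = chi (a ∈ H) * (H.card : ℝ) - chi (a ∈ H) * sz H c (c a) := by
    intro a
    rw [Finset.sum_congr rfl (fun b _ => h1 a b), Finset.sum_sub_distrib, ← Finset.mul_sum,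
      ← Finset.mul_sum, sum_chi_mem, sum_chi_mem]
    rfl
  rw [Finset.sum_congr rfl (fun a _ => h2 a), Finset.sum_sub_distrib, ← Finset.sum_mul,
    sum_chi_mem]
  have h3 : ∑ a, chi (a ∈ H) * sz H c (c a) = ∑ i, sz H c i ^ 2 := by
    have h4 : ∑ a, chi (a ∈ H) * sz H c (c a) = ∑ a ∈ H, sz H c (c a) := by
      have h5 : ∀ a : V, chi (a ∈ H) * sz H c (c a) = if a ∈ H then sz H c (c a) else 0 := by
        intro b
        by_cases hb : b ∈ H
        · rw [chi_pos hb, if_pos hb, one_mul]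
        · rw [chi_neg hb, if_neg hb, zero_mul]
      rw [Finset.sum_congr rfl (fun b _ => h5 b), Finset.sum_ite_mem, Finset.univ_inter]
    rw [h4, ← sum_cl H c]
    refine Finset.sum_congr rfl fun i _ => ?_
    have h6 : ∀ v ∈ cl H c i, sz H c (c v) = sz H c i := by
      intro v hv
      rw [(mem_cl.mp hv).2]
    rw [Finset.sum_congr rfl h6, Finset.sum_const, nsmul_eq_mul, sq]
    rfl
  rw [h3]; ring

omit [Fintype V] in
theorem ad_WD {G : SimpleGraph V} {N : ℕ} {H : Finset V} {c : V → Fin r} {w : V} {A : Finset V}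
    {v1 v2 : V} (h : WD G N H c w A v1 v2) (a b : V) :
    ad G a b = chi (a ∈ H ∧ b ∈ H ∧ c a ≠ c b) + chi (a = w) * chi (b ∈ A)
      + chi (b = w) * chi (a ∈ A) - chi (a = v1) * chi (b = v2) - chi (a = v2) * chi (b = v1) := by
  have hv1 := h.hA (v1_mem h)
  have hv2 := h.hA (v2_mem h)
  have h21 : c v2 ≠ c v1 := h.h12.symm
  have hne : v1 ≠ v2 := fun h0 => h.h12 (by rw [h0])
  have hw1 : w ≠ v1 := fun h0 => h.hw (h0 ▸ hv1)
  have hw2 : w ≠ v2 := fun h0 => h.hw (h0 ▸ hv2)
  unfold ad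
  rw [← chi_and, ← chi_and, ← chi_and, ← chi_and]
  by_cases ha : a = w
  · subst ha
    have e1 : ¬ (a ∈ H ∧ b ∈ H ∧ c a ≠ c b) := fun h0 => h.hw h0.1
    have e2 : ¬ (b = a ∧ a ∈ A) := fun h0 => h.hw (h.hA h0.2)
    have e3 : ¬ (a = v1 ∧ b = v2) := fun h0 => hw1 h0.1
    have e4 : ¬ (a = v2 ∧ b = v1) := fun h0 => hw2 h0.1
    rw [chi_neg e1, chi_neg e2, chi_neg e3, chi_neg e4]
    by_cases hb : b ∈ A
    · rw [chi_pos ((adj_w h).mpr hb), chi_pos ⟨rfl, hb⟩]; ring
    · rw [chi_neg (fun h0 => hb ((adj_w h).mp h0)), chi_neg (fun h0 => hb h0.2)]; ring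
  · by_cases hb : b = w
    · subst hb
      have e1 : ¬ (a ∈ H ∧ b ∈ H ∧ c a ≠ c b) := fun h0 => h.hw h0.2.1
      have e2 : ¬ (a = b ∧ b ∈ A) := fun h0 => h.hw (h.hA h0.2)
      have e3 : ¬ (a = v1 ∧ b = v2) := fun h0 => hw2 h0.2
      have e4 : ¬ (a = v2 ∧ b = v1) := fun h0 => hw1 h0.2
      rw [chi_neg e1, chi_neg e2, chi_neg e3, chi_neg e4]
      by_cases hb : a ∈ A
      · rw [chi_pos ((adj_w h).mpr hb).symm, chi_pos ⟨rfl, hb⟩]; ring
      · rw [chi_neg (fun h0 => hb ((adj_w h).mp h0.symm)), chi_neg (fun h0 => hb h0.2)]; ring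
    · have e1 : ¬ (a = w ∧ b ∈ A) := fun h0 => ha h0.1
      have e2 : ¬ (b = w ∧ a ∈ A) := fun h0 => hb h0.1
      rw [chi_neg e1, chi_neg e2]
      by_cases h3 : a = v1 ∧ b = v2
      · have h4 : ¬ (a = v2 ∧ b = v1) := fun h0 => hne (h3.1.symm.trans h0.1)
        rw [chi_pos h3, chi_neg h4]
        obtain ⟨rfl, rfl⟩ := h3
        have h5 : ¬ G.Adj a b := by
          rw [h.adj]
          rintro (h0 | h0 | h0)
          · exact h0.2.2.2.1 ⟨rfl, rfl⟩
          · exact ha h0.1
          · exact hb h0.1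
        rw [chi_neg h5, chi_pos ⟨hv1, hv2, h.h12⟩]; ring
      · by_cases h4 : a = v2 ∧ b = v1
        · rw [chi_neg h3, chi_pos h4]
          obtain ⟨rfl, rfl⟩ := h4
          have h5 : ¬ G.Adj a b := by
            rw [h.adj]
            rintro (h0 | h0 | h0)
            · exact h0.2.2.2.2 ⟨rfl, rfl⟩
            · exact ha h0.1
            · exact hb h0.1
          rw [chi_neg h5, chi_pos ⟨hv2, hv1, h21⟩]; ring
        · rw [chi_neg h3, chi_neg h4]
          have h5 : G.Adj a b ↔ (a ∈ H ∧ b ∈ H ∧ c a ≠ c b) := by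
            rw [h.adj]
            constructor
            · rintro (h0 | h0 | h0)
              · exact ⟨h0.1, h0.2.1, h0.2.2.1⟩
              · exact absurd h0 e1
              · exact absurd h0 e2
            · intro h0
              exact Or.inl ⟨h0.1, h0.2.1, h0.2.2, h3, h4⟩
          rw [chi_congr h5]; ring

theorem cnt {G : SimpleGraph V} {N : ℕ} {H : Finset V} {c : V → Fin r} {w : V} {A : Finset V}
    {v1 v2 : V} (h : WD G N H c w A v1 v2) :
    pE G = (N : ℝ) ^ 2 - ∑ i, sz H c i ^ 2 - 2 + 2 * A.card := by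
  classical
  rw [pE_ad]
  have h1 : ∀ a : V, ∑ b, ad G a b = ∑ b, chi (a ∈ H ∧ b ∈ H ∧ c a ≠ c b)
      + chi (a = w) * (A.card : ℝ) + chi (a ∈ A) - chi (a = v1) - chi (a = v2) := by
    intro a
    rw [Finset.sum_congr rfl (fun b _ => ad_WD h a b), Finset.sum_sub_distrib,
      Finset.sum_sub_distrib, Finset.sum_add_distrib, Finset.sum_add_distrib, ← Finset.mul_sum,
      ← Finset.mul_sum, ← Finset.mul_sum, ← Finset.sum_mul, sum_chi_mem, sum_chi_eq, sum_chi_eq,
      sum_chi_eq]
    ring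
  rw [Finset.sum_congr rfl (fun a _ => h1 a), Finset.sum_sub_distrib,
      Finset.sum_sub_distrib, Finset.sum_add_distrib, Finset.sum_add_distrib, ← Finset.sum_mul,
      sum_cross, sum_chi_mem, sum_chi_eq, sum_chi_eq, sum_chi_eq, h.card]
  ring

end

end GD

theorem blk_GD : Stmt_GD := by
  classical
  intro r _ V _ G N H c w A v1 v2 h
  exact ⟨GD.free h, GD.ncol h, GD.cnt h⟩

end Pool.Agent.Work.MP_5532fa_up

end

section

/-!
# MP_5532fa_co, upgrade: block E2 (type E: placement of the neighbours of `w`)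
-/

open Finset

namespace Pool.Agent.Work.MP_5532fa_up

open MP5532fa (specRad qf pE)

namespace E2

variable {V : Type} [Fintype V] {r : ℕ}

/-- the row sums of `JE` on `H` -/
lemma JE_row {w u : V} {B H : Finset V} (hw : w ∉ H) (hu : u ∉ H) (x : V → ℝ) {v : V}
    (hv : v ∈ H) : ∑ z, JE w u B v z * x z = chi (v ∈ B) * x u := by
  classical
  have h1 : v ≠ u := by rintro rfl; exact hu hv
  have h2 : v ≠ w := by rintro rfl; exact hw hv
  have h3 : ∀ z, JE w u B v z * x z = if z = u then chi (v ∈ B) * x u else 0 := by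
    intro z
    unfold JE
    rw [chi_neg (p := v = u ∧ z ∈ B) (fun h => h1 h.1),
      chi_neg (p := v = w ∧ z = u) (fun h => h2 h.1),
      chi_neg (p := v = u ∧ z = w) (fun h => h1 h.1)]
    by_cases hz : z = u
    · rw [if_pos hz, hz, chi_congr (show (u = u ∧ v ∈ B) ↔ v ∈ B from
        ⟨fun h => h.2, fun h => ⟨rfl, h⟩⟩)]
      ring
    · rw [if_neg hz, chi_neg (p := z = u ∧ v ∈ B) (fun h => hz h.1)]
      ring
  rw [Finset.sum_congr rfl fun z _ => h3 z, Finset.sum_ite_eq' univ u, if_pos (mem_univ _)]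

/-- the sum of the row sums of `JE` over a class -/
lemma JE_cls {w u : V} {B H : Finset V} (hw : w ∉ H) (hu : u ∉ H) (hB : B ⊆ H) (c : V → Fin r)
    (x : V → ℝ) {i : Fin r} (hi : (cl B c i).card = 1) :
    ∑ v ∈ cl H c i, ∑ z, JE w u B v z * x z = x u := by
  classical
  have h1 : ∀ v ∈ cl H c i, ∑ z, JE w u B v z * x z = if v ∈ B then x u else 0 := by
    intro v hv
    rw [JE_row hw hu x (mem_cl.mp hv).1]
    by_cases h : v ∈ B
    · rw [if_pos h, chi_pos h, one_mul]
    · rw [if_neg h, chi_neg h, zero_mul]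
  rw [Finset.sum_congr rfl h1, ← Finset.sum_filter, Finset.sum_const]
  have h2 : (cl H c i).filter (fun v => v ∈ B) = cl B c i := by
    ext z
    rw [mem_filter, mem_cl, mem_cl]
    constructor
    · rintro ⟨⟨_, a⟩, b⟩; exact ⟨b, a⟩
    · rintro ⟨a, b⟩; exact ⟨⟨hB a, b⟩, a⟩
  rw [h2, hi, one_smul]

/-- equal rows -/
lemma JE_eq {w u : V} {B H : Finset V} (hw : w ∉ H) (hu : u ∉ H) {a b : V} (ha : a ∈ H)
    (hb : b ∈ H) (hab : a ∈ B ↔ b ∈ B) (z : V) : JE w u B a z = JE w u B b z := by
  have h1 : a ≠ u := by rintro rfl; exact hu ha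
  have h2 : a ≠ w := by rintro rfl; exact hw ha
  have h3 : b ≠ u := by rintro rfl; exact hu hb
  have h4 : b ≠ w := by rintro rfl; exact hw hb
  unfold JE
  rw [chi_neg (p := a = u ∧ z ∈ B) (fun h => h1 h.1),
    chi_neg (p := a = w ∧ z = u) (fun h => h2 h.1),
    chi_neg (p := a = u ∧ z = w) (fun h => h1 h.1),
    chi_neg (p := b = u ∧ z ∈ B) (fun h => h3 h.1),
    chi_neg (p := b = w ∧ z = u) (fun h => h4 h.1),
    chi_neg (p := b = u ∧ z = w) (fun h => h3 h.1),
    chi_congr (show (z = u ∧ a ∈ B) ↔ (z = u ∧ b ∈ B) from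
      ⟨fun h => ⟨h.1, hab.mp h.2⟩, fun h => ⟨h.1, hab.mpr h.2⟩⟩)]

omit [Fintype V] in
lemma sz_le {A H : Finset V} (h : A ⊆ H) (c : V → Fin r) (i : Fin r) : sz A c i ≤ sz H c i := by
  unfold sz
  have : cl A c i ⊆ cl H c i := by
    intro z hz
    rw [mem_cl] at hz ⊢
    exact ⟨h hz.1, hz.2⟩
  exact_mod_cast card_le_card this

omit [Fintype V] in
lemma cl_insert_erase [DecidableEq V] {A : Finset V} {c : V → Fin r} {a b : V} (ha : a ∈ A)
    (hb : b ∉ A) (hab : c a ≠ c b) :
    (cl (insert b (A.erase a)) c (c a)).card + 1 = (cl A c (c a)).card ∧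
    (cl (insert b (A.erase a)) c (c b)).card = (cl A c (c b)).card + 1 ∧
    ∀ i, i ≠ c a → i ≠ c b → cl (insert b (A.erase a)) c i = cl A c i := by
  refine ⟨?_, ?_, ?_⟩
  · have h1 : cl (insert b (A.erase a)) c (c a) = (cl A c (c a)).erase a := by
      ext z
      rw [mem_cl, mem_insert, mem_erase, mem_erase, mem_cl]
      constructor
      · rintro ⟨rfl | h, h2⟩
        · exact absurd h2.symm hab
        · exact ⟨h.1, h.2, h2⟩
      · rintro ⟨h1, h2, h3⟩
        exact ⟨Or.inr ⟨h1, h2⟩, h3⟩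
    rw [h1]
    exact card_erase_add_one (mem_cl.mpr ⟨ha, rfl⟩)
  · have h1 : cl (insert b (A.erase a)) c (c b) = insert b (cl A c (c b)) := by
      ext z
      rw [mem_cl, mem_insert, mem_erase, mem_insert, mem_cl]
      constructor
      · rintro ⟨rfl | h, h2⟩
        · exact Or.inl rfl
        · exact Or.inr ⟨h.2, h2⟩
      · rintro (rfl | ⟨h1, h2⟩)
        · exact ⟨Or.inl rfl, rfl⟩
        · refine ⟨Or.inr ⟨?_, h1⟩, h2⟩
          rintro rfl
          exact hab h2
    rw [h1, card_insert_of_notMem]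
    rw [mem_cl]
    rintro ⟨h2, _⟩
    exact hb h2
  · intro i hi hi'
    ext z
    rw [mem_cl, mem_insert, mem_erase, mem_cl]
    constructor
    · rintro ⟨rfl | h, h2⟩
      · exact absurd h2.symm hi'
      · exact ⟨h.2, h2⟩
    · rintro ⟨h1, h2⟩
      refine ⟨Or.inr ⟨?_, h1⟩, h2⟩
      rintro rfl
      exact hi h2.symm

end E2

end Pool.Agent.Work.MP_5532fa_up

end

section

/-! # Block D1 (helper68) -/

open Finset

namespace Pool.Agent.Work.MP_5532fa_up

open MP5532fa (specRad qf pE)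

namespace D1

variable {V : Type} [Fintype V] {r : ℕ}

omit [Fintype V] in
theorem Near.mono {δ δ' : ℝ} {N j : ℕ} {H A : Finset V} {c : V → Fin r}
    (h : Near r δ N j H A c) (hd : δ ≤ δ') : Near r δ' N j H A c := by
  have h1 : δ * (N : ℝ) ≤ δ' * N := mul_le_mul_of_nonneg_right hd (Nat.cast_nonneg N)
  exact ⟨fun i => (h.1 i).trans h1, h.2.trans h1⟩

omit [Fintype V] in
/-- class sizes after moving one vertex -/
theorem cl_move [DecidableEq V] {H : Finset V} {c : V → Fin r} {v : V} {k : Fin r} (hv : v ∈ H)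
    (hk : k ≠ c v) (i : Fin r) : ((cl H (Function.update c v k) i).card : ℤ) =
      (cl H c i).card + (if i = k then 1 else 0) - (if i = c v then 1 else 0) := by
  by_cases h1 : i = k
  · subst h1
    rw [if_pos rfl, if_neg hk]
    have : cl H (Function.update c v i) i = insert v (cl H c i) := by
      ext z
      simp only [mem_cl, Finset.mem_insert]
      by_cases hz : z = v
      · subst hz
        simp [hv]
      · rw [Function.update_of_ne hz]
        simp [hz]
    rw [this, Finset.card_insert_of_notMem (by simp [mem_cl, hk.symm])]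
    push_cast
    ring
  · rw [if_neg h1]
    by_cases h2 : i = c v
    · rw [if_pos h2]
      have : cl H c i = insert v (cl H (Function.update c v k) i) := by
        ext z
        simp only [mem_cl, Finset.mem_insert]
        by_cases hz : z = v
        · subst hz
          simp [hv, h2]
        · rw [Function.update_of_ne hz]
          simp [hz]
      rw [this, Finset.card_insert_of_notMem (by simp [mem_cl, Ne.symm h1])]
      push_cast
      ring
    · rw [if_neg h2]
      have : cl H (Function.update c v k) i = cl H c i := by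
        ext z
        simp only [mem_cl]
        by_cases hz : z = v
        · subst hz
          simp [Ne.symm h1, Ne.symm h2]
        · rw [Function.update_of_ne hz]
      rw [this]
      ring

omit [Fintype V] in
/-- sum of the squares of the class sizes after moving one vertex -/
theorem sq_move [DecidableEq V] {H : Finset V} {c : V → Fin r} {v : V} {k : Fin r} (hv : v ∈ H)
    (hk : k ≠ c v) : ∑ i, sz H (Function.update c v k) i ^ 2 =
      ∑ i, sz H c i ^ 2 + 2 * (sz H c k - sz H c (c v)) + 2 := by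
  have h1 : ∀ i, sz H (Function.update c v k) i ^ 2 = sz H c i ^ 2 +
      (if i = k then 2 * sz H c k + 1 else 0) + (if i = c v then 1 - 2 * sz H c (c v) else 0) := by
    intro i
    have h2 : sz H (Function.update c v k) i =
        sz H c i + (if i = k then 1 else 0) - (if i = c v then 1 else 0) := by
      unfold sz
      exact_mod_cast cl_move hv hk i
    rw [h2]
    by_cases h3 : i = k
    · subst h3
      rw [if_pos rfl, if_pos rfl, if_neg hk, if_neg hk]
      ring
    · rw [if_neg h3, if_neg h3]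
      by_cases h4 : i = c v
      · subst h4
        rw [if_pos rfl, if_pos rfl]
        ring
      · rw [if_neg h4, if_neg h4]
        ring
  simp only [h1, Finset.sum_add_distrib, Finset.sum_ite_eq', Finset.mem_univ, if_true]
  ring

end D1

end Pool.Agent.Work.MP_5532fa_up

end

section

/-!
# MP_5532fa_co, block GRD (helper83): greedy choice of a transversal clique
-/

set_option autoImplicit false

open Finset

namespace Pool.Agent.Work.MP_5532fa_up

theorem blk_GRD : Stmt_GRD := by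
  classical
  intro ι V _ _ G A wt κ hwt hκ hA hbig
  have hne : ∀ i, (A i).Nonempty := by
    intro i
    rw [nonempty_iff_ne_empty]
    intro h
    have h1 := hbig i
    rw [h, sum_empty] at h1
    exact absurd h1 (not_lt.mpr (mul_nonneg (Nat.cast_nonneg _) hκ))
  have key : ∀ s : Finset ι, ∃ f : ι → V, (∀ i, f i ∈ A i) ∧
      ∀ i ∈ s, ∀ k ∈ s, i ≠ k → G.Adj (f i) (f k) := by
    intro s
    induction s using Finset.induction_on with
    | empty =>
      choose f hf using hne
      exact ⟨f, hf, fun i hi => absurd hi (notMem_empty _)⟩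
    | insert a s ha ih =>
      obtain ⟨f, hf, hadj⟩ := ih
      obtain ⟨u, hu, hu2⟩ : ∃ u ∈ A a, ∀ i ∈ s, G.Adj (f i) u := by
        by_contra hcon
        push Not at hcon
        have h1 : ∑ u ∈ A a, wt u ≤ ∑ u ∈ A a, ∑ i ∈ s, chi (¬ G.Adj (f i) u) * wt u := by
          apply sum_le_sum
          intro u hu
          obtain ⟨i, hi, hi2⟩ := hcon u hu
          calc wt u = chi (¬ G.Adj (f i) u) * wt u := by rw [chi_pos hi2, one_mul]
            _ ≤ _ := single_le_sum (f := fun i => chi (¬ G.Adj (f i) u) * wt u)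
              (fun j _ => mul_nonneg (chi_nonneg _) (hwt u)) hi
        rw [sum_comm] at h1
        have h2 : ∑ i ∈ s, ∑ u ∈ A a, chi (¬ G.Adj (f i) u) * wt u ≤ ∑ i ∈ s, κ := by
          apply sum_le_sum
          intro i hi
          apply hA i a _ (f i) (hf i)
          rintro rfl
          exact ha hi
        rw [sum_const, nsmul_eq_mul] at h2
        have h3 : ((s.card : ℕ) : ℝ) * κ ≤ (Fintype.card ι : ℝ) * κ :=
          mul_le_mul_of_nonneg_right (by exact_mod_cast card_le_univ s) hκ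
        have h4 := hbig a
        linarith
      have es : ∀ i ∈ s, Function.update f a u i = f i := by
        intro i hi
        apply Function.update_of_ne
        rintro rfl
        exact ha hi
      have ea : Function.update f a u a = u := Function.update_self _ _ _
      refine ⟨Function.update f a u, ?_, ?_⟩
      · intro i
        by_cases h : i = a
        · subst h
          rw [ea]
          exact hu
        · rw [Function.update_of_ne h]
          exact hf i
      · intro i hi k hk hik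
        rcases mem_insert.mp hi with rfl | hi'
        · rcases mem_insert.mp hk with rfl | hk'
          · exact absurd rfl hik
          · rw [ea, es k hk']
            exact (hu2 k hk').symm
        · rcases mem_insert.mp hk with rfl | hk'
          · rw [ea, es i hi']
            exact hu2 i hi'
          · rw [es i hi', es k hk']
            exact hadj i hi' k hk' hik
  obtain ⟨f, hf, hadj⟩ := key univ
  exact ⟨f, hf, fun i k hik => hadj i (mem_univ _) k (mem_univ _) hik⟩

end Pool.Agent.Work.MP_5532fa_up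

end

section

/-!
# Block CSE: the eigenvalue equations of the family
-/

set_option autoImplicit false

open Finset

namespace Pool.Agent.Work.MP_5532fa_up

open MP5532fa (specRad qf pE)

namespace CSE

variable {V : Type} [Fintype V] {r : ℕ}

theorem row1 (H : Finset V) (c : V → Fin r) (x : V → ℝ) (u : V) :
    ∑ v, chi (u ∈ H ∧ v ∈ H ∧ c u ≠ c v) * x v =
      chi (u ∈ H) * (∑ v ∈ H, x v - cs x H c (c u)) := by
  classical
  by_cases hu : u ∈ H
  · rw [chi_pos hu, one_mul]
    unfold cs cl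
    rw [Finset.sum_filter, ← Finset.sum_sub_distrib, ← Finset.sum_subset (Finset.subset_univ H)]
    · refine Finset.sum_congr rfl fun v hv => ?_
      by_cases h : c v = c u
      · rw [if_pos h, chi_neg (fun h' => h'.2.2 h.symm)]
        ring
      · rw [if_neg h, chi_pos ⟨hu, hv, fun h' => h h'.symm⟩]
        ring
    · intro v _ hv
      rw [chi_neg (fun h => hv h.2.1), zero_mul]
  · rw [chi_neg hu, zero_mul]
    refine Finset.sum_eq_zero fun v _ => ?_
    rw [chi_neg (fun h => hu h.1), zero_mul]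

theorem row2 (A : Finset V) (w : V) (x : V → ℝ) (u : V) :
    ∑ v, chi (u = w ∧ v ∈ A) * x v = chi (u = w) * ∑ v ∈ A, x v := by
  classical
  by_cases hu : u = w
  · rw [chi_pos hu, one_mul, ← Finset.sum_subset (Finset.subset_univ A)]
    · refine Finset.sum_congr rfl fun v hv => ?_
      rw [chi_pos ⟨hu, hv⟩, one_mul]
    · intro v _ hv
      rw [chi_neg (fun h => hv h.2), zero_mul]
  · rw [chi_neg hu, zero_mul]
    refine Finset.sum_eq_zero fun v _ => ?_
    rw [chi_neg (fun h => hu h.1), zero_mul]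

theorem row3 (A : Finset V) (w : V) (x : V → ℝ) (u : V) :
    ∑ v, chi (v = w ∧ u ∈ A) * x v = chi (u ∈ A) * x w := by
  classical
  rw [Finset.sum_eq_single w]
  · by_cases hu : u ∈ A
    · rw [chi_pos hu, chi_pos ⟨rfl, hu⟩]
    · rw [chi_neg hu, chi_neg (fun h => hu h.2)]
  · intro v _ hv
    rw [chi_neg (fun h => hv h.1), zero_mul]
  · intro h
    exact absurd (Finset.mem_univ w) h

theorem row {G : SimpleGraph V} {H : Finset V} {c : V → Fin r} {w : V} {A : Finset V}
    {J : V → V → ℝ} {x : V → ℝ} {lam : ℝ} (hF : Fam G H c w A J) (hP : PV G x lam) (u : V) :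
    lam * x u = chi (u ∈ H) * (∑ v ∈ H, x v - cs x H c (c u)) + chi (u = w) * ∑ v ∈ A, x v
      + chi (u ∈ A) * x w + ∑ z, J u z * x z := by
  rw [← hP.eig u, ← row1 H c x u, ← row2 A w x u, ← row3 A w x u, ← Finset.sum_add_distrib,
    ← Finset.sum_add_distrib, ← Finset.sum_add_distrib]
  refine Finset.sum_congr rfl fun v _ => ?_
  rw [hF.adj u v]
  ring

end CSE

theorem blk_CSE : Stmt_CSE := by
  classical
  intro r V _ G H c w A J x lam hF hP
  have hrow := CSE.row hF hP
  have h1 : ∀ v ∈ H, lam * x v = (∑ u ∈ H, x u - cs x H c (c v)) + chi (v ∈ A) * x w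
      + ∑ z, J v z * x z := by
    intro v hv
    rw [hrow v, chi_pos hv, chi_neg (fun h : v = w => hF.hw (h ▸ hv))]
    ring
  refine ⟨h1, ?_, ?_, ?_⟩
  · intro i
    have h2 : lam * cs x H c i = ∑ v ∈ cl H c i, lam * x v := by
      unfold cs
      rw [Finset.mul_sum]
    have h3 : ∀ v ∈ cl H c i, lam * x v = (∑ u ∈ H, x u - cs x H c i) + chi (v ∈ A) * x w
        + ∑ z, J v z * x z := by
      intro v hv
      have h4 := mem_cl.1 hv
      rw [h1 v h4.1, h4.2]
    have h5 : ∑ v ∈ cl H c i, chi (v ∈ A) = sz A c i := by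
      unfold sz
      have h6 : cl A c i = (cl H c i).filter (fun v => v ∈ A) := by
        ext v
        rw [Finset.mem_filter, mem_cl, mem_cl]
        constructor
        · rintro ⟨h, h'⟩
          exact ⟨⟨hF.hA h, h'⟩, h⟩
        · rintro ⟨⟨_, h'⟩, h⟩
          exact ⟨h, h'⟩
      rw [h6, Finset.card_filter]
      push_cast
      refine Finset.sum_congr rfl fun v _ => ?_
      by_cases h : v ∈ A
      · rw [chi_pos h, if_pos h]
      · rw [chi_neg h, if_neg h]
    rw [h2, Finset.sum_congr rfl h3, Finset.sum_add_distrib, Finset.sum_add_distrib,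
      ← Finset.sum_mul, h5, Finset.sum_const, nsmul_eq_mul]
    rfl
  · have hwA : w ∉ A := fun h => hF.hw (hF.hA h)
    rw [hrow w, chi_neg hF.hw, chi_pos (rfl : w = w), chi_neg hwA]
    ring
  · intro v hv hvw
    have hvA : v ∉ A := fun h => hv (hF.hA h)
    rw [hrow v, chi_neg hv, chi_neg hvw, chi_neg hvA]
    ring

end Pool.Agent.Work.MP_5532fa_up

end

section

/-!
# MP_5532fa_co, upgrade, block EMB: realising parameters by sets
-/

open Finset

namespace Pool.Agent.Work.MP_5532fa_up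

namespace EMB

theorem card_cl_image {V : Type} [DecidableEq V] {r : ℕ} (m : Fin r → ℕ)
    (h : (Σ i, Fin (m i)) → V)
    (hinj : Function.Injective h) (c : V → Fin r) (hc : ∀ p, c (h p) = p.1) (i : Fin r) :
    (cl (univ.image h) c i).card = m i := by
  have h1 : cl (univ.image h) c i = univ.image (fun k : Fin (m i) => h ⟨i, k⟩) := by
    ext v
    rw [mem_cl, Finset.mem_image, Finset.mem_image]
    constructor
    · rintro ⟨⟨p, _, rfl⟩, hv⟩
      rw [hc] at hv
      obtain ⟨j, k⟩ := p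
      dsimp only at hv
      subst hv
      exact ⟨k, Finset.mem_univ _, rfl⟩
    · rintro ⟨k, _, rfl⟩
      exact ⟨⟨⟨i, k⟩, Finset.mem_univ _, rfl⟩, hc ⟨i, k⟩⟩
  rw [h1, Finset.card_image_of_injective]
  · simp
  · intro k k' hkk
    have := hinj hkk
    simpa using this

end EMB

theorem blk_EMB : Stmt_EMB := by
  intro r N n a V _ hr hn ha hcard
  classical
  have hc1 : Fintype.card (Option (Option (Σ i, Fin (n i)))) = N + 2 := by
    rw [Fintype.card_option, Fintype.card_option, Fintype.card_sigma]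
    simp only [Fintype.card_fin]
    omega
  obtain ⟨e⟩ := Function.Embedding.nonempty_of_card_le (hc1.trans_le hcard)
  have hg : ∃ g : (Σ i, Fin (n i)) → V, g = fun p => e (some (some p)) := ⟨_, rfl⟩
  obtain ⟨g, hg⟩ := hg
  have hginj : Function.Injective g := by
    intro p q hpq
    rw [hg] at hpq
    have := e.injective hpq
    simpa using this
  have hc : ∃ c : V → Fin r, ∀ p, c (g p) = p.1 := by
    refine ⟨fun v => if h : ∃ p, g p = v then h.choose.1 else ⟨0, by omega⟩, ?_⟩
    intro p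
    have h : ∃ q, g q = g p := ⟨p, rfl⟩
    simp only [h, dif_pos]
    rw [hginj h.choose_spec]
  obtain ⟨c, hc⟩ := hc
  have hh : ∃ h : (Σ i, Fin (a i)) → V, h = fun p => g ⟨p.1, Fin.castLE (ha p.1) p.2⟩ := ⟨_, rfl⟩
  obtain ⟨h, hh⟩ := hh
  have hhinj : Function.Injective h := by
    rintro ⟨i, k⟩ ⟨j, l⟩ hpq
    rw [hh] at hpq
    have h1 := hginj hpq
    dsimp only at h1
    have h2 := congrArg Sigma.fst h1
    dsimp only at h2
    subst h2
    rw [Sigma.mk.injEq] at h1
    have h3 := eq_of_heq h1.2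
    have h4 : k = l := by
      apply Fin.ext
      have := congrArg Fin.val h3
      simpa using this
    rw [h4]
  have hch : ∀ p, c (h p) = p.1 := by
    intro p
    rw [hh]
    exact hc _
  refine ⟨univ.image g, c, e none, e (some none), univ.image h, ?_, ?_, ?_, ?_, ?_, ?_, ?_⟩
  · intro h
    have := e.injective h
    simp at this
  · rw [Finset.mem_image]
    rintro ⟨p, _, hp⟩
    rw [hg] at hp
    have := e.injective hp
    simp at this
  · rw [Finset.mem_image]
    rintro ⟨p, _, hp⟩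
    rw [hg] at hp
    have := e.injective hp
    simp at this
  · intro v hv
    rw [Finset.mem_image] at hv ⊢
    obtain ⟨p, _, rfl⟩ := hv
    rw [hh]
    exact ⟨_, Finset.mem_univ _, rfl⟩
  · rw [Finset.card_image_of_injective _ hginj, Finset.card_univ, Fintype.card_sigma]
    simp only [Fintype.card_fin]
    exact hn
  · exact EMB.card_cl_image n g hginj c hc
  · exact EMB.card_cl_image a h hhinj c hch

end Pool.Agent.Work.MP_5532fa_up

end

section

/-!
# MP_5532fa_co, upgrade, block TRANS: moving a graph to another vertex set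
-/

open Finset

namespace Pool.Agent.Work.MP_5532fa_up

open MP5532fa (specRad qf pE)

theorem blk_TRANS : Stmt_TRANS := by
  intro V V' _ _ G hV hcard
  classical
  obtain ⟨f⟩ := Function.Embedding.nonempty_of_card_le hcard
  have hup : MP5532fa.UpToIsolated (G.map f) G := by
    refine ⟨SimpleGraph.Embedding.map f G, ?_⟩
    intro v hv w hadj
    rw [SimpleGraph.map_adj] at hadj
    obtain ⟨a, b, _, ha, _⟩ := hadj
    exact hv ⟨a, ha⟩
  refine ⟨G.map f, MP5532fa.specRad_of_upTo hup, MP5532fa.pE_of_upTo hup, ?_⟩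
  intro r hr
  refine ⟨?_, ?_⟩
  · intro hG t ht
    rw [SimpleGraph.isNClique_map_iff (by omega)] at ht
    obtain ⟨s, hs, _⟩ := ht
    exact hG s hs
  · intro hc
    exact hc.of_hom (SimpleGraph.Embedding.map f G).toHom

end Pool.Agent.Work.MP_5532fa_up

end
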