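import Mathlib
import Pool.Agent.Work.MP_5532fa_full.P01

section

/-!
# MP_5532fa_co, upgrade: the structure theorem from the blocks
-/

open Finset

namespace Pool.Agent.Work.MP_5532fa_up

open MP5532fa (specRad qf pE)

/-- the structure of the extremal graphs -/
def Stmt_STR : Prop := ∀ (r : ℕ) (ε : ℝ), 3 ≤ r → 0 < ε → ∃ (δ1 : ℝ) (N0 : ℕ), 0 < δ1 ∧
  ∀ N ≥ N0, ∀ j : ℕ, Rg r ε N j → ∀ (V : Type) [Fintype V] (G : SimpleGraph V),
    G.CliqueFree (r + 1) → ¬ G.Colorable r → MX r G → pE G = 2 * ((tn r N : ℝ) + j) →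
    al r * N + j ^ 2 / (al r * N ^ 2) - δ1 ≤ specRad G → TypeD r N j G ∨ TypeE r N j G

theorem pE_near {r N j : ℕ} (hTN : Stmt_TN) (hr : 3 ≤ r) {p : ℝ}
    (hp : p = 2 * ((tn r N : ℝ) + j)) : |p - al r * N ^ 2 - 2 * j| ≤ (r : ℝ) := by
  have h := (hTN r hr N).2.1
  have e : p - al r * N ^ 2 - 2 * j = 2 * (tn r N : ℝ) - al r * N ^ 2 := by rw [hp]; ring
  rw [e]; exact h

/-- balanced sizes and the number of edges -/
theorem sum_sq_bal {V : Type} [Fintype V] {r N : ℕ} (hTN : Stmt_TN) (hr : 3 ≤ r) {H : Finset V}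
    {c : V → Fin r} (hH : H.card = N) (hB : Bal H c) :
    2 * (tn r N : ℝ) + ∑ i, sz H c i ^ 2 = (N : ℝ) ^ 2 := by
  have h := (hTN r hr N).1 (fun i => (cl H c i).card) (by rw [sum_card_cl, hH]) hB
  have h2 : ((2 * tn r N + ∑ i, (cl H c i).card ^ 2 : ℕ) : ℝ) = ((N ^ 2 : ℕ) : ℝ) := by
    exact_mod_cast h
  push_cast at h2
  exact h2

theorem str (hFINA : Stmt_FINA) (hB1U : Stmt_B1U) (hB1C : Stmt_B1C) (hD1 : Stmt_D1)
    (hD2 : Stmt_D2) (hD3 : Stmt_D3) (hEB : Stmt_EB) (hE1 : Stmt_E1) (hE2 : Stmt_E2)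
    (hE3 : Stmt_E3) (hTN : Stmt_TN) (hGD : Stmt_GD) (hGE : Stmt_GE) : Stmt_STR := by
  classical
  intro r ε hr hε
  obtain ⟨dU, nU, dU0, HU⟩ := hB1U r ε hr hε
  obtain ⟨dC, nC, dC0, HC⟩ := hB1C r ε hr hε
  obtain ⟨d1, n1, d10, HD1⟩ := hD1 r ε hr hε
  obtain ⟨d2, n2, d20, HD2⟩ := hD2 r ε hr hε
  obtain ⟨d3, n3, d30, HD3⟩ := hD3 r ε hr hε
  obtain ⟨dB, nB, dB0, HEB⟩ := hEB r ε hr hε
  obtain ⟨e1, m1, e10, HE1⟩ := hE1 r ε hr hε
  obtain ⟨e2, m2, e20, HE2⟩ := hE2 r ε hr hε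
  obtain ⟨e3, m3, e30, HE3⟩ := hE3 r ε hr hε
  set δ : ℝ := min (min (min (min dU dC) (min d1 d2)) (min (min d3 dB) (min e1 e2))) e3 with hδ
  have hδ0 : 0 < δ := by
    rw [hδ]
    repeat' apply lt_min
    all_goals assumption
  have hle : δ ≤ dU ∧ δ ≤ dC ∧ δ ≤ d1 ∧ δ ≤ d2 ∧ δ ≤ d3 ∧ δ ≤ dB ∧ δ ≤ e1 ∧ δ ≤ e2 ∧ δ ≤ e3 := by
    rw [hδ]
    refine ⟨?_, ?_, ?_, ?_, ?_, ?_, ?_, ?_, ?_⟩ <;> simp [min_le_iff]
  obtain ⟨lU, lC, l1, l2, l3, lB, k1, k2, k3⟩ := hle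
  obtain ⟨δ1, nF, hδ1, HF⟩ := hFINA r ε δ hr hε hδ0
  refine ⟨δ1, nF + nU + nC + n1 + n2 + n3 + nB + m1 + m2 + m3, hδ1, ?_⟩
  intro N hN j hRg V _ G hfree hcol hMX hpE hlam
  have hV : Nonempty V := by
    by_contra h
    rw [not_nonempty_iff] at h
    exact hcol (SimpleGraph.Colorable.of_isEmpty _)
  obtain ⟨x, hx⟩ := exists_PV G
  obtain ⟨c, H, w, hFD⟩ := HF N (by omega) j hRg V G x (specRad G) hfree hx
    (pE_near hTN hr hpE) hlam
  have hFDm : ∀ d, δ ≤ d → FD r d N j G x (specRad G) c H w := by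
    intro d hd
    have hN0 : (0:ℝ) ≤ N := Nat.cast_nonneg N
    have hm : δ * N ≤ d * N := mul_le_mul_of_nonneg_right hd hN0
    exact
      { pv := hFD.pv, card := hFD.card, hw := hFD.hw, ind := hFD.ind
        mis := hFD.mis.trans hm
        bal := fun i => (hFD.bal i).trans hm
        deg := hFD.deg.trans hm
        rest := hFD.rest.trans hm
        xH := fun v hv => (hFD.xH v hv).trans hd
        xw := hFD.xw.trans hd
        xo := fun v hv hvw => (hFD.xo v hv hvw).trans hd }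
  have hNear : ∀ d, δ ≤ d → Near r d N j H (nb G H w) c := fun d hd =>
    ⟨(hFDm d hd).bal, (hFDm d hd).deg⟩
  by_cases hU : ∀ i, (cl (nb G H w) c i).Nonempty
  · left
    obtain ⟨v1, v2, hWD⟩ := HU N (by omega) j hRg V G x _ c H w (hFDm dU lU) hfree hMX hU
    have hBal := HD1 N (by omega) j hRg V G H c w _ v1 v2 hWD (hNear d1 l1) hMX
    have hPl := HD2 N (by omega) j hRg V G H c w _ v1 v2 hWD (hNear d2 l2) hBal hMX
    have hTop := HD3 N (by omega) j hRg V G H c w _ v1 v2 hWD (hNear d3 l3) hBal hPl hMX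
    refine ⟨H, c, w, nb G H w, v1, v2, hWD, ?_, hBal, hPl, hTop⟩
    have h1 := (hGD r hr V G N H c w _ v1 v2 hWD).2.2
    have h2 := sum_sq_bal hTN hr hWD.card hBal
    have h3 : ((nb G H w).card : ℝ) = ((j + 1 : ℕ) : ℝ) := by
      push_cast
      rw [hpE] at h1
      linarith
    exact_mod_cast h3
  · right
    push Not at hU
    obtain ⟨i0, hi0⟩ := hU
    obtain ⟨u, B, i1, hWE⟩ := HC N (by omega) j hRg V G x _ c H w i0 (hFDm dC lC) hfree hcol hMX hi0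
    have hOne := HEB N (by omega) j hRg V G H c w u _ B i1 hWE (hNear dB lB) hMX
    have hBal := HE1 N (by omega) j hRg V G H c w u _ B i1 hWE (hNear e1 k1) hMX
    have hPl := HE2 N (by omega) j hRg V G H c w u _ B i1 hWE (hNear e2 k2) hOne hBal hMX
    have hTop := HE3 N (by omega) j hRg V G H c w u _ B i1 hWE (hNear e3 k3) hOne hBal hPl hMX
    refine ⟨H, c, w, u, nb G H w, B, i1, hWE, hOne, ?_, hBal, hPl, hTop⟩
    have h1 := (hGE r hr V G N H c w u _ B i1 hWE).2.2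
    have h2 := sum_sq_bal hTN hr hWE.card hBal
    have h3 : (((nb G H w).card + r : ℕ) : ℝ) = (j : ℝ) := by
      push_cast
      rw [hpE] at h1
      linarith
    exact_mod_cast h3

end Pool.Agent.Work.MP_5532fa_up

end

section

/-!
# MP_5532fa_co, upgrade: the asymptotic theorem for all numbers of edges
-/

open Finset

namespace Pool.Agent.Work.MP_5532fa_up

open MP5532fa (specRad qf pE)

/-- the second order term -/
noncomputable def sec (r : ℕ) (N j : ℕ) : ℝ :=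
  al r * ((1 - j / (al r * N)) * min (j / (al r * N)) (1 - 2 / r))

/-- comparison of `√(2 al m)` with `al N + j/N` -/
theorem rho_near {r : ℕ} (hr : 3 ≤ r) {N j : ℕ} (hN : 4 * (r : ℝ) ≤ N)
    (hj : (j : ℝ) ≤ al r * N) {p : ℝ} (hp : |p - al r * N ^ 2 - 2 * j| ≤ (r : ℝ)) :
    |√(al r * p) - (al r * N + j / N)| ≤ 2 * r / N := by
  have hal := al_ge hr
  have hal1 := al_lt hr
  have hrr : (3 : ℝ) ≤ r := by exact_mod_cast hr
  have hN0 : (0:ℝ) < N := by linarith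
  have hj0 : (0:ℝ) ≤ j := Nat.cast_nonneg j
  have hjN : (j : ℝ) / N ≤ 1 := by
    rw [div_le_one hN0]; nlinarith
  have hjN0 : 0 ≤ (j : ℝ) / N := by positivity
  obtain ⟨p1, p2⟩ := abs_le.mp hp
  have hp0 : 0 ≤ p := by nlinarith
  set a := al r * N + (j : ℝ) / N with ha
  have ha0 : 2 / 3 * N ≤ a := by rw [ha]; nlinarith
  have hs0 : 0 ≤ √(al r * p) := Real.sqrt_nonneg _
  have hsq : √(al r * p) ^ 2 = al r * p := Real.sq_sqrt (by positivity)
  have ha2 : a ^ 2 = al r ^ 2 * N ^ 2 + 2 * al r * j + (j / N) ^ 2 := by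
    rw [ha]; field_simp; ring
  have h1 : |al r * p - a ^ 2| ≤ r + 1 := by
    rw [ha2]
    have h2 : (j / N : ℝ) ^ 2 ≤ 1 := by nlinarith
    have h3 : 0 ≤ (j / N : ℝ) ^ 2 := sq_nonneg _
    rw [abs_le]
    constructor <;> nlinarith
  have h2 : (√(al r * p) - a) * (√(al r * p) + a) = al r * p - a ^ 2 := by
    have h0 : (√(al r * p) - a) * (√(al r * p) + a) = √(al r * p) ^ 2 - a ^ 2 := by ring
    rw [h0, hsq]
  have h3 : |√(al r * p) - a| * (√(al r * p) + a) ≤ r + 1 := by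
    rw [← abs_of_nonneg (by linarith : 0 ≤ √(al r * p) + a), ← abs_mul, h2]
    exact h1
  rw [le_div_iff₀ hN0]
  have h4 : |√(al r * p) - a| * (2 / 3 * N) ≤ r + 1 := by
    refine le_trans (mul_le_mul_of_nonneg_left ?_ (abs_nonneg _)) h3
    linarith
  nlinarith [abs_nonneg (√(al r * p) - a)]

/-- the theorem for all numbers of edges -/
theorem main_all (hUPX : Stmt_UPX) (hLOWX : Stmt_LOWX) (hTN : Stmt_TN) (r : ℕ) (ε : ℝ)
    (hr : 3 ≤ r) (hε : 0 < ε) : ∃ m0 : ℕ, ∀ m ≥ m0, ∀ N j : ℕ, m = tn r N + j →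
      m < tn r (N + 1) →
      (∀ (V : Type) [Fintype V] (G : SimpleGraph V), G.CliqueFree (r + 1) →
        pE G = 2 * (m : ℝ) → specRad G ≤ √(2 * al r * m) - sec r N j + ε) ∧
      ∃ G : SimpleGraph (Fin (N + 3)), G.CliqueFree (r + 1) ∧ ¬ G.Colorable r ∧
        pE G = 2 * (m : ℝ) ∧ √(2 * al r * m) - sec r N j - ε ≤ specRad G := by
  obtain ⟨n1, H1⟩ := hUPX r (ε / 2) hr (by linarith)
  obtain ⟨n2, H2⟩ := hLOWX r (ε / 2) hr (by linarith)
  have hrr : (3 : ℝ) ≤ r := by exact_mod_cast hr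
  obtain ⟨n3, hn3⟩ := exists_nat_gt (4 * (r : ℝ) / ε + 4 * r)
  set M := n1 + n2 + n3 + 1 with hM
  refine ⟨M ^ 2 + 1, ?_⟩
  intro m hm N j hmj hlt
  have hTNN := hTN r hr N
  have hjN : j + N / r < N := by
    have := hTNN.2.2
    omega
  -- N is large
  have hNM : M ≤ N := by
    by_contra h
    push Not at h
    have h1 : 2 * tn r (N + 1) ≤ (N + 1) ^ 2 := by
      have hN1 : Nonempty (Fin r) := ⟨⟨0, by omega⟩⟩
      have h3 := (hTN r hr (N + 1)).2.1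
      have h4 := (abs_le.mp h3).2
      have hal1 := al_lt hr
      have hal := al_ge hr
      by_contra hc
      push Not at hc
      -- use the exact formula with some balanced sizes
      have h5 := (hTN r hr (N + 1)).1
        (fun i => (N + 1 + i.val) / r) ?_ ?_
      · omega
      · -- Hermite identity
        have : ∀ n : ℕ, ∑ i : Fin r, (n + i.val) / r = n := by
          intro n
          induction n with
          | zero =>
            refine Finset.sum_eq_zero fun i _ => ?_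
            rw [Nat.zero_add]
            exact Nat.div_eq_of_lt i.2
          | succ n ih =>
            rw [Fin.sum_univ_eq_sum_range (fun i => (n + 1 + i) / r) r]
            rw [Fin.sum_univ_eq_sum_range (fun i => (n + i) / r) r] at ih
            obtain ⟨q, hq⟩ : ∃ q, r = q + 1 := ⟨r - 1, by omega⟩
            rw [hq] at ih ⊢
            rw [Finset.sum_range_succ] 
            rw [Finset.sum_range_succ'] at ih
            have e1 : ∀ i, (n + 1 + i) / (q + 1) = (n + (i + 1)) / (q + 1) := by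
              intro i; congr 1; omega
            simp only [e1]
            have e2 : (n + (q + 1)) / (q + 1) = n / (q + 1) + 1 := by
              rw [Nat.add_div_right _ (by omega)]
            rw [e2]
            simp only [Nat.add_zero, Nat.zero_add, Nat.add_assoc] at ih ⊢
            omega
        exact this (N + 1)
      · intro i k
        have h6 : (N + 1 + i.val) / r ≤ (N + 1 + k.val + r) / r := by
          apply Nat.div_le_div_right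
          have := i.2
          omega
        rw [Nat.add_div_right _ (by omega)] at h6
        exact h6
    have h2 : N + 1 ≤ M := h
    have h3 : (N + 1) ^ 2 ≤ M ^ 2 := Nat.pow_le_pow_left h2 2
    omega
  have hj : (j : ℝ) ≤ al r * N := by
    have h1 : ((j + N / r + 1 : ℕ) : ℝ) ≤ (N : ℝ) := by exact_mod_cast hjN
    push_cast at h1
    have h2 : (N : ℝ) / r - 1 ≤ ((N / r : ℕ) : ℝ) := by
      have h3 : N < r * (N / r + 1) := Nat.lt_mul_div_succ N (by omega)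
      have h4 : (N : ℝ) < r * (((N / r : ℕ) : ℝ) + 1) := by exact_mod_cast h3
      rw [sub_le_iff_le_add, div_le_iff₀ (by linarith)]
      nlinarith
    unfold al
    have e : (1 - 1 / (r:ℝ)) * N = N - N / r := by ring
    rw [e]; linarith
  have hNr : 4 * (r : ℝ) / ε + 4 * r < N := by
    refine lt_of_lt_of_le hn3 ?_
    exact_mod_cast (by omega : n3 ≤ N)
  have hpos : 0 < 4 * (r : ℝ) / ε := by positivity
  have hN0 : (0:ℝ) < N := by linarith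
  have hp : |2 * (m : ℝ) - al r * N ^ 2 - 2 * j| ≤ (r : ℝ) :=
    pE_near hTN hr (by rw [hmj]; push_cast; ring)
  have hrho := rho_near hr (by linarith) hj hp
  have e1 : al r * (2 * (m : ℝ)) = 2 * al r * m := by ring
  rw [e1] at hrho
  have hsm : 2 * (r : ℝ) / N ≤ ε / 2 := by
    rw [div_le_iff₀ hN0]
    have : 4 * (r : ℝ) / ε < N := by linarith
    rw [div_lt_iff₀ hε] at this
    nlinarith
  obtain ⟨r1, r2⟩ := abs_le.mp hrho
  constructor
  · intro V _ G hfree hpE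
    by_cases hV : Nonempty V
    · have h := H1 N (by omega) j hj V G hV hfree (by rw [hpE]; exact hp)
      unfold sec
      linarith
    · rw [not_nonempty_iff] at hV
      exfalso
      have h1 : pE G = 0 := by rw [pE_ad]; simp
      rw [h1] at hpE
      have h2 : (m : ℝ) = 0 := by linarith
      have h3 : m = 0 := by exact_mod_cast h2
      omega
  · obtain ⟨G, a, b, c, d⟩ := H2 N (by omega) j hj
    refine ⟨G, a, b, by rw [c, hmj]; push_cast; ring, ?_⟩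
    unfold sec
    linarith

end Pool.Agent.Work.MP_5532fa_up

end

section

/-!
# MP_5532fa_co, upgrade: the structure of all extremal graphs
-/

open Finset

namespace Pool.Agent.Work.MP_5532fa_up

open MP5532fa (specRad qf pE)

theorem C0.mono {V : Type} [Fintype V] {r : ℕ} {δ δ' : ℝ} {N : ℕ} {G : SimpleGraph V}
    {c : V → Fin r} {H : Finset V} (h : C0 r δ N G c H) (hd : δ ≤ δ') : C0 r δ' N G c H :=
  have hm : δ * N ≤ δ' * N := mul_le_mul_of_nonneg_right hd (Nat.cast_nonneg N)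
  { card := h.card, ind := h.ind, mis := h.mis.trans hm, bal := fun i => (h.bal i).trans hm
    eo := h.eo.trans hm }

theorem FD.mono {V : Type} [Fintype V] {r : ℕ} {δ d : ℝ} {N j : ℕ} {G : SimpleGraph V}
    {x : V → ℝ} {lam : ℝ} {c : V → Fin r} {H : Finset V} {w : V}
    (hFD : FD r δ N j G x lam c H w) (hd : δ ≤ d) : FD r d N j G x lam c H w :=
  have hm : δ * N ≤ d * N := mul_le_mul_of_nonneg_right hd (Nat.cast_nonneg N)
  { pv := hFD.pv, card := hFD.card, hw := hFD.hw, ind := hFD.ind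
    mis := hFD.mis.trans hm
    bal := fun i => (hFD.bal i).trans hm
    deg := hFD.deg.trans hm
    rest := hFD.rest.trans hm
    xH := fun v hv => (hFD.xH v hv).trans hd
    xw := hFD.xw.trans hd
    xo := fun v hv hvw => (hFD.xo v hv hvw).trans hd }

/-- the three types -/
def Stmt_SM : Prop := ∀ (r : ℕ), 3 ≤ r → ∃ (δ : ℝ) (N0 : ℕ), 0 < δ ∧ ∀ N ≥ N0,
  ∀ (V : Type) [Fintype V] (G : SimpleGraph V) (c : V → Fin r) (H : Finset V),
    C0 r δ N G c H → G.CliqueFree (r + 1) → ¬ G.Colorable r → MX r G →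
    (∃ (w : V) (A : Finset V) (v1 v2 : V), WD G N H c w A v1 v2) ∨
    (∃ (w u : V) (A B : Finset V) (i0 : Fin r), WE G N H c w u A B i0) ∨
    (∃ (w : V) (T : Finset V), WF G N H c w T)

theorem sm (h0 : Stmt_SM0) (h1a : Stmt_SM1a) (h1b : Stmt_SM1b) (h1c : Stmt_SM1c)
    (h2 : Stmt_SM2) : Stmt_SM := by
  classical
  intro r hr
  obtain ⟨d0, n0, hd0, H0⟩ := h0 r hr
  obtain ⟨da, na, hda, Ha⟩ := h1a r hr
  obtain ⟨db, nb', hdb, Hb⟩ := h1b r hr
  obtain ⟨dc, nc, hdc, Hc⟩ := h1c r hr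
  obtain ⟨d2, n2, hd2, H2⟩ := h2 r hr
  refine ⟨min (min (min d0 da) (min db dc)) d2, n0 + na + nb' + nc + n2, ?_, ?_⟩
  · repeat' apply lt_min
    all_goals assumption
  intro N hN V _ G c H hC hfree hcol hMX
  have l0 : min (min (min d0 da) (min db dc)) d2 ≤ d0 := by simp [min_le_iff]
  have la : min (min (min d0 da) (min db dc)) d2 ≤ da := by simp [min_le_iff]
  have lb : min (min (min d0 da) (min db dc)) d2 ≤ db := by simp [min_le_iff]
  have lc : min (min (min d0 da) (min db dc)) d2 ≤ dc := by simp [min_le_iff]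
  have l2 : min (min (min d0 da) (min db dc)) d2 ≤ d2 := min_le_right _ _
  by_cases hm : mis G H c = 0
  · right; left
    exact H0 N (by omega) V G c H (hC.mono l0) hfree hcol hMX hm
  -- there is a vertex outside
  obtain ⟨v0, hv0⟩ : ∃ v0, v0 ∉ H := by
    by_contra hno
    push Not at hno
    apply hcol
    exact ⟨SimpleGraph.Coloring.mk c fun {a b} hab h => hC.ind a (hno a) b (hno b) h hab⟩
  obtain ⟨w, hw, hmax⟩ := Finset.exists_max_image (out H) (fun v => dg G H v)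
    ⟨v0, mem_out.mpr hv0⟩
  have hw' := mem_out.mp hw
  have hmax' : ∀ v, v ∉ H → dg G H v ≤ dg G H w := fun v hv => hmax v (mem_out.mpr hv)
  rcases Nat.lt_or_ge (2 * ∑ v ∈ out H, dg G H v + eu G H + 2) (2 * r + mis G H c) with h | h
  · right; right
    exact H2 N (by omega) V G c H (hC.mono l2) hfree hcol hMX h
  · left
    have hall : ∀ i, (cl (nb G H w) c i).Nonempty := by
      by_contra hno
      push Not at hno
      obtain ⟨i0, hi0⟩ := hno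
      rcases Nat.lt_or_ge (2 * ∑ v ∈ out H, dg G H v + eu G H + 2) (4 * r + mis G H c) with h3 | h3
      · exact Hc N (by omega) V G c H w i0 (hC.mono lc) hfree hcol hMX (Nat.pos_of_ne_zero hm) h h3
          hw' hmax' hi0
      · exact Ha N (by omega) V G c H w i0 (hC.mono la) hfree hcol hMX (Nat.pos_of_ne_zero hm) h3
          hw' hmax' hi0
    obtain ⟨v1, v2, hWD⟩ := Hb N (by omega) V G c H w (hC.mono lb) hfree hMX h hw' hmax' hall
    exact ⟨w, _, v1, v2, hWD⟩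

/-- bound for the Turan numbers -/
theorem tn_sq {r : ℕ} (hTN : Stmt_TN) (hr : 3 ≤ r) (N : ℕ) : 2 * tn r N ≤ N ^ 2 := by
  have h5 := (hTN r hr N).1 (fun i => (N + i.val) / r) ?_ ?_
  · omega
  · have : ∀ n : ℕ, ∑ i : Fin r, (n + i.val) / r = n := by
      intro n
      induction n with
      | zero =>
        refine Finset.sum_eq_zero fun i _ => ?_
        rw [Nat.zero_add]
        exact Nat.div_eq_of_lt i.2
      | succ n ih =>
        rw [Fin.sum_univ_eq_sum_range (fun i => (n + 1 + i) / r) r]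
        rw [Fin.sum_univ_eq_sum_range (fun i => (n + i) / r) r] at ih
        obtain ⟨q, hq⟩ : ∃ q, r = q + 1 := ⟨r - 1, by omega⟩
        rw [hq] at ih ⊢
        rw [Finset.sum_range_succ]
        rw [Finset.sum_range_succ'] at ih
        have e1 : ∀ i, (n + 1 + i) / (q + 1) = (n + (i + 1)) / (q + 1) := by
          intro i; congr 1; omega
        simp only [e1]
        have e2 : (n + (q + 1)) / (q + 1) = n / (q + 1) + 1 := by
          rw [Nat.add_div_right _ (by omega)]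
        rw [e2]
        simp only [Nat.add_zero, Nat.zero_add, Nat.add_assoc] at ih ⊢
        omega
    exact this N
  · intro i k
    have h6 : (N + i.val) / r ≤ (N + k.val + r) / r := by
      apply Nat.div_le_div_right
      have := i.2
      omega
    rw [Nat.add_div_right _ (by omega)] at h6
    exact h6

/-- for large `m` the number `N` is large -/
theorem large_N {r : ℕ} (hTN : Stmt_TN) (hr : 3 ≤ r) (M : ℕ) {m : ℕ} (hm : M ^ 2 + 1 ≤ m)
    {N : ℕ} (hlt : m < tn r (N + 1)) : M ≤ N := by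
  by_contra h
  push Not at h
  have h1 := tn_sq hTN hr (N + 1)
  have h3 : (N + 1) ^ 2 ≤ M ^ 2 := Nat.pow_le_pow_left h 2
  omega

/-- `j` is at most `al r * N` -/
theorem j_le {r : ℕ} (hTN : Stmt_TN) (hr : 3 ≤ r) {m N j : ℕ} (hmj : m = tn r N + j)
    (hlt : m < tn r (N + 1)) : (j : ℝ) ≤ al r * N := by
  have hTNN := hTN r hr N
  have hrr : (3 : ℝ) ≤ r := by exact_mod_cast hr
  have hjN : j + N / r < N := by
    have := hTNN.2.2
    omega
  have h1 : ((j + N / r + 1 : ℕ) : ℝ) ≤ (N : ℝ) := by exact_mod_cast hjN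
  push_cast at h1
  have h2 : (N : ℝ) / r - 1 ≤ ((N / r : ℕ) : ℝ) := by
    have h3 : N < r * (N / r + 1) := Nat.lt_mul_div_succ N (by omega)
    have h4 : (N : ℝ) < r * (((N / r : ℕ) : ℝ) + 1) := by exact_mod_cast h3
    rw [sub_le_iff_le_add, div_le_iff₀ (by linarith)]
    nlinarith
  unfold al
  have e : (1 - 1 / (r:ℝ)) * N = N - N / r := by ring
  rw [e]; linarith

/-- every number is between two consecutive Turan numbers -/
theorem exists_N {r : ℕ} (hTN : Stmt_TN) (hr : 3 ≤ r) (m : ℕ) :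
    ∃ N j : ℕ, m = tn r N + j ∧ m < tn r (N + 1) := by
  classical
  have hstep : ∀ N, 2 ≤ N → tn r N + 1 ≤ tn r (N + 1) := by
    intro N hN
    have h := (hTN r hr N).2.2
    have h2 : N / r ≤ N / 2 := Nat.div_le_div_left (by omega) (by norm_num)
    omega
  have hmono : ∀ N, tn r N ≤ tn r (N + 1) := by
    intro N
    have h := (hTN r hr N).2.2
    have h2 : N / r ≤ N := Nat.div_le_self _ _
    omega
  have hgrow : ∀ k, k ≤ tn r (k + 2) := by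
    intro k
    induction k with
    | zero => omega
    | succ k ih =>
      have := hstep (k + 2) (by omega)
      have e : k + 1 + 2 = k + 2 + 1 := by omega
      rw [e]
      omega
  have hex : ∃ N, m < tn r (N + 1) := ⟨m + 2, by
    have := hgrow (m + 1)
    exact this⟩
  have hfind := Nat.find_spec hex
  have h0 : tn r 0 = 0 := by
    have := tn_sq hTN hr 0
    omega
  have hle : tn r (Nat.find hex) ≤ m := by
    rcases Nat.eq_zero_or_pos (Nat.find hex) with h | h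
    · rw [h, h0]; omega
    · have := Nat.find_min hex (m := Nat.find hex - 1) (by omega)
      rw [Nat.sub_add_cancel h] at this
      omega
  exact ⟨Nat.find hex, m - tn r (Nat.find hex), by omega, hfind⟩

end Pool.Agent.Work.MP_5532fa_up

end

section

/-!
# MP_5532fa_co, upgrade, fourth round: gadgets over complete multipartite graphs
-/

open Finset

namespace Pool.Agent.Work.MP_5532fa_up

open MP5532fa (specRad qf pE)

/-! ## definitions -/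

/-- moments of the deviations from the mean `n / r` -/
noncomputable def mo {r : ℕ} (k n : ℕ) (y : Fin r → ℝ) : ℝ := ∑ i, (y i - n / r) ^ k

/-- a vector of natural numbers as a real vector -/
def re {r : ℕ} (y : Fin r → ℕ) : Fin r → ℝ := fun i => (y i : ℝ)

/-- the secular function of a complete multipartite graph -/
noncomputable def Ph {r : ℕ} (y : Fin r → ℝ) (lam : ℝ) : ℝ := ∑ i, y i / (lam + y i) - 1

/-- the entry `y i1` is at least as large as every entry of every integer vector with the same sum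
and at most the same sum of squares -/
def Top1 {r : ℕ} (y : Fin r → ℕ) (i1 : Fin r) : Prop :=
  ∀ z : Fin r → ℤ, ∑ i, z i = ∑ i, (y i : ℤ) → ∑ i, z i ^ 2 ≤ ∑ i, (y i : ℤ) ^ 2 →
    ∀ i, z i ≤ y i1

/-- no vector of class sizes beats `y` too much in the higher moments -/
def Good (r : ℕ) (η C : ℝ) (n : ℕ) (y : Fin r → ℕ) : Prop :=
  ∀ z : Fin r → ℕ, ∑ i, z i = n → mo 2 n (re z) ≤ 4 * r * n →
    mo 3 n (re z) + (mo 4 n (re y) - mo 4 n (re z)) / n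
      ≤ mo 3 n (re y) + η * n + C * √(n : ℝ) * |mo 2 n (re z) - mo 2 n (re y)|
        + (2 - 4 * η) * n * chi (mo 2 n (re y) < mo 2 n (re z))

/-! ## number theory -/

/-- numbers `3 mod 8` are sums of three squares -/
def Stmt_TSQ : Prop := ∀ n : ℕ, n % 8 = 3 → ∃ a b c : ℕ, n = a ^ 2 + b ^ 2 + c ^ 2

/-- first part: the auxiliary prime -/
def Stmt_TSA : Prop := ∀ n : ℕ, Squarefree n → n % 8 = 3 → ∃ (q : ℕ) (b h t : ℤ), q.Prime ∧
  q % 4 = 1 ∧ Nat.Coprime q n ∧ b ^ 2 - 4 * q * h = -n ∧ (n : ℤ) ∣ 2 * q * t ^ 2 + 1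

/-- second part: geometry of numbers -/
def Stmt_TSB : Prop := ∀ (n q : ℕ) (b h t : ℤ), 0 < n → 0 < q → b ^ 2 - 4 * q * h = -n →
  ∃ x y z : ℤ, ¬ (x = 0 ∧ y = 0 ∧ z = 0) ∧
    (2 * t * q * x + t * b * y + n * z) ^ 2 + 2 * (q * x ^ 2 + b * x * y + h * y ^ 2) < 2 * n

/-- third part: the number `2 v` is a sum of two squares -/
def Stmt_TSC : Prop := ∀ (n q : ℕ) (b h t x y R : ℤ) (v : ℕ), Squarefree n → n % 8 = 3 →
  q.Prime → q % 4 = 1 → Nat.Coprime q n → b ^ 2 - 4 * q * h = -n →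
  (n : ℤ) ∣ 2 * q * t ^ 2 + 1 → (v : ℤ) = q * x ^ 2 + b * x * y + h * y ^ 2 →
  (n : ℤ) = R ^ 2 + 2 * v → ∃ a c : ℕ, 2 * v = a ^ 2 + c ^ 2

/-- vectors of length at least five with given sum and sum of squares -/
def Stmt_REPL : Prop := ∀ (l : ℕ), 5 ≤ l → ∀ (M S : ℤ),
  (∃ y : Fin l → ℤ, ∑ i, y i = M ∧ ∑ i, y i ^ 2 ≤ S) → Even (S - M) →
  ∃ y : Fin l → ℤ, ∑ i, y i = M ∧ ∑ i, y i ^ 2 = S

/-- in addition the largest entry is as large as possible -/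
def Stmt_REP : Prop := ∀ (r : ℕ), 6 ≤ r → ∀ (M S : ℤ),
  (∃ y : Fin r → ℤ, ∑ i, y i = M ∧ ∑ i, y i ^ 2 ≤ S) → Even (S - M) →
  ∃ (y : Fin r → ℤ) (i1 : Fin r), ∑ i, y i = M ∧ ∑ i, y i ^ 2 = S ∧
    ∀ z : Fin r → ℤ, ∑ i, z i = M → ∑ i, z i ^ 2 ≤ S → ∀ i, z i ≤ y i1

/-! ## inequalities for moments -/

/-- third and fourth moments of a vector with sum zero -/
def Stmt_CU1 : Prop := ∀ (r : ℕ), 3 ≤ r → ∀ (d : Fin r → ℝ) (R : ℝ), ∑ i, d i = 0 →
  ∑ i, d i ^ 2 = R →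
  (∀ i, d i ^ 2 * (r / (r - 1)) ≤ R) ∧
  (∀ i (σ : ℝ), 0 ≤ σ → σ ^ 2 = R - d i ^ 2 * (r / (r - 1)) →
    |∑ k, d k ^ 3 - (d i ^ 3 * (r * (r + 1) / (r - 1) ^ 2) - 3 * d i * R / (r - 1))| ≤ σ ^ 3 ∧
    ∑ k, d k ^ 4 ≤ d i ^ 4 * (1 + 1 / (r - 1) ^ 3) + 6 * d i ^ 2 * σ ^ 2 / (r - 1) ^ 2
      + 4 * |d i| * σ ^ 3 / (r - 1) + σ ^ 4) ∧
  (∀ i, d i ^ 4 * (1 + 1 / ((r : ℝ) - 1) ^ 3) ≤ ∑ k, d k ^ 4) ∧
  (∀ D : ℝ, 0 < D → (∀ i, d i ≤ D) → ∑ k, d k ^ 3 ≤ D * R - R ^ 2 / (r * D)) ∧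
  |∑ k, d k ^ 3| ≤ R * √R ∧ ∑ k, d k ^ 4 ≤ R ^ 2

/-- comparison of the higher moments with those of an almost extremal vector -/
def Stmt_CUB : Prop := ∀ (r : ℕ) (ρ η : ℝ), 3 ≤ r → 0 < ρ → 0 < η → ∃ (C : ℝ) (n0 : ℕ), 0 < C ∧
  ∀ n : ℕ, n0 ≤ n → ∀ (d d' : Fin r → ℝ) (R R' k : ℝ) (i1 : Fin r),
  ∑ i, d i = 0 → ∑ i, d' i = 0 → ∑ i, d i ^ 2 = R → ∑ i, d' i ^ 2 = R' → R ≤ ρ * n →
  R' ≤ ρ * n → -1 ≤ k → k ≤ 1 → (k < 1 → ∀ i, d i ≤ d' i1 + k) →
  -1 ≤ d' i1 → R' ≤ (d' i1 + 1) ^ 2 * (r / (r - 1)) + r →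
  ∑ i, d i ^ 3 + (∑ i, d' i ^ 4 - ∑ i, d i ^ 4) / n
    ≤ ∑ i, d' i ^ 3 + 3 * k * (r / (r - 1)) * R' + η * n + C * √(n : ℝ) * |R - R'|

/-- an entry which is as large as possible is almost the largest possible real number -/
def Stmt_TNR : Prop := ∀ (r : ℕ), 3 ≤ r → ∀ (n : ℕ) (y : Fin r → ℕ) (i1 : Fin r),
  ∑ i, y i = n → Top1 y i1 → 0 ≤ (y i1 : ℝ) - n / r ∧
    mo 2 n (re y) ≤ ((y i1 : ℝ) - n / r + 1) ^ 2 * (r / (r - 1)) + r

/-- vectors with the largest possible entry are good -/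
def Stmt_GDT : Prop := ∀ (r : ℕ) (ε η : ℝ), 3 ≤ r → 0 < ε → 0 < η → η ≤ ε / 2 →
  ∃ (C : ℝ) (n0 : ℕ), 0 < C ∧ ∀ n ≥ n0, ∀ (y : Fin r → ℕ) (i1 : Fin r), ∑ i, y i = n →
    mo 2 n (re y) ≤ (2 / 3 * al r - ε) * n → Top1 y i1 → Good r η C n y

/-- almost balanced vectors are good -/
def Stmt_GDS : Prop := ∀ (r : ℕ) (η : ℝ), 3 ≤ r → 0 < η → η ≤ 1 / 4 →
  ∃ (c C : ℝ) (n0 : ℕ), 0 < c ∧ 0 < C ∧ ∀ n ≥ n0, ∀ (y : Fin r → ℕ), ∑ i, y i = n →
    mo 2 n (re y) ^ 3 ≤ c * n ^ 2 → Good r η C n y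

/-! ## spectral estimates -/

/-- the spectral radius is `al r * n + O(1)` -/
def Stmt_LAM : Prop := ∀ (r : ℕ), 3 ≤ r → ∃ (δ : ℝ) (n0 : ℕ), 0 < δ ∧ ∀ n ≥ n0,
  ∀ (V : Type) [Fintype V] (G : SimpleGraph V) (x : V → ℝ) (lam : ℝ) (c : V → Fin r)
    (H : Finset V), C0 r δ n G c H → (∀ i, |sz H c i - n / r| ≤ 2 * √(n : ℝ)) → PV G x lam →
    |lam - al r * n| ≤ 4 * r + 1

/-- expansion of the secular function -/
def Stmt_TAY : Prop := ∀ (r : ℕ) (B : ℝ), 3 ≤ r → 1 ≤ B → ∃ C : ℝ, 1 ≤ C ∧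
  ∀ (n : ℕ) (y z : Fin r → ℝ) (lam : ℝ), C ≤ n → |lam - al r * n| ≤ B → ∑ i, y i = n →
    ∑ i, z i = n → mo 2 n y ≤ B * n → mo 2 n z ≤ B * n →
    |(n : ℝ) ^ 2 / al r * (Ph y lam - Ph z lam)
      - ((mo 2 n z - mo 2 n y) + (mo 3 n y - mo 3 n z) / n + (mo 4 n z - mo 4 n y) / n ^ 2)|
      ≤ C / √(n : ℝ) + C * |mo 2 n y - mo 2 n z| / n

/-- the secular function at the spectral radius, type `WD` -/
def Stmt_SECD : Prop := ∀ (r : ℕ) (e : ℝ), 3 ≤ r → 0 < e → ∃ (δ : ℝ) (n0 : ℕ), 0 < δ ∧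
  ∀ n ≥ n0, ∀ (V : Type) [Fintype V] (G : SimpleGraph V) (x : V → ℝ) (lam : ℝ)
    (c : V → Fin r) (H : Finset V) (w : V) (A : Finset V) (v1 v2 : V), C0 r δ n G c H →
    PV G x lam → WD G n H c w A v1 v2 →
    2 - e * (1 + A.card) ≤ (n : ℝ) ^ 2 * Ph (sz H c) lam ∧
      (n : ℝ) ^ 2 * Ph (sz H c) lam ≤ 2 + e

/-- type `WF` -/
def Stmt_SECF : Prop := ∀ (r : ℕ) (e : ℝ), 3 ≤ r → 0 < e → ∃ (δ : ℝ) (n0 : ℕ), 0 < δ ∧
  ∀ n ≥ n0, ∀ (V : Type) [Fintype V] (G : SimpleGraph V) (x : V → ℝ) (lam : ℝ)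
    (c : V → Fin r) (H : Finset V) (w : V) (T : Finset V), C0 r δ n G c H →
    PV G x lam → WF G n H c w T →
    mis G H c - e * (1 + mis G H c) ≤ (n : ℝ) ^ 2 * Ph (sz H c) lam

/-- type `WE` -/
def Stmt_SECE : Prop := ∀ (r : ℕ) (e : ℝ), 3 ≤ r → 0 < e → ∃ (δ : ℝ) (n0 : ℕ), 0 < δ ∧
  ∀ n ≥ n0, ∀ (V : Type) [Fintype V] (G : SimpleGraph V) (x : V → ℝ) (lam : ℝ)
    (c : V → Fin r) (H : Finset V) (w u : V) (A B : Finset V) (i0 : Fin r), C0 r δ n G c H →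
    PV G x lam → WE G n H c w u A B i0 →
    - (e * (1 + A.card)) ≤ (n : ℝ) ^ 2 * Ph (sz H c) lam

/-- gadgets with given class sizes on a given set -/
def Stmt_MKD : Prop := ∀ (r : ℕ), 3 ≤ r → ∀ (V : Type) [Fintype V] (H : Finset V) (w : V)
  (y : Fin r → ℕ), w ∉ H → ∑ i, y i = H.card → (∀ i, 1 ≤ y i) →
  ∃ (c : V → Fin r) (A : Finset V) (v1 v2 : V),
    WD (gD H c w A v1 v2) H.card H c w A v1 v2 ∧ A.card = r ∧ ∀ i, (cl H c i).card = y i

/-! ## the theorems on gadgets -/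

/-- an extremal graph is a gadget if there is a gadget with the right number of edges -/
def Stmt_W1 : Prop := ∀ (r : ℕ) (η C : ℝ), 3 ≤ r → 0 < η → η ≤ 1 / (4 * r) → 0 < C →
  ∃ (δ : ℝ) (n0 : ℕ), 0 < δ ∧ ∀ n ≥ n0, ∀ (V : Type) [Fintype V] (G : SimpleGraph V)
    (c : V → Fin r) (H : Finset V) (y : Fin r → ℕ), C0 r δ n G c H →
    (∀ i, |sz H c i - n / r| ≤ 2 * √(n : ℝ)) → G.CliqueFree (r + 1) → ¬ G.Colorable r →
    MX r G → ∑ i, y i = n → mo 2 n (re y) ≤ 4 * r * n → Good r η C n y →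
    pE G = (n : ℝ) ^ 2 - ∑ i, (y i : ℝ) ^ 2 + 2 * (r - 1) →
    ∃ (w : V) (A : Finset V) (v1 v2 : V), WD G n H c w A v1 v2 ∧ A.card = r

/-- the largest class is as large as possible -/
def Stmt_BIG : Prop := ∀ (r : ℕ) (ε : ℝ), 3 ≤ r → 0 < ε → ∃ (δ : ℝ) (n0 : ℕ), 0 < δ ∧
  ∀ n ≥ n0, ∀ (V : Type) [Fintype V] (G : SimpleGraph V) (c : V → Fin r) (H : Finset V)
    (w : V) (A : Finset V) (v1 v2 : V) (y : Fin r → ℕ) (i1 : Fin r), C0 r δ n G c H →
    (∀ i, |sz H c i - n / r| ≤ 2 * √(n : ℝ)) → MX r G → WD G n H c w A v1 v2 → A.card = r →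
    ∑ i, y i = n → ε * n ≤ mo 2 n (re y) → mo 2 n (re y) ≤ 4 * r * n → Top1 y i1 →
    pE G = (n : ℝ) ^ 2 - ∑ i, (y i : ℝ) ^ 2 + 2 * (r - 1) → ∃ i, (cl H c i).card = y i1

/-- the missing edge joins two largest classes -/
def Stmt_TOPG : Prop := ∀ (r : ℕ), 3 ≤ r → ∃ (δ : ℝ) (n0 : ℕ), 0 < δ ∧ ∀ n ≥ n0,
  ∀ (V : Type) [Fintype V] (G : SimpleGraph V) (c : V → Fin r) (H : Finset V) (w : V)
    (A : Finset V) (v1 v2 : V), C0 r δ n G c H → MX r G → WD G n H c w A v1 v2 →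
    A.card = r → Top H c {c v1, c v2}

/-- `FIN3` with an upper bound for `j` in the third case -/
def Stmt_FIN4 : Prop := ∀ (r : ℕ) (δ : ℝ), 3 ≤ r → 0 < δ → ∃ ε : ℝ, 0 < ε ∧ ∀ δ' : ℝ, 0 < δ' →
  ∃ (δ1 : ℝ) (N0 : ℕ), 0 < δ1 ∧ ∀ N ≥ N0, ∀ j : ℕ, (j : ℝ) ≤ al r * N →
  ∀ (V : Type) [Fintype V] (G : SimpleGraph V) (x : V → ℝ) (lam : ℝ),
    G.CliqueFree (r + 1) → PV G x lam → |pE G - al r * N ^ 2 - 2 * j| ≤ (r : ℝ) →
    al r * N + j / N - al r * ((1 - j / (al r * N)) * min (j / (al r * N)) (1 - 2 / r)) - δ1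
      ≤ lam →
    (∃ (c : V → Fin r) (H : Finset V), C0 r δ N G c H ∧ (∀ i, |sz H c i - N / r| ≤ 2 * √N) ∧
      (j : ℝ) ≤ δ * N) ∨
    (∃ (c : V → Fin r) (H : Finset V), C0 r δ (N + 1) G c H ∧
      (∀ i, |sz H c i - (N + 1) / r| ≤ 2 * √(N + 1)) ∧
      (1 - 2 / r - δ) * (al r * N) ≤ j) ∨
    (RgA r ε N j ∧ (j : ℝ) ≤ (1 - 2 / r + δ) * (al r * N) ∧
      ∃ (c : V → Fin r) (H : Finset V) (w : V), FD r δ' N j G x lam c H w ∧
      ∀ i, |sz H c i - N / r| ≤ 2 * √N)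

end Pool.Agent.Work.MP_5532fa_up

end

section

/-!
# MP_5532fa_co, upgrade: block REP
-/

open Finset

namespace Pool.Agent.Work.MP_5532fa_up

theorem blk_REP (hREPL : Stmt_REPL) : Stmt_REP := by
  classical
  intro r hr M S hex hpar
  obtain ⟨l, rfl⟩ : ∃ l, r = l + 1 := ⟨r - 1, by omega⟩
  have hl : 5 ≤ l := by omega
  -- the possible entries
  set P : ℤ → Prop := fun T => ∃ (z : Fin (l + 1) → ℤ) (i : Fin (l + 1)),
    ∑ k, z k = M ∧ ∑ k, z k ^ 2 ≤ S ∧ z i = T with hP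
  have hbd : ∃ b : ℤ, ∀ T, P T → T ≤ b := by
    refine ⟨S, ?_⟩
    rintro T ⟨z, i, h1, h2, rfl⟩
    have h3 : z i ^ 2 ≤ ∑ k, z k ^ 2 :=
      Finset.single_le_sum (f := fun k => z k ^ 2) (fun _ _ => sq_nonneg _) (Finset.mem_univ i)
    have h4 : z i ≤ z i ^ 2 := by
      rcases le_or_gt (z i) 0 with h | h
      · exact h.trans (sq_nonneg _)
      · nlinarith
    linarith
  have hinh : ∃ T, P T := by
    obtain ⟨y, hy1, hy2⟩ := hex
    exact ⟨y 0, y, 0, hy1, hy2, rfl⟩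
  obtain ⟨T, ⟨z, i, hz1, hz2, hz3⟩, hmax⟩ := Int.exists_greatest_of_bdd hbd hinh
  rw [Fin.sum_univ_succAbove _ i, hz3] at hz1
  rw [Fin.sum_univ_succAbove _ i, hz3] at hz2
  have hpar' : Even ((S - T ^ 2) - (M - T)) := by
    obtain ⟨a, ha⟩ := hpar
    obtain ⟨b, hb⟩ := Int.even_mul_pred_self T
    refine ⟨a - b, ?_⟩
    linarith
  obtain ⟨y, hy1, hy2⟩ := hREPL l hl (M - T) (S - T ^ 2)
    ⟨fun k => z (i.succAbove k), by linarith, by linarith⟩ hpar'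
  refine ⟨Fin.cons T y, 0, ?_, ?_, ?_⟩
  · rw [Fin.sum_univ_succ]
    simp only [Fin.cons_zero, Fin.cons_succ]
    linarith
  · rw [Fin.sum_univ_succ]
    simp only [Fin.cons_zero, Fin.cons_succ]
    linarith
  · intro z' h1 h2 k
    rw [Fin.cons_zero]
    exact hmax (z' k) ⟨z', k, h1, h2, rfl⟩

end Pool.Agent.Work.MP_5532fa_up

end

section

/-!
# MP_5532fa_co, upgrade, fifth round: the window around `1 - 2/r` and small `j`
-/

open Finset

namespace Pool.Agent.Work.MP_5532fa_up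

open MP5532fa (specRad qf pE)

/-- the range up to a little more than `1 - 2/r`, no lower bound -/
def RgV (r N j : ℕ) : Prop := (j : ℝ) ≤ (1 - 2 / r + 1 / (4 * r ^ 2)) * (al r * N)

/-- the same with a lower bound -/
def RgB (r : ℕ) (ε : ℝ) (N j : ℕ) : Prop := ε * N ≤ j ∧ RgV r N j

/-- `MV2` for the range `RgB` -/
def Stmt_MV2B : Prop := ∀ (r : ℕ) (ε : ℝ), 3 ≤ r → 0 < ε → ∃ (e : ℝ) (N0 : ℕ), 0 < e ∧
  ∀ N ≥ N0, ∀ j : ℕ, RgB r ε N j → ∀ (V : Type) [Fintype V] (G G' : SimpleGraph V)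
    (H : Finset V) (c c' : V → Fin r) (w : V) (A A' : Finset V) (J : V → V → ℝ)
    (x y : V → ℝ) (lam lam' xb yb : ℝ) (v : V),
    Fam G H c w A J → Fam G' H c' w A' J → PV G x lam → PV G' y lam' → H.card = N →
    Near r e N j H A c → Est r e N j x lam c H w A xb → Est r e N j y lam' c' H w A' yb →
    v ∈ H → c' v ≠ c v → (∀ u, u ≠ v → c' u = c u) → (∀ z, J v z = 0) →
    (cl H c (c' v)).card + 2 ≤ (cl H c (c v)).card → A' ⊆ A → v ∉ A' →
    A.card + (cl H c (c' v)).card + 1 = A'.card + (cl H c (c v)).card → lam < lam'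

/-- `D1` for the range `RgB` -/
def Stmt_D1B : Prop := ∀ (r : ℕ) (ε : ℝ), 3 ≤ r → 0 < ε → ∃ (δ : ℝ) (N0 : ℕ), 0 < δ ∧
  ∀ N ≥ N0, ∀ j : ℕ, RgB r ε N j → ∀ (V : Type) [Fintype V] (G : SimpleGraph V)
    (H : Finset V) (c : V → Fin r) (w : V) (A : Finset V) (v1 v2 : V),
    WD G N H c w A v1 v2 → Near r δ N j H A c → MX r G → Bal H c

/-- `E1` for the range `RgB` -/
def Stmt_E1B : Prop := ∀ (r : ℕ) (ε : ℝ), 3 ≤ r → 0 < ε → ∃ (δ : ℝ) (N0 : ℕ), 0 < δ ∧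
  ∀ N ≥ N0, ∀ j : ℕ, RgB r ε N j → ∀ (V : Type) [Fintype V] (G : SimpleGraph V)
    (H : Finset V) (c : V → Fin r) (w u : V) (A B : Finset V) (i0 : Fin r),
    WE G N H c w u A B i0 → Near r δ N j H A c → MX r G → Bal H c

/-- `D2` for the range `RgV` -/
def Stmt_D2V : Prop := ∀ (r : ℕ), 3 ≤ r → ∃ (δ : ℝ) (N0 : ℕ), 0 < δ ∧
  ∀ N ≥ N0, ∀ j : ℕ, RgV r N j → ∀ (V : Type) [Fintype V] (G : SimpleGraph V)
    (H : Finset V) (c : V → Fin r) (w : V) (A : Finset V) (v1 v2 : V),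
    WD G N H c w A v1 v2 → Near r δ N j H A c → Bal H c → MX r G →
    Place H A c {c v1, c v2}

/-- `D3` for the range `RgV` -/
def Stmt_D3V : Prop := ∀ (r : ℕ), 3 ≤ r → ∃ (δ : ℝ) (N0 : ℕ), 0 < δ ∧
  ∀ N ≥ N0, ∀ j : ℕ, RgV r N j → ∀ (V : Type) [Fintype V] (G : SimpleGraph V)
    (H : Finset V) (c : V → Fin r) (w : V) (A : Finset V) (v1 v2 : V),
    WD G N H c w A v1 v2 → Near r δ N j H A c → Bal H c → Place H A c {c v1, c v2} → MX r G →
    Top H c {c v1, c v2}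

/-- `EB` for the range `RgV` -/
def Stmt_EBV : Prop := ∀ (r : ℕ), 3 ≤ r → ∃ (δ : ℝ) (N0 : ℕ), 0 < δ ∧
  ∀ N ≥ N0, ∀ j : ℕ, RgV r N j → ∀ (V : Type) [Fintype V] (G : SimpleGraph V)
    (H : Finset V) (c : V → Fin r) (w u : V) (A B : Finset V) (i0 : Fin r),
    WE G N H c w u A B i0 → Near r δ N j H A c → MX r G → OneOut A B

/-- `E2` for the range `RgV` -/
def Stmt_E2V : Prop := ∀ (r : ℕ), 3 ≤ r → ∃ (δ : ℝ) (N0 : ℕ), 0 < δ ∧
  ∀ N ≥ N0, ∀ j : ℕ, RgV r N j → ∀ (V : Type) [Fintype V] (G : SimpleGraph V)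
    (H : Finset V) (c : V → Fin r) (w u : V) (A B : Finset V) (i0 : Fin r),
    WE G N H c w u A B i0 → Near r δ N j H A c → OneOut A B → Bal H c → MX r G →
    Place H A c {i0}

/-- `E3` for the range `RgV` -/
def Stmt_E3V : Prop := ∀ (r : ℕ), 3 ≤ r → ∃ (δ : ℝ) (N0 : ℕ), 0 < δ ∧
  ∀ N ≥ N0, ∀ j : ℕ, RgV r N j → ∀ (V : Type) [Fintype V] (G : SimpleGraph V)
    (H : Finset V) (c : V → Fin r) (w u : V) (A B : Finset V) (i0 : Fin r),
    WE G N H c w u A B i0 → Near r δ N j H A c → OneOut A B → Bal H c →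
    Place H A c {i0} → MX r G → Top H c {i0}

/-- `THRD` for the range `RgB` -/
def Stmt_THRDB : Prop := ∀ (r : ℕ) (ε : ℝ), 3 ≤ r → 0 < ε → ∃ N0 : ℕ, ∀ N ≥ N0, ∀ j : ℕ,
  RgB r ε N j →
  1 + (j / (al r * N)) ^ 4 / (r * ((r : ℝ) - 1)) + ε ≤ ((r : ℝ) + 1) * (j / (al r * N)) →
  ∀ (V : Type) [Fintype V] (G : SimpleGraph V), TypeE r N j G → ¬ MX r G

/-- the secular function at the spectral radius, type `WE`, upper bound -/
def Stmt_SECE2 : Prop := ∀ (r : ℕ), 3 ≤ r → ∀ (V : Type) [Fintype V] (G : SimpleGraph V)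
  (x : V → ℝ) (lam : ℝ) (N : ℕ) (c : V → Fin r) (H : Finset V) (w u : V) (A B : Finset V)
  (i0 : Fin r), PV G x lam → 0 < lam → WE G N H c w u A B i0 → Ph (sz H c) lam ≤ 0

/-- small `j`: type D with balanced classes -/
def Stmt_W2 : Prop := ∀ (r : ℕ), 3 ≤ r → ∃ (δ : ℝ) (n0 : ℕ), 0 < δ ∧ ∀ n ≥ n0, ∀ j : ℕ,
  r ≤ j + 1 → j + 3 ≤ 2 * r → ∀ (V : Type) [Fintype V] (G : SimpleGraph V) (c : V → Fin r)
    (H : Finset V), C0 r δ n G c H → (∀ i, |sz H c i - n / r| ≤ 2 * √(n : ℝ)) →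
    G.CliqueFree (r + 1) → ¬ G.Colorable r → MX r G → pE G = 2 * ((tn r n : ℝ) + j) →
    ∃ (w : V) (A : Finset V) (v1 v2 : V), WD G n H c w A v1 v2 ∧ Bal H c ∧ A.card = j + 1

/-- `j = 2 r - 2`: type E on an almost balanced graph -/
def Stmt_W3 : Prop := ∀ (r : ℕ), 3 ≤ r → ∃ (δ : ℝ) (n0 : ℕ), 0 < δ ∧ ∀ n ≥ n0, ∀ j : ℕ,
  j + 2 = 2 * r → ∀ (V : Type) [Fintype V] (G : SimpleGraph V) (c : V → Fin r)
    (H : Finset V), n + 2 ≤ Fintype.card V → C0 r δ n G c H →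
    (∀ i, |sz H c i - n / r| ≤ 2 * √(n : ℝ)) →
    G.CliqueFree (r + 1) → ¬ G.Colorable r → MX r G → pE G = 2 * ((tn r n : ℝ) + j) →
    ∃ (w u : V) (A B : Finset V) (i0 : Fin r), WE G n H c w u A B i0 ∧ A.card + 1 = r ∧
      ∑ i, (cl H c i).card ^ 2 + 2 * tn r n = n ^ 2 + 2

end Pool.Agent.Work.MP_5532fa_up

end

section

/-!
# MP_5532fa_co, upgrade: statements of the first rounds from those of the fifth round
-/

open Finset

namespace Pool.Agent.Work.MP_5532fa_up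

open MP5532fa (specRad qf pE)

theorem RgU.toV {r : ℕ} (hr : 3 ≤ r) {ε : ℝ} (hε : 0 < ε) {N j : ℕ} (h : RgU r ε N j) :
    RgV r N j := by
  refine le_trans h ?_
  have h2 := al_ge hr
  have hN : (0 : ℝ) ≤ N := Nat.cast_nonneg N
  have h3 : (0 : ℝ) ≤ 1 / (4 * r ^ 2) := by positivity
  have e : (1 - 2 / (r : ℝ) + 1 / (4 * r ^ 2)) * (al r * N)
      = ((1 - 2 / r) * al r) * N + 1 / (4 * r ^ 2) * (al r * N) := by ring
  have e2 : ((1 - 2 / (r : ℝ)) * al r - ε) * N = ((1 - 2 / r) * al r) * N - ε * N := by ring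
  have h4 : 0 ≤ 1 / (4 * (r : ℝ) ^ 2) * (al r * N) :=
    mul_nonneg h3 (mul_nonneg (by linarith) hN)
  have h5 : 0 ≤ ε * N := mul_nonneg hε.le hN
  rw [e, e2]
  linarith

theorem Rg.toV {r : ℕ} (hr : 3 ≤ r) {ε : ℝ} (hε : 0 < ε) {N j : ℕ} (h : Rg r ε N j) :
    RgV r N j := RgU.toV hr hε (show RgU r ε N j from h.2)

theorem Rg.toB {r : ℕ} (hr : 3 ≤ r) {ε : ℝ} (hε : 0 < ε) {N j : ℕ} (h : Rg r ε N j) :
    RgB r ε N j := ⟨h.1, h.toV hr hε⟩

theorem rD1 (h : Stmt_D1B) : Stmt_D1 := by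
  intro r ε hr hε
  obtain ⟨δ, N0, hδ, H⟩ := h r ε hr hε
  exact ⟨δ, N0, hδ, fun N hN j hj => H N hN j (hj.toB hr hε)⟩

theorem rE1 (h : Stmt_E1B) : Stmt_E1 := by
  intro r ε hr hε
  obtain ⟨δ, N0, hδ, H⟩ := h r ε hr hε
  exact ⟨δ, N0, hδ, fun N hN j hj => H N hN j (hj.toB hr hε)⟩

theorem rD2 (h : Stmt_D2V) : Stmt_D2 := by
  intro r ε hr hε
  obtain ⟨δ, N0, hδ, H⟩ := h r hr
  exact ⟨δ, N0, hδ, fun N hN j hj => H N hN j (hj.toV hr hε)⟩

theorem rD3 (h : Stmt_D3V) : Stmt_D3 := by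
  intro r ε hr hε
  obtain ⟨δ, N0, hδ, H⟩ := h r hr
  exact ⟨δ, N0, hδ, fun N hN j hj => H N hN j (hj.toV hr hε)⟩

theorem rEBU (h : Stmt_EBV) : Stmt_EBU := by
  intro r ε hr hε
  obtain ⟨δ, N0, hδ, H⟩ := h r hr
  exact ⟨δ, N0, hδ, fun N hN j hj => H N hN j (RgU.toV hr hε hj)⟩

theorem rE2U (h : Stmt_E2V) : Stmt_E2U := by
  intro r ε hr hε
  obtain ⟨δ, N0, hδ, H⟩ := h r hr
  exact ⟨δ, N0, hδ, fun N hN j hj => H N hN j (RgU.toV hr hε hj)⟩

theorem rE3U (h : Stmt_E3V) : Stmt_E3U := by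
  intro r ε hr hε
  obtain ⟨δ, N0, hδ, H⟩ := h r hr
  exact ⟨δ, N0, hδ, fun N hN j hj => H N hN j (RgU.toV hr hε hj)⟩

theorem rTHRD (h : Stmt_THRDB) : Stmt_THRD := by
  intro r ε hr hε
  obtain ⟨N0, H⟩ := h r ε hr hε
  exact ⟨N0, fun N hN j hj => H N hN j (hj.toB hr hε)⟩

theorem rFIN3 (h : Stmt_FIN4) : Stmt_FIN3 := by
  intro r δ hr hδ
  obtain ⟨ε, hε, H⟩ := h r δ hr hδ
  refine ⟨ε, hε, fun δ' hδ' => ?_⟩
  obtain ⟨δ1, N0, hδ1, H1⟩ := H δ' hδ'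
  refine ⟨δ1, N0, hδ1, ?_⟩
  intro N hN j hj V _ G x lam a b c d
  rcases H1 N hN j hj V G x lam a b c d with h | h | ⟨h1, -, h2⟩
  · exact Or.inl h
  · exact Or.inr (Or.inl h)
  · exact Or.inr (Or.inr ⟨h1, h2⟩)

end Pool.Agent.Work.MP_5532fa_up

end
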