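import Mathlib
import Pool.Agent.Work.MP_5532fa_full.P01

section

/-! Block HSET (helper30). -/

open Finset

namespace Pool.Agent.Work.MP_5532fa_up

open MP5532fa (specRad qf pE)

namespace HSET

/-- a transversal clique as a finite set -/
theorem nclique {ι V : Type} [Fintype ι] [DecidableEq V] (G : SimpleGraph V) (f : ι → V)
    (hf : ∀ i k, i ≠ k → G.Adj (f i) (f k)) :
    G.IsNClique (Fintype.card ι) (univ.image f) := by
  rw [SimpleGraph.isNClique_iff]
  constructor
  · intro a ha b hb hab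
    rw [Finset.coe_image, Set.mem_image] at ha hb
    obtain ⟨i, _, rfl⟩ := ha
    obtain ⟨k, _, rfl⟩ := hb
    exact hf i k (fun h => hab (by rw [h]))
  · rw [Finset.card_image_of_injective, Finset.card_univ]
    intro i k hik
    by_contra h
    exact (hf i k h).ne hik

variable {V : Type} [Fintype V] {r : ℕ}

omit [Fintype V] in
theorem dg_sum (G : SimpleGraph V) (T : Finset V) (c : V → Fin r) (v : V) :
    dg G T v = ∑ j, (nb G (cl T c j) v).card := by
  classical
  unfold dg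
  rw [Finset.card_eq_sum_card_fiberwise (s := nb G T v) (t := (univ : Finset (Fin r))) (f := c)
    (fun _ _ => Finset.mem_coe.mpr (Finset.mem_univ _))]
  refine Finset.sum_congr rfl fun j _ => ?_
  congr 1
  ext w
  rw [Finset.mem_filter, mem_nb, mem_nb, mem_cl]
  tauto

omit [Fintype V] in
theorem nb_add_nn (G : SimpleGraph V) (S : Finset V) (v : V) :
    (nb G S v).card + (nn G S v).card = S.card := by
  classical
  unfold nb nn
  exact Finset.card_filter_add_card_filter_not _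

theorem core (hG : Stmt_GRD) (hr : 3 ≤ r) {η C : ℝ} (hη0 : 0 < η) (hη : η ≤ 1 / (8 * r))
    (hC : 1 ≤ C) (G : SimpleGraph V) (x : V → ℝ) (lam t : ℝ) (c : V → Fin r) (T : Finset V)
    (hfree : G.CliqueFree (r + 1)) (ht : 0 < t)
    (hl1 : lam * t ≤ al r) (hl2 : 1 / 2 ≤ lam * t)
    (hnear : ∀ v ∈ T, (1 - η) * √t ≤ x v)
    (hrest : ∑ v ∈ out T, x v ^ 2 ≤ C * t)
    (hind : ∀ u ∈ T, ∀ v ∈ T, c u = c v → ¬ G.Adj u v)
    (hfew : ∀ v ∈ T, ∀ i, i ≠ c v → ((nn G (cl T c i) v).card : ℝ) ≤ η / (4 * r) / t)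
    (hcardT : (T.card : ℝ) ≤ 2 / t)
    (hmis : (mis G T c : ℝ) ≤ C / t) (heout : (eo G T : ℝ) ≤ C / t)
    (hsize : ∀ i, |((r : ℝ) - 1) * sz T c i - lam| ≤ C / √t)
    (hall : ∀ v, |lam * x v - √t * dg G T v| ≤ C)
    (hmin : ∀ v, ∃ i, ((nb G (cl T c i) v).card : ℝ) ≤ C / √t)
    (hsm : (100 * r * C) ^ 2 * t ≤ 1) :
    ∃ (c' : V → Fin r) (H : Finset V), HD r η ((100 * r * C) ^ 2) G x lam t c' H := by
  classical
  have hr3 : (3 : ℝ) ≤ r := by exact_mod_cast hr
  have hr0 : (0 : ℝ) < r := by linarith only [hr3]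
  obtain ⟨s, hs⟩ : ∃ s, s = √t := ⟨_, rfl⟩
  have hs0 : 0 < s := by rw [hs]; exact Real.sqrt_pos.mpr ht
  have hss : s * s = t := by rw [hs]; exact Real.mul_self_sqrt ht.le
  obtain ⟨u, hu⟩ : ∃ u, u = 1 / s := ⟨_, rfl⟩
  have hus : u * s = 1 := by rw [hu]; field_simp
  have hu0 : 0 < u := by rw [hu]; positivity
  have hdivs : ∀ a : ℝ, a / s = a * u := by intro a; rw [hu]; ring
  have hdivt : ∀ a : ℝ, a / t = a * u ^ 2 := by
    intro a
    rw [← hss, hu]
    field_simp
  rw [← hs] at hnear hsize hall hmin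
  simp only [hdivs] at hsize hmin
  rw [hdivt] at hcardT hmis heout
  simp only [hdivt] at hfew
  have hut : u ^ 2 * t = 1 := by rw [← hss]; linear_combination (u * s + 1) * hus
  have hal1 : al r < 1 := al_lt hr
  have hrC : 300 ≤ 100 * r * C := by
    have h1 : 3 * 1 ≤ (r : ℝ) * C := mul_le_mul hr3 hC zero_le_one hr0.le
    linarith only [h1]
  have hularge : 100 * r * C ≤ u := by
    by_contra hcon
    push Not at hcon
    have h1 : u ^ 2 < (100 * r * C) ^ 2 := pow_lt_pow_left₀ hcon hu0.le two_ne_zero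
    have h2 : u ^ 2 * t < (100 * r * C) ^ 2 * t := mul_lt_mul_of_pos_right h1 ht
    linarith only [hsm, hut, h2]
  have hs1 : s ≤ 1 := by
    have h1 : 1 ≤ u := by linarith only [hrC, hularge]
    have h2 : 1 * s ≤ u * s := mul_le_mul_of_nonneg_right h1 hs0.le
    linarith only [hus, h2]
  -- bounds of `lam`
  have hlam1 : lam ≤ u ^ 2 := by
    have h1 : lam * t * u ^ 2 ≤ 1 * u ^ 2 :=
      mul_le_mul_of_nonneg_right (hl1.trans hal1.le) (by positivity)
    have h2 : lam * t * u ^ 2 = lam := by linear_combination lam * hut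
    linarith only [h1, h2]
  have hlam2 : u ^ 2 / 2 ≤ lam := by
    have h1 : 1 / 2 * u ^ 2 ≤ lam * t * u ^ 2 := mul_le_mul_of_nonneg_right hl2 (by positivity)
    have h2 : lam * t * u ^ 2 = lam := by linear_combination lam * hut
    linarith only [h1, h2]
  have hlam0 : 0 < lam := by linarith only [hlam2, pow_pos hu0 2]
  have hη1 : η ≤ 1 / 24 := by
    refine hη.trans ?_
    apply one_div_le_one_div_of_le (by norm_num)
    linarith only [hr3]
  have hη2 : (r : ℝ) * η ≤ 1 / 8 := by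
    have h1 : (r : ℝ) * η ≤ r * (1 / (8 * r)) := mul_le_mul_of_nonneg_left hη hr0.le
    have h2 : (r : ℝ) * (1 / (8 * r)) = 1 / 8 := by field_simp
    linarith only [h1, h2]
  -- the new classes
  choose i0 hi0 using hmin
  obtain ⟨c', hc'⟩ : ∃ c' : V → Fin r, c' = fun v => if v ∈ T then c v else i0 v := ⟨_, rfl⟩
  have hc'T : ∀ v ∈ T, c' v = c v := by
    intro v hv; rw [hc']; exact if_pos hv
  have hnbc : ∀ v, ((nb G (cl T c (c' v)) v).card : ℝ) ≤ C * u := by
    intro v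
    by_cases hv : v ∈ T
    · have : nb G (cl T c (c' v)) v = ∅ := by
        rw [Finset.eq_empty_iff_forall_notMem]
        intro w hw
        rw [mem_nb, mem_cl, hc'T v hv] at hw
        exact hind v hv w hw.1.1 hw.1.2.symm hw.2
      rw [this, Finset.card_empty, Nat.cast_zero]
      positivity
    · have : c' v = i0 v := by rw [hc']; exact if_neg hv
      rw [this]
      exact hi0 v
  obtain ⟨n, hn⟩ : ∃ n : Fin r → ℝ, n = fun j => sz T c j := ⟨_, rfl⟩
  have hnj : ∀ j, sz T c j = n j := by intro j; rw [hn]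
  have hncard : ∀ j, ((cl T c j).card : ℝ) = n j := by intro j; rw [hn]; rfl
  simp only [hnj] at hsize
  have hn1 : ∀ j, ((r : ℝ) - 1) * n j ≤ lam + C * u := fun j => by
    have := (abs_le.mp (hsize j)).2
    linarith only [this]
  have hn2 : ∀ j, lam - C * u ≤ ((r : ℝ) - 1) * n j := fun j => by
    have := (abs_le.mp (hsize j)).1
    linarith only [this]
  have hsumn : ∀ i, ∑ j ∈ univ.erase i, n j ≤ lam + C * u := by
    intro i
    have h1 : ((r : ℝ) - 1) * ∑ j ∈ univ.erase i, n j ≤ ((r : ℝ) - 1) * (lam + C * u) := by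
      rw [Finset.mul_sum]
      refine (Finset.sum_le_sum fun j _ => hn1 j).trans ?_
      rw [Finset.sum_const, Finset.card_erase_of_mem (Finset.mem_univ i), Finset.card_univ,
        Fintype.card_fin, nsmul_eq_mul, Nat.cast_sub (by omega)]
      push_cast
      exact le_refl _
    exact le_of_mul_le_mul_left h1 (by linarith only [hr3])
  have hdg : ∀ v, (dg G T v : ℝ) = ((nb G (cl T c (c' v)) v).card : ℝ) +
      ∑ j ∈ univ.erase (c' v), ((nb G (cl T c j) v).card : ℝ) := by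
    intro v
    rw [dg_sum G T c v]
    push_cast
    rw [← Finset.add_sum_erase _ _ (Finset.mem_univ (c' v))]
  have hnbn : ∀ v j, ((nb G (cl T c j) v).card : ℝ) + ((nn G (cl T c j) v).card : ℝ) = n j := by
    intro v j
    rw [← hncard j, ← nb_add_nn G (cl T c j) v]
    push_cast
    rfl
  have hdgup : ∀ v, (dg G T v : ℝ) ≤ lam + 2 * (C * u) := by
    intro v
    have h1 : ∑ j ∈ univ.erase (c' v), ((nb G (cl T c j) v).card : ℝ) ≤
        ∑ j ∈ univ.erase (c' v), n j := by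
      refine Finset.sum_le_sum fun j _ => ?_
      have := hnbn v j
      have h2 : (0 : ℝ) ≤ ((nn G (cl T c j) v).card : ℝ) := Nat.cast_nonneg _
      linarith only [this]
    rw [hdg v]
    have := hsumn (c' v)
    have := hnbc v
    linarith
  -- the heavy vertices
  obtain ⟨H, hH⟩ : ∃ H : Finset V, H = univ.filter (fun v => (1 - η) * s ≤ x v) := ⟨_, rfl⟩
  have memH : ∀ v, v ∈ H ↔ (1 - η) * s ≤ x v := by intro v; rw [hH]; simp
  have hTH : T ⊆ H := fun v hv => (memH v).mpr (hnear v hv)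
  have hdglow : ∀ v ∈ H, (1 - η) * lam - C * u ≤ (dg G T v : ℝ) := by
    intro v hv
    have h1 := (memH v).mp hv
    have h2 := (abs_le.mp (hall v)).2
    have h3 : lam * ((1 - η) * s) ≤ lam * x v := mul_le_mul_of_nonneg_left h1 hlam0.le
    have h4 : lam * ((1 - η) * s) - C ≤ s * dg G T v := by linarith only [h2, h3]
    have h5 : u * (lam * ((1 - η) * s) - C) ≤ u * (s * dg G T v) :=
      mul_le_mul_of_nonneg_left h4 hu0.le
    have h6 : u * (s * dg G T v) = dg G T v := by linear_combination (dg G T v : ℝ) * hus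
    have h7 : u * (lam * ((1 - η) * s) - C) = (1 - η) * lam - C * u := by
      linear_combination (lam * (1 - η)) * hus
    linarith only [h5, h6, h7]
  have hmiss : ∀ v ∈ H, ∀ j, j ≠ c' v →
      ((nn G (cl T c j) v).card : ℝ) ≤ η * lam + 3 * (C * u) := by
    intro v hv j hj
    have h1 : ((nn G (cl T c j) v).card : ℝ) ≤
        ∑ k ∈ univ.erase (c' v), ((nn G (cl T c k) v).card : ℝ) :=
      Finset.single_le_sum (f := fun k => ((nn G (cl T c k) v).card : ℝ))
        (fun k _ => Nat.cast_nonneg _) (Finset.mem_erase.mpr ⟨hj, Finset.mem_univ j⟩)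
    have h2 : ∑ k ∈ univ.erase (c' v), ((nn G (cl T c k) v).card : ℝ) =
        ∑ k ∈ univ.erase (c' v), n k -
          ∑ k ∈ univ.erase (c' v), ((nb G (cl T c k) v).card : ℝ) := by
      rw [← Finset.sum_sub_distrib]
      refine Finset.sum_congr rfl fun k _ => ?_
      have := hnbn v k
      linarith only [this]
    have h3 := hsumn (c' v)
    have h4 := hdglow v hv
    have h5 := hdg v
    have h6 := hnbc v
    linarith only [h1, h2, h3, h4, h5, h6]
  -- independence
  have hindH : ∀ a ∈ H, ∀ b ∈ H, c' a = c' b → ¬ G.Adj a b := by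
    intro a ha b hb hab hadj
    obtain ⟨i, hi⟩ : ∃ i, i = c' a := ⟨_, rfl⟩
    rw [← hi] at hab
    obtain ⟨f, hfA, hfadj⟩ := hG {j : Fin r // j ≠ i} V G
      (fun j => nb G (nb G (cl T c j.1) a) b) (fun _ => 1) (η / (4 * r) * u ^ 2)
      (fun _ => zero_le_one) (by positivity) (by
        intro j k hjk w hw
        rw [mem_nb, mem_nb, mem_cl] at hw
        have hwT := hw.1.1.1
        have hwc := hw.1.1.2
        have hk : k.1 ≠ c w := by
          rw [hwc]
          intro h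
          exact hjk (Subtype.ext h.symm)
        refine le_trans ?_ (hfew w hwT k.1 hk)
        have h2 : ∑ y ∈ nb G (nb G (cl T c k.1) a) b, chi (¬ G.Adj w y) * 1 =
            (((nb G (nb G (cl T c k.1) a) b).filter (fun y => ¬ G.Adj w y)).card : ℝ) := by
          rw [Finset.card_filter]
          push_cast
          refine Finset.sum_congr rfl fun y _ => ?_
          rw [mul_one]
          by_cases h : G.Adj w y
          · rw [chi_neg (not_not.mpr h), if_neg (not_not.mpr h)]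
          · rw [chi_pos h, if_pos h]
        rw [h2]
        have h3 : ((nb G (nb G (cl T c k.1) a) b).filter (fun y => ¬ G.Adj w y)) ⊆
            nn G (cl T c k.1) w := by
          intro y hy
          rw [Finset.mem_filter, mem_nb, mem_nb] at hy
          rw [mem_nn]
          exact ⟨hy.1.1.1, hy.2⟩
        exact_mod_cast Finset.card_le_card h3) (by
        intro j
        rw [Finset.sum_const, nsmul_eq_mul, mul_one]
        have hcι : (Fintype.card {j : Fin r // j ≠ i} : ℝ) = (r : ℝ) - 1 := by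
          have : Fintype.card {j : Fin r // j ≠ i} = r - 1 := by
            rw [Fintype.card_subtype_compl, Fintype.card_fin, Fintype.card_subtype_eq]
          rw [this, Nat.cast_sub (by omega)]
          push_cast; rfl
        rw [hcι]
        -- size of the common neighbourhood
        have h1 : n j.1 ≤ ((nb G (nb G (cl T c j.1) a) b).card : ℝ) +
            ((nn G (cl T c j.1) a).card : ℝ) + ((nn G (cl T c j.1) b).card : ℝ) := by
          rw [← hncard]
          have h2 : cl T c j.1 ⊆ nb G (nb G (cl T c j.1) a) b ∪ nn G (cl T c j.1) a ∪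
              nn G (cl T c j.1) b := by
            intro w hw
            rw [Finset.mem_union, Finset.mem_union, mem_nb, mem_nb, mem_nn, mem_nn]
            by_cases h3 : G.Adj a w
            · by_cases h4 : G.Adj b w
              · exact Or.inl (Or.inl ⟨⟨hw, h3⟩, h4⟩)
              · exact Or.inr ⟨hw, h4⟩
            · exact Or.inl (Or.inr ⟨hw, h3⟩)
          have h3 := (Finset.card_le_card h2).trans ((Finset.card_union_le _ _).trans
            (Nat.add_le_add_right (Finset.card_union_le _ _) _))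
          exact_mod_cast h3
        have h2 := hmiss a ha j.1 (by rw [← hi]; exact j.2)
        have h3 := hmiss b hb j.1 (by rw [← hab]; exact j.2)
        have h4 := hn2 j.1
        have hr1 : (0 : ℝ) < (r : ℝ) - 1 := by linarith only [hr3]
        -- multiply by `r - 1`
        have h5 : ((r : ℝ) - 1) * n j.1 ≤ ((r : ℝ) - 1) *
            (((nb G (nb G (cl T c j.1) a) b).card : ℝ) + 2 * (η * lam + 3 * (C * u))) :=
          mul_le_mul_of_nonneg_left (by linarith only [h1, h2, h3]) hr1.le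
        have h6 : ((r : ℝ) - 1) * (((r : ℝ) - 1) * (η / (4 * r) * u ^ 2)) ≤ u ^ 2 / 32 := by
          have e1 : ((r : ℝ) - 1) * (((r : ℝ) - 1) * (η / (4 * r) * u ^ 2)) =
              (((r : ℝ) - 1) / r) * (((r : ℝ) - 1) * η) * (u ^ 2 / 4) := by
            field_simp
          have e2 : ((r : ℝ) - 1) / r ≤ 1 := by
            rw [div_le_one hr0]; linarith only []
          have e2' : 0 ≤ ((r : ℝ) - 1) / r := by positivity
          have e3 : ((r : ℝ) - 1) * η ≤ 1 / 8 := by linarith only [hη0, hη2]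
          have e3' : 0 ≤ ((r : ℝ) - 1) * η := by positivity
          have e4 : ((r : ℝ) - 1) / r * (((r : ℝ) - 1) * η) ≤ 1 * (1 / 8) :=
            mul_le_mul e2 e3 e3' zero_le_one
          rw [e1]
          have e5 : ((r : ℝ) - 1) / r * (((r : ℝ) - 1) * η) * (u ^ 2 / 4) ≤
              1 * (1 / 8) * (u ^ 2 / 4) := mul_le_mul_of_nonneg_right e4 (by positivity)
          linarith only [e5]
        have h7 : ((r : ℝ) - 1) * (2 * (η * lam + 3 * (C * u))) ≤ lam / 4 + 6 * r * (C * u) := by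
          have e3 : ((r : ℝ) - 1) * η ≤ 1 / 8 := by linarith only [hη0, hη2]
          have e4 : ((r : ℝ) - 1) * η * lam ≤ 1 / 8 * lam :=
            mul_le_mul_of_nonneg_right e3 hlam0.le
          have e5 : 0 < C * u := by positivity
          linarith only [e4, e5]
        have h8 : 7 * r * (C * u) ≤ 7 / 100 * u ^ 2 := by
          have : 100 * r * C * u ≤ u * u := mul_le_mul_of_nonneg_right hularge hu0.le
          linarith only [this]
        have h9 : C * u ≤ r * (C * u) := by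
          have : 0 < C * u := by positivity
          have h10 : 1 * (C * u) ≤ r * (C * u) :=
            mul_le_mul_of_nonneg_right (by linarith only [hr1]) this.le
          linarith only [h10]
        have h10 : ((r : ℝ) - 1) * (((r : ℝ) - 1) * (η / (4 * r) * u ^ 2)) <
            ((r : ℝ) - 1) * ((nb G (nb G (cl T c j.1) a) b).card : ℝ) := by
          linarith only [hlam2, h4, h5, h6, h7, h8, h9, pow_pos hu0 2]
        exact lt_of_mul_lt_mul_left h10 hr1.le)
    have hcl := nclique G f hfadj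
    have hcι : Fintype.card {j : Fin r // j ≠ i} = r - 1 := by
      rw [Fintype.card_subtype_compl, Fintype.card_fin, Fintype.card_subtype_eq]
    rw [hcι] at hcl
    have h1 : ∀ w ∈ univ.image f, G.Adj b w := by
      intro w hw
      rw [Finset.mem_image] at hw
      obtain ⟨j, _, rfl⟩ := hw
      have := hfA j
      rw [mem_nb] at this
      exact this.2
    have h2 := hcl.insert h1
    have h3 : ∀ w ∈ insert b (univ.image f), G.Adj a w := by
      intro w hw
      rw [Finset.mem_insert] at hw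
      rcases hw with rfl | hw
      · exact hadj
      · rw [Finset.mem_image] at hw
        obtain ⟨j, _, rfl⟩ := hw
        have := hfA j
        rw [mem_nb, mem_nb] at this
        exact this.1.2
    have h4 := h2.insert h3
    have h5 : r - 1 + 1 + 1 = r + 1 := by omega
    rw [h5] at h4
    exact hfree _ h4
  -- few heavy vertices outside `T`
  have hHT : ((H \ T).card : ℝ) ≤ 2 * C := by
    have h1 : ((H \ T).card : ℝ) * (t / 2) ≤ C * t := by
      refine le_trans ?_ hrest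
      calc ((H \ T).card : ℝ) * (t / 2) = ∑ v ∈ H \ T, t / 2 := by
            rw [Finset.sum_const, nsmul_eq_mul]
        _ ≤ ∑ v ∈ H \ T, x v ^ 2 := by
            refine Finset.sum_le_sum fun v hv => ?_
            rw [Finset.mem_sdiff] at hv
            have h2 := (memH v).mp hv.1
            have h3 : 0 ≤ (1 - η) * s := mul_nonneg (by linarith only [hη1]) hs0.le
            have h4 : ((1 - η) * s) ^ 2 ≤ x v ^ 2 := pow_le_pow_left₀ h3 h2 2
            have h5 : t / 2 ≤ ((1 - η) * s) ^ 2 := by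
              have e1 : ((1 - η) * s) ^ 2 = (1 - η) ^ 2 * t := by rw [← hss]; ring
              rw [e1]
              have e2 : 1 / 2 ≤ (1 - η) ^ 2 := by
                clear * - hη0 hη1
                nlinarith
              have e3 : 1 / 2 * t ≤ (1 - η) ^ 2 * t := mul_le_mul_of_nonneg_right e2 ht.le
              linarith only [e3]
            linarith only [h4, h5]
        _ ≤ ∑ v ∈ out T, x v ^ 2 := by
            apply Finset.sum_le_sum_of_subset_of_nonneg
            · intro v hv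
              rw [Finset.mem_sdiff] at hv
              exact mem_out.mpr hv.2
            · intro v _ _; positivity
    have h2 : ((H \ T).card : ℝ) * (t / 2) ≤ 2 * C * (t / 2) := by linarith only [h1]
    exact le_of_mul_le_mul_right h2 (by positivity)
  have hHcard : (H.card : ℝ) ≤ 2 * u ^ 2 + 2 * C := by
    have h1 : H.card = (H \ T).card + T.card := by
      rw [Finset.card_sdiff_add_card_eq_card hTH]
    rw [h1]
    push_cast
    linarith only [hcardT, hHT]
  have hu2 : 1 ≤ u ^ 2 := by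
    have : 1 ≤ u := by linarith only [hrC, hularge]
    exact one_le_pow₀ this
  have hKbig : 10000 * C ^ 2 ≤ (100 * r * C) ^ 2 := by
    have : (100 * r * C) ^ 2 = 10000 * C ^ 2 * r ^ 2 := by ring
    rw [this]
    have h1 : (1 : ℝ) ≤ r ^ 2 := one_le_pow₀ (by linarith only [hr3])
    have h2 : (0 : ℝ) ≤ 10000 * C ^ 2 := by positivity
    have h3 := mul_le_mul_of_nonneg_left h1 h2
    linarith only [h3]
  have hC2 : C ≤ C ^ 2 := by
    have := mul_le_mul_of_nonneg_right hC (show (0 : ℝ) ≤ C by linarith only [hHT])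
    linarith only [this]
  have houtHT : out H ⊆ out T := by
    intro v hv
    rw [mem_out] at hv ⊢
    exact fun h => hv (hTH h)
  refine ⟨c', H, ht, hl1, hl2, ?_, ?_, hindH, ?_, ?_, ?_, ?_, ?_, ?_⟩
  · intro v hv
    rw [← hs]
    exact (memH v).mp hv
  · intro v hv
    rw [← hs]
    by_contra hcon
    push Not at hcon
    exact hv ((memH v).mpr hcon)
  · -- xmax
    intro v
    rw [← hs]
    have h1 := (abs_le.mp (hall v)).2
    have h2 := hdgup v
    have h3 : s * dg G T v ≤ s * (lam + 2 * (C * u)) := mul_le_mul_of_nonneg_left h2 hs0.le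
    have h4 : s * (lam + 2 * (C * u)) = s * lam + 2 * C := by linear_combination (2 * C) * hus
    have h5 : lam * x v ≤ s * lam + 3 * C := by linarith only [h1, h3, h4]
    have h6 : 3 * C ≤ lam * (6 * C * s ^ 2) := by
      have e1 : lam * (6 * C * s ^ 2) = 6 * C * (lam * t) := by rw [← hss]; ring
      rw [e1]
      have e2 := mul_le_mul_of_nonneg_left hl2 (show (0 : ℝ) ≤ 6 * C by linarith only [hHT])
      linarith only [e2]
    have h7 : lam * x v ≤ lam * (s + 6 * C * s ^ 2) := by linarith only [h5, h6]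
    have h8 := le_of_mul_le_mul_left h7 hlam0
    have h9 : 6 * C * s ^ 2 ≤ s * ((100 * r * C) ^ 2 * s) := by
      have : 6 * C ≤ (100 * r * C) ^ 2 := by linarith only [hHT, hKbig, hC2]
      have h10 := mul_le_mul_of_nonneg_right this (pow_pos hs0 2).le
      linarith only [h10]
    linarith only [h8, h9]
  · -- mis
    rw [hdivt]
    have h1 : mis G H c' ≤ mis G T c + 2 * ((H \ T).card * H.card) := by
      unfold mis
      have h2 : ((H ×ˢ H).filter (fun e => c' e.1 ≠ c' e.2 ∧ ¬ G.Adj e.1 e.2)) ⊆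
          ((T ×ˢ T).filter (fun e => c e.1 ≠ c e.2 ∧ ¬ G.Adj e.1 e.2)) ∪
            ((H \ T) ×ˢ H ∪ H ×ˢ (H \ T)) := by
        rintro ⟨a, b⟩ hab
        simp only [Finset.mem_filter, Finset.mem_product] at hab
        simp only [Finset.mem_union, Finset.mem_filter, Finset.mem_product, Finset.mem_sdiff]
        by_cases ha : a ∈ T
        · by_cases hb : b ∈ T
          · left
            rw [hc'T a ha, hc'T b hb] at hab
            exact ⟨⟨ha, hb⟩, hab.2⟩
          · right; right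
            exact ⟨hab.1.1, hab.1.2, hb⟩
        · right; left
          exact ⟨⟨hab.1.1, ha⟩, hab.1.2⟩
      refine (Finset.card_le_card h2).trans ?_
      refine (Finset.card_union_le _ _).trans ?_
      apply Nat.add_le_add_left
      refine (Finset.card_union_le _ _).trans ?_
      rw [Finset.card_product, Finset.card_product, mul_comm H.card]
      omega
    have h2 : (mis G H c' : ℝ) ≤ mis G T c + 2 * (((H \ T).card : ℝ) * H.card) := by
      exact_mod_cast h1
    have h3 : ((H \ T).card : ℝ) * H.card ≤ 2 * C * (2 * u ^ 2 + 2 * C) :=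
      mul_le_mul hHT hHcard (Nat.cast_nonneg _) (by linarith only [hHT])
    have h4 : (mis G H c' : ℝ) ≤ C * u ^ 2 + 2 * (2 * C * (2 * u ^ 2 + 2 * C)) := by linarith only [hmis, h2, h3]
    have h5 : C * u ^ 2 + 2 * (2 * C * (2 * u ^ 2 + 2 * C)) ≤ 10000 * C ^ 2 * u ^ 2 := by
      have e1 : C * u ^ 2 ≤ C ^ 2 * u ^ 2 := mul_le_mul_of_nonneg_right hC2 (by positivity)
      have e2 : C ^ 2 * 1 ≤ C ^ 2 * u ^ 2 :=
        mul_le_mul_of_nonneg_left hu2 (by positivity)
      linarith only [h4, e1, e2, pow_pos hu0 2]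
    have h6 : 10000 * C ^ 2 * u ^ 2 ≤ (100 * r * C) ^ 2 * u ^ 2 :=
      mul_le_mul_of_nonneg_right hKbig (by positivity)
    linarith only [h4, h5, h6]
  · -- eout
    rw [hdivt]
    have h1 : eo G H ≤ eo G T := by
      unfold eo
      apply Finset.card_le_card
      intro e he
      rw [Finset.mem_filter] at he ⊢
      exact ⟨he.1, he.2.1, fun h => he.2.2 (hTH h)⟩
    have h2 : (eo G H : ℝ) ≤ eo G T := by exact_mod_cast h1
    have h3 : C * u ^ 2 ≤ (100 * r * C) ^ 2 * u ^ 2 := by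
      apply mul_le_mul_of_nonneg_right _ (by positivity)
      linarith only [hHT, hKbig, hC2]
    linarith only [heout, h2, h3]
  · -- rest
    have h1 : ∑ v ∈ out H, x v ^ 2 ≤ ∑ v ∈ out T, x v ^ 2 :=
      Finset.sum_le_sum_of_subset_of_nonneg houtHT (fun v _ _ => by positivity)
    have h3 : C * t ≤ (100 * r * C) ^ 2 * t := by
      apply mul_le_mul_of_nonneg_right _ ht.le
      linarith only [hHT, hKbig, hC2]
    linarith only [hrest, h1, h3]
  · -- all
    intro v
    rw [← hs]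
    have h1 : dg G T v ≤ dg G H v := by
      unfold dg
      apply Finset.card_le_card
      intro w hw
      rw [mem_nb] at hw ⊢
      exact ⟨hTH hw.1, hw.2⟩
    have h2 : dg G H v ≤ dg G T v + (H \ T).card := by
      unfold dg
      have : nb G H v ⊆ nb G T v ∪ (H \ T) := by
        intro w hw
        rw [mem_nb] at hw
        rw [Finset.mem_union, mem_nb, Finset.mem_sdiff]
        by_cases h : w ∈ T
        · exact Or.inl ⟨h, hw.2⟩
        · exact Or.inr ⟨hw.1, h⟩
      exact (Finset.card_le_card this).trans (Finset.card_union_le _ _)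
    have h1' : (dg G T v : ℝ) ≤ dg G H v := by exact_mod_cast h1
    have h2' : (dg G H v : ℝ) ≤ dg G T v + 2 * C := by
      have : (dg G H v : ℝ) ≤ dg G T v + (H \ T).card := by exact_mod_cast h2
      linarith only [hHT, this]
    have h3 := abs_le.mp (hall v)
    have h4 : s * dg G T v ≤ s * dg G H v := mul_le_mul_of_nonneg_left h1' hs0.le
    have h5 : s * dg G H v ≤ s * dg G T v + 2 * C := by
      have e1 : s * dg G H v ≤ s * (dg G T v + 2 * C) := mul_le_mul_of_nonneg_left h2' hs0.le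
      have e2 : s * (2 * C) ≤ 1 * (2 * C) := mul_le_mul_of_nonneg_right hs1 (by linarith only [h3])
      linarith only [e1, e2]
    have h6 : 3 * C ≤ (100 * r * C) ^ 2 := by linarith only [hKbig, hC2, h1', h2']
    rw [abs_le]
    constructor <;> linarith only [h5, h6, h4, h3.1, h3.2]
  · -- size
    intro i
    rw [← hs, hdivs]
    have h1 : (cl T c i).card ≤ (cl H c' i).card := by
      apply Finset.card_le_card
      intro w hw
      rw [mem_cl] at hw ⊢
      exact ⟨hTH hw.1, by rw [hc'T w hw.1]; exact hw.2⟩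
    have h2 : (cl H c' i).card ≤ (cl T c i).card + (H \ T).card := by
      have : cl H c' i ⊆ cl T c i ∪ (H \ T) := by
        intro w hw
        rw [mem_cl] at hw
        rw [Finset.mem_union, mem_cl, Finset.mem_sdiff]
        by_cases h : w ∈ T
        · exact Or.inl ⟨h, by rw [← hc'T w h]; exact hw.2⟩
        · exact Or.inr ⟨hw.1, h⟩
      exact (Finset.card_le_card this).trans (Finset.card_union_le _ _)
    have h1' : n i ≤ sz H c' i := by
      rw [← hncard]
      unfold sz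
      exact_mod_cast h1
    have h2' : sz H c' i ≤ n i + 2 * C := by
      rw [← hncard]
      unfold sz
      have : ((cl H c' i).card : ℝ) ≤ (cl T c i).card + (H \ T).card := by exact_mod_cast h2
      linarith only [hHT, this]
    have h3 := abs_le.mp (hsize i)
    have hr1 : (0 : ℝ) < (r : ℝ) - 1 := by linarith only [hr3]
    have h4 : ((r : ℝ) - 1) * n i ≤ ((r : ℝ) - 1) * sz H c' i :=
      mul_le_mul_of_nonneg_left h1' hr1.le
    have h5 : ((r : ℝ) - 1) * sz H c' i ≤ ((r : ℝ) - 1) * (n i + 2 * C) :=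
      mul_le_mul_of_nonneg_left h2' hr1.le
    have h6 : ((r : ℝ) - 1) * (n i + 2 * C) ≤ ((r : ℝ) - 1) * n i + 2 * r * C := by linarith only [h1', h2']
    have h7 : C * u + 2 * r * C ≤ (100 * r * C) ^ 2 * u := by
      have e1 : 2 * r * C * 1 ≤ 2 * r * C * u := by
        have h1 : 1 ≤ u := by linarith only [hrC, hularge]
        exact mul_le_mul_of_nonneg_left h1 (by positivity)
      have e2 : C * u + 2 * r * C * u ≤ (100 * r * C) ^ 2 * u := by
        have : C + 2 * r * C ≤ (100 * r * C) ^ 2 := by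
          have e3 : (100 * r * C) ^ 2 = 10000 * (r * C) ^ 2 := by ring
          clear * - hr3 hC
          have e4 : 1 ≤ r * C := by nlinarith
          have e5 : C ≤ r * C := by nlinarith
          nlinarith
        have h8 := mul_le_mul_of_nonneg_right this hu0.le
        linarith only [h8]
      linarith only [e1, e2]
    rw [abs_le]
    constructor <;> linarith only [h4, h5, h6, h7, h3.1, h3.2]

end HSET

open HSET in
theorem blk_HSET (hGRD : Stmt_GRD) (hMEAS : Stmt_MEAS) (hTYP : Stmt_TYP) (hEDG : Stmt_EDG)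
    (hAVG : Stmt_AVG) (hALLV : Stmt_ALLV) (hMIND : Stmt_MIND) : Stmt_HSET := by
  intro r D η hr hD hη0 hη
  have hr3 : (3 : ℝ) ≤ r := by exact_mod_cast hr
  have hr0 : (0 : ℝ) < r := by linarith only [hr3]
  obtain ⟨ηT, hηT⟩ : ∃ ηT : ℝ, ηT = η / (4 * r) := ⟨_, rfl⟩
  have hηT0 : 0 < ηT := by rw [hηT]; positivity
  have hη1 : η ≤ 1 := by
    refine hη.trans ?_
    rw [div_le_one (by positivity)]
    linarith only [hr3]
  have hηTη : ηT ≤ η := by
    rw [hηT, div_le_iff₀ (by positivity)]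
    nlinarith
  have hηT4 : ηT ≤ 1 / 4 := by
    rw [hηT, div_le_iff₀ (by positivity)]
    nlinarith
  obtain ⟨K1, hK1, h1⟩ := hTYP r D ηT hr hD hηT0 hηT4
  obtain ⟨K2, hK2, h2⟩ := hEDG r ηT K1 hr hηT0 hηT4 hK1
  obtain ⟨K3, hK3⟩ : ∃ K3 : ℝ, K3 = max K1 K2 := ⟨_, rfl⟩
  have hK31 : K1 ≤ K3 := by rw [hK3]; exact le_max_left _ _
  have hK32 : K2 ≤ K3 := by rw [hK3]; exact le_max_right _ _
  have hK31' : 1 ≤ K3 := hK1.trans hK31
  obtain ⟨K4, hK4, h4⟩ := hAVG r ηT K3 hr hηT0 hηT4 hK31'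
  obtain ⟨K5, hK5⟩ : ∃ K5 : ℝ, K5 = max K3 K4 := ⟨_, rfl⟩
  have hK53 : K3 ≤ K5 := by rw [hK5]; exact le_max_left _ _
  have hK54 : K4 ≤ K5 := by rw [hK5]; exact le_max_right _ _
  obtain ⟨K6, hK6, h6⟩ := hALLV r ηT K5 hr hηT0 hηT4 (hK31'.trans hK53)
  obtain ⟨K7, hK7, h7⟩ := hMIND r ηT K5 hr hηT0 hηT4 (hK31'.trans hK53)
  obtain ⟨C, hC⟩ : ∃ C : ℝ, C = max K5 (max K6 K7) := ⟨_, rfl⟩
  have hC5 : K5 ≤ C := by rw [hC]; exact le_max_left _ _
  have hC6 : K6 ≤ C := by rw [hC]; exact (le_max_left _ _).trans (le_max_right _ _)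
  have hC7 : K7 ≤ C := by rw [hC]; exact (le_max_right _ _).trans (le_max_right _ _)
  have hC1 : 1 ≤ C := hK6.trans hC6
  have hCbig : C ≤ (100 * r * C) ^ 2 := by
    have e3 : (100 * r * C) ^ 2 = 10000 * (r * C) ^ 2 := by ring
    have e4 : 1 ≤ r * C := by nlinarith
    have e5 : C ≤ r * C := by nlinarith
    nlinarith
  refine ⟨(100 * r * C) ^ 2, hC1.trans hCbig, ?_⟩
  intro V _ G x lam t hctx hsm
  obtain ⟨ht, hl1, _⟩ := hMEAS r D hr hD V G x lam t hctx
  have hsmall : ∀ K : ℝ, K ≤ C → K * t ≤ 1 := by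
    intro K hK
    refine le_trans ?_ hsm
    exact mul_le_mul_of_nonneg_right (hK.trans hCbig) ht.le
  obtain ⟨c, T, hTD⟩ := h1 V G x lam t hctx (hsmall K1 (by linarith only [hK31, hK53, hC5]))
  have hTE := h2 V G x lam t c T hctx.pv hTD
  have hTD3 := hTD.mono hK31
  have hTE3 := hTE.mono ht hK32
  obtain ⟨hs1, hs2⟩ := h4 V G x lam t c T hctx.pv hTD3 hTE3 (hsmall K4 (by linarith only [hK54,
      hC5]))
  have hTD5 := hTD3.mono hK53
  have hTE5 := hTE3.mono ht hK53
  have hs2' : ∑ v ∈ T, (x v - √t) ^ 2 ≤ K5 * t :=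
    hs2.trans (mul_le_mul_of_nonneg_right hK54 ht.le)
  have hall := h6 V G x lam t c T hctx.pv hTD5 hTE5 hs2' (hsmall K6 hC6)
  have hmin := h7 V G x lam t c T hctx.free hTD5 hTE5
  have hst : 0 < √t := Real.sqrt_pos.mpr ht
  refine core hGRD hr hη0 hη hC1 G x lam t c T hctx.free ht hl1 hTD.lamt2 ?_ ?_ hTD.ind ?_
    hTD.cardT ?_ ?_ ?_ ?_ ?_ hsm
  · intro v hv
    refine le_trans ?_ (hTD.near v hv).1
    exact mul_le_mul_of_nonneg_right (by linarith only [hηTη]) hst.le
  · exact hTD5.rest.trans (mul_le_mul_of_nonneg_right hC5 ht.le)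
  · intro v hv i hi
    have := hTD.few v hv i hi
    rwa [hηT] at this
  · exact hTE5.mis.trans (div_le_div_of_nonneg_right hC5 ht.le)
  · exact hTE5.eout.trans (div_le_div_of_nonneg_right hC5 ht.le)
  · intro i
    exact (hs1 i).trans (div_le_div_of_nonneg_right (hK54.trans hC5) hst.le)
  · intro v
    exact (hall v).trans hC6
  · intro v
    obtain ⟨i, hi⟩ := hmin v
    exact ⟨i, hi.trans (div_le_div_of_nonneg_right hC7 hst.le)⟩

end Pool.Agent.Work.MP_5532fa_up

end

section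

set_option autoImplicit false

open Finset

namespace Pool.Agent.Work.MP_5532fa_up

open MP5532fa (specRad qf pE)

namespace LOWG

section
variable {V : Type} [Fintype V] {r : ℕ}

omit [Fintype V] in
theorem chi_and (p q : Prop) : chi (p ∧ q) = chi p * chi q := by
  by_cases hp : p
  · by_cases hq : q
    · rw [chi_pos ⟨hp, hq⟩, chi_pos hp, chi_pos hq, mul_one]
    · rw [chi_neg (fun h => hq h.2), chi_neg hq, mul_zero]
  · rw [chi_neg (fun h => hp h.1), chi_neg hp, zero_mul]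

omit [Fintype V] in
theorem chi_not (p : Prop) : chi (¬ p) = 1 - chi p := by
  by_cases hp : p
  · rw [chi_neg (fun h => h hp), chi_pos hp, sub_self]
  · rw [chi_pos hp, chi_neg hp, sub_zero]

omit [Fintype V] in
theorem v1_mem {G : SimpleGraph V} {N : ℕ} {H : Finset V} {c : V → Fin r} {w : V} {A : Finset V}
    {v1 v2 : V} (h : WD G N H c w A v1 v2) : v1 ∈ A := by
  have : v1 ∈ cl A c (c v1) := by rw [h.h1]; exact Finset.mem_singleton_self v1
  exact (mem_cl.mp this).1

omit [Fintype V] in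
theorem v2_mem {G : SimpleGraph V} {N : ℕ} {H : Finset V} {c : V → Fin r} {w : V} {A : Finset V}
    {v1 v2 : V} (h : WD G N H c w A v1 v2) : v2 ∈ A := by
  have : v2 ∈ cl A c (c v2) := by rw [h.h2]; exact Finset.mem_singleton_self v2
  exact (mem_cl.mp this).1

omit [Fintype V] in
/-- the adjacency of a graph of type D -/
theorem ad_WD {G : SimpleGraph V} {N : ℕ} {H : Finset V} {c : V → Fin r} {w : V} {A : Finset V}
    {v1 v2 : V} (h : WD G N H c w A v1 v2) (a b : V) :
    ad G a b = chi (a ∈ H) * chi (b ∈ H) * (1 - chi (c b = c a)) + chi (a = w) * chi (b ∈ A)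
      + chi (b = w) * chi (a ∈ A) - chi (a = v1) * chi (b = v2) - chi (a = v2) * chi (b = v1) := by
  have hv1 := h.hA (v1_mem h)
  have hv2 := h.hA (v2_mem h)
  have h21 : c v2 ≠ c v1 := h.h12.symm
  have hne : v1 ≠ v2 := fun h0 => h.h12 (by rw [h0])
  have hw1 : w ≠ v1 := fun h0 => h.hw (h0 ▸ hv1)
  have hw2 : w ≠ v2 := fun h0 => h.hw (h0 ▸ hv2)
  have hwA : w ∉ A := fun h0 => h.hw (h.hA h0)
  have adjiff := h.adj a b
  unfold ad
  rw [← chi_not, ← chi_and, ← chi_and, ← chi_and, ← chi_and, ← chi_and, ← chi_and]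
  by_cases e0 : (a ∈ H ∧ b ∈ H) ∧ ¬ c b = c a
  · have ea : a ≠ w := fun h0 => h.hw (h0 ▸ e0.1.1)
    have eb : b ≠ w := fun h0 => h.hw (h0 ▸ e0.1.2)
    rw [chi_pos e0, chi_neg (p := a = w ∧ b ∈ A) (fun h0 => ea h0.1),
      chi_neg (p := b = w ∧ a ∈ A) (fun h0 => eb h0.1)]
    by_cases e1 : a = v1 ∧ b = v2
    · have e2 : ¬ (a = v2 ∧ b = v1) := fun h0 => hne (e1.1.symm.trans h0.1)
      rw [chi_pos e1, chi_neg e2]
      have : ¬ G.Adj a b := by
        rw [adjiff]; rintro (h0 | h0 | h0)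
        · exact h0.2.2.2.1 e1
        · exact ea h0.1
        · exact eb h0.1
      rw [chi_neg this]; ring
    · by_cases e2 : a = v2 ∧ b = v1
      · rw [chi_neg e1, chi_pos e2]
        have : ¬ G.Adj a b := by
          rw [adjiff]; rintro (h0 | h0 | h0)
          · exact h0.2.2.2.2 e2
          · exact ea h0.1
          · exact eb h0.1
        rw [chi_neg this]; ring
      · rw [chi_neg e1, chi_neg e2]
        have : G.Adj a b := by
          rw [adjiff]
          exact Or.inl ⟨e0.1.1, e0.1.2, fun h0 => e0.2 h0.symm, e1, e2⟩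
        rw [chi_pos this]; ring
  · have e1 : ¬ (a = v1 ∧ b = v2) := by
      rintro ⟨rfl, rfl⟩; exact e0 ⟨⟨hv1, hv2⟩, h21⟩
    have e2 : ¬ (a = v2 ∧ b = v1) := by
      rintro ⟨rfl, rfl⟩; exact e0 ⟨⟨hv2, hv1⟩, h.h12⟩
    rw [chi_neg e0, chi_neg e1, chi_neg e2]
    by_cases e3 : a = w ∧ b ∈ A
    · have e4 : ¬ (b = w ∧ a ∈ A) := fun h0 => hwA (e3.1 ▸ h0.2)
      rw [chi_pos e3, chi_neg e4]
      have : G.Adj a b := by rw [adjiff]; exact Or.inr (Or.inl e3)
      rw [chi_pos this]; ring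
    · by_cases e4 : b = w ∧ a ∈ A
      · rw [chi_neg e3, chi_pos e4]
        have : G.Adj a b := by rw [adjiff]; exact Or.inr (Or.inr e4)
        rw [chi_pos this]; ring
      · rw [chi_neg e3, chi_neg e4]
        have : ¬ G.Adj a b := by
          rw [adjiff]; rintro (h0 | h0 | h0)
          · exact e0 ⟨⟨h0.1, h0.2.1⟩, fun h5 => h0.2.2.1 h5.symm⟩
          · exact e3 h0
          · exact e4 h0
        rw [chi_neg this]; ring

theorem sum_mem (S : Finset V) (f : V → ℝ) : ∑ b, chi (b ∈ S) * f b = ∑ b ∈ S, f b := by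
  classical
  have h1 : ∀ b : V, chi (b ∈ S) * f b = if b ∈ S then f b else 0 := by
    intro b
    by_cases hb : b ∈ S
    · rw [chi_pos hb, if_pos hb, one_mul]
    · rw [chi_neg hb, if_neg hb, zero_mul]
  rw [Finset.sum_congr rfl (fun b _ => h1 b), Finset.sum_ite_mem, Finset.univ_inter]

theorem sum_eq (a : V) (f : V → ℝ) : ∑ b, chi (b = a) * f b = f a := by
  classical
  rw [Finset.sum_eq_single a]
  · rw [chi_pos rfl, one_mul]
  · intro b _ hb; rw [chi_neg hb, zero_mul]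
  · intro h0; exact absurd (Finset.mem_univ _) h0

/-- the quadratic form of a graph of type D -/
theorem form {G : SimpleGraph V} {N : ℕ} {H : Finset V} {c : V → Fin r} {w : V} {A : Finset V}
    {v1 v2 : V} (h : WD G N H c w A v1 v2) (z : V → ℝ) :
    ∑ a, ∑ b, ad G a b * (z a * z b) =
      (∑ v ∈ H, z v) ^ 2 - ∑ i, (cs z H c i) ^ 2 + 2 * (z w * ∑ v ∈ A, z v)
        - 2 * (z v1 * z v2) := by
  classical
  have h1 : ∀ a : V, ∑ b, ad G a b * (z a * z b) =
      chi (a ∈ H) * (z a * ∑ v ∈ H, z v) - chi (a ∈ H) * (z a * cs z H c (c a))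
      + chi (a = w) * (z a * ∑ v ∈ A, z v) + chi (a ∈ A) * (z a * z w)
      - chi (a = v1) * (z a * z v2) - chi (a = v2) * (z a * z v1) := by
    intro a
    have e : ∀ b : V, ad G a b * (z a * z b) =
        chi (a ∈ H) * z a * (chi (b ∈ H) * z b)
        - chi (a ∈ H) * z a * (chi (b ∈ cl H c (c a)) * z b)
        + chi (a = w) * z a * (chi (b ∈ A) * z b) + chi (a ∈ A) * z a * (chi (b = w) * z b)
        - chi (a = v1) * z a * (chi (b = v2) * z b) - chi (a = v2) * z a * (chi (b = v1) * z b) := by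
      intro b
      have : chi (b ∈ cl H c (c a)) = chi (b ∈ H) * chi (c b = c a) := by
        rw [← chi_and]; exact chi_congr mem_cl
      rw [ad_WD h, this]; ring
    rw [Finset.sum_congr rfl (fun b _ => e b), Finset.sum_sub_distrib, Finset.sum_sub_distrib,
      Finset.sum_add_distrib, Finset.sum_add_distrib, Finset.sum_sub_distrib,
      ← Finset.mul_sum, ← Finset.mul_sum, ← Finset.mul_sum, ← Finset.mul_sum, ← Finset.mul_sum,
      ← Finset.mul_sum, sum_mem, sum_mem, sum_mem, sum_eq, sum_eq, sum_eq]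
    unfold cs
    ring
  rw [Finset.sum_congr rfl (fun a _ => h1 a), Finset.sum_sub_distrib, Finset.sum_sub_distrib,
      Finset.sum_add_distrib, Finset.sum_add_distrib, Finset.sum_sub_distrib,
      sum_mem, sum_mem, sum_mem, sum_eq, sum_eq, sum_eq, ← Finset.sum_mul, ← Finset.sum_mul]
  have h2 : ∑ a ∈ H, z a * cs z H c (c a) = ∑ i, (cs z H c i) ^ 2 := by
    rw [← sum_cl H c]
    refine Finset.sum_congr rfl fun i _ => ?_
    have h6 : ∀ v ∈ cl H c i, z v * cs z H c (c v) = z v * cs z H c i := by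
      intro v hv
      rw [(mem_cl.mp hv).2]
    rw [Finset.sum_congr rfl h6, ← Finset.sum_mul, sq]
    rfl
  rw [h2]; ring

end

/-- the final inequality between real numbers -/
theorem core {al R s g d t E Z K B s0 c3 c4 : ℝ} (hR : 1 ≤ R) (hal0 : 2 / 3 ≤ al) (hal1 : al ≤ 1)
    (hs : 0 ≤ s) (hs0 : s ≤ s0) (hg1 : -c3 ≤ g) (hg2 : g ≤ c3) (hd : d ≤ c4) (hc4 : 0 ≤ c4)
    (ht : 0 ≤ t) (ht2 : t ≤ 3 / 2) (hB : 1 ≤ B) (hE : E ≤ B * R) (hZ : Z ≤ (1 + B) ^ 2)
    (hK : K = 2 * (s0 ^ 2 + c4 + c3 + 3 * B + 2 * (1 + B) ^ 2 + s0 * c3 + 6 + 3 * c3)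
      + 4 * s0 + 2 * c3 + 1) (hKR : K ≤ R ^ 2) :
    0 < R ^ 2 - (1 + al) * s + t ^ 2 + g / R ∧
    (al * R ^ 2 - al * s + al * t ^ 2 - K / R) * (R ^ 2 - (1 + al) * s + t ^ 2 + g / R) ≤
      al * R ^ 4 - al * (2 + al) * s * R ^ 2 + s ^ 2 - d + 2 * al * g * R
        + 2 * (al * R ^ 2 * t ^ 2 - t * E) - 2 * Z := by
  have hR0 : 0 < R := by linarith
  have hs00 : 0 ≤ s0 := le_trans hs hs0
  have hc3 : 0 ≤ c3 := by linarith
  have hB0 : 0 ≤ B := by linarith
  have hal : 0 ≤ al := by linarith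
  obtain ⟨g', hg'⟩ : ∃ g', g' = g / R := ⟨_, rfl⟩
  have hgg : g = g' * R := by rw [hg']; field_simp
  obtain ⟨k, hk⟩ : ∃ k, k = K / R := ⟨_, rfl⟩
  rw [← hg', ← hk]
  have cR : c3 * 1 ≤ c3 * R := mul_le_mul_of_nonneg_left hR hc3
  have hgR : -c3 ≤ g' := by
    rw [hg', le_div_iff₀ hR0]
    linarith
  have hgR' : g' ≤ c3 := by
    rw [hg', div_le_iff₀ hR0]
    linarith
  have hM1 : 0 ≤ s0 ^ 2 + c4 + c3 + 3 * B + 2 * (1 + B) ^ 2 + s0 * c3 + 6 + 3 * c3 := by positivity
  have hbig : 4 * s0 + 2 * c3 ≤ R ^ 2 := by linarith only [hM1, hK, hKR]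
  have hals : (1 + al) * s ≤ 2 * s0 :=
    mul_le_mul (by linarith only [hal1]) hs0 hs (by norm_num)
  have hD : R ^ 2 / 2 ≤ R ^ 2 - (1 + al) * s + t ^ 2 + g' := by
    linarith only [sq_nonneg t, hals, hgR, hbig]
  have hDpos : 0 < R ^ 2 - (1 + al) * s + t ^ 2 + g' := by
    have : 0 < R ^ 2 / 2 := by positivity
    linarith only [this, hD]
  refine ⟨hDpos, ?_⟩
  have hK0 : 0 ≤ K := by
    rw [hK]; positivity
  have hk0 : 0 ≤ k := by rw [hk]; positivity
  -- the gain
  have hgain : K * R / 2 ≤ k * (R ^ 2 - (1 + al) * s + t ^ 2 + g') := by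
    have h1 : k * (R ^ 2 / 2) ≤ k * (R ^ 2 - (1 + al) * s + t ^ 2 + g') :=
      mul_le_mul_of_nonneg_left hD hk0
    have h2 : k * (R ^ 2 / 2) = K * R / 2 := by rw [hk]; field_simp
    linarith only [h1, h2]
  -- the expansion
  have key : al * R ^ 4 - al * (2 + al) * s * R ^ 2 + s ^ 2 - d + 2 * al * g * R
        + 2 * (al * R ^ 2 * t ^ 2 - t * E) - 2 * Z
      - (al * R ^ 2 - al * s + al * t ^ 2 - k) * (R ^ 2 - (1 + al) * s + t ^ 2 + g')
      = s ^ 2 * (1 - al * (1 + al)) - d + al * g' * R ^ 2 - 2 * (t * E) - 2 * Z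
        + al * (2 + al) * s * t ^ 2 + al * s * g' - al * t ^ 4 - al * t ^ 2 * g'
        + k * (R ^ 2 - (1 + al) * s + t ^ 2 + g') := by
    rw [hgg]
    ring
  have t2 : t ^ 2 ≤ 9 / 4 := by
    have := pow_le_pow_left₀ ht ht2 2
    linarith only [this, show ((3 : ℝ) / 2) ^ 2 = 9 / 4 by norm_num]
  have t20 : 0 ≤ t ^ 2 := sq_nonneg t
  have b1 : -(s0 ^ 2) ≤ s ^ 2 * (1 - al * (1 + al)) := by
    have e1 : s ^ 2 ≤ s0 ^ 2 := pow_le_pow_left₀ hs hs0 2
    have e3 : al * (1 + al) ≤ 1 * 2 :=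
      mul_le_mul hal1 (by linarith only [hal1]) (by linarith only [hal]) (by norm_num)
    have e2 : -1 ≤ 1 - al * (1 + al) := by linarith only [e3]
    have e4 := mul_le_mul_of_nonneg_left e2 (sq_nonneg s)
    linarith only [e1, e4]
  have b2 : -(c3 * R) ≤ al * g' * R ^ 2 := by
    have e1 : al * g' * R ^ 2 = al * g * R := by rw [hgg]; ring
    have e2 : al * (-c3) ≤ al * g := mul_le_mul_of_nonneg_left hg1 hal
    have e3 : al * c3 ≤ 1 * c3 := mul_le_mul_of_nonneg_right hal1 hc3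
    have e4 : -c3 ≤ al * g := by linarith only [e2, e3]
    have e5 := mul_le_mul_of_nonneg_right e4 hR0.le
    linarith only [e1, e5]
  have b3 : -(3 * B * R) ≤ -(2 * (t * E)) := by
    have e1 : t * E ≤ t * (B * R) := mul_le_mul_of_nonneg_left hE ht
    have e2 : t * (B * R) ≤ 3 / 2 * (B * R) := mul_le_mul_of_nonneg_right ht2 (by positivity)
    linarith only [e1, e2]
  have b4 : 0 ≤ al * (2 + al) * s * t ^ 2 := by positivity
  have b5 : -(s0 * c3) ≤ al * s * g' := by
    have e1 : al * s ≤ 1 * s0 := mul_le_mul hal1 hs0 hs (by norm_num)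
    have e2 : 0 ≤ al * s := by positivity
    have e3 : al * s * (-c3) ≤ al * s * g' := mul_le_mul_of_nonneg_left hgR e2
    have e4 : al * s * c3 ≤ 1 * s0 * c3 := mul_le_mul_of_nonneg_right e1 hc3
    linarith only [e3, e4]
  have b6 : -6 ≤ -(al * t ^ 4) := by
    have e1 : t ^ 4 = t ^ 2 * t ^ 2 := by ring
    have e2 : t ^ 2 * t ^ 2 ≤ 9 / 4 * (9 / 4) := mul_le_mul t2 t2 t20 (by norm_num)
    have e3 : 0 ≤ t ^ 4 := by positivity
    have e4 : al * t ^ 4 ≤ 1 * t ^ 4 := mul_le_mul_of_nonneg_right hal1 e3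
    linarith only [e1, e2, e4]
  have b7 : -(3 * c3) ≤ -(al * t ^ 2 * g') := by
    have e1 : al * t ^ 2 ≤ 1 * (9 / 4) := mul_le_mul hal1 t2 t20 (by norm_num)
    have e2 : 0 ≤ al * t ^ 2 := by positivity
    have e3 : al * t ^ 2 * g' ≤ al * t ^ 2 * c3 := mul_le_mul_of_nonneg_left hgR' e2
    have e4 : al * t ^ 2 * c3 ≤ 1 * (9 / 4) * c3 := mul_le_mul_of_nonneg_right e1 hc3
    linarith only [e3, e4, hc3]
  have M0 : 0 ≤ s0 ^ 2 + c4 + 2 * (1 + B) ^ 2 + s0 * c3 + 6 + 3 * c3 := by positivity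
  have hfin : s0 ^ 2 + c4 + c3 * R + 3 * B * R + 2 * (1 + B) ^ 2 + s0 * c3 + 6 + 3 * c3 ≤
      K * R / 2 := by
    have e1 : s0 ^ 2 + c4 + 2 * (1 + B) ^ 2 + s0 * c3 + 6 + 3 * c3 ≤
        (s0 ^ 2 + c4 + 2 * (1 + B) ^ 2 + s0 * c3 + 6 + 3 * c3) * R :=
      le_mul_of_one_le_right M0 hR
    have e2 : K * R / 2 = (s0 ^ 2 + c4 + 2 * (1 + B) ^ 2 + s0 * c3 + 6 + 3 * c3) * R + c3 * R
        + 3 * B * R + (4 * s0 + 2 * c3 + 1) * R / 2 := by rw [hK]; ring
    have e3 : 0 ≤ (4 * s0 + 2 * c3 + 1) * R / 2 := by positivity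
    linarith only [e1, e2, e3]
  have hX : 0 ≤ s ^ 2 * (1 - al * (1 + al)) - d + al * g' * R ^ 2 - 2 * (t * E) - 2 * Z
        + al * (2 + al) * s * t ^ 2 + al * s * g' - al * t ^ 4 - al * t ^ 2 * g'
        + k * (R ^ 2 - (1 + al) * s + t ^ 2 + g') := by
    linarith only [b1, b2, b3, b4, b5, b6, b7, hd, hZ, hgain, hfin]
  linarith only [key, hX]

/-- sums over the classes -/
theorem sum1 {r : ℕ} (xi : Fin r → ℝ) {N : ℝ} (hr : (3 : ℝ) ≤ r) (hN : 0 < N) (h0 : ∑ i, xi i = 0)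
    (al : ℝ) : ∑ i, (N / r + al * xi i - xi i ^ 2 / N) = N - (∑ i, xi i ^ 2) / N := by
  have hr0 : (0 : ℝ) < r := by linarith
  have : ∀ i ∈ (univ : Finset (Fin r)), (N / r + al * xi i - xi i ^ 2 / N) =
      N / r + al * xi i - 1 / N * xi i ^ 2 := by
    intro i _
    ring
  rw [Finset.sum_congr rfl this, Finset.sum_sub_distrib, Finset.sum_add_distrib,
    ← Finset.mul_sum, ← Finset.mul_sum, h0, Finset.sum_const, Finset.card_univ,
    Fintype.card_fin, nsmul_eq_mul]
  field_simp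
  ring

theorem sum2 {r : ℕ} (xi : Fin r → ℝ) {N : ℝ} (hr : (3 : ℝ) ≤ r) (hN : 0 < N) (h0 : ∑ i, xi i = 0)
    (al : ℝ) : ∑ i, (N / r + al * xi i - xi i ^ 2 / N) ^ 2 =
      N ^ 2 / r + al ^ 2 * (∑ i, xi i ^ 2) + (∑ i, xi i ^ 4) / N ^ 2 - 2 * (∑ i, xi i ^ 2) / r
      - 2 * al * (∑ i, xi i ^ 3) / N := by
  have hr0 : (0 : ℝ) < r := by linarith
  have : ∀ i ∈ (univ : Finset (Fin r)), (N / r + al * xi i - xi i ^ 2 / N) ^ 2 =
      N ^ 2 / r ^ 2 + 2 * (N / r) * al * xi i + (al ^ 2 - 2 / r) * xi i ^ 2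
        + (1 / N ^ 2) * xi i ^ 4 - (2 * al / N) * xi i ^ 3 := by
    intro i _
    field_simp
    ring
  rw [Finset.sum_congr rfl this, Finset.sum_sub_distrib, Finset.sum_add_distrib,
    Finset.sum_add_distrib, Finset.sum_add_distrib, ← Finset.mul_sum, ← Finset.mul_sum,
    ← Finset.mul_sum, ← Finset.mul_sum, h0, Finset.sum_const, Finset.card_univ,
    Fintype.card_fin, nsmul_eq_mul]
  field_simp
  ring

theorem sum3 {r : ℕ} (xi : Fin r → ℝ) {N : ℝ} (hr : (3 : ℝ) ≤ r) (hN : 0 < N) (h0 : ∑ i, xi i = 0)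
    {al : ℝ} (hal : al = 1 - 1 / r) : ∑ i, (N / r + xi i) * (1 - xi i / N) ^ 2 =
      N - (1 + al) * (∑ i, xi i ^ 2) / N + (∑ i, xi i ^ 3) / N ^ 2 := by
  have hr0 : (0 : ℝ) < r := by linarith
  have : ∀ i ∈ (univ : Finset (Fin r)), (N / r + xi i) * (1 - xi i / N) ^ 2 =
      N / r + (1 - 2 / r) * xi i + (1 / (r * N) - 2 / N) * xi i ^ 2 + (1 / N ^ 2) * xi i ^ 3 := by
    intro i _
    field_simp
    ring
  rw [Finset.sum_congr rfl this, Finset.sum_add_distrib, Finset.sum_add_distrib,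
    Finset.sum_add_distrib, ← Finset.mul_sum, ← Finset.mul_sum,
    ← Finset.mul_sum, h0, Finset.sum_const, Finset.card_univ,
    Fintype.card_fin, nsmul_eq_mul, hal]
  field_simp
  ring

theorem sum_abs_pow {r : ℕ} (xi : Fin r → ℝ) {b : ℝ} (hb : ∀ i, |xi i| ≤ b) (m : ℕ) :
    ∑ i, |xi i| ^ m ≤ r * b ^ m := by
  have : ∀ i ∈ (univ : Finset (Fin r)), |xi i| ^ m ≤ b ^ m :=
    fun i _ => pow_le_pow_left₀ (abs_nonneg _) (hb i) m
  have h2 := Finset.sum_le_card_nsmul _ _ _ this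
  rw [Finset.card_univ, Fintype.card_fin, nsmul_eq_mul] at h2
  exact h2

theorem sumpow {r : ℕ} (xi : Fin r → ℝ) {b : ℝ} (hb : ∀ i, |xi i| ≤ b) :
    ∑ i, xi i ^ 2 ≤ r * b ^ 2 ∧ |∑ i, xi i ^ 3| ≤ r * b ^ 3 ∧ ∑ i, xi i ^ 4 ≤ r * b ^ 4 := by
  refine ⟨?_, ?_, ?_⟩
  · have e : ∑ i, xi i ^ 2 = ∑ i, |xi i| ^ 2 := Finset.sum_congr rfl fun i _ => (sq_abs _).symm
    rw [e]; exact sum_abs_pow xi hb 2
  · have e1 : |∑ i, xi i ^ 3| ≤ ∑ i, |xi i ^ 3| := Finset.abs_sum_le_sum_abs _ _
    have e2 : ∑ i, |xi i ^ 3| = ∑ i, |xi i| ^ 3 := Finset.sum_congr rfl fun i _ => abs_pow _ _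
    exact (e1.trans_eq e2).trans (sum_abs_pow xi hb 3)
  · have e : ∑ i, xi i ^ 4 = ∑ i, |xi i| ^ 4 := by
      refine Finset.sum_congr rfl fun i _ => ?_
      rw [← abs_pow, abs_of_nonneg (by positivity)]
    rw [e]; exact sum_abs_pow xi hb 4

theorem fin_real {al rr N R S C3 C4 t E Z K B s0 c3 c4 a lam : ℝ} (hal : al = 1 - 1 / rr)
    (hR : 1 ≤ R) (hR2 : R ^ 2 = N) (hal0 : 2 / 3 ≤ al) (hal1 : al ≤ 1)
    (hS0 : 0 ≤ S) (hS : S ≤ s0 * R ^ 2) (hC3 : |C3| ≤ c3 * R ^ 3) (hC4 : C4 ≤ c4 * R ^ 4)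
    (hc4 : 0 ≤ c4) (ht : 0 ≤ t) (ht2 : t ≤ 3 / 2) (ha : a = al * N * t) (hB : 1 ≤ B)
    (hE : E ≤ B * R) (hZ : Z ≤ (1 + B) ^ 2)
    (hK : K = 2 * (s0 ^ 2 + c4 + c3 + 3 * B + 2 * (1 + B) ^ 2 + s0 * c3 + 6 + 3 * c3)
      + 4 * s0 + 2 * c3 + 1) (hKN : K ≤ N)
    (hray : (N - S / N) ^ 2 - (N ^ 2 / rr + al ^ 2 * S + C4 / N ^ 2 - 2 * S / rr
      - 2 * al * C3 / N) + 2 * (t * (a - E)) - 2 * Z ≤
        lam * (N - (1 + al) * S / N + C3 / N ^ 2 + t ^ 2)) :
    al * N - al * S / N + al * t ^ 2 - K / R ≤ lam := by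
  have hR0 : 0 < R := by linarith
  subst hR2
  obtain ⟨hDpos, hcore⟩ := core (al := al) (R := R) (s := S / R ^ 2) (g := C3 / R ^ 3)
    (d := C4 / R ^ 4) (t := t) (E := E) (Z := Z) (K := K) (B := B) (s0 := s0)
    (c3 := c3) (c4 := c4) hR hal0 hal1 (by positivity)
    (by rw [div_le_iff₀ (by positivity)]; exact hS)
    (by
      rw [le_div_iff₀ (by positivity)]
      have := (abs_le.mp hC3).1
      linarith only [this])
    (by
      rw [div_le_iff₀ (by positivity)]
      exact (abs_le.mp hC3).2)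
    (by rw [div_le_iff₀ (by positivity)]; exact hC4) hc4 ht ht2 hB hE hZ hK hKN
  have eD : R ^ 2 - (1 + al) * (S / R ^ 2) + t ^ 2 + C3 / R ^ 3 / R =
      R ^ 2 - (1 + al) * S / R ^ 2 + C3 / (R ^ 2) ^ 2 + t ^ 2 := by
    field_simp
    ring
  have eQ : al * R ^ 4 - al * (2 + al) * (S / R ^ 2) * R ^ 2 + (S / R ^ 2) ^ 2 - C4 / R ^ 4
        + 2 * al * (C3 / R ^ 3) * R + 2 * (al * R ^ 2 * t ^ 2 - t * E) - 2 * Z =
      (R ^ 2 - S / R ^ 2) ^ 2 - ((R ^ 2) ^ 2 / rr + al ^ 2 * S + C4 / (R ^ 2) ^ 2 - 2 * S / rr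
      - 2 * al * C3 / R ^ 2) + 2 * (t * (a - E)) - 2 * Z := by
    have e1 : (1 : ℝ) / rr = 1 - al := by rw [hal]; ring
    have e2 : (R ^ 2) ^ 2 / rr = (R ^ 2) ^ 2 * (1 - al) := by rw [← e1]; ring
    have e3 : 2 * S / rr = 2 * S * (1 - al) := by rw [← e1]; ring
    rw [e2, e3, ha]
    field_simp
    ring
  rw [eD, eQ] at hcore
  rw [eD] at hDpos
  have hfin := le_of_mul_le_mul_right (le_trans hcore hray) hDpos
  have eL : al * R ^ 2 - al * S / R ^ 2 + al * t ^ 2 - K / R =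
      al * R ^ 2 - al * (S / R ^ 2) + al * t ^ 2 - K / R := by ring
  rw [eL]
  exact hfin

end LOWG

open LOWG in
theorem blk_LOWG : Stmt_LOWG := by
  classical
  intro r B hr hB
  have hrr : (3 : ℝ) ≤ r := by exact_mod_cast hr
  have hr0 : (0 : ℝ) < r := by linarith
  have hB0 : 0 < B := by linarith
  obtain ⟨s0, hs0d⟩ : ∃ s0 : ℝ, s0 = r * B ^ 2 := ⟨_, rfl⟩
  obtain ⟨c3, hc3d⟩ : ∃ c3 : ℝ, c3 = r * B ^ 3 := ⟨_, rfl⟩
  obtain ⟨c4, hc4d⟩ : ∃ c4 : ℝ, c4 = r * B ^ 4 := ⟨_, rfl⟩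
  have hs00 : 0 ≤ s0 := by rw [hs0d]; positivity
  have hc30 : 0 ≤ c3 := by rw [hc3d]; positivity
  have hc40 : 0 ≤ c4 := by rw [hc4d]; positivity
  obtain ⟨K, hK⟩ : ∃ K : ℝ, K = 2 * (s0 ^ 2 + c4 + c3 + 3 * B + 2 * (1 + B) ^ 2 + s0 * c3 + 6
      + 3 * c3) + 4 * s0 + 2 * c3 + 1 := ⟨_, rfl⟩
  have hK1 : 1 ≤ K := by
    rw [hK]
    have : 0 ≤ 2 * (s0 ^ 2 + c4 + c3 + 3 * B + 2 * (1 + B) ^ 2 + s0 * c3 + 6 + 3 * c3)
      + 4 * s0 + 2 * c3 := by positivity
    linarith only [this]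
  refine ⟨K, hK1, ?_⟩
  intro V _ G N H c w A v1 v2 h hKN hdev
  have hal0 := al_ge hr
  have hal1 := (al_lt hr).le
  have hN1 : (1 : ℝ) ≤ N := le_trans hK1 hKN
  have hN0 : (0 : ℝ) < N := by linarith only [hN1]
  obtain ⟨R, hRd⟩ : ∃ R : ℝ, R = √(N : ℝ) := ⟨_, rfl⟩
  rw [← hRd] at hdev ⊢
  have hR2 : R ^ 2 = N := by rw [hRd]; exact Real.sq_sqrt hN0.le
  have hR1 : 1 ≤ R := by
    rw [hRd]; exact Real.one_le_sqrt.mpr hN1
  have hR0 : 0 < R := by linarith only [hR1]
  -- deviations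
  obtain ⟨xi, hxi⟩ : ∃ xi : Fin r → ℝ, ∀ i, xi i = sz H c i - N / r := ⟨_, fun _ => rfl⟩
  have hxiB : ∀ i, |xi i| ≤ B * R := fun i => by rw [hxi]; exact hdev i
  have hsumn : ∑ i, sz H c i = N := by
    have := sum_card_cl H c
    rw [h.card] at this
    change ∑ i, ((cl H c i).card : ℝ) = N
    exact_mod_cast this
  have hsumxi : ∑ i, xi i = 0 := by
    rw [Finset.sum_congr rfl (fun i _ => hxi i), Finset.sum_sub_distrib, hsumn, Finset.sum_const,
      Finset.card_univ, Fintype.card_fin, nsmul_eq_mul]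
    field_simp
    ring
  have himb : imb H c = ∑ i, xi i ^ 2 := by
    unfold imb
    rw [h.card]
    exact Finset.sum_congr rfl fun i _ => by rw [hxi]
  obtain ⟨hSs, hC3b, hC4b⟩ := sumpow xi hxiB
  have hS0 : 0 ≤ ∑ i, xi i ^ 2 := Finset.sum_nonneg fun i _ => sq_nonneg _
  -- t
  obtain ⟨t, ht⟩ : ∃ t : ℝ, t = (A.card : ℝ) / (al r * N) := ⟨_, rfl⟩
  rw [← ht]
  have halN : 0 < al r * N := mul_pos (by linarith only [hal0]) hN0
  have hAN : (A.card : ℝ) ≤ N := by
    have := Finset.card_le_card h.hA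
    rw [h.card] at this
    exact_mod_cast this
  have ht0 : 0 ≤ t := by rw [ht]; positivity
  have ht2 : t ≤ 3 / 2 := by
    rw [ht, div_le_iff₀ halN]
    have := mul_le_mul_of_nonneg_right hal0 hN0.le
    linarith only [this, hAN]
  have htA : (A.card : ℝ) = al r * N * t := by
    rw [ht]; field_simp
  -- the test vector
  obtain ⟨z, hz⟩ : ∃ z : V → ℝ, ∀ v, z v = if v ∈ H then 1 - xi (c v) / N else
    if v = w then t else 0 := ⟨_, fun _ => rfl⟩
  have zH : ∀ v ∈ H, z v = 1 - xi (c v) / N := by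
    intro v hv
    rw [hz, if_pos hv]
  have zw : z w = t := by
    rw [hz, if_neg h.hw, if_pos rfl]
  have z0 : ∀ v, v ∉ H → v ≠ w → z v = 0 := by
    intro v hv hvw
    rw [hz, if_neg hv, if_neg hvw]
  have szx : ∀ i, sz H c i = N / r + xi i := by
    intro i; rw [hxi]; ring
  have hal : al r = 1 - 1 / r := rfl
  have csz : ∀ i, cs z H c i = N / r + al r * xi i - xi i ^ 2 / N := by
    intro i
    have e1 : cs z H c i = sz H c i * (1 - xi i / N) := by
      unfold cs
      have : ∀ v ∈ cl H c i, z v = 1 - xi i / N := by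
        intro v hv
        rw [mem_cl] at hv
        rw [zH v hv.1, hv.2]
      rw [Finset.sum_congr rfl this, Finset.sum_const, nsmul_eq_mul]
      rfl
    rw [e1, szx, hal]
    field_simp
    ring
  have sumH : ∑ v ∈ H, z v = N - (∑ i, xi i ^ 2) / N := by
    rw [← sum_cl H c z, ← sum1 xi hrr hN0 hsumxi (al r)]
    exact Finset.sum_congr rfl fun i _ => csz i
  have sumcs : ∑ i, (cs z H c i) ^ 2 = N ^ 2 / r + (al r) ^ 2 * (∑ i, xi i ^ 2)
      + (∑ i, xi i ^ 4) / N ^ 2 - 2 * (∑ i, xi i ^ 2) / r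
      - 2 * al r * (∑ i, xi i ^ 3) / N := by
    rw [← sum2 xi hrr hN0 hsumxi (al r)]
    exact Finset.sum_congr rfl fun i _ => by rw [csz i]
  have sumsq : ∑ v, z v ^ 2 = N - (1 + al r) * (∑ i, xi i ^ 2) / N
      + (∑ i, xi i ^ 3) / N ^ 2 + t ^ 2 := by
    have e1 : ∑ v, z v ^ 2 = ∑ v ∈ H, z v ^ 2 + t ^ 2 := by
      rw [← Finset.sum_subset (Finset.subset_univ (insert w H)), Finset.sum_insert h.hw, zw]
      · ring
      · intro v _ hv
        rw [Finset.mem_insert, not_or] at hv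
        rw [z0 v hv.2 hv.1]; ring
    rw [e1, ← sum_cl H c (fun v => z v ^ 2), ← sum3 xi hrr hN0 hsumxi hal]
    congr 1
    refine Finset.sum_congr rfl fun i _ => ?_
    have e2 : ∀ v ∈ cl H c i, z v ^ 2 = (1 - xi i / N) ^ 2 := by
      intro v hv
      rw [mem_cl] at hv
      rw [zH v hv.1, hv.2]
    rw [Finset.sum_congr rfl e2, Finset.sum_const, nsmul_eq_mul, ← szx]
    rfl
  obtain ⟨E, hE⟩ : ∃ E : ℝ, E = ∑ v ∈ A, xi (c v) / N := ⟨_, rfl⟩
  have sumA : ∑ v ∈ A, z v = A.card - E := by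
    rw [hE, Finset.sum_congr rfl (fun v hv => zH v (h.hA hv)), Finset.sum_sub_distrib,
      Finset.sum_const, nsmul_eq_mul, mul_one]
  have hEb : E ≤ B * R := by
    have e1 : ∀ v ∈ A, xi (c v) / N ≤ B * R / N := by
      intro v _
      exact div_le_div_of_nonneg_right (le_trans (le_abs_self _) (hxiB _)) hN0.le
    have e2 := Finset.sum_le_card_nsmul _ _ _ e1
    rw [nsmul_eq_mul] at e2
    have e3 : (A.card : ℝ) * (B * R / N) ≤ N * (B * R / N) :=
      mul_le_mul_of_nonneg_right hAN (by positivity)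
    have e4 : N * (B * R / N) = B * R := by field_simp
    rw [hE]
    linarith only [e2, e3, e4]
  have zb : ∀ v ∈ H, |z v| ≤ 1 + B := by
    intro v hv
    rw [zH v hv]
    have e1 : |xi (c v) / N| ≤ B := by
      rw [abs_div, abs_of_pos hN0, div_le_iff₀ hN0]
      have e3 := hxiB (c v)
      have e2 : R ≤ N := by
        rw [← hR2, sq]; exact le_mul_of_one_le_right hR0.le hR1
      have e4 := mul_le_mul_of_nonneg_left e2 hB0.le
      linarith only [e3, e4]
    have e2 := abs_sub (1 : ℝ) (xi (c v) / N)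
    rw [abs_one] at e2
    linarith only [e1, e2]
  have hZ : z v1 * z v2 ≤ (1 + B) ^ 2 := by
    have e1 := zb v1 (h.hA (v1_mem h))
    have e2 := zb v2 (h.hA (v2_mem h))
    have e3 : z v1 * z v2 ≤ |z v1| * |z v2| := by rw [← abs_mul]; exact le_abs_self _
    have e4 : |z v1| * |z v2| ≤ (1 + B) * (1 + B) :=
      mul_le_mul e1 e2 (abs_nonneg _) (by linarith only [hB0])
    linarith only [e3, e4]
  -- Rayleigh
  have hV : Nonempty V := ⟨w⟩
  have hray := rayleigh G z
  rw [form h z, sumH, sumcs, sumA, zw, sumsq] at hray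
  rw [himb]
  refine fin_real (al := al r) (rr := r) (N := N) (R := R) (s0 := s0) (c3 := c3) (c4 := c4)
    (B := B) (a := A.card) (E := E) (Z := z v1 * z v2) hal hR1 hR2 hal0 hal1 hS0 ?_ ?_ ?_
    hc40 ht0 ht2 htA hB hEb hZ hK hKN hray
  · rw [hs0d]; linarith only [hSs]
  · rw [hc3d]; linarith only [hC3b]
  · rw [hc4d]; linarith only [hC4b]

end Pool.Agent.Work.MP_5532fa_up

end

section

/-!
# MP_5532fa_co, upgrade: block FINA (fine data of a graph with large spectral radius)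
-/

set_option linter.unusedSectionVars false

open Finset

namespace Pool.Agent.Work.MP_5532fa_up

open MP5532fa (specRad qf pE)

namespace FINA

/-- a graph with heavy vertices `H`: the neighbours of `v ∈ H` in `H` -/
lemma dg_near {V : Type} [Fintype V] {r : ℕ} {G : SimpleGraph V} {c : V → Fin r} {H : Finset V}
    (ind : ∀ u ∈ H, ∀ v ∈ H, c u = c v → ¬ G.Adj u v) {v : V} (hv : v ∈ H) :
    (dg G H v : ℝ) + sz H c (c v) ≤ H.card ∧
      (H.card : ℝ) ≤ dg G H v + sz H c (c v) + mis G H c := by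
  classical
  unfold dg sz mis
  have hsub1 : nb G H v ∪ cl H c (c v) ⊆ H := by
    intro u hu
    rcases Finset.mem_union.mp hu with h | h
    · exact (mem_nb.mp h).1
    · exact (mem_cl.mp h).1
  have hdis : Disjoint (nb G H v) (cl H c (c v)) := by
    rw [Finset.disjoint_left]
    intro u h1 h2
    exact ind v hv u (mem_cl.mp h2).1 (mem_cl.mp h2).2.symm (mem_nb.mp h1).2
  have hcard : (nb G H v ∪ cl H c (c v)).card = (nb G H v).card + (cl H c (c v)).card :=
    Finset.card_union_of_disjoint hdis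
  constructor
  · have := Finset.card_le_card hsub1
    rw [hcard] at this
    exact_mod_cast this
  · have hsub2 : H ⊆ (nb G H v ∪ cl H c (c v)) ∪
        (((H ×ˢ H).filter (fun e => c e.1 ≠ c e.2 ∧ ¬ G.Adj e.1 e.2)).filter
          (fun e => e.1 = v)).image (fun e => e.2) := by
      intro u hu
      by_cases h1 : G.Adj v u
      · exact Finset.mem_union_left _ (Finset.mem_union_left _ (mem_nb.mpr ⟨hu, h1⟩))
      · by_cases h2 : c u = c v
        · exact Finset.mem_union_left _ (Finset.mem_union_right _ (mem_cl.mpr ⟨hu, h2⟩))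
        · apply Finset.mem_union_right
          rw [Finset.mem_image]
          refine ⟨(v, u), ?_, rfl⟩
          rw [Finset.mem_filter, Finset.mem_filter, Finset.mem_product]
          exact ⟨⟨⟨hv, hu⟩, fun h => h2 h.symm, h1⟩, rfl⟩
    have h3 := Finset.card_le_card hsub2
    have h4 := Finset.card_union_le (nb G H v ∪ cl H c (c v))
      ((((H ×ˢ H).filter (fun e => c e.1 ≠ c e.2 ∧ ¬ G.Adj e.1 e.2)).filter
          (fun e => e.1 = v)).image (fun e => e.2))
    have h5 : ((((H ×ˢ H).filter (fun e => c e.1 ≠ c e.2 ∧ ¬ G.Adj e.1 e.2)).filter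
          (fun e => e.1 = v)).image (fun e => e.2)).card ≤
        ((H ×ˢ H).filter (fun e => c e.1 ≠ c e.2 ∧ ¬ G.Adj e.1 e.2)).card :=
      Finset.card_image_le.trans (Finset.card_filter_le _ _)
    have h6 : H.card ≤ (nb G H v).card + (cl H c (c v)).card +
        ((H ×ˢ H).filter (fun e => c e.1 ≠ c e.2 ∧ ¬ G.Adj e.1 e.2)).card := by omega
    exact_mod_cast h6

/-- from a small sum of squares to the single terms -/
lemma bal_of_imb {V : Type} [Fintype V] {r : ℕ} {c : V → Fin r} {H : Finset V} {N : ℕ}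
    (hN : H.card = N) {B : ℝ} (h0 : 0 ≤ B) (h : imb H c ≤ B ^ 2) (i : Fin r) :
    |sz H c i - (N : ℝ) / r| ≤ B := by
  have h1 : (sz H c i - (N : ℝ) / r) ^ 2 ≤ imb H c := by
    unfold imb
    rw [hN]
    exact Finset.single_le_sum (f := fun i => (sz H c i - (N : ℝ) / r) ^ 2)
      (fun _ _ => sq_nonneg _) (Finset.mem_univ i)
  exact abs_le_of_sq_le_sq (h1.trans h) h0

lemma sqrt_near {a : ℝ} (ha : 0 ≤ a) : |√a - 1| ≤ |a - 1| := by
  have h1 : a - 1 = (√a - 1) * (√a + 1) := by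
    have := Real.mul_self_sqrt ha
    nlinarith
  rw [h1, abs_mul, abs_of_nonneg (by positivity : (0 : ℝ) ≤ √a + 1)]
  have h2 : 0 ≤ |√a - 1| := abs_nonneg _
  have h3 : 0 ≤ √a := Real.sqrt_nonneg a
  nlinarith

end FINA

end Pool.Agent.Work.MP_5532fa_up

end
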