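import Mathlib
import Pool.Agent.Work.MP_5532fa_full.P01

section

/-!
# MP_5532fa_co upgrade, block ACC: accounting
-/

open Finset

namespace Pool.Agent.Work.MP_5532fa_up

open MP5532fa (specRad qf pE)

namespace ACC

/-- first claim, real form -/
theorem real1 {a K Kr r N M lam imb mis Sg eu j pE C1 : ℝ}
    (ha : 2 / 3 ≤ a) (ha1 : a < 1) (hK : 1 ≤ K) (hKr : 1 ≤ Kr) (hr : 3 ≤ r) (hN : 1 ≤ N)
    (hM0 : 0 ≤ M) (hlam : N / 2 ≤ lam) (hlamN : |lam - a * N| ≤ Kr)
    (himb0 : 0 ≤ imb) (himb : imb ≤ 4 * r * K ^ 2 * N) (hmis0 : 0 ≤ mis) (hmis : mis ≤ 2 * K * N)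
    (hSg0 : 0 ≤ Sg) (hSg : Sg ≤ 2 * K * N) (heu0 : 0 ≤ eu) (heu : eu ≤ 2 * K * N)
    (hj0 : 0 ≤ j) (hj : j ≤ a * N) (hE : a * M ^ 2 - imb - mis + 2 * Sg + eu = pE)
    (hp : |pE - a * N ^ 2 - 2 * j| ≤ r) (hC1 : C1 = 4 * r * K ^ 2 + 8 * K + 2 + r) :
    |N - M| ≤ 2 * C1 ∧
    |Sg / lam + eu / (2 * a * N) - imb / (2 * a * N) - mis / (2 * a * N) - (N - M) - j / (a * N)|
      ≤ (8 * K * Kr + r + 2 * C1 ^ 2) / N := by
  have hN0 : 0 < N := by linarith only [hN]
  have ha0 : 0 < a := by linarith only [ha]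
  have hlam0 : 0 < lam := by linarith only [hN, hlam]
  have hp' := abs_le.1 hp
  have hC1pos : 0 < C1 := by rw [hC1]; positivity
  have haN' : 2 / 3 * N ≤ a * N := mul_le_mul_of_nonneg_right ha hN0.le
  have haN1 : a * N ≤ 1 * N := mul_le_mul_of_nonneg_right ha1.le hN0.le
  have hrN : r * 1 ≤ r * N := mul_le_mul_of_nonneg_left hN (by linarith only [hp'])
  have hKN : 0 ≤ K * N := mul_nonneg (by linarith only [hK]) hN0.le
  have hjN : j ≤ N := by linarith only [hj, haN1]
  have h1 : |a * (N ^ 2 - M ^ 2)| ≤ C1 * N := by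
    rw [abs_le, hC1]
    have q1 : 0 ≤ 4 * r * K ^ 2 * N := himb0.trans himb
    constructor
    · linarith only [himb, hmis, hSg0, hSg, heu0, hj, hE, haN1, hrN, hp'.1, hp'.2]
    · linarith only [himb0, himb, hmis0, hSg, heu0, heu, hj0, hj, hE, haN1, hrN, hp'.1, hp'.2]
  have h2 : |N - M| ≤ 2 * C1 := by
    have e1 : a * (N ^ 2 - M ^ 2) = a * (N + M) * (N - M) := by ring
    rw [e1, abs_mul, abs_of_pos (by positivity : 0 < a * (N + M))] at h1
    have e2 : (1 / 2) * N * |N - M| ≤ a * (N + M) * |N - M| := by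
      apply mul_le_mul_of_nonneg_right _ (abs_nonneg _)
      have q := mul_nonneg ha0.le hM0
      linarith only [haN', haN1, q]
    have e3 : (1 / 2) * N * |N - M| ≤ C1 * N := e2.trans h1
    have e4 : N * |N - M| ≤ N * (2 * C1) := by linarith only [e3]
    exact le_of_mul_le_mul_left e4 hN0
  refine ⟨h2, ?_⟩
  have haN : 0 < a * N := by positivity
  have key : Sg / lam + eu / (2 * a * N) - imb / (2 * a * N) - mis / (2 * a * N) - (N - M)
      - j / (a * N) = Sg * (a * N - lam) / (lam * (a * N)) + (pE - a * N ^ 2 - 2 * j) / (2 * a * N)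
        - (N - M) ^ 2 / (2 * N) := by
    rw [← hE]
    field_simp
    ring
  rw [key]
  have t1 : |Sg * (a * N - lam) / (lam * (a * N))| ≤ 8 * K * Kr / N := by
    rw [abs_div, abs_mul, abs_of_nonneg hSg0, abs_of_pos (by positivity : 0 < lam * (a * N)),
      div_le_div_iff₀ (by positivity) hN0, abs_sub_comm]
    have e1 : Sg * |lam - a * N| ≤ 2 * K * N * Kr := by
      apply mul_le_mul hSg hlamN (abs_nonneg _) (by positivity)
    have e2 : N / 2 * (N / 2) ≤ lam * (a * N) := by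
      apply mul_le_mul hlam _ (by linarith only [haN', haN1]) hlam0.le
      linarith only [haN', haN1]
    calc Sg * |lam - a * N| * N ≤ 2 * K * N * Kr * N := mul_le_mul_of_nonneg_right e1 hN0.le
      _ = 8 * K * Kr * (N / 2 * (N / 2)) := by ring
      _ ≤ 8 * K * Kr * (lam * (a * N)) := mul_le_mul_of_nonneg_left e2 (by positivity)
  have t2 : |(pE - a * N ^ 2 - 2 * j) / (2 * a * N)| ≤ r / N := by
    rw [abs_div, abs_of_pos (by positivity : 0 < 2 * a * N), div_le_div_iff₀ (by positivity) hN0]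
    have e1 : |pE - a * N ^ 2 - 2 * j| * N ≤ r * N := mul_le_mul_of_nonneg_right hp hN0.le
    have e2 : r * N ≤ r * (2 * a * N) := by
      apply mul_le_mul_of_nonneg_left _ (by linarith only [hp'])
      linarith only [hN0, haN']
    linarith only [e1, e2]
  have t3 : |(N - M) ^ 2 / (2 * N)| ≤ 2 * C1 ^ 2 / N := by
    rw [abs_div, abs_of_nonneg (sq_nonneg _), abs_of_pos (by positivity : 0 < 2 * N),
      div_le_div_iff₀ (by positivity) hN0]
    have e1 : (N - M) ^ 2 ≤ (2 * C1) ^ 2 := by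
      rw [← sq_abs]
      exact pow_le_pow_left₀ (abs_nonneg _) h2 2
    calc (N - M) ^ 2 * N ≤ (2 * C1) ^ 2 * N := mul_le_mul_of_nonneg_right e1 hN0.le
      _ = 2 * C1 ^ 2 * (2 * N) := by ring
  calc |Sg * (a * N - lam) / (lam * (a * N)) + (pE - a * N ^ 2 - 2 * j) / (2 * a * N)
        - (N - M) ^ 2 / (2 * N)|
      ≤ |Sg * (a * N - lam) / (lam * (a * N)) + (pE - a * N ^ 2 - 2 * j) / (2 * a * N)|
        + |(N - M) ^ 2 / (2 * N)| := abs_sub _ _
    _ ≤ (|Sg * (a * N - lam) / (lam * (a * N))| + |(pE - a * N ^ 2 - 2 * j) / (2 * a * N)|)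
        + |(N - M) ^ 2 / (2 * N)| := add_le_add (abs_add_le _ _) le_rfl
    _ ≤ (8 * K * Kr / N + r / N) + 2 * C1 ^ 2 / N := by linarith only [t1, t2, t3]
    _ = (8 * K * Kr + r + 2 * C1 ^ 2) / N := by ring

/-- lower bound for `M - lam / a`, real form -/
theorem real2 {a K Kr Km Ka r N M lam t imb mis S2 mu C1 η : ℝ}
    (ha : 2 / 3 ≤ a) (ha1 : a < 1) (hK : 1 ≤ K) (hKr : 1 ≤ Kr) (hKm : 1 ≤ Km) (hKa : 1 ≤ Ka)
    (hr : 3 ≤ r) (hN : 1 ≤ N) (hM : N / 2 ≤ M) (hlam0 : 0 < lam) (ht0 : 0 < t)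
    (hlt : lam * t ≤ a) (htN : |t * N - 1| ≤ Kr / N) (hst : √t ≤ 2 / √N)
    (himb0 : 0 ≤ imb) (himb : imb ≤ 4 * r * K ^ 2 * N) (hmis0 : 0 ≤ mis) (hmis : mis ≤ 2 * K * N)
    (hS0 : 0 ≤ S2) (hη0 : 0 < η) (hη1 : η ≤ 1) (hNM : |N - M| ≤ 2 * C1) (hC1 : 0 < C1)
    (hmu : mu ≤ a * M - a * imb / M + Km / √M)
    (hl : lam ≤ mu - (1 - η) ^ 2 * t * mis + t / lam * (lam ^ 2 * S2) + Ka * √t) :
    imb / N + (1 - η) ^ 2 * (mis / (a * N)) - S2
      - (4 * Km + 4 * Ka + 16 * r * K ^ 2 * C1 + 4 * K * Kr) / √N ≤ M - lam / a := by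
  have hN0 : 0 < N := by linarith only [hN]
  have ha0 : 0 < a := by linarith only [ha]
  have hM0 : 0 < M := by linarith only [hN, hM]
  have hsN : 0 < √N := Real.sqrt_pos.2 hN0
  have hsN1 : 1 ≤ √N := by rw [Real.one_le_sqrt]; exact hN
  have hNsN : √N ≤ N := by
    rw [Real.sqrt_le_left (by linarith only [hN0]), sq]
    have q := mul_le_mul_of_nonneg_right hN hN0.le
    linarith only [q]
  have hsM : √N / 2 ≤ √M := by
    rw [div_le_iff₀ (by norm_num)]
    have : √N ≤ √(M * 4) := Real.sqrt_le_sqrt (by linarith only [hN, hM])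
    rw [Real.sqrt_mul hM0.le] at this
    have e : √(4 : ℝ) = 2 := by
      rw [show (4 : ℝ) = 2 ^ 2 by norm_num]; exact Real.sqrt_sq (by norm_num)
    rwa [e] at this
  have hsM0 : 0 < √M := Real.sqrt_pos.2 hM0
  -- the error terms
  have e1 : Km / √M / a ≤ 4 * Km / √N := by
    rw [div_div, div_le_div_iff₀ (by positivity) hsN]
    have q : √M * (2 / 3) ≤ √M * a := mul_le_mul_of_nonneg_left ha hsM0.le
    have this : √N ≤ 4 * (√M * a) := by linarith only [hsM, hsM0, q]
    have q2 := mul_le_mul_of_nonneg_left this (by linarith only [hKm] : (0 : ℝ) ≤ Km)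
    linarith only [q2]
  have e2 : Ka * √t / a ≤ 4 * Ka / √N := by
    rw [div_le_div_iff₀ ha0 hsN]
    have h1 : √t * √N ≤ 2 := by rwa [le_div_iff₀ hsN] at hst
    have h2 : Ka * √t * √N ≤ Ka * 2 := by
      rw [mul_assoc]; exact mul_le_mul_of_nonneg_left h1 (by linarith only [hKa])
    have q : Ka * (2 / 3) ≤ Ka * a := mul_le_mul_of_nonneg_left ha (by linarith only [hKa])
    linarith only [hKa, h2, q]
  have e3 : imb / N - 16 * r * K ^ 2 * C1 / √N ≤ imb / M := by
    have h1 : imb / N - imb / M ≤ 16 * r * K ^ 2 * C1 / N := by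
      have h2 : imb / N - imb / M = imb * (M - N) / (N * M) := by field_simp
      rw [h2, div_le_div_iff₀ (by positivity) hN0]
      have h3 : M - N ≤ 2 * C1 := by
        have := (abs_le.1 hNM).1; linarith only [this]
      have h4 : imb * (M - N) ≤ 4 * r * K ^ 2 * N * (2 * C1) := by
        rcases le_or_gt 0 (M - N) with h | h
        · exact mul_le_mul himb h3 h (by positivity)
        · have : imb * (M - N) ≤ 0 := mul_nonpos_of_nonneg_of_nonpos himb0 h.le
          have : 0 ≤ 4 * r * K ^ 2 * N * (2 * C1) := by positivity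
          linarith
      calc imb * (M - N) * N ≤ 4 * r * K ^ 2 * N * (2 * C1) * N :=
            mul_le_mul_of_nonneg_right h4 hN0.le
        _ = 16 * r * K ^ 2 * C1 * (N * (N / 2)) := by ring
        _ ≤ 16 * r * K ^ 2 * C1 * (N * M) := by
            apply mul_le_mul_of_nonneg_left _ (by positivity)
            exact mul_le_mul_of_nonneg_left hM hN0.le
    have h2 : 16 * r * K ^ 2 * C1 / N ≤ 16 * r * K ^ 2 * C1 / √N :=
      div_le_div_of_nonneg_left (by positivity) hsN hNsN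
    linarith only [h1, h2]
  have hη2 : 0 ≤ (1 - η) ^ 2 := sq_nonneg _
  have hη3 : (1 - η) ^ 2 ≤ 1 := pow_le_one₀ (by linarith only [hη1]) (by linarith only [hη0])
  have e4 : (1 - η) ^ 2 * (mis / (a * N)) - 4 * K * Kr / √N ≤ (1 - η) ^ 2 * t * mis / a := by
    have h1 : (1 - η) ^ 2 * (mis / (a * N)) - (1 - η) ^ 2 * t * mis / a =
        (1 - η) ^ 2 * (mis * (1 - t * N) / (a * N)) := by field_simp
    have h2 : mis * (1 - t * N) / (a * N) ≤ 4 * K * Kr / N := by
      rw [div_le_div_iff₀ (by positivity) hN0]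
      have h3 : 1 - t * N ≤ Kr / N := by
        have := (abs_le.1 htN).1; linarith only [this]
      have h4 : mis * (1 - t * N) ≤ 2 * K * N * (Kr / N) := by
        rcases le_or_gt 0 (1 - t * N) with h | h
        · exact mul_le_mul hmis h3 h (by positivity)
        · have h5 : mis * (1 - t * N) ≤ 0 := mul_nonpos_of_nonneg_of_nonpos hmis0 h.le
          have h6 : 0 ≤ 2 * K * N * (Kr / N) := by positivity
          linarith only [h5, h6]
      have h5 : 2 * K * N * (Kr / N) = 2 * K * Kr := by field_simp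
      rw [h5] at h4
      have h6 : mis * (1 - t * N) * N ≤ 2 * K * Kr * N := mul_le_mul_of_nonneg_right h4 hN0.le
      have h7 : 2 * K * Kr * N ≤ 4 * K * Kr * (a * N) := by
        have q0 : 0 ≤ 4 * K * Kr * N := by positivity
        have q : 4 * K * Kr * N * (2 / 3) ≤ 4 * K * Kr * N * a := mul_le_mul_of_nonneg_left ha q0
        linarith only [q0, q]
      linarith only [h6, h7]
    have h3 : (1 - η) ^ 2 * (mis * (1 - t * N) / (a * N)) ≤ 4 * K * Kr / N := by
      have h4 : 0 ≤ 4 * K * Kr / N := by positivity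
      rcases le_or_gt 0 (mis * (1 - t * N) / (a * N)) with h | h
      · calc (1 - η) ^ 2 * (mis * (1 - t * N) / (a * N)) ≤ 1 * (mis * (1 - t * N) / (a * N)) :=
              mul_le_mul_of_nonneg_right hη3 h
          _ ≤ _ := by rw [one_mul]; exact h2
      · have := mul_nonpos_of_nonneg_of_nonpos hη2 h.le
        linarith only [h4, this]
    have h4 : 4 * K * Kr / N ≤ 4 * K * Kr / √N :=
      div_le_div_of_nonneg_left (by positivity) hsN hNsN
    linarith only [h1, h3, h4]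
  have e5 : t / lam * (lam ^ 2 * S2) / a ≤ S2 := by
    have h1 : t / lam * (lam ^ 2 * S2) / a = lam * t / a * S2 := by field_simp
    rw [h1]
    have h2 : lam * t / a ≤ 1 := by rw [div_le_one ha0]; exact hlt
    calc lam * t / a * S2 ≤ 1 * S2 := mul_le_mul_of_nonneg_right h2 hS0
      _ = S2 := one_mul _
  have e6 : lam / a ≤ M - imb / M + Km / √M / a - (1 - η) ^ 2 * t * mis / a
      + t / lam * (lam ^ 2 * S2) / a + Ka * √t / a := by
    have h1 : lam ≤ a * M - a * imb / M + Km / √M - (1 - η) ^ 2 * t * mis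
        + t / lam * (lam ^ 2 * S2) + Ka * √t := by linarith only [hmu, hl]
    have h2 := div_le_div_of_nonneg_right h1 ha0.le
    have h3 : (a * M - a * imb / M + Km / √M - (1 - η) ^ 2 * t * mis
        + t / lam * (lam ^ 2 * S2) + Ka * √t) / a = M - imb / M + Km / √M / a
        - (1 - η) ^ 2 * t * mis / a + t / lam * (lam ^ 2 * S2) / a + Ka * √t / a := by
      field_simp
    rwa [h3] at h2
  have e7 : (4 * Km + 4 * Ka + 16 * r * K ^ 2 * C1 + 4 * K * Kr) / √N =
      4 * Km / √N + 4 * Ka / √N + 16 * r * K ^ 2 * C1 / √N + 4 * K * Kr / √N := by ring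
  rw [e7]
  linarith only [e1, e2, e3, e4, e5, e6]

section
variable {V : Type} [Fintype V] {r : ℕ}

theorem dg_le_eo (G : SimpleGraph V) (H : Finset V) : ∑ v ∈ out H, dg G H v ≤ eo G H := by
  classical
  unfold dg eo
  rw [← Finset.card_sigma]
  refine Finset.card_le_card_of_injOn (fun e => (e.1, e.2)) ?_ ?_
  · intro e he
    have he' := Finset.mem_sigma.1 (Finset.mem_coe.1 he)
    simp only [Finset.coe_filter, Set.mem_ofPred_eq, Finset.mem_univ, true_and]
    exact ⟨(mem_nb.1 he'.2).2, mem_out.1 he'.1⟩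
  · rintro ⟨a, b⟩ _ ⟨a', b'⟩ _ h
    simp only [Prod.mk.injEq] at h
    obtain ⟨rfl, rfl⟩ := h
    rfl

theorem eu_le_eo (G : SimpleGraph V) (H : Finset V) : eu G H ≤ eo G H := by
  classical
  unfold eu eo
  apply Finset.card_le_card
  intro e he
  rw [Finset.mem_filter] at he ⊢
  exact ⟨he.1, he.2.1, he.2.2.1⟩

omit [Fintype V] in
theorem sum_sz (H : Finset V) (c : V → Fin r) : ∑ i, sz H c i = (H.card : ℝ) := by
  unfold sz
  rw [← Nat.cast_sum, sum_card_cl]

omit [Fintype V] in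
theorem imb_eq (hr : 3 ≤ r) (H : Finset V) (c : V → Fin r) :
    ∑ i, sz H c i ^ 2 = imb H c + (H.card : ℝ) ^ 2 / r := by
  have hr0 : (r : ℝ) ≠ 0 := by
    have : 0 < r := by omega
    exact_mod_cast this.ne'
  unfold imb
  have e1 : ∀ i, (sz H c i - (H.card : ℝ) / r) ^ 2 =
      sz H c i ^ 2 - 2 * ((H.card : ℝ) / r) * sz H c i + ((H.card : ℝ) / r) ^ 2 := fun i => by ring
  simp only [e1]
  rw [Finset.sum_add_distrib, Finset.sum_sub_distrib, ← Finset.mul_sum, sum_sz]
  simp only [Finset.sum_const, Finset.card_univ, Fintype.card_fin, nsmul_eq_mul]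
  field_simp
  ring

end

/-- sizes, real form -/
theorem sizes {r : ℕ} (hr : 3 ≤ r) (n : Fin r → ℝ) (M lam K Kr N : ℝ) (hM : ∑ i, n i = M)
    (hK : 1 ≤ K) (hKr : 1 ≤ Kr) (hN : 1 ≤ N) (hbig : 8 * K + 4 * Kr ≤ √N)
    (hlam : |lam - al r * N| ≤ Kr) (hs : ∀ i, |((r : ℝ) - 1) * n i - lam| ≤ 2 * K * √N) :
    N / 2 ≤ M ∧ (∀ i, |n i - M / r| ≤ 2 * K * √N) ∧ (∀ i, |n i - M / r| ≤ 4 * K * √M) ∧
      ∑ i, (n i - M / r) ^ 2 ≤ 4 * r * K ^ 2 * N := by
  have hr3 : (3 : ℝ) ≤ r := by exact_mod_cast hr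
  have hr0 : (0 : ℝ) < r := by linarith only [hr3]
  have ha := al_ge hr
  have hN0 : 0 < N := by linarith only [hN]
  have hsN1 : 1 ≤ √N := by rw [Real.one_le_sqrt]; exact hN
  have hal : al r * r = r - 1 := by unfold al; field_simp
  have e1 : |((r : ℝ) - 1) * M - r * lam| ≤ r * (2 * K * √N) := by
    have h1 : ((r : ℝ) - 1) * M - r * lam = ∑ i, (((r : ℝ) - 1) * n i - lam) := by
      rw [Finset.sum_sub_distrib, ← Finset.mul_sum, hM]
      simp
    rw [h1]
    refine (Finset.abs_sum_le_sum_abs _ _).trans ?_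
    refine (Finset.sum_le_sum fun i _ => hs i).trans ?_
    simp
  have e2 : |al r * M - lam| ≤ 2 * K * √N := by
    have h1 : ((r : ℝ) - 1) * M - r * lam = r * (al r * M - lam) := by rw [← hal]; ring
    rw [h1, abs_mul, abs_of_pos hr0] at e1
    exact le_of_mul_le_mul_left e1 hr0
  have e3 : al r * |M - N| ≤ 2 * K * √N + Kr := by
    have ha0 : 0 < al r := by linarith only [ha]
    have h0 : al r * |M - N| = |al r * (M - N)| := by rw [abs_mul, abs_of_pos ha0]
    rw [h0]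
    have h1 : al r * (M - N) = (al r * M - lam) + (lam - al r * N) := by ring
    rw [h1]
    exact (abs_add_le _ _).trans (add_le_add e2 hlam)
  have e4 : |M - N| ≤ N / 2 := by
    have h1 : 2 / 3 * |M - N| ≤ al r * |M - N| := mul_le_mul_of_nonneg_right ha (abs_nonneg _)
    have h2 : Kr * 1 ≤ Kr * √N := mul_le_mul_of_nonneg_left hsN1 (by linarith only [hKr])
    have h3 : 2 / 3 * |M - N| ≤ (2 * K + Kr) * √N := by linarith only [e3, h1, h2]
    have h4 : (2 * K + Kr) * √N ≤ √N / 4 * √N :=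
      mul_le_mul_of_nonneg_right (by linarith only [hbig]) (by linarith only [hsN1])
    have h5 : √N / 4 * √N = N / 4 := by
      rw [div_mul_eq_mul_div, Real.mul_self_sqrt hN0.le]
    linarith only [hN0, h3, h4, h5]
  have e5 : N / 2 ≤ M := by
    have := (abs_le.1 e4).1
    linarith only [this]
  have hM0 : 0 < M := by linarith only [hN0, e5]
  have e6 : ∀ i, |n i - M / r| ≤ 2 * K * √N := by
    intro i
    have h1 : ((r : ℝ) - 1) * (n i - M / r) = (((r : ℝ) - 1) * n i - lam) - (al r * M - lam) := by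
      have : ((r : ℝ) - 1) * (M / r) = al r * M := by rw [← hal]; field_simp
      rw [mul_sub, this]; ring
    have h2 : |((r : ℝ) - 1) * (n i - M / r)| ≤ 4 * K * √N := by
      rw [h1]
      refine (abs_sub _ _).trans ?_
      have := hs i
      linarith only [e2, this]
    rw [abs_mul, abs_of_pos (by linarith only [hr3] : 0 < (r : ℝ) - 1)] at h2
    have h3 : 2 * |n i - M / r| ≤ ((r : ℝ) - 1) * |n i - M / r| :=
      mul_le_mul_of_nonneg_right (by linarith only [hr3]) (abs_nonneg _)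
    linarith only [h2, h3]
  refine ⟨e5, e6, fun i => ?_, ?_⟩
  · have hsM : √N / 2 ≤ √M := by
      rw [div_le_iff₀ (by norm_num)]
      have h1 : √N ≤ √(M * 4) := Real.sqrt_le_sqrt (by linarith only [e5, hM0])
      rw [Real.sqrt_mul hM0.le] at h1
      have e : √(4 : ℝ) = 2 := by
        rw [show (4 : ℝ) = 2 ^ 2 by norm_num]; exact Real.sqrt_sq (by norm_num)
      rwa [e] at h1
    have q1 := e6 i
    have q2 : 2 * K * √N ≤ 2 * K * (2 * √M) := mul_le_mul_of_nonneg_left (by linarith only [hsM]) (by linarith only [hK])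
    linarith only [q1, q2]
  · have h1 : ∀ i, (n i - M / r) ^ 2 ≤ 4 * K ^ 2 * N := by
      intro i
      rw [← sq_abs]
      have h2 := pow_le_pow_left₀ (abs_nonneg _) (e6 i) 2
      have h3 : (2 * K * √N) ^ 2 = 4 * K ^ 2 * N := by
        rw [mul_pow, Real.sq_sqrt hN0.le]; ring
      rwa [h3] at h2
    refine (Finset.sum_le_sum fun i _ => h1 i).trans ?_
    simp only [Finset.sum_const, Finset.card_univ, Fintype.card_fin, nsmul_eq_mul]
    apply le_of_eq
    ring

/-- the ranges of `t` -/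
theorem trange {t N Kr : ℝ} (hN : 1 ≤ N) (hNK : 6 * Kr ≤ N) (htN : |t * N - 1| ≤ Kr / N) :
    0 < t ∧ 1 / t ≤ 2 * N ∧ t ≤ 2 / N ∧ √t ≤ 2 / √N ∧ 1 / √t ≤ 2 * √N := by
  have hN0 : 0 < N := by linarith only [hN]
  have h1 : Kr / N ≤ 1 / 6 := by
    rw [div_le_div_iff₀ hN0 (by norm_num)]; linarith only [hNK]
  have h2 := abs_le.1 (htN.trans h1)
  have htN0 : 1 / 2 ≤ t * N := by linarith only [h2]
  have ht0 : 0 < t := by
    by_contra h
    push Not at h
    have q := mul_nonpos_of_nonpos_of_nonneg h hN0.le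
    linarith only [htN0, q]
  have hsN : 0 < √N := Real.sqrt_pos.2 hN0
  have hst : 0 < √t := Real.sqrt_pos.2 ht0
  refine ⟨ht0, ?_, ?_, ?_, ?_⟩
  · rw [div_le_iff₀ ht0]; linarith only [htN0]
  · rw [le_div_iff₀ hN0]; linarith only [h2]
  · rw [le_div_iff₀ hsN, ← Real.sqrt_mul ht0.le]
    rw [Real.sqrt_le_left (by norm_num)]
    linarith only [h2]
  · rw [div_le_iff₀ hst, mul_assoc, ← Real.sqrt_mul hN0.le]
    have h3 : 1 / 2 ≤ √(N * t) := by
      apply Real.le_sqrt_of_sq_le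
      linarith only [htN0]
    linarith only [h3]

end ACC

open ACC in
theorem blk_ACC (h1 : Stmt_EID) (h2 : Stmt_ACC0) (h3 : Stmt_KM) (h4 : Stmt_KS) (h5 : Stmt_REL) :
    Stmt_ACC := by
  classical
  intro r D η K hr hD hη hη1 hK
  have hr3 : (3 : ℝ) ≤ r := by exact_mod_cast hr
  have hη4 : η ≤ 1 / 24 := by
    refine hη1.trans ?_
    rw [div_le_div_iff₀ (by positivity) (by norm_num)]
    linarith only [hr3]
  obtain ⟨Ka, hKa, A0⟩ := h2 r η K hr hη (by linarith only [hη4]) hK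
  obtain ⟨Km, hKm, KM⟩ := h3 r (4 * K) hr (by linarith only [hK])
  obtain ⟨Kr, N0, hKr, RL⟩ := h5 r D hr hD
  set C1 : ℝ := 4 * r * K ^ 2 + 8 * K + 2 + r with hC1
  have hC1pos : 0 < C1 := by positivity
  set Ca : ℝ := 8 * K * Kr + r + 2 * C1 ^ 2 with hCa
  set Cb : ℝ := 4 * Km + 4 * Ka + 16 * r * K ^ 2 * C1 + 4 * K * Kr with hCb
  have hCa0 : 0 < Ca := by positivity
  have hCb0 : 0 < Cb := by positivity
  obtain ⟨N1, hN1⟩ := exists_nat_ge (6 * Kr + (8 * K + 4 * Kr) ^ 2 + 2 * Ka + 2 * Km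
    + (8 * K / η) ^ 2 + 1)
  have hCa1 : 1 ≤ Ca := by
    have e1 : 0 ≤ 8 * K * Kr := by positivity
    have e2 : 0 ≤ 2 * C1 ^ 2 := by positivity
    linarith only [hr3, e1, e2]
  refine ⟨Ca + Cb, N0 + N1, by linarith only [hCb0, hCa1], ?_⟩
  intro N hN j hj V _ G x lam t c H hctx hHD hpE
  obtain ⟨hlamN, htN⟩ := RL N (by omega) j hj V G x lam t hctx hpE
  have hNr : 6 * Kr + (8 * K + 4 * Kr) ^ 2 + 2 * Ka + 2 * Km + (8 * K / η) ^ 2 + 1 ≤ (N : ℝ) := by
    refine hN1.trans ?_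
    exact_mod_cast (by omega : N1 ≤ N)
  set n : ℝ := (N : ℝ) with hn
  have q1 : 0 ≤ (8 * K + 4 * Kr) ^ 2 := sq_nonneg _
  have q2 : 0 ≤ (8 * K / η) ^ 2 := sq_nonneg _
  have hn1 : 1 ≤ n := by linarith only [hKa, hKm, hKr, hNr, q1, q2]
  have hn0 : 0 < n := by linarith only [hn1]
  have hsn : 0 < √n := Real.sqrt_pos.2 hn0
  have hnsn : √n ≤ n := by
    rw [Real.sqrt_le_left (by linarith only [hn0]), sq]
    exact le_mul_of_one_le_left hn0.le hn1
  obtain ⟨ht0, ht1, ht2, ht3, ht4⟩ := trange hn1 (by linarith only [hKa, hKm, hNr, q1, q2]) htN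
  have ha := al_ge hr
  have ha1 := al_lt hr
  have ha0 : 0 < al r := by linarith only [ha]
  have hlam2 : n / 2 ≤ lam := by
    have e1 := (abs_le.1 hlamN).1
    have e2 := mul_le_mul_of_nonneg_right ha hn0.le
    linarith only [hKa, hKm, hNr, q1, q2, e1, e2]
  have hlam0 : 0 < lam := by linarith only [hn0, hlam2]
  have hbig : 8 * K + 4 * Kr ≤ √n := by
    apply Real.le_sqrt_of_sq_le
    linarith only [hKa, hKm, hKr, hNr, q2]
  have hst : 0 < √t := Real.sqrt_pos.2 ht0
  have hsz : ∀ i, |((r : ℝ) - 1) * sz H c i - lam| ≤ 2 * K * √n := by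
    intro i
    refine (hHD.size i).trans ?_
    calc K / √t = K * (1 / √t) := by ring
      _ ≤ K * (2 * √n) := mul_le_mul_of_nonneg_left ht4 (by linarith only [hK])
      _ = 2 * K * √n := by ring
  obtain ⟨hM1, _, hB, himb⟩ := sizes hr (fun i => sz H c i) (H.card : ℝ) lam K Kr n (sum_sz H c)
    hK hKr hn1 hbig hlamN hsz
  set M : ℝ := (H.card : ℝ) with hM
  have hM0 : 0 < M := by linarith only [hsn, hnsn, hM1]
  have himb0 : 0 ≤ imb H c := Finset.sum_nonneg fun i _ => sq_nonneg _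
  have hKt : K / t ≤ 2 * K * n := by
    calc K / t = K * (1 / t) := by ring
      _ ≤ K * (2 * n) := mul_le_mul_of_nonneg_left ht1 (by linarith only [hK])
      _ = 2 * K * n := by ring
  have hmis0 : (0 : ℝ) ≤ mis G H c := Nat.cast_nonneg _
  have hmis : (mis G H c : ℝ) ≤ 2 * K * n := hHD.mis.trans hKt
  set Sg : ℝ := ∑ v ∈ out H, (dg G H v : ℝ) with hSg
  have hSg0 : 0 ≤ Sg := Finset.sum_nonneg fun _ _ => Nat.cast_nonneg _
  have hSg1 : Sg ≤ 2 * K * n := by
    have e : Sg ≤ (eo G H : ℝ) := by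
      rw [hSg, ← Nat.cast_sum]
      exact_mod_cast dg_le_eo G H
    exact e.trans (hHD.eout.trans hKt)
  have heu0 : (0 : ℝ) ≤ eu G H := Nat.cast_nonneg _
  have heu : (eu G H : ℝ) ≤ 2 * K * n := by
    have e : (eu G H : ℝ) ≤ (eo G H : ℝ) := by exact_mod_cast eu_le_eo G H
    exact e.trans (hHD.eout.trans hKt)
  have hE : al r * M ^ 2 - imb H c - mis G H c + 2 * Sg + eu G H = pE G := by
    rw [h1 r V G c H hHD.ind, imb_eq hr H c, ← hM]
    have e : al r * M ^ 2 = M ^ 2 - M ^ 2 / r := by unfold al; ring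
    rw [e]; ring
  have hj0 : (0 : ℝ) ≤ j := Nat.cast_nonneg _
  obtain ⟨hNM, hA⟩ := real1 ha ha1 hK hKr hr3 hn1 hM0.le hlam2 hlamN himb0 himb hmis0 hmis hSg0
    hSg1 heu0 heu hj0 hj hE hpE hC1
  have hSl : ∑ v ∈ out H, (dg G H v : ℝ) / lam = Sg / lam := by rw [hSg, Finset.sum_div]
  have hAn : Ca / n ≤ Ca / √n := div_le_div_of_nonneg_left hCa0.le hsn hnsn
  have hsplit : (Ca + Cb) / √n = Ca / √n + Cb / √n := add_div _ _ _
  have hCbn : 0 ≤ Cb / √n := by positivity
  refine ⟨?_, ?_, ?_⟩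
  · rw [hSl]
    refine hA.trans ?_
    rw [hsplit]
    linarith only [hAn, hCbn]
  · -- second claim
    obtain ⟨mu, hmu0, hmu, hsum⟩ := KM (fun i => sz H c i) M (imb H c)
      (fun i => Nat.cast_nonneg _) (sum_sz H c).symm rfl (by linarith only [hKa, hKr, hNr, q1, q2,
          hM1]) hB
    have hqf := h4 r V H c mu hmu0 hsum
    have hl := A0 V G x lam t c H mu hctx.pv hHD (by
      have h6 : Ka * t ≤ Ka * (2 / n) := mul_le_mul_of_nonneg_left ht2 (by linarith only [hKa])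
      have h7 : Ka * (2 / n) ≤ 1 := by
        rw [mul_div_assoc', div_le_one hn0]; linarith only [hKm, hKr, hNr, q1, q2]
      linarith only [h6, h7]) hqf
    set S2 : ℝ := ∑ v ∈ out H, ((dg G H v : ℝ) / lam) ^ 2 with hS2
    have hS20 : 0 ≤ S2 := Finset.sum_nonneg fun _ _ => sq_nonneg _
    have hdg2 : ∑ v ∈ out H, (dg G H v : ℝ) ^ 2 = lam ^ 2 * S2 := by
      rw [hS2, Finset.mul_sum]
      refine Finset.sum_congr rfl fun v _ => ?_
      field_simp
    rw [hdg2] at hl
    have hR := real2 ha ha1 hK hKr hKm hKa hr3 hn1 hM1 hlam0 ht0 hHD.lamt1 htN ht3 himb0 himb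
      hmis0 hmis hS20 hη (by linarith only [hη4]) hNM hC1pos hmu hl
    rw [← hCb] at hR
    have hX : ∑ v ∈ out H, (dg G H v : ℝ) / lam * (1 - dg G H v / lam) = Sg / lam - S2 := by
      rw [← hSl, hS2, ← Finset.sum_sub_distrib]
      exact Finset.sum_congr rfl fun v _ => by ring
    rw [hX]
    have hA' := (abs_le.1 (hA.trans hAn)).2
    have e1 : imb H c / n = 2 * al r * (imb H c / (2 * al r * n)) := by field_simp
    have e2 : (mis G H c : ℝ) / (al r * n) = 2 * (mis G H c / (2 * al r * n)) := by field_simp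
    have e3 : (al r * n + j / n - lam) / al r = n + j / (al r * n) - lam / al r := by
      field_simp
    have e4 : (1 : ℝ) - 2 / r = 2 * al r - 1 := by unfold al; ring
    rw [e1, e2] at hR
    rw [e3, e4, hsplit]
    linarith only [hR, hA']
  · -- third claim
    intro v hv
    have h6 := hHD.small v hv
    have h7 := (abs_le.1 (hHD.all v)).1
    have h8 : √t * dg G H v ≤ lam * ((1 - η) * √t) + K := by
      have := mul_le_mul_of_nonneg_left h6.le hlam0.le
      linarith only [h7, this]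
    have h9 : (dg G H v : ℝ) ≤ lam * (1 - η) + K / √t := by
      have e : √t * (lam * (1 - η) + K / √t) = lam * ((1 - η) * √t) + K := by
        field_simp
      rw [← e] at h8
      exact le_of_mul_le_mul_left h8 hst
    have h10 : K / √t ≤ 2 * K * √n := by
      calc K / √t = K * (1 / √t) := by ring
        _ ≤ K * (2 * √n) := mul_le_mul_of_nonneg_left ht4 (by linarith only [hK])
        _ = 2 * K * √n := by ring
    have h11 : 8 * K / η ≤ √n := by
      apply Real.le_sqrt_of_sq_le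
      linarith only [hKa, hKm, hKr, hNr, q1]
    have h12 : 8 * K ≤ η * √n := by
      rw [div_le_iff₀ hη] at h11; linarith only [h11]
    have h13 : 2 * K * √n ≤ η / 4 * n := by
      have e : √n * √n = n := Real.mul_self_sqrt hn0.le
      have e1 := mul_le_mul_of_nonneg_right h12 hsn.le
      rw [mul_assoc η, e] at e1
      linarith only [e1]
    have h14 := mul_le_mul_of_nonneg_left hlam2 hη.le
    rw [div_le_iff₀ hlam0]
    linarith only [h9, h10, h13, h14]

end Pool.Agent.Work.MP_5532fa_up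

end

section

/-!
# MP_5532fa_co, upgrade: block B1U (fine data, `w` has neighbours in all classes)
-/

open Finset

namespace Pool.Agent.Work.MP_5532fa_up

open MP5532fa (specRad qf pE)

namespace B1U

theorem chi_and (p q : Prop) : chi (p ∧ q) = chi p * chi q := by
  by_cases hp : p
  · by_cases hq : q
    · rw [chi_pos ⟨hp, hq⟩, chi_pos hp, chi_pos hq, mul_one]
    · rw [chi_neg (fun h => hq h.2), chi_neg hq, mul_zero]
  · rw [chi_neg (fun h => hp h.1), chi_neg hp, zero_mul]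

theorem sum_chi_mem {W : Type} [Fintype W] (S : Finset W) : ∑ b, chi (b ∈ S) = (S.card : ℝ) := by
  classical
  have h1 : ∀ b : W, chi (b ∈ S) = if b ∈ S then (1 : ℝ) else 0 := by
    intro b
    by_cases hb : b ∈ S
    · rw [chi_pos hb, if_pos hb]
    · rw [chi_neg hb, if_neg hb]
  rw [Finset.sum_congr rfl (fun b _ => h1 b)]
  rw [Finset.sum_ite_mem, Finset.univ_inter, Finset.sum_const, nsmul_eq_mul, mul_one]

theorem sum_chi_mul {W : Type} [Fintype W] (S : Finset W) (f : W → ℝ) :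
    ∑ b, chi (b ∈ S) * f b = ∑ b ∈ S, f b := by
  classical
  have h1 : ∀ b : W, chi (b ∈ S) * f b = if b ∈ S then f b else 0 := by
    intro b
    by_cases hb : b ∈ S
    · rw [chi_pos hb, if_pos hb, one_mul]
    · rw [chi_neg hb, if_neg hb, zero_mul]
  rw [Finset.sum_congr rfl (fun b _ => h1 b), Finset.sum_ite_mem, Finset.univ_inter]

theorem sum_chi_pt {W : Type} [Fintype W] (a : W) (f : W → ℝ) :
    ∑ b, chi (b = a) * f b = f a := by
  classical
  rw [Finset.sum_eq_single a]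
  · rw [chi_pos rfl, one_mul]
  · intro b _ hb; rw [chi_neg hb, zero_mul]
  · intro h0; exact absurd (Finset.mem_univ _) h0

section
variable {V : Type} [Fintype V] {r : ℕ}

theorem mis_sum (G : SimpleGraph V) (H : Finset V) (c : V → Fin r) :
    ∑ a, ∑ b, chi (a ∈ H ∧ b ∈ H ∧ c a ≠ c b ∧ ¬ G.Adj a b) = (mis G H c : ℝ) := by
  classical
  unfold mis
  rw [← sum_chi_mem, Fintype.sum_prod_type]
  refine Finset.sum_congr rfl fun a _ => Finset.sum_congr rfl fun b _ => ?_
  refine chi_congr ?_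
  rw [Finset.mem_filter, Finset.mem_product, and_assoc]

theorem eu_sum (G : SimpleGraph V) (H : Finset V) :
    ∑ a, ∑ b, chi (G.Adj a b ∧ a ∉ H ∧ b ∉ H) = (eu G H : ℝ) := by
  classical
  unfold eu
  rw [← sum_chi_mem, Fintype.sum_prod_type]
  refine Finset.sum_congr rfl fun a _ => Finset.sum_congr rfl fun b _ => ?_
  refine chi_congr ?_
  rw [Finset.mem_filter]
  exact ⟨fun h => ⟨Finset.mem_univ _, h⟩, fun h => h.2⟩

theorem dg_sum (G : SimpleGraph V) (H : Finset V) (v : V) :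
    ∑ b, chi (b ∈ H ∧ G.Adj v b) = (dg G H v : ℝ) := by
  classical
  unfold dg
  rw [← sum_chi_mem]
  exact Finset.sum_congr rfl fun b _ => chi_congr mem_nb.symm

theorem out_sum (G : SimpleGraph V) (H : Finset V) (w : V) (hw : w ∉ H) :
    ∑ a, ∑ b, chi (a ∉ H ∧ a ≠ w) * chi (b ∈ H ∧ G.Adj a b)
      = ∑ v ∈ out H, (dg G H v : ℝ) - dg G H w := by
  classical
  have h1 : ∀ a : V, ∑ b, chi (a ∉ H ∧ a ≠ w) * chi (b ∈ H ∧ G.Adj a b)
      = chi (a ∈ out H) * (dg G H a : ℝ) - chi (a = w) * (dg G H a : ℝ) := by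
    intro a
    rw [← Finset.mul_sum, dg_sum]
    by_cases haw : a = w
    · subst haw
      rw [chi_neg (fun h => h.2 rfl), chi_pos (mem_out.mpr hw), chi_pos rfl]; ring
    · rw [chi_neg haw, zero_mul, sub_zero]
      congr 1
      refine chi_congr ?_
      rw [mem_out]
      exact ⟨fun h => h.1, fun h => ⟨h, haw⟩⟩
  rw [Finset.sum_congr rfl (fun a _ => h1 a), Finset.sum_sub_distrib, sum_chi_mul, sum_chi_pt]

open Classical in
omit [Fintype V] in
/-- construction of the new neighbourhood -/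
theorem mkA (H A : Finset V) (c : V → Fin r) (i0 i1 : Fin r) (v1 v2 : V) (hA : A ⊆ H)
    (h01 : i0 ≠ i1) (hv1 : v1 ∈ cl A c i0) (hv2 : v2 ∈ cl A c i1)
    (hne : ∀ i, (cl A c i).Nonempty) (M Q b : ℕ) (h0 : (cl A c i0).card ≤ M)
    (h1 : (cl A c i1).card ≤ M) (hb : b + 1 + M = A.card + Q) (hr : r ≤ b + 2)
    (hroom : b + (cl H c i0).card + (cl H c i1).card ≤ H.card) :
    ∃ A' : Finset V, A' ⊆ H ∧ cl A' c i0 = {v1} ∧ cl A' c i1 = {v2} ∧
      (∀ i, (cl A' c i).Nonempty) ∧ A'.card + M = A.card + 1 + Q ∧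
      (A'.card : ℤ) - A.card = ((A'.filter (fun v => v ∉ A)).card : ℤ)
        - (A.filter (fun v => v ∉ A')).card ∧
      (A'.filter (fun v => v ∉ A)).card + (A.filter (fun v => v ∉ A')).card + 3 ≤ 3 * M + Q := by
  classical
  have key : ∀ S : Finset V, (S.filter (fun v => c v ≠ i0 ∧ c v ≠ i1)).card
      + (cl S c i0).card + (cl S c i1).card = S.card := by
    intro S
    have e1 := Finset.card_filter_add_card_filter_not (s := S) (fun v => c v = i0)
    have e2 := Finset.card_filter_add_card_filter_not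
      (s := S.filter (fun v => ¬ c v = i0)) (fun v => c v = i1)
    have e3 : (S.filter (fun v => ¬ c v = i0)).filter (fun v => c v = i1) = cl S c i1 := by
      ext v
      rw [Finset.mem_filter, Finset.mem_filter, mem_cl]
      constructor
      · rintro ⟨⟨hS, _⟩, hi⟩; exact ⟨hS, hi⟩
      · rintro ⟨hS, hi⟩; exact ⟨⟨hS, fun h => h01 (h.symm.trans hi)⟩, hi⟩
    have e4 : (S.filter (fun v => ¬ c v = i0)).filter (fun v => ¬ c v = i1)
        = S.filter (fun v => c v ≠ i0 ∧ c v ≠ i1) := by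
      ext v
      rw [Finset.mem_filter, Finset.mem_filter, Finset.mem_filter, and_assoc]
    rw [e3, e4] at e2
    have e5 : (S.filter (fun v => c v = i0)).card = (cl S c i0).card := rfl
    omega
  have keyA := key A
  have keyH := key H
  set B := A.filter (fun v => c v ≠ i0 ∧ c v ≠ i1) with hBdef
  set R := H.filter (fun v => c v ≠ i0 ∧ c v ≠ i1) with hRdef
  have hBR : B ⊆ R := by
    intro v hv
    rw [hBdef, Finset.mem_filter] at hv
    rw [hRdef, Finset.mem_filter]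
    exact ⟨hA hv.1, hv.2⟩
  choose ρ hρ using fun i => hne i
  have hρA : ∀ i, ρ i ∈ A := fun i => (mem_cl.mp (hρ i)).1
  have hρc : ∀ i, c (ρ i) = i := fun i => (mem_cl.mp (hρ i)).2
  set T := (((univ : Finset (Fin r)).erase i0).erase i1).image ρ with hTdef
  have hTcard : T.card ≤ b := by
    have e1 : T.card ≤ (((univ : Finset (Fin r)).erase i0).erase i1).card := Finset.card_image_le
    have e2 : (((univ : Finset (Fin r)).erase i0).erase i1).card + 2 = r := by
      have e3 := Finset.card_erase_add_one (s := (univ : Finset (Fin r))) (a := i0)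
        (Finset.mem_univ _)
      have e4 := Finset.card_erase_add_one (s := (univ : Finset (Fin r)).erase i0) (a := i1)
        (Finset.mem_erase.mpr ⟨h01.symm, Finset.mem_univ _⟩)
      rw [Finset.card_univ, Fintype.card_fin] at e3
      omega
    omega
  have hTB : T ⊆ B := by
    intro v hv
    rw [hTdef, Finset.mem_image] at hv
    obtain ⟨i, hi, rfl⟩ := hv
    rw [Finset.mem_erase, Finset.mem_erase] at hi
    rw [hBdef, Finset.mem_filter, hρc]
    exact ⟨hρA i, hi.2.1, hi.1⟩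
  have hB' : ∃ B' : Finset V, T ⊆ B' ∧ B' ⊆ R ∧ B'.card = b ∧
      ((B.card ≤ b ∧ B ⊆ B') ∨ (b ≤ B.card ∧ B' ⊆ B)) := by
    rcases le_total B.card b with h | h
    · obtain ⟨B', h3, h4, h5⟩ := Finset.exists_subsuperset_card_eq hBR h (by omega)
      exact ⟨B', hTB.trans h3, h4, h5, Or.inl ⟨h, h3⟩⟩
    · obtain ⟨B', h3, h4, h5⟩ := Finset.exists_subsuperset_card_eq hTB hTcard h
      exact ⟨B', h3, h4.trans hBR, h5, Or.inr ⟨h, h4⟩⟩
  obtain ⟨B', hTB', hB'R, hB'c, hcase⟩ := hB'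
  rw [mem_cl] at hv1 hv2
  have hv12 : v1 ≠ v2 := by
    rintro rfl
    exact h01 (hv1.2.symm.trans hv2.2)
  have hB'0 : ∀ v ∈ B', v ∈ H ∧ c v ≠ i0 ∧ c v ≠ i1 := by
    intro v hv
    have := hB'R hv
    rw [hRdef, Finset.mem_filter] at this
    exact this
  have hv1B : v1 ∉ B' := fun h => (hB'0 v1 h).2.1 hv1.2
  have hv2B : v2 ∉ B' := fun h => (hB'0 v2 h).2.2 hv2.2
  have hv1' : v1 ∉ insert v2 B' := by
    rw [Finset.mem_insert]
    rintro (h | h)
    · exact hv12 h
    · exact hv1B h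
  have hcardA' : (insert v1 (insert v2 B')).card = b + 2 := by
    rw [Finset.card_insert_of_notMem hv1', Finset.card_insert_of_notMem hv2B, hB'c]
  have hdiff : ((insert v1 (insert v2 B')).filter (fun v => v ∉ A)).card
      ≤ (B'.filter (fun v => v ∉ B)).card := by
    refine Finset.card_le_card ?_
    intro v hv
    rw [Finset.mem_filter, Finset.mem_insert, Finset.mem_insert] at hv
    obtain ⟨hv, hvA⟩ := hv
    rcases hv with rfl | rfl | hv
    · exact absurd hv1.1 hvA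
    · exact absurd hv2.1 hvA
    · rw [Finset.mem_filter]
      refine ⟨hv, fun h => hvA ?_⟩
      rw [hBdef, Finset.mem_filter] at h
      exact h.1
  have hdiff2 : (A.filter (fun v => v ∉ insert v1 (insert v2 B'))).card
      ≤ (B.filter (fun v => v ∉ B')).card + (((cl A c i0).erase v1).card
        + ((cl A c i1).erase v2).card) := by
    refine (Finset.card_le_card (t := (B.filter (fun v => v ∉ B')) ∪ (((cl A c i0).erase v1)
        ∪ ((cl A c i1).erase v2))) ?_).trans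
      ((Finset.card_union_le _ _).trans (Nat.add_le_add_left (Finset.card_union_le _ _) _))
    intro v hv
    rw [Finset.mem_filter, Finset.mem_insert, Finset.mem_insert] at hv
    obtain ⟨hvA, hv⟩ := hv
    rw [Finset.mem_union, Finset.mem_union, Finset.mem_erase, Finset.mem_erase, mem_cl, mem_cl,
      Finset.mem_filter, hBdef, Finset.mem_filter]
    by_cases h3 : c v = i0
    · exact Or.inr (Or.inl ⟨fun h => hv (Or.inl h), hvA, h3⟩)
    · by_cases h4 : c v = i1
      · exact Or.inr (Or.inr ⟨fun h => hv (Or.inr (Or.inl h)), hvA, h4⟩)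
      · exact Or.inl ⟨⟨hvA, h3, h4⟩, fun h => hv (Or.inr (Or.inr h))⟩
  have hsplit : ∀ S S' : Finset V, (S'.card : ℤ) - S.card
      = ((S'.filter (fun v => v ∉ S)).card : ℤ) - (S.filter (fun v => v ∉ S')).card := by
    intro S S'
    have e1 := Finset.card_filter_add_card_filter_not (s := S) (fun v => v ∈ S')
    have e2 := Finset.card_filter_add_card_filter_not (s := S') (fun v => v ∈ S)
    have e3 : S.filter (fun v => v ∈ S') = S'.filter (fun v => v ∈ S) := by
      ext v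
      rw [Finset.mem_filter, Finset.mem_filter, and_comm]
    rw [e3] at e1
    omega
  have hBB : (B'.filter (fun v => v ∉ B)).card + (B.filter (fun v => v ∉ B')).card
      + 2 * min b B.card = b + B.card := by
    have e0 := hsplit B B'
    rcases hcase with ⟨h3, h4⟩ | ⟨h3, h4⟩
    · have e1 : B.filter (fun v => v ∉ B') = ∅ := by
        rw [Finset.filter_eq_empty_iff]
        intro v hv hv'
        exact hv' (h4 hv)
      rw [e1, Finset.card_empty, hB'c] at e0
      rw [e1, Finset.card_empty, min_eq_right h3]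
      omega
    · have e1 : B'.filter (fun v => v ∉ B) = ∅ := by
        rw [Finset.filter_eq_empty_iff]
        intro v hv hv'
        exact hv' (h4 hv)
      rw [e1, Finset.card_empty, hB'c] at e0
      rw [e1, Finset.card_empty, min_eq_left h3]
      omega
  have e0 : ((cl A c i0).erase v1).card + 1 = (cl A c i0).card :=
    Finset.card_erase_add_one (mem_cl.mpr hv1)
  have e1 : ((cl A c i1).erase v2).card + 1 = (cl A c i1).card :=
    Finset.card_erase_add_one (mem_cl.mpr hv2)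
  refine ⟨insert v1 (insert v2 B'), ?_, ?_, ?_, ?_, ?_, ?_, ?_⟩
  · intro v hv
    rw [Finset.mem_insert, Finset.mem_insert] at hv
    rcases hv with rfl | rfl | hv
    · exact hA hv1.1
    · exact hA hv2.1
    · exact (hB'0 v hv).1
  · ext v
    rw [mem_cl, Finset.mem_insert, Finset.mem_insert, Finset.mem_singleton]
    constructor
    · rintro ⟨h3 | h3 | h3, h4⟩
      · exact h3
      · rw [h3, hv2.2] at h4; exact absurd h4.symm h01
      · exact absurd h4 (hB'0 v h3).2.1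
    · rintro rfl
      exact ⟨Or.inl rfl, hv1.2⟩
  · ext v
    rw [mem_cl, Finset.mem_insert, Finset.mem_insert, Finset.mem_singleton]
    constructor
    · rintro ⟨h3 | h3 | h3, h4⟩
      · rw [h3, hv1.2] at h4; exact absurd h4 h01
      · exact h3
      · exact absurd h4 (hB'0 v h3).2.2
    · rintro rfl
      exact ⟨Or.inr (Or.inl rfl), hv2.2⟩
  · intro i
    by_cases h3 : i = i0
    · exact ⟨v1, mem_cl.mpr ⟨Finset.mem_insert_self _ _, hv1.2.trans h3.symm⟩⟩
    · by_cases h4 : i = i1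
      · exact ⟨v2, mem_cl.mpr ⟨Finset.mem_insert_of_mem (Finset.mem_insert_self _ _),
          hv2.2.trans h4.symm⟩⟩
      · refine ⟨ρ i, mem_cl.mpr ⟨Finset.mem_insert_of_mem (Finset.mem_insert_of_mem (hTB' ?_)),
          hρc i⟩⟩
        rw [hTdef]
        exact Finset.mem_image_of_mem _ (Finset.mem_erase.mpr ⟨h4, Finset.mem_erase.mpr
          ⟨h3, Finset.mem_univ _⟩⟩)
  · rw [hcardA']; omega
  · exact hsplit A _
  · rcases le_total b B.card with h3 | h3
    · rw [min_eq_left h3] at hBB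
      omega
    · rw [min_eq_right h3] at hBB
      omega

/-- upper bound for the quadratic form of `G` -/
theorem quadG (G : SimpleGraph V) (H : Finset V) (c : V → Fin r) (w : V) (hw : w ∉ H)
    (ind : ∀ u ∈ H, ∀ v ∈ H, c u = c v → ¬ G.Adj u v) (y : V → ℝ) (δ : ℝ) (hδ : 0 ≤ δ)
    (hδ1 : δ ≤ 1) (y0 : ∀ v, 0 ≤ y v) (yH : ∀ v ∈ H, 1 - δ ≤ y v ∧ y v ≤ 1 + δ)
    (yo : ∀ v, v ∉ H → v ≠ w → y v ≤ δ) (yw : y w ≤ 1 + δ) :
    ∑ a, ∑ b, ad G a b * (y a * y b)
      ≤ ∑ a, ∑ b, chi (a ∈ H ∧ b ∈ H ∧ c a ≠ c b) * (y a * y b)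
        - (1 - δ) ^ 2 * (mis G H c : ℝ) + 2 * (y w * ∑ b ∈ nb G H w, y b)
        + 2 * (δ * (1 + δ)) * (∑ v ∈ out H, (dg G H v : ℝ) - dg G H w)
        + δ * (1 + δ) * (eu G H : ℝ) := by
  classical
  have hcoef : 0 ≤ δ * (1 + δ) := by positivity
  have hy1 : ∀ v, y v ≤ 1 + δ := by
    intro v
    by_cases hv : v ∈ H
    · exact (yH v hv).2
    · by_cases hvw : v = w
      · rw [hvw]; exact yw
      · have := yo v hv hvw; linarith
  have hyy : ∀ a b, y a ≤ δ → y a * y b ≤ δ * (1 + δ) := by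
    intro a b ha
    exact mul_le_mul ha (hy1 b) (y0 b) hδ
  have pt : ∀ a b, ad G a b * (y a * y b)
      ≤ chi (a ∈ H ∧ b ∈ H ∧ c a ≠ c b) * (y a * y b)
        - (1 - δ) ^ 2 * chi (a ∈ H ∧ b ∈ H ∧ c a ≠ c b ∧ ¬ G.Adj a b)
        + chi (a = w) * (chi (b ∈ nb G H w) * (y w * y b))
        + chi (b = w) * (chi (a ∈ nb G H w) * (y w * y a))
        + δ * (1 + δ) * (chi (a ∉ H ∧ a ≠ w) * chi (b ∈ H ∧ G.Adj a b))
        + δ * (1 + δ) * (chi (b ∉ H ∧ b ≠ w) * chi (a ∈ H ∧ G.Adj b a))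
        + δ * (1 + δ) * chi (G.Adj a b ∧ a ∉ H ∧ b ∉ H) := by
    intro a b
    by_cases ha : a ∈ H
    · have haw : a ≠ w := fun h => hw (h ▸ ha)
      by_cases hb : b ∈ H
      · have hbw : b ≠ w := fun h => hw (h ▸ hb)
        rw [chi_neg haw, chi_neg hbw, chi_neg (p := a ∉ H ∧ a ≠ w) (fun h => h.1 ha),
          chi_neg (p := b ∉ H ∧ b ≠ w) (fun h => h.1 hb),
          chi_neg (p := G.Adj a b ∧ a ∉ H ∧ b ∉ H) (fun h => h.2.1 ha)]
        by_cases hab : G.Adj a b
        · have hc : c a ≠ c b := fun h => ind a ha b hb h hab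
          unfold ad
          rw [chi_pos hab, chi_pos (p := a ∈ H ∧ b ∈ H ∧ c a ≠ c b) ⟨ha, hb, hc⟩,
            chi_neg (p := a ∈ H ∧ b ∈ H ∧ c a ≠ c b ∧ ¬ G.Adj a b) (fun h => h.2.2.2 hab)]
          linarith
        · unfold ad
          rw [chi_neg hab]
          by_cases hc : c a ≠ c b
          · rw [chi_pos (p := a ∈ H ∧ b ∈ H ∧ c a ≠ c b) ⟨ha, hb, hc⟩,
              chi_pos (p := a ∈ H ∧ b ∈ H ∧ c a ≠ c b ∧ ¬ G.Adj a b) ⟨ha, hb, hc, hab⟩]
            have h1 := yH a ha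
            have h2 := yH b hb
            have h3 : (1 - δ) * (1 - δ) ≤ y a * y b :=
              mul_le_mul h1.1 h2.1 (by linarith) (y0 a)
            nlinarith
          · rw [chi_neg (p := a ∈ H ∧ b ∈ H ∧ c a ≠ c b) (fun h => hc h.2.2),
              chi_neg (p := a ∈ H ∧ b ∈ H ∧ c a ≠ c b ∧ ¬ G.Adj a b) (fun h => hc h.2.2.1)]
            linarith
      · rw [chi_neg haw, chi_neg (p := a ∉ H ∧ a ≠ w) (fun h => h.1 ha),
          chi_neg (p := G.Adj a b ∧ a ∉ H ∧ b ∉ H) (fun h => h.2.1 ha),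
          chi_neg (p := a ∈ H ∧ b ∈ H ∧ c a ≠ c b) (fun h => hb h.2.1),
          chi_neg (p := a ∈ H ∧ b ∈ H ∧ c a ≠ c b ∧ ¬ G.Adj a b) (fun h => hb h.2.1)]
        by_cases hbw : b = w
        · rw [chi_pos hbw, chi_neg (p := b ∉ H ∧ b ≠ w) (fun h => h.2 hbw)]
          unfold ad
          have e : chi (G.Adj a b) = chi (a ∈ nb G H w) := by
            refine chi_congr ?_
            rw [mem_nb, hbw, G.adj_comm]
            exact ⟨fun h => ⟨ha, h⟩, fun h => h.2⟩
          rw [e, hbw]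
          linarith
        · rw [chi_neg hbw, chi_pos (p := b ∉ H ∧ b ≠ w) ⟨hb, hbw⟩]
          unfold ad
          by_cases hab : G.Adj a b
          · rw [chi_pos hab, chi_pos (p := a ∈ H ∧ G.Adj b a) ⟨ha, hab.symm⟩]
            have := hyy b a (yo b hb hbw)
            linarith
          · rw [chi_neg hab, chi_neg (p := a ∈ H ∧ G.Adj b a) (fun h => hab h.2.symm)]
            linarith
    · rw [chi_neg (p := a ∈ H ∧ b ∈ H ∧ c a ≠ c b) (fun h => ha h.1),
        chi_neg (p := a ∈ H ∧ b ∈ H ∧ c a ≠ c b ∧ ¬ G.Adj a b) (fun h => ha h.1)]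
      by_cases hb : b ∈ H
      · have hbw : b ≠ w := fun h => hw (h ▸ hb)
        rw [chi_neg hbw, chi_neg (p := b ∉ H ∧ b ≠ w) (fun h => h.1 hb),
          chi_neg (p := G.Adj a b ∧ a ∉ H ∧ b ∉ H) (fun h => h.2.2 hb)]
        by_cases haw : a = w
        · rw [chi_pos haw, chi_neg (p := a ∉ H ∧ a ≠ w) (fun h => h.2 haw)]
          unfold ad
          have e : chi (G.Adj a b) = chi (b ∈ nb G H w) := by
            refine chi_congr ?_
            rw [mem_nb, haw]
            exact ⟨fun h => ⟨hb, h⟩, fun h => h.2⟩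
          rw [e, haw]
          linarith
        · rw [chi_neg haw, chi_pos (p := a ∉ H ∧ a ≠ w) ⟨ha, haw⟩]
          unfold ad
          by_cases hab : G.Adj a b
          · rw [chi_pos hab, chi_pos (p := b ∈ H ∧ G.Adj a b) ⟨hb, hab⟩]
            have := hyy a b (yo a ha haw)
            linarith
          · rw [chi_neg hab, chi_neg (p := b ∈ H ∧ G.Adj a b) (fun h => hab h.2)]
            linarith
      · rw [chi_neg (p := b ∈ nb G H w) (fun h => hb (mem_nb.mp h).1),
          chi_neg (p := a ∈ nb G H w) (fun h => ha (mem_nb.mp h).1),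
          chi_neg (p := b ∈ H ∧ G.Adj a b) (fun h => hb h.1),
          chi_neg (p := a ∈ H ∧ G.Adj b a) (fun h => ha h.1)]
        unfold ad
        by_cases hab : G.Adj a b
        · rw [chi_pos hab, chi_pos (p := G.Adj a b ∧ a ∉ H ∧ b ∉ H) ⟨hab, ha, hb⟩]
          have h3 : y a * y b ≤ δ * (1 + δ) := by
            by_cases haw : a = w
            · have hbw : b ≠ w := fun h => G.ne_of_adj hab (haw.trans h.symm)
              have := hyy b a (yo b hb hbw)
              linarith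
            · exact hyy a b (yo a ha haw)
          linarith
        · rw [chi_neg hab, chi_neg (p := G.Adj a b ∧ a ∉ H ∧ b ∉ H) (fun h => hab h.1)]
          linarith
  have s0 : ∑ a, ∑ b, ad G a b * (y a * y b) ≤ ∑ a, ∑ b, (
        chi (a ∈ H ∧ b ∈ H ∧ c a ≠ c b) * (y a * y b)
        - (1 - δ) ^ 2 * chi (a ∈ H ∧ b ∈ H ∧ c a ≠ c b ∧ ¬ G.Adj a b)
        + chi (a = w) * (chi (b ∈ nb G H w) * (y w * y b))
        + chi (b = w) * (chi (a ∈ nb G H w) * (y w * y a))
        + δ * (1 + δ) * (chi (a ∉ H ∧ a ≠ w) * chi (b ∈ H ∧ G.Adj a b))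
        + δ * (1 + δ) * (chi (b ∉ H ∧ b ≠ w) * chi (a ∈ H ∧ G.Adj b a))
        + δ * (1 + δ) * chi (G.Adj a b ∧ a ∉ H ∧ b ∉ H)) :=
    Finset.sum_le_sum fun a _ => Finset.sum_le_sum fun b _ => pt a b
  have t1 : ∑ a, ∑ b, chi (a = w) * (chi (b ∈ nb G H w) * (y w * y b))
      = y w * ∑ b ∈ nb G H w, y b := by
    have : ∀ a : V, ∑ b, chi (a = w) * (chi (b ∈ nb G H w) * (y w * y b))
        = chi (a = w) * (y w * ∑ b ∈ nb G H w, y b) := by
      intro a
      rw [← Finset.mul_sum, sum_chi_mul, ← Finset.mul_sum]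
    rw [Finset.sum_congr rfl fun a _ => this a, sum_chi_pt w (fun _ => y w * ∑ b ∈ nb G H w, y b)]
  have t2 : ∑ a, ∑ b, chi (b = w) * (chi (a ∈ nb G H w) * (y w * y a))
      = y w * ∑ b ∈ nb G H w, y b := by
    rw [Finset.sum_comm, t1]
  have t3 := out_sum G H w hw
  have t4 : ∑ a, ∑ b, chi (b ∉ H ∧ b ≠ w) * chi (a ∈ H ∧ G.Adj b a)
      = ∑ v ∈ out H, (dg G H v : ℝ) - dg G H w := by
    rw [Finset.sum_comm, t3]
  have t5 := mis_sum G H c
  have t6 := eu_sum G H
  simp only [Finset.sum_add_distrib, Finset.sum_sub_distrib, ← Finset.mul_sum] at s0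
  simp only [← Finset.mul_sum] at t1 t2 t3 t4
  rw [t1, t2, t3, t4, t5, t6] at s0
  linarith

omit [Fintype V] in
theorem adj_w {G : SimpleGraph V} {N : ℕ} {H : Finset V} {c : V → Fin r} {w : V} {A : Finset V}
    {v1 v2 : V} (h : WD G N H c w A v1 v2) {b : V} : G.Adj w b ↔ b ∈ A := by
  rw [h.adj]
  constructor
  · rintro (h1 | h1 | h1)
    · exact absurd h1.1 h.hw
    · exact h1.2
    · exact absurd (h.hA h1.2) h.hw
  · intro hb
    exact Or.inr (Or.inl ⟨rfl, hb⟩)

omit [Fintype V] in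
theorem ad_WD {G : SimpleGraph V} {N : ℕ} {H : Finset V} {c : V → Fin r} {w : V} {A : Finset V}
    {v1 v2 : V} (h : WD G N H c w A v1 v2) (a b : V) :
    ad G a b = chi (a ∈ H ∧ b ∈ H ∧ c a ≠ c b) + chi (a = w) * chi (b ∈ A)
      + chi (b = w) * chi (a ∈ A) - chi (a = v1) * chi (b = v2) - chi (a = v2) * chi (b = v1) := by
  have hv1 : v1 ∈ H := by
    have : v1 ∈ cl A c (c v1) := by rw [h.h1]; exact mem_singleton_self _
    exact h.hA (mem_cl.mp this).1
  have hv2 : v2 ∈ H := by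
    have : v2 ∈ cl A c (c v2) := by rw [h.h2]; exact mem_singleton_self _
    exact h.hA (mem_cl.mp this).1
  have h21 : c v2 ≠ c v1 := h.h12.symm
  have hne : v1 ≠ v2 := fun h0 => h.h12 (by rw [h0])
  have hw1 : w ≠ v1 := fun h0 => h.hw (h0 ▸ hv1)
  have hw2 : w ≠ v2 := fun h0 => h.hw (h0 ▸ hv2)
  unfold ad
  rw [← chi_and, ← chi_and, ← chi_and, ← chi_and]
  by_cases ha : a = w
  · subst ha
    have e1 : ¬ (a ∈ H ∧ b ∈ H ∧ c a ≠ c b) := fun h0 => h.hw h0.1
    have e2 : ¬ (b = a ∧ a ∈ A) := fun h0 => h.hw (h.hA h0.2)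
    have e3 : ¬ (a = v1 ∧ b = v2) := fun h0 => hw1 h0.1
    have e4 : ¬ (a = v2 ∧ b = v1) := fun h0 => hw2 h0.1
    rw [chi_neg e1, chi_neg e2, chi_neg e3, chi_neg e4]
    by_cases hb : b ∈ A
    · rw [chi_pos ((adj_w h).mpr hb), chi_pos ⟨rfl, hb⟩]; ring
    · rw [chi_neg (fun h0 => hb ((adj_w h).mp h0)), chi_neg (fun h0 => hb h0.2)]; ring
  · by_cases hb : b = w
    · subst hb
      have e1 : ¬ (a ∈ H ∧ b ∈ H ∧ c a ≠ c b) := fun h0 => h.hw h0.2.1
      have e2 : ¬ (a = b ∧ b ∈ A) := fun h0 => h.hw (h.hA h0.2)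
      have e3 : ¬ (a = v1 ∧ b = v2) := fun h0 => hw2 h0.2
      have e4 : ¬ (a = v2 ∧ b = v1) := fun h0 => hw1 h0.2
      rw [chi_neg e1, chi_neg e2, chi_neg e3, chi_neg e4]
      by_cases hb : a ∈ A
      · rw [chi_pos ((adj_w h).mpr hb).symm, chi_pos ⟨rfl, hb⟩]; ring
      · rw [chi_neg (fun h0 => hb ((adj_w h).mp h0.symm)), chi_neg (fun h0 => hb h0.2)]; ring
    · have e1 : ¬ (a = w ∧ b ∈ A) := fun h0 => ha h0.1
      have e2 : ¬ (b = w ∧ a ∈ A) := fun h0 => hb h0.1
      rw [chi_neg e1, chi_neg e2]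
      by_cases h3 : a = v1 ∧ b = v2
      · have h4 : ¬ (a = v2 ∧ b = v1) := fun h0 => hne (h3.1.symm.trans h0.1)
        rw [chi_pos h3, chi_neg h4]
        obtain ⟨rfl, rfl⟩ := h3
        have h5 : ¬ G.Adj a b := by
          rw [h.adj]
          rintro (h0 | h0 | h0)
          · exact h0.2.2.2.1 ⟨rfl, rfl⟩
          · exact ha h0.1
          · exact hb h0.1
        rw [chi_neg h5, chi_pos ⟨hv1, hv2, h.h12⟩]; ring
      · by_cases h4 : a = v2 ∧ b = v1
        · rw [chi_neg h3, chi_pos h4]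
          obtain ⟨rfl, rfl⟩ := h4
          have h5 : ¬ G.Adj a b := by
            rw [h.adj]
            rintro (h0 | h0 | h0)
            · exact h0.2.2.2.2 ⟨rfl, rfl⟩
            · exact ha h0.1
            · exact hb h0.1
          rw [chi_neg h5, chi_pos ⟨hv2, hv1, h21⟩]; ring
        · rw [chi_neg h3, chi_neg h4]
          have h5 : G.Adj a b ↔ (a ∈ H ∧ b ∈ H ∧ c a ≠ c b) := by
            rw [h.adj]
            constructor
            · rintro (h0 | h0 | h0)
              · exact ⟨h0.1, h0.2.1, h0.2.2.1⟩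
              · exact absurd h0 e1
              · exact absurd h0 e2
            · intro h0
              exact Or.inl ⟨h0.1, h0.2.1, h0.2.2, h3, h4⟩
          rw [chi_congr h5]; ring

/-- the quadratic form of a graph of type D -/
theorem quadD {G : SimpleGraph V} {N : ℕ} {H : Finset V} {c : V → Fin r} {w : V} {A : Finset V}
    {v1 v2 : V} (h : WD G N H c w A v1 v2) (y : V → ℝ) :
    ∑ a, ∑ b, ad G a b * (y a * y b)
      = ∑ a, ∑ b, chi (a ∈ H ∧ b ∈ H ∧ c a ≠ c b) * (y a * y b) + 2 * (y w * ∑ b ∈ A, y b)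
        - 2 * (y v1 * y v2) := by
  classical
  have pt : ∀ a b, ad G a b * (y a * y b) = chi (a ∈ H ∧ b ∈ H ∧ c a ≠ c b) * (y a * y b)
      + chi (a = w) * (chi (b ∈ A) * (y a * y b)) + chi (b = w) * (chi (a ∈ A) * (y a * y b))
      - chi (a = v1) * (chi (b = v2) * (y a * y b))
      - chi (a = v2) * (chi (b = v1) * (y a * y b)) := by
    intro a b
    rw [ad_WD h]; ring
  have t1 : ∑ a, ∑ b, chi (a = w) * (chi (b ∈ A) * (y a * y b)) = y w * ∑ b ∈ A, y b := by
    have : ∀ a : V, ∑ b, chi (a = w) * (chi (b ∈ A) * (y a * y b))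
        = chi (a = w) * (y a * ∑ b ∈ A, y b) := by
      intro a
      rw [← Finset.mul_sum, sum_chi_mul, ← Finset.mul_sum]
    rw [Finset.sum_congr rfl fun a _ => this a, sum_chi_pt w (fun a => y a * ∑ b ∈ A, y b)]
  have t2 : ∑ a, ∑ b, chi (b = w) * (chi (a ∈ A) * (y a * y b)) = y w * ∑ b ∈ A, y b := by
    rw [Finset.sum_comm, ← t1]
    refine Finset.sum_congr rfl fun a _ => Finset.sum_congr rfl fun b _ => ?_
    ring
  have t3 : ∀ p q : V, ∑ a, ∑ b, chi (a = p) * (chi (b = q) * (y a * y b)) = y p * y q := by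
    intro p q
    have : ∀ a : V, ∑ b, chi (a = p) * (chi (b = q) * (y a * y b))
        = chi (a = p) * (y a * y q) := by
      intro a
      rw [← Finset.mul_sum, sum_chi_pt q (fun b => y a * y b)]
    rw [Finset.sum_congr rfl fun a _ => this a, sum_chi_pt p (fun a => y a * y q)]
  rw [Finset.sum_congr rfl fun a _ => Finset.sum_congr rfl fun b _ => pt a b]
  simp only [Finset.sum_add_distrib, Finset.sum_sub_distrib]
  rw [t1, t2, t3, t3]
  ring

/-- the first case: one missing edge and no further edges -/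
theorem wd_of {G : SimpleGraph V} {N : ℕ} {H : Finset V} {c : V → Fin r} {w v1 v2 : V}
    (card : H.card = N) (hw : w ∉ H) (ind : ∀ u ∈ H, ∀ v ∈ H, c u = c v → ¬ G.Adj u v)
    (hne : ∀ i, (cl (nb G H w) c i).Nonempty) (hS : ∀ v, v ∉ H → v ≠ w → dg G H v = 0)
    (heu : eu G H = 0) (h12 : c v1 ≠ c v2) (h1 : cl (nb G H w) c (c v1) = {v1})
    (h2 : cl (nb G H w) c (c v2) = {v2})
    (h3 : ∀ a ∈ H, ∀ b ∈ H, c a ≠ c b →
      (¬ G.Adj a b ↔ (a = v1 ∧ b = v2) ∨ (a = v2 ∧ b = v1))) :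
    WD G N H c w (nb G H w) v1 v2 := by
  classical
  have hS' : ∀ a b, a ∉ H → a ≠ w → b ∈ H → ¬ G.Adj a b := by
    intro a b ha haw hb hab
    have h4 := hS a ha haw
    unfold dg at h4
    rw [Finset.card_eq_zero] at h4
    have : b ∈ nb G H a := mem_nb.mpr ⟨hb, hab⟩
    rw [h4] at this
    exact absurd this (Finset.notMem_empty _)
  have heu' : ∀ a b, a ∉ H → b ∉ H → ¬ G.Adj a b := by
    intro a b ha hb hab
    unfold eu at heu
    rw [Finset.card_eq_zero, Finset.filter_eq_empty_iff] at heu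
    exact heu (x := (a, b)) (Finset.mem_univ _) ⟨hab, ha, hb⟩
  refine ⟨card, hw, fun v hv => (mem_nb.mp hv).1, h12, h1, h2, hne, fun a b => ?_⟩
  have hv1 : v1 ∈ H := by
    have : v1 ∈ cl (nb G H w) c (c v1) := by rw [h1]; exact mem_singleton_self _
    exact (mem_nb.mp (mem_cl.mp this).1).1
  constructor
  · intro hab
    by_cases ha : a ∈ H
    · by_cases hb : b ∈ H
      · have hc : c a ≠ c b := fun h => ind a ha b hb h hab
        refine Or.inl ⟨ha, hb, hc, fun h => ?_, fun h => ?_⟩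
        · exact (h3 a ha b hb hc).mpr (Or.inl h) hab
        · exact (h3 a ha b hb hc).mpr (Or.inr h) hab
      · by_cases hbw : b = w
        · exact Or.inr (Or.inr ⟨hbw, mem_nb.mpr ⟨ha, hbw ▸ hab.symm⟩⟩)
        · exact absurd hab.symm (hS' b a hb hbw ha)
    · by_cases hb : b ∈ H
      · by_cases haw : a = w
        · exact Or.inr (Or.inl ⟨haw, mem_nb.mpr ⟨hb, haw ▸ hab⟩⟩)
        · exact absurd hab (hS' a b ha haw hb)
      · exact absurd hab (heu' a b ha hb)
  · rintro (⟨ha, hb, hc, h4, h5⟩ | ⟨rfl, hb⟩ | ⟨rfl, ha⟩)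
    · by_contra hab
      rcases (h3 a ha b hb hc).mp hab with h | h
      · exact h4 h
      · exact h5 h
    · exact (mem_nb.mp hb).2
    · exact (mem_nb.mp ha).2.symm

/-- the arithmetic of the comparison -/
theorem arith (δ ε X z m q p p' S E : ℝ) (hδ : 0 < δ) (hδε : 100 * δ ≤ ε) (hε1 : ε ≤ 1)
    (hX : ε ≤ X) (hX1 : X ≤ 1 - ε) (hz1 : X - δ ≤ z) (hz2 : z ≤ X + δ) (hm : 1 ≤ m)
    (hq : 0 ≤ q) (hmq : 2 ≤ m + q) (hp : p - p' = 1 - m + q) (hpp : p + p' + 3 ≤ 3 * m + q)
    (hS : S + E = q) :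
    0 < (1 - δ) ^ 2 * m - (1 + δ) ^ 2 + z * ((1 - δ) * p - (1 + δ) * p')
      - δ * (1 + δ) * S - δ * (1 + δ) * E := by
  have hz0 : 0 ≤ z := by linarith
  have hδ1 : δ ≤ 1 / 100 := by linarith
  have e1 : (1 - δ) * p - (1 + δ) * p' = (1 - m + q) - δ * (p + p') := by rw [← hp]; ring
  have e2 : (1 - m + q) - δ * (3 * m + q - 3) ≤ (1 - δ) * p - (1 + δ) * p' := by
    rw [e1]
    have : δ * (p + p') ≤ δ * (3 * m + q - 3) := mul_le_mul_of_nonneg_left (by linarith) hδ.le
    linarith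
  have e3 : z * ((1 - m + q) - δ * (3 * m + q - 3)) ≤ z * ((1 - δ) * p - (1 + δ) * p') :=
    mul_le_mul_of_nonneg_left e2 hz0
  have e4 : (1 - δ) ^ 2 * m - (1 + δ) ^ 2 + z * ((1 - m + q) - δ * (3 * m + q - 3))
      - δ * (1 + δ) * S - δ * (1 + δ) * E
      = (m - 1) * ((1 - δ) ^ 2 - z * (1 + 3 * δ)) - 4 * δ
        + q * (z * (1 - δ) - δ * (1 + δ)) := by
    rw [← hS]; ring
  have e5 : 50 * δ ≤ (1 - δ) ^ 2 - z * (1 + 3 * δ) := by
    have h1 : z * (1 + 3 * δ) ≤ (1 - ε + δ) * (1 + 3 * δ) :=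
      mul_le_mul_of_nonneg_right (by linarith) (by linarith)
    nlinarith
  have e6 : 50 * δ ≤ z * (1 - δ) - δ * (1 + δ) := by
    have h1 : (ε - δ) * (1 - δ) ≤ z * (1 - δ) :=
      mul_le_mul_of_nonneg_right (by linarith) (by linarith)
    nlinarith
  have e7 : (m - 1) * (50 * δ) ≤ (m - 1) * ((1 - δ) ^ 2 - z * (1 + 3 * δ)) :=
    mul_le_mul_of_nonneg_left e5 (by linarith)
  have e8 : q * (50 * δ) ≤ q * (z * (1 - δ) - δ * (1 + δ)) :=
    mul_le_mul_of_nonneg_left e6 hq
  have e9 : 0 < (m - 1 + q) * (50 * δ) - 4 * δ := by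
    have : 1 * (50 * δ) ≤ (m - 1 + q) * (50 * δ) :=
      mul_le_mul_of_nonneg_right (by linarith) (by linarith)
    linarith
  nlinarith

end

end B1U

end Pool.Agent.Work.MP_5532fa_up

end

section

open Finset

namespace Pool.Agent.Work.MP_5532fa_up

namespace OPT1

/-- `fract y * (1 - fract y)` -/
noncomputable def g (y : ℝ) : ℝ := Int.fract y * (1 - Int.fract y)

theorem g_of_unit {y : ℝ} (h0 : 0 ≤ y) (h1 : y < 1) : g y = y * (1 - y) := by
  unfold g
  rw [Int.fract_eq_self.2 ⟨h0, h1⟩]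

theorem g_add_int (y : ℝ) (k : ℤ) : g (y + k) = g y := by
  unfold g
  rw [Int.fract_add_intCast]

theorem g_sub (a b : ℝ) : g (a + b) ≤ g a + g b := by
  have ha0 := Int.fract_nonneg a
  have ha1 := Int.fract_lt_one a
  have hb0 := Int.fract_nonneg b
  have hb1 := Int.fract_lt_one b
  have hab : g (a + b) = g (Int.fract a + Int.fract b) := by
    have : a + b = (Int.fract a + Int.fract b) + ((⌊a⌋ + ⌊b⌋ : ℤ) : ℝ) := by
      push_cast
      unfold Int.fract
      ring
    conv_lhs => rw [this]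
    rw [g_add_int]
  rw [hab]
  by_cases h : Int.fract a + Int.fract b < 1
  · rw [g_of_unit (by linarith) h]
    unfold g
    nlinarith [mul_nonneg ha0 hb0]
  · rw [not_lt] at h
    have h2 : g (Int.fract a + Int.fract b) = g (Int.fract a + Int.fract b - 1) := by
      have := g_add_int (Int.fract a + Int.fract b - 1) 1
      rw [← this]
      congr 1
      push_cast
      ring
    rw [h2, g_of_unit (by linarith) (by linarith)]
    unfold g
    nlinarith [mul_nonneg (sub_nonneg.2 ha1.le) (sub_nonneg.2 hb1.le)]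

theorem g_le_abs (y : ℝ) : g y ≤ |y| := by
  have h0 := Int.fract_nonneg y
  have h1 := (Int.fract_lt_one y).le
  rcases le_or_gt 0 y with hy | hy
  · rw [abs_of_nonneg hy]
    have h2 : Int.fract y ≤ y := by
      have : (0:ℝ) ≤ (⌊y⌋ : ℝ) := by exact_mod_cast Int.floor_nonneg.2 hy
      unfold Int.fract
      linarith
    unfold g
    nlinarith
  · rw [abs_of_neg hy]
    have h2 : 1 - Int.fract y ≤ -y := by
      have h3 : ⌊y⌋ ≤ -1 := by
        have : ⌊y⌋ < 0 := Int.floor_lt.2 (by push_cast; exact hy)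
        omega
      have h4 : ((⌊y⌋ : ℤ) : ℝ) ≤ -1 := by exact_mod_cast h3
      unfold Int.fract
      linarith
    unfold g
    nlinarith

theorem g_sum {ι : Type} (s : Finset ι) (X : ι → ℝ) (hX : ∀ v ∈ s, 0 ≤ X v ∧ X v < 1) :
    g (∑ v ∈ s, X v) ≤ ∑ v ∈ s, X v * (1 - X v) := by
  classical
  induction s using Finset.induction_on with
  | empty => simp [g]
  | insert a s ha ih =>
    rw [Finset.sum_insert ha, Finset.sum_insert ha]
    refine (g_sub _ _).trans (add_le_add ?_ (ih fun v hv => hX v (Finset.mem_insert_of_mem hv)))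
    have := hX a (Finset.mem_insert_self _ _)
    rw [g_of_unit this.1 this.2]

end OPT1

open OPT1 in
theorem blk_OPT1 : Stmt_OPT1 := by
  intro ι s X e sg mu x κ κ' δ k hX he hsg hmu hx0 hx1 hκ0 hκ1 hκκ hδ habs
  have hF : g (∑ v ∈ s, X v + e) ≤ ∑ v ∈ s, X v * (1 - X v) + e := by
    refine (g_sub _ _).trans (add_le_add (g_sum s X hX) ?_)
    have := g_le_abs e
    rwa [abs_of_nonneg he] at this
  have hq : g (x + (sg + mu)) ≤ g (∑ v ∈ s, X v + e) + δ := by
    have h1 : x + (sg + mu) + k = (∑ v ∈ s, X v + e) +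
        -(∑ v ∈ s, X v + e - sg - mu - k - x) := by ring
    rw [← g_add_int (x + (sg + mu)) k, h1]
    refine (g_sub _ _).trans (add_le_add le_rfl ((g_le_abs _).trans ?_))
    rw [abs_neg]
    exact habs
  have hF0 : 0 ≤ ∑ v ∈ s, X v * (1 - X v) :=
    Finset.sum_nonneg fun v hv => mul_nonneg (hX v hv).1 (by linarith [(hX v hv).2])
  have hm : 0 ≤ min x κ := le_min hx0 hκ0
  have hm1 : min x κ ≤ x := min_le_left _ _
  have hm2 : min x κ ≤ κ := min_le_right _ _
  have hκmu : κ * mu ≤ κ' * mu := mul_le_mul_of_nonneg_right hκκ hmu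
  by_cases h : x + (sg + mu) < 1
  · rw [g_of_unit (by linarith) h] at hq
    have h3 : (1 - x) * min x κ ≤ (x + (sg + mu)) * (1 - (x + (sg + mu))) + κ * (sg + mu) := by
      have h4 : min x κ * (1 - (x + (sg + mu))) ≤ (x + (sg + mu)) * (1 - (x + (sg + mu))) :=
        mul_le_mul_of_nonneg_right (by linarith) (by linarith)
      have h5 : min x κ * (sg + mu) ≤ κ * (sg + mu) :=
        mul_le_mul_of_nonneg_right hm2 (by linarith)
      nlinarith
    nlinarith
  · rw [not_lt] at h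
    have h4 : (1 - x) * min x κ ≤ κ * (1 - x) := by
      rw [mul_comm κ]
      exact mul_le_mul_of_nonneg_left hm2 (by linarith)
    have h5 : κ * (1 - x) ≤ κ * (sg + mu) := mul_le_mul_of_nonneg_left (by linarith) hκ0
    nlinarith

end Pool.Agent.Work.MP_5532fa_up

end

section

/-!
# MP_5532fa_co, block LAB (helper83): graphs given by labels
-/

set_option autoImplicit false

open Finset

namespace Pool.Agent.Work.MP_5532fa_up

open MP5532fa (specRad qf pE UpToIsolated specRad_of_upTo)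

namespace LAB

variable {L V V' : Type}

/-- the fibres of the restricted label function -/
noncomputable def fe (K : Finset V) (l : V → L) (s : L) :
    {x : {v // v ∈ K} // l x.1 = s} ≃ {v // v ∈ fib K l s} :=
  (Equiv.subtypeSubtypeEquivSubtypeInter (fun v => v ∈ K) (fun v => l v = s)).trans
    (Equiv.subtypeEquivRight fun _ => mem_fib.symm)

theorem exists_equiv (K : Finset V) (K' : Finset V') (l : V → L) (l' : V' → L)
    (h : ∀ s : L, (fib K l s).card = (fib K' l' s).card) :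
    ∃ e : {v // v ∈ K} ≃ {v // v ∈ K'}, ∀ x, l' (e x).1 = l x.1 := by
  have E : ∀ s : L, {x : {v // v ∈ K} // l x.1 = s} ≃ {x : {v // v ∈ K'} // l' x.1 = s} :=
    fun s => ((fe K l s).trans (Finset.equivOfCardEq (h s))).trans (fe K' l' s).symm
  refine ⟨(Equiv.sigmaFiberEquiv (fun x : {v // v ∈ K} => l x.1)).symm.trans
    ((Equiv.sigmaCongrRight E).trans
      (Equiv.sigmaFiberEquiv (fun x : {v // v ∈ K'} => l' x.1))), ?_⟩
  intro x
  exact (E (l x.1) ⟨x, rfl⟩).2

theorem upTo (G : SimpleGraph V) (K : Finset V)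
    (hK : ∀ a b, G.Adj a b → a ∈ K) :
    UpToIsolated G (G.comap (Subtype.val : {v // v ∈ K} → V)) := by
  refine ⟨SimpleGraph.Embedding.comap ⟨Subtype.val, Subtype.val_injective⟩ G, ?_⟩
  intro v hv w hvw
  exact hv ⟨⟨v, hK v w hvw⟩, rfl⟩

/-- both graphs are the same graph `D` up to isolated vertices -/
theorem iso (R : L → L → Prop) (G : SimpleGraph V) (G' : SimpleGraph V') (K : Finset V)
    (K' : Finset V') (l : V → L) (l' : V' → L)
    (hG : ∀ a b, G.Adj a b ↔ a ∈ K ∧ b ∈ K ∧ a ≠ b ∧ R (l a) (l b))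
    (hG' : ∀ a b, G'.Adj a b ↔ a ∈ K' ∧ b ∈ K' ∧ a ≠ b ∧ R (l' a) (l' b))
    (hcard : ∀ s : L, (fib K l s).card = (fib K' l' s).card) :
    UpToIsolated G (G.comap (Subtype.val : {v // v ∈ K} → V)) ∧
      UpToIsolated G' (G.comap (Subtype.val : {v // v ∈ K} → V)) := by
  classical
  obtain ⟨e, he⟩ := exists_equiv K K' l l' hcard
  have u1 := upTo G K fun a b h => ((hG a b).mp h).1
  have u2 := upTo G' K' fun a b h => ((hG' a b).mp h).1
  have iso : G.comap (Subtype.val : {v // v ∈ K} → V) ≃g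
      G'.comap (Subtype.val : {v // v ∈ K'} → V') := by
    refine ⟨e, ?_⟩
    intro a b
    show G'.Adj (e a).1 (e b).1 ↔ G.Adj a.1 b.1
    rw [hG', hG, he a, he b]
    constructor
    · rintro ⟨-, -, h3, h4⟩
      refine ⟨a.2, b.2, ?_, h4⟩
      intro h
      apply h3
      rw [Subtype.ext h]
    · rintro ⟨-, -, h3, h4⟩
      refine ⟨(e a).2, (e b).2, ?_, h4⟩
      intro h
      apply h3
      rw [e.injective (Subtype.ext h)]
  exact ⟨u1, u2.trans_iso iso⟩

end LAB

theorem blk_LAB : Stmt_LAB := by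
  intro L V V' _ _ R G G' K K' l l' hG hG' hcard hne
  obtain ⟨u1, u3⟩ := LAB.iso R G G' K K' l l' hG hG' hcard
  have : Nonempty {v // v ∈ K} := by
    obtain ⟨v, hv⟩ := hne
    exact ⟨⟨v, hv⟩⟩
  rw [specRad_of_upTo u1, specRad_of_upTo u3]

end Pool.Agent.Work.MP_5532fa_up

end
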