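import Mathlib
import Pool.Agent.Work.MP_5532fa_full.P01

section

/-!
# MP_5532fa_co, upgrade: block AVG, sizes of the classes and flatness of the eigenvector
-/

open Finset

namespace Pool.Agent.Work.MP_5532fa_up

namespace AVG

/-- Cauchy for a product -/
theorem cauchy {V : Type} (A B : Finset V) (x : V → ℝ) (t : ℝ) :
    ((∑ u ∈ A, x u) * (∑ v ∈ B, x v) - (A.card : ℝ) * B.card * t) ^ 2 ≤
      (A.card : ℝ) * B.card * ∑ u ∈ A, ∑ v ∈ B, (x u * x v - t) ^ 2 := by
  have h1 := sq_sum_le_card_mul_sum_sq (s := A ×ˢ B) (f := fun p => x p.1 * x p.2 - t)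
  rw [Finset.sum_product, Finset.sum_product, Finset.card_product] at h1
  have h2 : ∑ u ∈ A, ∑ v ∈ B, (x u * x v - t) =
      (∑ u ∈ A, x u) * (∑ v ∈ B, x v) - (A.card : ℝ) * B.card * t := by
    rw [Finset.sum_mul_sum]
    simp only [Finset.sum_sub_distrib, Finset.sum_const, nsmul_eq_mul]
    ring
  simp only at h1
  rw [h2] at h1
  push_cast at h1
  exact h1

/-- variance -/
theorem variance {V : Type} (A : Finset V) (x : V → ℝ) (b y t : ℝ) (hb : ∑ v ∈ A, x v = A.card * b) :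
    ∑ v ∈ A, (y * x v - t) ^ 2 = y ^ 2 * ∑ v ∈ A, (x v - b) ^ 2 + A.card * (y * b - t) ^ 2 := by
  have h1 : ∀ v ∈ A, (y * x v - t) ^ 2 =
      y ^ 2 * (x v - b) ^ 2 + 2 * y * (y * b - t) * (x v - b) + (y * b - t) ^ 2 := by
    intro v _; ring
  rw [Finset.sum_congr rfl h1, Finset.sum_add_distrib, Finset.sum_add_distrib, ← Finset.mul_sum,
    ← Finset.mul_sum, Finset.sum_const, nsmul_eq_mul, Finset.sum_sub_distrib, Finset.sum_const,
    nsmul_eq_mul, hb]
  ring

/-- from three products to a square -/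
theorem square_est (a b c t C s : ℝ) (hs : 0 < s) (hst : s ^ 2 = t) (hs1 : s ≤ 1) (hC : 0 ≤ C)
    (ha : 3 / 4 * s ≤ a) (hb : 3 / 4 * s ≤ b) (hc : 3 / 4 * s ≤ c)
    (hab : |a * b - t| ≤ C * t * s) (hac : |a * c - t| ≤ C * t * s) (hbc : |b * c - t| ≤ C * t * s) :
    |a - s| ≤ 2 * (3 * C + C ^ 2) * t := by
  have ht : 0 < t := by rw [← hst]; positivity
  rw [abs_le] at hab hac hbc
  -- `b c (a² - t)`
  have h1 : b * c * (a ^ 2 - t) = t * ((a * b - t) + (a * c - t) - (b * c - t)) + (a * b - t) * (a * c - t) := by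
    ring
  have h2 : |b * c * (a ^ 2 - t)| ≤ 3 * C * t ^ 2 * s + (C * t * s) ^ 2 := by
    rw [h1]
    have h3 : |t * ((a * b - t) + (a * c - t) - (b * c - t))| ≤ 3 * C * t ^ 2 * s := by
      rw [abs_mul, abs_of_pos ht]
      have : |(a * b - t) + (a * c - t) - (b * c - t)| ≤ 3 * (C * t * s) := by
        rw [abs_le]; constructor <;> linarith only [hab, hac, hbc]
      calc t * |(a * b - t) + (a * c - t) - (b * c - t)| ≤ t * (3 * (C * t * s)) :=
            mul_le_mul_of_nonneg_left this ht.le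
        _ = 3 * C * t ^ 2 * s := by ring
    have h4 : |(a * b - t) * (a * c - t)| ≤ (C * t * s) ^ 2 := by
      rw [abs_mul, pow_two]
      exact mul_le_mul (abs_le.2 hab) (abs_le.2 hac) (abs_nonneg _) (by positivity)
    exact (abs_add_le _ _).trans (add_le_add h3 h4)
  have hb0 : 0 < b := lt_of_lt_of_le (by positivity) hb
  have hc0 : 0 < c := lt_of_lt_of_le (by positivity) hc
  have ha0 : 0 < a := lt_of_lt_of_le (by positivity) ha
  have hbc' : 9 / 16 * t ≤ b * c := by
    calc 9 / 16 * t = (3 / 4 * s) * (3 / 4 * s) := by rw [← hst]; ring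
      _ ≤ b * c := mul_le_mul hb hc (by positivity) hb0.le
  -- `|a² - t|`
  have h5 : 9 / 16 * t * |a ^ 2 - t| ≤ 3 * C * t ^ 2 * s + (C * t * s) ^ 2 := by
    refine le_trans ?_ h2
    rw [abs_mul, abs_of_pos (mul_pos hb0 hc0)]
    exact mul_le_mul_of_nonneg_right hbc' (abs_nonneg _)
  have h6 : a ^ 2 - t = (a - s) * (a + s) := by rw [← hst]; ring
  have h7 : |a ^ 2 - t| = |a - s| * (a + s) := by
    rw [h6, abs_mul, abs_of_pos (by linarith only [hs, ha] : 0 < a + s)]
  rw [h7] at h5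
  have h8 : |a - s| * (7 / 4 * s) ≤ |a - s| * (a + s) :=
    mul_le_mul_of_nonneg_left (by linarith only [ha]) (abs_nonneg _)
  have h9 : 9 / 16 * t * (|a - s| * (7 / 4 * s)) ≤ 3 * C * t ^ 2 * s + (C * t * s) ^ 2 :=
    (mul_le_mul_of_nonneg_left h8 (by positivity)).trans h5
  have h10 : (C * t * s) ^ 2 ≤ C ^ 2 * t ^ 2 * s := by
    calc (C * t * s) ^ 2 = C ^ 2 * t ^ 2 * s * s := by ring
      _ ≤ C ^ 2 * t ^ 2 * s * 1 := mul_le_mul_of_nonneg_left hs1 (by positivity)
      _ = _ := by ring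
  have h11 : (t * s) * (63 / 64 * |a - s|) ≤ (t * s) * ((3 * C + C ^ 2) * t) := by
    calc (t * s) * (63 / 64 * |a - s|) = 9 / 16 * t * (|a - s| * (7 / 4 * s)) := by ring
      _ ≤ 3 * C * t ^ 2 * s + (C * t * s) ^ 2 := h9
      _ ≤ 3 * C * t ^ 2 * s + C ^ 2 * t ^ 2 * s := by linarith only [h10]
      _ = (t * s) * ((3 * C + C ^ 2) * t) := by ring
  have h12 : 63 / 64 * |a - s| ≤ (3 * C + C ^ 2) * t := le_of_mul_le_mul_left h11 (by positivity)
  have h13 : 0 ≤ (3 * C + C ^ 2) * t := by positivity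
  have h14 := abs_nonneg (a - s)
  linarith only [h12, h13]

theorem div_mul_sqrt (a b t : ℝ) (ht : 0 < t) : a / t * (b * √t) = a * b / √t := by
  have hs : 0 < √t := Real.sqrt_pos.2 ht
  have hss : √t * √t = t := Real.mul_self_sqrt ht.le
  rw [eq_div_iff hs.ne']
  have h1 : a / t * (b * √t) * √t = a / t * b * (√t * √t) := by ring
  rw [h1, hss]
  field_simp

/-- three different indices -/
theorem three {r : ℕ} (hr : 3 ≤ r) (i : Fin r) : ∃ j k : Fin r, j ≠ i ∧ k ≠ i ∧ j ≠ k := by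
  have h1 : 2 ≤ (univ.erase i).card := by
    rw [Finset.card_erase_of_mem (Finset.mem_univ i), Finset.card_univ, Fintype.card_fin]
    omega
  obtain ⟨j, hj, k, hk, hjk⟩ := Finset.one_lt_card.1 (by omega : 1 < (univ.erase i).card)
  exact ⟨j, k, Finset.ne_of_mem_erase hj, Finset.ne_of_mem_erase hk, hjk⟩

section main

variable {V : Type} [Fintype V] {r : ℕ} {η K t lam : ℝ} {G : SimpleGraph V} {x : V → ℝ}
  {c : V → Fin r} {T : Finset V}

theorem block_le (hE : TE r K G x t c T) (i j : Fin r) (hij : i ≠ j) :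
    ∑ u ∈ cl T c i, ∑ v ∈ cl T c j, (x u * x v - t) ^ 2 ≤ K * t := by
  refine le_trans ?_ hE.dev
  have h1 : ∀ u ∈ cl T c i, ∑ v ∈ cl T c j, (x u * x v - t) ^ 2 ≤
      ∑ v ∈ T, chi (c u ≠ c v) * (x u * x v - t) ^ 2 := by
    intro u hu
    have hu' := mem_cl.1 hu
    refine le_trans (le_of_eq ?_) (Finset.sum_le_sum_of_subset_of_nonneg
      (f := fun v => chi (c u ≠ c v) * (x u * x v - t) ^ 2)
      (s := cl T c j) (t := T) ?_ ?_)
    · refine Finset.sum_congr rfl fun v hv => ?_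
      have hv' := mem_cl.1 hv
      rw [chi_pos (by rw [hu'.2, hv'.2]; exact hij), one_mul]
    · intro v hv
      exact (mem_cl.1 hv).1
    · intro v _ _
      exact mul_nonneg (chi_nonneg _) (sq_nonneg _)
  refine (Finset.sum_le_sum h1).trans ?_
  refine Finset.sum_le_sum_of_subset_of_nonneg ?_ ?_
  · intro v hv
    exact (mem_cl.1 hv).1
  · intro u _ _
    exact Finset.sum_nonneg fun v _ => mul_nonneg (chi_nonneg _) (sq_nonneg _)

omit [Fintype V] in
theorem sz_nonneg (i : Fin r) : 0 ≤ sz T c i := Nat.cast_nonneg _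

omit [Fintype V] in
theorem sum_sz : ∑ i, sz T c i = (T.card : ℝ) := by
  have h := sum_card_cl T c
  unfold sz
  rw [← h]
  push_cast
  rfl

/-- the eigenvalue equation summed over a class -/
theorem class_eq (hpv : PV G x lam) (hT : TD r η K G x lam t c T) (hE : TE r K G x t c T)
    (hη : 0 < η) (hη4 : η ≤ 1 / 4) (hK : 1 ≤ K) (i : Fin r) :
    |lam * cs x T c i - sz T c i * (∑ v ∈ T, x v - cs x T c i)| ≤ (2 * K + K ^ 2) / √t := by
  classical
  have ht := hT.tpos
  have hs : 0 < √t := Real.sqrt_pos.2 ht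
  have hss : √t * √t = t := Real.mul_self_sqrt ht.le
  -- the equation
  have h1 : lam * cs x T c i = ∑ u ∈ cl T c i, ∑ v ∈ T, ad G u v * x v +
      ∑ u ∈ cl T c i, ∑ v ∈ out T, ad G u v * x v := by
    unfold cs
    rw [Finset.mul_sum, ← Finset.sum_add_distrib]
    refine Finset.sum_congr rfl fun u _ => ?_
    rw [← hpv.eig u]
    have h2 : out T = univ \ T := by
      ext v
      rw [mem_out]
      simp
    rw [h2, add_comm, Finset.sum_sdiff (Finset.subset_univ T)]
  -- inner part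
  have h2 : ∑ u ∈ cl T c i, ∑ v ∈ T, ad G u v * x v =
      sz T c i * (∑ v ∈ T, x v - cs x T c i) -
      ∑ u ∈ cl T c i, ∑ v ∈ T, chi (c u ≠ c v ∧ ¬ G.Adj u v) * x v := by
    have h3 : ∀ u ∈ cl T c i, ∑ v ∈ T, ad G u v * x v = (∑ v ∈ T, x v - cs x T c i) -
        ∑ v ∈ T, chi (c u ≠ c v ∧ ¬ G.Adj u v) * x v := by
      intro u hu
      have hu' := mem_cl.1 hu
      have h4 : ∑ v ∈ T, x v - cs x T c i = ∑ v ∈ T, chi (c v ≠ i) * x v := by
        unfold cs cl
        rw [Finset.sum_filter, ← Finset.sum_sub_distrib]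
        refine Finset.sum_congr rfl fun v _ => ?_
        by_cases h : c v = i
        · rw [if_pos h, chi_neg (not_not.2 h)]; ring
        · rw [if_neg h, chi_pos h]; ring
      rw [h4, ← Finset.sum_sub_distrib]
      refine Finset.sum_congr rfl fun v hv => ?_
      by_cases h : c v = i
      · have hna : ¬ G.Adj u v := hT.ind u hu'.1 v hv (hu'.2.trans h.symm)
        unfold ad
        rw [chi_neg hna, chi_neg (not_not.2 h), chi_neg (fun h5 => h5.1 (hu'.2.trans h.symm))]
        ring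
      · have hne : c u ≠ c v := fun h5 => h (h5.symm.trans hu'.2)
        by_cases ha : G.Adj u v
        · unfold ad
          rw [chi_pos ha, chi_pos h, chi_neg (fun h5 => h5.2 ha)]
          ring
        · unfold ad
          rw [chi_neg ha, chi_pos h, chi_pos ⟨hne, ha⟩]
          ring
    rw [Finset.sum_congr rfl h3, Finset.sum_sub_distrib, Finset.sum_const, nsmul_eq_mul]
    rfl
  -- bound of the missing part
  have hmis : ∑ u ∈ cl T c i, ∑ v ∈ T, chi (c u ≠ c v ∧ ¬ G.Adj u v) * x v ≤ 2 * K / √t := by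
    have h3 : ∑ u ∈ cl T c i, ∑ v ∈ T, chi (c u ≠ c v ∧ ¬ G.Adj u v) * x v ≤
        ∑ u ∈ T, ∑ v ∈ T, chi (c u ≠ c v ∧ ¬ G.Adj u v) * (2 * √t) := by
      refine le_trans (Finset.sum_le_sum fun u _ => Finset.sum_le_sum (g := fun v =>
        chi (c u ≠ c v ∧ ¬ G.Adj u v) * (2 * √t)) fun v hv => ?_) ?_
      · refine mul_le_mul_of_nonneg_left ?_ (chi_nonneg _)
        have := (hT.near v hv).2
        nlinarith
      · refine Finset.sum_le_sum_of_subset_of_nonneg (fun v hv => (mem_cl.1 hv).1) ?_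
        intro u _ _
        exact Finset.sum_nonneg fun v _ => mul_nonneg (chi_nonneg _) (by positivity)
    have h4 : ∑ u ∈ T, ∑ v ∈ T, chi (c u ≠ c v ∧ ¬ G.Adj u v) * (2 * √t) =
        (mis G T c : ℝ) * (2 * √t) := by
      unfold mis
      rw [Finset.card_filter, Finset.sum_product]
      push_cast
      rw [Finset.sum_mul]
      refine Finset.sum_congr rfl fun u _ => ?_
      rw [Finset.sum_mul]
      refine Finset.sum_congr rfl fun v _ => ?_
      congr 1
      unfold chi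
      by_cases h : c u ≠ c v ∧ ¬ G.Adj u v
      · rw [if_pos h, if_pos h]
      · rw [if_neg h, if_neg h]
    rw [h4] at h3
    refine h3.trans ?_
    calc (mis G T c : ℝ) * (2 * √t) ≤ K / t * (2 * √t) :=
          mul_le_mul_of_nonneg_right hE.mis (by positivity)
      _ = 2 * K / √t := by
          rw [div_mul_sqrt _ _ _ ht, mul_comm K 2]
  have hmis0 : 0 ≤ ∑ u ∈ cl T c i, ∑ v ∈ T, chi (c u ≠ c v ∧ ¬ G.Adj u v) * x v :=
    Finset.sum_nonneg fun u _ => Finset.sum_nonneg fun v _ => mul_nonneg (chi_nonneg _) (hpv.nn v)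
  -- bound of the outer part
  have hout0 : 0 ≤ ∑ u ∈ cl T c i, ∑ v ∈ out T, ad G u v * x v :=
    Finset.sum_nonneg fun u _ => Finset.sum_nonneg fun v _ => mul_nonneg (chi_nonneg _) (hpv.nn v)
  have hout : ∑ u ∈ cl T c i, ∑ v ∈ out T, ad G u v * x v ≤ K ^ 2 / √t := by
    have h3 : ∑ u ∈ cl T c i, ∑ v ∈ out T, ad G u v * x v ≤
        ∑ u ∈ cl T c i, ∑ v ∈ out T, ad G u v * (K * √t) :=
      Finset.sum_le_sum fun u _ => Finset.sum_le_sum fun v _ =>
        mul_le_mul_of_nonneg_left (hE.xmax v) (chi_nonneg _)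
    have h4 : ∑ u ∈ cl T c i, ∑ v ∈ out T, ad G u v * (K * √t) ≤
        ∑ u, ∑ v ∈ out T, ad G u v * (K * √t) := by
      refine Finset.sum_le_sum_of_subset_of_nonneg (Finset.subset_univ _) ?_
      intro u _ _
      exact Finset.sum_nonneg fun v _ => mul_nonneg (chi_nonneg _) (by positivity)
    have h5 : ∑ u, ∑ v ∈ out T, ad G u v * (K * √t) = (eo G T : ℝ) * (K * √t) := by
      rw [Finset.sum_comm]
      unfold eo
      rw [Finset.card_filter, ← Finset.univ_product_univ, Finset.sum_product]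
      push_cast
      rw [Finset.sum_mul]
      unfold out
      rw [Finset.sum_filter]
      refine Finset.sum_congr rfl fun v _ => ?_
      by_cases hv : v ∉ T
      · rw [if_pos hv, Finset.sum_mul]
        refine Finset.sum_congr rfl fun u _ => ?_
        congr 1
        unfold ad chi
        by_cases h : G.Adj u v
        · rw [if_pos h, if_pos ⟨h.symm, hv⟩]
        · rw [if_neg h, if_neg (fun h6 => h h6.1.symm)]
      · rw [if_neg hv]
        symm
        rw [Finset.sum_eq_zero, zero_mul]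
        intro u _
        rw [if_neg (fun h6 => hv h6.2)]
    refine h3.trans (h4.trans ?_)
    rw [h5]
    calc (eo G T : ℝ) * (K * √t) ≤ K / t * (K * √t) :=
          mul_le_mul_of_nonneg_right hE.eout (by positivity)
      _ = K ^ 2 / √t := by
          rw [div_mul_sqrt _ _ _ ht, pow_two]
  rw [h1, h2, add_div, abs_le]
  have h6 : 0 ≤ 2 * K / √t := by positivity
  have h7 : 0 ≤ K ^ 2 / √t := by positivity
  constructor <;> linarith only [hmis, hout0, hout, hmis0, h6]

end main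

end AVG

open AVG in
/-- **AVG** -/
theorem blk_AVG : Stmt_AVG := by
  intro r η K hr hη hη4 hK
  have hR : (3 : ℝ) ≤ r := by exact_mod_cast hr
  obtain ⟨C1, hC1⟩ : ∃ C1 : ℝ, C1 = 4 * r * K := ⟨_, rfl⟩
  obtain ⟨C2, hC2⟩ : ∃ C2 : ℝ, C2 = 2 * (3 * C1 + C1 ^ 2) := ⟨_, rfl⟩
  obtain ⟨C4, hC4⟩ : ∃ C4 : ℝ, C4 = 2 * K + K ^ 2 := ⟨_, rfl⟩
  obtain ⟨C5, hC5⟩ : ∃ C5 : ℝ, C5 = 4 * r * C4 + 3 * C2 := ⟨_, rfl⟩
  have hC1p : 0 < C1 := by rw [hC1]; positivity
  have hC2p : 0 < C2 := by rw [hC2]; positivity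
  have hC4p : 0 < C4 := by rw [hC4]; positivity
  have hC5p : 0 < C5 := by rw [hC5]; positivity
  refine ⟨2 * r * C5 + r * (8 * r * K + 2 * C2 ^ 2) + 1, ?_, ?_⟩
  · have h1 : 0 ≤ 2 * (r : ℝ) * C5 + r * (8 * r * K + 2 * C2 ^ 2) := by positivity
    linarith only [h1]
  intro V _ G x lam t c T hpv hT hE hKt
  classical
  have ht := hT.tpos
  have hs : 0 < √t := Real.sqrt_pos.2 ht
  have hss : √t * √t = t := Real.mul_self_sqrt ht.le
  have hss2 : √t ^ 2 = t := Real.sq_sqrt ht.le
  have ht1 : t ≤ 1 := by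
    have h1 : 0 ≤ (2 * (r : ℝ) * C5 + r * (8 * r * K + 2 * C2 ^ 2)) * t := by positivity
    linarith only [hKt, h1]
  have hs1 : √t ≤ 1 := Real.sqrt_le_one.2 ht1
  have hlam : 0 < lam := by
    by_contra h
    push Not at h
    have := hT.lamt2
    nlinarith
  -- averages
  have hsz : ∀ i, 0 < sz T c i := fun i => lt_of_lt_of_le (by positivity) (hT.size i)
  obtain ⟨b, hb⟩ : ∃ b : Fin r → ℝ, ∀ i, cs x T c i = sz T c i * b i :=
    ⟨fun i => cs x T c i / sz T c i, fun i => by rw [mul_div_cancel₀ _ (hsz i).ne']⟩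
  have hblo : ∀ i, 3 / 4 * √t ≤ b i := by
    intro i
    have h1 : sz T c i * (3 / 4 * √t) ≤ sz T c i * b i := by
      rw [← hb i]
      unfold cs sz
      rw [← nsmul_eq_mul]
      refine Finset.card_nsmul_le_sum _ _ _ fun v hv => ?_
      have := (hT.near v (mem_cl.1 hv).1).1
      nlinarith
    exact le_of_mul_le_mul_left h1 (hsz i)
  -- products of averages
  have hprod : ∀ i j, i ≠ j → |b i * b j - t| ≤ C1 * t * √t := by
    intro i j hij
    have h1 := cauchy (cl T c i) (cl T c j) x t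
    have h2 := block_le hE i j hij
    have h3 : (∑ u ∈ cl T c i, x u) * (∑ v ∈ cl T c j, x v) -
        ((cl T c i).card : ℝ) * (cl T c j).card * t = sz T c i * sz T c j * (b i * b j - t) := by
      have e1 : ∑ u ∈ cl T c i, x u = sz T c i * b i := hb i
      have e2 : ∑ u ∈ cl T c j, x u = sz T c j * b j := hb j
      rw [e1, e2]
      unfold sz
      ring
    rw [h3] at h1
    have h4 : (sz T c i * sz T c j * (b i * b j - t)) ^ 2 ≤ sz T c i * sz T c j * (K * t) :=
      h1.trans (mul_le_mul_of_nonneg_left h2 (mul_pos (hsz i) (hsz j)).le)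
    have hpij : 0 < sz T c i * sz T c j := mul_pos (hsz i) (hsz j)
    have h5 : sz T c i * sz T c j * (b i * b j - t) ^ 2 ≤ K * t := by
      have : sz T c i * sz T c j * (sz T c i * sz T c j * (b i * b j - t) ^ 2) ≤
          sz T c i * sz T c j * (K * t) := by
        calc sz T c i * sz T c j * (sz T c i * sz T c j * (b i * b j - t) ^ 2)
            = (sz T c i * sz T c j * (b i * b j - t)) ^ 2 := by ring
          _ ≤ _ := h4
      exact le_of_mul_le_mul_left this hpij
    have h6 : 1 / (4 * r * t) * (1 / (4 * r * t)) ≤ sz T c i * sz T c j :=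
      mul_le_mul (hT.size i) (hT.size j) (by positivity) (hsz i).le
    have h7 : 1 / (4 * r * t) * (1 / (4 * r * t)) * (b i * b j - t) ^ 2 ≤ K * t :=
      (mul_le_mul_of_nonneg_right h6 (sq_nonneg _)).trans h5
    have h8 : (b i * b j - t) ^ 2 ≤ (C1 * t * √t) ^ 2 := by
      have h9 : (b i * b j - t) ^ 2 = (4 * r * t) ^ 2 *
          (1 / (4 * r * t) * (1 / (4 * r * t)) * (b i * b j - t) ^ 2) := by
        field_simp
      rw [h9]
      calc (4 * r * t) ^ 2 * (1 / (4 * r * t) * (1 / (4 * r * t)) * (b i * b j - t) ^ 2)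
          ≤ (4 * r * t) ^ 2 * (K * t) := mul_le_mul_of_nonneg_left h7 (by positivity)
        _ = K * (16 * r ^ 2 * t ^ 3) := by ring
        _ ≤ K ^ 2 * (16 * r ^ 2 * t ^ 3) := by
            apply mul_le_mul_of_nonneg_right _ (by positivity)
            nlinarith
        _ = (C1 * t * √t) ^ 2 := by
            rw [mul_pow, mul_pow, hss2, hC1]; ring
    exact abs_le_of_sq_le_sq h8 (by positivity)
  -- averages are close to `√t`
  have hbs : ∀ i, |b i - √t| ≤ C2 * t := by
    intro i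
    obtain ⟨j, k, hj, hk, hjk⟩ := three hr i
    rw [hC2]
    exact square_est (b i) (b j) (b k) t C1 (√t) hs hss2 hs1 hC1p.le (hblo i) (hblo j) (hblo k)
      (hprod i j hj.symm) (hprod i k hk.symm) (hprod j k hjk)
  have hszub : ∀ i, sz T c i ≤ 2 / t := by
    intro i
    refine le_trans ?_ hT.cardT
    rw [← sum_sz (T := T) (c := c)]
    exact Finset.single_le_sum (f := fun i => sz T c i) (fun i _ => sz_nonneg i) (Finset.mem_univ i)
  refine ⟨?_, ?_⟩
  · -- sizes
    have hS : ∑ v ∈ T, x v = ∑ j, sz T c j * b j := by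
      rw [← sum_cl T c x]
      exact Finset.sum_congr rfl fun j _ => hb j
    -- `|lam - (|T| - n_i)| ≤ C5 / √t`
    have hmain : ∀ i, |lam - ((T.card : ℝ) - sz T c i)| ≤ C5 / √t := by
      intro i
      have h1 := class_eq hpv hT hE hη hη4 hK i
      rw [← hC4, hb i, hS] at h1
      have h2 : lam * (sz T c i * b i) - sz T c i * (∑ j, sz T c j * b j - sz T c i * b i) =
          sz T c i * (lam * b i - (∑ j, sz T c j * b j - sz T c i * b i)) := by ring
      rw [h2, abs_mul, abs_of_pos (hsz i)] at h1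
      have h3 : |lam * b i - (∑ j, sz T c j * b j - sz T c i * b i)| ≤ 4 * r * C4 * √t := by
        have h4 : 1 / (4 * r * t) * |lam * b i - (∑ j, sz T c j * b j - sz T c i * b i)| ≤ C4 / √t :=
          (mul_le_mul_of_nonneg_right (hT.size i) (abs_nonneg _)).trans h1
        have h5 : |lam * b i - (∑ j, sz T c j * b j - sz T c i * b i)| = (4 * r * t) *
            (1 / (4 * r * t) * |lam * b i - (∑ j, sz T c j * b j - sz T c i * b i)|) := by
          field_simp
        rw [h5]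
        calc (4 * r * t) * (1 / (4 * r * t) * |lam * b i - (∑ j, sz T c j * b j - sz T c i * b i)|)
            ≤ (4 * r * t) * (C4 / √t) := mul_le_mul_of_nonneg_left h4 (by positivity)
          _ = 4 * r * C4 * (t / √t) := by ring
          _ = 4 * r * C4 * √t := by rw [Real.div_sqrt]
      -- replace `b` by `√t`
      have h4 : |lam * b i - lam * √t| ≤ C2 := by
        rw [← mul_sub, abs_mul, abs_of_pos hlam]
        calc lam * |b i - √t| ≤ lam * (C2 * t) := mul_le_mul_of_nonneg_left (hbs i) hlam.le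
          _ = C2 * (lam * t) := by ring
          _ ≤ C2 * 1 := mul_le_mul_of_nonneg_left hT.lamt1 hC2p.le
          _ = C2 := mul_one _
      have h5 : |(∑ j, sz T c j * b j - sz T c i * b i) - ((T.card : ℝ) - sz T c i) * √t| ≤ 2 * C2 := by
        have h6 : (∑ j, sz T c j * b j - sz T c i * b i) - ((T.card : ℝ) - sz T c i) * √t =
            ∑ j ∈ univ.erase i, sz T c j * (b j - √t) := by
          have e1 := Finset.sum_erase_add univ (fun j => sz T c j * (b j - √t)) (Finset.mem_univ i)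
          have e2 : ∑ j, sz T c j * (b j - √t) = ∑ j, sz T c j * b j - (T.card : ℝ) * √t := by
            rw [← sum_sz (T := T) (c := c), Finset.sum_mul, ← Finset.sum_sub_distrib]
            exact Finset.sum_congr rfl fun j _ => by ring
          rw [e2] at e1
          linear_combination -e1
        rw [h6]
        refine (Finset.abs_sum_le_sum_abs _ _).trans ?_
        have h7 : ∀ j ∈ univ.erase i, |sz T c j * (b j - √t)| ≤ sz T c j * (C2 * t) := by
          intro j _
          rw [abs_mul, abs_of_pos (hsz j)]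
          exact mul_le_mul_of_nonneg_left (hbs j) (hsz j).le
        refine (Finset.sum_le_sum h7).trans ?_
        have h8 : ∑ j ∈ univ.erase i, sz T c j * (C2 * t) ≤ ∑ j, sz T c j * (C2 * t) :=
          Finset.sum_le_sum_of_subset_of_nonneg (Finset.erase_subset _ _)
            (fun j _ _ => mul_nonneg (hsz j).le (by positivity))
        refine h8.trans ?_
        rw [← Finset.sum_mul, sum_sz]
        calc (T.card : ℝ) * (C2 * t) ≤ 2 / t * (C2 * t) :=
              mul_le_mul_of_nonneg_right hT.cardT (by positivity)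
          _ = 2 * C2 := by field_simp
      have h6 : |(lam - ((T.card : ℝ) - sz T c i)) * √t| ≤ C5 := by
        have h7 : (lam - ((T.card : ℝ) - sz T c i)) * √t =
            -(lam * b i - lam * √t) + (lam * b i - (∑ j, sz T c j * b j - sz T c i * b i)) +
            ((∑ j, sz T c j * b j - sz T c i * b i) - ((T.card : ℝ) - sz T c i) * √t) := by ring
        have h8 : 4 * r * C4 * √t ≤ 4 * r * C4 := by
          calc 4 * r * C4 * √t ≤ 4 * r * C4 * 1 := mul_le_mul_of_nonneg_left hs1 (by positivity)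
            _ = _ := mul_one _
        rw [abs_le] at h3 h4 h5
        rw [h7, hC5, abs_le]
        constructor <;> linarith only [h8, h3.1, h3.2, h4.1, h4.2, h5.1, h5.2]
      rw [abs_mul, abs_of_pos hs] at h6
      rw [le_div_iff₀ hs]
      exact h6
    intro i
    have hdiff : ∀ k, |sz T c k - sz T c i| ≤ 2 * (C5 / √t) := by
      intro k
      have h1 := hmain i
      have h2 := hmain k
      rw [abs_le] at h1 h2 ⊢
      constructor <;> linarith only [h1.1, h1.2, h2.1, h2.2]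
    have h1 : ((r : ℝ) - 1) * sz T c i - lam =
        -(lam - ((T.card : ℝ) - sz T c i)) - ∑ k ∈ univ.erase i, (sz T c k - sz T c i) := by
      have e1 := Finset.sum_erase_add univ (fun k => sz T c k - sz T c i) (Finset.mem_univ i)
      have e2 : ∑ k, (sz T c k - sz T c i) = (T.card : ℝ) - r * sz T c i := by
        rw [Finset.sum_sub_distrib, sum_sz, Finset.sum_const, Finset.card_univ, Fintype.card_fin,
          nsmul_eq_mul]
      rw [e2] at e1
      linear_combination e1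
    have h2 : |∑ k ∈ univ.erase i, (sz T c k - sz T c i)| ≤ ((r : ℝ) - 1) * (2 * (C5 / √t)) := by
      refine (Finset.abs_sum_le_sum_abs _ _).trans ?_
      refine (Finset.sum_le_card_nsmul _ _ _ fun k _ => hdiff k).trans (le_of_eq ?_)
      rw [Finset.card_erase_of_mem (Finset.mem_univ i), Finset.card_univ, Fintype.card_fin, nsmul_eq_mul,
        Nat.cast_sub (by omega), Nat.cast_one]
    have h3 := hmain i
    rw [h1]
    have h4 : 0 ≤ C5 / √t := by positivity
    have h5 : (2 * r * C5 + r * (8 * r * K + 2 * C2 ^ 2) + 1) / √t =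
        2 * r * (C5 / √t) + (r * (8 * r * K + 2 * C2 ^ 2) + 1) / √t := by ring
    have h6 : 0 ≤ (r * (8 * r * K + 2 * C2 ^ 2) + 1) / √t := by positivity
    rw [h5]
    rw [abs_le] at h2 h3 ⊢
    constructor <;> linarith only [h6, h2.1, h2.2, h3.1, h3.2]
  · -- flatness
    have hcls : ∀ i, ∑ v ∈ cl T c i, (x v - √t) ^ 2 ≤ (8 * r * K + 2 * C2 ^ 2) * t := by
      intro i
      obtain ⟨j, k, hj, hk, hjk⟩ := three hr i
      have h1 := block_le hE j i hj
      have hbi : ∑ v ∈ cl T c i, x v = ((cl T c i).card : ℝ) * b i := hb i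
      have h2 : ∀ u ∈ cl T c j, 9 / 16 * t * ∑ v ∈ cl T c i, (x v - b i) ^ 2 ≤
          ∑ v ∈ cl T c i, (x u * x v - t) ^ 2 := by
        intro u hu
        rw [variance (cl T c i) x (b i) (x u) t hbi]
        have h3 : 9 / 16 * t ≤ x u ^ 2 := by
          have h4 := (hT.near u (mem_cl.1 hu).1).1
          have h5 : 3 / 4 * √t ≤ x u := by nlinarith
          calc 9 / 16 * t = (3 / 4 * √t) ^ 2 := by rw [mul_pow, hss2]; ring
            _ ≤ x u ^ 2 := pow_le_pow_left₀ (by positivity) h5 2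
        have h4 : 0 ≤ ((cl T c i).card : ℝ) * (x u * b i - t) ^ 2 := by positivity
        have h5 : 9 / 16 * t * ∑ v ∈ cl T c i, (x v - b i) ^ 2 ≤
            x u ^ 2 * ∑ v ∈ cl T c i, (x v - b i) ^ 2 :=
          mul_le_mul_of_nonneg_right h3 (Finset.sum_nonneg fun v _ => sq_nonneg _)
        linarith only [h4, h5]
      have h3 : sz T c j * (9 / 16 * t * ∑ v ∈ cl T c i, (x v - b i) ^ 2) ≤ K * t := by
        refine le_trans ?_ h1
        unfold sz
        rw [← nsmul_eq_mul]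
        exact Finset.card_nsmul_le_sum _ _ _ h2
      have hV0 : 0 ≤ ∑ v ∈ cl T c i, (x v - b i) ^ 2 := Finset.sum_nonneg fun v _ => sq_nonneg _
      have h4 : 1 / (4 * r * t) * (9 / 16 * t * ∑ v ∈ cl T c i, (x v - b i) ^ 2) ≤ K * t :=
        (mul_le_mul_of_nonneg_right (hT.size j) (by positivity)).trans h3
      have h5 : ∑ v ∈ cl T c i, (x v - b i) ^ 2 ≤ 8 * r * K * t := by
        have h6 : 1 / (4 * r * t) * (9 / 16 * t * ∑ v ∈ cl T c i, (x v - b i) ^ 2) =
            9 / (64 * r) * ∑ v ∈ cl T c i, (x v - b i) ^ 2 := by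
          field_simp
          ring
        rw [h6] at h4
        have h7 : 1 / (8 * r) * ∑ v ∈ cl T c i, (x v - b i) ^ 2 ≤
            9 / (64 * r) * ∑ v ∈ cl T c i, (x v - b i) ^ 2 := by
          apply mul_le_mul_of_nonneg_right _ hV0
          rw [div_le_div_iff₀ (by positivity) (by positivity)]
          nlinarith
        have h8 : ∑ v ∈ cl T c i, (x v - b i) ^ 2 =
            (8 * r) * (1 / (8 * r) * ∑ v ∈ cl T c i, (x v - b i) ^ 2) := by
          field_simp
        rw [h8]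
        calc (8 * r) * (1 / (8 * r) * ∑ v ∈ cl T c i, (x v - b i) ^ 2) ≤ (8 * r) * (K * t) :=
              mul_le_mul_of_nonneg_left (h7.trans h4) (by positivity)
          _ = 8 * r * K * t := by ring
      have h6 := variance (cl T c i) x (b i) 1 (√t) hbi
      simp only [one_mul, one_pow] at h6
      rw [h6]
      have h7 : ((cl T c i).card : ℝ) * (b i - √t) ^ 2 ≤ 2 * C2 ^ 2 * t := by
        have h8 : (b i - √t) ^ 2 ≤ (C2 * t) ^ 2 := by
          rw [← sq_abs (b i - √t)]
          exact pow_le_pow_left₀ (abs_nonneg _) (hbs i) 2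
        calc ((cl T c i).card : ℝ) * (b i - √t) ^ 2 ≤ 2 / t * (C2 * t) ^ 2 :=
              mul_le_mul (hszub i) h8 (sq_nonneg _) (by positivity)
          _ = 2 * C2 ^ 2 * t := by field_simp
      calc ∑ v ∈ cl T c i, (x v - b i) ^ 2 + ((cl T c i).card : ℝ) * (b i - √t) ^ 2
          ≤ 8 * r * K * t + 2 * C2 ^ 2 * t := add_le_add h5 h7
        _ = (8 * r * K + 2 * C2 ^ 2) * t := by ring
    rw [← sum_cl T c (fun v => (x v - √t) ^ 2)]
    refine (Finset.sum_le_card_nsmul _ _ _ fun i _ => hcls i).trans ?_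
    rw [Finset.card_univ, Fintype.card_fin, nsmul_eq_mul]
    have h1 : 0 ≤ (2 * (r : ℝ) * C5 + 1) * t := by positivity
    linarith only [h1]

end Pool.Agent.Work.MP_5532fa_up

end

section

/-!
# MP_5532fa_co, upgrade: block TYP (typical vertices)
-/

set_option autoImplicit false

open Finset

namespace Pool.Agent.Work.MP_5532fa_up

open MP5532fa (specRad qf pE)

namespace TYP

variable {V : Type} [Fintype V] {r : ℕ}

omit [Fintype V] in
theorem ad_nonneg (G : SimpleGraph V) (u v : V) : 0 ≤ ad G u v := chi_nonneg _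

/-- `u`, `v` in different classes and not a good edge -/
def bad (G : SimpleGraph V) (x : V → ℝ) (t d : ℝ) (c : V → Fin r) (u v : V) : Prop :=
  c u ≠ c v ∧ ¬ (G.Adj u v ∧ |x u * x v - t| ≤ d * t)

/-- measure of the bad partners of `u` -/
noncomputable def beta (G : SimpleGraph V) (x : V → ℝ) (t d : ℝ) (c : V → Fin r) (u : V) : ℝ :=
  ∑ v, chi (bad G x t d c u v) * x v ^ 2

theorem sum_beta (G : SimpleGraph V) (x : V → ℝ) (t d D : ℝ) (c : V → Fin r)
    (hx : ∀ v, 0 ≤ x v) (hd : 0 < d)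
    (h1 : ∑ u, ∑ v, ad G u v * (x u * x v - t) ^ 2 ≤ D * t)
    (h2 : ∑ u, ∑ v, chi (c u ≠ c v ∧ ¬ G.Adj u v) * (x u ^ 2 * x v ^ 2) ≤ 2 * D * t) :
    ∑ u, x u ^ 2 * beta G x t d c u ≤ (2 * D + ((1 + d) / d) ^ 2 * D) * t := by
  have e1 : ∀ u v, x u ^ 2 * (chi (bad G x t d c u v) * x v ^ 2) ≤
      chi (c u ≠ c v ∧ ¬ G.Adj u v) * (x u ^ 2 * x v ^ 2) +
      ((1 + d) / d) ^ 2 * (ad G u v * (x u * x v - t) ^ 2) := by
    intro u v
    have n1 : 0 ≤ chi (c u ≠ c v ∧ ¬ G.Adj u v) * (x u ^ 2 * x v ^ 2) :=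
      mul_nonneg (chi_nonneg _) (mul_nonneg (sq_nonneg _) (sq_nonneg _))
    have n2 : 0 ≤ ((1 + d) / d) ^ 2 * (ad G u v * (x u * x v - t) ^ 2) :=
      mul_nonneg (sq_nonneg _) (mul_nonneg (ad_nonneg G u v) (sq_nonneg _))
    by_cases hb : bad G x t d c u v
    · rw [chi_pos hb]
      by_cases ha : G.Adj u v
      · have hgt : d * t < |x u * x v - t| := by
          by_contra hcon
          push Not at hcon
          exact hb.2 ⟨ha, hcon⟩
        have had : ad G u v = 1 := chi_pos ha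
        rw [had] at n2 ⊢
        have hp0 : 0 ≤ x u * x v := mul_nonneg (hx u) (hx v)
        have hp : x u * x v ≤ (1 + d) / d * |x u * x v - t| := by
          have e2 : t ≤ |x u * x v - t| / d := by
            rw [le_div_iff₀ hd]
            linarith
          have e3 : x u * x v - t ≤ |x u * x v - t| := le_abs_self _
          have e4 : (1 + d) / d * |x u * x v - t| = |x u * x v - t| / d + |x u * x v - t| := by
            field_simp
          rw [e4]
          linarith
        have hp2 : (x u * x v) ^ 2 ≤ ((1 + d) / d * |x u * x v - t|) ^ 2 :=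
          pow_le_pow_left₀ hp0 hp 2
        rw [mul_pow ((1 + d) / d), sq_abs] at hp2
        have e5 : x u ^ 2 * (1 * x v ^ 2) = (x u * x v) ^ 2 := by ring
        rw [e5, one_mul]
        linarith
      · rw [chi_pos (⟨hb.1, ha⟩ : c u ≠ c v ∧ ¬ G.Adj u v)]
        linarith
    · rw [chi_neg hb]
      linarith
  calc ∑ u, x u ^ 2 * beta G x t d c u
      = ∑ u, ∑ v, x u ^ 2 * (chi (bad G x t d c u v) * x v ^ 2) := by
        refine Finset.sum_congr rfl fun u _ => ?_
        unfold beta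
        rw [Finset.mul_sum]
    _ ≤ ∑ u, ∑ v, (chi (c u ≠ c v ∧ ¬ G.Adj u v) * (x u ^ 2 * x v ^ 2) +
          ((1 + d) / d) ^ 2 * (ad G u v * (x u * x v - t) ^ 2)) :=
        Finset.sum_le_sum fun u _ => Finset.sum_le_sum fun v _ => e1 u v
    _ = ∑ u, ∑ v, chi (c u ≠ c v ∧ ¬ G.Adj u v) * (x u ^ 2 * x v ^ 2) +
          ((1 + d) / d) ^ 2 * ∑ u, ∑ v, ad G u v * (x u * x v - t) ^ 2 := by
        rw [Finset.mul_sum, ← Finset.sum_add_distrib]
        refine Finset.sum_congr rfl fun u _ => ?_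
        rw [Finset.mul_sum, ← Finset.sum_add_distrib]
    _ ≤ 2 * D * t + ((1 + d) / d) ^ 2 * (D * t) :=
        add_le_add h2 (mul_le_mul_of_nonneg_left h1 (sq_nonneg _))
    _ = (2 * D + ((1 + d) / d) ^ 2 * D) * t := by ring

/-- a set of bad partners has small measure -/
theorem sum_bad_le (G : SimpleGraph V) (x : V → ℝ) (t d : ℝ) (c : V → Fin r) (u : V)
    (A : Finset V) (P : V → Prop) (h : ∀ z ∈ A, P z → bad G x t d c u z) :
    ∑ z ∈ A, chi (P z) * x z ^ 2 ≤ beta G x t d c u := by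
  unfold beta
  refine le_trans ?_ (Finset.sum_le_sum_of_subset_of_nonneg (Finset.subset_univ A)
    fun v _ _ => mul_nonneg (chi_nonneg _) (sq_nonneg _))
  refine Finset.sum_le_sum fun z hz => mul_le_mul_of_nonneg_right ?_ (sq_nonneg _)
  by_cases hP : P z
  · rw [chi_pos hP, chi_pos (h z hz hP)]
  · rw [chi_neg hP]
    exact chi_nonneg _

/-- a common good partner in a set of large measure -/
theorem exists_good (G : SimpleGraph V) (x : V → ℝ) (t d b : ℝ) (c : V → Fin r) (u w : V)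
    (hu : beta G x t d c u ≤ b) (hw : beta G x t d c w ≤ b) (j : Fin r) (hju : c u ≠ j)
    (hjw : c w ≠ j) (A : Finset V) (hA : ∀ z ∈ A, c z = j) (hm : 2 * b < ∑ z ∈ A, x z ^ 2) :
    ∃ z ∈ A, (G.Adj u z ∧ |x u * x z - t| ≤ d * t) ∧ (G.Adj w z ∧ |x w * x z - t| ≤ d * t) := by
  by_contra hcon
  push Not at hcon
  have h1 := sum_bad_le G x t d c u A (fun z => ¬ (G.Adj u z ∧ |x u * x z - t| ≤ d * t))
    (fun z hz hP => ⟨by rw [hA z hz]; exact hju, hP⟩)
  have h2 := sum_bad_le G x t d c w A (fun z => ¬ (G.Adj w z ∧ |x w * x z - t| ≤ d * t))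
    (fun z hz hP => ⟨by rw [hA z hz]; exact hjw, hP⟩)
  have h3 : ∑ z ∈ A, x z ^ 2 ≤ ∑ z ∈ A, chi (¬ (G.Adj u z ∧ |x u * x z - t| ≤ d * t)) * x z ^ 2 +
      ∑ z ∈ A, chi (¬ (G.Adj w z ∧ |x w * x z - t| ≤ d * t)) * x z ^ 2 := by
    rw [← Finset.sum_add_distrib]
    refine Finset.sum_le_sum fun z hz => ?_
    have n1 := mul_nonneg (chi_nonneg (¬ (G.Adj u z ∧ |x u * x z - t| ≤ d * t))) (sq_nonneg (x z))
    have n2 := mul_nonneg (chi_nonneg (¬ (G.Adj w z ∧ |x w * x z - t| ≤ d * t))) (sq_nonneg (x z))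
    by_cases hg : G.Adj u z ∧ |x u * x z - t| ≤ d * t
    · have hb : ¬ (G.Adj w z ∧ |x w * x z - t| ≤ d * t) := by
        rintro ⟨hb1, hb2⟩
        exact absurd hb2 (not_le.2 (hcon z hz hg hb1))
      rw [chi_pos hb]
      linarith
    · rw [chi_pos hg]
      linarith
  linarith

/-- the value of `x` at a vertex with good partners -/
theorem near_of (xu xv xw t d η : ℝ) (hu : 0 ≤ xu) (ht : 0 < t) (hd : d = η / 4) (h0 : 0 < η)
    (h1 : η ≤ 1 / 4) (a1 : |xu * xv - t| ≤ d * t) (a2 : |xu * xw - t| ≤ d * t)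
    (a3 : |xv * xw - t| ≤ d * t) : (1 - η) * √t ≤ xu ∧ xu ≤ (1 + η) * √t := by
  rw [abs_le] at a1 a2 a3
  have hd0 : 0 < d := by rw [hd]; linarith
  have hd1 : d ≤ 1 / 16 := by rw [hd]; linarith
  have he : η = 4 * d := by rw [hd]; ring
  have hP1 : (1 - d) * t ≤ xu * xv := by linarith [a1.1]
  have hP2 : xu * xv ≤ (1 + d) * t := by linarith [a1.2]
  have hQ1 : (1 - d) * t ≤ xu * xw := by linarith [a2.1]
  have hQ2 : xu * xw ≤ (1 + d) * t := by linarith [a2.2]
  have hR1 : (1 - d) * t ≤ xv * xw := by linarith [a3.1]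
  have hR2 : xv * xw ≤ (1 + d) * t := by linarith [a3.2]
  have hmt : 0 < (1 - d) * t := mul_pos (by linarith) ht
  have hprod : xu ^ 2 * (xv * xw) = (xu * xv) * (xu * xw) := by ring
  have hs0 : 0 ≤ √t := Real.sqrt_nonneg t
  have hss : √t ^ 2 = t := Real.sq_sqrt ht.le
  -- upper bound
  have hup : xu ^ 2 ≤ (1 + η) ^ 2 * t := by
    have e1 : xu ^ 2 * ((1 - d) * t) ≤ ((1 + d) * t) * ((1 + d) * t) := by
      calc xu ^ 2 * ((1 - d) * t) ≤ xu ^ 2 * (xv * xw) :=
            mul_le_mul_of_nonneg_left hR1 (sq_nonneg _)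
        _ = (xu * xv) * (xu * xw) := hprod
        _ ≤ ((1 + d) * t) * ((1 + d) * t) :=
            mul_le_mul hP2 hQ2 (hmt.le.trans hQ1) (by positivity)
    have e2 : (1 + d) ^ 2 ≤ (1 + η) ^ 2 * (1 - d) := by
      rw [he]
      nlinarith [mul_pos hd0 hd0, mul_pos (mul_pos hd0 hd0) hd0]
    have e3 : xu ^ 2 * ((1 - d) * t) ≤ ((1 + η) ^ 2 * t) * ((1 - d) * t) := by
      calc xu ^ 2 * ((1 - d) * t) ≤ ((1 + d) * t) * ((1 + d) * t) := e1
        _ = (1 + d) ^ 2 * (t * t) := by ring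
        _ ≤ (1 + η) ^ 2 * (1 - d) * (t * t) := mul_le_mul_of_nonneg_right e2 (by positivity)
        _ = ((1 + η) ^ 2 * t) * ((1 - d) * t) := by ring
    exact le_of_mul_le_mul_right e3 hmt
  have hlow : (1 - η) ^ 2 * t ≤ xu ^ 2 := by
    have hpt : 0 < (1 + d) * t := by positivity
    have e1 : ((1 - d) * t) * ((1 - d) * t) ≤ xu ^ 2 * ((1 + d) * t) := by
      calc ((1 - d) * t) * ((1 - d) * t) ≤ (xu * xv) * (xu * xw) :=
            mul_le_mul hP1 hQ1 hmt.le (hmt.le.trans hP1)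
        _ = xu ^ 2 * (xv * xw) := hprod.symm
        _ ≤ xu ^ 2 * ((1 + d) * t) := mul_le_mul_of_nonneg_left hR2 (sq_nonneg _)
    have e2 : (1 - η) ^ 2 * (1 + d) ≤ (1 - d) ^ 2 := by
      rw [he]
      nlinarith [mul_pos hd0 hd0, mul_pos (mul_pos hd0 hd0) hd0]
    have e3 : ((1 - η) ^ 2 * t) * ((1 + d) * t) ≤ xu ^ 2 * ((1 + d) * t) := by
      calc ((1 - η) ^ 2 * t) * ((1 + d) * t) = (1 - η) ^ 2 * (1 + d) * (t * t) := by ring
        _ ≤ (1 - d) ^ 2 * (t * t) := mul_le_mul_of_nonneg_right e2 (by positivity)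
        _ = ((1 - d) * t) * ((1 - d) * t) := by ring
        _ ≤ _ := e1
    exact le_of_mul_le_mul_right e3 hpt
  constructor
  · refine (pow_le_pow_iff_left₀ (mul_nonneg (by linarith) hs0) hu two_ne_zero).1 ?_
    rw [mul_pow, hss]
    exact hlow
  · refine (pow_le_pow_iff_left₀ hu (mul_nonneg (by linarith) hs0) two_ne_zero).1 ?_
    rw [mul_pow, hss]
    exact hup

omit [Fintype V] in
theorem clique_of_map {α : Type} [Fintype α] (G : SimpleGraph V) (F : α → V)
    (h : ∀ a b, a ≠ b → G.Adj (F a) (F b)) : ¬ G.CliqueFree (Fintype.card α) := by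
  classical
  have hinj : Function.Injective F := by
    intro a b hab
    by_contra hne
    have := h a b hne
    rw [hab] at this
    exact G.irrefl this
  intro hc
  apply hc (univ.map ⟨F, hinj⟩)
  rw [SimpleGraph.isNClique_iff]
  constructor
  · intro a ha b hb hab
    rw [Finset.mem_coe, Finset.mem_map] at ha hb
    obtain ⟨a', _, rfl⟩ := ha
    obtain ⟨b', _, rfl⟩ := hb
    apply h
    rintro rfl
    exact hab rfl
  · rw [Finset.card_map, Finset.card_univ]

theorem ind_of (hG : Stmt_GRD) (hr : 3 ≤ r) (G : SimpleGraph V) (hfree : G.CliqueFree (r + 1))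
    (x : V → ℝ) (t d b : ℝ) (c : V → Fin r) (T : Finset V) (hb0 : 0 ≤ b)
    (hbr : b ≤ 1 / (4 * (r : ℝ) ^ 2)) (hT : ∀ u ∈ T, beta G x t d c u ≤ b)
    (hY : ∀ i, 1 / (2 * (r : ℝ)) ≤ ∑ v ∈ cl T c i, x v ^ 2) :
    ∀ u ∈ T, ∀ v ∈ T, c u = c v → ¬ G.Adj u v := by
  classical
  intro u hu v hv huv hadj
  have hr0 : (3 : ℝ) ≤ r := by exact_mod_cast hr
  set i := c u with hi
  let A : {j : Fin r // j ≠ i} → Finset V := fun j =>
    (cl T c j).filter (fun z => G.Adj u z ∧ G.Adj v z)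
  have hA : ∀ j : {j : Fin r // j ≠ i}, ∀ z ∈ A j, z ∈ T ∧ c z = j ∧ G.Adj u z ∧ G.Adj v z := by
    intro j z hz
    rw [Finset.mem_filter, mem_cl] at hz
    exact ⟨hz.1.1, hz.1.2, hz.2.1, hz.2.2⟩
  have hcard : Fintype.card {j : Fin r // j ≠ i} = r - 1 := by
    rw [Fintype.card_subtype_compl, Fintype.card_fin, Fintype.card_unique]
  obtain ⟨f, hf1, hf2⟩ := hG {j : Fin r // j ≠ i} V G A (fun z => x z ^ 2) b
    (fun z => sq_nonneg _) hb0 (by
      intro j k hjk w hw
      obtain ⟨hw1, hw2, -, -⟩ := hA j w hw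
      refine le_trans (sum_bad_le G x t d c w (A k) (fun z => ¬ G.Adj w z) ?_) (hT w hw1)
      intro z hz hP
      obtain ⟨-, hz2, -, -⟩ := hA k z hz
      refine ⟨?_, fun h => hP h.1⟩
      rw [hw2, hz2]
      exact fun e => hjk (Subtype.ext e)) (by
      intro j
      rw [hcard]
      have h1 : ∑ z ∈ cl T c j, x z ^ 2 ≤ ∑ z ∈ A j, x z ^ 2 +
          (∑ z ∈ cl T c j, chi (¬ G.Adj u z) * x z ^ 2 +
            ∑ z ∈ cl T c j, chi (¬ G.Adj v z) * x z ^ 2) := by
        have h2 : ∑ z ∈ A j, x z ^ 2 = ∑ z ∈ cl T c j, chi (G.Adj u z ∧ G.Adj v z) * x z ^ 2 := by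
          show ∑ z ∈ (cl T c j).filter (fun z => G.Adj u z ∧ G.Adj v z), x z ^ 2 = _
          rw [Finset.sum_filter]
          refine Finset.sum_congr rfl fun z _ => ?_
          by_cases h : G.Adj u z ∧ G.Adj v z
          · rw [if_pos h, chi_pos h, one_mul]
          · rw [if_neg h, chi_neg h, zero_mul]
        rw [h2, ← Finset.sum_add_distrib, ← Finset.sum_add_distrib]
        refine Finset.sum_le_sum fun z _ => ?_
        have n1 := mul_nonneg (chi_nonneg (G.Adj u z ∧ G.Adj v z)) (sq_nonneg (x z))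
        have n2 := mul_nonneg (chi_nonneg (¬ G.Adj u z)) (sq_nonneg (x z))
        have n3 := mul_nonneg (chi_nonneg (¬ G.Adj v z)) (sq_nonneg (x z))
        by_cases h1 : G.Adj u z
        · by_cases h2 : G.Adj v z
          · rw [chi_pos (⟨h1, h2⟩ : G.Adj u z ∧ G.Adj v z)]
            linarith
          · rw [chi_pos h2]
            linarith
        · rw [chi_pos h1]
          linarith
      have h3 := sum_bad_le G x t d c u (cl T c j) (fun z => ¬ G.Adj u z) (by
        intro z hz hP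
        refine ⟨?_, fun h => hP h.1⟩
        rw [(mem_cl.1 hz).2]
        exact fun e => j.2 e.symm)
      have h4 := sum_bad_le G x t d c v (cl T c j) (fun z => ¬ G.Adj v z) (by
        intro z hz hP
        refine ⟨?_, fun h => hP h.1⟩
        rw [(mem_cl.1 hz).2, ← huv]
        exact fun e => j.2 e.symm)
      have h5 := hT u hu
      have h6 := hT v hv
      have h7 := hY j
      have h8 : ((r - 1 : ℕ) : ℝ) = (r : ℝ) - 1 := by
        rw [Nat.cast_sub (by omega), Nat.cast_one]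
      rw [h8]
      have h9 : ((r : ℝ) - 1) * b + 2 * b < 1 / (2 * (r : ℝ)) := by
        have e1 : ((r : ℝ) - 1) * b + 2 * b = ((r : ℝ) + 1) * b := by ring
        rw [e1]
        have e2 : ((r : ℝ) + 1) * b ≤ ((r : ℝ) + 1) * (1 / (4 * (r : ℝ) ^ 2)) :=
          mul_le_mul_of_nonneg_left hbr (by linarith)
        have e3 : ((r : ℝ) + 1) * (1 / (4 * (r : ℝ) ^ 2)) < 1 / (2 * (r : ℝ)) := by
          rw [mul_one_div, div_lt_div_iff₀ (by positivity) (by positivity)]
          nlinarith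
        linarith
      linarith)
  -- the clique
  let F : Option (Option {j : Fin r // j ≠ i}) → V := fun o =>
    match o with
    | none => u
    | some none => v
    | some (some j) => f j
  have hF : ∀ a b, a ≠ b → G.Adj (F a) (F b) := by
    intro a b hab
    match a, b with
    | none, none => exact absurd rfl hab
    | none, some none => exact hadj
    | none, some (some j) => exact (hA j (f j) (hf1 j)).2.2.1
    | some none, none => exact hadj.symm
    | some none, some none => exact absurd rfl hab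
    | some none, some (some j) => exact (hA j (f j) (hf1 j)).2.2.2
    | some (some j), none => exact (hA j (f j) (hf1 j)).2.2.1.symm
    | some (some j), some none => exact (hA j (f j) (hf1 j)).2.2.2.symm
    | some (some j), some (some k) =>
      apply hf2
      rintro rfl
      exact hab rfl
  have h1 := clique_of_map G F hF
  rw [Fintype.card_option, Fintype.card_option, hcard] at h1
  have h2 : r - 1 + 1 + 1 = r + 1 := by omega
  rw [h2] at h1
  exact h1 hfree

theorem two_others (hr : 3 ≤ r) (i : Fin r) : ∃ j k : Fin r, j ≠ i ∧ k ≠ i ∧ j ≠ k := by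
  classical
  have h : 1 < ((univ : Finset (Fin r)).erase i).card := by
    rw [Finset.card_erase_of_mem (Finset.mem_univ i), Finset.card_univ, Fintype.card_fin]
    omega
  obtain ⟨j, hj, k, hk, hjk⟩ := Finset.one_lt_card.1 h
  exact ⟨j, k, Finset.ne_of_mem_erase hj, Finset.ne_of_mem_erase hk, hjk⟩

theorem near_all (hr : 3 ≤ r) (G : SimpleGraph V) (x : V → ℝ) (t d b η : ℝ) (c : V → Fin r)
    (T : Finset V) (hx : ∀ v, 0 ≤ x v) (ht : 0 < t) (hd : d = η / 4) (h0 : 0 < η)
    (h1 : η ≤ 1 / 4) (hb : ∀ i, 2 * b < ∑ v ∈ cl T c i, x v ^ 2)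
    (hT : ∀ u ∈ T, beta G x t d c u ≤ b) :
    ∀ u ∈ T, (1 - η) * √t ≤ x u ∧ x u ≤ (1 + η) * √t := by
  intro u hu
  obtain ⟨j, k, hj, hk, hjk⟩ := two_others hr (c u)
  obtain ⟨v, hv, ⟨-, hv2⟩, -⟩ := exists_good G x t d b c u u (hT u hu) (hT u hu) j
    (fun e => hj e.symm) (fun e => hj e.symm) (cl T c j) (fun z hz => (mem_cl.1 hz).2) (hb j)
  rw [mem_cl] at hv
  obtain ⟨w, hw, ⟨-, hw2⟩, ⟨-, hw3⟩⟩ := exists_good G x t d b c u v (hT u hu) (hT v hv.1) k
    (fun e => hk e.symm) (by rw [hv.2]; exact hjk) (cl T c k)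
    (fun z hz => (mem_cl.1 hz).2) (hb k)
  exact near_of (x u) (x v) (x w) t d η (hx u) ht hd h0 h1 hv2 hw2 hw3

end TYP

theorem blk_TYP (hG : Stmt_GRD) (hM : Stmt_MEAS) : Stmt_TYP := by
  classical
  intro r D η hr hD h0 h1
  have hr0 : (3 : ℝ) ≤ r := by exact_mod_cast hr
  have hrp : (0 : ℝ) < r := by linarith
  obtain ⟨d, hd⟩ : ∃ d, d = η / 4 := ⟨_, rfl⟩
  have hd0 : 0 < d := by rw [hd]; linarith
  obtain ⟨b, hb⟩ : ∃ b, b = min (η / 2) (1 / (4 * (r : ℝ) ^ 2)) := ⟨_, rfl⟩
  have hb0 : 0 < b := by rw [hb]; exact lt_min (by linarith) (by positivity)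
  have hb1 : b ≤ η / 2 := by rw [hb]; exact min_le_left _ _
  have hb2 : b ≤ 1 / (4 * (r : ℝ) ^ 2) := by rw [hb]; exact min_le_right _ _
  obtain ⟨B, hB⟩ : ∃ B, B = 2 * D + ((1 + d) / d) ^ 2 * D := ⟨_, rfl⟩
  have hB0 : 0 < B := by rw [hB]; positivity
  have hBb : 0 < B / b := by positivity
  refine ⟨32 * (r : ℝ) ^ 2 * D + 4 * r * (B / b), ?_, ?_⟩
  · have : 0 < 4 * r * (B / b) := by positivity
    have h9 : 9 ≤ (r : ℝ) ^ 2 := by
      have := pow_le_pow_left₀ (by norm_num) hr0 2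
      linarith
    have h10 : 9 * 1 ≤ (r : ℝ) ^ 2 * D := mul_le_mul h9 hD (by norm_num) (by positivity)
    linarith
  have hr9 : 9 ≤ (r : ℝ) ^ 2 := by
    have := pow_le_pow_left₀ (by norm_num) hr0 2
    linarith
  intro V _ G x lam t hC hKt
  obtain ⟨ht, hlam1, hlam2, hes, c, hcr, hcl⟩ := hM r D hr hD V G x lam t hC
  have hx : ∀ v, 0 ≤ x v := hC.pv.nn
  have k1 : 32 * (r : ℝ) ^ 2 * D * t ≤ 1 := by
    have : 0 < 4 * r * (B / b) * t := by positivity
    linarith
  have k2 : 4 * (r : ℝ) * (B / b) * t ≤ 1 := by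
    have : 0 < 32 * (r : ℝ) ^ 2 * D * t := by positivity
    linarith
  have k3 : D * t ≤ 1 / 288 := by
    have h9 : 9 * (D * t) ≤ (r : ℝ) ^ 2 * (D * t) :=
      mul_le_mul_of_nonneg_right hr9 (by positivity)
    linarith
  have hDK : 2 * D ≤ 32 * (r : ℝ) ^ 2 * D + 4 * r * (B / b) := by
    have h9 : 9 * D ≤ (r : ℝ) ^ 2 * D := mul_le_mul_of_nonneg_right hr9 (by linarith)
    have : 0 < 4 * r * (B / b) := by positivity
    linarith
  have hBK : B / b ≤ 32 * (r : ℝ) ^ 2 * D + 4 * r * (B / b) := by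
    have h9 : 12 * (B / b) ≤ 4 * r * (B / b) := mul_le_mul_of_nonneg_right (by linarith) hBb.le
    have : 0 < 32 * (r : ℝ) ^ 2 * D := by positivity
    linarith
  obtain ⟨T, hTd⟩ : ∃ T : Finset V, T = univ.filter (fun u => TYP.beta G x t d c u ≤ b) :=
    ⟨_, rfl⟩
  have hT : ∀ u ∈ T, TYP.beta G x t d c u ≤ b := by
    intro u hu
    rw [hTd, Finset.mem_filter] at hu
    exact hu.2
  have hT' : ∀ u, u ∉ T → b ≤ TYP.beta G x t d c u := by
    intro u hu
    rw [hTd, Finset.mem_filter] at hu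
    push Not at hu
    exact (hu (Finset.mem_univ u)).le
  have hsum := TYP.sum_beta G x t d D c hx hd0 hes hcr
  rw [← hB] at hsum
  have hrest : ∑ v ∈ out T, x v ^ 2 ≤ B / b * t := by
    have e1 : (∑ v ∈ out T, x v ^ 2) * b ≤ B * t := by
      rw [Finset.sum_mul]
      refine le_trans ?_ hsum
      refine le_trans (Finset.sum_le_sum (g := fun v => x v ^ 2 * TYP.beta G x t d c v)
        fun v hv => mul_le_mul_of_nonneg_left (hT' v (mem_out.1 hv)) (sq_nonneg _)) ?_
      refine Finset.sum_le_sum_of_subset_of_nonneg (Finset.subset_univ _) fun v _ _ => ?_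
      refine mul_nonneg (sq_nonneg _) ?_
      exact Finset.sum_nonneg fun z _ => mul_nonneg (chi_nonneg _) (sq_nonneg _)
    rw [div_mul_eq_mul_div, le_div_iff₀ hb0]
    exact e1
  obtain ⟨q, hq⟩ : ∃ q, q = 1 / (r : ℝ) := ⟨_, rfl⟩
  have hq0 : 0 < q := by rw [hq]; positivity
  have hqr : q * r = 1 := by rw [hq]; field_simp
  have hq1 : q ≤ 1 / 3 := by rw [hq]; exact one_div_le_one_div_of_le (by norm_num) hr0
  have hq2 : 1 / (4 * (r : ℝ) ^ 2) = q ^ 2 / 4 := by rw [hq]; field_simp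
  have hq3 : 1 / (2 * (r : ℝ)) = q / 2 := by rw [hq]; field_simp
  have hrest4 : ∑ v ∈ out T, x v ^ 2 ≤ q / 4 := by
    refine hrest.trans ?_
    have e1 : B / b * t = q / 4 * (4 * r * (B / b) * t) := by
      calc B / b * t = (q * r) * (B / b * t) := by rw [hqr, one_mul]
        _ = q / 4 * (4 * r * (B / b) * t) := by ring
    rw [e1]
    calc q / 4 * (4 * r * (B / b) * t) ≤ q / 4 * 1 :=
          mul_le_mul_of_nonneg_left k2 (by positivity)
      _ = q / 4 := mul_one _
  have hY : ∀ i, 1 / (2 * (r : ℝ)) ≤ ∑ v ∈ cl T c i, x v ^ 2 := by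
    intro i
    rw [hq3]
    have e1 : ∑ v ∈ cl univ c i, x v ^ 2 ≤ ∑ v ∈ cl T c i, x v ^ 2 + ∑ v ∈ out T, x v ^ 2 := by
      have hdis : Disjoint (cl T c i) (out T) := by
        rw [Finset.disjoint_left]
        intro v hv hv'
        exact mem_out.1 hv' (mem_cl.1 hv).1
      rw [← Finset.sum_union hdis]
      refine Finset.sum_le_sum_of_subset_of_nonneg ?_ fun v _ _ => sq_nonneg _
      intro v hv
      rw [Finset.mem_union, mem_cl, mem_out]
      by_cases hvT : v ∈ T
      · exact Or.inl ⟨hvT, (mem_cl.1 hv).2⟩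
      · exact Or.inr hvT
    have e2 := hcl i
    rw [← hq] at e2
    have e3 : 2 * D * t ≤ q ^ 2 / 16 := by
      have h9 : 2 * D * t = q ^ 2 / 16 * (32 * (r : ℝ) ^ 2 * D * t) := by
        calc 2 * D * t = (q * r) ^ 2 * (2 * D * t) := by rw [hqr]; ring
          _ = q ^ 2 / 16 * (32 * (r : ℝ) ^ 2 * D * t) := by ring
      rw [h9]
      calc q ^ 2 / 16 * (32 * (r : ℝ) ^ 2 * D * t) ≤ q ^ 2 / 16 * 1 :=
            mul_le_mul_of_nonneg_left k1 (by positivity)
        _ = q ^ 2 / 16 := mul_one _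
    have e4 : 3 / 4 * q ≤ ∑ v ∈ cl univ c i, x v ^ 2 := by
      by_contra hcon
      push Not at hcon
      have h5 : q / 4 < q - ∑ v ∈ cl univ c i, x v ^ 2 := by linarith
      have h6 := mul_self_lt_mul_self (by positivity : 0 ≤ q / 4) h5
      have h7 : (∑ v ∈ cl univ c i, x v ^ 2 - q) ^ 2 =
        (q - ∑ v ∈ cl univ c i, x v ^ 2) * (q - ∑ v ∈ cl univ c i, x v ^ 2) := by ring
      have h8 : q / 4 * (q / 4) = q ^ 2 / 16 := by ring
      rw [h7] at e2
      rw [h8] at h6
      linarith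
    linarith
  have h2b : ∀ i, 2 * b < ∑ v ∈ cl T c i, x v ^ 2 := by
    intro i
    have e1 := hY i
    rw [hq3] at e1
    have e5 : q * q ≤ 1 / 3 * q := mul_le_mul_of_nonneg_right hq1 hq0.le
    have e6 : b ≤ q ^ 2 / 4 := by rw [← hq2]; exact hb2
    rw [sq] at e6
    linarith
  have hnear := TYP.near_all hr G x t d b η c T hx ht hd h0 h1 h2b hT
  have hs0 : 0 ≤ √t := Real.sqrt_nonneg t
  have hss : √t * √t = t := Real.mul_self_sqrt ht.le
  have hylo : ∀ v ∈ T, t / 2 ≤ x v ^ 2 := by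
    intro v hv
    have e1 : 3 / 4 * √t ≤ x v := by
      refine le_trans ?_ (hnear v hv).1
      exact mul_le_mul_of_nonneg_right (by linarith) hs0
    have e2 : (3 / 4 * √t) * (3 / 4 * √t) ≤ x v * x v :=
      mul_le_mul e1 e1 (by positivity) (hx v)
    have e3 : (3 / 4 * √t) * (3 / 4 * √t) = 9 / 16 * t := by
      calc (3 / 4 * √t) * (3 / 4 * √t) = 9 / 16 * (√t * √t) := by ring
        _ = 9 / 16 * t := by rw [hss]
    rw [e3] at e2
    rw [sq]
    linarith
  have hyhi : ∀ v ∈ T, x v ^ 2 ≤ 2 * t := by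
    intro v hv
    have e1 : x v ≤ 5 / 4 * √t := by
      refine le_trans (hnear v hv).2 ?_
      exact mul_le_mul_of_nonneg_right (by linarith) hs0
    have e2 : x v * x v ≤ (5 / 4 * √t) * (5 / 4 * √t) :=
      mul_le_mul e1 e1 (hx v) (by positivity)
    have e3 : (5 / 4 * √t) * (5 / 4 * √t) = 25 / 16 * t := by
      calc (5 / 4 * √t) * (5 / 4 * √t) = 25 / 16 * (√t * √t) := by ring
        _ = 25 / 16 * t := by rw [hss]
    rw [e3] at e2
    rw [sq]
    linarith
  have hal := al_ge hr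
  have hal1 := al_lt hr
  refine ⟨c, T, ht, by linarith, by linarith, hnear, ?_, ?_, ?_, ?_, ?_, ?_, ?_⟩
  · exact hrest.trans (mul_le_mul_of_nonneg_right hBK ht.le)
  · exact TYP.ind_of hG hr G hC.free x t d b c T hb0.le hb2 hT hY
  · intro v hv i hi
    have e1 := TYP.sum_bad_le G x t d c v (cl T c i) (fun z => ¬ G.Adj v z) (by
      intro z hz hP
      refine ⟨?_, fun h => hP h.1⟩
      rw [(mem_cl.1 hz).2]
      exact fun e => hi e.symm)
    have e2 : ((nn G (cl T c i) v).card : ℝ) * (t / 2) ≤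
        ∑ z ∈ cl T c i, chi (¬ G.Adj v z) * x z ^ 2 := by
      have e3 : ∑ z ∈ cl T c i, chi (¬ G.Adj v z) * x z ^ 2 = ∑ z ∈ nn G (cl T c i) v, x z ^ 2 := by
        unfold nn
        rw [Finset.sum_filter]
        refine Finset.sum_congr rfl fun z _ => ?_
        by_cases h : ¬ G.Adj v z
        · rw [if_pos h, chi_pos h, one_mul]
        · rw [if_neg h, chi_neg h, zero_mul]
      rw [e3, ← nsmul_eq_mul]
      refine Finset.card_nsmul_le_sum _ _ _ fun z hz => ?_
      exact hylo z (mem_cl.1 (mem_nn.1 hz).1).1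
    have e4 := hT v hv
    rw [le_div_iff₀ ht]
    linarith
  · intro i
    have e1 := hY i
    have e2 : ∑ v ∈ cl T c i, x v ^ 2 ≤ sz T c i * (2 * t) := by
      unfold sz
      rw [← nsmul_eq_mul]
      exact Finset.sum_le_card_nsmul _ _ _ fun z hz => hyhi z (mem_cl.1 hz).1
    rw [hq3] at e1
    have e3 : 1 / (4 * (r : ℝ) * t) = q / (4 * t) := by rw [hq]; field_simp
    rw [e3, div_le_iff₀ (by positivity)]
    linarith
  · have e1 : (T.card : ℝ) * (t / 2) ≤ ∑ v ∈ T, x v ^ 2 := by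
      rw [← nsmul_eq_mul]
      exact Finset.card_nsmul_le_sum _ _ _ hylo
    have e2 : ∑ v ∈ T, x v ^ 2 ≤ 1 := by
      rw [← hC.pv.unit]
      exact Finset.sum_le_sum_of_subset_of_nonneg (Finset.subset_univ _) fun v _ _ => sq_nonneg _
    rw [le_div_iff₀ ht]
    linarith
  · refine le_trans ?_ (hcr.trans (mul_le_mul_of_nonneg_right hDK ht.le))
    refine le_trans (Finset.sum_le_sum fun u _ =>
      Finset.sum_le_sum_of_subset_of_nonneg (Finset.subset_univ T) fun v _ _ =>
        mul_nonneg (chi_nonneg _) (mul_nonneg (sq_nonneg _) (sq_nonneg _))) ?_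
    refine Finset.sum_le_sum_of_subset_of_nonneg (Finset.subset_univ _) ?_
    intro u _ _
    exact Finset.sum_nonneg fun v _ =>
      mul_nonneg (chi_nonneg _) (mul_nonneg (sq_nonneg _) (sq_nonneg _))
  · refine hes.trans (mul_le_mul_of_nonneg_right ?_ ht.le)
    linarith

end Pool.Agent.Work.MP_5532fa_up

end

section

/-!
# MP_5532fa_co, block EID (helper83): counting the edges
-/

set_option autoImplicit false

open Finset

namespace Pool.Agent.Work.MP_5532fa_up

open MP5532fa (specRad qf pE)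

namespace EID

variable {V : Type} [Fintype V] {r : ℕ}

theorem sum_split (H : Finset V) (f : V → ℝ) :
    ∑ v, f v = ∑ v ∈ H, f v + ∑ v ∈ out H, f v := by
  classical
  rw [← sum_filter_add_sum_filter_not univ (fun v => v ∈ H)]
  have e1 : univ.filter (fun v => v ∈ H) = H := by
    ext v
    simp
  have e2 : univ.filter (fun v => ¬ v ∈ H) = out H := by
    ext v
    rw [mem_out]
    simp
  rw [e1, e2]

theorem card_chi {W : Type} (s : Finset W) (p : W → Prop) [DecidablePred p] :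
    ((s.filter p).card : ℝ) = ∑ w ∈ s, chi (p w) := by
  rw [card_filter]
  push_cast
  apply sum_congr rfl
  intro w _
  by_cases h : p w
  · rw [chi_pos h, if_pos h]
  · rw [chi_neg h, if_neg h]

omit [Fintype V] in
theorem mis_eq (G : SimpleGraph V) (S : Finset V) (c : V → Fin r) :
    (mis G S c : ℝ) = ∑ a ∈ S, ∑ b ∈ S, chi (c a ≠ c b ∧ ¬ G.Adj a b) := by
  unfold mis
  rw [card_chi, sum_product]

theorem eu_eq (G : SimpleGraph V) (S : Finset V) :
    (eu G S : ℝ) = ∑ a ∈ out S, ∑ b ∈ out S, ad G a b := by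
  unfold eu
  rw [card_chi, ← univ_product_univ, sum_product, sum_split S]
  have h1 : ∑ a ∈ S, ∑ b, chi (G.Adj a b ∧ a ∉ S ∧ b ∉ S) = 0 := by
    apply sum_eq_zero
    intro a ha
    apply sum_eq_zero
    intro b _
    exact chi_neg fun h => h.2.1 ha
  rw [h1, zero_add]
  apply sum_congr rfl
  intro a ha
  rw [mem_out] at ha
  rw [sum_split S]
  have h2 : ∑ b ∈ S, chi (G.Adj a b ∧ a ∉ S ∧ b ∉ S) = 0 := by
    apply sum_eq_zero
    intro b hb
    exact chi_neg fun h => h.2.2 hb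
  rw [h2, zero_add]
  apply sum_congr rfl
  intro b hb
  rw [mem_out] at hb
  exact chi_congr ⟨fun h => h.1, fun h => ⟨h, ha, hb⟩⟩

omit [Fintype V] in
theorem dg_eq (G : SimpleGraph V) (S : Finset V) (v : V) :
    (dg G S v : ℝ) = ∑ u ∈ S, ad G v u := by
  unfold dg nb
  rw [card_chi]
  rfl

omit [Fintype V] in
theorem sum_ne (S : Finset V) (c : V → Fin r) :
    ∑ a ∈ S, ∑ b ∈ S, chi (c a ≠ c b) = (S.card : ℝ) ^ 2 - ∑ i, sz S c i ^ 2 := by
  classical
  have h1 : ∀ a ∈ S, ∑ b ∈ S, chi (c a ≠ c b) = (S.card : ℝ) - sz S c (c a) := by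
    intro a _
    have h2 : ∀ b ∈ S, chi (c a ≠ c b) = 1 - chi (c b = c a) := by
      intro b _
      by_cases h : c b = c a
      · rw [chi_pos h, chi_neg (fun h' => h' h.symm)]
        ring
      · rw [chi_neg h, chi_pos (fun h' => h h'.symm)]
        ring
    rw [sum_congr rfl h2, sum_sub_distrib, sum_const, nsmul_eq_mul, mul_one, ← card_chi]
    unfold sz cl
    congr 3
  rw [sum_congr rfl h1, sum_sub_distrib, sum_const, nsmul_eq_mul, ← sq]
  congr 1
  rw [← sum_cl S c]
  apply sum_congr rfl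
  intro i _
  have h3 : ∀ v ∈ cl S c i, sz S c (c v) = sz S c i := by
    intro v hv
    rw [(mem_cl.mp hv).2]
  rw [sum_congr rfl h3, sum_const, nsmul_eq_mul, sq]
  rfl

end EID

theorem blk_EID : Stmt_EID := by
  classical
  intro r V _ G c H hind
  rw [pE_ad, EID.sum_split H]
  have e1 : ∑ a ∈ H, ∑ b, ad G a b = ∑ a ∈ H, ∑ b ∈ H, ad G a b +
      ∑ a ∈ H, ∑ b ∈ out H, ad G a b := by
    rw [← sum_add_distrib]
    exact sum_congr rfl fun a _ => EID.sum_split H _
  have e2 : ∑ a ∈ out H, ∑ b, ad G a b = ∑ a ∈ out H, ∑ b ∈ H, ad G a b +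
      ∑ a ∈ out H, ∑ b ∈ out H, ad G a b := by
    rw [← sum_add_distrib]
    exact sum_congr rfl fun a _ => EID.sum_split H _
  have e3 : ∑ a ∈ out H, ∑ b ∈ H, ad G a b = ∑ v ∈ out H, (dg G H v : ℝ) :=
    sum_congr rfl fun a _ => (EID.dg_eq G H a).symm
  have e4 : ∑ a ∈ H, ∑ b ∈ out H, ad G a b = ∑ v ∈ out H, (dg G H v : ℝ) := by
    rw [sum_comm, ← e3]
    exact sum_congr rfl fun a _ => sum_congr rfl fun b _ => ad_comm G b a
  have e5 : ∑ a ∈ H, ∑ b ∈ H, ad G a b = (H.card : ℝ) ^ 2 - ∑ i, sz H c i ^ 2 - mis G H c := by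
    rw [← EID.sum_ne, EID.mis_eq, ← sum_sub_distrib]
    apply sum_congr rfl
    intro a ha
    rw [← sum_sub_distrib]
    apply sum_congr rfl
    intro b hb
    unfold ad
    by_cases h : c a = c b
    · rw [chi_neg (hind a ha b hb h), chi_neg (fun h' : c a ≠ c b => h' h),
        chi_neg (fun h' : c a ≠ c b ∧ ¬ G.Adj a b => h'.1 h)]
      ring
    · by_cases h2 : G.Adj a b
      · rw [chi_pos h2, chi_pos h, chi_neg (fun h' : c a ≠ c b ∧ ¬ G.Adj a b => h'.2 h2)]
        ring
      · rw [chi_neg h2, chi_pos h, chi_pos (⟨h, h2⟩ : c a ≠ c b ∧ ¬ G.Adj a b)]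
        ring
  rw [e1, e2, e3, e4, e5, EID.eu_eq]
  ring

end Pool.Agent.Work.MP_5532fa_up

end
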