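import Mathlib
import Pool.Agent.Work.MP_5532fa_full.P01

section

/-!
# Block THRE: for small `j` type D is not optimal
-/

open Finset

namespace Pool.Agent.Work.MP_5532fa_up

open MP5532fa (specRad qf pE)

namespace THRE

theorem chi_and (p q : Prop) : chi (p ∧ q) = chi p * chi q := by
  by_cases hp : p
  · by_cases hq : q
    · rw [chi_pos hp, chi_pos hq, chi_pos ⟨hp, hq⟩, one_mul]
    · rw [chi_pos hp, chi_neg hq, chi_neg (fun h => hq h.2), mul_zero]
  · rw [chi_neg hp, chi_neg (fun h => hp h.1), zero_mul]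

section
variable {V : Type} [Fintype V] {r : ℕ}

theorem sum_mem_mul (S : Finset V) (f : V → ℝ) : ∑ a, chi (a ∈ S) * f a = ∑ a ∈ S, f a := by
  have h1 : ∑ a ∈ S, chi (a ∈ S) * f a = ∑ a, chi (a ∈ S) * f a :=
    Finset.sum_subset (Finset.subset_univ S) (fun x _ hx => by rw [chi_neg hx, zero_mul])
  rw [← h1]
  exact Finset.sum_congr rfl fun a ha => by rw [chi_pos ha, one_mul]

theorem sum_eq_mul (w : V) (f : V → ℝ) : ∑ a, chi (a = w) * f a = f w := by
  have := sum_mem_mul ({w} : Finset V) f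
  simpa using this

theorem sum_prod (f g : V → ℝ) : ∑ a, ∑ b, f a * g b = (∑ a, f a) * ∑ b, g b := by
  rw [Finset.sum_mul]
  exact Finset.sum_congr rfl fun a _ => (Finset.mul_sum _ _ _).symm

theorem sum_pair (w : V) (A : Finset V) (f g : V → ℝ) :
    ∑ a, ∑ b, chi (a = w ∧ b ∈ A) * (f a * g b) = f w * ∑ b ∈ A, g b := by
  have h : ∀ a b : V, chi (a = w ∧ b ∈ A) * (f a * g b)
      = (chi (a = w) * f a) * (chi (b ∈ A) * g b) := fun a b => by rw [chi_and]; ring
  simp_rw [h]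
  rw [sum_prod, sum_eq_mul, sum_mem_mul]

theorem sum_pair' (w : V) (A : Finset V) (f g : V → ℝ) :
    ∑ a, ∑ b, chi (b = w ∧ a ∈ A) * (f a * g b) = g w * ∑ a ∈ A, f a := by
  rw [Finset.sum_comm, ← sum_pair w A g f]
  exact Finset.sum_congr rfl fun a _ => Finset.sum_congr rfl fun b _ => by ring

theorem sum_pt (w u : V) (f g : V → ℝ) :
    ∑ a, ∑ b, chi (a = w ∧ b = u) * (f a * g b) = f w * g u := by
  have h : ∀ a b : V, chi (a = w ∧ b = u) * (f a * g b)
      = (chi (a = w) * f a) * (chi (b = u) * g b) := fun a b => by rw [chi_and]; ring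
  simp_rw [h]
  rw [sum_prod, sum_eq_mul, sum_eq_mul]

/-- the Rayleigh quotient of the new graph -/
theorem gain {G G' : SimpleGraph V} {H A A' B : Finset V} {c : V → Fin r} {w u v1 v2 : V}
    {x : V → ℝ} {lam : ℝ} (hF : Fam G H c w A (JD v1 v2)) (hF' : Fam G' H c w A' (JE w u B))
    (hx : PV G x lam) [Nonempty V] :
    lam + 2 * (x v1 * x v2) + 2 * (x w * (∑ v ∈ A', x v - ∑ v ∈ A, x v))
      + 2 * (x u * ∑ v ∈ B, x v) + 2 * (x w * x u) ≤ specRad G' := by
  have h1 := rayleigh G' x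
  rw [hx.unit, mul_one] at h1
  have h2 := hx.form
  have h3 : ∑ a, ∑ b, ad G' a b * (x a * x b)
      = ∑ a, ∑ b, ad G a b * (x a * x b)
        + (2 * (x v1 * x v2) + 2 * (x w * (∑ v ∈ A', x v - ∑ v ∈ A, x v))
        + 2 * (x u * ∑ v ∈ B, x v) + 2 * (x w * x u)) := by
    have h : ∀ a b, ad G' a b * (x a * x b) = ad G a b * (x a * x b)
        + (chi (a = v1 ∧ b = v2) * (x a * x b) + chi (a = v2 ∧ b = v1) * (x a * x b)
          + chi (a = w ∧ b ∈ A') * (x a * x b) + chi (b = w ∧ a ∈ A') * (x a * x b)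
          - chi (a = w ∧ b ∈ A) * (x a * x b) - chi (b = w ∧ a ∈ A) * (x a * x b)
          + chi (a = u ∧ b ∈ B) * (x a * x b) + chi (b = u ∧ a ∈ B) * (x a * x b)
          + chi (a = w ∧ b = u) * (x a * x b) + chi (a = u ∧ b = w) * (x a * x b)) := by
      intro a b
      rw [hF.adj, hF'.adj]
      unfold JE JD
      ring
    simp_rw [h, Finset.sum_add_distrib, Finset.sum_sub_distrib, Finset.sum_add_distrib]
    rw [sum_pt, sum_pt, sum_pair, sum_pair', sum_pair, sum_pair', sum_pair, sum_pair', sum_pt,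
      sum_pt]
    ring
  rw [h3, h2] at h1
  linarith only [h1]

end

/-- the combinatorial construction of the graph of type E -/
theorem construct {V : Type} {r N j : ℕ} {G : SimpleGraph V} {H A : Finset V}
    {c : V → Fin r} {w v1 v2 : V} (hr : 3 ≤ r) (h : WD G N H c w A v1 v2)
    (hA : A.card = j + 1) (hj : 2 * r ≤ j) (hsz : 2 ≤ (cl H c (c v2)).card) {u : V}
    (hu : u ∉ H) (hwu : w ≠ u) :
    ∃ A' B : Finset V, WE (gE H c w u A' B) N H c w u A' B (c v1) ∧ A' ⊆ A ∧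
      A'.card + r = j := by
  classical
  choose ρ hρ using h.hne
  have hρc : ∀ i, c (ρ i) = i := fun i => (mem_cl.1 (hρ i)).2
  have hρA : ∀ i, ρ i ∈ A := fun i => (mem_cl.1 (hρ i)).1
  have hv1 : ρ (c v1) = v1 := by
    have := hρ (c v1)
    rw [h.h1, Finset.mem_singleton] at this
    exact this
  have hv1A : v1 ∈ A := hv1 ▸ hρA (c v1)
  -- the removed elements
  have hcard1 : r ≤ (A \ Finset.univ.image ρ).card := by
    have h1 := Finset.le_card_sdiff (Finset.univ.image ρ) A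
    have h2 : (Finset.univ.image ρ).card ≤ r := by
      have := Finset.card_image_le (s := (Finset.univ : Finset (Fin r))) (f := ρ)
      rwa [Finset.card_univ, Fintype.card_fin] at this
    omega
  obtain ⟨D, hD, hDc⟩ := Finset.exists_subset_card_eq hcard1
  have hDA : D ⊆ A := hD.trans Finset.sdiff_subset
  have hDρ : ∀ i, ρ i ∉ D := by
    intro i hi
    have := hD hi
    rw [Finset.mem_sdiff] at this
    exact this.2 (Finset.mem_image_of_mem ρ (Finset.mem_univ i))
  have hv1D : v1 ∉ D := hv1 ▸ hDρ (c v1)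
  obtain ⟨b, hb, hbv⟩ := Finset.exists_mem_ne (lt_of_lt_of_le one_lt_two hsz) v2
  rw [mem_cl] at hb
  have hbA : b ∉ A := by
    intro h'
    have : b ∈ cl A c (c v2) := mem_cl.2 ⟨h', hb.2⟩
    rw [h.h2, Finset.mem_singleton] at this
    exact hbv this
  let β : Fin r → V := fun i => if i = c v2 then b else ρ i
  have hβc : ∀ i, c (β i) = i := by
    intro i
    by_cases hi : i = c v2
    · simp only [β, if_pos hi]; rw [hb.2, hi]
    · simp only [β, if_neg hi]; exact hρc i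
  have hβH : ∀ i, β i ∈ H := by
    intro i
    by_cases hi : i = c v2
    · simp only [β, if_pos hi]; exact hb.1
    · simp only [β, if_neg hi]; exact h.hA (hρA i)
  refine ⟨(A.erase v1) \ D, (Finset.univ.erase (c v1)).image β, ?_, ?_, ?_⟩
  · apply gE_WE h.card h.hw hu hwu
    · exact (Finset.sdiff_subset.trans (Finset.erase_subset _ _)).trans h.hA
    · intro v hv
      rw [Finset.mem_image] at hv
      obtain ⟨i, -, rfl⟩ := hv
      exact hβH i
    · rw [Finset.eq_empty_iff_forall_notMem]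
      intro v hv
      rw [mem_cl, Finset.mem_sdiff, Finset.mem_erase] at hv
      have : v ∈ cl A c (c v1) := mem_cl.2 ⟨hv.1.1.2, hv.2⟩
      rw [h.h1, Finset.mem_singleton] at this
      exact hv.1.1.1 this
    · rw [Finset.eq_empty_iff_forall_notMem]
      intro v hv
      rw [mem_cl, Finset.mem_image] at hv
      obtain ⟨⟨i, hi, rfl⟩, hv⟩ := hv
      rw [hβc] at hv
      exact Finset.ne_of_mem_erase hi hv
    · intro i hi
      refine ⟨ρ i, mem_cl.2 ⟨Finset.mem_sdiff.2 ⟨Finset.mem_erase.2 ⟨?_, hρA i⟩, hDρ i⟩, hρc i⟩⟩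
      intro h'
      exact hi (by rw [← hρc i, h'])
    · intro i hi
      rw [Finset.card_eq_one]
      refine ⟨β i, ?_⟩
      ext v
      rw [mem_cl, Finset.mem_image, Finset.mem_singleton]
      constructor
      · rintro ⟨⟨k, hk, rfl⟩, hv⟩
        rw [hβc] at hv
        rw [hv]
      · rintro rfl
        exact ⟨⟨i, Finset.mem_erase.2 ⟨hi, Finset.mem_univ _⟩, rfl⟩, hβc i⟩
    · intro hsub
      have h1 : b ∈ (Finset.univ.erase (c v1)).image β := by
        rw [Finset.mem_image]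
        refine ⟨c v2, Finset.mem_erase.2 ⟨h.h12.symm, Finset.mem_univ _⟩, ?_⟩
        simp only [β, if_true]
      have h2 := hsub h1
      rw [Finset.mem_sdiff, Finset.mem_erase] at h2
      exact hbA h2.1.2
  · exact Finset.sdiff_subset.trans (Finset.erase_subset _ _)
  · have h1 : D ⊆ A.erase v1 := by
      intro v hv
      exact Finset.mem_erase.2 ⟨fun h' => hv1D (h' ▸ hv), hDA hv⟩
    rw [Finset.card_sdiff_of_subset h1, Finset.card_erase_of_mem hv1A, hDc, hA]
    omega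

/-- balanced classes have sizes close to `N / r` -/
theorem near_of_bal {V : Type} {r N : ℕ} {H : Finset V} {c : V → Fin r} (hr : 3 ≤ r)
    (hN : H.card = N) (hb : Bal H c) (i : Fin r) : |sz H c i - N / r| ≤ 1 := by
  have hr0 : (0 : ℝ) < r := by
    have : (3 : ℝ) ≤ r := by exact_mod_cast hr
    linarith only [this]
  have hs : ∑ k, sz H c k = N := by
    have := sum_card_cl H c
    rw [hN] at this
    unfold sz
    exact_mod_cast this
  have h1 : ∀ k, sz H c i ≤ sz H c k + 1 := by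
    intro k
    have := hb i k
    unfold sz
    exact_mod_cast this
  have h2 : ∀ k, sz H c k ≤ sz H c i + 1 := by
    intro k
    have := hb k i
    unfold sz
    exact_mod_cast this
  have e1 : ∑ k : Fin r, (sz H c i - 1) ≤ ∑ k, sz H c k :=
    Finset.sum_le_sum fun k _ => by linarith only [h1 k]
  have e2 : ∑ k, sz H c k ≤ ∑ k : Fin r, (sz H c i + 1) :=
    Finset.sum_le_sum fun k _ => h2 k
  rw [Finset.sum_const, Finset.card_univ, Fintype.card_fin, nsmul_eq_mul, hs] at e1 e2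
  rw [abs_le]
  constructor
  · have : (N : ℝ) / r ≤ sz H c i + 1 := by
      rw [div_le_iff₀ hr0]; linarith only [e2]
    linarith only [this]
  · have : sz H c i - 1 ≤ (N : ℝ) / r := by
      rw [le_div_iff₀ hr0]; linarith only [e1]
    linarith only [this]

end THRE

theorem blk_THRE (hGD : Stmt_GD) (hGE : Stmt_GE) (hFAM : Stmt_FAM) (hEST : Stmt_EST) :
    Stmt_THRE := by
  classical
  intro r ε hr hε
  have hr3 : (3 : ℝ) ≤ r := by exact_mod_cast hr
  set e : ℝ := min ε 1 / (2 * (r + 4)) with he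
  have hε1 : 0 < min ε 1 := lt_min hε one_pos
  have he0 : 0 < e := by rw [he]; positivity
  have he' : e * (2 * (r + 4)) = min ε 1 := by
    rw [he]; field_simp
  obtain ⟨δ, N0, hδ, hE⟩ := hEST r ε e hr hε he0
  obtain ⟨N1, hN1⟩ := exists_nat_ge (1 / δ)
  obtain ⟨N2, hN2⟩ := exists_nat_ge ((2 * r : ℝ) / ε)
  refine ⟨max (max N0 N1) (max N2 (3 * r)), ?_⟩
  intro N hN j hj hX V _ G hV hT hM
  have hNN0 : N0 ≤ N := le_trans (le_trans (le_max_left _ _) (le_max_left _ _)) hN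
  have hNN1 : N1 ≤ N := le_trans (le_trans (le_max_right _ _) (le_max_left _ _)) hN
  have hNN2 : N2 ≤ N := le_trans (le_trans (le_max_left _ _) (le_max_right _ _)) hN
  have hNN3 : 3 * r ≤ N := le_trans (le_trans (le_max_right _ _) (le_max_right _ _)) hN
  have hN1' : 1 ≤ δ * N := by
    have h1 : (1 : ℝ) / δ ≤ N := hN1.trans (by exact_mod_cast hNN1)
    rw [div_le_iff₀ hδ] at h1
    linarith only [h1]
  have hj2 : 2 * r ≤ j := by
    have h1 : (2 * r : ℝ) / ε ≤ N := hN2.trans (by exact_mod_cast hNN2)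
    rw [div_le_iff₀ hε] at h1
    have h2 : ((2 * r : ℕ) : ℝ) ≤ j := by
      push_cast
      have := hj.1
      linarith only [h1, this]
    exact_mod_cast h2
  obtain ⟨H, c, w, A, v1, v2, hW, hAc, hbal, hplace, htop⟩ := hT
  have hnearH := THRE.near_of_bal hr hW.card hbal
  have hsz : ∀ i, 2 ≤ (cl H c i).card := by
    intro i
    have h1 := (abs_le.1 (hnearH i)).1
    have h2 : (3 : ℝ) ≤ N / r := by
      rw [le_div_iff₀ (by linarith only [hr3])]
      exact_mod_cast hNN3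
    have h3 : (2 : ℝ) ≤ sz H c i := by linarith only [h1, h2]
    unfold sz at h3
    exact_mod_cast h3
  -- a spare vertex
  obtain ⟨u, huH, hwu⟩ : ∃ u : V, u ∉ H ∧ w ≠ u := by
    have h1 : (insert w H).card < Fintype.card V := by
      have := Finset.card_insert_le w H
      rw [hW.card] at this
      omega
    have h2 : insert w H ≠ Finset.univ := by
      intro h'
      rw [h', Finset.card_univ] at h1
      exact lt_irrefl _ h1
    obtain ⟨u, hu⟩ := Finset.exists_mem_notMem_of_card_lt_card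
      (s := insert w H) (t := Finset.univ) (by rw [Finset.card_univ]; exact h1)
    refine ⟨u, fun h' => hu.2 (Finset.mem_insert_of_mem h'), fun h' => hu.2 ?_⟩
    rw [← h']; exact Finset.mem_insert_self _ _
  obtain ⟨A', B, hE', hAA, hA'c⟩ := THRE.construct hr hW hAc hj2 (hsz _) huH hwu
  set G' := gE H c w u A' B with hG'
  obtain ⟨hf', hc', hp'⟩ := hGE r hr V G' N H c w u A' B (c v1) hE'
  obtain ⟨hf, hc, hp⟩ := hGD r hr V G N H c w A v1 v2 hW
  have hpe : pE G' = pE G := by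
    rw [hp, hp', hAc, ← hA'c]
    push_cast
    ring
  have hle := hM G' hf' (hc' fun i => le_trans (by norm_num) (hsz i)) hpe
  have hF := (hFAM r hr V G N H c w A).1 v1 v2 hW
  have hF' := (hFAM r hr V G' N H c w A').2 u B (c v1) hE'
  have hVne : Nonempty V := ⟨w⟩
  obtain ⟨x, hx⟩ := exists_PV G
  have hnear : Near r δ N j H A c := by
    refine ⟨fun i => (hnearH i).trans hN1', ?_⟩
    rw [hAc]
    push_cast
    rw [show ((j : ℝ) + 1 - j) = 1 by ring, abs_one]
    exact hN1'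
  obtain ⟨xb, hxb⟩ := hE N hNN0 j hj V G H c w A _ x _ hF hx hW.card hnear
  have hg := THRE.gain hF hF' hx
  have hxb0 := hxb.xb0
  have hv1A : v1 ∈ A := by
    have : v1 ∈ cl A c (c v1) := by rw [hW.h1]; exact Finset.mem_singleton_self _
    exact (mem_cl.1 this).1
  have hv2A : v2 ∈ A := by
    have : v2 ∈ cl A c (c v2) := by rw [hW.h2]; exact Finset.mem_singleton_self _
    exact (mem_cl.1 this).1
  have hx1 := (abs_le.1 (hxb.xH v1 (hW.hA hv1A))).1
  have hx2 := (abs_le.1 (hxb.xH v2 (hW.hA hv2A))).1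
  have hxw := (abs_le.1 hxb.xw).2
  have hsum : ∑ v ∈ A, x v - ∑ v ∈ A', x v ≤ (r + 1) * ((1 + e) * xb) := by
    have h1 := Finset.sum_sdiff (f := x) hAA
    have h2 : ∑ v ∈ A \ A', x v ≤ ∑ _v ∈ A \ A', (1 + e) * xb := by
      refine Finset.sum_le_sum fun v hv => ?_
      have := (abs_le.1 (hxb.xH v (hW.hA (Finset.mem_sdiff.1 hv).1))).2
      linarith only [this]
    rw [Finset.sum_const, nsmul_eq_mul, Finset.card_sdiff_of_subset hAA] at h2
    have h3 : A.card - A'.card = r + 1 := by omega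
    rw [h3] at h2
    push_cast at h2
    linarith only [h1, h2]
  have hB0 : 0 ≤ x u * ∑ v ∈ B, x v :=
    mul_nonneg (hx.nn u) (Finset.sum_nonneg fun v _ => hx.nn v)
  have hwu0 : 0 ≤ x w * x u := mul_nonneg (hx.nn w) (hx.nn u)
  set X : ℝ := j / (al r * N) with hXd
  have hX0 : 0 ≤ X := by
    have h1 := al_ge hr
    have h2 : (0 : ℝ) ≤ al r * N := mul_nonneg (by linarith only [h1]) (Nat.cast_nonneg _)
    exact div_nonneg (Nat.cast_nonneg _) h2
  have hε' : min ε 1 ≤ ε := min_le_left _ _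
  have hε'1 : min ε 1 ≤ 1 := min_le_right _ _
  have he1 : e ≤ 1 / 14 := by nlinarith
  -- the two products
  have p1 : (1 - e) ^ 2 * xb ^ 2 ≤ x v1 * x v2 := by
    have a1 : (1 - e) * xb ≤ x v1 := by linarith only [hx1]
    have a2 : (1 - e) * xb ≤ x v2 := by linarith only [hx2]
    have a3 : 0 ≤ (1 - e) * xb := mul_nonneg (by linarith only [he1]) hxb0.le
    calc (1 - e) ^ 2 * xb ^ 2 = ((1 - e) * xb) * ((1 - e) * xb) := by ring
      _ ≤ x v1 * x v2 := mul_le_mul a1 a2 a3 (a3.trans a1)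
  have p2 : x w * (∑ v ∈ A, x v - ∑ v ∈ A', x v)
      ≤ ((X + e) * xb) * ((r + 1) * ((1 + e) * xb)) := by
    have a1 : x w ≤ (X + e) * xb := by linarith only [hxw]
    have a2 : 0 ≤ (X + e) * xb := mul_nonneg (by linarith only [he0, hX0]) hxb0.le
    have a3 : 0 ≤ (r + 1) * ((1 + e) * xb) := by positivity
    calc x w * (∑ v ∈ A, x v - ∑ v ∈ A', x v)
        ≤ x w * ((r + 1) * ((1 + e) * xb)) := mul_le_mul_of_nonneg_left hsum (hx.nn w)
      _ ≤ _ := mul_le_mul_of_nonneg_right a1 a3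
  have p3 : (X + e) * ((r + 1) * (1 + e)) < (1 - e) ^ 2 := by
    have b1 : ((r : ℝ) + 1) * X ≤ 1 - min ε 1 := by linarith only [hX, hε']
    have b2 : (X + e) * ((r + 1) * (1 + e)) = (((r : ℝ) + 1) * X + (r + 1) * e) * (1 + e) := by ring
    rw [b2]
    have b3 : (((r : ℝ) + 1) * X + (r + 1) * e) ≤ 1 - min ε 1 + (r + 1) * e := by linarith only [b1]
    have b4 : (1 - min ε 1 + (r + 1) * e) ≤ 1 := by nlinarith
    have b5 : (((r : ℝ) + 1) * X + (r + 1) * e) * (1 + e)
        ≤ (1 - min ε 1 + (r + 1) * e) + e := by nlinarith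
    nlinarith
  have p4 : ((X + e) * xb) * ((r + 1) * ((1 + e) * xb)) < (1 - e) ^ 2 * xb ^ 2 := by
    have : ((X + e) * xb) * ((r + 1) * ((1 + e) * xb))
        = ((X + e) * ((r + 1) * (1 + e))) * xb ^ 2 := by ring
    rw [this]
    exact mul_lt_mul_of_pos_right p3 (by positivity)
  have p5 : x w * (∑ v ∈ A', x v - ∑ v ∈ A, x v) = - (x w * (∑ v ∈ A, x v - ∑ v ∈ A', x v)) := by
    ring
  rw [p5] at hg
  linarith only [hle, hg, hB0, hwu0, p1, p2, p4]

end Pool.Agent.Work.MP_5532fa_up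

end

section

/-!
# MP_5532fa_co upgrade, block B1C: the vertex `w` has no neighbours in one class
-/

open Finset

namespace Pool.Agent.Work.MP_5532fa_up

open MP5532fa (specRad qf pE)

namespace B1C

section
variable {V : Type} [Fintype V] {r : ℕ}

theorem chi_sum (P : V → V → Prop) [DecidablePred fun e : V × V => P e.1 e.2] :
    ∑ a, ∑ b, chi (P a b) = ((univ.filter fun e : V × V => P e.1 e.2).card : ℝ) := by
  classical
  rw [← Finset.sum_product', Finset.card_filter, Nat.cast_sum]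
  refine Finset.sum_congr rfl fun e _ => ?_
  unfold chi
  split_ifs <;> simp

theorem mis_eq (G : SimpleGraph V) (H : Finset V) (c : V → Fin r) :
    ∑ a, ∑ b, chi (a ∈ H ∧ b ∈ H ∧ c a ≠ c b ∧ ¬ G.Adj a b) = (mis G H c : ℝ) := by
  classical
  rw [chi_sum (fun a b => a ∈ H ∧ b ∈ H ∧ c a ≠ c b ∧ ¬ G.Adj a b)]
  unfold mis
  congr 2
  ext e
  simp only [Finset.mem_filter, Finset.mem_univ, true_and, Finset.mem_product]
  tauto

theorem eu_eq (G : SimpleGraph V) (H : Finset V) :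
    ∑ a, ∑ b, chi (a ∉ H ∧ b ∉ H ∧ G.Adj a b) = (eu G H : ℝ) := by
  classical
  rw [chi_sum (fun a b => a ∉ H ∧ b ∉ H ∧ G.Adj a b)]
  unfold eu
  congr 2
  ext e
  simp only [Finset.mem_filter, Finset.mem_univ, true_and]
  tauto

open Classical in
theorem dg_eq (G : SimpleGraph V) (H : Finset V) (w : V) :
    ∑ a, ∑ b, chi (a ∉ H ∧ a ≠ w ∧ b ∈ H ∧ G.Adj a b) =
      ∑ a ∈ (out H).erase w, (dg G H a : ℝ) := by
  rw [← Finset.sum_subset (Finset.subset_univ ((out H).erase w))]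
  · refine Finset.sum_congr rfl fun a ha => ?_
    rw [Finset.mem_erase, mem_out] at ha
    unfold dg nb
    rw [Finset.card_filter, Nat.cast_sum, ← Finset.sum_subset (Finset.subset_univ H)]
    · refine Finset.sum_congr rfl fun b hb => ?_
      unfold chi
      by_cases h : G.Adj a b
      · rw [if_pos ⟨ha.2, ha.1, hb, h⟩, if_pos h]; simp
      · rw [if_neg (fun h' => h h'.2.2.2), if_neg h]; simp
    · intro b _ hb
      exact chi_neg fun h => hb h.2.2.1
  · intro a _ ha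
    refine Finset.sum_eq_zero fun b _ => chi_neg fun h => ha ?_
    rw [Finset.mem_erase, mem_out]
    exact ⟨h.2.1, h.1⟩

theorem w_sum (x : V → ℝ) (A : Finset V) (w : V) :
    ∑ a, ∑ b, chi (a = w ∧ b ∈ A) * (x a * x b) = x w * ∑ b ∈ A, x b := by
  classical
  rw [Finset.sum_eq_single w]
  · rw [Finset.mul_sum, ← Finset.sum_subset (Finset.subset_univ A)]
    · refine Finset.sum_congr rfl fun b hb => ?_
      rw [chi_pos ⟨rfl, hb⟩, one_mul]
    · intro b _ hb
      rw [chi_neg fun h => hb h.2, zero_mul]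
  · intro a _ ha
    refine Finset.sum_eq_zero fun b _ => ?_
    rw [chi_neg fun h => ha h.1, zero_mul]
  · intro h; exact absurd (Finset.mem_univ w) h

theorem w_sum' (x : V → ℝ) (A : Finset V) (w : V) :
    ∑ a, ∑ b, chi (b = w ∧ a ∈ A) * (x a * x b) = x w * ∑ b ∈ A, x b := by
  rw [Finset.sum_comm, ← w_sum]
  refine Finset.sum_congr rfl fun b _ => Finset.sum_congr rfl fun a _ => ?_
  rw [mul_comm (x a)]

/-- lower bound for the quadratic form of the new graph -/
theorem lower (G' : SimpleGraph V) (H A' : Finset V) (c : V → Fin r) (w : V) (x : V → ℝ)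
    (hx : ∀ v, 0 ≤ x v) (hw : w ∉ H) (hA : A' ⊆ H)
    (h1 : ∀ a b, a ∈ H → b ∈ H → c a ≠ c b → G'.Adj a b) (h2 : ∀ b ∈ A', G'.Adj w b) :
    ∑ a, ∑ b, chi (a ∈ H ∧ b ∈ H ∧ c a ≠ c b) * (x a * x b) + 2 * (x w * ∑ b ∈ A', x b) ≤
      ∑ a, ∑ b, ad G' a b * (x a * x b) := by
  classical
  have e : ∑ a, ∑ b, chi (a ∈ H ∧ b ∈ H ∧ c a ≠ c b) * (x a * x b) + 2 * (x w * ∑ b ∈ A', x b) =
      ∑ a, ∑ b, (chi (a ∈ H ∧ b ∈ H ∧ c a ≠ c b) + chi (a = w ∧ b ∈ A') + chi (b = w ∧ a ∈ A'))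
        * (x a * x b) := by
    simp only [add_mul, Finset.sum_add_distrib]
    rw [w_sum, w_sum']
    ring
  rw [e]
  refine Finset.sum_le_sum fun a _ => Finset.sum_le_sum fun b _ => ?_
  apply mul_le_mul_of_nonneg_right _ (mul_nonneg (hx a) (hx b))
  by_cases c1 : a ∈ H ∧ b ∈ H ∧ c a ≠ c b
  · have n2 : ¬ (a = w ∧ b ∈ A') := fun h => hw (h.1 ▸ c1.1)
    have n3 : ¬ (b = w ∧ a ∈ A') := fun h => hw (h.1 ▸ c1.2.1)
    unfold ad
    rw [chi_pos c1, chi_neg n2, chi_neg n3, chi_pos (h1 a b c1.1 c1.2.1 c1.2.2)]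
    norm_num
  · rw [chi_neg c1]
    by_cases c2 : a = w ∧ b ∈ A'
    · have n3 : ¬ (b = w ∧ a ∈ A') := fun h => hw (h.1 ▸ hA c2.2)
      unfold ad
      rw [chi_pos c2, chi_neg n3, chi_pos (c2.1 ▸ h2 b c2.2)]
      norm_num
    · rw [chi_neg c2]
      by_cases c3 : b = w ∧ a ∈ A'
      · unfold ad
        rw [chi_pos c3, chi_pos ((c3.1 ▸ h2 a c3.2).symm)]
        norm_num
      · rw [chi_neg c3]
        unfold ad
        have := chi_nonneg (G'.Adj a b)
        linarith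

omit [Fintype V] in
/-- decomposition of the adjacency -/
theorem decomp (G : SimpleGraph V) (H : Finset V) (c : V → Fin r) (w : V) (hw : w ∉ H)
    (hind : ∀ u ∈ H, ∀ v ∈ H, c u = c v → ¬ G.Adj u v) (a b : V) :
    ad G a b = chi (a ∈ H ∧ b ∈ H ∧ c a ≠ c b)
      - chi (a ∈ H ∧ b ∈ H ∧ c a ≠ c b ∧ ¬ G.Adj a b)
      + chi (a = w ∧ b ∈ nb G H w) + chi (a ∉ H ∧ a ≠ w ∧ b ∈ H ∧ G.Adj a b)
      + chi (b = w ∧ a ∈ nb G H w) + chi (b ∉ H ∧ b ≠ w ∧ a ∈ H ∧ G.Adj b a)
      + chi (a ∉ H ∧ b ∉ H ∧ G.Adj a b) := by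
  classical
  unfold ad
  have hnb : ∀ v, v ∈ nb G H w ↔ v ∈ H ∧ G.Adj w v := fun v => mem_nb
  simp only [hnb]
  have hsymm : G.Adj b a ↔ G.Adj a b := G.adj_comm b a
  by_cases h : G.Adj a b
  · by_cases ha : a ∈ H
    · by_cases hb : b ∈ H
      · have hc : c a ≠ c b := fun hc => hind a ha b hb hc h
        have haw : a ≠ w := fun e => hw (e ▸ ha)
        have hbw : b ≠ w := fun e => hw (e ▸ hb)
        simp [chi, h, ha, hb, hc, haw, hbw]
      · have haw : a ≠ w := fun e => hw (e ▸ ha)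
        by_cases hbw : b = w
        · subst hbw
          simp [chi, h, h.symm, ha, hb, haw]
        · simp [chi, h, h.symm, ha, hb, haw, hbw]
    · by_cases hb : b ∈ H
      · have hbw : b ≠ w := fun e => hw (e ▸ hb)
        by_cases haw : a = w
        · subst haw
          simp [chi, h, ha, hb, hbw]
        · simp [chi, h, ha, hb, haw, hbw]
      · by_cases haw : a = w
        · subst haw
          simp [chi, h, ha, hb]
        · simp [chi, h, ha, hb]
  · by_cases ha : a ∈ H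
    · by_cases hb : b ∈ H
      · have haw : a ≠ w := fun e => hw (e ▸ ha)
        have hbw : b ≠ w := fun e => hw (e ▸ hb)
        by_cases hc : c a = c b
        · simp [chi, h, ha, hb, hc, haw, hbw]
        · simp [chi, h, ha, hb, hc, haw, hbw]
      · have haw : a ≠ w := fun e => hw (e ▸ ha)
        by_cases hbw : b = w
        · subst hbw
          simp [chi, h, hsymm, ha, hb, haw]
        · simp [chi, h, hsymm, ha, hb, haw, hbw]
    · by_cases hb : b ∈ H
      · have hbw : b ≠ w := fun e => hw (e ▸ hb)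
        by_cases haw : a = w
        · subst haw
          simp [chi, h, ha, hb, hbw]
        · simp [chi, h, ha, hb, haw, hbw]
      · by_cases haw : a = w
        · subst haw
          simp [chi, h, ha, hb]
        · simp [chi, h, ha, hb]

open Classical in
/-- upper bound for the quadratic form of the old graph -/
theorem upper (G : SimpleGraph V) (H : Finset V) (c : V → Fin r) (w : V) (x : V → ℝ) (lo hi : ℝ)
    (hw : w ∉ H) (hind : ∀ u ∈ H, ∀ v ∈ H, c u = c v → ¬ G.Adj u v)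
    (hlo : ∀ a ∈ H, ∀ b ∈ H, lo ≤ x a * x b)
    (hhi1 : ∀ a, a ∉ H → a ≠ w → ∀ b ∈ H, x a * x b ≤ hi)
    (hhi2 : ∀ a, a ∉ H → ∀ b, b ∉ H → a ≠ b → x a * x b ≤ hi) :
    ∑ a, ∑ b, ad G a b * (x a * x b) ≤
      ∑ a, ∑ b, chi (a ∈ H ∧ b ∈ H ∧ c a ≠ c b) * (x a * x b) - mis G H c * lo
        + 2 * (x w * ∑ b ∈ nb G H w, x b)
        + (2 * ∑ a ∈ (out H).erase w, (dg G H a : ℝ) + eu G H) * hi := by
  have e1 : ∑ a, ∑ b, ad G a b * (x a * x b) =
      ∑ a, ∑ b, chi (a ∈ H ∧ b ∈ H ∧ c a ≠ c b) * (x a * x b)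
      - ∑ a, ∑ b, chi (a ∈ H ∧ b ∈ H ∧ c a ≠ c b ∧ ¬ G.Adj a b) * (x a * x b)
      + ∑ a, ∑ b, chi (a = w ∧ b ∈ nb G H w) * (x a * x b)
      + ∑ a, ∑ b, chi (a ∉ H ∧ a ≠ w ∧ b ∈ H ∧ G.Adj a b) * (x a * x b)
      + ∑ a, ∑ b, chi (b = w ∧ a ∈ nb G H w) * (x a * x b)
      + ∑ a, ∑ b, chi (b ∉ H ∧ b ≠ w ∧ a ∈ H ∧ G.Adj b a) * (x a * x b)
      + ∑ a, ∑ b, chi (a ∉ H ∧ b ∉ H ∧ G.Adj a b) * (x a * x b) := by
    simp only [← Finset.sum_add_distrib, ← Finset.sum_sub_distrib]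
    refine Finset.sum_congr rfl fun a _ => Finset.sum_congr rfl fun b _ => ?_
    rw [decomp G H c w hw hind a b]
    ring
  have s1 : mis G H c * lo ≤
      ∑ a, ∑ b, chi (a ∈ H ∧ b ∈ H ∧ c a ≠ c b ∧ ¬ G.Adj a b) * (x a * x b) := by
    rw [← mis_eq, Finset.sum_mul]
    refine Finset.sum_le_sum fun a _ => ?_
    rw [Finset.sum_mul]
    refine Finset.sum_le_sum fun b _ => ?_
    by_cases h : a ∈ H ∧ b ∈ H ∧ c a ≠ c b ∧ ¬ G.Adj a b
    · rw [chi_pos h, one_mul, one_mul]; exact hlo a h.1 b h.2.1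
    · rw [chi_neg h, zero_mul, zero_mul]
  have s2 : ∑ a, ∑ b, chi (a ∉ H ∧ a ≠ w ∧ b ∈ H ∧ G.Adj a b) * (x a * x b) ≤
      (∑ a ∈ (out H).erase w, (dg G H a : ℝ)) * hi := by
    rw [← dg_eq, Finset.sum_mul]
    refine Finset.sum_le_sum fun a _ => ?_
    rw [Finset.sum_mul]
    refine Finset.sum_le_sum fun b _ => ?_
    by_cases h : a ∉ H ∧ a ≠ w ∧ b ∈ H ∧ G.Adj a b
    · rw [chi_pos h, one_mul, one_mul]; exact hhi1 a h.1 h.2.1 b h.2.2.1
    · rw [chi_neg h, zero_mul, zero_mul]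
  have s3 : ∑ a, ∑ b, chi (b ∉ H ∧ b ≠ w ∧ a ∈ H ∧ G.Adj b a) * (x a * x b) ≤
      (∑ a ∈ (out H).erase w, (dg G H a : ℝ)) * hi := by
    rw [Finset.sum_comm]
    refine le_trans (le_of_eq ?_) s2
    refine Finset.sum_congr rfl fun a _ => Finset.sum_congr rfl fun b _ => ?_
    rw [mul_comm (x b)]
  have s4 : ∑ a, ∑ b, chi (a ∉ H ∧ b ∉ H ∧ G.Adj a b) * (x a * x b) ≤ eu G H * hi := by
    rw [← eu_eq, Finset.sum_mul]
    refine Finset.sum_le_sum fun a _ => ?_
    rw [Finset.sum_mul]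
    refine Finset.sum_le_sum fun b _ => ?_
    by_cases h : a ∉ H ∧ b ∉ H ∧ G.Adj a b
    · rw [chi_pos h, one_mul, one_mul]; exact hhi2 a h.1 b h.2.1 h.2.2.ne
    · rw [chi_neg h, zero_mul, zero_mul]
  rw [e1, w_sum, w_sum']
  linarith

omit [Fintype V] in
open Classical in
/-- choice of the neighbourhoods of the new graph -/
theorem sets (H A : Finset V) (c : V → Fin r) (i0 : Fin r) (T : ℕ) (hA : A ⊆ H)
    (hA0 : cl A c i0 = ∅) (h2 : ∀ i, 2 ≤ (cl H c i).card) (hrT : r ≤ T)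
    (hT : T + (cl H c i0).card + 1 ≤ H.card) (hAT : A.card + (cl H c i0).card < H.card) :
    ∃ A' B : Finset V, A' ⊆ H ∧ B ⊆ H ∧ cl A' c i0 = ∅ ∧ cl B c i0 = ∅ ∧
      (∀ i, i ≠ i0 → (cl A' c i).Nonempty) ∧ (∀ i, i ≠ i0 → (cl B c i).card = 1) ∧ ¬ B ⊆ A' ∧
      A'.card = T ∧ (A' \ A).card + (A \ A').card ≤ (T - A.card) + (A.card - T) + 2 * r := by
  set U := H \ cl H c i0 with hU
  have hUm : ∀ v, v ∈ U ↔ v ∈ H ∧ c v ≠ i0 := by
    intro v
    rw [hU, Finset.mem_sdiff, mem_cl]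
    tauto
  have hUc : U.card = H.card - (cl H c i0).card :=
    Finset.card_sdiff_of_subset (fun v hv => (mem_cl.1 hv).1)
  have hAc : ∀ v ∈ A, c v ≠ i0 := by
    intro v hv h
    have : v ∈ cl A c i0 := mem_cl.2 ⟨hv, h⟩
    rw [hA0] at this
    simp at this
  have hAU : A ⊆ U := fun v hv => (hUm v).2 ⟨hA hv, hAc v hv⟩
  obtain ⟨b, hbU, hbA⟩ : ∃ b ∈ U, b ∉ A := by
    by_contra hcon
    push Not at hcon
    have := Finset.card_le_card (s := U) (t := A) hcon
    omega
  have hb := (hUm b).1 hbU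
  have hrr : ∀ i, ∃ v ∈ cl H c i, v ≠ b := fun i =>
    Finset.exists_mem_ne (by have := h2 i; omega) b
  choose rr hrr1 hrr2 using hrr
  have hrrH : ∀ i, rr i ∈ H := fun i => (mem_cl.1 (hrr1 i)).1
  have hrrc : ∀ i, c (rr i) = i := fun i => (mem_cl.1 (hrr1 i)).2
  set R := (univ.erase i0).image rr with hR
  have hRm : ∀ v, v ∈ R ↔ ∃ i, i ≠ i0 ∧ rr i = v := by
    intro v
    rw [hR, Finset.mem_image]
    simp
  have hRcard : R.card ≤ r := by
    refine Finset.card_image_le.trans ?_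
    refine (Finset.card_erase_le).trans ?_
    simp
  have hRU : R ⊆ U := by
    intro v hv
    obtain ⟨i, hi, rfl⟩ := (hRm v).1 hv
    exact (hUm _).2 ⟨hrrH i, by rw [hrrc]; exact hi⟩
  have hbR : b ∉ R := by
    intro h
    obtain ⟨i, hi, h'⟩ := (hRm b).1 h
    exact hrr2 i h'
  -- the set `A'`
  obtain ⟨A', hRA', hA'U, hA'c, hdiff⟩ : ∃ A' : Finset V, R ⊆ A' ∧ A' ⊆ U.erase b ∧
      A'.card = T ∧ (A' \ A).card + (A \ A').card ≤ (T - A.card) + (A.card - T) + 2 * r := by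
    have hSU : R ∪ A ⊆ U.erase b := by
      intro v hv
      rw [Finset.mem_erase]
      rcases Finset.mem_union.1 hv with h | h
      · exact ⟨fun e => hbR (e ▸ h), hRU h⟩
      · exact ⟨fun e => hbA (e ▸ h), hAU h⟩
    have hScard : (R ∪ A).card ≤ R.card + A.card := Finset.card_union_le _ _
    rcases le_or_gt T (R ∪ A).card with hTS | hTS
    · obtain ⟨A', h3, h4, h5⟩ := Finset.exists_subsuperset_card_eq
        (Finset.subset_union_left (s₁ := R) (s₂ := A)) (by omega : R.card ≤ T) hTS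
      refine ⟨A', h3, h4.trans hSU, h5, ?_⟩
      have e1 : (A' \ A).card ≤ R.card := by
        apply Finset.card_le_card
        intro v hv
        rw [Finset.mem_sdiff] at hv
        rcases Finset.mem_union.1 (h4 hv.1) with h | h
        · exact h
        · exact absurd h hv.2
      have e2 : (A \ A').card ≤ (R ∪ A).card - T := by
        rw [← h5, ← Finset.card_sdiff_of_subset h4]
        exact Finset.card_le_card (Finset.sdiff_subset_sdiff Finset.subset_union_right le_rfl)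
      omega
    · obtain ⟨A', h3, h4, h5⟩ := Finset.exists_subsuperset_card_eq hSU hTS.le (by
        rw [Finset.card_erase_of_mem hbU, hUc]; omega)
      refine ⟨A', Finset.subset_union_left.trans h3, h4, h5, ?_⟩
      have hAA' : A ⊆ A' := Finset.subset_union_right.trans h3
      rw [Finset.card_sdiff_of_subset hAA', Finset.sdiff_eq_empty_iff_subset.2 hAA',
        Finset.card_empty, h5]
      omega
  have hA'm : ∀ v ∈ A', v ≠ b ∧ v ∈ H ∧ c v ≠ i0 := by
    intro v hv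
    have := Finset.mem_erase.1 (hA'U hv)
    exact ⟨this.1, (hUm v).1 this.2⟩
  -- the set `B`
  set B := insert b (((univ.erase i0).erase (c b)).image rr) with hB
  have hBm : ∀ v, v ∈ B ↔ v = b ∨ ∃ i, i ≠ c b ∧ i ≠ i0 ∧ rr i = v := by
    intro v
    rw [hB, Finset.mem_insert, Finset.mem_image]
    simp [and_assoc]
  refine ⟨A', B, fun v hv => (hA'm v hv).2.1, ?_, ?_, ?_, ?_, ?_, ?_, hA'c, hdiff⟩
  · intro v hv
    rcases (hBm v).1 hv with rfl | ⟨i, _, _, rfl⟩
    · exact hb.1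
    · exact hrrH i
  · rw [Finset.eq_empty_iff_forall_notMem]
    intro v hv
    exact (hA'm v (mem_cl.1 hv).1).2.2 (mem_cl.1 hv).2
  · rw [Finset.eq_empty_iff_forall_notMem]
    intro v hv
    have h3 := mem_cl.1 hv
    rcases (hBm v).1 h3.1 with rfl | ⟨i, _, hi, rfl⟩
    · exact hb.2 h3.2
    · exact hi (by rw [← hrrc i]; exact h3.2)
  · intro i hi
    exact ⟨rr i, mem_cl.2 ⟨hRA' ((hRm _).2 ⟨i, hi, rfl⟩), hrrc i⟩⟩
  · intro i hi
    rw [Finset.card_eq_one]
    by_cases hib : i = c b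
    · refine ⟨b, ?_⟩
      ext v
      rw [mem_cl, Finset.mem_singleton]
      constructor
      · rintro ⟨hv, hvc⟩
        rcases (hBm v).1 hv with h | ⟨k, hk, _, rfl⟩
        · exact h
        · exfalso; apply hk; rw [← hrrc k, hvc, hib]
      · rintro rfl
        exact ⟨(hBm _).2 (Or.inl rfl), hib.symm⟩
    · refine ⟨rr i, ?_⟩
      ext v
      rw [mem_cl, Finset.mem_singleton]
      constructor
      · rintro ⟨hv, hvc⟩
        rcases (hBm v).1 hv with rfl | ⟨k, hk, _, rfl⟩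
        · exact absurd hvc.symm hib
        · rw [hrrc] at hvc; rw [hvc]
      · rintro rfl
        exact ⟨(hBm _).2 (Or.inr ⟨i, hib, hi, rfl⟩), hrrc i⟩
  · intro h
    exact (hA'm b (h ((hBm b).2 (Or.inl rfl)))).1 rfl

omit [Fintype V] in
open Classical in
/-- difference of two sums of numbers close to one -/
theorem sumdiff (A A' : Finset V) (y : V → ℝ) (δ : ℝ) (hA : ∀ v ∈ A, |y v - 1| ≤ δ)
    (hA' : ∀ v ∈ A', |y v - 1| ≤ δ) :
    |∑ v ∈ A', y v - ∑ v ∈ A, y v - ((A'.card : ℝ) - A.card)| ≤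
      δ * ((A' \ A).card + (A \ A').card) := by
  have e1 : ∀ (S : Finset V), ∑ v ∈ S, y v = ∑ v ∈ S, (y v - 1) + S.card := by
    intro S
    rw [Finset.sum_sub_distrib]
    simp
  have e2 : ∑ v ∈ A', (y v - 1) = ∑ v ∈ A' \ A, (y v - 1) + ∑ v ∈ A' ∩ A, (y v - 1) := by
    rw [← Finset.sum_inter_add_sum_sdiff A' A (fun v => y v - 1), add_comm]
  have e3 : ∑ v ∈ A, (y v - 1) = ∑ v ∈ A \ A', (y v - 1) + ∑ v ∈ A' ∩ A, (y v - 1) := by
    rw [Finset.inter_comm, ← Finset.sum_inter_add_sum_sdiff A A' (fun v => y v - 1), add_comm]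
  have e4 : ∑ v ∈ A', y v - ∑ v ∈ A, y v - ((A'.card : ℝ) - A.card) =
      ∑ v ∈ A' \ A, (y v - 1) - ∑ v ∈ A \ A', (y v - 1) := by
    rw [e1 A', e1 A, e2, e3]
    ring
  rw [e4]
  have b1 : |∑ v ∈ A' \ A, (y v - 1)| ≤ δ * (A' \ A).card := by
    refine (Finset.abs_sum_le_sum_abs _ _).trans ?_
    refine (Finset.sum_le_sum fun v hv => hA' v (Finset.mem_sdiff.1 hv).1).trans ?_
    simp only [Finset.sum_const, nsmul_eq_mul]
    apply le_of_eq; ring
  have b2 : |∑ v ∈ A \ A', (y v - 1)| ≤ δ * (A \ A').card := by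
    refine (Finset.abs_sum_le_sum_abs _ _).trans ?_
    refine (Finset.sum_le_sum fun v hv => hA v (Finset.mem_sdiff.1 hv).1).trans ?_
    simp only [Finset.sum_const, nsmul_eq_mul]
    apply le_of_eq; ring
  refine (abs_sub _ _).trans ?_
  rw [mul_add]
  exact add_le_add b1 b2

end

/-- the final estimate -/
theorem fin {X δ yw D s P M r e : ℝ} (hyw : |yw - X| ≤ δ) (hyw0 : 0 ≤ yw) (hyw2 : yw ≤ 2)
    (hD : |D - (P - M)| ≤ δ * s) (hs0 : 0 ≤ s) (hs : s ≤ P + M + 2 * r) (hP : 0 ≤ P) (hM : 0 ≤ M)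
    (hPM : 1 ≤ P + M) (hδ0 : 0 ≤ δ) (hr : 3 ≤ r) (he : e ≤ X) (he1 : e ≤ 1 - X)
    (hδ : δ * (10 + 12 * r) < 2 * e) :
    0 < 2 * (yw * D) + 2 * M * (1 - δ) ^ 2 - (2 * r + 2 * P) * (2 * δ) := by
  have h1 : X * (P - M) - δ * (P + M) - 2 * δ * (P + M + 2 * r) ≤ yw * D := by
    have e1 : yw * D = X * (P - M) + (yw - X) * (P - M) + yw * (D - (P - M)) := by ring
    have e2 : -(δ * (P + M)) ≤ (yw - X) * (P - M) := by
      have h2 : |(yw - X) * (P - M)| ≤ δ * (P + M) := by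
        rw [abs_mul]
        apply mul_le_mul hyw _ (abs_nonneg _) hδ0
        rw [abs_le]; constructor <;> linarith
      exact (abs_le.1 h2).1
    have e3 : -(2 * (δ * s)) ≤ yw * (D - (P - M)) := by
      have h2 : |yw * (D - (P - M))| ≤ 2 * (δ * s) := by
        rw [abs_mul, abs_of_nonneg hyw0]
        exact mul_le_mul hyw2 hD (abs_nonneg _) (by norm_num)
      exact (abs_le.1 h2).1
    have e4 : δ * s ≤ δ * (P + M + 2 * r) := mul_le_mul_of_nonneg_left hs hδ0
    linarith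
  have h2 : 2 * M - 4 * δ * M ≤ 2 * M * (1 - δ) ^ 2 := by
    have : 0 ≤ M * δ ^ 2 := by positivity
    nlinarith
  have h3 : e * P ≤ X * P := mul_le_mul_of_nonneg_right he hP
  have h4 : e * M ≤ (1 - X) * M := mul_le_mul_of_nonneg_right he1 hM
  have h5 : δ * (10 + 12 * r) * (P + M) < 2 * e * (P + M) :=
    mul_lt_mul_of_pos_right hδ (by linarith)
  have h6 : δ * (12 * r) ≤ δ * (12 * r) * (P + M) := le_mul_of_one_le_right (by positivity) hPM
  nlinarith

end B1C

end Pool.Agent.Work.MP_5532fa_up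

end

section

/-! # Block EB (helper68) -/

open Finset

namespace Pool.Agent.Work.MP_5532fa_up

open MP5532fa (specRad qf pE)

namespace EB

variable {V : Type} [Fintype V] {r : ℕ}

/-- sum of a function against `chi (z ∈ S)` -/
theorem sum_chi_mem (S : Finset V) (f : V → ℝ) : ∑ z, chi (z ∈ S) * f z = ∑ z ∈ S, f z := by
  classical
  unfold chi
  simp only [ite_mul, one_mul, zero_mul]
  rw [← Finset.sum_filter]
  apply Finset.sum_congr _ (fun _ _ => rfl)
  ext; simp

theorem sum_chi_eq (a : V) (f : V → ℝ) : ∑ z, chi (z = a) * f z = f a := by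
  classical
  unfold chi
  simp only [ite_mul, one_mul, zero_mul]
  rw [← Finset.sum_filter]
  have : univ.filter (fun z => z = a) = {a} := by ext; simp
  rw [this, Finset.sum_singleton]

theorem chi_and (p q : Prop) : chi (p ∧ q) = chi p * chi q := by
  unfold chi
  by_cases hp : p <;> by_cases hq : q <;> simp [hp, hq]

/-- the form of the perturbation `JE` -/
theorem JE_form (w u : V) (B : Finset V) (x y : V → ℝ) :
    ∑ a, ∑ b, JE w u B a b * (x a * y b) =
      x u * ∑ z ∈ B, y z + y u * ∑ z ∈ B, x z + x w * y u + x u * y w := by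
  classical
  unfold JE
  have h : ∀ a b, (chi (a = u ∧ b ∈ B) + chi (b = u ∧ a ∈ B) + chi (a = w ∧ b = u) +
      chi (a = u ∧ b = w)) * (x a * y b) =
      (chi (a = u) * x a) * (chi (b ∈ B) * y b) + (chi (a ∈ B) * x a) * (chi (b = u) * y b) +
      (chi (a = w) * x a) * (chi (b = u) * y b) + (chi (a = u) * x a) * (chi (b = w) * y b) := by
    intro a b
    rw [chi_and, chi_and, chi_and, chi_and]
    ring
  simp only [h, Finset.sum_add_distrib, ← Finset.mul_sum, ← Finset.sum_mul, sum_chi_eq,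
    sum_chi_mem]
  ring

/-- the rows of the perturbation `JE` -/
theorem JE_row (w u : V) (B : Finset V) (x : V → ℝ) (v : V) :
    ∑ z, JE w u B v z * x z =
      chi (v = u) * ∑ z ∈ B, x z + chi (v ∈ B) * x u + chi (v = w) * x u + chi (v = u) * x w := by
  classical
  unfold JE
  have h : ∀ b, (chi (v = u ∧ b ∈ B) + chi (b = u ∧ v ∈ B) + chi (v = w ∧ b = u) +
      chi (v = u ∧ b = w)) * x b =
      chi (v = u) * (chi (b ∈ B) * x b) + chi (v ∈ B) * (chi (b = u) * x b) +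
      chi (v = w) * (chi (b = u) * x b) + chi (v = u) * (chi (b = w) * x b) := by
    intro b
    rw [chi_and, chi_and, chi_and, chi_and]
    ring
  simp only [h, Finset.sum_add_distrib, ← Finset.mul_sum, sum_chi_eq, sum_chi_mem]

end EB

end Pool.Agent.Work.MP_5532fa_up

end
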