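import Mathlib
import Pool.Agent.Work.MP_5532fa_full.P01

section

open Finset

namespace Pool.Agent.Work.MP_5532fa_up

namespace ACC0

section
variable {V : Type} [Fintype V]

theorem split (H : Finset V) (f : V → ℝ) : ∑ v, f v = ∑ v ∈ H, f v + ∑ v ∈ out H, f v := by
  classical
  have h : (univ : Finset V) = H ∪ out H := by
    ext v; simp [mem_out, em]
  have hd : Disjoint H (out H) := by
    rw [Finset.disjoint_left]; intro v hv hv'
    exact mem_out.mp hv' hv
  rw [h, Finset.sum_union hd]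

theorem restr (H : Finset V) (f : V → ℝ) (h : ∀ v, v ∉ H → f v = 0) :
    ∑ v, f v = ∑ v ∈ H, f v := by
  rw [split H f]
  have : ∑ v ∈ out H, f v = 0 := Finset.sum_eq_zero fun v hv => h v (mem_out.mp hv)
  rw [this, add_zero]

omit [Fintype V] in
/-- sum over the neighbours -/
theorem sum_nb (G : SimpleGraph V) (S : Finset V) (u : V) (f : V → ℝ) :
    ∑ v ∈ S, ad G u v * f v = ∑ v ∈ nb G S u, f v := by
  classical
  have h : ∑ v ∈ nb G S u, f v = ∑ v ∈ S.filter (fun v => G.Adj u v), f v := by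
    apply Finset.sum_congr _ fun _ _ => rfl
    ext v; rw [mem_nb, Finset.mem_filter]
  rw [h, Finset.sum_filter]
  refine Finset.sum_congr rfl fun v _ => ?_
  by_cases hv : G.Adj u v
  · rw [if_pos hv]; unfold ad; rw [chi_pos hv, one_mul]
  · rw [if_neg hv]; unfold ad; rw [chi_neg hv, zero_mul]

theorem sum_dg_le (G : SimpleGraph V) (H : Finset V) :
    ∑ v ∈ out H, (dg G H v : ℝ) ≤ eo G H := by
  classical
  have h1 : ∑ v ∈ out H, dg G H v ≤ eo G H := by
    have h2 : ∑ v ∈ out H, dg G H v = ((out H).sigma (fun v => nb G H v)).card := by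
      rw [Finset.card_sigma]; rfl
    rw [h2]
    unfold eo
    apply Finset.card_le_card_of_injOn (fun e => (e.1, e.2))
    · intro e he
      rw [Finset.mem_coe, Finset.mem_sigma, mem_out, mem_nb] at he
      rw [Finset.mem_coe, Finset.mem_filter]
      exact ⟨Finset.mem_univ _, he.2.2, he.1⟩
    · rintro ⟨a, b⟩ _ ⟨a', b'⟩ _ hab
      simp only [Prod.mk.injEq] at hab
      obtain ⟨rfl, rfl⟩ := hab
      rfl
  exact_mod_cast h1

omit [Fintype V] in
theorem mis_le {r : ℕ} (G : SimpleGraph V) (H : Finset V) (c : V → Fin r) (x : V → ℝ) (b : ℝ)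
    (hb : 0 ≤ b) (hx : ∀ v ∈ H, b ≤ x v) :
    b ^ 2 * mis G H c ≤ ∑ u ∈ H, ∑ v ∈ H, chi (c u ≠ c v ∧ ¬ G.Adj u v) * (x u * x v) := by
  classical
  rw [← Finset.sum_product' H H (fun u v => chi (c u ≠ c v ∧ ¬ G.Adj u v) * (x u * x v))]
  have h1 : ∑ e ∈ H ×ˢ H, chi (c e.1 ≠ c e.2 ∧ ¬ G.Adj e.1 e.2) * (x e.1 * x e.2) =
      ∑ e ∈ (H ×ˢ H).filter (fun e => c e.1 ≠ c e.2 ∧ ¬ G.Adj e.1 e.2), x e.1 * x e.2 := by
    rw [Finset.sum_filter]
    refine Finset.sum_congr rfl fun e _ => ?_
    by_cases he : c e.1 ≠ c e.2 ∧ ¬ G.Adj e.1 e.2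
    · rw [if_pos he, chi_pos he, one_mul]
    · rw [if_neg he, chi_neg he, zero_mul]
  rw [h1]
  have h2 : (mis G H c : ℝ) =
      (((H ×ˢ H).filter (fun e => c e.1 ≠ c e.2 ∧ ¬ G.Adj e.1 e.2)).card : ℝ) := by
    unfold mis
    congr 1
  rw [h2]
  have h3 := Finset.card_nsmul_le_sum
    ((H ×ˢ H).filter (fun e => c e.1 ≠ c e.2 ∧ ¬ G.Adj e.1 e.2)) (fun e => x e.1 * x e.2) (b ^ 2)
    (by
      intro e he
      rw [Finset.mem_filter, Finset.mem_product] at he
      have h4 := hx e.1 he.1.1
      have h5 := hx e.2 he.1.2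
      calc b ^ 2 = b * b := by ring
        _ ≤ x e.1 * x e.2 := mul_le_mul h4 h5 hb (hb.trans h4))
  rw [nsmul_eq_mul] at h3
  linarith

end

end ACC0

open ACC0 in
theorem blk_ACC0 : Stmt_ACC0 := by
  intro r η K hr hη hη1 hK
  have hK2 : 1 ≤ K ^ 2 := one_le_pow₀ hK
  refine ⟨16 * K ^ 2, by linarith, ?_⟩
  intro V _ G x lam t c H mu hpv hHD ht hmu
  classical
  have ht0 := hHD.tpos
  set s : ℝ := √t with hs
  have hs0 : 0 < s := Real.sqrt_pos.mpr ht0
  have hss : s ^ 2 = t := Real.sq_sqrt ht0.le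
  have hK0 : 0 < K := by linarith
  -- smallness
  have hKs : K * s ≤ 1 / 4 := by
    by_contra h
    push Not at h
    have h1 : (1 / 4 : ℝ) ^ 2 < (K * s) ^ 2 := pow_lt_pow_left₀ h (by norm_num) (by norm_num)
    rw [mul_pow, hss] at h1
    linarith
  have hs1 : s ≤ 1 / 4 := by
    have : s ≤ K * s := by nlinarith
    linarith
  have hts : t ≤ s := by
    rw [← hss]; nlinarith
  have hlam0 : 0 < lam := by
    by_contra h
    push Not at h
    have h1 := hHD.lamt2
    nlinarith
  have hlt := hHD.lamt2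
  -- the parts of the quadratic form
  set tau : ℝ := ∑ v ∈ out H, x v ^ 2 with htau
  have htau0 : 0 ≤ tau := Finset.sum_nonneg fun v _ => sq_nonneg _
  have htauK : tau ≤ K * t := hHD.rest
  have htau1 : tau ≤ 1 / 16 := by
    have : K * t = (K * s) * s := by rw [← hss]; ring
    have h2 : (K * s) * s ≤ 1 / 4 * (1 / 4) := mul_le_mul hKs hs1 hs0.le (by norm_num)
    linarith
  have hH1 : ∑ v ∈ H, x v ^ 2 = 1 - tau := by
    have := split H (fun v => x v ^ 2)
    rw [hpv.unit] at this
    linarith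
  set A : ℝ := ∑ u ∈ H, ∑ v ∈ H, ad G u v * (x u * x v) with hA
  set Bq : ℝ := ∑ u ∈ out H, ∑ v ∈ H, ad G u v * (x u * x v) with hBq
  set Cq : ℝ := ∑ u ∈ out H, ∑ v ∈ out H, ad G u v * (x u * x v) with hCq
  have hHU : ∑ u ∈ H, ∑ v ∈ out H, ad G u v * (x u * x v) = Bq := by
    rw [hBq, Finset.sum_comm]
    refine Finset.sum_congr rfl fun v _ => Finset.sum_congr rfl fun u _ => ?_
    rw [ad_comm G u v]; ring
  have h1 : lam = A + Bq + (Bq + Cq) := by
    rw [← hpv.form, split H]
    have e1 : ∑ u ∈ H, ∑ v, ad G u v * (x u * x v) = A + Bq := by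
      rw [← hHU, hA, ← Finset.sum_add_distrib]
      exact Finset.sum_congr rfl fun u _ => split H _
    have e2 : ∑ u ∈ out H, ∑ v, ad G u v * (x u * x v) = Bq + Cq := by
      rw [hBq, hCq, ← Finset.sum_add_distrib]
      exact Finset.sum_congr rfl fun u _ => split H _
    rw [e1, e2]
  have h2 : lam * tau = Bq + Cq := by
    rw [htau, hBq, hCq, ← Finset.sum_add_distrib, Finset.mul_sum]
    refine Finset.sum_congr rfl fun u _ => ?_
    rw [← split H (fun v => ad G u v * (x u * x v))]
    have : ∑ v, ad G u v * (x u * x v) = x u * ∑ v, ad G u v * x v := by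
      rw [Finset.mul_sum]; exact Finset.sum_congr rfl fun v _ => by ring
    rw [this, hpv.eig]; ring
  have h3 : lam * (1 - tau) = A + Bq := by rw [mul_sub, h2, mul_one]; linarith
  -- the part inside `H`
  have hAe : A = ∑ u ∈ H, ∑ v ∈ H, chi (c u ≠ c v) * (x u * x v) -
      ∑ u ∈ H, ∑ v ∈ H, chi (c u ≠ c v ∧ ¬ G.Adj u v) * (x u * x v) := by
    rw [hA, ← Finset.sum_sub_distrib]
    refine Finset.sum_congr rfl fun u hu => ?_
    rw [← Finset.sum_sub_distrib]
    refine Finset.sum_congr rfl fun v hv => ?_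
    by_cases hadj : G.Adj u v
    · have hc : c u ≠ c v := fun h => hHD.ind u hu v hv h hadj
      unfold ad
      rw [chi_pos hadj, chi_pos hc, chi_neg (fun h => h.2 hadj)]
      ring
    · by_cases hc : c u ≠ c v
      · unfold ad
        rw [chi_neg hadj, chi_pos hc, chi_pos ⟨hc, hadj⟩]
        ring
      · unfold ad
        rw [chi_neg hadj, chi_neg hc, chi_neg (fun h => hc h.1)]
        ring
  have hM0 : ∑ u ∈ H, ∑ v ∈ H, chi (c u ≠ c v) * (x u * x v) ≤ mu * (1 - tau) := by
    have h4 := hmu (fun v => chi (v ∈ H) * x v)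
    have e1 : ∑ u, ∑ v, chi (u ∈ H ∧ v ∈ H ∧ c u ≠ c v) *
        ((chi (u ∈ H) * x u) * (chi (v ∈ H) * x v)) =
        ∑ u ∈ H, ∑ v ∈ H, chi (c u ≠ c v) * (x u * x v) := by
      rw [restr H]
      · refine Finset.sum_congr rfl fun u hu => ?_
        rw [restr H]
        · refine Finset.sum_congr rfl fun v hv => ?_
          rw [chi_pos hu, chi_pos hv, one_mul, one_mul]
          congr 1
          exact chi_congr ⟨fun h => h.2.2, fun h => ⟨hu, hv, h⟩⟩
        · intro v hv
          rw [chi_neg (fun h => hv h.2.1), zero_mul]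
      · intro u hu
        apply Finset.sum_eq_zero
        intro v _
        rw [chi_neg (fun h => hu h.1), zero_mul]
    have e2 : ∑ v, (chi (v ∈ H) * x v) ^ 2 = 1 - tau := by
      rw [← hH1, restr H]
      · refine Finset.sum_congr rfl fun v hv => ?_
        rw [chi_pos hv, one_mul]
      · intro v hv
        rw [chi_neg hv]; ring
    rw [e1, e2] at h4
    exact h4
  have hMs : (1 - η) ^ 2 * t * mis G H c ≤
      ∑ u ∈ H, ∑ v ∈ H, chi (c u ≠ c v ∧ ¬ G.Adj u v) * (x u * x v) := by
    have h4 := mis_le G H c x ((1 - η) * s) (by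
      have : 0 ≤ 1 - η := by linarith
      positivity) hHD.big
    have e1 : ((1 - η) * s) ^ 2 = (1 - η) ^ 2 * t := by rw [mul_pow, hss]
    rw [e1] at h4
    exact h4
  -- the crossing part
  set Sq : ℝ := ∑ v ∈ out H, (dg G H v : ℝ) ^ 2 with hSq
  set Sd : ℝ := ∑ v ∈ out H, (dg G H v : ℝ) with hSd
  have hSq0 : 0 ≤ Sq := Finset.sum_nonneg fun v _ => sq_nonneg _
  have hSd0 : 0 ≤ Sd := Finset.sum_nonneg fun v _ => Nat.cast_nonneg _
  have hSdK : Sd ≤ K / t := (sum_dg_le G H).trans hHD.eout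
  have hBle : Bq ≤ (s * (1 + K * s)) / lam * (s * Sq + K * Sd) := by
    have h4 : ∀ u ∈ out H, ∑ v ∈ H, ad G u v * (x u * x v) ≤
        (s * (1 + K * s)) / lam * (s * (dg G H u : ℝ) ^ 2 + K * dg G H u) := by
      intro u _
      have e1 : ∑ v ∈ H, ad G u v * (x u * x v) = x u * ∑ v ∈ nb G H u, x v := by
        rw [← sum_nb, Finset.mul_sum]
        exact Finset.sum_congr rfl fun v _ => by ring
      rw [e1]
      have h5 : ∑ v ∈ nb G H u, x v ≤ dg G H u * (s * (1 + K * s)) := by
        have := Finset.sum_le_card_nsmul (nb G H u) x (s * (1 + K * s)) (fun v _ => hHD.xmax v)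
        rw [nsmul_eq_mul] at this
        exact this
      have h6 : x u ≤ (s * dg G H u + K) / lam := by
        rw [le_div_iff₀ hlam0]
        have := (abs_le.mp (hHD.all u)).2
        linarith
      have hdg : (0 : ℝ) ≤ dg G H u := Nat.cast_nonneg _
      have h7 : 0 ≤ (s * dg G H u + K) / lam := by positivity
      calc x u * ∑ v ∈ nb G H u, x v
          ≤ x u * (dg G H u * (s * (1 + K * s))) := mul_le_mul_of_nonneg_left h5 (hpv.nn u)
        _ ≤ (s * dg G H u + K) / lam * (dg G H u * (s * (1 + K * s))) :=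
            mul_le_mul_of_nonneg_right h6 (by positivity)
        _ = _ := by ring
    have h5 := Finset.sum_le_sum h4
    rw [← Finset.mul_sum, Finset.sum_add_distrib, ← Finset.mul_sum, ← Finset.mul_sum] at h5
    exact h5
  have hdgmax : ∀ v, (dg G H v : ℝ) ≤ 2 * lam := by
    intro v
    have h4 := (abs_le.mp (hHD.all v)).1
    have h5 : lam * x v ≤ lam * (s * (1 + K * s)) := mul_le_mul_of_nonneg_left (hHD.xmax v) hlam0.le
    have h6 : s * dg G H v ≤ lam * (s * (1 + K * s)) + K := by linarith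
    have h7 : K ≤ lam * s * (2 * (K * s)) := by
      have : lam * s * (2 * (K * s)) = 2 * K * (lam * t) := by rw [← hss]; ring
      rw [this]
      nlinarith
    have h8 : s * dg G H v ≤ s * (2 * lam) := by
      have e1 : lam * (s * (1 + K * s)) + lam * s * (2 * (K * s)) = s * (lam * (1 + 3 * (K * s))) := by
        ring
      have h9 : s * (lam * (1 + 3 * (K * s))) ≤ s * (2 * lam) := by
        apply mul_le_mul_of_nonneg_left _ hs0.le
        have : lam * (1 + 3 * (K * s)) ≤ lam * 2 := mul_le_mul_of_nonneg_left (by linarith) hlam0.le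
        linarith
      linarith
    exact le_of_mul_le_mul_left h8 hs0
  have hSqd : Sq ≤ 2 * lam * Sd := by
    rw [hSq, hSd, Finset.mul_sum]
    apply Finset.sum_le_sum
    intro v _
    have h4 := hdgmax v
    have h5 : (0 : ℝ) ≤ dg G H v := Nat.cast_nonneg _
    calc (dg G H v : ℝ) ^ 2 = dg G H v * dg G H v := by ring
      _ ≤ 2 * lam * dg G H v := mul_le_mul_of_nonneg_right h4 h5
  -- bound for `t/lam * Sq`
  set Z : ℝ := t / lam * Sq with hZ
  have hZ0 : 0 ≤ Z := by positivity
  have hZK : Z ≤ 2 * K := by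
    have h4 : Sq ≤ 2 * lam * (K / t) := hSqd.trans (mul_le_mul_of_nonneg_left hSdK (by positivity))
    calc Z ≤ t / lam * (2 * lam * (K / t)) := mul_le_mul_of_nonneg_left h4 (by positivity)
      _ = 2 * K := by field_simp
  have hB2 : Bq ≤ Z + 6 * K ^ 2 * s := by
    have e1 : (s * (1 + K * s)) / lam * (s * Sq + K * Sd) =
        Z + K * s * Z + (1 + K * s) * (s * K * (Sd / lam)) := by
      rw [hZ, ← hss]
      field_simp
    have h4 : Sd / lam ≤ 2 * K := by
      rw [div_le_iff₀ hlam0]
      calc Sd ≤ K / t := hSdK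
        _ ≤ 2 * K * lam := by
          rw [div_le_iff₀ ht0]
          nlinarith
    have h5 : 0 ≤ Sd / lam := by positivity
    have h6 : K * s * Z ≤ K * s * (2 * K) := mul_le_mul_of_nonneg_left hZK (by positivity)
    have h7 : s * K * (Sd / lam) ≤ s * K * (2 * K) := mul_le_mul_of_nonneg_left h4 (by positivity)
    have h8 : (1 + K * s) * (s * K * (Sd / lam)) ≤ 2 * (s * K * (2 * K)) := by
      apply mul_le_mul (by linarith) h7 (by positivity) (by norm_num)
    have e2 : K * s * (2 * K) = 2 * K ^ 2 * s := by ring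
    have e3 : 2 * (s * K * (2 * K)) = 4 * K ^ 2 * s := by ring
    rw [e1] at hBle
    linarith
  -- conclusion
  set Mi : ℝ := (1 - η) ^ 2 * t * mis G H c with hMi
  have hMi0 : 0 ≤ Mi := by positivity
  have h4 : lam * (1 - tau) ≤ mu * (1 - tau) - Mi + Z + 6 * K ^ 2 * s := by
    rw [h3, hAe]; linarith
  have hu : 0 < 1 - tau := by linarith
  have h5 : lam * (1 - tau) ≤ (mu - Mi + Z + 16 * K ^ 2 * s) * (1 - tau) := by
    have h6 : tau * Z ≤ K * t * (2 * K) := mul_le_mul htauK hZK hZ0 (by positivity)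
    have h7 : K * t * (2 * K) ≤ 2 * K ^ 2 * s := by
      have : K * t * (2 * K) = 2 * K ^ 2 * t := by ring
      rw [this]
      exact mul_le_mul_of_nonneg_left hts (by positivity)
    have h8 : 0 ≤ tau * Mi := mul_nonneg htau0 hMi0
    have h9 : 16 * K ^ 2 * s * tau ≤ 16 * K ^ 2 * s * (1 / 16) :=
      mul_le_mul_of_nonneg_left htau1 (by positivity)
    have h10 : 0 ≤ K ^ 2 * s := by positivity
    have e1 : (mu - Mi + Z + 16 * K ^ 2 * s) * (1 - tau) = mu * (1 - tau) - Mi + tau * Mi + Z -
        tau * Z + 16 * K ^ 2 * s - 16 * K ^ 2 * s * tau := by ring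
    rw [e1]
    linarith
  have h6 := le_of_mul_le_mul_right h5 hu
  linarith

end Pool.Agent.Work.MP_5532fa_up

end

section

open Finset

namespace Pool.Agent.Work.MP_5532fa_up

namespace KM

/-- the elementary inequality for one term -/
theorem term (a ξ E : ℝ) (ha : 0 < a) (hx : 0 < a + ξ) (hE : ξ ≤ E) :
    1 / a - ξ / a ^ 2 + ξ ^ 2 / (a ^ 2 * (a + E)) ≤ 1 / (a + ξ) := by
  have h1 : 0 < a + E := by linarith
  have h2 : 1 / (a + ξ) = 1 / a - ξ / a ^ 2 + ξ ^ 2 / (a ^ 2 * (a + ξ)) := by
    field_simp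
    ring
  rw [h2]
  have h3 : ξ ^ 2 / (a ^ 2 * (a + E)) ≤ ξ ^ 2 / (a ^ 2 * (a + ξ)) := by
    apply div_le_div_of_nonneg_left (sq_nonneg _) (by positivity)
    exact mul_le_mul_of_nonneg_left (by linarith) (by positivity)
  linarith

end KM

theorem blk_KM : Stmt_KM := by
  intro r B hr hB
  have hr3 : (3 : ℝ) ≤ r := by exact_mod_cast hr
  have hr0 : (0 : ℝ) < r := by linarith
  refine ⟨r * B ^ 3 + r ^ 2 * B ^ 4 + 1, ?_, ?_⟩
  · have : 0 ≤ (r : ℝ) * B ^ 3 + r ^ 2 * B ^ 4 := by positivity
    linarith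
  intro n M S hn hM hS hK hb
  set K : ℝ := r * B ^ 3 + r ^ 2 * B ^ 4 + 1 with hKd
  have hB0 : 0 < B := by linarith
  have hK1 : 1 ≤ K := by
    have : 0 ≤ (r : ℝ) * B ^ 3 + r ^ 2 * B ^ 4 := by positivity
    linarith
  have hM1 : 1 ≤ M := by linarith
  have hM0 : 0 < M := by linarith
  set s : ℝ := √M with hs
  have hs0 : 0 < s := Real.sqrt_pos.mpr hM0
  have hss : s ^ 2 = M := Real.sq_sqrt hM0.le
  have hs1 : 1 ≤ s := by
    by_contra h
    push Not at h
    nlinarith
  have hal1 := al_ge hr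
  have hal2 := al_lt hr
  -- bound for `S`
  have hS0 : 0 ≤ S := by rw [hS]; exact Finset.sum_nonneg fun i _ => sq_nonneg _
  have hSB : S ≤ r * B ^ 2 * M := by
    have h1 : ∀ i ∈ (univ : Finset (Fin r)), (n i - M / r) ^ 2 ≤ B ^ 2 * M := by
      intro i _
      have h2 := hb i
      have h3 : (n i - M / r) ^ 2 ≤ (B * s) ^ 2 := by
        rw [← sq_abs]
        exact pow_le_pow_left₀ (abs_nonneg _) h2 2
      rw [mul_pow, hss] at h3
      exact h3
    have h4 := Finset.sum_le_card_nsmul _ _ _ h1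
    rw [← hS] at h4
    simp only [card_univ, Fintype.card_fin, nsmul_eq_mul] at h4
    linarith
  have hS1 : al r * S ≤ S := by
    have : al r * S ≤ 1 * S := mul_le_mul_of_nonneg_right hal2.le hS0
    linarith
  -- the value
  set e : ℝ := al r * S / M - K / s with he
  set mu : ℝ := al r * M - al r * S / M + K / s with hmu
  have hmue : mu = al r * M - e := by rw [hmu, he]; ring
  have heS : e ≤ r * B ^ 2 := by
    have h1 : al r * S / M ≤ r * B ^ 2 := by
      rw [div_le_iff₀ hM0]
      have : al r * S ≤ 1 * S := mul_le_mul_of_nonneg_right hal2.le hS0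
      linarith
    have h2 : 0 ≤ K / s := by positivity
    linarith
  have hmu0 : 0 < mu := by
    rw [hmue]
    have h1 : 2 / 3 * M ≤ al r * M := mul_le_mul_of_nonneg_right hal1 hM0.le
    have hB2 : 1 ≤ B ^ 2 := one_le_pow₀ hB
    have h2 : 2 * (r * B ^ 2) ≤ 2 / 3 * M := by
      have h3 : 3 * (r * B ^ 2) ≤ r ^ 2 * B ^ 4 := by
        have h4 : (3 : ℝ) * (r * B ^ 2) ≤ r * (r * B ^ 2) := by
          apply mul_le_mul_of_nonneg_right hr3; positivity
        have h5 : (r : ℝ) * (r * B ^ 2) ≤ r * (r * B ^ 2) * B ^ 2 := by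
          have : 0 ≤ (r : ℝ) * (r * B ^ 2) := by positivity
          have := mul_le_mul_of_nonneg_left hB2 this
          linarith
        have h6 : (r : ℝ) * (r * B ^ 2) * B ^ 2 = r ^ 2 * B ^ 4 := by ring
        linarith
      have h7 : (0 : ℝ) ≤ r * B ^ 3 := by positivity
      linarith
    have h8 : 0 < (r : ℝ) * B ^ 2 := by positivity
    linarith
  refine ⟨mu, hmu0, le_rfl, ?_⟩
  set a : ℝ := mu + M / r with ha
  have halr : al r * M = M - M / r := by unfold al; field_simp
  have hae : a = M - e := by rw [ha, hmue, halr]; ring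
  have ha0 : 0 < a := by
    have : 0 < M / r := by positivity
    linarith
  -- main inequality
  have key : e * (a * (a + B * s)) ≤ mu * S := by
    by_cases he0 : e ≤ 0
    · have h1 : 0 ≤ a * (a + B * s) := by positivity
      have h2 : 0 ≤ mu * S := by positivity
      have h3 : e * (a * (a + B * s)) ≤ 0 := mul_nonpos_of_nonpos_of_nonneg he0 h1
      linarith
    · push Not at he0
      have haM : a ≤ M := by linarith
      have h1 : a * (a + B * s) ≤ M * (M + B * s) := by
        apply mul_le_mul haM (by linarith) (by positivity) hM0.le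
      have h2 : e * (a * (a + B * s)) ≤ e * (M * (M + B * s)) :=
        mul_le_mul_of_nonneg_left h1 he0.le
      have h3 : e * (M * (M + B * s)) = al r * S * (M + B * s) - K * s * (M + B * s) := by
        rw [he]
        have : K / s * M = K * s := by rw [← hss]; field_simp
        have h4 : al r * S / M * M = al r * S := by field_simp
        calc (al r * S / M - K / s) * (M * (M + B * s))
            = (al r * S / M * M) * (M + B * s) - (K / s * M) * (M + B * s) := by ring
          _ = _ := by rw [this, h4]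
      have h5 : e ≤ S / M := by
        have h6 : al r * S / M ≤ S / M := by
          exact div_le_div_of_nonneg_right hS1 hM0.le
        have h7 : 0 ≤ K / s := by positivity
        linarith
      have h8 : S * e ≤ r ^ 2 * B ^ 4 * M := by
        have h9 : S * e ≤ S * (S / M) := mul_le_mul_of_nonneg_left h5 hS0
        have h10 : S / M ≤ r * B ^ 2 := by rw [div_le_iff₀ hM0]; exact hSB
        have h11 : S * (S / M) ≤ (r * B ^ 2 * M) * (r * B ^ 2) :=
          mul_le_mul hSB h10 (by positivity) (by positivity)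
        calc S * e ≤ (r * B ^ 2 * M) * (r * B ^ 2) := h9.trans h11
          _ = _ := by ring
      have h12 : al r * S * (B * s) ≤ r * B ^ 3 * (M * s) := by
        have h13 : al r * S ≤ r * B ^ 2 * M := hS1.trans hSB
        calc al r * S * (B * s) ≤ (r * B ^ 2 * M) * (B * s) :=
              mul_le_mul_of_nonneg_right h13 (by positivity)
          _ = _ := by ring
      have h14 : mu * S = al r * S * M - S * e := by rw [hmue]; ring
      have h15 : r ^ 2 * B ^ 4 * M ≤ r ^ 2 * B ^ 4 * (M * s) := by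
        apply mul_le_mul_of_nonneg_left _ (by positivity)
        have := mul_le_mul_of_nonneg_left hs1 hM0.le
        linarith
      have h16 : 0 ≤ K * s * (B * s) := by positivity
      have h17 : K * s * M = r * B ^ 3 * (M * s) + r ^ 2 * B ^ 4 * (M * s) + M * s := by
        rw [hKd]; ring
      have h18 : 0 < M * s := by positivity
      rw [h14]
      have h19 : al r * S * (M + B * s) = al r * S * M + al r * S * (B * s) := by ring
      have h20 : K * s * (M + B * s) = K * s * M + K * s * (B * s) := by ring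
      rw [h3, h19, h20] at h2
      linarith
  -- sum of the terms
  have hpos : ∀ i, 0 < mu + n i := fun i => by have := hn i; linarith
  have hterm : ∀ i, 1 / a - (n i - M / r) / a ^ 2 + (n i - M / r) ^ 2 / (a ^ 2 * (a + B * s)) ≤
      1 / (mu + n i) := by
    intro i
    have h1 := KM.term a (n i - M / r) (B * s) ha0 (by rw [ha]; have := hpos i; linarith)
      ((le_abs_self _).trans (hb i))
    have h2 : a + (n i - M / r) = mu + n i := by rw [ha]; ring
    rw [h2] at h1
    exact h1
  have hsum : (r : ℝ) / a + S / (a ^ 2 * (a + B * s)) ≤ ∑ i, 1 / (mu + n i) := by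
    refine le_trans (le_of_eq ?_) (Finset.sum_le_sum fun i _ => hterm i)
    have e1 : ∑ i : Fin r, (n i - M / r) = 0 := by
      rw [Finset.sum_sub_distrib, ← hM]
      simp only [sum_const, card_univ, Fintype.card_fin, nsmul_eq_mul]
      field_simp
      ring
    have e2 : ∑ i : Fin r, (n i - M / r) / a ^ 2 = 0 := by
      rw [← Finset.sum_div, e1, zero_div]
    have e3 : ∑ i : Fin r, (n i - M / r) ^ 2 / (a ^ 2 * (a + B * s)) =
        S / (a ^ 2 * (a + B * s)) := by
      rw [← Finset.sum_div, ← hS]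
    rw [Finset.sum_add_distrib, Finset.sum_sub_distrib, e2, e3]
    simp only [sum_const, card_univ, Fintype.card_fin, nsmul_eq_mul]
    ring
  have hfin : ∑ i, n i / (mu + n i) = r - mu * ∑ i, 1 / (mu + n i) := by
    rw [Finset.mul_sum]
    have : (r : ℝ) = ∑ _i : Fin r, (1 : ℝ) := by simp
    rw [this, ← Finset.sum_sub_distrib]
    refine Finset.sum_congr rfl fun i _ => ?_
    have := (hpos i).ne'
    field_simp
    ring
  rw [hfin]
  have h1 : mu * ((r : ℝ) / a + S / (a ^ 2 * (a + B * s))) ≤ mu * ∑ i, 1 / (mu + n i) :=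
    mul_le_mul_of_nonneg_left hsum hmu0.le
  have h2 : (r : ℝ) - 1 ≤ mu * ((r : ℝ) / a + S / (a ^ 2 * (a + B * s))) := by
    have h3 : mu = a - M / r := by rw [ha]; ring
    have h4 : mu * ((r : ℝ) / a) = r - M / a := by
      rw [h3]; field_simp
    have h5 : M / a - 1 = e / a := by
      have h6 : e = M - a := by linarith
      rw [h6]; field_simp
    have h6 : e / a ≤ mu * (S / (a ^ 2 * (a + B * s))) := by
      have h7 : 0 < a + B * s := by positivity
      rw [← mul_div_assoc, div_le_div_iff₀ ha0 (by positivity)]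
      calc e * (a ^ 2 * (a + B * s)) = (e * (a * (a + B * s))) * a := by ring
        _ ≤ (mu * S) * a := mul_le_mul_of_nonneg_right key ha0.le
    rw [mul_add, h4]
    linarith
  linarith

end Pool.Agent.Work.MP_5532fa_up

end
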