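import Mathlib
import Pool.Agent.Work.MP_5532fa_full.P01

section

/-!
# MP_5532fa_co, block UPX (helper83): upper bound for all numbers of edges
-/

set_option autoImplicit false

open Finset

namespace Pool.Agent.Work.MP_5532fa_up

open MP5532fa (specRad qf pE)

namespace UPX

theorem nik {r : ℕ} (hr : 3 ≤ r) {V : Type} [Fintype V] [Nonempty V] (G : SimpleGraph V)
    (free : G.CliqueFree (r + 1)) : specRad G ^ 2 ≤ al r * pE G := by
  obtain ⟨q, rfl⟩ : ∃ q, r = q + 1 := ⟨r - 1, by omega⟩
  have h := MP5532fa.nikiforov G free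
  unfold al
  push_cast
  exact h

theorem min_bound {X κ : ℝ} (h0 : 0 ≤ X) (h1 : X ≤ 1) :
    (1 - X) * min X κ ≤ 1 := by
  have h2 : min X κ ≤ 1 := (min_le_left _ _).trans h1
  have h3 : 0 ≤ 1 - X := by linarith
  calc (1 - X) * min X κ ≤ (1 - X) * 1 := mul_le_mul_of_nonneg_left h2 h3
    _ ≤ 1 := by linarith

end UPX

theorem blk_UPX (hMKC : Stmt_MKC) (hHSET : Stmt_HSET) (hACC : Stmt_ACC) (hOPT1 : Stmt_OPT1) :
    Stmt_UPX := by
  classical
  intro r δ hr hδ
  have hr3 : (3 : ℝ) ≤ r := by exact_mod_cast hr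
  have hrp : (0 : ℝ) < r := by linarith
  have hη : (0 : ℝ) < 1 / (8 * r) := by positivity
  obtain ⟨D, N1, hD, hM⟩ := hMKC r 2 hr (by norm_num)
  obtain ⟨K, hK, hH⟩ := hHSET r D (1 / (8 * r)) hr hD hη le_rfl
  obtain ⟨K', N2, hK', hA⟩ := hACC r D (1 / (8 * r)) K hr hD hη le_rfl hK
  obtain ⟨n1, hn1⟩ := exists_nat_ge (2 * K)
  obtain ⟨n2, hn2⟩ := exists_nat_ge ((2 * K' / δ) ^ 2)
  refine ⟨max (max N1 N2) (max (max n1 n2) 12), ?_⟩
  intro N hN j hj V _ G hV free hpE
  have a1 : N1 ≤ N := le_trans (le_trans (le_max_left _ _) (le_max_left _ _)) hN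
  have a2 : N2 ≤ N := le_trans (le_trans (le_max_right _ _) (le_max_left _ _)) hN
  have a3 : n1 ≤ N :=
    le_trans (le_trans (le_trans (le_max_left _ _) (le_max_left _ _)) (le_max_right _ _)) hN
  have a4 : n2 ≤ N :=
    le_trans (le_trans (le_trans (le_max_right _ _) (le_max_left _ _)) (le_max_right _ _)) hN
  have a5 : 12 ≤ N := le_trans (le_trans (le_max_right _ _) (le_max_right _ _)) hN
  have b3 : 2 * K ≤ N := hn1.trans (by exact_mod_cast a3)
  have b4 : (2 * K' / δ) ^ 2 ≤ N := hn2.trans (by exact_mod_cast a4)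
  have b5 : (12 : ℝ) ≤ N := by exact_mod_cast a5
  have hNp : (0 : ℝ) < N := by linarith
  have hal1 := al_ge hr
  have hal2 := al_lt hr
  have halp : 0 < al r := by linarith
  have haN : 0 < al r * N := by positivity
  have hX0 : 0 ≤ (j : ℝ) / (al r * N) := by positivity
  have hX1 : (j : ℝ) / (al r * N) ≤ 1 := by
    rw [div_le_one haN]
    exact hj
  have hκ1 : (1 : ℝ) - 2 / r ≤ 1 := by
    have : 0 < 2 / (r : ℝ) := by positivity
    linarith
  have hκ0 : (0 : ℝ) ≤ 1 - 2 / r := by
    have : 2 / (r : ℝ) ≤ 1 := by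
      rw [div_le_one hrp]
      linarith
    linarith
  have hjN : 0 ≤ (j : ℝ) / N := by positivity
  by_cases hlam : al r * N - 2 ≤ specRad G
  · obtain ⟨x, hx⟩ := exists_PV G
    have hC := hM N a1 j hj V G x (specRad G) free hx hpE hlam
    have hlp := hC.pos
    have hpp := hC.pe
    have ht2 : specRad G / pE G ≤ 2 / N := by
      have h1 := UPX.nik hr G free
      have h2 : (N : ℝ) / 2 ≤ specRad G := by
        have h5 := mul_le_mul_of_nonneg_right hal1 hNp.le
        linarith
      rw [div_le_div_iff₀ hpp hNp]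
      have h3 : specRad G * (N / 2) ≤ specRad G * specRad G :=
        mul_le_mul_of_nonneg_left h2 hlp.le
      rw [← sq] at h3
      have h4 : al r * pE G ≤ pE G := mul_le_of_le_one_left hpp.le hal2.le
      linarith
    have hKt : K * (specRad G / pE G) ≤ 1 := by
      have h1 : K * (specRad G / pE G) ≤ K * (2 / N) :=
        mul_le_mul_of_nonneg_left ht2 (by linarith)
      have h2 : K * (2 / N) ≤ 1 := by
        rw [mul_div_assoc', div_le_one hNp]
        linarith
      linarith
    obtain ⟨c, H, hHD⟩ := hH V G x (specRad G) _ hC hKt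
    obtain ⟨c1, c2, c3⟩ := hA N a2 j hj V G x (specRad G) _ c H hC hHD hpE
    have d1 : ∀ v ∈ out H, 0 ≤ (dg G H v : ℝ) / specRad G ∧ (dg G H v : ℝ) / specRad G < 1 := by
      intro v hv
      refine ⟨by positivity, ?_⟩
      have h1 := c3 v (mem_out.mp hv)
      linarith
    have d2 : 0 ≤ (eu G H : ℝ) / (2 * al r * N) := by positivity
    have d3 : 0 ≤ imb H c / (2 * al r * N) := by
      apply div_nonneg
      · unfold imb
        exact sum_nonneg fun i _ => sq_nonneg _
      · positivity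
    have d4 : 0 ≤ (mis G H c : ℝ) / (2 * al r * N) := by positivity
    have d5 : (1 : ℝ) - 2 / r ≤ 2 * (1 - 1 / (8 * r)) ^ 2 - 1 := by
      have h1 : (0 : ℝ) < 1 / r := by positivity
      have h2 : (2 : ℝ) / r = 2 * (1 / r) := by ring
      have h3 : (1 : ℝ) / (8 * r) = (1 / r) / 8 := by
        field_simp
      rw [h2, h3]
      nlinarith [sq_nonneg (1 / (r : ℝ))]
    have d6 : 0 ≤ K' / √(N : ℝ) := by positivity
    have hO := hOPT1 V (out H) (fun v => (dg G H v : ℝ) / specRad G)
      ((eu G H : ℝ) / (2 * al r * N)) (imb H c / (2 * al r * N))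
      ((mis G H c : ℝ) / (2 * al r * N)) ((j : ℝ) / (al r * N)) (1 - 2 / r)
      (2 * (1 - 1 / (8 * r)) ^ 2 - 1) (K' / √(N : ℝ)) ((N : ℤ) - (H.card : ℤ)) d1 d2 d3 d4 hX0 hX1
      hκ0 hκ1 d5 d6 (by push_cast; exact c1)
    have e1 : (1 - (j : ℝ) / (al r * N)) * min ((j : ℝ) / (al r * N)) (1 - 2 / r) ≤
        (al r * N + j / N - specRad G) / al r + 2 * (K' / √(N : ℝ)) := by
      refine hO.trans ?_
      have h1 := c2
      linarith
    have e2 : al r * ((1 - (j : ℝ) / (al r * N)) * min ((j : ℝ) / (al r * N)) (1 - 2 / r)) ≤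
        (al r * N + j / N - specRad G) + al r * (2 * (K' / √(N : ℝ))) := by
      calc _ ≤ al r * ((al r * N + j / N - specRad G) / al r + 2 * (K' / √(N : ℝ))) :=
            mul_le_mul_of_nonneg_left e1 halp.le
        _ = _ := by
            rw [mul_add, mul_div_cancel₀ _ halp.ne']
    have e3 : al r * (2 * (K' / √(N : ℝ))) ≤ δ := by
      have h1 : 2 * (K' / √(N : ℝ)) ≤ δ := by
        have hs : 0 < √(N : ℝ) := Real.sqrt_pos.mpr hNp
        have h2 : 2 * K' / δ ≤ √(N : ℝ) := Real.le_sqrt_of_sq_le b4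
        rw [div_le_iff₀ hδ] at h2
        rw [mul_div_assoc', div_le_iff₀ hs]
        linarith
      have h2 : 0 ≤ 2 * (K' / √(N : ℝ)) := by positivity
      exact (mul_le_of_le_one_left h2 hal2.le).trans h1
    linarith
  · push Not at hlam
    have h1 := UPX.min_bound (κ := 1 - 2 / r) hX0 hX1
    have h2 : al r * ((1 - (j : ℝ) / (al r * N)) * min ((j : ℝ) / (al r * N)) (1 - 2 / r)) ≤
        al r * 1 := mul_le_mul_of_nonneg_left h1 halp.le
    linarith

end Pool.Agent.Work.MP_5532fa_up

end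

section

/-! Block EXE: existence of type E graphs. -/

open Finset

namespace Pool.Agent.Work.MP_5532fa_up

namespace EXE

/-- arithmetic: the parameters are admissible -/
theorem arith (r : ℕ) (ε : ℝ) (hr : 3 ≤ r) (hε : 0 < ε) : ∃ N0 : ℕ, ∀ N ≥ N0, ∀ j : ℕ,
    Rg r ε N j → 2 * r ≤ N ∧ 2 * r ≤ j ∧ (j : ℝ) + 2 * (N / r) + r + 1 ≤ N ∧
      ((N / r : ℕ) : ℝ) ≤ (N : ℝ) / r := by
  obtain ⟨N0, hN0⟩ := exists_nat_ge ((2 * (r : ℝ) + 2) / ε + 2 * r)
  refine ⟨N0, fun N hN j hj => ?_⟩
  obtain ⟨h1, h2⟩ := hj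
  have hr' : (3 : ℝ) ≤ r := by exact_mod_cast hr
  have hNr : (N0 : ℝ) ≤ N := by exact_mod_cast hN
  have h3 : (2 * (r : ℝ) + 2) / ε ≤ N := by
    have : (0 : ℝ) ≤ 2 * r := by linarith
    linarith
  have h4 : 2 * (r : ℝ) + 2 ≤ ε * N := by
    rw [div_le_iff₀ hε] at h3
    linarith
  have h5 : 2 * (r : ℝ) ≤ N := by
    have : (0 : ℝ) ≤ (2 * (r : ℝ) + 2) / ε := by positivity
    linarith
  have h6 : 2 * (r : ℝ) ≤ j := by linarith
  refine ⟨by exact_mod_cast h5, by exact_mod_cast h6, ?_, Nat.cast_div_le⟩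
  have hN : (0 : ℝ) ≤ N := Nat.cast_nonneg _
  have h7 : 0 ≤ 1 - 2 / (r : ℝ) := by
    have : 2 / (r : ℝ) ≤ 1 := by
      rw [div_le_one (by linarith)]
      linarith
    linarith
  have h8 : (1 - 2 / (r : ℝ)) * al r ≤ (1 - 2 / (r : ℝ)) :=
    mul_le_of_le_one_right h7 (al_lt hr).le
  have h9 : ((1 - 2 / (r : ℝ)) * al r - ε) * N ≤ ((1 - 2 / (r : ℝ)) - ε) * N :=
    mul_le_mul_of_nonneg_right (by linarith) hN
  have h10 : ((1 - 2 / (r : ℝ)) - ε) * N = N - 2 * (N / r) - ε * N := by ring
  linarith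

theorem a_le {r : ℕ} {n a : Fin r → ℕ} {P : Finset (Fin r)} {p0 : ℕ}
    (hn : ∀ i, 2 ≤ n i) (hp0 : p0 ≤ 2) (haP : ∀ i, i ∈ P → a i = p0)
    (haQ : ∀ i, i ∉ P → 1 ≤ a i ∧ a i ≤ n i) (i : Fin r) : a i ≤ n i := by
  by_cases hi : i ∈ P
  · rw [haP i hi]
    exact hp0.trans (hn i)
  · exact (haQ i hi).2

end EXE

open EXE in
theorem blk_EXE (h1 : Stmt_PARX) (h2 : Stmt_EMB) : Stmt_EXE := by
  classical
  intro r ε hr hε
  obtain ⟨N0, hN0⟩ := arith r ε hr hε
  refine ⟨N0, fun N hN j hj V _ hV => ?_⟩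
  obtain ⟨b1, b2, b3, b4⟩ := hN0 N hN j hj
  have c1 : r ≤ j := by omega
  have hr0 : (0 : ℝ) < r := by
    have : (3 : ℝ) ≤ r := by exact_mod_cast hr
    linarith
  have hNr0 : (0 : ℝ) ≤ (N : ℝ) / r := by positivity
  have c2 : j - r + 1 * (N / r + 1) ≤ N := by
    have e : ((j - r + 1 * (N / r + 1) : ℕ) : ℝ) ≤ (N : ℝ) := by
      push_cast [Nat.cast_sub c1]
      linarith
    exact_mod_cast e
  obtain ⟨n, a, P, hP, hsn, hsa, hn2, hbal, htop, haP, haQ, hpl⟩ :=
    h1 r 1 0 N (j - r) hr (by omega) b1 (by omega) c2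
  have hle := a_le hn2 (by norm_num) haP (fun i hi => haQ i hi)
  obtain ⟨H, c, w, u, A, hwu, hw, hu, hA, hH, hcH, hcA⟩ :=
    h2 r N n a V (by omega) hsn hle hV
  obtain ⟨i0, rfl⟩ := Finset.card_eq_one.1 hP
  have hA0 : cl A c i0 = ∅ := by
    rw [← Finset.card_eq_zero, hcA, haP i0 (by simp)]
  -- a class which is not full
  have hk : ∃ k, k ≠ i0 ∧ a k < n k := by
    by_contra hcon
    push Not at hcon
    have e1 : ∀ i, i ≠ i0 → a i = n i := fun i hi => le_antisymm (hle i) (hcon i hi)
    have e2 : ∑ i, a i + n i0 = N := by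
      rw [← hsn, ← Finset.add_sum_erase _ a (Finset.mem_univ i0),
        ← Finset.add_sum_erase _ n (Finset.mem_univ i0), haP i0 (by simp),
        Finset.sum_congr rfl (fun i hi => e1 i (Finset.ne_of_mem_erase hi))]
      ring
    have e3 : r * n i0 ≤ N + r := by
      have : ∑ _i : Fin r, n i0 ≤ ∑ i, (n i + 1) := Finset.sum_le_sum fun i _ => hbal i0 i
      rw [Finset.sum_const, Finset.card_univ, Fintype.card_fin, Finset.sum_add_distrib, hsn,
        smul_eq_mul] at this
      simpa using this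
    have e4 : (n i0 : ℝ) ≤ (N : ℝ) / r + 1 := by
      have : (r : ℝ) * n i0 ≤ N + r := by exact_mod_cast e3
      rw [← sub_le_iff_le_add, le_div_iff₀ hr0]
      linarith
    have e5 : (j : ℝ) - r + n i0 = N := by
      have : j - r + 1 * 0 + n i0 = N := by rw [← hsa]; exact e2
      have : ((j - r + 1 * 0 + n i0 : ℕ) : ℝ) = N := by exact_mod_cast this
      push_cast [Nat.cast_sub c1] at this
      linarith
    linarith
  obtain ⟨k, hk0, hkn⟩ := hk
  have hbk : ∃ b, b ∈ cl H c k ∧ b ∉ A := by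
    by_contra hcon
    push Not at hcon
    have : cl H c k ⊆ cl A c k := fun v hv => mem_cl.2 ⟨hcon v hv, (mem_cl.1 hv).2⟩
    have := Finset.card_le_card this
    rw [hcH, hcA] at this
    omega
  obtain ⟨bk, hbk1, hbk2⟩ := hbk
  have hne : ∀ i, i ≠ i0 → (cl A c i).Nonempty := by
    intro i hi
    rw [← Finset.card_pos, hcA]
    exact (haQ i (by simpa using hi)).1
  have hb : ∀ i, ∃ b, i ≠ i0 → (b ∈ H ∧ c b = i ∧ (i ≠ k → b ∈ A) ∧ (i = k → b = bk)) := by
    intro i
    by_cases hi : i = i0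
    · exact ⟨bk, fun h => absurd hi h⟩
    by_cases hik : i = k
    · exact ⟨bk, fun _ => ⟨(mem_cl.1 hbk1).1, (mem_cl.1 hbk1).2.trans hik.symm,
        fun h => absurd hik h, fun _ => rfl⟩⟩
    · obtain ⟨b, hb⟩ := hne i hi
      exact ⟨b, fun _ => ⟨hA (mem_cl.1 hb).1, (mem_cl.1 hb).2, fun _ => (mem_cl.1 hb).1,
        fun h => absurd h hik⟩⟩
  choose b hb using hb
  set B : Finset V := (Finset.univ.erase i0).image b with hB
  have hmB : ∀ v, v ∈ B ↔ ∃ i, i ≠ i0 ∧ b i = v := by
    intro v
    rw [hB]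
    simp
  have hclB : ∀ i, i ≠ i0 → cl B c i = {b i} := by
    intro i hi
    ext v
    rw [mem_cl, hmB, Finset.mem_singleton]
    constructor
    · rintro ⟨⟨i', hi', rfl⟩, hc⟩
      rw [(hb i' hi').2.1] at hc
      rw [hc]
    · rintro rfl
      exact ⟨⟨i, hi, rfl⟩, (hb i hi).2.1⟩
  have hbkk : b k = bk := (hb k hk0).2.2.2 rfl
  have hbkB : bk ∈ B := (hmB bk).2 ⟨k, hk0, hbkk⟩
  refine ⟨gE H c w u A B, H, c, w, u, A, B, i0, ?_, ?_, ?_, ?_, ?_, ?_⟩
  · apply gE_WE hH hw hu hwu hA
    · intro v hv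
      obtain ⟨i, hi, rfl⟩ := (hmB v).1 hv
      exact (hb i hi).1
    · exact hA0
    · rw [Finset.eq_empty_iff_forall_notMem]
      intro v hv
      obtain ⟨hv1, hv2⟩ := mem_cl.1 hv
      obtain ⟨i, hi, rfl⟩ := (hmB v).1 hv1
      exact hi ((hb i hi).2.1.symm.trans hv2)
    · exact hne
    · intro i hi
      rw [hclB i hi, Finset.card_singleton]
    · intro hBA
      exact hbk2 (hBA hbkB)
  · refine ⟨bk, hbkB, hbk2, ?_⟩
    intro v hv hvA
    obtain ⟨i, hi, rfl⟩ := (hmB v).1 hv
    by_cases hik : i = k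
    · rw [hik, hbkk]
    · exact absurd ((hb i hi).2.2.1 hik) hvA
  · have := sum_card_cl A c
    rw [← this]
    simp only [hcA]
    rw [hsa]
    omega
  · intro i k
    rw [hcH, hcH]
    exact hbal i k
  · intro i k hi hk
    rw [hcH, hcH, hcA, hcA]
    exact hpl i k hi hk
  · intro i k hi hk
    rw [hcH, hcH]
    exact htop i k hi hk

end Pool.Agent.Work.MP_5532fa_up

end

section

/-!
# Block MV1: exchange of one neighbour of `w`
-/

set_option autoImplicit false

open Finset

namespace Pool.Agent.Work.MP_5532fa_up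

open MP5532fa (specRad qf pE)

namespace MV1

variable {V : Type} [Fintype V] {r : ℕ}

theorem dbl1 (A : Finset V) (w : V) (x y : V → ℝ) :
    ∑ p, ∑ q, chi (p = w ∧ q ∈ A) * (x p * y q) = x w * ∑ v ∈ A, y v := by
  classical
  rw [Finset.sum_eq_single w]
  · rw [Finset.mul_sum, ← Finset.sum_subset (Finset.subset_univ A)]
    · refine Finset.sum_congr rfl fun v hv => ?_
      rw [chi_pos ⟨rfl, hv⟩, one_mul]
    · intro v _ hv
      rw [chi_neg (fun h => hv h.2), zero_mul]
  · intro p _ hp
    refine Finset.sum_eq_zero fun q _ => ?_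
    rw [chi_neg (fun h => hp h.1), zero_mul]
  · intro h
    exact absurd (Finset.mem_univ w) h

theorem dbl2 (A : Finset V) (w : V) (x y : V → ℝ) :
    ∑ p, ∑ q, chi (q = w ∧ p ∈ A) * (x p * y q) = y w * ∑ v ∈ A, x v := by
  rw [Finset.sum_comm, ← dbl1 A w y x]
  refine Finset.sum_congr rfl fun p _ => Finset.sum_congr rfl fun q _ => ?_
  ring

end MV1

theorem blk_MV1 (hCSE : Stmt_CSE) : Stmt_MV1 := by
  classical
  intro r V _ G G' H c w A A' J a b x y lam lam' hF hF' hP hP' hlam hlam' hxw hyw haA hbH hbA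
    hA' hJ hx hy
  by_contra hcon
  push Not at hcon
  have haH : a ∈ H := hF.hA haA
  have hab : a ≠ b := fun h => hbA (h ▸ haA)
  have haA' : a ∉ A' := fun h => by
    rcases (hA' a).1 h with h1 | h1
    · exact h1.2 rfl
    · exact hab h1
  have hbA' : b ∈ A' := (hA' b).2 (Or.inr rfl)
  have hsum : ∀ f : V → ℝ, ∑ v ∈ A', f v = ∑ v ∈ A, f v - f a + f b := by
    intro f
    have h1 : A' = insert b (A.erase a) := by
      ext v
      rw [hA', Finset.mem_insert, Finset.mem_erase]
      tauto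
    have h2 : b ∉ A.erase a := fun h => hbA (Finset.mem_of_mem_erase h)
    rw [h1, Finset.sum_insert h2, ← Finset.add_sum_erase A f haA]
    ring
  have hpair := pairing hP hP'
  have hdiff : ∑ p, ∑ q, (ad G' p q - ad G p q) * (x p * y q) =
      x w * (y b - y a) + y w * (x b - x a) := by
    have h1 : ∀ p q, (ad G' p q - ad G p q) * (x p * y q) =
        chi (p = w ∧ q ∈ A') * (x p * y q) - chi (p = w ∧ q ∈ A) * (x p * y q) +
          (chi (q = w ∧ p ∈ A') * (x p * y q) - chi (q = w ∧ p ∈ A) * (x p * y q)) := by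
      intro p q
      rw [hF.adj p q, hF'.adj p q]
      ring
    rw [Finset.sum_congr rfl fun p _ => Finset.sum_congr rfl fun q _ => h1 p q]
    simp only [Finset.sum_add_distrib, Finset.sum_sub_distrib]
    rw [MV1.dbl1, MV1.dbl1, MV1.dbl2, MV1.dbl2, hsum x, hsum y]
    ring
  rw [hdiff] at hpair
  obtain ⟨e1, -, -, -⟩ := hCSE r V G H c w A J x lam hF hP
  obtain ⟨f1, -, -, -⟩ := hCSE r V G' H c w A' J y lam' hF' hP'
  have ea := e1 a haH
  have eb := e1 b hbH
  have fa := f1 a haH
  have fb := f1 b hbH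
  rw [chi_pos haA] at ea
  rw [chi_neg hbA] at eb
  rw [chi_neg haA'] at fa
  rw [chi_pos hbA'] at fb
  have hJx : ∑ z, J a z * x z = ∑ z, J b z * x z :=
    Finset.sum_congr rfl fun z _ => by rw [hJ z]
  have hJy : ∑ z, J a z * y z = ∑ z, J b z * y z :=
    Finset.sum_congr rfl fun z _ => by rw [hJ z]
  have hX : lam * (x b - x a) = cs x H c (c a) - cs x H c (c b) - x w := by
    linear_combination eb - ea - hJx
  have hY : lam' * (y b - y a) = cs y H c (c a) - cs y H c (c b) + y w := by
    linear_combination fb - fa - hJy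
  have hYpos : 0 < y b - y a := by
    by_contra h
    push Not at h
    have h1 : lam' * (y b - y a) ≤ 0 := mul_nonpos_of_nonneg_of_nonpos hlam'.le h
    rw [hY] at h1
    linarith
  have hxy : 0 ≤ ∑ v, x v * y v :=
    Finset.sum_nonneg fun v _ => mul_nonneg (hP.nn v) (hP'.nn v)
  have h1 : x w * (y b - y a) + y w * (x b - x a) ≤ 0 := by
    rw [hpair]
    exact mul_nonpos_of_nonpos_of_nonneg (by linarith) hxy
  have h2 : lam * (x w * (y b - y a) + y w * (x b - x a)) ≤ 0 :=
    mul_nonpos_of_nonneg_of_nonpos hlam.le h1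
  have h3 : lam' * (x w * (y b - y a)) ≤ lam * (x w * (y b - y a)) :=
    mul_le_mul_of_nonneg_right hcon (mul_nonneg hxw.le hYpos.le)
  have h4 : lam' * (x w * (y b - y a)) = x w * (cs y H c (c a) - cs y H c (c b) + y w) := by
    rw [← hY]; ring
  have h5 : lam * (y w * (x b - x a)) = y w * (cs x H c (c a) - cs x H c (c b) - x w) := by
    rw [← hX]; ring
  have h6 : 0 < y w * (cs x H c (c a) - cs x H c (c b)) := mul_pos hyw (by linarith)
  have h7 : 0 ≤ x w * (cs y H c (c a) - cs y H c (c b)) := mul_nonneg hxw.le (by linarith)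
  nlinarith

end Pool.Agent.Work.MP_5532fa_up

end

section

/-!
# MP_5532fa_co, upgrade: block E3 (type E: the class without neighbours of `w` is a largest one)
-/

open Finset

namespace Pool.Agent.Work.MP_5532fa_up

open MP5532fa (specRad qf pE)

namespace E3

theorem chi_and (p q : Prop) : chi (p ∧ q) = chi p * chi q := by
  by_cases hp : p <;> by_cases hq : q
  · rw [chi_pos hp, chi_pos hq, chi_pos ⟨hp, hq⟩, one_mul]
  · rw [chi_pos hp, chi_neg hq, chi_neg (fun h => hq h.2), mul_zero]
  · rw [chi_neg hp, chi_neg (fun h => hp h.1), zero_mul]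
  · rw [chi_neg hp, chi_neg (fun h => hp h.1), zero_mul]

section
variable {V : Type} [Fintype V] {r : ℕ}

theorem sum_chi_eq (u : V) (f : V → ℝ) : ∑ a, chi (a = u) * f a = f u := by
  classical
  rw [Finset.sum_eq_single u]
  · rw [chi_pos rfl, one_mul]
  · intro b _ hb; rw [chi_neg hb, zero_mul]
  · intro h; exact absurd (Finset.mem_univ u) h

theorem sum_chi_mem (B : Finset V) (f : V → ℝ) : ∑ b, chi (b ∈ B) * f b = ∑ b ∈ B, f b := by
  classical
  rw [← Finset.sum_subset (Finset.subset_univ B)]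
  · exact Finset.sum_congr rfl fun b hb => by rw [chi_pos hb, one_mul]
  · intro b _ hb; rw [chi_neg hb, zero_mul]

theorem sum2_mem (u : V) (B : Finset V) (x y : V → ℝ) :
    ∑ a, ∑ b, chi (a = u ∧ b ∈ B) * (x a * y b) = x u * ∑ b ∈ B, y b := by
  have h : ∀ a, ∑ b, chi (a = u ∧ b ∈ B) * (x a * y b) = chi (a = u) * (x a * ∑ b ∈ B, y b) := by
    intro a
    rw [← sum_chi_mem B y, Finset.mul_sum, Finset.mul_sum]
    exact Finset.sum_congr rfl fun b _ => by rw [chi_and]; ring
  simp only [h]
  rw [sum_chi_eq u (fun a => x a * ∑ b ∈ B, y b)]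

theorem sum2_mem' (u : V) (B : Finset V) (x y : V → ℝ) :
    ∑ a, ∑ b, chi (b = u ∧ a ∈ B) * (x a * y b) = y u * ∑ b ∈ B, x b := by
  rw [Finset.sum_comm, ← sum2_mem u B y x]
  exact Finset.sum_congr rfl fun a _ => Finset.sum_congr rfl fun b _ => by ring

theorem sum2_eq (w u : V) (x y : V → ℝ) :
    ∑ a, ∑ b, chi (a = w ∧ b = u) * (x a * y b) = x w * y u := by
  have h : ∀ a, ∑ b, chi (a = w ∧ b = u) * (x a * y b) = chi (a = w) * (x a * y u) := by
    intro a
    rw [← sum_chi_eq u y, Finset.mul_sum, Finset.mul_sum]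
    exact Finset.sum_congr rfl fun b _ => by rw [chi_and]; ring
  simp only [h]
  rw [sum_chi_eq w (fun a => x a * y u)]

theorem pair_fam {G G' : SimpleGraph V} {H : Finset V} {c : V → Fin r} {w : V} {A A' : Finset V}
    {J J' : V → V → ℝ} (h : Fam G H c w A J) (h' : Fam G' H c w A' J') (x y : V → ℝ) :
    ∑ a, ∑ b, (ad G' a b - ad G a b) * (x a * y b)
      = x w * (∑ b ∈ A', y b - ∑ b ∈ A, y b) + y w * (∑ b ∈ A', x b - ∑ b ∈ A, x b)
        + (∑ a, ∑ b, J' a b * (x a * y b) - ∑ a, ∑ b, J a b * (x a * y b)) := by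
  rw [mul_sub, mul_sub, ← sum2_mem w A' x y, ← sum2_mem w A x y, ← sum2_mem' w A' x y,
    ← sum2_mem' w A x y]
  simp only [← Finset.sum_sub_distrib, ← Finset.sum_add_distrib]
  refine Finset.sum_congr rfl fun a _ => Finset.sum_congr rfl fun b _ => ?_
  rw [h.adj, h'.adj]; ring

theorem JE_double (w u : V) (B : Finset V) (x y : V → ℝ) :
    ∑ a, ∑ b, JE w u B a b * (x a * y b)
      = x u * ∑ b ∈ B, y b + y u * ∑ b ∈ B, x b + x w * y u + x u * y w := by
  rw [← sum2_mem u B x y, ← sum2_mem' u B x y, ← sum2_eq w u x y, ← sum2_eq u w x y]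
  simp only [← Finset.sum_add_distrib]
  refine Finset.sum_congr rfl fun a _ => Finset.sum_congr rfl fun b _ => ?_
  unfold JE; ring

theorem JE_H {w u v : V} {B : Finset V} (x : V → ℝ) (hvu : v ≠ u) (hvw : v ≠ w) :
    ∑ z, JE w u B v z * x z = chi (v ∈ B) * x u := by
  have h : ∀ z, JE w u B v z * x z = chi (z = u) * (chi (v ∈ B) * x z) := by
    intro z
    have h1 : chi (v = u ∧ z ∈ B) = 0 := chi_neg (fun h => hvu h.1)
    have h2 : chi (v = w ∧ z = u) = 0 := chi_neg (fun h => hvw h.1)
    have h3 : chi (v = u ∧ z = w) = 0 := chi_neg (fun h => hvu h.1)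
    unfold JE
    rw [h1, h2, h3, chi_and]
    ring
  simp only [h]
  rw [sum_chi_eq u (fun z => chi (v ∈ B) * x z)]

theorem eigE (hFAM : Stmt_FAM) (hCSE : Stmt_CSE) (hr : 3 ≤ r) {G : SimpleGraph V} {N : ℕ}
    {H : Finset V} {c : V → Fin r} {w u : V} {A B : Finset V} {i0 : Fin r}
    (hW : WE G N H c w u A B i0) {x : V → ℝ} {lam : ℝ} (hx : PV G x lam) :
    ∀ v ∈ H, lam * x v = (∑ z ∈ H, x z - cs x H c (c v)) + chi (v ∈ A) * x w
      + chi (v ∈ B) * x u := by
  have hF := (hFAM r hr V G N H c w A).2 u B i0 hW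
  have h := (hCSE r V G H c w A (JE w u B) x lam hF hx).1
  intro v hv
  have hvu : v ≠ u := fun h => hW.hu (h ▸ hv)
  have hvw : v ≠ w := fun h => hW.hw (h ▸ hv)
  rw [h v hv, JE_H x hvu hvw]

/-- the cardinality of a finite set of vertices as a sum over the classes -/
theorem card_bound {A : Finset V} {c : V → Fin r} {k : Fin r} {m : ℕ} (hk : cl A c k = ∅)
    (h : ∀ i, i ≠ k → m ≤ (cl A c i).card) : (r - 1) * m ≤ A.card := by
  classical
  rw [← sum_card_cl A c, ← Finset.add_sum_erase _ _ (Finset.mem_univ k), hk, Finset.card_empty,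
    zero_add]
  have h1 : ∑ i ∈ (univ : Finset (Fin r)).erase k, m ≤
      ∑ i ∈ (univ : Finset (Fin r)).erase k, (cl A c i).card :=
    Finset.sum_le_sum fun i hi => h i (Finset.ne_of_mem_erase hi)
  rw [Finset.sum_const, smul_eq_mul, Finset.card_erase_of_mem (Finset.mem_univ k),
    Finset.card_univ, Fintype.card_fin] at h1
  exact h1

theorem choose_sets {S : Finset V} {m : ℕ} (p : Prop) (h1 : 1 ≤ m) (h2 : m < S.card) :
    ∃ (T : Finset V) (v : V), T ⊆ S ∧ T.card = m ∧ v ∈ S ∧ (v ∈ T ↔ p) := by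
  classical
  obtain ⟨T, hT, hc⟩ := Finset.exists_subset_card_eq h2.le
  by_cases hp : p
  · have hne : T.Nonempty := by rw [← Finset.card_pos, hc]; exact h1
    obtain ⟨v, hv⟩ := hne
    exact ⟨T, v, hT, hc, hT hv, by simp [hv, hp]⟩
  · obtain ⟨v, hv, hv'⟩ := Finset.exists_mem_notMem_of_card_lt_card (s := T) (t := S)
      (by rw [hc]; exact h2)
    exact ⟨T, v, hT, hc, hv, by simp [hv', hp]⟩

theorem swapA {H A Bk : Finset V} {c : V → Fin r} {k l : Fin r} (hkl : l ≠ k) (hA : A ⊆ H)
    (hAk : cl A c k = ∅) (hBk : Bk ⊆ cl H c k) :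
    ∃ A' : Finset V, A' ⊆ H ∧ (∀ v, v ∈ A' ↔ (v ∈ A ∧ c v ≠ l) ∨ v ∈ Bk) ∧ cl A' c l = ∅ ∧
      cl A' c k = Bk ∧ (∀ i, i ≠ k → i ≠ l → cl A' c i = cl A c i) ∧
      (∀ f : V → ℝ, ∑ v ∈ A', f v = ∑ v ∈ A, f v - ∑ v ∈ cl A c l, f v + ∑ v ∈ Bk, f v) ∧
      A'.card + (cl A c l).card = A.card + Bk.card := by
  classical
  have hAk' : ∀ v ∈ A, c v ≠ k := by
    intro v hv hc
    have : v ∈ cl A c k := mem_cl.2 ⟨hv, hc⟩
    rw [hAk] at this
    exact absurd this (Finset.notMem_empty v)
  have hBk' : ∀ v ∈ Bk, v ∈ H ∧ c v = k := fun v hv => mem_cl.1 (hBk hv)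
  have hdis : Disjoint (A.filter (fun v => c v ≠ l)) Bk := by
    rw [Finset.disjoint_left]
    intro v hv hv'
    exact hAk' v (Finset.mem_filter.1 hv).1 (hBk' v hv').2
  have hfil : ∀ f : V → ℝ, ∑ v ∈ A.filter (fun v => c v ≠ l), f v
      = ∑ v ∈ A, f v - ∑ v ∈ cl A c l, f v := by
    intro f
    have h := Finset.sum_filter_add_sum_filter_not A (fun v => c v = l) f
    unfold cl
    rw [← h]; ring
  refine ⟨A.filter (fun v => c v ≠ l) ∪ Bk, ?_, ?_, ?_, ?_, ?_, ?_, ?_⟩
  · intro v hv
    rcases Finset.mem_union.1 hv with h | h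
    · exact hA (Finset.mem_filter.1 h).1
    · exact (hBk' v h).1
  · intro v
    rw [Finset.mem_union, Finset.mem_filter]
  · rw [Finset.eq_empty_iff_forall_notMem]
    intro v hv
    obtain ⟨h, hc⟩ := mem_cl.1 hv
    rcases Finset.mem_union.1 h with h | h
    · exact (Finset.mem_filter.1 h).2 hc
    · exact hkl (hc.symm.trans (hBk' v h).2)
  · ext v
    rw [mem_cl, Finset.mem_union, Finset.mem_filter]
    constructor
    · rintro ⟨h | h, hc⟩
      · exact absurd hc (hAk' v h.1)
      · exact h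
    · intro h
      exact ⟨Or.inr h, (hBk' v h).2⟩
  · intro i hik hil
    ext v
    rw [mem_cl, mem_cl, Finset.mem_union, Finset.mem_filter]
    constructor
    · rintro ⟨h | h, hc⟩
      · exact ⟨h.1, hc⟩
      · exact absurd (hc.symm.trans (hBk' v h).2) hik
    · rintro ⟨h, hc⟩
      exact ⟨Or.inl ⟨h, fun h' => hil (hc.symm.trans h')⟩, hc⟩
  · intro f
    rw [Finset.sum_union hdis, hfil]
  · rw [Finset.card_union_of_disjoint hdis]
    have h : (A.filter (fun v => c v = l)).card + (A.filter (fun v => c v ≠ l)).card = A.card :=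
      Finset.card_filter_add_card_filter_not (s := A) (fun v => c v = l)
    unfold cl
    omega

theorem swapB {H B : Finset V} {c : V → Fin r} {k l : Fin r} {ul uk : V} (hkl : l ≠ k)
    (hB : B ⊆ H) (hBk : cl B c k = ∅) (hul : cl B c l = {ul}) (huk : uk ∈ cl H c k) :
    ∃ B' : Finset V, B' ⊆ H ∧ (∀ v, v ∈ B' ↔ (v ∈ B ∧ v ≠ ul) ∨ v = uk) ∧ cl B' c l = ∅ ∧
      cl B' c k = {uk} ∧ (∀ i, i ≠ k → i ≠ l → cl B' c i = cl B c i) ∧
      (∀ f : V → ℝ, ∑ v ∈ B', f v = ∑ v ∈ B, f v - f ul + f uk) := by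
  classical
  obtain ⟨hukH, huk'⟩ := mem_cl.1 huk
  have hBk' : ∀ v ∈ B, c v ≠ k := by
    intro v hv hc
    have : v ∈ cl B c k := mem_cl.2 ⟨hv, hc⟩
    rw [hBk] at this
    exact absurd this (Finset.notMem_empty v)
  have hulB : ul ∈ B ∧ c ul = l := by
    have : ul ∈ cl B c l := by rw [hul]; exact Finset.mem_singleton_self ul
    exact mem_cl.1 this
  have hun : ∀ v ∈ B, c v = l → v = ul := by
    intro v hv hc
    have : v ∈ cl B c l := mem_cl.2 ⟨hv, hc⟩
    rw [hul] at this
    exact Finset.mem_singleton.1 this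
  have hni : uk ∉ B.erase ul := fun h => hBk' uk (Finset.mem_of_mem_erase h) huk'
  refine ⟨insert uk (B.erase ul), ?_, ?_, ?_, ?_, ?_, ?_⟩
  · intro v hv
    rcases Finset.mem_insert.1 hv with h | h
    · rw [h]; exact hukH
    · exact hB (Finset.mem_of_mem_erase h)
  · intro v
    rw [Finset.mem_insert, Finset.mem_erase]
    tauto
  · rw [Finset.eq_empty_iff_forall_notMem]
    intro v hv
    obtain ⟨h, hc⟩ := mem_cl.1 hv
    rcases Finset.mem_insert.1 h with h | h
    · rw [h] at hc; exact hkl (hc.symm.trans huk')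
    · exact Finset.ne_of_mem_erase h (hun v (Finset.mem_of_mem_erase h) hc)
  · ext v
    rw [mem_cl, Finset.mem_insert, Finset.mem_erase, Finset.mem_singleton]
    constructor
    · rintro ⟨h | h, hc⟩
      · exact h
      · exact absurd hc (hBk' v h.2)
    · intro h
      exact ⟨Or.inl h, h ▸ huk'⟩
  · intro i hik hil
    ext v
    rw [mem_cl, mem_cl, Finset.mem_insert, Finset.mem_erase]
    constructor
    · rintro ⟨h | h, hc⟩
      · rw [h] at hc; exact absurd (hc.symm.trans huk') hik
      · exact ⟨h.2, hc⟩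
    · rintro ⟨h, hc⟩
      refine ⟨Or.inr ⟨?_, h⟩, hc⟩
      intro h'
      rw [h'] at hc
      exact hil (hc.symm.trans hulB.2)
  · intro f
    rw [Finset.sum_insert hni, ← Finset.add_sum_erase B f hulB.1]
    ring

theorem near_mono {δ δ' : ℝ} {N j : ℕ} {H A : Finset V} {c : V → Fin r} (h : Near r δ N j H A c)
    (hd : δ ≤ δ') : Near r δ' N j H A c :=
  ⟨fun i => (h.1 i).trans (mul_le_mul_of_nonneg_right hd (Nat.cast_nonneg N)),
    h.2.trans (mul_le_mul_of_nonneg_right hd (Nat.cast_nonneg N))⟩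

end

/-- the final inequality -/
theorem final {lam lam' a sg D D' xw yw xu yu P P' Q Q' ip : ℝ} (hlam : 0 < lam)
    (hle : lam' ≤ lam) (ha : 1 ≤ a) (hsg : 0 ≤ sg) (hD : 0 < D) (hD' : 0 < D')
    (hxw : 0 < xw) (hyw : 0 ≤ yw) (hxu : 0 ≤ xu) (hyu : 0 ≤ yu) (hlam' : 0 < lam')
    (hip : 0 ≤ ip)
    (hP : lam * P = a * (D - xw) - sg * xu) (hP' : lam' * P' = a * (D' + yw) + sg * yu)
    (hQ : lam * Q = D - sg * xw - xu) (hQ' : lam' * Q' = D' + sg * yw + yu)
    (hT : xw * P' + yw * P + (xu * Q' + yu * Q) = (lam' - lam) * ip) : False := by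
  have hP0 : 0 ≤ P' := by
    by_contra hneg
    push Not at hneg
    have h1 : lam' * P' < 0 := mul_neg_of_pos_of_neg hlam' hneg
    have h2 : 0 ≤ a * (D' + yw) := by positivity
    have h3 : 0 ≤ sg * yu := by positivity
    linarith
  have hQ0 : 0 ≤ Q' := by
    by_contra hneg
    push Not at hneg
    have h1 : lam' * Q' < 0 := mul_neg_of_pos_of_neg hlam' hneg
    have h3 : 0 ≤ sg * yw := by positivity
    linarith
  have e1 : lam' * P' ≤ lam * P' := mul_le_mul_of_nonneg_right hle hP0
  have e2 : lam' * Q' ≤ lam * Q' := mul_le_mul_of_nonneg_right hle hQ0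
  have f1 : xw * (a * (D' + yw) + sg * yu) ≤ xw * (lam * P') :=
    mul_le_mul_of_nonneg_left (hP' ▸ e1) hxw.le
  have f2 : xu * (D' + sg * yw + yu) ≤ xu * (lam * Q') :=
    mul_le_mul_of_nonneg_left (hQ' ▸ e2) hxu
  have g1 : yw * (lam * P) = yw * (a * (D - xw) - sg * xu) := by rw [hP]
  have g2 : yu * (lam * Q) = yu * (D - sg * xw - xu) := by rw [hQ]
  have h1 : lam * ((lam' - lam) * ip) ≤ 0 := by
    have : (lam' - lam) * ip ≤ 0 := mul_nonpos_of_nonpos_of_nonneg (by linarith) hip
    exact mul_nonpos_of_nonneg_of_nonpos hlam.le this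
  rw [← hT] at h1
  have h2 : lam * (xw * P' + yw * P + (xu * Q' + yu * Q))
      = xw * (lam * P') + yw * (lam * P) + (xu * (lam * Q') + yu * (lam * Q)) := by ring
  rw [h2, g1, g2] at h1
  have h3 : 0 < xw * a * D' := by positivity
  have h4 : 0 ≤ yw * a * D := by positivity
  have h5 : 0 ≤ xu * D' := by positivity
  have h6 : 0 ≤ yu * D := by positivity
  nlinarith

end E3

end Pool.Agent.Work.MP_5532fa_up

end

section

open Finset

namespace Pool.Agent.Work.MP_5532fa_up

namespace LC

section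
variable {V : Type} [Fintype V]

theorem greedy (G : SimpleGraph V) (r : ℕ) (S : Finset V) (f : V → Fin r)
    (hf : ∀ a ∈ S, ∀ b ∈ S, G.Adj a b → f a ≠ f b)
    (hdeg : ∀ v, v ∉ S → (nb G univ v).card < r) : G.Colorable r := by
  classical
  have h : ∀ T : Finset V, ∃ g : V → Fin r, ∀ a ∈ S ∪ T, ∀ b ∈ S ∪ T, G.Adj a b → g a ≠ g b := by
    intro T
    induction T using Finset.induction_on with
    | empty => exact ⟨f, by simpa using hf⟩
    | insert v T hv ih =>
      obtain ⟨g, hg⟩ := ih
      by_cases hvS : v ∈ S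
      · refine ⟨g, ?_⟩
        have e : S ∪ insert v T = S ∪ T := by
          ext a
          simp only [Finset.mem_union, Finset.mem_insert]
          constructor
          · rintro (h | rfl | h)
            · left; exact h
            · left; exact hvS
            · right; exact h
          · rintro (h | h)
            · left; exact h
            · right; right; exact h
        rw [e]; exact hg
      · have h1 : ((nb G univ v).image g).card < r :=
          lt_of_le_of_lt Finset.card_image_le (hdeg v hvS)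
        obtain ⟨i, hi⟩ : ∃ i : Fin r, i ∉ (nb G univ v).image g := by
          by_contra hcon
          push Not at hcon
          have : (univ : Finset (Fin r)) ⊆ (nb G univ v).image g := fun i _ => hcon i
          have := Finset.card_le_card this
          rw [Finset.card_univ, Fintype.card_fin] at this
          omega
        have hi' : ∀ a, G.Adj v a → g a ≠ i := by
          intro a ha h
          apply hi
          rw [Finset.mem_image]
          exact ⟨a, mem_nb.mpr ⟨Finset.mem_univ _, ha⟩, h⟩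
        refine ⟨Function.update g v i, ?_⟩
        have key : ∀ a, a ∈ S ∪ insert v T → a ≠ v → a ∈ S ∪ T := by
          intro a ha hav
          simp only [Finset.mem_union, Finset.mem_insert] at ha ⊢
          rcases ha with h | h | h
          · left; exact h
          · exact absurd h hav
          · right; exact h
        intro a ha b hb hab
        by_cases hav : a = v
        · subst hav
          have hba : b ≠ a := hab.ne'
          rw [Function.update_self, Function.update_of_ne hba]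
          exact (hi' b hab).symm
        · by_cases hbv : b = v
          · subst hbv
            rw [Function.update_self, Function.update_of_ne hav]
            exact hi' a hab.symm
          · rw [Function.update_of_ne hav, Function.update_of_ne hbv]
            exact hg a (key a ha hav) b (key b hb hbv) hab
  obtain ⟨g, hg⟩ := h univ
  exact ⟨SimpleGraph.Coloring.mk g fun {a b} hab => hg a (by simp) b (by simp) hab⟩

omit [Fintype V] in
theorem clique_le {G : SimpleGraph V} {r : ℕ} (h : G.CliqueFree (r + 1)) (T : Finset V)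
    (hT : ∀ a ∈ T, ∀ b ∈ T, a ≠ b → G.Adj a b) : T.card ≤ r := by
  by_contra hc
  push Not at hc
  obtain ⟨S, hS, hSc⟩ := Finset.exists_subset_card_eq (s := T) (n := r + 1) hc
  apply h S
  rw [SimpleGraph.isNClique_iff, SimpleGraph.isClique_iff]
  refine ⟨?_, hSc⟩
  intro a ha b hb hab
  exact hT a (hS ha) b (hS hb) hab

theorem dg_univ (G : SimpleGraph V) (H : Finset V) (v : V) :
    (nb G univ v).card = dg G H v + dg G (out H) v := by
  classical
  have h : nb G univ v = nb G H v ∪ nb G (out H) v := by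
    ext a
    simp only [Finset.mem_union, mem_nb, mem_out, Finset.mem_univ, true_and]
    by_cases h : a ∈ H <;> simp [h]
  rw [h, Finset.card_union_of_disjoint]
  · rfl
  · rw [Finset.disjoint_left]
    intro a ha hb
    exact mem_out.mp (mem_nb.mp hb).1 (mem_nb.mp ha).1

/-- the ordered edges outside `H` contain those at `u` -/
theorem eu_ge (G : SimpleGraph V) (H : Finset V) (u : V) (hu : u ∉ H) :
    2 * dg G (out H) u ≤ eu G H := by
  classical
  have hd : Disjoint ((nb G (out H) u).image (fun b => (u, b)))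
      ((nb G (out H) u).image (fun b => (b, u))) := by
    rw [Finset.disjoint_left]
    intro e he he'
    rw [Finset.mem_image] at he he'
    obtain ⟨b, hb, rfl⟩ := he
    obtain ⟨b', hb', h⟩ := he'
    rw [Prod.mk.injEq] at h
    rw [mem_nb] at hb'
    exact hb'.2.ne h.1.symm
  have h1 : ((nb G (out H) u).image (fun b => (u, b))).card = dg G (out H) u :=
    Finset.card_image_of_injective _ (fun a b h => (Prod.mk.inj h).2)
  have h2 : ((nb G (out H) u).image (fun b => (b, u))).card = dg G (out H) u :=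
    Finset.card_image_of_injective _ (fun a b h => (Prod.mk.inj h).1)
  have h3 := Finset.card_union_of_disjoint hd
  rw [h1, h2] at h3
  have h4 : ((nb G (out H) u).image (fun b => (u, b))) ∪
      ((nb G (out H) u).image (fun b => (b, u))) ⊆
      (univ : Finset (V × V)).filter (fun e => G.Adj e.1 e.2 ∧ e.1 ∉ H ∧ e.2 ∉ H) := by
    intro e he
    rw [Finset.mem_union, Finset.mem_image, Finset.mem_image] at he
    rw [Finset.mem_filter]
    rcases he with ⟨b, hb, rfl⟩ | ⟨b, hb, rfl⟩
    · rw [mem_nb, mem_out] at hb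
      exact ⟨Finset.mem_univ _, hb.2, hu, hb.1⟩
    · rw [mem_nb, mem_out] at hb
      exact ⟨Finset.mem_univ _, hb.2.symm, hb.1, hu⟩
  have h5 := Finset.card_le_card h4
  rw [h3] at h5
  have h6 : eu G H =
      ((univ : Finset (V × V)).filter (fun e => G.Adj e.1 e.2 ∧ e.1 ∉ H ∧ e.2 ∉ H)).card := by
    unfold eu
    congr 1
  omega

/-- a further ordered edge -/
theorem eu_gt (G : SimpleGraph V) (H : Finset V) (u : V) (hu : u ∉ H) {a b : V} (ha : a ∉ H)
    (hb : b ∉ H) (hab : G.Adj a b) (hau : a ≠ u) (hbu : b ≠ u) :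
    2 * dg G (out H) u < eu G H := by
  classical
  have hd : Disjoint ((nb G (out H) u).image (fun b => (u, b)))
      ((nb G (out H) u).image (fun b => (b, u))) := by
    rw [Finset.disjoint_left]
    intro e he he'
    rw [Finset.mem_image] at he he'
    obtain ⟨b, hb, rfl⟩ := he
    obtain ⟨b', hb', h⟩ := he'
    rw [Prod.mk.injEq] at h
    rw [mem_nb] at hb'
    exact hb'.2.ne h.1.symm
  have h1 : ((nb G (out H) u).image (fun b => (u, b))).card = dg G (out H) u :=
    Finset.card_image_of_injective _ (fun a b h => (Prod.mk.inj h).2)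
  have h2 : ((nb G (out H) u).image (fun b => (b, u))).card = dg G (out H) u :=
    Finset.card_image_of_injective _ (fun a b h => (Prod.mk.inj h).1)
  have h3 := Finset.card_union_of_disjoint hd
  rw [h1, h2] at h3
  have hnot : (a, b) ∉ ((nb G (out H) u).image (fun b => (u, b))) ∪
      ((nb G (out H) u).image (fun b => (b, u))) := by
    intro he
    rw [Finset.mem_union, Finset.mem_image, Finset.mem_image] at he
    rcases he with ⟨b', _, h⟩ | ⟨b', _, h⟩
    · rw [Prod.mk.injEq] at h; exact hau h.1.symm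
    · rw [Prod.mk.injEq] at h; exact hbu h.2.symm
  have h4 : insert (a, b) (((nb G (out H) u).image (fun b => (u, b))) ∪
      ((nb G (out H) u).image (fun b => (b, u)))) ⊆
      (univ : Finset (V × V)).filter (fun e => G.Adj e.1 e.2 ∧ e.1 ∉ H ∧ e.2 ∉ H) := by
    intro e he
    rw [Finset.mem_insert, Finset.mem_union, Finset.mem_image, Finset.mem_image] at he
    rw [Finset.mem_filter]
    rcases he with rfl | ⟨b, hb, rfl⟩ | ⟨b, hb, rfl⟩
    · exact ⟨Finset.mem_univ _, hab, ha, hb⟩
    · rw [mem_nb, mem_out] at hb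
      exact ⟨Finset.mem_univ _, hb.2, hu, hb.1⟩
    · rw [mem_nb, mem_out] at hb
      exact ⟨Finset.mem_univ _, hb.2.symm, hb.1, hu⟩
  have h5 := Finset.card_le_card h4
  rw [Finset.card_insert_of_notMem hnot, h3] at h5
  have h6 : eu G H =
      ((univ : Finset (V × V)).filter (fun e => G.Adj e.1 e.2 ∧ e.1 ∉ H ∧ e.2 ∉ H)).card := by
    unfold eu
    congr 1
  omega

end

end LC

open LC in
theorem blk_LC : Stmt_LC := by
  intro r hr V _ G c H A w i0 Q hfree hncol hind hw hA hi0 hQ
  classical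
  have hwo : w ∈ out H := mem_out.mpr hw
  have hdw : dg G H w = A.card := by rw [hA]; rfl
  have hsumw : ∑ v ∈ out H, dg G H v = A.card + ∑ v ∈ (out H).erase w, dg G H v := by
    rw [← Finset.add_sum_erase _ _ hwo, hdw]
  have hQ' : 2 * ∑ v ∈ (out H).erase w, dg G H v + eu G H = Q := by
    rw [hsumw] at hQ; omega
  -- adjacency to `w`
  have hwA : ∀ a ∈ H, (G.Adj w a ↔ a ∈ A) := by
    intro a ha
    rw [hA, mem_nb]
    exact ⟨fun h => ⟨ha, h⟩, fun h => h.2⟩
  -- degrees
  have hdeg : ∀ u, u ∉ H → u ≠ w → 2 * (nb G univ u).card ≤ Q := by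
    intro u hu huw
    have h1 : dg G H u ≤ ∑ v ∈ (out H).erase w, dg G H v :=
      Finset.single_le_sum (f := fun v => dg G H v) (fun _ _ => Nat.zero_le _)
        (Finset.mem_erase.mpr ⟨huw, mem_out.mpr hu⟩)
    have h2 := eu_ge G H u hu
    rw [dg_univ G H u]
    omega
  have hcw : ∀ (iw : Fin r), cl A c iw = ∅ → ∀ a ∈ H, G.Adj w a → c a ≠ iw := by
    intro iw hiw a ha hwa h
    have : a ∈ cl A c iw := mem_cl.mpr ⟨(hwA a ha).mp hwa, h⟩
    rw [hiw] at this
    simp at this
  -- colouring of `H` and `w`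
  have hbase : ∀ (iw : Fin r), cl A c iw = ∅ → ∀ a ∈ insert w H, ∀ b ∈ insert w H, G.Adj a b →
      Function.update c w iw a ≠ Function.update c w iw b := by
    intro iw hiw a ha b hb hab
    rw [Finset.mem_insert] at ha hb
    by_cases haw : a = w
    · subst haw
      have hbw : b ≠ a := hab.ne'
      rw [Function.update_self, Function.update_of_ne hbw]
      have hbH : b ∈ H := by
        rcases hb with h | h
        · exact absurd h hbw
        · exact h
      exact (hcw iw hiw b hbH hab).symm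
    · have haH : a ∈ H := by
        rcases ha with h | h
        · exact absurd h haw
        · exact h
      by_cases hbw : b = w
      · subst hbw
        rw [Function.update_self, Function.update_of_ne haw]
        exact hcw iw hiw a haH hab.symm
      · have hbH : b ∈ H := by
          rcases hb with h | h
          · exact absurd h hbw
          · exact h
        rw [Function.update_of_ne haw, Function.update_of_ne hbw]
        exact fun h => hind a haH b hbH h hab
  -- some vertex has large degree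
  obtain ⟨u, hu, huw, hur⟩ : ∃ u, u ∉ H ∧ u ≠ w ∧ r ≤ (nb G univ u).card := by
    by_contra hcon
    push Not at hcon
    apply hncol
    refine greedy G r (insert w H) (Function.update c w i0) (hbase i0 hi0) ?_
    intro v hv
    rw [Finset.mem_insert, not_or] at hv
    exact hcon v hv.2 hv.1
  have hud := hdeg u hu huw
  refine ⟨by omega, ?_⟩
  intro hmis hQr
  have hucard : (nb G univ u).card = r := by omega
  have hudg := dg_univ G H u
  -- all further edges are at `u`
  have honly1 : ∀ v, v ∉ H → v ≠ w → v ≠ u → ∀ a ∈ H, ¬ G.Adj v a := by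
    intro v hv hvw hvu a ha hva
    have h1 : dg G H u + dg G H v ≤ ∑ v ∈ (out H).erase w, dg G H v := by
      have h2 : ({u, v} : Finset V) ⊆ (out H).erase w := by
        intro z hz
        rw [Finset.mem_insert, Finset.mem_singleton] at hz
        rw [Finset.mem_erase, mem_out]
        rcases hz with rfl | rfl
        · exact ⟨huw, hu⟩
        · exact ⟨hvw, hv⟩
      have h3 := Finset.sum_le_sum_of_subset (f := fun v => dg G H v) h2
      rw [Finset.sum_pair (Ne.symm hvu)] at h3
      exact h3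
    have h2 : 0 < dg G H v := Finset.card_pos.mpr ⟨a, mem_nb.mpr ⟨ha, hva⟩⟩
    have h3 := eu_ge G H u hu
    omega
  have honly2 : ∀ a b, a ∉ H → b ∉ H → G.Adj a b → a = u ∨ b = u := by
    intro a b ha hb hab
    by_contra hcon
    rw [not_or] at hcon
    have h1 : dg G H u ≤ ∑ v ∈ (out H).erase w, dg G H v :=
      Finset.single_le_sum (f := fun v => dg G H v) (fun _ _ => Nat.zero_le _)
        (Finset.mem_erase.mpr ⟨huw, mem_out.mpr hu⟩)
    have h2 := eu_gt G H u hu ha hb hab hcon.1 hcon.2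
    omega
  -- the other vertices have small degree
  have hsmall : ∀ v, v ∉ insert u (insert w H) → (nb G univ v).card < r := by
    intro v hv
    rw [Finset.mem_insert, Finset.mem_insert, not_or, not_or] at hv
    obtain ⟨hvu, hvw, hvH⟩ := hv
    have : nb G univ v ⊆ {u} := by
      intro a ha
      rw [mem_nb] at ha
      rw [Finset.mem_singleton]
      by_cases haH : a ∈ H
      · exact absurd ha.2 (honly1 v hvH hvw hvu a haH)
      · rcases honly2 v a hvH haH ha.2 with h | h
        · exact absurd h hvu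
        · exact h
    have := Finset.card_le_card this
    rw [Finset.card_singleton] at this
    omega
  -- extension of a colouring to `u`
  have hext : ∀ (iw iu : Fin r), cl A c iw = ∅ → (∀ a ∈ H, G.Adj u a → c a ≠ iu) →
      (G.Adj u w → iw ≠ iu) → False := by
    intro iw iu hiw hiu huw'
    apply hncol
    refine greedy G r (insert u (insert w H))
      (Function.update (Function.update c w iw) u iu) ?_ hsmall
    have key : ∀ b ∈ insert w H, G.Adj u b → Function.update c w iw b ≠ iu := by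
      intro b hb hub
      rw [Finset.mem_insert] at hb
      by_cases hbw : b = w
      · subst hbw
        rw [Function.update_self]
        exact huw' hub
      · rw [Function.update_of_ne hbw]
        rcases hb with h | h
        · exact absurd h hbw
        · exact hiu b h hub
    intro a ha b hb hab
    by_cases hau : a = u
    · subst hau
      have hbu : b ≠ a := hab.ne'
      rw [Function.update_self, Function.update_of_ne hbu]
      refine (key b ?_ hab).symm
      rcases Finset.mem_insert.mp hb with h | h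
      · exact absurd h hbu
      · exact h
    · have ha' : a ∈ insert w H := by
        rcases Finset.mem_insert.mp ha with h | h
        · exact absurd h hau
        · exact h
      by_cases hbu : b = u
      · subst hbu
        rw [Function.update_self, Function.update_of_ne hau]
        exact key a ha' hab.symm
      · rw [Function.update_of_ne hau, Function.update_of_ne hbu]
        refine hbase iw hiw a ha' b ?_ hab
        rcases Finset.mem_insert.mp hb with h | h
        · exact absurd h hbu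
        · exact h
  -- `u` has no other neighbours
  have hnou : ∀ u', u' ∉ H → u' ≠ w → ¬ G.Adj u u' := by
    intro u' hu' hu'w huu'
    -- the vertex `u` has at most `r - 1` neighbours in `H + w`
    have h1 : (nb G (insert w H) u).card < r := by
      rw [← hucard]
      apply Finset.card_lt_card
      rw [Finset.ssubset_iff_of_subset]
      · refine ⟨u', mem_nb.mpr ⟨Finset.mem_univ _, huu'⟩, ?_⟩
        intro h
        rw [mem_nb, Finset.mem_insert] at h
        rcases h.1 with h | h
        · exact hu'w h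
        · exact hu' h
      · intro a ha
        rw [mem_nb] at ha ⊢
        exact ⟨Finset.mem_univ _, ha.2⟩
    have h2 : ((nb G (insert w H) u).image (Function.update c w i0)).card < r :=
      lt_of_le_of_lt Finset.card_image_le h1
    obtain ⟨iu, hiu⟩ : ∃ i : Fin r, i ∉ (nb G (insert w H) u).image (Function.update c w i0) := by
      by_contra hcon
      push Not at hcon
      have : (univ : Finset (Fin r)) ⊆ (nb G (insert w H) u).image (Function.update c w i0) :=
        fun i _ => hcon i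
      have := Finset.card_le_card this
      rw [Finset.card_univ, Fintype.card_fin] at this
      omega
    have h3 : ∀ b ∈ insert w H, G.Adj u b → Function.update c w i0 b ≠ iu := by
      intro b hb hub h
      apply hiu
      rw [Finset.mem_image]
      exact ⟨b, mem_nb.mpr ⟨hb, hub⟩, h⟩
    apply hext i0 iu hi0
    · intro a ha hua
      have h4 := h3 a (Finset.mem_insert_of_mem ha) hua
      have haw : a ≠ w := fun h => hw (h ▸ ha)
      rwa [Function.update_of_ne haw] at h4
    · intro huw'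
      have h4 := h3 w (Finset.mem_insert_self _ _) huw'
      rwa [Function.update_self] at h4
  -- different classes in `H` are completely joined
  have hjoin : ∀ a ∈ H, ∀ b ∈ H, c a ≠ c b → G.Adj a b := by
    intro a ha b hb hab
    by_contra hn
    have h1 : 0 < mis G H c := by
      unfold mis
      apply Finset.card_pos.mpr
      refine ⟨(a, b), ?_⟩
      rw [Finset.mem_filter, Finset.mem_product]
      exact ⟨⟨ha, hb⟩, hab, hn⟩
    omega
  set B : Finset V := nb G H u with hB
  -- `u` is adjacent to `w`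
  have hadj : G.Adj u w := by
    by_contra hn
    have hall : ∀ i, (cl B c i).Nonempty := by
      intro i
      by_contra hi
      rw [Finset.not_nonempty_iff_eq_empty] at hi
      refine hext i0 i hi0 ?_ (fun h => absurd h hn)
      intro a ha hua hcai
      have : a ∈ cl B c i := mem_cl.mpr ⟨mem_nb.mpr ⟨ha, hua⟩, hcai⟩
      rw [hi] at this
      simp at this
    choose f hf using hall
    have hf1 : ∀ i, f i ∈ H ∧ G.Adj u (f i) ∧ c (f i) = i := by
      intro i
      have h1 := mem_cl.mp (hf i)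
      have h2 := mem_nb.mp h1.1
      exact ⟨h2.1, h2.2, h1.2⟩
    have hinj : Function.Injective f := by
      intro i k hik
      rw [← (hf1 i).2.2, ← (hf1 k).2.2, hik]
    have h1 := clique_le hfree (insert u (univ.image f)) (by
      intro a ha b hb hab
      rw [Finset.mem_insert, Finset.mem_image] at ha hb
      rcases ha with rfl | ⟨i, _, rfl⟩ <;> rcases hb with rfl | ⟨k, _, rfl⟩
      · exact absurd rfl hab
      · exact (hf1 k).2.1
      · exact (hf1 i).2.1.symm
      · apply hjoin _ (hf1 i).1 _ (hf1 k).1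
        rw [(hf1 i).2.2, (hf1 k).2.2]
        rintro rfl
        exact hab rfl)
    have h2 : u ∉ univ.image f := by
      intro h
      rw [Finset.mem_image] at h
      obtain ⟨i, _, h⟩ := h
      exact hu (h ▸ (hf1 i).1)
    rw [Finset.card_insert_of_notMem h2, Finset.card_image_of_injective _ hinj, Finset.card_univ,
      Fintype.card_fin] at h1
    omega
  -- size of `B`
  have hBc : B.card + 1 = r := by
    have h1 : nb G univ u = insert w B := by
      ext a
      rw [mem_nb, Finset.mem_insert, hB, mem_nb]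
      constructor
      · rintro ⟨_, h⟩
        by_cases haw : a = w
        · left; exact haw
        · by_cases haH : a ∈ H
          · right; exact ⟨haH, h⟩
          · exact absurd h (hnou a haH haw)
      · rintro (rfl | h)
        · exact ⟨Finset.mem_univ _, hadj⟩
        · exact ⟨Finset.mem_univ _, h.2⟩
    have h2 : w ∉ B := fun h => hw (mem_nb.mp h).1
    rw [← hucard, h1, Finset.card_insert_of_notMem h2]
  have hcu : ∀ i, cl B c i = ∅ → ∀ a ∈ H, G.Adj u a → c a ≠ i := by
    intro i hi a ha hua h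
    have : a ∈ cl B c i := mem_cl.mpr ⟨mem_nb.mpr ⟨ha, hua⟩, h⟩
    rw [hi] at this
    simp at this
  have heq : ∀ i k, cl A c i = ∅ → cl B c k = ∅ → i = k := by
    intro i k hi hk
    by_contra hne
    exact hext i k hi (hcu k hk) (fun _ => hne)
  -- the free class of `u`
  obtain ⟨k, hk⟩ : ∃ k, cl B c k = ∅ := by
    by_contra hcon
    push Not at hcon
    have h1 : r ≤ B.card := by
      have h2 := sum_card_cl B c
      have h3 : ∑ _i : Fin r, 1 ≤ ∑ i, (cl B c i).card :=
        Finset.sum_le_sum fun i _ => Finset.card_pos.mpr (hcon i)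
      simp only [sum_const, card_univ, Fintype.card_fin, smul_eq_mul, mul_one] at h3
      omega
    omega
  have hki : i0 = k := heq i0 k hi0 hk
  subst hki
  have hAne : ∀ i, i ≠ i0 → (cl A c i).Nonempty := by
    intro i hi
    by_contra hn
    rw [Finset.not_nonempty_iff_eq_empty] at hn
    exact hi (heq i i0 hn hk)
  have hBne : ∀ i, i ≠ i0 → (cl B c i).Nonempty := by
    intro i hi
    by_contra hn
    rw [Finset.not_nonempty_iff_eq_empty] at hn
    exact hi (heq i0 i hi0 hn).symm
  have hB1 : ∀ i, i ≠ i0 → (cl B c i).card = 1 := by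
    intro i hi
    have h1 : 1 ≤ (cl B c i).card := Finset.card_pos.mpr (hBne i hi)
    by_contra hne
    have h2 : 2 ≤ (cl B c i).card := by omega
    have h3 := sum_card_cl B c
    have h4 : ∑ i ∈ univ.erase i0, (cl B c i).card ≤ ∑ i, (cl B c i).card :=
      Finset.sum_le_sum_of_subset (Finset.erase_subset _ _)
    have h5 : i ∈ univ.erase i0 := Finset.mem_erase.mpr ⟨hi, Finset.mem_univ _⟩
    have h6 : ∑ _i ∈ univ.erase i0, 1 < ∑ i ∈ univ.erase i0, (cl B c i).card := by
      apply Finset.sum_lt_sum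
      · intro j hj
        exact Finset.card_pos.mpr (hBne j (Finset.mem_erase.mp hj).1)
      · exact ⟨i, h5, by omega⟩
    rw [Finset.sum_const, Finset.card_erase_of_mem (Finset.mem_univ _), Finset.card_univ,
      Fintype.card_fin, smul_eq_mul, mul_one] at h6
    omega
  have hBA : ¬ B ⊆ A := by
    intro hBA
    have hBcl : ∀ a ∈ B, ∀ b ∈ B, a ≠ b → c a ≠ c b := by
      intro a ha b hb hab h
      have hci : c a ≠ i0 := by
        intro h'
        have : a ∈ cl B c i0 := mem_cl.mpr ⟨ha, h'⟩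
        rw [hk] at this
        simp at this
      obtain ⟨z, hz⟩ := Finset.card_eq_one.mp (hB1 (c a) hci)
      have h1 : a ∈ cl B c (c a) := mem_cl.mpr ⟨ha, rfl⟩
      have h2 : b ∈ cl B c (c a) := mem_cl.mpr ⟨hb, h.symm⟩
      rw [hz, Finset.mem_singleton] at h1 h2
      exact hab (h1.trans h2.symm)
    have huB : u ∉ B := fun h => hu (mem_nb.mp h).1
    have hwB : w ∉ insert u B := by
      rw [Finset.mem_insert, not_or]
      exact ⟨Ne.symm huw, fun h => hw (mem_nb.mp h).1⟩
    have h1 := clique_le hfree (insert w (insert u B)) (by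
      intro a ha b hb hab
      rw [Finset.mem_insert, Finset.mem_insert] at ha hb
      rcases ha with rfl | rfl | ha <;> rcases hb with rfl | rfl | hb
      · exact absurd rfl hab
      · exact hadj.symm
      · exact (hwA b (mem_nb.mp hb).1).mpr (hBA hb)
      · exact hadj
      · exact absurd rfl hab
      · exact (mem_nb.mp hb).2
      · exact ((hwA a (mem_nb.mp ha).1).mpr (hBA ha)).symm
      · exact (mem_nb.mp ha).2.symm
      · exact hjoin a (mem_nb.mp ha).1 b (mem_nb.mp hb).1 (hBcl a ha b hb hab))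
    rw [Finset.card_insert_of_notMem hwB, Finset.card_insert_of_notMem huB] at h1
    omega
  have hAH : A ⊆ H := by rw [hA]; intro a ha; exact (mem_nb.mp ha).1
  have hBH : B ⊆ H := fun a ha => (mem_nb.mp ha).1
  have huB' : ∀ a ∈ H, (G.Adj u a ↔ a ∈ B) := fun a ha =>
    ⟨fun h => mem_nb.mpr ⟨ha, h⟩, fun h => (mem_nb.mp h).2⟩
  refine ⟨u, B, i0, rfl, hw, hu, Ne.symm huw, hAH, hBH, hi0, hk, hAne, hB1, hBA, ?_⟩
  intro a b
  constructor
  · intro hab
    by_cases haH : a ∈ H
    · by_cases hbH : b ∈ H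
      · left
        exact ⟨haH, hbH, fun h => hind a haH b hbH h hab⟩
      · by_cases hbw : b = w
        · right; right; left
          refine ⟨hbw, (hwA a haH).mp ?_⟩
          rw [← hbw]; exact hab.symm
        · by_cases hbu : b = u
          · right; right; right; right; left
            refine ⟨hbu, (huB' a haH).mp ?_⟩
            rw [← hbu]; exact hab.symm
          · exact absurd hab.symm (honly1 b hbH hbw hbu a haH)
    · by_cases hbH : b ∈ H
      · by_cases haw : a = w
        · right; left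
          refine ⟨haw, (hwA b hbH).mp ?_⟩
          rw [← haw]; exact hab
        · by_cases hau : a = u
          · right; right; right; left
            refine ⟨hau, (huB' b hbH).mp ?_⟩
            rw [← hau]; exact hab
          · exact absurd hab (honly1 a haH haw hau b hbH)
      · rcases honly2 a b haH hbH hab with h | h
        · right; right; right; right; right; right
          refine ⟨h, ?_⟩
          by_contra hbw
          rw [h] at hab
          exact hnou b hbH hbw hab
        · right; right; right; right; right; left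
          refine ⟨?_, h⟩
          by_contra haw
          rw [h] at hab
          exact hnou a haH haw hab.symm
  · rintro (⟨ha, hb, h⟩ | ⟨rfl, h⟩ | ⟨rfl, h⟩ | ⟨rfl, h⟩ | ⟨rfl, h⟩ | ⟨rfl, rfl⟩ | ⟨rfl, rfl⟩)
    · exact hjoin a ha b hb h
    · exact (hwA b (hAH h)).mpr h
    · exact ((hwA a (hAH h)).mpr h).symm
    · exact (huB' b (hBH h)).mpr h
    · exact ((huB' a (hBH h)).mpr h).symm
    · exact hadj.symm
    · exact hadj

end Pool.Agent.Work.MP_5532fa_up

end

section

/-! Block MIND (helper30). -/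

open Finset

namespace Pool.Agent.Work.MP_5532fa_up

open MP5532fa (specRad qf pE)

namespace MIND

/-- a transversal clique as a finite set -/
theorem nclique {ι V : Type} [Fintype ι] [DecidableEq V] (G : SimpleGraph V) (f : ι → V)
    (hf : ∀ i k, i ≠ k → G.Adj (f i) (f k)) :
    G.IsNClique (Fintype.card ι) (univ.image f) := by
  rw [SimpleGraph.isNClique_iff]
  constructor
  · intro a ha b hb hab
    rw [Finset.coe_image, Set.mem_image] at ha hb
    obtain ⟨i, _, rfl⟩ := ha
    obtain ⟨k, _, rfl⟩ := hb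
    exact hf i k (fun h => hab (by rw [h]))
  · rw [Finset.card_image_of_injective, Finset.card_univ]
    intro i k hik
    by_contra h
    exact (hf i k h).ne hik

variable {V : Type} [Fintype V] {r : ℕ}

open Classical in
/-- missing pairs at a vertex -/
noncomputable def ms (G : SimpleGraph V) (T : Finset V) (c : V → Fin r) (u : V) : Finset V :=
  T.filter (fun w => c u ≠ c w ∧ ¬ G.Adj u w)

omit [Fintype V] in
theorem mis_eq (G : SimpleGraph V) (T : Finset V) (c : V → Fin r) :
    mis G T c = ∑ u ∈ T, (ms G T c u).card := by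
  classical
  unfold mis ms
  rw [Finset.card_filter, Finset.sum_product]
  refine Finset.sum_congr rfl fun u _ => ?_
  rw [Finset.card_filter]

end MIND

open MIND in
theorem blk_MIND (hG : Stmt_GRD) : Stmt_MIND := by
  classical
  intro r η K hr hη hη4 hK
  have hr0 : (0 : ℝ) < r := by
    have : (3 : ℝ) ≤ r := by exact_mod_cast hr
    linarith
  have hr3 : (3 : ℝ) ≤ r := by exact_mod_cast hr
  refine ⟨8 * r * K, by nlinarith, ?_⟩
  intro V _ G x lam t c T hfree hTD hTE v
  by_contra hcon
  push Not at hcon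
  have ht := hTD.tpos
  have hst : 0 < √t := Real.sqrt_pos.mpr ht
  have hst2 : √t * √t = t := Real.mul_self_sqrt ht.le
  obtain ⟨h, hh⟩ : ∃ h : ℝ, h = 8 * r * K / √t := ⟨_, rfl⟩
  have hh0 : 0 < h := by rw [hh]; positivity
  obtain ⟨L, hL⟩ : ∃ L : ℝ, L = h / (4 * r) := ⟨_, rfl⟩
  have hL0 : 0 < L := by rw [hL]; positivity
  rw [← hh] at hcon
  -- bad vertices
  obtain ⟨bad, hbad⟩ : ∃ bad : Finset V, bad = T.filter (fun u => L < ((ms G T c u).card : ℝ)) :=
    ⟨_, rfl⟩
  have hbadc : (bad.card : ℝ) ≤ h / 2 := by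
    have h1 : (bad.card : ℝ) * L ≤ mis G T c := by
      rw [mis_eq]
      push_cast
      calc (bad.card : ℝ) * L = ∑ u ∈ bad, L := by rw [Finset.sum_const, nsmul_eq_mul]
        _ ≤ ∑ u ∈ bad, ((ms G T c u).card : ℝ) := by
            apply Finset.sum_le_sum
            intro u hu
            rw [hbad, Finset.mem_filter] at hu
            exact hu.2.le
        _ ≤ ∑ u ∈ T, ((ms G T c u).card : ℝ) := by
            apply Finset.sum_le_sum_of_subset_of_nonneg
            · rw [hbad]; exact Finset.filter_subset _ _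
            · intro i _ _; positivity
    have h2 : (bad.card : ℝ) * L ≤ K / t := h1.trans hTE.mis
    have h3 : K / t ≤ h / 2 * L := by
      rw [hL, hh]
      rw [div_le_iff₀ ht]
      have h4 : 8 * r * K / √t / 2 * (8 * r * K / √t / (4 * r)) * t = 8 * r * K ^ 2 := by
        have h5 : ∀ s : ℝ, 0 < s →
            8 * r * K / s / 2 * (8 * r * K / s / (4 * r)) * (s * s) = 8 * r * K ^ 2 := by
          intro s hs
          field_simp
          ring
        have h6 := h5 (√t) hst
        rwa [hst2] at h6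
      rw [h4]
      nlinarith
    exact le_of_mul_le_mul_right (h2.trans h3) hL0
  -- the sets
  obtain ⟨f, hfA, hfadj⟩ := hG (Fin r) V G (fun i => (nb G (cl T c i) v) \ bad) (fun _ => 1) L
    (fun _ => zero_le_one) hL0.le (by
      intro i k hik u hu
      rw [Finset.mem_sdiff, mem_nb, mem_cl] at hu
      obtain ⟨⟨⟨huT, huc⟩, _⟩, hub⟩ := hu
      have h1 : ((ms G T c u).card : ℝ) ≤ L := by
        by_contra h2
        push Not at h2
        exact hub (by rw [hbad, Finset.mem_filter]; exact ⟨huT, h2⟩)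
      refine le_trans ?_ h1
      have h2 : ∑ w ∈ (nb G (cl T c k) v) \ bad, chi (¬ G.Adj u w) * 1 =
          ((((nb G (cl T c k) v) \ bad).filter (fun w => ¬ G.Adj u w)).card : ℝ) := by
        rw [Finset.card_filter]
        push_cast
        refine Finset.sum_congr rfl fun w _ => ?_
        rw [mul_one]
        by_cases h : G.Adj u w
        · rw [chi_neg (not_not.mpr h), if_neg (not_not.mpr h)]
        · rw [chi_pos h, if_pos h]
      rw [h2]
      have h3 : (((nb G (cl T c k) v) \ bad).filter (fun w => ¬ G.Adj u w)) ⊆ ms G T c u := by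
        intro w hw
        rw [Finset.mem_filter, Finset.mem_sdiff, mem_nb, mem_cl] at hw
        unfold ms
        rw [Finset.mem_filter]
        refine ⟨hw.1.1.1.1, ?_, hw.2⟩
        rw [huc, hw.1.1.1.2]
        exact hik
      exact_mod_cast Finset.card_le_card h3) (by
      intro i
      rw [Finset.sum_const, nsmul_eq_mul, mul_one, Fintype.card_fin]
      have h1 : ((nb G (cl T c i) v).card : ℝ) ≤
          (((nb G (cl T c i) v) \ bad).card : ℝ) + bad.card := by
        have := Finset.card_le_card_sdiff_add_card (s := nb G (cl T c i) v) (t := bad)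
        exact_mod_cast this
      have h2 := hcon i
      have h3 : (r : ℝ) * L = h / 4 := by rw [hL]; field_simp
      rw [h3]
      linarith)
  have hcl := nclique G f hfadj
  rw [Fintype.card_fin] at hcl
  have hv : ∀ w ∈ univ.image f, G.Adj v w := by
    intro w hw
    rw [Finset.mem_image] at hw
    obtain ⟨i, _, rfl⟩ := hw
    have := hfA i
    rw [Finset.mem_sdiff, mem_nb] at this
    exact this.1.2
  exact hfree _ (hcl.insert hv)

end Pool.Agent.Work.MP_5532fa_up

end

section

/-!
# Block MEAS: measure form of stability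
-/

set_option autoImplicit false

open Finset

namespace Pool.Agent.Work.MP_5532fa_up

open MP5532fa (specRad qf pE)

namespace MEAS

variable {V : Type} [Fintype V]

theorem LW_ad (G : SimpleGraph V) (y : V → ℝ) :
    MP5532fa.LW G y univ = ∑ u, ∑ v, ad G u v * (y u * y v) := by
  classical
  unfold MP5532fa.LW
  refine Finset.sum_congr rfl fun u _ => Finset.sum_congr rfl fun v _ => ?_
  by_cases h : G.Adj u v
  · rw [if_pos h]; unfold ad; rw [chi_pos h, one_mul]
  · rw [if_neg h]; unfold ad; rw [chi_neg h, zero_mul]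

theorem IW_chi (G : SimpleGraph V) (y : V → ℝ) {r : ℕ} (c : V → Fin r) :
    MP5532fa.IW G y c univ = ∑ u, ∑ v, chi (G.Adj u v ∧ c u = c v) * (y u * y v) := by
  classical
  unfold MP5532fa.IW
  refine Finset.sum_congr rfl fun u _ => Finset.sum_congr rfl fun v _ => ?_
  by_cases h : G.Adj u v ∧ c u = c v
  · rw [if_pos h, chi_pos h, one_mul]
  · rw [if_neg h, chi_neg h, zero_mul]

theorem sq_cl (y : V → ℝ) {r : ℕ} (c : V → Fin r) :
    ∑ u, ∑ v, chi (c u = c v) * (y u * y v) = ∑ i, (∑ v ∈ cl univ c i, y v) ^ 2 := by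
  have h1 : ∀ u, ∑ v, chi (c u = c v) * (y u * y v) = y u * ∑ v ∈ cl univ c (c u), y v := by
    intro u
    rw [Finset.mul_sum]
    unfold cl
    rw [Finset.sum_filter]
    refine Finset.sum_congr rfl fun v _ => ?_
    by_cases h : c v = c u
    · rw [if_pos h, chi_pos h.symm, one_mul]
    · rw [if_neg h, chi_neg (fun h' => h h'.symm), zero_mul]
  rw [Finset.sum_congr rfl fun u _ => h1 u, ← sum_cl univ c]
  refine Finset.sum_congr rfl fun i _ => ?_
  have h2 : ∀ u ∈ cl univ c i, y u * ∑ v ∈ cl univ c (c u), y v =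
      y u * ∑ v ∈ cl univ c i, y v := fun u hu => by rw [(mem_cl.1 hu).2]
  rw [Finset.sum_congr rfl h2, ← Finset.sum_mul, sq]

theorem split (G : SimpleGraph V) (y : V → ℝ) {r : ℕ} (c : V → Fin r) :
    (∑ v, y v) ^ 2 + ∑ u, ∑ v, chi (G.Adj u v ∧ c u = c v) * (y u * y v) =
      ∑ u, ∑ v, ad G u v * (y u * y v) + ∑ u, ∑ v, chi (c u = c v) * (y u * y v) +
        ∑ u, ∑ v, chi (c u ≠ c v ∧ ¬ G.Adj u v) * (y u * y v) := by
  have h0 : (∑ v, y v) ^ 2 = ∑ u, ∑ v, y u * y v := by
    rw [sq, Finset.sum_mul_sum]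
  rw [h0, ← Finset.sum_add_distrib, ← Finset.sum_add_distrib, ← Finset.sum_add_distrib]
  refine Finset.sum_congr rfl fun u _ => ?_
  rw [← Finset.sum_add_distrib, ← Finset.sum_add_distrib, ← Finset.sum_add_distrib]
  refine Finset.sum_congr rfl fun v _ => ?_
  unfold ad
  by_cases h1 : G.Adj u v <;> by_cases h2 : c u = c v
  · rw [chi_pos h1, chi_pos h2, chi_pos ⟨h1, h2⟩, chi_neg (fun h => h.2 h1)]
    ring
  · rw [chi_pos h1, chi_neg h2, chi_neg (fun h : G.Adj u v ∧ c u = c v => h2 h.2),
      chi_neg (fun h : c u ≠ c v ∧ ¬ G.Adj u v => h.2 h1)]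
    ring
  · rw [chi_neg h1, chi_pos h2, chi_neg (fun h : G.Adj u v ∧ c u = c v => h1 h.1),
      chi_neg (fun h : c u ≠ c v ∧ ¬ G.Adj u v => h.1 h2)]
    ring
  · rw [chi_neg h1, chi_neg h2, chi_neg (fun h : G.Adj u v ∧ c u = c v => h1 h.1),
      chi_pos ⟨h2, h1⟩]
    ring

end MEAS

theorem blk_MEAS : Stmt_MEAS := by
  intro r D hr hD V _ G x lam t hC
  obtain ⟨q, rfl⟩ : ∃ q, r = q + 1 := ⟨r - 1, by omega⟩
  have hne : Nonempty V := hC.pv.nonempty
  have hal : al (q + 1) = 1 - 1 / ((q : ℝ) + 1) := by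
    unfold al
    push_cast
    rfl
  obtain ⟨c, hc⟩ := MP5532fa.nik_data (q := q) G hC.free (x := x) hC.pv.unit
  rw [← hal, MEAS.LW_ad, MEAS.IW_chi] at hc
  set L := ∑ u, ∑ v, ad G u v * (x u ^ 2 * x v ^ 2) with hL
  set In := ∑ u, ∑ v, chi (G.Adj u v ∧ c u = c v) * (x u ^ 2 * x v ^ 2) with hIn
  have hIn0 : 0 ≤ In := Finset.sum_nonneg fun u _ => Finset.sum_nonneg fun v _ =>
    mul_nonneg (chi_nonneg _) (by positivity)
  have ht : 0 < t := by rw [hC.ht]; exact div_pos hC.pos hC.pe
  have htp : t * pE G = lam := by rw [hC.ht]; exact div_mul_cancel₀ _ hC.pe.ne'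
  -- the square sum
  have hS : ∑ u, ∑ v, ad G u v * (x u * x v - t) ^ 2 = L - lam * t := by
    have h1 : ∑ u, ∑ v, ad G u v * (x u * x v - t) ^ 2 =
        L - 2 * t * ∑ u, ∑ v, ad G u v * (x u * x v) + t ^ 2 * ∑ u, ∑ v, ad G u v := by
      rw [hL, Finset.mul_sum, Finset.mul_sum, ← Finset.sum_sub_distrib, ← Finset.sum_add_distrib]
      refine Finset.sum_congr rfl fun u _ => ?_
      rw [Finset.mul_sum, Finset.mul_sum, ← Finset.sum_sub_distrib, ← Finset.sum_add_distrib]
      refine Finset.sum_congr rfl fun v _ => ?_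
      ring
    rw [h1, hC.pv.form, ← pE_ad]
    linear_combination t * htp
  have hS0 : 0 ≤ ∑ u, ∑ v, ad G u v * (x u * x v - t) ^ 2 :=
    Finset.sum_nonneg fun u _ => Finset.sum_nonneg fun v _ =>
      mul_nonneg (chi_nonneg _) (sq_nonneg _)
  have hdef : al (q + 1) - lam * t ≤ D * t := by
    have h1 := hC.defi
    have h2 : (al (q + 1) - lam * t - D * t) * pE G ≤ 0 := by
      have : (al (q + 1) - lam * t - D * t) * pE G =
          al (q + 1) * pE G - lam ^ 2 - D * lam := by
        linear_combination (-lam - D) * htp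
      rw [this]
      linarith
    have h3 : al (q + 1) - lam * t - D * t ≤ 0 := by
      by_contra h
      push Not at h
      have := mul_pos h hC.pe
      linarith
    linarith
  have hLt : lam * t ≤ L := by rw [hS] at hS0; linarith
  refine ⟨ht, by linarith, by linarith, by rw [hS]; linarith, c, ?_⟩
  -- the missing pairs
  set Mi := ∑ u, ∑ v, chi (c u ≠ c v ∧ ¬ G.Adj u v) * (x u ^ 2 * x v ^ 2) with hMi
  have hMi0 : 0 ≤ Mi := Finset.sum_nonneg fun u _ => Finset.sum_nonneg fun v _ =>
    mul_nonneg (chi_nonneg _) (by positivity)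
  have hsp := MEAS.split G (fun v => x v ^ 2) c

  rw [hC.pv.unit, ← hIn, ← hL, ← hMi, MEAS.sq_cl (fun v => x v ^ 2) c] at hsp
  have hsum1 : ∑ i, ∑ v ∈ cl univ c i, x v ^ 2 = 1 := by
    rw [sum_cl univ c (fun v => x v ^ 2)]
    exact hC.pv.unit
  have hdev : ∑ i, (∑ v ∈ cl univ c i, x v ^ 2 - 1 / ((q + 1 : ℕ) : ℝ)) ^ 2 =
      ∑ i, (∑ v ∈ cl univ c i, x v ^ 2) ^ 2 - 1 / ((q : ℝ) + 1) := by
    have h1 : ∀ i, (∑ v ∈ cl univ c i, x v ^ 2 - 1 / ((q + 1 : ℕ) : ℝ)) ^ 2 =
        (∑ v ∈ cl univ c i, x v ^ 2) ^ 2 -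
          2 / ((q : ℝ) + 1) * (∑ v ∈ cl univ c i, x v ^ 2) + (1 / ((q : ℝ) + 1)) ^ 2 := by
      intro i
      push_cast
      ring
    rw [Finset.sum_congr rfl fun i _ => h1 i, Finset.sum_add_distrib, Finset.sum_sub_distrib,
      ← Finset.mul_sum, hsum1, Finset.sum_const, Finset.card_univ, Fintype.card_fin, nsmul_eq_mul]
    have h2 : ((q : ℝ) + 1) ≠ 0 := by positivity
    push_cast
    field_simp
    ring
  have htot : Mi + ∑ i, (∑ v ∈ cl univ c i, x v ^ 2 - 1 / ((q + 1 : ℕ) : ℝ)) ^ 2 ≤
      2 * D * t := by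
    rw [hdev]
    have : Mi + (∑ i, (∑ v ∈ cl univ c i, x v ^ 2) ^ 2 - 1 / ((q : ℝ) + 1)) =
        al (q + 1) - L + In := by
      rw [hal]
      linarith
    rw [this]
    nlinarith
  have hdev0 : 0 ≤ ∑ i, (∑ v ∈ cl univ c i, x v ^ 2 - 1 / ((q + 1 : ℕ) : ℝ)) ^ 2 :=
    Finset.sum_nonneg fun i _ => sq_nonneg _
  refine ⟨by linarith, fun i => ?_⟩
  have h3 := Finset.single_le_sum (f := fun i =>
    (∑ v ∈ cl univ c i, x v ^ 2 - 1 / ((q + 1 : ℕ) : ℝ)) ^ 2) (fun i _ => sq_nonneg _)
    (Finset.mem_univ i)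
  beta_reduce at h3
  linarith

end Pool.Agent.Work.MP_5532fa_up

end

section

/-!
# Block TIE: the position of the vertex of `B` outside `A` does not matter
-/

open Finset

namespace Pool.Agent.Work.MP_5532fa_up

open MP5532fa (specRad qf pE)

namespace TIE

theorem chi_and (p q : Prop) : chi (p ∧ q) = chi p * chi q := by
  by_cases hp : p
  · by_cases hq : q
    · rw [chi_pos hp, chi_pos hq, chi_pos ⟨hp, hq⟩, one_mul]
    · rw [chi_pos hp, chi_neg hq, chi_neg (fun h => hq h.2), mul_zero]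
  · rw [chi_neg hp, chi_neg (fun h => hp h.1), zero_mul]

section
variable {V : Type} [Fintype V] {r : ℕ}

theorem sum_mem_mul (S : Finset V) (f : V → ℝ) : ∑ a, chi (a ∈ S) * f a = ∑ a ∈ S, f a := by
  have h1 : ∑ a ∈ S, chi (a ∈ S) * f a = ∑ a, chi (a ∈ S) * f a :=
    Finset.sum_subset (Finset.subset_univ S) (fun x _ hx => by rw [chi_neg hx, zero_mul])
  rw [← h1]
  exact Finset.sum_congr rfl fun a ha => by rw [chi_pos ha, one_mul]

theorem sum_eq_mul (w : V) (f : V → ℝ) : ∑ a, chi (a = w) * f a = f w := by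
  have := sum_mem_mul ({w} : Finset V) f
  simpa using this

theorem sum_prod (f g : V → ℝ) : ∑ a, ∑ b, f a * g b = (∑ a, f a) * ∑ b, g b := by
  rw [Finset.sum_mul]
  exact Finset.sum_congr rfl fun a _ => (Finset.mul_sum _ _ _).symm

theorem sum_pair (w : V) (A : Finset V) (f g : V → ℝ) :
    ∑ a, ∑ b, chi (a = w ∧ b ∈ A) * (f a * g b) = f w * ∑ b ∈ A, g b := by
  have h : ∀ a b : V, chi (a = w ∧ b ∈ A) * (f a * g b)
      = (chi (a = w) * f a) * (chi (b ∈ A) * g b) := fun a b => by rw [chi_and]; ring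
  simp_rw [h]
  rw [sum_prod, sum_eq_mul, sum_mem_mul]

theorem sum_pair' (w : V) (A : Finset V) (f g : V → ℝ) :
    ∑ a, ∑ b, chi (b = w ∧ a ∈ A) * (f a * g b) = g w * ∑ a ∈ A, f a := by
  rw [Finset.sum_comm, ← sum_pair w A g f]
  exact Finset.sum_congr rfl fun a _ => Finset.sum_congr rfl fun b _ => by ring

theorem JE_row (w u : V) (B : Finset V) (x : V → ℝ) {v : V} (hv : v ≠ w) (hv' : v ≠ u) :
    ∑ z, JE w u B v z * x z = chi (v ∈ B) * x u := by
  have h : ∀ z, JE w u B v z * x z = chi (v ∈ B) * (chi (z = u) * x z) := by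
    intro z
    unfold JE
    rw [chi_neg (p := v = u ∧ z ∈ B) (fun h => hv' h.1),
      chi_neg (p := v = w ∧ z = u) (fun h => hv h.1),
      chi_neg (p := v = u ∧ z = w) (fun h => hv' h.1), chi_and]
    ring
  simp_rw [h]
  rw [← Finset.mul_sum, sum_eq_mul]

omit [Fintype V] in
theorem sum_class {B B' : Finset V} {c : V → Fin r}
    (h : ∀ i, (cl B c i).card = (cl B' c i).card) (f : Fin r → ℝ) :
    ∑ v ∈ B, f (c v) = ∑ v ∈ B', f (c v) := by
  rw [← sum_cl B c, ← sum_cl B' c]
  refine Finset.sum_congr rfl fun i _ => ?_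
  rw [Finset.sum_congr rfl (g := fun _ => f i) fun v hv => by rw [(mem_cl.1 hv).2],
    Finset.sum_congr (s₁ := cl B' c i) rfl (g := fun _ => f i)
      fun v hv => by rw [(mem_cl.1 hv).2],
    Finset.sum_const, Finset.sum_const, h]

omit [Fintype V] in
theorem sum_chi_A {A B : Finset V} (h : OneOut A B) : ∑ v ∈ B, chi (v ∈ A) = B.card - 1 := by
  classical
  obtain ⟨b, hb, hbA, hu⟩ := h
  have h1 : ∀ v ∈ B, chi (v ∈ A) = 1 - (if v = b then (1 : ℝ) else 0) := by
    intro v hv
    by_cases hvb : v = b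
    · rw [if_pos hvb, hvb, chi_neg hbA]; ring
    · rw [if_neg hvb, chi_pos (by_contra fun h => hvb (hu v hv h))]; ring
  rw [Finset.sum_congr rfl h1, Finset.sum_sub_distrib, Finset.sum_ite_eq' B b, if_pos hb,
    Finset.sum_const, nsmul_eq_mul, mul_one]

theorem sum_chi_comm (B B' : Finset V) : ∑ v ∈ B', chi (v ∈ B) = ∑ v ∈ B, chi (v ∈ B') := by
  rw [← sum_mem_mul B' (fun v => chi (v ∈ B)), ← sum_mem_mul B (fun v => chi (v ∈ B'))]
  exact Finset.sum_congr rfl fun a _ => mul_comm _ _

/-- difference of the sums of the eigenvector over two sets -/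
theorem diff {H A B B' C : Finset V} {c : V → Fin r} {w u : V} {x : V → ℝ} {lam : ℝ}
    (hw : w ∉ H) (hu : u ∉ H) (hB : B ⊆ H) (hB' : B' ⊆ H)
    (hcl : ∀ i, (cl B c i).card = (cl B' c i).card) (h1 : OneOut A B) (h1' : OneOut A B')
    (heig : ∀ v ∈ H, lam * x v = (∑ u ∈ H, x u - cs x H c (c v)) + chi (v ∈ A) * x w
      + ∑ z, JE w u C v z * x z) :
    lam * (∑ v ∈ B', x v - ∑ v ∈ B, x v)
      = (∑ v ∈ B', chi (v ∈ C) - ∑ v ∈ B, chi (v ∈ C)) * x u := by
  have hval : ∀ v ∈ H, lam * x v = (∑ u ∈ H, x u - cs x H c (c v)) + chi (v ∈ A) * x w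
      + chi (v ∈ C) * x u := by
    intro v hv
    rw [heig v hv, JE_row w u C x (fun h => hw (h ▸ hv)) (fun h => hu (h ▸ hv))]
  have hs : ∀ D : Finset V, D ⊆ H → lam * ∑ v ∈ D, x v
      = ∑ v ∈ D, (∑ u ∈ H, x u - cs x H c (c v)) + (∑ v ∈ D, chi (v ∈ A)) * x w
        + (∑ v ∈ D, chi (v ∈ C)) * x u := by
    intro D hD
    rw [Finset.mul_sum, Finset.sum_congr rfl fun v hv => hval v (hD hv),
      Finset.sum_add_distrib, Finset.sum_add_distrib, ← Finset.sum_mul, ← Finset.sum_mul]
  have hc : ∑ v ∈ B, (∑ u ∈ H, x u - cs x H c (c v))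
      = ∑ v ∈ B', (∑ u ∈ H, x u - cs x H c (c v)) :=
    sum_class hcl (fun i => ∑ u ∈ H, x u - cs x H c i)
  have hcard : (B.card : ℝ) = B'.card := by
    rw [← sum_card_cl B c, ← sum_card_cl B' c, Finset.sum_congr rfl fun i _ => hcl i]
  rw [mul_sub, hs B hB, hs B' hB', hc, sum_chi_A h1, sum_chi_A h1', hcard]
  ring

theorem main {G G' : SimpleGraph V} {H A B B' : Finset V} {c : V → Fin r} {w u : V}
    {x y : V → ℝ} {lam lam' : ℝ} (hCSE : Stmt_CSE)
    (hF : Fam G H c w A (JE w u B)) (hF' : Fam G' H c w A (JE w u B'))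
    (hx : PV G x lam) (hy : PV G' y lam') (hu : u ∉ H) (hB : B ⊆ H) (hB' : B' ⊆ H)
    (hcl : ∀ i, (cl B c i).card = (cl B' c i).card) (h1 : OneOut A B) (h1' : OneOut A B')
    (hl : 0 < lam) (hl' : 0 < lam') (hxy : 0 < ∑ v, x v * y v) : lam = lam' := by
  have e1 := (hCSE r V G H c w A _ x lam hF hx).1
  have e2 := (hCSE r V G' H c w A _ y lam' hF' hy).1
  have d1 := diff hF.hw hu hB hB' hcl h1 h1' e1
  have d2 := diff hF.hw hu hB hB' hcl h1 h1' e2
  have hp := pairing hx hy
  have hsum : ∑ a, ∑ b, (ad G' a b - ad G a b) * (x a * y b)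
      = x u * (∑ v ∈ B', y v - ∑ v ∈ B, y v) + y u * (∑ v ∈ B', x v - ∑ v ∈ B, x v) := by
    have h : ∀ a b, (ad G' a b - ad G a b) * (x a * y b)
        = chi (a = u ∧ b ∈ B') * (x a * y b) + chi (b = u ∧ a ∈ B') * (x a * y b)
          - (chi (a = u ∧ b ∈ B) * (x a * y b) + chi (b = u ∧ a ∈ B) * (x a * y b)) := by
      intro a b
      rw [hF.adj, hF'.adj]
      unfold JE
      ring
    simp_rw [h, Finset.sum_sub_distrib, Finset.sum_add_distrib]
    rw [sum_pair, sum_pair', sum_pair, sum_pair']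
    ring
  rw [hsum] at hp
  have hcard : (B.card : ℝ) = B'.card := by
    rw [← sum_card_cl B c, ← sum_card_cl B' c, Finset.sum_congr rfl fun i _ => hcl i]
  have hBB : ∑ v ∈ B, chi (v ∈ B) = (B.card : ℝ) := by
    rw [Finset.sum_congr rfl fun v hv => chi_pos hv, Finset.sum_const, nsmul_eq_mul, mul_one]
  have hBB' : ∑ v ∈ B', chi (v ∈ B') = (B'.card : ℝ) := by
    rw [Finset.sum_congr rfl fun v hv => chi_pos hv, Finset.sum_const, nsmul_eq_mul, mul_one]
  rw [hBB] at d1
  rw [hBB', ← sum_chi_comm B B'] at d2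
  set D : ℝ := (B.card : ℝ) - ∑ v ∈ B', chi (v ∈ B) with hD
  have hD0 : 0 ≤ D := by
    have : ∑ v ∈ B', chi (v ∈ B) ≤ ∑ _v ∈ B', (1 : ℝ) :=
      Finset.sum_le_sum fun v _ => chi_le_one _
    rw [Finset.sum_const, nsmul_eq_mul, mul_one] at this
    rw [hD, hcard]; linarith
  have d1' : lam * (∑ v ∈ B', x v - ∑ v ∈ B, x v) = - D * x u := by rw [d1, hD]; ring
  have d2' : lam' * (∑ v ∈ B', y v - ∑ v ∈ B, y v) = D * y u := by
    rw [d2, hD, hcard]
  have f1 : ∑ v ∈ B', x v - ∑ v ∈ B, x v = - D * x u / lam := by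
    rw [eq_div_iff hl.ne', ← d1']; ring
  have f2 : ∑ v ∈ B', y v - ∑ v ∈ B, y v = D * y u / lam' := by
    rw [eq_div_iff hl'.ne', ← d2']; ring
  rw [f1, f2] at hp
  have hp' : D * (x u * y u) * (lam - lam') = lam * lam' * ((lam' - lam) * ∑ v, x v * y v) := by
    rw [← hp]
    field_simp
    ring
  have hq : 0 ≤ D * (x u * y u) := mul_nonneg hD0 (mul_nonneg (hx.nn u) (hy.nn u))
  have hq' : 0 < lam * lam' * ∑ v, x v * y v := mul_pos (mul_pos hl hl') hxy
  have hz : (D * (x u * y u) + lam * lam' * ∑ v, x v * y v) * (lam - lam') = 0 := by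
    linear_combination hp'
  rcases mul_eq_zero.1 hz with h | h
  · exfalso; linarith
  · linarith

end

end TIE

end Pool.Agent.Work.MP_5532fa_up

end
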