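import Mathlib
import Pool.Agent.Work.MP_5532fa_full.P02
import Pool.Agent.Work.MP_5532fa_full.P03
import Pool.Agent.Work.MP_5532fa_full.P10

section

/-!
# MP_5532fa_co, upgrade: the final theorems from the blocks
-/

open Finset

namespace Pool.Agent.Work.MP_5532fa_up

open MP5532fa (specRad qf pE)

/-- maximal graphs exist -/
theorem exists_MX {V : Type} [Fintype V] {r : ℕ} (G : SimpleGraph V)
    (h1 : G.CliqueFree (r + 1)) (h2 : ¬ G.Colorable r) :
    ∃ Gm : SimpleGraph V, Gm.CliqueFree (r + 1) ∧ ¬ Gm.Colorable r ∧ pE Gm = pE G ∧ MX r Gm ∧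
      specRad G ≤ specRad Gm := by
  classical
  set S : Set (SimpleGraph V) :=
    {G' | G'.CliqueFree (r + 1) ∧ ¬ G'.Colorable r ∧ pE G' = pE G} with hS
  have hfin : S.Finite := Set.toFinite S
  have hne : S.Nonempty := ⟨G, h1, h2, rfl⟩
  obtain ⟨Gm, hGm, hmax⟩ := Set.exists_max_image S (fun G' => specRad G') hfin hne
  refine ⟨Gm, hGm.1, hGm.2.1, hGm.2.2, ?_, hmax G ⟨h1, h2, rfl⟩⟩
  intro G' a b e
  exact hmax G' ⟨a, b, e.trans hGm.2.2⟩

/-- class membership of the type D graphs -/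
theorem typeD_class {V : Type} [Fintype V] {r N j : ℕ} (hTN : Stmt_TN) (hGD : Stmt_GD)
    (hr : 3 ≤ r) (hN : 3 * r ≤ N) {G : SimpleGraph V} (h : TypeD r N j G) :
    G.CliqueFree (r + 1) ∧ ¬ G.Colorable r ∧ pE G = 2 * ((tn r N : ℝ) + j) := by
  obtain ⟨H, c, w, A, v1, v2, hWD, hA, hB, hP, hT⟩ := h
  obtain ⟨h1, h2, h3⟩ := hGD r hr V G N H c w A v1 v2 hWD
  refine ⟨h1, h2 ?_, ?_⟩
  · intro i
    by_contra hi
    push Not at hi
    have hk : ∀ k, (cl H c k).card ≤ 2 := fun k => by have := hB k i; omega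
    have := sum_card_cl H c
    rw [hWD.card] at this
    have h4 : ∑ k, (cl H c k).card ≤ ∑ _k : Fin r, 2 := Finset.sum_le_sum fun k _ => hk k
    simp only [Finset.sum_const, Finset.card_univ, Fintype.card_fin, smul_eq_mul] at h4
    omega
  · have h5 := sum_sq_bal hTN hr hWD.card hB
    rw [h3, hA]
    push_cast
    linarith

/-- class membership of the type E graphs -/
theorem typeE_class {V : Type} [Fintype V] {r N j : ℕ} (hTN : Stmt_TN) (hGE : Stmt_GE)
    (hr : 3 ≤ r) (hN : 3 * r ≤ N) {G : SimpleGraph V} (h : TypeE r N j G) :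
    G.CliqueFree (r + 1) ∧ ¬ G.Colorable r ∧ pE G = 2 * ((tn r N : ℝ) + j) := by
  obtain ⟨H, c, w, u, A, B, i0, hWE, hO, hA, hB, hP, hT⟩ := h
  obtain ⟨h1, h2, h3⟩ := hGE r hr V G N H c w u A B i0 hWE
  refine ⟨h1, h2 ?_, ?_⟩
  · intro i
    by_contra hi
    push Not at hi
    have hk : ∀ k, (cl H c k).card ≤ 1 := fun k => by have := hB k i; omega
    have := sum_card_cl H c
    rw [hWE.card] at this
    have h4 : ∑ k, (cl H c k).card ≤ ∑ _k : Fin r, 1 := Finset.sum_le_sum fun k _ => hk k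
    simp only [Finset.sum_const, Finset.card_univ, Fintype.card_fin, smul_eq_mul] at h4
    omega
  · have h5 := sum_sq_bal hTN hr hWE.card hB
    have h6 : (A.card : ℝ) + r = j := by exact_mod_cast hA
    rw [h3]
    linarith

/-- lower bound for the type D graphs -/
theorem typeD_low (hLOWG : Stmt_LOWG) {r : ℕ} (hr : 3 ≤ r) {δ : ℝ} (hδ : 0 < δ) :
    ∃ N0 : ℕ, ∀ N ≥ N0, ∀ (j : ℕ) (V : Type) [Fintype V] (G : SimpleGraph V), TypeD r N j G →
      al r * N + (j : ℝ) ^ 2 / (al r * N ^ 2) - δ ≤ specRad G := by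
  obtain ⟨K, hK, H⟩ := hLOWG r 1 hr le_rfl
  obtain ⟨N1, hN1⟩ := exists_nat_gt (K + ((r + K) / δ) ^ 2 + 1)
  refine ⟨N1, ?_⟩
  intro N hN j V _ G hT
  obtain ⟨Hs, c, w, A, v1, v2, hWD, hA, hB, hP, hTop⟩ := hT
  have hNr : K + ((r + K) / δ) ^ 2 + 1 < (N : ℝ) := lt_of_lt_of_le hN1 (by exact_mod_cast hN)
  have hsq : 0 ≤ ((r + K) / δ) ^ 2 := sq_nonneg _
  have hN1' : (1 : ℝ) ≤ N := by linarith
  have hN0 : (0:ℝ) < N := by linarith
  have hs1 : (1:ℝ) ≤ √(N:ℝ) := by rw [Real.one_le_sqrt]; exact hN1'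
  have hrr : (3 : ℝ) ≤ r := by exact_mod_cast hr
  -- class sizes
  have hdev : ∀ i, |sz Hs c i - N / r| ≤ 1 := by
    intro i
    have hsum : ∑ k, sz Hs c k = (N : ℝ) := by
      have := sum_card_cl Hs c
      rw [hWD.card] at this
      unfold sz
      exact_mod_cast this
    have e : (r : ℝ) * (sz Hs c i - N / r) = ∑ k, (sz Hs c i - sz Hs c k) := by
      rw [Finset.sum_sub_distrib, hsum]
      simp only [Finset.sum_const, Finset.card_univ, Fintype.card_fin, nsmul_eq_mul]
      field_simp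
    have h1 : |∑ k, (sz Hs c i - sz Hs c k)| ≤ r * 1 := by
      refine (Finset.abs_sum_le_sum_abs _ _).trans ?_
      have : ∑ k : Fin r, |sz Hs c i - sz Hs c k| ≤ ∑ _k : Fin r, (1:ℝ) := by
        refine Finset.sum_le_sum fun k _ => ?_
        have a1 : sz Hs c i ≤ sz Hs c k + 1 := by unfold sz; exact_mod_cast hB i k
        have a2 : sz Hs c k ≤ sz Hs c i + 1 := by unfold sz; exact_mod_cast hB k i
        rw [abs_le]; constructor <;> linarith
      simpa using this
    rw [← e, abs_mul, abs_of_pos (by linarith : (0:ℝ) < r)] at h1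
    exact le_of_mul_le_mul_left h1 (by linarith)
  have hlow := H V G N Hs c w A v1 v2 hWD (by linarith) (fun i => (hdev i).trans (by linarith))
  have himb : imb Hs c ≤ r := by
    unfold imb
    rw [hWD.card]
    calc ∑ i, (sz Hs c i - (N:ℝ) / r) ^ 2 ≤ ∑ _i : Fin r, (1:ℝ) := by
          refine Finset.sum_le_sum fun i _ => ?_
          have := hdev i
          rw [← sq_abs]
          nlinarith [abs_nonneg (sz Hs c i - (N:ℝ) / r)]
      _ = r := by simp
  have himb0 : 0 ≤ imb Hs c := Finset.sum_nonneg fun i _ => sq_nonneg _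
  have hal := al_ge hr
  have hal1 := al_lt hr
  have t1 : al r * imb Hs c / N ≤ r / √N := by
    have a1 : al r * imb Hs c ≤ r := by nlinarith
    have a2 : √(N:ℝ) ≤ N := by
      rw [Real.sqrt_le_left (by linarith)]
      nlinarith
    calc al r * imb Hs c / N ≤ r / N := div_le_div_of_nonneg_right a1 hN0.le
      _ ≤ r / √N := div_le_div_of_nonneg_left (by linarith) (by linarith) a2
  have t2 : (j : ℝ) ^ 2 / (al r * N ^ 2) ≤ al r * ((A.card : ℝ) / (al r * N)) ^ 2 := by
    have e : al r * ((A.card : ℝ) / (al r * N)) ^ 2 = (A.card : ℝ) ^ 2 / (al r * N ^ 2) := by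
      field_simp
    rw [e]
    apply div_le_div_of_nonneg_right _ (by positivity)
    rw [hA]
    push_cast
    have : (0:ℝ) ≤ j := Nat.cast_nonneg j
    nlinarith
  have t3 : (r + K) / √N ≤ δ := by
    rw [div_le_iff₀ (by linarith)]
    have : (r + K) / δ ≤ √(N:ℝ) := by
      apply Real.le_sqrt_of_sq_le
      linarith
    rw [div_le_iff₀ hδ] at this
    linarith
  have t4 : (r + K) / √(N:ℝ) = r / √N + K / √N := by ring
  linarith

/-- the final theorem for the linear range -/
theorem main_lin (hSTR : Stmt_STR) (hTN : Stmt_TN) (hGD : Stmt_GD) (hGE : Stmt_GE)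
    (hLOWG : Stmt_LOWG) (hEXD : Stmt_EXD) (hEXE : Stmt_EXE) (hISOD : Stmt_ISOD)
    (hISOE : Stmt_ISOE) (hTRANS : Stmt_TRANS) (hTHRE : Stmt_THRE) (hTHRD : Stmt_THRD)
    (r : ℕ) (ε : ℝ) (hr : 3 ≤ r) (hε : 0 < ε) : ∃ N0 : ℕ, ∀ N ≥ N0, ∀ j : ℕ, Rg r ε N j →
    ∃ lD lE : ℝ,
      (∀ (V : Type) [Fintype V] (G : SimpleGraph V), TypeD r N j G →
        (G.CliqueFree (r + 1) ∧ ¬ G.Colorable r ∧ pE G = 2 * ((tn r N : ℝ) + j)) ∧
          specRad G = lD) ∧
      (∀ (V : Type) [Fintype V] (G : SimpleGraph V), TypeE r N j G →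
        (G.CliqueFree (r + 1) ∧ ¬ G.Colorable r ∧ pE G = 2 * ((tn r N : ℝ) + j)) ∧
          specRad G = lE) ∧
      (∃ G : SimpleGraph (Fin (N + 2)), TypeD r N j G) ∧
      (∃ G : SimpleGraph (Fin (N + 2)), TypeE r N j G) ∧
      (∀ (V : Type) [Fintype V] (G : SimpleGraph V), G.CliqueFree (r + 1) → ¬ G.Colorable r →
        pE G = 2 * ((tn r N : ℝ) + j) → specRad G ≤ max lD lE ∧
          (specRad G = max lD lE ↔
            (TypeD r N j G ∧ lE ≤ lD) ∨ (TypeE r N j G ∧ lD ≤ lE))) ∧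
      (((r : ℝ) + 1) * (j / (al r * N)) ≤ 1 - ε → lD < lE) ∧
      (1 + (j / (al r * N)) ^ 4 / (r * ((r : ℝ) - 1)) + ε ≤ ((r : ℝ) + 1) * (j / (al r * N)) →
        lE < lD) := by
  classical
  obtain ⟨δ1, n1, hδ1, H1⟩ := hSTR r ε hr hε
  obtain ⟨n2, H2⟩ := typeD_low hLOWG hr hδ1
  obtain ⟨n3, H3⟩ := hEXD r ε hr hε
  obtain ⟨n4, H4⟩ := hEXE r ε hr hε
  obtain ⟨n5, H5⟩ := hISOD r ε hr hε
  obtain ⟨n6, H6⟩ := hISOE r ε hr hε
  obtain ⟨n7, H7⟩ := hTHRE r ε hr hε
  obtain ⟨n8, H8⟩ := hTHRD r ε hr hε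
  refine ⟨n1 + n2 + n3 + n4 + n5 + n6 + n7 + n8 + 3 * r, ?_⟩
  intro N hN j hRg
  obtain ⟨GD, hGDt⟩ := H3 N (by omega) j hRg (Fin (N + 2)) (by simp)
  obtain ⟨GE, hGEt⟩ := H4 N (by omega) j hRg (Fin (N + 2)) (by simp)
  have cD := typeD_class hTN hGD hr (by omega) hGDt
  have cE := typeE_class hTN hGE hr (by omega) hGEt
  set lD := specRad GD with hlD
  set lE := specRad GE with hlE
  have hD : ∀ (V : Type) [Fintype V] (G : SimpleGraph V), TypeD r N j G → specRad G = lD :=
    fun V _ G hG => H5 N (by omega) j hRg V (Fin (N + 2)) G GD hG hGDt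
  have hE : ∀ (V : Type) [Fintype V] (G : SimpleGraph V), TypeE r N j G → specRad G = lE :=
    fun V _ G hG => H6 N (by omega) j hRg V (Fin (N + 2)) G GE hG hGEt
  have hlow : al r * N + (j : ℝ) ^ 2 / (al r * N ^ 2) - δ1 ≤ lD :=
    H2 N (by omega) j (Fin (N + 2)) GD hGDt
  -- transfer
  have htr : ∀ (V V' : Type) [Fintype V] [Fintype V'] (G : SimpleGraph V),
      G.CliqueFree (r + 1) → ¬ G.Colorable r → pE G = 2 * ((tn r N : ℝ) + j) →
      Fintype.card V ≤ Fintype.card V' → ∃ G' : SimpleGraph V', G'.CliqueFree (r + 1) ∧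
        ¬ G'.Colorable r ∧ pE G' = 2 * ((tn r N : ℝ) + j) ∧ specRad G' = specRad G := by
    intro V V' _ _ G a b c hc
    have hV : Nonempty V := by
      by_contra h
      rw [not_nonempty_iff] at h
      exact b (SimpleGraph.Colorable.of_isEmpty _)
    obtain ⟨G', e1, e2, e3⟩ := hTRANS V V' G hV hc
    exact ⟨G', (e3 r (by omega)).1 a, fun h => b ((e3 r (by omega)).2 h), e2.trans c, e1⟩
  -- the key fact
  have key : ∀ (V : Type) [Fintype V] (G : SimpleGraph V), G.CliqueFree (r + 1) →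
      ¬ G.Colorable r → pE G = 2 * ((tn r N : ℝ) + j) → specRad G ≤ max lD lE := by
    intro V _ G a b c
    set V' := V ⊕ Fin (N + 2) with hV'
    obtain ⟨G1, a1, b1, c1, e1⟩ := htr V V' G a b c (by simp [hV'])
    obtain ⟨G2, a2, b2, c2, e2⟩ := htr (Fin (N + 2)) V' GD cD.1 cD.2.1 cD.2.2 (by simp [hV'])
    obtain ⟨Gm, am, bm, cm, hMX, hle⟩ := exists_MX G1 a1 b1
    have cm' : pE Gm = 2 * ((tn r N : ℝ) + j) := cm.trans c1
    have h2 : specRad G2 ≤ specRad Gm := hMX G2 a2 b2 (c2.trans cm'.symm)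
    have hst := H1 N (by omega) j hRg V' Gm am bm hMX cm' (by rw [e2] at h2; linarith)
    have h3 : specRad G ≤ specRad Gm := by rw [← e1]; exact hle
    rcases hst with h | h
    · rw [hD V' Gm h] at h3
      exact h3.trans (le_max_left _ _)
    · rw [hE V' Gm h] at h3
      exact h3.trans (le_max_right _ _)
  have hnotMX : ∀ (V : Type) [Fintype V] (G : SimpleGraph V),
      pE G = 2 * ((tn r N : ℝ) + j) → ¬ MX r G → specRad G < max lD lE := by
    intro V _ G c h
    unfold MX at h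
    push Not at h
    obtain ⟨G', a', b', c', hlt⟩ := h
    exact lt_of_lt_of_le hlt (key V G' a' b' (c'.trans c))
  refine ⟨lD, lE, fun V _ G hG => ⟨typeD_class hTN hGD hr (by omega) hG, hD V G hG⟩,
    fun V _ G hG => ⟨typeE_class hTN hGE hr (by omega) hG, hE V G hG⟩, ⟨GD, hGDt⟩, ⟨GE, hGEt⟩,
    ?_, ?_, ?_⟩
  · intro V _ G a b c
    refine ⟨key V G a b c, ?_, ?_⟩
    · intro heq
      have hMX : MX r G := by
        intro G' a' b' c'
        rw [heq]
        exact key V G' a' b' (c'.trans c)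
      have hst := H1 N (by omega) j hRg V G a b hMX c
        (by rw [heq]; exact hlow.trans (le_max_left _ _))
      rcases hst with h | h
      · left
        refine ⟨h, ?_⟩
        rw [hD V G h] at heq
        rw [heq]; exact le_max_right _ _
      · right
        refine ⟨h, ?_⟩
        rw [hE V G h] at heq
        rw [heq]; exact le_max_left _ _
    · rintro (⟨h, hle⟩ | ⟨h, hle⟩)
      · rw [hD V G h, max_eq_left hle]
      · rw [hE V G h, max_eq_right hle]
  · intro hX
    have h := hnotMX (Fin (N + 2)) GD cD.2.2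
      (H7 N (by omega) j hRg hX (Fin (N + 2)) GD (by simp) hGDt)
    rcases lt_max_iff.mp h with h | h
    · exact absurd h (lt_irrefl _)
    · exact h
  · intro hX
    have h := hnotMX (Fin (N + 2)) GE cE.2.2
      (H8 N (by omega) j hRg hX (Fin (N + 2)) GE hGEt)
    rcases lt_max_iff.mp h with h | h
    · exact h
    · exact absurd h (lt_irrefl _)

end Pool.Agent.Work.MP_5532fa_up

end

section

/-!
# MP_5532fa_co, upgrade: block THRD (for large `j` type E is not optimal)
-/

open Finset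

namespace Pool.Agent.Work.MP_5532fa_up

open MP5532fa (specRad qf pE)

namespace THRD

open E3

section
variable {V : Type} [Fintype V] {r : ℕ}

theorem JD_double (v1 v2 : V) (x y : V → ℝ) :
    ∑ a, ∑ b, JD v1 v2 a b * (x a * y b) = -(x v1 * y v2) - x v2 * y v1 := by
  rw [← sum2_eq v1 v2 x y, ← sum2_eq v2 v1 x y, ← Finset.sum_neg_distrib]
  simp only [← Finset.sum_neg_distrib, ← Finset.sum_sub_distrib]
  refine Finset.sum_congr rfl fun a _ => Finset.sum_congr rfl fun b _ => ?_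
  unfold JD; ring

theorem JD_row {v1 v2 v : V} (x : V → ℝ) (h1 : v ≠ v1) (h2 : v ≠ v2) :
    ∑ z, JD v1 v2 v z * x z = 0 := by
  refine Finset.sum_eq_zero fun z _ => ?_
  have e1 : chi (v = v1 ∧ z = v2) = 0 := chi_neg fun h => h1 h.1
  have e2 : chi (v = v2 ∧ z = v1) = 0 := chi_neg fun h => h2 h.1
  unfold JD
  rw [e1, e2]; ring

theorem bal_near {N : ℕ} {H : Finset V} {c : V → Fin r} (hr : 3 ≤ r) (hN : H.card = N)
    (hB : Bal H c) (i : Fin r) : |sz H c i - N / r| ≤ 1 := by
  have hr3 : (3 : ℝ) ≤ r := by exact_mod_cast hr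
  have hrp : (0 : ℝ) < r := by linarith
  have hs := sum_card_cl H c
  rw [hN] at hs
  have h1 : r * (cl H c i).card ≤ N + r := by
    have h : ∑ _k : Fin r, (cl H c i).card ≤ ∑ k : Fin r, ((cl H c k).card + 1) :=
      Finset.sum_le_sum fun k _ => hB i k
    rw [Finset.sum_add_distrib, hs] at h
    simpa using h
  have h2 : N ≤ r * (cl H c i).card + r := by
    have h : ∑ k : Fin r, (cl H c k).card ≤ ∑ _k : Fin r, ((cl H c i).card + 1) :=
      Finset.sum_le_sum fun k _ => hB k i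
    rw [hs] at h
    have h3 : ∑ _k : Fin r, ((cl H c i).card + 1) = r * (cl H c i).card + r := by
      simp [mul_add]
    rw [h3] at h; exact h
  have h1' : (r : ℝ) * sz H c i ≤ N + r := by unfold sz; exact_mod_cast h1
  have h2' : (N : ℝ) ≤ r * sz H c i + r := by unfold sz; exact_mod_cast h2
  rw [abs_le]
  constructor
  · have : (N : ℝ) / r ≤ sz H c i + 1 := by rw [div_le_iff₀ hrp]; linarith
    linarith
  · have : sz H c i - 1 ≤ (N : ℝ) / r := by rw [le_div_iff₀ hrp]; linarith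
    linarith

/-- among the largest classes different from `i0` one with the fewest vertices of `A` -/
theorem choose_class (hr : 3 ≤ r) (f g : Fin r → ℕ) (i0 : Fin r) :
    ∃ j0, j0 ≠ i0 ∧ (∀ l, l ≠ i0 → f l ≤ f j0) ∧ ∀ l, l ≠ i0 → f l = f j0 → g j0 ≤ g l := by
  classical
  have hne : ((univ : Finset (Fin r)).erase i0).Nonempty := by
    rw [← Finset.card_pos, Finset.card_erase_of_mem (Finset.mem_univ _), Finset.card_univ,
      Fintype.card_fin]
    omega
  obtain ⟨m, hm, hmax⟩ := Finset.exists_max_image _ f hne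
  have hne2 : (((univ : Finset (Fin r)).erase i0).filter (fun l => f l = f m)).Nonempty :=
    ⟨m, Finset.mem_filter.2 ⟨hm, rfl⟩⟩
  obtain ⟨j0, hj0, hmin⟩ := Finset.exists_min_image _ g hne2
  obtain ⟨h1, h2⟩ := Finset.mem_filter.1 hj0
  refine ⟨j0, Finset.ne_of_mem_erase h1, fun l hl => ?_, fun l hl hf => ?_⟩
  · rw [h2]; exact hmax l (Finset.mem_erase.2 ⟨hl, Finset.mem_univ _⟩)
  · exact hmin l (Finset.mem_filter.2
      ⟨Finset.mem_erase.2 ⟨hl, Finset.mem_univ _⟩, hf.trans h2⟩)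

theorem cardB {N : ℕ} {G : SimpleGraph V} {H A B : Finset V} {c : V → Fin r} {w u : V}
    {i0 : Fin r} (hW : WE G N H c w u A B i0) : B.card + 1 ≤ r := by
  classical
  rw [← sum_card_cl B c, ← Finset.add_sum_erase _ _ (Finset.mem_univ i0), hW.hB0,
    Finset.card_empty, zero_add]
  have h1 : ∑ i ∈ (univ : Finset (Fin r)).erase i0, (cl B c i).card
      = ∑ i ∈ (univ : Finset (Fin r)).erase i0, 1 :=
    Finset.sum_congr rfl fun i hi => hW.hB1 i (Finset.ne_of_mem_erase hi)
  rw [h1, Finset.sum_const, smul_eq_mul, Finset.card_erase_of_mem (Finset.mem_univ i0),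
    Finset.card_univ, Fintype.card_fin]
  have := i0.isLt
  omega

theorem sum_chi_le {A0 B : Finset V} {c : V → Fin r} {j0 : Fin r} (hA0 : ∀ v ∈ A0, c v = j0)
    (hB : (cl B c j0).card = 1) : ∑ v ∈ A0, chi (v ∈ B) ≤ 1 := by
  classical
  obtain ⟨b, hb⟩ := Finset.card_eq_one.1 hB
  have h1 : ∀ v ∈ A0, chi (v ∈ B) ≤ chi (v = b) * 1 := by
    intro v hv
    by_cases h : v ∈ B
    · have h2 : v ∈ cl B c j0 := mem_cl.2 ⟨h, hA0 v hv⟩
      rw [hb, Finset.mem_singleton] at h2
      rw [chi_pos h, chi_pos h2, mul_one]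
    · rw [chi_neg h, mul_one]; exact chi_nonneg _
  calc ∑ v ∈ A0, chi (v ∈ B) ≤ ∑ v ∈ A0, chi (v = b) * 1 := Finset.sum_le_sum h1
    _ ≤ ∑ v, chi (v = b) * 1 :=
        Finset.sum_le_sum_of_subset_of_nonneg (Finset.subset_univ _) fun v _ _ => by
          rw [mul_one]; exact chi_nonneg _
    _ = 1 := sum_chi_eq b (fun _ => 1)

end

theorem numW {r X e al N m a xb yb xw yw xu lam W : ℝ} (hr : 3 ≤ r) (hX0 : 0 ≤ X) (hX1 : X ≤ 1)
    (he0 : 0 < e) (he1 : e ≤ 1 / 12) (hal : al = 1 - 1 / r) (hal1 : 2 / 3 ≤ al)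
    (hN1 : 1 ≤ N) (hN2 : r + 1 ≤ e * N) (hra : r * a ≤ X * N) (hm0 : 0 ≤ m) (hma : m ≤ a)
    (hlam : (al - e) * N ≤ lam) (hxb : 0 < xb) (hyb : 0 < yb) (hxw0 : 0 ≤ xw)
    (hxw : xw ≤ (X + e) * xb) (hyw0 : 0 ≤ yw) (hyw : yw ≤ (X + e) * yb) (hxu0 : 0 ≤ xu)
    (hxu : xu ≤ e * xb)
    (hW : -(m * (xw * yb * (X * ((2 * a + r) / N) + e) + yw * xb * (X * (1 / N) + e)))
      - yw * xu ≤ lam * W) :
    -(xb * yb * (2 * (X ^ 4 / (r * (r - 1))) + 11 * e)) ≤ W := by
  have hNp : 0 < N := by linarith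
  have hrp : 0 < r := by linarith
  have ha0 : 0 ≤ a := hm0.trans hma
  set M := xb * yb with hM
  have hMp : 0 < M := mul_pos hxb hyb
  set κ := X * (1 / N) + e with hκ
  set κ' := X * ((2 * a + r) / N) + e with hκ'
  have hκ0 : 0 ≤ κ := by positivity
  have hκ'0 : 0 ≤ κ' := by positivity
  have hXe : 0 ≤ X + e := by linarith
  have s1 : xw * yb * κ' + yw * xb * κ ≤ (X + e) * M * (κ + κ') := by
    have h1 : xw * yb * κ' ≤ (X + e) * xb * yb * κ' :=
      mul_le_mul_of_nonneg_right (mul_le_mul_of_nonneg_right hxw hyb.le) hκ'0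
    have h2 : yw * xb * κ ≤ (X + e) * yb * xb * κ :=
      mul_le_mul_of_nonneg_right (mul_le_mul_of_nonneg_right hyw hxb.le) hκ0
    rw [hM]; linarith
  have s1' : 0 ≤ (X + e) * M * (κ + κ') := by positivity
  have s2 : m * (xw * yb * κ' + yw * xb * κ) ≤ a * ((X + e) * M * (κ + κ')) :=
    (mul_le_mul_of_nonneg_left s1 hm0).trans (mul_le_mul_of_nonneg_right hma s1')
  have s3 : yw * xu ≤ (X + e) * M * e := by
    have h1 : yw * xu ≤ ((X + e) * yb) * (e * xb) :=
      mul_le_mul hyw hxu hxu0 (by positivity)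
    calc yw * xu ≤ ((X + e) * yb) * (e * xb) := h1
      _ = (X + e) * M * e := by rw [hM]; ring
  -- bound for a (κ + κ')
  set z := 2 * X ^ 3 / r ^ 2 with hz
  have hz0 : 0 ≤ z := by positivity
  have haN : a / N ≤ X / r := by
    rw [div_le_div_iff₀ hNp hrp]; linarith
  have haN0 : 0 ≤ a / N := by positivity
  have hXr : X / r ≤ 1 / 3 := by
    rw [div_le_div_iff₀ hrp (by norm_num)]; linarith
  have hXr0 : 0 ≤ X / r := by positivity
  have s4 : a * (κ + κ') + e ≤ N * (z + 2 * e) := by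
    have h1 : a * (κ + κ') = N * (2 * X * (a / N) ^ 2 + (a / N) * (X * ((r + 1) / N) + 2 * e)) := by
      rw [hκ, hκ']; field_simp; ring
    have h2 : (a / N) ^ 2 ≤ (X / r) ^ 2 := pow_le_pow_left₀ haN0 haN 2
    have h3 : 2 * X * (a / N) ^ 2 ≤ z := by
      have : 2 * X * (X / r) ^ 2 = z := by rw [hz]; field_simp
      rw [← this]
      exact mul_le_mul_of_nonneg_left h2 (by linarith)
    have h4 : (r + 1) / N ≤ e := by rw [div_le_iff₀ hNp]; exact hN2
    have h4' : 0 ≤ (r + 1) / N := by positivity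
    have h5 : X * ((r + 1) / N) + 2 * e ≤ 3 * e := by linarith [mul_le_mul_of_nonneg_right hX1 h4']
    have h6 : (a / N) * (X * ((r + 1) / N) + 2 * e) ≤ 1 / 3 * (3 * e) :=
      mul_le_mul (haN.trans hXr) h5 (by positivity) (by norm_num)
    rw [h1]
    have h7 : e ≤ N * e := by linarith
    linarith [mul_le_mul_of_nonneg_left (add_le_add h3 h6) hNp.le]
  have s5 : -((X + e) * M * (N * (z + 2 * e))) ≤ lam * W := by
    have h1 : (X + e) * M * (a * (κ + κ') + e) ≤ (X + e) * M * (N * (z + 2 * e)) :=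
      mul_le_mul_of_nonneg_left s4 (by positivity)
    linarith
  by_contra hneg
  push Not at hneg
  set q := X ^ 4 / (r * (r - 1)) with hq
  have hr1 : 0 < r - 1 := by linarith
  have hq0 : 0 ≤ q := by positivity
  have hX4 : X ^ 4 ≤ 1 := pow_le_one₀ hX0 hX1
  have hX3 : X ^ 3 ≤ 1 := pow_le_one₀ hX0 hX1
  have hq1 : q ≤ 1 / 6 := by
    rw [hq, div_le_div_iff₀ (by positivity) (by norm_num)]
    linarith [mul_le_mul hr (show (2 : ℝ) ≤ r - 1 by linarith) (by norm_num) (by linarith)]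
  have hz1 : z ≤ 2 / 9 := by
    rw [hz, div_le_div_iff₀ (by positivity) (by norm_num)]
    linarith [pow_le_pow_left₀ (by norm_num) hr 2]
  have halq : al * (2 * q) = X * z := by
    rw [hq, hz, hal]; field_simp
  have hW0 : W < 0 := lt_of_lt_of_le hneg (by
    have : 0 ≤ M * (2 * q + 11 * e) := by positivity
    linarith)
  have t1 : lam * W ≤ (al - e) * N * W := mul_le_mul_of_nonpos_right hlam hW0.le
  have hale : 0 < al - e := by linarith
  have t2 : (al - e) * N * W < (al - e) * N * (-(M * (2 * q + 11 * e))) :=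
    mul_lt_mul_of_pos_left hneg (by positivity)
  have t3 : (al - e) * (2 * q + 11 * e) * (N * M) < (X + e) * (z + 2 * e) * (N * M) := by
    linarith
  have t4 : (al - e) * (2 * q + 11 * e) < (X + e) * (z + 2 * e) :=
    lt_of_mul_lt_mul_right t3 (by positivity)
  have u1 : e * (2 * q) ≤ e * (1 / 3) := mul_le_mul_of_nonneg_left (by linarith) he0.le
  have u2 : e * z ≤ e * (2 / 9) := mul_le_mul_of_nonneg_left hz1 he0.le
  have u3 : e * X ≤ e * 1 := mul_le_mul_of_nonneg_left hX1 he0.le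
  have u4 : e * e ≤ e * (1 / 12) := mul_le_mul_of_nonneg_left he1 he0.le
  have u5 : e * (2 / 3) ≤ e * al := mul_le_mul_of_nonneg_left hal1 he0.le
  linarith

theorem final {r X e ε xb yb xw yw α β γ θ W q : ℝ} (hr : 3 ≤ r) (hX1 : X ≤ 1) (heX : e ≤ X)
    (he0 : 0 < e) (he1 : e ≤ 1 / 12) (heε : 16 * r * e ≤ ε) (hxb : 0 < xb) (hyb : 0 < yb)
    (hxw : (X - e) * xb ≤ xw) (hyw : (X - e) * yb ≤ yw)
    (hα : (r + 1) * ((1 - e) * yb) ≤ α) (hβ : (r + 1) * ((1 - e) * xb) ≤ β)
    (hγ : γ ≤ 2 * ((1 + e) * xb * ((1 + e) * yb))) (hθ : θ ≤ e * xb * (r * ((1 + e) * yb)))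
    (hWq : -(xb * yb * (2 * q + 11 * e)) ≤ W) (hX : 1 + q + ε ≤ (r + 1) * X)
    (hT : xw * α + yw * β - γ - θ + W ≤ 0) : False := by
  have hM : 0 < xb * yb := mul_pos hxb hyb
  have h1 : (X - e) * xb * ((r + 1) * ((1 - e) * yb)) ≤ xw * α := by
    have hα0 : 0 ≤ (r + 1) * ((1 - e) * yb) := by
      have : 0 ≤ 1 - e := by linarith
      positivity
    have h0 : 0 ≤ (X - e) * xb := mul_nonneg (by linarith) hxb.le
    exact mul_le_mul hxw hα hα0 (h0.trans hxw)
  have h2 : (X - e) * yb * ((r + 1) * ((1 - e) * xb)) ≤ yw * β := by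
    have hβ0 : 0 ≤ (r + 1) * ((1 - e) * xb) := by
      have : 0 ≤ 1 - e := by linarith
      positivity
    have h0 : 0 ≤ (X - e) * yb := mul_nonneg (by linarith) hyb.le
    exact mul_le_mul hyw hβ hβ0 (h0.trans hyw)
  have h3 : (xb * yb) * (2 * ((r + 1) * ((X - e) * (1 - e))) - 2 * (1 + e) ^ 2
      - e * r * (1 + e) - (2 * q + 11 * e)) ≤ 0 := by linarith
  have h4 : 2 * ((r + 1) * ((X - e) * (1 - e))) - 2 * (1 + e) ^ 2
      - e * r * (1 + e) - (2 * q + 11 * e) ≤ 0 := by
    by_contra hneg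
    push Not at hneg
    have := mul_pos hM hneg
    linarith
  have h5 : (r + 1) * (X - 2 * e) ≤ (r + 1) * ((X - e) * (1 - e)) := by
    refine mul_le_mul_of_nonneg_left ?_ (by linarith)
    linarith [mul_le_mul_of_nonneg_right hX1 he0.le, mul_nonneg he0.le he0.le]
  have h6 : (1 + e) ^ 2 ≤ 1 + 3 * e := by linarith [mul_le_mul_of_nonneg_right he1 he0.le]
  have h7 : e * r * (1 + e) ≤ e * r * 2 :=
    mul_le_mul_of_nonneg_left (by linarith) (by positivity)
  have h8 : 3 * e ≤ r * e := mul_le_mul_of_nonneg_right hr he0.le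
  have h9 : 0 < r * e := by positivity
  linarith

end THRD

end Pool.Agent.Work.MP_5532fa_up

end

section

/-!
# Block MV2: moving one vertex from a larger class to a smaller class
-/

set_option autoImplicit false

open Finset

namespace Pool.Agent.Work.MP_5532fa_up

open MP5532fa (specRad qf pE)

namespace MV2

section
variable {V : Type} [Fintype V] {r : ℕ}

theorem multi (H : Finset V) (c : V → Fin r) (x y : V → ℝ) :
    ∑ a, ∑ b, chi (a ∈ H ∧ b ∈ H ∧ c a ≠ c b) * (x a * y b) =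
      (∑ v ∈ H, x v) * (∑ v ∈ H, y v) - ∑ i, cs x H c i * cs y H c i := by
  classical
  have h1 : ∀ a, ∑ b, chi (a ∈ H ∧ b ∈ H ∧ c a ≠ c b) * (x a * y b) =
      chi (a ∈ H) * (x a * (∑ v ∈ H, y v) - x a * cs y H c (c a)) := by
    intro a
    have h2 : ∑ b, chi (a ∈ H ∧ b ∈ H ∧ c a ≠ c b) * (x a * y b) =
        x a * ∑ b, chi (a ∈ H ∧ b ∈ H ∧ c a ≠ c b) * y b := by
      rw [Finset.mul_sum]
      exact Finset.sum_congr rfl fun b _ => by ring
    rw [h2, CSE.row1]
    ring
  rw [Finset.sum_congr rfl fun a _ => h1 a]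
  have h3 : ∑ a, chi (a ∈ H) * (x a * (∑ v ∈ H, y v) - x a * cs y H c (c a)) =
      ∑ a ∈ H, (x a * (∑ v ∈ H, y v) - x a * cs y H c (c a)) := by
    rw [← Finset.sum_subset (Finset.subset_univ H)]
    · exact Finset.sum_congr rfl fun a ha => by rw [chi_pos ha, one_mul]
    · intro a _ ha
      rw [chi_neg ha, zero_mul]
  rw [h3, Finset.sum_sub_distrib, ← Finset.sum_mul, ← sum_cl H c (fun a => x a * cs y H c (c a))]
  congr 1
  refine Finset.sum_congr rfl fun i _ => ?_
  have h4 : ∀ a ∈ cl H c i, x a * cs y H c (c a) = x a * cs y H c i := fun a ha => by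
    rw [(mem_cl.1 ha).2]
  rw [Finset.sum_congr rfl h4, ← Finset.sum_mul]
  rfl

theorem dbl1 (A : Finset V) (w : V) (x y : V → ℝ) :
    ∑ p, ∑ q, chi (p = w ∧ q ∈ A) * (x p * y q) = x w * ∑ v ∈ A, y v := by
  classical
  rw [Finset.sum_eq_single w]
  · rw [Finset.mul_sum, ← Finset.sum_subset (Finset.subset_univ A)]
    · refine Finset.sum_congr rfl fun v hv => ?_
      rw [chi_pos ⟨rfl, hv⟩, one_mul]
    · intro v _ hv
      rw [chi_neg (fun h => hv h.2), zero_mul]
  · intro p _ hp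
    refine Finset.sum_eq_zero fun q _ => ?_
    rw [chi_neg (fun h => hp h.1), zero_mul]
  · intro h
    exact absurd (Finset.mem_univ w) h

theorem dbl2 (A : Finset V) (w : V) (x y : V → ℝ) :
    ∑ p, ∑ q, chi (q = w ∧ p ∈ A) * (x p * y q) = y w * ∑ v ∈ A, x v := by
  rw [Finset.sum_comm, ← dbl1 A w y x]
  refine Finset.sum_congr rfl fun p _ => Finset.sum_congr rfl fun q _ => ?_
  ring

variable {H : Finset V} {c c' : V → Fin r} {v : V}

omit [Fintype V] in
theorem cl_old (hv : v ∈ H) (h1 : c' v ≠ c v) (h2 : ∀ u, u ≠ v → c' u = c u) [DecidableEq V] :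
    cl H c' (c v) = (cl H c (c v)).erase v := by
  ext u
  rw [Finset.mem_erase, mem_cl, mem_cl]
  constructor
  · rintro ⟨h3, h4⟩
    have h5 : u ≠ v := fun h => h1 (h ▸ h4)
    exact ⟨h5, h3, (h2 u h5) ▸ h4⟩
  · rintro ⟨h5, h3, h4⟩
    exact ⟨h3, (h2 u h5).trans h4⟩

omit [Fintype V] in
theorem cl_new (hv : v ∈ H) (h1 : c' v ≠ c v) (h2 : ∀ u, u ≠ v → c' u = c u) [DecidableEq V] :
    cl H c' (c' v) = insert v (cl H c (c' v)) := by
  ext u
  rw [Finset.mem_insert, mem_cl, mem_cl]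
  by_cases h5 : u = v
  · subst h5
    exact ⟨fun _ => Or.inl rfl, fun _ => ⟨hv, rfl⟩⟩
  · constructor
    · rintro ⟨h3, h4⟩
      exact Or.inr ⟨h3, (h2 u h5) ▸ h4⟩
    · rintro (h | ⟨h3, h4⟩)
      · exact absurd h h5
      · exact ⟨h3, (h2 u h5).trans h4⟩

omit [Fintype V] in
theorem cl_other (h2 : ∀ u, u ≠ v → c' u = c u) {i : Fin r} (hi : i ≠ c v) (hi' : i ≠ c' v) :
    cl H c' i = cl H c i := by
  ext u
  rw [mem_cl, mem_cl]
  by_cases h5 : u = v
  · subst h5
    exact ⟨fun h => absurd h.2.symm hi', fun h => absurd h.2.symm hi⟩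
  · rw [h2 u h5]

end

/-- product estimate -/
theorem prod_bd {u D xb yb e f m d : ℝ} (hxb : 0 < xb) (hyb : 0 < yb) (he : 0 ≤ e)
    (hf : 0 ≤ f) (hu : |u - xb| ≤ e * xb) (hD : |D - yb * d| ≤ f * yb) (hd : |d| ≤ m) :
    xb * yb * (d - f - e * (m + f)) ≤ u * D := by
  have h1 : |D| ≤ yb * (m + f) := by
    have h2 : |D| ≤ |D - yb * d| + |yb * d| := by
      have := abs_add_le (D - yb * d) (yb * d)
      rwa [sub_add_cancel] at this
    have h3 : |yb * d| ≤ yb * m := by
      rw [abs_mul, abs_of_pos hyb]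
      exact mul_le_mul_of_nonneg_left hd hyb.le
    calc |D| ≤ f * yb + yb * m := h2.trans (add_le_add hD h3)
      _ = yb * (m + f) := by ring
  have h4 : -(e * xb * (yb * (m + f))) ≤ (u - xb) * D := by
    have h5 : |(u - xb) * D| ≤ e * xb * (yb * (m + f)) := by
      rw [abs_mul]
      exact mul_le_mul hu h1 (abs_nonneg _) (mul_nonneg he hxb.le)
    exact (abs_le.1 h5).1
  have h6 : yb * d - f * yb ≤ D := by
    have := (abs_le.1 hD).1
    linarith
  have h7 : xb * (yb * d - f * yb) ≤ xb * D := mul_le_mul_of_nonneg_left h6 hxb.le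
  calc xb * yb * (d - f - e * (m + f)) =
        xb * (yb * d - f * yb) + -(e * xb * (yb * (m + f))) := by ring
    _ ≤ xb * D + (u - xb) * D := add_le_add h7 h4
    _ = u * D := by ring

end MV2

end Pool.Agent.Work.MP_5532fa_up

end

section

/-!
# MP_5532fa_co, upgrade: uniqueness of the spectral radius of the type E graphs
-/

open Finset

namespace Pool.Agent.Work.MP_5532fa_up

open MP5532fa (specRad qf pE UpToIsolated)

namespace ISOE

variable {V : Type} {r : ℕ}

/-- the relation on the labels -/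
def R : Option (Option (Fin r × Bool × Bool)) → Option (Option (Fin r × Bool × Bool)) → Prop
  | none, none => False
  | none, some none => True
  | some none, none => True
  | some none, some none => False
  | none, some (some (_, a, _)) => a = true
  | some (some (_, a, _)), none => a = true
  | some none, some (some (_, _, b)) => b = true
  | some (some (_, _, b)), some none => b = true
  | some (some (i, _, _)), some (some (k, _, _)) => i ≠ k

open Classical in
/-- the labels -/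
noncomputable def lab (c : V → Fin r) (w u : V) (A B : Finset V) (τ : Fin r → Fin r) (v : V) :
    Option (Option (Fin r × Bool × Bool)) :=
  if v = w then none else if v = u then some none else
    some (some (τ (c v), decide (v ∈ A), decide (v ∈ B)))

theorem lab_w (c : V → Fin r) (w u : V) (A B : Finset V) (τ : Fin r → Fin r) :
    lab c w u A B τ w = none := by unfold lab; rw [if_pos rfl]

theorem lab_u (c : V → Fin r) (w u : V) (A B : Finset V) (τ : Fin r → Fin r) (h : u ≠ w) :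
    lab c w u A B τ u = some none := by unfold lab; rw [if_neg h, if_pos rfl]

open Classical in
theorem lab_ne (c : V → Fin r) (w u : V) (A B : Finset V) (τ : Fin r → Fin r) {v : V} (h : v ≠ w)
    (h' : v ≠ u) : lab c w u A B τ v = some (some (τ (c v), decide (v ∈ A), decide (v ∈ B))) := by
  unfold lab; rw [if_neg h, if_neg h']

theorem adj_iff {G : SimpleGraph V} {N : ℕ} {H : Finset V} {c : V → Fin r} {w u : V}
    {A B : Finset V} {i0 : Fin r} (h : WE G N H c w u A B i0) (τ : Equiv.Perm (Fin r))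
    (K : Finset V) (hK : ∀ v, v ∈ K ↔ v = w ∨ v = u ∨ v ∈ H) (a b : V) :
    G.Adj a b ↔ a ∈ K ∧ b ∈ K ∧ a ≠ b ∧ R (lab c w u A B τ a) (lab c w u A B τ b) := by
  classical
  have hwA : w ∉ A := fun hw => h.hw (h.hA hw)
  have huA : u ∉ A := fun hu => h.hu (h.hA hu)
  have hwB : w ∉ B := fun hw => h.hw (h.hB hw)
  have huB : u ∉ B := fun hu => h.hu (h.hB hu)
  have hwu := h.hwu
  have huw := h.hwu.symm
  have hw := h.hw
  have hu := h.hu
  rw [h.adj, hK, hK]
  have hAw : ∀ {v}, v ∈ A → v ≠ w := fun {v} hv e => hwA (e ▸ hv)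
  have hAu : ∀ {v}, v ∈ A → v ≠ u := fun {v} hv e => huA (e ▸ hv)
  have hBw : ∀ {v}, v ∈ B → v ≠ w := fun {v} hv e => hwB (e ▸ hv)
  have hBu : ∀ {v}, v ∈ B → v ≠ u := fun {v} hv e => huB (e ▸ hv)
  by_cases ha : a = w
  · subst ha
    by_cases hb : b = a
    · subst hb
      simp only [lab_w, R]
      simp [hw, hwA, hwB, hwu]
    · by_cases hb2 : b = u
      · subst hb2
        rw [lab_w, lab_u _ _ _ _ _ _ huw]
        simp [R, hwu]
      · rw [lab_w, lab_ne c a u A B τ hb hb2]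
        simp only [R, decide_eq_true_eq]
        simp only [hw, hwu, hb, hb2, hwA, hwB, false_and, and_false, or_false, false_or, true_and,
          and_true, ne_eq, true_or]
        constructor
        · intro hA
          exact ⟨h.hA hA, fun e => hb e.symm, hA⟩
        · rintro ⟨_, _, hA⟩
          exact hA
  · by_cases ha2 : a = u
    · subst ha2
      by_cases hb : b = w
      · subst hb
        rw [lab_w, lab_u _ _ _ _ _ _ huw]
        simp [R, huw]
      · by_cases hb2 : b = a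
        · subst hb2
          rw [lab_u _ _ _ _ _ _ huw]
          simp [R, hu, huA, huB, huw]
        · rw [lab_u _ _ _ _ _ _ huw, lab_ne c w a A B τ hb hb2]
          simp only [R, decide_eq_true_eq]
          simp only [hu, huw, hb, hb2, huA, huB, false_and, and_false, or_false, false_or,
            true_and, and_true, ne_eq, true_or, or_true]
          constructor
          · intro hB
            exact ⟨h.hB hB, fun e => hb2 e.symm, hB⟩
          · rintro ⟨_, _, hB⟩
            exact hB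
    · by_cases hb : b = w
      · subst hb
        rw [lab_w, lab_ne c b u A B τ ha ha2]
        simp only [R, decide_eq_true_eq]
        simp only [hw, hwu, ha, ha2, hwA, hwB, false_and, and_false, or_false, false_or, true_and,
          and_true, ne_eq, true_or]
        constructor
        · intro hA
          exact ⟨h.hA hA, not_false, hA⟩
        · rintro ⟨_, _, hA⟩
          exact hA
      · by_cases hb2 : b = u
        · subst hb2
          rw [lab_u _ _ _ _ _ _ huw, lab_ne c w b A B τ ha ha2]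
          simp only [R, decide_eq_true_eq]
          simp only [hu, huw, ha, ha2, huA, huB, false_and, and_false, or_false, false_or,
            true_and, and_true, ne_eq, true_or, or_true]
          constructor
          · intro hB
            exact ⟨h.hB hB, not_false, hB⟩
          · rintro ⟨_, _, hB⟩
            exact hB
        · rw [lab_ne c w u A B τ ha ha2, lab_ne c w u A B τ hb hb2]
          simp only [R, ha, ha2, hb, hb2, false_and, and_false, or_false, false_or, ne_eq]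
          constructor
          · rintro ⟨h1, h2, h3⟩
            exact ⟨h1, h2, fun e => h3 (by rw [e]), fun e => h3 (τ.injective e)⟩
          · rintro ⟨h1, h2, _, h4⟩
            exact ⟨h1, h2, fun e => h4 (by rw [e])⟩

section
variable {H : Finset V} {c : V → Fin r} {w u : V} {A B : Finset V}

open Classical in
theorem fib_all (hw : w ∉ H) (hu : u ∉ H) (τ : Equiv.Perm (Fin r)) (K : Finset V)
    (hK : ∀ v, v ∈ K ↔ v = w ∨ v = u ∨ v ∈ H) (i : Fin r) (p q : Bool) (v : V) :
    v ∈ fib K (lab c w u A B τ) (some (some (τ i, p, q))) ↔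
      v ∈ H ∧ c v = i ∧ decide (v ∈ A) = p ∧ decide (v ∈ B) = q := by
  rw [mem_fib, hK]
  constructor
  · rintro ⟨h1, h2⟩
    by_cases hv : v = w
    · rw [hv, lab_w] at h2; simp at h2
    · by_cases hv2 : v = u
      · rw [hv2] at h2 hv
        rw [lab_u _ _ _ _ _ _ hv] at h2; simp at h2
      · rw [lab_ne c w u A B τ hv hv2] at h2
        simp only [Option.some.injEq, Prod.mk.injEq, EmbeddingLike.apply_eq_iff_eq] at h2
        exact ⟨(h1.resolve_left hv).resolve_left hv2, h2⟩
  · rintro ⟨h1, h2, h3, h4⟩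
    have hv : v ≠ w := fun e => hw (e ▸ h1)
    have hv2 : v ≠ u := fun e => hu (e ▸ h1)
    refine ⟨Or.inr (Or.inr h1), ?_⟩
    rw [lab_ne c w u A B τ hv hv2, h2, h3, h4]

open Classical in
/-- the fibre sizes depend only on the class sizes of `H`, `A`, `B`, `A ∩ B` -/
theorem fib_card (hw : w ∉ H) (hu : u ∉ H) (hA : A ⊆ H) (hB : B ⊆ H) (τ : Equiv.Perm (Fin r))
    (K : Finset V) (hK : ∀ v, v ∈ K ↔ v = w ∨ v = u ∨ v ∈ H) (i : Fin r) (p q : Bool) :
    ((fib K (lab c w u A B τ) (some (some (τ i, p, q)))).card : ℤ) =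
      match p, q with
      | true, true => ((cl (A ∩ B) c i).card : ℤ)
      | true, false => ((cl A c i).card : ℤ) - (cl (A ∩ B) c i).card
      | false, true => ((cl B c i).card : ℤ) - (cl (A ∩ B) c i).card
      | false, false => ((cl H c i).card : ℤ) - (cl A c i).card - (cl B c i).card
          + (cl (A ∩ B) c i).card := by
  have hm := fib_all (c := c) (A := A) (B := B) hw hu τ K hK i
  have e11 : fib K (lab c w u A B τ) (some (some (τ i, true, true))) = cl (A ∩ B) c i := by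
    ext v
    rw [hm, mem_cl, Finset.mem_inter]
    simp only [decide_eq_true_eq]
    constructor
    · rintro ⟨_, h2, h3, h4⟩; exact ⟨⟨h3, h4⟩, h2⟩
    · rintro ⟨⟨h3, h4⟩, h2⟩; exact ⟨hA h3, h2, h3, h4⟩
  have eA : cl A c i = cl (A ∩ B) c i ∪
      fib K (lab c w u A B τ) (some (some (τ i, true, false))) := by
    ext v
    rw [Finset.mem_union, hm, mem_cl, mem_cl, Finset.mem_inter]
    simp only [decide_eq_true_eq, decide_eq_false_iff_not]
    constructor
    · rintro ⟨h1, h2⟩
      by_cases hb : v ∈ B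
      · exact Or.inl ⟨⟨h1, hb⟩, h2⟩
      · exact Or.inr ⟨hA h1, h2, h1, hb⟩
    · rintro (⟨⟨h1, _⟩, h2⟩ | ⟨_, h2, h1, _⟩) <;> exact ⟨h1, h2⟩
  have dA : Disjoint (cl (A ∩ B) c i)
      (fib K (lab c w u A B τ) (some (some (τ i, true, false)))) := by
    rw [Finset.disjoint_left]
    intro v hv
    rw [hm]
    rw [mem_cl, Finset.mem_inter] at hv
    simp [hv.1.2]
  have eB : cl B c i = cl (A ∩ B) c i ∪
      fib K (lab c w u A B τ) (some (some (τ i, false, true))) := by
    ext v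
    rw [Finset.mem_union, hm, mem_cl, mem_cl, Finset.mem_inter]
    simp only [decide_eq_true_eq, decide_eq_false_iff_not]
    constructor
    · rintro ⟨h1, h2⟩
      by_cases hb : v ∈ A
      · exact Or.inl ⟨⟨hb, h1⟩, h2⟩
      · exact Or.inr ⟨hB h1, h2, hb, h1⟩
    · rintro (⟨⟨_, h1⟩, h2⟩ | ⟨_, h2, _, h1⟩) <;> exact ⟨h1, h2⟩
  have dB : Disjoint (cl (A ∩ B) c i)
      (fib K (lab c w u A B τ) (some (some (τ i, false, true)))) := by
    rw [Finset.disjoint_left]
    intro v hv
    rw [hm]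
    rw [mem_cl, Finset.mem_inter] at hv
    simp [hv.1.1]
  have eH : cl H c i = cl A c i ∪
      (fib K (lab c w u A B τ) (some (some (τ i, false, true))) ∪
        fib K (lab c w u A B τ) (some (some (τ i, false, false)))) := by
    ext v
    rw [Finset.mem_union, Finset.mem_union, hm, hm, mem_cl, mem_cl]
    simp only [decide_eq_true_eq, decide_eq_false_iff_not]
    constructor
    · rintro ⟨h1, h2⟩
      by_cases ha : v ∈ A
      · exact Or.inl ⟨ha, h2⟩
      · by_cases hb : v ∈ B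
        · exact Or.inr (Or.inl ⟨h1, h2, ha, hb⟩)
        · exact Or.inr (Or.inr ⟨h1, h2, ha, hb⟩)
    · rintro (⟨h1, h2⟩ | ⟨h1, h2, _⟩ | ⟨h1, h2, _⟩)
      · exact ⟨hA h1, h2⟩
      · exact ⟨h1, h2⟩
      · exact ⟨h1, h2⟩
  have dF : Disjoint (fib K (lab c w u A B τ) (some (some (τ i, false, true))))
      (fib K (lab c w u A B τ) (some (some (τ i, false, false)))) := by
    rw [Finset.disjoint_left]
    intro v hv hv'
    rw [hm] at hv hv'
    have h1 := hv.2.2.2
    have h2 := hv'.2.2.2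
    rw [h1] at h2
    exact absurd h2 (by simp)
  have dH : Disjoint (cl A c i)
      (fib K (lab c w u A B τ) (some (some (τ i, false, true))) ∪
        fib K (lab c w u A B τ) (some (some (τ i, false, false)))) := by
    rw [Finset.disjoint_left]
    intro v hv hv'
    rw [Finset.mem_union, hm, hm] at hv'
    rw [mem_cl] at hv
    rcases hv' with h | h
    · have := h.2.2.1; simp [hv.1] at this
    · have := h.2.2.1; simp [hv.1] at this
  have cA := congrArg Finset.card eA
  have cB := congrArg Finset.card eB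
  have cH := congrArg Finset.card eH
  rw [Finset.card_union_of_disjoint dA] at cA
  rw [Finset.card_union_of_disjoint dB] at cB
  rw [Finset.card_union_of_disjoint dH, Finset.card_union_of_disjoint dF] at cH
  cases p <;> cases q
  · simp only; omega
  · simp only; omega
  · simp only; omega
  · simp only; rw [e11]

theorem fib_none (hw : w ∉ H) (huw : u ≠ w) (τ : Equiv.Perm (Fin r)) (K : Finset V)
    (hK : ∀ v, v ∈ K ↔ v = w ∨ v = u ∨ v ∈ H) :
    (fib K (lab c w u A B τ) none).card = 1 := by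
  classical
  have : fib K (lab c w u A B τ) none = {w} := by
    ext v
    rw [mem_fib, hK, Finset.mem_singleton]
    constructor
    · rintro ⟨_, h2⟩
      by_contra hv
      by_cases hv2 : v = u
      · rw [hv2, lab_u _ _ _ _ _ _ huw] at h2
        simp at h2
      · rw [lab_ne c w u A B τ hv hv2] at h2
        simp at h2
    · rintro rfl
      exact ⟨Or.inl rfl, lab_w _ _ _ _ _ _⟩
  rw [this, Finset.card_singleton]

theorem fib_some_none (huw : u ≠ w) (τ : Equiv.Perm (Fin r)) (K : Finset V)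
    (hK : ∀ v, v ∈ K ↔ v = w ∨ v = u ∨ v ∈ H) :
    (fib K (lab c w u A B τ) (some none)).card = 1 := by
  classical
  have : fib K (lab c w u A B τ) (some none) = {u} := by
    ext v
    rw [mem_fib, hK, Finset.mem_singleton]
    constructor
    · rintro ⟨_, h2⟩
      by_contra hv
      by_cases hv2 : v = w
      · rw [hv2, lab_w] at h2
        simp at h2
      · rw [lab_ne c w u A B τ hv2 hv] at h2
        simp at h2
    · rintro rfl
      exact ⟨Or.inr (Or.inl rfl), lab_u _ _ _ _ _ _ huw⟩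
  rw [this, Finset.card_singleton]

end

open Classical in
/-- number of vertices of `A ∩ B` in the classes -/
theorem inter_card {G : SimpleGraph V} {N : ℕ} {H : Finset V} {c : V → Fin r} {w u : V}
    {A B : Finset V} {i0 : Fin r} (h : WE G N H c w u A B i0) {b : V} (hb : b ∈ B) (hbA : b ∉ A)
    (hone : ∀ a, a ∈ B → a ∉ A → a = b) (i : Fin r) :
    (cl (A ∩ B) c i).card = if i = i0 ∨ i = c b then 0 else 1 := by
  by_cases h0 : i = i0
  · rw [if_pos (Or.inl h0)]
    subst h0
    rw [Finset.card_eq_zero, Finset.eq_empty_iff_forall_notMem]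
    intro v hv
    rw [mem_cl, Finset.mem_inter] at hv
    have : v ∈ cl A c i := mem_cl.mpr ⟨hv.1.1, hv.2⟩
    rw [h.hA0] at this
    exact absurd this (Finset.notMem_empty _)
  · have h1 := h.hB1 i h0
    rw [Finset.card_eq_one] at h1
    obtain ⟨z, hz⟩ := h1
    by_cases he : i = c b
    · rw [if_pos (Or.inr he)]
      rw [Finset.card_eq_zero, Finset.eq_empty_iff_forall_notMem]
      intro v hv
      rw [mem_cl, Finset.mem_inter] at hv
      have h2 : v ∈ cl B c i := mem_cl.mpr ⟨hv.1.2, hv.2⟩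
      have h3 : b ∈ cl B c i := mem_cl.mpr ⟨hb, he.symm⟩
      rw [hz, Finset.mem_singleton] at h2 h3
      exact hbA (h3 ▸ h2 ▸ hv.1.1)
    · rw [if_neg (by rintro (h | h) <;> contradiction)]
      have hzB : z ∈ cl B c i := by rw [hz]; exact Finset.mem_singleton_self _
      rw [mem_cl] at hzB
      have hzA : z ∈ A := by
        by_contra hzA
        exact he (hzB.2.symm.trans (congrArg c (hone z hzB.1 hzA)))
      rw [Finset.card_eq_one]
      refine ⟨z, ?_⟩
      ext v
      rw [mem_cl, Finset.mem_inter, Finset.mem_singleton]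
      constructor
      · rintro ⟨⟨_, h2⟩, h3⟩
        have : v ∈ cl B c i := mem_cl.mpr ⟨h2, h3⟩
        rw [hz, Finset.mem_singleton] at this
        exact this
      · rintro rfl
        exact ⟨⟨hzA, hzB.1⟩, hzB.2⟩

/-- a set `B` with prescribed exceptional class -/
theorem exists_B {G : SimpleGraph V} {N : ℕ} {H : Finset V} {c : V → Fin r} {w u : V}
    {A B : Finset V} {i0 : Fin r} (h : WE G N H c w u A B i0) (e : Fin r) (he : e ≠ i0)
    (hlt : (cl A c e).card < (cl H c e).card) :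
    ∃ B' : Finset V, WE (gE H c w u A B') N H c w u A B' i0 ∧
      ∃ b, c b = e ∧ b ∈ B' ∧ b ∉ A ∧ ∀ a, a ∈ B' → a ∉ A → a = b := by
  classical
  obtain ⟨b, hb, hbA⟩ := Finset.exists_mem_notMem_of_card_lt_card hlt
  rw [mem_cl] at hb hbA
  have hbA' : b ∉ A := fun h' => hbA ⟨h', hb.2⟩
  have hex : ∀ i, i ≠ i0 → ∃ z, z ∈ H ∧ c z = i ∧ (i ≠ e → z ∈ A) ∧ (i = e → z = b) := by
    intro i hi
    by_cases hie : i = e
    · exact ⟨b, hb.1, hb.2.trans hie.symm, fun h' => absurd hie h', fun _ => rfl⟩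
    · obtain ⟨z, hz⟩ := h.hAne i hi
      rw [mem_cl] at hz
      exact ⟨z, h.hA hz.1, hz.2, fun _ => hz.1, fun h' => absurd h' hie⟩
  haveI : Nonempty V := ⟨b⟩
  choose! f hf using hex
  set B' : Finset V := (univ.filter (fun i : Fin r => i ≠ i0)).image f with hB'
  have hmem : ∀ v, v ∈ B' ↔ ∃ i, i ≠ i0 ∧ f i = v := by
    intro v
    simp [hB']
  have hcf : ∀ i, i ≠ i0 → c (f i) = i := fun i hi => (hf i hi).2.1
  have hBH : B' ⊆ H := by
    intro v hv
    obtain ⟨i, hi, rfl⟩ := (hmem v).mp hv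
    exact (hf i hi).1
  have hB0 : cl B' c i0 = ∅ := by
    rw [Finset.eq_empty_iff_forall_notMem]
    intro v hv
    rw [mem_cl] at hv
    obtain ⟨i, hi, rfl⟩ := (hmem v).mp hv.1
    exact hi ((hcf i hi).symm.trans hv.2)
  have hB1 : ∀ i, i ≠ i0 → (cl B' c i).card = 1 := by
    intro i hi
    rw [Finset.card_eq_one]
    refine ⟨f i, ?_⟩
    ext v
    rw [mem_cl, Finset.mem_singleton]
    constructor
    · rintro ⟨h1, h2⟩
      obtain ⟨k, hk, rfl⟩ := (hmem v).mp h1
      rw [hcf k hk] at h2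
      rw [h2]
    · rintro rfl
      exact ⟨(hmem _).mpr ⟨i, hi, rfl⟩, hcf i hi⟩
  have hfe : f e = b := (hf e he).2.2.2 rfl
  have hbB : b ∈ B' := (hmem b).mpr ⟨e, he, hfe⟩
  refine ⟨B', gE_WE h.card h.hw h.hu h.hwu h.hA hBH h.hA0 hB0 h.hAne hB1
    (fun hs => hbA' (hs hbB)), b, hb.2, hbB, hbA', ?_⟩
  intro a ha haA
  obtain ⟨i, hi, rfl⟩ := (hmem a).mp ha
  by_cases hie : i = e
  · rw [hie]; exact hfe
  · exact absurd ((hf i hi).2.2.1 hie) haA

end ISOE

end Pool.Agent.Work.MP_5532fa_up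

end
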