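import Mathlib
import Pool.Agent.Work.MP_5532fa_full.P02
import Pool.Agent.Work.MP_5532fa_full.P06
import Pool.Agent.Work.MP_5532fa_full.P11

section

/-!
# MP_5532fa_co, upgrade, second round: block SM0
-/

open Finset

namespace Pool.Agent.Work.MP_5532fa_up

open MP5532fa (specRad qf pE)

namespace SM0

section
variable {V : Type} [Fintype V] {r : ℕ}

theorem c0_mono {δ δ' : ℝ} {N : ℕ} {G : SimpleGraph V} {c : V → Fin r} {H : Finset V}
    (h : C0 r δ N G c H) (hd : δ ≤ δ') : C0 r δ' N G c H where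
  card := h.card
  ind := h.ind
  mis := h.mis.trans (mul_le_mul_of_nonneg_right hd (Nat.cast_nonneg N))
  bal := fun i => (h.bal i).trans (mul_le_mul_of_nonneg_right hd (Nat.cast_nonneg N))
  eo := h.eo.trans (mul_le_mul_of_nonneg_right hd (Nat.cast_nonneg N))

theorem eo_split (G : SimpleGraph V) (H : Finset V) :
    (eo G H : ℝ) = ∑ v ∈ out H, (dg G H v : ℝ) + eu G H := by
  rw [EDG.eo_eq, EID.eu_eq, ← Finset.sum_add_distrib]
  refine Finset.sum_congr rfl fun a _ => ?_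
  rw [EID.dg_eq, EID.sum_split H]

omit [Fintype V] in
/-- no missing pairs -/
theorem mH_zero {G : SimpleGraph V} {H : Finset V} {c : V → Fin r}
    (h : ∀ a ∈ H, ∀ b ∈ H, c a ≠ c b → G.Adj a b) (x y : V → ℝ) : mH G H c x y = 0 := by
  unfold mH
  refine Finset.sum_eq_zero fun a ha => Finset.sum_eq_zero fun b hb => ?_
  rw [chi_neg, zero_mul]
  rintro ⟨h1, h2⟩
  exact h2 (h a ha b hb h1)

omit [Fintype V] in
theorem adj_of_mis {G : SimpleGraph V} {H : Finset V} {c : V → Fin r} (h : mis G H c = 0) :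
    ∀ a ∈ H, ∀ b ∈ H, c a ≠ c b → G.Adj a b := by
  classical
  intro a ha b hb hab
  by_contra hG
  unfold mis at h
  rw [Finset.card_eq_zero] at h
  have : (a, b) ∈ (∅ : Finset (V × V)) := by
    rw [← h, Finset.mem_filter, Finset.mem_product]
    exact ⟨⟨ha, hb⟩, hab, hG⟩
  exact absurd this (Finset.notMem_empty _)

omit [Fintype V] in
theorem mis_zero {G : SimpleGraph V} {H : Finset V} {c : V → Fin r}
    (h : ∀ a ∈ H, ∀ b ∈ H, c a ≠ c b → G.Adj a b) : mis G H c = 0 := by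
  classical
  unfold mis
  rw [Finset.card_eq_zero]
  refine Finset.filter_eq_empty_iff.mpr ?_
  rintro ⟨a, b⟩ hab ⟨h1, h2⟩
  rw [Finset.mem_product] at hab
  exact h2 (h a hab.1 b hab.2 h1)

/-- degrees in a graph `WE` -/
theorem we_deg {G : SimpleGraph V} {N : ℕ} {H : Finset V} {c : V → Fin r} {w u : V}
    {A B : Finset V} {i0 : Fin r} (h : WE G N H c w u A B i0) :
    nb G H w = A ∧ dg G H w = A.card ∧
    ∑ v ∈ out H, (dg G H v : ℝ) ^ 2 = (A.card : ℝ) ^ 2 + (B.card : ℝ) ^ 2 := by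
  classical
  have e1 : nb G H w = A := by
    ext b
    rw [mem_nb, h.adj]
    constructor
    · rintro ⟨hb, h3 | h3 | h3 | h3 | h3 | h3 | h3⟩
      · exact absurd h3.1 h.hw
      · exact h3.2
      · exact absurd hb (h3.1 ▸ h.hw)
      · exact absurd h3.1 h.hwu
      · exact absurd hb (h3.1 ▸ h.hu)
      · exact absurd hb (h3.2 ▸ h.hu)
      · exact absurd h3.1 h.hwu
    · intro hb
      exact ⟨h.hA hb, Or.inr (Or.inl ⟨rfl, hb⟩)⟩
  have e1' : nb G H u = B := by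
    ext b
    rw [mem_nb, h.adj]
    constructor
    · rintro ⟨hb, h3 | h3 | h3 | h3 | h3 | h3 | h3⟩
      · exact absurd h3.1 h.hu
      · exact absurd h3.1.symm h.hwu
      · exact absurd hb (h3.1 ▸ h.hw)
      · exact h3.2
      · exact absurd hb (h3.1 ▸ h.hu)
      · exact absurd h3.1.symm h.hwu
      · exact absurd hb (h3.2 ▸ h.hw)
    · intro hb
      exact ⟨h.hB hb, Or.inr (Or.inr (Or.inr (Or.inl ⟨rfl, hb⟩)))⟩
  have e2 : dg G H w = A.card := by unfold dg; rw [e1]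
  have e2' : dg G H u = B.card := by unfold dg; rw [e1']
  have e3 : ∀ v, v ∉ H → v ≠ w → v ≠ u → dg G H v = 0 := by
    intro v hv hvw hvu
    unfold dg
    rw [Finset.card_eq_zero]
    ext b
    rw [mem_nb, h.adj]
    constructor
    · rintro ⟨hb, h3 | h3 | h3 | h3 | h3 | h3 | h3⟩
      · exact absurd h3.1 hv
      · exact absurd h3.1 hvw
      · exact absurd hb (h3.1 ▸ h.hw)
      · exact absurd h3.1 hvu
      · exact absurd hb (h3.1 ▸ h.hu)
      · exact absurd h3.1 hvw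
      · exact absurd h3.1 hvu
    · intro h3; exact absurd h3 (Finset.notMem_empty _)
  refine ⟨e1, e2, ?_⟩
  have hw' : w ∈ out H := mem_out.mpr h.hw
  have hu' : u ∈ (out H).erase w := Finset.mem_erase.mpr ⟨h.hwu.symm, mem_out.mpr h.hu⟩
  rw [← Finset.add_sum_erase _ _ hw', ← Finset.add_sum_erase _ _ hu', e2, e2',
    Finset.sum_eq_zero, add_zero]
  intro v hv
  rw [Finset.mem_erase, Finset.mem_erase] at hv
  rw [e3 v (mem_out.mp hv.2.2) hv.2.1 hv.1]
  norm_num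

/-- sum of the squares of the degrees of the other vertices -/
theorem s2_le {G : SimpleGraph V} {H : Finset V} {w : V} (hw : w ∉ H)
    (hmax : ∀ v, v ∉ H → dg G H v ≤ dg G H w) {L : ℝ}
    (hL : L = ∑ v ∈ out H, (dg G H v : ℝ) - dg G H w) :
    0 ≤ L ∧ 0 ≤ ∑ v ∈ out H, (dg G H v : ℝ) ^ 2 - (dg G H w : ℝ) ^ 2 ∧
    ∑ v ∈ out H, (dg G H v : ℝ) ^ 2 - (dg G H w : ℝ) ^ 2 ≤ (dg G H w : ℝ) * L ∧
    ∑ v ∈ out H, (dg G H v : ℝ) ^ 2 - (dg G H w : ℝ) ^ 2 ≤ L * L := by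
  classical
  have hw' : w ∈ out H := mem_out.mpr hw
  have e1 : ∑ v ∈ out H, (dg G H v : ℝ) ^ 2 - (dg G H w : ℝ) ^ 2
      = ∑ v ∈ (out H).erase w, (dg G H v : ℝ) ^ 2 := by
    rw [← Finset.add_sum_erase _ _ hw']; ring
  have e2 : L = ∑ v ∈ (out H).erase w, (dg G H v : ℝ) := by
    rw [hL, ← Finset.add_sum_erase _ _ hw']; ring
  rw [e1]
  have hL0 : 0 ≤ L := by rw [e2]; exact Finset.sum_nonneg fun v _ => Nat.cast_nonneg _
  refine ⟨hL0, Finset.sum_nonneg fun v _ => sq_nonneg _, ?_, ?_⟩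
  · rw [e2, Finset.mul_sum]
    refine Finset.sum_le_sum fun v hv => ?_
    rw [sq]
    refine mul_le_mul_of_nonneg_right ?_ (Nat.cast_nonneg _)
    exact_mod_cast hmax v (mem_out.mp (Finset.mem_of_mem_erase hv))
  · rw [e2]
    rw [Finset.mul_sum]
    refine Finset.sum_le_sum fun v hv => ?_
    rw [sq]
    refine mul_le_mul_of_nonneg_right ?_ (Nat.cast_nonneg _)
    exact Finset.single_le_sum (f := fun v => (dg G H v : ℝ)) (fun i _ => Nat.cast_nonneg _) hv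

end

/-- final arithmetic -/
theorem arith (r e a Q s2 L P : ℝ) (hr : 3 ≤ r) (he : 0 < e) (he1 : 1000 * (r + 1) ^ 2 * e ≤ 1)
    (ha : 0 ≤ a) (hQ : r + 1 ≤ Q) (hcase : Q ≤ a ∨ a ≤ Q - 1) (hcase' : 2 * r - 1 ≤ Q ∨ Q ≤ 2 * r - 2)
    (hL0 : 0 ≤ L) (hL : L ≤ Q - 1)
    (hs20 : 0 ≤ s2) (hs2 : s2 ≤ a * L) (hs2' : s2 ≤ L * L) (hP : P ≤ Q + r) :
    0 < ((a + Q - r) ^ 2 + (r - 1) ^ 2 - (a ^ 2 + s2)
      - 30 * e * (P * ((a + Q - r) + a) + (r - 1) ^ 2 + s2 + Q)) := by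
  have hQ0 : 0 < Q := by linarith only [hL0, hL]
  have hr1 : 0 < r + 1 := by linarith only [hr]
  have h1 : s2 ≤ a * (Q - 1) := hs2.trans (mul_le_mul_of_nonneg_left hL ha)
  have h2 : s2 ≤ (Q - 1) * (Q - 1) := hs2'.trans (mul_le_mul hL hL hL0 (by linarith only [hr, hQ]))
  -- the main term
  have hk : Q ≤ (r + 1) * (Q - r) := by nlinarith
  have hk2 : Q ^ 2 ≤ (r + 1) ^ 2 * (Q - r) ^ 2 := by
    have : Q * Q ≤ ((r + 1) * (Q - r)) * ((r + 1) * (Q - r)) :=
      mul_le_mul hk hk hQ0.le (by nlinarith)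
    nlinarith
  have main : Q * (a + Q) ≤ 2 * (r + 1) ^ 2 * ((a + Q - r) ^ 2 + (r - 1) ^ 2 - (a ^ 2 + s2)) := by
    rcases hcase with h3 | h3
    · have h4 : 2 * (Q - r) * (a - r + 1) ≤ (a + Q - r) ^ 2 + (r - 1) ^ 2 - (a ^ 2 + s2) := by
        nlinarith
      have h5 : a ≤ (r + 1) * (a - r + 1) := by nlinarith
      have h6 : Q * a ≤ ((r + 1) * (Q - r)) * ((r + 1) * (a - r + 1)) :=
        mul_le_mul hk h5 ha (by nlinarith)
      have h7 : 2 * (r + 1) ^ 2 * (2 * (Q - r) * (a - r + 1))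
          ≤ 2 * (r + 1) ^ 2 * ((a + Q - r) ^ 2 + (r - 1) ^ 2 - (a ^ 2 + s2)) :=
        mul_le_mul_of_nonneg_left h4 (by positivity)
      nlinarith
    · have h8 : Q * (a + Q) ≤ 2 * Q ^ 2 := by nlinarith
      have h9 : (Q - r) ^ 2 ≤ (a + Q - r) ^ 2 + (r - 1) ^ 2 - (a ^ 2 + s2) := by
        rcases hcase' with h4 | h4
        · have h5 : 0 ≤ a * (Q - 2 * r + 1) := mul_nonneg ha (by linarith only [h4])
          nlinarith [sq_nonneg (r - 1)]
        · have h5 : (Q - 1) * (Q - 2 * r + 1) ≤ a * (Q - 2 * r + 1) := by nlinarith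
          nlinarith [sq_nonneg (Q - r)]
      have h10 : 2 * (r + 1) ^ 2 * (Q - r) ^ 2
          ≤ 2 * (r + 1) ^ 2 * ((a + Q - r) ^ 2 + (r - 1) ^ 2 - (a ^ 2 + s2)) :=
        mul_le_mul_of_nonneg_left h9 (by positivity)
      nlinarith
  -- the error term
  have herr : P * ((a + Q - r) + a) + (r - 1) ^ 2 + s2 + Q ≤ 7 * (Q * (a + Q)) := by
    have h3 : P * ((a + Q - r) + a) ≤ (2 * Q) * (2 * (a + Q)) := by
      refine mul_le_mul (by linarith only [hQ, hP]) (by linarith only [hr,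
          hQ]) (by linarith only [ha, hQ]) (by linarith only [hQ0])
    have h4 : (r - 1) ^ 2 ≤ Q * Q := by nlinarith
    have h5 : 0 ≤ Q * a := by positivity
    have h6 : Q ≤ Q * Q := by nlinarith
    have h7 : a * (Q - 1) ≤ Q * a := by nlinarith
    nlinarith
  have hpos : 0 < Q * (a + Q) := mul_pos hQ0 (by linarith only [hr, ha, hQ])
  have h11 : 30 * e * (P * ((a + Q - r) + a) + (r - 1) ^ 2 + s2 + Q)
      ≤ 30 * e * (7 * (Q * (a + Q))) := mul_le_mul_of_nonneg_left herr (by positivity)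
  have hM : 0 < 2 * (r + 1) ^ 2 := by positivity
  have h12 : 2 * (r + 1) ^ 2 * (30 * e * (7 * (Q * (a + Q)))) < Q * (a + Q) := by
    have h13 : 2 * (r + 1) ^ 2 * (30 * e * (7 * (Q * (a + Q))))
        = (1000 * (r + 1) ^ 2 * e) * (420 / 1000 * (Q * (a + Q))) := by ring
    rw [h13]
    have h14 : (1000 * (r + 1) ^ 2 * e) * (420 / 1000 * (Q * (a + Q)))
        ≤ 1 * (420 / 1000 * (Q * (a + Q))) :=
      mul_le_mul_of_nonneg_right he1 (by positivity)
    linarith only [hpos, h14]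
  have h15 : 2 * (r + 1) ^ 2 * (30 * e * (P * ((a + Q - r) + a) + (r - 1) ^ 2 + s2 + Q))
      < 2 * (r + 1) ^ 2 * ((a + Q - r) ^ 2 + (r - 1) ^ 2 - (a ^ 2 + s2)) := by
    calc 2 * (r + 1) ^ 2 * (30 * e * (P * ((a + Q - r) + a) + (r - 1) ^ 2 + s2 + Q))
        ≤ 2 * (r + 1) ^ 2 * (30 * e * (7 * (Q * (a + Q)))) :=
          mul_le_mul_of_nonneg_left h11 hM.le
      _ < Q * (a + Q) := h12
      _ ≤ _ := main
  have h16 := lt_of_mul_lt_mul_left h15 hM.le
  linarith only [h16]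

end SM0

theorem blk_SM0 (hGE : Stmt_GE) (hEID : Stmt_EID) (_hEVN : Stmt_EVN) (hEST1 : Stmt_EST1)
    (hTRF : Stmt_TRF) (hCORE : Stmt_CORE) (hCMB0 : Stmt_CMB0) (hSETS : Stmt_SETS) : Stmt_SM0 := by
  classical
  intro r hr
  have hrR : (3 : ℝ) ≤ r := by exact_mod_cast hr
  have hr1 : (0 : ℝ) < (r : ℝ) + 1 := by linarith only []
  set e : ℝ := 1 / (1000 * ((r : ℝ) + 1) ^ 2) with he
  have hepos : 0 < e := by positivity
  have he1 : 1000 * ((r : ℝ) + 1) ^ 2 * e ≤ 1 := by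
    rw [he]
    have : 1000 * ((r : ℝ) + 1) ^ 2 ≠ 0 := by positivity
    rw [mul_one_div_cancel this]
  obtain ⟨δ1, N1, hδ1, hδ1e, hE⟩ := hEST1 r e hr hepos
  have hesmall : e ≤ 1 / 16000 := by
    rw [he]
    refine one_div_le_one_div_of_le (by norm_num) ?_
    nlinarith
  have he4 : 16 * (r : ℝ) * e ≤ 1 := by
    have h1 : 16 * (r : ℝ) ≤ 1000 * ((r : ℝ) + 1) ^ 2 := by nlinarith
    calc 16 * (r : ℝ) * e ≤ 1000 * ((r : ℝ) + 1) ^ 2 * e :=
          mul_le_mul_of_nonneg_right h1 hepos.le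
      _ ≤ 1 := he1
  refine ⟨δ1 / 2, max N1 (8 * r), by positivity, ?_⟩
  intro N hN V _ G c H hC hfree hcol hMX hmis
  have hN1 : N ≥ N1 := le_trans (le_max_left _ _) hN
  have hN2 : 8 * r ≤ N := le_trans (le_max_right _ _) hN
  have hN2R : 8 * (r : ℝ) ≤ N := by exact_mod_cast hN2
  obtain ⟨w, i0, Q, hw, hmax, hA0, hsum, hcase⟩ := hCMB0 r hr V G c H hfree hcol hC.ind hmis
  rcases hcase with ⟨u, B, i1, hWE⟩ | ⟨hQr, haQ, hL, u, hu, huw⟩
  · rw [hC.card] at hWE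
    exact ⟨w, u, _, B, i1, hWE⟩
  exfalso
  set a := dg G H w with hadef
  -- sizes
  have hNpos : (0 : ℝ) < N := by linarith only [hrR, hN2R]
  have hδ1N : δ1 * N ≤ N / (16 * r) := by
    have h1 : δ1 * N ≤ e * N := mul_le_mul_of_nonneg_right hδ1e hNpos.le
    have h2 : e * N ≤ N / (16 * r) := by
      rw [le_div_iff₀ (by positivity)]
      calc e * N * (16 * r) = (16 * (r : ℝ) * e) * N := by ring
        _ ≤ 1 * N := mul_le_mul_of_nonneg_right he4 hNpos.le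
        _ = N := one_mul _
    exact h1.trans h2
  have hsz : ∀ i, (2 : ℝ) ≤ sz H c i ∧ sz H c i ≤ N / r + N / (16 * r) := by
    intro i
    have h1 := abs_le.mp (hC.bal i)
    have h2 : δ1 / 2 * N ≤ N / (16 * r) := by
      have : 0 ≤ δ1 * N := by positivity
      linarith only [hδ1N, h1]
    have h3 : (N : ℝ) / r = 16 * (N / (16 * r)) := by
      field_simp
    have h4 : (1 : ℝ) / 2 ≤ N / (16 * r) := by
      rw [le_div_iff₀ (by positivity)]
      linarith only [hN2R]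
    constructor
    · linarith only [h2, h3, h4, h1.1]
    · linarith only [h2, h1.2]
  have hsz2 : ∀ i, 2 ≤ (cl H c i).card := by
    intro i
    have := (hsz i).1
    unfold sz at this
    exact_mod_cast this
  -- bound for a + Q
  have hsumR : 2 * ∑ v ∈ out H, (dg G H v : ℝ) + eu G H = 2 * a + 2 * Q := by
    exact_mod_cast hsum
  have haQN : (a : ℝ) + Q ≤ N / (16 * r) := by
    have h1 := SM0.eo_split G H
    have h2 : (eo G H : ℝ) ≤ N / (16 * r) := by
      have h3 := hC.eo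
      have h4 : 0 ≤ δ1 * N := by positivity
      linarith only [hδ1N, h3]
    have h5 : (0 : ℝ) ≤ eu G H := Nat.cast_nonneg _
    linarith only [hsumR, h1, h2]
  have hsmall : ∀ i, a + Q + (cl H c i).card + 1 ≤ H.card := by
    intro i
    have h1 := (hsz i).2
    have h2 : ((a : ℝ) + Q) + sz H c i + 1 ≤ N := by
      have h3 : (N : ℝ) / r ≤ N / 3 := div_le_div_of_nonneg_left hNpos.le (by norm_num) hrR
      have h4 : (N : ℝ) / (16 * r) ≤ N / 48 := by
        refine div_le_div_of_nonneg_left hNpos.le (by norm_num) (by linarith only [hrR])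
      have h5 : (24 : ℝ) ≤ N := by linarith only [hrR, hN2R]
      linarith only [haQN, h1, h3, h4, h5]
    rw [hC.card]
    unfold sz at h2
    exact_mod_cast h2
  have hAH : nb G H w ⊆ H := fun v hv => (mem_nb.mp hv).1
  have hAcard : (nb G H w).card = a := rfl
  obtain ⟨A', B, hA'H, hBH, hA'0, hB0, hA'ne, hB1, hBA, hA'card, hdf⟩ :=
    hSETS r hr V H (nb G H w) c i0 (a + Q - r) hAH hA0 hsz2 (by omega)
      (by have := hsmall i0; omega) (by have := hsmall i0; omega)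
  have hWE : WE (gE H c w u A' B) N H c w u A' B i0 :=
    gE_WE hC.card hw hu huw.symm hA'H hBH hA'0 hB0 hA'ne hB1 hBA
  set G' := gE H c w u A' B with hG'
  obtain ⟨hfree', hcol', hpE'⟩ := hGE r hr V G' N H c w u A' B i0 hWE
  have hcolG' : ¬ G'.Colorable r := hcol' (fun i => by have := hsz2 i; omega)
  have hpE : pE G' = pE G := by
    rw [hpE', hEID r V G c H hC.ind, hmis, hC.card, hA'card]
    have h1 : ((a + Q - r : ℕ) : ℝ) = (a : ℝ) + Q - r := by
      rw [Nat.cast_sub (by omega), Nat.cast_add]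
    rw [h1]
    push_cast
    linarith only [hsumR]
  have hadj' : ∀ a ∈ H, ∀ b ∈ H, c a ≠ c b → G'.Adj a b := by
    intro a ha b hb hab
    rw [hWE.adj]
    exact Or.inl ⟨ha, hb, hab⟩
  have hind' : ∀ u ∈ H, ∀ v ∈ H, c u = c v → ¬ G'.Adj u v := by
    intro a ha b hb hab
    rw [hWE.adj]
    rintro (h3 | h3 | h3 | h3 | h3 | h3 | h3)
    · exact h3.2.2 hab
    · exact hw (h3.1 ▸ ha)
    · exact hw (h3.1 ▸ hb)
    · exact hu (h3.1 ▸ ha)
    · exact hu (h3.1 ▸ hb)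
    · exact hw (h3.1 ▸ ha)
    · exact hu (h3.1 ▸ ha)
  have hmis' : mis G' H c = 0 := SM0.mis_zero hadj'
  have hrad : specRad G' ≤ specRad G := hMX G' hfree' hcolG' hpE
  have : Nonempty V := ⟨w⟩
  obtain ⟨x, hx⟩ := exists_PV G
  obtain ⟨y, hy⟩ := exists_PV G'
  have hC1 : C0 r δ1 N G c H := SM0.c0_mono hC (by linarith only [hδ1])
  have hC2 : C0 r δ1 N G' c H := by
    have h1 := hTRF r (δ1 / 2) N V G G' c H hC hind' hpE (by rw [hmis', hmis])
    exact SM0.c0_mono h1 (by linarith only [])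
  obtain ⟨xb, hxb⟩ := hE N hN1 V G x (specRad G) c H hC1 hx
  obtain ⟨yb, hyb⟩ := hE N hN1 V G' y (specRad G') c H hC2 hy
  have hfin := hCORE r hr V G G' c H w x y (specRad G) (specRad G') xb yb e N hepos.le
    (by linarith only [hesmall]) (by omega) (SM0.c0_mono hC1 hδ1e) hind' hw hx hy hxb hyb hrad
  rw [SM0.mH_zero (SM0.adj_of_mis hmis), SM0.mH_zero hadj'] at hfin
  obtain ⟨hnb', hdg', hsq'⟩ := SM0.we_deg hWE
  rw [hnb', hdg', hsq', GE.card_B hr hWE, hA'card] at hfin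
  obtain ⟨hL0, hs20, hs2, hs2'⟩ := SM0.s2_le hw hmax (L := ∑ v ∈ out H, (dg G H v : ℝ) - dg G H w)
    rfl
  set s2 := ∑ v ∈ out H, (dg G H v : ℝ) ^ 2 - (dg G H w : ℝ) ^ 2 with hs2def
  set L := ∑ v ∈ out H, (dg G H v : ℝ) - dg G H w with hLdef
  have hs3 : ∑ v ∈ out H, (dg G H v : ℝ) ^ 2 = (a : ℝ) ^ 2 + s2 := by
    rw [hs2def]; ring
  have hLQ : L + (eu G H : ℝ) / 2 = Q := by
    rw [hLdef]; linarith only [hsumR]
  have hLle : L ≤ (Q : ℝ) - 1 := by
    have h1 : ∑ v ∈ out H, (dg G H v : ℝ) + 1 ≤ a + Q := by exact_mod_cast hL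
    rw [hLdef]; linarith only [h1]
  have hT : ((a + Q - r : ℕ) : ℝ) = (a : ℝ) + Q - r := by
    rw [Nat.cast_sub (by omega), Nat.cast_add]
  have hP : (((df A' (nb G H w)).card : ℝ) + (df (nb G H w) A').card) ≤ (Q : ℝ) + r := by
    have h1 : (df A' (nb G H w)).card + (df (nb G H w) A').card ≤ Q + r := by
      rw [hAcard] at hdf
      omega
    exact_mod_cast h1
  rw [hT] at hfin
  have hQR : (r : ℝ) + 1 ≤ Q := by exact_mod_cast hQr
  have hc1 : (Q : ℝ) ≤ a ∨ (a : ℝ) ≤ (Q : ℝ) - 1 := by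
    rcases Nat.lt_or_ge a Q with h | h
    · right
      have : (a : ℝ) + 1 ≤ Q := by exact_mod_cast h
      linarith only [this]
    · left
      exact_mod_cast h
  have hc2 : 2 * (r : ℝ) - 1 ≤ Q ∨ (Q : ℝ) ≤ 2 * r - 2 := by
    rcases Nat.lt_or_ge (Q + 1) (2 * r) with h | h
    · right
      have : (Q : ℝ) + 2 ≤ 2 * r := by exact_mod_cast h
      linarith only [this]
    · left
      have : 2 * (r : ℝ) ≤ Q + 1 := by exact_mod_cast h
      linarith only [this]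
  have har := SM0.arith r e a Q s2 L _ hrR hepos he1 (Nat.cast_nonneg a) hQR hc1 hc2 hL0 hLle
    hs20 hs2 hs2' hP
  have hxy : 0 < xb * yb := mul_pos hxb.xb0 hyb.xb0
  have hfin2 : xb * yb * (((a : ℝ) + Q - r) ^ 2 + ((r : ℝ) - 1) ^ 2 - ((a : ℝ) ^ 2 + s2)
      - 30 * e * ((((df A' (nb G H w)).card : ℝ) + (df (nb G H w) A').card)
          * (((a : ℝ) + Q - r) + a) + ((r : ℝ) - 1) ^ 2 + s2 + Q)) ≤ 0 := by
    refine le_trans (le_of_eq ?_) hfin
    rw [hs3]
    rw [← hLQ]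
    rw [hLdef]
    ring
  have := mul_pos hxy har
  linarith only [hfin2, this]

end Pool.Agent.Work.MP_5532fa_up

end
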