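import Mathlib
import Pool.Agent.Work.MP_5532fa_full.P03

section

/-!
# Block TAY: expansion of the secular function
-/

open Finset

namespace Pool.Agent.Work.MP_5532fa_up

namespace TAYp

theorem inv5 (s d : ℝ) (hs : s ≠ 0) (h : s + d ≠ 0) :
    1 / (s + d) = 1 / s - d / s ^ 2 + d ^ 2 / s ^ 3 - d ^ 3 / s ^ 4 + d ^ 4 / s ^ 5
      - d ^ 5 / (s ^ 5 * (s + d)) := by
  field_simp
  ring

/-- the remainder -/
noncomputable def Er {r : ℕ} (n : ℕ) (y : Fin r → ℝ) (s : ℝ) : ℝ :=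
  ∑ i, (y i - n / r) ^ 5 / (s ^ 5 * (s + (y i - n / r)))

theorem Pheq {r : ℕ} (hr : 3 ≤ r) (n : ℕ) (y : Fin r → ℝ) (lam s : ℝ) (hsum : ∑ i, y i = n)
    (hs : s = lam + n / r) (hs0 : s ≠ 0) (hne : ∀ i, s + (y i - n / r) ≠ 0) :
    Ph y lam = r - 1 - lam * (r / s + mo 2 n y / s ^ 3 - mo 3 n y / s ^ 4 + mo 4 n y / s ^ 5
      - Er n y s) := by
  have hr0 : (r:ℝ) ≠ 0 := by
    have : 0 < r := by omega
    positivity
  have h0 : ∑ i, (y i - (n:ℝ) / r) = 0 := by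
    rw [Finset.sum_sub_distrib, hsum, Finset.sum_const, Finset.card_univ, Fintype.card_fin,
      nsmul_eq_mul]
    field_simp
    ring
  have h1 : ∀ i, y i / (lam + y i) = 1 - lam * (1 / s - (y i - n / r) / s ^ 2
      + (y i - n / r) ^ 2 / s ^ 3 - (y i - n / r) ^ 3 / s ^ 4 + (y i - n / r) ^ 4 / s ^ 5
      - (y i - n / r) ^ 5 / (s ^ 5 * (s + (y i - n / r)))) := by
    intro i
    rw [← inv5 s (y i - n / r) hs0 (hne i)]
    have h2 : s + (y i - n / r) = lam + y i := by rw [hs]; ring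
    have h3 : lam + y i ≠ 0 := by rw [← h2]; exact hne i
    rw [h2]
    field_simp
    ring
  unfold Ph mo Er
  rw [Finset.sum_congr rfl fun i _ => h1 i, Finset.sum_sub_distrib, ← Finset.mul_sum,
    Finset.sum_sub_distrib, Finset.sum_add_distrib, Finset.sum_sub_distrib, Finset.sum_add_distrib,
    Finset.sum_sub_distrib, Finset.sum_const, Finset.sum_const, Finset.card_univ, Fintype.card_fin,
    ← Finset.sum_div, ← Finset.sum_div, ← Finset.sum_div, ← Finset.sum_div, h0]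
  simp only [nsmul_eq_mul]
  ring

/-- third moment -/
theorem mo3b {r : ℕ} (n : ℕ) (y : Fin r → ℝ) (B t : ℝ) (ht : 0 ≤ t)
    (hd : ∀ i, |y i - n / r| ≤ t) (h2 : mo 2 n y ≤ B * n) : |mo 3 n y| ≤ t * (B * n) := by
  unfold mo at *
  calc |∑ i, (y i - (n:ℝ) / r) ^ 3| ≤ ∑ i, |(y i - (n:ℝ) / r) ^ 3| := Finset.abs_sum_le_sum_abs _ _
    _ ≤ ∑ i, t * (y i - (n:ℝ) / r) ^ 2 := by
        apply Finset.sum_le_sum; intro i _
        rw [abs_pow, show |y i - (n:ℝ) / r| ^ 3 = |y i - (n:ℝ) / r| * |y i - (n:ℝ) / r| ^ 2 by ring,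
          sq_abs]
        exact mul_le_mul_of_nonneg_right (hd i) (sq_nonneg _)
    _ = t * ∑ i, (y i - (n:ℝ) / r) ^ 2 := by rw [Finset.mul_sum]
    _ ≤ t * (B * n) := mul_le_mul_of_nonneg_left h2 ht

/-- fourth moment -/
theorem mo4b {r : ℕ} (n : ℕ) (y : Fin r → ℝ) (B t : ℝ)
    (hd : ∀ i, |y i - n / r| ≤ t) (h2 : mo 2 n y ≤ B * n) : |mo 4 n y| ≤ t ^ 2 * (B * n) := by
  unfold mo at *
  calc |∑ i, (y i - (n:ℝ) / r) ^ 4| ≤ ∑ i, |(y i - (n:ℝ) / r) ^ 4| := Finset.abs_sum_le_sum_abs _ _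
    _ ≤ ∑ i, t ^ 2 * (y i - (n:ℝ) / r) ^ 2 := by
        apply Finset.sum_le_sum; intro i _
        rw [abs_pow, show |y i - (n:ℝ) / r| ^ 4 = |y i - (n:ℝ) / r| ^ 2 * |y i - (n:ℝ) / r| ^ 2 by
          ring]
        rw [← sq_abs (y i - (n:ℝ) / r)]
        exact mul_le_mul_of_nonneg_right (pow_le_pow_left₀ (abs_nonneg _) (hd i) 2) (by positivity)
    _ = t ^ 2 * ∑ i, (y i - (n:ℝ) / r) ^ 2 := by rw [Finset.mul_sum]
    _ ≤ t ^ 2 * (B * n) := mul_le_mul_of_nonneg_left h2 (sq_nonneg _)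

/-- remainder -/
theorem Erb {r : ℕ} (n : ℕ) (y : Fin r → ℝ) (B t s : ℝ) (hn : (0:ℝ) < n)
    (hd : ∀ i, |y i - n / r| ≤ t) (h2 : mo 2 n y ≤ B * n) (hs : (n:ℝ) / 2 ≤ s) (ht : 0 ≤ t)
    (hsd : ∀ i, (n:ℝ) / 2 ≤ s + (y i - n / r)) :
    |Er n y s| ≤ 64 / (n:ℝ) ^ 6 * (t ^ 3 * (B * n)) := by
  have hs5 : 0 ≤ s ^ 5 := by
    have : 0 ≤ s := le_trans (by positivity) hs
    positivity
  unfold mo Er at *
  calc |∑ i, (y i - (n:ℝ) / r) ^ 5 / (s ^ 5 * (s + (y i - n / r)))|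
      ≤ ∑ i, |(y i - (n:ℝ) / r) ^ 5 / (s ^ 5 * (s + (y i - n / r)))| :=
        Finset.abs_sum_le_sum_abs _ _
    _ ≤ ∑ i, 64 / (n:ℝ) ^ 6 * (t ^ 3 * (y i - (n:ℝ) / r) ^ 2) := by
        apply Finset.sum_le_sum; intro i _
        have h3 : ((n:ℝ) / 2) ^ 5 * (n / 2) ≤ s ^ 5 * (s + (y i - n / r)) :=
          mul_le_mul (pow_le_pow_left₀ (by positivity) hs 5) (hsd i) (by positivity) hs5
        have h4 : (0:ℝ) < (n / 2) ^ 5 * (n / 2) := by positivity
        have h5 : |(y i - (n:ℝ) / r) ^ 5| ≤ t ^ 3 * (y i - (n:ℝ) / r) ^ 2 := by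
          rw [abs_pow, show |y i - (n:ℝ) / r| ^ 5 = |y i - (n:ℝ) / r| ^ 3 * |y i - (n:ℝ) / r| ^ 2 by
            ring]
          rw [← sq_abs (y i - (n:ℝ) / r)]
          exact mul_le_mul_of_nonneg_right (pow_le_pow_left₀ (abs_nonneg _) (hd i) 3) (by positivity)
        rw [abs_div, abs_of_pos (lt_of_lt_of_le h4 h3)]
        calc |(y i - (n:ℝ) / r) ^ 5| / (s ^ 5 * (s + (y i - n / r)))
            ≤ t ^ 3 * (y i - (n:ℝ) / r) ^ 2 / ((n / 2) ^ 5 * (n / 2)) :=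
              div_le_div₀ (by positivity) h5 h4 h3
          _ = 64 / (n:ℝ) ^ 6 * (t ^ 3 * (y i - (n:ℝ) / r) ^ 2) := by
              field_simp; norm_num
    _ = 64 / (n:ℝ) ^ 6 * (t ^ 3 * ∑ i, (y i - (n:ℝ) / r) ^ 2) := by
        rw [← Finset.mul_sum, ← Finset.mul_sum]
    _ ≤ 64 / (n:ℝ) ^ 6 * (t ^ 3 * (B * n)) := by
        apply mul_le_mul_of_nonneg_left _ (by positivity)
        exact mul_le_mul_of_nonneg_left h2 (by positivity)

/-- the coefficients -/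
theorem coef (n a th B s ka : ℝ) (hn : 0 < n) (ha1 : 2 / 3 ≤ a) (hth : |th| ≤ B)
    (hBn : 4 * B ≤ n) (hs : s = n + th) (hka : ka = n ^ 2 / a * (a * n + th)) :
    |ka / s ^ 3 - 1| ≤ 72 * B / n ∧ |ka / s ^ 4 - 1 / n| ≤ 272 * B / n ^ 2 ∧
      |ka / s ^ 5 - 1 / n ^ 2| ≤ 1056 * B / n ^ 3 ∧ |ka| ≤ 3 * n ^ 3 := by
  have hB : 0 ≤ B := (abs_nonneg _).trans hth
  have ha : 0 < a := by linarith
  have h1 := abs_le.mp hth
  have hs1 : n / 2 ≤ s := by rw [hs]; linarith [h1.1]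
  have hs2 : s ≤ 2 * n := by rw [hs]; linarith [h1.2]
  have hs0 : 0 < s := by linarith
  have hka' : ka = n ^ 3 + n ^ 2 * th / a := by
    rw [hka]; field_simp
  have hai : |1 / a| ≤ 3 / 2 := by
    rw [abs_of_pos (by positivity), div_le_iff₀ ha]; linarith
  have hq : |n ^ 2 * th / a| ≤ 2 * B * n ^ 2 := by
    rw [show n ^ 2 * th / a = n ^ 2 * (th * (1 / a)) by ring, abs_mul, abs_mul,
      abs_of_nonneg (by positivity : 0 ≤ n ^ 2)]
    have : |th| * |1 / a| ≤ B * (3 / 2) := mul_le_mul hth hai (abs_nonneg _) hB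
    have h3 := mul_le_mul_of_nonneg_left this (by positivity : 0 ≤ n ^ 2)
    have h4 : 0 ≤ B * n ^ 2 := by positivity
    linarith
  have hsp : ∀ k : ℕ, 0 ≤ s ^ k := fun k => by positivity
  have hp1 : ∀ k : ℕ, (n / 2) ^ k ≤ s ^ k := fun k => pow_le_pow_left₀ (by positivity) hs1 k
  have hp2 : ∀ k : ℕ, s ^ k ≤ (2 * n) ^ k := fun k => pow_le_pow_left₀ (by positivity) hs2 k
  refine ⟨?_, ?_, ?_, ?_⟩
  · have e : ka / s ^ 3 - 1 = (n ^ 2 * th / a - th * (s ^ 2 + s * n + n ^ 2)) / s ^ 3 := by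
      rw [hka', eq_div_iff (by positivity), sub_mul, div_mul_cancel₀ _ (by positivity)]
      rw [hs]; ring
    rw [e, abs_div, abs_of_pos (by positivity : 0 < s ^ 3), div_le_div_iff₀ (by positivity) hn]
    have h2 : |n ^ 2 * th / a - th * (s ^ 2 + s * n + n ^ 2)| ≤ 9 * B * n ^ 2 := by
      have h3 : |th * (s ^ 2 + s * n + n ^ 2)| ≤ B * (7 * n ^ 2) := by
        rw [abs_mul, abs_of_nonneg (by positivity : 0 ≤ s ^ 2 + s * n + n ^ 2)]
        apply mul_le_mul hth _ (by positivity) hB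
        have := hp2 2
        have h5 : s * n ≤ 2 * n * n := mul_le_mul_of_nonneg_right hs2 hn.le
        linarith
      have h4 := abs_sub (n ^ 2 * th / a) (th * (s ^ 2 + s * n + n ^ 2))
      linarith
    have h3 := hp1 3
    calc |n ^ 2 * th / a - th * (s ^ 2 + s * n + n ^ 2)| * n ≤ 9 * B * n ^ 2 * n :=
          mul_le_mul_of_nonneg_right h2 hn.le
      _ = 72 * B * (n / 2) ^ 3 := by ring
      _ ≤ 72 * B * s ^ 3 := mul_le_mul_of_nonneg_left h3 (by positivity)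
  · have e : ka / s ^ 4 - 1 / n = (n * (n ^ 2 * th / a) - th * ((s + n) * (s ^ 2 + n ^ 2)))
        / (s ^ 4 * n) := by
      rw [eq_div_iff (by positivity), sub_mul]
      have h5 : ka / s ^ 4 * (s ^ 4 * n) = ka * n := by field_simp
      have h6 : 1 / n * (s ^ 4 * n) = s ^ 4 := by field_simp
      rw [h5, h6, hka', hs]; ring
    rw [e, abs_div, abs_of_pos (by positivity : 0 < s ^ 4 * n),
      div_le_div_iff₀ (by positivity) (by positivity)]
    have h2 : |n * (n ^ 2 * th / a) - th * ((s + n) * (s ^ 2 + n ^ 2))| ≤ 17 * B * n ^ 3 := by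
      have h3 : |th * ((s + n) * (s ^ 2 + n ^ 2))| ≤ B * (15 * n ^ 3) := by
        rw [abs_mul, abs_of_nonneg (by positivity : 0 ≤ (s + n) * (s ^ 2 + n ^ 2))]
        apply mul_le_mul hth _ (by positivity) hB
        have h6 := hp2 2
        have h5 : (s + n) * (s ^ 2 + n ^ 2) ≤ (3 * n) * (5 * n ^ 2) :=
          mul_le_mul (by linarith) (by linarith) (by positivity) (by positivity)
        linarith
      have h4 := abs_sub (n * (n ^ 2 * th / a)) (th * ((s + n) * (s ^ 2 + n ^ 2)))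
      have h5 : |n * (n ^ 2 * th / a)| ≤ n * (2 * B * n ^ 2) := by
        rw [abs_mul, abs_of_pos hn]
        exact mul_le_mul_of_nonneg_left hq hn.le
      linarith
    have h3 := hp1 4
    calc |n * (n ^ 2 * th / a) - th * ((s + n) * (s ^ 2 + n ^ 2))| * n ^ 2
        ≤ 17 * B * n ^ 3 * n ^ 2 := mul_le_mul_of_nonneg_right h2 (by positivity)
      _ = 272 * B * ((n / 2) ^ 4 * n) := by ring
      _ ≤ 272 * B * (s ^ 4 * n) :=
          mul_le_mul_of_nonneg_left (mul_le_mul_of_nonneg_right h3 hn.le) (by positivity)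
  · have e : ka / s ^ 5 - 1 / n ^ 2 = (n ^ 2 * (n ^ 2 * th / a)
        - th * (s ^ 4 + s ^ 3 * n + s ^ 2 * n ^ 2 + s * n ^ 3 + n ^ 4)) / (s ^ 5 * n ^ 2) := by
      rw [eq_div_iff (by positivity), sub_mul]
      have h5 : ka / s ^ 5 * (s ^ 5 * n ^ 2) = ka * n ^ 2 := by field_simp
      have h6 : 1 / n ^ 2 * (s ^ 5 * n ^ 2) = s ^ 5 := by field_simp
      rw [h5, h6, hka', hs]; ring
    rw [e, abs_div, abs_of_pos (by positivity : 0 < s ^ 5 * n ^ 2),
      div_le_div_iff₀ (by positivity) (by positivity)]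
    have h2 : |n ^ 2 * (n ^ 2 * th / a)
        - th * (s ^ 4 + s ^ 3 * n + s ^ 2 * n ^ 2 + s * n ^ 3 + n ^ 4)| ≤ 33 * B * n ^ 4 := by
      have h3 : |th * (s ^ 4 + s ^ 3 * n + s ^ 2 * n ^ 2 + s * n ^ 3 + n ^ 4)|
          ≤ B * (31 * n ^ 4) := by
        rw [abs_mul, abs_of_nonneg (by positivity :
          0 ≤ s ^ 4 + s ^ 3 * n + s ^ 2 * n ^ 2 + s * n ^ 3 + n ^ 4)]
        apply mul_le_mul hth _ (by positivity) hB
        have h6 := hp2 4
        have h7 := mul_le_mul_of_nonneg_right (hp2 3) hn.le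
        have h8 := mul_le_mul_of_nonneg_right (hp2 2) (by positivity : 0 ≤ n ^ 2)
        have h9 := mul_le_mul_of_nonneg_right hs2 (by positivity : 0 ≤ n ^ 3)
        have e1 : (2 * n) ^ 4 = 16 * n ^ 4 := by ring
        have e2 : (2 * n) ^ 3 * n = 8 * n ^ 4 := by ring
        have e3 : (2 * n) ^ 2 * n ^ 2 = 4 * n ^ 4 := by ring
        have e4 : 2 * n * n ^ 3 = 2 * n ^ 4 := by ring
        rw [e1] at h6; rw [e2] at h7; rw [e3] at h8; rw [e4] at h9
        linarith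
      have h4 := abs_sub (n ^ 2 * (n ^ 2 * th / a))
        (th * (s ^ 4 + s ^ 3 * n + s ^ 2 * n ^ 2 + s * n ^ 3 + n ^ 4))
      have h5 : |n ^ 2 * (n ^ 2 * th / a)| ≤ n ^ 2 * (2 * B * n ^ 2) := by
        rw [abs_mul, abs_of_pos (by positivity : 0 < n ^ 2)]
        exact mul_le_mul_of_nonneg_left hq (by positivity)
      have e5 : n ^ 2 * (2 * B * n ^ 2) = 2 * B * n ^ 4 := by ring
      rw [e5] at h5
      linarith
    have h3 := hp1 5
    calc |n ^ 2 * (n ^ 2 * th / a)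
        - th * (s ^ 4 + s ^ 3 * n + s ^ 2 * n ^ 2 + s * n ^ 3 + n ^ 4)| * n ^ 3
        ≤ 33 * B * n ^ 4 * n ^ 3 := mul_le_mul_of_nonneg_right h2 (by positivity)
      _ = 1056 * B * ((n / 2) ^ 5 * n ^ 2) := by ring
      _ ≤ 1056 * B * (s ^ 5 * n ^ 2) :=
          mul_le_mul_of_nonneg_left (mul_le_mul_of_nonneg_right h3 (by positivity)) (by positivity)
  · rw [hka']
    have h3 := abs_add_le (n ^ 3) (n ^ 2 * th / a)
    rw [abs_of_pos (by positivity : 0 < n ^ 3)] at h3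
    have h4 : 4 * B * n ^ 2 ≤ n * n ^ 2 := mul_le_mul_of_nonneg_right hBn (by positivity)
    have h5 : n * n ^ 2 = n ^ 3 := by ring
    have h6 : 0 < n ^ 3 := by positivity
    linarith

/-- the final estimate: `t` is the square root of `n`, `b` that of `B` -/
theorem fin (n t B b D2 M3y M3z M4y M4z Ey Ez a3 a4 a5 ka : ℝ) (ht : 1 ≤ t) (hn : n = t ^ 2)
    (hB : 1 ≤ B) (hb : 0 ≤ b) (hbB : b ≤ B)
    (h3y : |M3y| ≤ b * t * (B * n)) (h3z : |M3z| ≤ b * t * (B * n))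
    (h4y : |M4y| ≤ (b * t) ^ 2 * (B * n)) (h4z : |M4z| ≤ (b * t) ^ 2 * (B * n))
    (hEy : |Ey| ≤ 64 / n ^ 6 * ((b * t) ^ 3 * (B * n)))
    (hEz : |Ez| ≤ 64 / n ^ 6 * ((b * t) ^ 3 * (B * n)))
    (ha3 : |a3| ≤ 72 * B / n) (ha4 : |a4| ≤ 272 * B / n ^ 2) (ha5 : |a5| ≤ 1056 * B / n ^ 3)
    (hka : |ka| ≤ 3 * n ^ 3) :
    |D2 * a3 - (M3z - M3y) * a4 + (M4z - M4y) * a5 - ka * (Ez - Ey)|
      ≤ 3040 * B ^ 4 / t + 3040 * B ^ 4 * |D2| / n := by
  have ht0 : 0 < t := by linarith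
  have hn0 : 0 < n := by rw [hn]; positivity
  have hB0 : 0 ≤ B := by linarith
  have k1 : |D2 * a3| ≤ 72 * B * |D2| / n := by
    rw [abs_mul]
    calc |D2| * |a3| ≤ |D2| * (72 * B / n) := mul_le_mul_of_nonneg_left ha3 (abs_nonneg _)
      _ = 72 * B * |D2| / n := by ring
  have k2 : |(M3z - M3y) * a4| ≤ 544 * B ^ 2 * b / t := by
    rw [abs_mul]
    have h := abs_sub M3z M3y
    calc |M3z - M3y| * |a4| ≤ (2 * (b * t * (B * n))) * (272 * B / n ^ 2) :=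
          mul_le_mul (by linarith) ha4 (abs_nonneg _) (by positivity)
      _ = 544 * B ^ 2 * b / t := by rw [hn]; field_simp; ring
  have k3 : |(M4z - M4y) * a5| ≤ 2112 * B ^ 2 * b ^ 2 / t ^ 2 := by
    rw [abs_mul]
    have h := abs_sub M4z M4y
    calc |M4z - M4y| * |a5| ≤ (2 * ((b * t) ^ 2 * (B * n))) * (1056 * B / n ^ 3) :=
          mul_le_mul (by linarith) ha5 (abs_nonneg _) (by positivity)
      _ = 2112 * B ^ 2 * b ^ 2 / t ^ 2 := by rw [hn]; field_simp; ring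
  have k4 : |ka * (Ez - Ey)| ≤ 384 * B * b ^ 3 / t := by
    rw [abs_mul]
    have h := abs_sub Ez Ey
    calc |ka| * |Ez - Ey| ≤ (3 * n ^ 3) * (2 * (64 / n ^ 6 * ((b * t) ^ 3 * (B * n)))) :=
          mul_le_mul hka (by linarith) (abs_nonneg _) (by positivity)
      _ = 384 * B * b ^ 3 / t := by rw [hn]; field_simp; ring
  have hBp : ∀ k : ℕ, 1 ≤ B ^ k := fun k => one_le_pow₀ hB
  have b2 : b ^ 2 ≤ B ^ 2 := pow_le_pow_left₀ hb hbB 2
  have b3 : b ^ 3 ≤ B ^ 3 := pow_le_pow_left₀ hb hbB 3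
  have k1' : 72 * B * |D2| / n ≤ 3040 * B ^ 4 * |D2| / n := by
    apply div_le_div_of_nonneg_right _ hn0.le
    apply mul_le_mul_of_nonneg_right _ (abs_nonneg _)
    have := mul_le_mul_of_nonneg_left (hBp 3) hB0
    have e : B * B ^ 3 = B ^ 4 := by ring
    have := hBp 4
    linarith
  have k2' : 544 * B ^ 2 * b / t ≤ 544 * B ^ 4 / t := by
    apply div_le_div_of_nonneg_right _ ht0.le
    have h1 : B ^ 2 * b ≤ B ^ 2 * B := mul_le_mul_of_nonneg_left hbB (by positivity)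
    have h2 : B ^ 3 * 1 ≤ B ^ 3 * B := mul_le_mul_of_nonneg_left hB (by positivity)
    have e1 : B ^ 2 * B = B ^ 3 := by ring
    have e2 : B ^ 3 * B = B ^ 4 := by ring
    rw [e1] at h1; rw [e2] at h2
    linarith
  have k3' : 2112 * B ^ 2 * b ^ 2 / t ^ 2 ≤ 2112 * B ^ 4 / t := by
    rw [div_le_div_iff₀ (by positivity) ht0]
    have h1 : B ^ 2 * b ^ 2 ≤ B ^ 2 * B ^ 2 := mul_le_mul_of_nonneg_left b2 (by positivity)
    have h2 : B ^ 2 * b ^ 2 * t ≤ B ^ 2 * B ^ 2 * t := mul_le_mul_of_nonneg_right h1 ht0.le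
    have h3 : B ^ 4 * (t * 1) ≤ B ^ 4 * (t * t) :=
      mul_le_mul_of_nonneg_left (mul_le_mul_of_nonneg_left ht ht0.le) (by positivity)
    have e1 : B ^ 2 * B ^ 2 * t = B ^ 4 * (t * 1) := by ring
    have e2 : B ^ 4 * (t * t) = B ^ 4 * t ^ 2 := by ring
    rw [e1] at h2; rw [e2] at h3
    have e3 : 2112 * B ^ 2 * b ^ 2 * t = 2112 * (B ^ 2 * b ^ 2 * t) := by ring
    have e4 : 2112 * B ^ 4 * t ^ 2 = 2112 * (B ^ 4 * t ^ 2) := by ring
    rw [e3, e4]
    linarith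
  have k4' : 384 * B * b ^ 3 / t ≤ 384 * B ^ 4 / t := by
    apply div_le_div_of_nonneg_right _ ht0.le
    have h1 : B * b ^ 3 ≤ B * B ^ 3 := mul_le_mul_of_nonneg_left b3 hB0
    have e1 : B * B ^ 3 = B ^ 4 := by ring
    rw [e1] at h1
    linarith
  have tot : 544 * B ^ 4 / t + 2112 * B ^ 4 / t + 384 * B ^ 4 / t = 3040 * B ^ 4 / t := by ring
  have q1 := abs_sub (D2 * a3 - (M3z - M3y) * a4 + (M4z - M4y) * a5) (ka * (Ez - Ey))
  have q2 := abs_add_le (D2 * a3 - (M3z - M3y) * a4) ((M4z - M4y) * a5)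
  have q3 := abs_sub (D2 * a3) ((M3z - M3y) * a4)
  linarith

end TAYp

open TAYp in
theorem blk_TAY : Stmt_TAY := by
  intro r B hr hB
  have hB4 : 1 ≤ B ^ 4 := one_le_pow₀ hB
  have hBB : B ≤ B ^ 4 := by
    calc B = B ^ 1 := (pow_one _).symm
      _ ≤ B ^ 4 := pow_le_pow_right₀ hB (by norm_num)
  refine ⟨3040 * B ^ 4, by linarith, ?_⟩
  intro n y z lam hn hlam hy hz hy2 hz2
  have hr3 : (3:ℝ) ≤ r := by exact_mod_cast hr
  have hr0 : (0:ℝ) < r := by linarith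
  have ha1 : 2 / 3 ≤ al r := al_ge hr
  have haeq : al r = 1 - 1 / (r:ℝ) := rfl
  have hn16 : 16 * B ≤ n := by linarith
  have hn1 : (1:ℝ) ≤ n := by linarith
  have hn0 : (0:ℝ) < n := by linarith
  have ht1 : 1 ≤ √(n:ℝ) := by
    rw [show (1:ℝ) = √1 by simp]; exact Real.sqrt_le_sqrt hn1
  have hb1 : √B ≤ B := by
    rw [Real.sqrt_le_left (by linarith)]
    have := mul_le_mul_of_nonneg_left hB (by linarith : 0 ≤ B)
    rw [sq]; linarith
  have hdev : ∀ w : Fin r → ℝ, mo 2 n w ≤ B * n → ∀ i, |w i - n / r| ≤ √B * √(n:ℝ) := by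
    intro w hw i
    rw [← Real.sqrt_mul (by linarith)]
    apply Real.abs_le_sqrt
    refine le_trans ?_ hw
    exact Finset.single_le_sum (f := fun i => (w i - (n:ℝ) / r) ^ 2)
      (fun i _ => sq_nonneg _) (Finset.mem_univ i)
  have hbt : √B * √(n:ℝ) ≤ n / 4 := by
    rw [← Real.sqrt_mul (by linarith), Real.sqrt_le_left (by positivity)]
    have := mul_le_mul_of_nonneg_right hn16 hn0.le
    rw [div_pow, sq]; linarith
  set th : ℝ := lam - al r * n with hth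
  set s : ℝ := lam + n / r with hsdef
  have hs : s = n + th := by
    rw [hsdef, hth, haeq]; ring
  have hthB := abs_le.mp hlam
  have hs34 : 3 / 4 * (n:ℝ) ≤ s := by rw [hs]; linarith [hthB.1]
  have hsne : s ≠ 0 := by
    have : 0 < s := by linarith
    exact this.ne'
  have hsd : ∀ w : Fin r → ℝ, mo 2 n w ≤ B * n → ∀ i, (n:ℝ) / 2 ≤ s + (w i - n / r) := by
    intro w hw i
    have := (abs_le.mp (hdev w hw i)).1
    linarith
  have hsdne : ∀ w : Fin r → ℝ, mo 2 n w ≤ B * n → ∀ i, s + (w i - n / r) ≠ 0 := by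
    intro w hw i
    have h1 := hsd w hw i
    have h2 : (0:ℝ) < n / 2 := by positivity
    exact (lt_of_lt_of_le h2 h1).ne'
  have ePy := Pheq hr n y lam s hy hsdef hsne (hsdne y hy2)
  have ePz := Pheq hr n z lam s hz hsdef hsne (hsdne z hz2)
  obtain ⟨c3, c4, c5, c6⟩ := coef n (al r) th B s ((n:ℝ) ^ 2 / al r * (al r * n + th)) hn0 ha1 hlam
    (by linarith) hs rfl
  have hlameq : al r * n + th = lam := by rw [hth]; ring
  rw [hlameq] at c3 c4 c5 c6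
  have hbt0 : 0 ≤ √B * √(n:ℝ) := by positivity
  have key := fin n (√(n:ℝ)) B (√B) (mo 2 n z - mo 2 n y) (mo 3 n y) (mo 3 n z) (mo 4 n y)
    (mo 4 n z) (Er n y s) (Er n z s) _ _ _ _ ht1 (Real.sq_sqrt hn0.le).symm hB
    (Real.sqrt_nonneg _) hb1
    (mo3b n y B _ hbt0 (hdev y hy2) hy2) (mo3b n z B _ hbt0 (hdev z hz2) hz2)
    (mo4b n y B _ (hdev y hy2) hy2) (mo4b n z B _ (hdev z hz2) hz2)
    (Erb n y B _ s hn0 (hdev y hy2) hy2 (by linarith) hbt0 (hsd y hy2))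
    (Erb n z B _ s hn0 (hdev z hz2) hz2 (by linarith) hbt0 (hsd z hz2)) c3 c4 c5 c6
  rw [abs_sub_comm (mo 2 n y) (mo 2 n z), ePy, ePz]
  refine le_trans (le_of_eq ?_) key
  congr 1
  ring

end Pool.Agent.Work.MP_5532fa_up

end

section

/-!
# Block REPL: vectors with given sum and sum of squares
-/

open Finset

namespace Pool.Agent.Work.MP_5532fa_up

namespace REPL

/-- four integers with odd sum `b` and odd sum of squares `a` -/
theorem four (h : Stmt_TSQ) (a b : ℤ) (ha : a % 2 = 1) (hb : b % 2 = 1)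
    (hpos : 0 < 4 * a - b ^ 2) :
    ∃ u1 u2 u3 u4 : ℤ, u1 + u2 + u3 + u4 = b ∧ u1 ^ 2 + u2 ^ 2 + u3 ^ 2 + u4 ^ 2 = a := by
  obtain ⟨a', rfl⟩ : ∃ a', a = 2 * a' + 1 := ⟨a / 2, by omega⟩
  obtain ⟨b', rfl⟩ : ∃ b', b = 2 * b' + 1 := ⟨b / 2, by omega⟩
  have hm : (4 * (2 * a' + 1) - (2 * b' + 1) ^ 2) % 8 = 3 := by
    obtain ⟨c, hc⟩ : ∃ c, b' * (b' + 1) = 2 * c := by
      obtain ⟨c, hc⟩ := Int.even_mul_succ_self b'
      exact ⟨c, by omega⟩
    have e : 4 * (2 * a' + 1) - (2 * b' + 1) ^ 2 = 8 * (a' - c) + 3 := by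
      linear_combination (-4) * hc
    rw [e]
    omega
  obtain ⟨n, hn⟩ : ∃ n : ℕ, (n : ℤ) = 4 * (2 * a' + 1) - (2 * b' + 1) ^ 2 :=
    ⟨(4 * (2 * a' + 1) - (2 * b' + 1) ^ 2).toNat, Int.toNat_of_nonneg hpos.le⟩
  have hn8 : n % 8 = 3 := by omega
  obtain ⟨x, y, z, hxyz⟩ := h n hn8
  have hodd : x % 2 = 1 ∧ y % 2 = 1 ∧ z % 2 = 1 := by
    have key : ∀ t : ℕ, t ^ 2 % 8 = if t % 2 = 1 then 1 else (if t % 4 = 0 then 0 else 4) := by
      intro t
      have h1 : t % 8 < 8 := Nat.mod_lt _ (by norm_num)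
      rw [Nat.pow_mod]
      have h2 : t % 2 = (t % 8) % 2 := by omega
      have h4 : t % 4 = (t % 8) % 4 := by omega
      rw [h2, h4]
      interval_cases (t % 8) <;> simp
    have hx := key x
    have hy := key y
    have hz := key z
    rw [hxyz] at hn8
    refine ⟨?_, ?_, ?_⟩
    · by_contra hc
      rw [if_neg hc] at hx
      split_ifs at hx hy hz <;> omega
    · by_contra hc
      rw [if_neg hc] at hy
      split_ifs at hx hy hz <;> omega
    · by_contra hc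
      rw [if_neg hc] at hz
      split_ifs at hx hy hz <;> omega
  obtain ⟨hx, hy, hz⟩ := hodd
  have hsum : (x : ℤ) ^ 2 + (y : ℤ) ^ 2 + (z : ℤ) ^ 2 = 4 * (2 * a' + 1) - (2 * b' + 1) ^ 2 := by
    rw [← hn, hxyz]
    push_cast
    ring
  -- choose the sign of z
  obtain ⟨w, hw1, hw2⟩ : ∃ w : ℤ, w ^ 2 = (z : ℤ) ^ 2 ∧ (2 * b' + 1 + x + y + w) % 4 = 0 := by
    by_cases h4 : (2 * b' + 1 + x + y + z) % 4 = 0
    · exact ⟨z, rfl, h4⟩
    · refine ⟨-z, by ring, ?_⟩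
      omega
  have hwodd : w % 2 = 1 := by
    omega
  obtain ⟨u, hu⟩ : ∃ u, 2 * b' + 1 + x + y + w = 4 * u :=
    ⟨(2 * b' + 1 + x + y + w) / 4, by omega⟩
  obtain ⟨p1, hp1⟩ : ∃ p, (y : ℤ) + w = 2 * p := ⟨((y : ℤ) + w) / 2, by omega⟩
  obtain ⟨p2, hp2⟩ : ∃ p, (x : ℤ) + w = 2 * p := ⟨((x : ℤ) + w) / 2, by omega⟩
  obtain ⟨p3, hp3⟩ : ∃ p, (x : ℤ) + y = 2 * p := ⟨((x : ℤ) + y) / 2, by omega⟩
  refine ⟨u, u - p1, u - p2, u - p3, ?_, ?_⟩
  · linarith
  · have e1 : (x : ℤ) = p2 + p3 - p1 := by linarith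
    have e2 : (y : ℤ) = p1 + p3 - p2 := by linarith
    have e3 : w = p1 + p2 - p3 := by linarith
    have e4 : (2 * b' + 1) = 4 * u - p1 - p2 - p3 := by linarith
    rw [← hw1, e1, e2, e3, e4] at hsum
    linarith

/-- five coordinates -/
theorem five (h : Stmt_TSQ) (s k : ℤ) (hs0 : 0 ≤ s) (hs : s < 5) (hk : 0 ≤ k) :
    ∃ u : Fin 5 → ℤ, ∑ i, u i = s ∧ ∑ i, u i ^ 2 = s + 2 * k := by
  have main : ∀ t b a : ℤ, t ^ 2 = t → a % 2 = 1 → b % 2 = 1 → 0 < 4 * a - b ^ 2 → b + t = s →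
      a + t = s + 2 * k → ∃ u : Fin 5 → ℤ, ∑ i, u i = s ∧ ∑ i, u i ^ 2 = s + 2 * k := by
    intro t b a ht ha hb hpos h1 h2
    obtain ⟨u1, u2, u3, u4, e1, e2⟩ := four h a b ha hb hpos
    refine ⟨![u1, u2, u3, u4, t], ?_, ?_⟩
    · simp [Fin.sum_univ_succ]
      linarith
    · simp [Fin.sum_univ_succ]
      rw [ht]
      linarith
  interval_cases s
  · rcases eq_or_lt_of_le hk with h0 | h0
    · exact ⟨fun _ => 0, by simp, by simp [← h0]⟩
    · exact main 1 (-1) (2 * k - 1) (by norm_num) (by omega) (by norm_num) (by nlinarith)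
        (by norm_num) (by ring)
  · exact main 0 1 (1 + 2 * k) (by norm_num) (by omega) (by norm_num) (by nlinarith)
      (by norm_num) (by ring)
  · exact main 1 1 (1 + 2 * k) (by norm_num) (by omega) (by norm_num) (by nlinarith)
      (by norm_num) (by ring)
  · exact main 0 3 (3 + 2 * k) (by norm_num) (by omega) (by norm_num) (by nlinarith)
      (by norm_num) (by ring)
  · exact main 1 3 (3 + 2 * k) (by norm_num) (by omega) (by norm_num) (by nlinarith)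
      (by norm_num) (by ring)

theorem many (h : Stmt_TSQ) (l : ℕ) (hl : 5 ≤ l) : ∀ (s k : ℤ), 0 ≤ s → s < l → 0 ≤ k →
    ∃ u : Fin l → ℤ, ∑ i, u i = s ∧ ∑ i, u i ^ 2 = s + 2 * k := by
  induction l, hl using Nat.le_induction with
  | base =>
    intro s k h0 h1 hk
    exact five h s k h0 (by exact_mod_cast h1) hk
  | succ l hl ih =>
    intro s k h0 h1 hk
    rcases eq_or_lt_of_le h0 with h2 | h2
    · obtain ⟨u, e1, e2⟩ := ih 0 k le_rfl (by omega) hk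
      refine ⟨Fin.cons 0 u, ?_, ?_⟩
      · simp [Fin.sum_univ_succ, e1, h2]
      · simp [Fin.sum_univ_succ, e2, ← h2]
    · obtain ⟨u, e1, e2⟩ := ih (s - 1) k (by omega) (by push_cast at h1; omega) hk
      refine ⟨Fin.cons 1 u, ?_, ?_⟩
      · simp [Fin.sum_univ_succ, e1]
      · simp [Fin.sum_univ_succ, e2]
        ring

end REPL

open REPL in
theorem blk_REPL (h : Stmt_TSQ) : Stmt_REPL := by
  intro l hl M S hy hpar
  obtain ⟨y, hy1, hy2⟩ := hy
  have hl0 : (0 : ℤ) < l := by omega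
  set q := M / l with hq
  set s := M % l with hs
  have hM : M = l * q + s := (Int.mul_ediv_add_emod M l).symm
  have hs0 : 0 ≤ s := Int.emod_nonneg _ hl0.ne'
  have hs1 : s < l := Int.emod_lt_of_pos _ hl0
  -- the sum of squares of `y - q`
  have hsq : ∀ v : Fin l → ℤ, ∑ i, (v i - q) ^ 2 = ∑ i, v i ^ 2 - 2 * q * ∑ i, v i + l * q ^ 2 := by
    intro v
    have e : ∀ i, (v i - q) ^ 2 = v i ^ 2 - 2 * q * v i + q ^ 2 := fun i => by ring
    simp only [e]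
    rw [Finset.sum_add_distrib, Finset.sum_sub_distrib, ← Finset.mul_sum]
    simp
  have hge : s ≤ ∑ i, (y i - q) ^ 2 := by
    have h1 : ∀ i, y i - q ≤ (y i - q) ^ 2 := fun i => Int.le_self_sq _
    have h2 := Finset.sum_le_sum (fun i (_ : i ∈ Finset.univ) => h1 i)
    rw [Finset.sum_sub_distrib, hy1] at h2
    simp at h2
    linarith
  obtain ⟨k, hk⟩ : ∃ k, S - 2 * q * M + l * q ^ 2 = s + 2 * k := by
    obtain ⟨c, hc⟩ := hpar
    obtain ⟨d, hd⟩ := Int.even_mul_succ_self q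
    refine ⟨c - q * M + l * d, ?_⟩
    have e1 : q ^ 2 = d + d - q := by linarith [hd, (by ring : q * (q + 1) = q ^ 2 + q)]
    rw [e1]
    linarith [hM, hc, (by ring : (l : ℤ) * (d + d - q) = 2 * (l * d) - l * q)]
  have hk0 : 0 ≤ k := by
    rw [hsq, hy1] at hge
    linarith
  obtain ⟨u, e1, e2⟩ := many h l hl s k hs0 hs1 hk0
  refine ⟨fun i => u i + q, ?_, ?_⟩
  · rw [Finset.sum_add_distrib, e1]
    simp
    linarith
  · have e3 := hsq (fun i => u i + q)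
    simp only [add_sub_cancel_right] at e3
    rw [e2] at e3
    have e4 : ∑ i, (u i + q) = M := by
      rw [Finset.sum_add_distrib, e1]
      simp
      linarith
    rw [e4] at e3
    linarith

end Pool.Agent.Work.MP_5532fa_up

end

section

/-! Block CU1: third and fourth moments of a vector with sum zero. -/

open Finset

namespace Pool.Agent.Work.MP_5532fa_up

namespace CU1

theorem abs_sum_cube {ι : Type*} (s : Finset ι) (z : ι → ℝ) (σ : ℝ) (hσ : 0 ≤ σ)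
    (h : ∑ k ∈ s, z k ^ 2 = σ ^ 2) : |∑ k ∈ s, z k ^ 3| ≤ σ ^ 3 := by
  have h1 : ∀ k ∈ s, |z k| ≤ σ := by
    intro k hk
    refine abs_le_of_sq_le_sq ?_ hσ
    rw [← h]
    exact single_le_sum (f := fun k => z k ^ 2) (fun i _ => sq_nonneg _) hk
  calc |∑ k ∈ s, z k ^ 3| ≤ ∑ k ∈ s, |z k ^ 3| := abs_sum_le_sum_abs _ _
    _ ≤ ∑ k ∈ s, σ * z k ^ 2 := by
        refine sum_le_sum fun k hk => ?_
        rw [abs_pow, pow_succ, mul_comm (|z k| ^ 2), sq_abs]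
        exact mul_le_mul_of_nonneg_right (h1 k hk) (sq_nonneg _)
    _ = σ ^ 3 := by rw [← mul_sum, h]; ring

theorem sum_four {ι : Type*} (s : Finset ι) (z : ι → ℝ) (T : ℝ)
    (h : ∑ k ∈ s, z k ^ 2 = T) : ∑ k ∈ s, z k ^ 4 ≤ T ^ 2 := by
  have h1 : ∀ k ∈ s, z k ^ 2 ≤ T := by
    intro k hk
    rw [← h]
    exact single_le_sum (f := fun k => z k ^ 2) (fun i _ => sq_nonneg _) hk
  calc ∑ k ∈ s, z k ^ 4 ≤ ∑ k ∈ s, T * z k ^ 2 := by
        refine sum_le_sum fun k hk => ?_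
        have h2 : z k ^ 4 = z k ^ 2 * z k ^ 2 := by ring
        rw [h2]
        exact mul_le_mul_of_nonneg_right (h1 k hk) (sq_nonneg _)
    _ = T ^ 2 := by rw [← mul_sum, h]; ring

end CU1

theorem blk_CU1 : Stmt_CU1 := by
  intro r hr d R hs hR
  have hr1 : (0 : ℝ) < (r : ℝ) - 1 := by
    have : (3 : ℝ) ≤ r := by exact_mod_cast hr
    linarith
  have hr0 : (0 : ℝ) < (r : ℝ) := by linarith
  have hcard : ∀ i : Fin r, ((univ.erase i).card : ℝ) = (r : ℝ) - 1 := by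
    intro i
    rw [card_erase_of_mem (mem_univ i), card_univ, Fintype.card_fin, Nat.cast_sub (by omega)]
    norm_num
  have hsi : ∀ i, ∑ k ∈ univ.erase i, d k = - d i := by
    intro i
    have h := add_sum_erase univ d (mem_univ i)
    rw [hs] at h
    linarith
  have hsi2 : ∀ i, ∑ k ∈ univ.erase i, d k ^ 2 = R - d i ^ 2 := by
    intro i
    have h := add_sum_erase univ (fun k => d k ^ 2) (mem_univ i)
    simp only [hR] at h
    linarith
  -- the vector zeta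
  have hz1 : ∀ i, ∑ k ∈ univ.erase i, (d k + d i / ((r : ℝ) - 1)) = 0 := by
    intro i
    rw [sum_add_distrib, hsi, sum_const, nsmul_eq_mul, hcard]
    field_simp
    ring
  have hz2 : ∀ i, ∑ k ∈ univ.erase i, (d k + d i / ((r : ℝ) - 1)) ^ 2 =
      R - d i ^ 2 * (r / (r - 1)) := by
    intro i
    have e : ∀ k, (d k + d i / ((r : ℝ) - 1)) ^ 2 = d k ^ 2 + 2 * (d i / ((r : ℝ) - 1)) * d k +
        (d i / ((r : ℝ) - 1)) ^ 2 := fun k => by ring
    simp only [e]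
    rw [sum_add_distrib, sum_add_distrib, ← mul_sum, hsi, hsi2, sum_const, nsmul_eq_mul, hcard]
    field_simp
    ring
  have hz3 : ∀ i, ∑ k, d k ^ 3 = d i ^ 3 * (r * (r + 1) / (r - 1) ^ 2) - 3 * d i * R / (r - 1) +
      ∑ k ∈ univ.erase i, (d k + d i / ((r : ℝ) - 1)) ^ 3 := by
    intro i
    have e : ∀ k, d k ^ 3 = (d k + d i / ((r : ℝ) - 1)) ^ 3
        - 3 * (d i / ((r : ℝ) - 1)) * (d k + d i / ((r : ℝ) - 1)) ^ 2
        + 3 * (d i / ((r : ℝ) - 1)) ^ 2 * (d k + d i / ((r : ℝ) - 1))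
        - (d i / ((r : ℝ) - 1)) ^ 3 := fun k => by ring
    rw [← add_sum_erase univ (fun k => d k ^ 3) (mem_univ i)]
    have h := sum_congr (rfl : univ.erase i = univ.erase i) fun k _ => e k
    rw [h, sum_sub_distrib, sum_add_distrib, sum_sub_distrib, ← mul_sum, ← mul_sum, hz1, hz2,
      sum_const, nsmul_eq_mul, hcard]
    generalize ∑ k ∈ univ.erase i, (d k + d i / ((r : ℝ) - 1)) ^ 3 = Z3
    field_simp
    ring
  have hz4 : ∀ i, ∑ k, d k ^ 4 = d i ^ 4 * (1 + 1 / (r - 1) ^ 3)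
      + 6 * d i ^ 2 * (R - d i ^ 2 * (r / (r - 1))) / (r - 1) ^ 2
      - 4 * (d i / ((r : ℝ) - 1)) * ∑ k ∈ univ.erase i, (d k + d i / ((r : ℝ) - 1)) ^ 3
      + ∑ k ∈ univ.erase i, (d k + d i / ((r : ℝ) - 1)) ^ 4 := by
    intro i
    have e : ∀ k, d k ^ 4 = (d k + d i / ((r : ℝ) - 1)) ^ 4
        - 4 * (d i / ((r : ℝ) - 1)) * (d k + d i / ((r : ℝ) - 1)) ^ 3
        + 6 * (d i / ((r : ℝ) - 1)) ^ 2 * (d k + d i / ((r : ℝ) - 1)) ^ 2
        - 4 * (d i / ((r : ℝ) - 1)) ^ 3 * (d k + d i / ((r : ℝ) - 1))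
        + (d i / ((r : ℝ) - 1)) ^ 4 := fun k => by ring
    rw [← add_sum_erase univ (fun k => d k ^ 4) (mem_univ i)]
    have h := sum_congr (rfl : univ.erase i = univ.erase i) fun k _ => e k
    rw [h, sum_add_distrib, sum_sub_distrib, sum_add_distrib, sum_sub_distrib, ← mul_sum,
      ← mul_sum, ← mul_sum, hz1, hz2, sum_const, nsmul_eq_mul, hcard]
    generalize ∑ k ∈ univ.erase i, (d k + d i / ((r : ℝ) - 1)) ^ 3 = Z3
    generalize ∑ k ∈ univ.erase i, (d k + d i / ((r : ℝ) - 1)) ^ 4 = Z4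
    field_simp
    ring
  have hRn : 0 ≤ R := by
    rw [← hR]
    exact sum_nonneg fun i _ => sq_nonneg _
  refine ⟨fun i => ?_, fun i σ hσ hσ2 => ⟨?_, ?_⟩, fun i => ?_, fun D hD hdD => ?_, ?_, ?_⟩
  · have h := hz2 i
    have h1 : 0 ≤ ∑ k ∈ univ.erase i, (d k + d i / ((r : ℝ) - 1)) ^ 2 :=
      sum_nonneg fun k _ => sq_nonneg _
    linarith
  · rw [hz3 i]
    have h1 := CU1.abs_sum_cube (univ.erase i) (fun k => d k + d i / ((r : ℝ) - 1)) σ hσ
      ((hz2 i).trans hσ2.symm)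
    rwa [add_sub_cancel_left]
  · rw [hz4 i]
    have h1 := CU1.abs_sum_cube (univ.erase i) (fun k => d k + d i / ((r : ℝ) - 1)) σ hσ
      ((hz2 i).trans hσ2.symm)
    have h2 := CU1.sum_four (univ.erase i) (fun k => d k + d i / ((r : ℝ) - 1)) (σ ^ 2)
      ((hz2 i).trans hσ2.symm)
    rw [← hσ2]
    have h3 : - (4 * (d i / ((r : ℝ) - 1)) *
        ∑ k ∈ univ.erase i, (d k + d i / ((r : ℝ) - 1)) ^ 3) ≤ 4 * |d i| * σ ^ 3 / (r - 1) := by
      refine (neg_le_abs _).trans ?_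
      rw [abs_mul, abs_mul, abs_div, abs_of_pos hr1, abs_of_pos (by norm_num : (0 : ℝ) < 4)]
      have h4 : 4 * |d i| * σ ^ 3 / ((r : ℝ) - 1) = 4 * (|d i| / (r - 1)) * σ ^ 3 := by ring
      rw [h4]
      exact mul_le_mul_of_nonneg_left h1 (by positivity)
    have h5 : (σ ^ 2) ^ 2 = σ ^ 4 := by ring
    rw [h5] at h2
    linarith
  · have h1 := sq_sum_le_card_mul_sum_sq (s := univ.erase i) (f := d)
    have h2 := sq_sum_le_card_mul_sum_sq (s := univ.erase i) (f := fun k => d k ^ 2)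
    rw [hsi, hcard] at h1
    rw [hcard] at h2
    have h3 := add_sum_erase univ (fun k => d k ^ 4) (mem_univ i)
    have h4 : ∀ k, (d k ^ 2) ^ 2 = d k ^ 4 := fun k => by ring
    simp only [h4] at h2
    set A := ∑ k ∈ univ.erase i, d k ^ 2 with hA
    set B := ∑ k ∈ univ.erase i, d k ^ 4 with hB
    have hA0 : 0 ≤ A := sum_nonneg fun k _ => sq_nonneg _
    have h5 : d i ^ 4 ≤ ((r : ℝ) - 1) ^ 2 * A ^ 2 := by
      have h6 : (-d i) ^ 2 * (-d i) ^ 2 ≤ (((r : ℝ) - 1) * A) * (((r : ℝ) - 1) * A) :=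
        mul_le_mul h1 h1 (sq_nonneg _) (mul_nonneg hr1.le hA0)
      calc d i ^ 4 = (-d i) ^ 2 * (-d i) ^ 2 := by ring
        _ ≤ _ := h6
        _ = _ := by ring
    have h7 : d i ^ 4 ≤ ((r : ℝ) - 1) ^ 3 * B := by
      calc d i ^ 4 ≤ ((r : ℝ) - 1) ^ 2 * A ^ 2 := h5
        _ ≤ ((r : ℝ) - 1) ^ 2 * (((r : ℝ) - 1) * B) := mul_le_mul_of_nonneg_left h2 (sq_nonneg _)
        _ = _ := by ring
    have h8 : d i ^ 4 * (1 / ((r : ℝ) - 1) ^ 3) ≤ B := by
      rw [mul_one_div, div_le_iff₀ (by positivity)]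
      linarith
    rw [← h3]
    linarith
  · have h1 : 0 ≤ ∑ k, (D - d k) * (d k + R / (r * D)) ^ 2 :=
      sum_nonneg fun k _ => mul_nonneg (sub_nonneg.2 (hdD k)) (sq_nonneg _)
    have e : ∀ k, (D - d k) * (d k + R / (r * D)) ^ 2 = D * d k ^ 2
        + (2 * (R / (r * D)) * D - (R / (r * D)) ^ 2) * d k + D * (R / (r * D)) ^ 2
        - d k ^ 3 - 2 * (R / (r * D)) * d k ^ 2 := fun k => by ring
    simp only [e] at h1
    have h2 : ∑ k, (D * d k ^ 2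
        + (2 * (R / (r * D)) * D - (R / (r * D)) ^ 2) * d k + D * (R / (r * D)) ^ 2
        - d k ^ 3 - 2 * (R / (r * D)) * d k ^ 2) = D * ∑ k, d k ^ 2
        + (2 * (R / (r * D)) * D - (R / (r * D)) ^ 2) * ∑ k, d k
        + (r : ℝ) * (D * (R / (r * D)) ^ 2) - ∑ k, d k ^ 3
        - 2 * (R / (r * D)) * ∑ k, d k ^ 2 := by
      rw [sum_sub_distrib, sum_sub_distrib, sum_add_distrib, sum_add_distrib, mul_sum,
        mul_sum, mul_sum, sum_const, nsmul_eq_mul, card_univ, Fintype.card_fin]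
    rw [h2, hs, hR] at h1
    have e2 : (r : ℝ) * (D * (R / (r * D)) ^ 2) = R ^ 2 / (r * D) := by
      field_simp
    have e3 : 2 * (R / (r * D)) * R = 2 * (R ^ 2 / (r * D)) := by ring
    rw [e2, e3] at h1
    linarith
  · have h1 := CU1.abs_sum_cube univ d (√R) (Real.sqrt_nonneg _) (by
      rw [Real.sq_sqrt hRn, hR])
    have e : √R ^ 3 = R * √R := by
      rw [pow_succ, Real.sq_sqrt hRn]
    rwa [e] at h1
  · exact CU1.sum_four univ d R hR

end Pool.Agent.Work.MP_5532fa_up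

end

section

/-!
# MP_5532fa_co, upgrade, fourth round, block TSA: the auxiliary prime
-/

open NumberTheorySymbols

namespace Pool.Agent.Work.MP_5532fa_up

theorem blk_TSA : Stmt_TSA := by
  intro n _ hn8
  have hn0 : 0 < n := by omega
  have hnodd : n % 2 = 1 := by omega
  have hodd : Odd n := Nat.odd_iff.2 hnodd
  -- the residue
  have hco4 : Nat.Coprime 4 n := by
    have h2 : Nat.Coprime 2 n := (Nat.coprime_two_left).2 hodd
    have := Nat.Coprime.pow_left 2 h2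
    simpa using this
  obtain ⟨u, hu4, hun⟩ := Nat.chineseRemainder hco4 1 ((n - 1) / 2)
  haveI : NeZero (4 * n) := ⟨by omega⟩
  have hu2 : (2 * u) % n = (n - 1) % n := by
    have h1 : 2 * u ≡ 2 * ((n - 1) / 2) [MOD n] := Nat.ModEq.mul_left 2 hun
    have h2 : 2 * ((n - 1) / 2) = n - 1 := by omega
    rw [h2] at h1
    exact h1
  have hcou : Nat.Coprime u (4 * n) := by
    apply Nat.Coprime.mul_right
    · have : Nat.gcd u 4 = Nat.gcd 1 4 := Nat.ModEq.gcd_eq hu4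
      unfold Nat.Coprime
      rw [this]; decide
    · have h3 : Nat.Coprime (2 * u) n := by
        have : Nat.gcd (2 * u) n = Nat.gcd (n - 1) n := Nat.ModEq.gcd_eq hu2
        unfold Nat.Coprime
        rw [this]
        have h5 : Nat.Coprime n (n - 1) := by
          have := (Nat.coprime_self_sub_right (m := 1) (n := n) (by omega)).2
            (Nat.coprime_one_right n)
          exact this
        exact h5.symm
      exact Nat.Coprime.coprime_mul_left h3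
  have hunit : IsUnit ((u : ℕ) : ZMod (4 * n)) := (ZMod.isUnit_iff_coprime u (4 * n)).2 hcou
  obtain ⟨q, hqn, hqp, hqu⟩ := Nat.forall_exists_prime_gt_and_eq_mod hunit n
  have hqmod : q ≡ u [MOD 4 * n] := (ZMod.natCast_eq_natCast_iff q u (4 * n)).1 hqu
  have hq4 : q % 4 = 1 := by
    have h1 : q ≡ u [MOD 4] := Nat.ModEq.of_mul_right n hqmod
    have h2 : q ≡ 1 [MOD 4] := h1.trans hu4
    exact h2
  have hqn2 : q ≡ u [MOD n] := Nat.ModEq.of_mul_left 4 hqmod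
  have hqcop : Nat.Coprime q n := by
    have : Nat.gcd q n = Nat.gcd u n := Nat.ModEq.gcd_eq hqn2
    unfold Nat.Coprime
    rw [this]
    exact Nat.Coprime.coprime_mul_left_right hcou
  have hdvd : (n : ℤ) ∣ 2 * q + 1 := by
    have h1 : 2 * q ≡ n - 1 [MOD n] := (Nat.ModEq.mul_left 2 hqn2).trans hu2
    have h2 : 2 * q + 1 ≡ n - 1 + 1 [MOD n] := Nat.ModEq.add_right 1 h1
    have h3 : n - 1 + 1 = n := by omega
    rw [h3] at h2
    have h4 : n ∣ 2 * q + 1 := by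
      have : 2 * q + 1 ≡ 0 [MOD n] := h2.trans (by simp [Nat.ModEq])
      exact (Nat.modEq_zero_iff_dvd).1 this
    exact_mod_cast h4
  haveI : Fact q.Prime := ⟨hqp⟩
  -- the Jacobi symbol
  have hJ1 : J((q : ℤ) | n) = 1 := by
    have h1 : J((2 * q : ℤ) | n) = J((-1 : ℤ) | n) := by
      apply jacobiSym.mod_left'
      obtain ⟨k, hk⟩ := hdvd
      have : (2 * q : ℤ) = -1 + n * k := by linarith
      rw [this, Int.add_mul_emod_self_left]
    have h2 : J((2 * q : ℤ) | n) = J((2 : ℤ) | n) * J((q : ℤ) | n) := jacobiSym.mul_left 2 q n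
    have h3 : J((2 : ℤ) | n) = -1 := by
      rw [jacobiSym.at_two hodd, ZMod.χ₈_nat_eq_if_mod_eight]
      simp [hnodd, hn8]
    have h4 : J((-1 : ℤ) | n) = -1 := by
      rw [jacobiSym.at_neg_one hodd, ZMod.χ₄_nat_eq_if_mod_four]
      have : n % 4 = 3 := by omega
      simp [hnodd, this]
    rw [h2, h3, h4] at h1
    linarith
  have hqodd : Odd q := by
    rw [Nat.odd_iff]; omega
  have hJ2 : J((n : ℤ) | q) = 1 := by
    rw [← jacobiSym.quadratic_reciprocity_one_mod_four hq4 hodd]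
    exact hJ1
  have hJ3 : J((-n : ℤ) | q) = 1 := by
    have h1 : J((-n : ℤ) | q) = J((-1 : ℤ) | q) * J((n : ℤ) | q) := by
      rw [← jacobiSym.mul_left]; simp
    rw [h1, hJ2, jacobiSym.at_neg_one hqodd, ZMod.χ₄_nat_eq_if_mod_four]
    have : q % 2 = 1 := by omega
    simp [hq4, this]
  have hL : legendreSym q (-n : ℤ) = 1 := by
    rw [jacobiSym.legendreSym.to_jacobiSym]; exact hJ3
  have hne : ((-n : ℤ) : ZMod q) ≠ 0 := by
    intro h0
    rw [ZMod.intCast_zmod_eq_zero_iff_dvd] at h0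
    have h1 : (q : ℤ) ∣ n := by
      have := (dvd_neg).1 h0
      exact this
    have h2 : q ∣ n := by exact_mod_cast h1
    have := Nat.Coprime.eq_one_of_dvd hqcop h2
    exact hqp.one_lt.ne' this
  have hsq := (legendreSym.eq_one_iff q hne).1 hL
  obtain ⟨b0, hb0⟩ := hsq
  -- a representative
  have key : ∀ c : ℤ, (q : ℤ) ∣ c ^ 2 + n → c % 2 = 1 → ∃ h : ℤ, c ^ 2 - 4 * q * h = -n := by
    intro c hc hc2
    have h4 : (4 : ℤ) ∣ c ^ 2 + n := by
      obtain ⟨k, hk⟩ : ∃ k, c = 2 * k + 1 := ⟨c / 2, by omega⟩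
      obtain ⟨l, hl⟩ : ∃ l : ℤ, (n : ℤ) = 8 * l + 3 := ⟨(n : ℤ) / 8, by omega⟩
      exact ⟨k ^ 2 + k + 2 * l + 1, by rw [hk, hl]; ring⟩
    have hcop : IsCoprime (4 : ℤ) q := by
      have : Nat.Coprime 4 q := by
        have h2 : Nat.Coprime 2 q := (Nat.coprime_two_left).2 hqodd
        have := Nat.Coprime.pow_left 2 h2
        simpa using this
      exact_mod_cast Nat.isCoprime_iff_coprime.2 this
    obtain ⟨h, hh⟩ := hcop.mul_dvd h4 hc
    exact ⟨h, by linarith⟩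
  have hb1 : (q : ℤ) ∣ ((b0.val : ℤ)) ^ 2 + n := by
    rw [← ZMod.intCast_zmod_eq_zero_iff_dvd]
    push_cast
    rw [ZMod.natCast_zmod_val]
    push_cast at hb0
    rw [sq, ← hb0]; ring
  rcases Int.emod_two_eq_zero_or_one (b0.val : ℤ) with he | ho
  · have h1 : ((b0.val : ℤ) + q) % 2 = 1 := by
      have : (q : ℤ) % 2 = 1 := by
        have := Nat.odd_iff.1 hqodd
        omega
      omega
    have h2 : (q : ℤ) ∣ ((b0.val : ℤ) + q) ^ 2 + n := by
      have : ((b0.val : ℤ) + q) ^ 2 + n = ((b0.val : ℤ) ^ 2 + n) + q * (2 * b0.val + q) := by ring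
      rw [this]
      exact dvd_add hb1 (dvd_mul_right _ _)
    obtain ⟨h, hh⟩ := key _ h2 h1
    exact ⟨q, _, h, 1, hqp, hq4, hqcop, hh, by simpa using hdvd⟩
  · obtain ⟨h, hh⟩ := key _ hb1 ho
    exact ⟨q, _, h, 1, hqp, hq4, hqcop, hh, by simpa using hdvd⟩

end Pool.Agent.Work.MP_5532fa_up

end
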