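import Mathlib
import Pool.Agent.Work.MP_5532fa_full.P03

section

/-!
# Block CUB (needs CU1)
-/

set_option autoImplicit false

open Finset

namespace Pool.Agent.Work.MP_5532fa_up

namespace CUB

theorem kap {r : ℝ} (hr : 3 ≤ r) : 1 ≤ r / (r - 1) ∧ r / (r - 1) ≤ 3 / 2 := by
  have h : 0 < r - 1 := by linarith only [hr]
  constructor
  · rw [le_div_iff₀ h]; linarith only []
  · rw [div_le_iff₀ h]; linarith only [hr]

theorem aa {r : ℝ} (hr : 3 ≤ r) :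
    0 ≤ r * (r + 1) / (r - 1) ^ 2 ∧ r * (r + 1) / (r - 1) ^ 2 ≤ 3 := by
  have h0 : 0 < r - 1 := by linarith only [hr]
  have h : 0 < (r - 1) ^ 2 := by positivity
  constructor
  · apply div_nonneg _ h.le
    nlinarith
  · rw [div_le_iff₀ h]; nlinarith

theorem cc {r : ℝ} (hr : 3 ≤ r) :
    0 ≤ r * (r - 2) / (r - 1) ^ 2 ∧ r * (r - 2) / (r - 1) ^ 2 ≤ 1 := by
  have h0 : 0 < r - 1 := by linarith only [hr]
  have h : 0 < (r - 1) ^ 2 := by positivity
  constructor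
  · apply div_nonneg _ h.le
    nlinarith
  · rw [div_le_iff₀ h]; nlinarith

/-- the function `g_R` in the variables `x`, `p` -/
theorem gid {r : ℝ} (hr : 3 ≤ r) (x p : ℝ) :
    (x - p) ^ 3 * (r * (r + 1) / (r - 1) ^ 2) - 3 * (x - p) * (r / (r - 1) * x ^ 2) / (r - 1)
      = r * (r - 2) / (r - 1) ^ 2 * x ^ 3 - 3 * (r / (r - 1)) ^ 2 * (x ^ 2 * p)
        + 3 * (r * (r + 1) / (r - 1) ^ 2) * (x * p ^ 2)
        - r * (r + 1) / (r - 1) ^ 2 * p ^ 3 := by
  have h0 : r - 1 ≠ 0 := by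
    have : 0 < r - 1 := by linarith only [hr]
    exact this.ne'
  field_simp
  ring

theorem exq {r x x' p ps k : ℝ} (hr : 3 ≤ r) (hx' : 1 ≤ x') (hp : 0 ≤ p) (hk0 : -1 ≤ k)
    (hk1 : k ≤ 1) (hk : k < 1 → x - p ≤ x' - ps + k)
    (h1 : x' ^ 2 ≤ (x' - ps + 1) ^ 2 + (r - 1)) (h2 : -1 ≤ x' - ps) :
    ps ≤ r ∧ ∃ q, 0 ≤ q ∧ p ≤ q + (r + 1) + |x - x'| ∧
      x' ^ 2 * q - |x ^ 2 - x' ^ 2| * p - x' ^ 2 * |x - x'| - (r - 1) * x'
        ≤ x ^ 2 * p + x' ^ 2 * (k - ps) := by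
  have h4 : (ps - 1) * x' ≤ r - 1 := by
    rcases le_total ps 1 with h | h
    · have : (ps - 1) * x' ≤ 0 := mul_nonpos_of_nonpos_of_nonneg (by linarith only [h]) (by linarith only [hx'])
      linarith only [hr, this]
    · have h5 : (ps - 1) * x' ≤ (ps - 1) * (2 * x' - ps + 1) :=
        mul_le_mul_of_nonneg_left (by linarith only [h2]) (by linarith only [h])
      nlinarith
  have h5 : ps ≤ r := by
    rcases le_total ps 1 with h | h
    · linarith only [hr, h]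
    · have : (ps - 1) * 1 ≤ (ps - 1) * x' := mul_le_mul_of_nonneg_left hx' (by linarith only [h])
      linarith only [h4, this]
  have ha := le_abs_self (x ^ 2 - x' ^ 2)
  have ha' := neg_abs_le (x ^ 2 - x' ^ 2)
  have hb := le_abs_self (x - x')
  have hb' := neg_abs_le (x - x')
  have hx2 : 0 ≤ x' ^ 2 := sq_nonneg x'
  have e1 : -(|x ^ 2 - x' ^ 2| * p) ≤ (x ^ 2 - x' ^ 2) * p := by
    have := mul_le_mul_of_nonneg_right ha' hp
    linarith only [this]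
  have e2 : -(x' ^ 2 * |x - x'|) ≤ x' ^ 2 * (x - x') := by
    have := mul_le_mul_of_nonneg_left hb' hx2
    linarith only [this]
  have e3 : 0 ≤ x' ^ 2 * |x - x'| := mul_nonneg hx2 (abs_nonneg _)
  have e4 : 0 ≤ (r - 1) * x' := mul_nonneg (by linarith only [hr]) (by linarith only [hx'])
  refine ⟨h5, ?_⟩
  rcases lt_or_eq_of_le hk1 with hk' | hk'
  · refine ⟨x' - ps + k - (x - p), by linarith only [hk hk'], by linarith only [hk0, h5, hb], ?_⟩
    have e : x' ^ 2 * (x' - ps + k - (x - p)) = x ^ 2 * p + x' ^ 2 * (k - ps)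
      - (x ^ 2 - x' ^ 2) * p - x' ^ 2 * (x - x') := by ring
    rw [e]
    linarith only [e1, e2, e4]
  · refine ⟨p, hp, by linarith only [hr, abs_nonneg (x - x')], ?_⟩
    have e : x ^ 2 * p + x' ^ 2 * (k - ps) = x' ^ 2 * p + (x ^ 2 - x' ^ 2) * p
      - x' * ((ps - 1) * x') := by rw [hk']; ring
    rw [e]
    have e5 : x' * ((ps - 1) * x') ≤ x' * (r - 1) :=
      mul_le_mul_of_nonneg_left h4 (by linarith only [hx'])
    linarith only [e1, e3, e5]

/-- comparison of `x` and `x'` -/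
theorem cmp {x x' B S T : ℝ} (hx : 0 ≤ x) (hx' : 0 ≤ x') (hT : |x ^ 2 - x' ^ 2| ≤ T)
    (h1 : x ≤ B * S) (h2 : x' ≤ B * S) :
    x ^ 3 - x' ^ 3 ≤ 2 * B * S * T ∧ (x ^ 2 + x' ^ 2) * |x - x'| ≤ 2 * B * S * T ∧
      x' ^ 2 * |x - x'| ≤ 2 * B * S * T := by
  have h3 : (x + x') ^ 2 * |x - x'| ≤ 2 * B * S * T := by
    have e : (x + x') ^ 2 * |x - x'| = (x + x') * |x ^ 2 - x' ^ 2| := by
      have e1 : x ^ 2 - x' ^ 2 = (x + x') * (x - x') := by ring
      rw [e1, abs_mul, abs_of_nonneg (add_nonneg hx hx')]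
      ring
    rw [e]
    have h4 : (x + x') * |x ^ 2 - x' ^ 2| ≤ (2 * B * S) * T :=
      mul_le_mul (by linarith only [h1, h2]) hT (abs_nonneg _) (by linarith only [hx', h2])
    linarith only [h4]
  have h4 : (x ^ 2 + x' ^ 2) * |x - x'| ≤ (x + x') ^ 2 * |x - x'| := by
    apply mul_le_mul_of_nonneg_right _ (abs_nonneg _)
    nlinarith [mul_nonneg hx hx']
  refine ⟨?_, h4.trans h3, ?_⟩
  · have e : x ^ 3 - x' ^ 3 = (x ^ 2 + x * x' + x' ^ 2) * (x - x') := by ring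
    rw [e]
    have h5 : (x ^ 2 + x * x' + x' ^ 2) * (x - x') ≤ (x ^ 2 + x * x' + x' ^ 2) * |x - x'| := by
      apply mul_le_mul_of_nonneg_left (le_abs_self _)
      have := mul_nonneg hx hx'
      positivity
    have h6 : (x ^ 2 + x * x' + x' ^ 2) * |x - x'| ≤ (x + x') ^ 2 * |x - x'| := by
      apply mul_le_mul_of_nonneg_right _ (abs_nonneg _)
      nlinarith [mul_nonneg hx hx']
    linarith only [h3, h4, h5]
  · have h5 : 0 ≤ x ^ 2 * |x - x'| := mul_nonneg (sq_nonneg _) (abs_nonneg _)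
    linarith only [h5, h4.trans h3]

/-- third powers of small numbers are small -/
theorem small {K ε S s : ℝ} (hK : 0 < K) (hε : 0 < ε) (hS : 0 < S) (h1 : K ^ 3 / ε ^ 2 ≤ S)
    (hs : 0 ≤ s) (h2 : s ^ 2 ≤ K * S) : s ^ 3 ≤ ε * S ^ 2 := by
  by_contra hcon
  push Not at hcon
  have hs0 : 0 < s := by
    rcases lt_or_eq_of_le hs with h | h
    · exact h
    · rw [← h] at hcon
      have : 0 < ε * S ^ 2 := by positivity
      norm_num at hcon
      linarith only [this, hcon]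
  have h3 : (s ^ 2) ^ 2 ≤ (K * S) ^ 2 := pow_le_pow_left₀ (sq_nonneg s) h2 2
  have h4 : ε * S ^ 2 * s < s ^ 3 * s := mul_lt_mul_of_pos_right hcon hs0
  have h5 : S ^ 2 * (ε * s) < S ^ 2 * K ^ 2 := by
    have e1 : S ^ 2 * (ε * s) = ε * S ^ 2 * s := by ring
    have e2 : S ^ 2 * K ^ 2 = (K * S) ^ 2 := by ring
    have e3 : s ^ 3 * s = (s ^ 2) ^ 2 := by ring
    rw [e1, e2]
    rw [e3] at h4
    linarith only [h3, h4]
  have h6 : ε * s < K ^ 2 := lt_of_mul_lt_mul_left h5 (by positivity)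
  have h7 : s < K ^ 2 / ε := by
    rw [lt_div_iff₀ hε]
    linarith only [h6]
  have h8 : s ^ 3 ≤ (K * S) * (K ^ 2 / ε) := by
    have e : s ^ 3 = s ^ 2 * s := by ring
    rw [e]
    exact mul_le_mul h2 h7.le hs (by positivity)
  have h9 : (K * S) * (K ^ 2 / ε) ≤ ε * S ^ 2 := by
    have e : (K * S) * (K ^ 2 / ε) = (K ^ 3 / ε ^ 2) * (ε * S) := by
      field_simp
    rw [e]
    have h10 := mul_le_mul_of_nonneg_right h1 (show (0 : ℝ) ≤ ε * S by positivity)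
    have e2 : S * (ε * S) = ε * S ^ 2 := by ring
    rw [e2] at h10
    exact h10
  linarith only [hcon, h8, h9]

/-- the far case and the case of bounded second moments -/
theorem crude {S R R' N ρ M3 M3' M4 M4' k κ : ℝ} (hS : 1 ≤ S)
    (hN : S ^ 2 = N) (hR0' : 0 ≤ R')
    (hR' : R' ≤ ρ * N) (h3 : M3 ≤ R * √R)
    (h3' : -(R' * √R') ≤ M3') (h4 : 0 ≤ M4) (h4' : M4' ≤ R' ^ 2) (hκ0 : 0 ≤ κ)
    (hκ : κ ≤ 3 / 2) (hk : -1 ≤ k) :
    M3 + (M4' - M4) / N ≤ M3' + 3 * k * κ * R' + (R * √R + R' * √R' + (ρ + 5) * R') := by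
  have hN1 : 0 < N := by
    rw [← hN]; positivity
  have e1 : (M4' - M4) / N ≤ ρ * R' := by
    rw [div_le_iff₀ hN1]
    have : R' ^ 2 ≤ (ρ * N) * R' := by
      rw [sq]
      exact mul_le_mul_of_nonneg_right hR' hR0'
    linarith only [h4, h4', this]
  have e2 : -(3 * k * κ * R') ≤ 5 * R' := by
    have h1 : -k * κ ≤ 3 / 2 := by
      have : -k * κ ≤ 1 * κ := mul_le_mul_of_nonneg_right (by linarith only [hk]) hκ0
      linarith only [hκ, this]
    have h2 : (-k * κ) * R' ≤ 3 / 2 * R' := mul_le_mul_of_nonneg_right h1 hR0'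
    linarith only [hR0', h2]
  linarith only [h3, h3', e1, e2]

theorem far {B S R R' N ρ M3 M3' M4 M4' k κ T : ℝ} (hB : 0 ≤ B) (hS : 1 ≤ S)
    (hN : S ^ 2 = N) (hρ : B ^ 2 = ρ) (hR0 : 0 ≤ R) (hR0' : 0 ≤ R') (hR : R ≤ ρ * N)
    (hR' : R' ≤ ρ * N) (h3 : M3 ≤ R * √R)
    (h3' : -(R' * √R') ≤ M3') (h4 : 0 ≤ M4) (h4' : M4' ≤ R' ^ 2) (hκ0 : 0 ≤ κ)
    (hκ : κ ≤ 3 / 2) (hk : -1 ≤ k) (hT : R + R' ≤ 4 * T) :
    M3 + (M4' - M4) / N ≤ M3' + 3 * k * κ * R' + 4 * (B + ρ + 5) * S * T := by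
  have h := crude hS hN hR0' hR' h3 h3' h4 h4' hκ0 hκ hk
  have e1 : √R ≤ B * S := by
    rw [Real.sqrt_le_left (by positivity)]
    calc R ≤ ρ * N := hR
      _ = (B * S) ^ 2 := by rw [← hρ, ← hN]; ring
  have e1' : √R' ≤ B * S := by
    rw [Real.sqrt_le_left (by positivity)]
    calc R' ≤ ρ * N := hR'
      _ = (B * S) ^ 2 := by rw [← hρ, ← hN]; ring
  have e2 : R * √R ≤ R * (B * S) := mul_le_mul_of_nonneg_left e1 hR0
  have e2' : R' * √R' ≤ R' * (B * S) := mul_le_mul_of_nonneg_left e1' hR0'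
  have hρ0 : 0 ≤ ρ := by rw [← hρ]; positivity
  have e3 : (ρ + 5) * R' ≤ (ρ + 5) * S * (R + R') := by
    have : (ρ + 5) * R' * 1 ≤ (ρ + 5) * R' * S := mul_le_mul_of_nonneg_left hS (by positivity)
    have h5 : 0 ≤ (ρ + 5) * S * R := by positivity
    linarith only [this, h5]
  have e4 : (B + ρ + 5) * S * (R + R') ≤ (B + ρ + 5) * S * (4 * T) :=
    mul_le_mul_of_nonneg_left hT (by positivity)
  linarith only [h, e2, e2', e3, e4]

/-- fourth moments -/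
theorem m4 {r x x' p ps s' M4 M4' : ℝ} (hr : 3 ≤ r) (hx' : 1 ≤ x') (hp : 0 ≤ p) (hps : 0 ≤ ps)
    (hD : -1 ≤ x' - ps) (hs' : 0 ≤ s')
    (h4 : (x - p) ^ 4 * (1 + 1 / (r - 1) ^ 3) ≤ M4)
    (h4' : M4' ≤ (x' - ps) ^ 4 * (1 + 1 / (r - 1) ^ 3) + 6 * (x' - ps) ^ 2 * s' ^ 2 / (r - 1) ^ 2
      + 4 * |x' - ps| * s' ^ 3 / (r - 1) + s' ^ 4) :
    M4' - M4 ≤ 5 * (x' ^ 3 * (|x - x'| + p + ps)) + 2 * (x' ^ 2 * s' ^ 2) + 2 * (x' * s' ^ 3)
      + s' ^ 4 := by
  set Ds := x' - ps with hDs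
  set D := x - p with hD'
  have hr1 : 0 < r - 1 := by linarith only [hr]
  have hab : |Ds| ≤ x' := by
    rw [abs_le]
    constructor <;> linarith only [hx', hD, hps]
  have hW : |Ds - D| ≤ |x - x'| + p + ps := by
    have e : Ds - D = (x' - x) + (p - ps) := by rw [hDs, hD']; ring
    rw [e]
    have h1 := abs_add_le (x' - x) (p - ps)
    have h2 : |p - ps| ≤ p + ps := by
      rw [abs_le]; constructor <;> linarith only [hp, hps]
    rw [abs_sub_comm x' x] at h1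
    linarith only [h1, h2]
  have hW0 : 0 ≤ |x - x'| + p + ps := by positivity
  have h1 : Ds ^ 4 - D ^ 4 ≤ 4 * (x' ^ 3 * (|x - x'| + p + ps)) := by
    have e1 : Ds ^ 4 - D ^ 4 ≤ 4 * (Ds ^ 3 * (Ds - D)) := by
      have : 0 ≤ (Ds - D) ^ 2 * ((Ds + D) ^ 2 + 2 * Ds ^ 2) := by positivity
      nlinarith [this]
    have e2 : Ds ^ 3 * (Ds - D) ≤ x' ^ 3 * (|x - x'| + p + ps) := by
      calc Ds ^ 3 * (Ds - D) ≤ |Ds ^ 3 * (Ds - D)| := le_abs_self _
        _ = |Ds| ^ 3 * |Ds - D| := by rw [abs_mul, abs_pow]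
        _ ≤ x' ^ 3 * (|x - x'| + p + ps) :=
          mul_le_mul (pow_le_pow_left₀ (abs_nonneg _) hab 3) hW (abs_nonneg _) (by positivity)
    linarith only [e1, e2]
  have hc0 : 0 ≤ 1 + 1 / (r - 1) ^ 3 := by positivity
  have hc1 : 1 + 1 / (r - 1) ^ 3 ≤ 5 / 4 := by
    have h2 : (2 : ℝ) ≤ r - 1 := by linarith only [hr]
    have h3 : (2 : ℝ) ^ 3 ≤ (r - 1) ^ 3 := pow_le_pow_left₀ (by norm_num) h2 3
    have h5 : 1 / (r - 1) ^ 3 ≤ 1 / 8 := by
      apply one_div_le_one_div_of_le (by norm_num)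
      linarith only [h3]
    linarith only [h5]
  have h2 : (Ds ^ 4 - D ^ 4) * (1 + 1 / (r - 1) ^ 3) ≤ 5 * (x' ^ 3 * (|x - x'| + p + ps)) := by
    have e1 := mul_le_mul_of_nonneg_right h1 hc0
    have e2 : 4 * (x' ^ 3 * (|x - x'| + p + ps)) * (1 + 1 / (r - 1) ^ 3)
        ≤ 4 * (x' ^ 3 * (|x - x'| + p + ps)) * (5 / 4) :=
      mul_le_mul_of_nonneg_left hc1 (by positivity)
    linarith only [e1, e2]
  have h3 : 6 * Ds ^ 2 * s' ^ 2 / (r - 1) ^ 2 ≤ 2 * (x' ^ 2 * s' ^ 2) := by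
    rw [div_le_iff₀ (by positivity)]
    have e1 : Ds ^ 2 ≤ x' ^ 2 := by
      rw [← sq_abs Ds]
      exact pow_le_pow_left₀ (abs_nonneg _) hab 2
    have e2 : Ds ^ 2 * s' ^ 2 ≤ x' ^ 2 * s' ^ 2 := mul_le_mul_of_nonneg_right e1 (sq_nonneg _)
    have e3 : (4 : ℝ) ≤ (r - 1) ^ 2 := by nlinarith
    have e4 : 2 * (x' ^ 2 * s' ^ 2) * 4 ≤ 2 * (x' ^ 2 * s' ^ 2) * (r - 1) ^ 2 :=
      mul_le_mul_of_nonneg_left e3 (by positivity)
    have e5 : 0 ≤ x' ^ 2 * s' ^ 2 := by positivity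
    linarith only [e2, e4, e5]
  have h5 : 4 * |Ds| * s' ^ 3 / (r - 1) ≤ 2 * (x' * s' ^ 3) := by
    rw [div_le_iff₀ hr1]
    have e2 : |Ds| * s' ^ 3 ≤ x' * s' ^ 3 := mul_le_mul_of_nonneg_right hab (by positivity)
    have e4 : 2 * (x' * s' ^ 3) * 2 ≤ 2 * (x' * s' ^ 3) * (r - 1) :=
      mul_le_mul_of_nonneg_left (by linarith only [hr]) (by positivity)
    linarith only [e2, e4]
  have h6 : (Ds ^ 4 - D ^ 4) * (1 + 1 / (r - 1) ^ 3)
      = Ds ^ 4 * (1 + 1 / (r - 1) ^ 3) - D ^ 4 * (1 + 1 / (r - 1) ^ 3) := by ring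
  linarith only [h4', h4, h2, h3, h5]

/-- the main case: the largest entry is almost as large as possible -/
theorem near {r x x' p ps k q B S f T ε ρ N K M3 M3' M4 M4' s s' : ℝ} (hr : 3 ≤ r)
    (hx : 0 ≤ x) (hx' : 1 ≤ x') (hp : 0 ≤ p) (hps : 0 ≤ ps) (hpx : p ≤ f ^ 2 / 3 * x)
    (hf0 : 0 < f) (hf1 : f ≤ 1 / 8) (hxB : x ≤ B * S) (hxB' : x' ≤ B * S)
    (hxx : x ^ 2 ≤ 3 * x' ^ 2) (hN : S ^ 2 = N) (hρ : B ^ 2 = ρ) (hBf : B ≤ f * S)
    (hS : 1 ≤ S) (hB : 0 ≤ B) (hT : |x ^ 2 - x' ^ 2| ≤ T) (hq0 : 0 ≤ q)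
    (hq1 : p ≤ q + (r + 1) + |x - x'|)
    (hq2 : x' ^ 2 * q - |x ^ 2 - x' ^ 2| * p - x' ^ 2 * |x - x'| - (r - 1) * x'
      ≤ x ^ 2 * p + x' ^ 2 * (k - ps))
    (hpsr : ps ≤ r) (hD : -1 ≤ x' - ps) (hs : 0 ≤ s)
    (hs2 : s ^ 2 = r / (r - 1) * x ^ 2 - (x - p) ^ 2 * (r / (r - 1)))
    (hs' : 0 ≤ s') (hs2' : s' ^ 2 ≤ K * S) (hs3' : s' ^ 3 ≤ ε * N)
    (h3 : M3 ≤ (x - p) ^ 3 * (r * (r + 1) / (r - 1) ^ 2)
      - 3 * (x - p) * (r / (r - 1) * x ^ 2) / (r - 1) + s ^ 3)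
    (h3' : (x' - ps) ^ 3 * (r * (r + 1) / (r - 1) ^ 2)
      - 3 * (x' - ps) * (r / (r - 1) * x' ^ 2) / (r - 1) - s' ^ 3 ≤ M3')
    (h4 : (x - p) ^ 4 * (1 + 1 / (r - 1) ^ 3) ≤ M4)
    (h4' : M4' ≤ (x' - ps) ^ 4 * (1 + 1 / (r - 1) ^ 3) + 6 * (x' - ps) ^ 2 * s' ^ 2 / (r - 1) ^ 2
      + 4 * |x' - ps| * s' ^ 3 / (r - 1) + s' ^ 4) :
    M3 + (M4' - M4) / N ≤ M3' + 3 * k * (r / (r - 1)) * (r / (r - 1) * x' ^ 2)
      + (25 * B + 10 * B ^ 2) * S * T
      + (7 * (r - 1) * B + 5 * B ^ 3 * r + 2 * B ^ 2 * K + 2 * B * ε) * S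
      + (3 * r ^ 3 + K ^ 2) + ε * N + 12 * f * ρ * (r + 1) * N := by
  have hN1 : 0 < N := by rw [← hN]; positivity
  have hT0 : 0 ≤ T := (abs_nonneg _).trans hT
  have hBS : 0 ≤ B * S := by positivity
  have hBST : 0 ≤ B * S * T := by positivity
  have hx0' : 0 ≤ x' := by linarith only [hx']
  have hf2 : f ^ 2 / 3 ≤ 1 := by
    have h := pow_le_pow_left₀ hf0.le hf1 2
    norm_num at h
    linarith only [h]
  have hpx' : p ≤ x := by
    have := mul_le_mul_of_nonneg_right hf2 hx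
    linarith only [hpx, this]
  obtain ⟨c1, c2, c3⟩ := cmp hx hx0' hT hxB hxB'
  obtain ⟨k1, k2⟩ := kap hr
  obtain ⟨a1, a2⟩ := aa hr
  obtain ⟨g1, g2⟩ := cc hr
  rw [gid hr] at h3 h3'
  set κ := r / (r - 1) with hκ
  set a := r * (r + 1) / (r - 1) ^ 2 with ha
  set c := r * (r - 2) / (r - 1) ^ 2 with hc
  -- the term `t1`
  have t1 : c * x ^ 3 - c * x' ^ 3 ≤ 2 * (B * S * T) := by
    have e1 : c * (x ^ 3 - x' ^ 3) ≤ c * (2 * B * S * T) := mul_le_mul_of_nonneg_left c1 g1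
    have e2 : c * (2 * B * S * T) ≤ 1 * (2 * B * S * T) :=
      mul_le_mul_of_nonneg_right g2 (by linarith only [hBST])
    linarith only [e1, e2]
  -- the term `t2`
  have kk1 : 1 ≤ κ ^ 2 := one_le_pow₀ k1
  have kk2 : κ ^ 2 ≤ 7 / 3 :=
    (pow_le_pow_left₀ (by linarith only [k1]) k2 2).trans (by norm_num)
  have y1 : |x ^ 2 - x' ^ 2| * p ≤ B * S * T := by
    have : |x ^ 2 - x' ^ 2| * p ≤ T * (B * S) := mul_le_mul hT (hpx'.trans hxB) hp hT0
    linarith only [this]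
  have y2 : (r - 1) * x' ≤ (r - 1) * B * S := by
    have : (r - 1) * x' ≤ (r - 1) * (B * S) := mul_le_mul_of_nonneg_left hxB' (by linarith only [hr])
    linarith only [this]
  have t2 : -(3 * κ ^ 2 * (x ^ 2 * p + x' ^ 2 * (k - ps)))
      ≤ -(3 * (x' ^ 2 * q)) + 21 * (B * S * T) + 7 * ((r - 1) * B * S) := by
    have z0 : 0 ≤ |x ^ 2 - x' ^ 2| * p + x' ^ 2 * |x - x'| + (r - 1) * x' := by
      have e1 : 0 ≤ |x ^ 2 - x' ^ 2| * p := mul_nonneg (abs_nonneg _) hp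
      have e2 : 0 ≤ x' ^ 2 * |x - x'| := mul_nonneg (sq_nonneg _) (abs_nonneg _)
      have e3 : 0 ≤ (r - 1) * x' := mul_nonneg (by linarith only [hr]) hx0'
      linarith only [e1, e2, e3]
    have z1 : 3 * κ ^ 2 * (x' ^ 2 * q - (|x ^ 2 - x' ^ 2| * p + x' ^ 2 * |x - x'| + (r - 1) * x'))
        ≤ 3 * κ ^ 2 * (x ^ 2 * p + x' ^ 2 * (k - ps)) :=
      mul_le_mul_of_nonneg_left (by linarith only [hq2]) (by positivity)
    have z2 : κ ^ 2 * (|x ^ 2 - x' ^ 2| * p + x' ^ 2 * |x - x'| + (r - 1) * x')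
        ≤ 7 / 3 * (|x ^ 2 - x' ^ 2| * p + x' ^ 2 * |x - x'| + (r - 1) * x') :=
      mul_le_mul_of_nonneg_right kk2 z0
    have z3 : 1 * (x' ^ 2 * q) ≤ κ ^ 2 * (x' ^ 2 * q) :=
      mul_le_mul_of_nonneg_right kk1 (by positivity)
    linarith only [c3, y1, y2, z1, z2, z3]
  -- the term `t3`
  have hxp : x * p ^ 2 ≤ f / 3 * (x ^ 2 * p) := by
    have e1 : x * p * p ≤ x * p * (f ^ 2 / 3 * x) := mul_le_mul_of_nonneg_left hpx (by positivity)
    have e2 : f * (f / 3 * (x ^ 2 * p)) ≤ 1 * (f / 3 * (x ^ 2 * p)) :=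
      mul_le_mul_of_nonneg_right (by linarith only [hf1]) (by positivity)
    linarith only [e1, e2]
  have t3 : 3 * a * (x * p ^ 2) ≤ 3 * f * (x ^ 2 * p) := by
    have e1 : a * (x * p ^ 2) ≤ 3 * (x * p ^ 2) := mul_le_mul_of_nonneg_right a2 (by positivity)
    linarith only [hxp, e1]
  have t4 : 0 ≤ a * p ^ 3 := by positivity
  have t4' : 0 ≤ 3 * a * (x' * ps ^ 2) := by positivity
  have t5 : a * ps ^ 3 ≤ 3 * r ^ 3 :=
    mul_le_mul a2 (pow_le_pow_left₀ hps hpsr 3) (by positivity) (by norm_num)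
  -- the term `t6`
  have s1 : s ^ 2 ≤ 3 * (x * p) := by
    rw [hs2]
    have e : κ * x ^ 2 - (x - p) ^ 2 * κ = κ * (2 * (x * p)) - κ * p ^ 2 := by ring
    rw [e]
    have e1 : κ * (2 * (x * p)) ≤ 3 / 2 * (2 * (x * p)) :=
      mul_le_mul_of_nonneg_right k2 (by positivity)
    have e2 : 0 ≤ κ * p ^ 2 := by positivity
    linarith only [e1, e2]
  have s2 : s ≤ f * x := by
    have e1 : s ^ 2 ≤ (f * x) ^ 2 := by
      have e2 : x * p ≤ x * (f ^ 2 / 3 * x) := mul_le_mul_of_nonneg_left hpx hx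
      have e3 : (f * x) ^ 2 = 3 * (x * (f ^ 2 / 3 * x)) := by ring
      rw [e3]
      linarith only [s1, e2]
    exact le_of_sq_le_sq e1 (by positivity)
  have t6 : s ^ 3 ≤ 3 * f * (x ^ 2 * p) := by
    have e1 : s ^ 2 * s ≤ 3 * (x * p) * (f * x) := mul_le_mul s1 s2 hs (by positivity)
    linarith only [e1]
  -- the term `t8`
  have z := m4 hr hx' hp hps hD hs' h4 h4'
  have hBS' : x' ^ 2 ≤ (B * S) ^ 2 := pow_le_pow_left₀ hx0' hxB' 2
  have u1 : x' ^ 3 * |x - x'| ≤ (2 * B ^ 2 * S * T) * N := by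
    have e1 : x' * (x' ^ 2 * |x - x'|) ≤ (B * S) * (2 * B * S * T) :=
      mul_le_mul hxB' c3 (by positivity) hBS
    have e2 : (B * S) * (2 * B * S * T) = (2 * B ^ 2 * T * N) * 1 := by rw [← hN]; ring
    have e3 : (2 * B ^ 2 * T * N) * 1 ≤ (2 * B ^ 2 * T * N) * S :=
      mul_le_mul_of_nonneg_left hS (by positivity)
    linarith only [e1, e2, e3]
  have u2 : x' ^ 3 * p ≤ (f * (x' ^ 2 * p)) * N := by
    have e1 : x' * (x' ^ 2 * p) ≤ (B * S) * (x' ^ 2 * p) :=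
      mul_le_mul_of_nonneg_right hxB' (by positivity)
    have e2 : B * (S * (x' ^ 2 * p)) ≤ (f * S) * (S * (x' ^ 2 * p)) :=
      mul_le_mul_of_nonneg_right hBf (by positivity)
    have e3 : (f * S) * (S * (x' ^ 2 * p)) = (f * (x' ^ 2 * p)) * N := by rw [← hN]; ring
    linarith only [e1, e2, e3]
  have u3 : x' ^ 3 * ps ≤ (B ^ 3 * r * S) * N := by
    have e1 : x' ^ 3 * ps ≤ (B * S) ^ 3 * r :=
      mul_le_mul (pow_le_pow_left₀ hx0' hxB' 3) hpsr hps (by positivity)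
    have e2 : (B * S) ^ 3 * r = (B ^ 3 * r * S) * N := by rw [← hN]; ring
    linarith only [e1, e2]
  have u4 : x' ^ 2 * s' ^ 2 ≤ (B ^ 2 * K * S) * N := by
    have e1 : x' ^ 2 * s' ^ 2 ≤ (B * S) ^ 2 * (K * S) :=
      mul_le_mul hBS' hs2' (by positivity) (by positivity)
    have e2 : (B * S) ^ 2 * (K * S) = (B ^ 2 * K * S) * N := by rw [← hN]; ring
    linarith only [e1, e2]
  have u5 : x' * s' ^ 3 ≤ (B * ε * S) * N := by
    have e1 : x' * s' ^ 3 ≤ (B * S) * (ε * N) := mul_le_mul hxB' hs3' (by positivity) hBS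
    linarith only [e1]
  have u6 : s' ^ 4 ≤ K ^ 2 * N := by
    have e1 : (s' ^ 2) ^ 2 ≤ (K * S) ^ 2 := pow_le_pow_left₀ (sq_nonneg _) hs2' 2
    have e2 : (K * S) ^ 2 = K ^ 2 * N := by rw [← hN]; ring
    have e3 : (s' ^ 2) ^ 2 = s' ^ 4 := by ring
    linarith only [e1, e2]
  have t8 : (M4' - M4) / N ≤ 10 * B ^ 2 * S * T + 5 * f * (x' ^ 2 * p)
      + (5 * B ^ 3 * r + 2 * B ^ 2 * K + 2 * B * ε) * S + K ^ 2 := by
    rw [div_le_iff₀ hN1]
    have e : 5 * (x' ^ 3 * (|x - x'| + p + ps)) = 5 * (x' ^ 3 * |x - x'|) + 5 * (x' ^ 3 * p)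
      + 5 * (x' ^ 3 * ps) := by ring
    rw [e] at z
    linarith only [z, u1, u2, u3, u4, u5, u6]
  -- the terms with `p`
  have v1 : (x ^ 2 + x' ^ 2) * p ≤ 4 * (x' ^ 2 * q) + 2 * ρ * N * (r + 1) + 2 * (B * S * T) := by
    have e1 : (x ^ 2 + x' ^ 2) * p ≤ (x ^ 2 + x' ^ 2) * (q + (r + 1) + |x - x'|) :=
      mul_le_mul_of_nonneg_left hq1 (by positivity)
    have e2 : (x ^ 2 + x' ^ 2) * q ≤ (4 * x' ^ 2) * q :=
      mul_le_mul_of_nonneg_right (by linarith only [hxx]) hq0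
    have e3 : x ^ 2 + x' ^ 2 ≤ 2 * ρ * N := by
      have : x ^ 2 ≤ (B * S) ^ 2 := pow_le_pow_left₀ hx hxB 2
      have e4 : (B * S) ^ 2 = ρ * N := by rw [← hρ, ← hN]; ring
      linarith only [hBS', this, e4]
    have e5 : (x ^ 2 + x' ^ 2) * (r + 1) ≤ (2 * ρ * N) * (r + 1) :=
      mul_le_mul_of_nonneg_right e3 (by linarith only [hr])
    have e6 : (x ^ 2 + x' ^ 2) * (q + (r + 1) + |x - x'|) = (x ^ 2 + x' ^ 2) * q
      + (x ^ 2 + x' ^ 2) * (r + 1) + (x ^ 2 + x' ^ 2) * |x - x'| := by ring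
    rw [e6] at e1
    linarith only [e1, e2, e3, e5, c2]
  have v2 : 6 * f * (x ^ 2 * p) + 5 * f * (x' ^ 2 * p) ≤ 3 * (x' ^ 2 * q)
      + 12 * f * ρ * (r + 1) * N + 2 * (B * S * T) := by
    have e1 : 6 * f * ((x ^ 2 + x' ^ 2) * p)
        ≤ 6 * f * (4 * (x' ^ 2 * q) + 2 * ρ * N * (r + 1) + 2 * (B * S * T)) :=
      mul_le_mul_of_nonneg_left v1 (by positivity)
    have e2 : f * (x' ^ 2 * q) ≤ 1 / 8 * (x' ^ 2 * q) :=
      mul_le_mul_of_nonneg_right hf1 (by positivity)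
    have e3 : f * (B * S * T) ≤ 1 / 8 * (B * S * T) := mul_le_mul_of_nonneg_right hf1 hBST
    have e4 : 0 ≤ f * (x' ^ 2 * p) := by positivity
    linarith only [e1, e2, e3, e4, hBST]
  linarith only [h3, h3', t1, t2, t3, t4, t4', t5, t6, t8, v2, hs3']

/-- the case in which the largest entry is not near the maximum -/
theorem mid {r x x' ps k B S e T ε ρ N M3 M3' M4 M4' s' : ℝ} (hr : 3 ≤ r)
    (hx : 0 < x) (hx' : 1 ≤ x') (hps : 0 ≤ ps)
    (he0 : 0 < e) (he1 : e < 1) (hxB : x ≤ B * S) (hxB' : x' ≤ B * S)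
    (hxx : x' ^ 2 ≤ 2 * x ^ 2) (hN : S ^ 2 = N)
    (hS : 1 ≤ S) (hB : 0 ≤ B) (hρ0 : 0 ≤ ρ) (hT : |x ^ 2 - x' ^ 2| ≤ T)
    (hpsr : ps ≤ r) (hk : -1 ≤ k) (hR' : r / (r - 1) * x' ^ 2 ≤ ρ * N)
    (hs3' : s' ^ 3 ≤ ε * N)
    (h3 : M3 ≤ ((1 - e) * x) * (r / (r - 1) * x ^ 2)
      - (r / (r - 1) * x ^ 2) ^ 2 / (r * ((1 - e) * x)))
    (h3' : (x' - ps) ^ 3 * (r * (r + 1) / (r - 1) ^ 2)
      - 3 * (x' - ps) * (r / (r - 1) * x' ^ 2) / (r - 1) - s' ^ 3 ≤ M3')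
    (h4 : 0 ≤ M4) (h4' : M4' ≤ (r / (r - 1) * x' ^ 2) ^ 2) :
    M3 + (M4' - M4) / N ≤ M3' + 3 * k * (r / (r - 1)) * (r / (r - 1) * x' ^ 2)
      + 2 * B * S * T + (3 * r ^ 3 + (2 * (7 * r + 7 + 2 * ρ)) ^ 3 / e ^ 2) + ε * N := by
  have hN1 : 0 < N := by rw [← hN]; positivity
  have hT0 : 0 ≤ T := (abs_nonneg _).trans hT
  have hx0' : 0 ≤ x' := by linarith only [hx']
  have hr1 : 0 < r - 1 := by linarith only [hr]
  obtain ⟨c1, c2, c3⟩ := cmp hx.le hx0' hT hxB hxB'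
  obtain ⟨k1, k2⟩ := kap hr
  obtain ⟨a1, a2⟩ := aa hr
  obtain ⟨g1, g2⟩ := cc hr
  have hM3 : M3 ≤ r * (r - 2) / (r - 1) ^ 2 * x ^ 3 - e * x ^ 3 := by
    have e1 : r / (r - 1) * x ^ 3 / (r - 1)
        ≤ (r / (r - 1) * x ^ 2) ^ 2 / (r * ((1 - e) * x)) := by
      rw [div_le_div_iff₀ hr1 (by have : 0 < 1 - e := by linarith only [he1]
                                  positivity)]
      have e2 : (r / (r - 1) * x ^ 2) ^ 2 * (r - 1) = (r / (r - 1) * x ^ 3) * (r * x) := by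
        field_simp
      rw [e2]
      apply mul_le_mul_of_nonneg_left _ (by positivity)
      apply mul_le_mul_of_nonneg_left _ (by positivity)
      have e5 : 0 ≤ e * x := by positivity
      linarith only [e5]
    have e3 : (1 - e) * x * (r / (r - 1) * x ^ 2) - r / (r - 1) * x ^ 3 / (r - 1)
        = r * (r - 2) / (r - 1) ^ 2 * x ^ 3 - r / (r - 1) * (e * x ^ 3) := by
      field_simp
      ring
    have e4 : 1 * (e * x ^ 3) ≤ r / (r - 1) * (e * x ^ 3) :=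
      mul_le_mul_of_nonneg_right k1 (by positivity)
    linarith only [h3, e1, e3, e4]
  rw [gid hr] at h3'
  set κ := r / (r - 1) with hκ
  set a := r * (r + 1) / (r - 1) ^ 2 with ha
  set c := r * (r - 2) / (r - 1) ^ 2 with hc
  have hBST : 0 ≤ B * S * T := by positivity
  have t1 : c * x ^ 3 - c * x' ^ 3 ≤ 2 * (B * S * T) := by
    have e1 : c * (x ^ 3 - x' ^ 3) ≤ c * (2 * B * S * T) := mul_le_mul_of_nonneg_left c1 g1
    have e2 : c * (2 * B * S * T) ≤ 1 * (2 * B * S * T) :=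
      mul_le_mul_of_nonneg_right g2 (by linarith only [hBST])
    linarith only [e1, e2]
  have kk1 : 1 ≤ κ ^ 2 := one_le_pow₀ k1
  have kk2 : κ ^ 2 ≤ 7 / 3 :=
    (pow_le_pow_left₀ (by linarith only [k1]) k2 2).trans (by norm_num)
  have t2 : 3 * κ ^ 2 * (x' ^ 2 * ps) ≤ 7 * (x' ^ 2 * r) := by
    have e1 : κ ^ 2 * (x' ^ 2 * ps) ≤ 7 / 3 * (x' ^ 2 * r) :=
      mul_le_mul kk2 (mul_le_mul_of_nonneg_left hpsr (sq_nonneg _)) (by positivity) (by norm_num)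
    linarith only [e1]
  have t4' : 0 ≤ 3 * a * (x' * ps ^ 2) := by positivity
  have t5 : a * ps ^ 3 ≤ 3 * r ^ 3 :=
    mul_le_mul a2 (pow_le_pow_left₀ hps hpsr 3) (by positivity) (by norm_num)
  have t8 : (M4' - M4) / N ≤ 2 * ρ * x' ^ 2 := by
    rw [div_le_iff₀ hN1]
    have e1 : (κ * x' ^ 2) ^ 2 ≤ (ρ * N) * (κ * x' ^ 2) := by
      rw [sq (κ * x' ^ 2)]
      exact mul_le_mul_of_nonneg_right hR' (by positivity)
    have e2 : κ * ((ρ * N) * x' ^ 2) ≤ 3 / 2 * ((ρ * N) * x' ^ 2) :=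
      mul_le_mul_of_nonneg_right k2 (by positivity)
    have e3 : 0 ≤ ρ * N * x' ^ 2 := by positivity
    linarith only [h4, h4', e1, e2, e3]
  have t9 : -(3 * k * κ * (κ * x' ^ 2)) ≤ 7 * x' ^ 2 := by
    have e1 : -k * (κ ^ 2 * x' ^ 2) ≤ 1 * (κ ^ 2 * x' ^ 2) :=
      mul_le_mul_of_nonneg_right (by linarith only [hk]) (by positivity)
    have e2 : κ ^ 2 * x' ^ 2 ≤ 7 / 3 * x' ^ 2 := mul_le_mul_of_nonneg_right kk2 (sq_nonneg _)
    linarith only [e1, e2]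
  set K1 := 2 * (7 * r + 7 + 2 * ρ) with hK1
  have hK0 : 0 < K1 := by rw [hK1]; positivity
  have w1 : K1 * x ^ 2 - e * x ^ 3 ≤ K1 ^ 3 / e ^ 2 := by
    rcases le_total (K1 / e) x with h | h
    · rw [div_le_iff₀ he0] at h
      have e1 : K1 * x ^ 2 ≤ (x * e) * x ^ 2 := mul_le_mul_of_nonneg_right h (sq_nonneg _)
      have e2 : 0 ≤ K1 ^ 3 / e ^ 2 := by positivity
      linarith only [e1, e2]
    · have e1 : x ^ 2 ≤ (K1 / e) ^ 2 := pow_le_pow_left₀ hx.le h 2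
      have e2 : K1 * x ^ 2 ≤ K1 * (K1 / e) ^ 2 := mul_le_mul_of_nonneg_left e1 hK0.le
      have e3 : K1 * (K1 / e) ^ 2 = K1 ^ 3 / e ^ 2 := by
        field_simp
      have e4 : 0 ≤ e * x ^ 3 := by positivity
      linarith only [e2, e3, e4]
  have w2 : (7 * r + 7 + 2 * ρ) * x' ^ 2 ≤ K1 * x ^ 2 := by
    have e1 : (7 * r + 7 + 2 * ρ) * x' ^ 2 ≤ (7 * r + 7 + 2 * ρ) * (2 * x ^ 2) :=
      mul_le_mul_of_nonneg_left hxx (by positivity)
    rw [hK1]
    linarith only [e1]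
  linarith only [hM3, h3', t1, t2, t4', t5, t8, t9, w1, w2, hs3']

end CUB

open CUB in
theorem blk_CUB (hCU1 : Stmt_CU1) : Stmt_CUB := by
  intro r ρ η hr hρ hη
  have hr3 : (3 : ℝ) ≤ r := by exact_mod_cast hr
  obtain ⟨B, hB0, hBρ⟩ : ∃ B : ℝ, 0 < B ∧ B ^ 2 = ρ := ⟨√ρ, Real.sqrt_pos.2 hρ, Real.sq_sqrt hρ.le⟩
  obtain ⟨f, hf0, hf1, hf2⟩ : ∃ f : ℝ, 0 < f ∧ f ≤ 1 / 8 ∧ 12 * f * ρ * (r + 1) ≤ η / 4 := by
    refine ⟨min (1 / 8) (η / (48 * ρ * (r + 1))), by positivity, min_le_left _ _, ?_⟩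
    have h := min_le_right (1 / 8) (η / (48 * ρ * ((r : ℝ) + 1)))
    rw [le_div_iff₀ (by positivity)] at h
    linarith only [h]
  obtain ⟨e, he0, he1, hef⟩ : ∃ e : ℝ, 0 < e ∧ e < 1 ∧ e = f ^ 2 / 3 := by
    refine ⟨f ^ 2 / 3, by positivity, ?_, rfl⟩
    have h := pow_le_pow_left₀ hf0.le hf1 2
    norm_num at h
    linarith only [h]
  obtain ⟨ε, hε0, hεη⟩ : ∃ ε : ℝ, 0 < ε ∧ ε = η / 8 := ⟨η / 8, by positivity, rfl⟩
  obtain ⟨K, hK0, hK⟩ : ∃ K : ℝ, 0 < K ∧ K = (r + 5) * B := ⟨(r + 5) * B, by positivity, rfl⟩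
  obtain ⟨CS, hCS0, hCS⟩ : ∃ CS : ℝ, 0 ≤ CS ∧
      CS = 7 * (r - 1) * B + 5 * B ^ 3 * r + 2 * B ^ 2 * K + 2 * B * ε := by
    refine ⟨_, ?_, rfl⟩
    have : (0 : ℝ) ≤ r - 1 := by linarith only [hr3]
    positivity
  obtain ⟨C0, hC00, hC0⟩ : ∃ C0 : ℝ, 0 ≤ C0 ∧ C0 = 3 * (r : ℝ) ^ 3 + K ^ 2 :=
    ⟨_, by positivity, rfl⟩
  obtain ⟨CM, hCM0, hCM⟩ : ∃ CM : ℝ, 0 ≤ CM ∧
      CM = 3 * (r : ℝ) ^ 3 + (2 * (7 * r + 7 + 2 * ρ)) ^ 3 / e ^ 2 :=
    ⟨_, by positivity, rfl⟩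
  obtain ⟨L, hL0, hL⟩ : ∃ L : ℝ, 0 ≤ L ∧ L = 1 + B / f + K ^ 3 / ε ^ 2 + 4 * (CS + C0) / η
      + 4 * CM / η + (20 + 2 * ρ) / η := ⟨_, by positivity, rfl⟩
  refine ⟨4 * (B + ρ + 5) + (25 * B + 10 * B ^ 2), ⌈L ^ 2⌉₊, by positivity, ?_⟩
  intro n hn d d' R R' k i1 hd hd' hR hR' hRn hRn' hk0 hk1 hk hD1 hRD
  have hLS : L ≤ √(n : ℝ) := by
    rw [Real.le_sqrt hL0 (Nat.cast_nonneg n)]
    exact Nat.ceil_le.1 hn
  have hN : √(n : ℝ) ^ 2 = n := Real.sq_sqrt (Nat.cast_nonneg n)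
  set S := √(n : ℝ) with hSdef
  generalize (n : ℝ) = N at hN hRn hRn' ⊢
  have p1 : 0 ≤ B / f := by positivity
  have p2 : 0 ≤ K ^ 3 / ε ^ 2 := by positivity
  have p3 : 0 ≤ 4 * (CS + C0) / η := by positivity
  have p4 : 0 ≤ 4 * CM / η := by positivity
  have p5 : 0 ≤ (20 + 2 * ρ) / η := by positivity
  have hS1 : 1 ≤ S := by linarith only [hLS, hL, p1, p2, p3, p4, p5]
  have hS2 : B ≤ f * S := by
    have : B / f ≤ S := by linarith only [hLS, hL, p1, p2, p3, p4, p5]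
    rw [div_le_iff₀ hf0] at this
    linarith only [this]
  have hS3 : K ^ 3 / ε ^ 2 ≤ S := by linarith only [hLS, hL, p1, p2, p3, p4, p5]
  have hS4 : 4 * (CS + C0) ≤ S * η := by
    have : 4 * (CS + C0) / η ≤ S := by linarith only [hLS, hL, p1, p2, p3, p4, p5]
    rwa [div_le_iff₀ hη] at this
  have hS5 : 4 * CM ≤ S * η := by
    have : 4 * CM / η ≤ S := by linarith only [hLS, hL, p1, p2, p3, p4, p5]
    rwa [div_le_iff₀ hη] at this
  have hS6 : 20 + 2 * ρ ≤ S * η := by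
    have : (20 + 2 * ρ) / η ≤ S := by linarith only [hLS, hL, p1, p2, p3, p4, p5]
    rwa [div_le_iff₀ hη] at this
  have hS0 : 0 < S := by linarith only [hS1]
  have hSN : S * η ≤ η * N := by
    have h := mul_le_mul_of_nonneg_left hS1 (show (0 : ℝ) ≤ S * η by positivity)
    have e1 : S * η * S = η * N := by rw [← hN]; ring
    linarith only [h, e1]
  have hN0 : 0 < N := by rw [← hN]; positivity
  -- the moments
  obtain ⟨a1, a2, a3, a4, a5, a6⟩ := hCU1 r hr d R hd hR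
  obtain ⟨b1, b2, b3, b4, b5, b6⟩ := hCU1 r hr d' R' hd' hR'
  have hR0 : 0 ≤ R := by
    rw [← hR]
    exact Finset.sum_nonneg fun i _ => sq_nonneg _
  have hR0' : 0 ≤ R' := by
    rw [← hR']
    exact Finset.sum_nonneg fun i _ => sq_nonneg _
  have hM4 : 0 ≤ ∑ i, d i ^ 4 := Finset.sum_nonneg fun i _ => by positivity
  obtain ⟨k1, k2⟩ := kap hr3
  have hκ0 : 0 ≤ (r : ℝ) / (r - 1) := by linarith only [k1]
  obtain ⟨T, hTdef⟩ : ∃ T, T = |R - R'| := ⟨_, rfl⟩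
  rw [← hTdef]
  have hT0 : 0 ≤ T := by rw [hTdef]; exact abs_nonneg _
  have hST : 0 ≤ S * T := by positivity
  have hηN : 0 ≤ η * N := by positivity
  have h3m : -(R' * √R') ≤ ∑ i, d' i ^ 3 := by
    linarith only [b5, neg_abs_le (∑ i, d' i ^ 3)]
  by_cases h0 : R + R' ≤ 4 * T
  · have h := far hB0.le hS1 hN hBρ hR0 hR0' hRn hRn' ((le_abs_self _).trans a5)
      h3m hM4 b6 hκ0 k2 hk0 h0
    have e1 : 0 ≤ (25 * B + 10 * B ^ 2) * S * T := by positivity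
    linarith only [h, e1, hηN]
  push Not at h0
  have hRR : R - R' ≤ T ∧ R' - R ≤ T := by
    rw [hTdef]
    exact ⟨le_abs_self _, by rw [abs_sub_comm]; exact le_abs_self _⟩
  by_cases h1 : R' < r / (r - 1)
  · have h := crude hS1 hN hR0' hRn' ((le_abs_self _).trans a5)
      h3m hM4 b6 hκ0 k2 hk0
    have e1 : R' ≤ 2 := by linarith only [k2, h1]
    have e2 : R ≤ 4 := by linarith only [k2, h0, h1, hRR.1]
    have e3 : √R ≤ 2 := by
      rw [Real.sqrt_le_left (by norm_num)]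
      linarith only [e2]
    have e3' : √R' ≤ 2 := by
      rw [Real.sqrt_le_left (by norm_num)]
      linarith only [e1]
    have e4 : R * √R ≤ 3 * 2 := mul_le_mul (by linarith only [k2, h0, h1,
        hRR.1]) e3 (Real.sqrt_nonneg _)
      (by norm_num)
    have e4' : R' * √R' ≤ 2 * 2 := mul_le_mul e1 e3' (Real.sqrt_nonneg _) (by norm_num)
    have e5 : (ρ + 5) * R' ≤ (ρ + 5) * 2 := mul_le_mul_of_nonneg_left e1 (by positivity)
    have e6 : 0 ≤ (4 * (B + ρ + 5) + (25 * B + 10 * B ^ 2)) * S * T := by positivity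
    linarith only [h, e4, e4', e5, e6, hS6, hSN]
  push Not at h1
  have hκ1 : (0 : ℝ) < r / (r - 1) := by linarith only [k1]
  obtain ⟨x, hx0, hx⟩ : ∃ x : ℝ, 0 ≤ x ∧ r / (r - 1) * x ^ 2 = R :=
    ⟨√(R / (r / (r - 1))), Real.sqrt_nonneg _, by
      rw [Real.sq_sqrt (by positivity)]
      exact mul_div_cancel₀ _ hκ1.ne'⟩
  obtain ⟨x', hx0', hx'⟩ : ∃ x : ℝ, 0 ≤ x ∧ r / (r - 1) * x ^ 2 = R' :=
    ⟨√(R' / (r / (r - 1))), Real.sqrt_nonneg _, by
      rw [Real.sq_sqrt (by positivity)]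
      exact mul_div_cancel₀ _ hκ1.ne'⟩
  have hx1' : 1 ≤ x' := by
    have e1 : (r : ℝ) / (r - 1) * 1 ≤ r / (r - 1) * x' ^ 2 := by rw [hx']; linarith only [h1]
    have e2 : (1 : ℝ) ≤ x' ^ 2 := le_of_mul_le_mul_left e1 hκ1
    nlinarith only [e2, hx0']
  have hxR : x ^ 2 ≤ R := by
    rw [← hx]
    have := mul_le_mul_of_nonneg_right k1 (sq_nonneg x)
    linarith only [this]
  have hxR' : x' ^ 2 ≤ R' := by
    rw [← hx']
    have := mul_le_mul_of_nonneg_right k1 (sq_nonneg x')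
    linarith only [this]
  have hBSN : (B * S) ^ 2 = ρ * N := by rw [← hBρ, ← hN]; ring
  have hxB : x ≤ B * S := le_of_sq_le_sq (by linarith only [hRn, hxR, hBSN]) (by positivity)
  have hxB' : x' ≤ B * S := le_of_sq_le_sq (by linarith only [hRn', hxR', hBSN]) (by positivity)
  have hTx : |x ^ 2 - x' ^ 2| ≤ T := by
    have e1 : R - R' = r / (r - 1) * (x ^ 2 - x' ^ 2) := by rw [← hx, ← hx']; ring
    rw [hTdef, e1, abs_mul, abs_of_nonneg hκ0]
    have := mul_le_mul_of_nonneg_right k1 (abs_nonneg (x ^ 2 - x' ^ 2))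
    linarith only [this]
  have hxx : x ^ 2 ≤ 2 * x' ^ 2 := by
    have e1 : r / (r - 1) * x ^ 2 ≤ r / (r - 1) * (2 * x' ^ 2) := by
      have e2 : (r : ℝ) / (r - 1) * (2 * x' ^ 2) = 2 * R' := by rw [← hx']; ring
      rw [e2, hx]
      linarith only [h0, hRR, hRR.1]
    exact le_of_mul_le_mul_left e1 hκ1
  have hxx' : x' ^ 2 ≤ 2 * x ^ 2 := by
    have e1 : r / (r - 1) * x' ^ 2 ≤ r / (r - 1) * (2 * x ^ 2) := by
      have e2 : (r : ℝ) / (r - 1) * (2 * x ^ 2) = 2 * R := by rw [← hx]; ring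
      rw [e2, hx']
      linarith only [h0, hRR, hRR.2]
    exact le_of_mul_le_mul_left e1 hκ1
  have hx1 : 0 < x := by
    rcases lt_or_eq_of_le hx0 with h | h
    · exact h
    · rw [← h] at hxx'
      nlinarith only [hxx', hx1']
  -- the entry `d' i1`
  obtain ⟨ps, hps⟩ : ∃ ps, d' i1 = x' - ps := ⟨x' - d' i1, by ring⟩
  have hps0 : 0 ≤ ps := by
    have e1 : r / (r - 1) * (d' i1) ^ 2 ≤ r / (r - 1) * x' ^ 2 := by
      rw [hx']
      linarith only [b1 i1]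
    have e2 : (d' i1) ^ 2 ≤ x' ^ 2 := le_of_mul_le_mul_left e1 hκ1
    have e3 := (le_abs_self (d' i1)).trans (abs_le_of_sq_le_sq e2 hx0')
    linarith only [hps, e3]
  have hκr : (r : ℝ) / (r - 1) * (r - 1) = r := by
    have : (r : ℝ) - 1 ≠ 0 := by
      have : (0 : ℝ) < r - 1 := by linarith only [hr3]
      exact this.ne'
    field_simp
  have hxps : x' ^ 2 ≤ (x' - ps + 1) ^ 2 + (r - 1) := by
    have e1 : r / (r - 1) * x' ^ 2 ≤ r / (r - 1) * ((x' - ps + 1) ^ 2 + (r - 1)) := by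
      rw [hx', mul_add, hκr, ← hps]
      linarith only [hRD]
    exact le_of_mul_le_mul_left e1 hκ1
  have hDs : -1 ≤ x' - ps := by rw [← hps]; exact hD1
  -- the fourth root
  obtain ⟨s', hs0', hs2'⟩ : ∃ s' : ℝ, 0 ≤ s' ∧ s' ^ 2 = R' - d' i1 ^ 2 * (r / (r - 1)) :=
    ⟨√(R' - d' i1 ^ 2 * (r / (r - 1))), Real.sqrt_nonneg _,
      Real.sq_sqrt (by linarith only [b1 i1])⟩
  have hsK : s' ^ 2 ≤ K * S := by
    have e1 : s' ^ 2 ≤ r / (r - 1) * (2 * d' i1 + 1) + r := by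
      rw [hs2']
      have e2 : (d' i1 + 1) ^ 2 * ((r : ℝ) / (r - 1)) = d' i1 ^ 2 * (r / (r - 1))
        + r / (r - 1) * (2 * d' i1 + 1) := by ring
      linarith only [hRD]
    have e3 : (r : ℝ) / (r - 1) * (2 * d' i1 + 1) ≤ 3 / 2 * (2 * x' + 1) := by
      have e4 : (r : ℝ) / (r - 1) * (2 * d' i1 + 1) ≤ r / (r - 1) * (2 * x' + 1) :=
        mul_le_mul_of_nonneg_left (by linarith only [hps, hps0]) hκ0
      have e5 : (r : ℝ) / (r - 1) * (2 * x' + 1) ≤ 3 / 2 * (2 * x' + 1) :=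
        mul_le_mul_of_nonneg_right k2 (by linarith only [hx1'])
      linarith only [e4, e5]
    have e6 : (r + 2) * 1 ≤ ((r : ℝ) + 2) * x' := mul_le_mul_of_nonneg_left hx1' (by linarith only [])
    have e7 : ((r : ℝ) + 5) * x' ≤ (r + 5) * (B * S) :=
      mul_le_mul_of_nonneg_left hxB' (by linarith only [])
    rw [hK]
    linarith only [e1, e3, e6, e7]
  have hsε : s' ^ 3 ≤ ε * N := by
    have := small hK0 hε0 hS0 hS3 hs0' hsK
    rwa [hN] at this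
  obtain ⟨b2a, b2b⟩ := b2 i1 s' hs0' hs2'
  have h3' : (x' - ps) ^ 3 * (r * (r + 1) / (r - 1) ^ 2)
      - 3 * (x' - ps) * (r / (r - 1) * x' ^ 2) / (r - 1) - s' ^ 3 ≤ ∑ i, d' i ^ 3 := by
    rw [hx', ← hps]
    have := (abs_le.1 b2a).1
    linarith only [this]
  -- the maximum of `d`
  have : Nonempty (Fin r) := ⟨i1⟩
  obtain ⟨i0, hi0⟩ := Finite.exists_max d
  obtain ⟨p, hp⟩ : ∃ p, d i0 = x - p := ⟨x - d i0, by ring⟩
  have hp0 : 0 ≤ p := by
    have e1 : r / (r - 1) * (d i0) ^ 2 ≤ r / (r - 1) * x ^ 2 := by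
      rw [hx]
      linarith only [a1 i0]
    have e2 : (d i0) ^ 2 ≤ x ^ 2 := le_of_mul_le_mul_left e1 hκ1
    have e3 := (le_abs_self (d i0)).trans (abs_le_of_sq_le_sq e2 hx0)
    linarith only [hp, e3]
  obtain ⟨hpsr, q, hq0, hq1, hq2⟩ := exq hr3 hx1' hp0 hk0 hk1
    (fun hk' => by rw [← hp, ← hps]; exact hk hk' i0) hxps hDs
  by_cases h2 : d i0 ≤ (1 - e) * x
  · have h3 := a4 ((1 - e) * x) (by have : 0 < 1 - e := by linarith only [he1]
                                    positivity) fun i => (hi0 i).trans h2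
    rw [← hx] at h3
    have b6' : ∑ i, d' i ^ 4 ≤ (r / (r - 1) * x' ^ 2) ^ 2 := by rw [hx']; exact b6
    have h := mid hr3 hx1 hx1' hps0 he0 he1 hxB hxB' hxx' hN hS1 hB0.le hρ.le hTx hpsr hk0
      (by rw [hx']; exact hRn') hsε h3 h3' hM4 b6'
    rw [← hCM, hx', hεη] at h
    have e1 : 0 ≤ (4 * (B + ρ + 5) + (23 * B + 10 * B ^ 2)) * S * T := by positivity
    linarith only [h, e1, hS5, hSN, hηN]
  · push Not at h2
    have hpx : p ≤ f ^ 2 / 3 * x := by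
      rw [← hef]
      rw [hp] at h2
      linarith only [h2]
    obtain ⟨s, hs0, hs2⟩ : ∃ s : ℝ, 0 ≤ s ∧ s ^ 2 = R - d i0 ^ 2 * (r / (r - 1)) :=
      ⟨√(R - d i0 ^ 2 * (r / (r - 1))), Real.sqrt_nonneg _,
        Real.sq_sqrt (by linarith only [a1 i0])⟩
    obtain ⟨a2a, -⟩ := a2 i0 s hs0 hs2
    have h3 : ∑ i, d i ^ 3 ≤ (x - p) ^ 3 * (r * (r + 1) / (r - 1) ^ 2)
        - 3 * (x - p) * (r / (r - 1) * x ^ 2) / (r - 1) + s ^ 3 := by
      rw [hx, ← hp]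
      have := (abs_le.1 a2a).2
      linarith only [this]
    rw [hp, ← hx] at hs2
    have a3' := a3 i0
    rw [hp] at a3'
    rw [hps] at b2b
    have h := near hr3 hx0 hx1' hp0 hps0 hpx hf0 hf1 hxB hxB' (by linarith only [hxx,
        hxx']) hN hBρ hS2 hS1
      hB0.le hTx hq0 hq1 hq2 hpsr hDs hs0 hs2 hs0' hsK hsε h3 h3' a3' b2b
    rw [← hCS, ← hC0, hx', hεη] at h
    have e1 : 12 * f * ρ * (r + 1) * N ≤ η / 4 * N := mul_le_mul_of_nonneg_right hf2 hN0.le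
    have e2 : C0 ≤ C0 * S := by
      have := mul_le_mul_of_nonneg_left hS1 hC00
      linarith only [this]
    have e3 : 4 * (CS + C0) * S ≤ η * N := by
      have e4 := mul_le_mul_of_nonneg_right hS4 hS0.le
      have e5 : S * η * S = η * N := by rw [← hN]; ring
      linarith only [e4, e5]
    have e6 : 0 ≤ 4 * (B + ρ + 5) * S * T := by positivity
    linarith only [h, e1, e2, e3, e6, hηN]

end Pool.Agent.Work.MP_5532fa_up

end

section

/-!
# MP_5532fa_co: third part of the three squares theorem (Ankeny)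
-/

namespace Pool.Agent.Work.MP_5532fa_up

namespace TSC

/-- values of `A^2 + n y^2` have even valuation at `p` if `-n` is not a square modulo `p` -/
lemma even_val (n p : ℕ) [hp : Fact p.Prime] (hns : ¬ IsSquare (-(n : ZMod p))) :
    ∀ (N : ℕ) (A y : ℤ), A.natAbs + y.natAbs ≤ N → ¬ (A = 0 ∧ y = 0) →
      A ^ 2 + n * y ^ 2 ≠ 0 → Even (padicValInt p (A ^ 2 + n * y ^ 2)) := by
  intro N
  induction N with
  | zero =>
      intro A y h h0
      exact absurd ⟨by omega, by omega⟩ h0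
  | succ N ih =>
      intro A y h h0 hne
      by_cases hd : (p : ℤ) ∣ A ^ 2 + n * y ^ 2
      · have hz : ((A : ZMod p)) ^ 2 + (n : ZMod p) * (y : ZMod p) ^ 2 = 0 := by
          have := (ZMod.intCast_zmod_eq_zero_iff_dvd (A ^ 2 + n * y ^ 2) p).2 hd
          push_cast at this
          exact this
        have hy : (y : ZMod p) = 0 := by
          by_contra hy
          apply hns
          refine ⟨(A : ZMod p) / y, ?_⟩
          field_simp
          linear_combination -hz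
        have hA : (A : ZMod p) = 0 := by
          rw [hy] at hz
          have : (A : ZMod p) ^ 2 = 0 := by linear_combination hz
          exact pow_eq_zero_iff (two_ne_zero) |>.1 this
        obtain ⟨A', hA'⟩ := (ZMod.intCast_zmod_eq_zero_iff_dvd A p).1 hA
        obtain ⟨y', hy'⟩ := (ZMod.intCast_zmod_eq_zero_iff_dvd y p).1 hy
        have hp2 : 2 ≤ p := hp.out.two_le
        have e : A ^ 2 + n * y ^ 2 = (p : ℤ) ^ 2 * (A' ^ 2 + n * y' ^ 2) := by
          rw [hA', hy']; ring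
        have hne' : A' ^ 2 + n * y' ^ 2 ≠ 0 := by
          intro h1
          rw [h1, mul_zero] at e
          exact hne e
        have h0' : ¬ (A' = 0 ∧ y' = 0) := by
          rintro ⟨h1, h2⟩
          apply h0
          rw [hA', hy', h1, h2]
          simp
        have hlt : A'.natAbs + y'.natAbs ≤ N := by
          have h1 : A.natAbs = p * A'.natAbs := by rw [hA', Int.natAbs_mul]; simp
          have h2 : y.natAbs = p * y'.natAbs := by rw [hy', Int.natAbs_mul]; simp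
          have h3 : 0 < A'.natAbs + y'.natAbs := by
            by_contra h4
            exact h0' ⟨by omega, by omega⟩
          have h4 : p * (A'.natAbs + y'.natAbs) ≤ N + 1 := by
            rw [mul_add, ← h1, ← h2]; exact h
          have h5 : 2 * (A'.natAbs + y'.natAbs) ≤ p * (A'.natAbs + y'.natAbs) :=
            Nat.mul_le_mul_right _ hp2
          omega
        have hev := ih A' y' hlt h0' hne'
        rw [e, padicValInt.mul (by have := hp.out.pos; positivity) hne']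
        have h6 : padicValInt p ((p : ℤ) ^ 2) = 2 := by
          rw [show ((p : ℤ) ^ 2) = ((p ^ 2 : ℕ) : ℤ) by push_cast; ring]
          rw [padicValInt.of_nat, padicValNat.prime_pow]
        rw [h6]
        exact even_two.add hev
      · rw [padicValInt.eq_zero_of_not_dvd hd]
        exact Even.zero

end TSC

theorem blk_TSC : Stmt_TSC := by
  intro n q b h t x y R v hsq hn8 hq hq4 hqn hb hnt hv hnR
  rcases Nat.eq_zero_or_pos v with hv0 | hv0
  · exact ⟨0, 0, by simp [hv0]⟩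
  have key : (4 * q * v : ℤ) = (2 * q * x + b * y) ^ 2 + n * y ^ 2 := by
    rw [hv]
    linear_combination (-(y ^ 2)) * hb
  have hsum : ∃ a c : ℕ, 2 * v = a ^ 2 + c ^ 2 := by
    rw [Nat.eq_sq_add_sq_iff]
    intro p hp hp4
    have hpp : p.Prime := Nat.prime_of_mem_primeFactors hp
    have hpd : p ∣ 2 * v := Nat.dvd_of_mem_primeFactors hp
    have : Fact p.Prime := ⟨hpp⟩
    have hp2 : p ≠ 2 := by rintro rfl; omega
    have hpq : p ≠ q := by rintro rfl; omega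
    have hpv : p ∣ v := by
      rcases (Nat.Prime.dvd_mul hpp).1 hpd with h1 | h1
      · exact absurd ((Nat.prime_dvd_prime_iff_eq hpp Nat.prime_two).1 h1) hp2
      · exact h1
    have hneg1 : ¬ IsSquare (-1 : ZMod p) := by
      rw [ZMod.exists_sq_eq_neg_one_iff]
      simp [hp4]
    have hvz : ((v : ℕ) : ZMod p) = 0 := (ZMod.natCast_eq_zero_iff v p).2 hpv
    have hRz : ((n : ℕ) : ZMod p) = (R : ZMod p) ^ 2 := by
      have := congrArg (Int.cast : ℤ → ZMod p) hnR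
      push_cast at this
      rw [this, hvz]; ring
    have h2v : padicValNat p (2 * v) = padicValNat p v := by
      rw [padicValNat.mul two_ne_zero hv0.ne']
      rw [padicValNat.eq_zero_of_not_dvd (fun h1 => hp2
        ((Nat.prime_dvd_prime_iff_eq hpp Nat.prime_two).1 h1)), zero_add]
    rw [h2v]
    by_cases hpn : p ∣ n
    · exfalso
      obtain ⟨n', hn'⟩ := hpn
      obtain ⟨v', hv'⟩ := hpv
      have hn'p : ¬ p ∣ n' := by
        rintro ⟨m, hm⟩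
        have : p * p ∣ n := ⟨m, by rw [hn', hm]; ring⟩
        have := hsq p this
        exact hpp.one_lt.ne' (Nat.isUnit_iff.1 this)
      have hnz : ((n : ℕ) : ZMod p) = 0 := (ZMod.natCast_eq_zero_iff n p).2 ⟨n', hn'⟩
      have hR0 : (R : ZMod p) = 0 := by
        rw [hnz] at hRz
        exact pow_eq_zero_iff (two_ne_zero) |>.1 hRz.symm
      obtain ⟨R', hR'⟩ := (ZMod.intCast_zmod_eq_zero_iff_dvd R p).1 hR0
      have hp0 : (p : ℤ) ≠ 0 := by exact_mod_cast hpp.ne_zero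
      have e1 : (n' : ℤ) = p * R' ^ 2 + 2 * v' := by
        have h1 : (p : ℤ) * n' = p * (p * R' ^ 2 + 2 * v') := by
          have : ((n : ℕ) : ℤ) = p * n' := by rw [hn']; push_cast; ring
          have h2 : ((v : ℕ) : ℤ) = p * v' := by rw [hv']; push_cast; ring
          rw [← this, hnR, h2, hR']; ring
        exact mul_left_cancel₀ hp0 h1
      have e1z : ((n' : ℕ) : ZMod p) = 2 * v' := by
        have := congrArg (Int.cast : ℤ → ZMod p) e1
        push_cast at this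
        simpa using this
      have hv'z : ((v' : ℕ) : ZMod p) ≠ 0 := by
        intro h1
        rw [h1, mul_zero] at e1z
        exact hn'p ((ZMod.natCast_eq_zero_iff n' p).1 e1z)
      have hAz : ((2 * q * x + b * y : ℤ) : ZMod p) = 0 := by
        have := congrArg (Int.cast : ℤ → ZMod p) key
        push_cast at this
        rw [hvz, hnz] at this
        have h1 : (2 * (q : ZMod p) * x + b * y) ^ 2 = 0 := by linear_combination -this
        have h2 := pow_eq_zero_iff (two_ne_zero) |>.1 h1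
        push_cast
        exact h2
      obtain ⟨A', hA'⟩ := (ZMod.intCast_zmod_eq_zero_iff_dvd _ p).1 hAz
      have e2 : (4 * q * v' : ℤ) = p * A' ^ 2 + n' * y ^ 2 := by
        have h1 : (p : ℤ) * (4 * q * v') = p * (p * A' ^ 2 + n' * y ^ 2) := by
          have : ((n : ℕ) : ℤ) = p * n' := by rw [hn']; push_cast; ring
          have h2 : ((v : ℕ) : ℤ) = p * v' := by rw [hv']; push_cast; ring
          rw [h2, this, hA'] at key
          linear_combination key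
        exact mul_left_cancel₀ hp0 h1
      have e2z : (4 * q * v' : ZMod p) = 2 * v' * y ^ 2 := by
        have := congrArg (Int.cast : ℤ → ZMod p) e2
        push_cast at this
        rw [this, e1z]
        simp
      have h2z : (2 : ZMod p) ≠ 0 := by
        intro h1
        have : ((2 : ℕ) : ZMod p) = 0 := by exact_mod_cast h1
        have := (ZMod.natCast_eq_zero_iff 2 p).1 this
        exact hp2 ((Nat.prime_dvd_prime_iff_eq hpp Nat.prime_two).1 this)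
      have e3 : (2 * q : ZMod p) = y ^ 2 := by
        have h1 : (2 * (v' : ZMod p)) * (2 * q) = (2 * v') * y ^ 2 := by
          linear_combination e2z
        exact mul_left_cancel₀ (mul_ne_zero h2z hv'z) h1
      have e4 : (2 * q * (t : ZMod p) ^ 2 + 1) = 0 := by
        have h1 : (p : ℤ) ∣ 2 * q * t ^ 2 + 1 :=
          dvd_trans (by rw [hn']; push_cast; exact Dvd.intro _ rfl) hnt
        have := (ZMod.intCast_zmod_eq_zero_iff_dvd _ p).2 h1
        push_cast at this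
        exact this
      apply hneg1
      refine ⟨(y : ZMod p) * t, ?_⟩
      rw [e3] at e4
      linear_combination -e4
    · have hnz : ((n : ℕ) : ZMod p) ≠ 0 := fun h1 => hpn ((ZMod.natCast_eq_zero_iff n p).1 h1)
      have hRne : (R : ZMod p) ≠ 0 := by
        intro h1
        rw [h1] at hRz
        exact hnz (by rw [hRz]; ring)
      have hns : ¬ IsSquare (-(n : ZMod p)) := by
        rintro ⟨s, hs⟩
        apply hneg1
        refine ⟨s / R, ?_⟩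
        rw [hRz] at hs
        field_simp
        linear_combination hs
      have hne : (2 * q * x + b * y) ^ 2 + (n : ℤ) * y ^ 2 ≠ 0 := by
        rw [← key]
        have := hq.pos
        positivity
      have h0 : ¬ ((2 * q * x + b * y : ℤ) = 0 ∧ y = 0) := by
        rintro ⟨h1, h2⟩
        apply hne
        rw [h1, h2]; simp
      have hev := TSC.even_val n p hns _ _ _ le_rfl h0 hne
      rw [← key] at hev
      have e : (4 * q * v : ℤ) = ((4 * q * v : ℕ) : ℤ) := by push_cast; ring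
      rw [e, padicValInt.of_nat] at hev
      have hval : padicValNat p (4 * q * v) = padicValNat p v := by
        rw [padicValNat.mul (by have := hq.pos; positivity) hv0.ne']
        rw [padicValNat.eq_zero_of_not_dvd, zero_add]
        intro h1
        rcases (Nat.Prime.dvd_mul hpp).1 h1 with h2 | h2
        · have : p ∣ 2 := by
            have h3 : p ∣ 2 ^ 2 := by simpa using h2
            exact hpp.dvd_of_dvd_pow h3
          exact hp2 ((Nat.prime_dvd_prime_iff_eq hpp Nat.prime_two).1 this)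
        · exact hpq ((Nat.prime_dvd_prime_iff_eq hpp hq).1 h2)
      rw [hval] at hev
      exact hev
  exact hsum

end Pool.Agent.Work.MP_5532fa_up

end
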