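import Mathlib
import Pool.Agent.Work.MP_5532fa_full.P11

section

/-!
# MP_5532fa_co, upgrade, third round: block STA (second order comparison)
-/

set_option autoImplicit false

open Finset

namespace Pool.Agent.Work.MP_5532fa_up

open MP5532fa (specRad qf pE)

namespace STA

variable {V : Type} [Fintype V]

/-- the Rayleigh quotient at `x + ξ / lam` -/
theorem ray [Nonempty V] (G' : SimpleGraph V) (x ξ : V → ℝ) (lam : ℝ) (hl : 0 < lam)
    (hs : specRad G' ≤ lam) (hx : ∀ v, ∑ b, ad G' v b * x b = lam * x v + ξ v) :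
    ∑ v, x v * ξ v + (∑ v, ξ v ^ 2) / lam - (∑ v, |ξ v|) ^ 2 / lam ^ 2 ≤ 0 := by
  have h := rayleigh G' (fun v => x v + ξ v / lam)
  have h2 : specRad G' * ∑ v, (x v + ξ v / lam) ^ 2 ≤ lam * ∑ v, (x v + ξ v / lam) ^ 2 :=
    mul_le_mul_of_nonneg_right hs (Finset.sum_nonneg fun v _ => sq_nonneg _)
  have e1 : ∑ u, ∑ v, ad G' u v * ((x u + ξ u / lam) * (x v + ξ v / lam)) =
      ∑ u, x u * (lam * x u + ξ u) + ∑ u, ξ u / lam * (lam * x u + ξ u) +
      ∑ u, ξ u / lam * (lam * x u + ξ u) + (∑ u, ∑ v, ad G' u v * (ξ u * ξ v)) / lam ^ 2 := by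
    have a1 : ∑ u, x u * (lam * x u + ξ u) = ∑ u, ∑ v, x u * (ad G' u v * x v) :=
      Finset.sum_congr rfl fun u _ => by rw [← hx u, Finset.mul_sum]
    have a2 : ∑ u, ξ u / lam * (lam * x u + ξ u) = ∑ u, ∑ v, ξ u / lam * (ad G' u v * x v) :=
      Finset.sum_congr rfl fun u _ => by rw [← hx u, Finset.mul_sum]
    have a3 : ∑ u, ξ u / lam * (lam * x u + ξ u) = ∑ u, ∑ v, ξ v / lam * (ad G' v u * x u) := by
      rw [a2, Finset.sum_comm]
    have a4 : (∑ u, ∑ v, ad G' u v * (ξ u * ξ v)) / lam ^ 2 =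
        ∑ u, ∑ v, ad G' u v * (ξ u * ξ v) / lam ^ 2 := by
      rw [Finset.sum_div]
      exact Finset.sum_congr rfl fun u _ => by rw [Finset.sum_div]
    have a5 : ∑ u, ξ u / lam * (lam * x u + ξ u) + ∑ u, ξ u / lam * (lam * x u + ξ u) =
        ∑ u, ∑ v, ξ u / lam * (ad G' u v * x v) + ∑ u, ∑ v, ξ v / lam * (ad G' v u * x u) := by
      rw [← a3, ← a2]
    rw [add_assoc (∑ u, x u * (lam * x u + ξ u)), a5, a1, a4, ← Finset.sum_add_distrib,
      ← Finset.sum_add_distrib, ← Finset.sum_add_distrib]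
    refine Finset.sum_congr rfl fun u _ => ?_
    rw [← Finset.sum_add_distrib, ← Finset.sum_add_distrib, ← Finset.sum_add_distrib]
    refine Finset.sum_congr rfl fun v _ => ?_
    rw [ad_comm G' v u]
    field_simp
    ring
  have hQ : -(∑ v, |ξ v|) ^ 2 ≤ ∑ u, ∑ v, ad G' u v * (ξ u * ξ v) := by
    have e2 : (∑ v, |ξ v|) ^ 2 = ∑ u, ∑ v, |ξ u| * |ξ v| := by
      rw [sq, Finset.sum_mul_sum]
    rw [e2, ← Finset.sum_neg_distrib]
    refine Finset.sum_le_sum fun u _ => ?_
    rw [← Finset.sum_neg_distrib]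
    refine Finset.sum_le_sum fun v _ => ?_
    have h3 : |ad G' u v * (ξ u * ξ v)| ≤ |ξ u| * |ξ v| := by
      rw [abs_mul, abs_mul]
      have h4 : |ad G' u v| ≤ 1 := by
        unfold ad
        rw [abs_of_nonneg (chi_nonneg _)]
        exact chi_le_one _
      exact mul_le_of_le_one_left (by positivity) h4
    exact (abs_le.mp h3).1
  have hQ' : -((∑ v, |ξ v|) ^ 2 / lam ^ 2) ≤
      (∑ u, ∑ v, ad G' u v * (ξ u * ξ v)) / lam ^ 2 := by
    rw [← neg_div]
    exact div_le_div_of_nonneg_right hQ (by positivity)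
  have e3 : lam * ∑ v, (x v + ξ v / lam) ^ 2 + (∑ v, x v * ξ v + (∑ v, ξ v ^ 2) / lam) =
      ∑ u, x u * (lam * x u + ξ u) + ∑ u, ξ u / lam * (lam * x u + ξ u) +
      ∑ u, ξ u / lam * (lam * x u + ξ u) := by
    rw [Finset.mul_sum, Finset.sum_div, ← Finset.sum_add_distrib, ← Finset.sum_add_distrib,
      ← Finset.sum_add_distrib, ← Finset.sum_add_distrib]
    refine Finset.sum_congr rfl fun v _ => ?_
    field_simp
  rw [e1] at h
  linarith only [h, h2, hQ', e3]

theorem sum_le_bound {f : V → V → ℝ} {g : V → ℝ} {m S : ℝ} (f0 : ∀ a b, 0 ≤ f a b)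
    (hS : ∑ a, ∑ b, f a b = S) (hg : ∀ v, g v ≤ m) : ∑ v, ∑ b, f v b * g b ≤ m * S := by
  rw [← hS, Finset.mul_sum]
  refine Finset.sum_le_sum fun v _ => ?_
  rw [Finset.mul_sum]
  refine Finset.sum_le_sum fun b _ => ?_
  rw [mul_comm]
  exact mul_le_mul_of_nonneg_right (hg b) (f0 v b)

theorem row_le {f : V → V → ℝ} {S : ℝ} (f0 : ∀ a b, 0 ≤ f a b)
    (hS : ∑ a, ∑ b, f a b = S) (v : V) : ∑ b, f v b ≤ S := by
  rw [← hS]
  exact Finset.single_le_sum (f := fun v => ∑ b, f v b)
    (fun v _ => Finset.sum_nonneg fun b _ => f0 v b) (Finset.mem_univ v)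

/-- symmetrisation -/
theorem sym_sum {f : V → V → ℝ} (fs : ∀ a b, f a b = f b a) (g h : V → ℝ) :
    ∑ a, ∑ b, f a b * (g a * h b + g b * h a) = 2 * ∑ v, h v * ∑ b, f v b * g b := by
  have h1 : ∑ a, ∑ b, f a b * (g b * h a) = ∑ v, h v * ∑ b, f v b * g b := by
    refine Finset.sum_congr rfl fun v _ => ?_
    rw [Finset.mul_sum]
    exact Finset.sum_congr rfl fun b _ => by ring
  have h2 : ∑ a, ∑ b, f a b * (g a * h b) = ∑ v, h v * ∑ b, f v b * g b := by
    rw [Finset.sum_comm, ← h1]
    refine Finset.sum_congr rfl fun a _ => Finset.sum_congr rfl fun b _ => ?_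
    rw [fs b a]
  have h3 : ∑ a, ∑ b, f a b * (g a * h b + g b * h a) =
      ∑ a, ∑ b, f a b * (g a * h b) + ∑ a, ∑ b, f a b * (g b * h a) := by
    rw [← Finset.sum_add_distrib]
    refine Finset.sum_congr rfl fun a _ => ?_
    rw [← Finset.sum_add_distrib]
    exact Finset.sum_congr rfl fun b _ => by ring
  rw [h3, h1, h2]
  ring

theorem alg {f f' : V → V → ℝ} {H : Finset V} {x β τ : V → ℝ} {lam S xb N R : ℝ}
    (hlam : N / 2 ≤ lam) (hN : 1 ≤ N) (hS : 1 ≤ S) (hxb : 0 < xb) (hR : 0 ≤ R)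
    (f0 : ∀ a b, 0 ≤ f a b) (fs : ∀ a b, f a b = f b a)
    (fH : ∀ a b, a ∉ H → f a b = 0) (fS : ∑ a, ∑ b, f a b = S)
    (f0' : ∀ a b, 0 ≤ f' a b) (f1' : ∀ a b, f' a b ≤ 1) (fs' : ∀ a b, f' a b = f' b a)
    (fH' : ∀ a b, a ∉ H → f' a b = 0) (fS' : ∑ a, ∑ b, f' a b = S)
    (x0 : ∀ v, 0 ≤ x v) (x1 : ∀ v, x v ≤ 11 / 10 * xb)
    (β0 : ∀ v, 0 ≤ β v) (β1 : ∀ v, β v ≤ 11 / 5 * xb)
    (τ0 : ∀ v, 0 ≤ τ v) (τ1 : ∀ v, τ v ≤ R * xb / N) (τ2 : ∀ v, τ v ≤ xb / 10)
    (hx : ∀ v ∈ H, lam * x v = lam * β v - ∑ b, f v b * x b + τ v)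
    (key : ∑ v, x v * (∑ b, (f v b - f' v b) * x b) +
      (∑ v, (∑ b, (f v b - f' v b) * x b) ^ 2) / lam -
      (∑ v, |∑ b, (f v b - f' v b) * x b|) ^ 2 / lam ^ 2 ≤ 0) :
    ∑ a, ∑ b, f a b * (β a * β b) - ∑ a, ∑ b, f' a b * (β a * β b)
      + (∑ v, (∑ b, f' v b * β b) ^ 2 - ∑ v, (∑ b, f v b * β b) ^ 2) / lam
      ≤ (5 * R + 70) * S ^ 2 * xb ^ 2 / N ^ 2 := by
  have hlam0 : 0 < lam := by linarith only [hlam, hN]
  have hN0 : 0 < N := by linarith only [hN]
  obtain ⟨φ, hφ⟩ : ∃ φ : V → ℝ, ∀ v, φ v = ∑ b, f v b * x b := ⟨_, fun _ => rfl⟩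
  obtain ⟨φ', hφ'⟩ : ∃ φ : V → ℝ, ∀ v, φ v = ∑ b, f' v b * x b := ⟨_, fun _ => rfl⟩
  obtain ⟨B, hB⟩ : ∃ φ : V → ℝ, ∀ v, φ v = ∑ b, f v b * β b := ⟨_, fun _ => rfl⟩
  obtain ⟨B', hB'⟩ : ∃ φ : V → ℝ, ∀ v, φ v = ∑ b, f' v b * β b := ⟨_, fun _ => rfl⟩
  have eξ : ∀ v, ∑ b, (f v b - f' v b) * x b = φ v - φ' v := by
    intro v
    rw [hφ, hφ', ← Finset.sum_sub_distrib]
    exact Finset.sum_congr rfl fun b _ => by ring
  simp only [eξ] at key
  simp only [← hB, ← hB']
  simp only [← hφ] at hx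
  have φ0 : ∀ v, 0 ≤ φ v := fun v => by
    rw [hφ]; exact Finset.sum_nonneg fun b _ => mul_nonneg (f0 _ _) (x0 _)
  have φ0' : ∀ v, 0 ≤ φ' v := fun v => by
    rw [hφ']; exact Finset.sum_nonneg fun b _ => mul_nonneg (f0' _ _) (x0 _)
  have B0 : ∀ v, 0 ≤ B v := fun v => by
    rw [hB]; exact Finset.sum_nonneg fun b _ => mul_nonneg (f0 _ _) (β0 _)
  have B0' : ∀ v, 0 ≤ B' v := fun v => by
    rw [hB']; exact Finset.sum_nonneg fun b _ => mul_nonneg (f0' _ _) (β0 _)
  have sφ : ∑ v, φ v ≤ 11 / 10 * xb * S := by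
    simp only [hφ]; exact sum_le_bound f0 fS x1
  have sφ' : ∑ v, φ' v ≤ 11 / 10 * xb * S := by
    simp only [hφ']; exact sum_le_bound f0' fS' x1
  have sB : ∑ v, B v ≤ 11 / 5 * xb * S := by
    simp only [hB]; exact sum_le_bound f0 fS β1
  have sB' : ∑ v, B' v ≤ 11 / 5 * xb * S := by
    simp only [hB']; exact sum_le_bound f0' fS' β1
  have sφ0 : 0 ≤ ∑ v, φ v := Finset.sum_nonneg fun v _ => φ0 v
  have sφ0' : 0 ≤ ∑ v, φ' v := Finset.sum_nonneg fun v _ => φ0' v
  -- the deviation
  have dev : ∀ v, |B' v - φ' v| ≤ 6 / 5 * S * xb / lam := by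
    intro v
    have e1 : B' v - φ' v = ∑ b, f' v b * (β b - x b) := by
      rw [hB', hφ', ← Finset.sum_sub_distrib]
      exact Finset.sum_congr rfl fun b _ => by ring
    rw [e1]
    refine (Finset.abs_sum_le_sum_abs _ _).trans ?_
    have h1 : ∀ b, |f' v b * (β b - x b)| ≤ (φ b + f' v b * (xb / 10)) / lam := by
      intro b
      by_cases hb : b ∈ H
      · have h2 : β b - x b = (φ b - τ b) / lam := by
          rw [eq_div_iff hlam0.ne']
          have := hx b hb
          linarith only [this]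
        rw [h2, abs_mul, abs_div, abs_of_pos hlam0, abs_of_nonneg (f0' v b), ← mul_div_assoc]
        refine div_le_div_of_nonneg_right ?_ hlam0.le
        have h3 : |φ b - τ b| ≤ φ b + xb / 10 := by
          rw [abs_le]
          have := φ0 b
          have := τ0 b
          have := τ2 b
          constructor <;> linarith
        have h4 := mul_le_mul_of_nonneg_left h3 (f0' v b)
        have h5 : f' v b * φ b ≤ φ b := mul_le_of_le_one_left (φ0 b) (f1' v b)
        linarith only [h4, h5]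
      · rw [fs' v b, fH' b v hb]
        simp only [zero_mul, abs_zero, add_zero]
        exact div_nonneg (φ0 b) hlam0.le
    refine (Finset.sum_le_sum fun b _ => h1 b).trans ?_
    rw [← Finset.sum_div]
    refine div_le_div_of_nonneg_right ?_ hlam0.le
    rw [Finset.sum_add_distrib, ← Finset.sum_mul]
    have h6 := mul_le_mul_of_nonneg_right (row_le f0' fS' v) (show 0 ≤ xb / 10 by positivity)
    linarith only [sφ, h6]
  -- first order terms
  have c1 : ∀ a b, a ∈ H → b ∈ H → x a * x b = β a * β b - (β a * φ b + β b * φ a) / lam +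
      φ a * φ b / lam ^ 2 + (τ a * x b + τ b * x a) / lam - τ a * τ b / lam ^ 2 := by
    intro a b ha hb
    have h1 : β a = x a + φ a / lam - τ a / lam := by
      have := hx a ha
      field_simp
      linarith only [this]
    have h2 : β b = x b + φ b / lam - τ b / lam := by
      have := hx b hb
      field_simp
      linarith only [this]
    rw [h1, h2]
    field_simp
    ring
  have lowF : ∑ a, ∑ b, f a b * (β a * β b) - 2 * (∑ v, φ v * B v) / lam -
      xb ^ 2 / 100 / lam ^ 2 * S ≤ ∑ a, ∑ b, f a b * (x a * x b) := by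
    have e1 := sym_sum fs β φ
    simp only [← hB] at e1
    rw [← e1, ← fS, Finset.mul_sum, Finset.sum_div, ← Finset.sum_sub_distrib,
      ← Finset.sum_sub_distrib]
    refine Finset.sum_le_sum fun a _ => ?_
    rw [Finset.mul_sum, Finset.sum_div, ← Finset.sum_sub_distrib, ← Finset.sum_sub_distrib]
    refine Finset.sum_le_sum fun b _ => ?_
    by_cases ha : a ∈ H
    · by_cases hb : b ∈ H
      · rw [c1 a b ha hb]
        have h1 : 0 ≤ φ a * φ b / lam ^ 2 :=
          div_nonneg (mul_nonneg (φ0 a) (φ0 b)) (by positivity)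
        have h2 : 0 ≤ (τ a * x b + τ b * x a) / lam :=
          div_nonneg (add_nonneg (mul_nonneg (τ0 a) (x0 b)) (mul_nonneg (τ0 b) (x0 a))) hlam0.le
        have h3 : τ a * τ b / lam ^ 2 ≤ xb ^ 2 / 100 / lam ^ 2 := by
          refine div_le_div_of_nonneg_right ?_ (by positivity)
          have := mul_le_mul (τ2 a) (τ2 b) (τ0 b) (by positivity)
          calc τ a * τ b ≤ xb / 10 * (xb / 10) := this
            _ = xb ^ 2 / 100 := by ring
        have h4 : f a b * (β a * β b) - f a b * (β a * φ b + β b * φ a) / lam -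
            xb ^ 2 / 100 / lam ^ 2 * f a b = f a b * (β a * β b - (β a * φ b + β b * φ a) / lam -
              xb ^ 2 / 100 / lam ^ 2) := by ring
        rw [h4]
        exact mul_le_mul_of_nonneg_left (by linarith only [h1, h2, h3]) (f0 a b)
      · rw [fs a b, fH b a hb]
        simp
    · rw [fH a b ha]
      simp
  have upF : ∑ a, ∑ b, f' a b * (x a * x b) ≤ ∑ a, ∑ b, f' a b * (β a * β b) -
      2 * (∑ v, φ v * B' v) / lam + 11 / 5 * R * xb ^ 2 / N / lam * S +
        (∑ v, φ v) ^ 2 / lam ^ 2 := by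
    have e1 := sym_sum fs' β φ
    simp only [← hB'] at e1
    have e2 : (∑ v, φ v) ^ 2 = ∑ a, ∑ b, φ a * φ b := by rw [sq, Finset.sum_mul_sum]
    rw [← e1, ← fS', e2, Finset.mul_sum, Finset.sum_div, Finset.sum_div,
      ← Finset.sum_sub_distrib, ← Finset.sum_add_distrib, ← Finset.sum_add_distrib]
    refine Finset.sum_le_sum fun a _ => ?_
    rw [Finset.mul_sum, Finset.sum_div, Finset.sum_div, ← Finset.sum_sub_distrib,
      ← Finset.sum_add_distrib, ← Finset.sum_add_distrib]
    refine Finset.sum_le_sum fun b _ => ?_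
    have h0 : 0 ≤ φ a * φ b / lam ^ 2 :=
      div_nonneg (mul_nonneg (φ0 a) (φ0 b)) (by positivity)
    by_cases ha : a ∈ H
    · by_cases hb : b ∈ H
      · rw [c1 a b ha hb]
        have h1 : f' a b * (φ a * φ b / lam ^ 2) ≤ φ a * φ b / lam ^ 2 :=
          mul_le_of_le_one_left h0 (f1' a b)
        have h2 : 0 ≤ τ a * τ b / lam ^ 2 :=
          div_nonneg (mul_nonneg (τ0 a) (τ0 b)) (by positivity)
        have h3 : (τ a * x b + τ b * x a) / lam ≤ 11 / 5 * R * xb ^ 2 / N / lam := by
          refine div_le_div_of_nonneg_right ?_ hlam0.le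
          have h5 := mul_le_mul (τ1 a) (x1 b) (x0 b) (by positivity)
          have h6 := mul_le_mul (τ1 b) (x1 a) (x0 a) (by positivity)
          calc τ a * x b + τ b * x a ≤ R * xb / N * (11 / 10 * xb) + R * xb / N * (11 / 10 * xb) :=
                add_le_add h5 h6
            _ = 11 / 5 * R * xb ^ 2 / N := by ring
        have h4 := mul_le_mul_of_nonneg_left (show (τ a * x b + τ b * x a) / lam -
          τ a * τ b / lam ^ 2 ≤ 11 / 5 * R * xb ^ 2 / N / lam by linarith only [h2, h3]) (f0' a b)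
        have h7 : f' a b * (β a * β b - (β a * φ b + β b * φ a) / lam + φ a * φ b / lam ^ 2 +
            (τ a * x b + τ b * x a) / lam - τ a * τ b / lam ^ 2) = f' a b * (β a * β b) -
            f' a b * (β a * φ b + β b * φ a) / lam + f' a b * (φ a * φ b / lam ^ 2) +
            f' a b * ((τ a * x b + τ b * x a) / lam - τ a * τ b / lam ^ 2) := by ring
        rw [h7]
        have h8 : f' a b * (11 / 5 * R * xb ^ 2 / N / lam) =
            11 / 5 * R * xb ^ 2 / N / lam * f' a b := mul_comm _ _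
        rw [h8] at h4
        linarith only [h1, h4]
      · rw [fs' a b, fH' b a hb]
        simp only [zero_mul, zero_div, sub_zero, mul_zero, zero_add]
        exact h0
    · rw [fH' a b ha]
      simp only [zero_mul, zero_div, sub_zero, mul_zero, zero_add]
      exact h0
  -- second order terms
  have sec : ∑ v, B' v ^ 2 - ∑ v, B v ^ 2 - 264 / 25 * S ^ 2 * xb ^ 2 / lam ≤
      ∑ v, (φ v - φ' v) ^ 2 - 2 * (∑ v, φ v * B v - ∑ v, φ v * B' v) := by
    have h1 : ∀ v, B' v ^ 2 - B v ^ 2 - 12 / 5 * S * xb / lam * (B v + B' v) ≤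
        (φ v - φ' v) ^ 2 - 2 * (φ v * B v - φ v * B' v) := by
      intro v
      have h2 : -(12 / 5 * S * xb / lam * (B v + B' v)) ≤ 2 * ((B' v - φ' v) * (B v - B' v)) := by
        have h3 : |(B' v - φ' v) * (B v - B' v)| ≤ 6 / 5 * S * xb / lam * (B v + B' v) := by
          rw [abs_mul]
          refine mul_le_mul (dev v) ?_ (abs_nonneg _) (by positivity)
          rw [abs_le]
          have := B0 v
          have := B0' v
          constructor <;> linarith
        have h4 := (abs_le.mp h3).1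
        have h5 : 12 / 5 * S * xb / lam * (B v + B' v) =
            2 * (6 / 5 * S * xb / lam * (B v + B' v)) := by ring
        rw [h5]
        linarith only [h4]
      have h6 := sq_nonneg ((B v - φ v) - (B' v - φ' v))
      nlinarith [h2, h6]
    have h2 := Finset.sum_le_sum fun v (_ : v ∈ (univ : Finset V)) => h1 v
    simp only [Finset.sum_sub_distrib, ← Finset.mul_sum, Finset.sum_add_distrib] at h2
    have h3 : 12 / 5 * S * xb / lam * (∑ v, B v + ∑ v, B' v) ≤ 264 / 25 * S ^ 2 * xb ^ 2 / lam := by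
      calc 12 / 5 * S * xb / lam * (∑ v, B v + ∑ v, B' v) ≤
            12 / 5 * S * xb / lam * (11 / 5 * xb * S + 11 / 5 * xb * S) :=
            mul_le_mul_of_nonneg_left (add_le_add sB sB') (by positivity)
        _ = _ := by ring
    linarith only [h2, h3]
  have hsq1 : (∑ v, |φ v - φ' v|) ^ 2 ≤ (11 / 5 * xb * S) ^ 2 := by
    have h1 : ∑ v, |φ v - φ' v| ≤ 11 / 5 * xb * S := by
      calc ∑ v, |φ v - φ' v| ≤ ∑ v, (φ v + φ' v) := by
            refine Finset.sum_le_sum fun v _ => ?_
            rw [abs_le]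
            have := φ0 v
            have := φ0' v
            constructor <;> linarith
        _ = ∑ v, φ v + ∑ v, φ' v := Finset.sum_add_distrib
        _ ≤ _ := by linarith only [sφ, sφ']
    exact pow_le_pow_left₀ (Finset.sum_nonneg fun v _ => abs_nonneg _) h1 2
  have hsq2 : (∑ v, φ v) ^ 2 ≤ (11 / 10 * xb * S) ^ 2 := pow_le_pow_left₀ sφ0 sφ 2
  -- split the key inequality
  have ek : ∑ v, x v * (φ v - φ' v) = ∑ a, ∑ b, f a b * (x a * x b) -
      ∑ a, ∑ b, f' a b * (x a * x b) := by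
    rw [← Finset.sum_sub_distrib]
    refine Finset.sum_congr rfl fun v _ => ?_
    rw [← Finset.sum_sub_distrib, hφ, hφ', ← Finset.sum_sub_distrib, Finset.mul_sum]
    exact Finset.sum_congr rfl fun b _ => by ring
  rw [ek] at key
  have sec' := div_le_div_of_nonneg_right sec hlam0.le
  have hl2 : 1 / lam ≤ 2 / N := by
    rw [div_le_div_iff₀ hlam0 hN0]
    linarith only [hlam]
  have hl3 : 1 / lam ^ 2 ≤ 4 / N ^ 2 := by
    have := pow_le_pow_left₀ (by positivity) hl2 2
    calc 1 / lam ^ 2 = (1 / lam) ^ 2 := by ring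
      _ ≤ (2 / N) ^ 2 := this
      _ = 4 / N ^ 2 := by ring
  have hSS : S ≤ S ^ 2 := by nlinarith
  have E1 : xb ^ 2 / 100 / lam ^ 2 * S ≤ S ^ 2 * xb ^ 2 / N ^ 2 * (1 / 25) := by
    calc xb ^ 2 / 100 / lam ^ 2 * S = 1 / lam ^ 2 * (xb ^ 2 / 100 * S) := by ring
      _ ≤ 4 / N ^ 2 * (xb ^ 2 / 100 * S ^ 2) := by
          refine mul_le_mul hl3 ?_ (by positivity) (by positivity)
          exact mul_le_mul_of_nonneg_left hSS (by positivity)
      _ = _ := by ring
  have E2 : 11 / 5 * R * xb ^ 2 / N / lam * S ≤ S ^ 2 * xb ^ 2 / N ^ 2 * (22 / 5 * R) := by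
    calc 11 / 5 * R * xb ^ 2 / N / lam * S = 1 / lam * (11 / 5 * R * xb ^ 2 / N * S) := by ring
      _ ≤ 2 / N * (11 / 5 * R * xb ^ 2 / N * S ^ 2) := by
          refine mul_le_mul hl2 ?_ (by positivity) (by positivity)
          exact mul_le_mul_of_nonneg_left hSS (by positivity)
      _ = _ := by ring
  have E3 : (∑ v, φ v) ^ 2 / lam ^ 2 ≤ S ^ 2 * xb ^ 2 / N ^ 2 * (121 / 25) := by
    calc (∑ v, φ v) ^ 2 / lam ^ 2 = 1 / lam ^ 2 * (∑ v, φ v) ^ 2 := by ring
      _ ≤ 4 / N ^ 2 * (11 / 10 * xb * S) ^ 2 :=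
          mul_le_mul hl3 hsq2 (by positivity) (by positivity)
      _ = _ := by ring
  have E4 : (∑ v, |φ v - φ' v|) ^ 2 / lam ^ 2 ≤ S ^ 2 * xb ^ 2 / N ^ 2 * (484 / 25) := by
    calc (∑ v, |φ v - φ' v|) ^ 2 / lam ^ 2 = 1 / lam ^ 2 * (∑ v, |φ v - φ' v|) ^ 2 := by ring
      _ ≤ 4 / N ^ 2 * (11 / 5 * xb * S) ^ 2 :=
          mul_le_mul hl3 hsq1 (by positivity) (by positivity)
      _ = _ := by ring
  have E5 : 264 / 25 * S ^ 2 * xb ^ 2 / lam / lam ≤ S ^ 2 * xb ^ 2 / N ^ 2 * (1056 / 25) := by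
    calc 264 / 25 * S ^ 2 * xb ^ 2 / lam / lam = 1 / lam ^ 2 * (264 / 25 * S ^ 2 * xb ^ 2) := by
          field_simp
      _ ≤ 4 / N ^ 2 * (264 / 25 * S ^ 2 * xb ^ 2) :=
          mul_le_mul_of_nonneg_right hl3 (by positivity)
      _ = _ := by ring
  have e5 : (∑ v, B' v ^ 2 - ∑ v, B v ^ 2 - 264 / 25 * S ^ 2 * xb ^ 2 / lam) / lam =
      (∑ v, B' v ^ 2 - ∑ v, B v ^ 2) / lam - 264 / 25 * S ^ 2 * xb ^ 2 / lam / lam := by ring
  have e6 : (∑ v, (φ v - φ' v) ^ 2 - 2 * (∑ v, φ v * B v - ∑ v, φ v * B' v)) / lam =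
      (∑ v, (φ v - φ' v) ^ 2) / lam - 2 * (∑ v, φ v * B v) / lam +
        2 * (∑ v, φ v * B' v) / lam := by ring
  rw [e5, e6] at sec'
  have e7 : (5 * R + 70) * S ^ 2 * xb ^ 2 / N ^ 2 = S ^ 2 * xb ^ 2 / N ^ 2 * (1 / 25) +
      S ^ 2 * xb ^ 2 / N ^ 2 * (22 / 5 * R) + S ^ 2 * xb ^ 2 / N ^ 2 * (121 / 25) +
      S ^ 2 * xb ^ 2 / N ^ 2 * (484 / 25) + S ^ 2 * xb ^ 2 / N ^ 2 * (1056 / 25) +
      S ^ 2 * xb ^ 2 / N ^ 2 * (3 / 5 * R + 88 / 25) := by ring
  have h9 : 0 ≤ S ^ 2 * xb ^ 2 / N ^ 2 * (3 / 5 * R + 88 / 25) := by positivity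
  rw [e7]
  linarith only [key, lowF, upF, sec', E1, E2, E3, E4, E5, h9]

theorem fS_eq (G : SimpleGraph V) (H : Finset V) {r : ℕ} (c : V → Fin r) :
    ∑ a, ∑ b, chi (FM G H c a b) = (mis G H c : ℝ) := by
  rw [EDG.mis_eq]
  have h1 : ∀ a b, (a ∉ H ∨ b ∉ H) → chi (FM G H c a b) = 0 := by
    intro a b h
    refine chi_neg fun h2 => ?_
    rcases h with h | h
    · exact h h2.1
    · exact h h2.2.1
  rw [← Finset.sum_subset (Finset.subset_univ H)]
  · refine Finset.sum_congr rfl fun a ha => ?_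
    rw [← Finset.sum_subset (Finset.subset_univ H)]
    · refine Finset.sum_congr rfl fun b hb => ?_
      exact chi_congr ⟨fun h => ⟨h.2.2.1, h.2.2.2⟩, fun h => ⟨ha, hb, h.1, h.2⟩⟩
    · intro b _ hb
      exact h1 a b (Or.inr hb)
  · intro a _ ha
    exact Finset.sum_eq_zero fun b _ => h1 a b (Or.inl ha)

omit [Fintype V] in
theorem FM_comm {G : SimpleGraph V} {H : Finset V} {r : ℕ} {c : V → Fin r} {a b : V} :
    FM G H c a b ↔ FM G H c b a :=
  ⟨fun h => ⟨h.2.1, h.1, h.2.2.1.symm, fun h2 => h.2.2.2 h2.symm⟩,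
    fun h => ⟨h.2.1, h.1, h.2.2.1.symm, fun h2 => h.2.2.2 h2.symm⟩⟩

theorem sum_at (w : V) (K : ℝ) : ∑ b, chi (b = w) * K = K := by
  rw [Finset.sum_eq_single w]
  · rw [chi_pos rfl, one_mul]
  · intro b _ hb
    rw [chi_neg hb, zero_mul]
  · intro h
    exact absurd (Finset.mem_univ _) h

end STA

open STA in
theorem blk_STA : Stmt_STA := by
  intro r hr
  have hr3 : (3 : ℝ) ≤ r := by exact_mod_cast hr
  refine ⟨11 * r + 70, by linarith only [], ?_⟩
  intro V _ G G' c H w T x lam xb e N β he0 he1 hN hW hmis hout hG' hmis' hx hFl hspec hβ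
  have := hx.nonempty
  have hxb := hFl.xb0
  have hNr : (1 : ℝ) ≤ N := by exact_mod_cast hN
  have hN0 : (0 : ℝ) < N := by linarith only [hNr]
  have hal := al_ge hr
  have hlamN : (N : ℝ) / 2 ≤ lam := by
    have h1 := (abs_le.mp hFl.lamN).1
    have h2 : 2 / 3 * (N : ℝ) ≤ al r * N := mul_le_mul_of_nonneg_right hal (by linarith only [])
    have h3 : e * (N : ℝ) ≤ 1 / 10 * N := mul_le_mul_of_nonneg_right he1 (by linarith only [])
    linarith only [h1, h2, h3]
  have hlam0 : 0 < lam := by linarith only [hN0, hlamN]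
  have hexb : e * xb ≤ xb / 10 := by
    have := mul_le_mul_of_nonneg_right he1 hxb.le
    linarith only [this]
  have x1 : ∀ v, x v ≤ 11 / 10 * xb := by
    intro v
    by_cases hv : v ∈ H
    · have := (abs_le.mp (hFl.xH v hv)).2
      linarith only [hexb, this]
    · have := hFl.xo v hv
      linarith only [hxb, hexb, this]
  have hwT : w ∉ T := fun h => hW.hw (hW.hT h)
  have hind : ∀ u ∈ H, ∀ v ∈ H, c u = c v → ¬ G.Adj u v := by
    intro u hu v hv huv h
    rcases hW.sub u v h with h1 | h1 | h1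
    · exact h1.2.2 huv
    · exact hW.hw (h1.1 ▸ hu)
    · exact hW.hw (h1.1 ▸ hv)
  have hxw10 : x w ≤ xb / 10 := (hFl.xo w hW.hw).trans hexb
  -- the vertex `w`
  have hTc : T.card = r := by
    rw [← sum_card_cl T c]
    simp [hW.hT1]
  have hxw : x w ≤ 11 / 5 * r * xb / N := by
    have h1 : lam * x w ≤ 11 / 10 * r * xb := by
      rw [← hx.eig w]
      have h2 : ∀ b, ad G w b * x b ≤ chi (b ∈ T) * (11 / 10 * xb) := by
        intro b
        by_cases hb : b ∈ T
        · rw [chi_pos hb, one_mul]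
          unfold ad
          rw [chi_pos (hW.hwT b hb), one_mul]
          exact x1 b
        · have h3 : ¬ G.Adj w b := by
            intro h
            rcases hW.sub w b h with h1 | h1 | h1
            · exact hW.hw h1.1
            · exact hb h1.2
            · exact hwT h1.2
          unfold ad
          rw [chi_neg h3, chi_neg hb, zero_mul, zero_mul]
      refine (Finset.sum_le_sum fun b _ => h2 b).trans ?_
      rw [← Finset.sum_mul]
      have h4 : ∑ b, chi (b ∈ T) = (T.card : ℝ) := by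
        classical
        rw [← Finset.sum_subset (Finset.subset_univ T)]
        · rw [Finset.card_eq_sum_ones, Nat.cast_sum]
          exact Finset.sum_congr rfl fun b hb => by rw [chi_pos hb, Nat.cast_one]
        · intro b _ hb
          exact chi_neg hb
      rw [h4, hTc]
      linarith only []
    rw [le_div_iff₀ hN0]
    have h5 : x w * (N / 2) ≤ x w * lam := mul_le_mul_of_nonneg_left hlamN (hx.nn w)
    linarith only [h1, h5]
  -- the sums over the classes
  have hβ' : ∀ i, ∑ b, chi (b ∈ H ∧ c b ≠ i) * x b = lam * β i := by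
    intro i
    rw [hβ, mul_div_cancel₀ _ hlam0.ne']
    classical
    rw [← Finset.sum_subset (Finset.subset_univ H)]
    · unfold cs cl
      rw [Finset.sum_filter, ← Finset.sum_sub_distrib]
      refine Finset.sum_congr rfl fun b hb => ?_
      by_cases h : c b = i
      · rw [if_pos h, chi_neg (fun h2 => h2.2 h)]
        ring
      · rw [if_neg h, chi_pos ⟨hb, h⟩]
        ring
    · intro b _ hb
      rw [chi_neg (fun h => hb h.1), zero_mul]
  have β0 : ∀ i, 0 ≤ β i := by
    intro i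
    have h1 : 0 ≤ lam * β i := by
      rw [← hβ']
      exact Finset.sum_nonneg fun b _ => mul_nonneg (chi_nonneg _) (hx.nn b)
    exact nonneg_of_mul_nonneg_right h1 hlam0
  have β1 : ∀ i, β i ≤ 11 / 5 * xb := by
    intro i
    have h1 : lam * β i ≤ 11 / 10 * xb * N := by
      rw [← hβ']
      have h2 : ∑ b, chi (b ∈ H ∧ c b ≠ i) * x b ≤ ∑ b, chi (b ∈ H) * (11 / 10 * xb) := by
        refine Finset.sum_le_sum fun b _ => ?_
        by_cases hb : b ∈ H
        · rw [chi_pos hb, one_mul]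
          exact (mul_le_of_le_one_left (hx.nn b) (chi_le_one _)).trans (x1 b)
        · rw [chi_neg hb, chi_neg (fun h => hb h.1), zero_mul, zero_mul]
      refine h2.trans ?_
      rw [← Finset.sum_mul]
      have h4 : ∑ b, chi (b ∈ H) = (H.card : ℝ) := by
        classical
        rw [← Finset.sum_subset (Finset.subset_univ H)]
        · rw [Finset.card_eq_sum_ones, Nat.cast_sum]
          exact Finset.sum_congr rfl fun b hb => by rw [chi_pos hb, Nat.cast_one]
        · intro b _ hb
          exact chi_neg hb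
      rw [h4, hW.card]
      linarith only []
    have h3 : N / 2 * β i ≤ lam * β i := mul_le_mul_of_nonneg_right hlamN (β0 i)
    have h4 : N * β i ≤ N * (11 / 5 * xb) := by linarith only [h1, h3]
    exact le_of_mul_le_mul_left h4 hN0
  -- the eigenvalue equation on `H`
  have hxH : ∀ v ∈ H, lam * x v = lam * β (c v) - ∑ b, chi (FM G H c v b) * x b +
      chi (v ∈ T) * x w := by
    intro v hv
    rw [← hx.eig v, ← hβ', ← sum_at w (chi (v ∈ T) * x w), ← Finset.sum_sub_distrib,
      ← Finset.sum_add_distrib]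
    refine Finset.sum_congr rfl fun b _ => ?_
    unfold ad
    by_cases hb : b ∈ H
    · have hbw : b ≠ w := fun h => hW.hw (h ▸ hb)
      rw [chi_neg hbw]
      by_cases h1 : c v = c b
      · rw [chi_neg (hind v hv b hb h1), chi_neg (fun h : b ∈ H ∧ c b ≠ c v => h.2 h1.symm),
          chi_neg (fun h : FM G H c v b => h.2.2.1 h1)]
        ring
      · by_cases h2 : G.Adj v b
        · rw [chi_pos h2, chi_pos (⟨hb, Ne.symm h1⟩ : b ∈ H ∧ c b ≠ c v),
            chi_neg (fun h : FM G H c v b => h.2.2.2 h2)]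
          ring
        · rw [chi_neg h2, chi_pos (⟨hb, Ne.symm h1⟩ : b ∈ H ∧ c b ≠ c v),
            chi_pos (show FM G H c v b from ⟨hv, hb, h1, h2⟩)]
          ring
    · rw [chi_neg (fun h : b ∈ H ∧ c b ≠ c v => hb h.1),
        chi_neg (fun h : FM G H c v b => hb h.2.1)]
      by_cases hbw : b = w
      · subst hbw
        rw [chi_pos rfl]
        have : G.Adj v b ↔ v ∈ T := by
          constructor
          · intro h
            rcases hW.sub v b h with h1 | h1 | h1
            · exact absurd h1.2.1 hb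
            · exact absurd (h1.1 ▸ hv) hW.hw
            · exact h1.2
          · intro h
            exact (hW.hwT v h).symm
        rw [chi_congr this]
        ring
      · rw [chi_neg hbw]
        have : ¬ G.Adj v b := by
          intro h
          rcases hW.sub v b h with h1 | h1 | h1
          · exact hb h1.2.1
          · exact hW.hw (h1.1 ▸ hv)
          · exact hbw h1.1
        rw [chi_neg this]
        ring
  -- the difference of the graphs
  have hdif : ∀ v b, ad G' v b = ad G v b + (chi (FM G H c v b) - chi (FM G' H c v b)) := by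
    intro v b
    unfold ad
    by_cases hv : v ∈ H
    · by_cases hb : b ∈ H
      · by_cases h1 : c v = c b
        · rw [chi_neg (hind v hv b hb h1), chi_neg (hG' v hv b hb h1),
            chi_neg (fun h : FM G H c v b => h.2.2.1 h1),
            chi_neg (fun h : FM G' H c v b => h.2.2.1 h1)]
          ring
        · have e1 : chi (FM G H c v b) = 1 - chi (G.Adj v b) := by
            by_cases h2 : G.Adj v b
            · rw [chi_pos h2, chi_neg (fun h : FM G H c v b => h.2.2.2 h2)]
              ring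
            · rw [chi_neg h2, chi_pos (show FM G H c v b from ⟨hv, hb, h1, h2⟩)]
              ring
          have e2 : chi (FM G' H c v b) = 1 - chi (G'.Adj v b) := by
            by_cases h2 : G'.Adj v b
            · rw [chi_pos h2, chi_neg (fun h : FM G' H c v b => h.2.2.2 h2)]
              ring
            · rw [chi_neg h2, chi_pos (show FM G' H c v b from ⟨hv, hb, h1, h2⟩)]
              ring
          rw [e1, e2]
          ring
      · rw [chi_congr (hout v b (Or.inr hb)), chi_neg (fun h : FM G H c v b => hb h.2.1),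
          chi_neg (fun h : FM G' H c v b => hb h.2.1)]
        ring
    · rw [chi_congr (hout v b (Or.inl hv)), chi_neg (fun h : FM G H c v b => hv h.1),
        chi_neg (fun h : FM G' H c v b => hv h.1)]
      ring
  have hray := ray G' x (fun v => ∑ b, (chi (FM G H c v b) - chi (FM G' H c v b)) * x b) lam
    hlam0 hspec (by
      intro v
      rw [← hx.eig v, ← Finset.sum_add_distrib]
      refine Finset.sum_congr rfl fun b _ => ?_
      rw [hdif]
      ring)
  have h := alg (f := fun a b => chi (FM G H c a b)) (f' := fun a b => chi (FM G' H c a b))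
    (H := H) (x := x) (β := fun v => β (c v)) (τ := fun v => chi (v ∈ T) * x w) (lam := lam)
    (S := (mis G H c : ℝ)) (xb := xb) (N := (N : ℝ)) (R := 11 / 5 * r) hlamN hNr
    (by exact_mod_cast hmis) hxb (by positivity) (fun _ _ => chi_nonneg _)
    (fun _ _ => chi_congr FM_comm) (fun a b ha => chi_neg fun h => ha h.1) (fS_eq G H c)
    (fun _ _ => chi_nonneg _) (fun _ _ => chi_le_one _) (fun _ _ => chi_congr FM_comm)
    (fun a b ha => chi_neg fun h => ha h.1) (by rw [fS_eq G' H c, hmis'])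
    hx.nn x1 (fun v => β0 _) (fun v => β1 _) (fun v => mul_nonneg (chi_nonneg _) (hx.nn w))
    (fun v => (mul_le_of_le_one_left (hx.nn w) (chi_le_one _)).trans hxw)
    (fun v => (mul_le_of_le_one_left (hx.nn w) (chi_le_one _)).trans hxw10) hxH hray
  have e9 : (5 * (11 / 5 * (r : ℝ)) + 70) * (mis G H c : ℝ) ^ 2 * xb ^ 2 / (N : ℝ) ^ 2 =
      (11 * r + 70) * (mis G H c : ℝ) ^ 2 * xb ^ 2 / (N : ℝ) ^ 2 := by ring
  rw [e9] at h
  exact h

end Pool.Agent.Work.MP_5532fa_up

end

section

/-!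
# MP_5532fa_co, upgrade, third round: block GAPF
-/

set_option autoImplicit false

open Finset

namespace Pool.Agent.Work.MP_5532fa_up

namespace GAPF

variable {V : Type} [Fintype V]

theorem sum_pt (f : V → V → ℝ) (a b : V) :
    ∑ c, ∑ d, chi (c = a ∧ d = b) * f c d = f a b := by
  classical
  rw [Finset.sum_eq_single a]
  · rw [Finset.sum_eq_single b]
    · rw [chi_pos ⟨rfl, rfl⟩, one_mul]
    · intro d _ hd
      rw [chi_neg (fun h => hd h.2), zero_mul]
    · intro h
      exact absurd (Finset.mem_univ _) h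
  · intro c _ hc
    refine Finset.sum_eq_zero fun d _ => ?_
    rw [chi_neg (fun h => hc h.1), zero_mul]
  · intro h
    exact absurd (Finset.mem_univ _) h

theorem sum_pt1 (a b : V) : ∑ c, ∑ d, chi (c = a ∧ d = b) = 1 := by
  have h := sum_pt (fun _ _ => (1 : ℝ)) a b
  simp only [mul_one] at h
  exact h

/-- degree -/
noncomputable def dd (F : V → V → Prop) (v : V) : ℝ := ∑ b, chi (F v b)

/-- ordered pairs in `F` disjoint from `(a, b)` -/
noncomputable def NN (F : V → V → Prop) (a b : V) : ℝ :=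
  ∑ c, ∑ d, chi (F c d ∧ c ≠ a ∧ c ≠ b ∧ d ≠ a ∧ d ≠ b)

theorem NN_nonneg (F : V → V → Prop) (a b : V) : 0 ≤ NN F a b :=
  Finset.sum_nonneg fun _ _ => Finset.sum_nonneg fun _ _ => chi_nonneg _

theorem NN_ge {F : V → V → Prop} (hs : ∀ a b, F a b → F b a) {a b c d : V} (h : F c d)
    (hcd : c ≠ d) (h1 : c ≠ a) (h2 : c ≠ b) (h3 : d ≠ a) (h4 : d ≠ b) : 2 ≤ NN F a b := by
  have e : (2 : ℝ) = ∑ c', ∑ d', (chi (c' = c ∧ d' = d) + chi (c' = d ∧ d' = c)) := by
    simp only [Finset.sum_add_distrib]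
    rw [sum_pt1, sum_pt1]
    norm_num
  rw [e]
  unfold NN
  refine Finset.sum_le_sum fun c' _ => Finset.sum_le_sum fun d' _ => ?_
  by_cases e1 : c' = c ∧ d' = d
  · obtain ⟨rfl, rfl⟩ := e1
    rw [chi_pos ⟨rfl, rfl⟩, chi_neg (fun h => hcd h.1), chi_pos ⟨h, h1, h2, h3, h4⟩, add_zero]
  · by_cases e2 : c' = d ∧ d' = c
    · obtain ⟨rfl, rfl⟩ := e2
      rw [chi_neg (fun h => hcd h.2), chi_pos ⟨rfl, rfl⟩, chi_pos ⟨hs _ _ h, h3, h4, h1, h2⟩,
        zero_add]
    · rw [chi_neg e1, chi_neg e2, add_zero]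
      exact chi_nonneg _

theorem sum_fst (F : V → V → Prop) (a : V) : ∑ c, ∑ d, chi (F c d) * chi (c = a) = dd F a := by
  rw [Finset.sum_eq_single a]
  · unfold dd
    refine Finset.sum_congr rfl fun d _ => ?_
    rw [chi_pos rfl, mul_one]
  · intro c _ hc
    refine Finset.sum_eq_zero fun d _ => ?_
    rw [chi_neg hc, mul_zero]
  · intro h
    exact absurd (Finset.mem_univ _) h

theorem sum_snd {F : V → V → Prop} (hs : ∀ a b, F a b → F b a) (a : V) :
    ∑ c, ∑ d, chi (F c d) * chi (d = a) = dd F a := by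
  rw [Finset.sum_comm, ← sum_fst F a]
  refine Finset.sum_congr rfl fun c _ => Finset.sum_congr rfl fun d _ => ?_
  rw [chi_congr (show F d c ↔ F c d from ⟨hs _ _, hs _ _⟩)]

theorem NN_eq {F : V → V → Prop} (hs : ∀ a b, F a b → F b a) (hi : ∀ a, ¬ F a a) {a b : V}
    (h : F a b) : NN F a b = (∑ c, ∑ d, chi (F c d)) + 2 - 2 * dd F a - 2 * dd F b := by
  have hab : a ≠ b := by
    rintro rfl
    exact hi a h
  have key : ∀ c d, chi (F c d) + chi (c = a ∧ d = b) + chi (c = b ∧ d = a) =
      chi (F c d ∧ c ≠ a ∧ c ≠ b ∧ d ≠ a ∧ d ≠ b) + chi (F c d) * chi (c = a) +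
        chi (F c d) * chi (c = b) + chi (F c d) * chi (d = a) + chi (F c d) * chi (d = b) := by
    intro c d
    by_cases hF : F c d
    · have hcd : c ≠ d := by
        rintro rfl
        exact hi c hF
      by_cases e1 : c = a
      · subst e1
        by_cases e2 : d = b
        · subst e2
          simp [chi, hF, hab, hab.symm]
        · simp [chi, hF, hab, e2, hcd.symm]
      · by_cases e2 : c = b
        · subst e2
          by_cases e3 : d = a
          · subst e3
            simp [chi, hF, hcd, hcd.symm]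
          · simp [chi, hF, e1, e3, hcd.symm]
        · by_cases e3 : d = a
          · subst e3
            simp [chi, hF, e1, e2, hab]
          · by_cases e4 : d = b
            · subst e4
              simp [chi, hF, e1, e2, e3]
            · simp [chi, hF, e1, e2, e3, e4]
    · have h1 : ¬ (c = a ∧ d = b) := by
        rintro ⟨rfl, rfl⟩
        exact hF h
      have h2 : ¬ (c = b ∧ d = a) := by
        rintro ⟨rfl, rfl⟩
        exact hF (hs _ _ h)
      rw [chi_neg hF, chi_neg h1, chi_neg h2, chi_neg (fun h => hF h.1)]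
      ring
  have hsum : ∑ c, ∑ d, (chi (F c d) + chi (c = a ∧ d = b) + chi (c = b ∧ d = a)) =
      ∑ c, ∑ d, (chi (F c d ∧ c ≠ a ∧ c ≠ b ∧ d ≠ a ∧ d ≠ b) + chi (F c d) * chi (c = a) +
        chi (F c d) * chi (c = b) + chi (F c d) * chi (d = a) + chi (F c d) * chi (d = b)) :=
    Finset.sum_congr rfl fun c _ => Finset.sum_congr rfl fun d _ => key c d
  simp only [Finset.sum_add_distrib] at hsum
  rw [sum_pt1, sum_pt1, sum_fst, sum_fst, sum_snd hs, sum_snd hs] at hsum
  unfold NN
  linarith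

theorem sum_NN {F : V → V → Prop} (hs : ∀ a b, F a b → F b a) (hi : ∀ a, ¬ F a a) :
    ∑ a, ∑ b, chi (F a b) * NN F a b = (∑ c, ∑ d, chi (F c d)) ^ 2 +
      2 * (∑ c, ∑ d, chi (F c d)) - 4 * ∑ v, dd F v ^ 2 := by
  obtain ⟨s, hS⟩ : ∃ s : ℝ, s = ∑ c, ∑ d, chi (F c d) := ⟨_, rfl⟩
  have h1 : ∀ a b, chi (F a b) * NN F a b =
      chi (F a b) * (s + 2) - 2 * (chi (F a b) * dd F a) - 2 * (chi (F a b) * dd F b) := by
    intro a b
    by_cases h : F a b
    · rw [NN_eq hs hi h, ← hS]
      ring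
    · rw [chi_neg h]
      ring
  have h2 : ∑ a, ∑ b, chi (F a b) * dd F a = ∑ v, dd F v ^ 2 := by
    refine Finset.sum_congr rfl fun a _ => ?_
    rw [← Finset.sum_mul]
    unfold dd
    ring
  have h2' : ∑ a, (∑ b, chi (F a b)) * dd F a = ∑ v, dd F v ^ 2 := by
    refine Finset.sum_congr rfl fun a _ => ?_
    unfold dd
    ring
  have h3 : ∑ a, ∑ b, chi (F a b) * dd F b = ∑ v, dd F v ^ 2 := by
    rw [Finset.sum_comm, ← h2]
    refine Finset.sum_congr rfl fun c _ => Finset.sum_congr rfl fun d _ => ?_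
    rw [chi_congr (show F d c ↔ F c d from ⟨hs _ _, hs _ _⟩)]
  simp only [h1, Finset.sum_sub_distrib, ← Finset.mul_sum, ← Finset.sum_mul]
  rw [h2', h3, ← hS]
  ring

/-- the number of ordered pairs of different elements of a set with four elements -/
theorem sum_Q (p q s t : V) (hpq : p ≠ q) (hps : p ≠ s) (hpt : p ≠ t) (hqs : q ≠ s)
    (hqt : q ≠ t) (hst : s ≠ t) : ∑ a, ∑ b, chi ((a = p ∨ a = q ∨ a = s ∨ a = t) ∧
      (b = p ∨ b = q ∨ b = s ∨ b = t) ∧ a ≠ b) = 12 := by
  classical
  have h1 : ∑ a, ∑ b, chi ((a = p ∨ a = q ∨ a = s ∨ a = t) ∧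
      (b = p ∨ b = q ∨ b = s ∨ b = t) ∧ a ≠ b) =
      ((({p, q, s, t} : Finset V).offDiag).card : ℝ) := by
    rw [← Finset.sum_product', Finset.univ_product_univ, Finset.card_eq_sum_ones,
      Nat.cast_sum]
    simp only [Nat.cast_one]
    rw [← Finset.sum_filter_add_sum_filter_not univ (fun e : V × V => e ∈
      ({p, q, s, t} : Finset V).offDiag)]
    have h2 : ∑ e ∈ univ.filter (fun e : V × V => ¬ e ∈ ({p, q, s, t} : Finset V).offDiag),
        chi ((e.1 = p ∨ e.1 = q ∨ e.1 = s ∨ e.1 = t) ∧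
      (e.2 = p ∨ e.2 = q ∨ e.2 = s ∨ e.2 = t) ∧ e.1 ≠ e.2) = 0 := by
      refine Finset.sum_eq_zero fun e he => ?_
      rw [Finset.mem_filter] at he
      refine chi_neg fun h => he.2 ?_
      rw [Finset.mem_offDiag]
      simp only [Finset.mem_insert, Finset.mem_singleton]
      exact h
    rw [h2, add_zero]
    have h3 : univ.filter (fun e : V × V => e ∈ ({p, q, s, t} : Finset V).offDiag) =
        ({p, q, s, t} : Finset V).offDiag := by
      ext e
      simp
    rw [h3]
    refine Finset.sum_congr rfl fun e he => ?_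
    rw [Finset.mem_offDiag] at he
    simp only [Finset.mem_insert, Finset.mem_singleton] at he
    exact chi_pos he
  have h4 : ({p, q, s, t} : Finset V).card = 4 := by
    rw [Finset.card_insert_of_notMem, Finset.card_insert_of_notMem,
      Finset.card_insert_of_notMem, Finset.card_singleton]
    · simp [hst]
    · simp [hqs, hqt]
    · simp [hpq, hps, hpt]
  rw [h1, Finset.offDiag_card, h4]
  norm_num

omit [Fintype V] in
theorem four (p q s t a b : V) (hpq : p ≠ q) (hps : p ≠ s) (hpt : p ≠ t) (hqs : q ≠ s)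
    (hqt : q ≠ t) (hst : s ≠ t) : chi (a = p ∧ b = q) + chi (a = q ∧ b = p) +
      chi (a = s ∧ b = t) + chi (a = t ∧ b = s) ≤ 1 := by
  by_cases e2 : a = p
  · subst e2
    rw [chi_neg (fun h : a = q ∧ b = a => hpq h.1), chi_neg (fun h : a = s ∧ b = t => hps h.1),
      chi_neg (fun h : a = t ∧ b = s => hpt h.1)]
    have := chi_le_one (a = a ∧ b = q)
    linarith
  · by_cases e3 : a = q
    · subst e3
      rw [chi_neg (fun h : a = p ∧ b = a => e2 h.1), chi_neg (fun h : a = s ∧ b = t => hqs h.1),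
        chi_neg (fun h : a = t ∧ b = s => hqt h.1)]
      have := chi_le_one (a = a ∧ b = p)
      linarith
    · by_cases e4 : a = s
      · subst e4
        rw [chi_neg (fun h : a = p ∧ b = q => e2 h.1), chi_neg (fun h : a = q ∧ b = p => e3 h.1),
          chi_neg (fun h : a = t ∧ b = a => hst h.1)]
        have := chi_le_one (a = a ∧ b = t)
        linarith
      · rw [chi_neg (fun h : a = p ∧ b = q => e2 h.1), chi_neg (fun h : a = q ∧ b = p => e3 h.1),
          chi_neg (fun h : a = s ∧ b = t => e4 h.1)]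
        have := chi_le_one (a = t ∧ b = s)
        linarith

/-- two disjoint edges -/
theorem two {F : V → V → Prop} (hs : ∀ a b, F a b → F b a) (hi : ∀ a, ¬ F a a) {p q s t : V}
    (h1 : F p q) (h2 : F s t) (hps : p ≠ s) (hpt : p ≠ t) (hqs : q ≠ s) (hqt : q ≠ t) :
    12 * ∑ v, dd F v ^ 2 ≤ 3 * (∑ c, ∑ d, chi (F c d)) ^ 2 + 4 * ∑ c, ∑ d, chi (F c d) := by
  have hpq : p ≠ q := by
    rintro rfl
    exact hi _ h1
  have hst : s ≠ t := by
    rintro rfl
    exact hi _ h2
  obtain ⟨S, hS⟩ : ∃ s : ℝ, s = ∑ c, ∑ d, chi (F c d) := ⟨_, rfl⟩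
  have hQ := sum_Q p q s t hpq hps hpt hqs hqt hst
  have hsum := sum_NN hs hi
  rw [← hS] at hsum ⊢
  have hN1 : 2 ≤ NN F p q := NN_ge hs h2 hst hps.symm hqs.symm hpt.symm hqt.symm
  have hN2 : 2 ≤ NN F s t := NN_ge hs h1 hpq hps hpt hqs hqt
  have hN1' : NN F q p = NN F p q := by
    rw [NN_eq hs hi h1, NN_eq hs hi (hs _ _ h1)]
    ring
  have hN2' : NN F t s = NN F s t := by
    rw [NN_eq hs hi h2, NN_eq hs hi (hs _ _ h2)]
    ring
  -- degrees of the four vertices
  have hdeg : 2 * (dd F p + dd F q + dd F s + dd F t) ≤ S + 12 := by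
    have e : 2 * (dd F p + dd F q + dd F s + dd F t) = ∑ a, ∑ b,
        (chi (F a b) * chi (a = p) + chi (F a b) * chi (a = q) + chi (F a b) * chi (a = s) +
          chi (F a b) * chi (a = t) + chi (F a b) * chi (b = p) + chi (F a b) * chi (b = q) +
          chi (F a b) * chi (b = s) + chi (F a b) * chi (b = t)) := by
      simp only [Finset.sum_add_distrib]
      rw [sum_fst, sum_fst, sum_fst, sum_fst, sum_snd hs, sum_snd hs, sum_snd hs, sum_snd hs]
      ring
    have e' : S + 12 = ∑ a, ∑ b, (chi (F a b) + chi ((a = p ∨ a = q ∨ a = s ∨ a = t) ∧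
      (b = p ∨ b = q ∨ b = s ∨ b = t) ∧ a ≠ b)) := by
      simp only [Finset.sum_add_distrib]
      rw [hQ, hS]
    rw [e, e']
    refine Finset.sum_le_sum fun a _ => Finset.sum_le_sum fun b _ => ?_
    have one : ∀ a : V, chi (a = p) + chi (a = q) + chi (a = s) + chi (a = t) =
        chi (a = p ∨ a = q ∨ a = s ∨ a = t) := by
      intro a
      by_cases e1 : a = p
      · subst e1; simp [chi, hpq, hps, hpt]
      · by_cases e2 : a = q
        · subst e2; simp [chi, hpq.symm, hqs, hqt]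
        · by_cases e3 : a = s
          · subst e3; simp [chi, hps.symm, hqs.symm, hst]
          · by_cases e4 : a = t
            · subst e4; simp [chi, hpt.symm, hqt.symm, hst.symm]
            · simp [chi, e1, e2, e3, e4]
    have h3 : chi (F a b) * chi (a = p) + chi (F a b) * chi (a = q) + chi (F a b) * chi (a = s) +
          chi (F a b) * chi (a = t) + chi (F a b) * chi (b = p) + chi (F a b) * chi (b = q) +
          chi (F a b) * chi (b = s) + chi (F a b) * chi (b = t) = chi (F a b) *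
        (chi (a = p ∨ a = q ∨ a = s ∨ a = t) + chi (b = p ∨ b = q ∨ b = s ∨ b = t)) := by
      rw [← one a, ← one b]
      ring
    rw [h3]
    by_cases hF : F a b
    · have hab : a ≠ b := by
        rintro rfl
        exact hi _ hF
      by_cases e1 : (a = p ∨ a = q ∨ a = s ∨ a = t)
      · by_cases e2 : (b = p ∨ b = q ∨ b = s ∨ b = t)
        · rw [chi_pos hF, chi_pos e1, chi_pos e2, chi_pos ⟨e1, e2, hab⟩]
          norm_num
        · rw [chi_pos hF, chi_pos e1, chi_neg e2, chi_neg (fun h => e2 h.2.1)]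
          norm_num
      · rw [chi_pos hF, chi_neg e1, chi_neg (fun h : (a = p ∨ a = q ∨ a = s ∨ a = t) ∧
          (b = p ∨ b = q ∨ b = s ∨ b = t) ∧ a ≠ b => e1 h.1)]
        have := chi_le_one (b = p ∨ b = q ∨ b = s ∨ b = t)
        linarith
    · rw [chi_neg hF]
      have := chi_nonneg ((a = p ∨ a = q ∨ a = s ∨ a = t) ∧
        (b = p ∨ b = q ∨ b = s ∨ b = t) ∧ a ≠ b)
      linarith
  -- lower bound
  have hlow : 2 * S - 24 + (2 * NN F p q + 2 * NN F s t) ≤ ∑ a, ∑ b, chi (F a b) * NN F a b := by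
    have e : 2 * S - 24 + (2 * NN F p q + 2 * NN F s t) = ∑ a, ∑ b,
        (2 * chi (F a b) - 2 * chi ((a = p ∨ a = q ∨ a = s ∨ a = t) ∧
          (b = p ∨ b = q ∨ b = s ∨ b = t) ∧ a ≠ b) +
          (chi (a = p ∧ b = q) * NN F a b + chi (a = q ∧ b = p) * NN F a b +
            chi (a = s ∧ b = t) * NN F a b + chi (a = t ∧ b = s) * NN F a b)) := by
      simp only [Finset.sum_add_distrib, Finset.sum_sub_distrib, ← Finset.mul_sum]
      rw [sum_pt, sum_pt, sum_pt, sum_pt, hQ, hN1', hN2', ← hS]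
      ring
    rw [e]
    refine Finset.sum_le_sum fun a _ => Finset.sum_le_sum fun b _ => ?_
    have hnn := NN_nonneg F a b
    by_cases hF : F a b
    · have hab : a ≠ b := by
        rintro rfl
        exact hi _ hF
      by_cases e1 : (a = p ∨ a = q ∨ a = s ∨ a = t) ∧ (b = p ∨ b = q ∨ b = s ∨ b = t)
      · rw [chi_pos hF, chi_pos ⟨e1.1, e1.2, hab⟩]
        have h5 : chi (a = p ∧ b = q) + chi (a = q ∧ b = p) + chi (a = s ∧ b = t) +
            chi (a = t ∧ b = s) ≤ 1 := by
          exact four p q s t a b hpq hps hpt hqs hqt hst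
        nlinarith
      · have e2 : ¬ ((a = p ∨ a = q ∨ a = s ∨ a = t) ∧
          (b = p ∨ b = q ∨ b = s ∨ b = t) ∧ a ≠ b) := fun h => e1 ⟨h.1, h.2.1⟩
        rw [chi_pos hF, chi_neg e2, chi_neg (fun h : a = p ∧ b = q => e1 ⟨Or.inl h.1,
          Or.inr (Or.inl h.2)⟩), chi_neg (fun h : a = q ∧ b = p => e1 ⟨Or.inr (Or.inl h.1),
          Or.inl h.2⟩), chi_neg (fun h : a = s ∧ b = t => e1 ⟨Or.inr (Or.inr (Or.inl h.1)),
          Or.inr (Or.inr (Or.inr h.2))⟩), chi_neg (fun h : a = t ∧ b = s =>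
          e1 ⟨Or.inr (Or.inr (Or.inr h.1)), Or.inr (Or.inr (Or.inl h.2))⟩)]
        have h6 : 2 ≤ NN F a b := by
          by_cases e3 : p = a ∨ p = b ∨ q = a ∨ q = b
          · apply NN_ge hs h2 hst
            · rintro rfl
              exact e1 ⟨by tauto, by
                rcases e3 with e | e | e | e
                · exact absurd e hps
                · exact Or.inl e.symm
                · exact absurd e hqs
                · exact Or.inr (Or.inl e.symm)⟩
            · rintro rfl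
              exact e1 ⟨by
                rcases e3 with e | e | e | e
                · exact Or.inl e.symm
                · exact absurd e hps
                · exact Or.inr (Or.inl e.symm)
                · exact absurd e hqs, by tauto⟩
            · rintro rfl
              exact e1 ⟨by tauto, by
                rcases e3 with e | e | e | e
                · exact absurd e hpt
                · exact Or.inl e.symm
                · exact absurd e hqt
                · exact Or.inr (Or.inl e.symm)⟩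
            · rintro rfl
              exact e1 ⟨by
                rcases e3 with e | e | e | e
                · exact Or.inl e.symm
                · exact absurd e hpt
                · exact Or.inr (Or.inl e.symm)
                · exact absurd e hqt, by tauto⟩
          · exact NN_ge hs h1 hpq (fun h => e3 (Or.inl h)) (fun h => e3 (Or.inr (Or.inl h)))
              (fun h => e3 (Or.inr (Or.inr (Or.inl h))))
              (fun h => e3 (Or.inr (Or.inr (Or.inr h))))
        linarith
    · have h3 : ¬ (a = p ∧ b = q) := by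
        rintro ⟨rfl, rfl⟩
        exact hF h1
      have h4 : ¬ (a = q ∧ b = p) := by
        rintro ⟨rfl, rfl⟩
        exact hF (hs _ _ h1)
      have h5 : ¬ (a = s ∧ b = t) := by
        rintro ⟨rfl, rfl⟩
        exact hF h2
      have h6 : ¬ (a = t ∧ b = s) := by
        rintro ⟨rfl, rfl⟩
        exact hF (hs _ _ h2)
      rw [chi_neg hF, chi_neg h3, chi_neg h4, chi_neg h5, chi_neg h6]
      have := chi_nonneg ((a = p ∨ a = q ∨ a = s ∨ a = t) ∧
        (b = p ∨ b = q ∨ b = s ∨ b = t) ∧ a ≠ b)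
      linarith
  have hNN : NN F p q + NN F s t = 2 * S + 4 - 2 * (dd F p + dd F q + dd F s + dd F t) := by
    rw [NN_eq hs hi h1, NN_eq hs hi h2, ← hS]
    ring
  have hlow2 : 2 * NN F p q + 2 * NN F s t ≤ ∑ a, ∑ b, chi (F a b) * NN F a b := by
    have e : 2 * NN F p q + 2 * NN F s t = ∑ a, ∑ b,
          (chi (a = p ∧ b = q) * NN F a b + chi (a = q ∧ b = p) * NN F a b +
            chi (a = s ∧ b = t) * NN F a b + chi (a = t ∧ b = s) * NN F a b) := by
      simp only [Finset.sum_add_distrib]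
      rw [sum_pt, sum_pt, sum_pt, sum_pt, hN1', hN2']
      ring
    rw [e]
    refine Finset.sum_le_sum fun a _ => Finset.sum_le_sum fun b _ => ?_
    have hnn := NN_nonneg F a b
    have h5 : chi (a = p ∧ b = q) + chi (a = q ∧ b = p) + chi (a = s ∧ b = t) +
        chi (a = t ∧ b = s) ≤ chi (F a b) := by
      by_cases hF : F a b
      · rw [chi_pos hF]
        exact four p q s t a b hpq hps hpt hqs hqt hst
      · have h3 : ¬ (a = p ∧ b = q) := by
          rintro ⟨rfl, rfl⟩
          exact hF h1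
        have h4 : ¬ (a = q ∧ b = p) := by
          rintro ⟨rfl, rfl⟩
          exact hF (hs _ _ h1)
        have h5 : ¬ (a = s ∧ b = t) := by
          rintro ⟨rfl, rfl⟩
          exact hF h2
        have h6 : ¬ (a = t ∧ b = s) := by
          rintro ⟨rfl, rfl⟩
          exact hF (hs _ _ h2)
        rw [chi_neg hF, chi_neg h3, chi_neg h4, chi_neg h5, chi_neg h6]
        norm_num
    have := mul_le_mul_of_nonneg_right h5 hnn
    linarith
  rcases le_total S 12 with h12 | h12
  · linarith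
  · linarith

end GAPF

open GAPF in
theorem blk_GAPF : Stmt_GAPF := by
  intro V _ _ F hs hi
  by_cases hd : ∃ p q s t, F p q ∧ F s t ∧ p ≠ s ∧ p ≠ t ∧ q ≠ s ∧ q ≠ t
  · obtain ⟨p, q, s, t, h1, h2, h3, h4, h5, h6⟩ := hd
    exact Or.inr (Or.inl (two hs hi h1 h2 h3 h4 h5 h6))
  · have hmeet : ∀ p q s t, F p q → F s t → p = s ∨ p = t ∨ q = s ∨ q = t := by
      intro p q s t h1 h2
      by_contra h3
      push Not at h3
      exact hd ⟨p, q, s, t, h1, h2, h3.1, h3.2.1, h3.2.2.1, h3.2.2.2⟩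
    by_cases hstar : ∃ p, ∀ a b, F a b → a = p ∨ b = p
    · exact Or.inl hstar
    · right; right
      push Not at hstar
      -- an edge
      obtain ⟨p, q, hpq, -⟩ := hstar (Classical.arbitrary V)
      have hne : p ≠ q := by
        rintro rfl
        exact hi _ hpq
      -- an edge without `p`
      obtain ⟨a, b, hab, ha, hb⟩ := hstar p
      obtain ⟨t, hqt, htp⟩ : ∃ t, F q t ∧ t ≠ p := by
        rcases hmeet p q a b hpq hab with h | h | h | h
        · exact absurd h.symm ha
        · exact absurd h.symm hb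
        · subst h
          exact ⟨b, hab, hb⟩
        · subst h
          exact ⟨a, hs _ _ hab, ha⟩
      have hqt' : q ≠ t := by
        rintro rfl
        exact hi _ hqt
      -- an edge without `q`
      obtain ⟨a', b', hab', ha', hb'⟩ := hstar q
      have hpt : F p t := by
        rcases hmeet p q a' b' hpq hab' with h | h | h | h
        · subst h
          rcases hmeet q t p b' hqt hab' with h | h | h | h
          · exact absurd h.symm hne
          · exact absurd h.symm hb'
          · exact absurd h htp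
          · subst h
            exact hab'
        · subst h
          rcases hmeet q t a' p hqt hab' with h | h | h | h
          · exact absurd h.symm ha'
          · exact absurd h.symm hne
          · subst h
            exact hs _ _ hab'
          · exact absurd h htp
        · exact absurd h.symm ha'
        · exact absurd h.symm hb'
      refine ⟨p, q, t, hne, htp.symm, hqt', fun x y => ?_⟩
      constructor
      · intro hxy
        refine ⟨by rintro rfl; exact hi _ hxy, ?_, ?_⟩
        · rcases hmeet p q x y hpq hxy with h | h | h | h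
          · exact Or.inl h.symm
          · subst h
            rcases hmeet q t x p hqt hxy with h | h | h | h
            · exact Or.inr (Or.inl h.symm)
            · exact absurd h.symm hne
            · exact Or.inr (Or.inr h.symm)
            · exact absurd h htp
          · exact Or.inr (Or.inl h.symm)
          · subst h
            rcases hmeet p t x q hpt hxy with h | h | h | h
            · exact Or.inl h.symm
            · exact absurd h hne
            · exact Or.inr (Or.inr h.symm)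
            · exact absurd h.symm hqt'
        · rcases hmeet p q x y hpq hxy with h | h | h | h
          · subst h
            rcases hmeet q t p y hqt hxy with h | h | h | h
            · exact absurd h.symm hne
            · exact Or.inr (Or.inl h.symm)
            · exact absurd h htp
            · exact Or.inr (Or.inr h.symm)
          · exact Or.inl h.symm
          · subst h
            rcases hmeet p t q y hpt hxy with h | h | h | h
            · exact absurd h hne
            · exact Or.inl h.symm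
            · exact absurd h.symm hqt'
            · exact Or.inr (Or.inr h.symm)
          · exact Or.inr (Or.inl h.symm)
      · rintro ⟨hxy, h1, h2⟩
        rcases h1 with rfl | rfl | rfl <;> rcases h2 with rfl | rfl | rfl
        · exact absurd rfl hxy
        · exact hpq
        · exact hpt
        · exact hs _ _ hpq
        · exact absurd rfl hxy
        · exact hqt
        · exact hs _ _ hpt
        · exact hs _ _ hqt
        · exact absurd rfl hxy

end Pool.Agent.Work.MP_5532fa_up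

end

section

/-!
# MP_5532fa_co, upgrade: block STC (weighted sums of squares of degrees)
-/

open Finset

namespace Pool.Agent.Work.MP_5532fa_up

namespace STC

/-- the excess of a pair is nonnegative, and its first two consequences -/
theorem pair {β1 β2 x y e : ℝ} (_he0 : 0 ≤ e) (h12 : β1 ≤ β2) (h1 : 1 - e ≤ β1)
    (hx : x ≤ 1 + e) (hy : y ≤ 1 + e) (_he : e ≤ 1 / 10)
    (h : (x = β1 ∧ β2 ≤ y) ∨ (y = β1 ∧ β2 ≤ x) ∨ (β2 ≤ x ∧ β2 ≤ y)) :
    0 ≤ x + y - β1 - β2 ∧ (1 - e) * (x + y - β1 - β2) ≤ x * y - β1 * β2 ∧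
      x ^ 2 + y ^ 2 ≤ β1 ^ 2 + β2 ^ 2 + 2 * (1 + e) * (x + y - β1 - β2) ∧
      β1 ≤ x ∧ β1 ≤ y := by
  rcases h with ⟨rfl, h⟩ | ⟨rfl, h⟩ | ⟨h3, h4⟩
  · have a1 : 0 ≤ (y - β2) * (x - (1 - e)) := mul_nonneg (by linarith) (by linarith)
    have a2 : 0 ≤ (y - β2) * (2 * (1 + e) - (y + β2)) := mul_nonneg (by linarith) (by linarith)
    refine ⟨by linarith, by linarith, by linarith, le_rfl, by linarith⟩
  · have a1 : 0 ≤ (x - β2) * (y - (1 - e)) := mul_nonneg (by linarith) (by linarith)
    have a2 : 0 ≤ (x - β2) * (2 * (1 + e) - (x + β2)) := mul_nonneg (by linarith) (by linarith)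
    refine ⟨by linarith, by linarith, by linarith, by linarith, le_rfl⟩
  · have a1 : 0 ≤ (y - β2) * (x - (1 - e)) := mul_nonneg (by linarith) (by linarith)
    have a3 : 0 ≤ (x - β1) * (β2 - (1 - e)) := mul_nonneg (by linarith) (by linarith)
    have a2 : 0 ≤ (y - β2) * (2 * (1 + e) - (y + β2)) := mul_nonneg (by linarith) (by linarith)
    have a4 : 0 ≤ (x - β1) * (2 * (1 + e) - (x + β1)) := mul_nonneg (by linarith) (by linarith)
    refine ⟨by linarith, by linarith, by linarith, by linarith, by linarith⟩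

/-- product of two weights -/
theorem prod {β2 x y ex ey : ℝ} (h2 : β2 ≤ 11 / 10) (_h20 : 0 ≤ β2) (hx0 : 0 ≤ x) (hy0 : 0 ≤ y)
    (hx : x ≤ β2 + ex) (hy : y ≤ β2 + ey) (hex : ex ≤ 2 / 5) (hey : ey ≤ 2 / 5) (hex0 : 0 ≤ ex)
    (hey0 : 0 ≤ ey) : x * y ≤ β2 ^ 2 + 3 / 2 * (ex + ey) := by
  have a1 : x * y ≤ (β2 + ex) * (β2 + ey) := mul_le_mul hx hy hy0 (by linarith)
  have a2 : ex * ey ≤ 2 / 5 * ey := mul_le_mul_of_nonneg_right hex hey0
  have a3 : ex * ey ≤ ex * (2 / 5) := mul_le_mul_of_nonneg_left hey hex0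
  have a4 : β2 * (ex + ey) ≤ 11 / 10 * (ex + ey) := mul_le_mul_of_nonneg_right h2 (by linarith)
  have e1 : (β2 + ex) * (β2 + ey) = β2 ^ 2 + β2 * (ex + ey) + ex * ey := by ring
  rw [e1] at a1
  linarith

/-- one vertex -/
theorem vert {V : Type} [Fintype V] (f y x : V → ℝ) (β2 : ℝ) (hf : ∀ b, f b = 0 ∨ f b = 1)
    (h : ∀ b b', f b = 1 → f b' = 1 → y b * y b' ≤ β2 ^ 2 + 3 / 2 * (x b + x b')) :
    (∑ b, f b * y b) ^ 2 ≤ (∑ b, f b) ^ 2 * β2 ^ 2 + 3 * ((∑ b, f b) - 1) * ∑ b, f b * x b
      + ∑ b, f b * y b ^ 2 - (∑ b, f b) * β2 ^ 2 := by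
  have hg : ∀ b b', 0 ≤ f b * f b' * (β2 ^ 2 + 3 / 2 * (x b + x b') - y b * y b') := by
    intro b b'
    rcases hf b with h1 | h1
    · rw [h1]; simp
    · rcases hf b' with h2 | h2
      · rw [h2]; simp
      · rw [h1, h2]
        have := h b b' h1 h2
        linarith
  have hsq : ∀ b, f b * f b = f b := by
    intro b
    rcases hf b with h1 | h1 <;> rw [h1] <;> norm_num
  have h1 : ∑ b, f b * f b * (β2 ^ 2 + 3 / 2 * (x b + x b) - y b * y b) ≤
      ∑ b, ∑ b', f b * f b' * (β2 ^ 2 + 3 / 2 * (x b + x b') - y b * y b') :=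
    Finset.sum_le_sum fun b _ => Finset.single_le_sum
      (f := fun b' => f b * f b' * (β2 ^ 2 + 3 / 2 * (x b + x b') - y b * y b'))
      (fun b' _ => hg b b') (Finset.mem_univ b)
  have e1 : ∑ b, f b * f b * (β2 ^ 2 + 3 / 2 * (x b + x b) - y b * y b) =
      (∑ b, f b) * β2 ^ 2 + 3 * (∑ b, f b * x b) - ∑ b, f b * y b ^ 2 := by
    rw [Finset.sum_mul, Finset.mul_sum, ← Finset.sum_add_distrib, ← Finset.sum_sub_distrib]
    refine Finset.sum_congr rfl fun b _ => ?_
    rw [hsq]
    ring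
  have e2 : ∑ b, ∑ b', f b * f b' * (β2 ^ 2 + 3 / 2 * (x b + x b') - y b * y b') =
      (∑ b, f b) ^ 2 * β2 ^ 2 + 3 * (∑ b, f b) * (∑ b, f b * x b) - (∑ b, f b * y b) ^ 2 := by
    have e3 : ∀ b, ∑ b', f b * f b' * (β2 ^ 2 + 3 / 2 * (x b + x b') - y b * y b') =
        f b * (∑ b', f b') * β2 ^ 2 + 3 / 2 * (f b * x b) * (∑ b', f b') +
          3 / 2 * f b * (∑ b', f b' * x b') - f b * y b * (∑ b', f b' * y b') := by
      intro b
      simp only [Finset.mul_sum, Finset.sum_mul]
      rw [← Finset.sum_add_distrib, ← Finset.sum_add_distrib, ← Finset.sum_sub_distrib]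
      exact Finset.sum_congr rfl fun b' _ => by ring
    simp only [e3]
    rw [Finset.sum_sub_distrib, Finset.sum_add_distrib, Finset.sum_add_distrib]
    simp only [← Finset.sum_mul, ← Finset.mul_sum]
    ring
  rw [e1, e2] at h1
  linarith

end STC

open STC in
theorem blk_STC : Stmt_STC := by
  classical
  intro r V _ F c β i1 i2 e s E he0 he hsym hcF hβ h12 hβ12 hβi hs hE
  have hb1 := abs_le.mp (hβ i1)
  have hb2 := abs_le.mp (hβ i2)
  -- a pair
  have hp : ∀ a b, F a b → (β (c a) = β i1 ∧ β i2 ≤ β (c b)) ∨ (β (c b) = β i1 ∧ β i2 ≤ β (c a)) ∨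
      (β i2 ≤ β (c a) ∧ β i2 ≤ β (c b)) := by
    intro a b hab
    have hne := hcF a b hab
    by_cases ha : c a = i1
    · exact Or.inl ⟨by rw [ha], hβi _ fun h => hne (ha.trans h.symm)⟩
    · by_cases hb : c b = i1
      · exact Or.inr (Or.inl ⟨by rw [hb], hβi _ ha⟩)
      · exact Or.inr (Or.inr ⟨hβi _ ha, hβi _ hb⟩)
  have key : ∀ a b, F a b → 0 ≤ β (c a) + β (c b) - β i1 - β i2 ∧
      (1 - e) * (β (c a) + β (c b) - β i1 - β i2) ≤ β (c a) * β (c b) - β i1 * β i2 ∧
      β (c a) ^ 2 + β (c b) ^ 2 ≤ β i1 ^ 2 + β i2 ^ 2 +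
        2 * (1 + e) * (β (c a) + β (c b) - β i1 - β i2) ∧ β i1 ≤ β (c a) ∧ β i1 ≤ β (c b) := by
    intro a b hab
    have ha := abs_le.mp (hβ (c a))
    have hb := abs_le.mp (hβ (c b))
    exact pair he0 hβ12 (by linarith) (by linarith) (by linarith) he (hp a b hab)
  have chi01 : ∀ p : Prop, chi p = 0 ∨ chi p = 1 := by
    intro p
    by_cases h : p
    · right; exact chi_pos h
    · left; exact chi_neg h
  have hE0 : 0 ≤ E := by
    rw [hE]
    refine Finset.sum_nonneg fun a _ => Finset.sum_nonneg fun b _ => ?_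
    by_cases hab : F a b
    · rw [chi_pos hab, one_mul]; exact (key a b hab).1
    · rw [chi_neg hab, zero_mul]
  have hs0 : 0 ≤ s := by
    rw [hs]
    exact Finset.sum_nonneg fun a _ => Finset.sum_nonneg fun b _ => chi_nonneg _
  refine ⟨hE0, ?_, ?_⟩
  · -- products
    rw [hE, hs, Finset.sum_mul, Finset.mul_sum, ← Finset.sum_add_distrib]
    refine Finset.sum_le_sum fun a _ => ?_
    rw [Finset.sum_mul, Finset.mul_sum, ← Finset.sum_add_distrib]
    refine Finset.sum_le_sum fun b _ => ?_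
    by_cases hab : F a b
    · rw [chi_pos hab, one_mul, one_mul, one_mul]
      have := (key a b hab).2.1
      linarith
    · rw [chi_neg hab]; simp
  · -- squares
    have hdeg : ∀ v, ∑ b, chi (F v b) ≤ s / 2 := by
      intro v
      have h1 : ∑ a, ∑ b, (chi (a = v) * chi (F v b) + chi (b = v) * chi (F a v)) ≤
          ∑ a, ∑ b, chi (F a b) := by
        refine Finset.sum_le_sum fun a _ => Finset.sum_le_sum fun b _ => ?_
        by_cases hav : a = v
        · subst hav
          by_cases hba : b = a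
          · subst hba
            have : ¬ F b b := fun h => hcF b b h rfl
            rw [chi_neg this]
            simp
          · rw [chi_neg hba, chi_pos rfl]
            simp
        · rw [chi_neg hav]
          by_cases hbv : b = v
          · subst hbv
            rw [chi_pos rfl]
            simp
          · rw [chi_neg hbv]
            simp only [zero_mul, add_zero]
            exact chi_nonneg _
      have h2 : ∑ a, ∑ b, (chi (a = v) * chi (F v b) + chi (b = v) * chi (F a v)) =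
          2 * ∑ b, chi (F v b) := by
        simp only [Finset.sum_add_distrib]
        have e1 : ∑ a, ∑ b, chi (a = v) * chi (F v b) = ∑ b, chi (F v b) := by
          rw [Finset.sum_eq_single v]
          · refine Finset.sum_congr rfl fun b _ => ?_
            rw [chi_pos rfl, one_mul]
          · intro a _ hav
            refine Finset.sum_eq_zero fun b _ => ?_
            rw [chi_neg hav, zero_mul]
          · intro h; exact absurd (Finset.mem_univ v) h
        have e2 : ∑ a, ∑ b, chi (b = v) * chi (F a v) = ∑ b, chi (F v b) := by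
          refine Finset.sum_congr rfl fun a _ => ?_
          rw [Finset.sum_eq_single v]
          · rw [chi_pos rfl, one_mul]
            exact chi_congr ⟨fun h => hsym _ _ h, fun h => hsym _ _ h⟩
          · intro b _ hbv
            rw [chi_neg hbv, zero_mul]
          · intro h; exact absurd (Finset.mem_univ v) h
        rw [e1, e2]
        ring
      rw [h2, ← hs] at h1
      linarith
    have hv : ∀ v, (∑ b, chi (F v b) * β (c b)) ^ 2 ≤
        (∑ b, chi (F v b)) ^ 2 * β i2 ^ 2 +
          3 * ((∑ b, chi (F v b)) - 1) * (∑ b, chi (F v b) * (β (c v) + β (c b) - β i1 - β i2))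
          + ∑ b, chi (F v b) * β (c b) ^ 2 - (∑ b, chi (F v b)) * β i2 ^ 2 := by
      intro v
      apply vert (fun b => chi (F v b)) (fun b => β (c b))
        (fun b => β (c v) + β (c b) - β i1 - β i2) (β i2) (fun b => chi01 _)
      intro b b' h1 h2
      have hb : F v b := by
        by_contra h
        rw [chi_neg h] at h1
        exact zero_ne_one h1
      have hb' : F v b' := by
        by_contra h
        rw [chi_neg h] at h2
        exact zero_ne_one h2
      have k1 := key v b hb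
      have k2 := key v b' hb'
      have m1 := abs_le.mp (hβ (c b))
      have m2 := abs_le.mp (hβ (c b'))
      have m3 := abs_le.mp (hβ (c v))
      exact prod (by linarith) (by linarith) (by linarith) (by linarith) (by linarith)
        (by linarith) (by linarith) (by linarith) k1.1 k2.1
    have hX : ∀ v, 0 ≤ ∑ b, chi (F v b) * (β (c v) + β (c b) - β i1 - β i2) := by
      intro v
      refine Finset.sum_nonneg fun b _ => ?_
      by_cases hab : F v b
      · rw [chi_pos hab, one_mul]; exact (key v b hab).1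
      · rw [chi_neg hab, zero_mul]
    have hv2 : ∀ v, (∑ b, chi (F v b) * β (c b)) ^ 2 ≤
        (∑ b, chi (F v b)) ^ 2 * β i2 ^ 2 +
          3 * (s / 2) * (∑ b, chi (F v b) * (β (c v) + β (c b) - β i1 - β i2))
          + ∑ b, chi (F v b) * β (c b) ^ 2 - (∑ b, chi (F v b)) * β i2 ^ 2 := by
      intro v
      have h1 := hv v
      have h2 : 3 * ((∑ b, chi (F v b)) - 1) *
          (∑ b, chi (F v b) * (β (c v) + β (c b) - β i1 - β i2)) ≤
          3 * (s / 2) * (∑ b, chi (F v b) * (β (c v) + β (c b) - β i1 - β i2)) :=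
        mul_le_mul_of_nonneg_right (by linarith [hdeg v]) (hX v)
      linarith
    have htot := Finset.sum_le_sum fun v (_ : v ∈ (Finset.univ : Finset V)) => hv2 v
    have hrhs : ∑ v, ((∑ b, chi (F v b)) ^ 2 * β i2 ^ 2 +
          3 * (s / 2) * (∑ b, chi (F v b) * (β (c v) + β (c b) - β i1 - β i2))
          + ∑ b, chi (F v b) * β (c b) ^ 2 - (∑ b, chi (F v b)) * β i2 ^ 2) =
        (∑ v, (∑ b, chi (F v b)) ^ 2) * β i2 ^ 2 + 3 * (s / 2) * E +
          ∑ v, ∑ b, chi (F v b) * β (c b) ^ 2 - s * β i2 ^ 2 := by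
      rw [Finset.sum_sub_distrib, Finset.sum_add_distrib, Finset.sum_add_distrib,
        ← Finset.sum_mul, ← Finset.mul_sum, ← Finset.sum_mul, ← hE, ← hs]
    rw [hrhs] at htot
    have hdiag : ∑ v, ∑ b, chi (F v b) * β (c b) ^ 2 ≤
        s / 2 * (β i1 ^ 2 + β i2 ^ 2) + (1 + e) * E := by
      have e1 : ∑ v, ∑ b, chi (F v b) * β (c b) ^ 2 = ∑ v, ∑ b, chi (F v b) * β (c v) ^ 2 := by
        rw [Finset.sum_comm]
        refine Finset.sum_congr rfl fun v _ => Finset.sum_congr rfl fun b _ => ?_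
        rw [chi_congr (⟨fun h => hsym _ _ h, fun h => hsym _ _ h⟩ : F b v ↔ F v b)]
      have e2 : ∑ v, ∑ b, chi (F v b) * β (c v) ^ 2 + ∑ v, ∑ b, chi (F v b) * β (c b) ^ 2 ≤
          s * (β i1 ^ 2 + β i2 ^ 2) + 2 * (1 + e) * E := by
        rw [hE, hs, Finset.sum_mul, Finset.mul_sum, ← Finset.sum_add_distrib,
          ← Finset.sum_add_distrib]
        refine Finset.sum_le_sum fun a _ => ?_
        rw [Finset.sum_mul, Finset.mul_sum, ← Finset.sum_add_distrib, ← Finset.sum_add_distrib]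
        refine Finset.sum_le_sum fun b _ => ?_
        by_cases hab : F a b
        · rw [chi_pos hab, one_mul, one_mul, one_mul, one_mul]
          have := (key a b hab).2.2.1
          linarith
        · rw [chi_neg hab]; simp
      linarith
    have hsE : 0 ≤ s * E := mul_nonneg hs0 hE0
    have heE : (1 + e) * E ≤ 2 * E := mul_le_mul_of_nonneg_right (by linarith) hE0
    linarith

end Pool.Agent.Work.MP_5532fa_up

end

section

/-!
# MP_5532fa_co, block FWE: a star of missing pairs gives a graph of the type `WE`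
-/

open Finset

namespace Pool.Agent.Work.MP_5532fa_up

open MP5532fa (specRad qf pE)

namespace FWE

variable {V : Type} [Fintype V] {r : ℕ}

theorem card_one {T : Finset V} {c : V → Fin r} {p : V} (hp : p ∈ T)
    (h : (cl T c (c p)).card = 1) : ∀ v ∈ T, c v = c p → v = p := by
  intro v hv hc
  obtain ⟨a, ha⟩ := Finset.card_eq_one.mp h
  have h1 : v ∈ cl T c (c p) := mem_cl.mpr ⟨hv, hc⟩
  have h2 : p ∈ cl T c (c p) := mem_cl.mpr ⟨hp, rfl⟩
  rw [ha, Finset.mem_singleton] at h1 h2
  rw [h1, h2]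

/-- a vertex in at least `k` missing pairs -/
theorem mis_ge (G : SimpleGraph V) (H S : Finset V) (c : V → Fin r) (p : V) (hp : p ∈ H)
    (hS : S ⊆ H) (h : ∀ v ∈ S, c p ≠ c v ∧ ¬ G.Adj p v) : S.card ≤ mis G H c := by
  classical
  unfold mis
  refine Finset.card_le_card_of_injOn (fun v => (p, v)) ?_ ?_
  · intro v hv
    have hv' : v ∈ S := hv
    simp only [Finset.coe_filter, Set.mem_setOf_eq, Finset.mem_product]
    exact ⟨⟨hp, hS hv'⟩, h v hv'⟩
  · intro a _ b _ hab
    exact (Prod.mk.inj hab).2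

end FWE

theorem blk_FWE : Stmt_FWE := by
  intro r hr V _ _ G N c H w p T hW hm hp hF
  have hpH : p ∈ H := hW.hT hp
  have hun := FWE.card_one hp (hW.hT1 (c p))
  have hwp : w ≠ p := by rintro rfl; exact hW.hw hpH
  have hindp : ∀ v ∈ H, c v = c p → ¬ G.Adj p v := by
    intro v hv hc hadj
    rcases hW.sub p v hadj with h | h | h
    · exact h.2.2 hc.symm
    · exact hwp h.1.symm
    · exact hW.hw (h.1 ▸ hv)
  refine ⟨nb G (H.erase p) p, T.erase p, ?_, ?_, ?_, ?_, ?_, ?_, ?_, ?_, ?_, ?_, ?_, ?_⟩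
  · rw [Finset.card_erase_of_mem hpH, hW.card]; rfl
  · exact Finset.notMem_erase p H
  · exact fun h => hW.hw (Finset.mem_of_mem_erase h)
  · exact hwp.symm
  · intro v hv
    exact (mem_nb.mp hv).1
  · intro v hv
    rw [Finset.mem_erase] at hv ⊢
    exact ⟨hv.1, hW.hT hv.2⟩
  · rw [Finset.eq_empty_iff_forall_notMem]
    intro v hv
    obtain ⟨h1, h2⟩ := mem_cl.mp hv
    obtain ⟨h3, h4⟩ := mem_nb.mp h1
    exact hindp v (Finset.mem_of_mem_erase h3) h2 h4
  · rw [Finset.eq_empty_iff_forall_notMem]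
    intro v hv
    obtain ⟨h1, h2⟩ := mem_cl.mp hv
    rw [Finset.mem_erase] at h1
    exact h1.1 (hun v h1.2 h2)
  · intro i hi
    by_contra hne
    rw [Finset.not_nonempty_iff_eq_empty] at hne
    have h1 := FWE.mis_ge G H (cl H c i) c p hpH (fun v hv => (mem_cl.mp hv).1) (by
      intro v hv
      obtain ⟨hv1, hv2⟩ := mem_cl.mp hv
      have hpv : c p ≠ c v := by rw [hv2]; exact fun h => hi h.symm
      refine ⟨hpv, fun hadj => ?_⟩
      have hvp : v ≠ p := by rintro rfl; exact hpv rfl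
      have : v ∈ cl (nb G (H.erase p) p) c i :=
        mem_cl.mpr ⟨mem_nb.mpr ⟨Finset.mem_erase.mpr ⟨hvp, hv1⟩, hadj⟩, hv2⟩
      rw [hne] at this
      exact absurd this (Finset.notMem_empty v))
    exact absurd h1 (not_le.mpr (hm i))
  · intro i hi
    rw [← hW.hT1 i]
    congr 1
    ext v
    rw [mem_cl, mem_cl, Finset.mem_erase]
    constructor
    · rintro ⟨h1, h2⟩; exact ⟨h1.2, h2⟩
    · rintro ⟨h1, h2⟩
      refine ⟨⟨?_, h1⟩, h2⟩
      rintro rfl
      exact hi h2.symm
  · intro hsub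
    obtain ⟨a, ha, b, hb, hab, hadj⟩ := hW.hF
    have hca : c a ≠ c b := by
      intro h
      exact hab (FWE.card_one hb (hW.hT1 (c b)) a ha h)
    rcases hF a b ⟨hW.hT ha, hW.hT hb, hca, hadj⟩ with h | h
    · subst h
      have : b ∈ nb G (H.erase a) a := hsub (Finset.mem_erase.mpr ⟨hab.symm, hb⟩)
      exact hadj (mem_nb.mp this).2
    · subst h
      have : a ∈ nb G (H.erase b) b := hsub (Finset.mem_erase.mpr ⟨hab, ha⟩)
      exact hadj (mem_nb.mp this).2.symm
  · intro a b
    have key : ∀ a b : V, a ∈ H → b ∈ H → c a ≠ c b → ¬ G.Adj a b → a = p ∨ b = p :=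
      fun a b h1 h2 h3 h4 => hF a b ⟨h1, h2, h3, h4⟩
    constructor
    · intro h
      rcases hW.sub a b h with ⟨h1, h2, h3⟩ | ⟨h1, h2⟩ | ⟨h1, h2⟩
      · by_cases hap : a = p
        · subst hap
          have hba : b ≠ a := h.ne.symm
          exact Or.inr (Or.inl ⟨rfl, mem_nb.mpr ⟨Finset.mem_erase.mpr ⟨hba, h2⟩, h⟩⟩)
        · by_cases hbp : b = p
          · subst hbp
            exact Or.inr (Or.inr (Or.inl ⟨rfl, mem_nb.mpr
              ⟨Finset.mem_erase.mpr ⟨hap, h1⟩, h.symm⟩⟩))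
          · exact Or.inl ⟨Finset.mem_erase.mpr ⟨hap, h1⟩, Finset.mem_erase.mpr ⟨hbp, h2⟩, h3⟩
      · by_cases hbp : b = p
        · exact Or.inr (Or.inr (Or.inr (Or.inr (Or.inr (Or.inr ⟨h1, hbp⟩)))))
        · exact Or.inr (Or.inr (Or.inr (Or.inl ⟨h1, Finset.mem_erase.mpr ⟨hbp, h2⟩⟩)))
      · by_cases hap : a = p
        · exact Or.inr (Or.inr (Or.inr (Or.inr (Or.inr (Or.inl ⟨hap, h1⟩)))))
        · exact Or.inr (Or.inr (Or.inr (Or.inr (Or.inl ⟨h1, Finset.mem_erase.mpr ⟨hap, h2⟩⟩))))
    · rintro (⟨h1, h2, h3⟩ | ⟨h1, h2⟩ | ⟨h1, h2⟩ | ⟨h1, h2⟩ | ⟨h1, h2⟩ | ⟨h1, h2⟩ | ⟨h1, h2⟩)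
      · rw [Finset.mem_erase] at h1 h2
        by_contra hadj
        rcases key a b h1.2 h2.2 h3 hadj with h | h
        · exact h1.1 h
        · exact h2.1 h
      · rw [h1]; exact (mem_nb.mp h2).2
      · rw [h1]; exact (mem_nb.mp h2).2.symm
      · rw [h1]; exact hW.hwT b (Finset.mem_of_mem_erase h2)
      · rw [h1]; exact (hW.hwT a (Finset.mem_of_mem_erase h2)).symm
      · rw [h1, h2]; exact (hW.hwT p hp).symm
      · rw [h1, h2]; exact hW.hwT p hp

end Pool.Agent.Work.MP_5532fa_up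

end
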