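import Mathlib
import Pool.Agent.Work.MP_5532fa_full.P05
import Pool.Agent.Work.MP_5532fa_full.P07

section

open Finset

namespace Pool.Agent.Work.MP_5532fa_up

open MP5532fa (specRad qf pE)
open B1C in
theorem blk_B1C2 (h1 : Stmt_GE) (h2 : Stmt_LC) (h3 : Stmt_EID) (h4 : Stmt_EVN) : Stmt_B1C2 := by
  classical
  intro r ε hr hε
  have hr3 : (3 : ℝ) ≤ r := by exact_mod_cast hr
  have hr0 : (0 : ℝ) < r := by linarith only [hr3]
  set e : ℝ := min ε (2 / r) with he
  have he0 : 0 < e := by positivity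
  set δ : ℝ := min (min (ε / 4) (1 / (2 * r))) (e / (10 + 12 * r)) with hδ
  have hδ0 : 0 < δ := by positivity
  have hδε : δ ≤ ε / 4 := (min_le_left _ _).trans (min_le_left _ _)
  have hδr : δ ≤ 1 / (2 * r) := (min_le_left _ _).trans (min_le_right _ _)
  have hδe : δ * (10 + 12 * r) < 2 * e := by
    have h5 : δ ≤ e / (10 + 12 * r) := min_le_right _ _
    rw [le_div_iff₀ (by positivity)] at h5
    linarith only [he0, h5]
  have hδ1 : δ ≤ 1 / 4 := by
    refine hδr.trans ?_
    rw [div_le_div_iff₀ (by positivity) (by norm_num)]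
    linarith only [hr3]
  obtain ⟨N0, hN0⟩ := exists_nat_ge (2 * r / ε + 4 * r + 1)
  refine ⟨δ, N0, hδ0, ?_⟩
  intro N hN j hRg V _ G x lam c H w i0 hFD hfree hncol hMX hcl
  have hNr : 2 * r / ε + 4 * r + 1 ≤ (N : ℝ) := hN0.trans (by exact_mod_cast hN)
  have hNpos : (0 : ℝ) < N := by
    have : 0 < 2 * (r : ℝ) / ε := by positivity
    linarith only [hNr, this]
  have hNε : (r : ℝ) ≤ ε / 2 * N := by
    have h5 : 2 * r / ε ≤ (N : ℝ) := by linarith only [hNr]
    rw [div_le_iff₀ hε] at h5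
    linarith only [h5]
  have hN4 : 4 * (r : ℝ) ≤ N := by
    have : 0 < 2 * (r : ℝ) / ε := by positivity
    linarith only [hNr, this]
  have hNr2 : 2 ≤ (N : ℝ) / (2 * r) := by
    rw [le_div_iff₀ (by positivity)]; linarith only [hN4]
  have ha := al_ge hr
  have ha1 := al_lt hr
  have ha0 : 0 < al r := by linarith only [ha]
  have hV := hFD.pv.nonempty
  set A := nb G H w with hA
  have hAH : A ⊆ H := fun v hv => (mem_nb.1 hv).1
  have hwout : w ∈ out H := mem_out.2 hFD.hw
  set D1 : ℕ := ∑ a ∈ (out H).erase w, dg G H a with hD1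
  have hdgw : dg G H w = A.card := rfl
  have hsum : ∑ v ∈ out H, dg G H v = A.card + D1 := by
    rw [← Finset.add_sum_erase _ _ hwout, hdgw]
  obtain ⟨hQ, hfin⟩ := h2 r hr V G c H A w i0 (2 * D1 + eu G H) hfree hncol hFD.ind hFD.hw rfl hcl
    (by rw [hsum]; ring)
  by_cases hc : mis G H c = 0 ∧ 2 * D1 + eu G H = 2 * r
  · obtain ⟨u, B, i1, hWE⟩ := hfin hc.1 hc.2
    rw [hFD.card] at hWE
    exact ⟨u, B, i1, hWE⟩
  exfalso
  obtain ⟨⟨M, hM⟩, ⟨E, hE⟩⟩ := h4 r V G c H
  obtain ⟨P, hP⟩ : ∃ P : ℕ, D1 + E = r + P := ⟨D1 + E - r, by omega⟩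
  have hPM : 1 ≤ P + M := by
    by_contra hcon
    apply hc
    omega
  -- sizes
  have hszr : ∀ i, ((cl H c i).card : ℝ) ≤ N / r + δ * N ∧ N / r - δ * N ≤ (cl H c i).card := by
    intro i
    have h5 := abs_le.1 (hFD.bal i)
    unfold sz at h5
    constructor <;> linarith only [h5]
  have hδN : δ * N ≤ N / (2 * r) := by
    calc δ * N ≤ 1 / (2 * r) * N := mul_le_mul_of_nonneg_right hδr hNpos.le
      _ = N / (2 * r) := by ring
  have hhalf : (N : ℝ) / r = N / (2 * r) + N / (2 * r) := by field_simp; ring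
  have hcl2 : ∀ i, 2 ≤ (cl H c i).card := by
    intro i
    have h5 := (hszr i).2
    have h6 : (2 : ℝ) ≤ (cl H c i).card := by linarith only [hNr2, hδN, hhalf, h5]
    exact_mod_cast h6
  have hdeg := abs_le.1 hFD.deg
  rw [hdgw] at hdeg
  have hrest := hFD.rest
  have hsumR : ∑ v ∈ out H, (dg G H v : ℝ) = A.card + D1 := by
    exact_mod_cast congrArg (fun n : ℕ => (n : ℝ)) hsum
  rw [hsumR, hdgw, hE] at hrest
  push_cast at hrest
  have hmisR := hFD.mis
  rw [hM] at hmisR
  push_cast at hmisR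
  have hPR : (D1 : ℝ) + E = r + P := by exact_mod_cast hP
  have hE0 : (0 : ℝ) ≤ E := Nat.cast_nonneg _
  have hP0 : (0 : ℝ) ≤ P := Nat.cast_nonneg _
  have hM0 : (0 : ℝ) ≤ M := Nat.cast_nonneg _
  have hPle : (P : ℝ) ≤ δ * N := by linarith only [hrest, hPR]
  have hεN : δ * N ≤ ε / 4 * N := mul_le_mul_of_nonneg_right hδε hNpos.le
  have hj1 := hRg.1
  have hj2 := hRg.2
  have hMA : M ≤ A.card + P := by
    have h5 : (M : ℝ) ≤ A.card + P := by linarith only [hdeg, hmisR, hεN, hj1]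
    exact_mod_cast h5
  obtain ⟨T, hT⟩ : ∃ T : ℕ, T + M = A.card + P := ⟨A.card + P - M, by omega⟩
  have hTR : (T : ℝ) + M = A.card + P := by exact_mod_cast hT
  have hrT : r ≤ T := by
    have h5 : (r : ℝ) ≤ T := by linarith only [hdeg, hrest, hmisR, hPR, hεN, hj1, hTR]
    exact_mod_cast h5
  have h2r : (0 : ℝ) ≤ 1 - 2 / r := by
    have : 2 / (r : ℝ) ≤ 2 / 3 := div_le_div_of_nonneg_left (by norm_num) (by norm_num) hr3
    linarith only [this]
  have hal1 : (1 - 2 / (r : ℝ)) * al r * N ≤ (1 - 2 / r) * N := by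
    apply mul_le_mul_of_nonneg_right _ hNpos.le
    exact mul_le_of_le_one_right h2r ha1.le
  have hN2r : (1 - 2 / (r : ℝ)) * N = N - 2 * (N / r) := by ring
  have hTle : T + (cl H c i0).card + 1 ≤ H.card := by
    rw [hFD.card]
    have h5 : (T : ℝ) + (cl H c i0).card + 1 ≤ N := by
      have := (hszr i0).1
      linarith only [hNr2, hhalf, hdeg, hPle, hεN, hj2, hTR, hN2r, this]
    exact_mod_cast h5
  have hATle : A.card + (cl H c i0).card < H.card := by
    rw [hFD.card]
    have h5 : (A.card : ℝ) + (cl H c i0).card < N := by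
      have := (hszr i0).1
      linarith only [hNr2, hhalf, hdeg, hεN, hj2, hN2r, this]
    exact_mod_cast h5
  obtain ⟨A', B, hA'H, hBH, hA'0, hB0, hA'ne, hB1, hBA, hA'c, hdiff⟩ :=
    sets H A c i0 T hAH hcl hcl2 hrT hTle hATle
  -- the vertex u
  obtain ⟨u, huH, huw⟩ : ∃ u, u ∉ H ∧ u ≠ w := by
    by_contra hno
    push Not at hno
    apply hncol
    refine ⟨SimpleGraph.Coloring.mk (fun v => if v ∈ H then c v else i0) ?_⟩
    intro a b hab
    have hA0 : ∀ v ∈ H, G.Adj w v → c v ≠ i0 := by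
      intro v hv hwv hcv
      have : v ∈ cl A c i0 := mem_cl.2 ⟨mem_nb.2 ⟨hv, hwv⟩, hcv⟩
      rw [hcl] at this
      simp at this
    by_cases haH : a ∈ H
    · by_cases hbH : b ∈ H
      · simp only [haH, hbH, if_true]
        exact fun hc => hFD.ind a haH b hbH hc hab
      · simp only [haH, hbH, if_true, if_false]
        have := hno b hbH
        subst this
        exact hA0 a haH hab.symm
    · by_cases hbH : b ∈ H
      · simp only [haH, hbH, if_true, if_false]
        have := hno a haH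
        subst this
        exact fun h => hA0 b hbH hab h.symm
      · exfalso
        have e1 := hno a haH
        have e2 := hno b hbH
        rw [e1, e2] at hab
        exact G.irrefl hab
  have hWE : WE (gE H c w u A' B) N H c w u A' B i0 :=
    gE_WE hFD.card hFD.hw huH huw.symm hA'H hBH hA'0 hB0 hA'ne hB1 hBA
  obtain ⟨g1, g2, g3⟩ := h1 r hr V _ N H c w u A' B i0 hWE
  have hpE : pE (gE H c w u A' B) = pE G := by
    rw [g3, h3 r V G c H hFD.ind, hsumR, hFD.card, hA'c, hM, hE]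
    push_cast
    linarith only [hPR, hTR]
  have hle : specRad (gE H c w u A' B) ≤ lam := by
    rw [hFD.pv.rad]
    exact hMX _ g1 (g2 fun i => le_trans (by norm_num) (hcl2 i)) hpE
  have hray := rayleigh (gE H c w u A' B) x
  rw [hFD.pv.unit, mul_one] at hray
  have hform := hFD.pv.form
  have hxn := hFD.pv.nn
  have hlow := lower (gE H c w u A' B) H A' c w x hxn hFD.hw hA'H
    (fun a b ha hb hab => (hWE.adj a b).2 (Or.inl ⟨ha, hb, hab⟩))
    (fun b hb => (hWE.adj w b).2 (Or.inr (Or.inl ⟨rfl, hb⟩)))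
  -- normalised eigenvector
  set q : ℝ := √N with hq
  have hq0 : 0 < q := Real.sqrt_pos.2 hNpos
  have hqq : q * q = N := Real.mul_self_sqrt hNpos.le
  have hprod : ∀ a b, x a * x b = (x a * q) * (x b * q) / N := by
    intro a b
    rw [eq_div_iff hNpos.ne', ← hqq]; ring
  have hyn : ∀ a, 0 ≤ x a * q := fun a => mul_nonneg (hxn a) hq0.le
  set X : ℝ := j / (al r * N) with hX
  have hX1 : e ≤ X := by
    refine (min_le_left _ _).trans ?_
    rw [hX, le_div_iff₀ (by positivity)]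
    have : ε * (al r * N) ≤ ε * N := by
      apply mul_le_mul_of_nonneg_left _ hε.le
      exact mul_le_of_le_one_left hNpos.le ha1.le
    linarith only [hj1, this]
  have hX2 : e ≤ 1 - X := by
    refine (min_le_left _ _).trans ?_
    have h5 : X ≤ 1 - ε := by
      rw [hX, div_le_iff₀ (by positivity)]
      refine hj2.trans ?_
      have h6 : (1 - ε) * (al r * N) = (al r - ε * al r) * N := by ring
      rw [h6]
      apply mul_le_mul_of_nonneg_right _ hNpos.le
      have h7 : ε * al r ≤ ε * 1 := mul_le_mul_of_nonneg_left ha1.le hε.le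
      have h8 : al r = 1 - 1 / r := rfl
      have h9 : (0 : ℝ) < 1 / r := by positivity
      have h10 : 2 / (r : ℝ) = 1 / r + 1 / r := by ring
      linarith only [h7, h8, h9, h10]
    linarith only [h5]
  have hyw := hFD.xw
  have hyw' := abs_le.1 hyw
  have hyw2 : x w * q ≤ 2 := by linarith only [he0, hδ1, hX2, hyw']
  have hup := upper G H c w x ((1 - δ) ^ 2 / N) (2 * δ / N) hFD.hw hFD.ind
    (by
      intro a ha b hb
      rw [hprod]
      apply div_le_div_of_nonneg_right _ hNpos.le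
      have e1 := (abs_le.1 (hFD.xH a ha)).1
      have e2 := (abs_le.1 (hFD.xH b hb)).1
      rw [sq]
      exact mul_le_mul (by linarith only [e1]) (by linarith only [e2]) (by linarith only [hδ1]) (by linarith only [hδ1, e1]))
    (by
      intro a ha haw b hb
      rw [hprod]
      apply div_le_div_of_nonneg_right _ hNpos.le
      have e1 := hFD.xo a ha haw
      have e2 := (abs_le.1 (hFD.xH b hb)).2
      have e3 : x a * q * (x b * q) ≤ δ * 2 :=
        mul_le_mul e1 (by linarith only [hδ1, e2]) (hyn b) hδ0.le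
      linarith only [e3])
    (by
      intro a ha b hb hab
      rw [hprod]
      apply div_le_div_of_nonneg_right _ hNpos.le
      have hle2 : ∀ v, v ∉ H → x v * q ≤ 2 := by
        intro v hv
        by_cases hvw : v = w
        · rw [hvw]; exact hyw2
        · have := hFD.xo v hv hvw
          linarith only [hδ1, this]
      by_cases haw : a = w
      · have hbw : b ≠ w := fun h => hab (haw.trans h.symm)
        have e1 := hFD.xo b hb hbw
        have e3 : x a * q * (x b * q) ≤ 2 * δ :=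
          mul_le_mul (hle2 a ha) e1 (hyn b) (by norm_num)
        linarith only [e3]
      · have e1 := hFD.xo a ha haw
        have e3 : x a * q * (x b * q) ≤ δ * 2 :=
          mul_le_mul e1 (hle2 b hb) (hyn b) hδ0.le
        linarith only [e3])
  have hD1R : ∑ a ∈ (out H).erase w, (dg G H a : ℝ) = D1 := by
    rw [hD1, Nat.cast_sum]
  rw [hD1R, hM, hE, ← hA] at hup
  push_cast at hup
  have hmain : 2 * (x w * ∑ b ∈ A', x b) - 2 * (x w * ∑ b ∈ A, x b)
      + (M + M) * ((1 - δ) ^ 2 / N) - (2 * D1 + (E + E)) * (2 * δ / N) ≤ 0 := by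
    linarith only [hle, hray, hform, hlow, hup]
  have hDsum : N * (x w * ∑ b ∈ A', x b) - N * (x w * ∑ b ∈ A, x b) =
      (x w * q) * (∑ b ∈ A', x b * q - ∑ b ∈ A, x b * q) := by
    rw [← Finset.sum_mul, ← Finset.sum_mul, ← hqq]
    ring
  have hsd := sumdiff A A' (fun v => x v * q) δ (fun v hv => hFD.xH v (hAH hv))
    (fun v hv => hFD.xH v (hA'H hv))
  have hfinal := fin (X := X) (δ := δ) (yw := x w * q)
    (D := ∑ b ∈ A', x b * q - ∑ b ∈ A, x b * q)
    (s := (A' \ A).card + (A \ A').card) (P := P) (M := M) (r := r) (e := e) hyw (hyn w) hyw2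
    (by
      have e1 : (A'.card : ℝ) - A.card = P - M := by rw [hA'c]; linarith only [hTR]
      rw [e1] at hsd
      exact hsd)
    (by positivity)
    (by
      have e1 : (A' \ A).card + (A \ A').card ≤ P + M + 2 * r := by omega
      exact_mod_cast e1)
    hP0 hM0 (by exact_mod_cast hPM) hδ0.le hr3 hX1 hX2 hδe
  have hmul := mul_le_mul_of_nonneg_left hmain hNpos.le
  rw [mul_zero] at hmul
  have e5 : (N : ℝ) * (2 * (x w * ∑ b ∈ A', x b) - 2 * (x w * ∑ b ∈ A, x b)
      + (M + M) * ((1 - δ) ^ 2 / N) - (2 * D1 + (E + E)) * (2 * δ / N)) =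
      2 * (N * (x w * ∑ b ∈ A', x b) - N * (x w * ∑ b ∈ A, x b)) + 2 * M * (1 - δ) ^ 2
        - 2 * (D1 + E) * (2 * δ) := by
    field_simp
    ring
  rw [e5, hDsum, hPR] at hmul
  linarith only [hfinal, hmul]

end Pool.Agent.Work.MP_5532fa_up

end

section

/-! Block EXU: existence of graphs of type D and of type E for all small j. -/

open Finset

namespace Pool.Agent.Work.MP_5532fa_up

namespace EXU

/-- arithmetic: the parameters are admissible -/
theorem arith (r : ℕ) (ε : ℝ) (hr : 3 ≤ r) (hε : 0 < ε) : ∃ N0 : ℕ, ∀ N ≥ N0, ∀ j : ℕ,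
    RgU r ε N j → 2 * r ≤ N ∧ (j : ℝ) + 2 * (N / r) + r + 1 ≤ N ∧
      ((N / r : ℕ) : ℝ) ≤ (N : ℝ) / r := by
  obtain ⟨N0, hN0⟩ := exists_nat_ge ((2 * (r : ℝ) + 2) / ε + 2 * r)
  refine ⟨N0, fun N hN j hj => ?_⟩
  have h2 : (j : ℝ) ≤ ((1 - 2 / r) * al r - ε) * N := hj
  have hr' : (3 : ℝ) ≤ r := by exact_mod_cast hr
  have hNr : (N0 : ℝ) ≤ N := by exact_mod_cast hN
  have h3 : (2 * (r : ℝ) + 2) / ε ≤ N := by
    have : (0 : ℝ) ≤ 2 * r := by linarith
    linarith
  have h4 : 2 * (r : ℝ) + 2 ≤ ε * N := by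
    rw [div_le_iff₀ hε] at h3
    linarith
  have h5 : 2 * (r : ℝ) ≤ N := by
    have : (0 : ℝ) ≤ (2 * (r : ℝ) + 2) / ε := by positivity
    linarith
  refine ⟨by exact_mod_cast h5, ?_, Nat.cast_div_le⟩
  have hN : (0 : ℝ) ≤ N := Nat.cast_nonneg _
  have h7 : 0 ≤ 1 - 2 / (r : ℝ) := by
    have : 2 / (r : ℝ) ≤ 1 := by
      rw [div_le_one (by linarith)]
      linarith
    linarith
  have h8 : (1 - 2 / (r : ℝ)) * al r ≤ (1 - 2 / (r : ℝ)) :=
    mul_le_of_le_one_right h7 (al_lt hr).le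
  have h9 : ((1 - 2 / (r : ℝ)) * al r - ε) * N ≤ ((1 - 2 / (r : ℝ)) - ε) * N :=
    mul_le_mul_of_nonneg_right (by linarith) hN
  have h10 : ((1 - 2 / (r : ℝ)) - ε) * N = N - 2 * (N / r) - ε * N := by ring
  linarith

theorem a_le {r : ℕ} {n a : Fin r → ℕ} {P : Finset (Fin r)} {p0 : ℕ}
    (hn : ∀ i, 2 ≤ n i) (hp0 : p0 ≤ 2) (haP : ∀ i, i ∈ P → a i = p0)
    (haQ : ∀ i, i ∉ P → 1 ≤ a i ∧ a i ≤ n i) (i : Fin r) : a i ≤ n i := by
  by_cases hi : i ∈ P
  · rw [haP i hi]
    exact hp0.trans (hn i)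
  · exact (haQ i hi).2

theorem exD (h1 : Stmt_PARX) (h2 : Stmt_EMB) {r N j : ℕ} (hr : 3 ≤ r) (b1 : 2 * r ≤ N)
    (b2 : 2 * r ≤ j + 1) (b3 : (j : ℝ) + 2 * (N / r) + r + 1 ≤ N)
    (b4 : ((N / r : ℕ) : ℝ) ≤ (N : ℝ) / r) (V : Type) [Fintype V] (hV : N + 2 ≤ Fintype.card V) :
    ∃ G : SimpleGraph V, TypeD r N j G := by
  have c1 : 1 ≤ j := by omega
  have c2 : j - 1 + 2 * (N / r + 1) ≤ N := by
    have e : ((j - 1 + 2 * (N / r + 1) : ℕ) : ℝ) ≤ (N : ℝ) := by
      push_cast [Nat.cast_sub c1]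
      have : (0 : ℝ) ≤ r := Nat.cast_nonneg _
      linarith
    exact_mod_cast e
  obtain ⟨n, a, P, hP, hsn, hsa, hn2, hbal, htop, haP, haQ, hpl⟩ :=
    h1 r 2 1 N (j - 1) hr (by omega) b1 (by omega) c2
  have hle := a_le hn2 (by norm_num) haP (fun i hi => haQ i hi)
  obtain ⟨H, c, w, u, A, hwu, hw, hu, hA, hH, hcH, hcA⟩ :=
    h2 r N n a V (by omega) hsn hle hV
  obtain ⟨i1, i2, hi12, rfl⟩ := Finset.card_eq_two.1 hP
  have hi1 : (cl A c i1).card = 1 := by
    rw [hcA, haP i1 (by simp)]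
  have hi2 : (cl A c i2).card = 1 := by
    rw [hcA, haP i2 (by simp)]
  obtain ⟨v1, hv1⟩ := Finset.card_eq_one.1 hi1
  obtain ⟨v2, hv2⟩ := Finset.card_eq_one.1 hi2
  have hc1 : c v1 = i1 := by
    have : v1 ∈ cl A c i1 := by rw [hv1]; exact Finset.mem_singleton_self _
    exact (mem_cl.1 this).2
  have hc2 : c v2 = i2 := by
    have : v2 ∈ cl A c i2 := by rw [hv2]; exact Finset.mem_singleton_self _
    exact (mem_cl.1 this).2
  refine ⟨gD H c w A v1 v2, H, c, w, A, v1, v2, ?_, ?_, ?_, ?_, ?_⟩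
  · apply gD_WD hH hw hA
    · rw [hc1, hc2]; exact hi12
    · rw [hc1]; exact hv1
    · rw [hc2]; exact hv2
    · intro i
      rw [← Finset.card_pos, hcA]
      by_cases hi : i ∈ ({i1, i2} : Finset (Fin r))
      · rw [haP i hi]; norm_num
      · exact (haQ i hi).1
  · have := sum_card_cl A c
    rw [← this]
    simp only [hcA]
    rw [hsa]
    omega
  · intro i k
    rw [hcH, hcH]
    exact hbal i k
  · intro i k hi hk
    rw [hc1, hc2] at hi hk
    rw [hcH, hcH, hcA, hcA]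
    exact hpl i k hi hk
  · intro i k hi hk
    rw [hc1, hc2] at hi hk
    rw [hcH, hcH]
    exact htop i k hi hk

theorem exE (h1 : Stmt_PARX) (h2 : Stmt_EMB) {r N j : ℕ} (hr : 3 ≤ r) (b1 : 2 * r ≤ N)
    (b2 : 2 * r ≤ j + 1) (b3 : (j : ℝ) + 2 * (N / r) + r + 1 ≤ N)
    (b4 : ((N / r : ℕ) : ℝ) ≤ (N : ℝ) / r) (V : Type) [Fintype V] (hV : N + 2 ≤ Fintype.card V) :
    ∃ G : SimpleGraph V, TypeE r N j G := by
  classical
  have c1 : r ≤ j := by omega
  have hr0 : (0 : ℝ) < r := by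
    have : (3 : ℝ) ≤ r := by exact_mod_cast hr
    linarith
  have hNr0 : (0 : ℝ) ≤ (N : ℝ) / r := by positivity
  have c2 : j - r + 1 * (N / r + 1) ≤ N := by
    have e : ((j - r + 1 * (N / r + 1) : ℕ) : ℝ) ≤ (N : ℝ) := by
      push_cast [Nat.cast_sub c1]
      linarith
    exact_mod_cast e
  obtain ⟨n, a, P, hP, hsn, hsa, hn2, hbal, htop, haP, haQ, hpl⟩ :=
    h1 r 1 0 N (j - r) hr (by omega) b1 (by omega) c2
  have hle := a_le hn2 (by norm_num) haP (fun i hi => haQ i hi)
  obtain ⟨H, c, w, u, A, hwu, hw, hu, hA, hH, hcH, hcA⟩ :=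
    h2 r N n a V (by omega) hsn hle hV
  obtain ⟨i0, rfl⟩ := Finset.card_eq_one.1 hP
  have hA0 : cl A c i0 = ∅ := by
    rw [← Finset.card_eq_zero, hcA, haP i0 (by simp)]
  -- a class which is not full
  have hk : ∃ k, k ≠ i0 ∧ a k < n k := by
    by_contra hcon
    push Not at hcon
    have e1 : ∀ i, i ≠ i0 → a i = n i := fun i hi => le_antisymm (hle i) (hcon i hi)
    have e2 : ∑ i, a i + n i0 = N := by
      rw [← hsn, ← Finset.add_sum_erase _ a (Finset.mem_univ i0),
        ← Finset.add_sum_erase _ n (Finset.mem_univ i0), haP i0 (by simp),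
        Finset.sum_congr rfl (fun i hi => e1 i (Finset.ne_of_mem_erase hi))]
      ring
    have e3 : r * n i0 ≤ N + r := by
      have : ∑ _i : Fin r, n i0 ≤ ∑ i, (n i + 1) := Finset.sum_le_sum fun i _ => hbal i0 i
      rw [Finset.sum_const, Finset.card_univ, Fintype.card_fin, Finset.sum_add_distrib, hsn,
        smul_eq_mul] at this
      simpa using this
    have e4 : (n i0 : ℝ) ≤ (N : ℝ) / r + 1 := by
      have : (r : ℝ) * n i0 ≤ N + r := by exact_mod_cast e3
      rw [← sub_le_iff_le_add, le_div_iff₀ hr0]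
      linarith
    have e5 : (j : ℝ) - r + n i0 = N := by
      have : j - r + 1 * 0 + n i0 = N := by rw [← hsa]; exact e2
      have : ((j - r + 1 * 0 + n i0 : ℕ) : ℝ) = N := by exact_mod_cast this
      push_cast [Nat.cast_sub c1] at this
      linarith
    linarith
  obtain ⟨k, hk0, hkn⟩ := hk
  have hbk : ∃ b, b ∈ cl H c k ∧ b ∉ A := by
    by_contra hcon
    push Not at hcon
    have : cl H c k ⊆ cl A c k := fun v hv => mem_cl.2 ⟨hcon v hv, (mem_cl.1 hv).2⟩
    have := Finset.card_le_card this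
    rw [hcH, hcA] at this
    omega
  obtain ⟨bk, hbk1, hbk2⟩ := hbk
  have hne : ∀ i, i ≠ i0 → (cl A c i).Nonempty := by
    intro i hi
    rw [← Finset.card_pos, hcA]
    exact (haQ i (by simpa using hi)).1
  have hb : ∀ i, ∃ b, i ≠ i0 → (b ∈ H ∧ c b = i ∧ (i ≠ k → b ∈ A) ∧ (i = k → b = bk)) := by
    intro i
    by_cases hi : i = i0
    · exact ⟨bk, fun h => absurd hi h⟩
    by_cases hik : i = k
    · exact ⟨bk, fun _ => ⟨(mem_cl.1 hbk1).1, (mem_cl.1 hbk1).2.trans hik.symm,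
        fun h => absurd hik h, fun _ => rfl⟩⟩
    · obtain ⟨b, hb⟩ := hne i hi
      exact ⟨b, fun _ => ⟨hA (mem_cl.1 hb).1, (mem_cl.1 hb).2, fun _ => (mem_cl.1 hb).1,
        fun h => absurd h hik⟩⟩
  choose b hb using hb
  set B : Finset V := (Finset.univ.erase i0).image b with hB
  have hmB : ∀ v, v ∈ B ↔ ∃ i, i ≠ i0 ∧ b i = v := by
    intro v
    rw [hB]
    simp
  have hclB : ∀ i, i ≠ i0 → cl B c i = {b i} := by
    intro i hi
    ext v
    rw [mem_cl, hmB, Finset.mem_singleton]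
    constructor
    · rintro ⟨⟨i', hi', rfl⟩, hc⟩
      rw [(hb i' hi').2.1] at hc
      rw [hc]
    · rintro rfl
      exact ⟨⟨i, hi, rfl⟩, (hb i hi).2.1⟩
  have hbkk : b k = bk := (hb k hk0).2.2.2 rfl
  have hbkB : bk ∈ B := (hmB bk).2 ⟨k, hk0, hbkk⟩
  refine ⟨gE H c w u A B, H, c, w, u, A, B, i0, ?_, ?_, ?_, ?_, ?_, ?_⟩
  · apply gE_WE hH hw hu hwu hA
    · intro v hv
      obtain ⟨i, hi, rfl⟩ := (hmB v).1 hv
      exact (hb i hi).1
    · exact hA0
    · rw [Finset.eq_empty_iff_forall_notMem]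
      intro v hv
      obtain ⟨hv1, hv2⟩ := mem_cl.1 hv
      obtain ⟨i, hi, rfl⟩ := (hmB v).1 hv1
      exact hi ((hb i hi).2.1.symm.trans hv2)
    · exact hne
    · intro i hi
      rw [hclB i hi, Finset.card_singleton]
    · intro hBA
      exact hbk2 (hBA hbkB)
  · refine ⟨bk, hbkB, hbk2, ?_⟩
    intro v hv hvA
    obtain ⟨i, hi, rfl⟩ := (hmB v).1 hv
    by_cases hik : i = k
    · rw [hik, hbkk]
    · exact absurd ((hb i hi).2.2.1 hik) hvA
  · have := sum_card_cl A c
    rw [← this]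
    simp only [hcA]
    rw [hsa]
    omega
  · intro i k
    rw [hcH, hcH]
    exact hbal i k
  · intro i k hi hk
    rw [hcH, hcH, hcA, hcA]
    exact hpl i k hi hk
  · intro i k hi hk
    rw [hcH, hcH]
    exact htop i k hi hk

end EXU

theorem blk_EXU (h1 : Stmt_PARX) (h2 : Stmt_EMB) : Stmt_EXU := by
  intro r ε hr hε
  obtain ⟨N0, hN0⟩ := EXU.arith r ε hr hε
  refine ⟨N0, fun N hN j hj hj2 V _ hV => ?_⟩
  obtain ⟨b1, b3, b4⟩ := hN0 N hN j hj
  exact ⟨EXU.exD h1 h2 hr b1 hj2 b3 b4 V hV, EXU.exE h1 h2 hr b1 hj2 b3 b4 V hV⟩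

end Pool.Agent.Work.MP_5532fa_up

end

section

/-!
# MP_5532fa_co, upgrade: block GF (facts on the graphs `WF`)
-/

open Finset

namespace Pool.Agent.Work.MP_5532fa_up

open MP5532fa (specRad qf pE)

namespace GF

section
variable {V : Type} [Fintype V] {r : ℕ}

omit [Fintype V] in
theorem adj_w {G : SimpleGraph V} {N : ℕ} {H : Finset V} {c : V → Fin r} {w : V} {T : Finset V}
    (h : WF G N H c w T) {b : V} : G.Adj w b ↔ b ∈ T := by
  constructor
  · intro hb
    rcases h.sub w b hb with h1 | h1 | h1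
    · exact absurd h1.1 h.hw
    · exact h1.2
    · exact absurd (h.hT h1.2) h.hw
  · intro hb
    exact h.hwT b hb

omit [Fintype V] in
theorem adj_H {G : SimpleGraph V} {N : ℕ} {H : Finset V} {c : V → Fin r} {w : V} {T : Finset V}
    (h : WF G N H c w T) {a b : V} (ha : a ≠ w) (hb : b ≠ w)
    (hab : G.Adj a b) : a ∈ H ∧ b ∈ H ∧ c a ≠ c b := by
  rcases h.sub a b hab with h1 | h1 | h1
  · exact h1
  · exact absurd h1.1 ha
  · exact absurd h1.1 hb

omit [Fintype V] in
theorem eqT {c : V → Fin r} {T : Finset V} (hT1 : ∀ i, (cl T c i).card = 1)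
    {a b : V} (ha : a ∈ T) (hb : b ∈ T) (hab : c a = c b) : a = b := by
  obtain ⟨z, hz⟩ := Finset.card_eq_one.mp (hT1 (c a))
  have e1 : a ∈ cl T c (c a) := mem_cl.2 ⟨ha, rfl⟩
  have e2 : b ∈ cl T c (c a) := mem_cl.2 ⟨hb, hab.symm⟩
  rw [hz, Finset.mem_singleton] at e1 e2
  rw [e1, e2]

omit [Fintype V] in
theorem cardT {c : V → Fin r} {T : Finset V} (hT1 : ∀ i, (cl T c i).card = 1) : T.card = r := by
  rw [← sum_card_cl T c, Finset.sum_congr rfl fun i _ => hT1 i]
  simp

omit [Fintype V] in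
theorem free {G : SimpleGraph V} {N : ℕ} {H : Finset V} {c : V → Fin r} {w : V} {T : Finset V}
    (h : WF G N H c w T) : G.CliqueFree (r + 1) := by
  classical
  intro s hs
  rw [SimpleGraph.isNClique_iff] at hs
  obtain ⟨hs, hc⟩ := hs
  have hinj : Set.InjOn c ((s.erase w : Finset V) : Set V) := by
    intro a ha b hb hcab
    by_contra hne
    rw [Finset.mem_coe, Finset.mem_erase] at ha hb
    have h1 := hs (Finset.mem_coe.mpr ha.2) (Finset.mem_coe.mpr hb.2) hne
    exact (adj_H h ha.1 hb.1 h1).2.2 hcab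
  have hle : (s.erase w).card ≤ r := by
    have h1 := Finset.card_le_card_of_injOn (t := (univ : Finset (Fin r))) c
      (fun _ _ => Finset.mem_coe.mpr (Finset.mem_univ _)) hinj
    rw [Finset.card_univ, Fintype.card_fin] at h1
    exact h1
  have hw : w ∈ s := by
    by_contra hw
    rw [Finset.erase_eq_of_notMem hw] at hle
    omega
  have hcard : (s.erase w).card = r := by
    rw [Finset.card_erase_of_mem hw]; omega
  have hA : s.erase w ⊆ T := by
    intro a ha
    rw [Finset.mem_erase] at ha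
    exact (adj_w h).mp (hs (Finset.mem_coe.mpr hw) (Finset.mem_coe.mpr ha.2) (Ne.symm ha.1))
  have heq : s.erase w = T := Finset.eq_of_subset_of_card_le hA (by rw [hcard, cardT h.hT1])
  obtain ⟨a, ha, b, hb, hab, hnad⟩ := h.hF
  rw [← heq, Finset.mem_erase] at ha hb
  exact hnad (hs (Finset.mem_coe.mpr ha.2) (Finset.mem_coe.mpr hb.2) hab)

omit [Fintype V] in
theorem ncol {G : SimpleGraph V} {N : ℕ} {H : Finset V} {c : V → Fin r} {w : V} {T : Finset V}
    (h : WF G N H c w T) (h2 : ∀ i, mis G H c < (cl H c i).card) :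
    ¬ G.Colorable r := by
  classical
  rintro ⟨f⟩
  have hrep : ∀ i, ∃ p ∈ H, c p = i ∧ ∀ a ∈ H, c a ≠ i → G.Adj a p := by
    intro i
    by_contra hcon
    push Not at hcon
    choose! g hg using hcon
    have hmap : ∀ p ∈ cl H c i, (p, g p) ∈
        (H ×ˢ H).filter (fun e => c e.1 ≠ c e.2 ∧ ¬ G.Adj e.1 e.2) := by
      intro p hp
      rw [mem_cl] at hp
      obtain ⟨g1, g2, g3⟩ := hg p hp.1 hp.2
      rw [Finset.mem_filter, Finset.mem_product]
      exact ⟨⟨hp.1, g1⟩, fun h0 => g2 (h0 ▸ hp.2), fun h0 => g3 h0.symm⟩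
    have hle : (cl H c i).card ≤ mis G H c := by
      have e : mis G H c = ((H ×ˢ H).filter (fun e => c e.1 ≠ c e.2 ∧ ¬ G.Adj e.1 e.2)).card := by
        unfold mis
        congr 1
      rw [e]
      refine Finset.card_le_card_of_injOn (fun p => (p, g p)) (fun p hp => ?_) ?_
      · exact Finset.mem_coe.mpr (hmap p (Finset.mem_coe.mp hp))
      · intro a _ b _ hab
        exact (Prod.mk.inj hab).1
    exact absurd (h2 i) (by omega)
  choose ρ hρH hρc hadj' using hrep
  have hadj : ∀ a ∈ H, ∀ k, k ≠ c a → G.Adj a (ρ k) := by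
    intro a ha k hk
    exact hadj' k a ha (Ne.symm hk)
  have hinj : Function.Injective (fun i => f (ρ i)) := by
    intro i k hik
    by_contra hne
    have h1 := hadj (ρ i) (hρH i) k (by rw [hρc i]; exact Ne.symm hne)
    exact f.valid h1 hik
  have hsurj : Function.Surjective (fun i => f (ρ i)) := Finite.surjective_of_injective hinj
  obtain ⟨i, hi⟩ := hsurj (f w)
  obtain ⟨a, ha⟩ : (cl T c i).Nonempty := by
    rw [← Finset.card_pos, h.hT1 i]; exact one_pos
  rw [mem_cl] at ha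
  obtain ⟨k, hk⟩ := hsurj (f a)
  have hk' : k = c a := by
    by_contra hne
    exact f.valid (hadj a (h.hT ha.1) k hne) hk.symm
  have h3 : f w = f a := by
    rw [← hi, ← hk, hk', ha.2]
  exact f.valid ((adj_w h).mpr ha.1) h3

omit [Fintype V] in
theorem nb_w {G : SimpleGraph V} {N : ℕ} {H : Finset V} {c : V → Fin r} {w : V} {T : Finset V}
    (h : WF G N H c w T) : nb G H w = T := by
  ext b
  rw [mem_nb, adj_w h]
  exact ⟨fun h1 => h1.2, fun h1 => ⟨h.hT h1, h1⟩⟩

omit [Fintype V] in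
theorem dg_w {G : SimpleGraph V} {N : ℕ} {H : Finset V} {c : V → Fin r} {w : V} {T : Finset V}
    (h : WF G N H c w T) : dg G H w = r := by
  unfold dg
  rw [nb_w h, cardT h.hT1]

omit [Fintype V] in
theorem dg_v {G : SimpleGraph V} {N : ℕ} {H : Finset V} {c : V → Fin r} {w : V} {T : Finset V}
    (h : WF G N H c w T) {v : V} (hv : v ∉ H) (hvw : v ≠ w) : dg G H v = 0 := by
  unfold dg
  rw [Finset.card_eq_zero, Finset.eq_empty_iff_forall_notMem]
  intro b hb
  rw [mem_nb] at hb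
  rcases h.sub v b hb.2 with h1 | h1 | h1
  · exact hv h1.1
  · exact hvw h1.1
  · exact hv (h.hT h1.2)

theorem eu0 {G : SimpleGraph V} {N : ℕ} {H : Finset V} {c : V → Fin r} {w : V} {T : Finset V}
    (h : WF G N H c w T) : eu G H = 0 := by
  classical
  unfold eu
  rw [Finset.card_eq_zero, Finset.eq_empty_iff_forall_notMem]
  rintro ⟨a, b⟩ he
  rw [Finset.mem_filter] at he
  obtain ⟨_, h1, h2, h3⟩ := he
  rcases h.sub a b h1 with h4 | h4 | h4
  · exact h2 h4.1
  · exact h3 (h.hT h4.2)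
  · exact h2 (h.hT h4.2)

theorem sum_dg {G : SimpleGraph V} {N : ℕ} {H : Finset V} {c : V → Fin r} {w : V} {T : Finset V}
    (h : WF G N H c w T) : ∑ v ∈ out H, dg G H v = r := by
  classical
  rw [Finset.sum_eq_single_of_mem w (mem_out.mpr h.hw)]
  · exact dg_w h
  · intro v hv hvw
    exact dg_v h (mem_out.mp hv) hvw

omit [Fintype V] in
theorem ind {G : SimpleGraph V} {N : ℕ} {H : Finset V} {c : V → Fin r} {w : V} {T : Finset V}
    (h : WF G N H c w T) : ∀ u ∈ H, ∀ v ∈ H, c u = c v → ¬ G.Adj u v := by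
  intro u hu v hv huv hadj
  rcases h.sub u v hadj with h4 | h4 | h4
  · exact h4.2.2 huv
  · exact h.hw (h4.1 ▸ hu)
  · exact h.hw (h4.1 ▸ hv)

end

end GF

theorem blk_GF (h1 : Stmt_EID) : Stmt_GF := by
  intro r hr V _ G N H c w T h
  refine ⟨GF.free h, GF.ncol h, ?_⟩
  rw [h1 r V G c H (GF.ind h), GF.eu0 h, h.card]
  have e : ∑ v ∈ out H, (dg G H v : ℝ) = r := by
    rw [← GF.sum_dg h]
    push_cast
    rfl
  rw [e]
  simp

end Pool.Agent.Work.MP_5532fa_up

end

section

/-!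
# MP_5532fa_co, upgrade, block TRANS2 (helper63): moving a graph to another vertex set, with a
bound for the number of non-isolated vertices
-/

open Finset

namespace Pool.Agent.Work.MP_5532fa_up

open MP5532fa (specRad qf pE)

theorem blk_TRANS2 : Stmt_TRANS2 := by
  intro V V' _ _ G hV hcard
  classical
  obtain ⟨f⟩ := Function.Embedding.nonempty_of_card_le hcard
  have hup : MP5532fa.UpToIsolated (G.map f) G := by
    refine ⟨SimpleGraph.Embedding.map f G, ?_⟩
    intro v hv w hadj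
    rw [SimpleGraph.map_adj] at hadj
    obtain ⟨a, b, _, ha, _⟩ := hadj
    exact hv ⟨a, ha⟩
  refine ⟨G.map f, MP5532fa.specRad_of_upTo hup, MP5532fa.pE_of_upTo hup, ?_, ?_⟩
  · intro S hS
    have hsub : S ⊆ (univ : Finset V).image f := by
      intro v hv
      obtain ⟨u, hu⟩ := hS v hv
      rw [SimpleGraph.map_adj] at hu
      obtain ⟨a, b, _, ha, _⟩ := hu
      exact Finset.mem_image.2 ⟨a, Finset.mem_univ a, ha⟩
    calc S.card ≤ ((univ : Finset V).image f).card := Finset.card_le_card hsub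
      _ ≤ (univ : Finset V).card := Finset.card_image_le
      _ = Fintype.card V := Finset.card_univ
  intro r hr
  refine ⟨?_, ?_⟩
  · intro hG t ht
    rw [SimpleGraph.isNClique_map_iff (by omega)] at ht
    obtain ⟨s, hs, _⟩ := ht
    exact hG s hs
  · intro hc
    exact hc.of_hom (SimpleGraph.Embedding.map f G).toHom

end Pool.Agent.Work.MP_5532fa_up

end

section

open Finset

namespace Pool.Agent.Work.MP_5532fa_up

open MP5532fa (specRad qf pE)

theorem blk_B1U2 (hGD : Stmt_GD) (hTRV : Stmt_TRV) (hEID : Stmt_EID) (hEVN : Stmt_EVN) :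
    Stmt_B1U2 := by
  classical
  intro r ε hr hε
  obtain ⟨N0, hN0⟩ := exists_nat_ge ((4 * (r : ℝ) + 4) / ε + 4 * r)
  have hr3 : (3 : ℝ) ≤ r := by exact_mod_cast hr
  have hr0 : (0 : ℝ) < r := by linarith only [hr3]
  have hδ : 0 < min (ε / 100) (1 / (2 * (r : ℝ))) := lt_min (by positivity) (by positivity)
  refine ⟨min (ε / 100) (1 / (2 * (r : ℝ))), N0, hδ, ?_⟩
  have hδ1 : 100 * min (ε / 100) (1 / (2 * (r : ℝ))) ≤ ε := by
    have := min_le_left (ε / 100) (1 / (2 * (r : ℝ)))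
    linarith only [this]
  have hδ2 : min (ε / 100) (1 / (2 * (r : ℝ))) * (2 * r) ≤ 1 := by
    have h1 := min_le_right (ε / 100) (1 / (2 * (r : ℝ)))
    rwa [le_div_iff₀ (by positivity)] at h1
  generalize min (ε / 100) (1 / (2 * (r : ℝ))) = δ at hδ hδ1 hδ2
  intro N hN j hRg V _ G x lam c H w hFD hfree hMX hne
  have hal1 := al_ge hr
  have hal2 := al_lt hr
  have hNr : (4 * (r : ℝ) + 4) / ε + 4 * r ≤ (N : ℝ) := hN0.trans (by exact_mod_cast hN)
  have hq0 : 0 < (4 * (r : ℝ) + 4) / ε := by positivity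
  have hN4 : 4 * (r : ℝ) ≤ N := by linarith only [hNr, hq0]
  have hNpos : 0 < (N : ℝ) := by linarith only [hNr, hq0]
  have hεN : 4 * (r : ℝ) + 4 ≤ ε * N := by
    have h1 : (4 * (r : ℝ) + 4) / ε ≤ N := by linarith only [hNr]
    rw [div_le_iff₀ hε] at h1
    linarith only [h1]
  obtain ⟨hj1, hj2⟩ := hRg
  have hkap1 : 2 / (r : ℝ) ≤ 2 / 3 := div_le_div_of_nonneg_left (by norm_num) (by norm_num) hr3
  have hkap0 : 0 < 2 / (r : ℝ) := by positivity
  have hε1 : ε ≤ 1 := by
    have h1 : ε * N ≤ ((1 - 2 / (r : ℝ)) - ε) * N := hj1.trans hj2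
    have h2 : ε ≤ (1 - 2 / (r : ℝ)) - ε := le_of_mul_le_mul_right h1 hNpos
    linarith only [hkap0, h2]
  have hδs : δ ≤ 1 / 100 := by linarith only [hδ1, hε1]
  have halN : 0 < al r * N := mul_pos (by linarith only [hal1]) hNpos
  have hX1 : ε ≤ j / (al r * N) := by
    rw [le_div_iff₀ halN]
    have h1 : al r * N ≤ 1 * N := mul_le_mul_of_nonneg_right hal2.le hNpos.le
    have h2 : ε * (al r * N) ≤ ε * (1 * N) := mul_le_mul_of_nonneg_left h1 hε.le
    linarith only [hj1, h2]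
  have hX2 : j / (al r * N) ≤ 1 - ε := by
    rw [div_le_iff₀ halN]
    have h1 : ((1 - 2 / (r : ℝ)) - ε) * N ≤ (al r - ε * al r) * N := by
      refine mul_le_mul_of_nonneg_right ?_ hNpos.le
      have h7 : ε * al r ≤ ε * 1 := mul_le_mul_of_nonneg_left hal2.le hε.le
      have h8 : al r = 1 - 1 / r := rfl
      have h9 : (0 : ℝ) < 1 / r := by positivity
      have h10 : 2 / (r : ℝ) = 1 / r + 1 / r := by ring
      linarith only [h7, h8, h9, h10]
    calc (j : ℝ) ≤ ((1 - 2 / (r : ℝ)) - ε) * N := hj2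
      _ ≤ (al r - ε * al r) * N := h1
      _ = (1 - ε) * (al r * N) := by ring
  -- data
  obtain ⟨⟨M, hM⟩, ⟨E, hE⟩⟩ := hEVN r V G c H
  obtain ⟨⟨i0, i1, h01, hle, h2⟩, hsec⟩ :=
    hTRV r hr V G c H (nb G H w) w hfree hFD.ind hFD.hw rfl hne
  have hwout : w ∈ out H := mem_out.mpr hFD.hw
  have hSsum := Finset.add_sum_erase (out H) (fun v => dg G H v) hwout
  generalize hSdef : ∑ v ∈ (out H).erase w, dg G H v = S at hSsum
  have hSsum' : ∑ v ∈ out H, (dg G H v : ℝ) = dg G H w + S := by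
    have : ((∑ v ∈ out H, dg G H v : ℕ) : ℝ) = ((dg G H w + S : ℕ) : ℝ) := by
      rw [← hSsum]
    push_cast at this
    exact this
  have hMr : (mis G H c : ℝ) = 2 * M := by rw [hM]; push_cast; ring
  have hEr : (eu G H : ℝ) = 2 * E := by rw [hE]; push_cast; ring
  have hrest : (S : ℝ) + 2 * E ≤ δ * N := by
    have := hFD.rest
    rw [hSsum', hEr] at this
    linarith only [this]
  have hmis : 2 * (M : ℝ) ≤ δ * N := by
    have := hFD.mis
    rw [hMr] at this
    exact this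
  have hdeg := abs_le.mp hFD.deg
  have hdgA : dg G H w = (nb G H w).card := rfl
  rw [hdgA] at hdeg
  have ha1 : 1 ≤ (cl (nb G H w) c i1).card := Finset.card_pos.mpr (hne i1)
  have hM1 : 1 ≤ M := by omega
  by_cases hMQ : M = 1 ∧ S = 0 ∧ E = 0
  · obtain ⟨rfl, rfl, rfl⟩ := hMQ
    obtain ⟨v1, v2, h12, h3, h4, h5⟩ := hsec hM
    refine ⟨v1, v2, B1U.wd_of hFD.card hFD.hw hFD.ind hne ?_ hE h12 h3 h4 h5⟩
    intro v hv hvw
    have h6 := Finset.sum_eq_zero_iff.mp hSdef
    exact h6 v (Finset.mem_erase.mpr ⟨hvw, mem_out.mpr hv⟩)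
  · exfalso
    have hMQ2 : 2 ≤ M + (S + E) := by omega
    have hS0 : (0 : ℝ) ≤ S := Nat.cast_nonneg S
    have hE0 : (0 : ℝ) ≤ E := Nat.cast_nonneg E
    have hδN : 100 * (δ * N) ≤ ε * N := by
      have := mul_le_mul_of_nonneg_right hδ1 hNpos.le
      linarith only [this]
    have hMA : M + 1 ≤ (nb G H w).card + (S + E) := by
      have h3 : ((M + 1 : ℕ) : ℝ) ≤ (((nb G H w).card + (S + E) : ℕ) : ℝ) := by
        push_cast
        linarith only [hεN, hj1, hmis, hδN, hdeg.1]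
      exact_mod_cast h3
    obtain ⟨b, hb⟩ := Nat.exists_eq_add_of_le hMA
    have hbr : (b : ℝ) = (nb G H w).card + (S + E) - M - 1 := by
      have : (((nb G H w).card + (S + E) : ℕ) : ℝ) = ((M + 1 + b : ℕ) : ℝ) := by rw [hb]
      push_cast at this
      linarith only [this]
    have hrb : r ≤ b + 2 := by
      have h3 : ((r : ℕ) : ℝ) ≤ ((b + 2 : ℕ) : ℝ) := by
        push_cast
        rw [hbr]
        linarith only [hεN, hj1, hmis, hδN, hdeg.1]
      exact_mod_cast h3
    have hbal0 := abs_le.mp (hFD.bal i0)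
    have hbal1 := abs_le.mp (hFD.bal i1)
    have hroom : b + (cl H c i0).card + (cl H c i1).card ≤ H.card := by
      have h3 : ((b + (cl H c i0).card + (cl H c i1).card : ℕ) : ℝ) ≤ ((H.card : ℕ) : ℝ) := by
        push_cast
        rw [hFD.card, hbr]
        have h4 : ((1 - 2 / (r : ℝ)) - ε) * N ≤ N - 2 * (N / r) - ε * N := by
          have h6 : ((1 - 2 / (r : ℝ)) - ε) * N = N - 2 * (N / r) - ε * N := by ring
          linarith only [h6]
        have h7 : sz H c i0 = ((cl H c i0).card : ℝ) := rfl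
        have h8 : sz H c i1 = ((cl H c i1).card : ℝ) := rfl
        rw [h7] at hbal0
        rw [h8] at hbal1
        have hM1r : (1 : ℝ) ≤ M := by exact_mod_cast hM1
        linarith only [hj2, hrest, hδN, h4, hdeg.2, hbal0.2, hbal1.2]
      exact_mod_cast h3
    obtain ⟨v1, hv1⟩ := hne i0
    obtain ⟨v2, hv2⟩ := hne i1
    obtain ⟨A', hA'H, hA'0, hA'1, hA'ne, hA'card, hA'diff, hA'sum⟩ :=
      B1U.mkA H (nb G H w) c i0 i1 v1 v2 (fun v hv => (mem_nb.mp hv).1) h01 hv1 hv2 hne M (S + E) b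
        (by omega) (by omega) (by omega) hrb hroom
    have hc1 : c v1 = i0 := (mem_cl.mp hv1).2
    have hc2 : c v2 = i1 := (mem_cl.mp hv2).2
    have hWD : WD (gD H c w A' v1 v2) N H c w A' v1 v2 :=
      gD_WD hFD.card hFD.hw hA'H (by rw [hc1, hc2]; exact h01) (by rw [hc1]; exact hA'0)
        (by rw [hc2]; exact hA'1) hA'ne
    obtain ⟨hfree', hcol', hpE'⟩ := hGD r hr V _ N H c w A' v1 v2 hWD
    have hcls : ∀ i, 2 ≤ (cl H c i).card := by
      intro i
      have h3 := abs_le.mp (hFD.bal i)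
      have h4 : sz H c i = ((cl H c i).card : ℝ) := rfl
      rw [h4] at h3
      have h5 : 2 ≤ (N : ℝ) / r - δ * N := by
        have h6 : (N : ℝ) / r - δ * N = (1 / r - δ) * N := by ring
        have h7 : 1 / (2 * (r : ℝ)) ≤ 1 / r - δ := by
          have h8 : δ ≤ 1 / (2 * (r : ℝ)) := by
            rw [le_div_iff₀ (by positivity)]; exact hδ2
          have h9 : 1 / (r : ℝ) = 1 / (2 * r) + 1 / (2 * r) := by field_simp; ring
          linarith only [h8, h9]
        have h8 : 1 / (2 * (r : ℝ)) * (4 * r) ≤ (1 / r - δ) * N :=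
          mul_le_mul h7 hN4 (by positivity) (le_trans (by positivity) h7)
        have h9 : 1 / (2 * (r : ℝ)) * (4 * r) = 2 := by field_simp; ring
        linarith only [h6, h8, h9]
      have h6 : ((2 : ℕ) : ℝ) ≤ ((cl H c i).card : ℝ) := by
        push_cast
        linarith only [h5, h3.1]
      exact_mod_cast h6
    have hA'r : (A'.card : ℝ) = (nb G H w).card + 1 - M + (S + E) := by
      have : ((A'.card + M : ℕ) : ℝ) = (((nb G H w).card + 1 + (S + E) : ℕ) : ℝ) := by
        rw [hA'card]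
      push_cast at this
      linarith only [this]
    have hpE : pE (gD H c w A' v1 v2) = pE G := by
      rw [hpE', hEID r V G c H hFD.ind, hSsum', hMr, hEr, hFD.card, hA'r, hdgA]
      ring
    have hspec := hMX _ hfree' (hcol' hcls) hpE
    have : Nonempty V := ⟨w⟩
    have hray := rayleigh (gD H c w A' v1 v2) x
    rw [hFD.pv.unit, mul_one] at hray
    have hform := hFD.pv.form
    have hrad := hFD.pv.rad
    -- scaling
    have hsq : √(N : ℝ) * √(N : ℝ) = N := Real.mul_self_sqrt hNpos.le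
    have hscale : ∀ F : V → V → ℝ, ∑ a, ∑ b, F a b * ((x a * √(N : ℝ)) * (x b * √(N : ℝ)))
        = N * ∑ a, ∑ b, F a b * (x a * x b) := by
      intro F
      rw [Finset.mul_sum]
      refine Finset.sum_congr rfl fun a _ => ?_
      rw [Finset.mul_sum]
      refine Finset.sum_congr rfl fun b _ => ?_
      calc F a b * ((x a * √(N : ℝ)) * (x b * √(N : ℝ)))
          = (√(N : ℝ) * √(N : ℝ)) * (F a b * (x a * x b)) := by ring
        _ = N * (F a b * (x a * x b)) := by rw [hsq]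
    have hcmp : ∑ a, ∑ b, ad (gD H c w A' v1 v2) a b * ((x a * √(N : ℝ)) * (x b * √(N : ℝ)))
        ≤ ∑ a, ∑ b, ad G a b * ((x a * √(N : ℝ)) * (x b * √(N : ℝ))) := by
      rw [hscale, hscale]
      refine mul_le_mul_of_nonneg_left ?_ hNpos.le
      rw [hform, hrad]
      exact hray.trans hspec
    have hsN : 0 ≤ √(N : ℝ) := Real.sqrt_nonneg _
    have hxw := abs_le.mp hFD.xw
    have hQG := B1U.quadG G H c w hFD.hw hFD.ind (fun v => x v * √(N : ℝ)) δ hδ.le (by linarith only [hδs])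
      (fun v => mul_nonneg (hFD.pv.nn v) hsN)
      (fun v hv => by
        have := abs_le.mp (hFD.xH v hv)
        constructor <;> linarith only [this.1, this.2])
      (fun v hv hvw => hFD.xo v hv hvw) (by linarith only [hε, hX2, hxw.2])
    have hQD := B1U.quadD hWD (fun v => x v * √(N : ℝ))
    rw [hQD] at hcmp
    have hcmp2 := hcmp.trans hQG
    rw [hMr, hEr, hSsum'] at hcmp2
    -- sums over A' and A
    have hsumA : (1 - δ) * ((A'.filter (fun v => v ∉ nb G H w)).card : ℝ)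
        - (1 + δ) * (((nb G H w).filter (fun v => v ∉ A')).card : ℝ)
        ≤ ∑ b ∈ A', x b * √(N : ℝ) - ∑ b ∈ nb G H w, x b * √(N : ℝ) := by
      have e1 := Finset.sum_filter_add_sum_filter_not A' (fun v => v ∈ nb G H w)
        (fun v => x v * √(N : ℝ))
      have e2 := Finset.sum_filter_add_sum_filter_not (nb G H w) (fun v => v ∈ A')
        (fun v => x v * √(N : ℝ))
      have e3 : A'.filter (fun v => v ∈ nb G H w) = (nb G H w).filter (fun v => v ∈ A') := by
        ext v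
        rw [Finset.mem_filter, Finset.mem_filter, and_comm]
      rw [e3] at e1
      have e4 : ∑ _v ∈ A'.filter (fun v => v ∉ nb G H w), (1 - δ)
          ≤ ∑ v ∈ A'.filter (fun v => v ∉ nb G H w), x v * √(N : ℝ) := by
        refine Finset.sum_le_sum fun v hv => ?_
        have h3 := abs_le.mp (hFD.xH v (hA'H (Finset.mem_filter.mp hv).1))
        linarith only [h3.1]
      have e5 : ∑ v ∈ (nb G H w).filter (fun v => v ∉ A'), x v * √(N : ℝ)
          ≤ ∑ _v ∈ (nb G H w).filter (fun v => v ∉ A'), (1 + δ) := by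
        refine Finset.sum_le_sum fun v hv => ?_
        have h3 := abs_le.mp (hFD.xH v (mem_nb.mp (Finset.mem_filter.mp hv).1).1)
        linarith only [h3.2]
      rw [Finset.sum_const, nsmul_eq_mul] at e4 e5
      linarith only [e1, e2, e4, e5]
    have hvv : x v1 * √(N : ℝ) * (x v2 * √(N : ℝ)) ≤ (1 + δ) ^ 2 := by
      have h3 := abs_le.mp (hFD.xH v1 (mem_nb.mp (mem_cl.mp hv1).1).1)
      have h4 := abs_le.mp (hFD.xH v2 (mem_nb.mp (mem_cl.mp hv2).1).1)
      rw [sq]
      exact mul_le_mul (by linarith only [h3.2]) (by linarith only [h4.2])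
        (mul_nonneg (hFD.pv.nn v2) hsN) (by linarith only [h4])
    have hp1 : (((A'.filter (fun v => v ∉ nb G H w)).card : ℝ)
        - (((nb G H w).filter (fun v => v ∉ A')).card : ℝ)) = 1 - M + ((S : ℝ) + E) := by
      have h3 : ((A'.card : ℤ) : ℝ) - (((nb G H w).card : ℤ) : ℝ)
          = (((A'.filter (fun v => v ∉ nb G H w)).card : ℤ) : ℝ)
            - ((((nb G H w).filter (fun v => v ∉ A')).card : ℤ) : ℝ) := by
        rw [← Int.cast_sub, ← Int.cast_sub, hA'diff]
      simp only [Int.cast_natCast] at h3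
      rw [← h3, hA'r]
      ring
    have hp2 : ((A'.filter (fun v => v ∉ nb G H w)).card : ℝ)
        + (((nb G H w).filter (fun v => v ∉ A')).card : ℝ) + 3 ≤ 3 * M + ((S : ℝ) + E) := by
      exact_mod_cast hA'sum
    have har := B1U.arith δ ε (j / (al r * N)) (x w * √(N : ℝ)) M (S + E)
      ((A'.filter (fun v => v ∉ nb G H w)).card : ℝ)
      (((nb G H w).filter (fun v => v ∉ A')).card : ℝ) S E hδ hδ1 hε1 hX1 hX2
      (by linarith only [hxw.1]) (by linarith only [hxw.2]) (by exact_mod_cast hM1) (by linarith only [])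
      (by exact_mod_cast hMQ2) hp1 hp2 rfl
    have hw0 : 0 ≤ x w * √(N : ℝ) := mul_nonneg (hFD.pv.nn w) hsN
    have hfin := mul_le_mul_of_nonneg_left hsumA hw0
    linarith only [hcmp2, hvv, har, hfin]

end Pool.Agent.Work.MP_5532fa_up

end
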