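import Mathlib
import Pool.Agent.Work.MP_5532fa_full.P05
import Pool.Agent.Work.MP_5532fa_full.P09
import Pool.Agent.Work.MP_5532fa_full.P11

section

/-!
# MP_5532fa_co, upgrade, second round: block SM1b
-/

open Finset

namespace Pool.Agent.Work.MP_5532fa_up

open MP5532fa (specRad qf pE)

namespace SM1b

section
variable {V : Type} [Fintype V] {r : ℕ}

theorem c0_mono {δ δ' : ℝ} {N : ℕ} {G : SimpleGraph V} {c : V → Fin r} {H : Finset V}
    (h : C0 r δ N G c H) (hd : δ ≤ δ') : C0 r δ' N G c H where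
  card := h.card
  ind := h.ind
  mis := h.mis.trans (mul_le_mul_of_nonneg_right hd (Nat.cast_nonneg N))
  bal := fun i => (h.bal i).trans (mul_le_mul_of_nonneg_right hd (Nat.cast_nonneg N))
  eo := h.eo.trans (mul_le_mul_of_nonneg_right hd (Nat.cast_nonneg N))

theorem eo_split (G : SimpleGraph V) (H : Finset V) :
    (eo G H : ℝ) = ∑ v ∈ out H, (dg G H v : ℝ) + eu G H := by
  classical
  rw [EDG.eo_eq, ← B1U.eu_sum]
  have h1 : ∑ a, ∑ b, chi (G.Adj a b ∧ a ∉ H ∧ b ∉ H)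
      = ∑ a ∈ out H, ∑ b, chi (G.Adj a b ∧ a ∉ H ∧ b ∉ H) := by
    unfold out
    rw [Finset.sum_filter]
    refine Finset.sum_congr rfl fun a _ => ?_
    by_cases ha : a ∉ H
    · rw [if_pos ha]
    · rw [if_neg ha]
      exact Finset.sum_eq_zero fun b _ => chi_neg fun h => ha h.2.1
  rw [h1, ← Finset.sum_add_distrib]
  refine Finset.sum_congr rfl fun a ha => ?_
  rw [mem_out] at ha
  rw [← B1U.dg_sum, ← Finset.sum_add_distrib]
  refine Finset.sum_congr rfl fun b _ => ?_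
  unfold ad
  by_cases hab : G.Adj a b
  · rw [chi_pos hab]
    by_cases hb : b ∈ H
    · rw [chi_pos (p := b ∈ H ∧ G.Adj a b) ⟨hb, hab⟩,
        chi_neg (p := G.Adj a b ∧ a ∉ H ∧ b ∉ H) (fun h => h.2.2 hb)]
      ring
    · rw [chi_neg (p := b ∈ H ∧ G.Adj a b) (fun h => hb h.1),
        chi_pos (p := G.Adj a b ∧ a ∉ H ∧ b ∉ H) ⟨hab, ha, hb⟩]
      ring
  · rw [chi_neg hab, chi_neg (p := b ∈ H ∧ G.Adj a b) (fun h => hab h.2),
      chi_neg (p := G.Adj a b ∧ a ∉ H ∧ b ∉ H) (fun h => hab h.1)]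
    ring

omit [Fintype V] in
theorem mH_pair {G : SimpleGraph V} {H : Finset V} {c : V → Fin r} {v1 v2 : V} (h1 : v1 ∈ H)
    (h2 : v2 ∈ H) (h12 : v1 ≠ v2)
    (h : ∀ a ∈ H, ∀ b ∈ H, (c a ≠ c b ∧ ¬ G.Adj a b) ↔ ((a = v1 ∧ b = v2) ∨ (a = v2 ∧ b = v1)))
    (x y : V → ℝ) : mH G H c x y = x v1 * y v2 + x v2 * y v1 := by
  classical
  unfold mH
  have e1 : ∀ a ∈ H, ∑ b ∈ H, chi (c a ≠ c b ∧ ¬ G.Adj a b) * (x a * y b)
      = (if a = v1 then x v1 * y v2 else 0) + (if a = v2 then x v2 * y v1 else 0) := by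
    intro a ha
    by_cases ha1 : a = v1
    · rw [if_pos ha1, if_neg (fun h3 => h12 (ha1.symm.trans h3)), add_zero]
      rw [Finset.sum_eq_single v2]
      · rw [chi_pos ((h a ha v2 h2).mpr (Or.inl ⟨ha1, rfl⟩)), ha1, one_mul]
      · intro b hb hb2
        rw [chi_neg, zero_mul]
        intro h3
        rcases (h a ha b hb).mp h3 with h4 | h4
        · exact hb2 h4.2
        · exact h12 (ha1.symm.trans h4.1)
      · intro h3; exact absurd h2 h3
    · rw [if_neg ha1, zero_add]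
      by_cases ha2 : a = v2
      · rw [if_pos ha2, Finset.sum_eq_single v1]
        · rw [chi_pos ((h a ha v1 h1).mpr (Or.inr ⟨ha2, rfl⟩)), ha2, one_mul]
        · intro b hb hb1
          rw [chi_neg, zero_mul]
          intro h3
          rcases (h a ha b hb).mp h3 with h4 | h4
          · exact ha1 h4.1
          · exact hb1 h4.2
        · intro h3; exact absurd h1 h3
      · rw [if_neg ha2]
        refine Finset.sum_eq_zero fun b hb => ?_
        rw [chi_neg, zero_mul]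
        intro h3
        rcases (h a ha b hb).mp h3 with h4 | h4
        · exact ha1 h4.1
        · exact ha2 h4.1
  rw [Finset.sum_congr rfl e1, Finset.sum_add_distrib, Finset.sum_ite_eq', Finset.sum_ite_eq',
    if_pos h1, if_pos h2]

omit [Fintype V] in
theorem mis_mH (G : SimpleGraph V) (H : Finset V) (c : V → Fin r) :
    (mis G H c : ℝ) = mH G H c (fun _ => 1) (fun _ => 1) := by
  rw [EDG.mis_eq]
  unfold mH
  refine Finset.sum_congr rfl fun a _ => Finset.sum_congr rfl fun b _ => ?_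
  ring

omit [Fintype V] in
/-- lower bound for `mH` -/
theorem mH_lower {G : SimpleGraph V} {H : Finset V} {c : V → Fin r} {x y : V → ℝ} {s t : ℝ}
    (hs : 0 ≤ s) (ht : 0 ≤ t) (hx : ∀ v ∈ H, s ≤ x v) (hy : ∀ v ∈ H, t ≤ y v) :
    (mis G H c : ℝ) * (s * t) ≤ mH G H c x y := by
  rw [EDG.mis_eq]
  unfold mH
  rw [Finset.sum_mul]
  refine Finset.sum_le_sum fun a ha => ?_
  rw [Finset.sum_mul]
  refine Finset.sum_le_sum fun b hb => ?_
  refine mul_le_mul_of_nonneg_left ?_ (chi_nonneg _)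
  exact mul_le_mul (hx a ha) (hy b hb) ht (hs.trans (hx a ha))

omit [Fintype V] in
/-- the missing pairs of a graph `WD` -/
theorem wd_pair {G : SimpleGraph V} {N : ℕ} {H : Finset V} {c : V → Fin r} {w v1 v2 : V}
    {A : Finset V} (h : WD G N H c w A v1 v2) :
    v1 ∈ H ∧ v2 ∈ H ∧ v1 ≠ v2 ∧
    ∀ a ∈ H, ∀ b ∈ H, (c a ≠ c b ∧ ¬ G.Adj a b) ↔ ((a = v1 ∧ b = v2) ∨ (a = v2 ∧ b = v1)) := by
  have h1 : v1 ∈ cl A c (c v1) := by rw [h.h1]; exact Finset.mem_singleton_self _
  have h2 : v2 ∈ cl A c (c v2) := by rw [h.h2]; exact Finset.mem_singleton_self _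
  refine ⟨h.hA (mem_cl.mp h1).1, h.hA (mem_cl.mp h2).1, fun h3 => h.h12 (by rw [h3]), ?_⟩
  intro a ha b hb
  have haw : a ≠ w := fun h3 => h.hw (h3 ▸ ha)
  have hbw : b ≠ w := fun h3 => h.hw (h3 ▸ hb)
  rw [h.adj]
  constructor
  · rintro ⟨h3, h4⟩
    by_contra h5
    push Not at h5
    exact h4 (Or.inl ⟨ha, hb, h3, fun h6 => h5.1 h6.1 h6.2, fun h6 => h5.2 h6.1 h6.2⟩)
  · rintro (⟨rfl, rfl⟩ | ⟨rfl, rfl⟩)
    · refine ⟨h.h12, ?_⟩
      rintro (h3 | h3 | h3)
      · exact h3.2.2.2.1 ⟨rfl, rfl⟩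
      · exact haw h3.1
      · exact hbw h3.1
    · refine ⟨h.h12.symm, ?_⟩
      rintro (h3 | h3 | h3)
      · exact h3.2.2.2.2 ⟨rfl, rfl⟩
      · exact haw h3.1
      · exact hbw h3.1

/-- degrees in a graph `WD` -/
theorem wd_deg {G : SimpleGraph V} {N : ℕ} {H : Finset V} {c : V → Fin r} {w v1 v2 : V}
    {A : Finset V} (h : WD G N H c w A v1 v2) :
    nb G H w = A ∧ dg G H w = A.card ∧ (∀ v, v ∉ H → v ≠ w → dg G H v = 0) ∧
    ∑ v ∈ out H, (dg G H v : ℝ) ^ 2 = (A.card : ℝ) ^ 2 := by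
  classical
  have e1 : nb G H w = A := by
    ext b
    rw [mem_nb, h.adj]
    constructor
    · rintro ⟨hb, h3 | h3 | h3⟩
      · exact absurd h3.1 h.hw
      · exact h3.2
      · exact absurd hb (h3.1 ▸ h.hw)
    · intro hb
      exact ⟨h.hA hb, Or.inr (Or.inl ⟨rfl, hb⟩)⟩
  have e2 : dg G H w = A.card := by unfold dg; rw [e1]
  have e3 : ∀ v, v ∉ H → v ≠ w → dg G H v = 0 := by
    intro v hv hvw
    unfold dg
    rw [Finset.card_eq_zero]
    ext b
    rw [mem_nb, h.adj]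
    constructor
    · rintro ⟨hb, h3 | h3 | h3⟩
      · exact absurd h3.1 hv
      · exact absurd h3.1 hvw
      · exact absurd hb (h3.1 ▸ h.hw)
    · intro h3; exact absurd h3 (Finset.notMem_empty _)
  refine ⟨e1, e2, e3, ?_⟩
  rw [Finset.sum_eq_single w]
  · rw [e2]
  · intro v hv hvw
    rw [e3 v (mem_out.mp hv) hvw]; norm_num
  · intro h3; exact absurd (mem_out.mpr h.hw) h3

/-- sum of the squares of the degrees of the other vertices -/
theorem s2_le {G : SimpleGraph V} {H : Finset V} {w : V}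
    (hmax : ∀ v, v ∉ H → dg G H v ≤ dg G H w) :
    ∑ v ∈ out H, (dg G H v : ℝ) ^ 2 - (dg G H w : ℝ) ^ 2
      ≤ (dg G H w : ℝ) * (∑ v ∈ out H, (dg G H v : ℝ) - dg G H w) := by
  have h1 : ∑ v ∈ out H, (dg G H v : ℝ) ^ 2
      ≤ (dg G H w : ℝ) * ∑ v ∈ out H, (dg G H v : ℝ) := by
    rw [Finset.mul_sum]
    refine Finset.sum_le_sum fun v hv => ?_
    rw [sq]
    refine mul_le_mul_of_nonneg_right ?_ (Nat.cast_nonneg _)
    exact_mod_cast hmax v (mem_out.mp hv)
  nlinarith only [h1]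

end

/-- final arithmetic, one missing pair -/
theorem arith1 (e a Q s2 S pq : ℝ) (he : 0 < e) (he1 : e ≤ 1 / 200) (ha : 0 ≤ a) (hQ : 1 ≤ Q)
    (hS : S ≤ Q) (hs2 : s2 ≤ a * S) (hs20 : 0 ≤ s2) (hpq : pq ≤ Q) (hpq0 : 0 ≤ pq) :
    0 < (a + Q) ^ 2 - (s2 + a ^ 2) - 30 * e * (pq * ((a + Q) + a) + 0 + s2 + Q) := by
  have h1 : s2 ≤ a * Q := hs2.trans (mul_le_mul_of_nonneg_left hS ha)
  have h2 : pq * ((a + Q) + a) ≤ Q * ((a + Q) + a) := by
    refine mul_le_mul_of_nonneg_right hpq (by linarith only [ha, hQ])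
  have h3 : 30 * e * (pq * ((a + Q) + a) + 0 + s2 + Q) ≤ 3 / 20 * (Q * ((a + Q) + a) + 0 + a * Q + Q) := by
    have h4 : 0 ≤ pq * ((a + Q) + a) + 0 + s2 + Q := by positivity
    have h5 : 30 * e ≤ 3 / 20 := by linarith only [he1]
    calc 30 * e * (pq * ((a + Q) + a) + 0 + s2 + Q)
        ≤ 3 / 20 * (pq * ((a + Q) + a) + 0 + s2 + Q) := mul_le_mul_of_nonneg_right h5 h4
      _ ≤ 3 / 20 * (Q * ((a + Q) + a) + 0 + a * Q + Q) := by linarith only [h1, h2]
  have h6 : 0 ≤ a * Q := by positivity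
  have h7 : Q ≤ Q * Q := by nlinarith only [hQ]
  nlinarith only [ha, hQ, h1, h3]

/-- final arithmetic, several missing pairs; `m = M - 1` -/
theorem arith2 (e N a Q m s2 S pq X : ℝ) (he : 0 < e) (he1 : e ≤ 1 / 200)
    (ha : 0 ≤ a) (hQ : 0 ≤ Q) (hm : 1 ≤ m) (hS : S ≤ Q) (hs2 : s2 ≤ a * S) (hs20 : 0 ≤ s2)
    (hpq : pq ≤ 3 * m + Q) (hQint : Q = 0 ∨ 1 ≤ Q) (ha' : 0 ≤ a + Q - m)
    (hgN : a + Q ≤ e * N) (hX : N * m / 4 ≤ X) :
    0 < X + ((a + Q - m) ^ 2 - (s2 + a ^ 2)
      - 30 * e * (pq * ((a + Q - m) + a) + 0 + s2 + Q)) := by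
  have h1 : s2 ≤ a * Q := hs2.trans (mul_le_mul_of_nonneg_left hS ha)
  have h2 : pq * ((a + Q - m) + a) ≤ (3 * m + Q) * (2 * (a + Q)) := by
    refine mul_le_mul hpq (by linarith only [hQ, hm]) (by linarith only [ha,
        ha']) (by linarith only [hQ, hm])
  have h5 : 30 * e ≤ 3 / 20 := by linarith only [he1]
  have h3 : 30 * e * (pq * ((a + Q - m) + a) + 0 + s2 + Q)
      ≤ 30 * e * (3 * m * (2 * (a + Q))) + 3 / 20 * (Q * (2 * a + Q) + a * Q + Q)
        := by
    have h4 : pq * ((a + Q - m) + a) ≤ 3 * m * (2 * (a + Q)) + Q * (2 * a + Q) := by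
      have h6 : (a + Q - m) + a ≤ 2 * a + Q := by linarith only [hm]
      have h7 : pq * ((a + Q - m) + a) ≤ (3 * m + Q) * (2 * a + Q) :=
        mul_le_mul hpq h6 (by linarith only [ha, ha']) (by linarith only [hQ, hm])
      nlinarith only [hm, hs20, ha', h1, h2, h7]
    have h8 : 30 * e * (pq * ((a + Q - m) + a) + 0 + s2 + Q)
        ≤ 30 * e * (3 * m * (2 * (a + Q)) + Q * (2 * a + Q) + a * Q + Q) :=
      mul_le_mul_of_nonneg_left (by linarith only [h1, h4]) (by positivity)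
    have h9 : 30 * e * (Q * (2 * a + Q) + a * Q + Q) ≤ 3 / 20 * (Q * (2 * a + Q) + a * Q + Q) :=
      mul_le_mul_of_nonneg_right h5 (by positivity)
    linarith only [h8, h9]
  have h10 : m * (a + Q) ≤ m * (e * N) := mul_le_mul_of_nonneg_left hgN (by linarith only [hm])
  have h11 : (a + Q - m) ^ 2 = (a + Q) ^ 2 - 2 * m * (a + Q) + m ^ 2 := by ring
  have hN : 0 ≤ N := by
    by_contra hN
    push Not at hN
    nlinarith only [he, ha, hQ, hgN, hN]
  have h12 : m * (e * N) ≤ m * N / 200 := by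
    have : e * N ≤ 1 / 200 * N := mul_le_mul_of_nonneg_right he1 hN
    nlinarith only [hm, this]
  have h13 : 30 * e * (3 * m * (2 * (a + Q))) ≤ 3 / 20 * (3 * m * (2 * (a + Q))) :=
    mul_le_mul_of_nonneg_right h5 (by positivity)
  have h14 : Q ≤ Q * Q := by
    rcases hQint with h | h
    · rw [h]; norm_num
    · nlinarith only [h]
  have h15 : 0 ≤ a * Q := by positivity
  have h16 : 0 < m ^ 2 := by positivity
  nlinarith only [hQ, hm, ha', hX, h1, h3, h10, h12, h13]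

end SM1b

theorem blk_SM1b (hGD : Stmt_GD) (hTRV : Stmt_TRV) (hEID : Stmt_EID) (hEVN : Stmt_EVN)
    (hEST : Stmt_EST1) (hTRF : Stmt_TRF) (hCORE : Stmt_CORE) : Stmt_SM1b := by
  classical
  intro r hr
  obtain ⟨δ1, N1, hδ1, hδ1e, hE1⟩ := hEST r (1 / 200) hr (by norm_num)
  have hr3 : (3 : ℝ) ≤ r := by exact_mod_cast hr
  have hr0 : (0 : ℝ) < r := by linarith only [hr3]
  refine ⟨min (δ1 / 2) (1 / (2 * (r : ℝ))), max N1 (4 * r), lt_min (by positivity) (by positivity),
    ?_⟩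
  have hδa : 2 * min (δ1 / 2) (1 / (2 * (r : ℝ))) ≤ δ1 := by
    have := min_le_left (δ1 / 2) (1 / (2 * (r : ℝ)))
    linarith only [this]
  have hδb : min (δ1 / 2) (1 / (2 * (r : ℝ))) * (2 * r) ≤ 1 := by
    have h1 := min_le_right (δ1 / 2) (1 / (2 * (r : ℝ)))
    rwa [le_div_iff₀ (by positivity)] at h1
  have hδ0 : 0 < min (δ1 / 2) (1 / (2 * (r : ℝ))) := lt_min (by positivity) (by positivity)
  generalize min (δ1 / 2) (1 / (2 * (r : ℝ))) = δ at hδa hδb hδ0
  intro N hN V _ G c H w hC hfree hMX hcnt hw hmax hne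
  have hN1 : N1 ≤ N := (le_max_left _ _).trans hN
  have hN4 : 4 * (r : ℝ) ≤ N := by
    have : 4 * r ≤ N := (le_max_right _ _).trans hN
    exact_mod_cast this
  have hNpos : 0 < (N : ℝ) := by linarith only [hr0, hN4]
  have : Nonempty V := ⟨w⟩
  obtain ⟨x, hx⟩ := exists_PV G
  have hC1 : C0 r δ1 N G c H := SM1b.c0_mono hC (by linarith only [hδa, hδ0])
  obtain ⟨xb, hFl⟩ := hE1 N hN1 V G x _ c H hC1 hx
  obtain ⟨⟨M, hM⟩, ⟨E, hE⟩⟩ := hEVN r V G c H
  obtain ⟨⟨i0', i1', h01', hle', h2'⟩, hsec⟩ := hTRV r hr V G c H (nb G H w) w hfree hC.ind hw rfl hne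
  have ha1 : 1 ≤ (cl (nb G H w) c i1').card := Finset.card_pos.mpr (hne i1')
  have hM1 : 1 ≤ M := by omega
  -- choice of the two classes
  obtain ⟨i0, i1, v1, v2, h01, hv1, hv2, hc0, hc1', hone⟩ : ∃ (i0 i1 : Fin r) (v1 v2 : V),
      i0 ≠ i1 ∧ v1 ∈ cl (nb G H w) c i0 ∧ v2 ∈ cl (nb G H w) c i1 ∧
      (cl (nb G H w) c i0).card ≤ M ∧ (cl (nb G H w) c i1).card ≤ M ∧
      (M = 1 → cl (nb G H w) c (c v1) = {v1} ∧ cl (nb G H w) c (c v2) = {v2} ∧
        ∀ a ∈ H, ∀ b ∈ H, c a ≠ c b →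
          (¬ G.Adj a b ↔ (a = v1 ∧ b = v2) ∨ (a = v2 ∧ b = v1))) := by
    by_cases hM' : M = 1
    · obtain ⟨v1, v2, h3, h4, h5, h6⟩ := hsec (by omega)
      refine ⟨c v1, c v2, v1, v2, h3, ?_, ?_, ?_, ?_, fun _ => ⟨h4, h5, h6⟩⟩
      · rw [h4]; exact Finset.mem_singleton_self _
      · rw [h5]; exact Finset.mem_singleton_self _
      · rw [h4, Finset.card_singleton]; exact hM1
      · rw [h5, Finset.card_singleton]; exact hM1
    · obtain ⟨v1, hv1⟩ := hne i0'
      obtain ⟨v2, hv2⟩ := hne i1'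
      exact ⟨i0', i1', v1, v2, h01', hv1, hv2, by omega, by omega, fun h => absurd h hM'⟩
  have hcv1 : c v1 = i0 := (mem_cl.mp hv1).2
  have hcv2 : c v2 = i1 := (mem_cl.mp hv2).2
  have hv1H : v1 ∈ H := (mem_nb.mp (mem_cl.mp hv1).1).1
  have hv2H : v2 ∈ H := (mem_nb.mp (mem_cl.mp hv2).1).1
  -- degree sums
  have hwout : w ∈ out H := mem_out.mpr hw
  have hSsum := Finset.add_sum_erase (out H) (fun v => dg G H v) hwout
  generalize hSdef : ∑ v ∈ (out H).erase w, dg G H v = S at hSsum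
  have hSsum' : ∑ v ∈ out H, (dg G H v : ℝ) = dg G H w + S := by
    have : ((∑ v ∈ out H, dg G H v : ℕ) : ℝ) = ((dg G H w + S : ℕ) : ℝ) := by
      rw [← hSsum]
    push_cast at this
    exact this
  have hMr : (mis G H c : ℝ) = 2 * M := by rw [hM]; push_cast; ring
  have hEr : (eu G H : ℝ) = 2 * E := by rw [hE]; push_cast; ring
  have heo := SM1b.eo_split G H
  rw [hSsum', hEr] at heo
  have heoN : (dg G H w : ℝ) + S + 2 * E ≤ δ * N := by rw [← heo]; exact hC.eo
  have hdgA : dg G H w = (nb G H w).card := rfl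
  have hcnt' : r + M ≤ dg G H w + (S + E) + 1 := by
    rw [← hSsum, hM, hE] at hcnt
    omega
  by_cases hMQ : M = 1 ∧ S = 0 ∧ E = 0
  · obtain ⟨rfl, rfl, rfl⟩ := hMQ
    obtain ⟨h4, h5, h6⟩ := hone rfl
    refine ⟨v1, v2, B1U.wd_of hC.card hw hC.ind hne ?_ hE (by rw [hcv1, hcv2]; exact h01) h4 h5 h6⟩
    intro v hv hvw
    exact Finset.sum_eq_zero_iff.mp hSdef v (Finset.mem_erase.mpr ⟨hvw, mem_out.mpr hv⟩)
  · exfalso
    have hMA : M + 1 ≤ (nb G H w).card + (S + E) := by rw [← hdgA]; omega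
    obtain ⟨b, hb⟩ := Nat.exists_eq_add_of_le hMA
    have hS0 : (0 : ℝ) ≤ S := Nat.cast_nonneg S
    have hE0 : (0 : ℝ) ≤ E := Nat.cast_nonneg E
    have hbN : (b : ℝ) ≤ δ * N := by
      have h3 : (((nb G H w).card + (S + E) : ℕ) : ℝ) = ((M + 1 + b : ℕ) : ℝ) := by rw [hb]
      push_cast at h3
      rw [hdgA] at heoN
      have h4 : (0 : ℝ) ≤ M := Nat.cast_nonneg M
      linarith only [heoN, h3]
    have hδs : δ ≤ 1 / 6 := by
      have : δ * (2 * 3) ≤ δ * (2 * r) := mul_le_mul_of_nonneg_left (by linarith only [hr3]) hδ0.le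
      linarith only [hδ1e, hδa]
    have hδ200 : δ ≤ 1 / 400 := by linarith only [hδ1e, hδa]
    have hroom : b + (cl H c i0).card + (cl H c i1).card ≤ H.card := by
      have h3 : ((b + (cl H c i0).card + (cl H c i1).card : ℕ) : ℝ) ≤ ((H.card : ℕ) : ℝ) := by
        push_cast
        rw [hC.card]
        have h4 := abs_le.mp (hC.bal i0)
        have h5 := abs_le.mp (hC.bal i1)
        have h6 : sz H c i0 = ((cl H c i0).card : ℝ) := rfl
        have h7 : sz H c i1 = ((cl H c i1).card : ℝ) := rfl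
        rw [h6] at h4
        rw [h7] at h5
        have h8 : (N : ℝ) / r ≤ N / 3 := div_le_div_of_nonneg_left hNpos.le (by norm_num) hr3
        have h9 : δ * N ≤ 1 / 400 * N := mul_le_mul_of_nonneg_right hδ200 hNpos.le
        linarith only [hbN, h8, h9, h4.2, h5.2]
      exact_mod_cast h3
    obtain ⟨A', hA'H, hA'0, hA'1, hA'ne, hA'card, _, hA'sum⟩ :=
      B1U.mkA H (nb G H w) c i0 i1 v1 v2 (fun v hv => (mem_nb.mp hv).1) h01 hv1 hv2 hne M (S + E) b
        hc0 hc1' (by omega) (by rw [hdgA] at hcnt'; omega) hroom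
    have hWD : WD (gD H c w A' v1 v2) N H c w A' v1 v2 :=
      gD_WD hC.card hw hA'H (by rw [hcv1, hcv2]; exact h01) (by rw [hcv1]; exact hA'0)
        (by rw [hcv2]; exact hA'1) hA'ne
    generalize hG' : gD H c w A' v1 v2 = G' at hWD
    obtain ⟨hfree', hcol', hpE'⟩ := hGD r hr V _ N H c w A' v1 v2 hWD
    have hcls : ∀ i, 2 ≤ (cl H c i).card := by
      intro i
      have h3 := abs_le.mp (hC.bal i)
      have h4 : sz H c i = ((cl H c i).card : ℝ) := rfl
      rw [h4] at h3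
      have h5 : 2 ≤ (N : ℝ) / r - δ * N := by
        have h6 : (N : ℝ) / r - δ * N = (1 / r - δ) * N := by ring
        have h7 : 1 / (2 * (r : ℝ)) ≤ 1 / r - δ := by
          have h8 : δ ≤ 1 / (2 * (r : ℝ)) := by
            rw [le_div_iff₀ (by positivity)]; exact hδb
          have h9 : 1 / (r : ℝ) = 1 / (2 * r) + 1 / (2 * r) := by field_simp; ring
          linarith only [h8, h9]
        have h8 : 1 / (2 * (r : ℝ)) * (4 * r) ≤ (1 / r - δ) * N :=
          mul_le_mul h7 hN4 (by positivity) (le_trans (by positivity) h7)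
        have h9 : 1 / (2 * (r : ℝ)) * (4 * r) = 2 := by field_simp; ring
        linarith only [h6, h8, h9]
      have h6 : ((2 : ℕ) : ℝ) ≤ ((cl H c i).card : ℝ) := by
        push_cast
        linarith only [h5, h3.1]
      exact_mod_cast h6
    have hA'r : (A'.card : ℝ) = dg G H w + 1 - M + (S + E) := by
      have : ((A'.card + M : ℕ) : ℝ) = (((nb G H w).card + 1 + (S + E) : ℕ) : ℝ) := by
        rw [hA'card]
      push_cast at this
      rw [hdgA]
      linarith only [this]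
    have hpE : pE G' = pE G := by
      rw [hpE', hEID r V G c H hC.ind, hSsum', hMr, hEr, hC.card, hA'r]
      ring
    have hspec := hMX _ hfree' (hcol' hcls) hpE
    obtain ⟨y, hy⟩ := exists_PV G'
    obtain ⟨hp1, hp2, hp12, hpair⟩ := SM1b.wd_pair hWD
    have hmis' : (mis G' H c : ℝ) = 2 := by
      rw [SM1b.mis_mH, SM1b.mH_pair hp1 hp2 hp12 hpair]; norm_num
    have hmisle : mis G' H c ≤ mis G H c := by
      have h3 : mis G' H c = 2 := by exact_mod_cast hmis'
      rw [h3, hM]; omega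
    have hind' : ∀ u ∈ H, ∀ v ∈ H, c u = c v → ¬ G'.Adj u v := by
      intro u hu v hv huv hadj
      rw [hWD.adj] at hadj
      rcases hadj with h3 | h3 | h3
      · exact h3.2.2.1 huv
      · exact hw (h3.1 ▸ hu)
      · exact hw (h3.1 ▸ hv)
    have hC' : C0 r δ1 N G' c H :=
      SM1b.c0_mono (hTRF r δ N V G G' c H hC hind' hpE hmisle) hδa
    obtain ⟨yb, hFl'⟩ := hE1 N hN1 V G' y _ c H hC' hy
    have hcore := hCORE r hr V G G' c H w x y _ _ xb yb (1 / 200) N (by norm_num) (by norm_num)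
      (by have : (1 : ℝ) ≤ N := by linarith only [hr3, hN4]
          exact_mod_cast this) (SM1b.c0_mono hC1 hδ1e) hind' hw hx hy hFl hFl' hspec
    obtain ⟨hnbw, hdgw, _, hsq⟩ := SM1b.wd_deg hWD
    rw [hsq, hnbw, hdgw, SM1b.mH_pair hp1 hp2 hp12 hpair, hSsum', hEr] at hcore
    have hs2 := SM1b.s2_le hmax
    rw [hSsum'] at hs2
    have hs20 : 0 ≤ ∑ v ∈ out H, (dg G H v : ℝ) ^ 2 - (dg G H w : ℝ) ^ 2 := by
      have := Finset.single_le_sum (f := fun v => (dg G H v : ℝ) ^ 2) (fun v _ => sq_nonneg _) hwout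
      linarith only [this]
    generalize ∑ v ∈ out H, (dg G H v : ℝ) ^ 2 = T at hs2 hs20 hcore
    have hxb := hFl.xb0
    have hyb := hFl'.xb0
    have hxy : 0 < xb * yb := mul_pos hxb hyb
    have hxH : ∀ v ∈ H, 199 / 200 * xb ≤ x v ∧ x v ≤ 201 / 200 * xb := by
      intro v hv
      have := abs_le.mp (hFl.xH v hv)
      constructor <;> linarith only [this.1, this.2]
    have hyH : ∀ v ∈ H, 199 / 200 * yb ≤ y v ∧ y v ≤ 201 / 200 * yb := by
      intro v hv
      have := abs_le.mp (hFl'.xH v hv)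
      constructor <;> linarith only [this.1, this.2]
    have hpqn : (df A' (nb G H w)).card + (df (nb G H w) A').card + 3 ≤ 3 * M + (S + E) := by
      unfold df
      exact hA'sum
    have hpq : ((df A' (nb G H w)).card : ℝ) + (df (nb G H w) A').card + 3
        ≤ 3 * M + (S + E) := by
      exact_mod_cast hpqn
    have hpq0 : (0 : ℝ) ≤ (df A' (nb G H w)).card + (df (nb G H w) A').card := by positivity
    generalize ((df A' (nb G H w)).card : ℝ) + (df (nb G H w) A').card = pq at hpq hpq0 hcore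
    have ha0 : (0 : ℝ) ≤ dg G H w := Nat.cast_nonneg _
    rw [hA'r] at hcore
    have hM1r : (1 : ℝ) ≤ M := by exact_mod_cast hM1
    by_cases hM' : M = 1
    · -- one missing pair
      obtain ⟨h4, h5, h6⟩ := hone hM'
      have hmHG : mH G H c x y = x v1 * y v2 + x v2 * y v1 := by
        refine SM1b.mH_pair hv1H hv2H hp12 ?_ x y
        intro a ha b hb
        constructor
        · rintro ⟨h7, h8⟩; exact (h6 a ha b hb h7).mp h8
        · intro h7
          have h8 : c a ≠ c b := by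
            rcases h7 with ⟨rfl, rfl⟩ | ⟨rfl, rfl⟩
            · rw [hcv1, hcv2]; exact h01
            · rw [hcv1, hcv2]; exact h01.symm
          exact ⟨h8, (h6 a ha b hb h8).mpr h7⟩
      have hMr1 : (M : ℝ) = 1 := by exact_mod_cast hM'
      rw [hmHG, hMr1] at hcore
      rw [hMr1] at hpq
      have hQ1 : (1 : ℝ) ≤ (S : ℝ) + E := by
        have : 1 ≤ S + E := by omega
        exact_mod_cast this
      have har := SM1b.arith1 (1 / 200) (dg G H w) ((S : ℝ) + E) (T - (dg G H w : ℝ) ^ 2) S pq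
        (by norm_num) (by norm_num) ha0 hQ1 (by linarith only []) (by linarith only [hs2]) hs20 (by linarith only [hpq]) hpq0
      have har2 := mul_pos hxy har
      have e1 : xb * yb * ((↑(dg G H w) + (↑S + ↑E)) ^ 2
          - (T - (dg G H w : ℝ) ^ 2 + (dg G H w : ℝ) ^ 2) - 30 * (1 / 200)
          * (pq * (↑(dg G H w) + (↑S + ↑E) + ↑(dg G H w)) + 0 + (T - (dg G H w : ℝ) ^ 2)
            + (↑S + ↑E)))
          = Real.sqrt 0 + (specRad G * (x v1 * y v2 + x v2 * y v1 - (x v1 * y v2 + x v2 * y v1))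
            + xb * yb * (((dg G H w : ℝ) + 1 - 1 + (S + E)) ^ 2 - T
            - 30 * (1 / 200) * (pq * ((dg G H w : ℝ) + 1 - 1 + (S + E) + dg G H w)
              + (((dg G H w : ℝ) + 1 - 1 + (S + E)) ^ 2 - ((dg G H w : ℝ) + 1 - 1 + (S + E)) ^ 2)
              + (T - (dg G H w : ℝ) ^ 2) + ((dg G H w : ℝ) + S - dg G H w + 2 * E / 2)))) := by
        rw [Real.sqrt_zero]; ring
      rw [e1, Real.sqrt_zero, zero_add] at har2
      exact absurd hcore (not_le.mpr har2)
    · have hM2 : 2 ≤ M := by omega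
      have hM2r : (2 : ℝ) ≤ M := by exact_mod_cast hM2
      have hlow := SM1b.mH_lower (G := G) (H := H) (c := c) (x := x) (y := y)
        (s := 199 / 200 * xb) (t := 199 / 200 * yb) (by positivity) (by positivity)
        (fun v hv => (hxH v hv).1) (fun v hv => (hyH v hv).1)
      rw [hMr] at hlow
      have hup1 : x v1 * y v2 ≤ 201 / 200 * xb * (201 / 200 * yb) :=
        mul_le_mul (hxH v1 hv1H).2 (hyH v2 hv2H).2 (hy.nn v2) (by positivity)
      have hup2 : x v2 * y v1 ≤ 201 / 200 * xb * (201 / 200 * yb) :=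
        mul_le_mul (hxH v2 hv2H).2 (hyH v1 hv1H).2 (hy.nn v1) (by positivity)
      have hdiff : 3 / 2 * (M - 1) * (xb * yb)
          ≤ mH G H c x y - (x v1 * y v2 + x v2 * y v1) := by
        have h3 : 2 * (M : ℝ) * (199 / 200 * xb * (199 / 200 * yb))
            - 2 * (201 / 200 * xb * (201 / 200 * yb)) - 3 / 2 * (M - 1) * (xb * yb)
            = (2 * M * (39601 / 40000) - 2 * (40401 / 40000) - 3 / 2 * (M - 1)) * (xb * yb) := by
          ring
        have h4 : 0 ≤ (2 * (M : ℝ) * (39601 / 40000) - 2 * (40401 / 40000) - 3 / 2 * (M - 1))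
            * (xb * yb) := mul_nonneg (by linarith only [hM2r]) hxy.le
        linarith only [hlow, hup1, hup2, h4]
      have hlamN := abs_le.mp hFl.lamN
      have halr := al_ge hr
      have hlam : N / 2 ≤ specRad G := by
        have h3 : 2 / 3 * (N : ℝ) ≤ al r * N := mul_le_mul_of_nonneg_right halr hNpos.le
        linarith only [h3, hlamN.1]
      have hX : N * (M - 1) / 4 ≤ specRad G * (3 / 2 * (M - 1)) := by
        have h3 : N / 2 * (3 / 2 * ((M : ℝ) - 1)) ≤ specRad G * (3 / 2 * (M - 1)) :=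
          mul_le_mul_of_nonneg_right hlam (by linarith only [hM2r])
        have h4 : 0 ≤ (N : ℝ) * (M - 1) := mul_nonneg hNpos.le (by linarith only [hM2r])
        linarith only [h3, h4]
      have hlam0 : 0 ≤ specRad G := by linarith only [hbN, hlam]
      have hQint : (S : ℝ) + E = 0 ∨ 1 ≤ (S : ℝ) + E := by
        rcases Nat.eq_zero_or_pos (S + E) with h | h
        · left; exact_mod_cast h
        · right; exact_mod_cast h
      have hA'nn : (0 : ℝ) ≤ (dg G H w : ℝ) + (S + E) - (M - 1) := by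
        have : (0 : ℝ) ≤ (A'.card : ℝ) := Nat.cast_nonneg _
        rw [hA'r] at this
        linarith only [this]
      have har := SM1b.arith2 (1 / 200) N (dg G H w) ((S : ℝ) + E) (M - 1)
        (T - (dg G H w : ℝ) ^ 2) S pq (specRad G * (3 / 2 * (M - 1))) (by norm_num) (by norm_num)
        ha0 (by linarith only []) (by linarith only [hM2r]) (by linarith only []) (by linarith only [hs2]) hs20 (by linarith only [hpq])
        hQint hA'nn (by
          have : δ * N ≤ 1 / 200 * N := mul_le_mul_of_nonneg_right (by linarith only [hδ200]) hNpos.le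
          linarith only [heoN, this]) hX
      have har2 := mul_pos hxy har
      have h3 := mul_le_mul_of_nonneg_left hdiff hlam0
      have e1 : xb * yb * (specRad G * (3 / 2 * (M - 1))
          + ((↑(dg G H w) + (↑S + ↑E) - (↑M - 1)) ^ 2
          - (T - (dg G H w : ℝ) ^ 2 + (dg G H w : ℝ) ^ 2) - 30 * (1 / 200)
          * (pq * (↑(dg G H w) + (↑S + ↑E) - (↑M - 1) + ↑(dg G H w)) + 0
            + (T - (dg G H w : ℝ) ^ 2) + (↑S + ↑E))))
          = specRad G * (3 / 2 * (M - 1) * (xb * yb))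
            + xb * yb * (((dg G H w : ℝ) + 1 - M + (S + E)) ^ 2 - T
            - 30 * (1 / 200) * (pq * ((dg G H w : ℝ) + 1 - M + (S + E) + dg G H w)
              + (((dg G H w : ℝ) + 1 - M + (S + E)) ^ 2 - ((dg G H w : ℝ) + 1 - M + (S + E)) ^ 2)
              + (T - (dg G H w : ℝ) ^ 2) + ((dg G H w : ℝ) + S - dg G H w + 2 * E / 2))) := by
        ring
      rw [e1] at har2
      linarith only [hcore, har2, h3]

end Pool.Agent.Work.MP_5532fa_up

end

section

/-!
# MP_5532fa_co, upgrade, second round: block CORE (comparison of two graphs)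
-/

set_option autoImplicit false

open Finset

namespace Pool.Agent.Work.MP_5532fa_up

open MP5532fa (specRad qf pE)

namespace CORE

variable {V : Type} [Fintype V] {r : ℕ}

theorem sum_split (H : Finset V) (f : V → ℝ) :
    ∑ v, f v = ∑ v ∈ H, f v + ∑ v ∈ out H, f v := by
  classical
  have h := Finset.sum_filter_add_sum_filter_not univ (fun v => v ∈ H) f
  have h1 : univ.filter (fun v => v ∈ H) = H := by ext a; simp
  have h2 : univ.filter (fun v => ¬ v ∈ H) = out H := by ext a; simp [mem_out]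
  rw [h1, h2] at h
  exact h.symm

omit [Fintype V] in
theorem sum_nb (G : SimpleGraph V) (H : Finset V) (v : V) (f : V → ℝ) :
    ∑ u ∈ nb G H v, f u = ∑ u ∈ H, ad G v u * f u := by
  classical
  unfold nb
  rw [Finset.sum_filter]
  refine Finset.sum_congr rfl fun u _ => ?_
  by_cases h : G.Adj v u
  · rw [if_pos h]; unfold ad; rw [chi_pos h, one_mul]
  · rw [if_neg h]; unfold ad; rw [chi_neg h, zero_mul]

omit [Fintype V] in
theorem adH {G : SimpleGraph V} {c : V → Fin r} {a b : V} (h : c a = c b → ¬ G.Adj a b) :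
    ad G a b = chi (c a ≠ c b) - chi (c a ≠ c b ∧ ¬ G.Adj a b) := by
  unfold ad
  by_cases h1 : c a = c b
  · rw [chi_neg (h h1), chi_neg (fun h2 => h2 h1), chi_neg (fun h2 => h2.1 h1), sub_zero]
  · by_cases h2 : G.Adj a b
    · rw [chi_pos h2, chi_pos h1, chi_neg (fun h3 => h3.2 h2), sub_zero]
    · rw [chi_neg h2, chi_pos h1, chi_pos ⟨h1, h2⟩, sub_self]

/-- the eigenvalue equation summed over `H` -/
theorem half {G : SimpleGraph V} {c : V → Fin r} {H : Finset V} {x y : V → ℝ} {lam : ℝ}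
    (hG : ∀ u ∈ H, ∀ v ∈ H, c u = c v → ¬ G.Adj u v) (hy : PV G y lam) :
    lam * ∑ v ∈ H, x v * y v = ∑ a ∈ H, ∑ b ∈ H, chi (c a ≠ c b) * (x a * y b)
      - mH G H c x y + ∑ v ∈ out H, y v * ∑ u ∈ nb G H v, x u := by
  have e1 : lam * ∑ v ∈ H, x v * y v = ∑ a ∈ H, x a * ∑ b, ad G a b * y b := by
    rw [Finset.mul_sum]
    refine Finset.sum_congr rfl fun a _ => ?_
    rw [hy.eig]; ring
  have e2 : ∑ a ∈ H, x a * ∑ b, ad G a b * y b =
      ∑ a ∈ H, ∑ b ∈ H, ad G a b * (x a * y b) + ∑ a ∈ H, ∑ b ∈ out H, ad G a b * (x a * y b) := by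
    rw [← Finset.sum_add_distrib]
    refine Finset.sum_congr rfl fun a _ => ?_
    rw [sum_split H, mul_add, Finset.mul_sum, Finset.mul_sum]
    refine congrArg₂ (· + ·) ?_ ?_
    · exact Finset.sum_congr rfl fun b _ => by ring
    · exact Finset.sum_congr rfl fun b _ => by ring
  have e3 : ∑ a ∈ H, ∑ b ∈ H, ad G a b * (x a * y b) =
      ∑ a ∈ H, ∑ b ∈ H, chi (c a ≠ c b) * (x a * y b) - mH G H c x y := by
    unfold mH
    rw [← Finset.sum_sub_distrib]
    refine Finset.sum_congr rfl fun a ha => ?_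
    rw [← Finset.sum_sub_distrib]
    refine Finset.sum_congr rfl fun b hb => ?_
    rw [adH (hG a ha b hb)]; ring
  have e4 : ∑ a ∈ H, ∑ b ∈ out H, ad G a b * (x a * y b) =
      ∑ v ∈ out H, y v * ∑ u ∈ nb G H v, x u := by
    rw [Finset.sum_comm]
    refine Finset.sum_congr rfl fun b _ => ?_
    rw [sum_nb, Finset.mul_sum]
    refine Finset.sum_congr rfl fun a _ => ?_
    rw [ad_comm G a b]; ring
  rw [e1, e2, e3, e4]

omit [Fintype V] in
theorem mH_comm (G : SimpleGraph V) (H : Finset V) (c : V → Fin r) (x y : V → ℝ) :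
    mH G H c x y = mH G H c y x := by
  unfold mH
  rw [Finset.sum_comm]
  refine Finset.sum_congr rfl fun a _ => Finset.sum_congr rfl fun b _ => ?_
  rw [chi_congr (show (c b ≠ c a ∧ ¬ G.Adj b a) ↔ (c a ≠ c b ∧ ¬ G.Adj a b) from
    ⟨fun h => ⟨h.1.symm, fun h2 => h.2 h2.symm⟩, fun h => ⟨h.1.symm, fun h2 => h.2 h2.symm⟩⟩)]
  ring

omit [Fintype V] in
theorem K_comm (H : Finset V) (c : V → Fin r) (x y : V → ℝ) :
    ∑ a ∈ H, ∑ b ∈ H, chi (c a ≠ c b) * (x a * y b) =
      ∑ a ∈ H, ∑ b ∈ H, chi (c a ≠ c b) * (y a * x b) := by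
  rw [Finset.sum_comm]
  refine Finset.sum_congr rfl fun a _ => Finset.sum_congr rfl fun b _ => ?_
  rw [chi_congr (show (c b ≠ c a) ↔ (c a ≠ c b) from ne_comm)]
  ring

theorem ident {G G' : SimpleGraph V} {c : V → Fin r} {H : Finset V} {x y : V → ℝ}
    {lam lam' : ℝ} (hG : ∀ u ∈ H, ∀ v ∈ H, c u = c v → ¬ G.Adj u v)
    (hG' : ∀ u ∈ H, ∀ v ∈ H, c u = c v → ¬ G'.Adj u v) (hx : PV G x lam) (hy : PV G' y lam') :
    (lam' - lam) * ∑ v ∈ H, x v * y v = mH G H c x y - mH G' H c x y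
      + ∑ v ∈ out H, y v * ∑ u ∈ nb G' H v, x u - ∑ v ∈ out H, x v * ∑ u ∈ nb G H v, y u := by
  have h1 := half (x := x) hG' hy
  have h2 := half (x := y) hG hx
  rw [K_comm H c y x, mH_comm G H c y x] at h2
  have h3 : ∑ v ∈ H, y v * x v = ∑ v ∈ H, x v * y v :=
    Finset.sum_congr rfl fun v _ => mul_comm _ _
  rw [h3] at h2
  rw [sub_mul, h1, h2]
  ring

omit [Fintype V] in
/-- sums over subsets of `H` -/
theorem sum_near {H S : Finset V} {x : V → ℝ} {e xb : ℝ} (h : ∀ v ∈ H, |x v - xb| ≤ e * xb)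
    (hS : S ⊆ H) : |∑ u ∈ S, x u - S.card * xb| ≤ e * xb * S.card := by
  have h1 : ∑ u ∈ S, x u - S.card * xb = ∑ u ∈ S, (x u - xb) := by
    rw [Finset.sum_sub_distrib, Finset.sum_const, nsmul_eq_mul]
  rw [h1]
  refine (Finset.abs_sum_le_sum_abs _ _).trans ?_
  refine (Finset.sum_le_sum fun u hu => h u (hS hu)).trans (le_of_eq ?_)
  rw [Finset.sum_const, nsmul_eq_mul]
  ring

omit [Fintype V] in
theorem nb_sub (G : SimpleGraph V) (H : Finset V) (v : V) : nb G H v ⊆ H := fun _ hu =>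
  (mem_nb.mp hu).1

/-- products of two almost constant sums -/
theorem prod_err {X Y a p xb yb e : ℝ} (hxb : 0 < xb) (hyb : 0 < yb) (he0 : 0 ≤ e)
    (he1 : e ≤ 1 / 10) (ha : 0 ≤ a) {q : ℝ} (hq : 0 ≤ q) (hX : |X - p * xb| ≤ e * xb * q)
    (hpq : |p| ≤ q) (hY : |Y - a * yb| ≤ e * yb * a) :
    |X * Y - p * a * (xb * yb)| ≤ 21 / 10 * e * (q * a) * (xb * yb) := by
  have e1 : X * Y - p * a * (xb * yb) = (X - p * xb) * (Y - a * yb) + (p * xb) * (Y - a * yb)
      + (X - p * xb) * (a * yb) := by ring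
  rw [e1]
  have h1 : |(X - p * xb) * (Y - a * yb)| ≤ (e * xb * q) * (e * yb * a) := by
    rw [abs_mul]
    exact mul_le_mul hX hY (abs_nonneg _) (by positivity)
  have h2 : |(p * xb) * (Y - a * yb)| ≤ (q * xb) * (e * yb * a) := by
    rw [abs_mul]
    refine mul_le_mul ?_ hY (abs_nonneg _) (by positivity)
    rw [abs_mul, abs_of_pos hxb]
    exact mul_le_mul_of_nonneg_right hpq hxb.le
  have h3 : |(X - p * xb) * (a * yb)| ≤ (e * xb * q) * (a * yb) := by
    rw [abs_mul]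
    refine mul_le_mul hX ?_ (abs_nonneg _) (by positivity)
    rw [abs_of_nonneg (by positivity)]
  have h4 := abs_add_three ((X - p * xb) * (Y - a * yb)) ((p * xb) * (Y - a * yb))
    ((X - p * xb) * (a * yb))
  have h5 : (e * xb * q) * (e * yb * a) ≤ 1 / 10 * (e * (q * a) * (xb * yb)) := by
    have : e * (e * (q * a) * (xb * yb)) ≤ 1 / 10 * (e * (q * a) * (xb * yb)) :=
      mul_le_mul_of_nonneg_right he1 (by positivity)
    calc (e * xb * q) * (e * yb * a) = e * (e * (q * a) * (xb * yb)) := by ring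
      _ ≤ _ := this
  have h6 : (q * xb) * (e * yb * a) = e * (q * a) * (xb * yb) := by ring
  have h7 : (e * xb * q) * (a * yb) = e * (q * a) * (xb * yb) := by ring
  linarith

end CORE

open CORE in
theorem blk_CORE : Stmt_CORE := by
  intro r hr V _ G G' c H w x y lam lam' xb yb e N he0 he1 hN hC hG' hw hx hy fx fy hlam
  classical
  have hxb := fx.xb0
  have hyb := fy.xb0
  have hNr : (1 : ℝ) ≤ N := by exact_mod_cast hN
  have hal := al_ge hr
  have hlamN : (N : ℝ) / 2 ≤ lam := by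
    have h1 := (abs_le.mp fx.lamN).1
    have h2 : 2 / 3 * (N : ℝ) ≤ al r * N := mul_le_mul_of_nonneg_right hal (by linarith)
    have h3 : e * (N : ℝ) ≤ 1 / 10 * N := mul_le_mul_of_nonneg_right he1 (by linarith)
    linarith
  have hlam0 : 0 < lam := by linarith
  have hwo : w ∈ out H := mem_out.mpr hw
  -- notation
  obtain ⟨sx, hsx⟩ : ∃ f : V → ℝ, f = fun v => ∑ u ∈ nb G H v, x u := ⟨_, rfl⟩
  obtain ⟨sy, hsy⟩ : ∃ f : V → ℝ, f = fun v => ∑ u ∈ nb G H v, y u := ⟨_, rfl⟩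
  obtain ⟨sx', hsx'⟩ : ∃ f : V → ℝ, f = fun v => ∑ u ∈ nb G' H v, x u := ⟨_, rfl⟩
  obtain ⟨sy', hsy'⟩ : ∃ f : V → ℝ, f = fun v => ∑ u ∈ nb G' H v, y u := ⟨_, rfl⟩
  obtain ⟨t, ht⟩ : ∃ f : V → ℝ, f = fun v => ∑ b ∈ out H, ad G v b * x b := ⟨_, rfl⟩
  obtain ⟨d, hd⟩ : ∃ f : V → ℝ, f = fun v => (dg G H v : ℝ) := ⟨_, rfl⟩
  obtain ⟨d', hd'⟩ : ∃ f : V → ℝ, f = fun v => (dg G' H v : ℝ) := ⟨_, rfl⟩
  have hd0 : ∀ v, 0 ≤ d v := fun v => by rw [hd]; exact Nat.cast_nonneg _
  have hd0' : ∀ v, 0 ≤ d' v := fun v => by rw [hd']; exact Nat.cast_nonneg _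
  have nx : ∀ v, |sx v - d v * xb| ≤ e * xb * d v := fun v => by
    rw [hsx, hd]; exact sum_near fx.xH (nb_sub G H v)
  have ny : ∀ v, |sy v - d v * yb| ≤ e * yb * d v := fun v => by
    rw [hsy, hd]; exact sum_near fy.xH (nb_sub G H v)
  have nx' : ∀ v, |sx' v - d' v * xb| ≤ e * xb * d' v := fun v => by
    rw [hsx', hd']; exact sum_near fx.xH (nb_sub G' H v)
  have ny' : ∀ v, |sy' v - d' v * yb| ≤ e * yb * d' v := fun v => by
    rw [hsy', hd']; exact sum_near fy.xH (nb_sub G' H v)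
  have sy0 : ∀ v, 0 ≤ sy v := fun v => by
    rw [hsy]; exact Finset.sum_nonneg fun u _ => hy.nn u
  have sx0' : ∀ v, 0 ≤ sx' v := fun v => by
    rw [hsx']; exact Finset.sum_nonneg fun u _ => hx.nn u
  have t0 : ∀ v, 0 ≤ t v := fun v => by
    rw [ht]; exact Finset.sum_nonneg fun u _ => mul_nonneg (chi_nonneg _) (hx.nn u)
  -- the basic inequality
  have hid := ident hC.ind hG' hx hy
  have hS : 0 ≤ ∑ v ∈ H, x v * y v :=
    Finset.sum_nonneg fun v _ => mul_nonneg (hx.nn v) (hy.nn v)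
  have hL : (lam' - lam) * ∑ v ∈ H, x v * y v ≤ 0 :=
    mul_nonpos_of_nonpos_of_nonneg (by linarith) hS
  have hb1 : mH G H c x y - mH G' H c x y + ∑ v ∈ out H, y v * sx' v -
      ∑ v ∈ out H, x v * sy v ≤ 0 := by
    rw [hsx', hsy]
    rw [hid] at hL
    exact hL
  have ey : ∀ v, sy' v ≤ lam * y v := by
    intro v
    have h1 : lam' * y v ≤ lam * y v := mul_le_mul_of_nonneg_right hlam (hy.nn v)
    refine le_trans ?_ h1
    rw [← hy.eig v, sum_split H, hsy']
    simp only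
    rw [sum_nb]
    have : 0 ≤ ∑ b ∈ out H, ad G' v b * y b :=
      Finset.sum_nonneg fun u _ => mul_nonneg (chi_nonneg _) (hy.nn u)
    linarith
  have ex : ∀ v, lam * x v = sx v + t v := by
    intro v
    rw [← hx.eig v, sum_split H, hsx, ht]
    simp only
    rw [sum_nb]
  have hb2 : lam * (mH G H c x y - mH G' H c x y) + ∑ v ∈ out H, sy' v * sx' v -
      ∑ v ∈ out H, (sx v + t v) * sy v ≤ 0 := by
    have h1 := mul_le_mul_of_nonneg_left hb1 hlam0.le
    have h2 : lam * (mH G H c x y - mH G' H c x y + ∑ v ∈ out H, y v * sx' v -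
        ∑ v ∈ out H, x v * sy v) = lam * (mH G H c x y - mH G' H c x y) +
        ∑ v ∈ out H, (lam * y v) * sx' v - ∑ v ∈ out H, (lam * x v) * sy v := by
      rw [mul_sub, mul_add, Finset.mul_sum, Finset.mul_sum]
      refine congrArg₂ (· - ·) (congrArg₂ (· + ·) rfl ?_) ?_
      · exact Finset.sum_congr rfl fun v _ => by ring
      · exact Finset.sum_congr rfl fun v _ => by ring
    rw [h2, mul_zero] at h1
    have h3 : ∑ v ∈ out H, sy' v * sx' v ≤ ∑ v ∈ out H, (lam * y v) * sx' v :=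
      Finset.sum_le_sum fun v _ => mul_le_mul_of_nonneg_right (ey v) (sx0' v)
    have h4 : ∑ v ∈ out H, (lam * x v) * sy v = ∑ v ∈ out H, (sx v + t v) * sy v :=
      Finset.sum_congr rfl fun v _ => by rw [ex]
    linarith
  -- sizes
  obtain ⟨D, hD⟩ : ∃ D : ℝ, D = ∑ v ∈ out H, d v := ⟨_, rfl⟩
  have hDw : D = d w + ∑ v ∈ (out H).erase w, d v := by
    rw [hD, Finset.add_sum_erase _ _ hwo]
  have hDe0 : 0 ≤ ∑ v ∈ (out H).erase w, d v := Finset.sum_nonneg fun v _ => hd0 v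
  have hD0 : 0 ≤ D := by rw [hD]; exact Finset.sum_nonneg fun v _ => hd0 v
  have hdsum : ∀ v, d v = ∑ u ∈ H, ad G v u := by
    intro v
    have := sum_nb G H v (fun _ => 1)
    simp only [Finset.sum_const, nsmul_eq_mul, mul_one] at this
    rw [hd]
    exact this
  obtain ⟨E, hE⟩ : ∃ E : ℝ, E = (eu G H : ℝ) := ⟨_, rfl⟩
  have hEsum : E = ∑ u ∈ out H, ∑ v ∈ out H, ad G u v := by
    rw [hE]
    unfold eu
    rw [Finset.card_filter, Nat.cast_sum, ← Finset.univ_product_univ, Finset.sum_product]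
    unfold out
    rw [Finset.sum_filter]
    refine Finset.sum_congr rfl fun u _ => ?_
    by_cases hu : u ∉ H
    · rw [if_pos hu, Finset.sum_filter]
      refine Finset.sum_congr rfl fun v _ => ?_
      by_cases hv : v ∉ H
      · rw [if_pos hv]
        by_cases h : G.Adj u v
        · rw [if_pos ⟨h, hu, hv⟩]; unfold ad; rw [chi_pos h, Nat.cast_one]
        · rw [if_neg (fun h' => h h'.1)]; unfold ad; rw [chi_neg h, Nat.cast_zero]
      · rw [if_neg hv, if_neg (fun h' => hv h'.2.2), Nat.cast_zero]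
    · rw [if_neg hu]
      refine Finset.sum_eq_zero fun v _ => ?_
      rw [if_neg (fun h' => hu h'.2.1), Nat.cast_zero]
  have hE0 : 0 ≤ E := by rw [hE]; exact Nat.cast_nonneg _
  have hDeo : D ≤ e * N := by
    have h1 := hC.eo
    rw [EDG.eo_eq] at h1
    have h2 : ∑ u ∈ out H, ∑ v, ad G u v = D + E := by
      rw [hD, hEsum, ← Finset.sum_add_distrib]
      refine Finset.sum_congr rfl fun u _ => ?_
      rw [sum_split H, hdsum]
    rw [h2] at h1
    linarith
  obtain ⟨Q, hQ⟩ : ∃ Q : ℝ, Q = ∑ v ∈ (out H).erase w, d v + E / 2 := ⟨_, rfl⟩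
  have hQ0 : 0 ≤ Q := by rw [hQ]; positivity
  -- the last sum
  have ht1 : ∑ v ∈ out H, t v * d v ≤ 27 / 5 * e * xb * Q := by
    have h1 : ∑ v ∈ out H, t v * d v = ∑ b ∈ out H, x b * ∑ v ∈ out H, ad G v b * d v := by
      rw [ht]
      simp only [Finset.sum_mul, Finset.mul_sum]
      rw [Finset.sum_comm]
      exact Finset.sum_congr rfl fun b _ => Finset.sum_congr rfl fun v _ => by ring
    have h2 : ∑ v ∈ out H, ad G v w * d v ≤ ∑ v ∈ (out H).erase w, d v := by
      rw [← Finset.add_sum_erase _ _ hwo]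
      have h3 : ad G w w = 0 := by
        unfold ad
        rw [chi_neg (G.loopless.irrefl w)]
      rw [h3, zero_mul, zero_add]
      refine Finset.sum_le_sum fun v _ => ?_
      exact mul_le_of_le_one_left (hd0 v) (chi_le_one _)
    have h4 : ∀ b, ∑ v ∈ out H, ad G v b * d v ≤ D := by
      intro b
      rw [hD]
      exact Finset.sum_le_sum fun v _ => mul_le_of_le_one_left (hd0 v) (chi_le_one _)
    have h5 : ∑ v ∈ out H, t v * d v ≤ x w * ∑ v ∈ (out H).erase w, d v +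
        D * ∑ b ∈ (out H).erase w, x b := by
      rw [h1, ← Finset.add_sum_erase _ _ hwo]
      refine add_le_add (mul_le_mul_of_nonneg_left h2 (hx.nn w)) ?_
      rw [Finset.mul_sum]
      refine Finset.sum_le_sum fun b _ => ?_
      rw [mul_comm D]
      exact mul_le_mul_of_nonneg_left (h4 b) (hx.nn b)
    have h6 : lam * ∑ b ∈ (out H).erase w, x b ≤ 2 * (1 + e) * xb * Q := by
      rw [Finset.mul_sum]
      have h7 : ∀ b ∈ (out H).erase w, lam * x b ≤
          (1 + e) * xb * d b + (1 + e) * xb * ∑ z ∈ out H, ad G b z := by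
        intro b _
        rw [ex b]
        have h8 := (abs_le.mp (nx b)).2
        have h9 : t b ≤ (1 + e) * xb * ∑ z ∈ out H, ad G b z := by
          rw [ht, Finset.mul_sum]
          refine Finset.sum_le_sum fun z hz => ?_
          rw [mul_comm]
          refine mul_le_mul_of_nonneg_right ?_ (chi_nonneg _)
          have h10 := fx.xo z (mem_out.mp hz)
          linarith
        linarith
      refine (Finset.sum_le_sum h7).trans ?_
      rw [Finset.sum_add_distrib, ← Finset.mul_sum, ← Finset.mul_sum]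
      have h11 : ∑ b ∈ (out H).erase w, ∑ z ∈ out H, ad G b z ≤ E := by
        rw [hEsum]
        refine Finset.sum_le_sum_of_subset_of_nonneg (Finset.erase_subset _ _) ?_
        intro b _ _
        exact Finset.sum_nonneg fun z _ => chi_nonneg _
      have h12 : (1 + e) * xb * ∑ b ∈ (out H).erase w, ∑ z ∈ out H, ad G b z ≤
          (1 + e) * xb * E := mul_le_mul_of_nonneg_left h11 (by positivity)
      have h13 : 2 * (1 + e) * xb * Q = (1 + e) * xb * (2 * ∑ v ∈ (out H).erase w, d v) +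
          (1 + e) * xb * E := by rw [hQ]; ring
      have h14 : (1 + e) * xb * ∑ b ∈ (out H).erase w, d b ≤
          (1 + e) * xb * (2 * ∑ v ∈ (out H).erase w, d v) :=
        mul_le_mul_of_nonneg_left (by linarith) (by positivity)
      linarith
    have hX0 : 0 ≤ ∑ b ∈ (out H).erase w, x b := Finset.sum_nonneg fun b _ => hx.nn b
    have h15 : D * ∑ b ∈ (out H).erase w, x b ≤ 22 / 5 * e * xb * Q := by
      have h16 : D ≤ 2 * e * lam := by
        have : e * (N : ℝ) ≤ e * (2 * lam) := mul_le_mul_of_nonneg_left (by linarith) he0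
        linarith
      calc D * ∑ b ∈ (out H).erase w, x b ≤ (2 * e * lam) * ∑ b ∈ (out H).erase w, x b :=
            mul_le_mul_of_nonneg_right h16 hX0
        _ = (2 * e) * (lam * ∑ b ∈ (out H).erase w, x b) := by ring
        _ ≤ (2 * e) * (2 * (1 + e) * xb * Q) := mul_le_mul_of_nonneg_left h6 (by positivity)
        _ = (4 * (1 + e)) * (e * xb * Q) := by ring
        _ ≤ (22 / 5) * (e * xb * Q) :=
            mul_le_mul_of_nonneg_right (by linarith) (by positivity)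
        _ = _ := by ring
    have h17 : x w * ∑ v ∈ (out H).erase w, d v ≤ e * xb * Q := by
      have h18 := fx.xo w hw
      have h19 : ∑ v ∈ (out H).erase w, d v ≤ Q := by rw [hQ]; linarith
      exact mul_le_mul h18 h19 hDe0 (by positivity)
    linarith
  have ht2 : ∑ v ∈ out H, t v * sy v ≤ 8 * e * (xb * yb) * Q := by
    have h1 : ∀ v ∈ out H, t v * sy v ≤ (11 / 10 * yb) * (t v * d v) := by
      intro v _
      have h2 := (abs_le.mp (ny v)).2
      have h3 : e * yb * d v ≤ 1 / 10 * yb * d v := by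
        have : 0 ≤ yb * d v := mul_nonneg hyb.le (hd0 v)
        have := mul_le_mul_of_nonneg_right he1 this
        linarith
      have h4 : sy v ≤ 11 / 10 * yb * d v := by linarith
      have h5 := mul_le_mul_of_nonneg_left h4 (t0 v)
      linarith
    refine (Finset.sum_le_sum h1).trans ?_
    rw [← Finset.mul_sum]
    have h6 := mul_le_mul_of_nonneg_left ht1 (show 0 ≤ 11 / 10 * yb by positivity)
    refine h6.trans ?_
    have h7 : 0 ≤ e * (xb * yb) * Q := by positivity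
    have h8 : 11 / 10 * yb * (27 / 5 * e * xb * Q) = 297 / 50 * (e * (xb * yb) * Q) := by ring
    rw [h8]
    linarith
  -- the vertices different from `w`
  have hv1 : ∀ v, (1 - 2 * e) * (xb * yb) * d' v ^ 2 ≤ sy' v * sx' v := by
    intro v
    have h1 := (abs_le.mp (nx' v)).1
    have h2 := (abs_le.mp (ny' v)).1
    have h3 : (1 - e) * xb * d' v ≤ sx' v := by linarith
    have h4 : (1 - e) * yb * d' v ≤ sy' v := by linarith
    have h6 : 0 ≤ (1 - e) * xb * d' v :=
      mul_nonneg (mul_nonneg (by linarith) hxb.le) (hd0' v)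
    have h7 : 0 ≤ (1 - e) * yb * d' v :=
      mul_nonneg (mul_nonneg (by linarith) hyb.le) (hd0' v)
    have h5 := mul_le_mul h4 h3 h6 (h7.trans h4)
    have h8 : (1 - e) * yb * d' v * ((1 - e) * xb * d' v) =
        (1 - 2 * e) * (xb * yb) * d' v ^ 2 + e ^ 2 * (xb * yb) * d' v ^ 2 := by ring
    have h9 : 0 ≤ e ^ 2 * (xb * yb) * d' v ^ 2 := by positivity
    linarith
  have hv2 : ∀ v, sx v * sy v ≤ (1 + 3 * e) * (xb * yb) * d v ^ 2 := by
    intro v
    have h1 := (abs_le.mp (nx v)).2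
    have h2 := (abs_le.mp (ny v)).2
    have h3 : sx v ≤ (1 + e) * xb * d v := by linarith
    have h4 : sy v ≤ (1 + e) * yb * d v := by linarith
    have h6 : 0 ≤ (1 + e) * xb * d v := mul_nonneg (by positivity) (hd0 v)
    have h5 := mul_le_mul h3 h4 (sy0 v) h6
    have h8 : (1 + e) * xb * d v * ((1 + e) * yb * d v) =
        (1 + 2 * e) * (xb * yb) * d v ^ 2 + e * e * (xb * yb * d v ^ 2) := by ring
    have h9 : e * e * (xb * yb * d v ^ 2) ≤ e * 1 * (xb * yb * d v ^ 2) := by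
      refine mul_le_mul_of_nonneg_right ?_ (by positivity)
      exact mul_le_mul_of_nonneg_left (by linarith) he0
    linarith
  -- the vertex `w`
  obtain ⟨p, hp⟩ : ∃ p : ℝ, p = ((df (nb G' H w) (nb G H w)).card : ℝ) := ⟨_, rfl⟩
  obtain ⟨q, hq⟩ : ∃ q : ℝ, q = ((df (nb G H w) (nb G' H w)).card : ℝ) := ⟨_, rfl⟩
  have hp0 : 0 ≤ p := by rw [hp]; exact Nat.cast_nonneg _
  have hq0 : 0 ≤ q := by rw [hq]; exact Nat.cast_nonneg _
  have hdf : ∀ (S T : Finset V) (f : V → ℝ), ∑ u ∈ S, f u - ∑ u ∈ T, f u =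
      ∑ u ∈ df S T, f u - ∑ u ∈ df T S, f u := by
    intro S T f
    have h1 : ∑ u ∈ S, f u = ∑ u ∈ S ∩ T, f u + ∑ u ∈ df S T, f u := by
      unfold df
      rw [← Finset.sum_filter_add_sum_filter_not S (fun v => v ∈ T) f, Finset.filter_mem_eq_inter]
    have h2 : ∑ u ∈ T, f u = ∑ u ∈ S ∩ T, f u + ∑ u ∈ df T S, f u := by
      unfold df
      rw [← Finset.sum_filter_add_sum_filter_not T (fun v => v ∈ S) f, Finset.filter_mem_eq_inter,
        Finset.inter_comm]
    rw [h1, h2]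
    ring
  have hpq : d' w - d w = p - q := by
    have := hdf (nb G' H w) (nb G H w) (fun _ => 1)
    simp only [Finset.sum_const, nsmul_eq_mul, mul_one] at this
    rw [hd, hd', hp, hq]
    exact this
  have hPsub : df (nb G' H w) (nb G H w) ⊆ H := fun u hu =>
    nb_sub G' H w (mem_df.mp hu).1
  have hRsub : df (nb G H w) (nb G' H w) ⊆ H := fun u hu =>
    nb_sub G H w (mem_df.mp hu).1
  have hXd : |(sx' w - sx w) - (p - q) * xb| ≤ e * xb * (p + q) := by
    have h1 := sum_near fx.xH hPsub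
    have h2 := sum_near fx.xH hRsub
    rw [← hp] at h1
    rw [← hq] at h2
    have h3 : sx' w - sx w = ∑ u ∈ df (nb G' H w) (nb G H w), x u -
        ∑ u ∈ df (nb G H w) (nb G' H w), x u := by
      rw [hsx, hsx']
      exact hdf _ _ _
    rw [h3]
    rw [abs_le] at h1 h2 ⊢
    constructor <;> linarith
  have hYd : |(sy' w - sy w) - (p - q) * yb| ≤ e * yb * (p + q) := by
    have h1 := sum_near fy.xH hPsub
    have h2 := sum_near fy.xH hRsub
    rw [← hp] at h1
    rw [← hq] at h2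
    have h3 : sy' w - sy w = ∑ u ∈ df (nb G' H w) (nb G H w), y u -
        ∑ u ∈ df (nb G H w) (nb G' H w), y u := by
      rw [hsy, hsy']
      exact hdf _ _ _
    rw [h3]
    rw [abs_le] at h1 h2 ⊢
    constructor <;> linarith
  have habs : |p - q| ≤ p + q := by
    rw [abs_le]
    constructor <;> linarith
  have hw1 := prod_err hxb hyb he0 he1 (hd0' w) (by linarith : 0 ≤ p + q) hXd habs (ny' w)
  have hw2 := prod_err hyb hxb he0 he1 (hd0 w) (by linarith : 0 ≤ p + q) hYd habs (nx w)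
  have hw3 : (xb * yb) * (d' w ^ 2 - d w ^ 2) -
      21 / 10 * e * ((p + q) * (d' w + d w)) * (xb * yb) ≤ sy' w * sx' w - sx w * sy w := by
    have h1 := (abs_le.mp hw1).1
    have h2 := (abs_le.mp hw2).1
    have h3 : sy' w * sx' w - sx w * sy w = (sx' w - sx w) * sy' w + (sy' w - sy w) * sx w := by
      ring
    have h4 : (xb * yb) * (d' w ^ 2 - d w ^ 2) = (p - q) * d' w * (xb * yb) +
        (p - q) * d w * (yb * xb) := by
      rw [← hpq]; ring
    rw [h3, h4]
    linarith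
  -- everything together
  have hs1 : ∑ v ∈ out H, sy' v * sx' v = sy' w * sx' w + ∑ v ∈ (out H).erase w, sy' v * sx' v :=
    (Finset.add_sum_erase _ _ hwo).symm
  have hs2 : ∑ v ∈ out H, (sx v + t v) * sy v = sx w * sy w +
      ∑ v ∈ (out H).erase w, sx v * sy v + ∑ v ∈ out H, t v * sy v := by
    have h1 : ∑ v ∈ out H, (sx v + t v) * sy v = ∑ v ∈ out H, sx v * sy v +
        ∑ v ∈ out H, t v * sy v := by
      rw [← Finset.sum_add_distrib]
      exact Finset.sum_congr rfl fun v _ => by ring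
    rw [h1, ← Finset.add_sum_erase (out H) (fun v => sx v * sy v) hwo]
  have hs3 : ∑ v ∈ out H, d' v ^ 2 = d' w ^ 2 + ∑ v ∈ (out H).erase w, d' v ^ 2 :=
    (Finset.add_sum_erase _ _ hwo).symm
  have hs4 : ∑ v ∈ out H, d v ^ 2 = d w ^ 2 + ∑ v ∈ (out H).erase w, d v ^ 2 :=
    (Finset.add_sum_erase _ _ hwo).symm
  have hs5 : (1 - 2 * e) * (xb * yb) * ∑ v ∈ (out H).erase w, d' v ^ 2 ≤
      ∑ v ∈ (out H).erase w, sy' v * sx' v := by
    rw [Finset.mul_sum]
    exact Finset.sum_le_sum fun v _ => hv1 v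
  have hs6 : ∑ v ∈ (out H).erase w, sx v * sy v ≤
      (1 + 3 * e) * (xb * yb) * ∑ v ∈ (out H).erase w, d v ^ 2 := by
    rw [Finset.mul_sum]
    exact Finset.sum_le_sum fun v _ => hv2 v
  obtain ⟨S2', hS2'⟩ : ∃ S : ℝ, S = ∑ v ∈ (out H).erase w, d' v ^ 2 := ⟨_, rfl⟩
  obtain ⟨S2, hS2⟩ : ∃ S : ℝ, S = ∑ v ∈ (out H).erase w, d v ^ 2 := ⟨_, rfl⟩
  have hS20' : 0 ≤ S2' := by rw [hS2']; exact Finset.sum_nonneg fun v _ => sq_nonneg _
  have hS20 : 0 ≤ S2 := by rw [hS2]; exact Finset.sum_nonneg fun v _ => sq_nonneg _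
  rw [← hS2'] at hs3 hs5
  rw [← hS2] at hs4 hs6
  have hgoal : lam * (mH G H c x y - mH G' H c x y) + xb * yb *
      (∑ v ∈ out H, d' v ^ 2 - ∑ v ∈ out H, d v ^ 2
        - 30 * e * ((p + q) * (d' w + d w) + (∑ v ∈ out H, d' v ^ 2 - d' w ^ 2)
          + (∑ v ∈ out H, d v ^ 2 - d w ^ 2) + (∑ v ∈ out H, d v - d w + E / 2))) ≤ 0 := by
    rw [hs3, hs4, ← hD, hDw]
    have hxy : 0 < xb * yb := mul_pos hxb hyb
    have k1 : 0 ≤ e * ((p + q) * (d' w + d w)) * (xb * yb) := by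
      have := hd0 w
      have := hd0' w
      positivity
    have k2 : 0 ≤ e * S2' * (xb * yb) := by positivity
    have k3 : 0 ≤ e * S2 * (xb * yb) := by positivity
    have k4 : 0 ≤ e * (xb * yb) * Q := by positivity
    rw [hs1, hs2] at hb2
    have e1 : xb * yb * (d' w ^ 2 + S2' - (d w ^ 2 + S2)
        - 30 * e * ((p + q) * (d' w + d w) + (d' w ^ 2 + S2' - d' w ^ 2)
          + (d w ^ 2 + S2 - d w ^ 2) + (d w + ∑ v ∈ (out H).erase w, d v - d w + E / 2))) =
        (xb * yb) * (d' w ^ 2 - d w ^ 2) - 30 * (e * ((p + q) * (d' w + d w)) * (xb * yb))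
        + (xb * yb) * S2' - 30 * (e * S2' * (xb * yb)) - (xb * yb) * S2
        - 30 * (e * S2 * (xb * yb)) - 30 * (e * (xb * yb) * Q) := by
      rw [hQ]; ring
    rw [e1]
    have e2 : (1 - 2 * e) * (xb * yb) * S2' = (xb * yb) * S2' - 2 * (e * S2' * (xb * yb)) := by
      ring
    have e3 : (1 + 3 * e) * (xb * yb) * S2 = (xb * yb) * S2 + 3 * (e * S2 * (xb * yb)) := by
      ring
    have e4 : 21 / 10 * e * ((p + q) * (d' w + d w)) * (xb * yb) =
        21 / 10 * (e * ((p + q) * (d' w + d w)) * (xb * yb)) := by ring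
    have e5 : 8 * e * (xb * yb) * Q = 8 * (e * (xb * yb) * Q) := by ring
    rw [e2] at hs5
    rw [e3] at hs6
    rw [e4] at hw3
    rw [e5] at ht2
    linarith
  rw [hd, hd', hp, hq, hE] at hgoal
  exact hgoal

end Pool.Agent.Work.MP_5532fa_up

end

section

open Finset

namespace Pool.Agent.Work.MP_5532fa_up

open MP5532fa (specRad qf pE)

theorem blk_ESTU (hCSE : Stmt_CSE) : Stmt_ESTU := fun r e hr he => EST.main hCSE r e hr he

/-- the range `RgU` is below `al r * N` -/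
theorem RgU.le {r : ℕ} (hr : 3 ≤ r) {ε : ℝ} (hε : 0 < ε) {N j : ℕ} (h : RgU r ε N j) :
    (j : ℝ) ≤ al r * N := by
  have h1 := al_ge hr
  have h2 : (0 : ℝ) < 2 / r := by
    have : (3 : ℝ) ≤ r := by exact_mod_cast hr
    positivity
  have hN : (0 : ℝ) ≤ N := Nat.cast_nonneg N
  unfold RgU at h
  refine h.trans (mul_le_mul_of_nonneg_right ?_ hN)
  nlinarith

/-- a neighbour of a vertex with positive entry has a positive entry -/
theorem xpos_of_adj {V : Type} [Fintype V] {G : SimpleGraph V} {x : V → ℝ} {lam : ℝ}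
    (hx : PV G x lam) (hl : 0 < lam) {w a : V} (h : G.Adj w a) (ha : 0 < x a) : 0 < x w := by
  have h1 := hx.eig w
  have h2 : ad G w a * x a ≤ ∑ v, ad G w v * x v :=
    Finset.single_le_sum (f := fun v => ad G w v * x v)
      (fun v _ => mul_nonneg (chi_nonneg _) (hx.nn v)) (Finset.mem_univ a)
  have h3 : ad G w a = 1 := chi_pos h
  rw [h3, one_mul, h1] at h2
  by_contra hcon
  push Not at hcon
  nlinarith

/-- in a graph of type E the entry of `w` is positive -/
theorem xw_pos {V : Type} [Fintype V] {r : ℕ} (hr : 3 ≤ r) {G : SimpleGraph V} {N : ℕ}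
    {H : Finset V} {c : V → Fin r} {w u : V} {A B : Finset V} {i0 : Fin r}
    (hW : WE G N H c w u A B i0) {x : V → ℝ} {lam : ℝ} (hx : PV G x lam) (hl : 0 < lam)
    {e xb : ℝ} (he : e < 1) (hxb : 0 < xb) (hH : ∀ v ∈ H, |x v - xb| ≤ e * xb) : 0 < x w := by
  obtain ⟨i, hi⟩ : ∃ i : Fin r, i ≠ i0 := by
    by_cases h : i0 = ⟨0, by omega⟩
    · refine ⟨⟨1, by omega⟩, ?_⟩
      rw [h]
      intro h2
      exact absurd (congrArg Fin.val h2) (by norm_num)
    · exact ⟨⟨0, by omega⟩, fun h2 => h h2.symm⟩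
  obtain ⟨a, ha⟩ := hW.hAne i hi
  have haA := (mem_cl.mp ha).1
  refine xpos_of_adj hx hl ((hW.adj w a).mpr (Or.inr (Or.inl ⟨rfl, haA⟩))) ?_
  have h1 := (abs_le.mp (hH a (hW.hA haA))).1
  nlinarith

end Pool.Agent.Work.MP_5532fa_up

end
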