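import Mathlib
import Pool.Agent.Work.MP_5532fa_full.P06
import Pool.Agent.Work.MP_5532fa_full.P11

section

/-!
# MP_5532fa_up, second round, block FLAT (helper23)
-/

set_option autoImplicit false

open Finset

namespace Pool.Agent.Work.MP_5532fa_up

open MP5532fa (specRad qf pE)

namespace FLAT

variable {V : Type} [Fintype V] {r : ℕ}

/-- sum of `x` over the missing neighbours of `v` -/
noncomputable def ms (G : SimpleGraph V) (H : Finset V) (c : V → Fin r) (x : V → ℝ) (v : V) : ℝ :=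
  ∑ u ∈ H, chi (c v ≠ c u ∧ ¬ G.Adj v u) * x u

/-- sum of `x` over the neighbours of `v` outside `H` -/
noncomputable def ot (G : SimpleGraph V) (H : Finset V) (x : V → ℝ) (v : V) : ℝ :=
  ∑ u ∈ out H, ad G v u * x u

theorem row {G : SimpleGraph V} {x : V → ℝ} {lam : ℝ} {H : Finset V} {c : V → Fin r}
    (hpv : PV G x lam) (hind : ∀ u ∈ H, ∀ v ∈ H, c u = c v → ¬ G.Adj u v) {v : V} (hv : v ∈ H) :
    lam * x v = ∑ u ∈ H, x u - cs x H c (c v) - ms G H c x v + ot G H x v := by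
  rw [← hpv.eig v, EID.sum_split H]
  unfold ot ms cs cl
  rw [Finset.sum_filter, ← Finset.sum_sub_distrib, ← Finset.sum_sub_distrib]
  congr 1
  refine Finset.sum_congr rfl fun u hu => ?_
  by_cases h1 : c u = c v
  · have h2 : ¬ G.Adj v u := fun h => hind v hv u hu h1.symm h
    rw [if_pos h1, chi_neg (fun h => h.1 h1.symm)]
    unfold ad
    rw [chi_neg h2]
    ring
  · rw [if_neg h1]
    by_cases h2 : G.Adj v u
    · rw [chi_neg (fun h => h.2 h2)]
      unfold ad
      rw [chi_pos h2]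
      ring
    · rw [chi_pos ⟨fun h => h1 h.symm, h2⟩]
      unfold ad
      rw [chi_neg h2]
      ring

omit [Fintype V] in
theorem ms_nonneg {G : SimpleGraph V} {x : V → ℝ} {H : Finset V} {c : V → Fin r}
    (hx : ∀ v, 0 ≤ x v) (v : V) : 0 ≤ ms G H c x v :=
  Finset.sum_nonneg fun u _ => mul_nonneg (chi_nonneg _) (hx u)

theorem ot_nonneg {G : SimpleGraph V} {x : V → ℝ} {H : Finset V}
    (hx : ∀ v, 0 ≤ x v) (v : V) : 0 ≤ ot G H x v :=
  Finset.sum_nonneg fun u _ => mul_nonneg (chi_nonneg _) (hx u)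

omit [Fintype V] in
theorem sum_ms {G : SimpleGraph V} {x : V → ℝ} {H : Finset V} {c : V → Fin r} {m : ℝ}
    (hm : ∀ v ∈ H, x v ≤ m) : ∑ v ∈ H, ms G H c x v ≤ m * mis G H c := by
  rw [EDG.mis_eq, Finset.mul_sum]
  refine Finset.sum_le_sum fun v _ => ?_
  unfold ms
  rw [Finset.mul_sum]
  refine Finset.sum_le_sum fun u hu => ?_
  have := mul_le_mul_of_nonneg_left (hm u hu) (chi_nonneg (c v ≠ c u ∧ ¬ G.Adj v u))
  linarith only [this]

theorem sum_ot {G : SimpleGraph V} {x : V → ℝ} {H : Finset V} {m : ℝ} (hm0 : 0 ≤ m)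
    (hm : ∀ v, v ∉ H → x v ≤ m) : ∑ v ∈ H, ot G H x v ≤ m * eo G H := by
  rw [EDG.eo_eq, Finset.mul_sum]
  unfold ot
  rw [Finset.sum_comm]
  refine Finset.sum_le_sum fun u hu => ?_
  have hu' := mem_out.1 hu
  calc ∑ v ∈ H, ad G v u * x u ≤ ∑ v ∈ H, ad G u v * m := by
        refine Finset.sum_le_sum fun v _ => ?_
        rw [ad_comm G v u]
        exact mul_le_mul_of_nonneg_left (hm u hu') (chi_nonneg _)
    _ ≤ ∑ v, ad G u v * m :=
        Finset.sum_le_univ_sum_of_nonneg fun v => mul_nonneg (chi_nonneg _) hm0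
    _ = m * ∑ v, ad G u v := by rw [← Finset.sum_mul, mul_comm]

theorem sum_out {G : SimpleGraph V} {x : V → ℝ} {lam : ℝ} {H : Finset V} {m : ℝ}
    (hpv : PV G x lam) (hm : ∀ v, x v ≤ m) : lam * ∑ v ∈ out H, x v ≤ m * eo G H := by
  rw [EDG.eo_eq, Finset.mul_sum, Finset.mul_sum]
  refine Finset.sum_le_sum fun u _ => ?_
  rw [← hpv.eig u, Finset.mul_sum]
  refine Finset.sum_le_sum fun v _ => ?_
  have := mul_le_mul_of_nonneg_left (hm v) (chi_nonneg (G.Adj u v))
  unfold ad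
  linarith only [this]

theorem ot_le {G : SimpleGraph V} {x : V → ℝ} {H : Finset V} (hx : ∀ v, 0 ≤ x v) (v : V) :
    ot G H x v ≤ ∑ u ∈ out H, x u := by
  refine Finset.sum_le_sum fun u _ => ?_
  have := mul_le_mul_of_nonneg_right (chi_le_one (G.Adj v u)) (hx u)
  unfold ad
  linarith only [this]

/-- the equation for the class sums -/
theorem class_eq {G : SimpleGraph V} {x : V → ℝ} {lam : ℝ} {H : Finset V} {c : V → Fin r}
    (hpv : PV G x lam) (hind : ∀ u ∈ H, ∀ v ∈ H, c u = c v → ¬ G.Adj u v) (i : Fin r) :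
    (lam + sz H c i) * cs x H c i = sz H c i * ∑ u ∈ H, x u +
      ∑ v ∈ cl H c i, (ot G H x v - ms G H c x v) := by
  have h1 : lam * cs x H c i = ∑ v ∈ cl H c i,
      ((∑ u ∈ H, x u - cs x H c i) + (ot G H x v - ms G H c x v)) := by
    unfold cs
    rw [Finset.mul_sum]
    refine Finset.sum_congr rfl fun v hv => ?_
    obtain ⟨h2, h3⟩ := mem_cl.1 hv
    rw [row hpv hind h2, h3]
    unfold cs
    ring
  rw [add_mul, h1, Finset.sum_add_distrib, Finset.sum_const, nsmul_eq_mul]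
  unfold sz
  ring

/-- the error terms -/
theorem th_bound {G : SimpleGraph V} {x : V → ℝ} {H : Finset V} {c : V → Fin r}
    (hx : ∀ v, 0 ≤ x v) (i : Fin r) :
    |∑ v ∈ cl H c i, (ot G H x v - ms G H c x v)| ≤
      ∑ v ∈ H, ot G H x v + ∑ v ∈ H, ms G H c x v := by
  refine (Finset.abs_sum_le_sum_abs _ _).trans ?_
  rw [← Finset.sum_add_distrib]
  have h1 : ∑ v ∈ cl H c i, |ot G H x v - ms G H c x v| ≤
      ∑ v ∈ cl H c i, (ot G H x v + ms G H c x v) := by
    refine Finset.sum_le_sum fun v _ => ?_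
    have h2 := ot_nonneg (G := G) (H := H) hx v
    have h3 := ms_nonneg (G := G) (H := H) (c := c) hx v
    rw [abs_le]
    constructor <;> linarith only [h2, h3]
  refine h1.trans (Finset.sum_le_sum_of_subset_of_nonneg (Finset.filter_subset _ _) ?_)
  intro v _ _
  exact add_nonneg (ot_nonneg hx v) (ms_nonneg hx v)

theorem num1 {N xb S lam Ai Ak a e : ℝ} (hN : 0 < N) (hxb : 0 < xb) (he : 0 ≤ e)
    (he1 : e ≤ 1 / 20) (ha : 0 ≤ a) (ha1 : a ≤ 1) (hS : |S - N * xb| ≤ e * (N * xb))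
    (hl : |lam - a * N| ≤ e * N) (hAi : |Ai - N| ≤ 2 * e * N) (hAk : |Ak - N| ≤ 2 * e * N) :
    |S * lam - a * xb * (Ai * Ak)| ≤ 7 * e * (N ^ 2 * xb) ∧ 4 / 5 * N ^ 2 ≤ Ai * Ak := by
  obtain ⟨p, hp⟩ : ∃ p, S = N * xb + p := ⟨S - N * xb, by ring⟩
  obtain ⟨q, hq⟩ : ∃ q, lam = a * N + q := ⟨lam - a * N, by ring⟩
  obtain ⟨s, hs⟩ : ∃ s, Ai = N + s := ⟨Ai - N, by ring⟩
  obtain ⟨t, ht⟩ : ∃ t, Ak = N + t := ⟨Ak - N, by ring⟩
  subst hp hq hs ht
  rw [add_sub_cancel_left] at hS hl hAi hAk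
  have hNx : 0 < N * xb := mul_pos hN hxb
  constructor
  · have e1 : (N * xb + p) * (a * N + q) - a * xb * ((N + s) * (N + t)) =
        N * xb * q + p * (a * N) + p * q - a * xb * (N * s + N * t + s * t) := by ring
    rw [e1]
    have b1 : |N * xb * q| ≤ N * xb * (e * N) := by
      rw [abs_mul, abs_of_pos hNx]
      exact mul_le_mul_of_nonneg_left hl hNx.le
    have b2 : |p * (a * N)| ≤ e * (N * xb) * (1 * N) := by
      rw [abs_mul, abs_of_nonneg (show 0 ≤ a * N by positivity)]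
      exact mul_le_mul hS (mul_le_mul_of_nonneg_right ha1 hN.le) (by positivity) (by positivity)
    have b3 : |p * q| ≤ e * (N * xb) * (e * N) := by
      rw [abs_mul]
      exact mul_le_mul hS hl (abs_nonneg _) (by positivity)
    have b4 : |N * s + N * t + s * t| ≤ N * (2 * e * N) + N * (2 * e * N) +
        (2 * e * N) * (2 * e * N) := by
      refine (abs_add_le _ _).trans (add_le_add ((abs_add_le _ _).trans (add_le_add ?_ ?_)) ?_)
      · rw [abs_mul, abs_of_pos hN]; exact mul_le_mul_of_nonneg_left hAi hN.le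
      · rw [abs_mul, abs_of_pos hN]; exact mul_le_mul_of_nonneg_left hAk hN.le
      · rw [abs_mul]; exact mul_le_mul hAi hAk (abs_nonneg _) (by positivity)
    have b5 : |a * xb * (N * s + N * t + s * t)| ≤ 1 * xb * (N * (2 * e * N) + N * (2 * e * N) +
        (2 * e * N) * (2 * e * N)) := by
      rw [abs_mul, abs_of_nonneg (show 0 ≤ a * xb by positivity)]
      exact mul_le_mul (mul_le_mul_of_nonneg_right ha1 hxb.le) b4 (abs_nonneg _) (by positivity)
    have b6 : |N * xb * q + p * (a * N) + p * q - a * xb * (N * s + N * t + s * t)| ≤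
        |N * xb * q| + |p * (a * N)| + |p * q| + |a * xb * (N * s + N * t + s * t)| := by
      refine (abs_sub _ _).trans (add_le_add_left ((abs_add_le _ _).trans
        (add_le_add_left (abs_add_le _ _) _)) _)
    refine b6.trans ((add_le_add (add_le_add (add_le_add b1 b2) b3) b5).trans ?_)
    have h1 : e * e ≤ 1 / 20 * e := mul_le_mul_of_nonneg_right he1 he
    have h2 : 0 ≤ N ^ 2 * xb := by positivity
    have h3 : N * xb * (e * N) + e * (N * xb) * (1 * N) + e * (N * xb) * (e * N) +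
        1 * xb * (N * (2 * e * N) + N * (2 * e * N) + (2 * e * N) * (2 * e * N)) =
        6 * e * (N ^ 2 * xb) + 5 * (e * e) * (N ^ 2 * xb) := by ring
    rw [h3]
    nlinarith [mul_le_mul_of_nonneg_right h1 h2, mul_nonneg he h2]
  · have h1 := (abs_le.1 hAi).1
    have h2 := (abs_le.1 hAk).1
    have h3 : 9 / 10 * N ≤ N + s := by nlinarith
    have h4 : 9 / 10 * N ≤ N + t := by nlinarith
    have h5 := mul_le_mul h3 h4 (by positivity) (by linarith only [hN, h3])
    nlinarith [sq_nonneg N]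

theorem num2 {N xb S lam ni nk ci ck ti tk a e d : ℝ} (hN : 0 < N) (hxb : 0 < xb) (he : 0 ≤ e)
    (he1 : e ≤ 1 / 20) (ha : 0 ≤ a) (ha1 : a ≤ 1) (hS : |S - N * xb| ≤ e * (N * xb))
    (hl : |lam - a * N| ≤ e * N) (hAi : |lam + ni - N| ≤ 2 * e * N)
    (hAk : |lam + nk - N| ≤ 2 * e * N) (hd : 0 ≤ d) (hde : d ≤ e)
    (hti : |ti| ≤ 3 * d * (N * xb)) (htk : |tk| ≤ 3 * d * (N * xb))
    (hci : (lam + ni) * ci = ni * S + ti) (hck : (lam + nk) * ck = nk * S + tk) :
    |ci - ck - a * (ni - nk) * xb| ≤ 9 * e * xb * (|ni - nk| + 1) := by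
  obtain ⟨h1, h2⟩ := num1 hN hxb he he1 ha ha1 hS hl hAi hAk
  have hAi0 := (abs_le.1 hAi).1
  have hAi2 := (abs_le.1 hAi).2
  have hAk0 := (abs_le.1 hAk).1
  have hAk2 := (abs_le.1 hAk).2
  have hAip : 0 < lam + ni := by nlinarith
  have hAkp : 0 < lam + nk := by nlinarith
  set P := (lam + ni) * (lam + nk) with hP
  have hPp : 0 < P := mul_pos hAip hAkp
  have e1 : (ci - ck - a * (ni - nk) * xb) * P =
      (S * lam - a * xb * P) * (ni - nk) + (ti * (lam + nk) - tk * (lam + ni)) := by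
    have e2 : (ci - ck - a * (ni - nk) * xb) * P =
        ((lam + ni) * ci) * (lam + nk) - ((lam + nk) * ck) * (lam + ni) -
          a * (ni - nk) * xb * P := by rw [hP]; ring
    rw [e2, hci, hck]
    ring
  have b1 : |(S * lam - a * xb * P) * (ni - nk)| ≤ 7 * e * (N ^ 2 * xb) * |ni - nk| := by
    rw [abs_mul]
    exact mul_le_mul_of_nonneg_right h1 (abs_nonneg _)
  have b2 : |ti * (lam + nk) - tk * (lam + ni)| ≤ 3 * d * (N * xb) * (11 / 10 * N) +
      3 * d * (N * xb) * (11 / 10 * N) := by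
    refine (abs_sub _ _).trans (add_le_add ?_ ?_)
    · rw [abs_mul, abs_of_pos hAkp]
      exact mul_le_mul hti (by nlinarith) hAkp.le (by positivity)
    · rw [abs_mul, abs_of_pos hAip]
      exact mul_le_mul htk (by nlinarith) hAip.le (by positivity)
  have b3 : |ci - ck - a * (ni - nk) * xb| * P ≤
      7 * e * (N ^ 2 * xb) * |ni - nk| + (3 * d * (N * xb) * (11 / 10 * N) +
      3 * d * (N * xb) * (11 / 10 * N)) := by
    have e3 : |ci - ck - a * (ni - nk) * xb| * P = |(ci - ck - a * (ni - nk) * xb) * P| := by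
      rw [abs_mul, abs_of_pos hPp]
    rw [e3, e1]
    exact (abs_add_le _ _).trans (add_le_add b1 b2)
  have b4 : 7 * e * (N ^ 2 * xb) * |ni - nk| + (3 * d * (N * xb) * (11 / 10 * N) +
      3 * d * (N * xb) * (11 / 10 * N)) ≤ 9 * e * xb * (|ni - nk| + 1) * (4 / 5 * N ^ 2) := by
    have h5 : 0 ≤ N ^ 2 * xb := by positivity
    have h6 := mul_le_mul_of_nonneg_right hde h5
    have h7 : 0 ≤ e * (N ^ 2 * xb) * |ni - nk| := by positivity
    have h8 : 0 ≤ e * (N ^ 2 * xb) := by positivity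
    nlinarith
  have b5 : 9 * e * xb * (|ni - nk| + 1) * (4 / 5 * N ^ 2) ≤
      9 * e * xb * (|ni - nk| + 1) * P :=
    mul_le_mul_of_nonneg_left h2 (by positivity)
  exact le_of_mul_le_mul_right (b3.trans (b4.trans b5)) hPp

end FLAT

set_option maxHeartbeats 4000000 in
theorem blk_FLAT (hE : Stmt_EST1) : Stmt_FLAT := by
  intro r hr
  refine ⟨20, by norm_num, fun e he => ?_⟩
  obtain ⟨e', he'0, he'1, he'2⟩ : ∃ e' : ℝ, 0 < e' ∧ e' ≤ 1 / 20 ∧ 9 * e' ≤ e :=
    ⟨min (1 / 20) (e / 9), by positivity, min_le_left _ _, by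
      have := min_le_right (1 / 20 : ℝ) (e / 9); linarith only [this]⟩
  obtain ⟨δ, N0, hδ, hδe, hmain⟩ := hE r e' hr he'0
  have hδe2 : δ ≤ e := by linarith only [he'2, hδ, hδe]
  refine ⟨δ, max N0 1, hδ, hδe2, fun N hN V _ G x lam c H hC hpv => ?_⟩
  have hN1 : 1 ≤ N := (le_max_right _ _).trans hN
  have hN0 : (0 : ℝ) < N := by exact_mod_cast hN1
  obtain ⟨xb, hF⟩ := hmain N ((le_max_left _ _).trans hN) V G x lam c H hC hpv
  have hxb := hF.xb0
  have hNx : 0 < (N : ℝ) * xb := mul_pos hN0 hxb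
  have hal := al_ge hr
  have hal1 := al_lt hr
  -- pointwise bounds
  have hxH : ∀ v ∈ H, x v ≤ (1 + e') * xb := by
    intro v hv
    have := (abs_le.1 (hF.xH v hv)).2
    linarith only [this]
  have hxV : ∀ v, x v ≤ (1 + e') * xb := by
    intro v
    by_cases hv : v ∈ H
    · exact hxH v hv
    · have := hF.xo v hv
      linarith only [hxb, this]
  -- the eigenvalue
  have hl := abs_le.1 hF.lamN
  have hlN : (N : ℝ) / 2 ≤ lam := by nlinarith [hl.1]
  have hl0 : 0 < lam := by linarith only [hN0, hlN]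
  -- sums
  have hms : ∑ v ∈ H, FLAT.ms G H c x v ≤ (1 + e') * xb * mis G H c := FLAT.sum_ms hxH
  have hms2 : ∑ v ∈ H, FLAT.ms G H c x v ≤ 2 * δ * (N * xb) := by
    have h1 := hC.mis
    have h2 : (1 + e') * xb * mis G H c ≤ 2 * xb * (δ * N) :=
      mul_le_mul (by nlinarith) h1 (Nat.cast_nonneg _) (by positivity)
    refine hms.trans (h2.trans (le_of_eq (by ring)))
  have hot : ∑ v ∈ H, FLAT.ot G H x v ≤ δ * (N * xb) := by
    have h0 : ∑ v ∈ H, FLAT.ot G H x v ≤ e' * xb * eo G H :=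
      FLAT.sum_ot (by positivity) hF.xo
    have h2 : e' * xb * eo G H ≤ 1 * xb * (δ * N) :=
      mul_le_mul (by nlinarith) hC.eo (Nat.cast_nonneg _) (by positivity)
    refine h0.trans (h2.trans (le_of_eq (by ring)))
  have hsout : ∑ v ∈ out H, x v ≤ 4 * δ * xb := by
    have h1 : lam * ∑ v ∈ out H, x v ≤ (1 + e') * xb * eo G H := FLAT.sum_out hpv hxV
    have h2 : (1 + e') * xb * eo G H ≤ 2 * xb * (δ * N) :=
      mul_le_mul (by nlinarith) hC.eo (Nat.cast_nonneg _) (by positivity)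
    have h3 : 0 ≤ ∑ v ∈ out H, x v := Finset.sum_nonneg fun v _ => hpv.nn v
    have h4 : (N : ℝ) / 2 * ∑ v ∈ out H, x v ≤ N / 2 * (4 * δ * xb) := by
      have h5 := mul_le_mul_of_nonneg_right hlN h3
      calc (N : ℝ) / 2 * ∑ v ∈ out H, x v ≤ lam * ∑ v ∈ out H, x v := h5
        _ ≤ 2 * xb * (δ * N) := h1.trans h2
        _ = N / 2 * (4 * δ * xb) := by ring
    exact le_of_mul_le_mul_left h4 (by positivity)
  -- the sum over H
  have hS : |∑ u ∈ H, x u - N * xb| ≤ e' * (N * xb) := by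
    have h1 : ∑ u ∈ H, x u - N * xb = ∑ u ∈ H, (x u - xb) := by
      rw [Finset.sum_sub_distrib, Finset.sum_const, nsmul_eq_mul, hC.card]
    rw [h1]
    refine (Finset.abs_sum_le_sum_abs _ _).trans ?_
    refine (Finset.sum_le_sum fun u hu => hF.xH u hu).trans ?_
    rw [Finset.sum_const, nsmul_eq_mul, hC.card]
    exact le_of_eq (by ring)
  have hA : ∀ i, |lam + sz H c i - N| ≤ 2 * e' * N := by
    intro i
    have h1 := abs_le.1 (hC.bal i)
    have h2 : al r * N + N / r = N := by unfold al; ring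
    have h3 : δ * N ≤ e' * N := mul_le_mul_of_nonneg_right hδe hN0.le
    rw [abs_le]
    constructor
    · linarith only [h2, h3, h1.1, hl.1]
    · linarith only [h2, h3, h1.2, hl.2]
  have hth : ∀ i, |∑ v ∈ cl H c i, (FLAT.ot G H x v - FLAT.ms G H c x v)| ≤
      3 * δ * (N * xb) := by
    intro i
    refine (FLAT.th_bound hpv.nn i).trans ?_
    linarith only [hms2, hot]
  have hcs : ∀ i k, |cs x H c i - cs x H c k - al r * (sz H c i - sz H c k) * xb|
      ≤ 9 * e' * xb * (|sz H c i - sz H c k| + 1) := fun i k =>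
    FLAT.num2 hN0 hxb he'0.le he'1 (by linarith only [hal]) hal1.le hS hF.lamN (hA i) (hA k) hδ.le hδe
      (hth i) (hth k) (FLAT.class_eq hpv hC.ind i) (FLAT.class_eq hpv hC.ind k)
  refine ⟨xb, ?_, ?_, ?_⟩
  · refine ⟨hxb, fun v hv => (hF.xH v hv).trans ?_, fun v hv => (hF.xo v hv).trans ?_,
      hF.lamN.trans ?_⟩
    · exact mul_le_mul_of_nonneg_right (by linarith only [he'2, hδ, hδe]) hxb.le
    · exact mul_le_mul_of_nonneg_right (by linarith only [he'2, hδ, hδe]) hxb.le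
    · exact mul_le_mul_of_nonneg_right (by linarith only [he'2, hδ, hδe]) hN0.le
  · intro i k
    refine (hcs i k).trans ?_
    exact mul_le_mul_of_nonneg_right (mul_le_mul_of_nonneg_right he'2 hxb.le) (by positivity)
  · intro u hu v hv
    have h1 := FLAT.row hpv hC.ind hu
    have h2 := FLAT.row hpv hC.ind hv
    have h3 := hcs (c u) (c v)
    set D := |sz H c (c u) - sz H c (c v)| with hD
    have hD0 : 0 ≤ D := abs_nonneg _
    have h4 : |cs x H c (c u) - cs x H c (c v)| ≤ xb * (2 * D + 1) := by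
      have h6 : |al r * (sz H c (c u) - sz H c (c v)) * xb| ≤ 1 * D * xb := by
        rw [abs_mul, abs_mul, abs_of_pos hxb, abs_of_nonneg (by linarith only [hal] : (0 : ℝ) ≤ al r)]
        exact mul_le_mul_of_nonneg_right (mul_le_mul_of_nonneg_right hal1.le hD0) hxb.le
      have h7 : 9 * e' * xb * (D + 1) ≤ 1 * xb * (D + 1) :=
        mul_le_mul_of_nonneg_right (mul_le_mul_of_nonneg_right (by linarith only [he'1]) hxb.le)
          (by linarith only [hD0])
      have h8 := abs_le.1 (h3.trans h7)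
      have h9 := abs_le.1 h6
      rw [abs_le]
      constructor
      · linarith only [h8.1, h9.1]
      · linarith only [h8.2, h9.2]
    have hmu : ∀ z ∈ H, FLAT.ms G H c x z ≤ 2 * xb * mis G H c := by
      intro z hz
      have h5 : FLAT.ms G H c x z ≤ ∑ v ∈ H, FLAT.ms G H c x v :=
        Finset.single_le_sum (fun v _ => FLAT.ms_nonneg hpv.nn v) hz
      refine h5.trans (hms.trans (mul_le_mul_of_nonneg_right (by nlinarith) (Nat.cast_nonneg _)))
    have hou : ∀ z, FLAT.ot G H x z ≤ xb := by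
      intro z
      refine (FLAT.ot_le hpv.nn z).trans (hsout.trans ?_)
      nlinarith
    have n1 := FLAT.ms_nonneg (G := G) (H := H) (c := c) hpv.nn u
    have n2 := FLAT.ms_nonneg (G := G) (H := H) (c := c) hpv.nn v
    have n3 := FLAT.ot_nonneg (G := G) (H := H) hpv.nn u
    have n4 := FLAT.ot_nonneg (G := G) (H := H) hpv.nn v
    have m1 := hmu u hu
    have m2 := hmu v hv
    have m3 := hou u
    have m4 := hou v
    have h5 := abs_le.1 h4
    have h6 : |lam * (x u - x v)| ≤ xb * (2 * D + 1) + 2 * xb * mis G H c + xb := by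
      have e4 : lam * (x u - x v) = (cs x H c (c v) - cs x H c (c u)) -
          FLAT.ms G H c x u + FLAT.ms G H c x v + FLAT.ot G H x u - FLAT.ot G H x v := by
        rw [mul_sub, h1, h2]; ring
      rw [e4, abs_le]
      constructor
      · linarith only [n2, n3, m1, m4, h5.1, h5.2]
      · linarith only [n1, n4, m2, m3, h5.1, h5.2]
    rw [abs_mul, abs_of_pos hl0] at h6
    have h7 : (N : ℝ) / 2 * |x u - x v| ≤ lam * |x u - x v| :=
      mul_le_mul_of_nonneg_right hlN (abs_nonneg _)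
    have h8 : (N : ℝ) / 2 * |x u - x v| ≤ N / 2 * (20 / N * xb * (D + mis G H c + 1)) := by
      have e5 : (N : ℝ) / 2 * (20 / N * xb * (D + mis G H c + 1)) =
          10 * xb * (D + mis G H c + 1) := by field_simp; ring
      rw [e5]
      have n5 : 0 ≤ xb * D := by positivity
      have n6 : 0 ≤ xb * (mis G H c : ℝ) := by positivity
      nlinarith
    exact le_of_mul_le_mul_left h8 (by positivity)

end Pool.Agent.Work.MP_5532fa_up

end

section

/-!
# MP_5532fa_co, upgrade: statements of the first round from those of the second round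
-/

open Finset

namespace Pool.Agent.Work.MP_5532fa_up

open MP5532fa (specRad qf pE)

theorem Rg.toU {r : ℕ} {ε : ℝ} {N j : ℕ} (h : Rg r ε N j) : RgU r ε N j := h.2

theorem Rg.toA {r : ℕ} (hr : 3 ≤ r) {ε : ℝ} {N j : ℕ} (h : Rg r ε N j) : RgA r ε N j := by
  refine ⟨h.1, h.2.trans ?_⟩
  have h1 := al_lt hr
  have h2 := al_ge hr
  have hrr : (3 : ℝ) ≤ r := by exact_mod_cast hr
  have h3 : 0 ≤ 1 - 2 / (r : ℝ) := by
    rw [sub_nonneg, div_le_one (by linarith)]
    linarith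
  have h4 : (1 - 2 / (r : ℝ)) * al r ≤ 1 - 2 / r := mul_le_of_le_one_right h3 h1.le
  have hN : (0 : ℝ) ≤ N := Nat.cast_nonneg N
  exact mul_le_mul_of_nonneg_right (by linarith) hN

theorem Rg.toL {r : ℕ} (hr : 3 ≤ r) {ε : ℝ} (hε : 0 < ε) {N j : ℕ} (h : Rg r ε N j) :
    (j : ℝ) ≤ al r * N := by
  refine h.2.trans ?_
  have h2 := al_ge hr
  have hrr : (3 : ℝ) ≤ r := by exact_mod_cast hr
  have h3 : 0 ≤ 2 / (r : ℝ) := by positivity
  have hN : (0 : ℝ) ≤ N := Nat.cast_nonneg N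
  refine mul_le_mul_of_nonneg_right ?_ hN
  nlinarith

theorem rB1U (h : Stmt_B1U2) : Stmt_B1U := by
  intro r ε hr hε
  obtain ⟨δ, N0, hδ, H⟩ := h r ε hr hε
  exact ⟨δ, N0, hδ, fun N hN j hj => H N hN j (hj.toA hr)⟩

theorem rB1C (h : Stmt_B1C2) : Stmt_B1C := by
  intro r ε hr hε
  obtain ⟨δ, N0, hδ, H⟩ := h r ε hr hε
  exact ⟨δ, N0, hδ, fun N hN j hj => H N hN j (hj.toA hr)⟩

theorem rE2 (h : Stmt_E2U) : Stmt_E2 := by
  intro r ε hr hε
  obtain ⟨δ, N0, hδ, H⟩ := h r ε hr hε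
  exact ⟨δ, N0, hδ, fun N hN j hj => H N hN j hj.toU⟩

theorem rE3 (h : Stmt_E3U) : Stmt_E3 := by
  intro r ε hr hε
  obtain ⟨δ, N0, hδ, H⟩ := h r ε hr hε
  exact ⟨δ, N0, hδ, fun N hN j hj => H N hN j hj.toU⟩

theorem rEB (h : Stmt_EBU) : Stmt_EB := by
  intro r ε hr hε
  obtain ⟨δ, N0, hδ, H⟩ := h r ε hr hε
  exact ⟨δ, N0, hδ, fun N hN j hj => H N hN j hj.toU⟩

theorem rISOE (h : Stmt_ISOEU) : Stmt_ISOE := by
  intro r ε hr hε
  obtain ⟨N0, H⟩ := h r ε hr hε
  exact ⟨N0, fun N hN j hj => H N hN j hj.toU⟩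

theorem rEST (h : Stmt_ESTU) : Stmt_EST := by
  intro r ε e hr hε he
  obtain ⟨δ, N0, hδ, H⟩ := h r e hr he
  exact ⟨δ, N0, hδ, fun N hN j hj => H N hN j (hj.toL hr hε)⟩

theorem rFINA (h : Stmt_FIN3) : Stmt_FINA := by
  intro r ε δ hr hε hδ
  obtain ⟨ε', hε', H1⟩ := h r (ε / 2) hr (by linarith)
  obtain ⟨δ1, N0, hδ1, H2⟩ := H1 δ hδ
  refine ⟨δ1, N0 + 1, hδ1, ?_⟩
  intro N hN j hj V _ G x lam hfree hpv hp hlam
  have hal := al_ge hr
  have hal1 := al_lt hr
  have hN1 : (1 : ℝ) ≤ N := by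
    have : 1 ≤ N := by omega
    exact_mod_cast this
  have hjL := hj.toL hr hε
  obtain ⟨ha, hb⟩ := hj
  have hN0 : (0 : ℝ) < al r * N := by positivity
  have hX : (j : ℝ) / (al r * N) ≤ 1 - 2 / r := by
    rw [div_le_iff₀ hN0]
    refine hb.trans ?_
    nlinarith
  have hm : min ((j : ℝ) / (al r * N)) (1 - 2 / r) = j / (al r * N) := min_eq_left hX
  have hlow : al r * N + j / N - al r * ((1 - j / (al r * N)) * min (j / (al r * N)) (1 - 2 / r))
      - δ1 ≤ lam := by
    rw [hm]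
    refine le_trans (le_of_eq ?_) hlam
    have h1 : (N : ℝ) ≠ 0 := by positivity
    have h2 : al r ≠ 0 := by positivity
    field_simp
    ring
  rcases H2 N (by omega) j hjL V G x lam hfree hpv hp hlow with ⟨c, H, -, -, h3⟩ |
    ⟨c, H, -, -, h3⟩ | ⟨-, c, H, w, hFD, -⟩
  · exfalso
    nlinarith
  · exfalso
    have h4 : (1 - 2 / (r : ℝ) - ε / 2) * (al r * N) ≤ ((1 - 2 / r) * al r - ε) * N :=
      h3.trans hb
    have h5 : (1 - 2 / (r : ℝ) - ε / 2) * (al r * N)
        = ((1 - 2 / r) * al r - ε) * N + (ε - ε / 2 * al r) * N := by ring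
    have h6 : 0 < (ε - ε / 2 * al r) * N := by
      apply mul_pos
      · nlinarith
      · linarith
    linarith
  · exact ⟨c, H, w, hFD⟩

end Pool.Agent.Work.MP_5532fa_up

end

section

/-!
# MP_5532fa_co upgrade, block SETS: choice of two neighbourhoods (helper63; copy of `B1C.sets`
with a weaker hypothesis on `T`)
-/

open Finset

namespace Pool.Agent.Work.MP_5532fa_up

open MP5532fa (specRad qf pE)

namespace SETS

section
variable {V : Type} [Fintype V] {r : ℕ}

omit [Fintype V] in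
open Classical in
/-- choice of the neighbourhoods of the new graph -/
theorem sets (H A : Finset V) (c : V → Fin r) (i0 : Fin r) (T : ℕ) (hA : A ⊆ H)
    (hA0 : cl A c i0 = ∅) (h2 : ∀ i, 2 ≤ (cl H c i).card) (hrT : r ≤ T + 1)
    (hT : T + (cl H c i0).card + 1 ≤ H.card) (hAT : A.card + (cl H c i0).card < H.card) :
    ∃ A' B : Finset V, A' ⊆ H ∧ B ⊆ H ∧ cl A' c i0 = ∅ ∧ cl B c i0 = ∅ ∧
      (∀ i, i ≠ i0 → (cl A' c i).Nonempty) ∧ (∀ i, i ≠ i0 → (cl B c i).card = 1) ∧ ¬ B ⊆ A' ∧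
      A'.card = T ∧ (A' \ A).card + (A \ A').card ≤ (T - A.card) + (A.card - T) + 2 * r := by
  set U := H \ cl H c i0 with hU
  have hUm : ∀ v, v ∈ U ↔ v ∈ H ∧ c v ≠ i0 := by
    intro v
    rw [hU, Finset.mem_sdiff, mem_cl]
    tauto
  have hUc : U.card = H.card - (cl H c i0).card :=
    Finset.card_sdiff_of_subset (fun v hv => (mem_cl.1 hv).1)
  have hAc : ∀ v ∈ A, c v ≠ i0 := by
    intro v hv h
    have : v ∈ cl A c i0 := mem_cl.2 ⟨hv, h⟩
    rw [hA0] at this
    simp at this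
  have hAU : A ⊆ U := fun v hv => (hUm v).2 ⟨hA hv, hAc v hv⟩
  obtain ⟨b, hbU, hbA⟩ : ∃ b ∈ U, b ∉ A := by
    by_contra hcon
    push Not at hcon
    have := Finset.card_le_card (s := U) (t := A) hcon
    omega
  have hb := (hUm b).1 hbU
  have hrr : ∀ i, ∃ v ∈ cl H c i, v ≠ b := fun i =>
    Finset.exists_mem_ne (by have := h2 i; omega) b
  choose rr hrr1 hrr2 using hrr
  have hrrH : ∀ i, rr i ∈ H := fun i => (mem_cl.1 (hrr1 i)).1
  have hrrc : ∀ i, c (rr i) = i := fun i => (mem_cl.1 (hrr1 i)).2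
  set R := (univ.erase i0).image rr with hR
  have hRm : ∀ v, v ∈ R ↔ ∃ i, i ≠ i0 ∧ rr i = v := by
    intro v
    rw [hR, Finset.mem_image]
    simp
  have hRcard : R.card + 1 ≤ r := by
    have h3 : R.card ≤ ((univ : Finset (Fin r)).erase i0).card := Finset.card_image_le
    rw [Finset.card_erase_of_mem (Finset.mem_univ i0), Finset.card_univ, Fintype.card_fin] at h3
    have h4 : 0 < r := i0.pos
    omega
  have hRU : R ⊆ U := by
    intro v hv
    obtain ⟨i, hi, rfl⟩ := (hRm v).1 hv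
    exact (hUm _).2 ⟨hrrH i, by rw [hrrc]; exact hi⟩
  have hbR : b ∉ R := by
    intro h
    obtain ⟨i, hi, h'⟩ := (hRm b).1 h
    exact hrr2 i h'
  -- the set `A'`
  obtain ⟨A', hRA', hA'U, hA'c, hdiff⟩ : ∃ A' : Finset V, R ⊆ A' ∧ A' ⊆ U.erase b ∧
      A'.card = T ∧ (A' \ A).card + (A \ A').card ≤ (T - A.card) + (A.card - T) + 2 * r := by
    have hSU : R ∪ A ⊆ U.erase b := by
      intro v hv
      rw [Finset.mem_erase]
      rcases Finset.mem_union.1 hv with h | h
      · exact ⟨fun e => hbR (e ▸ h), hRU h⟩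
      · exact ⟨fun e => hbA (e ▸ h), hAU h⟩
    have hScard : (R ∪ A).card ≤ R.card + A.card := Finset.card_union_le _ _
    rcases le_or_gt T (R ∪ A).card with hTS | hTS
    · obtain ⟨A', h3, h4, h5⟩ := Finset.exists_subsuperset_card_eq
        (Finset.subset_union_left (s₁ := R) (s₂ := A)) (by omega : R.card ≤ T) hTS
      refine ⟨A', h3, h4.trans hSU, h5, ?_⟩
      have e1 : (A' \ A).card ≤ R.card := by
        apply Finset.card_le_card
        intro v hv
        rw [Finset.mem_sdiff] at hv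
        rcases Finset.mem_union.1 (h4 hv.1) with h | h
        · exact h
        · exact absurd h hv.2
      have e2 : (A \ A').card ≤ (R ∪ A).card - T := by
        rw [← h5, ← Finset.card_sdiff_of_subset h4]
        exact Finset.card_le_card (Finset.sdiff_subset_sdiff Finset.subset_union_right le_rfl)
      omega
    · obtain ⟨A', h3, h4, h5⟩ := Finset.exists_subsuperset_card_eq hSU hTS.le (by
        rw [Finset.card_erase_of_mem hbU, hUc]; omega)
      refine ⟨A', Finset.subset_union_left.trans h3, h4, h5, ?_⟩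
      have hAA' : A ⊆ A' := Finset.subset_union_right.trans h3
      rw [Finset.card_sdiff_of_subset hAA', Finset.sdiff_eq_empty_iff_subset.2 hAA',
        Finset.card_empty, h5]
      omega
  have hA'm : ∀ v ∈ A', v ≠ b ∧ v ∈ H ∧ c v ≠ i0 := by
    intro v hv
    have := Finset.mem_erase.1 (hA'U hv)
    exact ⟨this.1, (hUm v).1 this.2⟩
  -- the set `B`
  set B := insert b (((univ.erase i0).erase (c b)).image rr) with hB
  have hBm : ∀ v, v ∈ B ↔ v = b ∨ ∃ i, i ≠ c b ∧ i ≠ i0 ∧ rr i = v := by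
    intro v
    rw [hB, Finset.mem_insert, Finset.mem_image]
    simp [and_assoc]
  refine ⟨A', B, fun v hv => (hA'm v hv).2.1, ?_, ?_, ?_, ?_, ?_, ?_, hA'c, hdiff⟩
  · intro v hv
    rcases (hBm v).1 hv with rfl | ⟨i, _, _, rfl⟩
    · exact hb.1
    · exact hrrH i
  · rw [Finset.eq_empty_iff_forall_notMem]
    intro v hv
    exact (hA'm v (mem_cl.1 hv).1).2.2 (mem_cl.1 hv).2
  · rw [Finset.eq_empty_iff_forall_notMem]
    intro v hv
    have h3 := mem_cl.1 hv
    rcases (hBm v).1 h3.1 with rfl | ⟨i, _, hi, rfl⟩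
    · exact hb.2 h3.2
    · exact hi (by rw [← hrrc i]; exact h3.2)
  · intro i hi
    exact ⟨rr i, mem_cl.2 ⟨hRA' ((hRm _).2 ⟨i, hi, rfl⟩), hrrc i⟩⟩
  · intro i hi
    rw [Finset.card_eq_one]
    by_cases hib : i = c b
    · refine ⟨b, ?_⟩
      ext v
      rw [mem_cl, Finset.mem_singleton]
      constructor
      · rintro ⟨hv, hvc⟩
        rcases (hBm v).1 hv with h | ⟨k, hk, _, rfl⟩
        · exact h
        · exfalso; apply hk; rw [← hrrc k, hvc, hib]
      · rintro rfl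
        exact ⟨(hBm _).2 (Or.inl rfl), hib.symm⟩
    · refine ⟨rr i, ?_⟩
      ext v
      rw [mem_cl, Finset.mem_singleton]
      constructor
      · rintro ⟨hv, hvc⟩
        rcases (hBm v).1 hv with rfl | ⟨k, hk, _, rfl⟩
        · exact absurd hvc.symm hib
        · rw [hrrc] at hvc; rw [hvc]
      · rintro rfl
        exact ⟨(hBm _).2 (Or.inr ⟨i, hib, hi, rfl⟩), hrrc i⟩
  · intro h
    exact (hA'm b (h ((hBm b).2 (Or.inl rfl)))).1 rfl

end

end SETS

theorem blk_SETS : Stmt_SETS := by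
  classical
  intro r hr V _ H A c i0 T hA hA0 h2 hrT hT hAT
  have hdf : ∀ S T : Finset V, df S T = S \ T := by
    intro S T
    ext v
    rw [mem_df, Finset.mem_sdiff]
  obtain ⟨A', B, h3, h4, h5, h6, h7, h8, h9, h10, h11⟩ := SETS.sets H A c i0 T hA hA0 h2 hrT hT hAT
  exact ⟨A', B, h3, h4, h5, h6, h7, h8, h9, h10, by rw [hdf, hdf]; exact h11⟩

end Pool.Agent.Work.MP_5532fa_up

end

section

open Finset

namespace Pool.Agent.Work.MP_5532fa_up

open MP5532fa (specRad qf pE)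

namespace TRF

/-- `eo` counts the edges to `H` once and the edges outside `H` twice -/
theorem eo_dg {V : Type} [Fintype V] (G : SimpleGraph V) (H : Finset V) :
    (eo G H : ℝ) = ∑ v ∈ out H, (dg G H v : ℝ) + eu G H := by
  rw [EDG.eo_eq, EID.eu_eq, ← Finset.sum_add_distrib]
  refine Finset.sum_congr rfl fun v _ => ?_
  rw [EID.dg_eq, EID.sum_split H]

end TRF

theorem blk_TRF (h1 : Stmt_EID) : Stmt_TRF := by
  intro r δ N V _ G G' c H hC hind hpE hmis
  have e1 := h1 r V G c H hC.ind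
  have e2 := h1 r V G' c H hind
  have e3 := TRF.eo_dg G H
  have e4 := TRF.eo_dg G' H
  have m1 : (mis G' H c : ℝ) ≤ mis G H c := by exact_mod_cast hmis
  have m2 : (0 : ℝ) ≤ mis G' H c := Nat.cast_nonneg _
  have m3 : (0 : ℝ) ≤ eu G' H := Nat.cast_nonneg _
  have m4 : (0 : ℝ) ≤ eu G H := Nat.cast_nonneg _
  have m7 : (0 : ℝ) ≤ ∑ v ∈ out H, (dg G' H v : ℝ) :=
    Finset.sum_nonneg fun v _ => Nat.cast_nonneg _
  have m5 := hC.mis
  have m6 := hC.eo
  refine ⟨hC.card, hind, ?_, ?_, ?_⟩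
  · linarith
  · intro i
    have := hC.bal i
    linarith
  · linarith

end Pool.Agent.Work.MP_5532fa_up

end
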