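import Mathlib
import Pool.Agent.Work.MP_5532fa_full.P14

section

/-!
# Block MV2B: moving one vertex from a larger class to a smaller class, wider range
-/

set_option autoImplicit false

open Finset

namespace Pool.Agent.Work.MP_5532fa_up

open MP5532fa (specRad qf pE)

namespace MV2B

open MV2 (prod_bd)

theorem coreB {R xv yv xb yb D D' xw yw Sx Sy a X b b' g e : ℝ} (hR : 3 ≤ R)
    (he0 : 0 < e) (he1 : e ≤ 1 / 90) (hxb : 0 < xb) (hyb : 0 < yb) (hg : 1 ≤ g)
    (hxv : |xv - xb| ≤ e * xb) (hyv : |yv - yb| ≤ e * yb)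
    (hD : |D - xb * (a * (g + 1) + X * b)| ≤ e * xb * (g + 2))
    (hD' : |D' - yb * (a * (g - 1) + X * b')| ≤ e * yb * g)
    (hxw : xw ≤ (X + e) * xb) (hyw : yw ≤ (X + e) * yb) (hxw0 : 0 ≤ xw) (hyw0 : 0 ≤ yw)
    (hSx : Sx ≤ g * ((1 + e) * xb)) (hSy : Sy ≤ g * ((1 + e) * yb))
    (hb1 : -(1 / R + e) ≤ b) (hb2 : b ≤ 1) (hb1' : -(1 / R + e) ≤ b') (hb2' : b' ≤ 1)
    (hX0 : 0 ≤ X) (hX1 : X ≤ 1) (ha0 : 0 ≤ a) (ha1 : a ≤ 1)
    (hkey : 20 * e ≤ a - X * (1 + 1 / R)) :
    0 < xv * D' + yv * D - (xw * Sy + yw * Sx) := by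
  have hRi : 1 / R ≤ 1 / 3 := one_div_le_one_div_of_le (by norm_num) hR
  have hRi0 : 0 < 1 / R := by positivity
  have hb3 : |b| ≤ 1 := abs_le.2 ⟨by linarith only [he1, hb1, hRi], hb2⟩
  have hb3' : |b'| ≤ 1 := abs_le.2 ⟨by linarith only [he1, hb1', hRi], hb2'⟩
  have hXb : |X * b| ≤ 1 := by
    rw [abs_mul, abs_of_nonneg hX0]
    exact mul_le_one₀ hX1 (abs_nonneg _) hb3
  have hXb' : |X * b'| ≤ 1 := by
    rw [abs_mul, abs_of_nonneg hX0]
    exact mul_le_one₀ hX1 (abs_nonneg _) hb3'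
  have hd' : |a * (g - 1) + X * b'| ≤ g := by
    have h1 : |a * (g - 1)| ≤ g - 1 := by
      rw [abs_mul, abs_of_nonneg ha0, abs_of_nonneg (by linarith only [hg] : (0 : ℝ) ≤ g - 1)]
      exact mul_le_of_le_one_left (by linarith only [hg]) ha1
    calc |a * (g - 1) + X * b'| ≤ |a * (g - 1)| + |X * b'| := abs_add_le _ _
      _ ≤ g := by linarith only [hXb', h1]
  have hd : |a * (g + 1) + X * b| ≤ 3 * g := by
    have h1 : |a * (g + 1)| ≤ g + 1 := by
      rw [abs_mul, abs_of_nonneg ha0, abs_of_nonneg (by linarith only [hg] : (0 : ℝ) ≤ g + 1)]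
      exact mul_le_of_le_one_left (by linarith only [hg]) ha1
    calc |a * (g + 1) + X * b| ≤ |a * (g + 1)| + |X * b| := abs_add_le _ _
      _ ≤ 3 * g := by linarith only [hg, hXb, h1]
  have t1 := prod_bd (f := e * g) hxb hyb he0.le (by positivity) hxv
    (hD'.trans_eq (by ring)) hd'
  have t2 := prod_bd (f := 3 * e * g) hyb hxb he0.le (by positivity) hyv
    (hD.trans (by
      have : e * xb * (g + 2) ≤ e * xb * (3 * g) :=
        mul_le_mul_of_nonneg_left (by linarith only [hg]) (by positivity)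
      calc e * xb * (g + 2) ≤ e * xb * (3 * g) := this
        _ = 3 * e * g * xb := by ring)) hd
  have t3 : xw * Sy ≤ (X + e) * xb * (g * ((1 + e) * yb)) := by
    rcases le_or_gt 0 Sy with h | h
    · exact mul_le_mul hxw hSy h (by positivity)
    · exact (mul_nonpos_of_nonneg_of_nonpos hxw0 h.le).trans (by positivity)
  have t4 : yw * Sx ≤ (X + e) * yb * (g * ((1 + e) * xb)) := by
    rcases le_or_gt 0 Sx with h | h
    · exact mul_le_mul hyw hSx h (by positivity)
    · exact (mul_nonpos_of_nonneg_of_nonpos hyw0 h.le).trans (by positivity)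
  have hP : 0 < xb * yb := mul_pos hxb hyb
  -- the numeric inequality
  have hnum : 0 < (a * (g - 1) + X * b' - e * g - e * (g + e * g)) +
      (a * (g + 1) + X * b - 3 * e * g - e * (3 * g + 3 * e * g)) -
      2 * ((X + e) * (g * (1 + e))) := by
    have n1 : X * b ≥ -(X * (1 / R)) - e := by
      have : X * (-(1 / R + e)) ≤ X * b := mul_le_mul_of_nonneg_left hb1 hX0
      have h2 : X * e ≤ e := mul_le_of_le_one_left he0.le hX1
      linarith only [this, h2]
    have n2 : X * b' ≥ -(X * (1 / R)) - e := by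
      have : X * (-(1 / R + e)) ≤ X * b' := mul_le_mul_of_nonneg_left hb1' hX0
      have h2 : X * e ≤ e := mul_le_of_le_one_left he0.le hX1
      linarith only [this, h2]
    have n3 : X * (1 / R) ≤ X * (1 / R) * g := le_mul_of_one_le_right (by positivity) hg
    have n4 : e ≤ e * g := le_mul_of_one_le_right he0.le hg
    have n5 : (X + e) * (g * (1 + e)) ≤ X * g + 3 * (e * g) := by
      have h1 : (X + e) * (1 + e) ≤ X + 3 * e := by nlinarith
      calc (X + e) * (g * (1 + e)) = ((X + e) * (1 + e)) * g := by ring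
        _ ≤ (X + 3 * e) * g := mul_le_mul_of_nonneg_right h1 (by linarith only [hg])
        _ = X * g + 3 * (e * g) := by ring
    have n6 : e * (e * g) ≤ e * g := by
      have h0 : 0 ≤ e * g := by positivity
      exact mul_le_of_le_one_left h0 (by linarith only [he1])
    have n7 : (20 * e) * g ≤ (a - X * (1 + 1 / R)) * g :=
      mul_le_mul_of_nonneg_right hkey (by linarith only [hg])
    have n9 : 0 < e * g := by positivity
    nlinarith
  have hfin : 0 < xb * yb * ((a * (g - 1) + X * b' - e * g - e * (g + e * g)) +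
      (a * (g + 1) + X * b - 3 * e * g - e * (3 * g + 3 * e * g)) -
      2 * ((X + e) * (g * (1 + e)))) := mul_pos hP hnum
  have hexp : xb * yb * ((a * (g - 1) + X * b' - e * g - e * (g + e * g)) +
      (a * (g + 1) + X * b - 3 * e * g - e * (3 * g + 3 * e * g)) -
      2 * ((X + e) * (g * (1 + e)))) =
      xb * yb * (a * (g - 1) + X * b' - e * g - e * (g + e * g)) +
      yb * xb * (a * (g + 1) + X * b - 3 * e * g - e * (3 * g + 3 * e * g)) -
      ((X + e) * xb * (g * ((1 + e) * yb)) + (X + e) * yb * (g * ((1 + e) * xb))) := by ring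
  rw [hexp] at hfin
  linarith only [t1, t2, t3, t4, hfin]

end MV2B

theorem blk_MV2B : Stmt_MV2B := by
  classical
  intro r ε hr hε
  have hR : (3 : ℝ) ≤ (r : ℝ) := by exact_mod_cast hr
  refine ⟨1 / (20 * (r : ℝ) ^ 2), 1, by positivity, ?_⟩
  intro N hN j hRg V _ G G' H c c' w A A' J x y lam lam' xb yb v hF hF' hP hP' hcard hNear hE hE'
    hvH hc1 hc2 hJ hsz hAA hvA hA
  set e : ℝ := 1 / (20 * (r : ℝ) ^ 2) with he
  have hR2 : (9 : ℝ) ≤ (r : ℝ) ^ 2 := by nlinarith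
  have he0 : 0 < e := by rw [he]; positivity
  have he1 : e ≤ 1 / 90 := by
    rw [he]
    exact one_div_le_one_div_of_le (by norm_num) (by linarith only [hR2])
  have he2 : 20 * e = 1 / (r : ℝ) ^ 2 := by
    rw [he]
    field_simp
  have hN1 : (1 : ℝ) ≤ N := by exact_mod_cast hN
  have hN0 : (0 : ℝ) < N := by linarith only [hN1]
  by_contra hcon
  push Not at hcon
  -- class sizes
  have hclo := MV2.cl_old hvH hc1 hc2
  have hcln := MV2.cl_new hvH hc1 hc2
  have hv1 : v ∈ cl H c (c v) := mem_cl.2 ⟨hvH, rfl⟩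
  have hv2 : v ∉ cl H c (c' v) := fun h => hc1 (mem_cl.1 h).2.symm
  have hszo : sz H c' (c v) = sz H c (c v) - 1 := by
    unfold sz
    rw [hclo, Finset.card_erase_of_mem hv1, Nat.cast_sub (Finset.card_pos.2 ⟨v, hv1⟩)]
    simp
  have hszn : sz H c' (c' v) = sz H c (c' v) + 1 := by
    unfold sz
    rw [hcln, Finset.card_insert_of_notMem hv2]
    push_cast
    ring
  have hcso : ∀ z : V → ℝ, cs z H c' (c v) = cs z H c (c v) - z v := fun z => by
    unfold cs
    rw [hclo, ← Finset.add_sum_erase _ z hv1]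
    ring
  have hcsn : ∀ z : V → ℝ, cs z H c' (c' v) = cs z H c (c' v) + z v := fun z => by
    unfold cs
    rw [hcln, Finset.sum_insert hv2]
    ring
  have hcsoth : ∀ (z : V → ℝ) (i : Fin r), i ≠ c v → i ≠ c' v → cs z H c' i = cs z H c i :=
    fun z i h1 h2 => by
      unfold cs
      rw [MV2.cl_other hc2 h1 h2]
  set g : ℝ := sz H c (c v) - sz H c (c' v) - 1 with hg
  have hg1 : 1 ≤ g := by
    have : ((cl H c (c' v)).card : ℝ) + 2 ≤ ((cl H c (c v)).card : ℝ) := by exact_mod_cast hsz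
    rw [hg]
    unfold sz
    linarith only [this]
  have hAcard : ((A \ A').card : ℝ) = g := by
    rw [Finset.card_sdiff_of_subset hAA, Nat.cast_sub (Finset.card_le_card hAA)]
    have : (A.card : ℝ) + ((cl H c (c' v)).card : ℝ) + 1 =
        (A'.card : ℝ) + ((cl H c (c v)).card : ℝ) := by exact_mod_cast hA
    rw [hg]
    unfold sz
    linarith only [this]
  -- the pairing identity
  have hpair := pairing hP hP'
  have hdiff : ∑ p, ∑ q, (ad G' p q - ad G p q) * (x p * y q) =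
      x v * (cs y H c' (c v) - cs y H c' (c' v)) + y v * (cs x H c (c v) - cs x H c (c' v)) -
        (x w * ∑ u ∈ A \ A', y u + y w * ∑ u ∈ A \ A', x u) := by
    have h1 : ∀ p q, (ad G' p q - ad G p q) * (x p * y q) =
        (chi (p ∈ H ∧ q ∈ H ∧ c' p ≠ c' q) * (x p * y q) -
          chi (p ∈ H ∧ q ∈ H ∧ c p ≠ c q) * (x p * y q)) +
        (chi (p = w ∧ q ∈ A') * (x p * y q) - chi (p = w ∧ q ∈ A) * (x p * y q)) +
          (chi (q = w ∧ p ∈ A') * (x p * y q) - chi (q = w ∧ p ∈ A) * (x p * y q)) := by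
      intro p q
      rw [hF.adj p q, hF'.adj p q]
      ring
    rw [Finset.sum_congr rfl fun p _ => Finset.sum_congr rfl fun q _ => h1 p q]
    simp only [Finset.sum_add_distrib, Finset.sum_sub_distrib]
    rw [MV2.dbl1, MV2.dbl1, MV2.dbl2, MV2.dbl2, MV2.multi, MV2.multi]
    have h2 : ∑ i, cs x H c i * cs y H c i - ∑ i, cs x H c' i * cs y H c' i =
        y v * (cs x H c (c v) - cs x H c (c' v)) +
          x v * (cs y H c (c v) - cs y H c (c' v) - 2 * y v) := by
      rw [← Finset.sum_sub_distrib, Fintype.sum_eq_add (c v) (c' v) hc1.symm]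
      · rw [hcso x, hcso y, hcsn x, hcsn y]
        ring
      · rintro i ⟨h1, h2⟩
        rw [hcsoth x i h1 h2, hcsoth y i h1 h2, sub_self]
    have h3 : ∀ f : V → ℝ, ∑ u ∈ A \ A', f u = ∑ u ∈ A, f u - ∑ u ∈ A', f u := fun f => by
      rw [← Finset.sum_sdiff hAA]
      ring
    rw [h3 x, h3 y, hcso y, hcsn y]
    linear_combination h2
  rw [hdiff] at hpair
  have hxy : 0 ≤ ∑ v, x v * y v :=
    Finset.sum_nonneg fun v _ => mul_nonneg (hP.nn v) (hP'.nn v)
  have hle : x v * (cs y H c' (c v) - cs y H c' (c' v)) +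
      y v * (cs x H c (c v) - cs x H c (c' v)) -
        (x w * ∑ u ∈ A \ A', y u + y w * ∑ u ∈ A \ A', x u) ≤ 0 := by
    rw [hpair]
    exact mul_nonpos_of_nonpos_of_nonneg (by linarith only [hcon]) hxy
  -- the quantities
  have hal0 : 0 < al r := by have := al_ge hr; linarith only [this]
  have hal1 : al r ≤ 1 := (al_lt hr).le
  set X : ℝ := (j : ℝ) / (al r * N) with hX
  have hX0 : 0 ≤ X := by positivity
  have hXle : X ≤ 1 - 2 / (r : ℝ) + 1 / (4 * (r : ℝ) ^ 2) := by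
    rw [hX, div_le_iff₀ (by positivity)]
    exact hRg.2
  have hr0 : 0 < (r : ℝ) := by linarith only [hR]
  have hq : 1 / (4 * (r : ℝ) ^ 2) ≤ 2 / (r : ℝ) := by
    rw [div_le_div_iff₀ (by positivity) hr0]
    nlinarith
  have hX1 : X ≤ 1 := by linarith only [hXle, hq]
  have hkey : 20 * e ≤ al r - X * (1 + 1 / (r : ℝ)) := by
    have h1 : X * (1 + 1 / (r : ℝ)) ≤
        (1 - 2 / (r : ℝ) + 1 / (4 * (r : ℝ) ^ 2)) * (1 + 1 / (r : ℝ)) :=
      mul_le_mul_of_nonneg_right hXle (by positivity)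
    have h2 : al r - (1 - 2 / (r : ℝ) + 1 / (4 * (r : ℝ) ^ 2)) * (1 + 1 / (r : ℝ)) =
        2 / (r : ℝ) ^ 2 - 1 / (4 * (r : ℝ) ^ 2) * (1 + 1 / (r : ℝ)) := by
      unfold al
      field_simp
      ring
    have h3 : 1 / (4 * (r : ℝ) ^ 2) * (1 + 1 / (r : ℝ)) ≤ 1 / (4 * (r : ℝ) ^ 2) * 4 := by
      refine mul_le_mul_of_nonneg_left ?_ (by positivity)
      have : 1 / (r : ℝ) ≤ 1 / 3 := one_div_le_one_div_of_le (by norm_num) hR
      linarith only [this]
    have h4 : 1 / (4 * (r : ℝ) ^ 2) * 4 = 1 / (r : ℝ) ^ 2 := by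
      field_simp
    have h5 : 2 / (r : ℝ) ^ 2 = 1 / (r : ℝ) ^ 2 + 1 / (r : ℝ) ^ 2 := by ring
    linarith only [he2, h1, h2, h3, h4, h5]
  have hAH : ∀ i, sz A c i ≤ sz H c i := fun i => by
    unfold sz
    exact_mod_cast Finset.card_le_card (fun u hu => mem_cl.2 ⟨hF.hA (mem_cl.1 hu).1,
      (mem_cl.1 hu).2⟩)
  have hHN : ∀ i, sz H c i ≤ N := fun i => by
    unfold sz
    rw [← hcard]
    exact_mod_cast Finset.card_le_card (fun u hu => (mem_cl.1 hu).1)
  have hA'A : ∀ i, sz A' c' i ≤ sz A c i := fun i => by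
    unfold sz
    refine Nat.cast_le.2 (Finset.card_le_card fun u hu => ?_)
    have h1 := mem_cl.1 hu
    have h2 : u ≠ v := fun h => hvA (h ▸ h1.1)
    exact mem_cl.2 ⟨hAA h1.1, (hc2 u h2) ▸ h1.2⟩
  have hsz0 : ∀ (S : Finset V) (d : V → Fin r) (i : Fin r), 0 ≤ sz S d i := fun S d i => by
    unfold sz
    positivity
  have hnk : sz H c (c' v) ≤ (1 / (r : ℝ) + e) * N := by
    have h1 := (abs_le.1 (hNear.1 (c' v))).2
    have h2 : (1 / (r : ℝ) + e) * N = N / r + e * N := by ring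
    rw [h2]
    linarith only [h1]
  have hb1 : -(1 / (r : ℝ) + e) ≤ (sz A c (c v) - sz A c (c' v)) / N := by
    rw [le_div_iff₀ hN0]
    have := hsz0 A c (c v)
    have := hAH (c' v)
    linarith
  have hb2 : (sz A c (c v) - sz A c (c' v)) / N ≤ 1 := by
    rw [div_le_one hN0]
    have := hsz0 A c (c' v)
    have := hAH (c v)
    have := hHN (c v)
    linarith
  have hb1' : -(1 / (r : ℝ) + e) ≤ (sz A' c' (c v) - sz A' c' (c' v)) / N := by
    rw [le_div_iff₀ hN0]
    have := hsz0 A' c' (c v)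
    have := hAH (c' v)
    have := hA'A (c' v)
    linarith
  have hb2' : (sz A' c' (c v) - sz A' c' (c' v)) / N ≤ 1 := by
    rw [div_le_one hN0]
    have := hsz0 A' c' (c' v)
    have := hAH (c v)
    have := hA'A (c v)
    have := hHN (c v)
    linarith
  have hD := hE.dif (c v) (c' v)
  have hD' := hE'.dif (c v) (c' v)
  rw [hszo, hszn] at hD'
  have hg2 : sz H c (c v) - sz H c (c' v) = g + 1 := by rw [hg]; ring
  have hg3 : sz H c (c v) - 1 - (sz H c (c' v) + 1) = g - 1 := by rw [hg]; ring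
  rw [hg2, abs_of_nonneg (by linarith only [hAcard] : (0 : ℝ) ≤ g + 1)] at hD
  rw [hg3, abs_of_nonneg (by linarith only [hg1] : (0 : ℝ) ≤ g - 1)] at hD'
  have hsumb : ∀ (z : V → ℝ) (zb : ℝ), (∀ u ∈ H, |z u - zb| ≤ e * zb) →
      ∑ u ∈ A \ A', z u ≤ g * ((1 + e) * zb) := by
    intro z zb h
    have h1 : ∑ u ∈ A \ A', z u ≤ ∑ u ∈ A \ A', (1 + e) * zb := by
      refine Finset.sum_le_sum fun u hu => ?_
      have h2 := (abs_le.1 (h u (hF.hA (Finset.mem_sdiff.1 hu).1))).2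
      linarith only [h2]
    rw [Finset.sum_const, nsmul_eq_mul, hAcard] at h1
    exact h1
  have hfin := MV2B.coreB (xv := x v) (yv := y v) (xw := x w) (yw := y w) hR he0 he1 hE.xb0 hE'.xb0 hg1
    (hE.xH v hvH) (hE'.xH v hvH) (hD.trans_eq (by ring)) (hD'.trans_eq (by ring))
    (by have := (abs_le.1 hE.xw).2; linarith only [this]) (by have := (abs_le.1 hE'.xw).2; linarith only [this])
    (hP.nn w) (hP'.nn w) (hsumb x xb hE.xH) (hsumb y yb hE'.xH) hb1 hb2 hb1' hb2' hX0 hX1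
    hal0.le hal1 hkey
  linarith only [hle, hfin]

end Pool.Agent.Work.MP_5532fa_up

end

section

/-! # Block D1B (helper69; copy of D1 of helper68 for the range `RgB`) -/

open Finset

namespace Pool.Agent.Work.MP_5532fa_up

open MP5532fa (specRad qf pE)

/-- the range `RgV` is below `al r * N` -/
theorem RgV.le {r : ℕ} (hr : 3 ≤ r) {N j : ℕ} (h : RgV r N j) : (j : ℝ) ≤ al r * N := by
  have h1 := al_ge hr
  have hr3 : (3 : ℝ) ≤ r := by exact_mod_cast hr
  have hN : (0 : ℝ) ≤ N := Nat.cast_nonneg N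
  have h2 : 1 / (4 * (r : ℝ) ^ 2) ≤ 2 / r := by
    rw [div_le_div_iff₀ (by positivity) (by positivity)]
    nlinarith
  have h3 : (0 : ℝ) ≤ al r * N := mul_nonneg (by linarith) hN
  unfold RgV at h
  nlinarith

theorem blk_D1B (hGD : Stmt_GD) (hFAM : Stmt_FAM) (hEST : Stmt_ESTU) (hMV2 : Stmt_MV2B) :
    Stmt_D1B := by
  classical
  intro r ε hr hε
  have hr3 : (3 : ℝ) ≤ r := by exact_mod_cast hr
  have hr0 : (0 : ℝ) < r := by linarith
  obtain ⟨e, N1, he, hM⟩ := hMV2 r ε hr hε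
  obtain ⟨δ, N2, hδ, hE⟩ := hEST r e hr he
  obtain ⟨δ0, hδ0, hd1, hd2, hd3, hd4⟩ : ∃ δ0 : ℝ, 0 < δ0 ∧ δ0 ≤ δ / 4 ∧ δ0 ≤ e ∧ δ0 ≤ ε / 8 ∧
      δ0 ≤ 1 / (4 * r) := by
    refine ⟨min (min (δ / 4) e) (min (ε / 8) (1 / (4 * r))), ?_, ?_, ?_, ?_, ?_⟩
    · exact lt_min (lt_min (by positivity) he) (lt_min (by positivity) (by positivity))
    · exact (min_le_left _ _).trans (min_le_left _ _)
    · exact (min_le_left _ _).trans (min_le_right _ _)
    · exact (min_le_right _ _).trans (min_le_left _ _)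
    · exact (min_le_right _ _).trans (min_le_right _ _)
  refine ⟨δ0, N1 + N2 + ⌈1 / δ0⌉₊ + ⌈2 * (r + 2) / ε⌉₊ + 4 * r, hδ0, ?_⟩
  intro N hN j hj V _ G H c w A v1 v2 hWD hnear hMX
  have hjN := RgV.le hr hj.2
  have hNa : 1 ≤ δ0 * N := by
    have h1 := Nat.le_ceil (1 / δ0)
    have h2 : ((⌈1 / δ0⌉₊ : ℕ) : ℝ) ≤ N := by exact_mod_cast (by omega : ⌈1 / δ0⌉₊ ≤ N)
    have h3 : 1 / δ0 ≤ N := h1.trans h2
    rw [div_le_iff₀ hδ0] at h3
    linarith
  have hNb : 2 * ((r : ℝ) + 2) ≤ ε * N := by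
    have h1 := Nat.le_ceil (2 * ((r : ℝ) + 2) / ε)
    have h2 : ((⌈2 * ((r : ℝ) + 2) / ε⌉₊ : ℕ) : ℝ) ≤ N := by
      exact_mod_cast (by omega : ⌈2 * ((r : ℝ) + 2) / ε⌉₊ ≤ N)
    have h3 := h1.trans h2
    rw [div_le_iff₀ hε] at h3
    linarith
  have hNc : 4 * (r : ℝ) ≤ N := by exact_mod_cast (by omega : 4 * r ≤ N)
  have hN0 : (0 : ℝ) < N := by linarith
  have hd1' : δ0 * N ≤ δ / 4 * N := mul_le_mul_of_nonneg_right hd1 hN0.le
  have hd3' : δ0 * N ≤ ε / 8 * N := mul_le_mul_of_nonneg_right hd3 hN0.le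
  have hd4' : δ0 * N ≤ N / r / 4 := by
    have : 1 / (4 * (r : ℝ)) * N = N / r / 4 := by field_simp
    rw [← this]
    exact mul_le_mul_of_nonneg_right hd4 hN0.le
  have hNr : 4 ≤ (N : ℝ) / r := by rw [le_div_iff₀ hr0]; linarith
  have hcl3 : ∀ i, 3 ≤ (cl H c i).card := by
    intro i
    have h1 := (abs_le.1 (hnear.1 i)).1
    have h2 : (3 : ℝ) ≤ sz H c i := by linarith
    unfold sz at h2
    exact_mod_cast h2
  by_contra hB
  unfold Bal at hB
  push Not at hB
  obtain ⟨l, k, hlk⟩ := hB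
  have hkl : k ≠ l := by
    rintro rfl
    omega
  have hv1A : v1 ∈ A := by
    have : v1 ∈ cl A c (c v1) := by rw [hWD.h1]; exact Finset.mem_singleton_self _
    exact (mem_cl.1 this).1
  have hv2A : v2 ∈ A := by
    have : v2 ∈ cl A c (c v2) := by rw [hWD.h2]; exact Finset.mem_singleton_self _
    exact (mem_cl.1 this).1
  -- the vertex `v`
  obtain ⟨v, hvH, hvl, hvv1, hvv2, hvA⟩ : ∃ v ∈ H, c v = l ∧ v ≠ v1 ∧ v ≠ v2 ∧
      (v ∈ A → 2 ≤ (cl A c l).card) := by
    by_cases h : cl H c l ⊆ A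
    · have h1 : cl A c l = cl H c l := by
        ext z
        simp only [mem_cl]
        constructor
        · rintro ⟨h2, h3⟩; exact ⟨hWD.hA h2, h3⟩
        · rintro ⟨h2, h3⟩; exact ⟨h (mem_cl.2 ⟨h2, h3⟩), h3⟩
      have h2 : 2 ≤ (cl A c l).card := by rw [h1]; omega
      obtain ⟨v, hv⟩ : (cl H c l).Nonempty := Finset.card_pos.1 (by have := hcl3 l; omega)
      rw [mem_cl] at hv
      refine ⟨v, hv.1, hv.2, ?_, ?_, fun _ => h2⟩
      · rintro rfl
        rw [← hv.2, hWD.h1, Finset.card_singleton] at h2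
        omega
      · rintro rfl
        rw [← hv.2, hWD.h2, Finset.card_singleton] at h2
        omega
    · obtain ⟨v, hv, hvA⟩ := Finset.not_subset.1 h
      rw [mem_cl] at hv
      refine ⟨v, hv.1, hv.2, ?_, ?_, fun h => absurd h hvA⟩
      · rintro rfl; exact hvA hv1A
      · rintro rfl; exact hvA hv2A
  -- representatives
  have hrep : ∀ i, ∃ a, a ∈ A ∧ c a = i ∧ a ≠ v := by
    intro i
    by_cases hi : i = l
    · subst hi
      by_cases hv : v ∈ A
      · obtain ⟨a, ha, hav⟩ := Finset.exists_mem_ne (hvA hv) v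
        rw [mem_cl] at ha
        exact ⟨a, ha.1, ha.2, hav⟩
      · obtain ⟨a, ha⟩ := hWD.hne i
        rw [mem_cl] at ha
        exact ⟨a, ha.1, ha.2, fun h => hv (h ▸ ha.1)⟩
    · obtain ⟨a, ha⟩ := hWD.hne i
      rw [mem_cl] at ha
      exact ⟨a, ha.1, ha.2, fun h => hi (by rw [← ha.2, h, hvl])⟩
  choose s hs1 hs2 hs3 using hrep
  have hR1 : univ.image s ⊆ A.erase v := by
    intro z hz
    rw [Finset.mem_image] at hz
    obtain ⟨i, _, rfl⟩ := hz
    exact Finset.mem_erase.2 ⟨hs3 i, hs1 i⟩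
  have hR2 : (univ.image s).card ≤ r := by
    refine Finset.card_image_le.trans ?_
    simp
  have hsv1 : s (c v1) = v1 := by
    have : s (c v1) ∈ cl A c (c v1) := mem_cl.2 ⟨hs1 _, hs2 _⟩
    rw [hWD.h1, Finset.mem_singleton] at this
    exact this
  have hsv2 : s (c v2) = v2 := by
    have : s (c v2) ∈ cl A c (c v2) := mem_cl.2 ⟨hs1 _, hs2 _⟩
    rw [hWD.h2, Finset.mem_singleton] at this
    exact this
  obtain ⟨g, hg⟩ : ∃ g, (cl H c l).card = (cl H c k).card + 1 + g := ⟨_, (by omega :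
    (cl H c l).card = (cl H c k).card + 1 + ((cl H c l).card - (cl H c k).card - 1))⟩
  have hg1 : 1 ≤ g := by omega
  have hgN : (g : ℝ) ≤ 2 * (δ0 * N) := by
    have h1 := (abs_le.1 (hnear.1 l)).2
    have h2 := (abs_le.1 (hnear.1 k)).1
    have h3 : sz H c l = sz H c k + 1 + g := by unfold sz; exact_mod_cast hg
    linarith
  have hAc : (r : ℝ) + g ≤ A.card := by
    have h1 := (abs_le.1 hnear.2).1
    have h2 := hj.1
    linarith
  have hAc' : r + g ≤ A.card := by exact_mod_cast hAc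
  have hAe : A.card - 1 ≤ (A.erase v).card := Finset.pred_card_le_card_erase
  obtain ⟨A', hRA', hA'A, hA'c⟩ := Finset.exists_subsuperset_card_eq hR1
    (n := A.card - g) (by omega) (by omega)
  have hA'A2 : A' ⊆ A := hA'A.trans (Finset.erase_subset _ _)
  have hvA' : v ∉ A' := fun h => (Finset.mem_erase.1 (hA'A h)).1 rfl
  obtain ⟨c', hc'⟩ : ∃ c', c' = Function.update c v k := ⟨_, rfl⟩
  have hc'v : c' v = k := by rw [hc', Function.update_self]
  have hc'n : ∀ z, z ≠ v → c' z = c z := fun z hz => by rw [hc', Function.update_of_ne hz]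
  have hsA' : ∀ i, s i ∈ A' := fun i => hRA' (Finset.mem_image_of_mem _ (Finset.mem_univ _))
  have hclA' : ∀ i, cl A' c' i = cl A' c i := by
    intro i
    ext z
    simp only [mem_cl]
    constructor
    · rintro ⟨h1, h2⟩
      exact ⟨h1, by rw [← hc'n z (fun h => hvA' (h ▸ h1))]; exact h2⟩
    · rintro ⟨h1, h2⟩
      exact ⟨h1, by rw [hc'n z (fun h => hvA' (h ▸ h1))]; exact h2⟩
  have hcl1 : ∀ u, u ∈ A' → cl A c (c u) = {u} → cl A' c' (c' u) = {u} := by
    intro u hu h1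
    rw [hclA', hc'n u (fun h => hvA' (h ▸ hu))]
    apply Finset.Subset.antisymm
    · intro z hz
      rw [mem_cl] at hz
      rw [← h1]
      exact mem_cl.2 ⟨hA'A2 hz.1, hz.2⟩
    · intro z hz
      rw [Finset.mem_singleton] at hz
      subst hz
      exact mem_cl.2 ⟨hu, rfl⟩
  have hv1A' : v1 ∈ A' := hsv1 ▸ hsA' (c v1)
  have hv2A' : v2 ∈ A' := hsv2 ▸ hsA' (c v2)
  have hWD' : WD (gD H c' w A' v1 v2) N H c' w A' v1 v2 := by
    refine gD_WD hWD.card hWD.hw (hA'A2.trans hWD.hA) ?_ (hcl1 v1 hv1A' hWD.h1)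
      (hcl1 v2 hv2A' hWD.h2) ?_
    · rw [hc'n v1 hvv1.symm, hc'n v2 hvv2.symm]
      exact hWD.h12
    · intro i
      rw [hclA']
      exact ⟨s i, mem_cl.2 ⟨hsA' i, hs2 i⟩⟩
  have hG := hGD r hr V G N H c w A v1 v2 hWD
  have hG' := hGD r hr V (gD H c' w A' v1 v2) N H c' w A' v1 v2 hWD'
  have hkv : k ≠ c v := by rw [hvl]; exact hkl
  have hcm : ∀ i, ((cl H c' i).card : ℤ) =
      (cl H c i).card + (if i = k then 1 else 0) - (if i = c v then 1 else 0) := by
    intro i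
    rw [hc']
    exact D1.cl_move hvH hkv i
  have hcl2 : ∀ i, 2 ≤ (cl H c' i).card := by
    intro i
    have h1 := hcm i
    have h2 := hcl3 i
    split_ifs at h1 <;> omega
  have hA'r : (A'.card : ℝ) = A.card - g := by
    rw [hA'c]
    push_cast [Nat.cast_sub (by omega : g ≤ A.card)]
    ring
  have hlkr : sz H c l = sz H c k + 1 + g := by unfold sz; exact_mod_cast hg
  have hpE : pE (gD H c' w A' v1 v2) = pE G := by
    rw [hG.2.2, hG'.2.2, hc', D1.sq_move hvH hkv, hvl, hlkr, hA'r]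
    ring
  have hsp := hMX (gD H c' w A' v1 v2) hG'.1 (hG'.2.1 hcl2) hpE
  have hV : Nonempty V := ⟨w⟩
  obtain ⟨x, hx⟩ := exists_PV G
  obtain ⟨y, hy⟩ := exists_PV (gD H c' w A' v1 v2)
  have hF := (hFAM r hr V G N H c w A).1 v1 v2 hWD
  have hF' := (hFAM r hr V (gD H c' w A' v1 v2) N H c' w A').1 v1 v2 hWD'
  have hn1 : Near r δ N j H A c := D1.Near.mono hnear (by linarith)
  have hn2 : Near r δ N j H A' c' := by
    constructor
    · intro i
      have h1 : |sz H c' i - sz H c i| ≤ 1 := by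
        have h2 := hcm i
        have h3 : sz H c' i = sz H c i + (if i = k then 1 else 0) - (if i = c v then 1 else 0) := by
          unfold sz
          exact_mod_cast h2
        rw [h3, abs_le]
        split_ifs <;> constructor <;> linarith
      have h2 := hnear.1 i
      rw [abs_le] at h1 h2 ⊢
      constructor <;> linarith
    · have h2 := hnear.2
      rw [hA'r]
      have h3 : (0 : ℝ) ≤ g := Nat.cast_nonneg g
      rw [abs_le] at h2 ⊢
      constructor <;> linarith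
  obtain ⟨xb, hxb⟩ := hE N (by omega) j hjN V G H c w A (JD v1 v2) x (specRad G) hF hx hWD.card hn1
  obtain ⟨yb, hyb⟩ := hE N (by omega) j hjN V (gD H c' w A' v1 v2) H c' w A' (JD v1 v2) y _ hF' hy
    hWD.card hn2
  have hJ : ∀ z, JD v1 v2 v z = 0 := by
    intro z
    unfold JD
    rw [chi_neg (fun h => hvv1 h.1), chi_neg (fun h => hvv2 h.1)]
    ring
  have := hM N (by omega) j hj V G (gD H c' w A' v1 v2) H c c' w A A' (JD v1 v2) x y (specRad G)
    (specRad (gD H c' w A' v1 v2)) xb yb v hF hF' hx hy hWD.card (D1.Near.mono hnear hd2) hxb hyb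
    hvH (by rw [hc'v]; exact hkv) hc'n hJ (by rw [hc'v, hvl]; omega) hA'A2 hvA'
    (by rw [hc'v, hvl]; omega)
  linarith

end Pool.Agent.Work.MP_5532fa_up

end
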