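import Mathlib
import Pool.Agent.Work.MP_5532fa_full.P06
import Pool.Agent.Work.MP_5532fa_full.P08
import Pool.Agent.Work.MP_5532fa_full.P09
import Pool.Agent.Work.MP_5532fa_full.P11
import Pool.Agent.Work.MP_5532fa_full.P14

section

/-!
# MP_5532fa_co, upgrade, second round: block EST1, estimates for the eigenvector
-/

set_option autoImplicit false

open Finset

namespace Pool.Agent.Work.MP_5532fa_up

open MP5532fa (specRad qf pE)

namespace EST1

section
variable {V : Type} [Fintype V] {r : ℕ} {G : SimpleGraph V} {H : Finset V} {c : V → Fin r}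

/-- weighted missing neighbours -/
noncomputable def ms (G : SimpleGraph V) (H : Finset V) (c : V → Fin r) (y : V → ℝ) (v : V) : ℝ :=
  ∑ u ∈ H, chi (c v ≠ c u ∧ ¬ G.Adj v u) * y u

/-- weighted outside neighbours -/
noncomputable def ot (G : SimpleGraph V) (H : Finset V) (y : V → ℝ) (v : V) : ℝ :=
  ∑ u ∈ out H, ad G v u * y u

omit [Fintype V] in
theorem rowH (h : ∀ u ∈ H, ∀ v ∈ H, c u = c v → ¬ G.Adj u v) (y : V → ℝ) {v : V} (hv : v ∈ H) :
    ∑ u ∈ H, ad G v u * y u = ∑ u ∈ H, y u - cs y H c (c v) - ms G H c y v := by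
  classical
  have h2 : cs y H c (c v) = ∑ u ∈ H, (if c u = c v then y u else 0) := by
    unfold cs cl
    rw [Finset.sum_filter]
  rw [h2, ms, ← Finset.sum_sub_distrib, ← Finset.sum_sub_distrib]
  refine Finset.sum_congr rfl fun u hu => ?_
  unfold ad
  by_cases hc : c u = c v
  · rw [if_pos hc, chi_neg (h v hv u hu hc.symm), chi_neg (fun h => h.1 hc.symm)]
    ring
  · rw [if_neg hc]
    by_cases ha : G.Adj v u
    · rw [chi_pos ha, chi_neg (fun h => h.2 ha)]; ring
    · rw [chi_neg ha, chi_pos ⟨fun h => hc h.symm, ha⟩]; ring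

theorem row (h : ∀ u ∈ H, ∀ v ∈ H, c u = c v → ¬ G.Adj u v) {x : V → ℝ} {lam : ℝ}
    (hpv : PV G x lam) {v : V} (hv : v ∈ H) :
    lam * x v = ∑ u ∈ H, x u - cs x H c (c v) - ms G H c x v + ot G H x v := by
  rw [← hpv.eig v, ACC0.split H, rowH h x hv]
  rfl

omit [Fintype V] in
theorem ms_nonneg {y : V → ℝ} (hy : ∀ v, 0 ≤ y v) (v : V) : 0 ≤ ms G H c y v :=
  Finset.sum_nonneg fun u _ => mul_nonneg (chi_nonneg _) (hy u)

theorem ot_nonneg {y : V → ℝ} (hy : ∀ v, 0 ≤ y v) (v : V) : 0 ≤ ot G H y v :=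
  Finset.sum_nonneg fun u _ => mul_nonneg (chi_nonneg _) (hy u)

omit [Fintype V] in
theorem ms_sum {y : V → ℝ} {mx : ℝ} (hm : ∀ v, y v ≤ mx) :
    ∑ v ∈ H, ms G H c y v ≤ mis G H c * mx := by
  rw [EDG.mis_eq, Finset.sum_mul]
  refine Finset.sum_le_sum fun v _ => ?_
  rw [ms, Finset.sum_mul]
  exact Finset.sum_le_sum fun u _ => mul_le_mul_of_nonneg_left (hm u) (chi_nonneg _)

theorem ot_sum {y : V → ℝ} {mx : ℝ} (hm : ∀ v, y v ≤ mx) (hmx : 0 ≤ mx) :
    ∑ v ∈ H, ot G H y v ≤ eo G H * mx := by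
  rw [EDG.eo_eq, Finset.sum_mul]
  have h1 : ∑ v ∈ H, ot G H y v = ∑ u ∈ out H, ∑ v ∈ H, ad G v u * y u := by
    unfold ot
    rw [Finset.sum_comm]
  rw [h1]
  refine Finset.sum_le_sum fun u _ => ?_
  rw [Finset.sum_mul]
  calc ∑ v ∈ H, ad G v u * y u ≤ ∑ v ∈ H, ad G u v * mx := by
        refine Finset.sum_le_sum fun v _ => ?_
        rw [ad_comm G v u]
        exact mul_le_mul_of_nonneg_left (hm u) (chi_nonneg _)
    _ ≤ ∑ v, ad G u v * mx :=
        Finset.sum_le_sum_of_subset_of_nonneg (Finset.subset_univ _)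
          (fun v _ _ => mul_nonneg (chi_nonneg _) hmx)

theorem out_sum {x : V → ℝ} {lam mx : ℝ} (hpv : PV G x lam) (hm : ∀ v, x v ≤ mx) :
    lam * ∑ v ∈ out H, x v ≤ eo G H * mx := by
  rw [EDG.eo_eq, Finset.sum_mul, Finset.mul_sum]
  refine Finset.sum_le_sum fun v _ => ?_
  rw [← hpv.eig v, Finset.sum_mul]
  exact Finset.sum_le_sum fun u _ => mul_le_mul_of_nonneg_left (hm u) (chi_nonneg _)

theorem ot_le {x : V → ℝ} (hx : ∀ v, 0 ≤ x v) (v : V) : ot G H x v ≤ ∑ u ∈ out H, x u := by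
  refine Finset.sum_le_sum fun u _ => ?_
  calc ad G v u * x u ≤ 1 * x u := mul_le_mul_of_nonneg_right (chi_le_one _) (hx u)
    _ = x u := one_mul _

/-- lower bound for the spectral radius -/
theorem lam_lower (h : ∀ u ∈ H, ∀ v ∈ H, c u = c v → ¬ G.Adj u v) {x : V → ℝ} {lam m : ℝ}
    (hpv : PV G x lam) (hm : ∀ i, sz H c i ≤ m) :
    (H.card : ℝ) * ((H.card : ℝ) - m) - mis G H c ≤ lam * H.card := by
  classical
  have _hne := hpv.nonempty
  have h1 := rayleigh G (fun v => chi (v ∈ H))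
  rw [← hpv.rad] at h1
  have h2 : ∑ v, chi (v ∈ H) ^ 2 = (H.card : ℝ) := by
    have h3 : ∀ v : V, chi (v ∈ H) ^ 2 = if v ∈ H then (1 : ℝ) else 0 := by
      intro v
      by_cases h : v ∈ H
      · rw [chi_pos h, if_pos h]; norm_num
      · rw [chi_neg h, if_neg h]; norm_num
    rw [Finset.sum_congr rfl fun v _ => h3 v, ← Finset.sum_filter]
    have h4 : (univ.filter fun a => a ∈ H) = H := by ext a; simp
    rw [h4]; simp
  rw [h2] at h1
  refine le_trans ?_ h1
  have h3 : ∑ a, ∑ b, ad G a b * (chi (a ∈ H) * chi (b ∈ H)) = ∑ a ∈ H, ∑ b ∈ H, ad G a b * 1 := by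
    rw [ACC0.restr H]
    · refine Finset.sum_congr rfl fun a ha => ?_
      rw [ACC0.restr H]
      · refine Finset.sum_congr rfl fun b hb => ?_
        rw [chi_pos ha, chi_pos hb, one_mul]
      · intro b hb
        rw [chi_neg hb]; ring
    · intro a ha
      exact Finset.sum_eq_zero fun b _ => by rw [chi_neg ha]; ring
  rw [h3]
  have h4 : ∀ a ∈ H, ((H.card : ℝ) - m) - ∑ b ∈ H, chi (c a ≠ c b ∧ ¬ G.Adj a b) ≤
      ∑ b ∈ H, ad G a b * 1 := by
    intro a ha
    rw [rowH h (fun _ => 1) ha]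
    have e1 : cs (fun _ => (1 : ℝ)) H c (c a) = sz H c (c a) := by
      unfold cs sz
      simp
    have e2 : ms G H c (fun _ => (1 : ℝ)) a = ∑ b ∈ H, chi (c a ≠ c b ∧ ¬ G.Adj a b) := by
      unfold ms
      simp
    have e3 : ∑ u ∈ H, (1 : ℝ) = H.card := by simp
    rw [e1, e2, e3]
    have := hm (c a)
    linarith only [this]
  have h5 := Finset.sum_le_sum h4
  rw [Finset.sum_sub_distrib, Finset.sum_const, nsmul_eq_mul, ← EDG.mis_eq] at h5
  exact h5

end

end EST1

set_option maxHeartbeats 4000000 in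
/-- **Block EST1.** -/
theorem blk_EST1 : Stmt_EST1 := by
  classical
  intro r e hr he
  have hR : (3 : ℝ) ≤ r := by exact_mod_cast hr
  obtain ⟨th, hth0, hth1, hthe⟩ : ∃ th : ℝ, 0 < th ∧ th ≤ 1 / 200 ∧ 200 * th ≤ e :=
    ⟨min (e / 200) (1 / 200), lt_min (by positivity) (by norm_num), min_le_right _ _, by
      have := min_le_left (e / 200) (1 / 200)
      linarith only [this]⟩
  obtain ⟨d, hd⟩ : ∃ d : ℝ, d = th / r := ⟨_, rfl⟩
  have hd0 : 0 < d := by rw [hd]; positivity
  have hrd : (r : ℝ) * d = th := by rw [hd]; field_simp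
  have h3d : 3 * d ≤ th := by
    rw [← hrd]
    exact mul_le_mul_of_nonneg_right hR hd0.le
  refine ⟨d, 1, hd0, by linarith only [hthe, hd0, h3d], ?_⟩
  intro N hN V _ G x lam c H hC hpv
  have hal := al_ge hr
  have hal1 := al_lt hr
  obtain ⟨M, hM⟩ : ∃ M : ℝ, M = (N : ℝ) := ⟨_, rfl⟩
  have hM1 : 1 ≤ M := by rw [hM]; exact_mod_cast hN
  have hM0 : 0 < M := by linarith only [hM1]
  have hHM : (H.card : ℝ) = M := by rw [hC.card, hM]
  have hmis : (mis G H c : ℝ) ≤ d * M := by have := hC.mis; rwa [← hM] at this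
  have heo : (eo G H : ℝ) ≤ d * M := by have := hC.eo; rwa [← hM] at this
  have hbal : ∀ i, |sz H c i - M / r| ≤ d * M := by
    intro i
    have := hC.bal i
    rwa [← hM] at this
  have hdM : d * 1 ≤ d * M := mul_le_mul_of_nonneg_left hM1 hd0.le
  have halM : 2 / 3 * M ≤ al r * M := mul_le_mul_of_nonneg_right hal hM0.le
  have h3dM : 3 * d * M ≤ 1 / 200 * M := mul_le_mul_of_nonneg_right (by linarith only [hth1,
      h3d]) hM0.le
  have halr : al r * M = M - M / r := by unfold al; ring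
  -- lower bound for `lam`
  have hlow : al r * M - 2 * d * M ≤ lam := by
    have h1 := EST1.lam_lower hC.ind hpv (m := M / r + d * M)
      (fun i => by have := (abs_le.1 (hbal i)).2; linarith only [this])
    rw [hHM] at h1
    have h2 : (al r * M - 2 * d * M) * M ≤ lam * M := by
      have h3 : M * (M - (M / r + d * M)) - d * M ≤ lam * M := by linarith only [hmis, h1]
      have h4 : M * (M - (M / r + d * M)) = (al r * M - d * M) * M := by rw [halr]; ring
      rw [h4] at h3
      have h5 : d * M * 1 ≤ d * M * M := mul_le_mul_of_nonneg_left hM1 (by positivity)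
      linarith only [h3, h5]
    exact le_of_mul_le_mul_right h2 hM0
  have hlamhalf : M / 2 ≤ lam := by linarith only [heo, halM, h3dM, hlow]
  have hlam0 : 0 < lam := by linarith only [hM0, hlamhalf]
  -- the maximum
  have _hne := hpv.nonempty
  obtain ⟨vm, -, hvm⟩ := Finset.exists_max_image (univ : Finset V) x
    ⟨Classical.arbitrary V, Finset.mem_univ _⟩
  obtain ⟨mx, hmx⟩ : ∃ mx, mx = x vm := ⟨_, rfl⟩
  have hxle : ∀ v, x v ≤ mx := fun v => by rw [hmx]; exact hvm v (Finset.mem_univ v)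
  have hmx0 : 0 < mx := by
    by_contra hcon
    push Not at hcon
    have h1 : ∀ v, x v = 0 := fun v => le_antisymm ((hxle v).trans hcon) (hpv.nn v)
    have h2 := hpv.unit
    simp [h1] at h2
  have hx0 := hpv.nn
  obtain ⟨S, hS⟩ : ∃ S, S = ∑ u ∈ H, x u := ⟨_, rfl⟩
  obtain ⟨xb, hxb⟩ : ∃ xb, xb = S / M := ⟨_, rfl⟩
  have hSM : S = M * xb := by rw [hxb]; field_simp
  -- outside
  have hout : ∑ v ∈ out H, x v ≤ 2 * d * mx := by
    have h1 := EST1.out_sum (H := H) hpv hxle
    have h2 : (eo G H : ℝ) * mx ≤ d * M * mx := mul_le_mul_of_nonneg_right heo hmx0.le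
    have h3 : 0 ≤ ∑ v ∈ out H, x v := Finset.sum_nonneg fun v _ => hx0 v
    have h4 : M / 2 * ∑ v ∈ out H, x v ≤ lam * ∑ v ∈ out H, x v :=
      mul_le_mul_of_nonneg_right hlamhalf h3
    have h5 : M / 2 * ∑ v ∈ out H, x v ≤ M / 2 * (2 * d * mx) := by
      have : M / 2 * (2 * d * mx) = d * M * mx := by ring
      linarith only [h1, h2, h4]
    exact le_of_mul_le_mul_left h5 (by positivity)
  have hxo : ∀ v, v ∉ H → x v ≤ 2 * d * mx := by
    intro v hv
    refine le_trans ?_ hout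
    exact Finset.single_le_sum (f := x) (fun u _ => hx0 u) (mem_out.2 hv)
  have hvmH : vm ∈ H := by
    by_contra h
    have h1 := hxo vm h
    rw [← hmx] at h1
    have h2 : 2 * d * mx ≤ 1 / 2 * mx := mul_le_mul_of_nonneg_right (by linarith only [hth1,
        h3d]) hmx0.le
    linarith only [hmx0, h1, h2]
  have hcs0 : ∀ i, 0 ≤ cs x H c i := fun i => Finset.sum_nonneg fun v _ => hx0 v
  have hmx4 : mx ≤ 4 * xb := by
    have h1 := EST1.row hC.ind hpv hvmH
    rw [← hmx, ← hS] at h1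
    have h2 := hcs0 (c vm)
    have h3 := EST1.ms_nonneg (G := G) (H := H) (c := c) hx0 vm
    have h4 := EST1.ot_le (G := G) (H := H) hx0 vm
    have h5 : M / 2 * mx ≤ lam * mx := mul_le_mul_of_nonneg_right hlamhalf hmx0.le
    have h6 : 2 * d * mx ≤ M / 4 * mx := mul_le_mul_of_nonneg_right (by linarith only [hth1, h3d,
        hM1]) hmx0.le
    have h7 : M / 4 * mx ≤ M / 4 * (4 * xb) := by
      have : M / 4 * (4 * xb) = S := by rw [hSM]; ring
      linarith only [hSM, hout, h1, h2, h3, h4, h5, h6]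
    exact le_of_mul_le_mul_left h7 (by positivity)
  have hxb0 : 0 < xb := by linarith only [hmx0, hmx4]
  have hS0 : 0 < S := by rw [hSM]; positivity
  have hdmx : d * M * mx ≤ 4 * d * M * xb := by
    calc d * M * mx ≤ d * M * (4 * xb) := mul_le_mul_of_nonneg_left hmx4 (by positivity)
      _ = 4 * d * M * xb := by ring
  -- missing and outside terms
  have hmsum : ∑ v ∈ H, EST1.ms G H c x v ≤ 4 * d * M * xb := by
    refine (EST1.ms_sum hxle).trans (le_trans ?_ hdmx)
    exact mul_le_mul_of_nonneg_right hmis hmx0.le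
  have hosum : ∑ v ∈ H, EST1.ot G H x v ≤ 4 * d * M * xb := by
    refine (EST1.ot_sum hxle hmx0.le).trans (le_trans ?_ hdmx)
    exact mul_le_mul_of_nonneg_right heo hmx0.le
  have hms0 := EST1.ms_nonneg (G := G) (H := H) (c := c) hx0
  have hot0 := EST1.ot_nonneg (G := G) (H := H) hx0
  have hmv : ∀ v ∈ H, EST1.ms G H c x v ≤ 4 * d * M * xb := fun v hv =>
    (Finset.single_le_sum (f := fun v => EST1.ms G H c x v) (fun u _ => hms0 u) hv).trans hmsum
  have hov : ∀ v ∈ H, EST1.ot G H x v ≤ 4 * d * M * xb := fun v hv =>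
    (Finset.single_le_sum (f := fun v => EST1.ot G H x v) (fun u _ => hot0 u) hv).trans hosum
  obtain ⟨te, hte⟩ : ∃ te : Fin r → ℝ, ∀ i, te i = ∑ v ∈ cl H c i,
      (EST1.ot G H x v - EST1.ms G H c x v) := ⟨_, fun _ => rfl⟩
  have hclH : ∀ i, cl H c i ⊆ H := fun i v hv => (mem_cl.1 hv).1
  have hteb : ∀ i, |te i| ≤ 4 * d * M * xb := by
    intro i
    rw [hte i, Finset.sum_sub_distrib]
    have h1 : ∑ v ∈ cl H c i, EST1.ot G H x v ≤ 4 * d * M * xb :=
      (Finset.sum_le_sum_of_subset_of_nonneg (hclH i) fun v _ _ => hot0 v).trans hosum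
    have h2 : ∑ v ∈ cl H c i, EST1.ms G H c x v ≤ 4 * d * M * xb :=
      (Finset.sum_le_sum_of_subset_of_nonneg (hclH i) fun v _ _ => hms0 v).trans hmsum
    have h3 : 0 ≤ ∑ v ∈ cl H c i, EST1.ot G H x v := Finset.sum_nonneg fun v _ => hot0 v
    have h4 : 0 ≤ ∑ v ∈ cl H c i, EST1.ms G H c x v := Finset.sum_nonneg fun v _ => hms0 v
    rw [abs_le]
    constructor <;> linarith only [h2, h3, h1, h4]
  -- class equations
  have hcls : ∀ i, lam * cs x H c i = sz H c i * S - sz H c i * cs x H c i + te i := by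
    intro i
    have h1 : lam * cs x H c i = ∑ v ∈ cl H c i,
        (S - cs x H c i + (EST1.ot G H x v - EST1.ms G H c x v)) := by
      rw [cs, Finset.mul_sum]
      refine Finset.sum_congr rfl fun v hv => ?_
      have h2 := EST1.row hC.ind hpv (hclH i hv)
      rw [← hS, (mem_cl.1 hv).2] at h2
      rw [h2]
      unfold cs
      ring
    rw [h1, Finset.sum_add_distrib, Finset.sum_const, nsmul_eq_mul, ← hte i]
    unfold sz
    ring
  have hcssum : ∑ i, cs x H c i = S := by rw [hS]; exact sum_cl H c x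
  have hszsum : ∑ i, sz H c i = M := by rw [← hHM]; exact EST.sum_sz' H c
  have hxbM : xb ≤ M * xb := by
    have : 1 * xb ≤ M * xb := mul_le_mul_of_nonneg_right hM1 hxb0.le
    linarith only [this]
  have hdMx : d * xb ≤ d * M * xb := mul_le_mul_of_nonneg_right (by linarith only [hdM]) hxb0.le
  -- `lam`
  have hlamN : |lam - al r * M| ≤ 5 * th * M := by
    have h1 : (lam - al r * M) * S = - ∑ i, (sz H c i - M / r) * cs x H c i + ∑ i, te i := by
      have h2 : ∑ i, lam * cs x H c i = ∑ i, (sz H c i * S - sz H c i * cs x H c i + te i) :=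
        Finset.sum_congr rfl fun i _ => hcls i
      rw [← Finset.mul_sum, hcssum, Finset.sum_add_distrib, Finset.sum_sub_distrib,
        ← Finset.sum_mul, hszsum] at h2
      have h3 : ∑ i, (sz H c i - M / r) * cs x H c i =
          ∑ i, sz H c i * cs x H c i - M / r * S := by
        rw [← hcssum, Finset.mul_sum, ← Finset.sum_sub_distrib]
        exact Finset.sum_congr rfl fun i _ => by ring
      rw [h3, sub_mul, halr]
      linarith only [h2]
    have h2 : |∑ i, (sz H c i - M / r) * cs x H c i| ≤ d * M * S := by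
      refine (Finset.abs_sum_le_sum_abs _ _).trans ?_
      rw [← hcssum, Finset.mul_sum]
      refine Finset.sum_le_sum fun i _ => ?_
      rw [abs_mul, abs_of_nonneg (hcs0 i)]
      exact mul_le_mul_of_nonneg_right (hbal i) (hcs0 i)
    have h3 : |∑ i, te i| ≤ 4 * th * M * xb := by
      refine (Finset.abs_sum_le_sum_abs _ _).trans ?_
      refine (Finset.sum_le_card_nsmul _ _ _ fun i _ => hteb i).trans (le_of_eq ?_)
      rw [Finset.card_univ, Fintype.card_fin, nsmul_eq_mul, ← hrd]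
      ring
    have h4 : |lam - al r * M| * S ≤ 5 * th * M * S := by
      have h5 : |lam - al r * M| * S = |(lam - al r * M) * S| := by
        rw [abs_mul, abs_of_pos hS0]
      rw [h5, h1]
      have h6 : 4 * th * M * xb ≤ 4 * th * M * S := by
        rw [hSM]
        exact mul_le_mul_of_nonneg_left hxbM (by positivity)
      have h7 : d * M * S ≤ th * M * S := by
        refine mul_le_mul_of_nonneg_right ?_ hS0.le
        refine mul_le_mul_of_nonneg_right ?_ hM0.le
        linarith only [hd0, h3d]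
      rw [abs_le] at h2 h3 ⊢
      constructor <;> linarith only [h6, h7, h2.1, h2.2, h3.1, h3.2]
    exact le_of_mul_le_mul_right h4 hS0
  -- class sums
  have hcsr : ∀ i, |cs x H c i - S / r| ≤ 20 * th * M * xb := by
    intro i
    have hsz0 := EST.sz_nonneg' H c i
    have hpos : M / 2 ≤ lam + sz H c i := by linarith only [hlamhalf, hsz0]
    have h1 : (lam + sz H c i) * (cs x H c i - S / r) =
        S * (al r * (sz H c i - M / r) - (lam - al r * M) / r) + te i := by
      have h2 : (lam + sz H c i) * cs x H c i = sz H c i * S + te i := by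
        have := hcls i; linarith only [this]
      rw [mul_sub, h2]
      unfold al
      ring
    have h2 : |al r * (sz H c i - M / r)| ≤ d * M := by
      rw [abs_mul, abs_of_pos (by linarith only [hal] : 0 < al r)]
      calc al r * |sz H c i - M / r| ≤ 1 * |sz H c i - M / r| :=
            mul_le_mul_of_nonneg_right hal1.le (abs_nonneg _)
        _ ≤ d * M := by rw [one_mul]; exact hbal i
    have h3 : |(lam - al r * M) / r| ≤ 5 * d * M := by
      rw [abs_div, abs_of_pos (by linarith only [hR] : (0 : ℝ) < r),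
          div_le_iff₀ (by linarith only [hR] : (0 : ℝ) < r)]
      refine hlamN.trans (le_of_eq ?_)
      rw [← hrd]; ring
    have h4 : |S * (al r * (sz H c i - M / r) - (lam - al r * M) / r)| ≤ S * (6 * d * M) := by
      rw [abs_mul, abs_of_pos hS0]
      refine mul_le_mul_of_nonneg_left ?_ hS0.le
      rw [abs_le] at h2 h3 ⊢
      constructor <;> linarith only [h2.1, h2.2, h3.1, h3.2]
    have h5 : |(lam + sz H c i) * (cs x H c i - S / r)| ≤ S * (10 * d * M) := by
      rw [h1]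
      have h6 : 4 * d * M * xb ≤ S * (4 * d * M) := by
        rw [hSM]
        have : 4 * d * M * xb ≤ 4 * d * M * (M * xb) :=
          mul_le_mul_of_nonneg_left hxbM (by positivity)
        linarith only [this]
      have h7 := hteb i
      rw [abs_le] at h4 h7 ⊢
      constructor <;> linarith only [h6, h4.1, h4.2, h7.1, h7.2]
    rw [abs_mul, abs_of_pos (by linarith only [hlam0, hsz0] : 0 < lam + sz H c i)] at h5
    have h6 : M / 2 * |cs x H c i - S / r| ≤ (lam + sz H c i) * |cs x H c i - S / r| :=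
      mul_le_mul_of_nonneg_right hpos (abs_nonneg _)
    have h7 : M / 2 * |cs x H c i - S / r| ≤ M / 2 * (20 * th * M * xb) := by
      refine h6.trans (h5.trans ?_)
      rw [hSM]
      have h8 : d * (M * xb * (10 * M)) ≤ th * (M * xb * (10 * M)) :=
        mul_le_mul_of_nonneg_right (by linarith only [hd0, h3d]) (by positivity)
      linarith only [h8]
    exact le_of_mul_le_mul_left h7 (by positivity)
  have hthx : 0 ≤ th * xb := by positivity
  have hex : 200 * th * xb ≤ e * xb := mul_le_mul_of_nonneg_right hthe hxb0.le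
  refine ⟨xb, ⟨hxb0, ?_, ?_, ?_⟩⟩
  · intro v hv
    have h1 := EST1.row hC.ind hpv hv
    rw [← hS] at h1
    have h2 := hcsr (c v)
    have h3 : lam * (x v - xb) = -(cs x H c (c v) - S / r) - (lam - al r * M) * xb +
        (EST1.ot G H x v - EST1.ms G H c x v) := by
      have e6 : al r * M * xb = S - S / r := by rw [hSM]; unfold al; ring
      rw [mul_sub, h1, sub_mul, e6]
      ring
    have h4 : |(lam - al r * M) * xb| ≤ 5 * th * M * xb := by
      rw [abs_mul, abs_of_pos hxb0]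
      exact mul_le_mul_of_nonneg_right hlamN hxb0.le
    have h5 : 4 * d * M * xb ≤ 2 * th * M * xb := by
      have h6 : 2 * d * (M * xb) ≤ th * (M * xb) :=
        mul_le_mul_of_nonneg_right (by linarith only [hd0, h3d]) (by positivity)
      linarith only [h6]
    have h6 : |lam * (x v - xb)| ≤ 27 * th * M * xb := by
      rw [h3]
      have a1 := hmv v hv
      have a2 := hov v hv
      have a3 := hms0 v
      have a4 := hot0 v
      rw [abs_le] at h2 h4 ⊢
      constructor <;> linarith only [h5, a1, a4, a2, a3, h2.1, h2.2, h4.1, h4.2]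
    rw [abs_mul, abs_of_pos hlam0] at h6
    have h7 : M / 2 * |x v - xb| ≤ M / 2 * (54 * th * xb) := by
      have h8 : M / 2 * |x v - xb| ≤ lam * |x v - xb| :=
        mul_le_mul_of_nonneg_right hlamhalf (abs_nonneg _)
      have h9 : M / 2 * (54 * th * xb) = 27 * th * M * xb := by ring
      linarith only [h6, h8]
    have h8 : |x v - xb| ≤ 54 * th * xb := le_of_mul_le_mul_left h7 (by positivity)
    linarith only [hthx, hex, h8]
  · intro v hv
    have h1 := hxo v hv
    have h2 : 2 * d * mx ≤ 2 * d * (4 * xb) := mul_le_mul_of_nonneg_left hmx4 (by positivity)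
    have h3 : 8 * d * xb ≤ 8 * th * xb := by
      refine mul_le_mul_of_nonneg_right ?_ hxb0.le
      linarith only [hd0, h3d]
    linarith only [hthx, hex, h1, h2, h3]
  · rw [← hM]
    refine hlamN.trans ?_
    refine mul_le_mul_of_nonneg_right ?_ hM0.le
    linarith only [hth0, hthe]

end Pool.Agent.Work.MP_5532fa_up

end

section

/-!
# MP_5532fa_co, upgrade: block CMB0 (combinatorics without missing pairs)
-/

open Finset

namespace Pool.Agent.Work.MP_5532fa_up

open MP5532fa (specRad qf pE)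

namespace CMB0

section
variable {V : Type} [Fintype V] {r : ℕ}

/-- ordered adjacent pairs in `O` -/
noncomputable def SO (G : SimpleGraph V) (O : Finset V) : ℝ := ∑ a ∈ O, ∑ b ∈ O, ad G a b

omit [Fintype V] in
theorem SO_nonneg (G : SimpleGraph V) (O : Finset V) : 0 ≤ SO G O :=
  Finset.sum_nonneg fun _ _ => Finset.sum_nonneg fun _ _ => chi_nonneg _

omit [Fintype V] in
open Classical in
theorem SO_erase (G : SimpleGraph V) (O : Finset V) {u : V} (hu : u ∈ O) :
    SO G O = SO G (O.erase u) + 2 * ∑ b ∈ O, ad G u b := by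
  have huu : ad G u u = 0 := chi_neg (G.loopless.irrefl u)
  have e0 : ∑ b ∈ O.erase u, ad G u b = ∑ b ∈ O, ad G u b := by
    rw [← Finset.sum_erase_add O _ hu, huu, add_zero]
  unfold SO
  rw [← Finset.sum_erase_add O (fun a => ∑ b ∈ O, ad G a b) hu]
  have e1 : ∑ a ∈ O.erase u, ∑ b ∈ O, ad G a b =
      ∑ a ∈ O.erase u, ∑ b ∈ O.erase u, ad G a b + ∑ a ∈ O.erase u, ad G a u := by
    rw [← Finset.sum_add_distrib]
    exact Finset.sum_congr rfl fun a _ => (Finset.sum_erase_add O _ hu).symm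
  have e2 : ∑ a ∈ O.erase u, ad G a u = ∑ b ∈ O, ad G u b := by
    rw [← e0]
    exact Finset.sum_congr rfl fun a _ => ad_comm G a u
  rw [e1, e2]
  ring

/-- two vertices outside `H` -/
theorem eu_two (G : SimpleGraph V) (H : Finset V) {u u' : V} (hu : u ∉ H) (hu' : u' ∉ H)
    (hne : u' ≠ u) : 2 * dg G (out H) u + 2 * dg G (out H) u' ≤ eu G H + 2 := by
  classical
  have h1 : (eu G H : ℝ) = SO G (out H) := EID.eu_eq G H
  have h2 := SO_erase G (out H) (mem_out.mpr hu)
  have h3 := SO_erase G ((out H).erase u)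
    (Finset.mem_erase.mpr ⟨hne, mem_out.mpr hu'⟩ : u' ∈ (out H).erase u)
  have h4 := SO_nonneg G (((out H).erase u).erase u')
  have h5 : (dg G (out H) u : ℝ) = ∑ b ∈ out H, ad G u b := EID.dg_eq G (out H) u
  have h6 : (dg G (out H) u' : ℝ) = ∑ b ∈ out H, ad G u' b := EID.dg_eq G (out H) u'
  have h7 : ∑ b ∈ out H, ad G u' b ≤ ∑ b ∈ (out H).erase u, ad G u' b + 1 := by
    rw [← Finset.sum_erase_add (out H) _ (mem_out.mpr hu)]
    have : ad G u' u ≤ 1 := chi_le_one _
    linarith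
  have h8 : 2 * (dg G (out H) u : ℝ) + 2 * dg G (out H) u' ≤ eu G H + 2 := by
    rw [h1, h2, h5, h6]
    rw [h3]
    linarith
  exact_mod_cast h8

/-- the edges outside `H` -/
theorem eu_pos {G : SimpleGraph V} {H : Finset V} (h : eu G H ≠ 0) :
    ∃ a b, a ∉ H ∧ b ∉ H ∧ G.Adj a b := by
  classical
  unfold eu at h
  obtain ⟨⟨a, b⟩, he⟩ := Finset.card_ne_zero.mp h
  rw [Finset.mem_filter] at he
  exact ⟨a, b, he.2.2.1, he.2.2.2, he.2.1⟩

theorem eu_zero {G : SimpleGraph V} {H : Finset V} (h : eu G H = 0) {a b : V} (ha : a ∉ H)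
    (hb : b ∉ H) : ¬ G.Adj a b := by
  classical
  intro hab
  unfold eu at h
  rw [Finset.card_eq_zero, Finset.eq_empty_iff_forall_notMem] at h
  apply h (a, b)
  rw [Finset.mem_filter]
  exact ⟨Finset.mem_univ _, hab, ha, hb⟩

/-- no edges outside `H`: colour `H` by `c`, the other vertices by missed classes -/
theorem col0 {G : SimpleGraph V} {H : Finset V} {c : V → Fin r} (hr : 0 < r)
    (hind : ∀ u ∈ H, ∀ v ∈ H, c u = c v → ¬ G.Adj u v) (h0 : eu G H = 0)
    (hm : ∀ v, v ∉ H → ∃ i, cl (nb G H v) c i = ∅) : G.Colorable r := by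
  classical
  have : Nonempty (Fin r) := ⟨⟨0, hr⟩⟩
  choose! g hg using hm
  have key : ∀ a b, a ∈ H → b ∉ H → G.Adj a b → c a ≠ g b := by
    intro a b ha hb hab hc
    have h1 : a ∈ cl (nb G H b) c (g b) := mem_cl.mpr ⟨mem_nb.mpr ⟨ha, hab.symm⟩, hc⟩
    rw [hg b hb] at h1
    exact Finset.notMem_empty _ h1
  refine ⟨SimpleGraph.Coloring.mk (fun v => if v ∈ H then c v else g v) ?_⟩
  intro a b hab
  by_cases ha : a ∈ H
  · by_cases hb : b ∈ H
    · simp only [ha, hb, if_true]
      intro h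
      exact hind a ha b hb h hab
    · simp only [ha, hb, if_true, if_false]
      exact key a b ha hb hab
  · by_cases hb : b ∈ H
    · simp only [ha, hb, if_true, if_false]
      exact (key b a hb ha hab.symm).symm
    · exact absurd hab (eu_zero h0 ha hb)

/-- another vertex of large degree -/
theorem big {G : SimpleGraph V} {H : Finset V} {c : V → Fin r} (hcol : ¬ G.Colorable r)
    (hind : ∀ u ∈ H, ∀ v ∈ H, c u = c v → ¬ G.Adj u v) {v0 : V} {i : Fin r} (hv : v0 ∉ H)
    (hi : cl (nb G H v0) c i = ∅) : ∃ u, u ∉ H ∧ u ≠ v0 ∧ r ≤ (nb G univ u).card := by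
  classical
  by_contra hcon
  push Not at hcon
  apply hcol
  have key : ∀ a, a ∈ H → G.Adj a v0 → c a ≠ i := by
    intro a ha hab hc
    have h1 : a ∈ cl (nb G H v0) c i := mem_cl.mpr ⟨mem_nb.mpr ⟨ha, hab.symm⟩, hc⟩
    rw [hi] at h1
    exact Finset.notMem_empty _ h1
  refine LC.greedy G r (insert v0 H) (Function.update c v0 i) ?_ ?_
  · intro a ha b hb hab
    rw [Finset.mem_insert] at ha hb
    by_cases hav : a = v0
    · subst hav
      have hba : b ≠ a := hab.ne'
      rw [Function.update_self, Function.update_of_ne hba]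
      exact (key b (hb.resolve_left hba) hab.symm).symm
    · by_cases hbv : b = v0
      · subst hbv
        rw [Function.update_self, Function.update_of_ne hav]
        exact key a (ha.resolve_left hav) hab
      · rw [Function.update_of_ne hav, Function.update_of_ne hbv]
        intro h
        exact hind a (ha.resolve_left hav) b (hb.resolve_left hbv) h hab
  · intro v hv'
    rw [Finset.mem_insert, not_or] at hv'
    exact hcon v hv'.2 hv'.1

end

end CMB0

open CMB0 in
theorem blk_CMB0 (h1 : Stmt_TRV) (h2 : Stmt_LC) (h3 : Stmt_EVN) : Stmt_CMB0 := by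
  classical
  intro r hr V _ G c H hfree hcol hind hmis
  -- every vertex outside misses a class
  have hm : ∀ v, v ∉ H → ∃ i, cl (nb G H v) c i = ∅ := by
    intro v hv
    by_contra hcon
    push Not at hcon
    have hne : ∀ i, (cl (nb G H v) c i).Nonempty := hcon
    obtain ⟨⟨i0, i1, _, _, h5⟩, _⟩ := h1 r hr V G c H (nb G H v) v hfree hind hv rfl hne
    rw [hmis] at h5
    have := Finset.card_pos.mpr (hne i1)
    omega
  obtain ⟨hE1, hE2⟩ := h3 r V G c H
  have heu : eu G H ≠ 0 := fun h0 => hcol (col0 (by omega) hind h0 hm)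
  obtain ⟨p, q, hp, hq, hpq⟩ := eu_pos heu
  have hne : (out H).Nonempty := ⟨p, mem_out.mpr hp⟩
  obtain ⟨w, hw, hwmax⟩ := Finset.exists_max_image (out H) (fun v => dg G H v) hne
  have hwH := mem_out.mp hw
  obtain ⟨i0, hi0⟩ := hm w hwH
  obtain ⟨t, ht⟩ := hE2
  have hsum : dg G H w ≤ ∑ v ∈ out H, dg G H v :=
    Finset.single_le_sum (f := fun v => dg G H v) (fun _ _ => Nat.zero_le _) hw
  obtain ⟨Q, hQ⟩ : ∃ Q, Q = ∑ v ∈ out H, dg G H v - dg G H w + t := ⟨_, rfl⟩
  have hQ2 : 2 * ∑ v ∈ out H, dg G H v + eu G H = 2 * dg G H w + 2 * Q := by omega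
  obtain ⟨hL1, hL2⟩ := h2 r hr V G c H (nb G H w) w i0 (2 * Q) hfree hcol hind hwH rfl hi0 hQ2
  refine ⟨w, i0, Q, hwH, fun v hv => hwmax v (mem_out.mpr hv), hi0, hQ2, ?_⟩
  by_cases hQr : Q = r
  · exact Or.inl (hL2 hmis (by omega))
  · right
    refine ⟨by omega, ?_, by omega, ?_⟩
    · -- two vertices of degree at least `r`
      obtain ⟨u, hu, _, hur⟩ := big hcol hind hwH hi0
      obtain ⟨i1, hi1⟩ := hm u hu
      obtain ⟨u', hu', huu, hur'⟩ := big hcol hind hu hi1
      have e1 := LC.dg_univ G H u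
      have e2 := LC.dg_univ G H u'
      have e3 := eu_two G H hu hu' huu
      have e4 : dg G H u + dg G H u' ≤ ∑ v ∈ out H, dg G H v := by
        have hs : ({u, u'} : Finset V) ⊆ out H := by
          intro a ha
          rw [Finset.mem_insert, Finset.mem_singleton] at ha
          rcases ha with rfl | rfl
          · exact mem_out.mpr hu
          · exact mem_out.mpr hu'
        have := Finset.sum_le_sum_of_subset (f := fun v => dg G H v) hs
        rw [Finset.sum_pair huu.symm] at this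
        exact this
      omega
    · by_cases hpw : p = w
      · refine ⟨q, hq, ?_⟩
        rintro rfl
        exact hpq.ne hpw
      · exact ⟨p, hp, hpw⟩

end Pool.Agent.Work.MP_5532fa_up

end

section

open Finset

namespace Pool.Agent.Work.MP_5532fa_up

namespace OPT3

open OPT2

theorem mul_le_left' {a b : ℝ} (ha : 0 ≤ a) (hb : b ≤ 1) : a * b ≤ a := by
  have := mul_le_mul_of_nonneg_left hb ha
  linarith only [this]

/-- linear interpolation -/
theorem interp {x κ Y : ℝ} (h1 : x ≤ Y) (h2 : Y ≤ 1) :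
    (1 - x) * min x κ + (Y - x) * (1 - Y) ≤ Y * (1 - Y) + κ * (Y - x) := by
  have a1 : min x κ * (1 - Y) ≤ x * (1 - Y) :=
    mul_le_mul_of_nonneg_right (min_le_left _ _) (by linarith only [h2])
  have a2 : min x κ * (Y - x) ≤ κ * (Y - x) :=
    mul_le_mul_of_nonneg_right (min_le_right _ _) (by linarith only [h1])
  linarith only [a1, a2]

/-- the largest summand -/
theorem Fa {ι : Type} (s : Finset ι) (X : ι → ℝ) (e a : ℝ) (he : 0 ≤ e) (ha0 : 0 ≤ a)
    (h : ∀ v ∈ s, 0 ≤ X v ∧ X v ≤ a) :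
    (1 - a) * (∑ v ∈ s, X v + e) ≤ ∑ v ∈ s, X v * (1 - X v) + e := by
  have h1 : (1 - a) * ∑ v ∈ s, X v ≤ ∑ v ∈ s, X v * (1 - X v) := by
    rw [Finset.mul_sum]
    apply Finset.sum_le_sum
    intro v hv
    have h2 := (h v hv).2
    have h3 := (h v hv).1
    rw [mul_comm]
    exact mul_le_mul_of_nonneg_left (by linarith only [h2]) h3
  have h2 : (1 - a) * e ≤ e := by linarith only [mul_nonneg ha0 he]
  rw [mul_add]
  linarith only [h1, h2]

/-- the case `k = 0` -/
theorem k0 {κ κ' η' ε ε2 δ D m : ℝ} (hκ : 0 < κ) (hκκ : κ < κ') (hκ1 : κ' ≤ 1) (hη : 0 < η')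
    (hη1 : η' ≤ 1 / 2) (hε : 0 < ε) (hm0 : 0 < m) (hm2 : m ≤ ε2) (hD0 : 0 < D) (hδ0 : 0 < δ)
    (hDδ : D * η' = 8 * δ) (hδD : δ ≤ D) (hD1 : D ≤ η' * m / 125) (hD2 : D ≤ ε * ε * m / 125)
    (hD3 : D ≤ ε * m / 125) (hD4 : D ≤ m / 125) (hm1 : m ≤ 1)
    {ι : Type} (s : Finset ι) (X : ι → ℝ) (e sg mu x : ℝ)
    (hX : ∀ v ∈ s, 0 ≤ X v ∧ X v ≤ 1 - η') (he : 0 ≤ e) (hsg : 0 ≤ sg) (hmu : 0 ≤ mu)
    (hx1 : ε ≤ x) (hx2 : x ≤ 1) (hbal : |∑ v ∈ s, X v + e - sg - mu - x| ≤ δ)
    (hcost : ∑ v ∈ s, X v * (1 - X v) + e + κ * sg + κ' * mu ≤ (1 - x) * min x κ + δ) :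
    x ≤ κ + ε2 ∧ ∃ w ∈ s, |X w - x| ≤ ε2 ∧ ∑ v ∈ s, X v - X w + e + sg + mu ≤ ε2 := by
  classical
  have hD5 : D ≤ η' / 125 := by
    have := mul_le_left' hη.le hm1
    linarith only [hD1, this]
  have hX1 : ∀ v ∈ s, 0 ≤ X v ∧ X v < 1 := fun v hv => ⟨(hX v hv).1, by
    have := (hX v hv).2; linarith only [hD0, hD5, this]⟩
  have hsum0 : 0 ≤ ∑ v ∈ s, X v := Finset.sum_nonneg fun v hv => (hX v hv).1
  have hx0 : 0 < x := by linarith only [hε, hx1]
  obtain ⟨Y, hY⟩ : ∃ Y, Y = ∑ v ∈ s, X v + e := ⟨_, rfl⟩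
  obtain ⟨q, hq⟩ : ∃ q, q = sg + mu := ⟨_, rfl⟩
  obtain ⟨F, hF⟩ : ∃ F, F = ∑ v ∈ s, X v * (1 - X v) + e := ⟨_, rfl⟩
  have hY0 : 0 ≤ Y := by linarith only [he, hsum0, hY]
  have hq0 : 0 ≤ q := by linarith only [hsg, hmu, hq]
  have hmm : (1 - x) * min x κ ≤ κ * (1 - x) := by
    rw [mul_comm]
    exact mul_le_mul_of_nonneg_right (min_le_right _ _) (by linarith only [hx2])
  have hmx : (1 - x) * min x κ ≤ x * (1 - x) := by
    rw [mul_comm]
    exact mul_le_mul_of_nonneg_right (min_le_left _ _) (by linarith only [hx2])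
  have hC : F + κ * q ≤ (1 - x) * min x κ + δ := by
    have h1 : κ * mu ≤ κ' * mu := mul_le_mul_of_nonneg_right hκκ.le hmu
    have e1 : κ * q = κ * sg + κ * mu := by rw [hq]; ring
    rw [e1, hF]
    linarith only [hcost, h1]
  have hB : |Y - q - x| ≤ δ := by
    have : Y - q - x = ∑ v ∈ s, X v + e - sg - mu - x := by rw [hY, hq]; ring
    rw [this]; exact hbal
  obtain ⟨hb1, hb2⟩ := abs_le.mp hB
  have hFη : η' * Y ≤ F := by
    have := Fa s X e (1 - η') he (by linarith only [hη1]) hX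
    rw [hF, hY]
    linarith only [this]
  have hFg : gg Y ≤ F := by rw [hY, hF]; exact F_ge s X e he hX1
  -- lower bound of `κ q`
  have hκq : κ * (Y - x) - δ ≤ κ * q := by
    have h1 : κ * (Y - x - δ) ≤ κ * q := mul_le_mul_of_nonneg_left (by linarith only [hb2]) hκ.le
    have h2 : κ * δ ≤ δ := by
      have := mul_le_left' hδ0.le (show κ ≤ 1 by linarith only [hκκ, hκ1])
      linarith only [this]
    linarith only [h1, h2]
  have hY1 : Y ≤ 1 - η' / 4 := by
    by_contra hc
    push Not at hc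
    have h1 : η' * (1 - η' / 4) ≤ η' * Y := mul_le_mul_of_nonneg_left hc.le hη.le
    have h2 : κ * (1 - η' / 4 - x) ≤ κ * (Y - x) := mul_le_mul_of_nonneg_left (by linarith only [hc]) hκ.le
    have h3 : κ * (η' / 4) ≤ η' / 4 := by
      have := mul_le_left' (show 0 ≤ η' / 4 by linarith only [hη]) (show κ ≤ 1 by linarith only [hκκ, hκ1])
      linarith only [this]
    have h4 : η' * (η' / 4) ≤ 1 / 2 * (η' / 4) := mul_le_mul_of_nonneg_right hη1 (by linarith only [hη])
    linarith only [hδ0, hδD, hD5, hmm, hC, hFη, hκq, h1, h2, h3, h4]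
  have hFY : Y * (1 - Y) ≤ F := by rw [gg_of hY0 (by linarith only [hη, hY1])] at hFg; exact hFg
  have hYx : Y - x ≤ D := by
    rcases le_or_gt Y x with h | h
    · linarith only [hδD, hb1, hb2, h]
    · have h1 := interp (κ := κ) h.le (by linarith only [hδD, hD5, hb1, hb2, hY1] : Y ≤ 1)
      have h2 : (Y - x) * (1 - Y) ≤ 2 * δ := by linarith only [hC, hκq, hFY, h1]
      have h3 : (Y - x) * (η' / 4) ≤ (Y - x) * (1 - Y) :=
        mul_le_mul_of_nonneg_left (by linarith only [hY1]) (by linarith only [h])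
      have h4 : (Y - x) * η' ≤ D * η' := by linarith only [hDδ, h2, h3]
      exact le_of_mul_le_mul_right h4 hη
  have hYx2 : x - δ ≤ Y := by linarith only [hq0, hb1]
  have hqD : q ≤ 2 * D := by linarith only [hδD, hb1, hYx]
  -- the upper bound of `x`
  have hFx : x * (1 - x) - D ≤ F := by
    have e1 : Y * (1 - Y) - x * (1 - x) = (Y - x) * (1 - Y - x) := by ring
    have h1 : |(Y - x) * (1 - Y - x)| ≤ D * 1 := by
      rw [abs_mul]
      apply mul_le_mul _ _ (abs_nonneg _) hD0.le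
      · rw [abs_le]; constructor <;> linarith only [hδD, hYx2, hYx]
      · rw [abs_le]; constructor <;> linarith only [hx2, hD5, hY1, hYx, hx0, hY0]
    have := (abs_le.mp h1).1
    linarith only [hFY, this]
  have hκq0 : 0 ≤ κ * q := by positivity
  have hxκ : x ≤ κ + ε2 := by
    by_contra hc
    push Not at hc
    have h1 : (x - κ) * (1 - x) ≤ 2 * D := by linarith only [hδD, hmm, hC, hFx, hκq0]
    have h2 : m * (η' / 8) ≤ (x - κ) * (1 - x) :=
      mul_le_mul (by linarith only [hm2, hc]) (by linarith only [hδD, hD5, hY1, hYx,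
          hYx2]) (by linarith only [hη]) (by linarith only [hm0, hm2, hc])
    have h3 : 0 < m * η' := by positivity
    linarith only [hD1, h1, h2, h3]
  refine ⟨hxκ, ?_⟩
  have hεm : ε * ε * m ≤ ε * ε := mul_le_left' (by positivity) hm1
  have hεε : 0 < ε * ε := by positivity
  have hxx : ε * ε ≤ x * x := mul_le_mul hx1 hx1 hε.le hx0.le
  have hne : s.Nonempty := by
    rw [Finset.nonempty_iff_ne_empty]
    intro hs
    have e1 : F = Y := by rw [hF, hY, hs]; simp
    have h1 : x - δ ≤ x * (1 - x) + δ := by linarith only [hmx, hC, hYx2, hκq0, e1]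
    linarith only [hδD, hD2, hmx, hC, hYx2, hκq0, hεm, hεε, hxx, e1]
  obtain ⟨w, hw, hwmax⟩ := Finset.exists_max_image s X hne
  obtain ⟨a, ha⟩ : ∃ a, a = X w := ⟨_, rfl⟩
  have ha0 : 0 ≤ a := by rw [ha]; exact (hX w hw).1
  have haX : a ≤ ∑ v ∈ s, X v := by
    rw [ha]; exact Finset.single_le_sum (fun v hv => (hX v hv).1) hw
  have ha1 : a ≤ 1 := by rw [ha]; exact (hX1 w hw).2.le
  have hFa : (1 - a) * Y ≤ F := by
    rw [hY, hF]
    exact Fa s X e a he ha0 fun v hv => ⟨(hX v hv).1, by rw [ha]; exact hwmax v hv⟩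
  have h1 : (1 - a) * (x - δ) ≤ x * (1 - x) + δ := by
    have h2 : (1 - a) * (x - δ) ≤ (1 - a) * Y :=
      mul_le_mul_of_nonneg_left (by linarith only [hYx2]) (by linarith only [ha1])
    linarith only [hmx, hC, hκq0, hFa, h2]
  have h2 : x * (x - a) ≤ 2 * δ := by linarith only [h1, mul_nonneg ha0 hδ0.le]
  have h3 : x - a ≤ m / 10 := by
    by_contra hc
    push Not at hc
    have h4 : ε * (x - a) ≤ x * (x - a) := mul_le_mul_of_nonneg_right hx1 (by linarith only [hD0,
        hD4, hc])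
    have h5 : ε * (m / 10) < ε * (x - a) := mul_lt_mul_of_pos_left hc hε
    have h6 : 0 < ε * m := by positivity
    linarith only [hδD, hD3, h2, h4, h5, h6]
  refine ⟨w, hw, ?_, ?_⟩
  · rw [← ha, abs_le]
    constructor <;> linarith only [hm0, hm2, h3, hD4, he, hY, hYx, haX]
  · rw [← ha]
    have h6 : ∑ v ∈ s, X v - a + e + sg + mu = Y - a + q := by rw [hY, hq]; ring
    rw [h6]
    linarith only [hm0, hm2, hD4, hYx, hqD, h3]

/-- the case `k ≥ 1` -/
theorem k1 {κ κ' η' ε δ : ℝ} {k : ℤ} (hκ : 0 < κ) (hκκ : κ < κ') (hκ1 : κ' ≤ 1)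
    (hη : 0 < η') (hη1 : η' ≤ 1 / 2) (hε : 0 < ε) (hδ0 : 0 < δ)
    (hδ : δ ≤ η' * η' * ε / 100) (hk : 1 ≤ k)
    {ι : Type} (s : Finset ι) (X : ι → ℝ) (e sg mu x : ℝ)
    (hX : ∀ v ∈ s, 0 ≤ X v ∧ X v ≤ 1 - η') (he : 0 ≤ e) (hsg : 0 ≤ sg) (hmu : 0 ≤ mu)
    (hx1 : ε ≤ x) (hx2 : x ≤ 1) (hbal : |∑ v ∈ s, X v + e - sg - mu - k - x| ≤ δ)
    (hcost : ∑ v ∈ s, X v * (1 - X v) + e + κ * sg + κ' * mu ≤ (1 - x) * min x κ + δ) :
    False := by
  classical
  have hε1 : ε ≤ 1 := by linarith only [hx1, hx2]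
  have hηε : η' * η' * ε ≤ η' * η' := mul_le_left' (by positivity) hε1
  have hηη : η' * η' ≤ η' * (1 / 2) := mul_le_mul_of_nonneg_left hη1 hη.le
  have hδη : δ ≤ η' / 200 := by linarith only [hδ, hηε, hηη]
  have hX1 : ∀ v ∈ s, 0 ≤ X v ∧ X v < 1 := fun v hv => ⟨(hX v hv).1, by
    have := (hX v hv).2; linarith only [hη, this]⟩
  have hsum0 : 0 ≤ ∑ v ∈ s, X v := Finset.sum_nonneg fun v hv => (hX v hv).1
  have hx0 : 0 < x := by linarith only [hε, hx1]
  have hkR : (1 : ℝ) ≤ k := by exact_mod_cast hk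
  obtain ⟨Y, hY⟩ : ∃ Y, Y = ∑ v ∈ s, X v + e := ⟨_, rfl⟩
  obtain ⟨q, hq⟩ : ∃ q, q = sg + mu := ⟨_, rfl⟩
  obtain ⟨F, hF⟩ : ∃ F, F = ∑ v ∈ s, X v * (1 - X v) + e := ⟨_, rfl⟩
  have hY0 : 0 ≤ Y := by linarith only [he, hsum0, hY]
  have hq0 : 0 ≤ q := by linarith only [hsg, hmu, hq]
  have hmm : (1 - x) * min x κ ≤ κ * (1 - x) := by
    rw [mul_comm]
    exact mul_le_mul_of_nonneg_right (min_le_right _ _) (by linarith only [hx2])
  have hC : F + κ * q ≤ (1 - x) * min x κ + δ := by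
    have h1 : κ * mu ≤ κ' * mu := mul_le_mul_of_nonneg_right hκκ.le hmu
    have e1 : κ * q = κ * sg + κ * mu := by rw [hq]; ring
    rw [e1, hF]
    linarith only [hcost, h1]
  have hB : |Y - k - (x + q)| ≤ δ := by
    have : Y - k - (x + q) = ∑ v ∈ s, X v + e - sg - mu - k - x := by rw [hY, hq]; ring
    rw [this]; exact hbal
  obtain ⟨hb1, hb2⟩ := abs_le.mp hB
  have hFη : η' * Y ≤ F := by
    have := Fa s X e (1 - η') he (by linarith only [hη1]) hX
    rw [hF, hY]
    linarith only [this]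
  have hηδ : η' * δ ≤ 1 / 2 * δ := mul_le_mul_of_nonneg_right hη1 hδ0.le
  obtain ⟨t, ht⟩ : ∃ t, t = x + q := ⟨_, rfl⟩
  have htx : x ≤ t := by linarith only [hq0, ht]
  have hYt : 1 + t - δ ≤ Y := by linarith only [hkR, hb1, ht]
  have hηY : η' * (1 + t - δ) ≤ η' * Y := mul_le_mul_of_nonneg_left hYt hη.le
  have hηt : 0 ≤ η' * t := by
    have : 0 ≤ t := by linarith only [hx0, htx]
    positivity
  have hκq : κ * q = κ * (t - x) := by rw [ht]; ring
  have ht1 : t < 1 := by
    by_contra h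
    push Not at h
    have h1 : κ * (1 - x) ≤ κ * (t - x) := mul_le_mul_of_nonneg_left (by linarith only [h]) hκ.le
    linarith only [hδ0, hδη, hmm, hC, hFη, hηδ, hηY, hηt, hκq, h1]
  have hne : s.Nonempty := by
    rw [Finset.nonempty_iff_ne_empty]
    intro hs
    have e1 : F = Y := by rw [hF, hY, hs]; simp
    have h1 : κ * (1 - x) ≤ 1 - x := by
      have := mul_le_left' (show 0 ≤ 1 - x by linarith only [htx,
          ht1]) (show κ ≤ 1 by linarith only [hκκ, hκ1])
      linarith only [this]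
    have h2 : 0 ≤ κ * q := by positivity
    have h3 : η' * η' * ε ≤ 1 * ε := mul_le_mul_of_nonneg_right (by linarith only [hη1, hηη]) hε.le
    linarith only [hδ0, hδ, hx1, hmm, hC, htx, hYt, e1, h1, h2, h3]
  obtain ⟨w, hw, hwmax⟩ := Finset.exists_max_image s X hne
  obtain ⟨a, ha⟩ : ∃ a, a = X w := ⟨_, rfl⟩
  have ha0 : 0 ≤ a := by rw [ha]; exact (hX w hw).1
  have ha1 : a ≤ 1 - η' := by rw [ha]; exact (hX w hw).2
  have hFa : (1 - a) * Y ≤ F := by
    rw [hY, hF]
    exact Fa s X e a he ha0 fun v hv => ⟨(hX v hv).1, by rw [ha]; exact hwmax v hv⟩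
  -- `a` is at most `t` up to a small error
  have hat : η' * (a - t) ≤ 3 * δ := by
    obtain ⟨u, hu⟩ : ∃ u, u = Y - k := ⟨_, rfl⟩
    have hu1 : u - t ≤ δ := by linarith only [hb2, ht, hu]
    have hu2 : -δ ≤ u - t := by linarith only [hb1, ht, hu]
    have hδε : δ ≤ ε / 2 := by
      have h1 : η' * η' * ε ≤ 1 * ε := by
        apply mul_le_mul_of_nonneg_right _ hε.le
        linarith only [hη1, hηη]
      linarith only [hδ0, hδ, h1]
    rcases le_or_gt a u with h | h
    · have h1 : η' * (a - t) ≤ η' * δ := mul_le_mul_of_nonneg_left (by linarith only [hu1, h]) hη.le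
      linarith only [hb1, hb2, hηδ, h1]
    · have hFe : F = ∑ v ∈ s.erase w, X v * (1 - X v) + e + a * (1 - a) := by
        rw [hF, ← Finset.sum_erase_add s _ hw, ha]; ring
      have hye : ∑ v ∈ s.erase w, X v + e = Y - a := by
        rw [hY, ← Finset.sum_erase_add s _ hw, ha]; ring
      have h2 := F_ge (s.erase w) X e he (fun v hv => hX1 v (Finset.mem_of_mem_erase hv))
      rw [hye] at h2
      have h3 : gg (Y - a) = (1 - (a - u)) * (a - u) := by
        have e1 : Y - a = (1 - (a - u)) - ((-k + 1 : ℤ) : ℝ) := by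
          push_cast; rw [hu]; ring
        rw [e1, gg_sub_int, gg_of (by linarith only [hδη, hx0, htx, ha1, hu1,
            hu2]) (by linarith only [h])]
        ring
      rw [h3] at h2
      have h4 : u * (1 - u) + 2 * (a - u) * (1 - a) ≤ F := by
        rw [hFe]
        linarith only [h2]
      have h5 : t * (1 - t) - 2 * δ ≤ u * (1 - u) := by
        have e2 : u * (1 - u) - t * (1 - t) = (u - t) * (1 - u - t) := by ring
        have h6 : |(u - t) * (1 - u - t)| ≤ δ * 2 := by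
          rw [abs_mul]
          apply mul_le_mul _ _ (abs_nonneg _) hδ0.le
          · rw [abs_le]; constructor <;> linarith only [hu2, hu1]
          · rw [abs_le]; constructor <;> linarith only [hδη, ha1, hu1, hu2, h, hε1, hx0, htx, hδε]
        have := (abs_le.mp h6).1
        linarith only [this]
      have h6 : (a - u) * η' ≤ (a - u) * (1 - a) :=
        mul_le_mul_of_nonneg_left (by linarith only [ha1]) (by linarith only [h])
      have h7 := interp (κ := κ) htx ht1.le
      have h8 : 0 ≤ (t - x) * (1 - t) := mul_nonneg (by linarith only [htx]) (by linarith only [ht1])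
      have h9 : 2 * ((a - u) * η') ≤ 3 * δ := by linarith only [hC, hκq, h4, h5, h6, h7, h8]
      have h10 : η' * (a - t) ≤ η' * (a - u) + η' * δ := by
        rw [← mul_add]
        exact mul_le_mul_of_nonneg_left (by linarith only [hu1]) hη.le
      linarith only [hb1, hb2, hηδ, h9, h10]
  -- `1 - t` is small
  have h1 : (1 - a) * (1 + t - δ) ≤ (1 - a) * Y := mul_le_mul_of_nonneg_left hYt (by linarith only [hδη, hb1, hb2, ha1])
  have h2 : (1 - a) * (1 + t) ≤ κ * (1 - x) - κ * (t - x) + 2 * δ := by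
    have : (1 - a) * δ ≤ δ := by linarith only [mul_nonneg ha0 hδ0.le]
    linarith only [hmm, hC, hκq, hFa, h1, this]
  have h3 : (1 - t) * (1 + t - κ) ≤ (a - t) * (1 + t) + 2 * δ := by linarith only [h2]
  have h4 : η' * ((1 - t) * (1 + t - κ)) ≤ 8 * δ := by
    have h5 : η' * ((1 - t) * (1 + t - κ)) ≤ η' * ((a - t) * (1 + t) + 2 * δ) :=
      mul_le_mul_of_nonneg_left h3 hη.le
    have h6 : η' * (a - t) * (1 + t) ≤ 3 * δ * (1 + t) :=
      mul_le_mul_of_nonneg_right hat (by linarith only [hx0, htx])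
    have h7 : 3 * δ * (1 + t) ≤ 3 * δ * 2 := mul_le_mul_of_nonneg_left (by linarith only [ht1]) (by linarith only [hb1, hb2])
    linarith only [hb1, hb2, hηδ, h5, h6, h7]
  have h5 : (1 - t) * ε ≤ (1 - t) * (1 + t - κ) :=
    mul_le_mul_of_nonneg_left (by linarith only [hκκ, hκ1, hx1, htx]) (by linarith only [ht1])
  have h6 : η' * ((1 - t) * ε) ≤ 8 * δ := by
    have : η' * ((1 - t) * ε) ≤ η' * ((1 - t) * (1 + t - κ)) :=
      mul_le_mul_of_nonneg_left h5 hη.le
    linarith only [h4, this]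
  have h7 : (η' * ε) * (1 - t) ≤ (η' * ε) * (η' / 10) := by
    have e1 : (η' * ε) * (1 - t) = η' * ((1 - t) * ε) := by ring
    have e2 : (η' * ε) * (η' / 10) = η' * η' * ε / 10 := by ring
    rw [e1, e2]
    have : 0 < η' * η' * ε := by positivity
    linarith only [hδ0, hδ, h6]
  have h8 : 1 - t ≤ η' / 10 := le_of_mul_le_mul_left h7 (by positivity)
  have h9 : κ * (1 - η' / 10 - x) ≤ κ * (t - x) := mul_le_mul_of_nonneg_left (by linarith only [h8]) hκ.le
  have h10 : κ * (η' / 10) ≤ η' / 10 := by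
    have := mul_le_left' (show 0 ≤ η' / 10 by linarith only [ht1,
        h8]) (show κ ≤ 1 by linarith only [hκκ, hκ1])
    linarith only [this]
  linarith only [hδη, hmm, hC, hFη, hηδ, hηY, hηt, hκq, ht1, h8, h9, h10]

end OPT3

open OPT2 OPT3 in
theorem blk_OPT3 : Stmt_OPT3 := by
  intro κ κ' η' ε ε2 hκ hκκ hκ1 hη hη1 hε hε2
  obtain ⟨m, hm⟩ : ∃ m, m = min 1 ε2 := ⟨_, rfl⟩
  have hm0 : 0 < m := by rw [hm]; exact lt_min one_pos hε2
  have hm1 : m ≤ 1 := by rw [hm]; exact min_le_left _ _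
  have hm2 : m ≤ ε2 := by rw [hm]; exact min_le_right _ _
  obtain ⟨ρ, hρ⟩ : ∃ ρ, ρ = κ' - κ := ⟨_, rfl⟩
  have hρ0 : 0 < ρ := by linarith only [hκκ, hρ]
  have hρ1 : ρ ≤ 1 := by linarith only [hκ, hκ1, hρ]
  have hκ2 : κ ≤ 1 := by linarith only [hκκ, hκ1]
  refine ⟨η' * η' * (ε * ε) * m * (κ * ρ) / 1000, by positivity, ?_⟩
  intro ι s X e sg mu x k hX he hsg hmu hx1 hx2 hbal hcost
  obtain ⟨δ, hδ⟩ : ∃ δ, δ = η' * η' * (ε * ε) * m * (κ * ρ) / 1000 := ⟨_, rfl⟩
  rw [← hδ] at hbal hcost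
  have hε1 : ε ≤ 1 := by linarith only [hx1, hx2]
  have hδ0 : 0 < δ := by rw [hδ]; positivity
  have hεε : ε * ε ≤ ε := mul_le_left' hε.le hε1
  have hηη : η' * η' ≤ η' := mul_le_left' hη.le (by linarith only [hη1])
  have hκρ : κ * ρ ≤ κ := mul_le_left' hκ.le hρ1
  have hκρ2 : κ * ρ ≤ ρ := by rw [mul_comm]; exact mul_le_left' hρ0.le hκ2
  have hκρ1 : κ * ρ ≤ 1 := by linarith only [hκ2, hκρ]
  -- the bounds of `δ`
  have b1 : δ ≤ η' * η' * ε / 100 := by
    have h1 : η' * η' * (ε * ε) * m * (κ * ρ) ≤ η' * η' * (ε * ε) * m :=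
      mul_le_left' (by positivity) hκρ1
    have h2 : η' * η' * (ε * ε) * m ≤ η' * η' * (ε * ε) := mul_le_left' (by positivity) hm1
    have h3 : η' * η' * (ε * ε) ≤ η' * η' * ε := mul_le_mul_of_nonneg_left hεε (by positivity)
    have h4 : 0 < η' * η' * ε := by positivity
    linarith only [hδ, hδ0, h1, h2, h3]
  have hP : η' * η' * (ε * ε) ≤ 1 := by
    calc η' * η' * (ε * ε) ≤ η' * η' := mul_le_left' (by positivity) (by linarith only [hε1, hεε])
      _ ≤ 1 := by linarith only [hη1, hηη]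
  have hP2 : η' * η' * (ε * ε) ≤ η' := by
    calc η' * η' * (ε * ε) ≤ η' * η' := mul_le_left' (by positivity) (by linarith only [hε1, hεε])
      _ ≤ η' := by linarith only [hηη]
  have hP3 : η' * η' * (ε * ε) * m ≤ m := by
    calc η' * η' * (ε * ε) * m ≤ 1 * m := mul_le_mul_of_nonneg_right hP hm0.le
      _ = m := one_mul m
  have hP4 : η' * η' * (ε * ε) * m ≤ 1 := by linarith only [hm1, hP3]
  have b2 : δ ≤ κ / 1000 := by
    have : η' * η' * (ε * ε) * m * (κ * ρ) ≤ 1 * (κ * ρ) :=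
      mul_le_mul_of_nonneg_right hP4 (by positivity)
    linarith only [hδ, hκρ, this]
  have b3 : δ ≤ ρ * m / 1000 := by
    have h1 : η' * η' * (ε * ε) * m * (κ * ρ) ≤ m * ρ :=
      mul_le_mul hP3 hκρ2 (by positivity) hm0.le
    linarith only [hδ, h1]
  have b4 : δ ≤ η' * m / 1000 := by
    have h1 : η' * η' * (ε * ε) * m ≤ η' * m := mul_le_mul_of_nonneg_right hP2 hm0.le
    have h2 : η' * η' * (ε * ε) * m * (κ * ρ) ≤ η' * η' * (ε * ε) * m :=
      mul_le_left' (by positivity) hκρ1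
    linarith only [hδ, h1, h2]
  have hsum0 : 0 ≤ ∑ v ∈ s, X v := Finset.sum_nonneg fun v hv => (hX v hv).1
  rcases lt_trichotomy k 0 with hk | hk | hk
  · -- `k < 0`
    obtain ⟨Y, hY⟩ : ∃ Y, Y = ∑ v ∈ s, X v + e := ⟨_, rfl⟩
    obtain ⟨q, hq⟩ : ∃ q, q = sg + mu := ⟨_, rfl⟩
    obtain ⟨F, hF⟩ : ∃ F, F = ∑ v ∈ s, X v * (1 - X v) + e := ⟨_, rfl⟩
    have hY0 : 0 ≤ Y := by linarith only [he, hsum0, hY]
    have hFη : η' * Y ≤ F := by
      have := Fa s X e (1 - η') he (by linarith only [hη1]) hX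
      rw [hF, hY]
      linarith only [this]
    have hmm : (1 - x) * min x κ ≤ κ * (1 - x) := by
      rw [mul_comm]
      exact mul_le_mul_of_nonneg_right (min_le_right _ _) (by linarith only [hx2])
    have hmx : (1 - x) * min x κ ≤ x * (1 - x) := by
      rw [mul_comm]
      exact mul_le_mul_of_nonneg_right (min_le_left _ _) (by linarith only [hx2])
    have hC : F + κ * q + ρ * mu ≤ (1 - x) * min x κ + δ := by
      have e1 : κ * q + ρ * mu = κ * sg + κ' * mu := by rw [hq, hρ]; ring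
      rw [hF]
      linarith only [hcost, e1]
    have hB : |Y - q - k - x| ≤ δ := by
      have : Y - q - k - x = ∑ v ∈ s, X v + e - sg - mu - k - x := by rw [hY, hq]; ring
      rw [this]; exact hbal
    obtain ⟨hb1, hb2⟩ := abs_le.mp hB
    have hρmu : 0 ≤ ρ * mu := by positivity
    have hηY : 0 ≤ η' * Y := by positivity
    have hκδ : κ * δ ≤ δ := by
      have := mul_le_left' hδ0.le hκ2
      linarith only [this]
    by_cases hk2 : k = -1
    · refine Or.inr ⟨hk2, ?_, ?_⟩
      all_goals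
        have hkR : (k : ℝ) = -1 := by rw [hk2]; simp
        have h1 : κ * (Y + 1 - x - δ) ≤ κ * q := mul_le_mul_of_nonneg_left (by linarith only [hb2,
            hkR]) hκ.le
        have hκY : 0 ≤ κ * Y := by positivity
      · by_contra hc
        push Not at hc
        have h2 : (κ - x) * (1 - x) ≤ 2 * δ := by linarith only [hFη, hmx, hC, hρmu, hηY, hκδ, h1,
            hκY]
        have h3 : m * ρ ≤ (κ - x) * (1 - x) :=
          mul_le_mul (by linarith only [hm2, hc]) (by linarith only [hκ1, hm0, hm2, hρ,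
              hc]) hρ0.le (by linarith only [hm0, hm2, hc])
        have h4 : 0 < ρ * m := by positivity
        linarith only [b3, h2, h3, h4]
      · have h2 : η' * Y + ρ * mu ≤ 2 * δ := by linarith only [hFη, hmm, hC, hκδ, h1, hκY]
        have h3 : Y ≤ m / 4 := by
          have : η' * Y ≤ η' * (m / 4) := by
            have : 0 < η' * m := by positivity
            linarith only [b4, hρmu, hηY, h2]
          exact le_of_mul_le_mul_left this hη
        have h4 : mu ≤ m / 4 := by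
          have : ρ * mu ≤ ρ * (m / 4) := by
            have : 0 < ρ * m := by positivity
            linarith only [b3, hρmu, hηY, h2]
          exact le_of_mul_le_mul_left this hρ0
        linarith only [hm2, hY, hY0, h3, h4]
    · exfalso
      have hk3 : k ≤ -2 := by omega
      have hkR : (k : ℝ) ≤ -2 := by exact_mod_cast hk3
      have h1 : κ * (2 - x - δ) ≤ κ * q := mul_le_mul_of_nonneg_left (by linarith only [hY0, hb2,
          hkR]) hκ.le
      linarith only [hδ0, b2, hFη, hmm, hC, hρmu, hηY, hκδ, h1]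
  · -- `k = 0`
    left
    have hkR : (k : ℝ) = 0 := by rw [hk]; simp
    refine ⟨hk, ?_⟩
    obtain ⟨D, hD⟩ : ∃ D, D = 8 * (η' * (ε * ε) * m * (κ * ρ) / 1000) := ⟨_, rfl⟩
    have hDδ : D * η' = 8 * δ := by rw [hD, hδ]; ring
    have hD0 : 0 < D := by rw [hD]; positivity
    have hδD : δ ≤ D := by
      have : D * η' ≤ D * (1 / 2) := mul_le_mul_of_nonneg_left hη1 hD0.le
      linarith only [hDδ, hD0, this]
    have hQ : η' * (ε * ε) * m * (κ * ρ) ≤ η' * (ε * ε) * m := mul_le_left' (by positivity) hκρ1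
    have hQ1 : η' * (ε * ε) ≤ η' := mul_le_left' hη.le (by linarith only [hε1, hεε])
    have hQ2 : η' * (ε * ε) ≤ ε * ε := by
      rw [mul_comm]; exact mul_le_left' (by positivity) (by linarith only [hη1])
    have hD1 : D ≤ η' * m / 125 := by
      have : η' * (ε * ε) * m ≤ η' * m := mul_le_mul_of_nonneg_right hQ1 hm0.le
      linarith only [hD, hQ, this]
    have hD2 : D ≤ ε * ε * m / 125 := by
      have : η' * (ε * ε) * m ≤ ε * ε * m := mul_le_mul_of_nonneg_right hQ2 hm0.le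
      linarith only [hD, hQ, this]
    have hD3 : D ≤ ε * m / 125 := by
      have : ε * ε * m ≤ ε * m := mul_le_mul_of_nonneg_right hεε hm0.le
      linarith only [hD2, this]
    have hD4 : D ≤ m / 125 := by
      have : ε * m ≤ 1 * m := mul_le_mul_of_nonneg_right hε1 hm0.le
      linarith only [hD3, this]
    have hbal' : |∑ v ∈ s, X v + e - sg - mu - x| ≤ δ := by
      rw [hkR] at hbal
      have : ∑ v ∈ s, X v + e - sg - mu - x = ∑ v ∈ s, X v + e - sg - mu - 0 - x := by ring
      rw [this]; exact hbal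
    exact k0 hκ hκκ hκ1 hη hη1 hε hm0 hm2 hD0 hδ0 hDδ hδD hD1 hD2 hD3 hD4 hm1 s X e sg mu x hX
      he hsg hmu hx1 hx2 hbal' hcost
  · exact (k1 hκ hκκ hκ1 hη hη1 hε hδ0 b1 (by omega) s X e sg mu x hX he hsg hmu hx1 hx2 hbal
      hcost).elim

end Pool.Agent.Work.MP_5532fa_up

end

section

/-!
# MP_5532fa_up, second round, block TNB (helper23)
-/

set_option autoImplicit false

open Finset

namespace Pool.Agent.Work.MP_5532fa_up

theorem blk_TNB (_hTN : Stmt_TN) : Stmt_TNB := by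
  intro r N n hr hn
  have h1 := TN.tn_eq (r := r) (by omega) N
  set k : ℤ := ((N / r : ℕ) : ℤ) with hk
  have h2 : ∀ i, (2 * k + 1) * (n i : ℤ) - k * (k + 1) ≤ (n i : ℤ) ^ 2 := by
    intro i
    have h3 : 0 ≤ ((n i : ℤ) - k) * ((n i : ℤ) - k - 1) := by
      rcases le_or_gt (n i : ℤ) k with h | h
      · exact mul_nonneg_of_nonpos_of_nonpos (by linarith) (by linarith)
      · exact mul_nonneg (by linarith) (by linarith)
    nlinarith
  have h4 : ∑ i, ((2 * k + 1) * (n i : ℤ) - k * (k + 1)) ≤ ∑ i, (n i : ℤ) ^ 2 :=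
    Finset.sum_le_sum fun i _ => h2 i
  rw [Finset.sum_sub_distrib, ← Finset.mul_sum] at h4
  have h5 : ∑ i, (n i : ℤ) = N := by exact_mod_cast hn
  rw [h5, Finset.sum_const, Finset.card_univ, Fintype.card_fin, nsmul_eq_mul] at h4
  have h6 : (N : ℤ) ^ 2 ≤ 2 * (tn r N : ℤ) + ∑ i, (n i : ℤ) ^ 2 := by
    rw [← h1]
    linarith
  exact_mod_cast h6

end Pool.Agent.Work.MP_5532fa_up

end

section

open Finset

namespace Pool.Agent.Work.MP_5532fa_up

open MP5532fa (specRad qf pE)

theorem blk_ISOEU (hLAB : Stmt_LAB) (hCANP : Stmt_CANP) (hTIE : Stmt_TIEU) : Stmt_ISOEU := by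
  classical
  intro r ε hr hε
  obtain ⟨δ, n0, hδ, HT⟩ := hTIE r ε hr hε
  obtain ⟨n1, hn1⟩ := exists_nat_gt ((r : ℝ) / δ)
  refine ⟨n0 + n1 + 1, ?_⟩
  intro N hN j hRg V V' _ _ G G' hG hG'
  obtain ⟨H, c, w, u, A, B, i0, hW, hO, hA, hB, hP, hT⟩ := hG
  obtain ⟨H', c', w', u', A', B', i0', hW', hO', hA', hB', hP', hT'⟩ := hG'
  have hrr : (3 : ℝ) ≤ r := by exact_mod_cast hr
  have hNr : (r : ℝ) / δ < N := lt_of_lt_of_le hn1 (by exact_mod_cast (by omega : n1 ≤ N))
  rw [div_lt_iff₀ hδ] at hNr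
  -- the permutation
  obtain ⟨σ, hσ⟩ := ISOD.perm_of hCANP (P := {i0}) (P' := {i0'}) (p0 := 0)
    (by rw [Finset.card_singleton, Finset.card_singleton]) (hW.card.trans hW'.card.symm)
    (by omega) hW.hA hW'.hA hB hB' hP hP' hT hT'
    (fun i hi => by rw [Finset.mem_singleton.mp hi, hW.hA0, Finset.card_empty])
    (fun i hi => by rw [Finset.mem_singleton.mp hi, hW'.hA0, Finset.card_empty])
    (fun i hi => hW.hAne i (fun e => hi (Finset.mem_singleton.mpr e)))
    (fun i hi => hW'.hAne i (fun e => hi (Finset.mem_singleton.mpr e)))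
  have hσ0 : σ i0 = i0' := Finset.mem_singleton.mp ((hσ i0).1.mp (Finset.mem_singleton_self _))
  have hσne : ∀ i, i ≠ i0 → σ i ≠ i0' := fun i hi e => hi (by
    rw [← hσ0] at e; exact σ.injective e)
  -- the exceptional vertex
  obtain ⟨b, hbB, hbA, hone⟩ := hO
  have hcb : c b ≠ i0 := by
    intro e
    have : b ∈ cl B c i0 := mem_cl.mpr ⟨hbB, e⟩
    rw [hW.hB0] at this
    exact absurd this (Finset.notMem_empty _)
  have hlt : (cl A c (c b)).card < (cl H c (c b)).card := by
    apply Finset.card_lt_card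
    rw [Finset.ssubset_iff_of_subset (fun v hv => by
      rw [mem_cl] at hv ⊢; exact ⟨hW.hA hv.1, hv.2⟩)]
    exact ⟨b, mem_cl.mpr ⟨hW.hB hbB, rfl⟩, fun h => hbA (mem_cl.mp h).1⟩
  obtain ⟨B'', hW'', b'', hcb'', hb''B, hb''A, hone''⟩ :=
    ISOE.exists_B hW' (σ (c b)) (hσne _ hcb) (by rw [(hσ (c b)).2.1, (hσ (c b)).2.2]; exact hlt)
  -- Near
  have hNear : Near r δ N j H' A' c' := by
    constructor
    · intro i
      have hsum : ∑ k, sz H' c' k = (N : ℝ) := by
        have := sum_card_cl H' c'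
        rw [hW'.card] at this
        unfold sz
        exact_mod_cast this
      have e : (r : ℝ) * (sz H' c' i - N / r) = ∑ k, (sz H' c' i - sz H' c' k) := by
        rw [Finset.sum_sub_distrib, hsum]
        simp only [Finset.sum_const, Finset.card_univ, Fintype.card_fin, nsmul_eq_mul]
        field_simp
      have h1 : |∑ k, (sz H' c' i - sz H' c' k)| ≤ r * 1 := by
        refine (Finset.abs_sum_le_sum_abs _ _).trans ?_
        have : ∑ k : Fin r, |sz H' c' i - sz H' c' k| ≤ ∑ _k : Fin r, (1:ℝ) := by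
          refine Finset.sum_le_sum fun k _ => ?_
          have a1 : sz H' c' i ≤ sz H' c' k + 1 := by unfold sz; exact_mod_cast hB' i k
          have a2 : sz H' c' k ≤ sz H' c' i + 1 := by unfold sz; exact_mod_cast hB' k i
          rw [abs_le]; constructor <;> linarith
        simpa using this
      rw [← e, abs_mul, abs_of_pos (by linarith : (0:ℝ) < r)] at h1
      have h2 := le_of_mul_le_mul_left h1 (by linarith)
      linarith
    · have h1 : (A'.card : ℝ) + r = j := by exact_mod_cast hA'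
      have h2 : (A'.card : ℝ) - j = -r := by linarith
      rw [h2, abs_neg, abs_of_nonneg (by linarith)]
      linarith
  have htie := HT N (by omega) j hRg V' G' (gE H' c' w' u' A' B'') H' c' w' u' A' B' B'' i0'
    hW' hW'' hO' ⟨b'', hb''B, hb''A, hone''⟩ hNear
  rw [htie]
  -- labels
  have hK : ∀ v, v ∈ insert w (insert u H) ↔ v = w ∨ v = u ∨ v ∈ H := fun v => by
    simp only [Finset.mem_insert]
  have hK' : ∀ v, v ∈ insert w' (insert u' H') ↔ v = w' ∨ v = u' ∨ v ∈ H' := fun v => by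
    simp only [Finset.mem_insert]
  refine hLAB _ V V' (ISOE.R) G _ (insert w (insert u H)) (insert w' (insert u' H'))
    (ISOE.lab c w u A B (1 : Equiv.Perm (Fin r)))
    (ISOE.lab c' w' u' A' B'' (σ⁻¹ : Equiv.Perm (Fin r)))
    (fun a b => ISOE.adj_iff hW 1 _ hK a b)
    (fun a b => ISOE.adj_iff hW'' σ⁻¹ _ hK' a b) ?_ ⟨w, by simp⟩
  intro s
  rcases s with _ | _ | ⟨i, p, q⟩
  · rw [ISOE.fib_none hW.hw hW.hwu.symm 1 _ hK, ISOE.fib_none hW'.hw hW'.hwu.symm σ⁻¹ _ hK']
  · rw [ISOE.fib_some_none hW.hwu.symm 1 _ hK, ISOE.fib_some_none hW'.hwu.symm σ⁻¹ _ hK']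
  · have e1 : i = (1 : Equiv.Perm (Fin r)) i := rfl
    have e2 : i = (σ⁻¹ : Equiv.Perm (Fin r)) (σ i) := by simp
    have h1 := ISOE.fib_card (c := c) hW.hw hW.hu hW.hA hW.hB 1 _ hK i p q
    have h2 := ISOE.fib_card (c := c') hW''.hw hW''.hu hW''.hA hW''.hB σ⁻¹ _ hK' (σ i) p q
    rw [← e1] at h1
    rw [← e2] at h2
    have h3 := ISOE.inter_card hW hbB hbA hone i
    have h4 := ISOE.inter_card hW'' hb''B hb''A hone'' (σ i)
    have h5 : (σ i = i0' ∨ σ i = c' b'') ↔ (i = i0 ∨ i = c b) := by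
      rw [← hσ0, hcb'']
      simp only [EmbeddingLike.apply_eq_iff_eq]
    have h6 : (cl (A' ∩ B'') c' (σ i)).card = (cl (A ∩ B) c i).card := by
      rw [h3, h4]
      by_cases hi : i = i0 ∨ i = c b
      · rw [if_pos hi, if_pos (h5.mpr hi)]
      · rw [if_neg hi, if_neg (fun h => hi (h5.mp h))]
    have h7 : (cl B'' c' (σ i)).card = (cl B c i).card := by
      by_cases hi : i = i0
      · rw [hi, hσ0, hW.hB0, hW''.hB0]
        rfl
      · rw [hW.hB1 i hi, hW''.hB1 _ (hσne i hi)]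
    have h8 := (hσ i).2.1
    have h9 := (hσ i).2.2
    have goal : ((fib (insert w (insert u H)) (ISOE.lab c w u A B (1 : Equiv.Perm (Fin r)))
        (some (some (i, p, q)))).card : ℤ) = ((fib (insert w' (insert u' H'))
          (ISOE.lab c' w' u' A' B'' (σ⁻¹ : Equiv.Perm (Fin r)))
        (some (some (i, p, q)))).card : ℤ) := by
      rw [h1, h2, h6, h7, h8, h9]
    exact_mod_cast goal

end Pool.Agent.Work.MP_5532fa_up

end
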