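import Mathlib
import Pool.Agent.Work.MP_5532fa_full.P14
import Pool.Agent.Work.MP_5532fa_full.P20
import Pool.Agent.Work.MP_5532fa_full.P21

section

/-!
# MP_5532fa_co, upgrade: block SM2 (few outside edges)
-/

open Finset

namespace Pool.Agent.Work.MP_5532fa_up

open MP5532fa (specRad qf pE)

namespace SM2

section
variable {V : Type} [Fintype V] {r : ℕ}

omit [Fintype V] in
/-- ordered pairs counted twice -/
theorem half (H : Finset V) (c : V → Fin r) (P : V → V → Prop) (hP : ∀ a b, P a b → P b a)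
    [DecidablePred (fun e : V × V => c e.1 ≠ c e.2 ∧ P e.1 e.2)]
    [DecidablePred (fun e : V × V => c e.1 < c e.2 ∧ P e.1 e.2)] :
    ((H ×ˢ H).filter (fun e => c e.1 ≠ c e.2 ∧ P e.1 e.2)).card =
      2 * ((H ×ˢ H).filter (fun e => c e.1 < c e.2 ∧ P e.1 e.2)).card := by
  classical
  have e1 : (H ×ˢ H).filter (fun e => c e.1 ≠ c e.2 ∧ P e.1 e.2) =
      (H ×ˢ H).filter (fun e => c e.1 < c e.2 ∧ P e.1 e.2) ∪
        (H ×ˢ H).filter (fun e => c e.2 < c e.1 ∧ P e.1 e.2) := by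
    ext e
    simp only [Finset.mem_filter, Finset.mem_union]
    constructor
    · rintro ⟨h1, h2, h3⟩
      rcases lt_or_gt_of_ne h2 with h | h
      · exact Or.inl ⟨h1, h, h3⟩
      · exact Or.inr ⟨h1, h, h3⟩
    · rintro (⟨h1, h2, h3⟩ | ⟨h1, h2, h3⟩)
      · exact ⟨h1, h2.ne, h3⟩
      · exact ⟨h1, h2.ne', h3⟩
  have e2 : Disjoint ((H ×ˢ H).filter (fun e => c e.1 < c e.2 ∧ P e.1 e.2))
      ((H ×ˢ H).filter (fun e => c e.2 < c e.1 ∧ P e.1 e.2)) := by
    rw [Finset.disjoint_left]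
    intro e h1 h2
    rw [Finset.mem_filter] at h1 h2
    exact lt_asymm h1.2.1 h2.2.1
  have e3 : ((H ×ˢ H).filter (fun e => c e.2 < c e.1 ∧ P e.1 e.2)).card =
      ((H ×ˢ H).filter (fun e => c e.1 < c e.2 ∧ P e.1 e.2)).card := by
    refine Finset.card_nbij' (fun e => (e.2, e.1)) (fun e => (e.2, e.1)) ?_ ?_ ?_ ?_
    · intro e he
      rw [Finset.mem_coe, Finset.mem_filter, Finset.mem_product] at he ⊢
      exact ⟨⟨he.1.2, he.1.1⟩, he.2.1, hP _ _ he.2.2⟩
    · intro e he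
      rw [Finset.mem_coe, Finset.mem_filter, Finset.mem_product] at he ⊢
      exact ⟨⟨he.1.2, he.1.1⟩, he.2.1, hP _ _ he.2.2⟩
    · intro e _
      rfl
    · intro e _
      rfl
  rw [e1, Finset.card_union_of_disjoint e2, e3]
  ring

omit [Fintype V] in
/-- sums over the missing pairs of two graphs -/
theorem mH_diff {G G' : SimpleGraph V} {c : V → Fin r} {H : Finset V} {x y : V → ℝ}
    {lam lam' xb yb e : ℝ} {N : ℕ} (he : e ≤ 1) (hx : Fl r e N H x lam xb)
    (hy : Fl r e N H y lam' yb)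
    (h : ∀ a ∈ H, ∀ b ∈ H, c a ≠ c b → ¬ G'.Adj a b → ¬ G.Adj a b) :
    ((mis G H c : ℝ) - mis G' H c) * ((1 - e) ^ 2 * (xb * yb)) ≤ mH G H c x y - mH G' H c x y := by
  rw [EID.mis_eq, EID.mis_eq]
  unfold mH
  rw [← Finset.sum_sub_distrib, ← Finset.sum_sub_distrib, Finset.sum_mul]
  refine Finset.sum_le_sum fun a ha => ?_
  rw [← Finset.sum_sub_distrib, ← Finset.sum_sub_distrib, Finset.sum_mul]
  refine Finset.sum_le_sum fun b hb => ?_
  rw [← sub_mul]
  apply mul_le_mul_of_nonneg_left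
  · have h1 := (abs_le.mp (hx.xH a ha)).1
    have h2 := (abs_le.mp (hy.xH b hb)).1
    have h3 : 0 ≤ (1 - e) * xb := mul_nonneg (by linarith only [he]) hx.xb0.le
    have h4 : 0 ≤ (1 - e) * yb := mul_nonneg (by linarith only [he]) hy.xb0.le
    calc (1 - e) ^ 2 * (xb * yb) = ((1 - e) * xb) * ((1 - e) * yb) := by ring
      _ ≤ x a * y b := mul_le_mul (by linarith only [h1]) (by linarith only [h2]) h4 (by linarith only [h1, h3])
  · by_cases h1 : c a ≠ c b ∧ ¬ G'.Adj a b
    · rw [chi_pos h1, chi_pos (⟨h1.1, h a ha b hb h1.1 h1.2⟩ : c a ≠ c b ∧ ¬ G.Adj a b), sub_self]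
    · rw [chi_neg h1, sub_zero]
      exact chi_nonneg _

omit [Fintype V] in
theorem gF_adj {H : Finset V} {c : V → Fin r} {w : V} {T : Finset V} {F : V → V → Prop}
    (hw : w ∉ H) {a b : V} (ha : a ∈ H) (hb : b ∈ H) :
    (gF H c w T F).Adj a b ↔ c a ≠ c b ∧ ¬ F a b ∧ ¬ F b a := by
  constructor
  · rintro ⟨_, h | h | h⟩
    · exact h.2.2
    · exact absurd (h.1 ▸ ha) hw
    · exact absurd (h.1 ▸ hb) hw
  · intro h
    refine ⟨?_, Or.inl ⟨ha, hb, h⟩⟩
    rintro rfl
    exact h.1 rfl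

/-- a vertex of large degree outside `H` -/
theorem big0 {G : SimpleGraph V} {H : Finset V} {c : V → Fin r} (hcol : ¬ G.Colorable r)
    (hind : ∀ u ∈ H, ∀ v ∈ H, c u = c v → ¬ G.Adj u v) :
    ∃ w, w ∉ H ∧ r ≤ (nb G univ w).card := by
  by_contra hcon
  push Not at hcon
  exact hcol (LC.greedy G r H c (fun a ha b hb hab h => hind a ha b hb h hab)
    (fun v hv => hcon v hv))

/-- exactly `r` edges outside `H` -/
theorem caseB {G : SimpleGraph V} {H : Finset V} {c : V → Fin r} {N t : ℕ} (hr : 3 ≤ r)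
    (hN : H.card = N) (hfree : G.CliqueFree (r + 1)) (hcol : ¬ G.Colorable r)
    (hind : ∀ u ∈ H, ∀ v ∈ H, c u = c v → ¬ G.Adj u v) (ht : eu G H = 2 * t)
    (hg : ∑ v ∈ out H, dg G H v + t = r) : ∃ (w : V) (T : Finset V), WF G N H c w T := by
  classical
  obtain ⟨w, hw, hwr⟩ := big0 hcol hind
  have e1 := LC.dg_univ G H w
  have e2 := LC.eu_ge G H w hw
  have e3 := Finset.sum_erase_add (out H) (fun v => dg G H v) (mem_out.mpr hw)
  have hrest : ∑ v ∈ (out H).erase w, dg G H v = 0 := by omega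
  have ht2 : t = dg G (out H) w := by omega
  have h0 : ∀ v, v ∉ H → v ≠ w → dg G H v = 0 := by
    intro v hv hvw
    exact (Finset.sum_eq_zero_iff.mp hrest) v (Finset.mem_erase.mpr ⟨hvw, mem_out.mpr hv⟩)
  have h1 : ∀ a b, a ∉ H → b ∉ H → G.Adj a b → a = w ∨ b = w := by
    intro a b ha hb hab
    by_contra hcon
    rw [not_or] at hcon
    have := LC.eu_gt G H w hw ha hb hab hcon.1 hcon.2
    omega
  have h2 : ∀ a b, a ∈ H → b ∉ H → G.Adj a b → b = w := by
    intro a b ha hb hab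
    by_contra hcon
    have h3 := h0 b hb hcon
    unfold dg at h3
    rw [Finset.card_eq_zero] at h3
    have : a ∈ nb G H b := mem_nb.mpr ⟨ha, hab.symm⟩
    rw [h3] at this
    exact Finset.notMem_empty _ this
  by_cases hall : ∀ i, (cl (nb G H w) c i).Nonempty
  · have hs : ∑ i, (cl (nb G H w) c i).card = dg G H w := sum_card_cl (nb G H w) c
    have hone : ∀ i ∈ (univ : Finset (Fin r)), 1 ≤ (cl (nb G H w) c i).card := fun i _ =>
      Finset.card_pos.mpr (hall i)
    have hr2 : ∑ _i : Fin r, 1 = r := by simp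
    have hge : r ≤ dg G H w := by
      have := Finset.sum_le_sum hone
      omega
    have ht0 : t = 0 := by omega
    have hdr : dg G H w = r := by omega
    have h1' : ∀ i, (cl (nb G H w) c i).card = 1 := by
      intro i
      have h3 := (Finset.sum_eq_sum_iff_of_le hone).mp (by omega)
      exact (h3 i (Finset.mem_univ i)).symm
    have hno : ∀ a b, a ∉ H → b ∉ H → ¬ G.Adj a b := by
      intro a b ha hb hab
      have he := LC.eu_ge G H a ha
      have : b ∈ nb G (out H) a := mem_nb.mpr ⟨mem_out.mpr hb, hab⟩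
      have h3 : 0 < dg G (out H) a := Finset.card_pos.mpr ⟨b, this⟩
      omega
    refine ⟨w, nb G H w, hN, hw, fun a ha => (mem_nb.mp ha).1, h1', ?_, ?_, ?_⟩
    · by_contra hcon
      push Not at hcon
      have h3 := LC.clique_le hfree (insert w (nb G H w)) ?_
      · rw [Finset.card_insert_of_notMem (fun h => hw (mem_nb.mp h).1)] at h3
        unfold dg at hdr
        omega
      · intro a ha b hb hab
        rw [Finset.mem_insert] at ha hb
        rcases ha with rfl | ha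
        · rcases hb with rfl | hb
          · exact absurd rfl hab
          · exact (mem_nb.mp hb).2
        · rcases hb with rfl | hb
          · exact (mem_nb.mp ha).2.symm
          · exact hcon a ha b hb hab
    · intro a b hab
      by_cases ha : a ∈ H
      · by_cases hb : b ∈ H
        · exact Or.inl ⟨ha, hb, fun h => hind a ha b hb h hab⟩
        · have hbw := h2 a b ha hb hab
          subst hbw
          exact Or.inr (Or.inr ⟨rfl, mem_nb.mpr ⟨ha, hab.symm⟩⟩)
      · by_cases hb : b ∈ H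
        · have haw := h2 b a hb ha hab.symm
          subst haw
          exact Or.inr (Or.inl ⟨rfl, mem_nb.mpr ⟨hb, hab⟩⟩)
        · exact absurd hab (hno a b ha hb)
    · intro b hb
      exact (mem_nb.mp hb).2
  · exfalso
    push Not at hall
    obtain ⟨i, hi⟩ := hall
    have hi' : ∀ a, a ∈ H → G.Adj a w → c a ≠ i := by
      intro a ha hab hc
      have h3 : a ∈ cl (nb G H w) c i := mem_cl.mpr ⟨mem_nb.mpr ⟨ha, hab.symm⟩, hc⟩
      rw [hi] at h3
      exact Finset.notMem_empty _ h3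
    obtain ⟨j, hj⟩ : ∃ j : Fin r, j ≠ i := by
      have : Nontrivial (Fin r) := Fin.nontrivial_iff_two_le.mpr (by omega)
      exact exists_ne i
    apply hcol
    refine ⟨SimpleGraph.Coloring.mk (fun v => if v ∈ H then c v else if v = w then i else j) ?_⟩
    intro a b hab
    by_cases ha : a ∈ H
    · by_cases hb : b ∈ H
      · simp only [ha, hb, if_true]
        intro h
        exact hind a ha b hb h hab
      · have hbw := h2 a b ha hb hab
        subst hbw
        simp only [ha, hb, if_true, if_false]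
        exact hi' a ha hab
    · by_cases hb : b ∈ H
      · have haw := h2 b a hb ha hab.symm
        subst haw
        simp only [ha, hb, if_true, if_false]
        exact (hi' b hb hab.symm).symm
      · rcases h1 a b ha hb hab with h | h
        · subst h
          have hba : b ≠ a := hab.ne'
          simp only [ha, hb, hba, if_true, if_false]
          exact hj.symm
        · subst h
          have hab' : a ≠ b := hab.ne
          simp only [ha, hb, hab', if_true, if_false]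
          exact hj

omit [Fintype V] in
/-- a transversal through two given vertices -/
theorem trans (H : Finset V) (c : V → Fin r) (hne : ∀ i, (cl H c i).Nonempty) {p q : V}
    (hp : p ∈ H) (hq : q ∈ H) (hpq : c p ≠ c q) :
    ∃ T : Finset V, T ⊆ H ∧ (∀ i, (cl T c i).card = 1) ∧ p ∈ T ∧ q ∈ T := by
  classical
  have h : ∀ i, ∃ v ∈ H, c v = i := by
    intro i
    obtain ⟨v, hv⟩ := hne i
    exact ⟨v, (mem_cl.mp hv).1, (mem_cl.mp hv).2⟩
  choose τ0 h1 h2 using h
  obtain ⟨τ, hτ⟩ : ∃ τ : Fin r → V, τ = fun i => if i = c p then p else if i = c q then q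
      else τ0 i := ⟨_, rfl⟩
  have hτH : ∀ i, τ i ∈ H ∧ c (τ i) = i := by
    intro i
    rw [hτ]
    by_cases hi : i = c p
    · simp only [hi, if_true]
      exact ⟨hp, trivial⟩
    · by_cases hi2 : i = c q
      · have : ¬ c q = c p := fun h => hpq h.symm
        simp only [hi2, this, if_true, if_false]
        exact ⟨hq, trivial⟩
      · simp only [hi, hi2, if_false]
        exact ⟨h1 i, h2 i⟩
  refine ⟨univ.image τ, ?_, ?_, ?_, ?_⟩
  · intro v hv
    rw [Finset.mem_image] at hv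
    obtain ⟨i, _, rfl⟩ := hv
    exact (hτH i).1
  · intro i
    rw [Finset.card_eq_one]
    refine ⟨τ i, ?_⟩
    ext v
    rw [mem_cl, Finset.mem_image, Finset.mem_singleton]
    constructor
    · rintro ⟨⟨k, _, rfl⟩, h3⟩
      rw [(hτH k).2] at h3
      rw [h3]
    · rintro rfl
      exact ⟨⟨i, Finset.mem_univ _, rfl⟩, (hτH i).2⟩
  · rw [Finset.mem_image]
    exact ⟨c p, Finset.mem_univ _, by rw [hτ]; simp⟩
  · rw [Finset.mem_image]
    refine ⟨c q, Finset.mem_univ _, ?_⟩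
    rw [hτ]
    have : ¬ c q = c p := fun h => hpq h.symm
    simp [this]

/-- the comparison graph -/
theorem comp (h1 : Stmt_GF) (h2 : Stmt_EID) {G : SimpleGraph V} {H : Finset V} {c : V → Fin r}
    {N M t : ℕ} (hr : 3 ≤ r) (hN : H.card = N)
    (hind : ∀ u ∈ H, ∀ v ∈ H, c u = c v → ¬ G.Adj u v) (hsz : ∀ i, mis G H c < (cl H c i).card)
    (hM : mis G H c = 2 * M) (ht : eu G H = 2 * t) {w : V} (hw : w ∉ H)
    (hg1 : ∑ v ∈ out H, dg G H v + t < r + M) (hg2 : r < ∑ v ∈ out H, dg G H v + t) :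
    ∃ (G' : SimpleGraph V) (T : Finset V), WF G' N H c w T ∧ ¬ G'.Colorable r ∧
      G'.CliqueFree (r + 1) ∧ pE G' = pE G ∧
      mis G' H c + 2 * (∑ v ∈ out H, dg G H v + t) = 2 * (r + M) ∧
      (∀ a ∈ H, ∀ b ∈ H, c a ≠ c b → ¬ G'.Adj a b → ¬ G.Adj a b) := by
  classical
  obtain ⟨M', hM'⟩ : ∃ M', M' + (∑ v ∈ out H, dg G H v + t) = r + M :=
    ⟨r + M - (∑ v ∈ out H, dg G H v + t), by omega⟩
  have hM'0 : 0 < M' := by omega
  have hM'M : M' < M := by omega
  obtain ⟨D, hD⟩ : ∃ D, D = (H ×ˢ H).filter (fun e => c e.1 < c e.2 ∧ ¬ G.Adj e.1 e.2) := ⟨_, rfl⟩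
  have hDM : D.card = M := by
    have e1 := half H c (fun a b => ¬ G.Adj a b) (fun a b h h' => h h'.symm)
    have e2 : mis G H c = ((H ×ˢ H).filter (fun e => c e.1 ≠ c e.2 ∧ ¬ G.Adj e.1 e.2)).card := by
      unfold mis
      congr 1
    rw [hD]
    omega
  obtain ⟨F, hFD, hFc⟩ := Finset.exists_subset_card_eq (s := D) (n := M') (by omega)
  have hF : ∀ a b, (a, b) ∈ F → a ∈ H ∧ b ∈ H ∧ c a < c b ∧ ¬ G.Adj a b := by
    intro a b hab
    have := hFD hab
    rw [hD, Finset.mem_filter, Finset.mem_product] at this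
    exact ⟨this.1.1, this.1.2, this.2.1, this.2.2⟩
  obtain ⟨⟨p, q⟩, hpq⟩ : F.Nonempty := by
    rw [← Finset.card_pos, hFc]; exact hM'0
  obtain ⟨hp, hq, hpqc, _⟩ := hF p q hpq
  obtain ⟨T, hTH, hT1, hpT, hqT⟩ := trans H c (fun i => Finset.card_pos.mp (by
    have := hsz i; omega)) hp hq hpqc.ne
  obtain ⟨G', hG'⟩ : ∃ G', G' = gF H c w T (fun a b => (a, b) ∈ F) := ⟨_, rfl⟩
  have hWF : WF G' N H c w T := by
    refine ⟨hN, hw, hTH, hT1, ⟨p, hpT, q, hqT, ?_, ?_⟩, ?_, ?_⟩
    · rintro rfl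
      exact hpqc.ne rfl
    · intro hadj
      rw [hG', gF_adj hw hp hq] at hadj
      exact hadj.2.1 hpq
    · intro a b hab
      rw [hG'] at hab
      rcases hab.2 with h | h | h
      · exact Or.inl ⟨h.1, h.2.1, h.2.2.1⟩
      · exact Or.inr (Or.inl h)
      · exact Or.inr (Or.inr h)
    · intro b hb
      rw [hG']
      refine ⟨?_, Or.inr (Or.inl ⟨rfl, hb⟩)⟩
      rintro rfl
      exact hw (hTH hb)
  have hmis : mis G' H c = 2 * M' := by
    have e1 := half H c (fun a b => ¬ G'.Adj a b) (fun a b h h' => h h'.symm)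
    have e2 : mis G' H c =
        ((H ×ˢ H).filter (fun e => c e.1 ≠ c e.2 ∧ ¬ G'.Adj e.1 e.2)).card := by
      unfold mis
      congr 1
    have e3 : (H ×ˢ H).filter (fun e => c e.1 < c e.2 ∧ ¬ G'.Adj e.1 e.2) = F := by
      ext ⟨a, b⟩
      rw [Finset.mem_filter, Finset.mem_product]
      constructor
      · rintro ⟨⟨ha, hb⟩, h3, h4⟩
        simp only at ha hb h3 h4
        by_contra hab
        apply h4
        rw [hG', gF_adj hw ha hb]
        refine ⟨h3.ne, hab, fun h5 => ?_⟩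
        exact lt_asymm h3 (hF b a h5).2.2.1
      · intro hab
        obtain ⟨ha, hb, h3, _⟩ := hF a b hab
        refine ⟨⟨ha, hb⟩, h3, fun h4 => ?_⟩
        simp only at h4
        rw [hG', gF_adj hw ha hb] at h4
        exact h4.2.1 hab
    rw [e3, hFc] at e1
    omega
  obtain ⟨g1, g2, g3⟩ := h1 r hr V G' N H c w T hWF
  refine ⟨G', T, hWF, g2 fun i => by have := hsz i; omega, g1, ?_, by omega, ?_⟩
  · rw [g3, h2 r V G c H hind, hmis, hM, ht, hN]
    have e1 : (M' : ℝ) + (∑ v ∈ out H, (dg G H v : ℝ) + t) = r + M := by exact_mod_cast hM'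
    push_cast
    linarith only [e1]
  · intro a ha b hb hab h3 h4
    apply h3
    rw [hG', gF_adj hw ha hb]
    exact ⟨hab, fun h5 => (hF a b h5).2.2.2 h4, fun h5 => (hF b a h5).2.2.2 h4.symm⟩

end

end SM2

open SM2 in
theorem blk_SM2 (h1 : Stmt_GF) (h2 : Stmt_EID) (h3 : Stmt_EVN) (h4 : Stmt_EST1) (h5 : Stmt_TRF)
    (h6 : Stmt_CORE) : Stmt_SM2 := by
  classical
  intro r hr
  have hrR : (3 : ℝ) ≤ r := by exact_mod_cast hr
  obtain ⟨e, he⟩ : ∃ e : ℝ, e = 1 / (200 * (r + 1)) := ⟨_, rfl⟩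
  have he0 : 0 < e := by rw [he]; positivity
  have her : e * (r + 1) = 1 / 200 := by rw [he]; field_simp
  have he1 : e ≤ 1 / 400 := by
    have : e * 4 ≤ e * (r + 1) := mul_le_mul_of_nonneg_left (by linarith only [hrR]) he0.le
    linarith only [her, this]
  obtain ⟨δE, N1, hδE0, hδEe, hE⟩ := h4 r e hr he0
  refine ⟨min (δE / 2) (1 / (4 * r)), max N1 1, lt_min (by linarith only [hδE0]) (by positivity),
      ?_⟩
  intro N hNN V _ G c H hC0 hfree hcol hMX hfew
  have hN1 : N1 ≤ N := (le_max_left _ _).trans hNN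
  have hN2 : 1 ≤ N := (le_max_right _ _).trans hNN
  have hNR : (1 : ℝ) ≤ N := by exact_mod_cast hN2
  obtain ⟨δ, hδ⟩ : ∃ δ, δ = min (δE / 2) (1 / (4 * (r : ℝ))) := ⟨_, rfl⟩
  rw [← hδ] at hC0
  have hδ1 : δ ≤ δE / 2 := by rw [hδ]; exact min_le_left _ _
  have hδ2 : δ ≤ 1 / (4 * r) := by rw [hδ]; exact min_le_right _ _
  have hδ0 : 0 < δ := by rw [hδ]; exact lt_min (by linarith only [hδE0]) (by positivity)
  obtain ⟨⟨M, hM⟩, ⟨t, ht⟩⟩ := h3 r V G c H
  have hM2 : mis G H c = 2 * M := by omega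
  have ht2 : eu G H = 2 * t := by omega
  obtain ⟨w, hw, hwr⟩ := big0 hcol hC0.ind
  have e1 := LC.dg_univ G H w
  have e2 := LC.eu_ge G H w hw
  have e3 : dg G H w ≤ ∑ v ∈ out H, dg G H v :=
    Finset.single_le_sum (f := fun v => dg G H v) (fun _ _ => Nat.zero_le _) (mem_out.mpr hw)
  obtain ⟨g, hg⟩ : ∃ g, g = ∑ v ∈ out H, dg G H v + t := ⟨_, rfl⟩
  have hgr : r ≤ g := by omega
  by_cases hgr2 : g = r
  · exact caseB hr hC0.card hfree hcol hC0.ind ht2 (by omega)
  exfalso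
  have hgr3 : r < g := by omega
  -- sizes of the classes
  have hsz : ∀ i, mis G H c < (cl H c i).card := by
    intro i
    have h7 := (abs_le.mp (hC0.bal i)).1
    have h8 := hC0.mis
    have h9 : 2 * (δ * N) < N / r := by
      have : δ * N ≤ 1 / (4 * r) * N := mul_le_mul_of_nonneg_right hδ2 (by linarith only [])
      have e4 : 1 / (4 * (r : ℝ)) * N = N / r / 4 := by field_simp
      have e5 : (0 : ℝ) < N / r := by positivity
      linarith only [this, e4, e5]
    have h10 : (mis G H c : ℝ) < sz H c i := by linarith only [h7, h8, h9]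
    unfold sz at h10
    exact_mod_cast h10
  obtain ⟨G', T, hWF, hcol', hfree', hpE, hmis', hsub⟩ := comp (M := M) (t := t) h1 h2 hr hC0.card
    hC0.ind hsz hM2 ht2 hw (by omega) (by omega)
  have hrad := hMX G' hfree' hcol' hpE
  have : Nonempty V := ⟨w⟩
  obtain ⟨x, hx⟩ := exists_PV G
  obtain ⟨y, hy⟩ := exists_PV G'
  have hind' : ∀ u ∈ H, ∀ v ∈ H, c u = c v → ¬ G'.Adj u v := by
    intro u hu v hv huv hadj
    rcases hWF.sub u v hadj with h7 | h7 | h7
    · exact h7.2.2 huv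
    · exact hw (h7.1 ▸ hu)
    · exact hw (h7.1 ▸ hv)
  have hC0' := h5 r δ N V G G' c H hC0 hind' hpE (by omega)
  have mono : ∀ {δ1 δ2 : ℝ} {G : SimpleGraph V}, δ1 ≤ δ2 → C0 r δ1 N G c H → C0 r δ2 N G c H := by
    intro δ1 δ2 G hle h
    have h7 : δ1 * N ≤ δ2 * N := mul_le_mul_of_nonneg_right hle (by linarith only [])
    exact ⟨h.card, h.ind, h.mis.trans h7, fun i => (h.bal i).trans h7, h.eo.trans h7⟩
  obtain ⟨xb, hFx⟩ := hE N hN1 V G x _ c H (mono (by linarith only [hδE0, hδ1]) hC0) hx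
  obtain ⟨yb, hFy⟩ := hE N hN1 V G' y _ c H (mono (by linarith only [hδ1]) hC0') hy
  have hcore := h6 r hr V G G' c H w x y _ _ xb yb e N he0.le (by linarith only [he1]) hN2
    (mono (by linarith only [hδEe, hδ1, hδ0]) hC0) hind' hw hx hy hFx hFy hrad
  have hdiff := mH_diff (by linarith only [he1]) hFx hFy hsub
  -- degrees in the comparison graph
  have d1 : ∀ v, v ∉ H → v ≠ w → dg G' H v = 0 := by
    intro v hv hvw
    unfold dg
    rw [Finset.card_eq_zero, Finset.eq_empty_iff_forall_notMem]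
    intro b hb
    rw [mem_nb] at hb
    rcases hWF.sub v b hb.2 with h7 | h7 | h7
    · exact hv h7.1
    · exact hvw h7.1
    · exact hv (hWF.hT h7.2)
  have d2 : nb G' H w = T := by
    ext b
    rw [mem_nb]
    constructor
    · rintro ⟨_, hb⟩
      rcases hWF.sub w b hb with h7 | h7 | h7
      · exact absurd h7.1 hw
      · exact h7.2
      · exact absurd (hWF.hT h7.2) hw
    · intro hb
      exact ⟨hWF.hT hb, hWF.hwT b hb⟩
  have dT : T.card = r := by
    rw [← sum_card_cl T c, Finset.sum_congr rfl fun i _ => hWF.hT1 i]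
    simp
  have d3 : dg G' H w = r := by unfold dg; rw [d2, dT]
  have d4 : ∑ v ∈ out H, (dg G' H v : ℝ) ^ 2 = (r : ℝ) ^ 2 := by
    rw [Finset.sum_eq_single_of_mem w (mem_out.mpr hw), d3]
    intro v hv hvw
    rw [d1 v (mem_out.mp hv) hvw]
    simp
  -- bounds for `G`
  have b1 : (eo G H : ℝ) = ∑ v ∈ out H, (dg G H v : ℝ) + eu G H := TRF.eo_dg G H
  have b2 : (eo G H : ℝ) ≤ e * N := by
    have := hC0.eo
    have h7 : δ * N ≤ e * N := mul_le_mul_of_nonneg_right (by linarith only [hδE0, hδEe,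
        hδ1]) (by linarith only [])
    linarith only [this, h7]
  obtain ⟨S, hS⟩ : ∃ S : ℝ, S = ∑ v ∈ out H, (dg G H v : ℝ) := ⟨_, rfl⟩
  have b3 : (g : ℝ) = S + t := by rw [hg, hS]; push_cast; ring
  have b4 : (eu G H : ℝ) = 2 * t := by rw [ht2]; push_cast; ring
  have ht0 : (0 : ℝ) ≤ t := Nat.cast_nonneg _
  have b5 : (g : ℝ) ≤ e * N := by linarith only [b1, b2, hS, b3, b4]
  have b6 : ∀ v, v ∉ H → (dg G H v : ℝ) ≤ e * N := by
    intro v hv
    have : (dg G H v : ℝ) ≤ S := by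
      rw [hS]
      exact Finset.single_le_sum (f := fun v => (dg G H v : ℝ)) (fun _ _ => Nat.cast_nonneg _)
        (mem_out.mpr hv)
    linarith only [b3, b5, this]
  have b7 : ∑ v ∈ out H, (dg G H v : ℝ) ^ 2 ≤ e * N * g := by
    calc ∑ v ∈ out H, (dg G H v : ℝ) ^ 2 ≤ ∑ v ∈ out H, e * N * (dg G H v : ℝ) := by
          refine Finset.sum_le_sum fun v hv => ?_
          rw [pow_two]
          exact mul_le_mul_of_nonneg_right (b6 v (mem_out.mp hv)) (Nat.cast_nonneg _)
      _ = e * N * S := by rw [← Finset.mul_sum, hS]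
      _ ≤ e * N * g := mul_le_mul_of_nonneg_left (by linarith only [b3]) (by positivity)
  obtain ⟨a, ha⟩ : ∃ a : ℝ, a = (dg G H w : ℝ) := ⟨_, rfl⟩
  have ha0 : 0 ≤ a := by rw [ha]; exact Nat.cast_nonneg _
  have hag : a ≤ g := by
    have : a ≤ S := by rw [ha, hS]; exact_mod_cast e3
    linarith only [b3, this]
  have hrg : (r : ℝ) ≤ g := by exact_mod_cast hgr
  have c1 : ((df (nb G' H w) (nb G H w)).card : ℝ) ≤ g := by
    have : (df (nb G' H w) (nb G H w)).card ≤ (nb G' H w).card := Finset.card_filter_le _ _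
    rw [d2, dT] at this
    have h7 : ((df (nb G' H w) (nb G H w)).card : ℝ) ≤ r := by rw [d2]; exact_mod_cast this
    linarith only [hrg, h7]
  have c2 : ((df (nb G H w) (nb G' H w)).card : ℝ) ≤ g := by
    have : (df (nb G H w) (nb G' H w)).card ≤ dg G H w := Finset.card_filter_le _ _
    have h7 : ((df (nb G H w) (nb G' H w)).card : ℝ) ≤ a := by rw [ha]; exact_mod_cast this
    linarith only [hag, h7]
  have hg0 : (0 : ℝ) ≤ g := Nat.cast_nonneg _
  have hxy : 0 < xb * yb := mul_pos hFx.xb0 hFy.xb0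
  have hNN0 : (0 : ℝ) < N := by linarith only [hNR]
  -- the second factor
  have k1 : (((df (nb G' H w) (nb G H w)).card : ℝ) + (df (nb G H w) (nb G' H w)).card)
      * ((dg G' H w : ℝ) + dg G H w) ≤ 4 * (e * N * g) := by
    rw [d3, ← ha]
    have h7 : (((df (nb G' H w) (nb G H w)).card : ℝ) + (df (nb G H w) (nb G' H w)).card)
        * ((r : ℝ) + a) ≤ (2 * g) * (2 * g) :=
      mul_le_mul (by linarith only [c1, c2]) (by linarith only [hag,
          hrg]) (by linarith only [ha0]) (by linarith only [])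
    have h8 : (g : ℝ) * g ≤ e * N * g := mul_le_mul_of_nonneg_right b5 hg0
    linarith only [h7, h8]
  have k2 : ∑ v ∈ out H, (dg G H v : ℝ) ^ 2 - (dg G H w : ℝ) ^ 2 ≤ e * N * g := by
    have := sq_nonneg (dg G H w : ℝ)
    linarith only [b7, this]
  have k3 : ∑ v ∈ out H, (dg G H v : ℝ) - dg G H w + eu G H / 2 ≤ N * g := by
    rw [← hS, ← ha, b4]
    have : 1 * (g : ℝ) ≤ N * g := mul_le_mul_of_nonneg_right hNR hg0
    linarith only [b3, ha, this]
  have k4 : -(50 * (e * N * g)) ≤ ∑ v ∈ out H, (dg G' H v : ℝ) ^ 2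
      - ∑ v ∈ out H, (dg G H v : ℝ) ^ 2
      - 30 * e * ((((df (nb G' H w) (nb G H w)).card : ℝ) + (df (nb G H w) (nb G' H w)).card)
          * ((dg G' H w : ℝ) + dg G H w)
        + (∑ v ∈ out H, (dg G' H v : ℝ) ^ 2 - (dg G' H w : ℝ) ^ 2)
        + (∑ v ∈ out H, (dg G H v : ℝ) ^ 2 - (dg G H w : ℝ) ^ 2)
        + (∑ v ∈ out H, (dg G H v : ℝ) - dg G H w + eu G H / 2)) := by
    rw [d4]
    have h7 : ((((df (nb G' H w) (nb G H w)).card : ℝ) + (df (nb G H w) (nb G' H w)).card)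
          * ((dg G' H w : ℝ) + dg G H w)
        + ((r : ℝ) ^ 2 - (dg G' H w : ℝ) ^ 2)
        + (∑ v ∈ out H, (dg G H v : ℝ) ^ 2 - (dg G H w : ℝ) ^ 2)
        + (∑ v ∈ out H, (dg G H v : ℝ) - dg G H w + eu G H / 2)) ≤ 5 * (e * N * g) + N * g := by
      rw [d3] at k1 ⊢
      linarith only [k1, k2, k3]
    have h8 := mul_le_mul_of_nonneg_left h7 (show 0 ≤ 30 * e by linarith only [hδE0, hδEe])
    have h9 : e * (e * N * g) ≤ 1 / 400 * (e * N * g) :=
      mul_le_mul_of_nonneg_right he1 (by positivity)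
    have h10 : 0 ≤ e * N * g := by positivity
    have h11 := sq_nonneg (r : ℝ)
    have e4 : 30 * e * (5 * (e * N * g) + N * g) = 150 * (e * (e * N * g)) + 30 * (e * N * g) := by
      ring
    rw [e4] at h8
    linarith only [b7, h8, h9, h10, h11]
  -- the first factor
  have l1 : (N : ℝ) / 2 ≤ specRad G := by
    have h7 := (abs_le.mp hFx.lamN).1
    have h8 := al_ge hr
    have h9 : (2 / 3 - e) * N ≤ (al r - e) * N := mul_le_mul_of_nonneg_right (by linarith only [h8]) hNN0.le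
    have h10 : 1 / 2 * (N : ℝ) ≤ (2 / 3 - e) * N :=
      mul_le_mul_of_nonneg_right (by linarith only [he1]) hNN0.le
    linarith only [h7, h9, h10]
  have l2 : (mis G H c : ℝ) - mis G' H c = 2 * ((g : ℝ) - r) := by
    have h7 : mis G' H c + 2 * g = 2 * r + mis G H c := by omega
    have h8 : (mis G' H c : ℝ) + 2 * g = 2 * r + mis G H c := by exact_mod_cast h7
    linarith only [h8]
  have hgr4 : (1 : ℝ) ≤ g - r := by
    have : (r : ℝ) + 1 ≤ g := by exact_mod_cast hgr3
    linarith only [this]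
  have l3 : (g - r) * (xb * yb) ≤ mH G H c x y - mH G' H c x y := by
    rw [l2] at hdiff
    have h7 : 1 / 2 ≤ (1 - e) ^ 2 := by
      have e4 : (1 - e) ^ 2 = 1 - 2 * e + e ^ 2 := by ring
      have e5 := sq_nonneg e
      rw [e4]
      linarith only [he1, e5]
    have h8 : 2 * ((g : ℝ) - r) * (1 / 2 * (xb * yb)) ≤ 2 * ((g : ℝ) - r) * ((1 - e) ^ 2 * (xb * yb)) :=
      mul_le_mul_of_nonneg_left (mul_le_mul_of_nonneg_right h7 hxy.le) (by linarith only [hgr4])
    linarith only [hdiff, h8]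
  have l4 : (N : ℝ) / 2 * ((g - r) * (xb * yb)) ≤ specRad G * (mH G H c x y - mH G' H c x y) :=
    mul_le_mul l1 l3 (mul_nonneg (by linarith only [hgr4]) hxy.le) (by linarith only [k4, l1])
  have l5 : xb * yb * -(50 * (e * N * g)) ≤ xb * yb * (∑ v ∈ out H, (dg G' H v : ℝ) ^ 2
      - ∑ v ∈ out H, (dg G H v : ℝ) ^ 2
      - 30 * e * ((((df (nb G' H w) (nb G H w)).card : ℝ) + (df (nb G H w) (nb G' H w)).card)
          * ((dg G' H w : ℝ) + dg G H w)
        + (∑ v ∈ out H, (dg G' H v : ℝ) ^ 2 - (dg G' H w : ℝ) ^ 2)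
        + (∑ v ∈ out H, (dg G H v : ℝ) ^ 2 - (dg G H w : ℝ) ^ 2)
        + (∑ v ∈ out H, (dg G H v : ℝ) - dg G H w + eu G H / 2))) :=
    mul_le_mul_of_nonneg_left k4 hxy.le
  have l6 : (xb * yb) * ((N : ℝ) / 2 * (g - r) - 50 * (e * N * g)) ≤ 0 := by
    have e4 : (xb * yb) * ((N : ℝ) / 2 * (g - r) - 50 * (e * N * g)) =
        (N : ℝ) / 2 * ((g - r) * (xb * yb)) + xb * yb * -(50 * (e * N * g)) := by ring
    rw [e4]
    linarith only [hcore, l4, l5]
  have l7 : (N : ℝ) / 2 * (g - r) - 50 * (e * N * g) ≤ 0 := by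
    by_contra hc
    push Not at hc
    exact absurd l6 (not_le.mpr (mul_pos hxy hc))
  -- `g ≤ (r + 1) (g - r)`
  have l8 : (g : ℝ) ≤ (r + 1) * (g - r) := by
    have : (r : ℝ) * 1 ≤ r * (g - r) := mul_le_mul_of_nonneg_left hgr4 (by linarith only [])
    linarith only [this]
  have l9 : e * N * g ≤ 1 / 200 * (N * (g - r)) := by
    calc e * N * g ≤ e * N * ((r + 1) * (g - r)) := mul_le_mul_of_nonneg_left l8 (by positivity)
      _ = e * (r + 1) * (N * (g - r)) := by ring
      _ = 1 / 200 * (N * (g - r)) := by rw [her]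
  have l10 : 0 < N * ((g : ℝ) - r) := mul_pos hNN0 (by linarith only [hgr4])
  linarith only [l7, l9, l10]

end Pool.Agent.Work.MP_5532fa_up

end

section

/-!
# MP_5532fa_co, upgrade: the exact theorem without a lower bound for `j`
-/

open Finset

namespace Pool.Agent.Work.MP_5532fa_up

open MP5532fa (specRad qf pE)

/-- all type D graphs have the same spectral radius (all `N`, `j`) -/
theorem isodU (hLAB : Stmt_LAB) (hCANP : Stmt_CANP) (r N j : ℕ) (V V' : Type) [Fintype V]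
    [Fintype V'] (G : SimpleGraph V) (G' : SimpleGraph V') (hG : TypeD r N j G)
    (hG' : TypeD r N j G') : specRad G = specRad G' := by
  classical
  obtain ⟨H, c, w, A, v1, v2, hW, hA, hB, hP, hT⟩ := hG
  obtain ⟨H', c', w', A', v1', v2', hW', hA', hB', hP', hT'⟩ := hG'
  have hc : ({c v1, c v2} : Finset (Fin r)).card = ({c' v1', c' v2'} : Finset (Fin r)).card := by
    rw [Finset.card_pair hW.h12, Finset.card_pair hW'.h12]
  have s1 : ∀ i, i ∈ ({c v1, c v2} : Finset (Fin r)) → (cl A c i).card = 1 := by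
    intro i hi
    simp only [Finset.mem_insert, Finset.mem_singleton] at hi
    rcases hi with rfl | rfl
    · rw [hW.h1, Finset.card_singleton]
    · rw [hW.h2, Finset.card_singleton]
  have s1' : ∀ i, i ∈ ({c' v1', c' v2'} : Finset (Fin r)) → (cl A' c' i).card = 1 := by
    intro i hi
    simp only [Finset.mem_insert, Finset.mem_singleton] at hi
    rcases hi with rfl | rfl
    · rw [hW'.h1, Finset.card_singleton]
    · rw [hW'.h2, Finset.card_singleton]
  obtain ⟨σ, hσ⟩ := ISOD.perm_of hCANP hc (hW.card.trans hW'.card.symm) (hA.trans hA'.symm) hW.hA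
    hW'.hA hB hB' hP hP' hT hT' s1 s1' (fun i _ => hW.hne i) (fun i _ => hW'.hne i)
  set P := ({c v1, c v2} : Finset (Fin r)) with hPd
  have hK : ∀ v, v ∈ insert w H ↔ v = w ∨ v ∈ H := fun v => Finset.mem_insert
  have hK' : ∀ v, v ∈ insert w' H' ↔ v = w' ∨ v ∈ H' := fun v => Finset.mem_insert
  refine hLAB _ V V' (ISOD.R P) G G' (insert w H) (insert w' H')
    (ISOD.lab c w A (1 : Equiv.Perm (Fin r))) (ISOD.lab c' w' A' (σ⁻¹ : Equiv.Perm (Fin r)))
    (fun a b => ISOD.adj_iff hW 1 P (fun i => by simp [hPd]) _ hK a b)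
    (fun a b => ISOD.adj_iff hW' σ⁻¹ P (fun i => ?_) _ hK' a b) ?_ ⟨w, by simp⟩
  · have := (hσ (σ⁻¹ i)).1
    rw [this]
    simp
  · intro s
    rcases s with _ | ⟨i, b⟩
    · rw [ISOD.fib_none 1 _ hK, ISOD.fib_none σ⁻¹ _ hK']
    · have e1 : i = (1 : Equiv.Perm (Fin r)) i := rfl
      have e2 : i = (σ⁻¹ : Equiv.Perm (Fin r)) (σ i) := by simp
      cases b
      · have h1 := ISOD.fib_false (c := c) hW.hw hW.hA 1 _ hK i
        have h2 := ISOD.fib_false (c := c') hW'.hw hW'.hA σ⁻¹ _ hK' (σ i)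
        rw [← e1] at h1
        rw [← e2] at h2
        rw [h1, h2, (hσ i).2.1, (hσ i).2.2]
      · have h1 := ISOD.fib_true (c := c) hW.hw hW.hA 1 _ hK i
        have h2 := ISOD.fib_true (c := c') hW'.hw hW'.hA σ⁻¹ _ hK' (σ i)
        rw [← e1] at h1
        rw [← e2] at h2
        rw [h1, h2, (hσ i).2.2]

/-- a type D graph has at most `N + 1` vertices which are not isolated -/
theorem typeD_iso {V : Type} [Fintype V] {r N j : ℕ} {G : SimpleGraph V} (h : TypeD r N j G)
    (S : Finset V) (hS : ∀ v ∈ S, ∃ u, G.Adj v u) : S.card ≤ N + 1 := by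
  classical
  obtain ⟨H, c, w, A, v1, v2, hW, -⟩ := h
  have : S ⊆ insert w H := by
    intro v hv
    obtain ⟨u, hu⟩ := hS v hv
    rw [Finset.mem_insert]
    rcases (hW.adj v u).mp hu with h | h | h
    · exact Or.inr h.1
    · exact Or.inl h.1
    · exact Or.inr (hW.hA h.2)
  calc S.card ≤ (insert w H).card := Finset.card_le_card this
    _ ≤ H.card + 1 := Finset.card_insert_le _ _
    _ = N + 1 := by rw [hW.card]

/-- a type E graph has `N + 2` vertices which are not isolated -/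
theorem typeE_iso {V : Type} [Fintype V] {r N j : ℕ} (hr : 3 ≤ r) (hN : 3 * r ≤ N)
    {G : SimpleGraph V} (h : TypeE r N j G) :
    ∃ S : Finset V, S.card = N + 2 ∧ ∀ v ∈ S, ∃ u, G.Adj v u := by
  classical
  obtain ⟨H, c, w, u, A, B, i0, hW, hO, hA, hB, -⟩ := h
  have hne : ∀ i, 1 ≤ (cl H c i).card := by
    intro i
    by_contra hi
    push Not at hi
    have hk : ∀ k, (cl H c k).card ≤ 1 := fun k => by have := hB k i; omega
    have := sum_card_cl H c
    rw [hW.card] at this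
    have h4 : ∑ k, (cl H c k).card ≤ ∑ _k : Fin r, 1 := Finset.sum_le_sum fun k _ => hk k
    simp only [Finset.sum_const, Finset.card_univ, Fintype.card_fin, smul_eq_mul] at h4
    omega
  refine ⟨insert w (insert u H), ?_, ?_⟩
  · rw [Finset.card_insert_of_notMem, Finset.card_insert_of_notMem hW.hu, hW.card]
    rw [Finset.mem_insert]
    rintro (h | h)
    · exact hW.hwu h
    · exact hW.hw h
  · intro v hv
    rw [Finset.mem_insert, Finset.mem_insert] at hv
    rcases hv with rfl | rfl | hv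
    · exact ⟨u, (hW.adj v u).mpr (by tauto)⟩
    · exact ⟨w, (hW.adj v w).mpr (by tauto)⟩
    · obtain ⟨i, hi⟩ : ∃ i : Fin r, i ≠ c v := by
        by_cases h : c v = ⟨0, by omega⟩
        · refine ⟨⟨1, by omega⟩, ?_⟩
          rw [h]
          intro h2
          exact absurd (congrArg Fin.val h2) (by norm_num)
        · exact ⟨⟨0, by omega⟩, fun h2 => h h2.symm⟩
      obtain ⟨a, ha⟩ := Finset.card_pos.mp (hne i)
      rw [mem_cl] at ha
      exact ⟨a, (hW.adj v a).mpr (Or.inl ⟨hv, ha.1, fun h => hi (by rw [h, ha.2])⟩)⟩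

/-- second order term below `1 - 2/r` -/
theorem sec_small {r N j : ℕ} (hr : 3 ≤ r) (hN : 0 < N)
    (hj : (j : ℝ) ≤ (1 - 2 / r) * (al r * N)) :
    al r * N + j / N - al r * ((1 - j / (al r * N)) * min (j / (al r * N)) (1 - 2 / r))
      = al r * N + (j : ℝ) ^ 2 / (al r * N ^ 2) := by
  have hal := al_ge hr
  have hN0 : (0 : ℝ) < N := by exact_mod_cast hN
  have h1 : (j : ℝ) / (al r * N) ≤ 1 - 2 / r := by
    rw [div_le_iff₀ (by positivity)]; exact hj
  rw [min_eq_left h1]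
  have h2 : al r ≠ 0 := by positivity
  have h3 : (N : ℝ) ≠ 0 := hN0.ne'
  field_simp
  ring

/-- the structure for small `j` -/
theorem small_str (hS1 : Stmt_S1) (hSM0 : Stmt_SM0) (hFIN3 : Stmt_FIN3) (hEBU : Stmt_EBU)
    (hE2U : Stmt_E2U) (hE3U : Stmt_E3U) (hTN : Stmt_TN) (hGE : Stmt_GE) (r : ℕ) (ε : ℝ)
    (hr : 3 ≤ r) (hε : 0 < ε) : ∃ (ε0 δ1 : ℝ) (N0 : ℕ), 0 < ε0 ∧ 0 < δ1 ∧ ∀ N ≥ N0, ∀ j : ℕ,
    2 * r ≤ j + 1 → (j : ℝ) < ε0 * N → RgU r ε N j → ∀ (V : Type) [Fintype V]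
    (G : SimpleGraph V), N + 2 ≤ Fintype.card V → G.CliqueFree (r + 1) → ¬ G.Colorable r →
    MX r G → pE G = 2 * ((tn r N : ℝ) + j) →
    al r * N + (j : ℝ) ^ 2 / (al r * N ^ 2) - δ1 ≤ specRad G → TypeE r N j G := by
  classical
  obtain ⟨dS, nS, hdS, HS⟩ := hS1 r hr
  obtain ⟨dM, nM, hdM, HM⟩ := hSM0 r hr
  obtain ⟨dB, nB, hdB, HB⟩ := hEBU r ε hr hε
  obtain ⟨d2, n2, hd2, H2⟩ := hE2U r ε hr hε
  obtain ⟨d3, n3, hd3, H3⟩ := hE3U r ε hr hε
  set δ : ℝ := min (min dS dM) (1 / 6) with hδ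
  have hδ0 : 0 < δ := lt_min (lt_min hdS hdM) (by norm_num)
  obtain ⟨ε1, hε1, HF⟩ := hFIN3 r δ hr hδ0
  obtain ⟨δ1, nF, hδ1, HF'⟩ := HF 1 one_pos
  set dd : ℝ := min (min dB d2) d3 with hdd
  have hdd0 : 0 < dd := lt_min (lt_min hdB hd2) hd3
  obtain ⟨nN, hnN⟩ := exists_nat_gt ((r : ℝ) / dd)
  refine ⟨min ε1 (1 / 9), δ1, nS + nM + nB + n2 + n3 + nF + nN + 1, lt_min hε1 (by norm_num), hδ1,
    ?_⟩
  intro N hN j hj2r hjs hRg V _ G hcard hfree hcol hMX hpE hlow
  have hrr : (3 : ℝ) ≤ r := by exact_mod_cast hr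
  have hal := al_ge hr
  have hal1 := al_lt hr
  have hN0 : (0 : ℝ) < N := by
    have : 0 < N := by omega
    exact_mod_cast this
  have hjal := RgU.le hr hε hRg
  have hV : Nonempty V := by
    by_contra h
    rw [not_nonempty_iff] at h
    exact hcol (SimpleGraph.Colorable.of_isEmpty _)
  have h2r : 2 / (r : ℝ) ≤ 2 / 3 := div_le_div_of_nonneg_left (by norm_num) (by norm_num) hrr
  have hjk : (j : ℝ) ≤ (1 - 2 / r) * (al r * N) := by
    have h1 : (j : ℝ) < 1 / 9 * N := by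
      refine lt_of_lt_of_le hjs ?_
      exact mul_le_mul_of_nonneg_right (min_le_right _ _) hN0.le
    have h2 : 2 / 3 * N ≤ al r * N := mul_le_mul_of_nonneg_right hal hN0.le
    have h3 : 1 / 3 * (2 / 3 * (N : ℝ)) ≤ (1 - 2 / r) * (al r * N) :=
      mul_le_mul (by linarith only [h2r]) h2 (by positivity) (by linarith only [h2r])
    linarith only [h1, h3]
  obtain ⟨x, hx⟩ := exists_PV G
  have hp : |pE G - al r * N ^ 2 - 2 * j| ≤ (r : ℝ) := pE_near hTN hr hpE
  rcases HF' N (by omega) j hjal V G x (specRad G) hfree hx hp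
    (by rw [sec_small hr (by omega) hjk]; exact hlow) with
    ⟨c, H, hC, -, -⟩ | ⟨c, H, hC, -, hj3⟩ | ⟨hRgA, -⟩
  · have l1 : δ ≤ dS := by simp [hδ, min_le_iff]
    have l2 : δ ≤ dM := by simp [hδ, min_le_iff]
    obtain ⟨hmis, hBal⟩ := HS N (by omega) j hj2r V G c H hcard (hC.mono l1) hfree hMX hpE
    obtain ⟨w, u, A, B, i0, hWE⟩ := HM N (by omega) V G c H (hC.mono l2) hfree hcol hMX hmis
    have h1 := (hGE r hr V G N H c w u A B i0 hWE).2.2
    have h2 := sum_sq_bal hTN hr hWE.card hBal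
    have h3 : ((A.card + r : ℕ) : ℝ) = (j : ℝ) := by
      push_cast
      rw [hpE] at h1
      linarith only [h1, h2]
    have hAj : A.card + r = j := by exact_mod_cast h3
    have hNr : (r : ℝ) / dd < N := lt_trans hnN (by exact_mod_cast (by omega : nN < N))
    rw [div_lt_iff₀ hdd0] at hNr
    have hNear : ∀ d, dd ≤ d → Near r d N j H A c := by
      intro d hd
      have hdN : dd * N ≤ d * N := mul_le_mul_of_nonneg_right hd hN0.le
      constructor
      · intro i
        have hsum : ∑ k, sz H c k = (N : ℝ) := by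
          have := sum_card_cl H c
          rw [hWE.card] at this
          unfold sz
          exact_mod_cast this
        have e : (r : ℝ) * (sz H c i - N / r) = ∑ k, (sz H c i - sz H c k) := by
          rw [Finset.sum_sub_distrib, hsum]
          simp only [Finset.sum_const, Finset.card_univ, Fintype.card_fin, nsmul_eq_mul]
          field_simp
        have h1 : |∑ k, (sz H c i - sz H c k)| ≤ r * 1 := by
          refine (Finset.abs_sum_le_sum_abs _ _).trans ?_
          have : ∑ k : Fin r, |sz H c i - sz H c k| ≤ ∑ _k : Fin r, (1:ℝ) := by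
            refine Finset.sum_le_sum fun k _ => ?_
            have a1 : sz H c i ≤ sz H c k + 1 := by unfold sz; exact_mod_cast hBal i k
            have a2 : sz H c k ≤ sz H c i + 1 := by unfold sz; exact_mod_cast hBal k i
            rw [abs_le]; constructor <;> linarith only [a2, a1]
          simpa using this
        rw [← e, abs_mul, abs_of_pos (by linarith only [hrr] : (0:ℝ) < r)] at h1
        have h2 := le_of_mul_le_mul_left h1 (by linarith only [hrr])
        linarith only [hrr, hNr, hdN, h2]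
      · have h1 : (A.card : ℝ) + r = j := by exact_mod_cast hAj
        have h2 : (A.card : ℝ) - j = -r := by linarith only [h1]
        rw [h2, abs_neg, abs_of_nonneg (by linarith only [])]
        linarith only [hNr, hdN]
    have hOne := HB N (by omega) j hRg V G H c w u A B i0 hWE
      (hNear dB ((min_le_left _ _).trans (min_le_left _ _))) hMX
    have hPl := H2 N (by omega) j hRg V G H c w u A B i0 hWE
      (hNear d2 ((min_le_left _ _).trans (min_le_right _ _))) hOne hBal hMX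
    have hTop := H3 N (by omega) j hRg V G H c w u A B i0 hWE
      (hNear d3 (min_le_right _ _)) hOne hBal hPl hMX
    exact ⟨H, c, w, u, A, B, i0, hWE, hOne, hAj, hBal, hPl, hTop⟩
  · exfalso
    have h1 : (j : ℝ) < 1 / 9 * N := by
      refine lt_of_lt_of_le hjs ?_
      exact mul_le_mul_of_nonneg_right (min_le_right _ _) hN0.le
    have h2 : 2 / 3 * N ≤ al r * N := mul_le_mul_of_nonneg_right hal hN0.le
    have l3 : δ ≤ 1 / 6 := min_le_right _ _
    have h3 : 1 / 6 * (2 / 3 * (N : ℝ)) ≤ (1 - 2 / r - δ) * (al r * N) :=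
      mul_le_mul (by linarith only [h2r, l3]) h2 (by positivity) (by linarith only [h2r, l3])
    linarith only [hj3, h1, h3]
  · exfalso
    have h1 : (j : ℝ) < ε1 * N := by
      refine lt_of_lt_of_le hjs ?_
      exact mul_le_mul_of_nonneg_right (min_le_left _ _) hN0.le
    have := hRgA.1
    linarith only [h1, this]

/-- transport to a larger vertex set -/
theorem htr (hTRANS : Stmt_TRANS) {r : ℕ} (hr : 3 ≤ r) {p : ℝ} (V V' : Type) [Fintype V]
    [Fintype V'] (G : SimpleGraph V) (a : G.CliqueFree (r + 1)) (b : ¬ G.Colorable r)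
    (c : pE G = p) (hc : Fintype.card V ≤ Fintype.card V') :
    ∃ G' : SimpleGraph V', G'.CliqueFree (r + 1) ∧
      ¬ G'.Colorable r ∧ pE G' = p ∧ specRad G' = specRad G := by
  have hV : Nonempty V := by
    by_contra h
    rw [not_nonempty_iff] at h
    exact b (SimpleGraph.Colorable.of_isEmpty _)
  obtain ⟨G', e1, e2, e3⟩ := hTRANS V V' G hV hc
  exact ⟨G', (e3 r (by omega)).1 a, fun h => b ((e3 r (by omega)).2 h), e2.trans c, e1⟩

/-- the conclusion of the final theorem -/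
def Concl (r : ℕ) (ε : ℝ) (N j : ℕ) : Prop :=
    ∃ lD lE : ℝ,
      (∀ (V : Type) [Fintype V] (G : SimpleGraph V), TypeD r N j G →
        (G.CliqueFree (r + 1) ∧ ¬ G.Colorable r ∧ pE G = 2 * ((tn r N : ℝ) + j)) ∧
          specRad G = lD) ∧
      (∀ (V : Type) [Fintype V] (G : SimpleGraph V), TypeE r N j G →
        (G.CliqueFree (r + 1) ∧ ¬ G.Colorable r ∧ pE G = 2 * ((tn r N : ℝ) + j)) ∧
          specRad G = lE) ∧
      (∃ G : SimpleGraph (Fin (N + 2)), TypeD r N j G) ∧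
      (∃ G : SimpleGraph (Fin (N + 2)), TypeE r N j G) ∧
      (∀ (V : Type) [Fintype V] (G : SimpleGraph V), G.CliqueFree (r + 1) → ¬ G.Colorable r →
        pE G = 2 * ((tn r N : ℝ) + j) → specRad G ≤ max lD lE ∧
          (specRad G = max lD lE ↔
            (TypeD r N j G ∧ lE ≤ lD) ∨ (TypeE r N j G ∧ lD ≤ lE))) ∧
      (((r : ℝ) + 1) * (j / (al r * N)) ≤ 1 - ε → lD < lE) ∧
      (1 + (j / (al r * N)) ^ 4 / (r * ((r : ℝ) - 1)) + ε ≤ ((r : ℝ) + 1) * (j / (al r * N)) →
        lE < lD)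

/-- the exact theorem for small `j` -/
theorem small_lin (hS1 : Stmt_S1) (hSM0 : Stmt_SM0) (hFIN3 : Stmt_FIN3) (hEBU : Stmt_EBU)
    (hE2U : Stmt_E2U) (hE3U : Stmt_E3U) (hTN : Stmt_TN) (hGD : Stmt_GD) (hGE : Stmt_GE)
    (hLOWG : Stmt_LOWG) (hEXU : Stmt_EXU) (hLAB : Stmt_LAB) (hCANP : Stmt_CANP)
    (hISOEU : Stmt_ISOEU) (hTRANS : Stmt_TRANS) (hTRANS2 : Stmt_TRANS2) (r : ℕ) (ε : ℝ)
    (hr : 3 ≤ r) (hε : 0 < ε) : ∃ (ε0 : ℝ) (N0 : ℕ), 0 < ε0 ∧ ∀ N ≥ N0, ∀ j : ℕ,
    2 * r ≤ j + 1 → (j : ℝ) < ε0 * N → RgU r ε N j → Concl r ε N j := by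
  classical
  obtain ⟨ε1, δ1, n1, hε1, hδ1, H1⟩ := small_str hS1 hSM0 hFIN3 hEBU hE2U hE3U hTN hGE r ε hr hε
  obtain ⟨n2, H2⟩ := typeD_low hLOWG hr hδ1
  obtain ⟨n3, H3⟩ := hEXU r ε hr hε
  obtain ⟨n6, H6⟩ := hISOEU r ε hr hε
  refine ⟨min ε1 (1 / (2 * ((r : ℝ) + 1))), n1 + n2 + n3 + n6 + 3 * r,
    lt_min hε1 (by positivity), ?_⟩
  intro N hN j hj2r hjs hRg
  have hrr : (3 : ℝ) ≤ r := by exact_mod_cast hr
  have hal := al_ge hr
  have hN0 : (0 : ℝ) < N := by
    have : 0 < N := by omega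
    exact_mod_cast this
  have hjs1 : (j : ℝ) < ε1 * N :=
    lt_of_lt_of_le hjs (mul_le_mul_of_nonneg_right (min_le_left _ _) hN0.le)
  have hjs2 : (j : ℝ) < 1 / (2 * ((r : ℝ) + 1)) * N :=
    lt_of_lt_of_le hjs (mul_le_mul_of_nonneg_right (min_le_right _ _) hN0.le)
  obtain ⟨⟨GD, hGDt⟩, ⟨GE, hGEt⟩⟩ := H3 N (by omega) j hRg hj2r (Fin (N + 2)) (by simp)
  have cD := typeD_class hTN hGD hr (by omega) hGDt
  have cE := typeE_class hTN hGE hr (by omega) hGEt
  set lD := specRad GD with hlD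
  set lE := specRad GE with hlE
  have hD : ∀ (V : Type) [Fintype V] (G : SimpleGraph V), TypeD r N j G → specRad G = lD :=
    fun V _ G hG => isodU hLAB hCANP r N j V (Fin (N + 2)) G GD hG hGDt
  have hE : ∀ (V : Type) [Fintype V] (G : SimpleGraph V), TypeE r N j G → specRad G = lE :=
    fun V _ G hG => H6 N (by omega) j hRg V (Fin (N + 2)) G GE hG hGEt
  have hlow : al r * N + (j : ℝ) ^ 2 / (al r * N ^ 2) - δ1 ≤ lD :=
    H2 N (by omega) j (Fin (N + 2)) GD hGDt
  -- the key fact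
  have key : ∀ (V : Type) [Fintype V] (G : SimpleGraph V), G.CliqueFree (r + 1) →
      ¬ G.Colorable r → pE G = 2 * ((tn r N : ℝ) + j) → specRad G ≤ lE := by
    intro V _ G a b c
    set V' := V ⊕ Fin (N + 2) with hV'
    obtain ⟨G1, a1, b1, c1, e1⟩ := htr hTRANS hr V V' G a b c (by simp [hV'])
    obtain ⟨G2, a2, b2, c2, e2⟩ := htr hTRANS hr (Fin (N + 2)) V' GD cD.1 cD.2.1 cD.2.2
      (by simp [hV'])
    obtain ⟨Gm, am, bm, cm, hMX, hle⟩ := exists_MX G1 a1 b1
    have cm' : pE Gm = 2 * ((tn r N : ℝ) + j) := cm.trans c1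
    have h2 : specRad G2 ≤ specRad Gm := hMX G2 a2 b2 (c2.trans cm'.symm)
    have hst := H1 N (by omega) j hj2r hjs1 hRg V' Gm (by simp [hV']) am bm hMX cm'
      (by rw [e2] at h2; linarith only [hlow, h2])
    have h3 : specRad G ≤ specRad Gm := by rw [← e1]; exact hle
    rw [hE V' Gm hst] at h3
    exact h3
  -- the strict inequality
  have hlt : lD < lE := by
    rcases lt_or_eq_of_le (key (Fin (N + 2)) GD cD.1 cD.2.1 cD.2.2) with h | h
    · exact h
    · exfalso
      have hMX : MX r GD := by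
        intro G' a' b' c'
        rw [h]
        exact key _ G' a' b' (c'.trans cD.2.2)
      have hst := H1 N (by omega) j hj2r hjs1 hRg (Fin (N + 2)) GD (by simp) cD.1 cD.2.1 hMX cD.2.2
        hlow
      obtain ⟨S, hS1, hS2⟩ := typeE_iso hr (by omega) hst
      have := typeD_iso hGDt S hS2
      omega
  have hmaxE : max lD lE = lE := max_eq_right hlt.le
  refine ⟨lD, lE, fun V _ G hG => ⟨typeD_class hTN hGD hr (by omega) hG, hD V G hG⟩,
    fun V _ G hG => ⟨typeE_class hTN hGE hr (by omega) hG, hE V G hG⟩, ⟨GD, hGDt⟩, ⟨GE, hGEt⟩,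
    ?_, fun _ => hlt, ?_⟩
  · intro V _ G a b c
    rw [hmaxE]
    refine ⟨key V G a b c, ?_, ?_⟩
    · intro heq
      right
      refine ⟨?_, hlt.le⟩
      by_cases hcV : N + 2 ≤ Fintype.card V
      · have hMX : MX r G := by
          intro G' a' b' c'
          rw [heq]
          exact key V G' a' b' (c'.trans c)
        exact H1 N (by omega) j hj2r hjs1 hRg V G hcV a b hMX c
          (by rw [heq]; exact hlow.trans hlt.le)
      · exfalso
        have hV : Nonempty V := by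
          by_contra h
          rw [not_nonempty_iff] at h
          exact b (SimpleGraph.Colorable.of_isEmpty _)
        obtain ⟨G', e1, e2, e4, e3⟩ := hTRANS2 V (Fin (N + 2)) G hV (by simp; omega)
        have a1 := (e3 r (by omega)).1 a
        have b1 : ¬ G'.Colorable r := fun h => b ((e3 r (by omega)).2 h)
        have c1 := e2.trans c
        have hMX : MX r G' := by
          intro G'' a' b' c'
          rw [e1, heq]
          exact key _ G'' a' b' (c'.trans c1)
        have hst := H1 N (by omega) j hj2r hjs1 hRg (Fin (N + 2)) G' (by simp) a1 b1 hMX c1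
          (by rw [e1, heq]; exact hlow.trans hlt.le)
        obtain ⟨S, hS1, hS2⟩ := typeE_iso hr (by omega) hst
        have := e4 S hS2
        omega
    · rintro (⟨_, hle⟩ | ⟨h, _⟩)
      · exact absurd hlt (not_lt.mpr hle)
      · exact hE V G h
  · intro hX
    exfalso
    have h1 : (j : ℝ) / (al r * N) < 1 / ((r : ℝ) + 1) := by
      rw [div_lt_iff₀ (by positivity)]
      refine lt_of_lt_of_le hjs2 ?_
      have e1 : 1 / (2 * ((r : ℝ) + 1)) * N = 1 / ((r : ℝ) + 1) * (1 / 2 * N) := by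
        field_simp
      rw [e1]
      apply mul_le_mul_of_nonneg_left _ (by positivity)
      nlinarith
    have h2 : ((r : ℝ) + 1) * (j / (al r * N)) < 1 := by
      have := mul_lt_mul_of_pos_left h1 (by linarith only [] : (0 : ℝ) < (r : ℝ) + 1)
      rwa [mul_one_div_cancel (by linarith only [] : (r : ℝ) + 1 ≠ 0)] at this
    have h3 : 0 ≤ ((j : ℝ) / (al r * N)) ^ 4 / (r * ((r : ℝ) - 1)) := by
      apply div_nonneg (by positivity)
      apply mul_nonneg (by linarith only []) (by linarith only [hrr])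
    linarith only [hε, hX, h2, h3]

/-- the exact theorem -/
theorem lin2 (hS1 : Stmt_S1) (hSM0 : Stmt_SM0) (hFIN3 : Stmt_FIN3) (hEBU : Stmt_EBU)
    (hE2U : Stmt_E2U) (hE3U : Stmt_E3U) (hTN : Stmt_TN) (hGD : Stmt_GD) (hGE : Stmt_GE)
    (hLOWG : Stmt_LOWG) (hEXU : Stmt_EXU) (hLAB : Stmt_LAB) (hCANP : Stmt_CANP)
    (hISOEU : Stmt_ISOEU) (hTRANS : Stmt_TRANS) (hTRANS2 : Stmt_TRANS2)
    (hSTR : Stmt_STR) (hEXD : Stmt_EXD) (hEXE : Stmt_EXE) (hISOD : Stmt_ISOD)
    (hISOE : Stmt_ISOE) (hTHRE : Stmt_THRE) (hTHRD : Stmt_THRD) (r : ℕ) (ε : ℝ)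
    (hr : 3 ≤ r) (hε : 0 < ε) : ∃ N0 : ℕ, ∀ N ≥ N0, ∀ j : ℕ,
    2 * r ≤ j + 1 → RgU r ε N j → Concl r ε N j := by
  obtain ⟨ε0, n1, hε0, H1⟩ := small_lin hS1 hSM0 hFIN3 hEBU hE2U hE3U hTN hGD hGE hLOWG hEXU hLAB
    hCANP hISOEU hTRANS hTRANS2 r ε hr hε
  obtain ⟨n2, H2⟩ := main_lin hSTR hTN hGD hGE hLOWG hEXD hEXE hISOD hISOE hTRANS hTHRE hTHRD r
    (min ε ε0) hr (lt_min hε hε0)
  refine ⟨n1 + n2, ?_⟩
  intro N hN j hj hRg
  have hN0 : (0 : ℝ) ≤ N := Nat.cast_nonneg N
  rcases lt_or_ge (j : ℝ) (ε0 * N) with h | h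
  · exact H1 N (by omega) j hj h hRg
  · have hRg' : Rg r (min ε ε0) N j := by
      refine ⟨le_trans (mul_le_mul_of_nonneg_right (min_le_right _ _) hN0) h, ?_⟩
      refine hRg.trans (mul_le_mul_of_nonneg_right ?_ hN0)
      have := min_le_left ε ε0
      linarith only [this]
    obtain ⟨lD, lE, a1, a2, a3, a4, a5, a6, a7⟩ := H2 N (by omega) j hRg'
    refine ⟨lD, lE, a1, a2, a3, a4, a5, fun h => a6 ?_, fun h => a7 ?_⟩
    · have := min_le_left ε ε0
      linarith only [h, this]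
    · have := min_le_left ε ε0
      linarith only [h, this]

end Pool.Agent.Work.MP_5532fa_up

end
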