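import Mathlib
import Pool.Agent.Work.MP_5532fa_full.P03
import Pool.Agent.Work.MP_5532fa_full.P20
import Pool.Agent.Work.MP_5532fa_full.P21

section

/-!
# MP_5532fa_co, upgrade, fourth round, block BIG: the largest class is as large as possible
-/

open Finset

namespace Pool.Agent.Work.MP_5532fa_up

open MP5532fa (specRad qf pE)

namespace BIG

theorem sum_dev {r n : ℕ} (hr : 3 ≤ r) {y : Fin r → ℝ} (h : ∑ i, y i = n) :
    ∑ i, (y i - n / r) = 0 := by
  have hr0 : (r : ℝ) ≠ 0 := by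
    have : 0 < r := by omega
    positivity
  rw [Finset.sum_sub_distrib, h, Finset.sum_const, Finset.card_univ, Fintype.card_fin,
    nsmul_eq_mul]
  field_simp
  ring

/-- the second moment -/
theorem mo2_eq {r n : ℕ} (hr : 3 ≤ r) {y : Fin r → ℝ} (h : ∑ i, y i = n) :
    mo 2 n y = ∑ i, y i ^ 2 - (n : ℝ) ^ 2 / r := by
  have hr0 : (r : ℝ) ≠ 0 := by
    have : 0 < r := by omega
    positivity
  unfold mo
  have e1 : ∀ i, (y i - n / r) ^ 2 = y i ^ 2 - 2 * ((n : ℝ) / r) * y i + (n / r) ^ 2 := by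
    intro i; ring
  simp only [e1]
  rw [Finset.sum_add_distrib, Finset.sum_sub_distrib, ← Finset.mul_sum, h, Finset.sum_const,
    Finset.card_univ, Fintype.card_fin, nsmul_eq_mul]
  field_simp
  ring

theorem dev_le {r n : ℕ} (y : Fin r → ℝ) (i : Fin r) : (y i - n / r) ^ 2 ≤ mo 2 n y := by
  unfold mo
  exact Finset.single_le_sum (f := fun i => (y i - (n : ℝ) / r) ^ 2)
    (fun i _ => sq_nonneg _) (Finset.mem_univ i)

/-- the deviations are small -/
theorem dev_small {r n : ℕ} {y : Fin r → ℝ} {δ : ℝ} (hδ : 0 < δ)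
    (h2 : mo 2 n y ≤ 4 * r * n) (hn : 4 * (r : ℝ) / δ ^ 2 ≤ n) (i : Fin r) :
    |y i - n / r| ≤ δ * n := by
  have hn0 : (0 : ℝ) ≤ n := Nat.cast_nonneg n
  apply abs_le_of_sq_le_sq _ (mul_nonneg hδ.le hn0)
  have h3 := (dev_le (n := n) y i).trans h2
  rw [div_le_iff₀ (by positivity)] at hn
  have h4 : 4 * (r : ℝ) * n ≤ (n * δ ^ 2) * n := mul_le_mul_of_nonneg_right hn hn0
  calc (y i - n / r) ^ 2 ≤ 4 * r * n := h3
    _ ≤ (n * δ ^ 2) * n := h4
    _ = (δ * n) ^ 2 := by ring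

/-- the secular function is decreasing -/
theorem Ph_anti {r : ℕ} {y : Fin r → ℝ} {s t : ℝ} (hy : ∀ i, 0 < y i) (hs : 0 ≤ s)
    (hst : s ≤ t) : Ph y t ≤ Ph y s := by
  unfold Ph
  have : ∑ i, y i / (t + y i) ≤ ∑ i, y i / (s + y i) := by
    refine Finset.sum_le_sum fun i _ => ?_
    have := hy i
    exact div_le_div_of_nonneg_left this.le (by linarith) (by linarith)
  linarith

/-- the spectral radius is nonnegative -/
theorem lam_nonneg {V : Type} [Fintype V] {G : SimpleGraph V} {x : V → ℝ} {lam : ℝ}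
    (h : PV G x lam) : 0 ≤ lam := by
  rw [← h.form]
  exact Finset.sum_nonneg fun u _ => Finset.sum_nonneg fun v _ =>
    mul_nonneg (chi_nonneg _) (mul_nonneg (h.nn u) (h.nn v))

/-- a graph `WD` with `r` edges at `w` is close to a complete multipartite graph -/
theorem wd_C0 {V : Type} [Fintype V] {r n : ℕ} {δ : ℝ} {G : SimpleGraph V} {H : Finset V}
    {c : V → Fin r} {w : V} {A : Finset V} {v1 v2 : V} (hr : 3 ≤ r) (hGD : Stmt_GD)
    (hW : WD G n H c w A v1 v2) (hA : A.card = r) (hbal : ∀ i, |sz H c i - n / r| ≤ δ * n)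
    (hn : 2 * (r : ℝ) ≤ δ * n) : C0 r δ n G c H := by
  obtain ⟨hv1H, hv2H, hv12, hprs⟩ := SM1b.wd_pair hW
  have hmis : (mis G H c : ℝ) = 2 := by
    rw [SM1b.mis_mH, SM1b.mH_pair hv1H hv2H hv12 hprs]; norm_num
  have hind : ∀ u ∈ H, ∀ v ∈ H, c u = c v → ¬ G.Adj u v := by
    intro u hu v hv huv hadj
    rcases (hW.adj u v).mp hadj with h | h | h
    · exact h.2.2.1 huv
    · exact hW.hw (h.1 ▸ hu)
    · exact hW.hw (h.1 ▸ hv)
  have e1 := (hGD r hr V G n H c w A v1 v2 hW).2.2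
  have e2 := blk_EID r V G c H hind
  have e3 := TRF.eo_dg G H
  have e4 : (0 : ℝ) ≤ ∑ v ∈ out H, (dg G H v : ℝ) := Finset.sum_nonneg fun v _ => Nat.cast_nonneg _
  have hr3 : (3 : ℝ) ≤ r := by exact_mod_cast hr
  rw [e1, hmis, hW.card, hA] at e2
  refine ⟨hW.card, hind, ?_, hbal, ?_⟩
  · rw [hmis]; linarith
  · linarith

/-- all but the choice of the constants -/
theorem core {V : Type} [Fintype V] {r n : ℕ} {δ e ε C C1 : ℝ} {G : SimpleGraph V}
    {H : Finset V} {c : V → Fin r} {w : V} {A : Finset V} {v1 v2 : V} {y : Fin r → ℕ}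
    {i1 : Fin r} (hr : 3 ≤ r) (hGD : Stmt_GD) (hMKD : Stmt_MKD) (hTNR : Stmt_TNR)
    (hS : ∀ (V : Type) [Fintype V] (G : SimpleGraph V) (x : V → ℝ) (lam : ℝ)
      (c : V → Fin r) (H : Finset V) (w : V) (A : Finset V) (v1 v2 : V), C0 r δ n G c H →
      PV G x lam → WD G n H c w A v1 v2 →
      2 - e * (1 + A.card) ≤ (n : ℝ) ^ 2 * Ph (sz H c) lam ∧
        (n : ℝ) ^ 2 * Ph (sz H c) lam ≤ 2 + e)
    (hT : ∀ (y z : Fin r → ℝ) (lam : ℝ), |lam - al r * n| ≤ 4 * r + 1 → ∑ i, y i = n →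
      ∑ i, z i = n → mo 2 n y ≤ (4 * r + 1) * n → mo 2 n z ≤ (4 * r + 1) * n →
      |(n : ℝ) ^ 2 / al r * (Ph y lam - Ph z lam)
      - ((mo 2 n z - mo 2 n y) + (mo 3 n y - mo 3 n z) / n + (mo 4 n z - mo 4 n y) / n ^ 2)|
      ≤ C / √(n : ℝ) + C * |mo 2 n y - mo 2 n z| / n)
    (hCU : ∀ (d d' : Fin r → ℝ) (R R' k : ℝ) (i1 : Fin r),
      ∑ i, d i = 0 → ∑ i, d' i = 0 → ∑ i, d i ^ 2 = R → ∑ i, d' i ^ 2 = R' → R ≤ 4 * r * n →
      R' ≤ 4 * r * n → -1 ≤ k → k ≤ 1 → (k < 1 → ∀ i, d i ≤ d' i1 + k) →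
      -1 ≤ d' i1 → R' ≤ (d' i1 + 1) ^ 2 * (r / (r - 1)) + r →
      ∑ i, d i ^ 3 + (∑ i, d' i ^ 4 - ∑ i, d i ^ 4) / n
        ≤ ∑ i, d' i ^ 3 + 3 * k * (r / (r - 1)) * R' + ε * n + C1 * √(n : ℝ) * |R - R'|)
    (hC : C0 r δ n G c H) (hlam : ∀ (x : V → ℝ) (lam : ℝ), PV G x lam →
      |lam - al r * n| ≤ 4 * r + 1) (hmx : MX r G) (hW : WD G n H c w A v1 v2)
    (hAr : A.card = r) (hy : ∑ i, y i = n) (hR1 : ε * n ≤ mo 2 n (re y))
    (hR2 : mo 2 n (re y) ≤ 4 * r * n) (hTop : Top1 y i1)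
    (hpE : pE G = (n : ℝ) ^ 2 - ∑ i, (y i : ℝ) ^ 2 + 2 * (r - 1)) (hε : 0 < ε) (hδ : 0 < δ)
    (hn0 : 0 < n) (hy2 : ∀ i, 2 ≤ y i) (hbal : ∀ i, |(y i : ℝ) - n / r| ≤ δ * n)
    (hn1 : 2 * (r : ℝ) ≤ δ * n) (he : e * (2 + r) ≤ ε / 4) (hC1 : C / √(n : ℝ) ≤ ε / 2) :
    ∃ i, (cl H c i).card = y i1 := by
  have hr3 : (3 : ℝ) ≤ r := by exact_mod_cast hr
  have hr0 : (0 : ℝ) < r := by linarith
  have hnR : (0 : ℝ) < n := by exact_mod_cast hn0
  by_contra hno
  push Not at hno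
  have hg := hGD r hr V G n H c w A v1 v2 hW
  -- the sums of the squares
  have hszsum : ∑ i, (cl H c i).card = ∑ i, y i := by rw [sum_card_cl, hW.card, hy]
  have hsq : ∑ i, sz H c i ^ 2 = ∑ i, (y i : ℝ) ^ 2 := by
    have h1 := hg.2.2
    rw [hpE, hAr] at h1
    linarith
  have hsqN : ∑ i, (cl H c i).card ^ 2 = ∑ i, y i ^ 2 := by
    have h1 : ((∑ i, (cl H c i).card ^ 2 : ℕ) : ℝ) = ((∑ i, y i ^ 2 : ℕ) : ℝ) := by
      push_cast
      exact hsq
    exact_mod_cast h1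
  have hle : ∀ i, (cl H c i).card ≤ y i1 := by
    intro i
    have h1 := hTop (fun i => ((cl H c i).card : ℤ)) (by exact_mod_cast hszsum)
      (by exact_mod_cast hsqN.le) i
    exact_mod_cast h1
  have hlt : ∀ i, sz H c i + 1 ≤ y i1 := by
    intro i
    have h1 : (cl H c i).card + 1 ≤ y i1 := by
      have h2 := hle i
      have h3 := hno i
      omega
    unfold sz
    exact_mod_cast h1
  have hs1 : ∑ i, sz H c i = n := by
    have h1 : ((∑ i, (cl H c i).card : ℕ) : ℝ) = ((n : ℕ) : ℝ) := by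
      rw [sum_card_cl, hW.card]
    push_cast at h1
    exact h1
  have hs2 : ∑ i, re y i = n := by
    unfold re
    exact_mod_cast hy
  have hmo : mo 2 n (sz H c) = mo 2 n (re y) := by
    rw [mo2_eq hr hs1, mo2_eq hr hs2, hsq]
    rfl
  -- the reference graph
  obtain ⟨c', A', u1, u2, hW', hAr', hsz'⟩ := hMKD r hr V H w y hW.hw (by rw [hy, hW.card])
    (fun i => le_trans (by norm_num) (hy2 i))
  rw [hW.card] at hW'
  obtain ⟨G', hG'⟩ : ∃ G', G' = gD H c' w A' u1 u2 := ⟨_, rfl⟩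
  rw [← hG'] at hW'
  have hsz'' : sz H c' = re y := by
    funext i
    unfold sz re
    rw [hsz' i]
  have hg' := hGD r hr V G' n H c' w A' u1 u2 hW'
  have hpE' : pE G' = pE G := by
    rw [hg'.2.2, hpE, hAr', hsz'']
    unfold re
    ring
  have hlam' : specRad G' ≤ specRad G :=
    hmx G' hg'.1 (hg'.2.1 (fun i => by rw [hsz' i]; exact hy2 i)) hpE'
  have hC' : C0 r δ n G' c' H := by
    refine wd_C0 hr hGD hW' hAr' ?_ hn1
    intro i
    rw [hsz'']
    exact hbal i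
  have hV : Nonempty V := ⟨w⟩
  obtain ⟨x, hx⟩ := exists_PV G
  obtain ⟨z, hz⟩ := exists_PV G'
  have s1 := (hS V G x _ c H w A v1 v2 hC hx hW).1
  have s2 := (hS V G' z _ c' H w A' u1 u2 hC' hz hW').2
  rw [hsz''] at s2
  rw [hAr] at s1
  have s3 : Ph (re y) (specRad G) ≤ Ph (re y) (specRad G') := by
    refine Ph_anti (fun i => ?_) (lam_nonneg hz) hlam'
    unfold re
    have := hy2 i
    have h2 : (2 : ℝ) ≤ y i := by exact_mod_cast this
    linarith
  have s4 : (n : ℝ) ^ 2 * Ph (re y) (specRad G) ≤ 2 + e :=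
    (mul_le_mul_of_nonneg_left s3 (by positivity)).trans s2
  -- expansion
  have hR2' : mo 2 n (re y) ≤ (4 * r + 1) * n := by linarith
  have t1 := hT (re y) (sz H c) (specRad G) (hlam x _ hx) hs2 hs1 hR2' (by rw [hmo]; exact hR2')
  rw [hmo] at t1
  simp only [sub_self, abs_zero, mul_zero, zero_div, add_zero, zero_add] at t1
  have t2 := (abs_le.mp t1).1
  have hal := al_ge hr
  have t3 : (n : ℝ) ^ 2 / al r * (Ph (re y) (specRad G) - Ph (sz H c) (specRad G)) ≤ ε / 2 := by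
    have h1 : (n : ℝ) ^ 2 / al r * (Ph (re y) (specRad G) - Ph (sz H c) (specRad G))
        = (n ^ 2 * Ph (re y) (specRad G) - n ^ 2 * Ph (sz H c) (specRad G)) / al r := by ring
    rw [h1, div_le_iff₀ (by linarith)]
    have h2 : (n : ℝ) ^ 2 * Ph (re y) (specRad G) - n ^ 2 * Ph (sz H c) (specRad G)
        ≤ ε / 4 := by linarith
    have h3 : ε / 2 * (2 / 3) ≤ ε / 2 * al r := mul_le_mul_of_nonneg_left hal (by linarith)
    linarith
  -- comparison of the moments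
  obtain ⟨q1, q2⟩ := hTNR r hr n y i1 hy hTop
  have c1 := hCU (fun i => sz H c i - n / r) (fun i => re y i - n / r) (mo 2 n (sz H c))
    (mo 2 n (re y)) (-1) i1 (sum_dev hr hs1) (sum_dev hr hs2) rfl rfl
    (by rw [hmo]; exact hR2) hR2 le_rfl (by norm_num) ?_ ?_ ?_
  · rw [hmo, sub_self, abs_zero, mul_zero, add_zero] at c1
    have c2 : mo 3 n (sz H c) + (mo 4 n (re y) - mo 4 n (sz H c)) / n
        ≤ mo 3 n (re y) + 3 * (-1) * (r / (r - 1)) * mo 2 n (re y) + ε * n := c1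
    have c3 : ε * n ≤ r / (r - 1) * mo 2 n (re y) := by
      have h1 : (1 : ℝ) ≤ r / (r - 1) := by
        rw [le_div_iff₀ (by linarith)]; linarith
      have h2 : 0 ≤ mo 2 n (re y) := le_trans (by positivity) hR1
      have h3 := mul_le_mul_of_nonneg_right h1 h2
      linarith
    have c4 : mo 3 n (sz H c) + (mo 4 n (re y) - mo 4 n (sz H c)) / n
        ≤ mo 3 n (re y) - 2 * ε * n := by linarith
    have c5 : 2 * ε ≤ (mo 3 n (re y) - mo 3 n (sz H c)) / n
        + (mo 4 n (sz H c) - mo 4 n (re y)) / n ^ 2 := by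
      have h1 : (mo 3 n (re y) - mo 3 n (sz H c)) / n
        + (mo 4 n (sz H c) - mo 4 n (re y)) / n ^ 2
          = (mo 3 n (re y) - mo 3 n (sz H c) - (mo 4 n (re y) - mo 4 n (sz H c)) / n) / n := by
        field_simp
        ring
      rw [h1, le_div_iff₀ hnR]
      linarith
    linarith
  · intro _ i
    have h1 := hlt i
    unfold re
    linarith
  · unfold re
    linarith
  · unfold re at q2 ⊢
    exact q2

end BIG

/-- **BIG** -/
theorem blk_BIG (h1 : Stmt_GD) (h2 : Stmt_SECD) (h3 : Stmt_LAM) (h4 : Stmt_TAY)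
    (h5 : Stmt_MKD) (h6 : Stmt_CUB) (h7 : Stmt_TNR) : Stmt_BIG := by
  intro r ε hr hε
  have hr3 : (3 : ℝ) ≤ r := by exact_mod_cast hr
  have hr0 : (0 : ℝ) < r := by linarith
  obtain ⟨e, he⟩ : ∃ e : ℝ, e = ε / (4 * (2 + r)) := ⟨_, rfl⟩
  have he0 : 0 < e := by rw [he]; positivity
  have he1 : e * (2 + r) ≤ ε / 4 := by
    rw [he]
    apply le_of_eq
    field_simp
  obtain ⟨dS, nS, hdS, HS⟩ := h2 r e hr he0
  obtain ⟨dL, nL, hdL, HL⟩ := h3 r hr
  obtain ⟨C, hC1, HT⟩ := h4 r (4 * r + 1) hr (by linarith)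
  obtain ⟨C1, nC, hC0, HC⟩ := h6 r (4 * r) ε hr (by positivity) hε
  obtain ⟨δ, hδ⟩ : ∃ δ : ℝ, δ = min (min dS dL) (1 / (2 * r)) := ⟨_, rfl⟩
  have hδ0 : 0 < δ := by
    rw [hδ]
    have : (0 : ℝ) < 1 / (2 * r) := by positivity
    exact lt_min (lt_min hdS hdL) this
  have hδS : δ ≤ dS := by rw [hδ]; exact (min_le_left _ _).trans (min_le_left _ _)
  have hδL : δ ≤ dL := by rw [hδ]; exact (min_le_left _ _).trans (min_le_right _ _)
  have hδr : δ ≤ 1 / (2 * r) := by rw [hδ]; exact min_le_right _ _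
  obtain ⟨n1, hn1⟩ := exists_nat_ge C
  obtain ⟨n2, hn2⟩ := exists_nat_ge (4 * (r : ℝ) / δ ^ 2)
  obtain ⟨n3, hn3⟩ := exists_nat_ge (2 * (r : ℝ) / δ)
  obtain ⟨n4, hn4⟩ := exists_nat_ge ((2 * C / ε) ^ 2)
  refine ⟨δ, nS + nL + nC + n1 + n2 + n3 + n4 + 4 * r, hδ0, ?_⟩
  intro n hn V _ G c H w A v1 v2 y i1 hC0' hsz hmx hW hAr hy hR1 hR2 hTop hpE
  have hnr : (4 * (r : ℝ)) ≤ n := by
    have : 4 * r ≤ n := by omega
    exact_mod_cast this
  have hnR : (0 : ℝ) < n := by linarith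
  have b1 : C ≤ n := hn1.trans (by exact_mod_cast (by omega : n1 ≤ n))
  have b2 : 4 * (r : ℝ) / δ ^ 2 ≤ n := hn2.trans (by exact_mod_cast (by omega : n2 ≤ n))
  have b3 : 2 * (r : ℝ) / δ ≤ n := hn3.trans (by exact_mod_cast (by omega : n3 ≤ n))
  have b4 : (2 * C / ε) ^ 2 ≤ n := hn4.trans (by exact_mod_cast (by omega : n4 ≤ n))
  have hbal : ∀ i, |(y i : ℝ) - n / r| ≤ δ * n := fun i => BIG.dev_small hδ0 hR2 b2 i
  have hy2 : ∀ i, 2 ≤ y i := by
    intro i
    have h1 := (abs_le.mp (hbal i)).1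
    have h2 : δ * n ≤ 1 / (2 * r) * n := mul_le_mul_of_nonneg_right hδr hnR.le
    have h3 : (n : ℝ) / r = 2 * (1 / (2 * r) * n) := by field_simp
    have h4 : 2 ≤ 1 / (2 * (r : ℝ)) * n := by
      rw [one_div, inv_mul_eq_div, le_div_iff₀ (by positivity)]
      linarith
    have h5 : (2 : ℝ) ≤ y i := by linarith
    exact_mod_cast h5
  refine BIG.core (C := C) (C1 := C1) hr h1 h5 h7 ?_ ?_ ?_ hC0' ?_ hmx hW hAr hy hR1 hR2 hTop hpE
    hε hδ0 (by exact_mod_cast hnR) hy2 hbal ?_ he1 ?_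
  · intro V' _ G' x lam c' H' w' A' u1 u2 hC' hx hW'
    exact HS n (by omega) V' G' x lam c' H' w' A' u1 u2 (hC'.mono hδS) hx hW'
  · intro y' z' lam a1 a2 a3 a4 a5
    exact HT n y' z' lam b1 a1 a2 a3 a4 a5
  · exact HC n (by omega)
  · intro x lam hx
    exact HL n (by omega) V G x lam c H (hC0'.mono hδL) hsz hx
  · rw [div_le_iff₀ hδ0] at b3
    linarith
  · have hsq : 2 * C / ε ≤ √(n : ℝ) := Real.le_sqrt_of_sq_le b4
    have hs0 : 0 < √(n : ℝ) := Real.sqrt_pos.mpr hnR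
    rw [div_le_iff₀ hs0]
    rw [div_le_iff₀ hε] at hsq
    linarith

end Pool.Agent.Work.MP_5532fa_up

end

section

/-! # Block TSB: geometry of numbers for a ternary form (Minkowski) -/

set_option autoImplicit false

namespace Pool.Agent.Work.MP_5532fa_up

open MeasureTheory Module

namespace TSBw

/-- the linear map of the ternary form -/
noncomputable def mat (n q : ℕ) (b t : ℤ) : Matrix (Fin 3) (Fin 3) ℝ :=
  !![2 * (t : ℝ) * q, (t : ℝ) * b, (n : ℝ);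
     √(2 * (q : ℝ)), (b : ℝ) / √(2 * (q : ℝ)), 0;
     0, √(n : ℝ) / √(2 * (q : ℝ)), 0]

theorem mat_det (n q : ℕ) (b t : ℤ) (hq : 0 < q) :
    (mat n q b t).det = n * √(n : ℝ) := by
  have h0 : √(2 * (q : ℝ)) ≠ 0 := by positivity
  rw [Matrix.det_fin_three]
  simp [mat]
  field_simp

/-- the open ball in coordinates -/
def ball3 (c : ℝ) : Set (Fin 3 → ℝ) := {v | v 0 ^ 2 + v 1 ^ 2 + v 2 ^ 2 < c ^ 2}

theorem ball3_eq (c : ℝ) (hc : 0 < c) :
    (@WithLp.toLp 2 (Fin 3 → ℝ)) ⁻¹' (Metric.ball (0 : EuclideanSpace ℝ (Fin 3)) c) = ball3 c := by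
  ext v
  rw [Set.mem_preimage, mem_ball_zero_iff, EuclideanSpace.norm_eq, ball3, Set.mem_ofPred_eq,
    Real.sqrt_lt' hc, Fin.sum_univ_three]
  simp

theorem vol_ball3 (c : ℝ) (hc : 0 < c) :
    volume (ball3 c) = ENNReal.ofReal c ^ 3 * ENNReal.ofReal (Real.pi * 4 / 3) := by
  rw [← EuclideanSpace.volume_ball_fin_three (0 : EuclideanSpace ℝ (Fin 3)) c, ← ball3_eq c hc]
  exact (PiLp.volume_preserving_toLp (Fin 3)).measure_preimage
    (measurableSet_ball.nullMeasurableSet)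

theorem ball3_symm (c : ℝ) : ∀ v ∈ ball3 c, -v ∈ ball3 c := by
  intro v hv
  simp only [ball3, Set.mem_ofPred_eq, Pi.neg_apply, neg_sq] at hv ⊢
  exact hv

theorem ball3_conv (c : ℝ) (hc : 0 < c) : Convex ℝ (ball3 c) := by
  rw [← ball3_eq c hc]
  exact (convex_ball (0 : EuclideanSpace ℝ (Fin 3)) c).linear_preimage
    (WithLp.linearEquiv 2 ℝ (Fin 3 → ℝ)).symm.toLinearMap

/-- eight times the covolume is less than the volume of the ellipsoid -/
theorem vol_ineq (n : ℕ) (hn : 0 < n) :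
    (8 : ENNReal) < ENNReal.ofReal |((n : ℝ) * √(n : ℝ))⁻¹| *
      (ENNReal.ofReal (√(2 * (n : ℝ))) ^ 3 * ENNReal.ofReal (Real.pi * 4 / 3)) := by
  have hn0 : (0 : ℝ) < n := by exact_mod_cast hn
  have hsn : 0 < √(n : ℝ) := Real.sqrt_pos.mpr hn0
  have hsn2 : √(n : ℝ) ^ 2 = n := Real.sq_sqrt hn0.le
  have h2 : √(2 * (n : ℝ)) = √2 * √(n : ℝ) := Real.sqrt_mul (by norm_num) _
  have hs2 : √(2 : ℝ) ^ 2 = 2 := Real.sq_sqrt (by norm_num)
  have h14 : (1.41 : ℝ) ≤ √2 := by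
    rw [show (1.41 : ℝ) = √(1.41 ^ 2) by rw [Real.sqrt_sq (by norm_num)]]
    exact Real.sqrt_le_sqrt (by norm_num)
  rw [← ENNReal.ofReal_pow (Real.sqrt_nonneg _), ← ENNReal.ofReal_mul (by positivity),
    ← ENNReal.ofReal_mul (abs_nonneg _), abs_of_pos (by positivity), h2]
  have h3 : ((n : ℝ) * √(n : ℝ))⁻¹ * ((√2 * √(n : ℝ)) ^ 3 * (Real.pi * 4 / 3)) =
      2 * √2 * (Real.pi * 4 / 3) := by
    have h4 : (√2 * √(n : ℝ)) ^ 3 = 2 * √2 * (n * √(n : ℝ)) := by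
      calc (√2 * √(n : ℝ)) ^ 3 = (√2 ^ 2 * √2) * (√(n : ℝ) ^ 2 * √(n : ℝ)) := by ring
        _ = 2 * √2 * (n * √(n : ℝ)) := by rw [hs2, hsn2]
    rw [h4]
    have h5 : (n : ℝ) * √(n : ℝ) ≠ 0 := by positivity
    field_simp
  rw [h3]
  have h6 : (8 : ENNReal) = ENNReal.ofReal 8 := by norm_num
  rw [h6]
  refine (ENNReal.ofReal_lt_ofReal_iff (by positivity)).mpr ?_
  have hpi := Real.pi_gt_three
  nlinarith

end TSBw

theorem blk_TSB : Stmt_TSB := by
  intro n q b h t hn hq hb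
  have hn0 : (0 : ℝ) < n := by exact_mod_cast hn
  have hq0 : (0 : ℝ) < q := by exact_mod_cast hq
  have hc : 0 < √(2 * (n : ℝ)) := by positivity
  have hdet : LinearMap.det (Matrix.toLin' (TSBw.mat n q b t)) = n * √(n : ℝ) := by
    rw [LinearMap.det_toLin', TSBw.mat_det n q b t hq]
  have hdet0 : LinearMap.det (Matrix.toLin' (TSBw.mat n q b t)) ≠ 0 := by
    rw [hdet]
    positivity
  set f := Matrix.toLin' (TSBw.mat n q b t) with hf
  have fund := ZSpan.isAddFundamentalDomain' (Pi.basisFun ℝ (Fin 3))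
    (volume : Measure (Fin 3 → ℝ))
  have hvol : volume (ZSpan.fundamentalDomain (Pi.basisFun ℝ (Fin 3))) *
      2 ^ finrank ℝ (Fin 3 → ℝ) < volume (f ⁻¹' (TSBw.ball3 (√(2 * (n : ℝ))))) := by
    rw [Measure.addHaar_preimage_linearMap volume hdet0, TSBw.vol_ball3 _ hc, hdet,
      ZSpan.fundamentalDomain_pi_basisFun, volume_pi, Measure.pi_pi]
    have h1 := TSBw.vol_ineq n hn
    simp only [Real.volume_Ico, sub_zero, ENNReal.ofReal_one, Finset.prod_const_one, one_mul,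
      finrank_fin_fun]
    norm_num at h1 ⊢
    exact h1
  have hcount : Countable
      (Submodule.span ℤ (Set.range (Pi.basisFun ℝ (Fin 3)))).toAddSubgroup := by
    change Countable (Submodule.span ℤ (Set.range (Pi.basisFun ℝ (Fin 3))))
    infer_instance
  obtain ⟨x, hx0, hxs⟩ := exists_ne_zero_mem_lattice_of_measure_mul_two_pow_lt_measure fund
    (fun v hv => by
      rw [Set.mem_preimage] at hv ⊢
      rw [map_neg]
      exact TSBw.ball3_symm _ _ hv)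
    ((TSBw.ball3_conv _ hc).linear_preimage f) hvol
  have hint : ∀ i, ∃ m : ℤ, (m : ℝ) = (x : Fin 3 → ℝ) i := by
    intro i
    have h1 : (x : Fin 3 → ℝ) ∈ Submodule.span ℤ (Set.range (Pi.basisFun ℝ (Fin 3))) := x.2
    rw [(Pi.basisFun ℝ (Fin 3)).mem_span_iff_repr_mem ℤ] at h1
    obtain ⟨m, hm⟩ := h1 i
    exact ⟨m, by simpa using hm⟩
  obtain ⟨x0, h0⟩ := hint 0
  obtain ⟨y0, h1⟩ := hint 1
  obtain ⟨z0, h2⟩ := hint 2
  refine ⟨x0, y0, z0, ?_, ?_⟩
  · rintro ⟨rfl, rfl, rfl⟩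
    apply hx0
    apply Subtype.ext
    funext i
    fin_cases i
    · simpa using h0.symm
    · simpa using h1.symm
    · simpa using h2.symm
  · have h3 : ∀ i, f (x : Fin 3 → ℝ) i = ∑ j, TSBw.mat n q b t i j * (x : Fin 3 → ℝ) j := by
      intro i
      rw [hf, Matrix.toLin'_apply]
      rfl
    have h4 : f (x : Fin 3 → ℝ) 0 ^ 2 + f (x : Fin 3 → ℝ) 1 ^ 2 + f (x : Fin 3 → ℝ) 2 ^ 2 <
        √(2 * (n : ℝ)) ^ 2 := hxs
    rw [Real.sq_sqrt (by positivity), h3, h3, h3] at h4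
    simp only [Fin.sum_univ_three, TSBw.mat, Matrix.of_apply, Matrix.cons_val', Matrix.cons_val,
      ← h0, ← h1, ← h2] at h4
    have hs : √(2 * (q : ℝ)) ^ 2 = 2 * q := Real.sq_sqrt (by positivity)
    have hs0 : √(2 * (q : ℝ)) ≠ 0 := by positivity
    have hm : √(n : ℝ) ^ 2 = n := Real.sq_sqrt hn0.le
    have hb' : (b : ℝ) ^ 2 - 4 * q * h = -n := by exact_mod_cast hb
    have h5 : (√(2 * (q : ℝ)) * (x0 : ℝ) + b / √(2 * (q : ℝ)) * y0 + 0 * z0) ^ 2 +
        (0 * x0 + √(n : ℝ) / √(2 * (q : ℝ)) * y0 + 0 * z0) ^ 2 =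
        2 * (q * x0 ^ 2 + b * x0 * y0 + h * y0 ^ 2) := by
      have e1 : (√(2 * (q : ℝ)) * (x0 : ℝ) + b / √(2 * (q : ℝ)) * y0 + 0 * z0) ^ 2 =
          √(2 * (q : ℝ)) ^ 2 * x0 ^ 2 + 2 * b * x0 * y0 + b ^ 2 / √(2 * (q : ℝ)) ^ 2 * y0 ^ 2 := by
        field_simp
        ring
      have e2 : (0 * (x0 : ℝ) + √(n : ℝ) / √(2 * (q : ℝ)) * y0 + 0 * z0) ^ 2 =
          √(n : ℝ) ^ 2 / √(2 * (q : ℝ)) ^ 2 * y0 ^ 2 := by
        field_simp
        ring
      rw [e1, e2, hs, hm]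
      have e3 : (n : ℝ) = 4 * q * h - b ^ 2 := by linarith
      rw [e3]
      field_simp
      ring
    have h6 : ((2 * t * q * x0 + t * b * y0 + n * z0 : ℤ) : ℝ) ^ 2 +
        2 * (q * x0 ^ 2 + b * x0 * y0 + h * y0 ^ 2) < 2 * n := by
      push_cast
      linarith [h4, h5]
    exact_mod_cast h6

end Pool.Agent.Work.MP_5532fa_up

end

section

/-!
# Block GDS: almost balanced vectors are good
-/

open Finset

namespace Pool.Agent.Work.MP_5532fa_up

namespace GDSp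

theorem sumdev {r : ℕ} (hr : 3 ≤ r) (n : ℕ) (y : Fin r → ℕ) (h : ∑ i, y i = n) :
    ∑ i, (re y i - (n:ℝ) / r) = 0 := by
  have hr0 : (r:ℝ) ≠ 0 := by
    have : 0 < r := by omega
    positivity
  have h' : ∑ i, re y i = n := by
    rw [← h]; push_cast; rfl
  rw [Finset.sum_sub_distrib, h', Finset.sum_const, Finset.card_univ, Fintype.card_fin, nsmul_eq_mul]
  field_simp
  ring

/-- elementary bounds from the last items of CU1 -/
theorem mobd (hCU1 : Stmt_CU1) {r : ℕ} (hr : 3 ≤ r) (n : ℕ) (y : Fin r → ℕ)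
    (h : ∑ i, y i = n) : 0 ≤ mo 2 n (re y) ∧ |mo 3 n (re y)| ≤ mo 2 n (re y) * √(mo 2 n (re y)) ∧
      mo 4 n (re y) ≤ mo 2 n (re y) ^ 2 ∧ 0 ≤ mo 4 n (re y) := by
  have h5 := (hCU1 r hr (fun i => re y i - (n:ℝ) / r) (mo 2 n (re y)) (sumdev hr n y h) rfl).2.2.2.2
  refine ⟨?_, h5.1, h5.2, ?_⟩
  · exact Finset.sum_nonneg fun i _ => by positivity
  · exact Finset.sum_nonneg fun i _ => by positivity

/-- the real inequality -/
theorem core (r η n Ry Rz m3y m3z m4y m4z X : ℝ) (hr : 0 < r) (hη : 0 < η) (hη4 : η ≤ 1 / 4)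
    (hn : 16 / η ≤ n) (hRy : 0 ≤ Ry) (hRz : 0 ≤ Rz) (h3y : |m3y| ≤ Ry * √Ry)
    (h3z : |m3z| ≤ Rz * √Rz) (h4y : m4y ≤ Ry ^ 2) (h4z : 0 ≤ m4z)
    (hc : Ry ^ 3 ≤ (η / 16) ^ 2 * n ^ 2) (hRzn : Rz ≤ 4 * r * n) (hX : 0 ≤ X) :
    m3z + (m4y - m4z) / n ≤ m3y + η * n + (4 * √r) * √n * |Rz - Ry| + X := by
  have hn0 : 0 < n := lt_of_lt_of_le (by positivity) hn
  have hηn : 16 ≤ η * n := by
    rw [div_le_iff₀ hη] at hn; linarith
  -- Ry √Ry ≤ η/16 n
  have hA : Ry * √Ry ≤ η / 16 * n := by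
    apply abs_le_of_sq_le_sq' _ (by positivity) |>.2
    have : (Ry * √Ry) ^ 2 = Ry ^ 3 := by
      rw [mul_pow, Real.sq_sqrt hRy]; ring
    rw [this]
    calc Ry ^ 3 ≤ (η / 16) ^ 2 * n ^ 2 := hc
      _ = (η / 16 * n) ^ 2 := by ring
  -- m4y / n ≤ η/16 n
  have hB : m4y / n ≤ η / 16 * n := by
    rw [div_le_iff₀ hn0]
    refine h4y.trans ?_
    rcases le_or_gt Ry 1 with h1 | h1
    · have : Ry ^ 2 ≤ 1 := by
        have := mul_le_mul h1 h1 hRy zero_le_one
        linarith [sq Ry]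
      have h2 : 1 ≤ η / 16 * n * n := by
        have h3 : 1 ≤ η / 16 * n := by linarith
        have h4 : 1 ≤ n := by
          have : η * n ≤ 1 / 4 * n := mul_le_mul_of_nonneg_right hη4 hn0.le
          linarith
        have := mul_le_mul h3 h4 zero_le_one (by positivity : 0 ≤ η / 16 * n)
        linarith
      linarith
    · have h2 : Ry ^ 2 ≤ Ry ^ 3 := pow_le_pow_right₀ h1.le (by norm_num)
      have h3 : (η / 16) ^ 2 * n ^ 2 ≤ η / 16 * n * n := by
        have : (η / 16) ^ 2 ≤ η / 16 := by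
          have h4 : η / 16 ≤ 1 := by linarith
          have := mul_le_mul_of_nonneg_left h4 (by positivity : 0 ≤ η / 16)
          rw [sq]; linarith
        calc (η / 16) ^ 2 * n ^ 2 ≤ η / 16 * n ^ 2 := mul_le_mul_of_nonneg_right this (by positivity)
          _ = η / 16 * n * n := by ring
      linarith
  have hD : (m4y - m4z) / n ≤ η / 16 * n := by
    have : (m4y - m4z) / n ≤ m4y / n := div_le_div_of_nonneg_right (by linarith) hn0.le
    linarith
  have hE : - m3y ≤ η / 16 * n := by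
    have := neg_abs_le m3y
    linarith
  -- Rz √Rz
  have hF : Rz * √Rz ≤ 3 * (η / 16) * n + (4 * √r) * √n * |Rz - Ry| := by
    have hΔ : 0 ≤ |Rz - Ry| := abs_nonneg _
    have hΔ2 : Rz - Ry ≤ |Rz - Ry| := le_abs_self _
    have hnn : 0 ≤ (4 * √r) * √n * |Rz - Ry| := by positivity
    rcases le_or_gt Ry |Rz - Ry| with h1 | h1
    · have h2 : Rz ≤ 2 * |Rz - Ry| := by linarith
      have h3 : √Rz ≤ 2 * √r * √n := by
        rw [show 2 * √r * √n = √(4 * r * n) by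
          rw [Real.sqrt_mul (by positivity), Real.sqrt_mul (by norm_num),
            show (4:ℝ) = 2 ^ 2 by norm_num, Real.sqrt_sq (by norm_num)]]
        exact Real.sqrt_le_sqrt hRzn
      have h4 : Rz * √Rz ≤ (2 * |Rz - Ry|) * (2 * √r * √n) :=
        mul_le_mul h2 h3 (Real.sqrt_nonneg _) (by positivity)
      have h5 : 0 ≤ 3 * (η / 16) * n := by positivity
      have h6 : (2 * |Rz - Ry|) * (2 * √r * √n) = (4 * √r) * √n * |Rz - Ry| := by ring
      linarith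
    · have h2 : Rz ≤ 2 * Ry := by linarith
      have h3 : √Rz ≤ √2 * √Ry := by
        rw [← Real.sqrt_mul (by norm_num)]
        exact Real.sqrt_le_sqrt h2
      have h4 : Rz * √Rz ≤ (2 * Ry) * (√2 * √Ry) :=
        mul_le_mul h2 h3 (Real.sqrt_nonneg _) (by positivity)
      have h5 : √2 ≤ 3 / 2 := by
        rw [Real.sqrt_le_left (by norm_num)]; norm_num
      have h6 : (2 * Ry) * (√2 * √Ry) = 2 * √2 * (Ry * √Ry) := by ring
      have h7 : 2 * √2 * (Ry * √Ry) ≤ 3 * (Ry * √Ry) :=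
        mul_le_mul_of_nonneg_right (by linarith) (by positivity)
      linarith
  have hG : m3z ≤ Rz * √Rz := (le_abs_self _).trans h3z
  have hH : 0 < η * n := by positivity
  linarith

end GDSp

open GDSp in
theorem blk_GDS (hCU1 : Stmt_CU1) : Stmt_GDS := by
  intro r η hr hη hη4
  have hr0 : (0:ℝ) < r := by
    have : 0 < r := by omega
    exact_mod_cast this
  refine ⟨(η / 16) ^ 2, 4 * √r, ⌈16 / η⌉₊, by positivity, by positivity, ?_⟩
  intro n hn y hy hc z hz hzn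
  obtain ⟨a1, a2, a3, a4⟩ := mobd hCU1 hr n y hy
  obtain ⟨b1, b2, b3, b4⟩ := mobd hCU1 hr n z hz
  have hX : 0 ≤ (2 - 4 * η) * n * chi (mo 2 n (re y) < mo 2 n (re z)) := by
    have : 0 ≤ chi (mo 2 n (re y) < mo 2 n (re z)) := by
      unfold chi; split_ifs <;> norm_num
    have h2 : 0 ≤ 2 - 4 * η := by linarith
    positivity
  exact core r η n _ _ _ _ _ _ _ hr0 hη hη4 (Nat.ceil_le.mp hn) a1 b1 a2 b2 a3 b4 hc hzn hX

end Pool.Agent.Work.MP_5532fa_up

end

section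

/-!
# Block GDT: vectors with the largest possible entry are good
-/

open Finset

namespace Pool.Agent.Work.MP_5532fa_up

namespace GDTp

theorem sumre {r : ℕ} (n : ℕ) (y : Fin r → ℕ) (h : ∑ i, y i = n) : ∑ i, re y i = n := by
  rw [← h]; push_cast; rfl

theorem sumdev {r : ℕ} (hr : 3 ≤ r) (n : ℕ) (y : Fin r → ℕ) (h : ∑ i, y i = n) :
    ∑ i, (re y i - (n:ℝ) / r) = 0 := by
  have hr0 : (r:ℝ) ≠ 0 := by
    have : 0 < r := by omega
    positivity
  rw [Finset.sum_sub_distrib, sumre n y h, Finset.sum_const, Finset.card_univ, Fintype.card_fin,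
    nsmul_eq_mul]
  field_simp
  ring

theorem mo2eq {r : ℕ} (hr : 3 ≤ r) (n : ℕ) (y : Fin r → ℕ) (h : ∑ i, y i = n) :
    mo 2 n (re y) = ∑ i, re y i ^ 2 - (n:ℝ) ^ 2 / r := by
  have hr0 : (r:ℝ) ≠ 0 := by
    have : 0 < r := by omega
    positivity
  unfold mo
  have h1 : ∀ i, (re y i - (n:ℝ) / r) ^ 2 = re y i ^ 2 - 2 * ((n:ℝ) / r) * re y i
      + ((n:ℝ) / r) ^ 2 := fun i => by ring
  rw [Finset.sum_congr rfl fun i _ => h1 i, Finset.sum_add_distrib, Finset.sum_sub_distrib,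
    ← Finset.mul_sum, sumre n y h, Finset.sum_const, Finset.card_univ, Fintype.card_fin,
    nsmul_eq_mul]
  field_simp
  ring

/-- from the order of the second moments to the entries -/
theorem topz {r : ℕ} (hr : 3 ≤ r) (n : ℕ) (y z : Fin r → ℕ) (i1 : Fin r) (hy : ∑ i, y i = n)
    (hz : ∑ i, z i = n) (hT : Top1 y i1) (hle : mo 2 n (re z) ≤ mo 2 n (re y)) :
    ∀ i, z i ≤ y i1 := by
  rw [mo2eq hr n y hy, mo2eq hr n z hz] at hle
  have h1 : ∑ i, re z i ^ 2 ≤ ∑ i, re y i ^ 2 := by linarith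
  have h2 : ∑ i, ((z i : ℤ)) ^ 2 ≤ ∑ i, (y i : ℤ) ^ 2 := by
    have e1 : ((∑ i, ((z i : ℤ)) ^ 2 : ℤ) : ℝ) = ∑ i, re z i ^ 2 := by
      push_cast; rfl
    have e2 : ((∑ i, ((y i : ℤ)) ^ 2 : ℤ) : ℝ) = ∑ i, re y i ^ 2 := by
      push_cast; rfl
    rw [← e1, ← e2] at h1
    exact_mod_cast h1
  have h3 : ∑ i, ((z i : ℤ)) = ∑ i, (y i : ℤ) := by
    rw [← Nat.cast_sum, ← Nat.cast_sum, hy, hz]
  intro i
  have := hT (fun i => (z i : ℤ)) h3 h2 i
  exact_mod_cast this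

/-- the coefficient in the second case -/
theorem coef {r : ℕ} (hr : 3 ≤ r) (ε η n Ry : ℝ) (hε : 0 < ε) (hη : η ≤ ε / 2) (hn : 0 ≤ n)
    (hR : Ry ≤ (2 / 3 * al r - ε) * n) :
    3 * 1 * ((r:ℝ) / (r - 1)) * Ry ≤ (2 - 4 * η) * n := by
  have hr3 : (3:ℝ) ≤ r := by exact_mod_cast hr
  have h1 : (0:ℝ) < r - 1 := by linarith
  have h2 : (r:ℝ) / (r - 1) * al r = 1 := by
    unfold al
    field_simp
  have h3 : 1 ≤ (r:ℝ) / (r - 1) := by
    rw [le_div_iff₀ h1]; linarith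
  have h4 : 3 * 1 * ((r:ℝ) / (r - 1)) * Ry ≤ 3 * 1 * ((r:ℝ) / (r - 1)) * ((2 / 3 * al r - ε) * n) :=
    mul_le_mul_of_nonneg_left hR (by positivity)
  have h5 : 3 * 1 * ((r:ℝ) / (r - 1)) * ((2 / 3 * al r - ε) * n)
      = 2 * ((r:ℝ) / (r - 1) * al r) * n - 3 * ((r:ℝ) / (r - 1)) * ε * n := by ring
  rw [h5, h2] at h4
  have h6 : ε * n ≤ ((r:ℝ) / (r - 1)) * (ε * n) := by
    have := mul_le_mul_of_nonneg_right h3 (by positivity : 0 ≤ ε * n)
    linarith
  have h7 : η * n ≤ ε / 2 * n := mul_le_mul_of_nonneg_right hη hn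
  have h8 : 0 ≤ ε * n := by positivity
  have h9 : 3 * ((r:ℝ) / (r - 1)) * ε * n = 3 * (((r:ℝ) / (r - 1)) * (ε * n)) := by ring
  linarith

end GDTp

open GDTp in
theorem blk_GDT (hCUB : Stmt_CUB) (hTNR : Stmt_TNR) : Stmt_GDT := by
  intro r ε η hr hε hη hηε
  have hr3 : (3:ℝ) ≤ r := by exact_mod_cast hr
  obtain ⟨C, n0, hC, hmain⟩ := hCUB r (4 * r) η hr (by positivity) hη
  refine ⟨C, n0, hC, ?_⟩
  intro n hn y i1 hy hRy hT z hz hRz
  obtain ⟨hd0, hdR⟩ := hTNR r hr n y i1 hy hT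
  have hn0 : (0:ℝ) ≤ n := Nat.cast_nonneg n
  have hRy4 : mo 2 n (re y) ≤ 4 * r * n := by
    refine hRy.trans ?_
    apply mul_le_mul_of_nonneg_right _ hn0
    have : al r ≤ 1 := by
      unfold al
      have : 0 ≤ 1 / (r:ℝ) := by positivity
      linarith
    linarith
  have hz0 := sumdev hr n z hz
  have hy0 := sumdev hr n y hy
  have hd1 : -1 ≤ (fun i => re y i - (n:ℝ) / r) i1 := by
    have : re y i1 - (n:ℝ) / r = (y i1 : ℝ) - n / r := rfl
    show -1 ≤ re y i1 - (n:ℝ) / r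
    rw [this]; linarith
  rcases le_or_gt (mo 2 n (re z)) (mo 2 n (re y)) with hc | hc
  · have hle := topz hr n y z i1 hy hz hT hc
    have := hmain n hn (fun i => re z i - (n:ℝ) / r) (fun i => re y i - (n:ℝ) / r)
      (mo 2 n (re z)) (mo 2 n (re y)) 0 i1 hz0 hy0 rfl rfl hRz hRy4 (by norm_num) (by norm_num)
      (fun _ i => by
        have h1 : (z i : ℝ) ≤ y i1 := by exact_mod_cast hle i
        show re z i - (n:ℝ) / r ≤ re y i1 - (n:ℝ) / r + 0
        unfold re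
        linarith) hd1 hdR
    rw [chi_neg (not_lt.mpr hc)]
    unfold mo at this ⊢
    linarith
  · have := hmain n hn (fun i => re z i - (n:ℝ) / r) (fun i => re y i - (n:ℝ) / r)
      (mo 2 n (re z)) (mo 2 n (re y)) 1 i1 hz0 hy0 rfl rfl hRz hRy4 (by norm_num) (by norm_num)
      (fun h _ => absurd h (lt_irrefl _)) hd1 hdR
    rw [chi_pos hc]
    have h2 := coef hr ε η n (mo 2 n (re y)) hε hηε hn0 hRy
    unfold mo at this h2 ⊢
    linarith

end Pool.Agent.Work.MP_5532fa_up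

end

section

/-! Block TNR: an entry which is as large as possible is almost the largest possible real
number. -/

open Finset

namespace Pool.Agent.Work.MP_5532fa_up

namespace TNR

/-- a balanced integer vector -/
theorem balanced (r' : ℕ) (hr : 0 < r') (M : ℤ) : ∃ g : Fin r' → ℤ, ∑ j, g j = M ∧
    ∀ j, |(g j : ℝ) - M / r'| ≤ 1 := by
  have hr0 : (r' : ℤ) ≠ 0 := by exact_mod_cast hr.ne'
  have hrz : (0 : ℤ) < r' := by exact_mod_cast hr
  have hrr : (0 : ℝ) < r' := by exact_mod_cast hr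
  refine ⟨fun j => (M * ((j : ℕ) + 1 : ℕ)) / r' - (M * ((j : ℕ) : ℕ)) / r', ?_, fun j => ?_⟩
  · rw [Fin.sum_univ_eq_sum_range (fun j : ℕ => (M * ((j + 1 : ℕ) : ℤ)) / r' -
      (M * ((j : ℕ) : ℤ)) / r') r', sum_range_sub (fun j : ℕ => (M * (j : ℤ)) / r')]
    rw [Int.mul_ediv_cancel _ hr0]
    simp
  · have key : ∀ a : ℤ, ((a / (r' : ℤ) : ℤ) : ℝ) ≤ (a : ℝ) / r' ∧
        (a : ℝ) / r' - 1 < ((a / (r' : ℤ) : ℤ) : ℝ) := by
      intro a
      constructor
      · rw [le_div_iff₀ hrr]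
        have h1 : a / (r' : ℤ) * r' ≤ a := Int.ediv_mul_le a hr0
        exact_mod_cast h1
      · rw [sub_lt_iff_lt_add, div_lt_iff₀ hrr]
        have h1 : a < (a / (r' : ℤ) + 1) * r' := by
          have := Int.lt_ediv_add_one_mul_self a hrz
          linarith
        exact_mod_cast h1
    have h1 := key (M * ((j : ℕ) + 1 : ℕ))
    have h2 := key (M * ((j : ℕ) : ℕ))
    have e : ((M * ((j : ℕ) + 1 : ℕ) : ℤ) : ℝ) / r' = ((M * ((j : ℕ) : ℕ) : ℤ) : ℝ) / r' +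
        M / r' := by
      push_cast
      field_simp
    rw [e] at h1
    rw [abs_le]
    constructor
    · push_cast at h1 h2 ⊢
      linarith [h1.2, h2.1]
    · push_cast at h1 h2 ⊢
      linarith [h1.1, h2.2]

end TNR

theorem blk_TNR : Stmt_TNR := by
  intro r hr n y i1 hsum htop
  have hr0 : (0 : ℝ) < r := by
    have : (3 : ℝ) ≤ r := by exact_mod_cast hr
    linarith
  have hsumR : ∑ i, (y i : ℝ) = n := by exact_mod_cast hsum
  have hle : ∀ i, y i ≤ y i1 := by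
    intro i
    have h := htop (fun i => (y i : ℤ)) rfl le_rfl i
    exact_mod_cast h
  constructor
  · have h1 : ∑ i, (y i : ℝ) ≤ ∑ _i : Fin r, (y i1 : ℝ) :=
      sum_le_sum fun i _ => by exact_mod_cast hle i
    rw [sum_const, card_univ, Fintype.card_fin, nsmul_eq_mul, hsumR] at h1
    rw [sub_nonneg, div_le_iff₀ hr0]
    linarith
  · obtain ⟨r', rfl⟩ : ∃ r', r = r' + 1 := ⟨r - 1, by omega⟩
    have hr'0 : 0 < r' := by omega
    have hrr : (0 : ℝ) < r' := by exact_mod_cast hr'0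
    by_contra hcon
    push Not at hcon
    set a : ℤ := (y i1 : ℤ) + 1 with ha
    obtain ⟨g, hg1, hg2⟩ := TNR.balanced r' hr'0 ((n : ℤ) - a)
    let z : Fin (r' + 1) → ℤ := Fin.insertNth (α := fun _ => ℤ) i1 a g
    have hz1 : z i1 = a := Fin.insertNth_apply_same (α := fun _ => ℤ) i1 a g
    have hz2 : ∀ j, z (i1.succAbove j) = g j :=
      fun j => Fin.insertNth_apply_succAbove (α := fun _ => ℤ) i1 a g j
    have hzs : ∑ i, z i = n := by
      rw [Fin.sum_univ_succAbove z i1, hz1]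
      simp only [hz2]
      rw [hg1]
      ring
    set m : ℝ := (n : ℝ) / ((r' + 1 : ℕ) : ℝ) with hm
    set d : ℝ := (y i1 : ℝ) - m with hd
    set M : ℝ := (((n : ℤ) - a : ℤ) : ℝ) / r' with hM
    have haR : (a : ℝ) = (y i1 : ℝ) + 1 := by rw [ha]; push_cast; ring
    have hnm : (n : ℝ) = ((r' : ℝ) + 1) * m := by
      rw [hm]
      push_cast
      field_simp
    have hMm : M - m = - (d + 1) / r' := by
      rw [hM, Int.cast_sub, haR, hd]
      have : ((n : ℤ) : ℝ) = ((r' : ℝ) + 1) * m := by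
        rw [← hnm]; norm_cast
      rw [this]
      field_simp
      ring
    have hgs : ∑ j, ((g j : ℝ) - M) = 0 := by
      rw [sum_sub_distrib, sum_const, card_univ, Fintype.card_fin, nsmul_eq_mul]
      have : ∑ j, (g j : ℝ) = (((n : ℤ) - a : ℤ) : ℝ) := by exact_mod_cast hg1
      rw [this, hM]
      field_simp
      ring
    have hgq : ∑ j, ((g j : ℝ) - m) ^ 2 ≤ r' + (d + 1) ^ 2 / r' := by
      have e : ∀ j, ((g j : ℝ) - m) ^ 2 = ((g j : ℝ) - M) ^ 2 + 2 * (M - m) * ((g j : ℝ) - M) +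
          (M - m) ^ 2 := fun j => by ring
      have h1 : ∑ j, ((g j : ℝ) - M) ^ 2 ≤ ∑ _j : Fin r', (1 : ℝ) := by
        refine sum_le_sum fun j _ => ?_
        rw [sq_le_one_iff_abs_le_one]
        exact hg2 j
      simp only [e]
      rw [sum_add_distrib, sum_add_distrib, ← mul_sum, hgs, sum_const, card_univ,
        Fintype.card_fin, nsmul_eq_mul, hMm]
      rw [sum_const, card_univ, Fintype.card_fin, nsmul_eq_mul] at h1
      have e2 : (r' : ℝ) * (-(d + 1) / r') ^ 2 = (d + 1) ^ 2 / r' := by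
        field_simp
      rw [e2]
      linarith
    have hzq : ∑ i, ((z i : ℝ) - m) ^ 2 ≤ ∑ i, ((y i : ℝ) - m) ^ 2 := by
      rw [Fin.sum_univ_succAbove (fun i => ((z i : ℝ) - m) ^ 2) i1]
      simp only [hz1, hz2]
      have h1 : ((a : ℝ) - m) ^ 2 = (d + 1) ^ 2 := by
        rw [haR, hd]; ring
      have h2 : (d + 1) ^ 2 * (((r' + 1 : ℕ) : ℝ) / (((r' + 1 : ℕ) : ℝ) - 1)) =
          (d + 1) ^ 2 + (d + 1) ^ 2 / r' := by
        push_cast
        rw [add_sub_cancel_right]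
        field_simp
      have h3 : mo 2 n (re y) = ∑ i, ((y i : ℝ) - m) ^ 2 := rfl
      rw [← h3, h1]
      rw [h2] at hcon
      have h4 : (((r' + 1 : ℕ) : ℝ)) = r' + 1 := by push_cast; ring
      rw [h4] at hcon
      linarith
    have expand : ∀ f : Fin (r' + 1) → ℝ, ∑ i, f i = n →
        ∑ i, (f i - m) ^ 2 = ∑ i, f i ^ 2 - 2 * m * n + ((r' : ℝ) + 1) * m ^ 2 := by
      intro f hf
      have e : ∀ i, (f i - m) ^ 2 = f i ^ 2 - 2 * m * f i + m ^ 2 := fun i => by ring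
      simp only [e]
      rw [sum_add_distrib, sum_sub_distrib, ← mul_sum, hf, sum_const, card_univ,
        Fintype.card_fin, nsmul_eq_mul]
      push_cast
      ring
    rw [expand (fun i => (z i : ℝ)) (by exact_mod_cast hzs), expand (fun i => (y i : ℝ)) hsumR]
      at hzq
    have hzq' : ∑ i, (z i : ℝ) ^ 2 ≤ ∑ i, (y i : ℝ) ^ 2 := by linarith
    have hfin := htop z (by rw [hzs]; exact_mod_cast hsum.symm) (by exact_mod_cast hzq') i1
    rw [hz1, ha] at hfin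
    linarith

end Pool.Agent.Work.MP_5532fa_up

end

section

/-!
# MP_5532fa_co: numbers `3 mod 8` are sums of three squares (Ankeny's proof)
-/

namespace Pool.Agent.Work.MP_5532fa_up

namespace TSQ

lemma sqf (hA : Stmt_TSA) (hB : Stmt_TSB) (hC : Stmt_TSC) (n : ℕ) (hsq : Squarefree n)
    (hn8 : n % 8 = 3) : ∃ a b c : ℕ, n = a ^ 2 + b ^ 2 + c ^ 2 := by
  obtain ⟨q, b, h, t, hq, hq4, hqn, hb, hnt⟩ := hA n hsq hn8
  have hn : 0 < n := by omega
  obtain ⟨x, y, z, h0, hlt⟩ := hB n q b h t hn hq.pos hb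
  set R : ℤ := 2 * t * q * x + t * b * y + n * z with hR
  set v : ℤ := q * x ^ 2 + b * x * y + h * y ^ 2 with hv
  have hq0 : (0 : ℤ) < q := by exact_mod_cast hq.pos
  have hn0 : (0 : ℤ) < n := by exact_mod_cast hn
  have key : (4 * q * v : ℤ) = (2 * q * x + b * y) ^ 2 + n * y ^ 2 := by
    rw [hv]
    linear_combination (-(y ^ 2)) * hb
  have hv0 : 0 ≤ v := by
    have h1 : 0 ≤ (4 * q) * v := by
      rw [key]; positivity
    exact nonneg_of_mul_nonneg_right h1 (by positivity)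
  have hdvd : (n : ℤ) ∣ R ^ 2 + 2 * v := by
    have h1 : (n : ℤ) ∣ (2 * q) * (R ^ 2 + 2 * v) := by
      obtain ⟨m, hm⟩ := hnt
      refine ⟨m * (2 * q * x + b * y) ^ 2
        + 2 * q * z * (2 * t * (2 * q * x + b * y) + n * z) + y ^ 2, ?_⟩
      have h2 : (2 * (q : ℤ)) * (R ^ 2 + 2 * v) = 2 * q * R ^ 2 + 4 * q * v := by ring
      rw [h2, key, hR]
      linear_combination ((2 * q * x + b * y) ^ 2) * hm
    have hcop : IsCoprime (n : ℤ) (2 * q) := by
      have : Nat.Coprime n (2 * q) := by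
        apply Nat.Coprime.mul_right
        · rw [Nat.coprime_comm, Nat.coprime_two_left]
          exact Nat.odd_iff.2 (by omega)
        · exact hqn.symm
      have := Nat.isCoprime_iff_coprime.2 this
      exact_mod_cast this
    exact hcop.dvd_of_dvd_mul_left h1
  have hpos : 0 < R ^ 2 + 2 * v := by
    rcases (by positivity : 0 ≤ R ^ 2 + 2 * v).lt_or_eq with h1 | h1
    · exact h1
    · exfalso
      have hR2 : 0 ≤ R ^ 2 := sq_nonneg R
      have hv1 : v = 0 := by linarith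
      have hR1 : R = 0 := by
        have : R ^ 2 = 0 := by linarith
        exact pow_eq_zero_iff two_ne_zero |>.1 this
      rw [hv1, mul_zero] at key
      have hy : y = 0 := by
        by_contra hy
        have : 0 < (n : ℤ) * y ^ 2 := by positivity
        have h2 : 0 ≤ (2 * q * x + b * y) ^ 2 := sq_nonneg _
        linarith
      have hx : x = 0 := by
        rw [hy] at key
        have : (2 * (q : ℤ) * x) ^ 2 = 0 := by linear_combination -key
        have := pow_eq_zero_iff two_ne_zero |>.1 this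
        rcases mul_eq_zero.1 this with h3 | h3
        · exfalso; linarith
        · exact h3
      have hz : z = 0 := by
        rw [hR, hx, hy] at hR1
        have : (n : ℤ) * z = 0 := by linear_combination hR1
        rcases mul_eq_zero.1 this with h3 | h3
        · exfalso; linarith
        · exact h3
      exact h0 ⟨hx, hy, hz⟩
  have hlt' : R ^ 2 + 2 * v < 2 * n := hlt
  have heq : (n : ℤ) = R ^ 2 + 2 * v := by
    obtain ⟨m, hm⟩ := hdvd
    have h1 : 0 < m := by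
      rw [hm] at hpos
      exact (mul_pos_iff_of_pos_left hn0).1 hpos
    have h2 : m < 2 := by
      rw [hm] at hlt'
      have : (n : ℤ) * m < n * 2 := by linarith
      exact lt_of_mul_lt_mul_left this hn0.le
    have : m = 1 := by omega
    rw [hm, this, mul_one]
  have hvn : ((v.toNat : ℕ) : ℤ) = v := Int.toNat_of_nonneg hv0
  obtain ⟨a, c, hac⟩ := hC n q b h t x y R v.toNat hsq hn8 hq hq4 hqn hb hnt
    (by rw [hvn]) (by rw [hvn]; exact heq)
  refine ⟨R.natAbs, a, c, ?_⟩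
  have h1 : (n : ℤ) = (R.natAbs : ℤ) ^ 2 + ((2 * v.toNat : ℕ) : ℤ) := by
    push_cast
    rw [sq_abs, hvn]
    exact heq
  have h2 : n = R.natAbs ^ 2 + 2 * v.toNat := by exact_mod_cast h1
  rw [h2, hac]; ring

end TSQ

theorem blk_TSQ (hA : Stmt_TSA) (hB : Stmt_TSB) (hC : Stmt_TSC) : Stmt_TSQ := by
  intro n hn8
  obtain ⟨m, k, hmk, hsq⟩ := Nat.sq_mul_squarefree n
  have hk : k % 2 = 1 := by
    rcases Nat.mod_two_eq_zero_or_one k with h | h
    · exfalso
      obtain ⟨j, hj⟩ := Nat.dvd_of_mod_eq_zero h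
      have : n = 4 * (j ^ 2 * m) := by rw [← hmk, hj]; ring
      omega
    · exact h
  have hk8 : k ^ 2 % 8 = 1 := by
    have : k % 8 = 1 ∨ k % 8 = 3 ∨ k % 8 = 5 ∨ k % 8 = 7 := by omega
    rcases this with h | h | h | h <;> simp [Nat.pow_mod, h]
  have hm8 : m % 8 = 3 := by
    have h1 : k ^ 2 * m % 8 = 3 := by rw [hmk]; exact hn8
    rw [Nat.mul_mod, hk8, one_mul, Nat.mod_mod] at h1
    exact h1
  obtain ⟨a, b, c, h⟩ := TSQ.sqf hA hB hC m hsq hm8
  exact ⟨k * a, k * b, k * c, by rw [← hmk, h]; ring⟩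

end Pool.Agent.Work.MP_5532fa_up

end

section

/-! Block MKD: gadgets with given class sizes on a given set. -/

open Finset

namespace Pool.Agent.Work.MP_5532fa_up

theorem blk_MKD : Stmt_MKD := by
  classical
  intro r hr V _ H w y hw hsum hy
  have hcard : Fintype.card (Σ i : Fin r, Fin (y i)) = Fintype.card {v // v ∈ H} := by
    rw [Fintype.card_sigma, Fintype.card_coe, ← hsum]
    exact sum_congr rfl fun i _ => Fintype.card_fin _
  let e : (Σ i : Fin r, Fin (y i)) ≃ {v // v ∈ H} := Fintype.equivOfCardEq hcard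
  let c : V → Fin r := fun v => if hv : v ∈ H then (e.symm ⟨v, hv⟩).1 else ⟨0, by omega⟩
  have hce : ∀ p : Σ i : Fin r, Fin (y i), c (e p : V) = p.1 := by
    intro p
    change (if hv : (e p : V) ∈ H then (e.symm ⟨(e p : V), hv⟩).1 else ⟨0, by omega⟩) = p.1
    rw [dif_pos (e p).2]
    have h1 : (⟨(e p : V), (e p).2⟩ : {v // v ∈ H}) = e p := Subtype.ext rfl
    rw [h1, Equiv.symm_apply_apply]
  let s : Fin r → V := fun i => (e ⟨i, ⟨0, hy i⟩⟩ : V)
  have hsH : ∀ i, s i ∈ H := fun i => (e ⟨i, ⟨0, hy i⟩⟩).2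
  have hcs : ∀ i, c (s i) = i := fun i => hce ⟨i, ⟨0, hy i⟩⟩
  let A : Finset V := univ.image s
  have hA : A ⊆ H := by
    intro v hv
    obtain ⟨i, _, rfl⟩ := mem_image.1 hv
    exact hsH i
  have hclA : ∀ i, cl A c i = {s i} := by
    intro i
    ext v
    rw [mem_cl, mem_singleton, mem_image]
    constructor
    · rintro ⟨⟨k, _, rfl⟩, hk⟩
      rw [hcs] at hk
      rw [hk]
    · rintro rfl
      exact ⟨⟨i, mem_univ i, rfl⟩, hcs i⟩
  have hv1 : c (s ⟨0, by omega⟩) = ⟨0, by omega⟩ := hcs _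
  have hv2 : c (s ⟨1, by omega⟩) = ⟨1, by omega⟩ := hcs _
  refine ⟨c, A, s ⟨0, by omega⟩, s ⟨1, by omega⟩, gD_WD rfl hw hA ?_ ?_ ?_ ?_, ?_, ?_⟩
  · rw [hv1, hv2]
    intro h
    have h2 := congrArg Fin.val h
    simp at h2
  · rw [hv1]; exact hclA _
  · rw [hv2]; exact hclA _
  · intro i
    rw [hclA]
    exact singleton_nonempty _
  · have hinj : Function.Injective s := fun i k h => by
      have h1 := congrArg c h
      rwa [hcs, hcs] at h1
    rw [card_image_of_injective _ hinj, card_univ, Fintype.card_fin]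
  · intro i
    have h1 : cl H c i = (univ : Finset (Fin (y i))).image (fun k => (e ⟨i, k⟩ : V)) := by
      ext v
      rw [mem_cl, mem_image]
      constructor
      · rintro ⟨hv, hci⟩
        have h2 : c v = (e.symm ⟨v, hv⟩).1 := dif_pos hv
        obtain ⟨p, hp⟩ : ∃ p, e p = ⟨v, hv⟩ := ⟨e.symm ⟨v, hv⟩, e.apply_symm_apply _⟩
        have h3 : p.1 = i := by
          rw [← hci, h2, ← hp, Equiv.symm_apply_apply]
        obtain ⟨i', k⟩ := p
        simp only at h3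
        subst h3
        exact ⟨k, mem_univ k, by rw [hp]⟩
      · rintro ⟨k, _, rfl⟩
        exact ⟨(e ⟨i, k⟩).2, hce _⟩
    rw [h1, card_image_of_injective, card_univ, Fintype.card_fin]
    intro k k' h
    have h2 : e ⟨i, k⟩ = e ⟨i, k'⟩ := Subtype.ext h
    have h3 := e.injective h2
    exact eq_of_heq (Sigma.mk.inj h3).2

end Pool.Agent.Work.MP_5532fa_up

end
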