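import Mathlib
import Pool.Agent.Work.MP_5532fa_full.P03
import Pool.Agent.Work.MP_5532fa_full.P04
import Pool.Agent.Work.MP_5532fa_full.P10
import Pool.Agent.Work.MP_5532fa_full.P20
import Pool.Agent.Work.MP_5532fa_full.P21

section

/-!
# MP_5532fa_co, upgrade, second round: block SM1c
-/

open Finset

namespace Pool.Agent.Work.MP_5532fa_up

open MP5532fa (specRad qf pE)

namespace SM1c

section
variable {V : Type} [Fintype V] {r : ℕ}

omit [Fintype V] in
theorem pair_sum {H : Finset V} {v1 v2 : V} (h1 : v1 ∈ H)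
    (h2 : v2 ∈ H) (h12 : v1 ≠ v2) (f : V → V → ℝ) :
    ∑ a ∈ H, ∑ b ∈ H, chi ((a = v1 ∧ b = v2) ∨ (a = v2 ∧ b = v1)) * f a b
      = f v1 v2 + f v2 v1 := by
  classical
  have e1 : ∀ a ∈ H, ∑ b ∈ H, chi ((a = v1 ∧ b = v2) ∨ (a = v2 ∧ b = v1)) * f a b
      = (if a = v1 then f v1 v2 else 0) + (if a = v2 then f v2 v1 else 0) := by
    intro a ha
    by_cases ha1 : a = v1
    · rw [if_pos ha1, if_neg (fun h3 => h12 (ha1.symm.trans h3)), add_zero]
      rw [Finset.sum_eq_single v2]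
      · rw [chi_pos (Or.inl ⟨ha1, rfl⟩), ha1, one_mul]
      · intro b hb hb2
        rw [chi_neg, zero_mul]
        rintro (h4 | h4)
        · exact hb2 h4.2
        · exact h12 (ha1.symm.trans h4.1)
      · intro h3; exact absurd h2 h3
    · rw [if_neg ha1, zero_add]
      by_cases ha2 : a = v2
      · rw [if_pos ha2, Finset.sum_eq_single v1]
        · rw [chi_pos (Or.inr ⟨ha2, rfl⟩), ha2, one_mul]
        · intro b hb hb1
          rw [chi_neg, zero_mul]
          rintro (h4 | h4)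
          · exact ha1 h4.1
          · exact hb1 h4.2
        · intro h3; exact absurd h1 h3
      · rw [if_neg ha2]
        refine Finset.sum_eq_zero fun b hb => ?_
        rw [chi_neg, zero_mul]
        rintro (h4 | h4)
        · exact ha1 h4.1
        · exact ha2 h4.1
  rw [Finset.sum_congr rfl e1, Finset.sum_add_distrib, Finset.sum_ite_eq', Finset.sum_ite_eq',
    if_pos h1, if_pos h2]

omit [Fintype V] in
/-- lower bound for `mH` which keeps one missing pair -/
theorem mH_lower2 {G : SimpleGraph V} {H : Finset V} {c : V → Fin r} {x y : V → ℝ} {s t : ℝ}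
    {v1 v2 : V} (h1 : v1 ∈ H) (h2 : v2 ∈ H) (hc : c v1 ≠ c v2) (hadj : ¬ G.Adj v1 v2)
    (hs : 0 ≤ s) (ht : 0 ≤ t) (hx : ∀ v ∈ H, s ≤ x v) (hy : ∀ v ∈ H, t ≤ y v) :
    x v1 * y v2 + x v2 * y v1 + ((mis G H c : ℝ) - 2) * (s * t) ≤ mH G H c x y := by
  have h12 : v1 ≠ v2 := fun h => hc (by rw [h])
  have e1 := pair_sum h1 h2 h12 (fun a b => x a * y b)
  have e2 := pair_sum h1 h2 h12 (fun _ _ => s * t)
  beta_reduce at e1 e2
  have e3 : x v1 * y v2 + x v2 * y v1 + ((mis G H c : ℝ) - 2) * (s * t)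
      = ∑ a ∈ H, ∑ b ∈ H, (chi ((a = v1 ∧ b = v2) ∨ (a = v2 ∧ b = v1)) * (x a * y b)
        + chi (c a ≠ c b ∧ ¬ G.Adj a b) * (s * t)
        - chi ((a = v1 ∧ b = v2) ∨ (a = v2 ∧ b = v1)) * (s * t)) := by
    simp only [Finset.sum_add_distrib, Finset.sum_sub_distrib]
    rw [e1, e2, EDG.mis_eq, sub_mul, Finset.sum_mul]
    simp only [Finset.sum_mul]
    ring
  rw [e3]
  unfold mH
  refine Finset.sum_le_sum fun a ha => Finset.sum_le_sum fun b hb => ?_
  by_cases hp : (a = v1 ∧ b = v2) ∨ (a = v2 ∧ b = v1)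
  · have hm : c a ≠ c b ∧ ¬ G.Adj a b := by
      rcases hp with ⟨rfl, rfl⟩ | ⟨rfl, rfl⟩
      · exact ⟨hc, hadj⟩
      · exact ⟨hc.symm, fun h => hadj h.symm⟩
    rw [chi_pos hp, chi_pos hm]
    linarith only []
  · rw [chi_neg hp, zero_mul, zero_mul, zero_add, sub_zero]
    refine mul_le_mul_of_nonneg_left ?_ (chi_nonneg _)
    exact mul_le_mul (hx a ha) (hy b hb) ht (hs.trans (hx a ha))

/-- a colouring if all edges outside `H` are at `w` -/
theorem col {G : SimpleGraph V} {H : Finset V} {c : V → Fin r} {w : V} {i0 : Fin r}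
    (ind : ∀ u ∈ H, ∀ v ∈ H, c u = c v → ¬ G.Adj u v) (h0 : cl (nb G H w) c i0 = ∅)
    (hd : ∀ v, v ∉ H → v ≠ w → dg G H v = 0) (he : eu G H = 0) : G.Colorable r := by
  classical
  have hout : ∀ a b, a ∈ H → b ∉ H → G.Adj a b → c a ≠ i0 := by
    intro a b ha hb hab hi
    have h1 : a ∈ nb G H b := mem_nb.mpr ⟨ha, hab.symm⟩
    have hbw : b = w := by
      by_contra hbw
      have h2 := hd b hb hbw
      unfold dg at h2
      rw [Finset.card_eq_zero] at h2
      rw [h2] at h1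
      exact absurd h1 (Finset.notMem_empty _)
    rw [hbw] at h1
    have h3 : a ∈ cl (nb G H w) c i0 := mem_cl.mpr ⟨h1, hi⟩
    rw [h0] at h3
    exact absurd h3 (Finset.notMem_empty _)
  refine ⟨SimpleGraph.Coloring.mk (fun v => if v ∈ H then c v else i0) ?_⟩
  intro a b hab
  by_cases ha : a ∈ H
  · by_cases hb : b ∈ H
    · rw [if_pos ha, if_pos hb]
      exact fun h => ind a ha b hb h hab
    · rw [if_pos ha, if_neg hb]
      exact hout a b ha hb hab
  · by_cases hb : b ∈ H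
    · rw [if_neg ha, if_pos hb]
      exact (hout b a hb ha hab.symm).symm
    · exfalso
      unfold eu at he
      rw [Finset.card_eq_zero, Finset.filter_eq_empty_iff] at he
      exact he (x := (a, b)) (Finset.mem_univ _) ⟨hab, ha, hb⟩

open Classical in
omit [Fintype V] in
/-- a transversal through two given vertices -/
theorem trans {H : Finset V} {c : V → Fin r} {p q : V} (hp : p ∈ H) (hq : q ∈ H)
    (hpq : c p ≠ c q) (hne : ∀ i, (cl H c i).Nonempty) :
    ∃ T : Finset V, T ⊆ H ∧ p ∈ T ∧ q ∈ T ∧ T.card = r ∧ ∀ i, (cl T c i).card = 1 := by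
  classical
  choose t0 ht0 using hne
  set t : Fin r → V := fun i => if i = c p then p else if i = c q then q else t0 i with ht
  have htc : ∀ i, c (t i) = i := by
    intro i
    rw [ht]
    by_cases h1 : i = c p
    · simp only [if_pos h1]; exact h1.symm
    · by_cases h2 : i = c q
      · simp only [if_neg h1, if_pos h2]; exact h2.symm
      · simp only [if_neg h1, if_neg h2]; exact (mem_cl.mp (ht0 i)).2
  have htH : ∀ i, t i ∈ H := by
    intro i
    rw [ht]
    by_cases h1 : i = c p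
    · simp only [if_pos h1]; exact hp
    · by_cases h2 : i = c q
      · simp only [if_neg h1, if_pos h2]; exact hq
      · simp only [if_neg h1, if_neg h2]; exact (mem_cl.mp (ht0 i)).1
  have hinj : Function.Injective t := by
    intro i j hij
    rw [← htc i, ← htc j, hij]
  refine ⟨univ.image t, ?_, ?_, ?_, ?_, ?_⟩
  · intro v hv
    obtain ⟨i, _, rfl⟩ := Finset.mem_image.mp hv
    exact htH i
  · refine Finset.mem_image.mpr ⟨c p, Finset.mem_univ _, ?_⟩
    rw [ht]; simp only [if_true]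
  · refine Finset.mem_image.mpr ⟨c q, Finset.mem_univ _, ?_⟩
    rw [ht]; simp only [if_neg hpq.symm, if_true]
  · rw [Finset.card_image_of_injective _ hinj, Finset.card_univ, Fintype.card_fin]
  · intro i
    have : cl (univ.image t) c i = {t i} := by
      ext v
      rw [mem_cl, Finset.mem_image, Finset.mem_singleton]
      constructor
      · rintro ⟨⟨j, _, rfl⟩, h2⟩
        rw [htc] at h2
        rw [h2]
      · rintro rfl
        exact ⟨⟨i, Finset.mem_univ _, rfl⟩, htc i⟩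
    rw [this, Finset.card_singleton]

end

/-- final arithmetic, one missing pair -/
theorem arithA (e r g a T pq R : ℝ) (he : 0 < e) (her : 1000 * e * r ^ 2 ≤ 1)
    (hg0 : 1 ≤ g) (hg : g ≤ 2 * r) (ha : 0 ≤ a) (hag : a ≤ g) (hT : T ≤ g ^ 2 - 1)
    (hpq : pq ≤ g + a) (hR : R ≤ g) :
    0 < g ^ 2 - T - 30 * e * (pq * (g + a) + (T - a ^ 2) + R) := by
  have h1 : pq * (g + a) ≤ (2 * g) * (2 * g) :=
    mul_le_mul (by linarith only [hag, hpq]) (by linarith only [hag]) (by linarith only [hg0,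
        ha]) (by linarith only [hg0])
  have h2 : g ≤ g ^ 2 := by nlinarith only [hg0]
  have h3 : pq * (g + a) + (T - a ^ 2) + R ≤ 6 * g ^ 2 := by nlinarith only [hT, hR, h1]
  have h4 : g ^ 2 ≤ 4 * r ^ 2 := by nlinarith only [hg, ha, hag]
  have h5 : 30 * e * (pq * (g + a) + (T - a ^ 2) + R) ≤ 30 * e * (6 * (4 * r ^ 2)) :=
    mul_le_mul_of_nonneg_left (by linarith only [h3, h4]) (by positivity)
  nlinarith only [her, hT, h5]

/-- final arithmetic, several missing pairs; `m = M - 1` -/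
theorem arithB (e r N a a' D E m T pq X : ℝ) (he : 0 < e) (hr : 3 ≤ r)
    (her : 1000 * e * r ^ 2 ≤ 1) (hN : 16 * r ^ 2 ≤ N) (ha : 0 ≤ a) (ha'0 : 0 ≤ a')
    (ha' : a' ≤ 2 * r) (hD : 0 ≤ D) (hE : 0 ≤ E) (haD : a ≤ D) (hg : D + E = m + a') (hm : 1 ≤ m)
    (hT : T ≤ a * D) (haN : a ≤ e * N) (hpq : pq ≤ a' + a)
    (hX : 9 / 10 * (N * m) ≤ X) :
    0 < X + (a' ^ 2 - T - 30 * e * (pq * (a' + a) + (T - a ^ 2) + (D - a + E))) := by
  have hN0 : 0 < N := by nlinarith only [hr, hN]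
  have her1 : e * r ≤ 1 / 3000 := by nlinarith only [hr, her]
  have he1 : e ≤ 1 / 9000 := by nlinarith only [hr, her1]
  have hgr : m + a' ≤ m * (3 * r) := by nlinarith only [hr, ha', hm]
  have hDg : D ≤ m * (3 * r) := by linarith only [hE, hg, hgr]
  -- a * D
  have h1 : a * D ≤ (e * N) * (m * (3 * r)) := mul_le_mul haN hDg hD (by positivity)
  have h2 : (e * N) * (m * (3 * r)) = 3 * (e * r) * (N * m) := by ring
  have hNm : 0 ≤ N * m := by positivity
  have h3 : a * D ≤ 1 / 1000 * (N * m) := by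
    rw [h2] at h1
    have : 3 * (e * r) * (N * m) ≤ 1 / 1000 * (N * m) :=
      mul_le_mul_of_nonneg_right (by linarith only [her1]) hNm
    linarith only [h1, this]
  have h4 : pq * (a' + a) ≤ (a' + a) * (a' + a) := mul_le_mul_of_nonneg_right hpq (by linarith only [ha, ha'0])
  have h5 : (a' + a) * (a' + a) ≤ 2 * a' ^ 2 + 2 * a ^ 2 := by nlinarith only [sq_nonneg (a' - a)]
  have h6 : a ^ 2 ≤ a * D := by rw [sq]; exact mul_le_mul_of_nonneg_left haD ha
  have h7 : a' ^ 2 ≤ 4 * r ^ 2 := by nlinarith only [ha'0, ha']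
  have h8 : pq * (a' + a) + (T - a ^ 2) + (D - a + E)
      ≤ 8 * r ^ 2 + 3 * (1 / 1000 * (N * m)) + m * (3 * r) := by
    nlinarith only [hr, ha, ha'0, ha', hg, hm, hT, h3, h4, h5, h6]
  have h9 : 30 * e * (pq * (a' + a) + (T - a ^ 2) + (D - a + E))
      ≤ 30 * e * (8 * r ^ 2 + 3 * (1 / 1000 * (N * m)) + m * (3 * r)) :=
    mul_le_mul_of_nonneg_left h8 (by positivity)
  have h10 : 30 * e * (8 * r ^ 2) ≤ 1 / 4 := by nlinarith only [her]
  have h11 : 30 * e * (3 * (1 / 1000 * (N * m))) ≤ 1 / 1000 * (N * m) := by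
    have : 30 * e * 3 ≤ 1 := by linarith only [he1]
    calc 30 * e * (3 * (1 / 1000 * (N * m))) = (30 * e * 3) * (1 / 1000 * (N * m)) := by ring
      _ ≤ 1 * (1 / 1000 * (N * m)) := mul_le_mul_of_nonneg_right this (by positivity)
      _ = _ := by ring
  have h12 : 30 * e * (m * (3 * r)) ≤ m := by
    have : 30 * e * (m * (3 * r)) = 90 * (e * r) * m := by ring
    rw [this]
    nlinarith only [hm, her1]
  have h13 : 100 ≤ N := by nlinarith only [hr, hN]
  have h14 : 100 * m ≤ N * m := mul_le_mul_of_nonneg_right h13 (by linarith only [hm])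
  have h15 : 0 ≤ a' ^ 2 := sq_nonneg _
  nlinarith only [hm, hT, hX, h3, h9, h10, h11, h12, h13]

end SM1c

theorem blk_SM1c (hGD : Stmt_GD) (_hTRV : Stmt_TRV) (hEID : Stmt_EID) (hEVN : Stmt_EVN)
    (hEST : Stmt_EST1) (hTRF : Stmt_TRF) (hCORE : Stmt_CORE) : Stmt_SM1c := by
  classical
  intro r hr
  have hr3 : (3 : ℝ) ≤ r := by exact_mod_cast hr
  have hr0 : (0 : ℝ) < r := by linarith only [hr3]
  obtain ⟨e, he⟩ : ∃ e : ℝ, e = 1 / (1000 * (r : ℝ) ^ 2) := ⟨_, rfl⟩
  have he0 : 0 < e := by rw [he]; positivity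
  have her : 1000 * e * (r : ℝ) ^ 2 ≤ 1 := by
    rw [he]; apply le_of_eq; field_simp
  have he1 : e ≤ 1 / 9000 := by
    have h9 : (9 : ℝ) ≤ (r : ℝ) ^ 2 := by nlinarith only [hr3]
    have h8 : 1000 * e * 9 ≤ 1000 * e * (r : ℝ) ^ 2 :=
      mul_le_mul_of_nonneg_left h9 (by positivity)
    linarith only [her, h8]
  obtain ⟨δ1, N1, hδ1, hδ1e, hE1⟩ := hEST r e hr he0
  refine ⟨min (δ1 / 2) (1 / (2 * (r : ℝ))), max N1 (16 * r ^ 2),
    lt_min (by positivity) (by positivity), ?_⟩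
  have hδa : 2 * min (δ1 / 2) (1 / (2 * (r : ℝ))) ≤ δ1 := by
    have := min_le_left (δ1 / 2) (1 / (2 * (r : ℝ)))
    linarith only [this]
  have hδb : min (δ1 / 2) (1 / (2 * (r : ℝ))) * (2 * r) ≤ 1 := by
    have h1 := min_le_right (δ1 / 2) (1 / (2 * (r : ℝ)))
    rwa [le_div_iff₀ (by positivity)] at h1
  have hδ0 : 0 < min (δ1 / 2) (1 / (2 * (r : ℝ))) := lt_min (by positivity) (by positivity)
  generalize min (δ1 / 2) (1 / (2 * (r : ℝ))) = δ at hδa hδb hδ0
  intro N hN V _ G c H w i0 hC hfree hcolG hMX hmis0 hcnt hcnt2 hw hmax hcl0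
  have hN1 : N1 ≤ N := (le_max_left _ _).trans hN
  have hN16 : 16 * (r : ℝ) ^ 2 ≤ N := by
    have : 16 * r ^ 2 ≤ N := (le_max_right _ _).trans hN
    exact_mod_cast this
  have hN4 : 4 * (r : ℝ) ≤ N := by nlinarith only [hr3, hN16]
  have hNpos : 0 < (N : ℝ) := by linarith only [hr0, hN4]
  have : Nonempty V := ⟨w⟩
  obtain ⟨x, hx⟩ := exists_PV G
  have hC1 : C0 r δ1 N G c H := SM1b.c0_mono hC (by linarith only [hδa, hδ0])
  obtain ⟨xb, hFl⟩ := hE1 N hN1 V G x _ c H hC1 hx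
  obtain ⟨⟨M, hM⟩, ⟨E, hE⟩⟩ := hEVN r V G c H
  have hM1 : 1 ≤ M := by omega
  -- a missing pair
  obtain ⟨p, q, hp, hq, hpqc, hpqa⟩ : ∃ p q : V, p ∈ H ∧ q ∈ H ∧ c p ≠ c q ∧ ¬ G.Adj p q := by
    unfold mis at hmis0
    obtain ⟨⟨p, q⟩, h1⟩ := Finset.card_pos.mp hmis0
    rw [Finset.mem_filter, Finset.mem_product] at h1
    exact ⟨p, q, h1.1.1, h1.1.2, h1.2.1, h1.2.2⟩
  have hcls : ∀ i, 2 ≤ (cl H c i).card := by
    intro i
    have h3 := abs_le.mp (hC.bal i)
    have h4 : sz H c i = ((cl H c i).card : ℝ) := rfl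
    rw [h4] at h3
    have h5 : 2 ≤ (N : ℝ) / r - δ * N := by
      have h6 : (N : ℝ) / r - δ * N = (1 / r - δ) * N := by ring
      have h7 : 1 / (2 * (r : ℝ)) ≤ 1 / r - δ := by
        have h8 : δ ≤ 1 / (2 * (r : ℝ)) := by
          rw [le_div_iff₀ (by positivity)]; exact hδb
        have h9 : 1 / (r : ℝ) = 1 / (2 * r) + 1 / (2 * r) := by field_simp; ring
        linarith only [h8, h9]
      have h8 : 1 / (2 * (r : ℝ)) * (4 * r) ≤ (1 / r - δ) * N :=
        mul_le_mul h7 hN4 (by positivity) (le_trans (by positivity) h7)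
      have h9 : 1 / (2 * (r : ℝ)) * (4 * r) = 2 := by field_simp; ring
      linarith only [h6, h8, h9]
    have h6 : ((2 : ℕ) : ℝ) ≤ ((cl H c i).card : ℝ) := by
      push_cast
      linarith only [h5, h3.1]
    exact_mod_cast h6
  obtain ⟨T0, hT0H, hpT, hqT, hT0c, hT01⟩ := SM1c.trans hp hq hpqc
    (fun i => Finset.card_pos.mp (by have := hcls i; omega))
  -- degree sums
  have hwout : w ∈ out H := mem_out.mpr hw
  generalize hDdef : ∑ v ∈ out H, dg G H v = D at hcnt hcnt2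
  have hDr : ∑ v ∈ out H, (dg G H v : ℝ) = D := by rw [← hDdef]; push_cast; rfl
  have hMr : (mis G H c : ℝ) = 2 * M := by rw [hM]; push_cast; ring
  have hEr : (eu G H : ℝ) = 2 * E := by rw [hE]; push_cast; ring
  have heo := SM1b.eo_split G H
  rw [hDr, hEr] at heo
  have heoN : (D : ℝ) + 2 * E ≤ δ * N := by rw [← heo]; exact hC.eo
  have haD : dg G H w ≤ D := by
    rw [← hDdef]
    exact Finset.single_le_sum (f := fun v => dg G H v) (fun v _ => Nat.zero_le _) hwout
  have hcnt' : M + r ≤ D + E + 1 := by rw [hM, hE] at hcnt; omega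
  have hcnt2' : D + E + 1 < M + 2 * r := by rw [hM, hE] at hcnt2; omega
  obtain ⟨Q, hQ⟩ := Nat.exists_eq_add_of_le hcnt'
  have hQr : Q < r := by omega
  obtain ⟨b, hb⟩ : ∃ b, b + 1 + 1 = T0.card + Q := ⟨T0.card + Q - 2, by omega⟩
  have hδ100 : δ ≤ 1 / 100 := by linarith only [he1, hδ1e, hδa]
  have hroom : b + (cl H c (c p)).card + (cl H c (c q)).card ≤ H.card := by
    have h3 : ((b + (cl H c (c p)).card + (cl H c (c q)).card : ℕ) : ℝ) ≤ ((H.card : ℕ) : ℝ) := by
      push_cast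
      rw [hC.card]
      have h4 := abs_le.mp (hC.bal (c p))
      have h5 := abs_le.mp (hC.bal (c q))
      have h6 : sz H c (c p) = ((cl H c (c p)).card : ℝ) := rfl
      have h7 : sz H c (c q) = ((cl H c (c q)).card : ℝ) := rfl
      rw [h6] at h4
      rw [h7] at h5
      have h8 : (N : ℝ) / r ≤ N / 3 := div_le_div_of_nonneg_left hNpos.le (by norm_num) hr3
      have h9 : δ * N ≤ 1 / 100 * N := mul_le_mul_of_nonneg_right hδ100 hNpos.le
      have h10 : (b : ℝ) ≤ 2 * r := by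
        have : b ≤ 2 * r := by omega
        exact_mod_cast this
      have h11 : 2 * (r : ℝ) ≤ N / 8 := by nlinarith only [hr3, hN16]
      linarith only [h8, h9, h10, h11, h4.2, h5.2]
    exact_mod_cast h3
  obtain ⟨A', hA'H, hA'0, hA'1, hA'ne, hA'card, _, _⟩ :=
    B1U.mkA H T0 c (c p) (c q) p q hT0H hpqc (mem_cl.mpr ⟨hpT, rfl⟩) (mem_cl.mpr ⟨hqT, rfl⟩)
      (fun i => Finset.card_pos.mp (by rw [hT01]; exact one_pos)) 1 Q b (hT01 _).le (hT01 _).le
      hb (by omega) hroom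
  have hA'c : A'.card = r + Q := by omega
  have hWD : WD (gD H c w A' p q) N H c w A' p q :=
    gD_WD hC.card hw hA'H hpqc hA'0 hA'1 hA'ne
  generalize hG' : gD H c w A' p q = G' at hWD
  obtain ⟨hfree', hcol', hpE'⟩ := hGD r hr V _ N H c w A' p q hWD
  have hQr2 : (D : ℝ) + E + 1 = M + r + Q := by exact_mod_cast hQ
  have hA'r : (A'.card : ℝ) = D + E + 1 - M := by
    rw [hA'c]; push_cast; linarith only [hQr2]
  have hpE : pE G' = pE G := by
    rw [hpE', hEID r V G c H hC.ind, hDr, hMr, hEr, hC.card, hA'r]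
    ring
  have hspec := hMX _ hfree' (hcol' hcls) hpE
  obtain ⟨y, hy⟩ := exists_PV G'
  obtain ⟨hp1, hp2, hp12, hpair⟩ := SM1b.wd_pair hWD
  have hmis' : (mis G' H c : ℝ) = 2 := by
    rw [SM1b.mis_mH, SM1b.mH_pair hp1 hp2 hp12 hpair]; norm_num
  have hmisle : mis G' H c ≤ mis G H c := by
    have h3 : mis G' H c = 2 := by exact_mod_cast hmis'
    rw [h3, hM]; omega
  have hind' : ∀ u ∈ H, ∀ v ∈ H, c u = c v → ¬ G'.Adj u v := by
    intro u hu v hv huv hadj
    rw [hWD.adj] at hadj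
    rcases hadj with h3 | h3 | h3
    · exact h3.2.2.1 huv
    · exact hw (h3.1 ▸ hu)
    · exact hw (h3.1 ▸ hv)
  have hC' : C0 r δ1 N G' c H :=
    SM1b.c0_mono (hTRF r δ N V G G' c H hC hind' hpE hmisle) hδa
  obtain ⟨yb, hFl'⟩ := hE1 N hN1 V G' y _ c H hC' hy
  have hcore := hCORE r hr V G G' c H w x y _ _ xb yb e N he0.le (by linarith only [he1])
    (by have : (1 : ℝ) ≤ N := by linarith only [hr3, hN4]
        exact_mod_cast this) (SM1b.c0_mono hC1 hδ1e) hind' hw hx hy hFl hFl' hspec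
  obtain ⟨hnbw, hdgw, _, hsq⟩ := SM1b.wd_deg hWD
  rw [hsq, hnbw, hdgw, SM1b.mH_pair hp1 hp2 hp12 hpair, hDr, hEr] at hcore
  have hs2 := SM1b.s2_le hmax
  rw [hDr] at hs2
  have hxb := hFl.xb0
  have hyb := hFl'.xb0
  have hxy : 0 < xb * yb := mul_pos hxb hyb
  have hexb : e * xb ≤ 1 / 200 * xb := mul_le_mul_of_nonneg_right (by linarith only [he1]) hxb.le
  have heyb : e * yb ≤ 1 / 200 * yb := mul_le_mul_of_nonneg_right (by linarith only [he1]) hyb.le
  have hxH : ∀ v ∈ H, 199 / 200 * xb ≤ x v := by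
    intro v hv
    have := abs_le.mp (hFl.xH v hv)
    linarith only [hexb, this.1]
  have hyH : ∀ v ∈ H, 199 / 200 * yb ≤ y v := by
    intro v hv
    have := abs_le.mp (hFl'.xH v hv)
    linarith only [heyb, this.1]
  have hlow := SM1c.mH_lower2 (G := G) (c := c) (x := x) (y := y)
    (s := 199 / 200 * xb) (t := 199 / 200 * yb) hp hq hpqc hpqa (by positivity) (by positivity)
    hxH hyH
  rw [hMr] at hlow
  have hpqn : (df A' (nb G H w)).card + (df (nb G H w) A').card ≤ A'.card + dg G H w := by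
    unfold df
    exact Nat.add_le_add (Finset.card_filter_le _ _) (Finset.card_filter_le _ _)
  have hpq : ((df A' (nb G H w)).card : ℝ) + (df (nb G H w) A').card
      ≤ A'.card + dg G H w := by
    exact_mod_cast hpqn
  have hpq0 : (0 : ℝ) ≤ (df A' (nb G H w)).card + (df (nb G H w) A').card := by positivity
  generalize ((df A' (nb G H w)).card : ℝ) + (df (nb G H w) A').card = pq at hpq hpq0 hcore
  have ha0 : (0 : ℝ) ≤ dg G H w := Nat.cast_nonneg _
  have haDr : (dg G H w : ℝ) ≤ D := by exact_mod_cast haD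
  have hD0 : (0 : ℝ) ≤ D := Nat.cast_nonneg _
  have hE0 : (0 : ℝ) ≤ E := Nat.cast_nonneg _
  have hQ0 : (0 : ℝ) ≤ Q := Nat.cast_nonneg _
  have hA'2r : (A'.card : ℝ) ≤ 2 * r := by
    rw [hA'c]; push_cast
    have : (Q : ℝ) ≤ r := by exact_mod_cast hQr.le
    linarith only [this]
  have hA'0r : (0 : ℝ) ≤ A'.card := Nat.cast_nonneg _
  have hlamN := abs_le.mp hFl.lamN
  have halr := al_ge hr
  have hlam : N / 2 ≤ specRad G := by
    have h3 : 2 / 3 * (N : ℝ) ≤ al r * N := mul_le_mul_of_nonneg_right halr hNpos.le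
    have h4 : e * N ≤ 1 / 9000 * N := mul_le_mul_of_nonneg_right he1 hNpos.le
    linarith only [h3, h4, hlamN.1]
  have hlam0 : 0 ≤ specRad G := by linarith only [heoN, hlam]
  have hTn : ∑ v ∈ out H, (dg G H v : ℝ) ^ 2 = ((∑ v ∈ out H, dg G H v ^ 2 : ℕ) : ℝ) := by
    push_cast; rfl
  have hTD : ∑ v ∈ out H, dg G H v ^ 2 ≤ dg G H w * D := by
    rw [← hDdef, Finset.mul_sum]
    refine Finset.sum_le_sum fun v hv => ?_
    rw [sq]
    exact Nat.mul_le_mul_right _ (hmax v (mem_out.mp hv))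
  rw [hTn] at hcore
  generalize hTdef : ∑ v ∈ out H, dg G H v ^ 2 = T at hTD hcore
  have hTDr : (T : ℝ) ≤ dg G H w * D := by exact_mod_cast hTD
  by_cases hM' : M = 1
  · -- one missing pair
    have hMr1 : (M : ℝ) = 1 := by exact_mod_cast hM'
    have hA'g : (A'.card : ℝ) = D + E := by rw [hA'r, hMr1]; ring
    have hg3 : 3 ≤ D + E := by omega
    have hTg : T + 1 ≤ (D + E) ^ 2 := by
      by_contra hcon
      have h1 : (D + E) ^ 2 ≤ T := by omega
      have h2 : (D + E) ^ 2 ≤ dg G H w * D := h1.trans hTD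
      have h3 : dg G H w * D ≤ D * D := Nat.mul_le_mul_right _ haD
      have hE00 : E = 0 := by
        by_contra hE1
        have : 1 ≤ E := Nat.one_le_iff_ne_zero.mpr hE1
        nlinarith only [h2, h3, this]
      have hDa : D = dg G H w := by
        rw [hE00, add_zero, sq] at h2
        have : D ≤ dg G H w := Nat.le_of_mul_le_mul_right h2 (by omega)
        omega
      apply hcolG
      refine SM1c.col hC.ind hcl0 ?_ (by rw [hE, hE00])
      intro v hv hvw
      have h5 := Finset.add_sum_erase (out H) (fun v => dg G H v) hwout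
      rw [hDdef, ← hDa] at h5
      have h6 : ∑ v ∈ (out H).erase w, dg G H v = 0 := by omega
      exact Finset.sum_eq_zero_iff.mp h6 v (Finset.mem_erase.mpr ⟨hvw, mem_out.mpr hv⟩)
    have hTgr : (T : ℝ) ≤ ((D : ℝ) + E) ^ 2 - 1 := by
      have : ((T + 1 : ℕ) : ℝ) ≤ (((D + E) ^ 2 : ℕ) : ℝ) := by exact_mod_cast hTg
      push_cast at this
      linarith only [this]
    rw [hA'g] at hcore hpq hA'2r
    have har := SM1c.arithA e r ((D : ℝ) + E) (dg G H w) T pq ((D : ℝ) - dg G H w + E) he0 her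
      (by have : ((3 : ℕ) : ℝ) ≤ ((D + E : ℕ) : ℝ) := by exact_mod_cast hg3
          push_cast at this
          linarith only [this]) hA'2r ha0 (by linarith only [haDr]) hTgr hpq (by linarith only [])
    have har2 := mul_pos hxy har
    rw [hMr1] at hlow
    have h3 : 0 ≤ specRad G * (mH G H c x y - (x p * y q + x q * y p)) :=
      mul_nonneg hlam0 (by linarith only [hlow])
    have e1 : xb * yb * (((D : ℝ) + E) ^ 2 - T - 30 * e * (pq * ((D : ℝ) + E + dg G H w)
          + (T - (dg G H w : ℝ) ^ 2) + ((D : ℝ) - dg G H w + E)))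
        = xb * yb * (((D : ℝ) + E) ^ 2 - T - 30 * e * (pq * ((D : ℝ) + E + dg G H w)
          + (((D : ℝ) + E) ^ 2 - ((D : ℝ) + E) ^ 2)
          + (T - (dg G H w : ℝ) ^ 2) + ((D : ℝ) - dg G H w + 2 * E / 2))) := by
      ring
    rw [e1] at har2
    linarith only [hcore, har2, h3]
  · have hM2 : 2 ≤ M := by omega
    have hM2r : (2 : ℝ) ≤ M := by exact_mod_cast hM2
    have hdiff : 19 / 10 * (M - 1) * (xb * yb)
        ≤ mH G H c x y - (x p * y q + x q * y p) := by
      have h3 : (2 * (M : ℝ) - 2) * (199 / 200 * xb * (199 / 200 * yb))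
          - 19 / 10 * (M - 1) * (xb * yb)
          = ((2 * M - 2) * (39601 / 40000) - 19 / 10 * (M - 1)) * (xb * yb) := by
        ring
      have h4 : 0 ≤ ((2 * (M : ℝ) - 2) * (39601 / 40000) - 19 / 10 * (M - 1))
          * (xb * yb) := mul_nonneg (by linarith only [hM2r]) hxy.le
      linarith only [hlow, h4]
    have hX : 9 / 10 * (N * ((M : ℝ) - 1)) ≤ specRad G * (19 / 10 * (M - 1)) := by
      have h3 : N / 2 * (19 / 10 * ((M : ℝ) - 1)) ≤ specRad G * (19 / 10 * (M - 1)) :=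
        mul_le_mul_of_nonneg_right hlam (by linarith only [hM2r])
      have h4 : 0 ≤ (N : ℝ) * (M - 1) := mul_nonneg hNpos.le (by linarith only [hM2r])
      linarith only [h3, h4]
    have haN : (dg G H w : ℝ) ≤ e * N := by
      have h3 : δ * N ≤ e * N := mul_le_mul_of_nonneg_right (by linarith only [hδ1, hδ1e,
          hδa]) hNpos.le
      linarith only [heoN, haDr, h3]
    have har := SM1c.arithB e r N (dg G H w) A'.card D E (M - 1) T pq
      (specRad G * (19 / 10 * (M - 1))) he0 hr3 her hN16 ha0 hA'0r hA'2r hD0 hE0 haDr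
      (by rw [hA'r]; ring) (by linarith only [hM2r]) hTDr haN hpq hX
    have har2 := mul_pos hxy har
    have h3 := mul_le_mul_of_nonneg_left hdiff hlam0
    have e1 : xb * yb * (specRad G * (19 / 10 * (M - 1)) + ((A'.card : ℝ) ^ 2 - T
          - 30 * e * (pq * ((A'.card : ℝ) + dg G H w)
          + (T - (dg G H w : ℝ) ^ 2) + ((D : ℝ) - dg G H w + E))))
        = specRad G * (19 / 10 * (M - 1) * (xb * yb)) + xb * yb * ((A'.card : ℝ) ^ 2 - T
          - 30 * e * (pq * ((A'.card : ℝ) + dg G H w)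
          + ((A'.card : ℝ) ^ 2 - (A'.card : ℝ) ^ 2)
          + (T - (dg G H w : ℝ) ^ 2) + ((D : ℝ) - dg G H w + 2 * E / 2))) := by
      ring
    rw [e1] at har2
    linarith only [hcore, har2, h3]

end Pool.Agent.Work.MP_5532fa_up

end

section

/-!
# MP_5532fa_co, upgrade: the structure of all extremal graphs, final form
-/

open Finset

namespace Pool.Agent.Work.MP_5532fa_up

open MP5532fa (specRad qf pE)

/-- the two types -/
def Stmt_SM3 : Prop := ∀ (r : ℕ), 3 ≤ r → ∃ (δ : ℝ) (N0 : ℕ), 0 < δ ∧ ∀ N ≥ N0,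
  ∀ (V : Type) [Fintype V] (G : SimpleGraph V) (c : V → Fin r) (H : Finset V),
    C0 r δ N G c H → G.CliqueFree (r + 1) → ¬ G.Colorable r → MX r G →
    (∃ (w : V) (A : Finset V) (v1 v2 : V), WD G N H c w A v1 v2) ∨
    (∃ H' : Finset V, H' ⊆ H ∧ H.card ≤ H'.card + 1 ∧
      ∃ (w u : V) (A B : Finset V) (i0 : Fin r), WE G H'.card H' c w u A B i0)

theorem sm3 (hSM : Stmt_SM) (hSTAR : Stmt_STAR) (hFWE : Stmt_FWE)
    (hEVN : Stmt_EVN) : Stmt_SM3 := by
  classical
  intro r hr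
  obtain ⟨d0, n0, hd0, H0⟩ := hSM r hr
  obtain ⟨d1, n1, hd1, H1⟩ := hSTAR r hr
  have hrr : (3 : ℝ) ≤ r := by exact_mod_cast hr
  have hr4 : (0 : ℝ) < 1 / (4 * r) := by positivity
  refine ⟨min (min d0 d1) (1 / (4 * r)), n0 + n1 + 1, lt_min (lt_min hd0 hd1) hr4, ?_⟩
  intro N hN V _ G c H hC hfree hcol hMX
  have l0 : min (min d0 d1) (1 / (4 * (r : ℝ))) ≤ d0 := (min_le_left _ _).trans (min_le_left _ _)
  have l1 : min (min d0 d1) (1 / (4 * (r : ℝ))) ≤ d1 := (min_le_left _ _).trans (min_le_right _ _)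
  have l2 : min (min d0 d1) (1 / (4 * (r : ℝ))) ≤ 1 / (4 * r) := min_le_right _ _
  rcases H0 N (by omega) V G c H (hC.mono l0) hfree hcol hMX with h | ⟨w, u, A, B, i0, h⟩ |
    ⟨w, T, h⟩
  · exact Or.inl h
  · refine Or.inr ⟨H, Finset.Subset.refl _, by omega, w, u, A, B, i0, ?_⟩
    rw [h.card]; exact h
  · have hCr := hC.mono l2
    have hN1 : 1 ≤ N := by omega
    have hNr : (1 : ℝ) ≤ N := by exact_mod_cast hN1
    have hNN : (0 : ℝ) < N / r := by positivity
    have e1 : 1 / (4 * (r : ℝ)) * N = N / r / 4 := by field_simp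
    have hm : ∀ i, mis G H c < (cl H c i).card := by
      intro i
      have h1 := hCr.mis
      have h2 := (abs_le.mp (hCr.bal i)).1
      rw [e1] at h1 h2
      have h3 : (mis G H c : ℝ) < sz H c i := by linarith
      unfold sz at h3
      exact_mod_cast h3
    obtain ⟨a, ha, b, hb, hab, hadj⟩ := h.hF
    have hca : c a ≠ c b := by
      intro hcc
      obtain ⟨z, hz⟩ := Finset.card_eq_one.mp (h.hT1 (c b))
      have h1 : a ∈ cl T c (c b) := mem_cl.mpr ⟨ha, hcc⟩
      have h2 : b ∈ cl T c (c b) := mem_cl.mpr ⟨hb, rfl⟩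
      rw [hz, Finset.mem_singleton] at h1 h2
      exact hab (h1.trans h2.symm)
    obtain ⟨K, rfl⟩ : ∃ K, N = K + 1 := ⟨N - 1, by omega⟩
    -- a star of missing pairs
    have hstar : ∃ p ∈ T, ∀ a b, FM G H c a b → a = p ∨ b = p := by
      by_cases h4 : 4 ≤ mis G H c
      · exact H1 (K + 1) (by omega) V G c H w T (hC.mono l1) h hMX h4
      · -- at most two missing pairs
        refine ⟨a, ha, ?_⟩
        rintro a' b' ⟨h1, h2, h3, h4'⟩
        by_contra hno
        push Not at hno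
        have hsub : ({(a, b), (b, a), (a', b')} : Finset (V × V)) ⊆
            (H ×ˢ H).filter (fun e => c e.1 ≠ c e.2 ∧ ¬ G.Adj e.1 e.2) := by
          intro e he
          simp only [Finset.mem_insert, Finset.mem_singleton] at he
          rw [Finset.mem_filter, Finset.mem_product]
          rcases he with rfl | rfl | rfl
          · exact ⟨⟨h.hT ha, h.hT hb⟩, hca, hadj⟩
          · exact ⟨⟨h.hT hb, h.hT ha⟩, hca.symm, fun q => hadj q.symm⟩
          · exact ⟨⟨h1, h2⟩, h3, h4'⟩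
        have hc3 : ({(a, b), (b, a), (a', b')} : Finset (V × V)).card = 3 := by
          rw [Finset.card_insert_of_notMem, Finset.card_insert_of_notMem, Finset.card_singleton]
          · rw [Finset.mem_singleton]
            intro q
            exact hno.2 (Prod.mk.inj q).2.symm
          · rw [Finset.mem_insert, Finset.mem_singleton]
            rintro (q | q)
            · exact hab (Prod.mk.inj q).1
            · exact hno.1 (Prod.mk.inj q).1.symm
        have hle : 3 ≤ mis G H c := by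
          rw [← hc3]
          exact Finset.card_le_card hsub
        obtain ⟨q, hq⟩ := (hEVN r V G c H).1
        omega
    obtain ⟨p, hp, hF⟩ := hstar
    obtain ⟨A, B, hWE⟩ := hFWE r hr V G K c H w p T h hm hp hF
    refine Or.inr ⟨H.erase p, Finset.erase_subset _ _, ?_, p, w, A, B, c p, ?_⟩
    · rw [hWE.card, h.card]
    · rw [hWE.card]; exact hWE

/-- sizes of the classes of a slightly smaller set -/
theorem size_erase {V : Type} [Fintype V] {r : ℕ} (hr : 3 ≤ r) {H H' : Finset V} {c : V → Fin r}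
    {M : ℝ} (hs : H' ⊆ H) (hc : H.card ≤ H'.card + 1) (hM : (H.card : ℝ) = M) (h4 : 5 ≤ H.card)
    (h : ∀ i, |sz H c i - M / r| ≤ 2 * √M) (i : Fin r) :
    |sz H' c i - (H'.card : ℝ) / r| ≤ 3 * √(H'.card : ℝ) := by
  classical
  have hrr : (3 : ℝ) ≤ r := by exact_mod_cast hr
  have hle : H'.card ≤ H.card := Finset.card_le_card hs
  have hle' : (H'.card : ℝ) ≤ M := by rw [← hM]; exact_mod_cast hle
  have hge' : M ≤ (H'.card : ℝ) + 1 := by rw [← hM]; exact_mod_cast hc
  have hsz : sz H' c i ≤ sz H c i := by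
    unfold sz
    have : (cl H' c i).card ≤ (cl H c i).card := by
      apply Finset.card_le_card
      intro v hv
      obtain ⟨h1, h2⟩ := mem_cl.mp hv
      exact mem_cl.mpr ⟨hs h1, h2⟩
    exact_mod_cast this
  have hsz' : sz H c i ≤ sz H' c i + 1 := by
    unfold sz
    have h1 : (cl H c i).card ≤ (cl H' c i).card + (H \ H').card := by
      rw [← Nat.sub_le_iff_le_add']
      refine (Finset.le_card_sdiff _ _).trans ?_
      apply Finset.card_le_card
      intro v hv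
      rw [Finset.mem_sdiff] at hv ⊢
      obtain ⟨h1, h2⟩ := mem_cl.mp hv.1
      exact ⟨h1, fun h3 => hv.2 (mem_cl.mpr ⟨h3, h2⟩)⟩
    have h2 : (H \ H').card ≤ 1 := by
      rw [Finset.card_sdiff_of_subset hs]; omega
    have : (cl H c i).card ≤ (cl H' c i).card + 1 := by omega
    exact_mod_cast this
  have h5 : (4 : ℝ) ≤ H'.card := by
    have : 4 ≤ H'.card := by omega
    exact_mod_cast this
  set t := √(H'.card : ℝ) with ht
  have ht0 : 0 ≤ t := Real.sqrt_nonneg _
  have ht2 : t ^ 2 = (H'.card : ℝ) := Real.sq_sqrt (by linarith)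
  have ht3 : 2 ≤ t := by nlinarith
  have hM2 : √M ≤ t + 1 / 4 := by
    rw [← Real.sqrt_sq (by linarith : (0 : ℝ) ≤ t + 1 / 4)]
    apply Real.sqrt_le_sqrt
    nlinarith
  have hi := h i
  rw [abs_le] at hi ⊢
  have hd : M / r - (H'.card : ℝ) / r ≤ 1 / 3 := by
    rw [← sub_div, div_le_iff₀ (by linarith)]
    linarith
  have hd' : (H'.card : ℝ) / r ≤ M / r := div_le_div_of_nonneg_right hle' (by linarith)
  constructor
  · linarith [hi.1]
  · linarith [hi.2]

/-- the structure of all extremal graphs with many edges, final form -/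
theorem univ3 (hSM3 : Stmt_SM3) (hFIN3 : Stmt_FIN3) (hB1U2 : Stmt_B1U2) (hB1C2 : Stmt_B1C2)
    (hLOWX : Stmt_LOWX) (hTN : Stmt_TN) (r : ℕ) (hr : 3 ≤ r) :
    ∃ m0 : ℕ, ∀ m ≥ m0, ∀ N j : ℕ, m = tn r N + j → m < tn r (N + 1) →
      ∀ (V : Type) [Fintype V] (G : SimpleGraph V), G.CliqueFree (r + 1) →
      ¬ G.Colorable r → pE G = 2 * (m : ℝ) →
      (∀ (V' : Type) [Fintype V'] (G' : SimpleGraph V'), G'.CliqueFree (r + 1) →
        ¬ G'.Colorable r → pE G' = 2 * (m : ℝ) → specRad G' ≤ specRad G) →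
      ∃ (c : V → Fin r) (H : Finset V), N ≤ H.card + 1 ∧ H.card ≤ N + 1 ∧
        (∀ i, |sz H c i - (H.card : ℝ) / r| ≤ 3 * √(H.card : ℝ)) ∧
        ((∃ (w : V) (A : Finset V) (v1 v2 : V), WD G H.card H c w A v1 v2) ∨
         (∃ (w u : V) (A B : Finset V) (i0 : Fin r), WE G H.card H c w u A B i0)) := by
  classical
  obtain ⟨dS, nS, hdS, HS⟩ := hSM3 r hr
  obtain ⟨ε, hε, HF⟩ := hFIN3 r dS hr hdS
  obtain ⟨dU, nU, hdU, HU⟩ := hB1U2 r ε hr hε
  obtain ⟨dC, nC, hdC, HC⟩ := hB1C2 r ε hr hε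
  obtain ⟨δ1, nF, hδ1, HF'⟩ := HF (min dU dC) (lt_min hdU hdC)
  obtain ⟨nL, HL⟩ := hLOWX r δ1 hr hδ1
  set M := nS + nU + nC + nF + nL + 5 with hM
  refine ⟨M ^ 2 + 1, ?_⟩
  intro m hm N j hmj hlt V _ G hfree hcol hpE hmax
  have hNM := large_N hTN hr M hm hlt
  have hj := j_le hTN hr hmj hlt
  have hV : Nonempty V := by
    by_contra h
    rw [not_nonempty_iff] at h
    exact hcol (SimpleGraph.Colorable.of_isEmpty _)
  have hMX : MX r G := fun G' a b e => hmax V G' a b (e.trans hpE)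
  have hp : |pE G - al r * N ^ 2 - 2 * j| ≤ (r : ℝ) :=
    pE_near hTN hr (by rw [hpE, hmj]; push_cast; ring)
  obtain ⟨G0, a, b, cL, dL⟩ := HL N (by omega) j hj
  have hlow := hmax (Fin (N + 3)) G0 a b (by rw [cL, hmj]; push_cast; ring)
  obtain ⟨x, hx⟩ := exists_PV G
  have fin : ∀ (N' : ℕ) (c : V → Fin r) (H : Finset V), N ≤ N' → N' ≤ N + 1 →
      C0 r dS N' G c H →
      (∀ i, |sz H c i - (N' : ℝ) / r| ≤ 2 * √(N' : ℝ)) → ∃ (c : V → Fin r) (H : Finset V),
        N ≤ H.card + 1 ∧ H.card ≤ N + 1 ∧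
        (∀ i, |sz H c i - (H.card : ℝ) / r| ≤ 3 * √(H.card : ℝ)) ∧
        ((∃ (w : V) (A : Finset V) (v1 v2 : V), WD G H.card H c w A v1 v2) ∨
         (∃ (w u : V) (A B : Finset V) (i0 : Fin r), WE G H.card H c w u A B i0)) := by
    intro N' c H hN1 hN2 hC hs
    have hcard := hC.card
    rcases HS N' (by omega) V G c H hC hfree hcol hMX with h | ⟨H', hsub, hc, h⟩
    · refine ⟨c, H, by omega, by omega, fun i => ?_, Or.inl (by rw [hcard]; exact h)⟩
      exact size_erase hr (Finset.Subset.refl _) (Nat.le_succ _) (by rw [hcard]) (by omega) hs i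
    · have hle := Finset.card_le_card hsub
      exact ⟨c, H', by omega, by omega,
        fun i => size_erase hr hsub hc (by rw [hcard]) (by omega) hs i, Or.inr h⟩
  rcases HF' N (by omega) j hj V G x (specRad G) hfree hx hp (by linarith) with
    ⟨c, H, hC, hs, -⟩ | ⟨c, H, hC, hs, -⟩ | ⟨hRg, c, H, w, hFD, hs⟩
  · exact fin N c H le_rfl (by omega) hC hs
  · exact fin (N + 1) c H (by omega) le_rfl hC (by push_cast; exact hs)
  · have hcard := hFD.card
    refine ⟨c, H, by omega, by omega, fun i => size_erase hr (Finset.Subset.refl _)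
      (Nat.le_succ _) (by rw [hcard]) (by omega) hs i, ?_⟩
    rw [hcard]
    by_cases hall : ∀ i, (cl (nb G H w) c i).Nonempty
    · obtain ⟨v1, v2, h⟩ := HU N (by omega) j hRg V G x _ c H w (hFD.mono (min_le_left _ _)) hfree
        hMX hall
      exact Or.inl ⟨w, _, v1, v2, h⟩
    · push Not at hall
      obtain ⟨i0, hi0⟩ := hall
      obtain ⟨u, B, i1, h⟩ := HC N (by omega) j hRg V G x _ c H w i0
        (hFD.mono (min_le_right _ _)) hfree hcol hMX hi0
      exact Or.inr ⟨w, u, _, B, i1, h⟩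

/-- extremal graphs exist -/
theorem exists_ext (hLOWX : Stmt_LOWX) (hTN : Stmt_TN) (hLAB : Stmt_LAB) (hTRANS : Stmt_TRANS)
    (r : ℕ) (hr : 3 ≤ r) : ∃ m0 : ℕ, ∀ m ≥ m0, ∃ G : SimpleGraph (Fin (2 * m)),
      G.CliqueFree (r + 1) ∧ ¬ G.Colorable r ∧ pE G = 2 * (m : ℝ) ∧
      ∀ (V' : Type) [Fintype V'] (G' : SimpleGraph V'), G'.CliqueFree (r + 1) →
        ¬ G'.Colorable r → pE G' = 2 * (m : ℝ) → specRad G' ≤ specRad G := by
  classical
  obtain ⟨nL, HL⟩ := hLOWX r 1 hr one_pos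
  refine ⟨(nL + 1) ^ 2 + 1, ?_⟩
  intro m hm
  obtain ⟨N, j, hmj, hlt⟩ := exists_N hTN hr m
  have hNM := large_N hTN hr (nL + 1) hm hlt
  have hj := j_le hTN hr hmj hlt
  have hm1 : 1 ≤ m := by omega
  -- moving a graph to `Fin (2 * m)`
  have move : ∀ (V : Type) [Fintype V] (G : SimpleGraph V), G.CliqueFree (r + 1) →
      ¬ G.Colorable r → pE G = 2 * (m : ℝ) → ∃ G' : SimpleGraph (Fin (2 * m)),
        specRad G' = specRad G ∧ G'.CliqueFree (r + 1) ∧ ¬ G'.Colorable r ∧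
          pE G' = 2 * (m : ℝ) := by
    intro V _ G hfree hcol hpE
    set S : Finset V := univ.filter (fun v => ∃ u, G.Adj v u) with hS
    have hSm : ∀ v, v ∈ S ↔ ∃ u, G.Adj v u := by intro v; rw [hS]; simp
    have hadS : ∀ a b, G.Adj a b → a ∈ S := fun a b h => (hSm a).mpr ⟨b, h⟩
    have hSne : S.Nonempty := by
      by_contra hne
      rw [Finset.not_nonempty_iff_eq_empty] at hne
      apply hcol
      have hr0 : 0 < r := by omega
      refine ⟨SimpleGraph.Coloring.mk (fun _ => (⟨0, hr0⟩ : Fin r)) fun {a b} hab => ?_⟩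
      exfalso
      have := hadS a b hab
      rw [hne] at this
      exact absurd this (Finset.notMem_empty a)
    set K : SimpleGraph {v // v ∈ S} := G.comap (Subtype.val : {v // v ∈ S} → V) with hK
    have e1 : specRad G = specRad K := by
      refine hLAB V V {v // v ∈ S} G.Adj G K S univ id Subtype.val ?_ ?_ ?_ hSne
      · intro a b
        constructor
        · intro h
          exact ⟨hadS a b h, hadS b a h.symm, h.ne, h⟩
        · rintro ⟨_, _, _, h⟩
          exact h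
      · intro a b
        constructor
        · intro h
          exact ⟨Finset.mem_univ _, Finset.mem_univ _, h.ne, h⟩
        · rintro ⟨_, _, _, h⟩
          exact h
      · intro s
        by_cases hs : s ∈ S
        · have a1 : fib S id s = {s} := by
            ext v
            rw [mem_fib, Finset.mem_singleton]
            exact ⟨fun h => h.2, fun h => ⟨h ▸ hs, h⟩⟩
          have a2 : fib (univ : Finset {v // v ∈ S}) Subtype.val s = {⟨s, hs⟩} := by
            ext v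
            rw [mem_fib, Finset.mem_singleton]
            exact ⟨fun h => Subtype.ext h.2, fun h => ⟨Finset.mem_univ _, by rw [h]⟩⟩
          rw [a1, a2, Finset.card_singleton, Finset.card_singleton]
        · have a1 : fib S id s = ∅ := by
            rw [Finset.eq_empty_iff_forall_notMem]
            intro v hv
            obtain ⟨h1, h2⟩ := mem_fib.mp hv
            have h3 : v = s := h2
            exact hs (h3 ▸ h1)
          have a2 : fib (univ : Finset {v // v ∈ S}) Subtype.val s = ∅ := by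
            rw [Finset.eq_empty_iff_forall_notMem]
            intro v hv
            obtain ⟨h1, h2⟩ := mem_fib.mp hv
            exact hs (h2 ▸ v.2)
          rw [a1, a2, Finset.card_empty, Finset.card_empty]
    have e2 : pE K = pE G := by
      rw [pE_ad, pE_ad]
      have h0 : ∀ v, v ∉ S → ∀ u, ad G v u = 0 := by
        intro v hv u
        exact chi_neg (fun h => hv (hadS v u h))
      have h1 : ∑ u, ∑ v, ad G u v = ∑ u ∈ S, ∑ v ∈ S, ad G u v := by
        symm
        rw [← Finset.sum_subset (Finset.subset_univ S)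
          (f := fun u => ∑ v, ad G u v) (fun u _ hu => Finset.sum_eq_zero fun v _ => h0 u hu v)]
        refine Finset.sum_congr rfl fun u _ => ?_
        exact Finset.sum_subset (Finset.subset_univ S) fun v _ hv => by
          rw [ad_comm]; exact h0 v hv u
      rw [h1, ← Finset.sum_coe_sort S (fun u => ∑ v ∈ S, ad G u v)]
      refine Finset.sum_congr rfl fun u _ => ?_
      rw [← Finset.sum_coe_sort S (fun v => ad G u v)]
      rfl
    have hcardS : Fintype.card {v // v ∈ S} ≤ Fintype.card (Fin (2 * m)) := by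
      rw [Fintype.card_fin, Fintype.card_coe]
      have h1 : ((S.card : ℕ) : ℝ) ≤ pE G := by
        rw [pE_ad]
        have h2 : ∀ u ∈ S, (1 : ℝ) ≤ ∑ v, ad G u v := by
          intro u hu
          obtain ⟨v, hv⟩ := (hSm u).mp hu
          have : ad G u v = 1 := chi_pos hv
          rw [← this]
          exact Finset.single_le_sum (f := fun v => ad G u v) (fun _ _ => chi_nonneg _)
            (Finset.mem_univ v)
        calc ((S.card : ℕ) : ℝ) = ∑ u ∈ S, (1 : ℝ) := by simp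
          _ ≤ ∑ u ∈ S, ∑ v, ad G u v := Finset.sum_le_sum h2
          _ ≤ ∑ u, ∑ v, ad G u v := Finset.sum_le_sum_of_subset_of_nonneg
              (Finset.subset_univ S) fun _ _ _ => Finset.sum_nonneg fun _ _ => chi_nonneg _
      rw [hpE] at h1
      exact_mod_cast h1
    obtain ⟨s0, hs0⟩ := hSne
    obtain ⟨G', f1, f2, f3⟩ := hTRANS {v // v ∈ S} (Fin (2 * m)) K ⟨⟨s0, hs0⟩⟩ hcardS
    obtain ⟨f4, f5⟩ := f3 r (by omega)
    have hKfree : K.CliqueFree (r + 1) :=
      hfree.comap ⟨(SimpleGraph.Embedding.comap ⟨Subtype.val, Subtype.val_injective⟩ G).toCopy⟩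
    have hKcol : ¬ K.Colorable r := by
      rintro ⟨C⟩
      apply hcol
      have hr0 : 0 < r := by omega
      refine ⟨SimpleGraph.Coloring.mk
        (fun v => if h : v ∈ S then C ⟨v, h⟩ else (⟨0, hr0⟩ : Fin r)) fun {a b} hab => ?_⟩
      have ha := hadS a b hab
      have hb := hadS b a hab.symm
      rw [dif_pos ha, dif_pos hb]
      exact C.valid (show K.Adj ⟨a, ha⟩ ⟨b, hb⟩ from hab)
    exact ⟨G', f1.trans e1.symm, f4 hKfree, fun h => hKcol (f5 h), f2.trans (e2.trans hpE)⟩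
  obtain ⟨G0, a, b, cL, -⟩ := HL N (by omega) j hj
  obtain ⟨G1, g1, g2, g3, g4⟩ := move (Fin (N + 3)) G0 a b (by rw [cL, hmj]; push_cast; ring)
  obtain ⟨G, hG, hmax⟩ := Finset.exists_max_image
    ((univ : Finset (SimpleGraph (Fin (2 * m)))).filter (fun G => G.CliqueFree (r + 1) ∧
      ¬ G.Colorable r ∧ pE G = 2 * (m : ℝ))) (fun G => specRad G)
    ⟨G1, Finset.mem_filter.mpr ⟨Finset.mem_univ _, g2, g3, g4⟩⟩
  obtain ⟨-, h1, h2, h3⟩ := Finset.mem_filter.mp hG
  refine ⟨G, h1, h2, h3, ?_⟩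
  intro V' _ G' i1 i2 i3
  obtain ⟨G2, k1, k2, k3, k4⟩ := move V' G' i1 i2 i3
  rw [← k1]
  exact hmax G2 (Finset.mem_filter.mpr ⟨Finset.mem_univ _, k2, k3, k4⟩)

end Pool.Agent.Work.MP_5532fa_up

end

section

open Finset

namespace Pool.Agent.Work.MP_5532fa_up

open MP5532fa (specRad qf pE)

theorem blk_TIEU (hFAM : Stmt_FAM) (hCSE : Stmt_CSE) (hEST : Stmt_ESTU) : Stmt_TIEU := by
  intro r ε hr hε
  obtain ⟨δ, N0, hδ, hE⟩ := hEST r (1 / 2) hr (by norm_num)
  refine ⟨δ, max N0 1, hδ, ?_⟩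
  intro N hN j hj V _ G G' H c w u A B B' i0 hG hG' h1 h1' hnear
  have hN0 : N0 ≤ N := le_trans (le_max_left _ _) hN
  have hN1 : 1 ≤ N := le_trans (le_max_right _ _) hN
  have hF := (hFAM r hr V G N H c w A).2 u B i0 hG
  have hF' := (hFAM r hr V G' N H c w A).2 u B' i0 hG'
  have hV : Nonempty V := ⟨w⟩
  obtain ⟨x, hx⟩ := exists_PV G
  obtain ⟨y, hy⟩ := exists_PV G'
  obtain ⟨xb, hxb⟩ := hE N hN0 j (RgU.le hr hε hj) V G H c w A _ x _ hF hx hG.card hnear
  obtain ⟨yb, hyb⟩ := hE N hN0 j (RgU.le hr hε hj) V G' H c w A _ y _ hF' hy hG'.card hnear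
  have hNr : (1 : ℝ) ≤ N := by exact_mod_cast hN1
  have hal := al_ge hr
  have hpos : ∀ l : ℝ, |l - al r * N| ≤ 1 / 2 * N → 0 < l := by
    intro l hl
    have := (abs_le.1 hl).1
    nlinarith
  have hcard : 0 < H.card := by rw [hG.card]; omega
  obtain ⟨v, hv⟩ := Finset.card_pos.1 hcard
  have hxv : 0 < x v := by
    have := (abs_le.1 (hxb.xH v hv)).1
    have := hxb.xb0
    linarith
  have hyv : 0 < y v := by
    have := (abs_le.1 (hyb.xH v hv)).1
    have := hyb.xb0
    linarith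
  refine TIE.main hCSE hF hF' hx hy hG.hu hG.hB hG'.hB ?_ h1 h1' (hpos _ hxb.lamN)
    (hpos _ hyb.lamN) ?_
  · intro i
    by_cases hi : i = i0
    · rw [hi, hG.hB0, hG'.hB0]
    · rw [hG.hB1 i hi, hG'.hB1 i hi]
  · have h2 : x v * y v ≤ ∑ v, x v * y v :=
      Finset.single_le_sum (f := fun v => x v * y v)
        (fun i _ => mul_nonneg (hx.nn i) (hy.nn i)) (Finset.mem_univ v)
    have h3 : 0 < x v * y v := mul_pos hxv hyv
    linarith

end Pool.Agent.Work.MP_5532fa_up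

end

section

/-!
# MP_5532fa_co, upgrade, block FIN3 (helper63; after FINA and UPX): the fine data for all numbers
of edges
-/

set_option linter.unusedSectionVars false

open Finset

namespace Pool.Agent.Work.MP_5532fa_up

open MP5532fa (specRad qf pE)

namespace FIN3

open FINA

lemma sqrt_le_mul {δ y : ℝ} (hδ : 0 < δ) (hy0 : 0 < y) (hy : (2 / δ) ^ 2 ≤ y) :
    2 * √y ≤ δ * y := by
  have h1 : 2 / δ ≤ √y := Real.le_sqrt_of_sq_le hy
  have h2 : 2 ≤ √y * δ := (div_le_iff₀ hδ).mp h1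
  have h3 : √y * √y = y := Real.mul_self_sqrt hy0.le
  have h4 : 0 < √y := Real.sqrt_pos.mpr hy0
  calc 2 * √y ≤ (√y * δ) * √y := mul_le_mul_of_nonneg_right h2 h4.le
    _ = δ * y := by rw [mul_comm (√y) δ, mul_assoc, h3]

/-- the fine data of FINA, from the estimates -/
lemma fd_of {r : ℕ} (hr : 3 ≤ r) {V : Type} [Fintype V] {G : SimpleGraph V} {x : V → ℝ}
    {lam t η K1 K2 δ ε2 x0 : ℝ} {c : V → Fin r} {H : Finset V} {N j : ℕ} (hpv : PV G x lam)
    (hHD : HD r η K2 G x lam t c H) (hcard : H.card = N) (hδ : 0 < δ) (hε2pos : 0 < ε2)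
    (hε2a : ε2 ≤ δ / 32) (hε2b : ε2 ≤ δ ^ 2 / 512) (hN1 : (1 : ℝ) ≤ N)
    (hN4' : 8 * K1 ≤ (N : ℝ) * δ) (hK1 : 1 ≤ K1) (hK2 : 1 ≤ K2)
    (hq2 : K2 / √(N : ℝ) ≤ δ / 8) (hq3 : K1 / (N : ℝ) ≤ δ / 8)
    (hx0 : x0 = (j : ℝ) / (al r * N)) (hr1 : |lam - al r * N| ≤ K1) (hr2 : |t * N - 1| ≤ K1 / N)
    (hlamlo : (N : ℝ) / 2 ≤ lam) (hlamhi : lam ≤ 2 * N)
    (hC : ∀ v, v ∉ H → (dg G H v : ℝ) / lam ≤ 1) {w : V} (hw : w ∈ out H)
    (hXw : |(dg G H w : ℝ) / lam - x0| ≤ ε2)
    (hrest : ∑ v ∈ out H, (dg G H v : ℝ) / lam - (dg G H w : ℝ) / lam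
      + (eu G H : ℝ) / (2 * al r * N) + imb H c / (2 * al r * N)
      + (mis G H c : ℝ) / (2 * al r * N) ≤ ε2) : FD r δ N j G x lam c H w := by
  have hal1 := al_ge hr
  have hal2 := al_lt hr
  have halpos : 0 < al r := by linarith only [hal1]
  have hNpos : (0 : ℝ) < N := by linarith only [hN1]
  have hlampos : 0 < lam := by linarith only [hlamlo, hNpos]
  have hSpos : 0 < √(N : ℝ) := Real.sqrt_pos.mpr hNpos
  have hSS : √(N : ℝ) * √(N : ℝ) = N := Real.mul_self_sqrt hNpos.le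
  have hSN : √(N : ℝ) ≤ N := by
    rw [Real.sqrt_le_left hNpos.le]
    calc (N : ℝ) = N * 1 := (mul_one _).symm
      _ ≤ N * N := mul_le_mul_of_nonneg_left hN1 hNpos.le
      _ = (N : ℝ) ^ 2 := by ring
  have hNε : (N : ℝ) * ε2 ≤ N * (δ / 32) := mul_le_mul_of_nonneg_left hε2a hNpos.le
  have hr1' := abs_le.mp hr1
  have hden : 0 < 2 * al r * N := by positivity
  have heu0 : 0 ≤ (eu G H : ℝ) / (2 * al r * N) := by positivity
  have himb0 : 0 ≤ imb H c := Finset.sum_nonneg fun _ _ => sq_nonneg _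
  have hsg0 : 0 ≤ imb H c / (2 * al r * N) := div_nonneg himb0 hden.le
  have hmu0 : 0 ≤ (mis G H c : ℝ) / (2 * al r * N) := by positivity
  have hX0 : ∀ v, 0 ≤ (dg G H v : ℝ) / lam := fun v => by positivity
  have hwH : w ∉ H := mem_out.mp hw
  have hsum0 : 0 ≤ ∑ v ∈ out H, (dg G H v : ℝ) / lam - (dg G H w : ℝ) / lam := by
    have := Finset.single_le_sum (f := fun v => (dg G H v : ℝ) / lam) (fun v _ => hX0 v) hw
    linarith only [this]
  have hmis1 : (mis G H c : ℝ) ≤ 2 * ε2 * N := by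
    have h1 : (mis G H c : ℝ) / (2 * al r * N) ≤ ε2 := by linarith only [hrest, heu0, hsg0, hsum0]
    have h2 := (div_le_iff₀ hden).mp h1
    calc (mis G H c : ℝ) ≤ ε2 * (2 * al r * N) := h2
      _ = (2 * ε2 * N) * al r := by ring
      _ ≤ (2 * ε2 * N) * 1 := mul_le_mul_of_nonneg_left hal2.le (by positivity)
      _ = _ := mul_one _
  have himb1 : imb H c ≤ 2 * ε2 * N := by
    have h1 : imb H c / (2 * al r * N) ≤ ε2 := by linarith only [hrest, heu0, hmu0, hsum0]
    have h2 := (div_le_iff₀ hden).mp h1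
    calc imb H c ≤ ε2 * (2 * al r * N) := h2
      _ = (2 * ε2 * N) * al r := by ring
      _ ≤ (2 * ε2 * N) * 1 := mul_le_mul_of_nonneg_left hal2.le (by positivity)
      _ = _ := mul_one _
  have heu1 : (eu G H : ℝ) ≤ 2 * ε2 * N := by
    have h1 : (eu G H : ℝ) / (2 * al r * N) ≤ ε2 := by linarith only [hrest, hsg0, hmu0, hsum0]
    have h2 := (div_le_iff₀ hden).mp h1
    calc (eu G H : ℝ) ≤ ε2 * (2 * al r * N) := h2
      _ = (2 * ε2 * N) * al r := by ring
      _ ≤ (2 * ε2 * N) * 1 := mul_le_mul_of_nonneg_left hal2.le (by positivity)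
      _ = _ := mul_one _
  have hbal : ∀ i, |sz H c i - (N : ℝ) / r| ≤ δ / 16 * √(N : ℝ) := by
    intro i
    apply bal_of_imb hcard (by positivity)
    refine himb1.trans ?_
    rw [mul_pow, Real.sq_sqrt hNpos.le]
    have : 2 * ε2 ≤ (δ / 16) ^ 2 := by
      have h1 : (δ / 16) ^ 2 = δ ^ 2 / 256 := by ring
      rw [h1]; linarith only [hε2b]
    exact mul_le_mul_of_nonneg_right this hNpos.le
  have hbal' : ∀ i, |sz H c i - (N : ℝ) / r| ≤ δ / 16 * N := by
    intro i
    refine (hbal i).trans (mul_le_mul_of_nonneg_left ?_ (by positivity))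
    exact hSN
  -- the eigenvector
  have hdgN : ∀ v, (dg G H v : ℝ) ≤ N := by
    intro v
    have h1 : (nb G H v).card ≤ H.card := Finset.card_le_card (fun u hu => (mem_nb.mp hu).1)
    rw [hcard] at h1
    unfold dg
    exact_mod_cast h1
  have hX2 : ∀ v, (dg G H v : ℝ) / lam ≤ 2 := by
    intro v
    rw [div_le_iff₀ hlampos]
    linarith only [hlamlo, hdgN v]
  have hvec : ∀ v, |x v * √(N : ℝ) - (dg G H v : ℝ) / lam| ≤ δ / 2 := by
    intro v
    have h1 := hHD.all v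
    have hst : √t * √(N : ℝ) = √(t * N) := (Real.sqrt_mul hHD.tpos.le _).symm
    have hSK : √(N : ℝ) * K2 = 2 * (K2 / √(N : ℝ)) * ((N : ℝ) / 2) := by
      have : 2 * (K2 / √(N : ℝ)) * ((N : ℝ) / 2) = K2 * N / √(N : ℝ) := by ring
      rw [this, eq_div_iff hSpos.ne']
      calc √(N : ℝ) * K2 * √(N : ℝ) = K2 * (√(N : ℝ) * √(N : ℝ)) := by ring
        _ = K2 * N := by rw [hSS]
    have e1 : x v * √(N : ℝ) - (dg G H v : ℝ) / lam =
        √(N : ℝ) * (lam * x v - √t * dg G H v) / lam +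
          (√(t * N) - 1) * ((dg G H v : ℝ) / lam) := by
      rw [← hst]; field_simp; ring
    have h2 : |√(N : ℝ) * (lam * x v - √t * dg G H v) / lam| ≤ 2 * (K2 / √(N : ℝ)) := by
      rw [abs_div, abs_mul, abs_of_pos hSpos, abs_of_pos hlampos, div_le_iff₀ hlampos]
      calc √(N : ℝ) * |lam * x v - √t * dg G H v| ≤ √(N : ℝ) * K2 :=
            mul_le_mul_of_nonneg_left h1 hSpos.le
        _ = 2 * (K2 / √(N : ℝ)) * ((N : ℝ) / 2) := hSK
        _ ≤ 2 * (K2 / √(N : ℝ)) * lam := mul_le_mul_of_nonneg_left hlamlo (by positivity)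
    have h3 : |(√(t * N) - 1) * ((dg G H v : ℝ) / lam)| ≤ 2 * (K1 / N) := by
      rw [abs_mul, abs_of_nonneg (hX0 v), mul_comm]
      apply mul_le_mul (hX2 v) _ (abs_nonneg _) (by norm_num)
      exact (sqrt_near (mul_nonneg hHD.tpos.le hNpos.le)).trans hr2
    rw [e1]
    refine (abs_add_le _ _).trans ?_
    linarith only [hq2, hq3, h2, h3]
  refine ⟨hpv, hcard, hwH, hHD.ind, ?_, ?_, ?_, ?_, ?_, ?_, ?_⟩
  · refine hmis1.trans ?_
    apply mul_le_mul_of_nonneg_right _ hNpos.le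
    linarith only [hε2pos, hε2a]
  · intro i
    refine (hbal' i).trans ?_
    apply mul_le_mul_of_nonneg_right _ hNpos.le
    linarith only [hδ]
  · -- degree of w
    have h1 := abs_le.mp hXw
    have h2 : (dg G H w : ℝ) = lam * ((dg G H w : ℝ) / lam) := by field_simp
    have h3 : (j : ℝ) = x0 * (al r * N) := by rw [hx0]; field_simp
    have h4 := hC w hwH
    have h5 := hX0 w
    have h6 : (dg G H w : ℝ) - j = (lam - al r * N) * ((dg G H w : ℝ) / lam) +
        al r * N * ((dg G H w : ℝ) / lam - x0) := by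
      rw [h3]; field_simp; ring
    rw [h6]
    refine (abs_add_le _ _).trans ?_
    rw [abs_mul, abs_mul]
    have h7 : |lam - al r * N| * |(dg G H w : ℝ) / lam| ≤ K1 * 1 := by
      apply mul_le_mul hr1 _ (abs_nonneg _) (by linarith only [hr1'])
      rw [abs_of_nonneg h5]; linarith only [h4]
    have h8 : |al r * (N : ℝ)| * |(dg G H w : ℝ) / lam - x0| ≤ (1 * N) * ε2 := by
      apply mul_le_mul _ hXw (abs_nonneg _) (by positivity)
      rw [abs_of_nonneg (by positivity)]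
      exact mul_le_mul_of_nonneg_right hal2.le hNpos.le
    linarith only [hN4', hNε, hr1', h7, h8]
  · -- the rest
    have h1 : ∑ v ∈ out H, (dg G H v : ℝ) - dg G H w =
        lam * (∑ v ∈ out H, (dg G H v : ℝ) / lam - (dg G H w : ℝ) / lam) := by
      rw [mul_sub, Finset.mul_sum]
      congr 1
      · apply Finset.sum_congr rfl; intro v _; field_simp
      · field_simp
    rw [h1]
    have h2 : lam * (∑ v ∈ out H, (dg G H v : ℝ) / lam - (dg G H w : ℝ) / lam) ≤ (2 * N) * ε2 := by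
      apply mul_le_mul hlamhi (by linarith only [hrest, heu0, hsg0, hmu0]) hsum0 (by positivity)
    linarith only [hNε, heu1, h2]
  · -- vertices of H
    intro v hv
    have h1 := hvec v
    have h2 := dg_near hHD.ind hv
    rw [hcard] at h2
    have h3 := abs_le.mp (hbal' (c v))
    have h4 : al r * (N : ℝ) = N - N / r := by unfold al; ring
    have h5 : |(dg G H v : ℝ) / lam - 1| ≤ δ / 2 := by
      have e2 : (dg G H v : ℝ) / lam - 1 = ((dg G H v : ℝ) - lam) / lam := by field_simp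
      rw [e2, abs_div, abs_of_pos hlampos, div_le_iff₀ hlampos, abs_le]
      have hδl : δ / 2 * ((N : ℝ) / 2) ≤ δ / 2 * lam :=
        mul_le_mul_of_nonneg_left hlamlo (by positivity)
      constructor
      · linarith only [hN4', hNε, hmis1, h4, hδl, hr1'.1, hr1'.2, h2.1, h2.2, h3.1, h3.2]
      · linarith only [hN4', h4, hδl, hr1'.1, hr1'.2, h2.1, h2.2, h3.1, h3.2]
    have h6 : x v * √(N : ℝ) - 1 = (x v * √(N : ℝ) - (dg G H v : ℝ) / lam) +
        ((dg G H v : ℝ) / lam - 1) := by ring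
    rw [h6]
    refine (abs_add_le _ _).trans ?_
    linarith only [h1, h5]
  · rw [← hx0]
    have h1 := hvec w
    have h6 : x w * √(N : ℝ) - x0 = (x w * √(N : ℝ) - (dg G H w : ℝ) / lam) +
        ((dg G H w : ℝ) / lam - x0) := by ring
    rw [h6]
    refine (abs_add_le _ _).trans ?_
    linarith only [hε2pos, hε2a, hXw, h1]
  · intro v hv hvw
    have h1 := abs_le.mp (hvec v)
    have h2 : (dg G H v : ℝ) / lam ≤
        ∑ v ∈ out H, (dg G H v : ℝ) / lam - (dg G H w : ℝ) / lam := by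
      classical
      have h3 : ({v, w} : Finset V) ⊆ out H := by
        intro u hu
        rw [Finset.mem_insert, Finset.mem_singleton] at hu
        rcases hu with rfl | rfl
        · exact mem_out.mpr hv
        · exact hw
      have h4 := Finset.sum_le_sum_of_subset_of_nonneg h3
        (fun u _ _ => hX0 u) (f := fun v => (dg G H v : ℝ) / lam)
      rw [Finset.sum_pair hvw] at h4
      linarith only [h4]
    linarith only [hε2pos, hε2a, hrest, heu0, hsg0, hmu0, h2, h1.2]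

/-- balanced classes from the imbalance -/
lemma bal2 {r : ℕ} (hr : 3 ≤ r) {V : Type} [Fintype V] {c : V → Fin r} {H : Finset V} {N M' : ℕ}
    (hcard : H.card = M') (hNM : N ≤ M') (hNpos : (0 : ℝ) < N)
    (himb : imb H c / (2 * al r * N) ≤ 2) :
    ∀ i, |sz H c i - (M' : ℝ) / r| ≤ 2 * √(M' : ℝ) := by
  have hal1 := al_ge hr
  have hal2 := al_lt hr
  have halpos : 0 < al r := by linarith only [hal1]
  have hden : 0 < 2 * al r * N := by positivity
  have hNM' : (N : ℝ) ≤ M' := by exact_mod_cast hNM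
  have hMpos : (0 : ℝ) < M' := by linarith only [hNpos, hNM']
  have himb1 : imb H c ≤ 2 * 2 * N := by
    refine ((div_le_iff₀ hden).mp himb).trans ?_
    calc 2 * (2 * al r * (N : ℝ)) = (2 * 2 * N) * al r := by ring
      _ ≤ (2 * 2 * N) * 1 := mul_le_mul_of_nonneg_left hal2.le (by positivity)
      _ = _ := mul_one _
  intro i
  apply bal_of_imb hcard (by positivity)
  refine himb1.trans ?_
  rw [mul_pow, Real.sq_sqrt hMpos.le]
  linarith only [hNM']

/-- the first alternative (small `j`) and the second one -/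
lemma c0_of {r : ℕ} (hr : 3 ≤ r) {V : Type} [Fintype V] {G : SimpleGraph V} {x : V → ℝ}
    {lam t η K2 δ M : ℝ} {c : V → Fin r} {H : Finset V} {N M' : ℕ}
    (hHD : HD r η K2 G x lam t c H) (hcard : H.card = M') (hNM : N ≤ M') (hδ : 0 < δ)
    (hM0 : 0 ≤ M) (hM : 4 * M ≤ δ) (hN1 : (1 : ℝ) ≤ N)
    (hN : (2 / δ) ^ 2 ≤ (N : ℝ)) (hlam0 : 0 < lam) (hlamhi : lam ≤ 2 * N)
    (hsum : ∑ v ∈ out H, (dg G H v : ℝ) / lam ≤ M)
    (heu : (eu G H : ℝ) / (2 * al r * N) ≤ M)
    (himb : imb H c / (2 * al r * N) ≤ 2)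
    (hmis : (mis G H c : ℝ) / (2 * al r * N) ≤ M) :
    C0 r δ M' G c H ∧ ∀ i, |sz H c i - (M' : ℝ) / r| ≤ 2 * √(M' : ℝ) := by
  have hal1 := al_ge hr
  have hal2 := al_lt hr
  have halpos : 0 < al r := by linarith only [hal1]
  have hNpos : (0 : ℝ) < N := by linarith only [hlam0, hlamhi]
  have hden : 0 < 2 * al r * N := by positivity
  have hNM' : (N : ℝ) ≤ M' := by exact_mod_cast hNM
  have hMpos : (0 : ℝ) < M' := by linarith only [hNpos, hNM']
  have hδN : δ * (N : ℝ) ≤ δ * M' := mul_le_mul_of_nonneg_left hNM' hδ.le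
  have hMN : 4 * M * (N : ℝ) ≤ δ * N := mul_le_mul_of_nonneg_right hM hNpos.le
  have h2 : ∀ y : ℝ, 0 ≤ y → y * (2 * al r * N) ≤ 2 * y * N := by
    intro y hy
    calc y * (2 * al r * N) = (2 * y * N) * al r := by ring
      _ ≤ (2 * y * N) * 1 := mul_le_mul_of_nonneg_left hal2.le (by positivity)
      _ = _ := mul_one _
  have hmis1 : (mis G H c : ℝ) ≤ 2 * M * N := ((div_le_iff₀ hden).mp hmis).trans (h2 M hM0)
  have heu1 : (eu G H : ℝ) ≤ 2 * M * N := ((div_le_iff₀ hden).mp heu).trans (h2 M hM0)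
  have hbal := bal2 hr hcard hNM hNpos himb
  refine ⟨⟨hcard, hHD.ind, ?_, ?_, ?_⟩, hbal⟩
  · have : 0 ≤ M * (N : ℝ) := by positivity
    linarith only [hδN, hMN, hmis1]
  · intro i
    exact (hbal i).trans (sqrt_le_mul hδ hMpos (hN.trans hNM'))
  · rw [TRF.eo_dg]
    have h1 : ∑ v ∈ out H, (dg G H v : ℝ) = lam * ∑ v ∈ out H, (dg G H v : ℝ) / lam := by
      rw [Finset.mul_sum]
      apply Finset.sum_congr rfl; intro v _; field_simp
    have h3 : lam * ∑ v ∈ out H, (dg G H v : ℝ) / lam ≤ (2 * N) * M := by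
      apply mul_le_mul hlamhi hsum (Finset.sum_nonneg fun v _ => by positivity) (by positivity)
    rw [h1]
    linarith only [hδN, hMN, heu1, h3]

/-- real inequalities for small `j` -/
lemma small_case {S F e sg mu κ κ' η x0 ε' m0 μ q cost h N : ℝ} (hη0 : 0 < η) (hη1 : η ≤ 1 / 24)
    (hκ3 : 1 / 3 ≤ κ) (hκκ' : κ < κ') (hm0 : 0 < m0) (hm01 : m0 ≤ 1) (hε' : ε' = η * m0 / 64)
    (hS0 : 0 ≤ S) (he0 : 0 ≤ e) (hsg0 : 0 ≤ sg) (hmu0 : 0 ≤ mu)
    (hFS : η / 2 * S ≤ F) (hx : 0 ≤ x0) (hx1 : x0 ≤ 1) (hxs : x0 < ε') (hμ : μ ≤ ε')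
    (hq : q ≤ μ / 2)
    (hcost : cost ≤ (1 - x0) * min x0 κ + μ / 2)
    (hB : F + e + κ * sg + κ' * mu ≤ cost + q)
    (hA : |S + e - sg - mu - (N - h) - x0| ≤ q) :
    S ≤ m0 / 16 ∧ e ≤ m0 / 16 ∧ sg ≤ m0 / 16 ∧ mu ≤ m0 / 16 ∧ h < N + 1 ∧ N < h + 1 := by
  have h1 : (1 - x0) * min x0 κ ≤ ε' := by
    calc (1 - x0) * min x0 κ ≤ (1 - x0) * x0 :=
          mul_le_mul_of_nonneg_left (min_le_left _ _) (by linarith only [hx1])
      _ ≤ x0 := by nlinarith
      _ ≤ ε' := hxs.le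
  have h2 : F + e + κ * sg + κ' * mu ≤ 2 * ε' := by linarith only [hμ, hq, hcost, hB, h1]
  have g1 : 0 ≤ κ * sg := mul_nonneg (by linarith only [hκ3]) hsg0
  have g2 : 0 ≤ κ' * mu := mul_nonneg (by linarith only [hκ3, hκκ']) hmu0
  have g3 : 0 ≤ η / 2 * S := by positivity
  have g4 : 1 / 3 * sg ≤ κ * sg := mul_le_mul_of_nonneg_right hκ3 hsg0
  have g5 : 1 / 3 * mu ≤ κ' * mu := mul_le_mul_of_nonneg_right (by linarith only [hκ3, hκκ']) hmu0
  have b1 : S ≤ m0 / 16 := by
    have h3 : η / 2 * S ≤ η / 2 * (m0 / 16) := by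
      have : η / 2 * (m0 / 16) = 2 * ε' := by rw [hε']; ring
      rw [this]; linarith only [he0, hmu0, hFS, h2, g1, g5]
    exact le_of_mul_le_mul_left h3 (by positivity)
  have hε'' : ε' ≤ m0 / 1536 := by
    rw [hε']
    have := mul_le_mul_of_nonneg_right hη1 hm0.le
    linarith only [this]
  have b2 : e ≤ m0 / 16 := by linarith only [he0, hFS, h2, g1, g2, g3, hε'']
  have b3 : sg ≤ m0 / 16 := by linarith only [he0, hFS, h2, g1, g2, g3, g4, hε'']
  have b4 : mu ≤ m0 / 16 := by linarith only [he0, hFS, h2, g1, g2, g3, g5, hε'']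
  have hA' := abs_le.mp hA
  exact ⟨b1, b2, b3, b4, by linarith only [hm01, hS0, he0, hxs, hμ, hq, hε'', b3, b4, hA', hA'.1],
      by linarith only [hm01, hsg0, hmu0, hx, hμ, hq, b1, hε'', b2, hA', hA'.2]⟩

/-- the lower end of the range -/
lemma range_lo {ε' a N x0 b : ℝ} (hε : 0 < ε') (ha : 2 / 3 ≤ a) (hN : 0 < N)
    (hxs : ε' ≤ x0) : min (ε' * (2 / 3)) b * N ≤ x0 * (a * N) := by
  calc min (ε' * (2 / 3)) b * N ≤ (ε' * (2 / 3)) * N :=
        mul_le_mul_of_nonneg_right (min_le_left _ _) hN.le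
    _ = ε' * (2 / 3 * N) := by ring
    _ ≤ ε' * (a * N) := mul_le_mul_of_nonneg_left (mul_le_mul_of_nonneg_right ha hN.le) hε.le
    _ ≤ x0 * (a * N) := mul_le_mul_of_nonneg_right hxs (by positivity)

/-- the upper end of the range -/
lemma range_hi {r a N x0 b κ ε2 : ℝ} (hr : 3 ≤ r) (ha : a = 1 - 1 / r) (hκ : κ = 1 - 2 / r)
    (hN : 0 < N) (hε2 : 0 < ε2) (hε2d : ε2 ≤ 1 / (6 * r)) (hx : x0 ≤ κ + ε2) :
    x0 * (a * N) ≤ (1 - 2 / r - min b (1 / (6 * r))) * N := by
  have h1r : 1 / r ≤ 1 / 3 := one_div_le_one_div_of_le (by norm_num) hr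
  have h1r0 : 0 < 1 / r := by positivity
  have h2r : 2 / r = 2 * (1 / r) := by ring
  have ha0 : 0 < a := by rw [ha]; linarith only [h1r]
  have ha1 : a ≤ 1 := by rw [ha]; linarith only [h1r0]
  have hκ3 : 1 / 3 ≤ κ := by rw [hκ, h2r]; linarith only [h1r]
  have h1 : min b (1 / (6 * r)) ≤ 1 / (6 * r) := min_le_right _ _
  have h2 : x0 * (a * N) ≤ (κ + ε2) * (a * N) := mul_le_mul_of_nonneg_right hx (by positivity)
  have h3 : (κ + ε2) * (a * N) ≤ (1 - 2 / r - 1 / (6 * r)) * N := by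
    have h4 : (κ + ε2) * (a * N) = ((κ + ε2) * a) * N := by ring
    rw [h4]
    apply mul_le_mul_of_nonneg_right _ hN.le
    have h5 : ε2 * a ≤ ε2 := mul_le_of_le_one_right hε2.le ha1
    have h6 : κ * a = κ - κ * (1 / r) := by rw [ha]; ring
    have h7 : 1 / 3 * (1 / r) ≤ κ * (1 / r) := mul_le_mul_of_nonneg_right hκ3 h1r0.le
    have h9 : 1 / (6 * r) = 1 / 6 * (1 / r) := by field_simp
    rw [h9] at hε2d ⊢
    rw [add_mul, h6, ← hκ]
    linarith only [hε2d, h5, h7]
  have h4 : (1 - 2 / r - 1 / (6 * r)) * N ≤ (1 - 2 / r - min b (1 / (6 * r))) * N :=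
    mul_le_mul_of_nonneg_right (by linarith only [h1]) hN.le
  exact h2.trans (h3.trans h4)

end FIN3

end Pool.Agent.Work.MP_5532fa_up

end
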