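import Mathlib
import Pool.Agent.Work.MP_5532fa_full.P03
import Pool.Agent.Work.MP_5532fa_full.P20

section

/-!
# MP_5532fa_co, upgrade: block W2 (small `j`: type D with balanced classes)
-/

open Finset

namespace Pool.Agent.Work.MP_5532fa_up

open MP5532fa (specRad qf pE)

namespace W2

section
variable {V : Type} [Fintype V] {r : ℕ}

/-- second moment and sum of squares -/
theorem mo2_eq {n : ℕ} (hr : 3 ≤ r) {y : Fin r → ℝ} (hy : ∑ i, y i = n) :
    mo 2 n y = ∑ i, y i ^ 2 - (n : ℝ) ^ 2 / r := by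
  have hr3 : (3 : ℝ) ≤ r := by exact_mod_cast hr
  have hrp : (0 : ℝ) < r := by linarith only [hr3]
  unfold mo
  have h1 : ∀ i, (y i - n / r) ^ 2 = y i ^ 2 - 2 * (n / r) * y i + (n / r) ^ 2 := fun i => by ring
  rw [Finset.sum_congr rfl fun i _ => h1 i, Finset.sum_add_distrib, Finset.sum_sub_distrib,
    ← Finset.mul_sum, hy, Finset.sum_const, Finset.card_univ, Fintype.card_fin, nsmul_eq_mul]
  field_simp
  ring

theorem mis_WD {N : ℕ} {G : SimpleGraph V} {H A : Finset V} {c : V → Fin r} {w v1 v2 : V}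
    (h : WD G N H c w A v1 v2) : mis G H c ≤ 2 := by
  classical
  unfold mis
  refine (Finset.card_le_card (t := {(v1, v2), (v2, v1)}) ?_).trans Finset.card_le_two
  intro e he
  rw [Finset.mem_filter, Finset.mem_product] at he
  obtain ⟨⟨h1, h2⟩, h3, h4⟩ := he
  rw [Finset.mem_insert, Finset.mem_singleton]
  by_contra hno
  push Not at hno
  exact h4 ((h.adj _ _).2 (Or.inl ⟨h1, h2, h3, fun q => hno.1 (Prod.ext q.1 q.2),
    fun q => hno.2 (Prod.ext q.1 q.2)⟩))

theorem eo_WD {N : ℕ} {G : SimpleGraph V} {H A : Finset V} {c : V → Fin r} {w v1 v2 : V}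
    (h : WD G N H c w A v1 v2) : eo G H ≤ A.card := by
  classical
  unfold eo
  refine (Finset.card_le_card (t := A.image (fun b => (w, b))) ?_).trans Finset.card_image_le
  intro e he
  rw [Finset.mem_filter] at he
  obtain ⟨_, h1, h2⟩ := he
  rcases (h.adj _ _).1 h1 with h3 | h3 | h3
  · exact absurd h3.1 h2
  · exact Finset.mem_image.2 ⟨e.2, h3.2, Prod.ext h3.1.symm rfl⟩
  · exact absurd (h.hA h3.2) h2

theorem C0_WD {n : ℕ} {δ : ℝ} {G : SimpleGraph V} {H A : Finset V} {c : V → Fin r} {w v1 v2 : V}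
    (h : WD G n H c w A v1 v2) (h2 : 2 ≤ δ * n) (hA : (A.card : ℝ) ≤ δ * n)
    (hb : ∀ i, |sz H c i - n / r| ≤ δ * n) : C0 r δ n G c H where
  card := h.card
  ind := by
    intro u hu v hv hc hadj
    rcases (h.adj _ _).1 hadj with h3 | h3 | h3
    · exact h3.2.2.1 hc
    · exact h.hw (h3.1 ▸ hu)
    · exact h.hw (h3.1 ▸ hv)
  mis := by
    have h1 : (mis G H c : ℝ) ≤ 2 := by exact_mod_cast mis_WD h
    linarith only [h2, h1]
  bal := hb
  eo := by
    have h1 : (eo G H : ℝ) ≤ A.card := by exact_mod_cast eo_WD h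
    linarith only [hA, h1]

end

/-- balanced vectors -/
theorem exists_bal {r : ℕ} (hr : 3 ≤ r) (N : ℕ) :
    ∃ y : Fin r → ℕ, ∑ i, y i = N ∧ ∀ i k, y i ≤ y k + 1 := by
  refine ⟨fun i => (N + i.val) / r, ?_, ?_⟩
  · have : ∀ n : ℕ, ∑ i : Fin r, (n + i.val) / r = n := by
      intro n
      induction n with
      | zero =>
        refine Finset.sum_eq_zero fun i _ => ?_
        rw [Nat.zero_add]
        exact Nat.div_eq_of_lt i.2
      | succ n ih =>
        rw [Fin.sum_univ_eq_sum_range (fun i => (n + 1 + i) / r) r]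
        rw [Fin.sum_univ_eq_sum_range (fun i => (n + i) / r) r] at ih
        obtain ⟨q, hq⟩ : ∃ q, r = q + 1 := ⟨r - 1, by omega⟩
        rw [hq] at ih ⊢
        rw [Finset.sum_range_succ]
        rw [Finset.sum_range_succ'] at ih
        have e1 : ∀ i, (n + 1 + i) / (q + 1) = (n + (i + 1)) / (q + 1) := by
          intro i; congr 1; omega
        simp only [e1]
        have e2 : (n + (q + 1)) / (q + 1) = n / (q + 1) + 1 := by
          rw [Nat.add_div_right _ (by omega)]
        rw [e2]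
        simp only [Nat.add_zero] at ih ⊢
        omega
    exact this N
  · intro i k
    have h6 : (N + i.val) / r ≤ (N + k.val + r) / r := by
      apply Nat.div_le_div_right
      have := i.2
      omega
    rw [Nat.add_div_right _ (by omega)] at h6
    exact h6

theorem bal_near {r N : ℕ} (hr : 3 ≤ r) {y : Fin r → ℕ} (hs : ∑ i, y i = N)
    (hB : ∀ i k, y i ≤ y k + 1) (i : Fin r) : |(y i : ℝ) - N / r| ≤ 1 := by
  have hr3 : (3 : ℝ) ≤ r := by exact_mod_cast hr
  have hrp : (0 : ℝ) < r := by linarith only [hr3]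
  have h1 : r * y i ≤ N + r := by
    have h : ∑ _k : Fin r, y i ≤ ∑ k : Fin r, (y k + 1) :=
      Finset.sum_le_sum fun k _ => hB i k
    rw [Finset.sum_add_distrib, hs] at h
    simpa using h
  have h2 : N ≤ r * y i + r := by
    have h : ∑ k : Fin r, y k ≤ ∑ _k : Fin r, (y i + 1) :=
      Finset.sum_le_sum fun k _ => hB k i
    rw [hs] at h
    have h3 : ∑ _k : Fin r, (y i + 1) = r * y i + r := by
      simp [mul_add]
    rw [h3] at h; exact h
  have h1' : (r : ℝ) * y i ≤ N + r := by exact_mod_cast h1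
  have h2' : (N : ℝ) ≤ r * y i + r := by exact_mod_cast h2
  rw [abs_le]
  constructor
  · have : (N : ℝ) / r ≤ y i + 1 := by rw [div_le_iff₀ hrp]; linarith only [h2']
    linarith only [this]
  · have : (y i : ℝ) - 1 ≤ (N : ℝ) / r := by rw [le_div_iff₀ hrp]; linarith only [h1']
    linarith only [this]

/-- vectors with the smallest sum of squares are balanced -/
theorem min_bal {r N : ℕ} (hTNB : Stmt_TNB) (hr : 3 ≤ r) {n : Fin r → ℕ} (hs : ∑ i, n i = N)
    (hq : 2 * tn r N + ∑ i, n i ^ 2 = N ^ 2) (i k : Fin r) : n i ≤ n k + 1 := by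
  by_contra hlt
  push Not at hlt
  have hik : i ≠ k := by
    rintro rfl
    omega
  set z : Fin r → ℕ := fun l => if l = i then n i - 1 else if l = k then n k + 1 else n l with hz
  have hzi : z i = n i - 1 := by simp [hz]
  have hzk : z k = n k + 1 := by simp [hz, hik.symm]
  have hzo : ∀ l ∈ ((univ : Finset (Fin r)).erase i).erase k, z l = n l := by
    intro l hl
    have h1 := Finset.ne_of_mem_erase hl
    have h2 := Finset.ne_of_mem_erase (Finset.mem_of_mem_erase hl)
    simp [hz, h1, h2]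
  have hki : k ∈ (univ : Finset (Fin r)).erase i := Finset.mem_erase.2 ⟨hik.symm, Finset.mem_univ _⟩
  have split : ∀ f : Fin r → ℕ, ∑ l, f l = f i + (f k
      + ∑ l ∈ ((univ : Finset (Fin r)).erase i).erase k, f l) := by
    intro f
    rw [Finset.add_sum_erase _ f hki, Finset.add_sum_erase _ f (Finset.mem_univ i)]
  have hzs : ∑ l, z l = N := by
    have e1 := split z
    have e2 := split n
    have e3 : ∑ l ∈ ((univ : Finset (Fin r)).erase i).erase k, z l
        = ∑ l ∈ ((univ : Finset (Fin r)).erase i).erase k, n l := Finset.sum_congr rfl hzo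
    rw [hzi, hzk, e3] at e1
    rw [hs] at e2
    rw [e1]
    omega
  have h1 := hTNB r N z hr hzs
  have h2 : ∑ l, z l ^ 2 < ∑ l, n l ^ 2 := by
    rw [split (fun l => z l ^ 2), split (fun l => n l ^ 2), hzi, hzk,
      Finset.sum_congr rfl (fun l hl => by rw [hzo l hl])]
    obtain ⟨m, hm⟩ : ∃ m, n i = n k + 2 + m := ⟨n i - (n k + 2), by omega⟩
    rw [hm]
    have e1 : n k + 2 + m - 1 = n k + 1 + m := by omega
    rw [e1]
    have e2 : (n k + 1 + m) ^ 2 + (n k + 1) ^ 2 + 2 * (m + 1) = (n k + 2 + m) ^ 2 + n k ^ 2 := by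
      ring
    omega
  omega

/-- comparison of the secular functions -/
theorem cmp {r : ℕ} {C : ℝ} {n : ℕ} {z y : Fin r → ℝ} {L : ℝ} (hr : 3 ≤ r) (hC1 : 1 ≤ C)
    (hn : 16 * (4 * r + 2 + C) ≤ √(n : ℝ)) (hyb : ∀ i, |y i - n / r| ≤ 1)
    (hzb : ∀ i, |z i - n / r| ≤ 2 * √(n : ℝ)) (hle : mo 2 n y ≤ mo 2 n z)
    (hT : |L - ((mo 2 n y - mo 2 n z) + (mo 3 n z - mo 3 n y) / n
      + (mo 4 n y - mo 4 n z) / n ^ 2)| ≤ C / √(n : ℝ) + C * |mo 2 n z - mo 2 n y| / n) :
    L ≤ -(mo 2 n z - mo 2 n y) + 1 / 16 * (1 + (mo 2 n z - mo 2 n y)) := by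
  have hr3 : (3 : ℝ) ≤ r := by exact_mod_cast hr
  set s := √(n : ℝ) with hs
  have hs1 : 1 ≤ s := by linarith only [hC1, hn]
  have hsp : 0 < s := by linarith only [hs1]
  have hss : (n : ℝ) = s * s := (Real.mul_self_sqrt (Nat.cast_nonneg n)).symm
  have hsn : s ≤ n := by rw [hss]; exact le_mul_of_one_le_left hsp.le hs1
  have hnp : (0 : ℝ) < n := by linarith only [hsp, hsn]
  have hyk : ∀ k : ℕ, |mo k n y| ≤ r := by
    intro k
    unfold mo
    calc |∑ i, (y i - n / r) ^ k| ≤ ∑ i, |(y i - n / r) ^ k| := Finset.abs_sum_le_sum_abs _ _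
      _ ≤ ∑ _i : Fin r, (1 : ℝ) := Finset.sum_le_sum fun i _ => by
          rw [abs_pow]; exact pow_le_one₀ (abs_nonneg _) (hyb i)
      _ = r := by simp
  have hz3 : mo 3 n z ≤ 2 * s * mo 2 n z := by
    unfold mo
    rw [Finset.mul_sum]
    refine Finset.sum_le_sum fun i _ => ?_
    have h1 : (z i - n / r) ^ 3 = (z i - n / r) * (z i - n / r) ^ 2 := by ring
    rw [h1]
    exact mul_le_mul_of_nonneg_right ((le_abs_self _).trans (hzb i)) (sq_nonneg _)
  have hz4 : 0 ≤ mo 4 n z := by
    unfold mo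
    exact Finset.sum_nonneg fun i _ => by positivity
  set D := mo 2 n z - mo 2 n y with hD
  have hD0 : 0 ≤ D := by linarith only [hle]
  have hRz : mo 2 n z ≤ r + D := by
    have := (abs_le.1 (hyk 2)).2
    linarith only [this]
  have t3 : (mo 3 n z - mo 3 n y) / n ≤ (2 * (r + D) + r) / s := by
    rw [div_le_div_iff₀ hnp hsp]
    have h1 := (abs_le.1 (hyk 3)).1
    have h2 : mo 3 n z - mo 3 n y ≤ 2 * s * (r + D) + r := by
      have := mul_le_mul_of_nonneg_left hRz (show 0 ≤ 2 * s by linarith only [hsp])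
      linarith only [hz3, h1, this]
    have h3 : 2 * s * (r + D) + r ≤ s * (2 * (r + D) + r) := by
      have : (r : ℝ) ≤ s * r := le_mul_of_one_le_left (by linarith only []) hs1
      linarith only [this]
    calc (mo 3 n z - mo 3 n y) * s ≤ (s * (2 * (r + D) + r)) * s :=
          mul_le_mul_of_nonneg_right (h2.trans h3) hsp.le
      _ = (2 * (r + D) + r) * n := by rw [hss]; ring
  have t4 : (mo 4 n y - mo 4 n z) / n ^ 2 ≤ r / s := by
    have h1 := (abs_le.1 (hyk 4)).2
    have h2 : s ≤ (n : ℝ) ^ 2 := by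
      have : (n : ℝ) ≤ (n : ℝ) ^ 2 := by
        have h : (1 : ℝ) ≤ n := by linarith only [hs1, hsn]
        rw [pow_two]; exact le_mul_of_one_le_left hnp.le h
      linarith only [hsn, this]
    calc (mo 4 n y - mo 4 n z) / (n : ℝ) ^ 2 ≤ r / (n : ℝ) ^ 2 :=
          div_le_div_of_nonneg_right (by linarith only [hz4, h1]) (by positivity)
      _ ≤ r / s := div_le_div_of_nonneg_left (by linarith only []) hsp h2
  have t5 : C * |D| / n ≤ C * D / s := by
    rw [abs_of_nonneg hD0]
    exact div_le_div_of_nonneg_left (mul_nonneg (by linarith only [hC1]) hD0) hsp hsn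
  have h1 := (abs_le.1 hT).2
  have h2 : (2 * (r + D) + r) / s + r / s + (C / s + C * D / s) ≤ 1 / 16 * (1 + D) := by
    have e1 : (2 * (r + D) + r) / s + r / s + (C / s + C * D / s)
        = (4 * r + C + (2 + C) * D) / s := by field_simp; ring
    rw [e1, div_le_iff₀ hsp]
    have h3 : 4 * (r : ℝ) + C + (2 + C) * D ≤ (4 * r + 2 + C) * (1 + D) := by
      have : 0 ≤ 4 * (r : ℝ) * D := by positivity
      linarith only [this]
    have h4 := mul_le_mul_of_nonneg_right hn (show 0 ≤ 1 + D by linarith only [hD0])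
    linarith only [h3, h4]
  linarith only [t3, t4, t5, h1, h2]

/-- the secular function is decreasing -/
theorem Ph_anti {r : ℕ} {y : Fin r → ℝ} (hy : ∀ i, 0 ≤ y i) {l l' : ℝ} (h0 : 0 < l)
    (h : l ≤ l') : Ph y l' ≤ Ph y l := by
  unfold Ph
  have : ∑ i, y i / (l' + y i) ≤ ∑ i, y i / (l + y i) := by
    refine Finset.sum_le_sum fun i _ => ?_
    have := hy i
    exact div_le_div_of_nonneg_left (hy i) (by linarith only [h0, this]) (by linarith only [h])
  linarith only [this]

theorem card_WE {V : Type} [Fintype V] {r N : ℕ} {G : SimpleGraph V} {H A B : Finset V}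
    {c : V → Fin r} {w u : V} {i0 : Fin r} (hW : WE G N H c w u A B i0) : r ≤ A.card + 1 := by
  classical
  rw [← sum_card_cl A c, ← Finset.add_sum_erase _ _ (Finset.mem_univ i0)]
  have h1 : ∑ i ∈ (univ : Finset (Fin r)).erase i0, 1
      ≤ ∑ i ∈ (univ : Finset (Fin r)).erase i0, (cl A c i).card :=
    Finset.sum_le_sum fun i hi => Finset.card_pos.2 (hW.hAne i (Finset.ne_of_mem_erase hi))
  rw [Finset.sum_const, smul_eq_mul, Finset.card_erase_of_mem (Finset.mem_univ i0),
    Finset.card_univ, Fintype.card_fin] at h1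
  omega

/-- a graph `WF` has a missing pair, and with exactly one missing pair it is of the type `WD` -/
theorem WF_mis {V : Type} [Fintype V] {r N : ℕ} {G : SimpleGraph V} {H T : Finset V}
    {c : V → Fin r} {w : V} (h : WF G N H c w T) :
    2 ≤ mis G H c ∧ (mis G H c ≤ 2 → ∃ v1 v2 : V, WD G N H c w T v1 v2) := by
  classical
  obtain ⟨a, ha, b, hb, hab, hadj⟩ := h.hF
  have huniq : ∀ x ∈ T, ∀ y ∈ T, c x = c y → x = y := by
    intro x hx y hy hxy
    obtain ⟨z, hz⟩ := Finset.card_eq_one.mp (h.hT1 (c y))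
    have h1 : x ∈ cl T c (c y) := mem_cl.mpr ⟨hx, hxy⟩
    have h2 : y ∈ cl T c (c y) := mem_cl.mpr ⟨hy, rfl⟩
    rw [hz, Finset.mem_singleton] at h1 h2
    exact h1.trans h2.symm
  have hca : c a ≠ c b := fun hcc => hab (huniq a ha b hb hcc)
  have hne : (a, b) ≠ (b, a) := fun q => hab (congrArg Prod.fst q)
  have hm2 : ∀ e ∈ ({(a, b), (b, a)} : Finset (V × V)), (e.1 ∈ H ∧ e.2 ∈ H) ∧
      c e.1 ≠ c e.2 ∧ ¬ G.Adj e.1 e.2 := by
    intro e he
    rw [Finset.mem_insert, Finset.mem_singleton] at he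
    rcases he with rfl | rfl
    · exact ⟨⟨h.hT ha, h.hT hb⟩, hca, hadj⟩
    · exact ⟨⟨h.hT hb, h.hT ha⟩, hca.symm, fun q => hadj q.symm⟩
  constructor
  · unfold mis
    rw [← Finset.card_pair hne]
    refine Finset.card_le_card fun e he => ?_
    rw [Finset.mem_filter, Finset.mem_product]
    exact hm2 e he
  · intro hmis
    refine ⟨a, b, ?_⟩
    refine
      { card := h.card, hw := h.hw, hA := h.hT, h12 := hca
        h1 := ?_, h2 := ?_, hne := ?_, adj := ?_ }
    · ext v
      rw [mem_cl, Finset.mem_singleton]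
      exact ⟨fun q => huniq v q.1 a ha q.2, fun q => by rw [q]; exact ⟨ha, rfl⟩⟩
    · ext v
      rw [mem_cl, Finset.mem_singleton]
      exact ⟨fun q => huniq v q.1 b hb q.2, fun q => by rw [q]; exact ⟨hb, rfl⟩⟩
    · intro i
      rw [← Finset.card_pos, h.hT1 i]; exact Nat.one_pos
    · intro p q
      constructor
      · intro hpq
        rcases h.sub p q hpq with h1 | h1 | h1
        · refine Or.inl ⟨h1.1, h1.2.1, h1.2.2, ?_, ?_⟩
          · rintro ⟨rfl, rfl⟩; exact hadj hpq
          · rintro ⟨rfl, rfl⟩; exact hadj hpq.symm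
        · exact Or.inr (Or.inl h1)
        · exact Or.inr (Or.inr h1)
      · rintro (h1 | h1 | h1)
        · by_contra hno
          have hsub : ({(p, q), (a, b), (b, a)} : Finset (V × V)) ⊆
              (H ×ˢ H).filter (fun e => c e.1 ≠ c e.2 ∧ ¬ G.Adj e.1 e.2) := by
            intro e he
            rw [Finset.mem_filter, Finset.mem_product]
            rcases Finset.mem_insert.1 he with rfl | he
            · exact ⟨⟨h1.1, h1.2.1⟩, h1.2.2.1, hno⟩
            · exact hm2 e he
          have h3 : (p, q) ∉ ({(a, b), (b, a)} : Finset (V × V)) := by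
            rw [Finset.mem_insert, Finset.mem_singleton]
            rintro (h4 | h4)
            · exact h1.2.2.2.1 ⟨congrArg Prod.fst h4, congrArg Prod.snd h4⟩
            · exact h1.2.2.2.2 ⟨congrArg Prod.fst h4, congrArg Prod.snd h4⟩
          have h4 : 3 ≤ mis G H c := by
            unfold mis
            have h5 := Finset.card_le_card hsub
            rw [Finset.card_insert_of_notMem h3, Finset.card_pair hne] at h5
            exact h5
          omega
        · rw [h1.1]; exact h.hwT q h1.2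
        · rw [h1.1]; exact (h.hwT p h1.2).symm

/-- the competitor -/
theorem build {V : Type} [Fintype V] {r n j : ℕ} (hMKD : Stmt_MKD) (hr : 3 ≤ r)
    (hn : 9 * r ≤ n) (hj1 : r ≤ j + 1) (hj2 : j + 3 ≤ 2 * r) {H : Finset V} {w : V}
    (hH : H.card = n) (hw : w ∉ H) {y : Fin r → ℕ} (hs : ∑ i, y i = n)
    (hB : ∀ i k, y i ≤ y k + 1) :
    ∃ (c : V → Fin r) (A : Finset V) (v1 v2 : V), WD (gD H c w A v1 v2) n H c w A v1 v2 ∧
      A.card = j + 1 ∧ ∀ i, (cl H c i).card = y i := by
  classical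
  have hub : ∀ i, r * y i ≤ n + r := by
    intro i
    have h : ∑ _k : Fin r, y i ≤ ∑ k : Fin r, (y k + 1) :=
      Finset.sum_le_sum fun k _ => hB i k
    rw [Finset.sum_add_distrib, hs] at h
    simpa using h
  have hlb : ∀ i, n ≤ r * y i + r := by
    intro i
    have h : ∑ k : Fin r, y k ≤ ∑ _k : Fin r, (y i + 1) :=
      Finset.sum_le_sum fun k _ => hB k i
    rw [hs] at h
    have h3 : ∑ _k : Fin r, (y i + 1) = r * y i + r := by
      simp [mul_add]
    rw [h3] at h; exact h
  have hy1 : ∀ i, 1 ≤ y i := by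
    intro i
    by_contra h
    have h0 : y i = 0 := by omega
    have := hlb i
    rw [h0] at this
    omega
  obtain ⟨c, A, v1, v2, hWD, hAc, hcl⟩ := hMKD r hr V H w y hw (by rw [hs, hH]) hy1
  rw [hH] at hWD
  set R := H.filter (fun v => v ∉ A ∧ c v ≠ c v1 ∧ c v ≠ c v2) with hR
  have hRc : n ≤ R.card + r + y (c v1) + y (c v2) := by
    have h1 : H ⊆ ((R ∪ A) ∪ cl H c (c v1)) ∪ cl H c (c v2) := by
      intro v hv
      simp only [Finset.mem_union, mem_cl, hR, Finset.mem_filter]
      by_cases h1 : c v = c v1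
      · exact Or.inl (Or.inr ⟨hv, h1⟩)
      by_cases h2 : c v = c v2
      · exact Or.inr ⟨hv, h2⟩
      by_cases h3 : v ∈ A
      · exact Or.inl (Or.inl (Or.inr h3))
      · exact Or.inl (Or.inl (Or.inl ⟨hv, h3, h1, h2⟩))
    have h2 := Finset.card_le_card h1
    have h3 := Finset.card_union_le ((R ∪ A) ∪ cl H c (c v1)) (cl H c (c v2))
    have h4 := Finset.card_union_le (R ∪ A) (cl H c (c v1))
    have h5 := Finset.card_union_le R A
    rw [hcl] at h3 h4
    omega
  have hRbig : j + 1 - r ≤ R.card := by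
    have h1 := hub (c v1)
    have h2 := hub (c v2)
    have h3 : r * n ≤ r * R.card + r * r + (n + r) + (n + r) := by
      have h := Nat.mul_le_mul_left r hRc
      have e : r * (R.card + r + y (c v1) + y (c v2))
          = r * R.card + r * r + r * y (c v1) + r * y (c v2) := by ring
      rw [e] at h
      omega
    by_contra hlt
    push Not at hlt
    have h4 : R.card ≤ r := by omega
    have h5 : r * R.card ≤ r * r := Nat.mul_le_mul_left r h4
    have h6 : 3 * n ≤ r * n := Nat.mul_le_mul_right n hr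
    have h7 : r * (9 * r) ≤ r * n := Nat.mul_le_mul_left r hn
    have h8 : r * (9 * r) = 9 * (r * r) := by ring
    have h9 : 3 * r ≤ r * r := Nat.mul_le_mul_right r hr
    omega
  obtain ⟨F, hFR, hFc⟩ := Finset.exists_subset_card_eq hRbig
  have hFm : ∀ v ∈ F, v ∈ H ∧ v ∉ A ∧ c v ≠ c v1 ∧ c v ≠ c v2 := fun v hv =>
    Finset.mem_filter.1 (hFR hv)
  have hdis : Disjoint A F := by
    rw [Finset.disjoint_left]
    intro v hv hv'
    exact (hFm v hv').2.1 hv
  have hcla : ∀ l, l = c v1 ∨ l = c v2 → cl (A ∪ F) c l = cl A c l := by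
    intro l hl
    ext v
    rw [mem_cl, mem_cl, Finset.mem_union]
    constructor
    · rintro ⟨h | h, hc⟩
      · exact ⟨h, hc⟩
      · rcases hl with hl | hl
        · exact absurd (hc.trans hl) (hFm v h).2.2.1
        · exact absurd (hc.trans hl) (hFm v h).2.2.2
    · rintro ⟨h, hc⟩; exact ⟨Or.inl h, hc⟩
  refine ⟨c, A ∪ F, v1, v2, gD_WD hH hw ?_ hWD.h12 ?_ ?_ ?_, ?_, hcl⟩
  · exact Finset.union_subset hWD.hA fun v hv => (hFm v hv).1
  · rw [hcla _ (Or.inl rfl)]; exact hWD.h1
  · rw [hcla _ (Or.inr rfl)]; exact hWD.h2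
  · intro i
    obtain ⟨v, hv⟩ := hWD.hne i
    exact ⟨v, mem_cl.2 ⟨Finset.mem_union_left _ (mem_cl.1 hv).1, (mem_cl.1 hv).2⟩⟩
  · rw [Finset.card_union_of_disjoint hdis, hAc, hFc]; omega

end W2

open W2 in
theorem blk_W2 (hSM : Stmt_SM) (_hEVN : Stmt_EVN) (hGD : Stmt_GD) (hGF : Stmt_GF)
    (hGE : Stmt_GE) (hSECD : Stmt_SECD) (_hSECF : Stmt_SECF) (hSECE : Stmt_SECE)
    (hLAM : Stmt_LAM) (hTAY : Stmt_TAY) (hMKD : Stmt_MKD) (hTN : Stmt_TN) (hTNB : Stmt_TNB) :
    Stmt_W2 := by
  classical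
  intro r hr
  have hr3 : (3 : ℝ) ≤ r := by exact_mod_cast hr
  have hrp : (0 : ℝ) < r := by linarith only [hr3]
  obtain ⟨e, he0, her, he72⟩ : ∃ e : ℝ, 0 < e ∧ e * r = 1 / 24 ∧ e ≤ 1 / 72 := by
    refine ⟨1 / (24 * r), by positivity, by field_simp, ?_⟩
    rw [div_le_div_iff₀ (by positivity) (by norm_num)]
    linarith only [hr3]
  obtain ⟨dS, nS, hdS, HS⟩ := hSM r hr
  obtain ⟨dD, nD, hdD, HD⟩ := hSECD r e hr he0
  obtain ⟨dE, nE, hdE, HE⟩ := hSECE r e hr he0
  obtain ⟨dL, nL, hdL, HL⟩ := hLAM r hr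
  obtain ⟨C, hC1, HT⟩ := hTAY r (4 * r + 1) hr (by linarith only [])
  obtain ⟨δ, hδ0, lS, lD, lE, lL⟩ : ∃ δ : ℝ, 0 < δ ∧ δ ≤ dS ∧ δ ≤ dD ∧ δ ≤ dE ∧ δ ≤ dL :=
    ⟨min (min dS dD) (min dE dL), lt_min (lt_min hdS hdD) (lt_min hdE hdL),
      (min_le_left _ _).trans (min_le_left _ _), (min_le_left _ _).trans (min_le_right _ _),
      (min_le_right _ _).trans (min_le_left _ _), (min_le_right _ _).trans (min_le_right _ _)⟩
  obtain ⟨K, hK⟩ : ∃ K : ℝ, K = 16 * (4 * r + 2 + C) := ⟨_, rfl⟩
  refine ⟨δ, nS + nD + nE + nL + 9 * r + ⌈C⌉₊ + ⌈K ^ 2⌉₊ + ⌈2 * r / δ⌉₊, hδ0, ?_⟩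
  intro n hn j hj1 hj2 V _ G c H hC hsz hfree hcol hMX hpE
  have hn9 : 9 * r ≤ n := by omega
  have hnC : C ≤ n := by
    have h1 : ⌈C⌉₊ ≤ n := by omega
    exact (Nat.le_ceil _).trans (by exact_mod_cast h1)
  have hnK2 : K ^ 2 ≤ n := by
    have h1 : ⌈K ^ 2⌉₊ ≤ n := by omega
    exact (Nat.le_ceil _).trans (by exact_mod_cast h1)
  have hK0 : 1 ≤ K := by rw [hK]; linarith only [hC1]
  have hnK : K ≤ √(n : ℝ) := Real.le_sqrt_of_sq_le hnK2
  have hKn : K ≤ n := by
    have : K ≤ K ^ 2 := by rw [pow_two]; exact le_mul_of_one_le_left (by linarith only [hK0]) hK0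
    linarith only [hnK2, this]
  have hδn : 2 * (r : ℝ) ≤ δ * n := by
    have h1 : ⌈2 * r / δ⌉₊ ≤ n := by omega
    have h2 : 2 * r / δ ≤ n := (Nat.le_ceil _).trans (by exact_mod_cast h1)
    rw [div_le_iff₀ hδ0] at h2
    linarith only [h2]
  have hnp : (0 : ℝ) < n := by linarith only [hK0, hKn]
  have hj2r : (j : ℝ) + 3 ≤ 2 * r := by exact_mod_cast hj2
  have hj1r : (r : ℝ) ≤ j + 1 := by exact_mod_cast hj1
  have halg := al_ge hr
  have halp : 0 < al r := by linarith only [halg]
  have hV : Nonempty V := by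
    by_contra h
    rw [not_nonempty_iff] at h
    exact hcol (SimpleGraph.Colorable.of_isEmpty _)
  obtain ⟨x, hx⟩ := exists_PV G
  obtain ⟨y, hys, hyB⟩ := exists_bal hr n
  have hnear := bal_near hr hys hyB
  have hy2 : ∑ i, re y i ^ 2 = (n : ℝ) ^ 2 - 2 * tn r n := by
    have h1 := (hTN r hr n).1 y hys hyB
    have h2 : ((2 * tn r n + ∑ i, y i ^ 2 : ℕ) : ℝ) = ((n ^ 2 : ℕ) : ℝ) := by exact_mod_cast h1
    push_cast at h2
    unfold re
    linarith only [h2]
  have hysr : ∑ i, re y i = n := by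
    unfold re
    exact_mod_cast hys
  have hy2le : ∀ i, 2 ≤ y i := by
    intro i
    have h : ∑ k : Fin r, y k ≤ ∑ _k : Fin r, (y i + 1) :=
      Finset.sum_le_sum fun k _ => hyB k i
    rw [hys] at h
    have h3 : ∑ _k : Fin r, (y i + 1) = r * (y i + 1) := by simp
    rw [h3] at h
    by_contra hlt
    have h4 : y i + 1 ≤ 2 := by omega
    have h5 := Nat.mul_le_mul_left r h4
    omega
  -- the competitor
  have key : ∀ w, w ∉ H → (n : ℝ) ^ 2 * Ph (re y) (specRad G) ≤ 2 + e := by
    intro w hw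
    obtain ⟨c', A', v1, v2, hWD', hA'c, hcl'⟩ := W2.build hMKD hr hn9 hj1 hj2 hC.card hw hys hyB
    have hsz' : sz H c' = re y := by
      funext i
      unfold sz re
      rw [hcl' i]
    obtain ⟨hfree', hcol', hpE'⟩ := hGD r hr V _ n H c' w A' v1 v2 hWD'
    have hle : specRad (gD H c' w A' v1 v2) ≤ specRad G := by
      refine hMX _ hfree' (hcol' ?_) ?_
      · intro i; rw [hcl' i]; exact hy2le i
      · rw [hpE', hpE, hA'c, hsz', hy2]; push_cast; ring
    have hA'r : (A'.card : ℝ) = j + 1 := by rw [hA'c]; push_cast; ring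
    have hC0' : C0 r δ n (gD H c' w A' v1 v2) c' H := by
      refine C0_WD hWD' (by linarith only [hδn, hj2r]) (by linarith only [hδn, hj2r,
          hA'r]) fun i => ?_
      rw [hsz']
      exact (hnear i).trans (by linarith only [hδn, hj2r])
    obtain ⟨x', hx'⟩ := exists_PV (gD H c' w A' v1 v2)
    have h1 := (HD n (by omega) V _ x' _ c' H w A' v1 v2 (hC0'.mono lD) hx' hWD').2
    have h2 := HL n (by omega) V _ x' _ c' H (hC0'.mono lL) (fun i => by
      rw [hsz']
      exact (hnear i).trans (by linarith only [hK0, hnK])) hx'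
    have h3 : 0 < specRad (gD H c' w A' v1 v2) := by
      have h4 := (abs_le.1 h2).1
      have h5 := mul_le_mul_of_nonneg_right halg hnp.le
      linarith only [hC1, hK, hKn, h4, h5]
    have h4 := Ph_anti (y := re y) (fun i => Nat.cast_nonneg _) h3 hle
    rw [hsz'] at h1
    have h5 := mul_le_mul_of_nonneg_left h4 (sq_nonneg (n : ℝ))
    linarith only [h1, h5]
  -- moments
  have hzs : ∑ i, sz H c i = n := by
    have h := sum_card_cl H c
    rw [hC.card] at h
    unfold sz
    exact_mod_cast h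
  have hRy := mo2_eq hr hysr
  have hRz := mo2_eq hr hzs
  have hz2 : (n : ℝ) ^ 2 ≤ 2 * tn r n + ∑ i, sz H c i ^ 2 := by
    have h := sum_card_cl H c
    rw [hC.card] at h
    have h1 := hTNB r n (fun i => (cl H c i).card) hr h
    unfold sz
    exact_mod_cast h1
  obtain ⟨D, hD⟩ : ∃ D : ℝ, D = mo 2 n (sz H c) - mo 2 n (re y) := ⟨_, rfl⟩
  have hDz : D = ∑ i, sz H c i ^ 2 - ((n : ℝ) ^ 2 - 2 * tn r n) := by
    rw [hD, hRy, hRz, hy2]; ring
  have hD0 : 0 ≤ D := by linarith only [hy2, hRy, hRz, hz2, hD]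
  have hlam := HL n (by omega) V G x _ c H (hC.mono lL) hsz hx
  have hmoy : mo 2 n (re y) ≤ (4 * r + 1) * n := by
    have h1 : mo 2 n (re y) ≤ r := by
      unfold mo
      calc ∑ i, (re y i - n / r) ^ 2 ≤ ∑ _i : Fin r, (1 : ℝ) := Finset.sum_le_sum fun i _ => by
            rw [← sq_abs]; exact pow_le_one₀ (abs_nonneg _) (hnear i)
        _ = r := by simp
    have h2 : (r : ℝ) ≤ (4 * r + 1) * 1 := by linarith only []
    have h3 : (4 * (r : ℝ) + 1) * 1 ≤ (4 * r + 1) * n :=
      mul_le_mul_of_nonneg_left (by linarith only [hK0, hKn]) (by linarith only [])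
    linarith only [h1, h3]
  have hmoz : mo 2 n (sz H c) ≤ (4 * r + 1) * n := by
    unfold mo
    have hss : √(n : ℝ) ^ 2 = n := Real.sq_sqrt hnp.le
    calc ∑ i, (sz H c i - n / r) ^ 2 ≤ ∑ _i : Fin r, (4 * n : ℝ) := Finset.sum_le_sum fun i _ => by
          rw [← sq_abs]
          have h1 := pow_le_pow_left₀ (abs_nonneg _) (hsz i) 2
          rw [mul_pow, hss] at h1
          linarith only [h1]
      _ = r * (4 * n) := by simp
      _ ≤ (4 * r + 1) * n := by linarith only []
  have hT := HT n (sz H c) (re y) (specRad G) hnC hlam hzs hysr hmoz hmoy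
  have hle2 : mo 2 n (re y) ≤ mo 2 n (sz H c) := by linarith only [hD, hD0]
  have hcmp := W2.cmp (y := re y) (z := sz H c) hr hC1 (hK ▸ hnK) (fun i => hnear i) hsz hle2 hT
  rw [← hD] at hcmp
  have hlow : ∀ q : ℝ, q ≤ 2 + e → q ≤ (n : ℝ) ^ 2 * Ph (sz H c) (specRad G) →
      (n : ℝ) ^ 2 * Ph (re y) (specRad G) ≤ 2 + e →
      3 / 2 * (q - 2 - e) ≤ -D + 1 / 16 * (1 + D) := by
    intro q hq1 hq2 hq3
    refine le_trans ?_ hcmp
    rw [div_mul_eq_mul_div ((n : ℝ) ^ 2) (al r), le_div_iff₀ halp]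
    have h1 : 3 / 2 * (q - 2 - e) * al r ≤ q - 2 - e := by
      have h2 : (2 + e - q) * (2 / 3) ≤ (2 + e - q) * al r :=
        mul_le_mul_of_nonneg_left halg (by linarith only [hq1])
      linarith only [h2]
    linarith only [hq2, hq3, h1]
  have hbal : D = 0 → Bal H c := by
    intro hD00
    have h := sum_card_cl H c
    rw [hC.card] at h
    refine min_bal hTNB hr h ?_
    have h1 : 2 * (tn r n : ℝ) + ∑ i, sz H c i ^ 2 = (n : ℝ) ^ 2 := by linarith only [hDz, hD00]
    unfold sz at h1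
    exact_mod_cast h1
  have heD : e * D ≤ 1 / 72 * D := mul_le_mul_of_nonneg_right he72 hD0
  rcases HS n (by omega) V G c H (hC.mono lS) hfree hcol hMX with
    ⟨w, A, v1, v2, hW⟩ | ⟨w, u, A, B, i0, hW⟩ | ⟨w, T, hW⟩
  · -- type `WD`
    have hpW := (hGD r hr V G n H c w A v1 v2 hW).2.2
    have hDA : D = 2 * ((A.card : ℝ) - 1 - j) := by
      rw [hpE] at hpW
      linarith only [hDz, hpW]
    have hA1 : j + 1 ≤ A.card := by
      have : (j : ℝ) + 1 ≤ A.card := by linarith only [hD0, hDA]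
      exact_mod_cast this
    have h1 := (HD n (by omega) V G x _ c H w A v1 v2 (hC.mono lD) hx hW).1
    have hA0 : (0 : ℝ) ≤ A.card := Nat.cast_nonneg _
    have heA : 0 ≤ e * (1 + A.card) := by positivity
    have h2 := hlow _ (by linarith only [he0, heA]) h1 (key w hW.hw)
    have hAeq : A.card = j + 1 := by
      by_contra hne
      have h3 : j + 2 ≤ A.card := by omega
      have h4 : (j : ℝ) + 2 ≤ A.card := by exact_mod_cast h3
      have h5 : e * (2 + A.card) ≤ e * (2 * r + D / 2) :=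
        mul_le_mul_of_nonneg_left (by linarith only [hj2r, hDA]) he0.le
      linarith only [her, heD, hDA, h2, h4, h5]
    exact ⟨w, A, v1, v2, hW, hbal (by rw [hDA, hAeq]; push_cast; ring), hAeq⟩
  · -- type `WE`
    exfalso
    have hpW := (hGE r hr V G n H c w u A B i0 hW).2.2
    have hDA : D = 2 * ((A.card : ℝ) + r - j) := by
      rw [hpE] at hpW
      linarith only [hDz, hpW]
    have hA1 : (r : ℝ) ≤ A.card + 1 := by exact_mod_cast card_WE hW
    have h1 := HE n (by omega) V G x _ c H w u A B i0 (hC.mono lE) hx hW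
    have hA0 : (0 : ℝ) ≤ A.card := Nat.cast_nonneg _
    have heA : 0 ≤ e * (1 + A.card) := by positivity
    have h2 := hlow _ (by linarith only [he0, heA]) h1 (key w hW.hw)
    have h5 : e * (2 + A.card) ≤ e * (r + D / 2) :=
      mul_le_mul_of_nonneg_left (by linarith only [hj2r, hDA]) he0.le
    linarith only [her, hj2r, heD, hDA, hA1, h2, h5]
  · -- type `WF`
    have hpW := (hGF r hr V G n H c w T hW).2.2
    obtain ⟨hm2, hWD⟩ := WF_mis hW
    have hm2r : (2 : ℝ) ≤ mis G H c := by exact_mod_cast hm2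
    have hDA : D = 2 * ((r : ℝ) - j) - mis G H c := by
      rw [hpE] at hpW
      linarith only [hDz, hpW]
    have hjr : j + 1 ≤ r := by
      have : (j : ℝ) + 1 ≤ r := by linarith only [hpE, hDz, hD0, hpW, hm2r]
      exact_mod_cast this
    have hj : r = j + 1 := by omega
    have hrj : (r : ℝ) = j + 1 := by exact_mod_cast hj
    have hmle : mis G H c ≤ 2 := by
      have : (mis G H c : ℝ) ≤ 2 := by linarith only [hD0, hDA, hrj]
      exact_mod_cast this
    obtain ⟨v1, v2, h⟩ := hWD hmle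
    refine ⟨w, T, v1, v2, h, hbal (by linarith only [hD0, hm2r, hDA, hrj]), ?_⟩
    rw [← sum_card_cl T c, Finset.sum_congr rfl fun i _ => hW.hT1 i]
    simp [hj]

end Pool.Agent.Work.MP_5532fa_up

end

section

/-! # Block SECE2 (helper26) -/

open Finset

namespace Pool.Agent.Work.MP_5532fa_up

open MP5532fa (specRad qf pE)

namespace SECE2

variable {V : Type} [Fintype V] {r : ℕ}

omit [Fintype V] in
theorem ad_nonneg (G : SimpleGraph V) (a b : V) : 0 ≤ ad G a b := chi_nonneg _

/-- the eigenvalue equation inside `H` as an inequality -/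
theorem low {G : SimpleGraph V} {x : V → ℝ} {lam : ℝ} {H : Finset V} {c : V → Fin r}
    (hP : PV G x lam) (hadj : ∀ a ∈ H, ∀ b ∈ H, c a ≠ c b → G.Adj a b) {v : V} (hv : v ∈ H) :
    ∑ u ∈ H, x u - cs x H c (c v) ≤ lam * x v := by
  classical
  have h1 : ∑ u ∈ H, x u = cs x H c (c v) + ∑ u ∈ H.filter (fun u => ¬ c u = c v), x u := by
    unfold cs cl
    exact (Finset.sum_filter_add_sum_filter_not H (fun u => c u = c v) x).symm
  rw [h1, add_sub_cancel_left, ← hP.eig v]
  calc ∑ u ∈ H.filter (fun u => ¬ c u = c v), x u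
      = ∑ u ∈ H.filter (fun u => ¬ c u = c v), ad G v u * x u := by
        refine Finset.sum_congr rfl fun u hu => ?_
        rw [Finset.mem_filter] at hu
        have : G.Adj v u := hadj v hv u hu.1 (fun h => hu.2 h.symm)
        unfold ad
        rw [chi_pos this, one_mul]
    _ ≤ ∑ u, ad G v u * x u :=
        Finset.sum_le_sum_of_subset_of_nonneg (Finset.subset_univ _)
          fun u _ _ => mul_nonneg (ad_nonneg G v u) (hP.nn u)

end SECE2

open SECE2 in
theorem blk_SECE2 : Stmt_SECE2 := by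
  classical
  intro r hr V _ G x lam N c H w u A B i0 hP hlam hW
  have hadj : ∀ a ∈ H, ∀ b ∈ H, c a ≠ c b → G.Adj a b := fun a ha b hb h =>
    (hW.adj a b).mpr (Or.inl ⟨ha, hb, h⟩)
  set S : ℝ := ∑ v ∈ H, x v with hS
  have hS0 : 0 ≤ S := Finset.sum_nonneg fun v _ => hP.nn v
  have hsz : ∀ i, 0 ≤ sz H c i := fun i => Nat.cast_nonneg _
  have hden : ∀ i, 0 < lam + sz H c i := fun i => by have := hsz i; linarith
  -- class sums
  have h1 : ∀ i, sz H c i * (S - cs x H c i) ≤ lam * cs x H c i := by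
    intro i
    have h2 : ∑ v ∈ cl H c i, (S - cs x H c i) ≤ ∑ v ∈ cl H c i, lam * x v := by
      refine Finset.sum_le_sum fun v hv => ?_
      rw [mem_cl] at hv
      have := low hP hadj hv.1
      rw [hv.2] at this
      exact this
    rw [Finset.sum_const, nsmul_eq_mul, ← Finset.mul_sum] at h2
    exact h2
  have h2 : ∀ i, sz H c i / (lam + sz H c i) * S ≤ cs x H c i := by
    intro i
    have h3 := h1 i
    have h4 := hden i
    rw [div_mul_eq_mul_div, div_le_iff₀ h4]
    nlinarith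
  have h3 : (∑ i, sz H c i / (lam + sz H c i)) * S ≤ S := by
    rw [Finset.sum_mul]
    calc ∑ i, sz H c i / (lam + sz H c i) * S ≤ ∑ i, cs x H c i :=
          Finset.sum_le_sum fun i _ => h2 i
      _ = S := sum_cl H c x
  -- the sum is positive
  have hSpos : 0 < S := by
    rcases hS0.lt_or_eq with h | h
    · exact h
    · exfalso
      have hz : ∀ v ∈ H, x v = 0 := by
        intro v hv
        exact (Finset.sum_eq_zero_iff_of_nonneg (fun v _ => hP.nn v)).mp h.symm v hv
      -- a neighbour in H forces zero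
      have hnb : ∀ a ∈ H, ∀ b, G.Adj a b → x b = 0 := by
        intro a ha b hab
        have h4 : ad G a b * x b ≤ ∑ z, ad G a z * x z :=
          Finset.single_le_sum (f := fun z => ad G a z * x z)
            (fun z _ => mul_nonneg (ad_nonneg G a z) (hP.nn z)) (Finset.mem_univ b)
        rw [hP.eig a, hz a ha, mul_zero] at h4
        unfold ad at h4
        rw [chi_pos hab, one_mul] at h4
        exact le_antisymm h4 (hP.nn b)
      obtain ⟨i1, hi1⟩ : ∃ i : Fin r, i ≠ i0 := by
        by_contra hcon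
        push Not at hcon
        have h5 : (⟨0, by omega⟩ : Fin r) = ⟨1, by omega⟩ := by rw [hcon ⟨0, by omega⟩, hcon ⟨1, by omega⟩]
        have h6 := congrArg Fin.val h5
        simp at h6
      have hxw : x w = 0 := by
        obtain ⟨a, ha⟩ := hW.hAne i1 hi1
        rw [mem_cl] at ha
        exact hnb a (hW.hA ha.1) w ((hW.adj a w).mpr (Or.inr (Or.inr (Or.inl ⟨rfl, ha.1⟩))))
      have hxu : x u = 0 := by
        have h7 : (cl B c i1).Nonempty := by
          rw [← Finset.card_pos, hW.hB1 i1 hi1]; exact Nat.one_pos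
        obtain ⟨a, ha⟩ := h7
        rw [mem_cl] at ha
        exact hnb a (hW.hB ha.1) u
          ((hW.adj a u).mpr (Or.inr (Or.inr (Or.inr (Or.inr (Or.inl ⟨rfl, ha.1⟩))))))
      have hall : ∀ v, x v = 0 := by
        intro v
        by_cases hvH : v ∈ H
        · exact hz v hvH
        · have h8 : ∑ z, ad G v z * x z = 0 := by
            refine Finset.sum_eq_zero fun z _ => ?_
            by_cases hvz : G.Adj v z
            · have h9 : x z = 0 := by
                rcases (hW.adj v z).mp hvz with h | h | h | h | h | h | h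
                · exact absurd h.1 hvH
                · exact hz z (hW.hA h.2)
                · rw [h.1]; exact hxw
                · exact hz z (hW.hB h.2)
                · rw [h.1]; exact hxu
                · rw [h.2]; exact hxu
                · rw [h.2]; exact hxw
              rw [h9, mul_zero]
            · unfold ad; rw [chi_neg hvz, zero_mul]
          rw [hP.eig v] at h8
          rcases mul_eq_zero.mp h8 with h9 | h9
          · exact absurd h9 hlam.ne'
          · exact h9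
      have h10 := hP.unit
      rw [Finset.sum_eq_zero (fun v _ => by rw [hall v]; norm_num)] at h10
      norm_num at h10
  unfold Ph
  have h4 : ∑ i, sz H c i / (lam + sz H c i) ≤ 1 := by
    by_contra hcon
    push Not at hcon
    have := mul_lt_mul_of_pos_right hcon hSpos
    linarith
  linarith

end Pool.Agent.Work.MP_5532fa_up

end

section

/-!
# Block D2V: type D, the placement of the neighbours of `w`, range `RgV`
-/

set_option autoImplicit false

open Finset

namespace Pool.Agent.Work.MP_5532fa_up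

open MP5532fa (specRad qf pE)

/-- the range `RgV` is below `al r * N` -/
theorem RgV.le {r : ℕ} (hr : 3 ≤ r) {N j : ℕ} (h : RgV r N j) : (j : ℝ) ≤ al r * N := by
  have h1 := al_ge hr
  have h3 : (3 : ℝ) ≤ r := by exact_mod_cast hr
  have hN : (0 : ℝ) ≤ N := Nat.cast_nonneg N
  have h4 : (1 : ℝ) / (4 * r ^ 2) ≤ 2 / r := by
    rw [div_le_div_iff₀ (by positivity) (by positivity)]
    nlinarith
  unfold RgV at h
  have h5 : (0 : ℝ) ≤ al r * N := mul_nonneg (by linarith) hN
  refine h.trans ?_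
  have h6 : (1 - 2 / (r : ℝ) + 1 / (4 * r ^ 2)) * (al r * N) ≤ 1 * (al r * N) :=
    mul_le_mul_of_nonneg_right (by linarith) h5
  linarith

theorem blk_D2V (hGD : Stmt_GD) (hFAM : Stmt_FAM) (hCSE : Stmt_CSE) (hESTU : Stmt_ESTU)
    (hMV1 : Stmt_MV1) : Stmt_D2V := by
  classical
  intro r hr
  have hR : (3 : ℝ) ≤ (r : ℝ) := by exact_mod_cast hr
  obtain ⟨e, he0, he20⟩ : ∃ e : ℝ, 0 < e ∧ e ≤ 1 / 20 := ⟨1 / 20, by norm_num, le_rfl⟩
  obtain ⟨δ1, N1, hδ1, hest⟩ := hESTU r e hr he0
  refine ⟨min δ1 (1 / (2 * (r : ℝ))), max N1 (4 * r), lt_min hδ1 (by positivity), ?_⟩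
  intro N hN j hRg V _ G H c w A v1 v2 hW hNear hBal hMX
  set δ : ℝ := min δ1 (1 / (2 * (r : ℝ))) with hδ
  have hδa : δ ≤ δ1 := min_le_left _ _
  have hδb : δ ≤ 1 / (2 * (r : ℝ)) := min_le_right _ _
  have hN1 : N1 ≤ N := (le_max_left _ _).trans hN
  have hN4 : 4 * r ≤ N := (le_max_right _ _).trans hN
  have hN4' : 4 * (r : ℝ) ≤ N := by exact_mod_cast hN4
  have hNpos : (0 : ℝ) < N := by linarith
  have hne : Nonempty V := ⟨w⟩
  have hnear1 : ∀ A0 : Finset V, A0.card = A.card → Near r δ1 N j H A0 c := fun A0 h0 => by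
    refine ⟨fun i => (hNear.1 i).trans (mul_le_mul_of_nonneg_right hδa hNpos.le), ?_⟩
    rw [h0]
    exact hNear.2.trans (mul_le_mul_of_nonneg_right hδa hNpos.le)
  have hrr : 1 / (2 * (r : ℝ)) * N = N / r / 2 := by
    field_simp
  have hszlo : ∀ i, (2 : ℝ) ≤ sz H c i := fun i => by
    have h1 := (abs_le.1 (hNear.1 i)).1
    have h2 : δ * N ≤ N / r / 2 := by
      rw [← hrr]
      exact mul_le_mul_of_nonneg_right hδb hNpos.le
    have h3 : 4 ≤ (N : ℝ) / r := by
      rw [le_div_iff₀ (by linarith)]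
      exact hN4'
    linarith
  have hsz2 : ∀ i, 2 ≤ (cl H c i).card := fun i => by
    have := hszlo i
    unfold sz at this
    exact_mod_cast this
  have hszhi : ∀ i, sz H c i ≤ N / 2 := fun i => by
    have h1 := (abs_le.1 (hNear.1 i)).2
    have h2 : δ * N ≤ N / r / 2 := by
      rw [← hrr]
      exact mul_le_mul_of_nonneg_right hδb hNpos.le
    have h3 : (N : ℝ) / r ≤ N / 3 := div_le_div_of_nonneg_left hNpos.le (by norm_num) hR
    linarith
  have hal1 : al r ≤ 1 := (al_lt hr).le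
  have hal2 : 2 / 3 ≤ al r := al_ge hr
  have hjle : (j : ℝ) ≤ al r * N := hRg.le hr
  have hX0 : 0 ≤ (j : ℝ) / (al r * N) := by positivity
  have hX1 : (j : ℝ) / (al r * N) ≤ 1 := by
    rw [div_le_one (by positivity)]
    exact hjle
  -- facts for every eigenvector
  have hlam : ∀ (z : V → ℝ) (zb la : ℝ) (A0 : Finset V), Est r e N j z la c H w A0 zb →
      0 < la := fun z zb la A0 h => by
    have h1 := (abs_le.1 h.lamN).1
    have h2 : e * N ≤ 1 / 20 * N := mul_le_mul_of_nonneg_right he20 hNpos.le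
    have h3 : 2 / 3 * (N : ℝ) ≤ al r * N := mul_le_mul_of_nonneg_right hal2 hNpos.le
    linarith
  have hxw : ∀ (G0 : SimpleGraph V) (z : V → ℝ) (zb la : ℝ) (A0 : Finset V),
      WD G0 N H c w A0 v1 v2 → PV G0 z la → Est r e N j z la c H w A0 zb → 0 < z w := by
    intro G0 z zb la A0 hW0 hP0 h
    obtain ⟨a, ha⟩ := hW0.hne (c v1)
    have haA := (mem_cl.1 ha).1
    refine xpos_of_adj hP0 (hlam z zb la A0 h) ((hW0.adj w a).mpr (Or.inr (Or.inl ⟨rfl, haA⟩))) ?_
    have h1 := (abs_le.mp (h.xH a (hW0.hA haA))).1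
    have h2 : e * zb ≤ 1 / 20 * zb := mul_le_mul_of_nonneg_right he20 h.xb0.le
    have h3 := h.xb0
    linarith
  have hunequal : ∀ (z : V → ℝ) (zb la : ℝ) (A0 : Finset V) (i k : Fin r),
      Est r e N j z la c H w A0 zb → sz H c k - sz H c i = 1 → sz A0 c i ≤ sz H c i →
      cs z H c i < cs z H c k := fun z zb la A0 i k h h1 h2 => by
    have h3 := h.dif k i
    rw [h1, abs_one, mul_one] at h3
    have h4 := (abs_le.1 h3).1
    have h5 : -(1 / 2) ≤ (sz A0 c k - sz A0 c i) / N := by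
      rw [le_div_iff₀ hNpos]
      have h6 : 0 ≤ sz A0 c k := by unfold sz; positivity
      have h7 := hszhi i
      linarith
    have h6 : -(1 / 2) ≤ (j : ℝ) / (al r * N) * ((sz A0 c k - sz A0 c i) / N) := by
      nlinarith
    have h7 : zb * (2 / 3 - 1 / 2) ≤
        zb * (al r + (j : ℝ) / (al r * N) * ((sz A0 c k - sz A0 c i) / N)) :=
      mul_le_mul_of_nonneg_left (by linarith) h.xb0.le
    have h8 : e * zb ≤ 1 / 20 * zb := mul_le_mul_of_nonneg_right he20 h.xb0.le
    have h9 := h.xb0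
    linarith
  have hequal : ∀ (G0 : SimpleGraph V) (A0 : Finset V) (z : V → ℝ) (zb la : ℝ) (i k : Fin r),
      Fam G0 H c w A0 (JD v1 v2) → PV G0 z la → Est r e N j z la c H w A0 zb →
      i ∉ ({c v1, c v2} : Finset (Fin r)) → k ∉ ({c v1, c v2} : Finset (Fin r)) →
      sz H c i = sz H c k →
      (la + sz H c i) * (cs z H c i - cs z H c k) = (sz A0 c i - sz A0 c k) * z w := by
    intro G0 A0 z zb la i k hF hP hE hi hk hik
    obtain ⟨-, h1, -, -⟩ := hCSE r V G0 H c w A0 (JD v1 v2) z la hF hP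
    have hJ : ∀ i0, i0 ∉ ({c v1, c v2} : Finset (Fin r)) →
        ∑ v ∈ cl H c i0, ∑ u, JD v1 v2 v u * z u = 0 := by
      intro i0 hi0
      rw [Finset.mem_insert, Finset.mem_singleton, not_or] at hi0
      refine Finset.sum_eq_zero fun v hv => Finset.sum_eq_zero fun u _ => ?_
      have h2 : v ≠ v1 := fun h => hi0.1 (h ▸ (mem_cl.1 hv).2.symm)
      have h3 : v ≠ v2 := fun h => hi0.2 (h ▸ (mem_cl.1 hv).2.symm)
      unfold JD
      rw [chi_neg (fun h => h2 h.1), chi_neg (fun h => h3 h.1)]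
      ring
    have h2 := h1 i
    have h3 := h1 k
    rw [hJ i hi] at h2
    rw [hJ k hk, ← hik] at h3
    linear_combination h2 - h3
  -- the given graph
  obtain ⟨x, hPx⟩ := exists_PV G
  have hFx : Fam G H c w A (JD v1 v2) := (hFAM r hr V G N H c w A).1 v1 v2 hW
  obtain ⟨xb, hEx⟩ := hest N hN1 j hjle V G H c w A (JD v1 v2) x (specRad G) hFx hPx hW.card
    (hnear1 A rfl)
  -- the exchange
  have step : ∀ p q : Fin r, p ≠ q → p ∉ ({c v1, c v2} : Finset (Fin r)) →
      q ∉ ({c v1, c v2} : Finset (Fin r)) → 2 ≤ (cl A c p).card →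
      (cl A c q).card < (cl H c q).card →
      ∃ (A' : Finset V) (G' : SimpleGraph V) (y : V → ℝ) (la yb : ℝ),
        Fam G' H c w A' (JD v1 v2) ∧ PV G' y la ∧ Est r e N j y la c H w A' yb ∧ 0 < y w ∧
        sz A' c p = sz A c p - 1 ∧ sz A' c q = sz A c q + 1 ∧
        (cs x H c q < cs x H c p → cs y H c q ≤ cs y H c p → False) := by
    intro p q hpq hp hq h2 hlt
    obtain ⟨a, ha⟩ : (cl A c p).Nonempty := Finset.card_pos.1 (by omega)
    obtain ⟨b, hb, hbA⟩ : ∃ b ∈ cl H c q, b ∉ A := by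
      by_contra hcon
      push Not at hcon
      exact absurd (Finset.card_le_card (fun u hu => mem_cl.2 ⟨hcon u hu, (mem_cl.1 hu).2⟩ :
        cl H c q ⊆ cl A c q)) (by omega)
    have hca : c a = p := (mem_cl.1 ha).2
    have hcb : c b = q := (mem_cl.1 hb).2
    have haA : a ∈ A := (mem_cl.1 ha).1
    have hbH : b ∈ H := (mem_cl.1 hb).1
    have hab : a ≠ b := fun h => hbA (h ▸ haA)
    set A' : Finset V := insert b (A.erase a) with hA'
    have hmem : ∀ v, v ∈ A' ↔ (v ∈ A ∧ v ≠ a) ∨ v = b := fun v => by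
      rw [hA', Finset.mem_insert, Finset.mem_erase]
      tauto
    have hcardA : A'.card = A.card := by
      rw [hA', Finset.card_insert_of_notMem (fun h => hbA (Finset.mem_of_mem_erase h)),
        Finset.card_erase_of_mem haA]
      have := Finset.card_pos.2 ⟨a, haA⟩
      omega
    have hclo : ∀ i, i ≠ p → i ≠ q → cl A' c i = cl A c i := fun i h3 h4 => by
      ext v
      rw [mem_cl, mem_cl, hmem]
      constructor
      · rintro ⟨⟨h5, _⟩ | h5, h6⟩
        · exact ⟨h5, h6⟩
        · exact absurd (h6.symm.trans (h5 ▸ hcb)) h4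
      · rintro ⟨h5, h6⟩
        exact ⟨Or.inl ⟨h5, fun h => h3 (h6.symm.trans (h ▸ hca))⟩, h6⟩
    have hclp : cl A' c p = (cl A c p).erase a := by
      ext v
      rw [Finset.mem_erase, mem_cl, mem_cl, hmem]
      constructor
      · rintro ⟨⟨h5, h7⟩ | h5, h6⟩
        · exact ⟨h7, h5, h6⟩
        · exact absurd (h6.symm.trans (h5 ▸ hcb)) hpq
      · rintro ⟨h7, h5, h6⟩
        exact ⟨Or.inl ⟨h5, h7⟩, h6⟩
    have hclq : cl A' c q = insert b (cl A c q) := by
      ext v
      rw [Finset.mem_insert, mem_cl, mem_cl, hmem]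
      constructor
      · rintro ⟨⟨h5, h7⟩ | h5, h6⟩
        · exact Or.inr ⟨h5, h6⟩
        · exact Or.inl h5
      · rintro (h5 | ⟨h5, h6⟩)
        · exact ⟨Or.inr h5, h5 ▸ hcb⟩
        · exact ⟨Or.inl ⟨h5, fun h => hpq ((h ▸ hca).symm.trans h6)⟩, h6⟩
    have hszp : sz A' c p = sz A c p - 1 := by
      unfold sz
      rw [hclp, Finset.card_erase_of_mem ha, Nat.cast_sub (by omega)]
      simp
    have hszq : sz A' c q = sz A c q + 1 := by
      unfold sz
      rw [hclq, Finset.card_insert_of_notMem (fun h => hbA (mem_cl.1 h).1)]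
      push_cast
      ring
    rw [Finset.mem_insert, Finset.mem_singleton, not_or] at hp hq
    have hA'H : A' ⊆ H := fun v hv => by
      rcases (hmem v).1 hv with h | h
      · exact hW.hA h.1
      · exact h ▸ hbH
    have hW' : WD (gD H c w A' v1 v2) N H c w A' v1 v2 := by
      refine gD_WD hW.card hW.hw hA'H hW.h12 ?_ ?_ ?_
      · rw [hclo _ (Ne.symm hp.1) (Ne.symm hq.1)]
        exact hW.h1
      · rw [hclo _ (Ne.symm hp.2) (Ne.symm hq.2)]
        exact hW.h2
      · intro i
        by_cases h3 : i = p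
        · rw [h3, hclp, ← Finset.card_pos, Finset.card_erase_of_mem ha]
          omega
        · by_cases h4 : i = q
          · rw [h4, hclq]
            exact ⟨b, Finset.mem_insert_self _ _⟩
          · rw [hclo i h3 h4]
            exact hW.hne i
    set G' : SimpleGraph V := gD H c w A' v1 v2 with hG'
    have hgd := hGD r hr V G N H c w A v1 v2 hW
    have hgd' := hGD r hr V G' N H c w A' v1 v2 hW'
    have hpe : pE G' = pE G := by
      rw [hgd'.2.2, hgd.2.2, hcardA]
    have hle := hMX G' hgd'.1 (hgd'.2.1 hsz2) hpe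
    obtain ⟨y, hPy⟩ := exists_PV G'
    have hFy : Fam G' H c w A' (JD v1 v2) := (hFAM r hr V G' N H c w A').1 v1 v2 hW'
    obtain ⟨yb, hEy⟩ := hest N hN1 j hjle V G' H c w A' (JD v1 v2) y (specRad G') hFy hPy hW.card
      (hnear1 A' hcardA)
    refine ⟨A', G', y, specRad G', yb, hFy, hPy, hEy, hxw G' y yb _ A' hW' hPy hEy, hszp, hszq,
      fun hx hy => ?_⟩
    have ha1 : a ≠ v1 := fun h => hp.1 (h ▸ hca.symm)
    have ha2 : a ≠ v2 := fun h => hp.2 (h ▸ hca.symm)
    have hb1 : b ≠ v1 := fun h => hq.1 (h ▸ hcb.symm)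
    have hb2 : b ≠ v2 := fun h => hq.2 (h ▸ hcb.symm)
    have hJ : ∀ z, JD v1 v2 a z = JD v1 v2 b z := fun z => by
      unfold JD
      rw [chi_neg (fun h => ha1 h.1), chi_neg (fun h => ha2 h.1), chi_neg (fun h => hb1 h.1),
        chi_neg (fun h => hb2 h.1)]
    have hlt' := hMV1 r V G G' H c w A A' (JD v1 v2) a b x y (specRad G) (specRad G') hFx hFy hPx
      hPy (hlam x xb _ A hEx) (hlam y yb _ A' hEy) (hxw G x xb _ A hW hPx hEx)
      (hxw G' y yb _ A' hW' hPy hEy) haA hbH
      hbA hmem hJ (by rw [hca, hcb]; exact hx) (by rw [hca, hcb]; exact hy)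
    linarith
  intro i k hi hk
  have hsz0 : ∀ (S : Finset V) (i : Fin r), 0 ≤ sz S c i := fun S i => by
    unfold sz
    positivity
  refine ⟨fun hik => ?_, fun hik => ?_⟩
  · by_contra hcon
    push Not at hcon
    have hne : i ≠ k := fun h => by
      rw [h] at hcon
      omega
    have hkle : (cl A c i).card ≤ (cl H c i).card :=
      Finset.card_le_card fun u hu => mem_cl.2 ⟨hW.hA (mem_cl.1 hu).1, (mem_cl.1 hu).2⟩
    obtain ⟨A', G', y, la, yb, hFy, hPy, hEy, hyw, h1, h2, h3⟩ := step i k hne hi hk (by omega)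
      (by omega)
    have hszik : sz H c i = sz H c k := by
      unfold sz
      exact_mod_cast hik
    have hgap : sz A c k + 2 ≤ sz A c i := by
      unfold sz
      exact_mod_cast hcon
    refine h3 ?_ ?_
    · have h4 := hequal G A x xb _ i k hFx hPx hEx hi hk hszik
      have h5 : 0 < (sz A c i - sz A c k) * x w :=
        mul_pos (by linarith) (hxw G x xb _ A hW hPx hEx)
      rw [← h4] at h5
      have h6 : 0 < specRad G + sz H c i := by
        have := hlam x xb _ A hEx
        have := hsz0 H i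
        linarith
      have h7 := (mul_pos_iff_of_pos_left h6).1 h5
      linarith
    · have h4 := hequal G' A' y yb _ i k hFy hPy hEy hi hk hszik
      have h5 : 0 ≤ (sz A' c i - sz A' c k) * y w :=
        mul_nonneg (by rw [h1, h2]; linarith) hyw.le
      rw [← h4] at h5
      have h6 : 0 < la + sz H c i := by
        have := hlam y yb _ A' hEy
        have := hsz0 H i
        linarith
      have h7 := nonneg_of_mul_nonneg_right h5 h6
      linarith
  · by_contra hcon
    push Not at hcon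
    have hne : k ≠ i := fun h => by
      rw [h] at hik
      omega
    have hile : (cl A c i).card ≤ (cl H c i).card :=
      Finset.card_le_card fun u hu => mem_cl.2 ⟨hW.hA (mem_cl.1 hu).1, (mem_cl.1 hu).2⟩
    have hkpos : 0 < (cl A c k).card := Finset.card_pos.2 (hW.hne k)
    obtain ⟨A', G', y, la, yb, hFy, hPy, hEy, hyw, h1, h2, h3⟩ := step k i hne hk hi (by omega)
      (by omega)
    have hbal := hBal k i
    have hdiff : sz H c k - sz H c i = 1 := by
      unfold sz
      have : (cl H c k).card = (cl H c i).card + 1 := by omega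
      rw [this]
      push_cast
      ring
    have hlt : sz A c i + 1 ≤ sz H c i := by
      unfold sz
      have : (cl A c i).card + 1 ≤ (cl H c i).card := by omega
      exact_mod_cast this
    refine h3 ?_ ?_
    · exact hunequal x xb _ A i k hEx hdiff (by linarith)
    · exact (hunequal y yb _ A' i k hEy hdiff (by rw [h2]; linarith)).le

end Pool.Agent.Work.MP_5532fa_up

end
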