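import Mathlib
import Pool.Agent.Work.MP_5532fa_full.P24

section

/-!
# MP_5532fa_co, upgrade, fourth round: the secular function, common part of SECD, SECF, SECE
-/

set_option autoImplicit false

open Finset

namespace Pool.Agent.Work.MP_5532fa_up

open MP5532fa (specRad qf pE)

namespace SEC0

section
variable {V : Type} [Fintype V] {r : ℕ} {G : SimpleGraph V} {H : Finset V} {c : V → Fin r}

/-- the class sums of the eigenvector -/
theorem cs_eq (h : ∀ u ∈ H, ∀ v ∈ H, c u = c v → ¬ G.Adj u v) {x : V → ℝ} {lam : ℝ}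
    (hpv : PV G x lam) (i : Fin r) :
    (lam + sz H c i) * cs x H c i = sz H c i * ∑ u ∈ H, x u
      + (∑ v ∈ cl H c i, EST1.ot G H x v - ∑ v ∈ cl H c i, EST1.ms G H c x v) := by
  have h1 : ∀ v ∈ cl H c i, lam * x v = (∑ u ∈ H, x u - cs x H c i)
      + (EST1.ot G H x v - EST1.ms G H c x v) := by
    intro v hv
    rw [mem_cl] at hv
    have := EST1.row h hpv hv.1
    rw [hv.2] at this
    linarith
  have h2 := Finset.sum_congr (rfl : cl H c i = cl H c i) h1
  rw [← Finset.mul_sum, Finset.sum_add_distrib, Finset.sum_const, nsmul_eq_mul,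
    Finset.sum_sub_distrib] at h2
  have h3 : ∑ v ∈ cl H c i, x v = cs x H c i := rfl
  have h4 : ((cl H c i).card : ℝ) = sz H c i := rfl
  rw [h3, h4] at h2
  linarith

/-- the secular identity -/
theorem sec_eq (h : ∀ u ∈ H, ∀ v ∈ H, c u = c v → ¬ G.Adj u v) {x : V → ℝ} {lam : ℝ}
    (hpv : PV G x lam) (hpos : ∀ i, 0 < lam + sz H c i) :
    (∑ u ∈ H, x u) * Ph (sz H c) lam
      = ∑ i, (∑ v ∈ cl H c i, EST1.ms G H c x v) / (lam + sz H c i)
        - ∑ i, (∑ v ∈ cl H c i, EST1.ot G H x v) / (lam + sz H c i) := by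
  have h1 : ∀ i, cs x H c i = (∑ u ∈ H, x u) * (sz H c i / (lam + sz H c i))
      + ((∑ v ∈ cl H c i, EST1.ot G H x v) / (lam + sz H c i)
        - (∑ v ∈ cl H c i, EST1.ms G H c x v) / (lam + sz H c i)) := by
    intro i
    have h2 := cs_eq h hpv i
    have h3 := (hpos i).ne'
    field_simp
    linarith
  have h2 : ∑ i, cs x H c i = ∑ u ∈ H, x u := sum_cl H c x
  have h3 : ∑ i, cs x H c i = (∑ u ∈ H, x u) * ∑ i, (sz H c i / (lam + sz H c i))
      + (∑ i, (∑ v ∈ cl H c i, EST1.ot G H x v) / (lam + sz H c i)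
        - ∑ i, (∑ v ∈ cl H c i, EST1.ms G H c x v) / (lam + sz H c i)) := by
    rw [Finset.sum_congr rfl fun i _ => h1 i, Finset.sum_add_distrib, Finset.mul_sum,
      Finset.sum_sub_distrib]
  unfold Ph
  rw [h2] at h3
  linarith

/-- bounds for a sum divided by almost constant numbers -/
theorem div_bounds {ι : Type} [Fintype ι] {a p : ι → ℝ} {e n : ℝ} (he1 : e < 1)
    (hn : 0 < n) (ha : ∀ i, 0 ≤ a i) (hp : ∀ i, |p i - n| ≤ e * n) :
    (∑ i, a i) / ((1 + e) * n) ≤ ∑ i, a i / p i ∧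
      ∑ i, a i / p i ≤ (∑ i, a i) / ((1 - e) * n) := by
  have h1 : ∀ i, (1 - e) * n ≤ p i ∧ p i ≤ (1 + e) * n := by
    intro i
    have := abs_le.mp (hp i)
    constructor <;> linarith [this.1, this.2]
  have h2 : 0 < (1 - e) * n := mul_pos (by linarith) hn
  constructor
  · rw [Finset.sum_div]
    exact Finset.sum_le_sum fun i _ =>
      div_le_div_of_nonneg_left (ha i) (lt_of_lt_of_le h2 (h1 i).1) (h1 i).2
  · rw [Finset.sum_div]
    exact Finset.sum_le_sum fun i _ => div_le_div_of_nonneg_left (ha i) h2 (h1 i).1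

/-- real inequalities, lower bound -/
theorem realL {M O s Q e : ℝ} (hM : 0 ≤ M) (hO : 0 ≤ O) (he : 0 ≤ e) (he1 : e ≤ 1 / 20)
    (s1 : 1 - e ≤ s) (s2 : s ≤ 1 + e) (h : M / (1 + 2 * e) - O / (1 - 2 * e) ≤ s * Q) :
    M * (1 - 4 * e) - O * 2 ≤ Q := by
  have hs0 : 0 < s := by linarith
  have d1 : M * (1 - 2 * e) ≤ M / (1 + 2 * e) := by
    rw [le_div_iff₀ (by linarith)]
    nlinarith [mul_nonneg hM (mul_nonneg he he)]
  have d2 : O / (1 - 2 * e) ≤ O * (10 / 9) := by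
    rw [div_le_iff₀ (by linarith)]
    nlinarith
  by_contra hcon
  push Not at hcon
  have d4 : s * Q < s * (M * (1 - 4 * e) - O * 2) := mul_lt_mul_of_pos_left hcon hs0
  have d5 : s * (M * (1 - 4 * e)) ≤ (1 + e) * (M * (1 - 4 * e)) :=
    mul_le_mul_of_nonneg_right s2 (mul_nonneg hM (by linarith))
  have d6 : (1 - e) * (O * 2) ≤ s * (O * 2) := mul_le_mul_of_nonneg_right s1 (by linarith)
  have d7 : (1 + e) * (M * (1 - 4 * e)) ≤ M * (1 - 2 * e) := by
    have : (1 + e) * (1 - 4 * e) ≤ 1 - 2 * e := by nlinarith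
    calc (1 + e) * (M * (1 - 4 * e)) = M * ((1 + e) * (1 - 4 * e)) := by ring
      _ ≤ M * (1 - 2 * e) := mul_le_mul_of_nonneg_left this hM
  have d8 : O * (10 / 9) ≤ (1 - e) * (O * 2) := by nlinarith
  have d9 : s * (M * (1 - 4 * e) - O * 2) = s * (M * (1 - 4 * e)) - s * (O * 2) := by ring
  linarith

/-- real inequalities, upper bound -/
theorem realU {M s Q e : ℝ} (hM : 0 ≤ M) (he : 0 ≤ e) (he1 : e ≤ 1 / 20)
    (s1 : 1 - e ≤ s) (h : s * Q ≤ M / (1 - 2 * e)) : Q ≤ M * (1 + 5 * e) := by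
  have hs0 : 0 < s := by linarith
  have d1 : M / (1 - 2 * e) ≤ M * (1 + 3 * e) := by
    rw [div_le_iff₀ (by linarith)]
    have : 1 ≤ (1 + 3 * e) * (1 - 2 * e) := by nlinarith
    calc M = M * 1 := (mul_one _).symm
      _ ≤ M * ((1 + 3 * e) * (1 - 2 * e)) := mul_le_mul_of_nonneg_left this hM
      _ = M * (1 + 3 * e) * (1 - 2 * e) := by ring
  by_contra hcon
  push Not at hcon
  have d2 : s * (M * (1 + 5 * e)) < s * Q := mul_lt_mul_of_pos_left hcon hs0
  have d3 : (1 - e) * (M * (1 + 5 * e)) ≤ s * (M * (1 + 5 * e)) :=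
    mul_le_mul_of_nonneg_right s1 (mul_nonneg hM (by linarith))
  have d4 : M * (1 + 3 * e) ≤ (1 - e) * (M * (1 + 5 * e)) := by
    have : 1 + 3 * e ≤ (1 - e) * (1 + 5 * e) := by nlinarith
    calc M * (1 + 3 * e) ≤ M * ((1 - e) * (1 + 5 * e)) := mul_le_mul_of_nonneg_left this hM
      _ = (1 - e) * (M * (1 + 5 * e)) := by ring
  linarith

/-- rescaling, lower bound -/
theorem resL {M O xb n s P Q S e : ℝ} (hxb : 0 < xb) (hn : 0 < n) (he : 0 ≤ e)
    (he1 : e ≤ 1 / 20) (hs : S = s * (n * xb)) (hQ : Q = n ^ 2 * P)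
    (h : M / ((1 + 2 * e) * n) - O / ((1 - 2 * e) * n) ≤ S * P) :
    M / xb / (1 + 2 * e) - O / xb / (1 - 2 * e) ≤ s * Q := by
  have h1 : M / ((1 + 2 * e) * n) - O / ((1 - 2 * e) * n)
      = (M / xb / (1 + 2 * e) - O / xb / (1 - 2 * e)) * (xb / n) := by
    have : (1 + 2 * e) ≠ 0 := by linarith
    have : (1 - 2 * e) ≠ 0 := by linarith
    field_simp
  have h2 : S * P = (s * Q) * (xb / n) := by
    rw [hs, hQ]
    field_simp
  rw [h1, h2] at h
  exact le_of_mul_le_mul_right h (div_pos hxb hn)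

/-- rescaling, upper bound -/
theorem resU {M xb n s P Q S e : ℝ} (hxb : 0 < xb) (hn : 0 < n)
    (he1 : e ≤ 1 / 20) (hs : S = s * (n * xb)) (hQ : Q = n ^ 2 * P)
    (h : S * P ≤ M / ((1 - 2 * e) * n)) : s * Q ≤ M / xb / (1 - 2 * e) := by
  have h1 : M / ((1 - 2 * e) * n) = (M / xb / (1 - 2 * e)) * (xb / n) := by
    have : (1 - 2 * e) ≠ 0 := by linarith
    field_simp
  have h2 : S * P = (s * Q) * (xb / n) := by
    rw [hs, hQ]
    field_simp
  rw [h1, h2] at h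
  exact le_of_mul_le_mul_right h (div_pos hxb hn)

/-- the value of the secular function -/
theorem key {δ e : ℝ} {n : ℕ} {x : V → ℝ} {lam xb : ℝ} (hC : C0 r δ n G c H)
    (hpv : PV G x lam) (hF : Fl r e n H x lam xb) (he : 0 ≤ e) (he1 : e ≤ 1 / 20) (hδ : δ ≤ e)
    (hn : 1 ≤ n) :
    (∑ v ∈ H, EST1.ms G H c x v) / xb * (1 - 4 * e)
        - (∑ v ∈ H, EST1.ot G H x v) / xb * 2 ≤ (n : ℝ) ^ 2 * Ph (sz H c) lam ∧
      (n : ℝ) ^ 2 * Ph (sz H c) lam ≤ (∑ v ∈ H, EST1.ms G H c x v) / xb * (1 + 5 * e) := by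
  have hn0 : (0 : ℝ) < n := by
    have : (1 : ℝ) ≤ n := by exact_mod_cast hn
    linarith
  have hxb := hF.xb0
  set S := ∑ u ∈ H, x u with hS
  set M := ∑ v ∈ H, EST1.ms G H c x v with hM
  set O := ∑ v ∈ H, EST1.ot G H x v with hO
  have hms : ∀ i, 0 ≤ ∑ v ∈ cl H c i, EST1.ms G H c x v := fun i =>
    Finset.sum_nonneg fun v _ => EST1.ms_nonneg hpv.nn v
  have hot : ∀ i, 0 ≤ ∑ v ∈ cl H c i, EST1.ot G H x v := fun i =>
    Finset.sum_nonneg fun v _ => EST1.ot_nonneg hpv.nn v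
  have hM0 : 0 ≤ M := Finset.sum_nonneg fun v _ => EST1.ms_nonneg hpv.nn v
  have hO0 : 0 ≤ O := Finset.sum_nonneg fun v _ => EST1.ot_nonneg hpv.nn v
  have hMs : ∑ i, ∑ v ∈ cl H c i, EST1.ms G H c x v = M := sum_cl H c _
  have hOs : ∑ i, ∑ v ∈ cl H c i, EST1.ot G H x v = O := sum_cl H c _
  -- the denominators
  have hp : ∀ i, |(lam + sz H c i) - n| ≤ (2 * e) * n := by
    intro i
    have h1 := abs_le.mp hF.lamN
    have h2 := abs_le.mp (hC.bal i)
    have h3 : δ * n ≤ e * n := mul_le_mul_of_nonneg_right hδ hn0.le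
    have h4 : al r * n = n - n / r := by unfold al; ring
    rw [h4] at h1
    rw [abs_le]
    constructor <;> linarith [h1.1, h1.2, h2.1, h2.2]
  have hpos : ∀ i, 0 < lam + sz H c i := by
    intro i
    have h1 := abs_le.mp (hp i)
    have h2 : (2 * e) * n ≤ (1 / 10) * n := mul_le_mul_of_nonneg_right (by linarith) hn0.le
    linarith [h1.1]
  -- the sum of the entries
  have hS1 : (1 - e) * (n * xb) ≤ S ∧ S ≤ (1 + e) * (n * xb) := by
    have h1 : ∀ v ∈ H, (1 - e) * xb ≤ x v ∧ x v ≤ (1 + e) * xb := by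
      intro v hv
      have := abs_le.mp (hF.xH v hv)
      constructor <;> linarith [this.1, this.2]
    have h2 : (H.card : ℝ) = n := by rw [hC.card]
    constructor
    · have := Finset.sum_le_sum fun v hv => (h1 v hv).1
      rw [Finset.sum_const, nsmul_eq_mul, h2] at this
      linarith
    · have := Finset.sum_le_sum fun v hv => (h1 v hv).2
      rw [Finset.sum_const, nsmul_eq_mul, h2] at this
      linarith
  have hnx : 0 < n * xb := mul_pos hn0 hxb
  have hSpos : 0 < S := lt_of_lt_of_le (mul_pos (by linarith) hnx) hS1.1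
  have hid := sec_eq hC.ind hpv hpos
  rw [← hS] at hid
  obtain ⟨m1, m2⟩ := div_bounds (e := 2 * e) (n := (n : ℝ)) (by linarith) hn0 hms hp
  obtain ⟨o1, o2⟩ := div_bounds (e := 2 * e) (n := (n : ℝ)) (by linarith) hn0 hot hp
  rw [hMs] at m1 m2
  rw [hOs] at o1 o2
  have ho0 : 0 ≤ O / ((1 + 2 * e) * n) := div_nonneg hO0 (mul_nonneg (by linarith) hn0.le)
  set P := Ph (sz H c) lam with hP
  -- `S * P` is between the bounds
  have b1 : M / ((1 + 2 * e) * n) - O / ((1 - 2 * e) * n) ≤ S * P := by rw [hid]; linarith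
  have b2 : S * P ≤ M / ((1 - 2 * e) * n) := by rw [hid]; linarith
  have eS : S = (S / (n * xb)) * (n * xb) := by field_simp
  have s1 : 1 - e ≤ S / (n * xb) := by rw [le_div_iff₀ hnx]; exact hS1.1
  have s2 : S / (n * xb) ≤ 1 + e := by rw [div_le_iff₀ hnx]; exact hS1.2
  exact ⟨realL (div_nonneg hM0 hxb.le) (div_nonneg hO0 hxb.le) he he1 s1 s2
      (resL hxb hn0 he he1 eS rfl b1),
    realU (div_nonneg hM0 hxb.le) he he1 s1 (resU hxb hn0 he1 eS rfl b2)⟩

end

end SEC0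

end Pool.Agent.Work.MP_5532fa_up

end

section

/-! Block LAM: the spectral radius is `al r * n + O(1)`. -/

open Finset

namespace Pool.Agent.Work.MP_5532fa_up

open MP5532fa (specRad qf pE)

namespace LAM

variable {V : Type} [Fintype V] {r : ℕ}

omit [Fintype V] in
/-- the quadratic form on `H` -/
theorem formH (G : SimpleGraph V) (H : Finset V) (c : V → Fin r)
    (ind : ∀ u ∈ H, ∀ v ∈ H, c u = c v → ¬ G.Adj u v) (z : V → ℝ) :
    ∑ u ∈ H, ∑ v ∈ H, ad G u v * (z u * z v) =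
      (∑ u ∈ H, z u) ^ 2 - ∑ i, cs z H c i ^ 2 -
        ∑ u ∈ H, ∑ v ∈ H, chi (c u ≠ c v ∧ ¬ G.Adj u v) * (z u * z v) := by
  classical
  have e1 : (∑ u ∈ H, z u) ^ 2 = ∑ u ∈ H, ∑ v ∈ H, z u * z v := by
    rw [sq, sum_mul_sum]
  have e2 : ∑ i, cs z H c i ^ 2 = ∑ u ∈ H, ∑ v ∈ H, chi (c u = c v) * (z u * z v) := by
    rw [← sum_cl H c (fun u => ∑ v ∈ H, chi (c u = c v) * (z u * z v))]
    refine sum_congr rfl fun i _ => ?_
    have : ∀ u ∈ cl H c i, ∑ v ∈ H, chi (c u = c v) * (z u * z v) = z u * cs z H c i := by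
      intro u hu
      have hui := (mem_cl.mp hu).2
      unfold cs cl
      rw [sum_filter, mul_sum]
      refine sum_congr rfl fun v _ => ?_
      by_cases h : c v = i
      · rw [if_pos h, chi_pos (hui.trans h.symm), one_mul]
      · rw [if_neg h, chi_neg (fun h' => h (h'.symm.trans hui)), zero_mul, mul_zero]
    rw [sum_congr rfl this, ← sum_mul, sq]
    rfl
  rw [e1, e2, ← sum_sub_distrib, ← sum_sub_distrib]
  refine sum_congr rfl fun u hu => ?_
  rw [← sum_sub_distrib, ← sum_sub_distrib]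
  refine sum_congr rfl fun v hv => ?_
  by_cases hadj : G.Adj u v
  · have hc : c u ≠ c v := fun h => ind u hu v hv h hadj
    unfold ad
    rw [chi_pos hadj, chi_neg hc, chi_neg (fun h => h.2 hadj)]
    ring
  · by_cases hc : c u = c v
    · unfold ad
      rw [chi_neg hadj, chi_pos hc, chi_neg (fun h => h.1 hc)]
      ring
    · unfold ad
      rw [chi_neg hadj, chi_neg hc, chi_pos ⟨hc, hadj⟩]
      ring

theorem lower (hr : 3 ≤ r) {δ : ℝ} {n : ℕ} (hn : 1 ≤ n) {G : SimpleGraph V} {x : V → ℝ} {lam : ℝ}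
    {c : V → Fin r} {H : Finset V} (h0 : C0 r δ n G c H)
    (hb : ∀ i, |sz H c i - n / r| ≤ 2 * √(n : ℝ)) (hp : PV G x lam) :
    al r * n - 4 * r - δ ≤ lam := by
  classical
  have hn0 : (0 : ℝ) < n := by exact_mod_cast hn
  have hr0 : (0 : ℝ) < r := by
    have : (3 : ℝ) ≤ r := by exact_mod_cast hr
    linarith
  have := hp.nonempty
  have h1 := rayleigh G (fun v => chi (v ∈ H))
  rw [← hp.rad] at h1
  have e1 : ∑ v, chi (v ∈ H) ^ 2 = n := by
    rw [ACC0.restr H]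
    · rw [sum_congr rfl (fun v hv => show chi (v ∈ H) ^ 2 = (1 : ℝ) by rw [chi_pos hv, one_pow]),
        sum_const, nsmul_eq_mul, mul_one, h0.card]
    · intro v hv
      rw [chi_neg hv]; ring
  have e2 : ∑ u, ∑ v, ad G u v * (chi (u ∈ H) * chi (v ∈ H)) =
      ∑ u ∈ H, ∑ v ∈ H, ad G u v * ((1 : ℝ) * 1) := by
    rw [ACC0.restr H]
    · refine sum_congr rfl fun u hu => ?_
      rw [ACC0.restr H]
      · exact sum_congr rfl fun v hv => by rw [chi_pos hu, chi_pos hv]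
      · intro v hv
        rw [chi_neg hv]; ring
    · intro u hu
      refine sum_eq_zero fun v _ => ?_
      rw [chi_neg hu]; ring
  have e3 := formH G H c h0.ind (fun _ => (1 : ℝ))
  have e4 : ∑ u ∈ H, ∑ v ∈ H, chi (c u ≠ c v ∧ ¬ G.Adj u v) * ((1 : ℝ) * 1) = mis G H c := by
    rw [EDG.mis_eq]
    exact sum_congr rfl fun u _ => sum_congr rfl fun v _ => by ring
  have e5 : ∑ _u ∈ H, (1 : ℝ) = n := by
    rw [sum_const, nsmul_eq_mul, mul_one, h0.card]
  have e6 : ∀ i, cs (fun _ => (1 : ℝ)) H c i = sz H c i := by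
    intro i
    unfold cs sz
    rw [sum_const, nsmul_eq_mul, mul_one]
  simp only [e6] at e3
  rw [e1, e2, e3, e4, e5] at h1
  -- the sum of squares
  have hs : ∑ i, sz H c i = n := by
    have := sum_card_cl H c
    unfold sz
    rw [← h0.card]
    exact_mod_cast this
  have hq : ∑ i, sz H c i ^ 2 ≤ n ^ 2 / r + 4 * r * n := by
    have e : ∀ i, sz H c i ^ 2 = (sz H c i - n / r) ^ 2 + 2 * (n / r) * sz H c i - (n / r) ^ 2 :=
      fun i => by ring
    have h2 : ∑ i, (sz H c i - n / r) ^ 2 ≤ ∑ _i : Fin r, (4 * n : ℝ) := by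
      refine sum_le_sum fun i _ => ?_
      have h3 := hb i
      have h4 : (sz H c i - n / r) ^ 2 ≤ (2 * √(n : ℝ)) ^ 2 := by
        rw [← sq_abs]
        exact pow_le_pow_left₀ (abs_nonneg _) h3 2
      rw [mul_pow, Real.sq_sqrt hn0.le] at h4
      linarith
    rw [sum_const, card_univ, Fintype.card_fin, nsmul_eq_mul] at h2
    simp only [e]
    rw [sum_sub_distrib, sum_add_distrib, ← mul_sum, hs, sum_const, card_univ, Fintype.card_fin,
      nsmul_eq_mul]
    have e7 : (r : ℝ) * ((n : ℝ) / r) ^ 2 = n ^ 2 / r := by field_simp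
    have e8 : 2 * ((n : ℝ) / r) * n = 2 * (n ^ 2 / r) := by ring
    rw [e7, e8]
    linarith
  have hm := h0.mis
  have h5 : (n : ℝ) ^ 2 - (n ^ 2 / r + 4 * r * n) - δ * n ≤ lam * n := by linarith
  have h6 : (al r * n - 4 * r - δ) * n = (n : ℝ) ^ 2 - (n ^ 2 / r + 4 * r * n) - δ * n := by
    unfold al
    ring
  rw [← h6] at h5
  exact le_of_mul_le_mul_right h5 hn0

theorem upper (hr : 3 ≤ r) {δ : ℝ} {n : ℕ} (hn : 1 ≤ n) (hδ0 : 0 < δ) (hδ : δ ≤ 1 / 18)
    {G : SimpleGraph V} {x : V → ℝ} {lam xb : ℝ}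
    {c : V → Fin r} {H : Finset V} (h0 : C0 r δ n G c H) (hp : PV G x lam)
    (hf : Fl r (1 / 2) n H x lam xb) : lam ≤ al r * n + 1 := by
  classical
  have hn0 : (0 : ℝ) < n := by exact_mod_cast hn
  have hr0 : (0 : ℝ) < r := by
    have : (3 : ℝ) ≤ r := by exact_mod_cast hr
    linarith
  have hal : 0 < al r := lt_of_lt_of_le (by norm_num) (al_ge hr)
  have hxb := hf.xb0
  have hup : ∀ v, x v ≤ 3 / 2 * xb := by
    intro v
    by_cases hv : v ∈ H
    · have := (abs_le.mp (hf.xH v hv)).2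
      linarith
    · have := hf.xo v hv
      linarith
  have hlo : ∀ v ∈ H, xb / 2 ≤ x v := by
    intro v hv
    have := (abs_le.mp (hf.xH v hv)).1
    linarith
  have hH1 : ∑ v ∈ H, x v ^ 2 ≤ 1 := by
    rw [← hp.unit]
    exact sum_le_sum_of_subset_of_nonneg (subset_univ _) fun v _ _ => sq_nonneg _
  have hxn : (n : ℝ) * (xb / 2) ^ 2 ≤ 1 := by
    have h1 := card_nsmul_le_sum H (fun v => x v ^ 2) ((xb / 2) ^ 2)
      (fun v hv => pow_le_pow_left₀ (by linarith) (hlo v hv) 2)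
    rw [nsmul_eq_mul, h0.card] at h1
    exact h1.trans hH1
  -- the parts
  set A : ℝ := ∑ u ∈ H, ∑ v ∈ H, ad G u v * (x u * x v) with hA
  set D : ℝ := ∑ u ∈ out H, ∑ v, ad G u v * (x u * x v) with hD
  have hnn : ∀ u v, 0 ≤ ad G u v * (x u * x v) := fun u v =>
    mul_nonneg (EDG.ad_nonneg G u v) (mul_nonneg (hp.nn u) (hp.nn v))
  have hHU : ∑ u ∈ H, ∑ v ∈ out H, ad G u v * (x u * x v) ≤ D := by
    rw [hD, sum_comm]
    refine sum_le_sum fun v _ => ?_
    refine (le_of_eq (sum_congr rfl fun u _ => ?_)).trans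
      (sum_le_sum_of_subset_of_nonneg (f := fun u => ad G v u * (x v * x u)) (subset_univ H)
        fun u _ _ => hnn v u)
    rw [ad_comm G u v]; ring
  have h1 : lam ≤ A + D + D := by
    rw [← hp.form, ACC0.split H]
    have e1 : ∑ u ∈ H, ∑ v, ad G u v * (x u * x v) =
        A + ∑ u ∈ H, ∑ v ∈ out H, ad G u v * (x u * x v) := by
      rw [hA, ← sum_add_distrib]
      exact sum_congr rfl fun u _ => ACC0.split H _
    rw [e1]
    linarith
  have hDle : D ≤ (3 / 2 * xb) ^ 2 * eo G H := by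
    rw [EDG.eo_eq, mul_sum, hD]
    refine sum_le_sum fun u _ => ?_
    rw [mul_sum]
    refine sum_le_sum fun v _ => ?_
    have h2 : x u * x v ≤ (3 / 2 * xb) ^ 2 := by
      rw [sq]
      exact mul_le_mul (hup u) (hup v) (hp.nn v) (by linarith)
    rw [mul_comm]
    exact mul_le_mul_of_nonneg_right h2 (EDG.ad_nonneg G u v)
  have hD1 : D ≤ 9 * δ := by
    have h2 : (3 / 2 * xb) ^ 2 * (eo G H : ℝ) ≤ (3 / 2 * xb) ^ 2 * (δ * n) :=
      mul_le_mul_of_nonneg_left h0.eo (sq_nonneg _)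
    have h3 : (3 / 2 * xb) ^ 2 * (δ * n) = 9 * δ * ((n : ℝ) * (xb / 2) ^ 2) := by ring
    have h4 : 9 * δ * ((n : ℝ) * (xb / 2) ^ 2) ≤ 9 * δ * 1 :=
      mul_le_mul_of_nonneg_left hxn (by linarith)
    linarith
  have hA1 : A ≤ al r * n := by
    have e3 := formH G H c h0.ind x
    have h2 : 0 ≤ ∑ u ∈ H, ∑ v ∈ H, chi (c u ≠ c v ∧ ¬ G.Adj u v) * (x u * x v) :=
      sum_nonneg fun u _ => sum_nonneg fun v _ =>
        mul_nonneg (chi_nonneg _) (mul_nonneg (hp.nn u) (hp.nn v))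
    have e4 : ∑ i, cs x H c i = ∑ v ∈ H, x v := sum_cl H c x
    have h3 : (∑ v ∈ H, x v) ^ 2 ≤ r * ∑ i, cs x H c i ^ 2 := by
      rw [← e4]
      have := sq_sum_le_card_mul_sum_sq (s := (univ : Finset (Fin r))) (f := fun i => cs x H c i)
      rw [card_univ, Fintype.card_fin] at this
      exact this
    have h4 : (∑ v ∈ H, x v) ^ 2 ≤ n * ∑ v ∈ H, x v ^ 2 := by
      have := sq_sum_le_card_mul_sum_sq (s := H) (f := x)
      rw [h0.card] at this
      exact this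
    have h5 : (∑ v ∈ H, x v) ^ 2 ≤ n := by
      have : (n : ℝ) * ∑ v ∈ H, x v ^ 2 ≤ n * 1 := mul_le_mul_of_nonneg_left hH1 hn0.le
      linarith
    have h6 : (∑ v ∈ H, x v) ^ 2 / r ≤ ∑ i, cs x H c i ^ 2 := by
      rw [div_le_iff₀ hr0, mul_comm]
      exact h3
    have h7 : A ≤ al r * (∑ v ∈ H, x v) ^ 2 := by
      have e5 : al r * (∑ v ∈ H, x v) ^ 2 = (∑ v ∈ H, x v) ^ 2 - (∑ v ∈ H, x v) ^ 2 / r := by
        unfold al; ring
      rw [e5, hA, e3]
      linarith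
    exact h7.trans (mul_le_mul_of_nonneg_left h5 hal.le)
  linarith

end LAM

theorem blk_LAM (hEST1 : Stmt_EST1) : Stmt_LAM := by
  intro r hr
  obtain ⟨δ1, N0, hδ1, _, h1⟩ := hEST1 r (1 / 2) hr (by norm_num)
  refine ⟨min δ1 (1 / 18), N0 + 1, lt_min hδ1 (by norm_num), ?_⟩
  intro n hn V _ G x lam c H h0 hb hp
  have hn1 : 1 ≤ n := by omega
  have hr3 : (3 : ℝ) ≤ r := by exact_mod_cast hr
  have hδ0 : 0 < min δ1 (1 / 18) := lt_min hδ1 (by norm_num)
  have h01 : C0 r δ1 n G c H :=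
    { card := h0.card
      ind := h0.ind
      mis := h0.mis.trans (mul_le_mul_of_nonneg_right (min_le_left _ _) (Nat.cast_nonneg _))
      bal := fun i => (h0.bal i).trans
        (mul_le_mul_of_nonneg_right (min_le_left _ _) (Nat.cast_nonneg _))
      eo := h0.eo.trans (mul_le_mul_of_nonneg_right (min_le_left _ _) (Nat.cast_nonneg _)) }
  obtain ⟨xb, hf⟩ := h1 n (by omega) V G x lam c H h01 hp
  have hlow := LAM.lower hr hn1 h0 hb hp
  have hupp := LAM.upper hr hn1 hδ0 (min_le_right _ _) h0 hp hf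
  have hδ := min_le_right δ1 (1 / 18)
  rw [abs_le]
  constructor <;> linarith

end Pool.Agent.Work.MP_5532fa_up

end
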