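import Mathlib
import Pool.Agent.Work.MP_5532fa_full.P11
import Pool.Agent.Work.MP_5532fa_full.P23

section

/-! # Block E1B (helper69; copy of E1 for the range `RgB`) -/

open Finset

namespace Pool.Agent.Work.MP_5532fa_up

open MP5532fa (specRad qf pE)

open E1 in
theorem blk_E1B (hGE : Stmt_GE) (hFAM : Stmt_FAM) (hEST : Stmt_ESTU) (hMV2 : Stmt_MV2B) :
    Stmt_E1B := by
  classical
  intro r ε hr hε
  obtain ⟨e, N1, he, hM⟩ := hMV2 r ε hr hε
  obtain ⟨δ0, N2, hδ0, hE⟩ := hEST r e hr he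
  have hr3 : (3 : ℝ) ≤ r := by exact_mod_cast hr
  have hr0 : (0 : ℝ) < r := by linarith only [hr3]
  obtain ⟨δ, hδ, hδe, hδd, hδε, hδr⟩ : ∃ δ : ℝ, 0 < δ ∧ 3 * δ ≤ e ∧ 3 * δ ≤ δ0 ∧ 6 * δ ≤ ε ∧
      2 * r * δ ≤ 1 := by
    refine ⟨min (min (e / 3) (δ0 / 3)) (min (ε / 6) (1 / (2 * r))), ?_, ?_, ?_, ?_, ?_⟩
    · have : 0 < 1 / (2 * (r : ℝ)) := by positivity
      have h1 : 0 < e / 3 := by positivity
      have h2 : 0 < δ0 / 3 := by positivity
      have h3 : 0 < ε / 6 := by positivity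
      exact lt_min (lt_min h1 h2) (lt_min h3 this)
    · have := (min_le_left (min (e / 3) (δ0 / 3)) (min (ε / 6) (1 / (2 * (r : ℝ))))).trans
        (min_le_left _ _)
      linarith only [this]
    · have := (min_le_left (min (e / 3) (δ0 / 3)) (min (ε / 6) (1 / (2 * (r : ℝ))))).trans
        (min_le_right _ _)
      linarith only [this]
    · have := (min_le_right (min (e / 3) (δ0 / 3)) (min (ε / 6) (1 / (2 * (r : ℝ))))).trans
        (min_le_left _ _)
      linarith only [this]
    · have := (min_le_right (min (e / 3) (δ0 / 3)) (min (ε / 6) (1 / (2 * (r : ℝ))))).trans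
        (min_le_right _ _)
      have h2 := mul_le_mul_of_nonneg_left this (show (0 : ℝ) ≤ 2 * r by positivity)
      have h3 : 2 * (r : ℝ) * (1 / (2 * r)) = 1 := by field_simp
      linarith only [h2, h3]
  obtain ⟨N3, hN3⟩ := exists_nat_ge (1 / δ)
  obtain ⟨N4, hN4⟩ := exists_nat_ge (2 * r * (2 * r + 2) : ℝ)
  obtain ⟨N5, hN5⟩ := exists_nat_ge ((4 * r + 4) / ε : ℝ)
  refine ⟨δ, max (max N1 N2) (max (max N3 N4) N5), hδ, ?_⟩
  intro N hN j hj V _ G H c w u A B i0 hW hNear hMX
  have hjN := RgV.le hr hj.2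
  have hNN1 : N1 ≤ N := le_trans (le_trans (le_max_left _ _) (le_max_left _ _)) hN
  have hNN2 : N2 ≤ N := le_trans (le_trans (le_max_right _ _) (le_max_left _ _)) hN
  have hNN3 : N3 ≤ N :=
    le_trans (le_trans (le_trans (le_max_left _ _) (le_max_left _ _)) (le_max_right _ _)) hN
  have hNN4 : N4 ≤ N :=
    le_trans (le_trans (le_trans (le_max_right _ _) (le_max_left _ _)) (le_max_right _ _)) hN
  have hNN5 : N5 ≤ N := le_trans (le_trans (le_max_right _ _) (le_max_right _ _)) hN
  have r3 : 1 / δ ≤ N := hN3.trans (by exact_mod_cast hNN3)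
  have r4 : (2 * r * (2 * r + 2) : ℝ) ≤ N := hN4.trans (by exact_mod_cast hNN4)
  have r5 : ((4 * r + 4) / ε : ℝ) ≤ N := hN5.trans (by exact_mod_cast hNN5)
  have r3' : 1 ≤ δ * N := by
    rw [div_le_iff₀ hδ] at r3
    linarith only [r3, mul_comm δ (N : ℝ)]
  have r5' : 4 * r + 4 ≤ ε * N := by
    rw [div_le_iff₀ hε] at r5
    linarith only [r5, mul_comm ε (N : ℝ)]
  have hN0 : (0 : ℝ) < N := by
    have : 0 < 2 * (r : ℝ) * (2 * r + 2) := by positivity
    linarith only [r4, this]
  -- sizes of the classes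
  have hsz : ∀ i, (2 * r + 2 : ℝ) ≤ sz H c i := by
    intro i
    have h1 := (abs_le.mp (hNear.1 i)).1
    have h2 : δ * N ≤ N / (2 * r) := by
      rw [le_div_iff₀ (by positivity)]
      nlinarith
    have h3 : (2 * r + 2 : ℝ) ≤ N / (2 * r) := by
      rw [le_div_iff₀ (by positivity)]
      linarith only [r4]
    have h4 : (N : ℝ) / r = N / (2 * r) + N / (2 * r) := by
      field_simp
      ring
    linarith only [h1, h2, h3, h4]
  have hszn : ∀ i, 2 * r + 2 ≤ (cl H c i).card := by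
    intro i
    have := hsz i
    unfold sz at this
    exact_mod_cast this
  by_contra hB
  unfold Bal at hB
  push Not at hB
  obtain ⟨l, k, hlk⟩ := hB
  have hlk' : l ≠ k := by
    rintro rfl
    omega
  -- representatives
  have hrep : ∃ p : Fin r → V, ∀ i, i ≠ i0 → p i ∈ cl A c i := by
    have h1 : ∀ i, ∃ z : V, i ≠ i0 → z ∈ cl A c i := by
      intro i
      by_cases hi : i = i0
      · exact ⟨w, fun h => absurd hi h⟩
      · obtain ⟨z, hz⟩ := hW.hAne i hi
        exact ⟨z, fun _ => hz⟩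
    choose p hp using h1
    exact ⟨p, hp⟩
  obtain ⟨p, hp⟩ := hrep
  set Q : Finset V := B ∪ univ.image p with hQ
  have hBcard : B.card ≤ r := by
    rw [← sum_card_cl B c]
    calc ∑ i, (cl B c i).card ≤ ∑ _i : Fin r, 1 := by
          refine Finset.sum_le_sum fun i _ => ?_
          by_cases hi : i = i0
          · rw [hi, hW.hB0]; simp
          · rw [hW.hB1 i hi]
      _ = r := by simp
  have hQcard : Q.card ≤ 2 * r := by
    calc Q.card ≤ B.card + (univ.image p).card := card_union_le _ _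
      _ ≤ r + r := by
          refine Nat.add_le_add hBcard ?_
          calc (univ.image p).card ≤ (univ : Finset (Fin r)).card := card_image_le
            _ = r := by simp
      _ = 2 * r := by ring
  -- the vertex v
  obtain ⟨v, hvl, hvQ⟩ : ∃ v ∈ cl H c l, v ∉ Q := by
    by_contra hcon
    push Not at hcon
    have h1 : cl H c l ⊆ Q := fun z hz => hcon z hz
    have := card_le_card h1
    have := hszn l
    omega
  have hvH : v ∈ H := (mem_cl.mp hvl).1
  have hcv : c v = l := (mem_cl.mp hvl).2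
  have hvB : v ∉ B := fun h => hvQ (mem_union_left _ h)
  have hvp : ∀ i, p i ≠ v := by
    intro i h
    exact hvQ (mem_union_right _ (mem_image.mpr ⟨i, mem_univ i, h⟩))
  have hvw : v ≠ w := by rintro rfl; exact hW.hw hvH
  have hvu : v ≠ u := by rintro rfl; exact hW.hu hvH
  -- the number of removed elements
  obtain ⟨g, hg⟩ : ∃ g, (cl H c l).card = (cl H c k).card + 1 + g :=
    ⟨(cl H c l).card - (cl H c k).card - 1, by omega⟩
  have hg1 : 1 ≤ g := by omega
  have hgr : (g : ℝ) = sz H c l - sz H c k - 1 := by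
    unfold sz
    rw [hg]
    push_cast
    ring
  have hgN : (g : ℝ) ≤ 2 * δ * N := by
    have h1 := (abs_le.mp (hNear.1 l)).2
    have h2 := (abs_le.mp (hNear.1 k)).1
    rw [hgr]
    linarith only [h1, h2]
  have hAbig : (2 * r : ℝ) + g ≤ A.card := by
    have h1 := (abs_le.mp hNear.2).1
    have h2 := hj.1
    nlinarith
  have hAbig' : 2 * r + g ≤ A.card := by exact_mod_cast hAbig
  -- the removed elements
  obtain ⟨D, hD1, hD2, hD3⟩ : ∃ D : Finset V, A.filter (fun z => z = v) ⊆ D ∧ D ⊆ A \ Q ∧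
      D.card = g := by
    refine Finset.exists_subsuperset_card_eq ?_ ?_ ?_
    · intro z hz
      rw [mem_filter] at hz
      rw [mem_sdiff, hz.2]
      exact ⟨hz.2 ▸ hz.1, hvQ⟩
    · have h1 : (A.filter (fun z => z = v)).card ≤ 1 := by
        rw [card_le_one]
        intro a ha b hb
        rw [mem_filter] at ha hb
        rw [ha.2, hb.2]
      omega
    · have h1 := le_card_sdiff Q A
      omega
  set A' : Finset V := A \ D with hA'
  have hA'A : A' ⊆ A := sdiff_subset
  have hvA' : v ∉ A' := by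
    rw [hA', mem_sdiff]
    rintro ⟨h1, h2⟩
    exact h2 (hD1 (mem_filter.mpr ⟨h1, rfl⟩))
  have hDA : D ⊆ A := hD2.trans sdiff_subset
  have hA'card : A'.card + g = A.card := by
    rw [hA', ← hD3]
    exact card_sdiff_add_card_eq_card hDA
  have hpA' : ∀ i, i ≠ i0 → p i ∈ A' := by
    intro i hi
    rw [hA', mem_sdiff]
    refine ⟨(mem_cl.mp (hp i hi)).1, fun h => ?_⟩
    have := (mem_sdiff.mp (hD2 h)).2
    exact this (mem_union_right _ (mem_image.mpr ⟨i, mem_univ i, rfl⟩))
  -- the new colouring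
  set c' : V → Fin r := Function.update c v k with hc'
  have hc'v : c' v = k := by rw [hc']; simp
  have hc'o : ∀ z, z ≠ v → c' z = c z := by
    intro z hz
    rw [hc']
    exact Function.update_of_ne hz _ _
  have hne : c' v ≠ c v := by rw [hc'v, hcv]; exact hlk'.symm
  set G' : SimpleGraph V := gE H c' w u A' B with hG'
  have hW' : WE G' N H c' w u A' B i0 := by
    refine gE_WE hW.card hW.hw hW.hu hW.hwu (hA'A.trans hW.hA) hW.hB ?_ ?_ ?_ ?_ ?_
    · rw [cl_same hc'o hvA', ← subset_empty, ← hW.hA0]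
      intro z hz
      rw [mem_cl] at hz ⊢
      exact ⟨hA'A hz.1, hz.2⟩
    · rw [cl_same hc'o hvB]; exact hW.hB0
    · intro i hi
      refine ⟨p i, ?_⟩
      rw [mem_cl, hc'o _ (hvp i)]
      exact ⟨hpA' i hi, (mem_cl.mp (hp i hi)).2⟩
    · intro i hi
      rw [cl_same hc'o hvB]; exact hW.hB1 i hi
    · intro h
      exact hW.hBA (h.trans hA'A)
  obtain ⟨_, _, hpE⟩ := hGE r hr V G N H c w u A B i0 hW
  obtain ⟨hcf', hcol', hpE'⟩ := hGE r hr V G' N H c' w u A' B i0 hW'
  have hcol'' : ¬ G'.Colorable r := by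
    apply hcol'
    intro i
    have h1 := (abs_le.mp (sz_near hc'o hvH hne i)).1
    have h2 := hsz i
    have h3 : (1 : ℝ) ≤ sz H c' i := by linarith only [h1, h2]
    unfold sz at h3
    exact_mod_cast h3
  have hpEE : pE G' = pE G := by
    rw [hpE, hpE', sum_sq hc'o hvH hne, hc'v, hcv, ← hgr]
    have : (A.card : ℝ) = A'.card + g := by exact_mod_cast hA'card.symm
    rw [this]
    ring
  have hle := hMX G' hcf' hcol'' hpEE
  have : Nonempty V := ⟨v⟩
  obtain ⟨x, hx⟩ := exists_PV G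
  obtain ⟨y, hy⟩ := exists_PV G'
  have hF := (hFAM r hr V G N H c w A).2 u B i0 hW
  have hF' := (hFAM r hr V G' N H c' w A').2 u B i0 hW'
  have hNear1 : Near r δ0 N j H A c := by
    refine ⟨fun i => (hNear.1 i).trans ?_, hNear.2.trans ?_⟩ <;>
    exact mul_le_mul_of_nonneg_right (by linarith only [hδ, hδd]) hN0.le
  have hNear2 : Near r e N j H A c := by
    refine ⟨fun i => (hNear.1 i).trans ?_, hNear.2.trans ?_⟩ <;>
    exact mul_le_mul_of_nonneg_right (by linarith only [hδ, hδe]) hN0.le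
  have hNear' : Near r δ0 N j H A' c' := by
    have hb : 3 * δ * N ≤ δ0 * N := mul_le_mul_of_nonneg_right (by linarith only [hδd]) hN0.le
    refine ⟨fun i => ?_, ?_⟩
    · have h1 := abs_le.mp (hNear.1 i)
      have h2 := abs_le.mp (sz_near hc'o hvH hne i)
      rw [abs_le]
      constructor <;> linarith only [r3', hb, h1.1, h1.2, h2.1, h2.2]
    · have h1 := abs_le.mp hNear.2
      have : (A.card : ℝ) = A'.card + g := by exact_mod_cast hA'card.symm
      have hg0 : (0 : ℝ) ≤ g := Nat.cast_nonneg g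
      rw [abs_le]
      constructor <;> nlinarith [h1.1, h1.2]
  obtain ⟨xb, hxb⟩ := hE N hNN2 j hjN V G H c w A _ x _ hF hx hW.card hNear1
  obtain ⟨yb, hyb⟩ := hE N hNN2 j hjN V G' H c' w A' _ y _ hF' hy hW.card hNear'
  have hlt := hM N hNN1 j hj V G G' H c c' w A A' (JE w u B) x y _ _ xb yb v hF hF' hx hy
    hW.card hNear2 hxb hyb hvH hne hc'o (JE_zero hvw hvu hvB) (by rw [hc'v, hcv]; omega)
    hA'A hvA' (by rw [hc'v, hcv]; omega)
  linarith only [hle, hlt]

end Pool.Agent.Work.MP_5532fa_up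

end
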