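import Mathlib
import Pool.Agent.Work.MP_5532fa_full.P07
import Pool.Agent.Work.MP_5532fa_full.P23
import Pool.Agent.Work.MP_5532fa_full.P27
import Pool.Agent.Work.MP_5532fa_full.P29

section

/-!
# MP_5532fa_co, upgrade, fourth round, block W1: an extremal graph is a gadget
-/

open Finset

namespace Pool.Agent.Work.MP_5532fa_up

open MP5532fa (specRad qf pE)

namespace W1

/-- upper bound for the difference of the secular functions -/
theorem upper {r n : ℕ} {η C CT κ L X : ℝ} {y z : Fin r → ℝ} (hn : 1 ≤ √(n : ℝ))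
    (hC : 0 ≤ C) (hCT : 0 ≤ CT) (hκ : (C + CT) / √(n : ℝ) ≤ κ)
    (hT : |L - ((mo 2 n y - mo 2 n z) + (mo 3 n z - mo 3 n y) / n
      + (mo 4 n y - mo 4 n z) / n ^ 2)| ≤ CT / √(n : ℝ) + CT * |mo 2 n z - mo 2 n y| / n)
    (hG : mo 3 n z + (mo 4 n y - mo 4 n z) / n
      ≤ mo 3 n y + η * n + C * √(n : ℝ) * |mo 2 n z - mo 2 n y| + (2 - 4 * η) * n * X) :
    L ≤ -(mo 2 n z - mo 2 n y) + η + (2 - 4 * η) * X + κ * (1 + |mo 2 n z - mo 2 n y|) := by
  obtain ⟨s, hs⟩ : ∃ s : ℝ, s = √(n : ℝ) := ⟨_, rfl⟩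
  obtain ⟨E, hE⟩ : ∃ E : ℝ, E = |mo 2 n z - mo 2 n y| := ⟨_, rfl⟩
  have hss : (n : ℝ) = s * s := by rw [hs]; exact (Real.mul_self_sqrt (Nat.cast_nonneg n)).symm
  rw [← hs] at hn hκ hT hG
  rw [← hE] at hT hG ⊢
  have hE0 : 0 ≤ E := by rw [hE]; exact abs_nonneg _
  have hsp : 0 < s := by linarith only [hn]
  have hsn : s ≤ n := by rw [hss]; exact le_mul_of_one_le_left hsp.le hn
  have hnp : (0 : ℝ) < n := by linarith only [hsp, hsn]
  have h1 := (abs_le.1 hT).2
  have h2 : (mo 3 n z - mo 3 n y) / n + (mo 4 n y - mo 4 n z) / n ^ 2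
      ≤ η + C * E / s + (2 - 4 * η) * X := by
    have e1 : (mo 3 n z - mo 3 n y) / n + (mo 4 n y - mo 4 n z) / n ^ 2
        = (mo 3 n z + (mo 4 n y - mo 4 n z) / n - mo 3 n y) / n := by
      field_simp
      ring
    rw [e1, div_le_iff₀ hnp]
    have e2 : C * E / s * n = C * s * E := by
      rw [hss]
      field_simp
    have e3 : (η + C * E / s + (2 - 4 * η) * X) * n
        = η * n + C * s * E + (2 - 4 * η) * n * X := by
      linear_combination e2
    rw [e3]
    linarith only [hG]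
  have h3 : CT * E / n ≤ CT * E / s :=
    div_le_div_of_nonneg_left (mul_nonneg hCT hE0) hsp hsn
  have h5 : (C + CT) / s * (1 + E) ≤ κ * (1 + E) :=
    mul_le_mul_of_nonneg_right hκ (by linarith only [hE0])
  have e3 : (C + CT) / s * (1 + E) = C / s + CT / s + C * E / s + CT * E / s := by ring
  have h6 : 0 ≤ C / s := div_nonneg hC hsp.le
  linarith only [h1, h2, h3, h5, e3, h6]

/-- lower bound for the difference of the secular functions -/
theorem lower {r n : ℕ} {p q e P Q : ℝ} (hr : 3 ≤ r) (hq : q ≤ 2 + e) (h1 : q ≤ (n : ℝ) ^ 2 * P)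
    (h2 : (n : ℝ) ^ 2 * Q ≤ 2 + e) (hp : p = 3 / 2 * (q - 2 - e)) :
    p ≤ (n : ℝ) ^ 2 / al r * (P - Q) := by
  have halg := al_ge hr
  have halp : 0 < al r := by linarith only [halg]
  rw [hp, div_mul_eq_mul_div ((n : ℝ) ^ 2) (al r), le_div_iff₀ halp]
  have h3 : 3 / 2 * (q - 2 - e) * al r ≤ q - 2 - e := by
    have h2 : (2 + e - q) * (2 / 3) ≤ (2 + e - q) * al r :=
      mul_le_mul_of_nonneg_left halg (by linarith only [hq])
    linarith only [h2]
  linarith only [h1, h2, h3]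

/-- final arithmetic, type `WD` -/
theorem arithD {r t e η κ : ℝ} (ht : 1 ≤ t) (hη : 0 < η)
    (hη2 : η ≤ 1 / 12) (he : e * r = η / 12) (he2 : e ≤ η / 36) (hκ : κ ≤ η / 12)
    (h : 3 / 2 * (2 - e * (1 + (r + t)) - 2 - e)
      ≤ -(2 * t) + η + (2 - 4 * η) * 1 + κ * (1 + 2 * t)) : False := by
  have h1 : e * (2 + t) ≤ η / 36 * (2 + t) := mul_le_mul_of_nonneg_right he2 (by linarith only [ht])
  have h2 : κ * (1 + 2 * t) ≤ η / 12 * (1 + 2 * t) := mul_le_mul_of_nonneg_right hκ (by linarith only [ht])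
  have h3 : η * (t - 1) ≤ 1 / 12 * (t - 1) := mul_le_mul_of_nonneg_right hη2 (by linarith only [ht])
  linarith only [ht, hη, he, h, h1, h2, h3]

/-- final arithmetic, type `WE` -/
theorem arithE {t e η κ : ℝ} (ht : 3 ≤ t) (hη : 0 < η) (hη2 : η ≤ 1 / 12)
    (he2 : e ≤ η / 36) (hκ : κ ≤ η / 12)
    (h : 3 / 2 * (-(e * t) - 2 - e) ≤ -(2 * t) + η + (2 - 4 * η) * 1 + κ * (1 + 2 * t)) :
    False := by
  have h1 : e * (t + 1) ≤ 1 / 36 * (t + 1) := mul_le_mul_of_nonneg_right (by linarith only [hη2,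
      he2]) (by linarith only [ht])
  have h2 : κ * (1 + 2 * t) ≤ 1 / 144 * (1 + 2 * t) :=
    mul_le_mul_of_nonneg_right (by linarith only [hη2, hκ]) (by linarith only [ht])
  linarith only [ht, hη, h, h1, h2]

/-- final arithmetic, type `WF` -/
theorem arithF {r n : ℕ} {k e η κ P Q : ℝ} (hr : 3 ≤ r) (hk : 1 ≤ k)
    (hη2 : η ≤ 1 / (4 * r)) (he0 : 0 ≤ e) (he2 : e ≤ η / 36) (hκ : κ ≤ η / 12)
    (h1 : k + 2 - e * (3 + k) ≤ (n : ℝ) ^ 2 * P) (h2 : (n : ℝ) ^ 2 * Q ≤ 2 + e)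
    (h : (n : ℝ) ^ 2 / al r * (P - Q) ≤ k + η + κ * (1 + k)) : False := by
  have hr3 : (3 : ℝ) ≤ r := by exact_mod_cast hr
  have hrp : (0 : ℝ) < r := by linarith only [hr3]
  have halg := al_ge hr
  have halp : 0 < al r := by linarith only [halg]
  obtain ⟨ρ, hρ⟩ : ∃ ρ : ℝ, ρ = 1 / (r : ℝ) := ⟨_, rfl⟩
  have hρ0 : 0 < ρ := by rw [hρ]; positivity
  have hηρ : η ≤ ρ / 4 := by
    rw [hρ]
    have : 1 / (r : ℝ) / 4 = 1 / (4 * r) := by field_simp
    rw [this]
    exact hη2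
  have hal : al r = 1 - ρ := by rw [hρ]; rfl
  have h3 : (1 + ρ) * k - 3 / 2 * (e * (4 + k)) ≤ (n : ℝ) ^ 2 / al r * (P - Q) := by
    rw [div_mul_eq_mul_div ((n : ℝ) ^ 2) (al r), le_div_iff₀ halp]
    have h4 : (1 + ρ) * k * al r ≤ k := by
      rw [hal]
      have : 0 ≤ ρ * ρ * k := by positivity
      linarith only [this]
    have h5 : e * (4 + k) * (2 / 3) ≤ e * (4 + k) * al r :=
      mul_le_mul_of_nonneg_left halg (by positivity)
    linarith only [h1, h2, h4, h5]
  have h6 : e * (4 + k) ≤ ρ / 144 * (4 + k) :=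
    mul_le_mul_of_nonneg_right (by linarith only [he2, hηρ]) (by linarith only [hk])
  have h7 : κ * (1 + k) ≤ ρ / 48 * (1 + k) :=
    mul_le_mul_of_nonneg_right (by linarith only [hκ, hηρ]) (by linarith only [hk])
  have h8 : ρ * 1 ≤ ρ * k := mul_le_mul_of_nonneg_left hk hρ0.le
  linarith only [h, hρ0, hηρ, h3, h6, h7, h8]

end W1

/-- **W1** -/
theorem blk_W1 (hSM : Stmt_SM) (_hEVN : Stmt_EVN) (hGD : Stmt_GD) (hGF : Stmt_GF)
    (hGE : Stmt_GE) (hSECD : Stmt_SECD) (hSECF : Stmt_SECF) (hSECE : Stmt_SECE)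
    (hLAM : Stmt_LAM) (hTAY : Stmt_TAY) (hMKD : Stmt_MKD) : Stmt_W1 := by
  classical
  intro r η C hr hη hη2 hC
  have hr3 : (3 : ℝ) ≤ r := by exact_mod_cast hr
  have hrp : (0 : ℝ) < r := by linarith only [hr3]
  have hη12 : η ≤ 1 / 12 := by
    refine hη2.trans ?_
    rw [div_le_div_iff₀ (by positivity) (by norm_num)]
    linarith only [hr3]
  obtain ⟨e, he0, her, he36⟩ : ∃ e : ℝ, 0 < e ∧ e * r = η / 12 ∧ e ≤ η / 36 := by
    refine ⟨η / (12 * r), by positivity, by field_simp, ?_⟩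
    rw [div_le_div_iff₀ (by positivity) (by norm_num)]
    have := mul_le_mul_of_nonneg_left hr3 hη.le
    linarith only [this]
  obtain ⟨dS, nS, hdS, HS⟩ := hSM r hr
  obtain ⟨dD, nD, hdD, HD⟩ := hSECD r e hr he0
  obtain ⟨dF, nF, hdF, HF⟩ := hSECF r e hr he0
  obtain ⟨dE, nE, hdE, HE⟩ := hSECE r e hr he0
  obtain ⟨dL, nL, hdL, HL⟩ := hLAM r hr
  obtain ⟨CT, hC1, HT⟩ := hTAY r (4 * r + 1) hr (by linarith only [])
  obtain ⟨δ, hδ0, lS, lD, lF, lE, lL, lr⟩ : ∃ δ : ℝ, 0 < δ ∧ δ ≤ dS ∧ δ ≤ dD ∧ δ ≤ dF ∧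
      δ ≤ dE ∧ δ ≤ dL ∧ δ ≤ 1 / (2 * r) := by
    refine ⟨min (min (min dS dD) (min dF dE)) (min dL (1 / (2 * r))), ?_, ?_⟩
    · have : (0 : ℝ) < 1 / (2 * r) := by positivity
      exact lt_min (lt_min (lt_min hdS hdD) (lt_min hdF hdE)) (lt_min hdL this)
    · refine ⟨?_, ?_, ?_, ?_, ?_, ?_⟩ <;> simp
  obtain ⟨n1, hn1⟩ := exists_nat_ge CT
  obtain ⟨n2, hn2⟩ := exists_nat_ge (4 * (r : ℝ) / δ ^ 2)
  obtain ⟨n3, hn3⟩ := exists_nat_ge (2 * (r : ℝ) / δ)
  obtain ⟨n4, hn4⟩ := exists_nat_ge ((12 * (C + CT) / η) ^ 2)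
  refine ⟨δ, nS + nD + nF + nE + nL + n1 + n2 + n3 + n4 + 4 * r, hδ0, ?_⟩
  intro n hn V _ G c H y hCC hsz hfree hcol hMX hy hR hGood hpE
  have hnr : (4 * (r : ℝ)) ≤ n := by
    have : 4 * r ≤ n := by omega
    exact_mod_cast this
  have hnR : (0 : ℝ) < n := by linarith only [hrp, hnr]
  have b1 : CT ≤ n := hn1.trans (by exact_mod_cast (by omega : n1 ≤ n))
  have b2 : 4 * (r : ℝ) / δ ^ 2 ≤ n := hn2.trans (by exact_mod_cast (by omega : n2 ≤ n))
  have b3 : 2 * (r : ℝ) / δ ≤ n := hn3.trans (by exact_mod_cast (by omega : n3 ≤ n))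
  have b4 : (12 * (C + CT) / η) ^ 2 ≤ n := hn4.trans (by exact_mod_cast (by omega : n4 ≤ n))
  have b5 : 2 * (r : ℝ) ≤ δ * n := by
    rw [div_le_iff₀ hδ0] at b3
    linarith only [b3]
  have hs1 : 1 ≤ √(n : ℝ) := Real.le_sqrt_of_sq_le (by linarith only [hC1, b1])
  have hs0 : 0 < √(n : ℝ) := by linarith only [hs1]
  have hκ : (C + CT) / √(n : ℝ) ≤ η / 12 := by
    have hsq : 12 * (C + CT) / η ≤ √(n : ℝ) := Real.le_sqrt_of_sq_le b4
    rw [div_le_iff₀ hs0]
    rw [div_le_iff₀ hη] at hsq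
    linarith only [hsq]
  have hbal : ∀ i, |(y i : ℝ) - n / r| ≤ δ * n := fun i => BIG.dev_small hδ0 hR b2 i
  have hy2 : ∀ i, 2 ≤ y i := by
    intro i
    have h1 := (abs_le.mp (hbal i)).1
    have h2 : δ * n ≤ 1 / (2 * r) * n := mul_le_mul_of_nonneg_right lr hnR.le
    have h3 : (n : ℝ) / r = 2 * (1 / (2 * r) * n) := by field_simp
    have h4 : 2 ≤ 1 / (2 * (r : ℝ)) * n := by
      rw [one_div, inv_mul_eq_div, le_div_iff₀ (by positivity)]
      linarith only [hnr]
    have h5 : (2 : ℝ) ≤ y i := by linarith only [h1, h2, h3, h4]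
    exact_mod_cast h5
  have hV : Nonempty V := by
    by_contra h
    rw [not_nonempty_iff] at h
    exact hcol (SimpleGraph.Colorable.of_isEmpty _)
  obtain ⟨x, hx⟩ := exists_PV G
  -- the competitor
  have key : ∀ w, w ∉ H → (n : ℝ) ^ 2 * Ph (re y) (specRad G) ≤ 2 + e := by
    intro w hw
    obtain ⟨c', A', u1, u2, hW', hAr', hsz'⟩ := hMKD r hr V H w y hw (by rw [hy, hCC.card])
      (fun i => le_trans (by norm_num) (hy2 i))
    rw [hCC.card] at hW'
    obtain ⟨G', hG'⟩ : ∃ G', G' = gD H c' w A' u1 u2 := ⟨_, rfl⟩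
    rw [← hG'] at hW'
    have hsz'' : sz H c' = re y := by
      funext i
      unfold sz re
      rw [hsz' i]
    have hg' := hGD r hr V G' n H c' w A' u1 u2 hW'
    have hpE' : pE G' = pE G := by
      rw [hg'.2.2, hpE, hAr', hsz'']
      unfold re
      ring
    have hlam' : specRad G' ≤ specRad G :=
      hMX G' hg'.1 (hg'.2.1 (fun i => by rw [hsz' i]; exact hy2 i)) hpE'
    have hC' : C0 r δ n G' c' H := by
      refine BIG.wd_C0 hr hGD hW' hAr' ?_ b5
      intro i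
      rw [hsz'']
      exact hbal i
    obtain ⟨z, hz⟩ := exists_PV G'
    have s2 := (HD n (by omega) V G' z _ c' H w A' u1 u2 (hC'.mono lD) hz hW').2
    rw [hsz''] at s2
    have s3 : Ph (re y) (specRad G) ≤ Ph (re y) (specRad G') := by
      refine BIG.Ph_anti (fun i => ?_) (BIG.lam_nonneg hz) hlam'
      unfold re
      have h2 : (2 : ℝ) ≤ y i := by exact_mod_cast hy2 i
      linarith only [h2]
    exact (mul_le_mul_of_nonneg_left s3 (by positivity)).trans s2
  -- moments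
  have hzs : ∑ i, sz H c i = n := by
    have h := sum_card_cl H c
    rw [hCC.card] at h
    unfold sz
    exact_mod_cast h
  have hys : ∑ i, re y i = n := by
    unfold re
    exact_mod_cast hy
  have hRy := W2.mo2_eq hr hys
  have hRz := W2.mo2_eq hr hzs
  have hmoz : mo 2 n (sz H c) ≤ 4 * r * n := by
    unfold mo
    have hss : √(n : ℝ) ^ 2 = n := Real.sq_sqrt hnR.le
    calc ∑ i, (sz H c i - n / r) ^ 2 ≤ ∑ _i : Fin r, (4 * n : ℝ) := Finset.sum_le_sum fun i _ => by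
          rw [← sq_abs]
          have h1 := pow_le_pow_left₀ (abs_nonneg _) (hsz i) 2
          rw [mul_pow, hss] at h1
          linarith only [h1]
      _ = 4 * r * n := by
          rw [Finset.sum_const, Finset.card_univ, Fintype.card_fin, nsmul_eq_mul]
          ring
  have hlam := HL n (by omega) V G x _ c H (hCC.mono lL) hsz hx
  have hT := HT n (sz H c) (re y) (specRad G) b1 hlam hzs hys (by linarith only [hmoz]) (by linarith only [hR])
  have hG := hGood (fun i => (cl H c i).card) (by rw [sum_card_cl, hCC.card]) hmoz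
  have hup := W1.upper hs1 hC.le (by linarith only [hC1]) hκ hT hG
  obtain ⟨D, hD⟩ : ∃ D : ℝ, D = mo 2 n (sz H c) - mo 2 n (re y) := ⟨_, rfl⟩
  have hchi : ∀ t : ℝ, D = 2 * t → 0 < t →
      (n : ℝ) ^ 2 / al r * (Ph (sz H c) (specRad G) - Ph (re y) (specRad G))
        ≤ -(2 * t) + η + (2 - 4 * η) * 1 + η / 12 * (1 + 2 * t) := by
    intro t h1 h2
    have h3 : mo 2 n (re y) < mo 2 n (re fun i => (cl H c i).card) := by
      have : re (fun i => (cl H c i).card) = sz H c := rfl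
      rw [this]
      linarith only [hD, h1, h2]
    rw [← hD, chi_pos h3, h1, abs_of_pos (by linarith only [h2])] at hup
    exact hup
  have hDz : D = ∑ i, sz H c i ^ 2 - ∑ i, (y i : ℝ) ^ 2 := by
    have : ∑ i, re y i ^ 2 = ∑ i, (y i : ℝ) ^ 2 := rfl
    rw [hD, hRy, hRz, this]
    ring
  rcases HS n (by omega) V G c H (hCC.mono lS) hfree hcol hMX with
    ⟨w, A, v1, v2, hW⟩ | ⟨w, u, A, B, i0, hW⟩ | ⟨w, T, hW⟩
  · -- type `WD`
    refine ⟨w, A, v1, v2, hW, ?_⟩
    have hpW := (hGD r hr V G n H c w A v1 v2 hW).2.2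
    have hAr : r ≤ A.card := by
      rw [← sum_card_cl A c]
      calc r = ∑ _i : Fin r, 1 := by simp
        _ ≤ ∑ i, (cl A c i).card := Finset.sum_le_sum fun i _ => Finset.card_pos.2 (hW.hne i)
    by_contra hne
    obtain ⟨t, ht⟩ : ∃ t : ℕ, A.card = r + (t + 1) := ⟨A.card - r - 1, by omega⟩
    obtain ⟨τ, hτ⟩ : ∃ τ : ℝ, τ = (t : ℝ) + 1 := ⟨_, rfl⟩
    have hτ1 : 1 ≤ τ := by
      rw [hτ]
      have : (0 : ℝ) ≤ t := Nat.cast_nonneg t
      linarith only []
    have hAτ : (A.card : ℝ) = r + τ := by rw [ht, hτ]; push_cast; ring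
    have hDA : D = 2 * τ := by
      rw [hpE] at hpW
      linarith only [hDz, hpW, hAτ]
    have h1 := (HD n (by omega) V G x _ c H w A v1 v2 (hCC.mono lD) hx hW).1
    rw [hAτ] at h1
    have h2 := W1.lower hr (by
      have : 0 ≤ e * (1 + (r + τ)) := by positivity
      linarith only [he0, this]) h1 (key w hW.hw) rfl
    exact W1.arithD hτ1 hη hη12 her he36 le_rfl (h2.trans (hchi τ hDA (by linarith only [hτ1])))
  · -- type `WE`
    exfalso
    have hpW := (hGE r hr V G n H c w u A B i0 hW).2.2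
    obtain ⟨t, ht⟩ : ∃ t : ℝ, t = (A.card : ℝ) + 1 := ⟨_, rfl⟩
    have hA1 : (r : ℝ) ≤ A.card + 1 := by exact_mod_cast W2.card_WE hW
    have hDA : D = 2 * t := by
      rw [hpE] at hpW
      linarith only [hDz, hpW, ht]
    have h1 := HE n (by omega) V G x _ c H w u A B i0 (hCC.mono lE) hx hW
    have e1 : (1 : ℝ) + A.card = t := by rw [ht]; ring
    rw [e1] at h1
    have ht3 : 3 ≤ t := by linarith only [hr3, ht, hA1]
    have h2 := W1.lower hr (by
      have : 0 ≤ e * t := by positivity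
      linarith only [he0, this]) h1 (key w hW.hw) rfl
    exact W1.arithE ht3 hη hη12 he36 le_rfl (h2.trans (hchi t hDA (by linarith only [ht3])))
  · -- type `WF`
    have hpW := (hGF r hr V G n H c w T hW).2.2
    obtain ⟨hm2, hWD⟩ := W2.WF_mis hW
    rcases Nat.lt_or_ge (mis G H c) 3 with hm3 | hm3
    · obtain ⟨v1, v2, h⟩ := hWD (by omega)
      refine ⟨w, T, v1, v2, h, ?_⟩
      rw [← sum_card_cl T c, Finset.sum_congr rfl fun i _ => hW.hT1 i]
      simp
    · exfalso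
      obtain ⟨k, hk⟩ : ∃ k : ℝ, (mis G H c : ℝ) = k + 2 := ⟨(mis G H c : ℝ) - 2, by ring⟩
      have hk1 : 1 ≤ k := by
        have : (3 : ℝ) ≤ mis G H c := by exact_mod_cast hm3
        linarith only [hk, this]
      have hDk : D = -k := by
        rw [hpE] at hpW
        linarith only [hDz, hpW, hk]
      have h1 := HF n (by omega) V G x _ c H w T (hCC.mono lF) hx hW
      rw [hk] at h1
      have hle : ¬ mo 2 n (re y) < mo 2 n (re fun i => (cl H c i).card) := by
        have : re (fun i => (cl H c i).card) = sz H c := rfl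
        rw [this]
        intro h
        linarith only [hD, hk1, hDk, h]
      rw [← hD, chi_neg hle, hDk, abs_neg, abs_of_pos (by linarith only [hk1] : 0 < k)] at hup
      have h1' : k + 2 - e * (3 + k) ≤ (n : ℝ) ^ 2 * Ph (sz H c) (specRad G) := by linarith only [h1]
      have hup' : (n : ℝ) ^ 2 / al r * (Ph (sz H c) (specRad G) - Ph (re y) (specRad G))
          ≤ k + η + η / 12 * (1 + k) := by linarith only [hup]
      exact W1.arithF hr hk1 hη2 he0.le he36 le_rfl h1' (key w hW.hw) hup'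

end Pool.Agent.Work.MP_5532fa_up

end

section

/-! # Block EBV (helper69; copy of EBU for the range `RgV`) -/

open Finset

namespace Pool.Agent.Work.MP_5532fa_up

open MP5532fa (specRad qf pE)

theorem blk_EBV (hGE : Stmt_GE) (hFAM : Stmt_FAM) (hCSE : Stmt_CSE) (hEST : Stmt_ESTU) :
    Stmt_EBV := by
  classical
  intro r hr
  have hr3 : (3 : ℝ) ≤ r := by exact_mod_cast hr
  have ha1 := al_ge hr
  have ha2 := al_lt hr
  obtain ⟨δ, N0, hδ, hE⟩ := hEST r (1 / 4) hr (by norm_num)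
  have hδ' : 0 < min δ (1 / (2 * r)) := lt_min hδ (by positivity)
  refine ⟨min δ (1 / (2 * r)), N0 + 4 * r, hδ', ?_⟩
  intro N hN j hj V _ G H c w u A B i0 hWE hnear hMX
  have hN1 : (4 : ℝ) * r ≤ N := by
    have : ((4 * r : ℕ) : ℝ) ≤ N := by
      exact_mod_cast (by omega : 4 * r ≤ N)
    push_cast at this
    exact this
  have hN12 : (12 : ℝ) ≤ N := by linarith
  have hN0 : (0 : ℝ) < N := by linarith
  have hnear' : Near r δ N j H A c := by
    have h1 : min δ (1 / (2 * r)) * (N : ℝ) ≤ δ * N :=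
      mul_le_mul_of_nonneg_right (min_le_left _ _) hN0.le
    exact ⟨fun i => (hnear.1 i).trans h1, hnear.2.trans h1⟩
  -- two vertices of `B` outside `A`
  obtain ⟨b1, hb1, hb1A⟩ := Finset.not_subset.1 hWE.hBA
  by_contra hno
  obtain ⟨b, hb, hbA, hbb⟩ : ∃ b, b ∈ B ∧ b ∉ A ∧ b ≠ b1 := by
    by_contra h
    push Not at h
    exact hno ⟨b1, hb1, hb1A, fun a ha haA => h a ha haA⟩
  have hl : c b ≠ i0 := by
    intro h
    have : b ∈ cl B c i0 := mem_cl.2 ⟨hb, h⟩
    rw [hWE.hB0] at this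
    simp at this
  obtain ⟨a, ha⟩ := hWE.hAne (c b) hl
  rw [mem_cl] at ha
  obtain ⟨haA, hac⟩ := ha
  have hab : a ≠ b := fun h => hbA (h ▸ haA)
  have haB : a ∉ B := by
    intro haB
    have h1 := hWE.hB1 (c b) hl
    rw [Finset.card_eq_one] at h1
    obtain ⟨z, hz⟩ := h1
    have h2 : a ∈ cl B c (c b) := mem_cl.2 ⟨haB, hac⟩
    have h3 : b ∈ cl B c (c b) := mem_cl.2 ⟨hb, rfl⟩
    rw [hz, Finset.mem_singleton] at h2 h3
    exact hab (h2.trans h3.symm)
  obtain ⟨B', hB'⟩ : ∃ B', B' = insert a (B.erase b) := ⟨_, rfl⟩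
  have hmB' : ∀ z, z ∈ B' ↔ z = a ∨ (z ≠ b ∧ z ∈ B) := fun z => by
    rw [hB', Finset.mem_insert, Finset.mem_erase]
  have hWE' : WE (gE H c w u A B') N H c w u A B' i0 := by
    refine gE_WE hWE.card hWE.hw hWE.hu hWE.hwu hWE.hA ?_ hWE.hA0 ?_ hWE.hAne ?_ ?_
    · intro z hz
      rcases (hmB' z).1 hz with rfl | h
      · exact hWE.hA haA
      · exact hWE.hB h.2
    · ext z
      simp only [mem_cl, Finset.notMem_empty, iff_false]
      rintro ⟨h1, h2⟩
      rcases (hmB' z).1 h1 with rfl | h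
      · exact hl (hac.symm.trans h2)
      · have : z ∈ cl B c i0 := mem_cl.2 ⟨h.2, h2⟩
        rw [hWE.hB0] at this
        simp at this
    · intro i hi
      by_cases hib : i = c b
      · rw [Finset.card_eq_one]
        refine ⟨a, ?_⟩
        have h1 := hWE.hB1 (c b) hl
        rw [Finset.card_eq_one] at h1
        obtain ⟨z, hz⟩ := h1
        have h3 : b ∈ cl B c (c b) := mem_cl.2 ⟨hb, rfl⟩
        rw [hz, Finset.mem_singleton] at h3
        ext y
        simp only [mem_cl, Finset.mem_singleton, hmB']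
        constructor
        · rintro ⟨h4 | h4, h5⟩
          · exact h4
          · have h6 : y ∈ cl B c (c b) := mem_cl.2 ⟨h4.2, h5.trans hib⟩
            rw [hz, Finset.mem_singleton] at h6
            exact absurd (h6.trans h3.symm) h4.1
        · rintro rfl
          exact ⟨Or.inl rfl, hac.trans hib.symm⟩
      · have : cl B' c i = cl B c i := by
          ext y
          simp only [mem_cl, hmB']
          constructor
          · rintro ⟨h4 | h4, h5⟩
            · exact absurd (h5.symm.trans (h4 ▸ hac)) hib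
            · exact ⟨h4.2, h5⟩
          · rintro ⟨h4, h5⟩
            exact ⟨Or.inr ⟨fun h => hib (h5.symm.trans (h ▸ rfl)), h4⟩, h5⟩
        rw [this]
        exact hWE.hB1 i hi
    · intro h
      exact hb1A (h ((hmB' b1).2 (Or.inr ⟨hbb.symm, hb1⟩)))
  have hG := hGE r hr V G N H c w u A B i0 hWE
  have hG' := hGE r hr V (gE H c w u A B') N H c w u A B' i0 hWE'
  have hcl : ∀ i, 1 ≤ (cl H c i).card := by
    intro i
    have h1 := (abs_le.1 (hnear.1 i)).1
    have h2 : min δ (1 / (2 * r)) * (N : ℝ) ≤ 1 / (2 * r) * N :=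
      mul_le_mul_of_nonneg_right (min_le_right _ _) hN0.le
    have h3 : 1 / (2 * (r : ℝ)) * N = N / r / 2 := by field_simp
    have h4 : 4 ≤ (N : ℝ) / r := by
      rw [le_div_iff₀ (by linarith)]
      exact hN1
    have h5 : (0 : ℝ) < sz H c i := by linarith
    unfold sz at h5
    exact_mod_cast h5
  have hsp := hMX (gE H c w u A B') hG'.1 (hG'.2.1 hcl) (hG'.2.2.trans hG.2.2.symm)
  have hV : Nonempty V := ⟨w⟩
  obtain ⟨x, hx⟩ := exists_PV G
  have hF := (hFAM r hr V G N H c w A).2 u B i0 hWE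
  have hF' := (hFAM r hr V (gE H c w u A B') N H c w A).2 u B' i0 hWE'
  have hjN : (j : ℝ) ≤ al r * N := RgV.le hr hj
  obtain ⟨y, hy⟩ := exists_PV (gE H c w u A B')
  obtain ⟨xb, hest⟩ := hE N (by omega) j hjN V G H c w A (JE w u B) x (specRad G) hF hx hWE.card
    hnear'
  obtain ⟨yb, hest'⟩ := hE N (by omega) j hjN V (gE H c w u A B') H c w A (JE w u B') y
    (specRad (gE H c w u A B')) hF' hy hWE.card hnear'
  -- pairing
  have hpair := pairing hx hy
  have hform : ∑ p, ∑ q, (ad (gE H c w u A B') p q - ad G p q) * (x p * y q) =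
      x u * (y a - y b) + y u * (x a - x b) := by
    have h1 : ∀ p q, (ad (gE H c w u A B') p q - ad G p q) * (x p * y q) =
        JE w u B' p q * (x p * y q) - JE w u B p q * (x p * y q) := by
      intro p q
      rw [hF.adj, hF'.adj]
      ring
    simp only [h1, Finset.sum_sub_distrib, EB.JE_form]
    have h2 : ∀ z : V → ℝ, ∑ v ∈ B', z v = ∑ v ∈ B, z v + z a - z b := by
      intro z
      rw [hB', Finset.sum_insert (by simp [haB]), ← Finset.add_sum_erase B z hb]
      ring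
    rw [h2, h2]
    ring
  rw [hform] at hpair
  -- eigenvalue equations
  obtain ⟨hc1, -, -, hc4⟩ := hCSE r V G H c w A (JE w u B) x (specRad G) hF hx
  obtain ⟨hd1, -, hd3, -⟩ := hCSE r V (gE H c w u A B') H c w A (JE w u B') y
    (specRad (gE H c w u A B')) hF' hy
  have hau : a ≠ u := fun h => hWE.hu (h ▸ hWE.hA haA)
  have haw : a ≠ w := fun h => hWE.hw (h ▸ hWE.hA haA)
  have hbu : b ≠ u := fun h => hWE.hu (h ▸ hWE.hB hb)
  have hbw : b ≠ w := fun h => hWE.hw (h ▸ hWE.hB hb)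
  have haB' : a ∈ B' := (hmB' a).2 (Or.inl rfl)
  have hbB' : b ∉ B' := by
    intro h
    rcases (hmB' b).1 h with h | h
    · exact hab h.symm
    · exact h.1 rfl
  have e1 := hc1 a (hWE.hA haA)
  have e2 := hc1 b (hWE.hB hb)
  have e3 := hc4 u hWE.hu hWE.hwu.symm
  rw [EB.JE_row, chi_pos haA, chi_neg hau, chi_neg haB, chi_neg haw, hac] at e1
  rw [EB.JE_row, chi_neg hbA, chi_neg hbu, chi_pos hb, chi_neg hbw] at e2
  rw [EB.JE_row, chi_pos rfl, chi_neg (fun h => hWE.hu (hWE.hB h)), chi_neg hWE.hwu.symm] at e3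
  have f1 := hd1 a (hWE.hA haA)
  have f2 := hd1 b (hWE.hB hb)
  have f3 := hd3
  rw [EB.JE_row, chi_pos haA, chi_neg hau, chi_pos haB', chi_neg haw, hac] at f1
  rw [EB.JE_row, chi_neg hbA, chi_neg hbu, chi_neg hbB', chi_neg hbw] at f2
  rw [EB.JE_row, chi_neg hWE.hwu, chi_neg (fun h => hWE.hw (hWE'.hB h)), chi_pos rfl] at f3
  have hlamx : 0 < specRad G := by
    have h1 := (abs_le.1 hest.lamN).1
    have h3 : 2 / 3 * (N : ℝ) ≤ al r * N := mul_le_mul_of_nonneg_right ha1 hN0.le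
    linarith
  have hlamy : 0 < specRad (gE H c w u A B') := by
    have h1 := (abs_le.1 hest'.lamN).1
    have h3 : 2 / 3 * (N : ℝ) ≤ al r * N := mul_le_mul_of_nonneg_right ha1 hN0.le
    linarith
  -- positivity
  have hxb1 : 0 < x b := by
    have h1 := (abs_le.1 (hest.xH b (hWE.hB hb))).1
    have h2 := hest.xb0
    linarith
  have hya : 0 < y a := by
    have h1 := (abs_le.1 (hest'.xH a (hWE.hA haA))).1
    have h2 := hest'.xb0
    linarith
  have hu0 : 0 < x u := by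
    have h1 : x b ≤ ∑ z ∈ B, x z :=
      Finset.single_le_sum (f := fun z => x z) (fun z _ => hx.nn z) hb
    have h2 := hx.nn w
    have : 0 < specRad G * x u := by rw [e3]; linarith
    exact (pos_iff_pos_of_mul_pos this).1 hlamx
  have hw0 : 0 < y w := by
    have h1 : y a ≤ ∑ z ∈ A, y z :=
      Finset.single_le_sum (f := fun z => y z) (fun z _ => hy.nn z) haA
    have h2 := hy.nn u
    have : 0 < specRad (gE H c w u A B') * y w := by rw [f3]; linarith
    exact (pos_iff_pos_of_mul_pos this).1 hlamy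
  have hyu := hy.nn u
  have hxw := hx.nn w
  have g1 : specRad G * (x a - x b) = x w - x u := by
    rw [mul_sub, e1, e2]
    ring
  have g2 : specRad (gE H c w u A B') * (y a - y b) = y w + y u := by
    rw [mul_sub, f1, f2]
    ring
  have g3 : 0 ≤ y a - y b := by
    have : 0 ≤ specRad (gE H c w u A B') * (y a - y b) := by rw [g2]; linarith
    exact nonneg_of_mul_nonneg_right this hlamy
  have g4 : y w + y u ≤ specRad G * (y a - y b) := by
    rw [← g2]
    exact mul_le_mul_of_nonneg_right hsp g3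
  have g5 : 0 ≤ ∑ v, x v * y v := Finset.sum_nonneg fun v _ => mul_nonneg (hx.nn v) (hy.nn v)
  have g6 : (specRad (gE H c w u A B') - specRad G) * ∑ v, x v * y v ≤ 0 :=
    mul_nonpos_of_nonpos_of_nonneg (by linarith) g5
  have g7 : x u * (y w + y u) ≤ x u * (specRad G * (y a - y b)) :=
    mul_le_mul_of_nonneg_left g4 hu0.le
  have g8 : specRad G * (x u * (y a - y b) + y u * (x a - x b)) =
      x u * (specRad G * (y a - y b)) + y u * (specRad G * (x a - x b)) := by ring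
  have g9 : specRad G * (x u * (y a - y b) + y u * (x a - x b)) ≤ 0 := by
    rw [hpair]
    exact mul_nonpos_of_nonneg_of_nonpos hlamx.le g6
  rw [g8, g1] at g9
  have g10 : 0 < x u * y w := mul_pos hu0 hw0
  have g11 : 0 ≤ y u * x w := mul_nonneg hyu hxw
  nlinarith

end Pool.Agent.Work.MP_5532fa_up

end
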