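import Mathlib
import Pool.Agent.Work.MP_5532fa_full.P19
import Pool.Agent.Work.MP_5532fa_full.P26
import Pool.Agent.Work.MP_5532fa_full.P28

section

/-!
# MP_5532fa_co, upgrade, fourth round, block FIN4: `FIN3` with an upper bound for `j`
-/

open Finset

namespace Pool.Agent.Work.MP_5532fa_up

open MP5532fa (specRad qf pE)

open FINA FIN3 in
set_option maxHeartbeats 4000000 in
theorem blk_FIN4 (hREL : Stmt_REL) (hMKC : Stmt_MKC) (hHSET : Stmt_HSET) (hACC : Stmt_ACC)
    (hOPT3 : Stmt_OPT3) : Stmt_FIN4 := by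
  intro r δ hr hδ
  have hr' : (3 : ℝ) ≤ r := by exact_mod_cast hr
  have hrpos : (0 : ℝ) < r := by linarith only [hr']
  have hal1 := al_ge hr
  have hal2 := al_lt hr
  have halpos : 0 < al r := by linarith only [hal1]
  set η : ℝ := 1 / (8 * r) with hη
  have hη0 : 0 < η := by rw [hη]; positivity
  have hη1 : η ≤ 1 / 24 := by
    rw [hη]; apply one_div_le_one_div_of_le (by norm_num); linarith only [hr']
  obtain ⟨κ, hκ⟩ : ∃ κ : ℝ, κ = 1 - 2 / (r : ℝ) := ⟨_, rfl⟩
  obtain ⟨κ', hκ'⟩ : ∃ κ' : ℝ, κ' = 2 * (1 - η) ^ 2 - 1 := ⟨_, rfl⟩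
  have h1r : 1 / (r : ℝ) ≤ 1 / 3 := one_div_le_one_div_of_le (by norm_num) hr'
  have h1r0 : 0 < 1 / (r : ℝ) := by positivity
  have h2r : 2 / (r : ℝ) = 2 * (1 / r) := by ring
  have hκ3 : 1 / 3 ≤ κ := by rw [hκ, h2r]; linarith only [h1r]
  have hκ1 : κ ≤ 1 := by rw [hκ, h2r]; linarith only [h1r0]
  have hηr : η = 1 / (r : ℝ) / 8 := by rw [hη]; field_simp
  have hκκ' : κ < κ' := by
    rw [hκ, hκ', h2r, hηr]
    nlinarith [sq_nonneg (1 / (r : ℝ))]
  have hκ'1 : κ' ≤ 1 := by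
    rw [hκ']
    nlinarith
  obtain ⟨m0, hm0⟩ : ∃ m0 : ℝ, m0 = min δ 1 := ⟨_, rfl⟩
  have hm0pos : 0 < m0 := by rw [hm0]; exact lt_min hδ one_pos
  have hm0δ : m0 ≤ δ := by rw [hm0]; exact min_le_left _ _
  have hm01 : m0 ≤ 1 := by rw [hm0]; exact min_le_right _ _
  obtain ⟨ε', hε'⟩ : ∃ ε' : ℝ, ε' = η * m0 / 64 := ⟨_, rfl⟩
  have hε'pos : 0 < ε' := by rw [hε']; positivity
  have hε'm : ε' ≤ m0 / 64 := by
    rw [hε']
    have := mul_le_mul_of_nonneg_right hη1 hm0pos.le
    linarith only [hε', hε'pos, this]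
  refine ⟨min (ε' * (2 / 3)) (1 / (6 * r)), lt_min (by positivity) (by positivity), ?_⟩
  intro δ' hδ'
  obtain ⟨D, Na, hD, hmk⟩ := hMKC r 2 hr (by norm_num)
  obtain ⟨K1, Nb, hK1, hrel⟩ := hREL r D hr hD
  obtain ⟨K2, hK2, hhs⟩ := hHSET r D η hr hD hη0 le_rfl
  obtain ⟨K3, Nc, hK3, hacc⟩ := hACC r D η K2 hr hD hη0 le_rfl hK2
  obtain ⟨ε2, hε2⟩ : ∃ ε2 : ℝ, ε2 = min (min (δ' / 32) (δ' ^ 2 / 512)) (min (m0 / 8) (1 / (6 * r)))
    := ⟨_, rfl⟩
  have hε2pos : 0 < ε2 := by
    rw [hε2]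
    exact lt_min (lt_min (by positivity) (by positivity)) (lt_min (by positivity) (by positivity))
  have hε2a : ε2 ≤ δ' / 32 := by
    rw [hε2]; exact (min_le_left _ _).trans (min_le_left _ _)
  have hε2b : ε2 ≤ δ' ^ 2 / 512 := by
    rw [hε2]; exact (min_le_left _ _).trans (min_le_right _ _)
  have hε2c : ε2 ≤ m0 / 8 := by
    rw [hε2]; exact (min_le_right _ _).trans (min_le_left _ _)
  have hε2d : ε2 ≤ 1 / (6 * r) := by
    rw [hε2]; exact (min_le_right _ _).trans (min_le_right _ _)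
  obtain ⟨δ2, hδ2, hopt⟩ := hOPT3 κ κ' (η / 2) ε' ε2 (by linarith only [hκ3]) hκκ' hκ'1 (by positivity)
    (by linarith only [hη1]) hε'pos hε2pos
  obtain ⟨μ, hμ⟩ : ∃ μ : ℝ, μ = min (min δ2 ε') (1 / 2) := ⟨_, rfl⟩
  have hμpos : 0 < μ := by rw [hμ]; exact lt_min (lt_min hδ2 hε'pos) (by norm_num)
  have hμ1 : μ ≤ δ2 := by rw [hμ]; exact (min_le_left _ _).trans (min_le_left _ _)
  have hμ2 : μ ≤ ε' := by rw [hμ]; exact (min_le_left _ _).trans (min_le_right _ _)
  have hμ3 : μ ≤ 1 / 2 := by rw [hμ]; exact min_le_right _ _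
  obtain ⟨L, hL⟩ : ∃ L : ℝ, L = 1 + 2 * K2 + 6 * K1 + 8 * K1 / δ' + (2 * K3 / μ) ^ 2 +
    (8 * K2 / δ') ^ 2 + (2 / δ) ^ 2 := ⟨_, rfl⟩
  obtain ⟨Nd, hNd⟩ := exists_nat_ge L
  refine ⟨μ / 4, max (max Na Nb) (max Nc Nd), by positivity, ?_⟩
  intro N hN j hjN V _ G x lam hfree hpv hpE hlam
  have hNa : Na ≤ N := (le_max_left _ _).trans ((le_max_left _ _).trans hN)
  have hNb : Nb ≤ N := (le_max_right _ _).trans ((le_max_left _ _).trans hN)
  have hNc : Nc ≤ N := (le_max_left _ _).trans ((le_max_right _ _).trans hN)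
  have hNd' : Nd ≤ N := (le_max_right _ _).trans ((le_max_right _ _).trans hN)
  have hNL : L ≤ (N : ℝ) := hNd.trans (by exact_mod_cast hNd')
  have p1 : 0 ≤ 8 * K1 / δ' := by positivity
  have p2 : 0 ≤ (2 * K3 / μ) ^ 2 := by positivity
  have p3 : 0 ≤ (8 * K2 / δ') ^ 2 := by positivity
  have p4 : 0 ≤ (2 / δ) ^ 2 := by positivity
  have hN1 : (1 : ℝ) ≤ N := by linarith only [hK1, hK2, hL, hNL, p1, p2, p3, p4]
  have hNpos : (0 : ℝ) < N := by linarith only [hN1]
  have hN2 : 2 * K2 ≤ (N : ℝ) := by linarith only [hK1, hL, hNL, p1, p2, p3, p4]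
  have hN3 : 6 * K1 ≤ (N : ℝ) := by linarith only [hK2, hL, hNL, p1, p2, p3, p4]
  have hN4 : 8 * K1 / δ' ≤ (N : ℝ) := by linarith only [hK1, hK2, hL, hNL, p2, p3, p4]
  have hN4' : 8 * K1 ≤ (N : ℝ) * δ' := (div_le_iff₀ hδ').mp hN4
  have hN5 : (2 / δ) ^ 2 ≤ (N : ℝ) := by linarith only [hK1, hK2, hL, hNL, p1, p2, p3]
  have hSpos : 0 < √(N : ℝ) := Real.sqrt_pos.mpr hNpos
  have hS1 : 2 * K3 / μ ≤ √(N : ℝ) := Real.le_sqrt_of_sq_le (by linarith only [hK1, hK2, hL, hNL,
      p1, p3, p4])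
  have hS2 : 8 * K2 / δ' ≤ √(N : ℝ) := Real.le_sqrt_of_sq_le (by linarith only [hK1, hK2, hL, hNL,
      p1, p2, p4])
  have hq1 : K3 / √(N : ℝ) ≤ μ / 2 := by
    rw [div_le_iff₀ hSpos]
    have := (div_le_iff₀ hμpos).mp hS1
    linarith only [this]
  have hq2 : K2 / √(N : ℝ) ≤ δ' / 8 := by
    rw [div_le_iff₀ hSpos]
    have := (div_le_iff₀ hδ').mp hS2
    linarith only [this]
  have hq3 : K1 / (N : ℝ) ≤ δ' / 8 := by
    rw [div_le_iff₀ hNpos]; linarith only [hN4']
  obtain ⟨x0, hx0⟩ : ∃ x0 : ℝ, x0 = (j : ℝ) / (al r * N) := ⟨_, rfl⟩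
  have haN : 0 < al r * N := by positivity
  have hx0pos : 0 ≤ x0 := by rw [hx0]; positivity
  have hx01 : x0 ≤ 1 := by rw [hx0, div_le_one haN]; exact hjN
  have hj : (j : ℝ) = x0 * (al r * N) := by rw [hx0]; field_simp
  rw [← hx0, ← hκ] at hlam
  have hmin1 := UPX.min_bound (κ := κ) hx0pos hx01
  -- context
  have hlam1 : al r * N - 2 ≤ lam := by
    have h1 : (0 : ℝ) ≤ (j : ℝ) / N := by positivity
    have h2 : al r * ((1 - x0) * min x0 κ) ≤ al r * 1 := mul_le_mul_of_nonneg_left hmin1 halpos.le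
    linarith only [hal2, hμ3, hlam, h1, h2]
  have hctx := hmk N hNa j hjN V G x lam hfree hpv hpE hlam1
  obtain ⟨t, ht⟩ : ∃ t : ℝ, t = lam / pE G := ⟨_, rfl⟩
  rw [← ht] at hctx
  obtain ⟨hr1, hr2⟩ := hrel N hNb j hjN V G x lam t hctx hpE
  have hr1' := abs_le.mp hr1
  have hr2' := abs_le.mp hr2
  have hK1N : K1 / (N : ℝ) ≤ 1 := by rw [div_le_one hNpos]; linarith only [hN3]
  have htN : t * N ≤ 2 := by linarith only [hK1N, hr2'.2]
  have ht2 : t ≤ 2 / N := by rw [le_div_iff₀ hNpos]; exact htN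
  have hKt : K2 * t ≤ 1 := by
    calc K2 * t ≤ K2 * (2 / N) := mul_le_mul_of_nonneg_left ht2 (by linarith only [hK2])
      _ = 2 * K2 / N := by ring
      _ ≤ 1 := by rw [div_le_one hNpos]; exact hN2
  obtain ⟨c, H, hHD⟩ := hhs V G x lam t hctx hKt
  obtain ⟨hA, hB, hC⟩ := hacc N hNc j hjN V G x lam t c H hctx hHD hpE
  rw [← hx0] at hA
  rw [← hκ, ← hκ'] at hB
  have hlamlo : (N : ℝ) / 2 ≤ lam := by
    have h1 : al r * N ≥ 2 / 3 * N := mul_le_mul_of_nonneg_right hal1 hNpos.le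
    linarith only [hN3, h1, hr1'.1]
  have hlampos : 0 < lam := by linarith only [hNpos, hlamlo]
  have hlamhi : lam ≤ 2 * N := by
    have h1 : al r * N ≤ 1 * N := mul_le_mul_of_nonneg_right hal2.le hNpos.le
    linarith only [hN3, h1, hr1'.2]
  have hden : 0 < 2 * al r * N := by positivity
  have himb0 : 0 ≤ imb H c := Finset.sum_nonneg fun _ _ => sq_nonneg _
  have hX0 : ∀ v, 0 ≤ (dg G H v : ℝ) / lam := fun v => by positivity
  have hcost : (al r * N + j / N - lam) / al r ≤ (1 - x0) * min x0 κ + μ / 2 := by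
    rw [div_le_iff₀ halpos]
    have h6 : μ / 2 * (2 / 3) ≤ μ / 2 * al r := mul_le_mul_of_nonneg_left hal1 (by positivity)
    have h7 : ((1 - x0) * min x0 κ + μ / 2) * al r =
      al r * ((1 - x0) * min x0 κ) + μ / 2 * al r := by ring
    rw [h7]
    linarith only [hμpos, hlam, h6]
  obtain ⟨e, he⟩ : ∃ e : ℝ, e = (eu G H : ℝ) / (2 * al r * N) := ⟨_, rfl⟩
  obtain ⟨sg, hsg⟩ : ∃ sg : ℝ, sg = imb H c / (2 * al r * N) := ⟨_, rfl⟩
  obtain ⟨mu, hmu⟩ : ∃ mu : ℝ, mu = (mis G H c : ℝ) / (2 * al r * N) := ⟨_, rfl⟩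
  have he0 : 0 ≤ e := by rw [he]; positivity
  have hsg0 : 0 ≤ sg := by rw [hsg]; exact div_nonneg himb0 hden.le
  have hmu0 : 0 ≤ mu := by rw [hmu]; positivity
  rw [← he, ← hsg, ← hmu] at hA hB
  obtain ⟨S, hS⟩ : ∃ S : ℝ, S = ∑ v ∈ out H, (dg G H v : ℝ) / lam := ⟨_, rfl⟩
  obtain ⟨F, hF⟩ : ∃ F : ℝ, F = ∑ v ∈ out H, (dg G H v : ℝ) / lam * (1 - dg G H v / lam) :=
    ⟨_, rfl⟩
  have hS0 : 0 ≤ S := by rw [hS]; exact Finset.sum_nonneg fun v _ => hX0 v
  have hFS : η / 2 * S ≤ F := by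
    rw [hS, hF, Finset.mul_sum]
    refine Finset.sum_le_sum fun v hv => ?_
    have h1 := hC v (mem_out.mp hv)
    have h2 := hX0 v
    rw [mul_comm]
    exact mul_le_mul_of_nonneg_left (by linarith only [h1]) h2
  rcases lt_or_ge x0 ε' with hxs | hxs
  · -- small `j`
    left
    rw [← hF] at hB
    rw [← hS] at hA
    obtain ⟨b1, b2, b3, b4, k2, k1⟩ := small_case hη0 hη1 hκ3 hκκ' hm0pos hm01 hε' hS0 he0 hsg0 hmu0
      hFS hx0pos hx01 hxs hμ2 hq1 hcost hB hA
    have hk : H.card = N := by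
      have k3 : N < H.card + 1 := by exact_mod_cast k1
      have k4 : H.card < N + 1 := by exact_mod_cast k2
      omega
    clear hopt hB hA hcost hlam hFS hC
    obtain ⟨q1, q2⟩ := c0_of (M := m0 / 16) hr hHD hk le_rfl hδ (by positivity) (by linarith only [hm0pos, hm0δ]) hN1
      hN5 hlampos hlamhi (by rw [← hS]; exact b1) (by rw [← he]; exact b2)
      (by rw [← hsg]; linarith only [hm01, b3]) (by rw [← hmu]; exact b4)
    refine ⟨c, H, q1, q2, ?_⟩
    rw [hj]
    calc x0 * (al r * N) ≤ δ * (al r * N) :=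
          mul_le_mul_of_nonneg_right (by linarith only [hm0pos, hm0δ, hε'm, hxs]) haN.le
      _ ≤ δ * (1 * N) := mul_le_mul_of_nonneg_left
          (mul_le_mul_of_nonneg_right hal2.le hNpos.le) hδ.le
      _ = δ * N := by ring
  · right
    have hopt' := hopt V (out H) (fun v => (dg G H v : ℝ) / lam) e sg mu x0 ((N : ℤ) - H.card)
      (fun v hv => ⟨hX0 v, hC v (mem_out.mp hv)⟩) he0 hsg0 hmu0 hxs hx01
      (by push_cast; exact hA.trans (hq1.trans (by linarith only [hμpos, hμ1])))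
      (by
        refine hB.trans ?_
        linarith only [hμ1, hq1, hcost])
    rcases hopt' with ⟨hk, hxκ, w, hw, hXw, hrest⟩ | ⟨hk, hxκ, hrest⟩
    · right
      have hcard : H.card = N := by
        have : (N : ℤ) = H.card := by linarith only [hk]
        exact_mod_cast this.symm
      have hw0 : 0 ≤ S - (dg G H w : ℝ) / lam := by
        rw [hS]
        have := Finset.single_le_sum (f := fun v => (dg G H v : ℝ) / lam) (fun v _ => hX0 v) hw
        linarith only [this]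
      refine ⟨⟨?_, ?_⟩, ?_, c, H, w, ?_, ?_⟩
      · rw [hj]
        exact range_lo hε'pos hal1 hNpos hxs
      · rw [hj]
        exact range_hi hr' rfl hκ hNpos hε2pos hε2d hxκ
      · rw [hj, ← hκ]
        exact mul_le_mul_of_nonneg_right (by linarith only [hm0pos, hm0δ, hε2c, hxκ]) haN.le
      · refine fd_of (ε2 := ε2) (x0 := x0) hr hpv hHD hcard hδ' hε2pos hε2a hε2b hN1 hN4' hK1 hK2
          hq2 hq3 hx0 hr1 hr2 hlamlo hlamhi
          (fun v hv => (hC v hv).trans (by linarith only [h1r0, hηr])) hw hXw ?_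
        rw [← he, ← hsg, ← hmu]
        exact hrest
      · apply bal2 hr hcard le_rfl hNpos
        rw [← hsg]
        rw [← hS] at hrest
        have h1 : ε2 ≤ 1 / 8 := by linarith only [hm01, hε2c]
        clear hopt hB hA hcost hlam hFS hC
        linarith only [he0, hmu0, hrest, hw0, h1]
    · left
      have hcard : H.card = N + 1 := by
        have : (N : ℤ) + 1 = H.card := by linarith only [hk]
        exact_mod_cast this.symm
      rw [← hS] at hrest hA
      have hA' := abs_le.mp hA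
      have hc' : (H.card : ℝ) = N + 1 := by rw [hcard]; push_cast; ring
      rw [hc'] at hA'
      obtain ⟨q1, q2⟩ := c0_of (M := m0 / 8) (N := N) hr hHD hcard (Nat.le_succ N) hδ
        (by positivity) (by linarith only [hm0pos,
            hm0δ]) hN1 hN5 hlampos hlamhi (by rw [← hS]; linarith only [hε2c, he0, hmu0, hrest])
        (by rw [← he]; linarith only [hε2c, hmu0, hS0,
            hrest]) (by rw [← hsg]; linarith only [hm01, hε2c, hμ2, hq1, hmu0, hxs, hrest, hA'.1,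
                hA'.2])
        (by rw [← hmu]; linarith only [hε2c, he0, hS0, hrest])
      refine ⟨c, H, q1, ?_, ?_⟩
      · intro i
        have := q2 i
        push_cast at this
        exact this
      · rw [hj, ← hκ]
        exact mul_le_mul_of_nonneg_right (by linarith only [hm0pos, hm0δ, hε2c, hxκ]) haN.le

end Pool.Agent.Work.MP_5532fa_up

end

section

/-!
# MP_5532fa_co, upgrade: block EQS (two classes of the same size)
-/

open Finset

namespace Pool.Agent.Work.MP_5532fa_up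

open MP5532fa (specRad qf pE)

namespace EQS

section
variable {V : Type} [Fintype V] {r : ℕ}

theorem sum_chi_eq (p : V) (f : V → ℝ) : ∑ a, chi (a = p) * f a = f p := by
  classical
  rw [Finset.sum_eq_single p]
  · rw [chi_pos rfl, one_mul]
  · intro a _ ha
    rw [chi_neg ha, zero_mul]
  · intro h
    exact absurd (Finset.mem_univ p) h

theorem sum_chi_mem (S : Finset V) (f : V → ℝ) : ∑ a, chi (a ∈ S) * f a = ∑ a ∈ S, f a := by
  classical
  rw [← Finset.sum_subset (Finset.subset_univ S)]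
  · exact Finset.sum_congr rfl fun a ha => by rw [chi_pos ha, one_mul]
  · intro a _ ha
    rw [chi_neg ha, zero_mul]

theorem chi_and (p q : Prop) : chi (p ∧ q) = chi p * chi q := by
  by_cases hp : p
  · by_cases hq : q
    · rw [chi_pos hp, chi_pos hq, chi_pos ⟨hp, hq⟩]; norm_num
    · rw [chi_neg hq, chi_neg fun h => hq h.2]; norm_num
  · rw [chi_neg hp, chi_neg fun h => hp h.1]; norm_num

theorem sum2 (f g x y : V → ℝ) :
    ∑ a, ∑ b, f a * g b * (x a * y b) = (∑ a, f a * x a) * ∑ b, g b * y b := by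
  rw [Finset.sum_mul_sum]
  exact Finset.sum_congr rfl fun a _ => Finset.sum_congr rfl fun b _ => by ring

omit [Fintype V] in
/-- the adjacency of `WF` -/
theorem adj_iff {G : SimpleGraph V} {N : ℕ} {H : Finset V} {c : V → Fin r} {w : V} {T : Finset V}
    (h : WF G N H c w T) (a b : V) : G.Adj a b ↔
      (a ∈ H ∧ b ∈ H ∧ c a ≠ c b ∧ ¬ FM G H c a b) ∨ (a = w ∧ b ∈ T) ∨ (b = w ∧ a ∈ T) := by
  constructor
  · intro hab
    rcases h.sub a b hab with h1 | h1 | h1
    · exact Or.inl ⟨h1.1, h1.2.1, h1.2.2, fun h2 => h2.2.2.2 hab⟩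
    · exact Or.inr (Or.inl h1)
    · exact Or.inr (Or.inr h1)
  · rintro (h1 | h1 | h1)
    · by_contra h2
      exact h1.2.2.2 ⟨h1.1, h1.2.1, h1.2.2.1, h2⟩
    · rw [h1.1]; exact h.hwT b h1.2
    · rw [h1.1]; exact (h.hwT a h1.2).symm

omit [Fintype V] in
theorem FM_symm {G : SimpleGraph V} {H : Finset V} {c : V → Fin r} {a b : V}
    (h : FM G H c a b) : FM G H c b a :=
  ⟨h.2.1, h.1, h.2.2.1.symm, fun h' => h.2.2.2 h'.symm⟩

/-- the comparison graph for moving `v` from the class `k` to the class `l` and filling the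
missing pair `p q` -/
theorem comp (h1 : Stmt_GF) {G : SimpleGraph V} {N : ℕ} {H : Finset V} {c : V → Fin r} {w : V}
    {T : Finset V} (hr : 3 ≤ r) (h : WF G N H c w T)
    (hsz : ∀ i, mis G H c < (cl H c i).card) {v p q a0 b0 : V} {k l : Fin r} (hkl : k ≠ l)
    (heq : (cl H c k).card = (cl H c l).card)
    (hv : v ∈ H) (hvk : c v = k) (hvT : v ∉ T) (hvF : ∀ b, ¬ FM G H c v b)
    (hpq : FM G H c p q) (ha0 : a0 ∈ T) (hb0 : b0 ∈ T) (hab : FM G H c a0 b0)
    (hne1 : ¬ (a0 = p ∧ b0 = q)) (hne2 : ¬ (a0 = q ∧ b0 = p)) :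
    ∃ (G' : SimpleGraph V) (c' : V → Fin r), WF G' N H c' w T ∧ ¬ G'.Colorable r ∧
      G'.CliqueFree (r + 1) ∧ pE G' = pE G ∧ mis G' H c' + 2 = mis G H c ∧
      (∀ i, (cl H c' i).card ≤ (cl H c i).card + 1 ∧ (cl H c i).card ≤ (cl H c' i).card + 1) ∧
      (cl H c' k).card + 1 = (cl H c k).card ∧ (cl H c' l).card = (cl H c l).card + 1 ∧
      ∀ x y : V → ℝ, ∑ a, ∑ b, (ad G' a b - ad G a b) * (x a * y b) =
        x p * y q + x q * y p + x v * (cs y H c' k - cs y H c' l + y v) +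
          y v * (cs x H c k - x v - cs x H c l) := by
  classical
  obtain ⟨c', hc'⟩ : ∃ c', c' = Function.update c v l := ⟨_, rfl⟩
  have hcv : c' v = l := by rw [hc', Function.update_self]
  have hca : ∀ a, a ≠ v → c' a = c a := fun a ha => by rw [hc', Function.update_of_ne ha]
  have hvF2 : ∀ b, ¬ FM G H c b v := fun b hb => hvF b (FM_symm hb)
  have hpv : p ≠ v := by rintro rfl; exact hvF _ hpq
  have hqv : q ≠ v := by rintro rfl; exact hvF2 _ hpq
  have hpH := hpq.1
  have hqH := hpq.2.1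
  have hpq' : p ≠ q := by rintro rfl; exact hpq.2.2.1 rfl
  obtain ⟨F', hF'⟩ : ∃ F' : V → V → Prop, F' = fun a b =>
    FM G H c a b ∧ ¬ (a = p ∧ b = q) ∧ ¬ (a = q ∧ b = p) := ⟨_, rfl⟩
  have hFs : ∀ a b, F' a b → F' b a := by
    intro a b hab
    rw [hF'] at hab ⊢
    exact ⟨FM_symm hab.1, fun h => hab.2.2 ⟨h.2, h.1⟩, fun h => hab.2.1 ⟨h.2, h.1⟩⟩
  have hFv : ∀ a b, F' a b → a ≠ v ∧ b ≠ v := by
    intro a b hab
    rw [hF'] at hab
    constructor
    · rintro rfl; exact hvF _ hab.1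
    · rintro rfl; exact hvF2 _ hab.1
  obtain ⟨G', hG'⟩ : ∃ G', G' = gF H c' w T F' := ⟨_, rfl⟩
  -- adjacency in `H`
  have adjH : ∀ a ∈ H, ∀ b ∈ H, (G'.Adj a b ↔ c' a ≠ c' b ∧ ¬ F' a b) := by
    intro a ha b hb
    rw [hG', SM2.gF_adj h.hw ha hb]
    constructor
    · rintro ⟨h2, h3, _⟩
      exact ⟨h2, h3⟩
    · rintro ⟨h2, h3⟩
      exact ⟨h2, h3, fun h4 => h3 (hFs _ _ h4)⟩
  have hWF : WF G' N H c' w T := by
    refine ⟨h.card, h.hw, h.hT, ?_, ⟨a0, ha0, b0, hb0, ?_, ?_⟩, ?_, ?_⟩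
    · intro i
      have : cl T c' i = cl T c i := by
        ext a
        rw [mem_cl, mem_cl]
        constructor
        · rintro ⟨h2, h3⟩
          rw [hca a (fun h0 => hvT (h0 ▸ h2))] at h3
          exact ⟨h2, h3⟩
        · rintro ⟨h2, h3⟩
          rw [← hca a (fun h0 => hvT (h0 ▸ h2))] at h3
          exact ⟨h2, h3⟩
      rw [this]
      exact h.hT1 i
    · rintro rfl
      exact hab.2.2.1 rfl
    · intro hadj
      rw [adjH a0 (h.hT ha0) b0 (h.hT hb0)] at hadj
      apply hadj.2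
      rw [hF']
      exact ⟨hab, hne1, hne2⟩
    · intro a b hab
      rw [hG'] at hab
      rcases hab.2 with h2 | h2 | h2
      · exact Or.inl ⟨h2.1, h2.2.1, h2.2.2.1⟩
      · exact Or.inr (Or.inl h2)
      · exact Or.inr (Or.inr h2)
    · intro b hb
      rw [hG']
      refine ⟨?_, Or.inr (Or.inl ⟨rfl, hb⟩)⟩
      rintro rfl
      exact h.hw (h.hT hb)
  -- the missing pairs
  have hmis : mis G' H c' + 2 = mis G H c := by
    have e1 : mis G H c = ((H ×ˢ H).filter (fun e => c e.1 ≠ c e.2 ∧ ¬ G.Adj e.1 e.2)).card := by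
      unfold mis
      congr 1
    have e2 : mis G' H c' =
        ((H ×ˢ H).filter (fun e => c' e.1 ≠ c' e.2 ∧ ¬ G'.Adj e.1 e.2)).card := by
      unfold mis
      congr 1
    have e3 : (H ×ˢ H).filter (fun e => c' e.1 ≠ c' e.2 ∧ ¬ G'.Adj e.1 e.2) =
        (((H ×ˢ H).filter (fun e => c e.1 ≠ c e.2 ∧ ¬ G.Adj e.1 e.2)).erase (p, q)).erase
          (q, p) := by
      ext ⟨a, b⟩
      rw [Finset.mem_erase, Finset.mem_erase, Finset.mem_filter, Finset.mem_filter,
        Finset.mem_product]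
      simp only
      constructor
      · rintro ⟨⟨ha, hb⟩, h3, h4⟩
        rw [adjH a ha b hb, not_and, not_not] at h4
        have h5 := h4 h3
        rw [hF'] at h5
        refine ⟨fun h6 => h5.2.2 ⟨(Prod.mk.inj h6).1, (Prod.mk.inj h6).2⟩,
          fun h6 => h5.2.1 ⟨(Prod.mk.inj h6).1, (Prod.mk.inj h6).2⟩, ⟨ha, hb⟩, h5.1.2.2.1,
          h5.1.2.2.2⟩
      · rintro ⟨h3, h4, ⟨ha, hb⟩, h5, h6⟩
        have h7 : F' a b := by
          rw [hF']
          exact ⟨⟨ha, hb, h5, h6⟩, fun h8 => h4 (Prod.ext h8.1 h8.2),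
            fun h8 => h3 (Prod.ext h8.1 h8.2)⟩
        have h8 := hFv a b h7
        refine ⟨⟨ha, hb⟩, ?_, ?_⟩
        · rw [hca a h8.1, hca b h8.2]
          exact h5
        · rw [adjH a ha b hb]
          exact fun h9 => h9.2 h7
    have m1 : (p, q) ∈ (H ×ˢ H).filter (fun e => c e.1 ≠ c e.2 ∧ ¬ G.Adj e.1 e.2) := by
      rw [Finset.mem_filter, Finset.mem_product]
      exact ⟨⟨hpH, hqH⟩, hpq.2.2.1, hpq.2.2.2⟩
    have m2 : (q, p) ∈ ((H ×ˢ H).filter (fun e => c e.1 ≠ c e.2 ∧ ¬ G.Adj e.1 e.2)).erase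
        (p, q) := by
      rw [Finset.mem_erase, Finset.mem_filter, Finset.mem_product]
      exact ⟨fun h0 => hpq' (Prod.mk.inj h0).2, ⟨hqH, hpH⟩, hpq.2.2.1.symm,
        fun h0 => hpq.2.2.2 h0.symm⟩
    have c1 := Finset.card_erase_add_one m1
    have c2 := Finset.card_erase_add_one m2
    rw [e2, e3, e1]
    omega
  -- the classes
  have hclk : cl H c' k = (cl H c k).erase v := by
    ext a
    rw [mem_cl, Finset.mem_erase, mem_cl]
    by_cases hav : a = v
    · subst hav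
      rw [hcv]
      exact ⟨fun h2 => absurd h2.2 hkl.symm, fun h2 => absurd rfl h2.1⟩
    · rw [hca a hav]
      exact ⟨fun h2 => ⟨hav, h2⟩, fun h2 => h2.2⟩
  have hvl : v ∉ cl H c l := fun h2 => hkl (hvk ▸ (mem_cl.mp h2).2)
  have hcll : cl H c' l = insert v (cl H c l) := by
    ext a
    rw [mem_cl, Finset.mem_insert, mem_cl]
    by_cases hav : a = v
    · subst hav
      rw [hcv]
      exact ⟨fun _ => Or.inl rfl, fun _ => ⟨hv, rfl⟩⟩
    · rw [hca a hav]
      exact ⟨fun h2 => Or.inr h2, fun h2 => h2.resolve_left hav⟩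
  have hcli : ∀ i, i ≠ k → i ≠ l → cl H c' i = cl H c i := by
    intro i hik hil
    ext a
    rw [mem_cl, mem_cl]
    by_cases hav : a = v
    · subst hav
      rw [hcv]
      exact ⟨fun h2 => absurd h2.2.symm hil, fun h2 => absurd (h2.2.symm.trans hvk) hik⟩
    · rw [hca a hav]
  have hvk2 : v ∈ cl H c k := mem_cl.mpr ⟨hv, hvk⟩
  have ck : (cl H c' k).card + 1 = (cl H c k).card := by
    rw [hclk]; exact Finset.card_erase_add_one hvk2
  have cl' : (cl H c' l).card = (cl H c l).card + 1 := by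
    rw [hcll, Finset.card_insert_of_notMem hvl]
  have hcard : ∀ i, (cl H c' i).card ≤ (cl H c i).card + 1 ∧
      (cl H c i).card ≤ (cl H c' i).card + 1 := by
    intro i
    by_cases hik : i = k
    · subst hik; omega
    · by_cases hil : i = l
      · subst hil; omega
      · rw [hcli i hik hil]; omega
  obtain ⟨g1, g2, g3⟩ := h1 r hr V G' N H c' w T hWF
  obtain ⟨_, _, g6⟩ := h1 r hr V G N H c w T h
  refine ⟨G', c', hWF, g2 fun i => ?_, g1, ?_, hmis, hcard, ck, cl', ?_⟩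
  · have := hsz i
    have := (hcard i).2
    omega
  · rw [g3, g6]
    have hs : ∑ i, sz H c' i ^ 2 = ∑ i, sz H c i ^ 2 + 2 := by
      have e1 : ∀ f : Fin r → ℝ, ∑ i, f i = f k + f l + ∑ i ∈ (univ.erase k).erase l, f i := by
        intro f
        rw [← Finset.add_sum_erase univ f (Finset.mem_univ k),
          ← Finset.add_sum_erase (univ.erase k) f (Finset.mem_erase.mpr ⟨hkl.symm, Finset.mem_univ l⟩)]
        ring
      rw [e1 (fun i => sz H c' i ^ 2), e1 (fun i => sz H c i ^ 2)]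
      have e2 : ∑ i ∈ (univ.erase k).erase l, sz H c' i ^ 2 =
          ∑ i ∈ (univ.erase k).erase l, sz H c i ^ 2 := by
        refine Finset.sum_congr rfl fun i hi => ?_
        rw [Finset.mem_erase, Finset.mem_erase] at hi
        unfold sz
        rw [hcli i hi.2.1 hi.1]
      rw [e2]
      have s1 : sz H c' k + 1 = sz H c k := by unfold sz; exact_mod_cast ck
      have s2 : sz H c' l = sz H c l + 1 := by unfold sz; exact_mod_cast cl'
      have s3 : sz H c k = sz H c l := by unfold sz; exact_mod_cast heq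
      have s4 : sz H c' k = sz H c l - 1 := by linarith only [s1, s3]
      rw [s4, s2, s3]
      ring
    have hm : (mis G' H c' : ℝ) + 2 = mis G H c := by exact_mod_cast hmis
    rw [hs]
    linarith only [hm]
  · -- the pairing
    have hdiff : ∀ a b, ad G' a b - ad G a b = chi (a = p) * chi (b = q) + chi (a = q) * chi (b = p)
        + (chi (a = v) * chi (b ∈ cl H c' k) - chi (a = v) * chi (b ∈ cl H c l))
        + (chi (a ∈ cl H c' k) * chi (b = v) - chi (a ∈ cl H c l) * chi (b = v)) := by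
      intro a b
      unfold ad
      rw [chi_congr (adj_iff h a b), chi_congr (adj_iff hWF a b)]
      simp only [← chi_and]
      by_cases hH : a ∈ H ∧ b ∈ H
      · obtain ⟨ha, hb⟩ := hH
        have haw : a ≠ w := by rintro rfl; exact h.hw ha
        have hbw : b ≠ w := by rintro rfl; exact h.hw hb
        have f1 : ((a ∈ H ∧ b ∈ H ∧ c a ≠ c b ∧ ¬ FM G H c a b) ∨ (a = w ∧ b ∈ T) ∨
            (b = w ∧ a ∈ T)) ↔ (c a ≠ c b ∧ ¬ FM G H c a b) := by
          simp [ha, hb, haw, hbw]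
        have f2 : ((a ∈ H ∧ b ∈ H ∧ c' a ≠ c' b ∧ ¬ FM G' H c' a b) ∨ (a = w ∧ b ∈ T) ∨
            (b = w ∧ a ∈ T)) ↔ (c' a ≠ c' b ∧ ¬ F' a b) := by
          have e4 : FM G' H c' a b ↔ c' a ≠ c' b ∧ F' a b := by
            unfold FM
            rw [adjH a ha b hb]
            constructor
            · rintro ⟨_, _, h3, h4⟩
              refine ⟨h3, ?_⟩
              by_contra h5
              exact h4 ⟨h3, h5⟩
            · rintro ⟨h3, h4⟩
              exact ⟨ha, hb, h3, fun h5 => h5.2 h4⟩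
          rw [e4]
          simp only [ha, hb, haw, hbw, true_and, false_and, or_false]
          constructor
          · rintro ⟨h3, h4⟩
            exact ⟨h3, fun h5 => h4 ⟨h3, h5⟩⟩
          · rintro ⟨h3, h4⟩
            exact ⟨h3, fun h5 => h4 h5.2⟩
        rw [chi_congr f1, chi_congr f2]
        by_cases hav : a = v
        · by_cases hbv : b = v
          · subst hav
            subst hbv
            have n1 : ¬ (c' b ≠ c' b ∧ ¬ F' b b) := fun h3 => h3.1 rfl
            have n2 : ¬ (c b ≠ c b ∧ ¬ FM G H c b b) := fun h3 => h3.1 rfl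
            have n3 : ¬ (b = p ∧ b = q) := fun h3 => hpv h3.1.symm
            have n4 : ¬ (b = q ∧ b = p) := fun h3 => hpv h3.2.symm
            have n5 : ¬ (b = b ∧ b ∈ cl H c' k) := fun h3 => by
              rw [hclk, Finset.mem_erase] at h3
              exact h3.2.1 rfl
            have n6 : ¬ (b = b ∧ b ∈ cl H c l) := fun h3 => hvl h3.2
            have n7 : ¬ (b ∈ cl H c' k ∧ b = b) := fun h3 => n5 ⟨rfl, h3.1⟩
            have n8 : ¬ (b ∈ cl H c l ∧ b = b) := fun h3 => hvl h3.1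
            rw [chi_neg n1, chi_neg n2, chi_neg n3, chi_neg n4, chi_neg n5, chi_neg n6,
              chi_neg n7, chi_neg n8]
            norm_num
          · subst hav
            have n3 : ¬ (a = p ∧ b = q) := fun h3 => hpv h3.1.symm
            have n4 : ¬ (a = q ∧ b = p) := fun h3 => hqv h3.1.symm
            have n7 : ¬ (a ∈ cl H c' k ∧ b = a) := fun h3 => hbv h3.2
            have n8 : ¬ (a ∈ cl H c l ∧ b = a) := fun h3 => hbv h3.2
            have n1 : (c' a ≠ c' b ∧ ¬ F' a b) ↔ c b ≠ l := by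
              rw [hcv, hca b hbv]
              exact ⟨fun h3 => h3.1.symm, fun h3 => ⟨h3.symm, fun h4 => (hFv _ _ h4).1 rfl⟩⟩
            have n2 : (c a ≠ c b ∧ ¬ FM G H c a b) ↔ c b ≠ k := by
              rw [hvk]
              exact ⟨fun h3 => h3.1.symm, fun h3 => ⟨h3.symm, hvF b⟩⟩
            have n5 : (a = a ∧ b ∈ cl H c' k) ↔ c b = k := by
              rw [mem_cl, hca b hbv]
              exact ⟨fun h3 => h3.2.2, fun h3 => ⟨rfl, hb, h3⟩⟩
            have n6 : (a = a ∧ b ∈ cl H c l) ↔ c b = l := by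
              rw [mem_cl]
              exact ⟨fun h3 => h3.2.2, fun h3 => ⟨rfl, hb, h3⟩⟩
            rw [chi_congr n1, chi_congr n2, chi_neg n3, chi_neg n4, chi_congr n5, chi_congr n6,
              chi_neg n7, chi_neg n8]
            by_cases hbk : c b = k
            · have hbl : c b ≠ l := fun h3 => hkl (hbk.symm.trans h3)
              rw [chi_pos hbl, chi_neg (not_not.mpr hbk), chi_pos hbk, chi_neg hbl]
              norm_num
            · by_cases hbl : c b = l
              · rw [chi_neg (not_not.mpr hbl), chi_pos hbk, chi_neg hbk, chi_pos hbl]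
                norm_num
              · rw [chi_pos hbl, chi_pos hbk, chi_neg hbk, chi_neg hbl]
                norm_num
        · by_cases hbv : b = v
          · subst hbv
            have n3 : ¬ (a = p ∧ b = q) := fun h3 => hqv h3.2.symm
            have n4 : ¬ (a = q ∧ b = p) := fun h3 => hpv h3.2.symm
            have n7 : ¬ (a = b ∧ b ∈ cl H c' k) := fun h3 => hav h3.1
            have n8 : ¬ (a = b ∧ b ∈ cl H c l) := fun h3 => hav h3.1
            have n1 : (c' a ≠ c' b ∧ ¬ F' a b) ↔ c a ≠ l := by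
              rw [hcv, hca a hav]
              exact ⟨fun h3 => h3.1, fun h3 => ⟨h3, fun h4 => (hFv _ _ h4).2 rfl⟩⟩
            have n2 : (c a ≠ c b ∧ ¬ FM G H c a b) ↔ c a ≠ k := by
              rw [hvk]
              exact ⟨fun h3 => h3.1, fun h3 => ⟨h3, hvF2 a⟩⟩
            have n5 : (a ∈ cl H c' k ∧ b = b) ↔ c a = k := by
              rw [mem_cl, hca a hav]
              exact ⟨fun h3 => h3.1.2, fun h3 => ⟨⟨ha, h3⟩, rfl⟩⟩
            have n6 : (a ∈ cl H c l ∧ b = b) ↔ c a = l := by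
              rw [mem_cl]
              exact ⟨fun h3 => h3.1.2, fun h3 => ⟨⟨ha, h3⟩, rfl⟩⟩
            rw [chi_congr n1, chi_congr n2, chi_neg n3, chi_neg n4, chi_congr n5, chi_congr n6,
              chi_neg n7, chi_neg n8]
            by_cases hbk : c a = k
            · have hbl : c a ≠ l := fun h3 => hkl (hbk.symm.trans h3)
              rw [chi_pos hbl, chi_neg (not_not.mpr hbk), chi_pos hbk, chi_neg hbl]
              norm_num
            · by_cases hbl : c a = l
              · rw [chi_neg (not_not.mpr hbl), chi_pos hbk, chi_neg hbk, chi_pos hbl]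
                norm_num
              · rw [chi_pos hbl, chi_pos hbk, chi_neg hbk, chi_neg hbl]
                norm_num
          · have n5 : ¬ (a = v ∧ b ∈ cl H c' k) := fun h3 => hav h3.1
            have n6 : ¬ (a = v ∧ b ∈ cl H c l) := fun h3 => hav h3.1
            have n7 : ¬ (a ∈ cl H c' k ∧ b = v) := fun h3 => hbv h3.2
            have n8 : ¬ (a ∈ cl H c l ∧ b = v) := fun h3 => hbv h3.2
            rw [chi_neg n5, chi_neg n6, chi_neg n7, chi_neg n8, hca a hav, hca b hbv]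
            by_cases h3 : a = p ∧ b = q
            · have n4 : ¬ (a = q ∧ b = p) := fun h4 => hpq' (h3.1.symm.trans h4.1)
              have n1 : c a ≠ c b ∧ ¬ F' a b := by
                rw [h3.1, h3.2]
                refine ⟨hpq.2.2.1, ?_⟩
                rw [hF']
                exact fun h4 => h4.2.1 ⟨rfl, rfl⟩
              have n2 : ¬ (c a ≠ c b ∧ ¬ FM G H c a b) := by
                rw [h3.1, h3.2]
                exact fun h4 => h4.2 hpq
              rw [chi_pos h3, chi_neg n4, chi_pos n1, chi_neg n2]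
              norm_num
            · by_cases h4 : a = q ∧ b = p
              · have n1 : c a ≠ c b ∧ ¬ F' a b := by
                  rw [h4.1, h4.2]
                  refine ⟨hpq.2.2.1.symm, ?_⟩
                  rw [hF']
                  exact fun h5 => h5.2.2 ⟨rfl, rfl⟩
                have n2 : ¬ (c a ≠ c b ∧ ¬ FM G H c a b) := by
                  rw [h4.1, h4.2]
                  exact fun h5 => h5.2 (FM_symm hpq)
                rw [chi_neg h3, chi_pos h4, chi_pos n1, chi_neg n2]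
                norm_num
              · have n1 : (c a ≠ c b ∧ ¬ F' a b) ↔ (c a ≠ c b ∧ ¬ FM G H c a b) := by
                  rw [hF']
                  constructor
                  · rintro ⟨h5, h6⟩
                    exact ⟨h5, fun h7 => h6 ⟨h7, h3, h4⟩⟩
                  · rintro ⟨h5, h6⟩
                    exact ⟨h5, fun h7 => h6 h7.1⟩
                rw [chi_neg h3, chi_neg h4, chi_congr n1]
                norm_num
      · have f1 : ((a ∈ H ∧ b ∈ H ∧ c' a ≠ c' b ∧ ¬ FM G' H c' a b) ∨ (a = w ∧ b ∈ T) ∨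
            (b = w ∧ a ∈ T)) ↔ ((a ∈ H ∧ b ∈ H ∧ c a ≠ c b ∧ ¬ FM G H c a b) ∨
            (a = w ∧ b ∈ T) ∨ (b = w ∧ a ∈ T)) := by
          constructor
          · rintro (h3 | h3)
            · exact absurd ⟨h3.1, h3.2.1⟩ hH
            · exact Or.inr h3
          · rintro (h3 | h3)
            · exact absurd ⟨h3.1, h3.2.1⟩ hH
            · exact Or.inr h3
        have n3 : ¬ (a = p ∧ b = q) := fun h3 => hH ⟨h3.1 ▸ hpH, h3.2 ▸ hqH⟩
        have n4 : ¬ (a = q ∧ b = p) := fun h3 => hH ⟨h3.1 ▸ hqH, h3.2 ▸ hpH⟩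
        have n5 : ¬ (a = v ∧ b ∈ cl H c' k) := fun h3 => hH ⟨h3.1 ▸ hv, (mem_cl.mp h3.2).1⟩
        have n6 : ¬ (a = v ∧ b ∈ cl H c l) := fun h3 => hH ⟨h3.1 ▸ hv, (mem_cl.mp h3.2).1⟩
        have n7 : ¬ (a ∈ cl H c' k ∧ b = v) := fun h3 => hH ⟨(mem_cl.mp h3.1).1, h3.2 ▸ hv⟩
        have n8 : ¬ (a ∈ cl H c l ∧ b = v) := fun h3 => hH ⟨(mem_cl.mp h3.1).1, h3.2 ▸ hv⟩
        rw [chi_congr f1, chi_neg n3, chi_neg n4, chi_neg n5, chi_neg n6, chi_neg n7, chi_neg n8]
        norm_num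
    intro x y
    simp only [hdiff, add_mul, sub_mul, Finset.sum_add_distrib, Finset.sum_sub_distrib]
    rw [sum2 (fun a => chi (a = p)) (fun b => chi (b = q)) x y,
      sum2 (fun a => chi (a = q)) (fun b => chi (b = p)) x y,
      sum2 (fun a => chi (a = v)) (fun b => chi (b ∈ cl H c' k)) x y,
      sum2 (fun a => chi (a = v)) (fun b => chi (b ∈ cl H c l)) x y,
      sum2 (fun a => chi (a ∈ cl H c' k)) (fun b => chi (b = v)) x y,
      sum2 (fun a => chi (a ∈ cl H c l)) (fun b => chi (b = v)) x y]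
    simp only [sum_chi_eq, sum_chi_mem]
    have k1 : ∑ a ∈ cl H c' k, x a = cs x H c k - x v := by
      unfold cs
      rw [hclk, ← Finset.sum_erase_add (cl H c k) x hvk2]
      ring
    have k2 : ∑ a ∈ cl H c l, y a = cs y H c' l - y v := by
      unfold cs
      rw [hcll, Finset.sum_insert hvl]
      ring
    have k3 : ∑ a ∈ cl H c' k, y a = cs y H c' k := rfl
    have k4 : ∑ a ∈ cl H c l, x a = cs x H c l := rfl
    rw [k1, k2, k3, k4]
    ring

end

end EQS

open EQS in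
theorem blk_EQS (h1 : Stmt_GF) (_h2 : Stmt_EID) (h3 : Stmt_FLAT) : Stmt_EQS := by
  classical
  intro r hr
  have hrR : (3 : ℝ) ≤ r := by exact_mod_cast hr
  obtain ⟨_, _, hK⟩ := h3 r hr
  obtain ⟨e, he⟩ : ∃ e : ℝ, e = 1 / (20 * r) := ⟨_, rfl⟩
  have he0 : 0 < e := by rw [he]; positivity
  have her : e * r = 1 / 20 := by rw [he]; field_simp
  have he1 : e ≤ 1 / 60 := by
    have : e * 3 ≤ e * r := mul_le_mul_of_nonneg_left hrR he0.le
    linarith only [her, this]
  obtain ⟨δF, N1, hδF0, hδFe, hF⟩ := hK e he0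
  obtain ⟨δ, hδ⟩ : ∃ δ, δ = min (δF / 2) (1 / (4 * (r : ℝ))) := ⟨_, rfl⟩
  have hδ1 : δ ≤ δF / 2 := by rw [hδ]; exact min_le_left _ _
  have hδ2 : δ ≤ 1 / (4 * r) := by rw [hδ]; exact min_le_right _ _
  have hδ0 : 0 < δ := by rw [hδ]; exact lt_min (by linarith only [hδF0]) (by positivity)
  obtain ⟨N2, hN2⟩ := exists_nat_ge ((r : ℝ) / δ + 4 * r)
  refine ⟨δ, max N1 N2, hδ0, ?_⟩
  intro N hNN V _ G c H w T k l hC0 hWF hMX hmis4 hkl heq
  have hN1 : N1 ≤ N := (le_max_left _ _).trans hNN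
  have hNR : (r : ℝ) / δ + 4 * r ≤ N := by
    have : (N2 : ℝ) ≤ N := by exact_mod_cast (le_max_right N1 N2).trans hNN
    linarith only [hN2, this]
  have hrδ0 : 0 < (r : ℝ) / δ := by positivity
  have hN4 : 4 * (r : ℝ) ≤ N := by linarith only [hNR, hrδ0]
  have hNpos : (0 : ℝ) < N := by linarith only [hNR, hrδ0]
  have hrδ : (r : ℝ) ≤ δ * N := by
    have h4 : (r : ℝ) / δ ≤ N := by linarith only [hNR]
    rw [div_le_iff₀ hδ0] at h4
    linarith only [h4]
  -- sizes of the classes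
  have hszR : ∀ i, (mis G H c : ℝ) + 1 < sz H c i := by
    intro i
    have h7 := (abs_le.mp (hC0.bal i)).1
    have h8 := hC0.mis
    have h9 : δ * N ≤ 1 / (4 * r) * N := mul_le_mul_of_nonneg_right hδ2 hNpos.le
    have e4 : 1 / (4 * (r : ℝ)) * N = N / r / 4 := by field_simp
    have h10 : (4 : ℝ) ≤ N / r := by
      rw [le_div_iff₀ (by linarith only [hrR])]
      linarith only [hN4]
    linarith only [h7, h8, h9, e4, h10]
  have hsz : ∀ i, mis G H c + 1 < (cl H c i).card := by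
    intro i
    have := hszR i
    unfold sz at this
    exact_mod_cast this
  -- the set of the missing pairs
  obtain ⟨D, hD⟩ : ∃ D, D = (H ×ˢ H).filter (fun e => c e.1 ≠ c e.2 ∧ ¬ G.Adj e.1 e.2) :=
    ⟨_, rfl⟩
  have hDc : D.card = mis G H c := by
    rw [hD]
    unfold mis
    congr 1
  have hDm : ∀ a b, (a, b) ∈ D ↔ FM G H c a b := by
    intro a b
    rw [hD, Finset.mem_filter, Finset.mem_product]
    exact ⟨fun h => ⟨h.1.1, h.1.2, h.2.1, h.2.2⟩, fun h => ⟨⟨h.1, h.2.1⟩, h.2.2.1, h.2.2.2⟩⟩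
  -- the vertex `v`
  obtain ⟨v, hvk, hvT, hvF⟩ : ∃ v, v ∈ cl H c k ∧ v ∉ T ∧ ∀ b, ¬ FM G H c v b := by
    by_contra hcon
    push Not at hcon
    have hsub : cl H c k ⊆ cl T c k ∪ D.image Prod.fst := by
      intro a ha
      rw [Finset.mem_union, Finset.mem_image]
      by_cases haT : a ∈ T
      · exact Or.inl (mem_cl.mpr ⟨haT, (mem_cl.mp ha).2⟩)
      · obtain ⟨b, hb⟩ := hcon a ha haT
        exact Or.inr ⟨(a, b), (hDm a b).mpr hb, rfl⟩
    have h4 := Finset.card_le_card hsub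
    have h5 := Finset.card_union_le (cl T c k) (D.image Prod.fst)
    have h6 : (D.image Prod.fst).card ≤ D.card := Finset.card_image_le
    have h7 := hWF.hT1 k
    have h8 := hsz k
    omega
  have hv := mem_cl.mp hvk
  -- a missing pair inside `T`
  obtain ⟨a0, ha0, b0, hb0, hab0, hnab⟩ := hWF.hF
  have hFM0 : FM G H c a0 b0 :=
    ⟨hWF.hT ha0, hWF.hT hb0, fun h => hab0 (GF.eqT hWF.hT1 ha0 hb0 h), hnab⟩
  -- another missing pair
  obtain ⟨p, q, hpq, hne1, hne2⟩ : ∃ p q, FM G H c p q ∧ ¬ (a0 = p ∧ b0 = q) ∧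
      ¬ (a0 = q ∧ b0 = p) := by
    by_contra hcon
    push Not at hcon
    have hsub : D ⊆ {(a0, b0), (b0, a0)} := by
      rintro ⟨p, q⟩ hpq
      rw [Finset.mem_insert, Finset.mem_singleton]
      by_cases h4 : a0 = p ∧ b0 = q
      · left
        rw [h4.1, h4.2]
      · right
        have h5 := hcon p q ((hDm p q).mp hpq) (fun h6 h7 => h4 ⟨h6, h7⟩)
        rw [h5.1, h5.2]
    have h4 := Finset.card_le_card hsub
    have h5 : ({(a0, b0), (b0, a0)} : Finset (V × V)).card ≤ 2 := Finset.card_le_two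
    omega
  obtain ⟨G', c', hWF', hcol', hfree', hpE, hmis', hcard, ck, cl', hpair⟩ := comp h1 hr hWF
    (fun i => by have := hsz i; omega) hkl heq hv.1 hv.2 hvT hvF hpq ha0 hb0 hFM0 hne1 hne2
  have hrad := hMX G' hfree' hcol' hpE
  have : Nonempty V := ⟨w⟩
  obtain ⟨x, hx⟩ := exists_PV G
  obtain ⟨y, hy⟩ := exists_PV G'
  -- the data of the two graphs
  have hCx : C0 r δF N G c H := by
    have h7 : δ * N ≤ δF * N := mul_le_mul_of_nonneg_right (by linarith only [hδ1, hδ0]) hNpos.le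
    exact ⟨hC0.card, hC0.ind, hC0.mis.trans h7, fun i => (hC0.bal i).trans h7, hC0.eo.trans h7⟩
  have h2δ : 2 * (δ * N) ≤ δF * N := by
    have : δ * N ≤ δF / 2 * N := mul_le_mul_of_nonneg_right hδ1 hNpos.le
    linarith only [this]
  have hCy : C0 r δF N G' c' H := by
    refine ⟨hC0.card, GF.ind hWF', ?_, ?_, ?_⟩
    · have h7 : (mis G' H c' : ℝ) ≤ mis G H c := by
        have : mis G' H c' ≤ mis G H c := by omega
        exact_mod_cast this
      have := hC0.mis
      have := mul_pos hδ0 hNpos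
      linarith
    · intro i
      have h7 := hcard i
      have h8 : sz H c' i ≤ sz H c i + 1 := by unfold sz; exact_mod_cast h7.1
      have h9 : sz H c i ≤ sz H c' i + 1 := by unfold sz; exact_mod_cast h7.2
      obtain ⟨h10, h11⟩ := abs_le.mp (hC0.bal i)
      rw [abs_le]
      constructor <;> linarith only [hrR, hrδ, h2δ, h9, h10, h8, h11]
    · rw [TRF.eo_dg, GF.eu0 hWF']
      have e1 : ∑ v ∈ out H, (dg G' H v : ℝ) = r := by
        rw [← GF.sum_dg hWF']
        push_cast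
        rfl
      rw [e1]
      have := mul_pos hδ0 hNpos
      push_cast
      linarith only [hrδ, h2δ]
  obtain ⟨xb, hFx, hfx, _⟩ := hF N hN1 V G x _ c H hCx hx
  obtain ⟨yb, hFy, hfy, _⟩ := hF N hN1 V G' y _ c' H hCy hy
  -- pairing
  have hP := pairing hx hy
  rw [hpair x y] at hP
  have hP2 : (specRad G' - specRad G) * ∑ v, x v * y v ≤ 0 := by
    apply mul_nonpos_of_nonpos_of_nonneg (by linarith only [hrad])
    exact Finset.sum_nonneg fun v _ => mul_nonneg (hx.nn v) (hy.nn v)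
  -- estimates
  have hxb := hFx.xb0
  have hyb := hFy.xb0
  have hal : al r = 1 - 1 / (r : ℝ) := rfl
  have s3 : sz H c k = sz H c l := by unfold sz; exact_mod_cast heq
  have x1 : -(e * xb) ≤ cs x H c k - cs x H c l := by
    have h7 := (abs_le.mp (hfx k l)).1
    rw [s3, sub_self, mul_zero, zero_mul, abs_zero] at h7
    linarith only [h7]
  have y1 : -(2 * al r * yb) - 3 * (e * yb) ≤ cs y H c' k - cs y H c' l := by
    have h7 := (abs_le.mp (hfy k l)).1
    have s1 : sz H c' k + 1 = sz H c k := by unfold sz; exact_mod_cast ck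
    have s2 : sz H c' l = sz H c l + 1 := by unfold sz; exact_mod_cast cl'
    have s4 : sz H c' k - sz H c' l = -2 := by linarith only [s3, s1, s2]
    rw [s4, abs_neg, abs_two] at h7
    linarith only [h7]
  have xv := abs_le.mp (hFx.xH v hv.1)
  have yv := abs_le.mp (hFy.xH v hv.1)
  have xp := abs_le.mp (hFx.xH p hpq.1)
  have yp := abs_le.mp (hFy.xH p hpq.1)
  have xq := abs_le.mp (hFx.xH q hpq.2.1)
  have yq := abs_le.mp (hFy.xH q hpq.2.1)
  have hexb : 0 < e * xb := mul_pos he0 hxb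
  have heyb : 0 < e * yb := mul_pos he0 hyb
  obtain ⟨P, hPdef⟩ : ∃ P, P = xb * yb := ⟨_, rfl⟩
  have hP0 : 0 < P := by rw [hPdef]; exact mul_pos hxb hyb
  have exb1 : e * xb ≤ 1 / 60 * xb := mul_le_mul_of_nonneg_right he1 hxb.le
  have eyb1 : e * yb ≤ 1 / 60 * yb := mul_le_mul_of_nonneg_right he1 hyb.le
  -- lower bounds of the four terms
  have t1 : (1 - 2 * e) * P ≤ x p * y q := by
    have h7 : (xb - e * xb) * (yb - e * yb) ≤ x p * y q :=
      mul_le_mul (by linarith only [xp]) (by linarith only [yq]) (by linarith only [heyb,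
          eyb1]) (by linarith only [xp, exb1])
    have h8 : (xb - e * xb) * (yb - e * yb) = (1 - 2 * e) * P + e * e * P := by rw [hPdef]; ring
    have h9 : 0 ≤ e * e * P := by positivity
    linarith only [h7, h8, h9]
  have t2 : (1 - 2 * e) * P ≤ x q * y p := by
    have h7 : (xb - e * xb) * (yb - e * yb) ≤ x q * y p :=
      mul_le_mul (by linarith only [xq]) (by linarith only [yp]) (by linarith only [heyb,
          eyb1]) (by linarith only [xq, exb1])
    have h8 : (xb - e * xb) * (yb - e * yb) = (1 - 2 * e) * P + e * e * P := by rw [hPdef]; ring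
    have h9 : 0 ≤ e * e * P := by positivity
    linarith only [h7, h8, h9]
  have hr1 : 0 < 1 / (r : ℝ) := by positivity
  have hr2 : 1 / (r : ℝ) ≤ 1 / 3 := one_div_le_one_div_of_le (by norm_num) hrR
  have hxv0 : 0 ≤ x v := hx.nn v
  have hyv0 : 0 ≤ y v := hy.nn v
  have t3 : -((1 - 2 / r + 6 * e) * P) ≤ x v * (cs y H c' k - cs y H c' l + y v) := by
    have h7 : -((1 - 2 / r + 4 * e) * yb) ≤ cs y H c' k - cs y H c' l + y v := by
      rw [hal] at y1
      have e5 : (2 : ℝ) / r = 2 * (1 / r) := by ring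
      rw [e5]
      linarith only [y1, yv]
    have h8 : x v * -((1 - 2 / r + 4 * e) * yb) ≤ x v * (cs y H c' k - cs y H c' l + y v) :=
      mul_le_mul_of_nonneg_left h7 hxv0
    have e5 : (2 : ℝ) / r = 2 * (1 / r) := by ring
    have h10 : 0 ≤ (1 - 2 / r + 4 * e) * yb := by
      rw [e5]
      exact mul_nonneg (by linarith only [hδFe, hδ1, hδ0, hr2]) hyb.le
    have h9 : x v * ((1 - 2 / r + 4 * e) * yb) ≤ (xb + e * xb) * ((1 - 2 / r + 4 * e) * yb) :=
      mul_le_mul_of_nonneg_right (by linarith only [xv]) h10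
    have h11 : (xb + e * xb) * ((1 - 2 / r + 4 * e) * yb) =
        (1 - 2 / r + 4 * e) * P + e * ((1 - 2 / r + 4 * e) * P) := by rw [hPdef]; ring
    have h12 : (1 - 2 / r + 4 * e) * P ≤ 2 * P := by
      rw [e5]
      exact mul_le_mul_of_nonneg_right (by linarith only [he1, hr1]) hP0.le
    have h13 : e * ((1 - 2 / r + 4 * e) * P) ≤ e * (2 * P) :=
      mul_le_mul_of_nonneg_left h12 he0.le
    linarith only [h8, h9, h11, h13]
  have t4 : -((1 + 4 * e) * P) ≤ y v * (cs x H c k - x v - cs x H c l) := by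
    have h7 : -((1 + 2 * e) * xb) ≤ cs x H c k - x v - cs x H c l := by linarith only [x1, xv]
    have h8 : y v * -((1 + 2 * e) * xb) ≤ y v * (cs x H c k - x v - cs x H c l) :=
      mul_le_mul_of_nonneg_left h7 hyv0
    have h10 : 0 ≤ (1 + 2 * e) * xb := mul_nonneg (by linarith only [hδFe, hδ1, hδ0]) hxb.le
    have h9 : y v * ((1 + 2 * e) * xb) ≤ (yb + e * yb) * ((1 + 2 * e) * xb) :=
      mul_le_mul_of_nonneg_right (by linarith only [yv]) h10
    have h11 : (yb + e * yb) * ((1 + 2 * e) * xb) = (1 + 3 * e) * P + e * (2 * e * P) := by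
      rw [hPdef]; ring
    have h12 : 2 * e * P ≤ 1 * P := mul_le_mul_of_nonneg_right (by linarith only [he1]) hP0.le
    have h13 : e * (2 * e * P) ≤ e * (1 * P) := mul_le_mul_of_nonneg_left h12 he0.le
    linarith only [h8, h9, h11, h13]
  have h14 : (2 / (r : ℝ) - 14 * e) * P ≤ 0 := by linarith only [hP, hP2, t1, t2, t3, t4]
  have h15 : 0 < (2 / (r : ℝ) - 14 * e) * P := by
    apply mul_pos _ hP0
    have e5 : (2 : ℝ) / r = 2 * (1 / r) := by ring
    have e6 : e = 1 / 20 * (1 / r) := by rw [he]; field_simp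
    rw [e5, e6]
    linarith only [hr1]
  linarith only [h14, h15]

end Pool.Agent.Work.MP_5532fa_up

end

section

/-!
# MP_5532fa_co, upgrade, fourth round, block TOPG: the missing edge joins two largest classes
-/

open Finset

namespace Pool.Agent.Work.MP_5532fa_up

open MP5532fa (specRad qf pE)

namespace TOPG

/-- all the classes of `A` have one element if `A` has `r` elements -/
theorem card_one {V : Type} {r N : ℕ} {G : SimpleGraph V} {H : Finset V}
    {c : V → Fin r} {w : V} {A : Finset V} {v1 v2 : V} (hW : WD G N H c w A v1 v2)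
    (hA : A.card = r) (i : Fin r) : (cl A c i).card = 1 := by
  have h1 : ∑ i, (cl A c i).card = ∑ _i : Fin r, 1 := by
    rw [sum_card_cl, hA]; simp
  have h2 := (Finset.sum_eq_sum_iff_of_le (s := univ) (f := fun _ : Fin r => 1)
    (g := fun i => (cl A c i).card) (fun i _ => Finset.card_pos.mpr (hW.hne i))).mp h1.symm
  exact (h2 i (Finset.mem_univ i)).symm

/-- the difference of the class sums -/
theorem cs_pos {r : ℕ} (hr : 3 ≤ r) {a b s t xb : ℝ} (hxb : 0 < xb)
    (h : |a - b - al r * (s - t) * xb| ≤ 1 / 12 * xb * (|s - t| + 1)) (hst : 1 ≤ s - t) :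
    0 < a - b := by
  have h1 := (abs_le.mp h).1
  rw [abs_of_pos (by linarith : 0 < s - t)] at h1
  have h2 : 2 / 3 * ((s - t) * xb) ≤ al r * ((s - t) * xb) :=
    mul_le_mul_of_nonneg_right (al_ge hr) (mul_nonneg (by linarith) hxb.le)
  have h3 : xb ≤ (s - t) * xb := by
    have := mul_le_mul_of_nonneg_right hst hxb.le
    linarith
  have e1 : al r * (s - t) * xb = al r * ((s - t) * xb) := by ring
  have e2 : 1 / 12 * xb * (s - t + 1) = 1 / 12 * ((s - t) * xb) + 1 / 12 * xb := by ring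
  rw [e1, e2] at h1
  linarith

/-- the conclusion of `FLAT` for `e = 1/12` -/
def FlatC (r : ℕ) (δ : ℝ) (N : ℕ) : Prop := ∀ (V : Type) [Fintype V] (G : SimpleGraph V)
    (x : V → ℝ) (lam : ℝ) (c : V → Fin r) (H : Finset V), C0 r δ N G c H → PV G x lam →
    ∃ xb : ℝ, Fl r (1 / 12) N H x lam xb ∧
      (∀ i k, |cs x H c i - cs x H c k - al r * (sz H c i - sz H c k) * xb|
        ≤ 1 / 12 * xb * (|sz H c i - sz H c k| + 1))

theorem core {V : Type} [Fintype V] {r N : ℕ} {δ : ℝ} {G : SimpleGraph V} {H : Finset V}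
    {c : V → Fin r} {w : V} {A : Finset V} {v1 v2 : V} (hr : 3 ≤ r) (hGD : Stmt_GD)
    (hδ0 : 0 < δ) (hE : FlatC r (2 * δ) N) (hW : WD G N H c w A v1 v2) (hC : C0 r δ N G c H)
    (hmx : MX r G) (hAr : A.card = r) (l : Fin r) (hl1 : l ≠ c v1) (hl2 : l ≠ c v2)
    (hnl : (cl H c (c v1)).card < (cl H c l).card) (hsize : ∀ i, 2 ≤ (cl H c i).card)
    (hN0 : 0 < N) : False := by
  classical
  have hNR : (0 : ℝ) < N := by exact_mod_cast hN0
  obtain ⟨hv1H, hv2H, hv12, hprs⟩ := SM1b.wd_pair hW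
  have hv1A : v1 ∈ A := by
    have : v1 ∈ cl A c (c v1) := by rw [hW.h1]; exact Finset.mem_singleton_self _
    exact (mem_cl.mp this).1
  have hV : Nonempty V := ⟨v1⟩
  obtain ⟨u1, hu1⟩ := Finset.card_eq_one.mp (card_one hW hAr l)
  have hu1m : u1 ∈ cl A c l := by rw [hu1]; exact Finset.mem_singleton_self _
  obtain ⟨hu1A, hu1l⟩ := mem_cl.mp hu1m
  have h12' : c u1 ≠ c v2 := by rw [hu1l]; exact hl2
  have hclu1 : cl A c (c u1) = {u1} := by rw [hu1l]; exact hu1
  obtain ⟨G', hG'def⟩ : ∃ G' : SimpleGraph V, G' = gD H c w A u1 v2 := ⟨_, rfl⟩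
  have hW' : WD G' N H c w A u1 v2 := by
    rw [hG'def]
    exact gD_WD hW.card hW.hw hW.hA h12' hclu1 hW.h2 hW.hne
  -- facts on the two graphs
  have hg := hGD r hr V G N H c w A v1 v2 hW
  have hg' := hGD r hr V G' N H c w A u1 v2 hW'
  have hpE : pE G' = pE G := by rw [hg'.2.2, hg.2.2]
  have hle : specRad G' ≤ specRad G := hmx G' hg'.1 (hg'.2.1 hsize) hpE
  obtain ⟨hu1H, -, hu12, hprs'⟩ := SM1b.wd_pair hW'
  have hmis : mis G H c = 2 := by
    have : (mis G H c : ℝ) = 2 := by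
      rw [SM1b.mis_mH, SM1b.mH_pair hv1H hv2H hv12 hprs]; norm_num
    exact_mod_cast this
  have hmis' : mis G' H c = 2 := by
    have : (mis G' H c : ℝ) = 2 := by
      rw [SM1b.mis_mH, SM1b.mH_pair hu1H hv2H hu12 hprs']; norm_num
    exact_mod_cast this
  have hind' : ∀ u ∈ H, ∀ v ∈ H, c u = c v → ¬ G'.Adj u v := by
    intro u hu v hv huv hadj
    rcases (hW'.adj u v).mp hadj with h | h | h
    · exact h.2.2.1 huv
    · exact hW.hw (h.1 ▸ hu)
    · exact hW.hw (h.1 ▸ hv)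
  have hC' : C0 r (2 * δ) N G' c H :=
    blk_TRF blk_EID r δ N V G G' c H hC hind' hpE (by rw [hmis, hmis'])
  have hC2 : C0 r (2 * δ) N G c H := hC.mono (by linarith)
  obtain ⟨x, hx⟩ := exists_PV G
  obtain ⟨y, hy⟩ := exists_PV G'
  have hF := (blk_FAM r hr V G N H c w A).1 v1 v2 hW
  have hF' := (blk_FAM r hr V G' N H c w A).1 u1 v2 hW'
  obtain ⟨xb, hxb, hdx⟩ := hE V G x _ c H hC2 hx
  obtain ⟨yb, hyb, hdy⟩ := hE V G' y _ c H hC' hy
  obtain ⟨cx, -, -, -⟩ := blk_CSE r V G H c w A _ x _ hF hx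
  obtain ⟨cy, -, -, -⟩ := blk_CSE r V G' H c w A _ y _ hF' hy
  generalize hlamdef : specRad G = lam at *
  generalize hlamdef' : specRad G' = lam' at *
  have hal3 := al_ge hr
  have hl'pos : 0 < lam' := by
    have h1 := (abs_le.mp hyb.lamN).1
    have h2 : 2 / 3 * (N : ℝ) ≤ al r * N := mul_le_mul_of_nonneg_right hal3 hNR.le
    linarith
  have hdsz : 1 ≤ sz H c l - sz H c (c v1) := by
    unfold sz
    have : ((cl H c (c v1)).card : ℝ) + 1 ≤ (cl H c l).card := by exact_mod_cast hnl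
    linarith
  have hD : 0 < cs x H c l - cs x H c (c v1) := cs_pos hr hxb.xb0 (hdx l (c v1)) hdsz
  have hD' : 0 < cs y H c l - cs y H c (c v1) := cs_pos hr hyb.xb0 (hdy l (c v1)) hdsz
  have nu1 : u1 ≠ v1 := fun h => hl1 (by rw [← hu1l, h])
  have nu2 : u1 ≠ v2 := fun h => hl2 (by rw [← hu1l, h])
  have ex1 : lam * x v1 = ∑ u ∈ H, x u - cs x H c (c v1) + x w - x v2 := by
    rw [cx v1 hv1H, D3.JD_sum, chi_pos hv1A, chi_pos rfl, chi_neg hv12]; ring
  have exu : lam * x u1 = ∑ u ∈ H, x u - cs x H c l + x w := by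
    rw [cx u1 hu1H, D3.JD_sum, chi_pos hu1A, chi_neg nu1, chi_neg nu2, hu1l]; ring
  have ey1 : lam' * y v1 = ∑ u ∈ H, y u - cs y H c (c v1) + y w := by
    rw [cy v1 hv1H, D3.JD_sum, chi_pos hv1A, chi_neg nu1.symm, chi_neg hv12]; ring
  have eyu : lam' * y u1 = ∑ u ∈ H, y u - cs y H c l + y w - y v2 := by
    rw [cy u1 hu1H, D3.JD_sum, chi_pos hu1A, chi_pos rfl, chi_neg nu2, hu1l]; ring
  -- the pairing
  have hpair := pairing hx hy
  rw [D3.pair_diff hF hF'] at hpair
  refine D3.final_ineq (lam := lam) (lam' := lam') (P := ∑ v, x v * y v)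
    (T := x w * (∑ b ∈ A, y b - ∑ b ∈ A, y b) + y w * (∑ b ∈ A, x b - ∑ b ∈ A, x b)
      + (x v1 * y v2 + x v2 * y v1) - (x u1 * y v2 + x v2 * y u1))
    (x2 := x v2) (y2 := y v2) (xw := x w) (yw := y w) (D := cs x H c l - cs x H c (c v1))
    (D' := cs y H c l - cs y H c (c v1)) (b := 0) (p1 := x v1 - x u1) (q1 := y v1 - y u1)
    (p2 := 0) (q2 := 0)
    hle hl'pos (Finset.sum_nonneg fun v _ => mul_nonneg (hx.nn v) (hy.nn v)) hpair ?_ ?_
    (hx.nn w) (hy.nn w) hD hD' le_rfl ?_ ?_ ?_ ?_ ?_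
  · have h1 := (abs_le.mp (hxb.xH v2 hv2H)).1
    have h2 := hxb.xb0
    linarith
  · have h1 := (abs_le.mp (hyb.xH v2 hv2H)).1
    have h2 := hyb.xb0
    linarith
  · rw [mul_sub, ex1, exu]; ring
  · rw [mul_sub, ey1, eyu]; ring
  · ring
  · ring
  · ring

end TOPG

/-- **TOPG** -/
theorem blk_TOPG (h1 : Stmt_GD) (h2 : Stmt_FLAT) : Stmt_TOPG := by
  intro r hr
  obtain ⟨K, -, hK⟩ := h2 r hr
  obtain ⟨δ1, N1, hδ1, -, hE⟩ := hK (1 / 12) (by norm_num)
  have hr3 : (3 : ℝ) ≤ r := by exact_mod_cast hr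
  have hr0 : (0 : ℝ) < r := by linarith
  have hb : (0 : ℝ) < 1 / (2 * r) := by positivity
  refine ⟨min (δ1 / 2) (1 / (2 * r)), max N1 (4 * r), lt_min (by linarith) hb, ?_⟩
  intro N hN V _ G c H w A v1 v2 hC hmx hW hAr
  have hNN1 : N1 ≤ N := (le_max_left _ _).trans hN
  have hNN3 : 4 * r ≤ N := (le_max_right _ _).trans hN
  have hNc : 4 * (r : ℝ) ≤ N := by exact_mod_cast hNN3
  have hNR : (0 : ℝ) < N := by linarith
  have hC1 : C0 r (δ1 / 2) N G c H := hC.mono (min_le_left _ _)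
  have hE' : TOPG.FlatC r (2 * (δ1 / 2)) N := by
    intro V' _ G' x lam c' H' hC' hx
    obtain ⟨xb, e1, e2, -⟩ := hE N hNN1 V' G' x lam c' H' (hC'.mono (by linarith)) hx
    exact ⟨xb, e1, e2⟩
  have hsize : ∀ i, 2 ≤ (cl H c i).card := by
    intro i
    have h1 := (abs_le.mp (hC.bal i)).1
    have h2 : min (δ1 / 2) (1 / (2 * (r : ℝ))) * N ≤ 1 / (2 * r) * N :=
      mul_le_mul_of_nonneg_right (min_le_right _ _) hNR.le
    have h3 : (N : ℝ) / r = 2 * (1 / (2 * r) * N) := by field_simp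
    have h4 : 2 ≤ 1 / (2 * (r : ℝ)) * N := by
      rw [one_div, inv_mul_eq_div, le_div_iff₀ (by positivity)]
      linarith
    have h5 : (2 : ℝ) ≤ sz H c i := by linarith
    unfold sz at h5
    exact_mod_cast h5
  have hN0 : 0 < N := by exact_mod_cast hNR
  intro i k hi hk
  by_contra hcon
  push Not at hcon
  simp only [Finset.mem_insert, Finset.mem_singleton, not_or] at hi hk
  rcases hi with rfl | rfl
  · exact TOPG.core hr h1 (by linarith) hE' hW hC1 hmx hAr k hk.1 hk.2 hcon hsize hN0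
  · exact TOPG.core hr h1 (by linarith) hE' (D3.wd_symm hW) hC1 hmx hAr k hk.2 hk.1 hcon hsize
      hN0

end Pool.Agent.Work.MP_5532fa_up

end
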