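import Mathlib
import Pool.Agent.Work.MP_5532fa_full.P30

section

/-!
# MP_5532fa_co, upgrade: block THRDB (type E is not optimal, range up to a little more
than one minus two over r)
-/

open Finset

namespace Pool.Agent.Work.MP_5532fa_up

open MP5532fa (specRad qf pE)

namespace THRDB

open E3 THRD

theorem jle {r N j : ℕ} (hr : (3 : ℝ) ≤ r) (hal : 2 / 3 ≤ al r) (hN : (0 : ℝ) ≤ N)
    (h : RgV r N j) : (j : ℝ) ≤ al r * N := by
  have hrp : (0 : ℝ) < r := by linarith
  have hX : (1 : ℝ) - 2 / r + 1 / (4 * r ^ 2) ≤ 1 := by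
    have h1 : (1 : ℝ) / (4 * r ^ 2) ≤ 2 / r := by
      rw [div_le_div_iff₀ (by positivity) hrp]
      nlinarith
    linarith
  have h0 : 0 ≤ al r * N := mul_nonneg (by linarith) hN
  exact h.trans (mul_le_of_le_one_left h0 hX)

theorem room {r N j : ℕ} (hr : (3 : ℝ) ≤ r) (hN : 4 * (r : ℝ) ≤ N) (h : RgV r N j) :
    (j : ℝ) + 1 ≤ (1 - 2 / (r : ℝ)) * N := by
  have hrp : (0 : ℝ) < r := by linarith
  have hNp : (0 : ℝ) < N := by linarith
  have h1 : (1 - 2 / (r : ℝ) + 1 / (4 * r ^ 2)) * (al r * N) + 1 / (4 * r) * N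
      ≤ (1 - 2 / (r : ℝ)) * N := by
    have h2 : (1 - 2 / (r : ℝ)) * N - ((1 - 2 / (r : ℝ) + 1 / (4 * r ^ 2)) * (al r * N)
        + 1 / (4 * r) * N) = N * (3 * r ^ 2 - 9 * r + 1) / (4 * r ^ 3) := by
      unfold al; field_simp; ring
    have h3 : 0 ≤ N * (3 * (r : ℝ) ^ 2 - 9 * r + 1) / (4 * r ^ 3) := by
      have : 0 ≤ 3 * (r : ℝ) ^ 2 - 9 * r + 1 := by nlinarith
      positivity
    linarith
  have h4 : (1 : ℝ) ≤ 1 / (4 * r) * N := by
    rw [div_mul_eq_mul_div, one_mul, le_div_iff₀ (by positivity)]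
    linarith
  unfold RgV at h
  linarith

section
variable {V : Type} [Fintype V] {r : ℕ}

theorem build {N j : ℕ} {G : SimpleGraph V} {H A B : Finset V} {c : V → Fin r}
    {w u : V} {i0 : Fin r} (hr : 3 ≤ r)
    (hN2 : 4 * (r : ℝ) ≤ N) (hRg : RgV r N j) (hW : WE G N H c w u A B i0)
    (hAj : A.card + r = j) (hBal : Bal H c) (hPl : Place H A c {i0}) :
    ∃ (j0 : Fin r) (v1 v2 : V) (F1 F2 A' A0 : Finset V), j0 ≠ i0 ∧ c v1 = i0 ∧ c v2 = j0 ∧
      v1 ∈ H ∧ v2 ∈ H ∧ WD (gD H c w A' v1 v2) N H c w A' v1 v2 ∧ A'.card = A.card + r + 1 ∧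
      F2.card = r ∧ F1.card + 1 = (cl A c j0).card ∧ F1 ⊆ A' ∧ F2 ⊆ H ∧
      (∀ b ∈ F1, b ∈ H ∧ b ∉ A ∧ c b ≠ i0 ∧ c b ≠ j0 ∧
        (cl H c (c b)).card = (cl H c j0).card ∧ (cl A c (c b)).card ≤ (cl A c j0).card + 1 ∧
        (cl A' c (c b)).card ≤ 2 * (cl A c j0).card + r) ∧
      (∀ f : V → ℝ, ∑ v ∈ A', f v - ∑ v ∈ A, f v = f v1 + ∑ v ∈ F2, f v +
        (∑ v ∈ F1, f v - ∑ v ∈ A0, f v)) ∧
      A0 ⊆ cl A c j0 ∧ v2 ∉ A0 ∧ A0.card + 1 = (cl A c j0).card ∧
      (r - 1) * (cl A c j0).card ≤ j := by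
  classical
  have hr3 : (3 : ℝ) ≤ r := by exact_mod_cast hr
  have hrp : (0 : ℝ) < r := by linarith
  have hNp : (0 : ℝ) < N := by linarith
  obtain ⟨j0, hj0, hmax, hmin⟩ := choose_class hr (fun l => (cl H c l).card)
    (fun l => (cl A c l).card) i0
  have hnear := bal_near hr hW.card hBal
  have hi0ne : (cl H c i0).Nonempty := by
    rw [← Finset.card_pos]
    have h1 := (abs_le.1 (hnear i0)).1
    have h2 : (4 : ℝ) ≤ N / r := by rw [le_div_iff₀ hrp]; exact hN2
    have h3 : (0 : ℝ) < sz H c i0 := by linarith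
    unfold sz at h3
    exact_mod_cast h3
  obtain ⟨v1, hv1⟩ := hi0ne
  obtain ⟨v2, hv2⟩ := hW.hAne j0 hj0
  obtain ⟨hv1H, hv1c⟩ := mem_cl.1 hv1
  obtain ⟨hv2A, hv2c⟩ := mem_cl.1 hv2
  have hAi : ∀ v, c v = i0 → v ∉ A := by
    intro v hc hv
    have : v ∈ cl A c i0 := mem_cl.2 ⟨hv, hc⟩
    rw [hW.hA0] at this
    exact absurd this (Finset.notMem_empty v)
  set a := (cl A c j0).card with ha
  have ha1 : 1 ≤ a := Finset.card_pos.2 ⟨v2, hv2⟩
  -- all classes have at least a - 1 elements of A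
  have haall : ∀ l, l ≠ i0 → a - 1 ≤ (cl A c l).card := by
    intro l hl
    rcases Nat.lt_or_ge (cl H c l).card (cl H c j0).card with h | h
    · have h1 := (hPl l j0 (by simpa using hl) (by simpa using hj0)).2 h
      have h2 := hBal j0 l
      have h3 : a ≤ (cl H c j0).card := Finset.card_le_card fun v hv =>
        mem_cl.2 ⟨hW.hA (mem_cl.1 hv).1, (mem_cl.1 hv).2⟩
      rcases h1 with h1 | h1 <;> omega
    · have h1 : (cl H c l).card = (cl H c j0).card := le_antisymm (hmax l hl) h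
      have := hmin l hl h1
      omega
  have hcb := card_bound hW.hA0 haall
  have hraj : (r - 1) * a ≤ j := by
    have h1 : (r - 1) * a = (r - 1) * (a - 1) + (r - 1) := by
      obtain ⟨b, hb⟩ : ∃ b, a = b + 1 := ⟨a - 1, by omega⟩
      rw [hb]; simp [mul_add]
    omega
  -- the set of the vertices which may be added
  set R := H.filter (fun v => v ∉ A ∧ c v ≠ i0 ∧ c v ≠ j0) with hR
  have hRc : N + a ≤ R.card + A.card + (cl H c i0).card + (cl H c j0).card := by
    have h1 : H ⊆ ((R ∪ (A \ cl A c j0)) ∪ cl H c i0) ∪ cl H c j0 := by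
      intro v hv
      simp only [Finset.mem_union, Finset.mem_sdiff, mem_cl, hR, Finset.mem_filter]
      by_cases h1 : c v = i0
      · exact Or.inl (Or.inr ⟨hv, h1⟩)
      by_cases h2 : c v = j0
      · exact Or.inr ⟨hv, h2⟩
      by_cases h3 : v ∈ A
      · exact Or.inl (Or.inl (Or.inr ⟨h3, fun h => h2 h.2⟩))
      · exact Or.inl (Or.inl (Or.inl ⟨hv, h3, h1, h2⟩))
    have h2 := Finset.card_le_card h1
    have h3 := Finset.card_union_le ((R ∪ (A \ cl A c j0)) ∪ cl H c i0) (cl H c j0)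
    have h4 := Finset.card_union_le (R ∪ (A \ cl A c j0)) (cl H c i0)
    have h5 := Finset.card_union_le R (A \ cl A c j0)
    have hsub : cl A c j0 ⊆ A := fun v hv => (mem_cl.1 hv).1
    have h6 := Finset.card_sdiff_add_card_eq_card hsub
    rw [hW.card] at h2
    omega
  have hRbig : a - 1 + r ≤ R.card := by
    have h1 : ((N : ℝ) + a) ≤ R.card + A.card + sz H c i0 + sz H c j0 := by
      unfold sz; exact_mod_cast hRc
    have h2 := (abs_le.1 (hnear i0)).2
    have h3 := (abs_le.1 (hnear j0)).2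
    have h4 : (A.card : ℝ) + r = j := by exact_mod_cast hAj
    have h5 : (j : ℝ) + 1 ≤ (1 - 2 / (r : ℝ)) * N := room hr3 hN2 hRg
    have h9 : (1 - 2 / (r : ℝ)) * N = N - 2 * (N / r) := by field_simp
    have h10 : (a : ℝ) - 1 + r ≤ R.card := by linarith
    have h11 : ((a - 1 + r : ℕ) : ℝ) ≤ R.card := by
      rw [Nat.cast_add, Nat.cast_sub ha1]
      push_cast
      exact h10
    exact_mod_cast h11
  obtain ⟨F, hFR, hFc⟩ := Finset.exists_subset_card_eq hRbig
  obtain ⟨F1, hF1F, hF1c⟩ := Finset.exists_subset_card_eq (s := F) (n := a - 1) (by omega)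
  have hFm : ∀ v ∈ F, v ∈ H ∧ v ∉ A ∧ c v ≠ i0 ∧ c v ≠ j0 := fun v hv =>
    Finset.mem_filter.1 (hFR hv)
  have hv12 : v1 ≠ v2 := by
    intro h
    rw [h, hv2c] at hv1c
    exact hj0 hv1c
  have hdis : Disjoint (A.filter (fun v => c v ≠ j0)) F := by
    rw [Finset.disjoint_left]
    intro v hv hv'
    exact (hFm v hv').2.1 (Finset.mem_filter.1 hv).1
  have hv2n : v2 ∉ A.filter (fun v => c v ≠ j0) ∪ F := by
    intro h
    rcases Finset.mem_union.1 h with h | h
    · exact (Finset.mem_filter.1 h).2 hv2c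
    · exact (hFm v2 h).2.1 hv2A
  have hv1n : v1 ∉ insert v2 (A.filter (fun v => c v ≠ j0) ∪ F) := by
    intro h
    rcases Finset.mem_insert.1 h with h | h
    · exact hv12 h
    rcases Finset.mem_union.1 h with h | h
    · exact hAi v1 hv1c (Finset.mem_filter.1 h).1
    · exact (hFm v1 h).2.2.1 hv1c
  set A' := insert v1 (insert v2 (A.filter (fun v => c v ≠ j0) ∪ F)) with hA'
  have hm : ∀ v, v ∈ A' ↔ v = v1 ∨ v = v2 ∨ (v ∈ A ∧ c v ≠ j0) ∨ v ∈ F := by
    intro v
    rw [hA', Finset.mem_insert, Finset.mem_insert, Finset.mem_union, Finset.mem_filter]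
  have hcardA : (A.filter (fun v => c v ≠ j0)).card + a = A.card := by
    have h : (A.filter (fun v => c v = j0)).card + (A.filter (fun v => c v ≠ j0)).card = A.card :=
      Finset.card_filter_add_card_filter_not (s := A) (fun v => c v = j0)
    rw [ha]; unfold cl
    omega
  have hA'c : A'.card = A.card + r + 1 := by
    rw [hA', Finset.card_insert_of_notMem hv1n, Finset.card_insert_of_notMem hv2n,
      Finset.card_union_of_disjoint hdis, hFc]
    omega
  have hclA' : ∀ l, l ≠ i0 → l ≠ j0 → cl A c l ⊆ cl A' c l ∧ cl A' c l ⊆ cl A c l ∪ F := by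
    intro l hl1 hl2
    refine ⟨fun v hv => ?_, fun v hv => ?_⟩
    · obtain ⟨h1, h2⟩ := mem_cl.1 hv
      exact mem_cl.2 ⟨(hm v).2 (Or.inr (Or.inr (Or.inl ⟨h1, fun h => hl2 (h2.symm.trans h)⟩))), h2⟩
    · obtain ⟨h1, h2⟩ := mem_cl.1 hv
      rcases (hm v).1 h1 with h | h | h | h
      · rw [h] at h2; exact absurd (h2.symm.trans hv1c) hl1
      · rw [h] at h2; exact absurd (h2.symm.trans hv2c) hl2
      · exact Finset.mem_union_left _ (mem_cl.2 ⟨h.1, h2⟩)
      · exact Finset.mem_union_right _ h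
  have hWD : WD (gD H c w A' v1 v2) N H c w A' v1 v2 := by
    refine gD_WD hW.card hW.hw ?_ ?_ ?_ ?_ ?_
    · intro v hv
      rcases (hm v).1 hv with h | h | h | h
      · rw [h]; exact hv1H
      · rw [h]; exact hW.hA hv2A
      · exact hW.hA h.1
      · exact (hFm v h).1
    · rw [hv1c, hv2c]; exact hj0.symm
    · ext v
      rw [mem_cl, Finset.mem_singleton, hm, hv1c]
      constructor
      · rintro ⟨h | h | h | h, hc⟩
        · exact h
        · rw [h, hv2c] at hc; exact absurd hc hj0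
        · exact absurd h.1 (hAi v hc)
        · exact absurd hc (hFm v h).2.2.1
      · intro h; exact ⟨Or.inl h, h ▸ hv1c⟩
    · ext v
      rw [mem_cl, Finset.mem_singleton, hm, hv2c]
      constructor
      · rintro ⟨h | h | h | h, hc⟩
        · rw [h, hv1c] at hc; exact absurd hc.symm hj0
        · exact h
        · exact absurd hc h.2
        · exact absurd hc (hFm v h).2.2.2
      · intro h; exact ⟨Or.inr (Or.inl h), h ▸ hv2c⟩
    · intro l
      by_cases h1 : l = i0
      · exact ⟨v1, mem_cl.2 ⟨(hm v1).2 (Or.inl rfl), hv1c.trans h1.symm⟩⟩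
      by_cases h2 : l = j0
      · exact ⟨v2, mem_cl.2 ⟨(hm v2).2 (Or.inr (Or.inl rfl)), hv2c.trans h2.symm⟩⟩
      exact (hW.hAne l h1).mono (hclA' l h1 h2).1
  refine ⟨j0, v1, v2, F1, F \ F1, A', (cl A c j0).erase v2, hj0, hv1c, hv2c, hv1H, hW.hA hv2A,
    hWD, hA'c, ?_, ?_, ?_, ?_, ?_, ?_, Finset.erase_subset _ _, Finset.notMem_erase _ _,
    Finset.card_erase_add_one hv2, hraj⟩
  · rw [Finset.card_sdiff_of_subset hF1F, hFc, hF1c]; omega
  · rw [hF1c]; omega
  · intro v hv; exact (hm v).2 (Or.inr (Or.inr (Or.inr (hF1F hv))))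
  · intro v hv; exact (hFm v (Finset.mem_sdiff.1 hv).1).1
  · intro b hb
    obtain ⟨h1, h2, h3, h4⟩ := hFm b (hF1F hb)
    have h5 : (cl A c (c b)).card < (cl H c (c b)).card := by
      refine Finset.card_lt_card ?_
      rw [Finset.ssubset_iff_of_subset fun v hv =>
        mem_cl.2 ⟨hW.hA (mem_cl.1 hv).1, (mem_cl.1 hv).2⟩]
      exact ⟨b, mem_cl.2 ⟨h1, rfl⟩, fun h => h2 (mem_cl.1 h).1⟩
    have h6 : 1 ≤ F1.card := Finset.card_pos.2 ⟨b, hb⟩
    have h7 : (cl H c (c b)).card = (cl H c j0).card := by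
      refine le_antisymm (hmax (c b) h3) ?_
      by_contra hlt
      push Not at hlt
      rcases (hPl (c b) j0 (by simpa using h3) (by simpa using hj0)).2 hlt with h | h <;> omega
    have h8 := (hPl (c b) j0 (by simpa using h3) (by simpa using hj0)).1 h7
    refine ⟨h1, h2, h3, h4, h7, h8, ?_⟩
    have h9 := Finset.card_le_card (hclA' (c b) h3 h4).2
    have h10 := Finset.card_union_le (cl A c (c b)) F
    omega
  · intro f
    rw [hA', Finset.sum_insert hv1n, Finset.sum_insert hv2n, Finset.sum_union hdis]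
    have h1 : ∑ v ∈ A.filter (fun v => c v ≠ j0), f v
        = ∑ v ∈ A, f v - ∑ v ∈ cl A c j0, f v := by
      have h := Finset.sum_filter_add_sum_filter_not A (fun v => c v = j0) f
      unfold cl
      rw [← h]; ring
    have h2 : ∑ v ∈ cl A c j0, f v = f v2 + ∑ v ∈ (cl A c j0).erase v2, f v :=
      (Finset.add_sum_erase _ f hv2).symm
    have h3 : ∑ v ∈ F, f v = ∑ v ∈ F \ F1, f v + ∑ v ∈ F1, f v :=
      (Finset.sum_sdiff hF1F).symm
    rw [h1, h2, h3]; ring

end

end THRDB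

open E3 THRD in
theorem blk_THRDB (hGD : Stmt_GD) (hGE : Stmt_GE) (hFAM : Stmt_FAM) (hCSE : Stmt_CSE)
    (hEST : Stmt_ESTU) : Stmt_THRDB := by
  classical
  intro r ε hr hε
  have hr3 : (3 : ℝ) ≤ r := by exact_mod_cast hr
  have hrp : (0 : ℝ) < r := by linarith
  obtain ⟨e, he0, he1, he2⟩ : ∃ e : ℝ, 0 < e ∧ e ≤ 1 / 12 ∧ e ≤ ε / (16 * r) :=
    ⟨min (1 / 12) (ε / (16 * r)), lt_min (by norm_num) (by positivity), min_le_left _ _,
      min_le_right _ _⟩
  obtain ⟨δ0, N0, hδ0, hest⟩ := hEST r e hr he0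
  refine ⟨max N0 (max ⌈4 * r / ε⌉₊ (max (4 * r) (max ⌈((r : ℝ) + 1) / e⌉₊ ⌈(r : ℝ) / δ0⌉₊))), ?_⟩
  intro N hN j hRg hX V _ G hTE hMX
  obtain ⟨H, c, w, u, A, B, i0, hW, hOne, hAj, hBal, hPl, hTop⟩ := hTE
  have hNN0 : N0 ≤ N := (le_max_left _ _).trans hN
  have hN' := (le_max_right _ _).trans hN
  have hN1 : 4 * r / ε ≤ (N : ℝ) := by
    have h1 : ⌈4 * r / ε⌉₊ ≤ N := (le_max_left _ _).trans hN'
    exact (Nat.le_ceil _).trans (by exact_mod_cast h1)
  have hN'' := (le_max_right _ _).trans hN'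
  have hN2 : 4 * (r : ℝ) ≤ N := by
    have h1 : 4 * r ≤ N := (le_max_left _ _).trans hN''
    exact_mod_cast h1
  have hN''' := (le_max_right _ _).trans hN''
  have hN3 : ((r : ℝ) + 1) / e ≤ N := by
    have h1 : ⌈((r : ℝ) + 1) / e⌉₊ ≤ N := (le_max_left _ _).trans hN'''
    exact (Nat.le_ceil _).trans (by exact_mod_cast h1)
  have hN4 : (r : ℝ) / δ0 ≤ N := by
    have h1 : ⌈(r : ℝ) / δ0⌉₊ ≤ N := (le_max_right _ _).trans hN'''
    exact (Nat.le_ceil _).trans (by exact_mod_cast h1)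
  have hNp : (0 : ℝ) < N := by linarith only [hN2, hrp]
  have hrδ : (r : ℝ) ≤ δ0 * N := by rw [div_le_iff₀ hδ0] at hN4; linarith only [hN4]
  have hre : (r : ℝ) + 1 ≤ e * N := by rw [div_le_iff₀ he0] at hN3; linarith only [hN3]
  obtain ⟨j0, v1, v2, F1, F2, A', A0, hj0, hv1c, hv2c, hv1H, hv2H, hWD, hA'c, hF2c, hF1c, hF1A',
    hF2H, hF1, hsum, hA0, hv2A0, hA0c, hraj⟩ := THRDB.build hr hN2 hRg.2 hW hAj hBal hPl
  have hjle : (j : ℝ) ≤ al r * N := THRDB.jle hr3 (al_ge hr) hNp.le hRg.2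
  have hnear := bal_near hr hW.card hBal
  have hsz' : ∀ m, 2 ≤ (cl H c m).card := by
    intro m
    have h1 := (abs_le.1 (hnear m)).1
    have h2 : (4 : ℝ) ≤ N / r := by rw [le_div_iff₀ hrp]; exact hN2
    have h3 : (2 : ℝ) ≤ sz H c m := by linarith only [h1, h2]
    unfold sz at h3
    exact_mod_cast h3
  set G' := gD H c w A' v1 v2 with hG'
  obtain ⟨_, _, hpE⟩ := hGE r hr V G N H c w u A B i0 hW
  obtain ⟨hfree, hcol, hpE'⟩ := hGD r hr V G' N H c w A' v1 v2 hWD
  have hle : specRad G' ≤ specRad G := by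
    refine hMX G' hfree (hcol hsz') ?_
    rw [hpE, hpE', hA'c]; push_cast; ring
  haveI : Nonempty V := ⟨w⟩
  obtain ⟨x, hx⟩ := exists_PV G
  obtain ⟨y, hy⟩ := exists_PV G'
  have hF := (hFAM r hr V G N H c w A).2 u B i0 hW
  have hF' := (hFAM r hr V G' N H c w A').1 v1 v2 hWD
  have hAj' : (A.card : ℝ) + r = j := by exact_mod_cast hAj
  have hNear0 : Near r δ0 N j H A c := by
    refine ⟨fun i => (hnear i).trans (by linarith only [hrδ, hr3]), ?_⟩
    rw [← hAj', abs_le]; constructor <;> linarith only [hrδ, hrp]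
  have hNear' : Near r δ0 N j H A' c := by
    refine ⟨hNear0.1, ?_⟩
    rw [← hAj', hA'c, abs_le]; push_cast; constructor <;> linarith only [hrδ, hr3]
  obtain ⟨xb, hEx⟩ := hest N hNN0 j hjle V G H c w A (JE w u B) x _ hF hx hW.card hNear0
  obtain ⟨yb, hEy⟩ := hest N hNN0 j hjle V G' H c w A' (JD v1 v2) y _ hF' hy hW.card hNear'
  have hxb := hEx.xb0
  have hyb := hEy.xb0
  -- elementary estimates
  have halg := al_ge hr
  have hall := al_lt hr
  have halN : 0 < al r * N := by positivity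
  set X := (j : ℝ) / (al r * N) with hXdef
  have hX0 : ε ≤ X := by
    rw [hXdef, le_div_iff₀ halN]
    have := hRg.1
    linarith only [this, mul_le_mul_of_nonneg_right hall.le (mul_nonneg hε.le hNp.le)]
  have hX1 : X ≤ 1 := by
    rw [hXdef, div_le_iff₀ halN]
    linarith only [hjle]
  have hX00 : 0 ≤ X := hε.le.trans hX0
  have heε : 16 * r * e ≤ ε := by
    rw [le_div_iff₀ (by positivity)] at he2
    linarith only [he2]
  have heX : 48 * e ≤ X := by linarith only [heε, hX0, mul_le_mul_of_nonneg_right hr3 he0.le]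
  have hlam : (al r - e) * N ≤ specRad G := by
    have h1 := (abs_le.1 hEx.lamN).1
    linarith only [h1]
  have hlamp : 0 < specRad G := by
    have h1 : 0 < (al r - e) * N := mul_pos (by linarith only [halg, he1]) hNp
    linarith only [h1, hlam]
  have hlamp' : 0 < specRad G' := by
    have h1 := (abs_le.1 hEy.lamN).1
    have h2 : 0 < (al r - e) * N := mul_pos (by linarith only [halg, he1]) hNp
    linarith only [h1, h2]
  have hxw1 : (X - e) * xb ≤ x w := by linarith only [(abs_le.1 hEx.xw).1]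
  have hxw2 : x w ≤ (X + e) * xb := by linarith only [(abs_le.1 hEx.xw).2]
  have hyw1 : (X - e) * yb ≤ y w := by linarith only [(abs_le.1 hEy.xw).1]
  have hyw2 : y w ≤ (X + e) * yb := by linarith only [(abs_le.1 hEy.xw).2]
  have hxu : x u ≤ e * xb := hEx.xo u hW.hu hW.hwu.symm
  have hxH1 : ∀ v ∈ H, (1 - e) * xb ≤ x v := fun v hv => by linarith only [(abs_le.1 (hEx.xH v hv)).1]
  have hxH2 : ∀ v ∈ H, x v ≤ (1 + e) * xb := fun v hv => by linarith only [(abs_le.1 (hEx.xH v hv)).2]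
  have hyH1 : ∀ v ∈ H, (1 - e) * yb ≤ y v := fun v hv => by linarith only [(abs_le.1 (hEy.xH v hv)).1]
  have hyH2 : ∀ v ∈ H, y v ≤ (1 + e) * yb := fun v hv => by linarith only [(abs_le.1 (hEy.xH v hv)).2]
  have hCy := hCSE r V G' H c w A' (JD v1 v2) y _ hF' hy
  have hyu : y u = 0 := by
    have h1 := hCy.2.2.2 u hW.hu hW.hwu.symm
    have h2 : u ≠ v1 := fun h => hW.hu (h ▸ hv1H)
    have h3 : u ≠ v2 := fun h => hW.hu (h ▸ hv2H)
    rw [JD_row y h2 h3] at h1
    rcases mul_eq_zero.1 h1 with h | h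
    · exact absurd h hlamp'.ne'
    · exact h
  -- the number a
  set a := (cl A c j0).card with ha
  have hraj' : (r : ℝ) * a ≤ X * N := by
    have h1 : (((r - 1) * a : ℕ) : ℝ) ≤ j := by exact_mod_cast hraj
    rw [Nat.cast_mul, Nat.cast_sub (by omega), Nat.cast_one] at h1
    have h2 : (j : ℝ) = X * (al r * N) := by rw [hXdef]; field_simp
    have h3 : al r * r = r - 1 := by unfold al; field_simp
    have h4 : ((r : ℝ) - 1) * (r * a) ≤ (r - 1) * (X * N) := by
      calc ((r : ℝ) - 1) * (r * a) = r * ((r - 1) * a) := by ring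
        _ ≤ r * j := mul_le_mul_of_nonneg_left h1 hrp.le
        _ = (al r * r) * (X * N) := by rw [h2]; ring
        _ = (r - 1) * (X * N) := by rw [h3]
    exact le_of_mul_le_mul_left h4 (by linarith only [hr3])
  have ha0 : (0 : ℝ) ≤ a := Nat.cast_nonneg _
  set m := (F1.card : ℝ) with hm
  have hm0 : 0 ≤ m := Nat.cast_nonneg _
  have hma : m ≤ a := by
    have h1 : F1.card ≤ a := by omega
    rw [hm]; exact_mod_cast h1
  have hmA0 : (A0.card : ℝ) = m := by
    have : A0.card = F1.card := by omega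
    rw [hm, this]
  -- differences of the class sums
  have hdx : ∀ b ∈ F1, cs x H c (c b) ≤ cs x H c j0 + xb * (X * (1 / N) + e) := by
    intro b hb
    obtain ⟨_, _, _, _, h5, h6, _⟩ := hF1 b hb
    have h7 := (abs_le.1 (hEx.dif j0 (c b))).1
    have h8 : sz H c j0 - sz H c (c b) = 0 := by unfold sz; rw [h5]; ring
    rw [h8, abs_zero] at h7
    have h9 : -(1 / (N : ℝ)) ≤ (sz A c j0 - sz A c (c b)) / N := by
      rw [← neg_div]
      refine div_le_div_of_nonneg_right ?_ hNp.le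
      have : ((cl A c (c b)).card : ℝ) ≤ (cl A c j0).card + 1 := by exact_mod_cast h6
      unfold sz; linarith only [this]
    have h10 : X * (-(1 / (N : ℝ))) ≤ X * ((sz A c j0 - sz A c (c b)) / N) :=
      mul_le_mul_of_nonneg_left h9 hX00
    have h11 := mul_le_mul_of_nonneg_left h10 hxb.le
    linarith only [h7, h11]
  have hdy : ∀ b ∈ F1, cs y H c (c b) ≤ cs y H c j0 + yb * (X * ((2 * a + r) / N) + e) := by
    intro b hb
    obtain ⟨_, _, _, _, h5, _, h6⟩ := hF1 b hb
    have h7 := (abs_le.1 (hEy.dif j0 (c b))).1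
    have h8 : sz H c j0 - sz H c (c b) = 0 := by unfold sz; rw [h5]; ring
    rw [h8, abs_zero] at h7
    have h9 : -((2 * a + r) / (N : ℝ)) ≤ (sz A' c j0 - sz A' c (c b)) / N := by
      rw [← neg_div]
      refine div_le_div_of_nonneg_right ?_ hNp.le
      have : ((cl A' c (c b)).card : ℝ) ≤ 2 * a + r := by exact_mod_cast h6
      have h10 : 0 ≤ sz A' c j0 := Nat.cast_nonneg _
      unfold sz at h10 ⊢; linarith only [this, h10]
    have h10 : X * (-((2 * a + r) / (N : ℝ))) ≤ X * ((sz A' c j0 - sz A' c (c b)) / N) :=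
      mul_le_mul_of_nonneg_left h9 hX00
    have h11 := mul_le_mul_of_nonneg_left h10 hyb.le
    linarith only [h7, h11]
  have hdy2 : ∀ b ∈ F1, cs y H c (c b) ≤ cs y H c j0 + y w := by
    intro b hb
    obtain ⟨_, _, _, _, h5, _, _⟩ := hF1 b hb
    have h7 := (abs_le.1 (hEy.dif j0 (c b))).1
    have h8 : sz H c j0 - sz H c (c b) = 0 := by unfold sz; rw [h5]; ring
    rw [h8, abs_zero] at h7
    have h9 : -(1 / 3 + 1 / 12 : ℝ) ≤ (sz A' c j0 - sz A' c (c b)) / N := by
      rw [le_div_iff₀ hNp]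
      have h1 : sz A' c (c b) ≤ sz H c (c b) := by
        unfold sz
        have : (cl A' c (c b)).card ≤ (cl H c (c b)).card :=
          Finset.card_le_card fun v hv => mem_cl.2 ⟨hWD.hA (mem_cl.1 hv).1, (mem_cl.1 hv).2⟩
        exact_mod_cast this
      have h2 := (abs_le.1 (hnear (c b))).2
      have h3 : (N : ℝ) / r ≤ 1 / 3 * N := by
        rw [div_le_iff₀ hrp]; linarith only [mul_le_mul_of_nonneg_right hr3 hNp.le]
      have h10 : 0 ≤ sz A' c j0 := Nat.cast_nonneg _
      have h11 : (1 : ℝ) ≤ 1 / 12 * N := by linarith only [hN2, hr3]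
      linarith only [h1, h2, h3, h10, h11]
    have h10 : X * (-(1 / 3 + 1 / 12 : ℝ)) ≤ X * ((sz A' c j0 - sz A' c (c b)) / N) :=
      mul_le_mul_of_nonneg_left h9 hX00
    have h11 := mul_le_mul_of_nonneg_left h10 hyb.le
    have h12 : 48 * e * yb ≤ X * yb := mul_le_mul_of_nonneg_right heX hyb.le
    have h13 : 0 < e * yb := mul_pos he0 hyb
    linarith only [h7, h11, h12, h13, hyw1]
  -- eigenvalue equations
  have hex := eigE hFAM hCSE hr hW hx
  have hey := hCy.1
  set S := ∑ z ∈ H, x z with hS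
  set S' := ∑ z ∈ H, y z with hS'
  set P := ∑ v ∈ F1, x v - ∑ v ∈ A0, x v with hP
  set P' := ∑ v ∈ F1, y v - ∑ v ∈ A0, y v with hP'
  set κ := X * (1 / (N : ℝ)) + e with hκ
  set κ' := X * ((2 * a + r) / (N : ℝ)) + e with hκ'
  have hA0m : ∀ v ∈ A0, v ∈ A ∧ c v = j0 := fun v hv => mem_cl.1 (hA0 hv)
  have hyF1 : ∀ b ∈ F1, specRad G' * y b = S' - cs y H c (c b) + y w := by
    intro b hb
    obtain ⟨h1, h2, h3, h4, _⟩ := hF1 b hb
    have h5 : b ≠ v1 := fun h => h3 (h ▸ hv1c)
    have h6 : b ≠ v2 := fun h => h4 (h ▸ hv2c)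
    rw [hey b h1, JD_row y h5 h6, chi_pos (hF1A' hb)]; ring
  have hyA0 : ∀ v ∈ A0, specRad G' * y v = S' - cs y H c j0 := by
    intro v hv
    obtain ⟨h1, h2⟩ := hA0m v hv
    have h5 : v ≠ v1 := by
      intro h
      rw [h, hv1c] at h2
      exact hj0 h2.symm
    have h6 : v ≠ v2 := fun h => hv2A0 (h ▸ hv)
    have h7 : v ∉ A' := by
      intro h
      have h8 : v ∈ cl A' c (c v2) := mem_cl.2 ⟨h, h2.trans hv2c.symm⟩
      rw [hWD.h2, Finset.mem_singleton] at h8
      exact h6 h8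
    rw [hey v (hW.hA h1), JD_row y h5 h6, chi_neg h7, h2]; ring
  have hA0y : specRad G' * ∑ v ∈ A0, y v = m * (S' - cs y H c j0) := by
    rw [Finset.mul_sum, Finset.sum_congr rfl hyA0, Finset.sum_const, nsmul_eq_mul, hmA0]
  have hP'1 : m * (y w - yb * κ') ≤ specRad G' * P' := by
    rw [hP', mul_sub (specRad G'), hA0y, Finset.mul_sum, Finset.sum_congr rfl hyF1]
    have h1 : ∑ b ∈ F1, (S' - cs y H c j0 - yb * κ' + y w)
        ≤ ∑ b ∈ F1, (S' - cs y H c (c b) + y w) :=
      Finset.sum_le_sum fun b hb => by linarith only [hdy b hb]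
    rw [Finset.sum_const, nsmul_eq_mul] at h1
    linarith only [h1]
  have hP'2 : 0 ≤ specRad G' * P' := by
    rw [hP', mul_sub (specRad G'), hA0y, Finset.mul_sum, Finset.sum_congr rfl hyF1]
    have h1 : ∑ b ∈ F1, (S' - cs y H c j0) ≤ ∑ b ∈ F1, (S' - cs y H c (c b) + y w) :=
      Finset.sum_le_sum fun b hb => by linarith only [hdy2 b hb]
    rw [Finset.sum_const, nsmul_eq_mul] at h1
    linarith only [h1]
  have hP'0 : 0 ≤ P' := by
    by_contra hneg
    push Not at hneg
    have := mul_neg_of_pos_of_neg hlamp' hneg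
    linarith only [this, hP'2]
  have hxA0 : specRad G * ∑ v ∈ A0, x v ≤ m * (S - cs x H c j0 + x w) + x u := by
    rw [Finset.mul_sum]
    have h1 : ∀ v ∈ A0, specRad G * x v = (S - cs x H c j0 + x w) + chi (v ∈ B) * x u := by
      intro v hv
      obtain ⟨h2, h3⟩ := hA0m v hv
      rw [hex v (hW.hA h2), chi_pos h2, h3]; ring
    rw [Finset.sum_congr rfl h1, Finset.sum_add_distrib, Finset.sum_const, nsmul_eq_mul, hmA0,
      ← Finset.sum_mul]
    have h2 := sum_chi_le (fun v hv => (hA0m v hv).2) (hW.hB1 j0 hj0)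
    have h3 : (∑ v ∈ A0, chi (v ∈ B)) * x u ≤ 1 * x u := mul_le_mul_of_nonneg_right h2 (hx.nn u)
    linarith only [h3]
  have hP1 : -(m * (x w + xb * κ)) - x u ≤ specRad G * P := by
    rw [hP, mul_sub (specRad G)]
    have h1 : m * (S - cs x H c j0 - xb * κ) ≤ specRad G * ∑ v ∈ F1, x v := by
      rw [Finset.mul_sum, hm, ← nsmul_eq_mul, ← Finset.sum_const]
      refine Finset.sum_le_sum fun b hb => ?_
      obtain ⟨h2, h3, _⟩ := hF1 b hb
      rw [hex b h2, chi_neg h3]
      have h4 : 0 ≤ chi (b ∈ B) * x u := mul_nonneg (chi_nonneg _) (hx.nn u)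
      linarith only [h4, hdx b hb]
    linarith only [h1, hxA0]
  -- the pairing
  have hpair := pairing hx hy
  rw [pair_fam hF hF' x y, JD_double, JE_double, hsum y, hsum x, ← hP, ← hP', hyu] at hpair
  have hip : 0 ≤ ∑ v, x v * y v := Finset.sum_nonneg fun v _ => mul_nonneg (hx.nn v) (hy.nn v)
  have hneg : (specRad G' - specRad G) * ∑ v, x v * y v ≤ 0 :=
    mul_nonpos_of_nonpos_of_nonneg (by linarith only [hle]) hip
  rw [← hpair] at hneg
  -- the term W
  have hWb : -(m * (x w * yb * κ' + y w * xb * κ)) - y w * x u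
      ≤ specRad G * (x w * P' + y w * P) := by
    have h1 : specRad G' * P' ≤ specRad G * P' := mul_le_mul_of_nonneg_right hle hP'0
    have h2 : x w * (m * (y w - yb * κ')) ≤ x w * (specRad G * P') :=
      mul_le_mul_of_nonneg_left (hP'1.trans h1) (hx.nn w)
    have h3 : y w * (-(m * (x w + xb * κ)) - x u) ≤ y w * (specRad G * P) :=
      mul_le_mul_of_nonneg_left hP1 (hy.nn w)
    linarith only [h2, h3]
  have hWq := numW (r := (r : ℝ)) (X := X) (e := e) (al := al r) (N := (N : ℝ)) (m := m)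
    (a := (a : ℝ)) hr3 hX00 hX1 he0 he1 rfl halg (by linarith only [hN2, hr3]) hre hraj' hm0 hma hlam hxb hyb
    (hx.nn w) hxw2 (hy.nn w) hyw2 (hx.nn u) hxu hWb
  -- the main terms
  have hα : ((r : ℝ) + 1) * ((1 - e) * yb) ≤ y v1 + ∑ v ∈ F2, y v := by
    have h1 : ∑ v ∈ F2, (1 - e) * yb ≤ ∑ v ∈ F2, y v :=
      Finset.sum_le_sum fun v hv => hyH1 v (hF2H hv)
    rw [Finset.sum_const, nsmul_eq_mul, hF2c] at h1
    have h2 := hyH1 v1 hv1H
    linarith only [h1, h2]
  have hβ : ((r : ℝ) + 1) * ((1 - e) * xb) ≤ x v1 + ∑ v ∈ F2, x v := by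
    have h1 : ∑ v ∈ F2, (1 - e) * xb ≤ ∑ v ∈ F2, x v :=
      Finset.sum_le_sum fun v hv => hxH1 v (hF2H hv)
    rw [Finset.sum_const, nsmul_eq_mul, hF2c] at h1
    have h2 := hxH1 v1 hv1H
    linarith only [h1, h2]
  have hγ : x v1 * y v2 + x v2 * y v1 ≤ 2 * ((1 + e) * xb * ((1 + e) * yb)) := by
    have h0 : 0 ≤ (1 + e) * xb := by positivity
    have h1 : x v1 * y v2 ≤ (1 + e) * xb * ((1 + e) * yb) :=
      mul_le_mul (hxH2 v1 hv1H) (hyH2 v2 hv2H) (hy.nn v2) h0
    have h2 : x v2 * y v1 ≤ (1 + e) * xb * ((1 + e) * yb) :=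
      mul_le_mul (hxH2 v2 hv2H) (hyH2 v1 hv1H) (hy.nn v1) h0
    linarith only [h1, h2]
  have hθ : x u * (∑ v ∈ B, y v + y w) ≤ e * xb * (r * ((1 + e) * yb)) := by
    have h0 : 0 ≤ (1 + e) * yb := by positivity
    have h1 : ∑ v ∈ B, y v ≤ ∑ v ∈ B, (1 + e) * yb :=
      Finset.sum_le_sum fun v hv => hyH2 v (hW.hB hv)
    rw [Finset.sum_const, nsmul_eq_mul] at h1
    have h2 : (B.card : ℝ) + 1 ≤ r := by exact_mod_cast cardB hW
    have h3 : y w ≤ (1 + e) * yb := hyw2.trans (mul_le_mul_of_nonneg_right (by linarith only [hX1]) hyb.le)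
    have h4 : (B.card : ℝ) * ((1 + e) * yb) + (1 + e) * yb ≤ r * ((1 + e) * yb) := by
      have := mul_le_mul_of_nonneg_right h2 h0
      linarith only [this]
    refine mul_le_mul hxu (by linarith only [h1, h3, h4]) ?_ (by positivity)
    exact add_nonneg (Finset.sum_nonneg fun v _ => hy.nn v) (hy.nn w)
  refine THRD.final (r := (r : ℝ)) (X := X) (e := e) (ε := ε) (xb := xb) (yb := yb) (xw := x w)
    (yw := y w) (α := y v1 + ∑ v ∈ F2, y v) (β := x v1 + ∑ v ∈ F2, x v)
    (γ := x v1 * y v2 + x v2 * y v1) (θ := x u * (∑ v ∈ B, y v + y w))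
    (W := x w * P' + y w * P) (q := X ^ 4 / (r * ((r : ℝ) - 1))) hr3 hX1 (by linarith only [heX, he0]) he0 he1
    heε hxb hyb hxw1 hyw1 hα hβ hγ hθ hWq hX ?_
  linarith only [hneg]

end Pool.Agent.Work.MP_5532fa_up

end

section

/-!
# MP_5532fa_co, upgrade, fourth round: block SECF
-/

set_option autoImplicit false

open Finset

namespace Pool.Agent.Work.MP_5532fa_up

open MP5532fa (specRad qf pE)

namespace SECF

section
variable {V : Type} [Fintype V] {r : ℕ} {G : SimpleGraph V} {H : Finset V} {c : V → Fin r}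
  {w : V} {T : Finset V} {n : ℕ}

/-- the outside neighbours -/
theorem ot_eq (hW : WF G n H c w T) (x : V → ℝ) {v : V} (hv : v ∈ H) :
    EST1.ot G H x v = chi (v ∈ T) * x w := by
  classical
  unfold EST1.ot
  rw [Finset.sum_eq_single w]
  · have : ad G v w = chi (v ∈ T) := by
      refine chi_congr ?_
      constructor
      · intro h0
        rcases hW.sub v w h0 with h | h | h
        · exact absurd h.2.1 hW.hw
        · exact absurd (h.1 ▸ hv) hW.hw
        · exact h.2
      · intro h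
        exact (hW.hwT v h).symm
    rw [this]
  · intro u hu huw
    rw [mem_out] at hu
    have : ad G v u = 0 := by
      refine chi_neg ?_
      intro h0
      rcases hW.sub v u h0 with h | h | h
      · exact hu h.2.1
      · exact hu (hW.hT h.2)
      · exact huw h.1
    rw [this, zero_mul]
  · intro h
    exact absurd (mem_out.mpr hW.hw) h

omit [Fintype V] in
/-- the missing neighbours -/
theorem ms_ge {x : V → ℝ} {b : ℝ} (hx : ∀ v ∈ H, b ≤ x v) :
    (mis G H c : ℝ) * b ≤ ∑ v ∈ H, EST1.ms G H c x v := by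
  rw [EDG.mis_eq, Finset.sum_mul]
  refine Finset.sum_le_sum fun v _ => ?_
  rw [EST1.ms, Finset.sum_mul]
  exact Finset.sum_le_sum fun u hu => mul_le_mul_of_nonneg_left (hx u hu) (chi_nonneg _)

omit [Fintype V] in
theorem cardT (hW : WF G n H c w T) : T.card = r := by
  rw [← sum_card_cl T c]
  rw [Finset.sum_congr rfl fun i _ => hW.hT1 i]
  simp

end

end SECF

/-- **Block SECF.** -/
theorem blk_SECF (hE : Stmt_EST1) : Stmt_SECF := by
  classical
  intro r e hr he
  have hR : (3 : ℝ) ≤ r := by exact_mod_cast hr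
  have hR0 : (0 : ℝ) < 20 * r := by linarith
  obtain ⟨th, hth0, hth1, hthe⟩ : ∃ th : ℝ, 0 < th ∧ th ≤ 1 / 20 ∧ th * (20 * r) ≤ e :=
    ⟨min (e / (20 * r)) (1 / 20), lt_min (div_pos he hR0) (by norm_num), min_le_right _ _, by
      rw [← le_div_iff₀ hR0]
      exact min_le_left _ _⟩
  obtain ⟨δ, N0, hδ, hδe, hE'⟩ := hE r th hr hth0
  refine ⟨δ, N0 + 1, hδ, ?_⟩
  intro n hn V _ G x lam c H w T hC hpv hW
  obtain ⟨xb, hF⟩ := hE' n (by omega) V G x lam c H hC hpv
  obtain ⟨k1, _⟩ := SEC0.key hC hpv hF hth0.le hth1 hδe (by omega)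
  have hxb := hF.xb0
  have hM : (mis G H c : ℝ) * ((1 - th) * xb) ≤ ∑ v ∈ H, EST1.ms G H c x v :=
    SECF.ms_ge fun v hv => by
      have := abs_le.mp (hF.xH v hv)
      linarith [this.1]
  have hO : ∑ v ∈ H, EST1.ot G H x v = (r : ℝ) * x w := by
    rw [Finset.sum_congr rfl fun v hv => SECF.ot_eq hW x hv, ← Finset.sum_mul]
    congr 1
    have : ∀ v ∈ H, chi (v ∈ T) = if v ∈ T then (1 : ℝ) else 0 := by
      intro v _
      by_cases h : v ∈ T
      · rw [chi_pos h, if_pos h]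
      · rw [chi_neg h, if_neg h]
    rw [Finset.sum_congr rfl this, Finset.sum_ite_mem, Finset.inter_eq_right.mpr hW.hT,
      Finset.sum_const, nsmul_eq_mul, mul_one, SECF.cardT hW]
  have h3 := hF.xo w hW.hw
  have hm0 : (0 : ℝ) ≤ mis G H c := Nat.cast_nonneg _
  have hMl : (mis G H c : ℝ) * (1 - th) ≤ (∑ v ∈ H, EST1.ms G H c x v) / xb := by
    rw [le_div_iff₀ hxb]
    linarith
  have hOu : (∑ v ∈ H, EST1.ot G H x v) / xb ≤ r * th := by
    rw [hO, div_le_iff₀ hxb]
    calc (r : ℝ) * x w ≤ r * (th * xb) := mul_le_mul_of_nonneg_left h3 (by linarith)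
      _ = r * th * xb := by ring
  clear hM hO
  generalize (∑ v ∈ H, EST1.ms G H c x v) / xb = M at *
  generalize (∑ v ∈ H, EST1.ot G H x v) / xb = O at *
  generalize (n : ℝ) ^ 2 * Ph (sz H c) lam = Q at *
  generalize (mis G H c : ℝ) = m at *
  have h4 : m * (1 - th) * (1 - 4 * th) ≤ M * (1 - 4 * th) :=
    mul_le_mul_of_nonneg_right hMl (by linarith)
  have h5 : m * (1 - 5 * th) ≤ m * (1 - th) * (1 - 4 * th) := by
    have : m * (1 - th) * (1 - 4 * th) = m * (1 - 5 * th) + 4 * (m * (th * th)) := by ring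
    rw [this]
    have := mul_nonneg hm0 (mul_nonneg hth0.le hth0.le)
    linarith
  have h6 : th * (20 * 3) ≤ th * (20 * r) := mul_le_mul_of_nonneg_left (by linarith) hth0.le
  have h7 : m * (5 * th) ≤ m * e := mul_le_mul_of_nonneg_left (by linarith) hm0
  have h8 : 0 ≤ r * th := mul_nonneg (by linarith) hth0.le
  linarith

end Pool.Agent.Work.MP_5532fa_up

end

section

/-!
# MP_5532fa_co, upgrade, fourth round: block SECD
-/

set_option autoImplicit false

open Finset

namespace Pool.Agent.Work.MP_5532fa_up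

open MP5532fa (specRad qf pE)

namespace SECD

section
variable {V : Type} [Fintype V] {r : ℕ} {G : SimpleGraph V} {H : Finset V} {c : V → Fin r}
  {w : V} {A : Finset V} {v1 v2 : V} {n : ℕ}

/-- the outside neighbours -/
theorem ot_eq (hW : WD G n H c w A v1 v2) (x : V → ℝ) (v : V) :
    EST1.ot G H x v = chi (v ∈ A) * x w := by
  classical
  unfold EST1.ot
  rw [Finset.sum_eq_single w]
  · have : ad G v w = chi (v ∈ A) := by
      refine chi_congr ?_
      rw [hW.adj]
      constructor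
      · rintro (h | h | h)
        · exact absurd h.2.1 hW.hw
        · exact absurd (hW.hA h.2) hW.hw
        · exact h.2
      · intro h
        exact Or.inr (Or.inr ⟨rfl, h⟩)
    rw [this]
  · intro u hu huw
    rw [mem_out] at hu
    have : ad G v u = 0 := by
      refine chi_neg ?_
      rw [hW.adj]
      rintro (h | h | h)
      · exact hu h.2.1
      · exact hu (hW.hA h.2)
      · exact huw h.1
    rw [this, zero_mul]
  · intro h
    exact absurd (mem_out.mpr hW.hw) h

omit [Fintype V] in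
theorem mem12 (hW : WD G n H c w A v1 v2) : v1 ∈ H ∧ v2 ∈ H := by
  have h1 : v1 ∈ cl A c (c v1) := by rw [hW.h1]; exact Finset.mem_singleton_self _
  have h2 : v2 ∈ cl A c (c v2) := by rw [hW.h2]; exact Finset.mem_singleton_self _
  rw [mem_cl] at h1 h2
  exact ⟨hW.hA h1.1, hW.hA h2.1⟩

omit [Fintype V] in
/-- the missing neighbours -/
theorem ms_eq (hW : WD G n H c w A v1 v2) (x : V → ℝ) :
    ∑ v ∈ H, EST1.ms G H c x v = x v1 + x v2 := by
  classical
  obtain ⟨m1, m2⟩ := mem12 hW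
  have hne : v1 ≠ v2 := fun h => hW.h12 (by rw [h])
  have h1 : ∀ v ∈ H, EST1.ms G H c x v
      = (if v = v1 then x v2 else 0) + (if v = v2 then x v1 else 0) := by
    intro v hv
    unfold EST1.ms
    have h2 : ∀ u ∈ H, chi (c v ≠ c u ∧ ¬ G.Adj v u) * x u
        = (if u = v2 then (if v = v1 then x v2 else 0) else 0)
          + (if u = v1 then (if v = v2 then x v1 else 0) else 0) := by
      intro u hu
      by_cases ha : v = v1 ∧ u = v2
      · obtain ⟨rfl, rfl⟩ := ha
        have : c v ≠ c u ∧ ¬ G.Adj v u := by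
          refine ⟨hW.h12, ?_⟩
          rw [hW.adj]
          rintro (h | h | h)
          · exact h.2.2.2.1 ⟨rfl, rfl⟩
          · exact hW.hw (h.1 ▸ hv)
          · exact hW.hw (h.1 ▸ hu)
        rw [chi_pos this, if_pos rfl, if_pos rfl, if_neg hne.symm]
        ring
      · by_cases hb : v = v2 ∧ u = v1
        · obtain ⟨rfl, rfl⟩ := hb
          have : c v ≠ c u ∧ ¬ G.Adj v u := by
            refine ⟨hW.h12.symm, ?_⟩
            rw [hW.adj]
            rintro (h | h | h)
            · exact h.2.2.2.2 ⟨rfl, rfl⟩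
            · exact hW.hw (h.1 ▸ hv)
            · exact hW.hw (h.1 ▸ hu)
          rw [chi_pos this, if_neg hne, if_pos rfl, if_pos rfl]
          ring
        · have : ¬ (c v ≠ c u ∧ ¬ G.Adj v u) := by
            rintro ⟨h3, h4⟩
            exact h4 ((hW.adj v u).mpr (Or.inl ⟨hv, hu, h3, ha, hb⟩))
          rw [chi_neg this]
          by_cases h5 : u = v2
          · have h6 : v ≠ v1 := fun h => ha ⟨h, h5⟩
            rw [if_pos h5, if_neg h6]
            by_cases h7 : u = v1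
            · exact absurd (h7.symm.trans h5) hne
            · rw [if_neg h7]; ring
          · rw [if_neg h5]
            by_cases h7 : u = v1
            · have h6 : v ≠ v2 := fun h => hb ⟨h, h7⟩
              rw [if_pos h7, if_neg h6]; ring
            · rw [if_neg h7]; ring
    rw [Finset.sum_congr rfl h2, Finset.sum_add_distrib, Finset.sum_ite_eq' H v2,
      Finset.sum_ite_eq' H v1, if_pos m1, if_pos m2]
  rw [Finset.sum_congr rfl h1, Finset.sum_add_distrib, Finset.sum_ite_eq' H v1,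
    Finset.sum_ite_eq' H v2, if_pos m1, if_pos m2]
  ring

end

end SECD

/-- **Block SECD.** -/
theorem blk_SECD (hE : Stmt_EST1) : Stmt_SECD := by
  classical
  intro r e hr he
  obtain ⟨th, hth0, hth1, hthe⟩ : ∃ th : ℝ, 0 < th ∧ th ≤ 1 / 20 ∧ 20 * th ≤ e :=
    ⟨min (e / 20) (1 / 20), lt_min (by positivity) (by norm_num), min_le_right _ _, by
      have := min_le_left (e / 20) (1 / 20)
      linarith⟩
  obtain ⟨δ, N0, hδ, hδe, hE'⟩ := hE r th hr hth0
  refine ⟨δ, N0 + 1, hδ, ?_⟩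
  intro n hn V _ G x lam c H w A v1 v2 hC hpv hW
  obtain ⟨xb, hF⟩ := hE' n (by omega) V G x lam c H hC hpv
  obtain ⟨k1, k2⟩ := SEC0.key hC hpv hF hth0.le hth1 hδe (by omega)
  obtain ⟨m1, m2⟩ := SECD.mem12 hW
  have hxb := hF.xb0
  have hM : ∑ v ∈ H, EST1.ms G H c x v = x v1 + x v2 := SECD.ms_eq hW x
  have hO : ∑ v ∈ H, EST1.ot G H x v = (A.card : ℝ) * x w := by
    rw [Finset.sum_congr rfl fun v _ => SECD.ot_eq hW x v, ← Finset.sum_mul]
    congr 1
    have : ∀ v ∈ H, chi (v ∈ A) = if v ∈ A then (1 : ℝ) else 0 := by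
      intro v _
      by_cases h : v ∈ A
      · rw [chi_pos h, if_pos h]
      · rw [chi_neg h, if_neg h]
    rw [Finset.sum_congr rfl this, Finset.sum_ite_mem, Finset.inter_eq_right.mpr hW.hA]
    simp
  have h1 := abs_le.mp (hF.xH v1 m1)
  have h2 := abs_le.mp (hF.xH v2 m2)
  have h3 := hF.xo w hW.hw
  have hMl : 2 * (1 - th) ≤ (∑ v ∈ H, EST1.ms G H c x v) / xb := by
    rw [hM, le_div_iff₀ hxb]; linarith [h1.1, h2.1]
  have hMu : (∑ v ∈ H, EST1.ms G H c x v) / xb ≤ 2 * (1 + th) := by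
    rw [hM, div_le_iff₀ hxb]; linarith [h1.2, h2.2]
  have hA0 : (0 : ℝ) ≤ A.card := Nat.cast_nonneg _
  have hOu : (∑ v ∈ H, EST1.ot G H x v) / xb ≤ A.card * th := by
    rw [hO, div_le_iff₀ hxb]
    calc (A.card : ℝ) * x w ≤ A.card * (th * xb) := mul_le_mul_of_nonneg_left h3 hA0
      _ = A.card * th * xb := by ring
  clear hM hO
  generalize (∑ v ∈ H, EST1.ms G H c x v) / xb = M at *
  generalize (∑ v ∈ H, EST1.ot G H x v) / xb = O at *
  generalize (n : ℝ) ^ 2 * Ph (sz H c) lam = Q at *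
  generalize (A.card : ℝ) = a at *
  constructor
  · have h4 : 2 * (1 - th) * (1 - 4 * th) ≤ M * (1 - 4 * th) :=
      mul_le_mul_of_nonneg_right hMl (by linarith)
    have h5 : 2 - 10 * th ≤ 2 * (1 - th) * (1 - 4 * th) := by
      have : 2 * (1 - th) * (1 - 4 * th) = 2 - 10 * th + 8 * (th * th) := by ring
      rw [this]
      have := mul_nonneg hth0.le hth0.le
      linarith
    have h6 : 20 * th * a ≤ e * a := mul_le_mul_of_nonneg_right hthe hA0
    have h7 : 0 ≤ th * a := mul_nonneg hth0.le hA0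
    linarith
  · have h4 : M * (1 + 5 * th) ≤ 2 * (1 + th) * (1 + 5 * th) :=
      mul_le_mul_of_nonneg_right hMu (by linarith)
    have h5 : 2 * (1 + th) * (1 + 5 * th) ≤ 2 + 20 * th := by
      have h6 : 2 * (1 + th) * (1 + 5 * th) = 2 + 12 * th + 10 * (th * th) := by ring
      have h7 : th * th ≤ 1 / 20 * th := mul_le_mul_of_nonneg_right hth1 hth0.le
      linarith
    linarith

end Pool.Agent.Work.MP_5532fa_up

end

section

/-!
# MP_5532fa_co, upgrade, fourth round: block SECE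
-/

set_option autoImplicit false

open Finset

namespace Pool.Agent.Work.MP_5532fa_up

open MP5532fa (specRad qf pE)

namespace SECE

section
variable {V : Type} [Fintype V] {r : ℕ} {G : SimpleGraph V} {H : Finset V} {c : V → Fin r}
  {w u : V} {A B : Finset V} {i0 : Fin r} {n : ℕ}

/-- the outside neighbours -/
theorem ot_eq (hW : WE G n H c w u A B i0) (x : V → ℝ) {v : V} (hv : v ∈ H) :
    EST1.ot G H x v = chi (v ∈ A) * x w + chi (v ∈ B) * x u := by
  classical
  unfold EST1.ot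
  have hvw : v ≠ w := fun h => hW.hw (h ▸ hv)
  have hvu : v ≠ u := fun h => hW.hu (h ▸ hv)
  have h1 : ∀ z ∈ out H, ad G v z * x z
      = (if z = w then chi (v ∈ A) * x w else 0) + (if z = u then chi (v ∈ B) * x u else 0) := by
    intro z hz
    rw [mem_out] at hz
    by_cases hzw : z = w
    · subst hzw
      rw [if_pos rfl, if_neg hW.hwu, add_zero]
      have : ad G v z = chi (v ∈ A) := by
        refine chi_congr ?_
        rw [hW.adj]
        constructor
        · rintro (h | h | h | h | h | h | h)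
          · exact absurd h.2.1 hz
          · exact absurd h.1 hvw
          · exact h.2
          · exact absurd h.1 hvu
          · exact absurd h.1 hW.hwu
          · exact absurd h.1 hvw
          · exact absurd h.1 hvu
        · intro h
          exact Or.inr (Or.inr (Or.inl ⟨rfl, h⟩))
      rw [this]
    · by_cases hzu : z = u
      · subst hzu
        rw [if_pos rfl, if_neg hzw, zero_add]
        have : ad G v z = chi (v ∈ B) := by
          refine chi_congr ?_
          rw [hW.adj]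
          constructor
          · rintro (h | h | h | h | h | h | h)
            · exact absurd h.2.1 hz
            · exact absurd h.1 hvw
            · exact absurd h.1 hzw
            · exact absurd h.1 hvu
            · exact h.2
            · exact absurd h.1 hvw
            · exact absurd h.1 hvu
          · intro h
            exact Or.inr (Or.inr (Or.inr (Or.inr (Or.inl ⟨rfl, h⟩))))
        rw [this]
      · rw [if_neg hzw, if_neg hzu, add_zero]
        have : ad G v z = 0 := by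
          refine chi_neg ?_
          rw [hW.adj]
          rintro (h | h | h | h | h | h | h)
          · exact hz h.2.1
          · exact hvw h.1
          · exact hzw h.1
          · exact hvu h.1
          · exact hzu h.1
          · exact hvw h.1
          · exact hvu h.1
        rw [this, zero_mul]
  rw [Finset.sum_congr rfl h1, Finset.sum_add_distrib, Finset.sum_ite_eq' (out H) w,
    Finset.sum_ite_eq' (out H) u, if_pos (mem_out.mpr hW.hw), if_pos (mem_out.mpr hW.hu)]

omit [Fintype V] in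
theorem cardB (hW : WE G n H c w u A B i0) : B.card ≤ r := by
  rw [← sum_card_cl B c]
  have h : ∀ i ∈ (univ : Finset (Fin r)), (cl B c i).card ≤ 1 := by
    intro i _
    by_cases hi : i = i0
    · rw [hi, hW.hB0]; simp
    · rw [hW.hB1 i hi]
  have := Finset.sum_le_sum h
  simpa using this

omit [Fintype V] in
theorem sum_chi {S : Finset V} (hS : S ⊆ H) : ∑ v ∈ H, chi (v ∈ S) = (S.card : ℝ) := by
  classical
  have : ∀ v ∈ H, chi (v ∈ S) = if v ∈ S then (1 : ℝ) else 0 := by
    intro v _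
    by_cases h : v ∈ S
    · rw [chi_pos h, if_pos h]
    · rw [chi_neg h, if_neg h]
  rw [Finset.sum_congr rfl this, Finset.sum_ite_mem, Finset.inter_eq_right.mpr hS,
    Finset.sum_const, nsmul_eq_mul, mul_one]

end

end SECE

/-- **Block SECE.** -/
theorem blk_SECE (hE : Stmt_EST1) : Stmt_SECE := by
  classical
  intro r e hr he
  have hR : (3 : ℝ) ≤ r := by exact_mod_cast hr
  have hR0 : (0 : ℝ) < 20 * r := by linarith
  obtain ⟨th, hth0, hth1, hthe⟩ : ∃ th : ℝ, 0 < th ∧ th ≤ 1 / 20 ∧ th * (20 * r) ≤ e :=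
    ⟨min (e / (20 * r)) (1 / 20), lt_min (div_pos he hR0) (by norm_num), min_le_right _ _, by
      rw [← le_div_iff₀ hR0]
      exact min_le_left _ _⟩
  obtain ⟨δ, N0, hδ, hδe, hE'⟩ := hE r th hr hth0
  refine ⟨δ, N0 + 1, hδ, ?_⟩
  intro n hn V _ G x lam c H w u A B i0 hC hpv hW
  obtain ⟨xb, hF⟩ := hE' n (by omega) V G x lam c H hC hpv
  obtain ⟨k1, _⟩ := SEC0.key hC hpv hF hth0.le hth1 hδe (by omega)
  have hxb := hF.xb0
  have hM : 0 ≤ (∑ v ∈ H, EST1.ms G H c x v) / xb :=
    div_nonneg (Finset.sum_nonneg fun v _ => EST1.ms_nonneg hpv.nn v) hxb.le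
  have hO : ∑ v ∈ H, EST1.ot G H x v = (A.card : ℝ) * x w + (B.card : ℝ) * x u := by
    rw [Finset.sum_congr rfl fun v hv => SECE.ot_eq hW x hv, Finset.sum_add_distrib,
      ← Finset.sum_mul, ← Finset.sum_mul, SECE.sum_chi hW.hA, SECE.sum_chi hW.hB]
  have h3 := hF.xo w hW.hw
  have h4 := hF.xo u hW.hu
  have hA0 : (0 : ℝ) ≤ A.card := Nat.cast_nonneg _
  have hB0 : (0 : ℝ) ≤ B.card := Nat.cast_nonneg _
  have hB1 : (B.card : ℝ) ≤ r := by exact_mod_cast SECE.cardB hW
  have hOu : (∑ v ∈ H, EST1.ot G H x v) / xb ≤ A.card * th + r * th := by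
    rw [hO, div_le_iff₀ hxb]
    have h5 : (A.card : ℝ) * x w ≤ A.card * (th * xb) := mul_le_mul_of_nonneg_left h3 hA0
    have h6 : (B.card : ℝ) * x u ≤ B.card * (th * xb) := mul_le_mul_of_nonneg_left h4 hB0
    have h7 : (B.card : ℝ) * (th * xb) ≤ r * (th * xb) :=
      mul_le_mul_of_nonneg_right hB1 (mul_nonneg hth0.le hxb.le)
    linarith
  clear hO
  generalize (∑ v ∈ H, EST1.ms G H c x v) / xb = M at *
  generalize (∑ v ∈ H, EST1.ot G H x v) / xb = O at *
  generalize (n : ℝ) ^ 2 * Ph (sz H c) lam = Q at *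
  generalize (A.card : ℝ) = a at *
  have h5 : 0 ≤ M * (1 - 4 * th) := mul_nonneg hM (by linarith)
  have h6 : th * (20 * 3) ≤ th * (20 * r) := mul_le_mul_of_nonneg_left (by linarith) hth0.le
  have h7 : a * (2 * th) ≤ a * e := mul_le_mul_of_nonneg_left (by linarith) hA0
  have h8 : 0 ≤ r * th := mul_nonneg (by linarith) hth0.le
  linarith

end Pool.Agent.Work.MP_5532fa_up

end
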