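import Mathlib
import Pool.Agent.Work.MP_5532fa_full.P26
import Pool.Agent.Work.MP_5532fa_full.P28

section

/-!
# MP_5532fa_co, upgrade: assembly of the fourth and fifth round
-/

open Finset

namespace Pool.Agent.Work.MP_5532fa_up

open MP5532fa (specRad qf pE)

theorem a5_1 {r : ℝ} (h : 3 ≤ r) : 4 * r * r ≤ 16 * r ^ 3 := by
  have h1 : 0 ≤ r ^ 2 * (16 * r - 4) := mul_nonneg (sq_nonneg r) (by linarith)
  nlinarith

theorem a5_2 {a r : ℝ} (h : 3 ≤ r) (h1 : 4 * r ≤ a) (h2 : a ^ 2 ≤ r + 2) : False := by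
  have h3 : 0 ≤ (a - 4 * r) * a := mul_nonneg (by linarith) (by linarith)
  nlinarith

theorem a5_3 {r : ℝ} (h : 3 ≤ r) : 0 ≤ 4 * r ^ 2 - 8 * r - 3 := by nlinarith

theorem a5_4 {n d : ℝ} (h1 : 4 < n * d ^ 2) (h2 : 0 < n) :
    2 ^ 2 * n ≤ d ^ 2 * n ^ 2 := by
  have h3 : 0 ≤ (n * d ^ 2 - 4) * n := mul_nonneg (by linarith) h2.le
  nlinarith

theorem a5_5 {n N : ℝ} (h1 : n ≤ N + 1) (h2 : N ≤ n) (h3 : 1 ≤ N) : n ^ 2 ≤ 4 * N ^ 2 := by
  have h4 : 0 ≤ (2 * N - n) * (2 * N + n) := mul_nonneg (by linarith) (by linarith)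
  nlinarith

theorem a5_6 {B r n : ℝ} (h7 : n ^ 2 ≤ B * r ^ 2 * n) (hn : B * r ^ 2 < n) (h8 : 0 < n) :
    False := by
  have h1 : 0 < (n - B * r ^ 2) * n := mul_pos (by linarith) h8
  nlinarith

/-- balanced vectors exist -/
theorem bal_vec {r : ℕ} (hr : 3 ≤ r) (N : ℕ) :
    ∃ y : Fin r → ℕ, ∑ i, y i = N ∧ ∀ i k, y i ≤ y k + 1 := by
  refine ⟨fun i => (N + i.val) / r, ?_, ?_⟩
  · have : ∀ n : ℕ, ∑ i : Fin r, (n + i.val) / r = n := by
      intro n
      induction n with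
      | zero =>
        refine Finset.sum_eq_zero fun i _ => ?_
        rw [Nat.zero_add]
        exact Nat.div_eq_of_lt i.2
      | succ n ih =>
        rw [Fin.sum_univ_eq_sum_range (fun i => (n + 1 + i) / r) r]
        rw [Fin.sum_univ_eq_sum_range (fun i => (n + i) / r) r] at ih
        obtain ⟨q, hq⟩ : ∃ q, r = q + 1 := ⟨r - 1, by omega⟩
        rw [hq] at ih ⊢
        rw [Finset.sum_range_succ]
        rw [Finset.sum_range_succ'] at ih
        have e1 : ∀ i, (n + 1 + i) / (q + 1) = (n + (i + 1)) / (q + 1) := by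
          intro i; congr 1; omega
        simp only [e1]
        have e2 : (n + (q + 1)) / (q + 1) = n / (q + 1) + 1 := by
          rw [Nat.add_div_right _ (by omega)]
        rw [e2]
        simp only [Nat.add_zero] at ih ⊢
        omega
    exact this N
  · intro i k
    have h6 : (N + i.val) / r ≤ (N + k.val + r) / r := by
      apply Nat.div_le_div_right
      have := i.2
      omega
    rw [Nat.add_div_right _ (by omega)] at h6
    exact h6

/-- second moment -/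
theorem mo_two {r : ℕ} (hr : 3 ≤ r) {n : ℕ} {y : Fin r → ℝ} (h : ∑ i, y i = n) :
    mo 2 n y = ∑ i, y i ^ 2 - (n : ℝ) ^ 2 / r := by
  have hrr : (3 : ℝ) ≤ r := by exact_mod_cast hr
  unfold mo
  have e : ∀ i, (y i - (n : ℝ) / r) ^ 2 = y i ^ 2 - 2 * (n / r) * y i + (n / r) ^ 2 := by
    intro i; ring
  simp only [e]
  rw [Finset.sum_add_distrib, Finset.sum_sub_distrib, ← Finset.mul_sum, h]
  simp only [Finset.sum_const, Finset.card_univ, Fintype.card_fin, nsmul_eq_mul]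
  field_simp
  ring

/-- vectors of class sizes with the right sum of squares and the largest possible entry -/
theorem vecN (hREP : Stmt_REP) (hTN : Stmt_TN) {r : ℕ} (hr : 6 ≤ r) {n m : ℕ} {B : ℝ}
    (hn1 : 0 < n) (hn : B * (r : ℝ) ^ 2 < n) (h1 : m + 1 ≤ tn r n + r)
    (h2 : al r * (n : ℝ) ^ 2 - 2 * m + 2 * ((r : ℝ) - 1) ≤ B * n) :
    ∃ (y : Fin r → ℕ) (i1 : Fin r), ∑ i, y i = n ∧
      2 * (m : ℝ) = (n : ℝ) ^ 2 - ∑ i, (y i : ℝ) ^ 2 + 2 * (r - 1) ∧ Top1 y i1 ∧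
      mo 2 n (re y) = al r * (n : ℝ) ^ 2 - 2 * m + 2 * ((r : ℝ) - 1) := by
  have hr3 : 3 ≤ r := by omega
  have hrr : (6 : ℝ) ≤ r := by exact_mod_cast hr
  obtain ⟨b, hb1, hb2⟩ := bal_vec hr3 n
  have hb3 := (hTN r hr3 n).1 b hb1 hb2
  have hpar : Even (((n : ℤ) ^ 2 - 2 * m + 2 * ((r : ℤ) - 1)) - n) := by
    obtain ⟨k, hk⟩ := Int.even_mul_pred_self (n : ℤ)
    refine ⟨k - m + ((r : ℤ) - 1), ?_⟩
    linarith only [hk]
  obtain ⟨y, i1, y1, y2, y3⟩ := hREP r hr (n : ℤ) ((n : ℤ) ^ 2 - 2 * m + 2 * ((r : ℤ) - 1))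
    ⟨fun i => (b i : ℤ), by
      show ∑ i, ((b i : ℕ) : ℤ) = (n : ℤ)
      exact_mod_cast hb1, by
      show ∑ i, ((b i : ℕ) : ℤ) ^ 2 ≤ _
      have h3 : (2 * (tn r n : ℤ) + ∑ i, (b i : ℤ) ^ 2) = (n : ℤ) ^ 2 := by exact_mod_cast hb3
      have h4 : (m : ℤ) + 1 ≤ tn r n + r := by exact_mod_cast h1
      linarith only [h3, h4]⟩ hpar
  have y1r : ∑ i, ((y i : ℤ) : ℝ) = (n : ℝ) := by exact_mod_cast y1
  have y2r : ∑ i, ((y i : ℤ) : ℝ) ^ 2 = (n : ℝ) ^ 2 - 2 * m + 2 * ((r : ℝ) - 1) := by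
    have : ((∑ i, y i ^ 2 : ℤ) : ℝ) = (((n : ℤ) ^ 2 - 2 * m + 2 * ((r : ℤ) - 1) : ℤ) : ℝ) := by
      rw [y2]
    push_cast at this
    exact this
  have hmo := mo_two hr3 y1r
  rw [y2r] at hmo
  have hmo2 : mo 2 n (fun i => ((y i : ℤ) : ℝ))
      = al r * (n : ℝ) ^ 2 - 2 * m + 2 * ((r : ℝ) - 1) := by
    rw [hmo]; unfold al; ring
  have hpos : ∀ i, 0 ≤ y i := by
    intro i
    by_contra hi
    push Not at hi
    have h3 : (y i : ℝ) < 0 := by exact_mod_cast hi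
    have h4 : ((y i : ℝ) - n / r) ^ 2 ≤ mo 2 n (fun i => ((y i : ℤ) : ℝ)) := by
      unfold mo
      exact Finset.single_le_sum (f := fun i => ((y i : ℝ) - (n : ℝ) / r) ^ 2)
        (fun _ _ => sq_nonneg _) (Finset.mem_univ i)
    rw [hmo2] at h4
    have hn0 : (0 : ℝ) ≤ n := Nat.cast_nonneg n
    have h5 : 0 ≤ (n : ℝ) / r := by positivity
    have h6 : ((n : ℝ) / r) ^ 2 ≤ B * n := by nlinarith
    have h7 : (n : ℝ) ^ 2 ≤ B * (r : ℝ) ^ 2 * n := by
      rw [div_pow, div_le_iff₀ (by positivity)] at h6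
      linarith only [h6]
    have h8 : (0 : ℝ) < n := by exact_mod_cast hn1
    exact a5_6 h7 hn h8
  refine ⟨fun i => (y i).toNat, i1, ?_, ?_, ?_, ?_⟩
  · have h3 : ((∑ i, (y i).toNat : ℕ) : ℤ) = (n : ℤ) := by
      push_cast
      rw [← y1]
      exact Finset.sum_congr rfl fun i _ => Int.toNat_of_nonneg (hpos i)
    exact_mod_cast h3
  · have e : ∀ i, ((((y i).toNat : ℕ)) : ℝ) = ((y i : ℤ) : ℝ) := by
      intro i
      have : (((y i).toNat : ℕ) : ℤ) = y i := Int.toNat_of_nonneg (hpos i)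
      exact_mod_cast this
    simp only [e]
    rw [y2r]; ring
  · intro z hz1 hz2 i
    have e : ∀ i, (((y i).toNat : ℕ) : ℤ) = y i := fun i => Int.toNat_of_nonneg (hpos i)
    simp only [e] at hz1 hz2 ⊢
    rw [y1] at hz1
    rw [y2] at hz2
    exact y3 z hz1 hz2 i
  · have e : re (fun i => (y i).toNat) = fun i => ((y i : ℤ) : ℝ) := by
      funext i
      unfold re
      have : (((y i).toNat : ℕ) : ℤ) = y i := Int.toNat_of_nonneg (hpos i)
      exact_mod_cast this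
    rw [e, hmo2]

/-- gadget over a complete `r`-partite graph on `H` -/
def Gad {V : Type} {r : ℕ} (n : ℕ) (G : SimpleGraph V) (H : Finset V) (c : V → Fin r) : Prop :=
  ∃ (w : V) (A : Finset V) (v1 v2 : V),
    WD G n H c w A v1 v2 ∧ A.card = r ∧ Top H c {c v1, c v2}

/-- the largest class is as large as possible -/
def MaxTop {V : Type} {r : ℕ} (n : ℕ) (H : Finset V) (c : V → Fin r) : Prop :=
  ∃ i, ∀ z : Fin r → ℕ, ∑ k, z k = n → ∑ k, z k ^ 2 = ∑ k, (cl H c k).card ^ 2 →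
    ∀ k, z k ≤ (cl H c i).card

/-- extremal graphs close to a complete multipartite graph whose imbalance is not too large are
gadgets -/
theorem gad (hREP : Stmt_REP) (hTN : Stmt_TN) (hGD : Stmt_GD) (hGDT : Stmt_GDT) (hW1 : Stmt_W1)
    (hTOPG : Stmt_TOPG) (hBIG : Stmt_BIG) (r : ℕ) (hr : 6 ≤ r) (ε ε' : ℝ) (hε : 0 < ε)
    (hε' : 0 < ε') : ∃ (δ : ℝ) (n0 : ℕ), 0 < δ ∧ ∀ n ≥ n0, ∀ (V : Type) [Fintype V]
    (G : SimpleGraph V) (c : V → Fin r) (H : Finset V) (m : ℕ), C0 r δ n G c H →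
    (∀ i, |sz H c i - n / r| ≤ 2 * √(n : ℝ)) → G.CliqueFree (r + 1) → ¬ G.Colorable r →
    MX r G → pE G = 2 * (m : ℝ) → m + 1 ≤ tn r n + r →
    al r * (n : ℝ) ^ 2 - 2 * m + 2 * ((r : ℝ) - 1) ≤ (2 / 3 * al r - ε) * n →
    Gad n G H c ∧ (ε' * n ≤ al r * (n : ℝ) ^ 2 - 2 * m + 2 * ((r : ℝ) - 1) → MaxTop n H c) := by
  have hr3 : 3 ≤ r := by omega
  have hrr : (6 : ℝ) ≤ r := by exact_mod_cast hr
  have hal1 := al_lt hr3
  have hη : 0 < min (ε / 2) (1 / (4 * (r : ℝ))) := lt_min (by positivity) (by positivity)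
  obtain ⟨C, n1, hC, H1⟩ := hGDT r ε (min (ε / 2) (1 / (4 * (r : ℝ)))) hr3 hε hη
    (min_le_left _ _)
  obtain ⟨d2, n2, hd2, H2⟩ := hW1 r (min (ε / 2) (1 / (4 * (r : ℝ)))) C hr3 hη
    (min_le_right _ _) hC
  obtain ⟨d3, n3, hd3, H3⟩ := hTOPG r hr3
  obtain ⟨d4, n4, hd4, H4⟩ := hBIG r ε' hr3 hε'
  refine ⟨min d2 (min d3 d4), n1 + n2 + n3 + n4 + r ^ 2 + 1,
    lt_min hd2 (lt_min hd3 hd4), ?_⟩
  intro n hn V _ G c H m hC0 hs hfree hcol hMX hpE hm hR
  have hnr : (r : ℝ) ^ 2 + 1 ≤ n := by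
    have : r ^ 2 + 1 ≤ n := by omega
    exact_mod_cast this
  have hn0 : (0 : ℝ) < n := by nlinarith
  have hBr : (2 / 3 * al r - ε) * (r : ℝ) ^ 2 < n := by
    have h1 : 2 / 3 * al r - ε ≤ 1 := by linarith only [hε, hal1]
    have h2 : (2 / 3 * al r - ε) * (r : ℝ) ^ 2 ≤ 1 * (r : ℝ) ^ 2 :=
      mul_le_mul_of_nonneg_right h1 (sq_nonneg _)
    linarith only [hnr, h2]
  obtain ⟨y, i1, hy1, hy2, hy3, hy4⟩ := vecN hREP hTN hr (by omega) hBr hm hR
  have hmo : mo 2 n (re y) ≤ (2 / 3 * al r - ε) * n := by rw [hy4]; exact hR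
  have hmo4 : mo 2 n (re y) ≤ 4 * r * n := by
    refine hmo.trans (mul_le_mul_of_nonneg_right ?_ hn0.le)
    linarith only [hε, hrr, hal1]
  have hgood := H1 n (by omega) y i1 hy1 hmo hy3
  have hpE' : pE G = (n : ℝ) ^ 2 - ∑ i, (y i : ℝ) ^ 2 + 2 * (r - 1) := by rw [hpE, hy2]
  obtain ⟨w, A, v1, v2, hWD, hA⟩ := H2 n (by omega) V G c H y
    (hC0.mono (min_le_left _ _)) hs hfree hcol hMX hy1 hmo4 hgood hpE'
  have hTop := H3 n (by omega) V G c H w A v1 v2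
    (hC0.mono ((min_le_right _ _).trans (min_le_left _ _))) hMX hWD hA
  refine ⟨⟨w, A, v1, v2, hWD, hA, hTop⟩, fun hlow => ?_⟩
  obtain ⟨i, hi⟩ := H4 n (by omega) V G c H w A v1 v2 y i1
    (hC0.mono ((min_le_right _ _).trans (min_le_right _ _))) hs hMX hWD hA hy1
    (by rw [hy4]; exact hlow) hmo4 hy3 hpE'
  refine ⟨i, fun z hz1 hz2 k => ?_⟩
  have hedge := (hGD r hr3 V G n H c w A v1 v2 hWD).2.2
  rw [hpE', hA] at hedge
  have hsq : ∑ i, (y i : ℝ) ^ 2 = ∑ i, sz H c i ^ 2 := by linarith only [hedge]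
  have hsq2 : (∑ i, (y i : ℤ) ^ 2) = ∑ i, ((cl H c i).card : ℤ) ^ 2 := by
    have : ((∑ i, (y i) ^ 2 : ℕ) : ℝ) = ((∑ i, (cl H c i).card ^ 2 : ℕ) : ℝ) := by
      push_cast
      exact hsq
    exact_mod_cast this
  have h5 := hy3 (fun k => (z k : ℤ)) (by
      have : ∑ k, z k = ∑ k, y k := hz1.trans hy1.symm
      exact_mod_cast this) (by
      rw [hsq2]
      have : (∑ k, (z k : ℤ) ^ 2) = ∑ k, ((cl H c k).card : ℤ) ^ 2 := by exact_mod_cast hz2
      exact this.le) k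
  rw [hi]
  exact_mod_cast h5

/-- gadgets over almost balanced complete multipartite graphs -/
theorem gadS (hGDS : Stmt_GDS) (hW1 : Stmt_W1) (hTOPG : Stmt_TOPG) (r : ℕ) (hr : 3 ≤ r) :
    ∃ (κ : ℝ) (δ : ℝ) (n0 : ℕ), 0 < κ ∧ 0 < δ ∧ ∀ n ≥ n0, ∀ (V : Type) [Fintype V]
    (G : SimpleGraph V) (c : V → Fin r) (H : Finset V) (y : Fin r → ℕ), C0 r δ n G c H →
    (∀ i, |sz H c i - n / r| ≤ 2 * √(n : ℝ)) → G.CliqueFree (r + 1) → ¬ G.Colorable r →
    MX r G → ∑ i, y i = n → mo 2 n (re y) ^ 3 ≤ κ * n ^ 2 → mo 2 n (re y) ≤ n →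
    pE G = (n : ℝ) ^ 2 - ∑ i, (y i : ℝ) ^ 2 + 2 * (r - 1) → Gad n G H c := by
  have hrr : (3 : ℝ) ≤ r := by exact_mod_cast hr
  have hη : (0 : ℝ) < 1 / (4 * r) := by positivity
  have hη4 : 1 / (4 * (r : ℝ)) ≤ 1 / 4 := by
    apply one_div_le_one_div_of_le (by norm_num)
    linarith only [hrr]
  obtain ⟨κ, C, n1, hκ, hC, H1⟩ := hGDS r (1 / (4 * r)) hr hη hη4
  obtain ⟨d2, n2, hd2, H2⟩ := hW1 r (1 / (4 * r)) C hr hη le_rfl hC
  obtain ⟨d3, n3, hd3, H3⟩ := hTOPG r hr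
  refine ⟨κ, min d2 d3, n1 + n2 + n3, hκ, lt_min hd2 hd3, ?_⟩
  intro n hn V _ G c H y hC0 hs hfree hcol hMX hy hR hR1 hpE
  have hn0 : (0 : ℝ) ≤ n := Nat.cast_nonneg n
  have hR4 : mo 2 n (re y) ≤ 4 * r * n := by
    refine hR1.trans ?_
    nlinarith
  obtain ⟨w, A, v1, v2, hWD, hA⟩ := H2 n (by omega) V G c H y (hC0.mono (min_le_left _ _)) hs
    hfree hcol hMX hy hR4 (H1 n (by omega) y hy hR) hpE
  exact ⟨w, A, v1, v2, hWD, hA, H3 n (by omega) V G c H w A v1 v2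
    (hC0.mono (min_le_right _ _)) hMX hWD hA⟩

/-- the third case -/
theorem fdcase (hB1U2 : Stmt_B1U2) (hB1C2 : Stmt_B1C2) (hD1 : Stmt_D1B) (hD2 : Stmt_D2V)
    (hD3 : Stmt_D3V) (hEB : Stmt_EBV) (hE1 : Stmt_E1B) (hE2 : Stmt_E2V) (hE3 : Stmt_E3V)
    (hTN : Stmt_TN) (hGD : Stmt_GD) (hGE : Stmt_GE) (r : ℕ) (ε : ℝ) (hr : 3 ≤ r) (hε : 0 < ε) :
    ∃ (δ : ℝ) (N0 : ℕ), 0 < δ ∧ ∀ N ≥ N0, ∀ j : ℕ, RgA r ε N j → RgV r N j →
    ∀ (V : Type) [Fintype V] (G : SimpleGraph V) (x : V → ℝ) (lam : ℝ) (c : V → Fin r)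
    (H : Finset V) (w : V), FD r δ N j G x lam c H w → G.CliqueFree (r + 1) →
    ¬ G.Colorable r → MX r G → pE G = 2 * ((tn r N : ℝ) + j) →
    TypeD r N j G ∨ TypeE r N j G := by
  classical
  obtain ⟨dU, nU, dU0, HU⟩ := hB1U2 r ε hr hε
  obtain ⟨dC, nC, dC0, HC⟩ := hB1C2 r ε hr hε
  obtain ⟨d1, n1, d10, HD1⟩ := hD1 r ε hr hε
  obtain ⟨d2, n2, d20, HD2⟩ := hD2 r hr
  obtain ⟨d3, n3, d30, HD3⟩ := hD3 r hr
  obtain ⟨dB, nB, dB0, HEB⟩ := hEB r hr
  obtain ⟨e1, m1, e10, HE1⟩ := hE1 r ε hr hε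
  obtain ⟨e2, m2, e20, HE2⟩ := hE2 r hr
  obtain ⟨e3, m3, e30, HE3⟩ := hE3 r hr
  set δ : ℝ := min (min (min (min dU dC) (min d1 d2)) (min (min d3 dB) (min e1 e2))) e3 with hδ
  have hδ0 : 0 < δ := by
    rw [hδ]
    repeat' apply lt_min
    all_goals assumption
  have hle : δ ≤ dU ∧ δ ≤ dC ∧ δ ≤ d1 ∧ δ ≤ d2 ∧ δ ≤ d3 ∧ δ ≤ dB ∧ δ ≤ e1 ∧ δ ≤ e2 ∧ δ ≤ e3 := by
    rw [hδ]
    refine ⟨?_, ?_, ?_, ?_, ?_, ?_, ?_, ?_, ?_⟩ <;> simp
  obtain ⟨lU, lC, l1, l2, l3, lB, k1, k2, k3⟩ := hle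
  refine ⟨δ, nU + nC + n1 + n2 + n3 + nB + m1 + m2 + m3, hδ0, ?_⟩
  intro N hN j hA hV V _ G x lam c H w hFD hfree hcol hMX hpE
  have hB : RgB r ε N j := ⟨hA.1, hV⟩
  have hNear : ∀ d, δ ≤ d → Near r d N j H (nb G H w) c := fun d hd =>
    ⟨(hFD.mono hd).bal, (hFD.mono hd).deg⟩
  by_cases hU : ∀ i, (cl (nb G H w) c i).Nonempty
  · left
    obtain ⟨v1, v2, hWD⟩ := HU N (by omega) j hA V G x _ c H w (hFD.mono lU) hfree hMX hU
    have hBal := HD1 N (by omega) j hB V G H c w _ v1 v2 hWD (hNear d1 l1) hMX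
    have hPl := HD2 N (by omega) j hV V G H c w _ v1 v2 hWD (hNear d2 l2) hBal hMX
    have hTop := HD3 N (by omega) j hV V G H c w _ v1 v2 hWD (hNear d3 l3) hBal hPl hMX
    refine ⟨H, c, w, nb G H w, v1, v2, hWD, ?_, hBal, hPl, hTop⟩
    have h1 := (hGD r hr V G N H c w _ v1 v2 hWD).2.2
    have h2 := sum_sq_bal hTN hr hWD.card hBal
    have h3 : ((nb G H w).card : ℝ) = ((j + 1 : ℕ) : ℝ) := by
      push_cast
      rw [hpE] at h1
      linarith only [h1, h2]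
    exact_mod_cast h3
  · right
    push Not at hU
    obtain ⟨i0, hi0⟩ := hU
    obtain ⟨u, B, i1, hWE⟩ := HC N (by omega) j hA V G x _ c H w i0 (hFD.mono lC) hfree hcol hMX
      hi0
    have hOne := HEB N (by omega) j hV V G H c w u _ B i1 hWE (hNear dB lB) hMX
    have hBal := HE1 N (by omega) j hB V G H c w u _ B i1 hWE (hNear e1 k1) hMX
    have hPl := HE2 N (by omega) j hV V G H c w u _ B i1 hWE (hNear e2 k2) hOne hBal hMX
    have hTop := HE3 N (by omega) j hV V G H c w u _ B i1 hWE (hNear e3 k3) hOne hBal hPl hMX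
    refine ⟨H, c, w, u, nb G H w, B, i1, hWE, hOne, ?_, hBal, hPl, hTop⟩
    have h1 := (hGE r hr V G N H c w u _ B i1 hWE).2.2
    have h2 := sum_sq_bal hTN hr hWE.card hBal
    have h3 : (((nb G H w).card + r : ℕ) : ℝ) = (j : ℝ) := by
      push_cast
      rw [hpE] at h1
      linarith only [h1, h2]
    exact_mod_cast h3

/-- type E for `j = 2 r - 2` -/
def TypeS {V : Type} (r N : ℕ) (G : SimpleGraph V) : Prop :=
  ∃ (H : Finset V) (c : V → Fin r) (w u : V) (A B : Finset V) (i0 : Fin r),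
    WE G N H c w u A B i0 ∧ OneOut A B ∧ A.card + 1 = r ∧
      ∑ i, (cl H c i).card ^ 2 + 2 * tn r N = N ^ 2 + 2

/-- small `j` -/
theorem smallD (hW2 : Stmt_W2) (hD2 : Stmt_D2V) (hD3 : Stmt_D3V) (r : ℕ) (hr : 3 ≤ r) :
    ∃ (δ : ℝ) (n0 : ℕ), 0 < δ ∧ ∀ n ≥ n0, ∀ j : ℕ, r ≤ j + 1 → j + 3 ≤ 2 * r →
    ∀ (V : Type) [Fintype V] (G : SimpleGraph V) (c : V → Fin r)
    (H : Finset V), C0 r δ n G c H → (∀ i, |sz H c i - n / r| ≤ 2 * √(n : ℝ)) →
    G.CliqueFree (r + 1) → ¬ G.Colorable r → MX r G → pE G = 2 * ((tn r n : ℝ) + j) →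
    TypeD r n j G := by
  obtain ⟨δ, n1, hδ, H1⟩ := hW2 r hr
  obtain ⟨d2, n2, hd2, H2⟩ := hD2 r hr
  obtain ⟨d3, n3, hd3, H3⟩ := hD3 r hr
  have hdm : 0 < min d2 d3 := lt_min hd2 hd3
  obtain ⟨n4, hn4⟩ := exists_nat_gt (4 / (min d2 d3) ^ 2 + 1 / min d2 d3 + 16 * (r : ℝ) ^ 3)
  refine ⟨δ, n1 + n2 + n3 + n4 + 1, hδ, ?_⟩
  intro n hn j hj1 hj2 V _ G c H hC0 hs hfree hcol hMX hpE
  have hrr : (3 : ℝ) ≤ r := by exact_mod_cast hr
  have hal := al_ge hr
  obtain ⟨w, A, v1, v2, hWD, hBal, hA⟩ := H1 n (by omega) j hj1 hj2 V G c H hC0 hs hfree hcol hMX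
    hpE
  have hn4' : 4 / (min d2 d3) ^ 2 + 1 / min d2 d3 + 16 * (r : ℝ) ^ 3 < n :=
    lt_trans hn4 (by exact_mod_cast (by omega : n4 < n))
  have hp1 : 0 < 4 / (min d2 d3) ^ 2 := by positivity
  have hp2 : 0 < 1 / min d2 d3 := by positivity
  have hp3 : 0 < 16 * (r : ℝ) ^ 3 := by positivity
  have hn0 : (0 : ℝ) < n := by linarith only [hn4', hp1, hp2, hp3]
  have hsq : 2 * √(n : ℝ) ≤ min d2 d3 * n := by
    have h1 : 4 / (min d2 d3) ^ 2 < n := by linarith only [hn4', hp2, hp3]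
    rw [div_lt_iff₀ (by positivity)] at h1
    have h2 : √(n : ℝ) ^ 2 = n := Real.sq_sqrt hn0.le
    have h3 : (2 * √(n : ℝ)) ^ 2 ≤ (min d2 d3 * n) ^ 2 := by
      rw [mul_pow, h2, mul_pow]
      exact a5_4 h1 hn0
    exact le_of_sq_le_sq h3 (by positivity)
  have hone : 1 ≤ min d2 d3 * n := by
    have h1 : 1 / min d2 d3 < n := by linarith only [hn4', hp1, hp3]
    rw [div_lt_iff₀ hdm] at h1
    linarith only [h1]
  have hNear : ∀ d, min d2 d3 ≤ d → Near r d n j H A c := by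
    intro d hd
    have hm : min d2 d3 * n ≤ d * n := mul_le_mul_of_nonneg_right hd hn0.le
    refine ⟨fun i => (hs i).trans (hsq.trans hm), ?_⟩
    rw [hA]
    push_cast
    have e : (j : ℝ) + 1 - j = 1 := by ring
    rw [e, abs_one]
    linarith only [hone, hm]
  have hV : RgV r n j := by
    unfold RgV
    have h1 : (j : ℝ) ≤ 2 * r := by
      have : j ≤ 2 * r := by omega
      exact_mod_cast this
    have h2 : 1 / (r : ℝ) ^ 2 ≤ 1 - 2 / r + 1 / (4 * r ^ 2) := by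
      have e : 1 - 2 / (r : ℝ) + 1 / (4 * r ^ 2) - 1 / r ^ 2 = (4 * r ^ 2 - 8 * r - 3) / (4 * r ^ 2) := by
        field_simp
        ring
      have : 0 ≤ 1 - 2 / (r : ℝ) + 1 / (4 * r ^ 2) - 1 / r ^ 2 := by
        rw [e]
        exact div_nonneg (a5_3 hrr) (by positivity)
      linarith only [this]
    have h3 : 1 / (r : ℝ) ^ 2 * (2 / 3 * n) ≤ (1 - 2 / r + 1 / (4 * r ^ 2)) * (al r * n) := by
      apply mul_le_mul h2 (mul_le_mul_of_nonneg_right hal hn0.le) (by positivity)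
      exact le_trans (by positivity) h2
    have h4 : 2 * (r : ℝ) ≤ 1 / (r : ℝ) ^ 2 * (2 / 3 * n) := by
      have e : 1 / (r : ℝ) ^ 2 * (2 / 3 * n) = 2 / 3 * n / r ^ 2 := by ring
      rw [e, le_div_iff₀ (by positivity)]
      have e2 : 2 * (r : ℝ) * r ^ 2 = 2 * r ^ 3 := by ring
      rw [e2]
      linarith only [hn4', hp1, hp2]
    linarith only [h1, h3, h4]
  have hPl := H2 n (by omega) j hV V G H c w A v1 v2 hWD (hNear d2 (min_le_left _ _)) hBal hMX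
  have hTop := H3 n (by omega) j hV V G H c w A v1 v2 hWD (hNear d3 (min_le_right _ _)) hBal hPl
    hMX
  exact ⟨H, c, w, A, v1, v2, hWD, hA, hBal, hPl, hTop⟩

/-- a graph of type `WE` with nonempty classes has `N + 2` vertices which are not isolated -/
theorem we_iso {V : Type} [Fintype V] {r N : ℕ} (hr : 3 ≤ r) {G : SimpleGraph V} {H : Finset V}
    {c : V → Fin r} {w u : V} {A B : Finset V} {i0 : Fin r} (hW : WE G N H c w u A B i0)
    (hne : ∀ i, 1 ≤ (cl H c i).card) :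
    ∃ S : Finset V, S.card = N + 2 ∧ ∀ v ∈ S, ∃ u, G.Adj v u := by
  classical
  refine ⟨insert w (insert u H), ?_, ?_⟩
  · rw [Finset.card_insert_of_notMem, Finset.card_insert_of_notMem hW.hu, hW.card]
    rw [Finset.mem_insert]
    rintro (h | h)
    · exact hW.hwu h
    · exact hW.hw h
  · intro v hv
    rw [Finset.mem_insert, Finset.mem_insert] at hv
    rcases hv with rfl | rfl | hv
    · exact ⟨u, (hW.adj v u).mpr (by tauto)⟩
    · exact ⟨w, (hW.adj v w).mpr (by tauto)⟩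
    · obtain ⟨i, hi⟩ : ∃ i : Fin r, i ≠ c v := by
        by_cases h : c v = ⟨0, by omega⟩
        · refine ⟨⟨1, by omega⟩, ?_⟩
          rw [h]
          intro h2
          exact absurd (congrArg Fin.val h2) (by norm_num)
        · exact ⟨⟨0, by omega⟩, fun h2 => h h2.symm⟩
      obtain ⟨a, ha⟩ := Finset.card_pos.mp (hne i)
      rw [mem_cl] at ha
      exact ⟨a, (hW.adj v a).mpr (Or.inl ⟨hv, ha.1, fun h => hi (by rw [h, ha.2])⟩)⟩

/-- the case `j = 2 r - 2` -/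
theorem smallS (hW3 : Stmt_W3) (hEB : Stmt_EBV) (r : ℕ) (hr : 3 ≤ r) :
    ∃ (δ : ℝ) (n0 : ℕ), 0 < δ ∧ ∀ n ≥ n0, ∀ j : ℕ, j + 2 = 2 * r →
    ∀ (V : Type) [Fintype V] (G : SimpleGraph V) (c : V → Fin r)
    (H : Finset V), n + 2 ≤ Fintype.card V → C0 r δ n G c H →
    (∀ i, |sz H c i - n / r| ≤ 2 * √(n : ℝ)) →
    G.CliqueFree (r + 1) → ¬ G.Colorable r → MX r G → pE G = 2 * ((tn r n : ℝ) + j) →
    TypeS r n G := by
  obtain ⟨δ, n1, hδ, H1⟩ := hW3 r hr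
  obtain ⟨d2, n2, hd2, H2⟩ := hEB r hr
  obtain ⟨n4, hn4⟩ := exists_nat_gt (2 * (r : ℝ) / d2 + 16 * (r : ℝ) ^ 3)
  refine ⟨min δ (d2), n1 + n2 + n4 + 1, lt_min hδ hd2, ?_⟩
  intro n hn j hj V _ G c H hcard hC0 hs hfree hcol hMX hpE
  have hrr : (3 : ℝ) ≤ r := by exact_mod_cast hr
  have hal := al_ge hr
  obtain ⟨w, u, A, B, i0, hWE, hA, hsum⟩ := H1 n (by omega) j hj V G c H hcard
    (hC0.mono (min_le_left _ _)) hs hfree hcol hMX hpE
  have hn4' : 2 * (r : ℝ) / d2 + 16 * (r : ℝ) ^ 3 < n :=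
    lt_trans hn4 (by exact_mod_cast (by omega : n4 < n))
  have hp1 : 0 < 2 * (r : ℝ) / d2 := by positivity
  have hp3 : 0 < 16 * (r : ℝ) ^ 3 := by positivity
  have hn0 : (0 : ℝ) < n := by linarith only [hn4', hp1, hp3]
  have hj2 : (j : ℝ) + 2 = 2 * r := by exact_mod_cast hj
  have hA2 : (A.card : ℝ) + 1 = r := by exact_mod_cast hA
  have hNear : Near r d2 n j H A c := by
    refine ⟨(hC0.mono (min_le_right _ _)).bal, ?_⟩
    have h1 : 2 * (r : ℝ) / d2 < n := by linarith only [hn4', hp3]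
    rw [div_lt_iff₀ hd2] at h1
    have e : (A.card : ℝ) - j = -((r : ℝ) - 1) := by linarith only [hj2, hA2]
    rw [e, abs_neg, abs_of_nonneg (by linarith only [hA2])]
    linarith only [h1]
  have hV : RgV r n j := by
    unfold RgV
    have h1 : (j : ℝ) ≤ 2 * r := by linarith only [hj2]
    have h2 : 1 / (r : ℝ) ^ 2 ≤ 1 - 2 / r + 1 / (4 * r ^ 2) := by
      have e : 1 - 2 / (r : ℝ) + 1 / (4 * r ^ 2) - 1 / r ^ 2 = (4 * r ^ 2 - 8 * r - 3) / (4 * r ^ 2) := by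
        field_simp
        ring
      have : 0 ≤ 1 - 2 / (r : ℝ) + 1 / (4 * r ^ 2) - 1 / r ^ 2 := by
        rw [e]
        exact div_nonneg (a5_3 hrr) (by positivity)
      linarith only [this]
    have h3 : 1 / (r : ℝ) ^ 2 * (2 / 3 * n) ≤ (1 - 2 / r + 1 / (4 * r ^ 2)) * (al r * n) := by
      apply mul_le_mul h2 (mul_le_mul_of_nonneg_right hal hn0.le) (by positivity)
      exact le_trans (by positivity) h2
    have h4 : 2 * (r : ℝ) ≤ 1 / (r : ℝ) ^ 2 * (2 / 3 * n) := by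
      have e : 1 / (r : ℝ) ^ 2 * (2 / 3 * n) = 2 / 3 * n / r ^ 2 := by ring
      rw [e, le_div_iff₀ (by positivity)]
      have e2 : 2 * (r : ℝ) * r ^ 2 = 2 * r ^ 3 := by ring
      rw [e2]
      linarith only [hn4', hp1]
    linarith only [h1, h3, h4]
  have hOne := H2 n (by omega) j hV V G H c w u A B i0 hWE hNear hMX
  exact ⟨H, c, w, u, A, B, i0, hWE, hOne, hA, hsum⟩

/-- the forms of the extremal graphs -/
def Form5 {V : Type} (r : ℕ) (ε : ℝ) (N j : ℕ) (G : SimpleGraph V) : Prop :=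
  (j + 1 < r ∧ ∃ (c : V → Fin r) (H : Finset V), Gad N G H c) ∨
  (r ≤ j + 1 ∧ j + 2 ≠ 2 * r ∧ TypeD r N j G ∧
    (2 * r ≤ j + 1 → 1 - ε ≤ ((r : ℝ) + 1) * (j / (al r * N))) ∧
    (j : ℝ) / (al r * N) ≤ 1 - 2 / r + ε) ∨
  (j + 2 = 2 * r ∧ TypeS r N G) ∨
  (2 * r ≤ j + 1 ∧ TypeE r N j G ∧
    ((r : ℝ) + 1) * (j / (al r * N)) ≤ 1 + (j / (al r * N)) ^ 4 / (r * ((r : ℝ) - 1)) + ε) ∨
  (1 - 2 / r - ε ≤ (j : ℝ) / (al r * N) ∧ ∃ (c : V → Fin r) (H : Finset V), Gad (N + 1) G H c ∧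
    ((j : ℝ) / (al r * N) ≤ 1 - ε → MaxTop (N + 1) H c))

/-- the values of `m` covered by the theorem -/
def Cov (r : ℕ) (ε : ℝ) (N j : ℕ) : Prop :=
  7 ≤ r ∨ (6 ≤ r ∧ ε ≤ |(j : ℝ) / (al r * N) - (1 - 2 / r)|) ∨
    (r ≤ j + 1 ∧ (j : ℝ) / (al r * N) ≤ 1 - 2 / r - ε)

/-- further values of `m` -/
def CovS (r : ℕ) (κ : ℝ) (N m : ℕ) : Prop :=
  ∃ (n : ℕ) (y : Fin r → ℕ), (n = N ∨ n = N + 1) ∧ ∑ i, y i = n ∧
    2 * (m : ℝ) = (n : ℝ) ^ 2 - ∑ i, (y i : ℝ) ^ 2 + 2 * (r - 1) ∧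
    (∑ i, ((y i : ℝ) - n / r) ^ 2) ^ 3 ≤ κ * n ^ 2

/-- the exact theorem of the second round as a statement -/
def Stmt_LIN2 : Prop := ∀ (r : ℕ) (ε : ℝ), 3 ≤ r → 0 < ε → ∃ N0 : ℕ, ∀ N ≥ N0, ∀ j : ℕ,
    2 * r ≤ j + 1 → RgU r ε N j → Concl r ε N j

/-- an extremal graph -/
def Ext {V : Type} [Fintype V] (r m : ℕ) (G : SimpleGraph V) : Prop :=
  G.CliqueFree (r + 1) ∧ ¬ G.Colorable r ∧ pE G = 2 * (m : ℝ) ∧
    ∀ (V' : Type) [Fintype V'] (G' : SimpleGraph V'), G'.CliqueFree (r + 1) →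
      ¬ G'.Colorable r → pE G' = 2 * (m : ℝ) → specRad G' ≤ specRad G

/-- the range of the second round -/
theorem form_lin (hLIN : Stmt_LIN2) (r : ℕ) (ε ε1 : ℝ) (hr : 3 ≤ r) (hε1 : 0 < ε1)
    (hle : ε1 ≤ ε) : ∃ N0 : ℕ, ∀ N ≥ N0, ∀ j m : ℕ, m = tn r N + j → 2 * r ≤ j + 1 →
    RgU r ε1 N j → ∀ (V : Type) [Fintype V] (G : SimpleGraph V), Ext r m G →
    Form5 r ε N j G := by
  obtain ⟨N0, H⟩ := hLIN r ε1 hr hε1
  refine ⟨N0 + 1, fun N hN j m hm hj hRg V _ G hG => ?_⟩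
  have hrr : (3 : ℝ) ≤ r := by exact_mod_cast hr
  have hal := al_ge hr
  have hN0 : (0 : ℝ) < N := by
    have : 0 < N := by omega
    exact_mod_cast this
  obtain ⟨hfree, hcol, hpE, hmax⟩ := hG
  obtain ⟨lD, lE, a1, a2, ⟨GD, hGD⟩, ⟨GE, hGE⟩, a5, a6, a7⟩ := H N (by omega) j hj hRg
  have em : 2 * (m : ℝ) = 2 * ((tn r N : ℝ) + j) := by rw [hm]; push_cast; ring
  rw [em] at hpE hmax
  have hD := a1 _ GD hGD
  have hE := a2 _ GE hGE
  have h1 : lD ≤ specRad G := by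
    rw [← hD.2]; exact hmax _ GD hD.1.1 hD.1.2.1 hD.1.2.2
  have h2 : lE ≤ specRad G := by
    rw [← hE.2]; exact hmax _ GE hE.1.1 hE.1.2.1 hE.1.2.2
  have h3 := a5 V G hfree hcol hpE
  have h4 : specRad G = max lD lE := le_antisymm h3.1 (max_le h1 h2)
  have hX0 : (j : ℝ) / (al r * N) ≤ 1 - 2 / r := by
    rw [div_le_iff₀ (by positivity)]
    have h5 : (j : ℝ) ≤ ((1 - 2 / r) * al r - ε1) * N := hRg
    have h6 : 0 ≤ ε1 * N := by positivity
    linarith only [h5, h6]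
  rcases h3.2.mp h4 with ⟨hT, hle'⟩ | ⟨hT, hle'⟩
  · right; left
    refine ⟨by omega, by omega, hT, fun _ => ?_, by linarith only [hε1, hle, hX0]⟩
    by_contra hno
    push Not at hno
    have := a6 (by linarith only [hle, hno])
    linarith only [hle', this]
  · right; right; right; left
    refine ⟨hj, hT, ?_⟩
    by_contra hno
    push Not at hno
    have := a7 (by linarith only [hle, hno])
    linarith only [hle', this]

/-- extremal graphs for `j = 2 r - 2`, any vertex set -/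
theorem formS (hTRANS2 : Stmt_TRANS2) {r N m : ℕ} (hr : 3 ≤ r)
    (H1 : ∀ (V : Type) [Fintype V] (G : SimpleGraph V), N + 2 ≤ Fintype.card V →
      Ext r m G → TypeS r N G ∧ ∃ S : Finset V, S.card = N + 2 ∧ ∀ v ∈ S, ∃ u, G.Adj v u)
    {V : Type} [Fintype V] {G : SimpleGraph V} (hG : Ext r m G) : TypeS r N G := by
  by_cases hcV : N + 2 ≤ Fintype.card V
  · exact (H1 V G hcV hG).1
  · exfalso
    obtain ⟨a, b, c, d⟩ := hG
    have hV : Nonempty V := by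
      by_contra h
      rw [not_nonempty_iff] at h
      exact b (SimpleGraph.Colorable.of_isEmpty _)
    obtain ⟨G', e1, e2, e4, e3⟩ := hTRANS2 V (Fin (N + 2)) G hV (by simp; omega)
    have a1 := (e3 r (by omega)).1 a
    have b1 : ¬ G'.Colorable r := fun h => b ((e3 r (by omega)).2 h)
    have c1 := e2.trans c
    obtain ⟨-, S, hS1, hS2⟩ := H1 (Fin (N + 2)) G' (by simp) ⟨a1, b1, c1, fun V' _ G'' x y z => by
      rw [e1]; exact d V' G'' x y z⟩
    have := e4 S hS2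
    omega

/-- monotonicity of the forms -/
theorem Form5.mono {V : Type} {r : ℕ} {ε ε' : ℝ} {N j : ℕ} {G : SimpleGraph V}
    (h : Form5 r ε N j G) (hle : ε ≤ ε') : Form5 r ε' N j G := by
  rcases h with h | ⟨h1, h2, h3, h4, h5⟩ | h | ⟨h1, h2, h3⟩ | ⟨h1, c, H, h2, h3⟩
  · exact Or.inl h
  · exact Or.inr (Or.inl ⟨h1, h2, h3, fun h => by linarith only [hle, h4 h],
      by linarith only [hle, h5]⟩)
  · exact Or.inr (Or.inr (Or.inl h))
  · exact Or.inr (Or.inr (Or.inr (Or.inl ⟨h1, h2, by linarith only [hle, h3]⟩)))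
  · exact Or.inr (Or.inr (Or.inr (Or.inr ⟨by linarith only [hle, h1], c, H, h2,
      fun h => h3 (by linarith only [hle, h])⟩)))

theorem Cov.mono {r : ℕ} {ε ε' : ℝ} {N j : ℕ} (h : Cov r ε N j) (hle : ε' ≤ ε) :
    Cov r ε' N j := by
  rcases h with h | ⟨h1, h2⟩ | ⟨h1, h2⟩
  · exact Or.inl h
  · exact Or.inr (Or.inl ⟨h1, hle.trans h2⟩)
  · exact Or.inr (Or.inr ⟨h1, by linarith only [hle, h2]⟩)

/-- the three cases -/
def Tri {V : Type} [Fintype V] (r : ℕ) (δ dC εF : ℝ) (N j : ℕ) (G : SimpleGraph V) : Prop :=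
  (∃ (c : V → Fin r) (H : Finset V), C0 r δ N G c H ∧
    (∀ i, |sz H c i - N / r| ≤ 2 * √(N : ℝ)) ∧ (j : ℝ) ≤ δ * N) ∨
  (∃ (c : V → Fin r) (H : Finset V), C0 r δ (N + 1) G c H ∧
    (∀ i, |sz H c i - ((N + 1 : ℕ) : ℝ) / r| ≤ 2 * √((N + 1 : ℕ) : ℝ)) ∧
    (1 - 2 / r - δ) * (al r * N) ≤ j) ∨
  (RgA r εF N j ∧ (j : ℝ) ≤ (1 - 2 / r + δ) * (al r * N) ∧
    ∃ (x : V → ℝ) (lam : ℝ) (c : V → Fin r) (H : Finset V) (w : V), FD r dC N j G x lam c H w)

theorem tri (hFIN4 : Stmt_FIN4) (hLOWX : Stmt_LOWX) (hTN : Stmt_TN) (r : ℕ) (δ : ℝ)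
    (hr : 3 ≤ r) (hδ : 0 < δ) : ∃ εF : ℝ, 0 < εF ∧ ∀ dC : ℝ, 0 < dC → ∃ n0 : ℕ, ∀ N ≥ n0,
    ∀ j m : ℕ, m = tn r N + j → m < tn r (N + 1) → ∀ (V : Type) [Fintype V]
    (G : SimpleGraph V), Ext r m G → Tri r δ dC εF N j G := by
  obtain ⟨εF, hεF, HF⟩ := hFIN4 r δ hr hδ
  refine ⟨εF, hεF, fun dC hdC => ?_⟩
  obtain ⟨δ1, nF, hδ1, HF'⟩ := HF dC hdC
  obtain ⟨nX, HX⟩ := hLOWX r δ1 hr hδ1
  refine ⟨nF + nX, ?_⟩
  intro N hN j m hmj hlt V _ G ⟨hfree, hcol, hpE, hmax⟩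
  have hj := j_le hTN hr hmj hlt
  have em : 2 * (m : ℝ) = 2 * ((tn r N : ℝ) + j) := by rw [hmj]; push_cast; ring
  have hV : Nonempty V := by
    by_contra h
    rw [not_nonempty_iff] at h
    exact hcol (SimpleGraph.Colorable.of_isEmpty _)
  have hp : |pE G - al r * N ^ 2 - 2 * j| ≤ (r : ℝ) := pE_near hTN hr (by rw [hpE, em])
  obtain ⟨G0, a, b, cL, dL⟩ := HX N (by omega) j hj
  have hlow := hmax (Fin (N + 3)) G0 a b (by rw [cL, em])
  obtain ⟨x, hx⟩ := exists_PV G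
  have hN1 : ((N + 1 : ℕ) : ℝ) = (N : ℝ) + 1 := by push_cast; ring
  rcases HF' N (by omega) j hj V G x (specRad G) hfree hx hp (by linarith only [dL, hlow]) with
    h | ⟨c, H, h1, h2, h3⟩ | ⟨h1, h2, c, H, w, h3, -⟩
  · exact Or.inl h
  · exact Or.inr (Or.inl ⟨c, H, h1, by rw [hN1]; exact h2, h3⟩)
  · exact Or.inr (Or.inr ⟨h1, h2, x, specRad G, c, H, w, h3⟩)

theorem Ext.mx {V : Type} [Fintype V] {r m : ℕ} {G : SimpleGraph V} (hG : Ext r m G) : MX r G :=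
  fun G' a b e => hG.2.2.2 _ G' a b (e.trans hG.2.2.1)

/-- the values of `m` given by almost balanced complete multipartite graphs -/
theorem mainS (hTN : Stmt_TN) (hTNB : Stmt_TNB) (hGDS : Stmt_GDS) (hW1 : Stmt_W1)
    (hTOPG : Stmt_TOPG) (hFIN4 : Stmt_FIN4) (hLOWX : Stmt_LOWX) (r : ℕ) (hr : 3 ≤ r) :
    ∃ κ : ℝ, 0 < κ ∧ ∀ ε : ℝ, 0 < ε → ε ≤ 1 / 42 → ∃ m0 : ℕ, ∀ m ≥ m0, ∀ N j : ℕ,
      m = tn r N + j → m < tn r (N + 1) → CovS r κ N m → ∀ (V : Type) [Fintype V]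
      (G : SimpleGraph V), Ext r m G → Cov r ε N j ∨ Form5 r ε N j G := by
  classical
  have hrr : (3 : ℝ) ≤ r := by exact_mod_cast hr
  have hal := al_ge hr
  have hal1 := al_lt hr
  obtain ⟨κ, dS, nS, hκ, hdS, HS⟩ := gadS hGDS hW1 hTOPG r hr
  refine ⟨κ, hκ, fun ε hε hε1 => ?_⟩
  have hδ : 0 < min dS (1 / 42) := lt_min hdS (by norm_num)
  obtain ⟨εF, hεF, HF⟩ := tri hFIN4 hLOWX hTN r (min dS (1 / 42)) hr hδ
  obtain ⟨nF, HF'⟩ := HF 1 one_pos
  have hth : 0 < min (min (ε / 2) εF) (1 / 100) := lt_min (lt_min (by linarith only [hε]) hεF)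
    (by norm_num)
  set th : ℝ := min (min (ε / 2) εF) (1 / 100) with hthd
  have ht1 : th ≤ ε / 2 := (min_le_left _ _).trans (min_le_left _ _)
  have ht2 : th ≤ εF := (min_le_left _ _).trans (min_le_right _ _)
  have ht3 : th ≤ 1 / 100 := min_le_right _ _
  obtain ⟨nR, hnR⟩ := exists_nat_gt (40 * (r : ℝ) / th + 4 * κ / th ^ 3)
  set M := nS + nF + nR + 1 with hM
  refine ⟨M ^ 2 + 1, ?_⟩
  intro m hm N j hmj hlt ⟨n, y, hn, hy1, hy2, hy3⟩ V _ G hG
  have hNM := large_N hTN hr M hm hlt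
  have hj := j_le hTN hr hmj hlt
  have hNR : 40 * (r : ℝ) / th + 4 * κ / th ^ 3 < N :=
    lt_trans hnR (by exact_mod_cast (by omega : nR < N))
  have hp1 : 0 < 40 * (r : ℝ) / th := by positivity
  have hp2 : 0 < 4 * κ / th ^ 3 := by positivity
  have hN0 : (0 : ℝ) < N := by linarith only [hNR, hp1, hp2]
  have hNe : 40 * (r : ℝ) < th * N := by
    have h1 : 40 * (r : ℝ) / th < N := by linarith only [hNR, hp2]
    rw [div_lt_iff₀ hth] at h1
    linarith only [h1]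
  have hNk : 4 * κ < th ^ 3 * N := by
    have h1 : 4 * κ / th ^ 3 < N := by linarith only [hNR, hp1]
    rw [div_lt_iff₀ (by positivity)] at h1
    linarith only [h1]
  have hN4 : 4000 * (r : ℝ) < N := by
    have : th * N ≤ 1 / 100 * N := mul_le_mul_of_nonneg_right ht3 hN0.le
    linarith only [hNe, this]
  have haN : (0 : ℝ) < al r * N := by positivity
  have hkap1 : (1 : ℝ) / 3 ≤ 1 - 2 / r := by
    have : 2 / (r : ℝ) ≤ 2 / 3 := div_le_div_of_nonneg_left (by norm_num) (by norm_num) hrr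
    linarith only [this]
  have hkap0 : (0 : ℝ) < 2 / r := by positivity
  have htn := (hTN r hr N).2.1
  rw [abs_le] at htn
  have em : 2 * (m : ℝ) = 2 * ((tn r N : ℝ) + j) := by rw [hmj]; push_cast; ring
  have hl1 : min dS (1 / 42) ≤ dS := min_le_left _ _
  have hl2 : min dS (1 / 42) ≤ 1 / 42 := min_le_right _ _
  have hj0 : (0 : ℝ) ≤ j := Nat.cast_nonneg j
  -- the imbalance is small
  have hmo : mo 2 n (re y) = ∑ i, ((y i : ℝ) - n / r) ^ 2 := rfl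
  have hmo0 : 0 ≤ mo 2 n (re y) := Finset.sum_nonneg fun i _ => sq_nonneg _
  have hnN : (n : ℝ) ≤ N + 1 ∧ (N : ℝ) ≤ n := by
    rcases hn with h | h
    · rw [h]; constructor <;> linarith only []
    · rw [h]; push_cast; constructor <;> linarith only []
  have hmoS : mo 2 n (re y) ≤ th * N := by
    by_contra hno
    push Not at hno
    have h1 : (th * N) ^ 3 ≤ mo 2 n (re y) ^ 3 :=
      pow_le_pow_left₀ (by positivity) hno.le 3
    have h2 : mo 2 n (re y) ^ 3 ≤ κ * (n : ℝ) ^ 2 := by rw [hmo]; exact hy3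
    have h3 : (n : ℝ) ^ 2 ≤ 4 * (N : ℝ) ^ 2 := a5_5 hnN.1 hnN.2 (by linarith only [hrr, hN4])
    have h4 : κ * (n : ℝ) ^ 2 ≤ κ * (4 * (N : ℝ) ^ 2) := mul_le_mul_of_nonneg_left h3 hκ.le
    have h5 : (th * N) ^ 3 = (th ^ 3 * N) * N ^ 2 := by ring
    have h6 : 4 * κ * (N : ℝ) ^ 2 < (th ^ 3 * N) * N ^ 2 :=
      mul_lt_mul_of_pos_right hNk (by positivity)
    have h7 : κ * (4 * (N : ℝ) ^ 2) = 4 * κ * (N : ℝ) ^ 2 := by ring
    linarith only [h1, h2, h4, h6]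
  have hmo1 : mo 2 n (re y) ≤ n := by
    have h1 : th * N ≤ 1 / 100 * N := mul_le_mul_of_nonneg_right ht3 hN0.le
    linarith only [hmoS, h1, hnN.2]
  have hy1r : ∑ i, re y i = (n : ℝ) := by
    unfold re
    exact_mod_cast hy1
  have hmo2 := mo_two hr hy1r
  have hsq : ∑ i, re y i ^ 2 = ∑ i, (y i : ℝ) ^ 2 := rfl
  rw [hsq] at hmo2
  have hal2 : ∀ a : ℝ, al r * a ^ 2 = a ^ 2 - a ^ 2 / r := by intro a; unfold al; ring
  have hpE : pE G = (n : ℝ) ^ 2 - ∑ i, (y i : ℝ) ^ 2 + 2 * (r - 1) := by rw [hG.2.2.1, hy2]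
  have hfin : ∀ (c : V → Fin r) (H : Finset V), C0 r (min dS (1 / 42)) n G c H →
      (∀ i, |sz H c i - (n : ℝ) / r| ≤ 2 * √(n : ℝ)) → Gad n G H c := by
    intro c H hC hs
    refine HS n ?_ V G c H y (hC.mono hl1) hs hG.1 hG.2.1 hG.mx hy1 (by rw [hmo]; exact hy3)
      hmo1 hpE
    have : N ≤ n := by rcases hn with h | h <;> omega
    omega
  have hT := HF' N (by omega) j m hmj hlt V G hG
  rcases hn with rfl | rfl
  · -- `n = N`
    have hjr : j + 1 ≤ r := by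
      have h1 := hTNB r n y hr hy1
      have h2 : ((n ^ 2 : ℕ) : ℝ) ≤ ((2 * tn r n + ∑ i, y i ^ 2 : ℕ) : ℝ) := by exact_mod_cast h1
      push_cast at h2
      have h3 : (j : ℝ) + 1 ≤ r := by linarith only [hy2, em, h2]
      exact_mod_cast h3
    have hjrr : (j : ℝ) + 1 ≤ r := by exact_mod_cast hjr
    rcases Nat.lt_or_ge (j + 1) r with h1 | h1
    · right; left
      refine ⟨h1, ?_⟩
      rcases hT with ⟨c, H, hC, hs, -⟩ | ⟨c, H, -, -, h2⟩ | ⟨h2, -⟩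
      · exact ⟨c, H, hfin c H hC hs⟩
      · exfalso
        have h5 : (1 / 3 - 1 / 42) * (2 / 3 * (n : ℝ))
            ≤ (1 - 2 / r - min dS (1 / 42)) * (al r * n) :=
          mul_le_mul (by linarith only [hkap1,
              hl2]) (mul_le_mul_of_nonneg_right hal hN0.le) (by positivity)
            (by linarith only [hkap1, hl2])
        linarith only [hN4, hjrr, h2, h5]
      · exfalso
        have h5 := h2.1
        have h6 : th * n ≤ εF * n := mul_le_mul_of_nonneg_right ht2 hN0.le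
        linarith only [hNe, hjrr, h5, h6]
    · left
      right; right
      refine ⟨h1, ?_⟩
      rw [div_le_iff₀ haN]
      have h5 : (1 / 3 - 1 / 42) * (2 / 3 * (n : ℝ)) ≤ (1 - 2 / r - ε) * (al r * n) :=
        mul_le_mul (by linarith only [hε1,
            hkap1]) (mul_le_mul_of_nonneg_right hal hN0.le) (by positivity)
          (by linarith only [hε1, hkap1])
      linarith only [hN4, hjrr, h5]
  · -- `n = N + 1`
    have hN1 : ((N + 1 : ℕ) : ℝ) = (N : ℝ) + 1 := by push_cast; ring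
    have hjb : al r * N - th * N < j := by
      have h1 : 2 * (m : ℝ) = al r * ((N + 1 : ℕ) : ℝ) ^ 2 - mo 2 (N + 1) (re y) + 2 * (r - 1) := by
        rw [hy2, hmo2, hal2]
        ring
      rw [em, hN1] at h1
      have e3 : al r * ((N : ℝ) + 1) ^ 2 = al r * N ^ 2 + 2 * al r * N + al r := by ring
      rw [e3] at h1
      linarith only [hrr, hal, htn, hmo0, hmoS, h1]
    have hXb : 1 - 3 / 2 * th < (j : ℝ) / (al r * N) := by
      rw [lt_div_iff₀ haN]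
      have e1 : (1 - 3 / 2 * th) * (al r * N) = al r * N - 3 / 2 * (al r * (th * N)) := by ring
      have e2 : 2 / 3 * (th * N) ≤ al r * (th * N) :=
        mul_le_mul_of_nonneg_right hal (by positivity)
      rw [e1]
      linarith only [hjb, e2]
    rcases hT with ⟨c, H, -, -, h2⟩ | ⟨c, H, hC, hs, h2⟩ | ⟨h2, h3, -⟩
    · exfalso
      have h5 : min dS (1 / 42) * N ≤ 1 / 42 * N := mul_le_mul_of_nonneg_right hl2 hN0.le
      have h6 : 2 / 3 * N ≤ al r * N := mul_le_mul_of_nonneg_right hal hN0.le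
      have h7 : th * N ≤ 1 / 100 * N := mul_le_mul_of_nonneg_right ht3 hN0.le
      linarith only [hjb, h2, h5, h6, h7]
    · right
      right; right; right; right
      refine ⟨by linarith only [hth, ht1, hkap0, hXb], c, H, hfin c H hC hs, fun h => ?_⟩
      exfalso
      linarith only [hth, ht1, hXb, h]
    · exfalso
      have h4 := h2.2
      have h5 : th * N ≤ εF * N := mul_le_mul_of_nonneg_right ht2 hN0.le
      have h6 : al r * N = N - N / r := by unfold al; ring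
      have h7 : (1 - 2 / (r : ℝ) - εF) * N = N - 2 * (N / r) - εF * N := by ring
      have h8 : 0 < (N : ℝ) / r := by positivity
      rw [h7] at h4
      rw [h6] at hjb
      linarith only [hjb, h4, h5, h8]

/-- the main theorem of the fifth round, small `ε` -/
theorem mainC (hREP : Stmt_REP) (hTN : Stmt_TN) (hGD : Stmt_GD) (hGE : Stmt_GE)
    (hGDT : Stmt_GDT) (hW1 : Stmt_W1) (hTOPG : Stmt_TOPG) (hBIG : Stmt_BIG)
    (hB1U2 : Stmt_B1U2) (hB1C2 : Stmt_B1C2) (hD1 : Stmt_D1B) (hD2 : Stmt_D2V)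
    (hD3 : Stmt_D3V) (hEB : Stmt_EBV) (hE1 : Stmt_E1B) (hE2 : Stmt_E2V) (hE3 : Stmt_E3V)
    (hW2 : Stmt_W2) (hW3 : Stmt_W3) (hFIN4 : Stmt_FIN4) (hLOWX : Stmt_LOWX)
    (hTHRDB : Stmt_THRDB) (hLIN : Stmt_LIN2) (hTRANS2 : Stmt_TRANS2)
    (r : ℕ) (ε : ℝ) (hr : 3 ≤ r) (hε : 0 < ε)
    (hε42 : ε ≤ 1 / 42) :
    ∃ m0 : ℕ, ∀ m ≥ m0, ∀ N j : ℕ, m = tn r N + j → m < tn r (N + 1) → Cov r ε N j →
      ∀ (V : Type) [Fintype V] (G : SimpleGraph V), Ext r m G → Form5 r ε N j G := by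
  classical
  have hrr : (3 : ℝ) ≤ r := by exact_mod_cast hr
  have hal := al_ge hr
  have hal1 := al_lt hr
  obtain ⟨nL, HL⟩ := form_lin hLIN r ε ε hr hε le_rfl
  obtain ⟨dG, nG, hdG, HG⟩ : ∃ (δ : ℝ) (n0 : ℕ), 0 < δ ∧ (6 ≤ r → ∀ n ≥ n0, ∀ (V : Type)
      [Fintype V] (G : SimpleGraph V) (c : V → Fin r) (H : Finset V) (m : ℕ), C0 r δ n G c H →
      (∀ i, |sz H c i - n / r| ≤ 2 * √(n : ℝ)) → G.CliqueFree (r + 1) → ¬ G.Colorable r →
      MX r G → pE G = 2 * (m : ℝ) → m + 1 ≤ tn r n + r →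
      al r * (n : ℝ) ^ 2 - 2 * m + 2 * ((r : ℝ) - 1) ≤ (2 / 3 * al r - ε) * n →
      Gad n G H c ∧ (ε * n ≤ al r * (n : ℝ) ^ 2 - 2 * m + 2 * ((r : ℝ) - 1) →
        MaxTop n H c)) := by
    by_cases h6 : 6 ≤ r
    · obtain ⟨δ, n0, hδ, H⟩ := gad hREP hTN hGD hGDT hW1 hTOPG hBIG r h6 ε ε hε hε
      exact ⟨δ, n0, hδ, fun _ => H⟩
    · exact ⟨1, 0, one_pos, fun h => absurd h h6⟩
  obtain ⟨d2, n2, hd2, H2⟩ := smallD hW2 hD2 hD3 r hr
  obtain ⟨d3, n3, hd3, H3⟩ := smallS hW3 hEB r hr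
  have hd4 : 0 < min (1 / (4 * (r : ℝ) ^ 2)) (ε / 2) := lt_min (by positivity) (by positivity)
  set δ : ℝ := min (min dG (min d2 d3)) (min (1 / (4 * (r : ℝ) ^ 2)) (ε / 2)) with hδd
  have hδ : 0 < δ := lt_min (lt_min hdG (lt_min hd2 hd3)) hd4
  have lG : δ ≤ dG := (min_le_left _ _).trans (min_le_left _ _)
  have l2 : δ ≤ d2 := (min_le_left _ _).trans ((min_le_right _ _).trans (min_le_left _ _))
  have l3 : δ ≤ d3 := (min_le_left _ _).trans ((min_le_right _ _).trans (min_le_right _ _))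
  have l4 : δ ≤ 1 / (4 * (r : ℝ) ^ 2) := (min_le_right _ _).trans (min_le_left _ _)
  have l5 : δ ≤ ε / 2 := (min_le_right _ _).trans (min_le_right _ _)
  obtain ⟨εF, hεF, HF⟩ := tri hFIN4 hLOWX hTN r δ hr hδ
  obtain ⟨dC, nC, hdC, HC⟩ := fdcase hB1U2 hB1C2 hD1 hD2 hD3 hEB hE1 hE2 hE3 hTN hGD hGE r εF hr
    hεF
  obtain ⟨nF, HF'⟩ := HF dC hdC
  obtain ⟨nT, HT⟩ := hTHRDB r (min ε εF) hr (lt_min hε hεF)
  obtain ⟨nR, hnR⟩ := exists_nat_gt (2 * (r : ℝ) / εF + 16 * (r : ℝ) ^ 3 + 100 * (r : ℝ) / ε)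
  set M := nL + nG + n2 + n3 + nC + nF + nT + nR + 1 with hM
  refine ⟨M ^ 2 + 1, ?_⟩
  intro m hm N j hmj hlt hcov V _ G hG
  have hNM := large_N hTN hr M hm hlt
  have hj := j_le hTN hr hmj hlt
  have hNR : 2 * (r : ℝ) / εF + 16 * (r : ℝ) ^ 3 + 100 * (r : ℝ) / ε < N :=
    lt_trans hnR (by exact_mod_cast (by omega : nR < N))
  have hp1 : 0 < 2 * (r : ℝ) / εF := by positivity
  have hp2 : 0 < 16 * (r : ℝ) ^ 3 := by positivity
  have hp3 : 0 < 100 * (r : ℝ) / ε := by positivity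
  have hN0 : (0 : ℝ) < N := by linarith only [hNR, hp1, hp2, hp3]
  have hNe : 100 * (r : ℝ) < ε * N := by
    have h1 : 100 * (r : ℝ) / ε < N := by linarith only [hNR, hp1, hp2]
    rw [div_lt_iff₀ hε] at h1
    linarith only [h1]
  have hNf : 2 * (r : ℝ) < εF * N := by
    have h1 : 2 * (r : ℝ) / εF < N := by linarith only [hNR, hp2, hp3]
    rw [div_lt_iff₀ hεF] at h1
    linarith only [h1]
  have haN : (0 : ℝ) < al r * N := by positivity
  have hN1 : ((N + 1 : ℕ) : ℝ) = (N : ℝ) + 1 := by push_cast; ring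
  by_cases hlin : 2 * r ≤ j + 1 ∧ RgU r ε N j
  · exact HL N (by omega) j m hmj hlin.1 hlin.2 V G hG
  -- the other values
  have hV : Nonempty V := by
    by_contra h
    rw [not_nonempty_iff] at h
    exact hG.2.1 (SimpleGraph.Colorable.of_isEmpty _)
  have em : 2 * (m : ℝ) = 2 * ((tn r N : ℝ) + j) := by rw [hmj]; push_cast; ring
  have hkap : (0 : ℝ) ≤ 1 - 2 / r := by
    rw [sub_nonneg, div_le_one (by linarith only [hrr])]
    linarith only [hrr]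
  have hkap1 : (1 : ℝ) / 3 ≤ 1 - 2 / r := by
    have : 2 / (r : ℝ) ≤ 2 / 3 := div_le_div_of_nonneg_left (by norm_num) (by norm_num) hrr
    linarith only [this]
  have htn := (hTN r hr N).2.1
  rw [abs_le] at htn
  obtain hA | hB | ⟨hRgA, hup, x, lam, c, H, w, hFD⟩ := HF' N (by omega) j m hmj hlt V G hG
  · -- small `j`
    obtain ⟨c, H, hC0, hs, hjs⟩ := hA
    have hj2r : j + 1 < 2 * r := by
      by_contra hno
      push Not at hno
      apply hlin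
      refine ⟨hno, ?_⟩
      show (j : ℝ) ≤ ((1 - 2 / r) * al r - ε) * N
      refine hjs.trans (mul_le_mul_of_nonneg_right ?_ hN0.le)
      have h1 : 1 / 3 * (2 / 3) ≤ (1 - 2 / r) * al r :=
        mul_le_mul hkap1 hal (by norm_num) hkap
      linarith only [hε42, l5, h1]
    rcases Nat.lt_or_ge (j + 1) r with h1 | h1
    · left
      have h6 : 6 ≤ r := by
        rcases hcov with h | h | h
        · omega
        · exact h.1
        · omega
      obtain ⟨hgad, -⟩ := HG h6 N (by omega) V G c H m (hC0.mono lG) hs hG.1 hG.2.1 hG.mx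
        hG.2.2.1 (by omega) (by
          have h2 : (2 / 3 * (2 / 3) - 1 / 42) * N ≤ (2 / 3 * al r - ε) * N :=
            mul_le_mul_of_nonneg_right (by linarith only [hε42, hal]) hN0.le
          have h3 : (0 : ℝ) ≤ j := Nat.cast_nonneg j
          have h4 : 100 * (r : ℝ) ≤ N := by
            have : ε * N ≤ 1 * N := mul_le_mul_of_nonneg_right (by linarith only [hε42]) hN0.le
            linarith only [hNe, this]
          rw [em]
          linarith only [htn, h2, h4])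
      exact ⟨h1, c, H, hgad⟩
    · rcases Nat.lt_or_ge (j + 2) (2 * r) with h2 | h2
      · right; left
        have hT := H2 N (by omega) j h1 (by omega) V G c H (hC0.mono l2) hs hG.1 hG.2.1
          hG.mx (by rw [hG.2.2.1, em])
        refine ⟨h1, by omega, hT, fun h => by omega, ?_⟩
        have h5 : (j : ℝ) ≤ δ * N := hjs
        rw [div_le_iff₀ haN]
        have h6 : δ * N ≤ ((1 - 2 / r + ε) * al r) * N := by
          apply mul_le_mul_of_nonneg_right _ hN0.le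
          have h7 : 1 / 3 * (2 / 3) ≤ (1 - 2 / r + ε) * al r :=
            mul_le_mul (by linarith only [hε, hkap1]) hal (by norm_num) (by linarith only [hε,
                hkap1])
          linarith only [hε42, l5, h7]
        calc (j : ℝ) ≤ δ * N := h5
          _ ≤ ((1 - 2 / r + ε) * al r) * N := h6
          _ = _ := by ring
      · right; right; left
        have hj2 : j + 2 = 2 * r := by omega
        refine ⟨hj2, formS hTRANS2 hr ?_ hG⟩
        intro V' _ G' hcV hG'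
        have h := HF' N (by omega) j m hmj hlt V' G' hG'
        have h4 : (j : ℝ) + 2 = 2 * r := by exact_mod_cast hj2
        rcases h with ⟨c', H', hC0', hs', -⟩ | ⟨c', H', -, -, hj'⟩ | ⟨hR', -⟩
        · have hT := H3 N (by omega) j hj2 V' G' c' H' hcV (hC0'.mono l3) hs' hG'.1 hG'.2.1
            hG'.mx (by rw [hG'.2.2.1, em])
          refine ⟨hT, ?_⟩
          obtain ⟨H'', c'', w, u, A, B, i0, hWE, -, -, hsum⟩ := hT
          refine we_iso hr hWE ?_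
          -- the classes are not empty
          by_contra hno
          push Not at hno
          obtain ⟨i, hi⟩ := hno
          have hi0 : (cl H'' c'' i).card = 0 := by omega
          have hcs : ∑ k, sz H'' c'' k = (N : ℝ) := by
            have := sum_card_cl H'' c''
            rw [hWE.card] at this
            unfold sz
            exact_mod_cast this
          have hmo := mo_two hr (n := N) (y := sz H'' c'') hcs
          have hone : ((N : ℝ) / r) ^ 2 ≤ mo 2 N (sz H'' c'') := by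
            have h5 : sz H'' c'' i = 0 := by unfold sz; rw [hi0]; norm_num
            have h6 : (sz H'' c'' i - (N : ℝ) / r) ^ 2 ≤ mo 2 N (sz H'' c'') := by
              unfold mo
              exact Finset.single_le_sum (f := fun i => (sz H'' c'' i - (N : ℝ) / r) ^ 2)
                (fun _ _ => sq_nonneg _) (Finset.mem_univ i)
            rw [h5] at h6
            calc ((N : ℝ) / r) ^ 2 = (0 - (N : ℝ) / r) ^ 2 := by ring
              _ ≤ _ := h6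
          have hsumR : ∑ i, sz H'' c'' i ^ 2 + 2 * (tn r N : ℝ) = (N : ℝ) ^ 2 + 2 := by
            unfold sz
            exact_mod_cast hsum
          have h7 : mo 2 N (sz H'' c'') ≤ r + 2 := by
            have e : al r * (N : ℝ) ^ 2 = (N : ℝ) ^ 2 - (N : ℝ) ^ 2 / r := by unfold al; ring
            rw [hmo]
            linarith only [htn, hsumR, e]
          have h8 : ((N : ℝ) / r) ^ 2 ≤ r + 2 := hone.trans h7
          have h9 : 4 * (r : ℝ) ≤ N / r := by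
            rw [le_div_iff₀ (by linarith only [h4])]
            have e : 4 * (r : ℝ) * r ≤ 16 * (r : ℝ) ^ 3 := a5_1 hrr
            linarith only [hNR, hp1, hp3, e]
          exact a5_2 hrr h9 h8
        · exfalso
          have h5 : (1 / 3 - 1 / 42) * (2 / 3 * (N : ℝ)) ≤ (1 - 2 / r - δ) * (al r * N) :=
            mul_le_mul (by linarith only [hε42, l5,
                hkap1]) (mul_le_mul_of_nonneg_right hal hN0.le) (by positivity)
              (by linarith only [hε42, l5, hkap1])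
          have h6 : 100 * (r : ℝ) ≤ N := by
            have : ε * N ≤ 1 * N := mul_le_mul_of_nonneg_right (by linarith only [hε42]) hN0.le
            linarith only [hNe, this]
          linarith only [h4, hj', h5, h6]
        · exfalso
          have h5 := hR'.1
          linarith only [hNf, h4, h5]
  · -- large `j`
    obtain ⟨c, H, hC0, hs, hjl⟩ := hB
    have hXl : 1 - 2 / r - δ ≤ (j : ℝ) / (al r * N) := by
      rw [le_div_iff₀ haN]; exact hjl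
    have h6 : 6 ≤ r ∧ 2 / 3 + ε ≤ (j : ℝ) / (al r * N) := by
      rcases hcov with h | ⟨h, h'⟩ | ⟨-, h⟩
      · refine ⟨by omega, ?_⟩
        have h7 : (7 : ℝ) ≤ r := by exact_mod_cast h
        have h8 : 2 / (r : ℝ) ≤ 2 / 7 := div_le_div_of_nonneg_left (by norm_num) (by norm_num) h7
        linarith only [hε42, l5, hXl, h8]
      · refine ⟨h, ?_⟩
        have h7 : (6 : ℝ) ≤ r := by exact_mod_cast h
        have h8 : 2 / (r : ℝ) ≤ 2 / 6 := div_le_div_of_nonneg_left (by norm_num) (by norm_num) h7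
        rcases abs_cases ((j : ℝ) / (al r * N) - (1 - 2 / r)) with ⟨h9, _⟩ | ⟨h9, _⟩
        · rw [h9] at h'
          linarith only [h', h8]
        · rw [h9] at h'
          linarith only [l5, hXl, h', h8]
      · exfalso
        linarith only [hδ, l5, hXl, h]
    obtain ⟨h6, hX⟩ := h6
    have h6r : (6 : ℝ) ≤ r := by exact_mod_cast h6
    have hal56 : 5 / 6 ≤ al r := by
      unfold al
      have : 1 / (r : ℝ) ≤ 1 / 6 := one_div_le_one_div_of_le (by norm_num) h6r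
      linarith only [this]
    rw [le_div_iff₀ haN] at hX
    have hup2 : al r * ((N + 1 : ℕ) : ℝ) ^ 2 - 2 * m + 2 * ((r : ℝ) - 1)
        ≤ (2 / 3 * al r - ε) * ((N + 1 : ℕ) : ℝ) := by
      rw [em, hN1]
      have e1 : (2 / 3 + ε) * (al r * N) = 2 / 3 * al r * N + al r * (ε * N) := by ring
      rw [e1] at hX
      have e2 : 5 / 6 * (ε * N) ≤ al r * (ε * N) :=
        mul_le_mul_of_nonneg_right hal56 (by positivity)
      have e3 : al r * ((N : ℝ) + 1) ^ 2 = al r * N ^ 2 + 2 * al r * N + al r := by ring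
      have e4 : (2 / 3 * al r - ε) * ((N : ℝ) + 1)
          = 2 / 3 * al r * N - ε * N + (2 / 3 * al r - ε) := by ring
      rw [e3, e4]
      linarith only [hε42, hal1, hNe, htn, hX, e2]
    obtain ⟨hgad, hmax⟩ := HG h6 (N + 1) (by omega) V G c H m (hC0.mono lG)
      hs hG.1 hG.2.1 hG.mx hG.2.2.1 (by omega) hup2
    right; right; right; right
    refine ⟨by linarith only [hδ, l5, hXl], c, H, hgad, fun hX1 => hmax ?_⟩
    rw [div_le_iff₀ haN] at hX1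
    rw [em, hN1]
    have e1 : (1 - ε) * (al r * N) = al r * N - ε * (al r * N) := by ring
    rw [e1] at hX1
    have e2 : ε * (5 / 6 * N) ≤ ε * (al r * N) :=
      mul_le_mul le_rfl (mul_le_mul_of_nonneg_right hal56 hN0.le) (by positivity) hε.le
    have e3 : al r * ((N : ℝ) + 1) ^ 2 = al r * N ^ 2 + 2 * al r * N + al r := by ring
    rw [e3]
    linarith only [hε42, hNe, htn, h6r, hal56, hX1, e2]
  · -- middle `j`
    have hRgV : RgV r N j := by
      show (j : ℝ) ≤ (1 - 2 / r + 1 / (4 * r ^ 2)) * (al r * N)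
      refine hup.trans (mul_le_mul_of_nonneg_right ?_ haN.le)
      linarith only [l4]
    have hj2r : 2 * r ≤ j + 1 := by
      have h1 := hRgA.1
      have h2 : (2 * r : ℝ) ≤ j := by linarith only [hNf, h1]
      have h3 : 2 * r ≤ j := by exact_mod_cast h2
      omega
    have hj2r' : j + 2 ≠ 2 * r := by omega
    have hnot : ¬ RgU r ε N j := fun h => hlin ⟨hj2r, h⟩
    have hbig : ((1 - 2 / r) * al r - ε) * N < j := not_le.mp hnot
    have hX2 : 1 - 2 / r - 3 / 2 * ε ≤ (j : ℝ) / (al r * N) := by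
      rw [le_div_iff₀ haN]
      have e1 : (1 - 2 / r - 3 / 2 * ε) * (al r * N)
          = ((1 - 2 / r) * al r) * N - 3 / 2 * (al r * (ε * N)) := by ring
      have e2 : 2 / 3 * (ε * N) ≤ al r * (ε * N) :=
        mul_le_mul_of_nonneg_right hal (by positivity)
      rw [e1]
      linarith only [hbig, e2]
    have hX3 : (j : ℝ) / (al r * N) ≤ 1 - 2 / r + δ := by
      rw [div_le_iff₀ haN]; exact hup
    rcases HC N (by omega) j hRgA hRgV V G x lam c H w hFD hG.1 hG.2.1 hG.mx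
      (by rw [hG.2.2.1, em]) with hT | hT
    · right; left
      refine ⟨by omega, hj2r', hT, fun _ => ?_, by linarith only [l5, hX2, hX3]⟩
      have h1 : 1 / 4 ≤ 1 - 2 / r - 3 / 2 * ε := by linarith only [hε42, hkap1]
      have h2 : ((r : ℝ) + 1) * (1 / 4) ≤ ((r : ℝ) + 1) * (j / (al r * N)) :=
        mul_le_mul_of_nonneg_left (h1.trans hX2) (by linarith only [])
      linarith only [hε, hrr, h2]
    · right; right; right; left
      refine ⟨hj2r, hT, ?_⟩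
      by_contra hno
      push Not at hno
      refine HT N (by omega) j ⟨?_, hRgV⟩ ?_ V G hT hG.mx
      · refine le_trans (mul_le_mul_of_nonneg_right (min_le_right _ _) hN0.le) hRgA.1
      · have := min_le_left ε εF
        linarith only [hno, this]

/-- the main theorem of the fifth round -/
theorem main5 (hREP : Stmt_REP) (hTN : Stmt_TN) (hTNB : Stmt_TNB) (hGD : Stmt_GD)
    (hGE : Stmt_GE) (hGDT : Stmt_GDT) (hGDS : Stmt_GDS) (hW1 : Stmt_W1) (hTOPG : Stmt_TOPG)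
    (hBIG : Stmt_BIG) (hB1U2 : Stmt_B1U2) (hB1C2 : Stmt_B1C2) (hD1 : Stmt_D1B) (hD2 : Stmt_D2V)
    (hD3 : Stmt_D3V) (hEB : Stmt_EBV) (hE1 : Stmt_E1B) (hE2 : Stmt_E2V) (hE3 : Stmt_E3V)
    (hW2 : Stmt_W2) (hW3 : Stmt_W3) (hFIN4 : Stmt_FIN4) (hLOWX : Stmt_LOWX)
    (hTHRDB : Stmt_THRDB) (hLIN : Stmt_LIN2) (hTRANS2 : Stmt_TRANS2)
    (r : ℕ) (hr : 3 ≤ r) : ∃ κ : ℝ, 0 < κ ∧ ∀ ε : ℝ, 0 < ε →
    ∃ m0 : ℕ, ∀ m ≥ m0, ∀ N j : ℕ, m = tn r N + j → m < tn r (N + 1) →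
      Cov r ε N j ∨ CovS r κ N m →
      ∀ (V : Type) [Fintype V] (G : SimpleGraph V), Ext r m G → Form5 r ε N j G := by
  obtain ⟨κ, hκ, HS⟩ := mainS hTN hTNB hGDS hW1 hTOPG hFIN4 hLOWX r hr
  refine ⟨κ, hκ, fun ε hε => ?_⟩
  have hε' : 0 < min ε (1 / 42) := lt_min hε (by norm_num)
  obtain ⟨m1, H1⟩ := mainC hREP hTN hGD hGE hGDT hW1 hTOPG hBIG hB1U2 hB1C2 hD1 hD2 hD3 hEB hE1
    hE2 hE3 hW2 hW3 hFIN4 hLOWX hTHRDB hLIN hTRANS2 r _ hr hε' (min_le_right _ _)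
  obtain ⟨m2, H2⟩ := HS _ hε' (min_le_right _ _)
  have hle : min ε (1 / 42) ≤ ε := min_le_left _ _
  refine ⟨m1 + m2, fun m hm N j hmj hlt hcov V _ G hG => ?_⟩
  rcases hcov with h | h
  · exact (H1 m (by omega) N j hmj hlt (h.mono hle) V G hG).mono hle
  · rcases H2 m (by omega) N j hmj hlt h V G hG with h' | h'
    · exact (H1 m (by omega) N j hmj hlt h' V G hG).mono hle
    · exact h'.mono hle

end Pool.Agent.Work.MP_5532fa_up

end
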