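import Mathlib
import Pool.Agent.Work.MP_5532fa_full.P35

section

/-!
# MP_5532fa_co, upgrade: block STAR (the missing pairs form a star)
-/

open Finset

namespace Pool.Agent.Work.MP_5532fa_up

open MP5532fa (specRad qf pE)

namespace STAR

section
variable {V : Type} [Fintype V] {r : ℕ}

theorem mis_FM (G : SimpleGraph V) (H : Finset V) (c : V → Fin r) :
    (mis G H c : ℝ) = ∑ a, ∑ b, chi (FM G H c a b) := by
  classical
  rw [EID.mis_eq]
  have e1 : ∀ a b, chi (FM G H c a b) =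
      chi (a ∈ H) * (chi (b ∈ H) * chi (c a ≠ c b ∧ ¬ G.Adj a b)) := by
    intro a b
    rw [← EQS.chi_and, ← EQS.chi_and]
    rfl
  simp only [e1]
  simp only [← Finset.mul_sum]
  simp only [EQS.sum_chi_mem]

/-- an undisturbed vertex in every class -/
theorem undist {G : SimpleGraph V} {N : ℕ} {H : Finset V} {c : V → Fin r} {w : V} {T : Finset V}
    (h : WF G N H c w T) (hsz : ∀ i, mis G H c + 1 < (cl H c i).card) (i : Fin r) :
    ∃ v, v ∈ cl H c i ∧ v ∉ T ∧ ∀ b, ¬ FM G H c v b := by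
  classical
  obtain ⟨D, hD⟩ : ∃ D, D = (H ×ˢ H).filter (fun e => c e.1 ≠ c e.2 ∧ ¬ G.Adj e.1 e.2) :=
    ⟨_, rfl⟩
  have hDc : D.card = mis G H c := by
    rw [hD]
    unfold mis
    congr 1
  have hDm : ∀ a b, (a, b) ∈ D ↔ FM G H c a b := by
    intro a b
    rw [hD, Finset.mem_filter, Finset.mem_product]
    exact ⟨fun h => ⟨h.1.1, h.1.2, h.2.1, h.2.2⟩, fun h => ⟨⟨h.1, h.2.1⟩, h.2.2.1, h.2.2.2⟩⟩
  by_contra hcon
  push Not at hcon
  have hsub : cl H c i ⊆ cl T c i ∪ D.image Prod.fst := by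
    intro a ha
    rw [Finset.mem_union, Finset.mem_image]
    by_cases haT : a ∈ T
    · exact Or.inl (mem_cl.mpr ⟨haT, (mem_cl.mp ha).2⟩)
    · obtain ⟨b, hb⟩ := hcon a ha haT
      exact Or.inr ⟨(a, b), (hDm a b).mpr hb, rfl⟩
  have h4 := Finset.card_le_card hsub
  have h5 := Finset.card_union_le (cl T c i) (D.image Prod.fst)
  have h6 : (D.image Prod.fst).card ≤ D.card := Finset.card_image_le
  have h7 := h.hT1 i
  have h8 := hsz i
  omega

/-- the value of `x` at an undisturbed vertex -/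
theorem beta_eq {G : SimpleGraph V} {N : ℕ} {H : Finset V} {c : V → Fin r} {w : V} {T : Finset V}
    (h : WF G N H c w T) {x : V → ℝ} {lam : ℝ} (hx : PV G x lam) {i : Fin r} {v : V}
    (hv : v ∈ cl H c i) (hvT : v ∉ T) (hvF : ∀ b, ¬ FM G H c v b) :
    lam * x v = ∑ u ∈ H, x u - cs x H c i := by
  classical
  rw [← hx.eig v]
  have hvm := mem_cl.mp hv
  have hvw : v ≠ w := by rintro rfl; exact h.hw hvm.1
  have e1 : ∀ b, ad G v b = chi (b ∈ H) - chi (b ∈ cl H c i) := by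
    intro b
    unfold ad
    rw [chi_congr (EQS.adj_iff h v b)]
    have e2 : ((v ∈ H ∧ b ∈ H ∧ c v ≠ c b ∧ ¬ FM G H c v b) ∨ (v = w ∧ b ∈ T) ∨
        (b = w ∧ v ∈ T)) ↔ (b ∈ H ∧ b ∉ cl H c i) := by
      rw [mem_cl]
      constructor
      · rintro (h3 | h3 | h3)
        · exact ⟨h3.2.1, fun h4 => h3.2.2.1 (hvm.2.trans h4.2.symm)⟩
        · exact absurd h3.1 hvw
        · exact absurd h3.2 hvT
      · rintro ⟨h3, h4⟩
        exact Or.inl ⟨hvm.1, h3, fun h5 => h4 ⟨h3, h5.symm.trans hvm.2⟩, hvF b⟩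
    rw [chi_congr e2]
    by_cases hb : b ∈ H
    · by_cases hb2 : b ∈ cl H c i
      · rw [chi_pos hb, chi_pos hb2, chi_neg fun h3 => h3.2 hb2, sub_self]
      · rw [chi_pos hb, chi_neg hb2, chi_pos ⟨hb, hb2⟩, sub_zero]
    · have hb2 : b ∉ cl H c i := fun h3 => hb (mem_cl.mp h3).1
      rw [chi_neg hb, chi_neg hb2, chi_neg fun h3 => hb h3.1, sub_zero]
  simp only [e1, sub_mul, Finset.sum_sub_distrib, EQS.sum_chi_mem]
  rfl

/-- the comparison graph: the missing pairs form a star -/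
theorem comp (h1 : Stmt_GF) {G : SimpleGraph V} {N M : ℕ} {H : Finset V} {c : V → Fin r} {w : V}
    {T : Finset V} (hr : 3 ≤ r) (h : WF G N H c w T)
    (hsz : ∀ i, mis G H c < (cl H c i).card) (hM : mis G H c = 2 * M) (hM1 : 1 ≤ M)
    {i1 i2 : Fin r} (hi : i1 ≠ i2) :
    ∃ (G' : SimpleGraph V) (p0 : V) (L : Finset V), WF G' N H c w T ∧ ¬ G'.Colorable r ∧
      G'.CliqueFree (r + 1) ∧ pE G' = pE G ∧ mis G' H c = mis G H c ∧
      (∀ a b, (a ∉ H ∨ b ∉ H) → (G'.Adj a b ↔ G.Adj a b)) ∧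
      (∀ a b, FM G' H c a b ↔ (a = p0 ∧ b ∈ L) ∨ (b = p0 ∧ a ∈ L)) ∧ c p0 = i1 ∧
      L ⊆ cl H c i2 ∧ L.card = M := by
  classical
  obtain ⟨p0, hp0⟩ : (cl T c i1).Nonempty := by
    rw [← Finset.card_pos, h.hT1 i1]; exact one_pos
  obtain ⟨q0, hq0⟩ : (cl T c i2).Nonempty := by
    rw [← Finset.card_pos, h.hT1 i2]; exact one_pos
  rw [mem_cl] at hp0 hq0
  obtain ⟨L, hL1, hL2, hL3⟩ := Finset.exists_subsuperset_card_eq (s := {q0}) (t := cl H c i2)
    (n := M) (by
      intro a ha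
      rw [Finset.mem_singleton] at ha
      rw [ha, mem_cl]
      exact ⟨h.hT hq0.1, hq0.2⟩) (by rw [Finset.card_singleton]; exact hM1)
    (by have := hsz i2; omega)
  have hq0L : q0 ∈ L := hL1 (Finset.mem_singleton_self q0)
  have hp0H : p0 ∈ H := h.hT hp0.1
  have hLH : ∀ b ∈ L, b ∈ H ∧ c b = i2 := fun b hb => mem_cl.mp (hL2 hb)
  have hp0L : p0 ∉ L := fun h2 => hi (hp0.2.symm.trans (hLH p0 h2).2)
  obtain ⟨G', hG'⟩ : ∃ G', G' = gF H c w T (fun a b => a = p0 ∧ b ∈ L) := ⟨_, rfl⟩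
  have adjH : ∀ a ∈ H, ∀ b ∈ H, (G'.Adj a b ↔ c a ≠ c b ∧ ¬ (a = p0 ∧ b ∈ L) ∧
      ¬ (b = p0 ∧ a ∈ L)) := by
    intro a ha b hb
    rw [hG', SM2.gF_adj h.hw ha hb]
  have hFM : ∀ a b, FM G' H c a b ↔ (a = p0 ∧ b ∈ L) ∨ (b = p0 ∧ a ∈ L) := by
    intro a b
    constructor
    · rintro ⟨ha, hb, h3, h4⟩
      rw [adjH a ha b hb] at h4
      by_contra h5
      rw [not_or] at h5
      exact h4 ⟨h3, h5⟩
    · rintro (⟨h3, h4⟩ | ⟨h3, h4⟩)
      · have h5 := hLH b h4
        have ha : a ∈ H := h3 ▸ hp0H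
        refine ⟨ha, h5.1, ?_, ?_⟩
        · rw [h3, hp0.2, h5.2]; exact hi
        · rw [adjH a ha b h5.1]
          exact fun h6 => h6.2.1 ⟨h3, h4⟩
      · have h5 := hLH a h4
        have hb : b ∈ H := h3 ▸ hp0H
        refine ⟨h5.1, hb, ?_, ?_⟩
        · rw [h3, hp0.2, h5.2]; exact hi.symm
        · rw [adjH a h5.1 b hb]
          exact fun h6 => h6.2.2 ⟨h3, h4⟩
  have hWF : WF G' N H c w T := by
    refine ⟨h.card, h.hw, h.hT, h.hT1, ⟨p0, hp0.1, q0, hq0.1, ?_, ?_⟩, ?_, ?_⟩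
    · rintro rfl
      exact hp0L hq0L
    · intro hadj
      rw [adjH p0 hp0H q0 (h.hT hq0.1)] at hadj
      exact hadj.2.1 ⟨rfl, hq0L⟩
    · intro a b hab
      rw [hG'] at hab
      rcases hab.2 with h2 | h2 | h2
      · exact Or.inl ⟨h2.1, h2.2.1, h2.2.2.1⟩
      · exact Or.inr (Or.inl h2)
      · exact Or.inr (Or.inr h2)
    · intro b hb
      rw [hG']
      refine ⟨?_, Or.inr (Or.inl ⟨rfl, hb⟩)⟩
      rintro rfl
      exact h.hw (h.hT hb)
  have hmis : mis G' H c = mis G H c := by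
    have e1 : (mis G' H c : ℝ) = 2 * M := by
      rw [mis_FM]
      have e2 : ∀ a b, chi (FM G' H c a b) =
          chi (a = p0) * (chi (b ∈ L) * 1) + chi (a ∈ L) * (chi (b = p0) * 1) := by
        intro a b
        rw [chi_congr (hFM a b), mul_one, mul_one, ← EQS.chi_and, ← EQS.chi_and]
        by_cases h2 : a = p0 ∧ b ∈ L
        · have h3 : ¬ (a ∈ L ∧ b = p0) := fun h4 => hp0L (h2.1 ▸ h4.1)
          rw [chi_pos (Or.inl h2), chi_pos h2, chi_neg h3, add_zero]
        · by_cases h3 : b = p0 ∧ a ∈ L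
          · rw [chi_pos (Or.inr h3), chi_neg h2, chi_pos ⟨h3.2, h3.1⟩, zero_add]
          · rw [chi_neg (not_or.mpr ⟨h2, h3⟩), chi_neg h2, chi_neg fun h4 => h3 ⟨h4.2, h4.1⟩,
              add_zero]
      simp only [e2, Finset.sum_add_distrib, ← Finset.mul_sum, EQS.sum_chi_mem, EQS.sum_chi_eq]
      simp only [Finset.sum_const, nsmul_eq_mul, mul_one, hL3]
      ring
    have e3 : (mis G' H c : ℝ) = (mis G H c : ℝ) := by rw [e1, hM]; push_cast; ring
    exact_mod_cast e3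
  obtain ⟨g1, g2, g3⟩ := h1 r hr V G' N H c w T hWF
  obtain ⟨_, _, g6⟩ := h1 r hr V G N H c w T h
  refine ⟨G', p0, L, hWF, g2 fun i => by rw [hmis]; exact hsz i, g1, ?_, hmis, ?_, hFM, hp0.2, hL2,
    hL3⟩
  · rw [g3, g6, hmis]
  · intro a b hab
    rw [EQS.adj_iff hWF a b, EQS.adj_iff h a b]
    have n1 : ¬ (a ∈ H ∧ b ∈ H ∧ c a ≠ c b ∧ ¬ FM G' H c a b) := by
      rintro ⟨h2, h3, _⟩
      rcases hab with h4 | h4
      · exact h4 h2
      · exact h4 h3
    have n2 : ¬ (a ∈ H ∧ b ∈ H ∧ c a ≠ c b ∧ ¬ FM G H c a b) := by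
      rintro ⟨h2, h3, _⟩
      rcases hab with h4 | h4
      · exact h4 h2
      · exact h4 h3
    constructor
    · rintro (h3 | h3)
      · exact absurd h3 n1
      · exact Or.inr h3
    · rintro (h3 | h3)
      · exact absurd h3 n2
      · exact Or.inr h3

/-- the sums for the star -/
theorem sums {F : V → V → Prop} {c : V → Fin r} {p0 : V} {L : Finset V} {i1 i2 : Fin r}
    (hi : i1 ≠ i2) (hF : ∀ a b, F a b ↔ (a = p0 ∧ b ∈ L) ∨ (b = p0 ∧ a ∈ L)) (hp0 : c p0 = i1)
    (hL : ∀ b ∈ L, c b = i2) (γ : Fin r → ℝ) :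
    ∑ a, ∑ b, chi (F a b) * (γ (c a) * γ (c b)) = 2 * L.card * (γ i1 * γ i2) ∧
    ∑ v, (∑ b, chi (F v b) * γ (c b)) ^ 2 = (L.card : ℝ) ^ 2 * γ i2 ^ 2 + L.card * γ i1 ^ 2 := by
  classical
  have hp0L : p0 ∉ L := fun h2 => hi (hp0.symm.trans (hL p0 h2))
  have e2 : ∀ a b, chi (F a b) = chi (a = p0) * chi (b ∈ L) + chi (a ∈ L) * chi (b = p0) := by
    intro a b
    rw [chi_congr (hF a b), ← EQS.chi_and, ← EQS.chi_and]
    by_cases h2 : a = p0 ∧ b ∈ L
    · have h3 : ¬ (a ∈ L ∧ b = p0) := fun h4 => hp0L (h2.1 ▸ h4.1)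
      rw [chi_pos (Or.inl h2), chi_pos h2, chi_neg h3, add_zero]
    · by_cases h3 : b = p0 ∧ a ∈ L
      · rw [chi_pos (Or.inr h3), chi_neg h2, chi_pos ⟨h3.2, h3.1⟩, zero_add]
      · rw [chi_neg (not_or.mpr ⟨h2, h3⟩), chi_neg h2, chi_neg fun h4 => h3 ⟨h4.2, h4.1⟩,
          add_zero]
  have hLs : ∑ b ∈ L, γ (c b) = L.card * γ i2 := by
    rw [Finset.sum_congr rfl fun b hb => by rw [hL b hb], Finset.sum_const, nsmul_eq_mul]
  constructor
  · simp only [e2, add_mul, Finset.sum_add_distrib]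
    rw [EQS.sum2 (fun a => chi (a = p0)) (fun b => chi (b ∈ L)) (fun a => γ (c a))
      (fun b => γ (c b)), EQS.sum2 (fun a => chi (a ∈ L)) (fun b => chi (b = p0))
      (fun a => γ (c a)) (fun b => γ (c b))]
    rw [EQS.sum_chi_eq p0 (fun a => γ (c a)), EQS.sum_chi_mem L (fun a => γ (c a)), hLs, hp0]
    ring
  · have e3 : ∀ v, ∑ b, chi (F v b) * γ (c b) =
        chi (v = p0) * (L.card * γ i2) + chi (v ∈ L) * γ i1 := by
      intro v
      simp only [e2, add_mul, Finset.sum_add_distrib, mul_assoc, ← Finset.mul_sum]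
      rw [EQS.sum_chi_mem L (fun b => γ (c b)), EQS.sum_chi_eq p0 (fun b => γ (c b)), hLs, hp0]
    have e4 : ∀ v, (∑ b, chi (F v b) * γ (c b)) ^ 2 =
        chi (v = p0) * ((L.card : ℝ) ^ 2 * γ i2 ^ 2) + chi (v ∈ L) * γ i1 ^ 2 := by
      intro v
      rw [e3]
      by_cases h2 : v = p0
      · have h3 : v ∉ L := h2 ▸ hp0L
        rw [chi_pos h2, chi_neg h3]
        ring
      · rw [chi_neg h2]
        by_cases h3 : v ∈ L
        · rw [chi_pos h3]; ring
        · rw [chi_neg h3]; ring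
    simp only [e4, Finset.sum_add_distrib]
    rw [EQS.sum_chi_eq p0 (fun _ => (L.card : ℝ) ^ 2 * γ i2 ^ 2),
      EQS.sum_chi_mem L (fun _ => γ i1 ^ 2), Finset.sum_const, nsmul_eq_mul]

/-- the triangle -/
theorem tri {F : V → V → Prop} {p q s : V} (hpq : p ≠ q) (hps : p ≠ s) (hqs : q ≠ s)
    (hF : ∀ a b, F a b ↔ a ≠ b ∧ (a = p ∨ a = q ∨ a = s) ∧ (b = p ∨ b = q ∨ b = s)) :
    ∑ a, ∑ b, chi (F a b) = 6 ∧ ∑ v, (∑ b, chi (F v b)) ^ 2 = 12 := by
  classical
  have hd : ∀ v, ∑ b, chi (F v b) = chi (v ∈ ({p, q, s} : Finset V)) * 2 := by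
    intro v
    by_cases hv : v ∈ ({p, q, s} : Finset V)
    · rw [chi_pos hv, one_mul]
      have e1 : ∀ b, chi (F v b) = chi (b ∈ ({p, q, s} : Finset V).erase v) * 1 := by
        intro b
        rw [mul_one]
        apply chi_congr
        rw [hF, Finset.mem_erase, Finset.mem_insert, Finset.mem_insert, Finset.mem_singleton]
        rw [Finset.mem_insert, Finset.mem_insert, Finset.mem_singleton] at hv
        exact ⟨fun h => ⟨h.1.symm, h.2.2⟩, fun h => ⟨h.1.symm, hv, h.2⟩⟩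
      simp only [e1]
      rw [EQS.sum_chi_mem _ (fun _ => (1 : ℝ)), Finset.sum_const, nsmul_eq_mul, mul_one,
        Finset.card_erase_of_mem hv]
      have : ({p, q, s} : Finset V).card = 3 := by
        rw [Finset.card_insert_of_notMem, Finset.card_insert_of_notMem, Finset.card_singleton]
        · rw [Finset.mem_singleton]; exact hqs
        · rw [Finset.mem_insert, Finset.mem_singleton, not_or]; exact ⟨hpq, hps⟩
      rw [this]
      norm_num
    · rw [chi_neg hv, zero_mul]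
      refine Finset.sum_eq_zero fun b _ => chi_neg fun h => hv ?_
      rw [Finset.mem_insert, Finset.mem_insert, Finset.mem_singleton]
      exact ((hF v b).mp h).2.1
  have hcard : (({p, q, s} : Finset V).card : ℝ) = 3 := by
    have : ({p, q, s} : Finset V).card = 3 := by
      rw [Finset.card_insert_of_notMem, Finset.card_insert_of_notMem, Finset.card_singleton]
      · rw [Finset.mem_singleton]; exact hqs
      · rw [Finset.mem_insert, Finset.mem_singleton, not_or]; exact ⟨hpq, hps⟩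
    rw [this]
    norm_num
  constructor
  · simp only [hd]
    rw [EQS.sum_chi_mem _ (fun _ => (2 : ℝ)), Finset.sum_const, nsmul_eq_mul, hcard]
    norm_num
  · have e1 : ∀ v, (∑ b, chi (F v b)) ^ 2 = chi (v ∈ ({p, q, s} : Finset V)) * 4 := by
      intro v
      rw [hd]
      by_cases hv : v ∈ ({p, q, s} : Finset V)
      · rw [chi_pos hv]; norm_num
      · rw [chi_neg hv]; norm_num
    simp only [e1]
    rw [EQS.sum_chi_mem _ (fun _ => (4 : ℝ)), Finset.sum_const, nsmul_eq_mul, hcard]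
    norm_num

end

/-- the two smallest values -/
theorem two_min {r : ℕ} (hr : 2 ≤ r) (γ : Fin r → ℝ) :
    ∃ i1 i2 : Fin r, i1 ≠ i2 ∧ γ i1 ≤ γ i2 ∧ ∀ i, i ≠ i1 → γ i2 ≤ γ i := by
  classical
  have h0 : (univ : Finset (Fin r)).Nonempty := ⟨⟨0, by omega⟩, Finset.mem_univ _⟩
  obtain ⟨i1, _, h1⟩ := Finset.exists_min_image univ γ h0
  have h2 : ((univ : Finset (Fin r)).erase i1).Nonempty := by
    rw [← Finset.card_pos, Finset.card_erase_of_mem (Finset.mem_univ _), Finset.card_univ,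
      Fintype.card_fin]
    omega
  obtain ⟨i2, h3, h4⟩ := Finset.exists_min_image (univ.erase i1) γ h2
  refine ⟨i1, i2, (Finset.ne_of_mem_erase h3).symm, h1 i2 (Finset.mem_univ _), fun i hi => ?_⟩
  exact h4 i (Finset.mem_erase.mpr ⟨hi, Finset.mem_univ _⟩)

end STAR

open STAR in
theorem blk_STAR (h1 : Stmt_GF) (_h2 : Stmt_EID) (h3 : Stmt_FLAT) (h4 : Stmt_STA) (h5 : Stmt_STC)
    (h6 : Stmt_GAPF) (h7 : Stmt_EQS) : Stmt_STAR := by
  classical
  intro r hr
  have hrR : (3 : ℝ) ≤ r := by exact_mod_cast hr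
  obtain ⟨_, _, hK⟩ := h3 r hr
  obtain ⟨C, hC1, hC⟩ := h4 r hr
  obtain ⟨δF, N1, hδF0, hδFe, hF⟩ := hK (1 / 20) (by norm_num)
  obtain ⟨δE, N2, hδE0, hE⟩ := h7 r hr
  obtain ⟨δ, hδ⟩ : ∃ δ, δ = min (min δF δE) (min (1 / (4 * (r : ℝ))) (1 / (100 * C))) := ⟨_, rfl⟩
  have hδ1 : δ ≤ δF := by rw [hδ]; exact (min_le_left _ _).trans (min_le_left _ _)
  have hδ2 : δ ≤ δE := by rw [hδ]; exact (min_le_left _ _).trans (min_le_right _ _)
  have hδ3 : δ ≤ 1 / (4 * r) := by rw [hδ]; exact (min_le_right _ _).trans (min_le_left _ _)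
  have hδ4 : δ ≤ 1 / (100 * C) := by rw [hδ]; exact (min_le_right _ _).trans (min_le_right _ _)
  have hδ0 : 0 < δ := by
    rw [hδ]
    exact lt_min (lt_min hδF0 hδE0) (lt_min (by positivity) (by positivity))
  have hCδ : C * δ ≤ 1 / 100 := by
    have h8 : C * δ ≤ C * (1 / (100 * C)) := mul_le_mul_of_nonneg_left hδ4 (by linarith only [hC1])
    have h9 : C * (1 / (100 * C)) = 1 / 100 := by field_simp
    linarith only [h8, h9]
  have hδ5 : δ ≤ 1 / 100 := by
    have : 1 * δ ≤ C * δ := mul_le_mul_of_nonneg_right hC1 hδ0.le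
    linarith only [hCδ, this]
  obtain ⟨N3, hN3⟩ := exists_nat_ge (4 * (r : ℝ) + 200 * C)
  refine ⟨δ, max N1 (max N2 N3), hδ0, ?_⟩
  intro N hNN V _ G c H w T hC0 hWF hMX hmis4
  have hN1 : N1 ≤ N := (le_max_left _ _).trans hNN
  have hN2 : N2 ≤ N := ((le_max_left _ _).trans (le_max_right _ _)).trans hNN
  have hNR : 4 * (r : ℝ) + 200 * C ≤ N := by
    have : (N3 : ℝ) ≤ N := by
      exact_mod_cast ((le_max_right N2 N3).trans (le_max_right N1 _)).trans hNN
    linarith only [hN3, this]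
  have hN4 : 4 * (r : ℝ) ≤ N := by linarith only [hC1, hNR]
  have hNpos : (0 : ℝ) < N := by linarith only [hC1, hNR]
  have hN12 : (12 : ℝ) ≤ N := by linarith only [hC1, hNR]
  -- sizes of the classes
  have hszR : ∀ i, (mis G H c : ℝ) + 1 < sz H c i := by
    intro i
    have h8 := (abs_le.mp (hC0.bal i)).1
    have h9 := hC0.mis
    have h10 : δ * N ≤ 1 / (4 * r) * N := mul_le_mul_of_nonneg_right hδ3 hNpos.le
    have e4 : 1 / (4 * (r : ℝ)) * N = N / r / 4 := by field_simp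
    have h11 : (4 : ℝ) ≤ N / r := by
      rw [le_div_iff₀ (by linarith only [hrR])]
      linarith only [hN4]
    linarith only [h8, h9, h10, e4, h11]
  have hsz : ∀ i, mis G H c + 1 < (cl H c i).card := by
    intro i
    have := hszR i
    unfold sz at this
    exact_mod_cast this
  have hneq : ∀ k l : Fin r, k ≠ l → (cl H c k).card ≠ (cl H c l).card := by
    intro k l hkl heq
    have hC0' : C0 r δE N G c H := by
      have h8 : δ * N ≤ δE * N := mul_le_mul_of_nonneg_right hδ2 hNpos.le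
      exact ⟨hC0.card, hC0.ind, hC0.mis.trans h8, fun i => (hC0.bal i).trans h8, hC0.eo.trans h8⟩
    exact hE N hN2 V G c H w T k l hC0' hWF hMX hmis4 hkl heq
  -- the eigenvector
  have : Nonempty V := ⟨w⟩
  obtain ⟨x, hx⟩ := exists_PV G
  obtain ⟨lam, hlam⟩ : ∃ lam, lam = specRad G := ⟨_, rfl⟩
  rw [← hlam] at hx
  have hC0' : C0 r δF N G c H := by
    have h8 : δ * N ≤ δF * N := mul_le_mul_of_nonneg_right hδ1 hNpos.le
    exact ⟨hC0.card, hC0.ind, hC0.mis.trans h8, fun i => (hC0.bal i).trans h8, hC0.eo.trans h8⟩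
  obtain ⟨xb, hFx, hfx, _⟩ := hF N hN1 V G x _ c H hC0' hx
  have hxb := hFx.xb0
  have hal1 := al_ge hr
  have hal2 := al_lt hr
  have hlamN := abs_le.mp hFx.lamN
  have hlam1 : (N : ℝ) / 2 ≤ lam := by
    have h9 : (2 / 3 : ℝ) * N ≤ al r * N := mul_le_mul_of_nonneg_right hal1 hNpos.le
    linarith only [h9, hlamN.1]
  have hlam2 : lam ≤ 2 * N := by
    have h9 : al r * (N : ℝ) ≤ 1 * N := mul_le_mul_of_nonneg_right hal2.le hNpos.le
    linarith only [h9, hlamN.2]
  have hlam0 : 0 < lam := by linarith only [hN12, hlam1]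
  obtain ⟨β, hβ⟩ : ∃ β : Fin r → ℝ, β = fun i => (∑ v ∈ H, x v - cs x H c i) / lam := ⟨_, rfl⟩
  have hβx : ∀ i, |β i - xb| ≤ 1 / 20 * xb := by
    intro i
    obtain ⟨v, hv, hvT, hvF⟩ := undist hWF hsz i
    have h8 := beta_eq hWF hx hv hvT hvF
    have h9 : β i = x v := by
      rw [hβ]
      simp only
      rw [← h8]
      field_simp
    rw [h9]
    exact hFx.xH v (mem_cl.mp hv).1
  obtain ⟨γ, hγ⟩ : ∃ γ : Fin r → ℝ, γ = fun i => β i / xb := ⟨_, rfl⟩
  have hβγ : ∀ i, β i = γ i * xb := by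
    intro i
    rw [hγ]
    field_simp
  have hγ1 : ∀ i, |γ i - 1| ≤ 1 / 20 := by
    intro i
    have h8 := hβx i
    have e1 : β i - xb = (γ i - 1) * xb := by rw [hβγ]; ring
    rw [e1, abs_mul, abs_of_pos hxb] at h8
    exact le_of_mul_le_mul_right h8 hxb
  obtain ⟨i1, i2, hi12, hγ12, hγi⟩ := two_min (by omega : 2 ≤ r) γ
  -- different classes have different values
  have hgap : ∀ i k : Fin r, i ≠ k → γ k ≤ γ i → 1 / (2 * lam) ≤ γ i - γ k := by
    intro i k hik hle
    have h8 := abs_le.mp (hfx k i)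
    have hne := hneq k i hik.symm
    have e1 : (γ i - γ k) * (lam * xb) = cs x H c k - cs x H c i := by
      have e2 : (γ i - γ k) * xb = β i - β k := by rw [hβγ, hβγ]; ring
      have e3 : (β i - β k) * lam = cs x H c k - cs x H c i := by
        rw [hβ]
        field_simp
        ring
      calc (γ i - γ k) * (lam * xb) = (γ i - γ k) * xb * lam := by ring
        _ = _ := by rw [e2, e3]
    have hlx : 0 < lam * xb := mul_pos hlam0 hxb
    have hpos : 0 ≤ cs x H c k - cs x H c i := by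
      rw [← e1]
      exact mul_nonneg (by linarith only [hle]) hlx.le
    -- the class `k` is larger
    have h10 : 1 ≤ |sz H c k - sz H c i| := by
      have h11 : (1 : ℤ) ≤ |((cl H c k).card : ℤ) - (cl H c i).card| := by
        apply Int.one_le_abs
        intro h0
        apply hne
        omega
      have h12 : ((1 : ℤ) : ℝ) ≤ ((|((cl H c k).card : ℤ) - (cl H c i).card| : ℤ) : ℝ) := by
        exact_mod_cast h11
      unfold sz
      push_cast at h12
      exact h12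
    have h13 : 1 / 2 * xb ≤ cs x H c k - cs x H c i := by
      obtain ⟨d, hd⟩ : ∃ d, d = sz H c k - sz H c i := ⟨_, rfl⟩
      rw [← hd] at h8 h10
      rcases le_or_gt 0 d with h14 | h14
      · rw [abs_of_nonneg h14] at h8 h10
        have h15 : 2 / 3 * (d * xb) ≤ al r * (d * xb) :=
          mul_le_mul_of_nonneg_right hal1 (mul_nonneg h14 hxb.le)
        have h16 : 1 * xb ≤ d * xb := mul_le_mul_of_nonneg_right h10 hxb.le
        have e5 : al r * d * xb = al r * (d * xb) := by ring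
        rw [e5] at h8
        have h17 := h8.1
        linarith only [h8, h15, h16]
      · exfalso
        rw [abs_of_neg h14] at h8 h10
        have h15 : 2 / 3 * (-d * xb) ≤ al r * (-d * xb) :=
          mul_le_mul_of_nonneg_right hal1 (mul_nonneg (by linarith only [h14]) hxb.le)
        have h16 : 1 * xb ≤ -d * xb := mul_le_mul_of_nonneg_right h10 hxb.le
        have e5 : al r * d * xb = -(al r * (-d * xb)) := by ring
        rw [e5] at h8
        have h17 := h8.2
        linarith only [hxb, hpos, h8, h15, h16]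
    rw [← e1] at h13
    rw [div_le_iff₀ (by linarith only [hlam0])]
    have h14 : 1 / 2 * xb ≤ (γ i - γ k) * lam * xb := by linarith only [h13]
    have h15 := le_of_mul_le_mul_right h14 hxb
    linarith only [h15]
  -- the comparison graph
  obtain ⟨M, hM⟩ : ∃ M, mis G H c = 2 * M := by
    have e1 := SM2.half H c (fun a b => ¬ G.Adj a b) (fun a b h h' => h h'.symm)
    have e2 : mis G H c = ((H ×ˢ H).filter (fun e => c e.1 ≠ c e.2 ∧ ¬ G.Adj e.1 e.2)).card := by
      unfold mis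
      congr 1
    exact ⟨_, e2.trans e1⟩
  obtain ⟨G', p0, L, hWF', hcol', hfree', hpE, hmis', hout, hFM', hp0, hL, hLM⟩ := comp h1 hr hWF
    (fun i => by have := hsz i; omega) hM (by omega) hi12
  have hrad := hMX G' hfree' hcol' hpE
  rw [← hlam] at hrad
  have hsta := hC V G G' c H w T x lam xb (1 / 20) N β (by norm_num) (by norm_num)
    (by have : (1 : ℝ) ≤ N := by linarith only [hN12]
        exact_mod_cast this) hWF (by omega) hout (GF.ind hWF') hmis' hx hFx hrad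
    (fun i => by rw [hβ])
  have hsums := sums hi12 hFM' hp0 (fun b hb => (mem_cl.mp (hL hb)).2) γ
  -- the weighted inequality
  obtain ⟨s, hs⟩ : ∃ s : ℝ, s = ∑ a, ∑ b, chi (FM G H c a b) := ⟨_, rfl⟩
  have hsmis : (mis G H c : ℝ) = s := by rw [hs]; exact mis_FM G H c
  have hsM : s = 2 * M := by rw [← hsmis, hM]; push_cast; ring
  obtain ⟨E, hEdef⟩ : ∃ E : ℝ, E = ∑ a, ∑ b, chi (FM G H c a b) *
    (γ (c a) + γ (c b) - γ i1 - γ i2) := ⟨_, rfl⟩
  obtain ⟨hE0, hA, hB⟩ := h5 r V (FM G H c) c γ i1 i2 (1 / 20) s E (by norm_num) (by norm_num)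
    (fun a b h => EQS.FM_symm h) (fun a b h => h.2.2.1) hγ1 hi12 hγ12 hγi hs hEdef
  obtain ⟨A, hAdef⟩ : ∃ A : ℝ, A = ∑ a, ∑ b, chi (FM G H c a b) * (γ (c a) * γ (c b)) := ⟨_, rfl⟩
  obtain ⟨B, hBdef⟩ : ∃ B : ℝ, B = ∑ v, (∑ b, chi (FM G H c v b) * γ (c b)) ^ 2 := ⟨_, rfl⟩
  obtain ⟨A', hA'def⟩ : ∃ A' : ℝ, A' = ∑ a, ∑ b, chi (FM G' H c a b) * (γ (c a) * γ (c b)) :=
    ⟨_, rfl⟩
  obtain ⟨B', hB'def⟩ : ∃ B' : ℝ, B' = ∑ v, (∑ b, chi (FM G' H c v b) * γ (c b)) ^ 2 := ⟨_, rfl⟩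
  obtain ⟨d2, hd2⟩ : ∃ d2 : ℝ, d2 = ∑ v, (∑ b, chi (FM G H c v b)) ^ 2 := ⟨_, rfl⟩
  rw [← hAdef] at hA
  rw [← hBdef, ← hd2] at hB
  rw [← hA'def, ← hB'def, hLM] at hsums
  obtain ⟨hA', hB'⟩ := hsums
  have conv : ∀ F : V → V → Prop,
      ∑ a, ∑ b, chi (F a b) * (β (c a) * β (c b)) =
        (∑ a, ∑ b, chi (F a b) * (γ (c a) * γ (c b))) * xb ^ 2 ∧
      ∑ v, (∑ b, chi (F v b) * β (c b)) ^ 2 =
        (∑ v, (∑ b, chi (F v b) * γ (c b)) ^ 2) * xb ^ 2 := by
    intro F
    constructor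
    · rw [Finset.sum_mul]
      refine Finset.sum_congr rfl fun a _ => ?_
      rw [Finset.sum_mul]
      refine Finset.sum_congr rfl fun b _ => ?_
      rw [hβγ, hβγ]
      ring
    · rw [Finset.sum_mul]
      refine Finset.sum_congr rfl fun v _ => ?_
      rw [← mul_pow, Finset.sum_mul]
      congr 1
      refine Finset.sum_congr rfl fun b _ => ?_
      rw [hβγ]
      ring
  rw [(conv _).1, (conv _).1, (conv _).2, (conv _).2, ← hAdef, ← hA'def, ← hBdef, ← hB'def,
    hsmis] at hsta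
  have hxb2 : 0 < xb ^ 2 := by positivity
  have hmain : A - A' + (B' - B) / lam ≤ C * s ^ 2 / N ^ 2 := by
    have e1 : A * xb ^ 2 - A' * xb ^ 2 + (B' * xb ^ 2 - B * xb ^ 2) / lam =
        (A - A' + (B' - B) / lam) * xb ^ 2 := by ring
    have e2 : C * s ^ 2 * xb ^ 2 / N ^ 2 = C * s ^ 2 / N ^ 2 * xb ^ 2 := by ring
    rw [e1, e2] at hsta
    exact le_of_mul_le_mul_right hsta hxb2
  have hs0 : 0 ≤ s := by rw [← hsmis]; exact Nat.cast_nonneg _
  have hs4 : 4 ≤ s := by rw [← hsmis]; exact_mod_cast hmis4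
  have hsδ : s ≤ δ * N := by rw [← hsmis]; exact hC0.mis
  obtain ⟨Gam, hGam⟩ : ∃ Gam : ℝ, Gam = s ^ 2 / 4 + s / 2 - d2 := ⟨_, rfl⟩
  have hγ2 := abs_le.mp (hγ1 i2)
  have hγ2sq : 1 / 2 ≤ γ i2 ^ 2 := by
    have h8 : (19 / 20 : ℝ) * (19 / 20) ≤ γ i2 * γ i2 :=
      mul_le_mul (by linarith only [hγ2]) (by linarith only [hγ2]) (by norm_num) (by linarith only [hγ2])
    rw [pow_two]
    linarith only [h8]
  have hBB : γ i2 ^ 2 * Gam - (3 * s + 2) * E ≤ B' - B := by
    rw [hB', hGam, hsM]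
    rw [hsM] at hB
    linarith only [hB]
  have hAA : (1 - 1 / 20) * E ≤ A - A' := by
    rw [hA', ← hsM]
    linarith only [hA]
  have hineq : 0 ≤ Gam → E / 2 + Gam / (2 * lam) ≤ C * s ^ 2 / N ^ 2 := by
    intro hG0
    have h8 : (γ i2 ^ 2 * Gam - (3 * s + 2) * E) / lam ≤ (B' - B) / lam :=
      div_le_div_of_nonneg_right hBB hlam0.le
    have h9 : 1 / 2 * Gam ≤ γ i2 ^ 2 * Gam := mul_le_mul_of_nonneg_right hγ2sq hG0
    have h10 : (3 * s + 2) * E ≤ 2 / 5 * lam * E := by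
      apply mul_le_mul_of_nonneg_right _ hE0
      have h11 : δ * N ≤ 1 / 100 * N := mul_le_mul_of_nonneg_right hδ5 hNpos.le
      linarith only [hlam1, hs4, hsδ, h11]
    have h12 : (1 / 2 * Gam - 2 / 5 * lam * E) / lam ≤ (γ i2 ^ 2 * Gam - (3 * s + 2) * E) / lam :=
      div_le_div_of_nonneg_right (by linarith only [h9, h10]) hlam0.le
    have e1 : (1 / 2 * Gam - 2 / 5 * lam * E) / lam = Gam / (2 * lam) - 2 / 5 * E := by
      field_simp
    rw [e1] at h12
    linarith only [hE0, hmain, hAA, h8, h12]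
  have hs2 : C * s ^ 2 / N ^ 2 ≤ 1 / 100 * (s / N) := by
    have e1 : C * s ^ 2 / N ^ 2 = (C * (s / N)) * (s / N) := by field_simp
    rw [e1]
    have h8 : s / N ≤ δ := by
      rw [div_le_iff₀ hNpos]
      exact hsδ
    have h9 : C * (s / N) ≤ C * δ := mul_le_mul_of_nonneg_left h8 (by linarith only [hC1])
    exact mul_le_mul_of_nonneg_right (by linarith only [hCδ, h9]) (by positivity)
  rcases h6 V (FM G H c) (fun a b h => EQS.FM_symm h) (fun a h => h.2.2.1 rfl) with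
    ⟨p, hp⟩ | hcase | ⟨p, q, z, hpq, hpz, hqz, htri⟩
  · -- star
    refine ⟨p, ?_, hp⟩
    obtain ⟨a0, ha0, b0, hb0, hab0, hnab⟩ := hWF.hF
    have hFM0 : FM G H c a0 b0 :=
      ⟨hWF.hT ha0, hWF.hT hb0, fun h => hab0 (GF.eqT hWF.hT1 ha0 hb0 h), hnab⟩
    rcases hp a0 b0 hFM0 with h8 | h8
    · rw [← h8]; exact ha0
    · rw [← h8]; exact hb0
  · -- two disjoint missing pairs
    exfalso
    rw [← hd2, ← hs] at hcase
    have hG : s / 6 ≤ Gam := by rw [hGam]; linarith only [hcase]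
    have h8 := hineq (by linarith only [hs4, hGam, hcase])
    have h9 : s / 6 / (2 * lam) ≤ Gam / (2 * lam) :=
      div_le_div_of_nonneg_right hG (by linarith only [hlam0])
    have h10 : s / (24 * N) ≤ s / 6 / (2 * lam) := by
      rw [div_div]
      apply div_le_div_of_nonneg_left hs0 (by linarith only [hlam0])
      linarith only [hlam2]
    have e1 : s / (24 * N) = 1 / 24 * (s / N) := by field_simp
    have h11 : 0 < s / N := by
      have : 0 < s := by linarith only [hs4]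
      positivity
    rw [e1] at h10
    linarith only [hE0, hs2, h8, h9, h10, h11]
  · -- a triangle
    exfalso
    obtain ⟨ht1, ht2⟩ := tri hpq hpz hqz htri
    rw [← hs] at ht1
    rw [← hd2] at ht2
    have hG : Gam = 0 := by rw [hGam, ht1, ht2]; norm_num
    have h8 := hineq (by rw [hG])
    rw [hG, zero_div, add_zero] at h8
    -- a vertex in a class different from `i1`, `i2`
    have hFpq : FM G H c p q := (htri p q).mpr ⟨hpq, Or.inl rfl, Or.inr (Or.inl rfl)⟩
    have hFpz : FM G H c p z := (htri p z).mpr ⟨hpz, Or.inl rfl, Or.inr (Or.inr rfl)⟩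
    have hFqz : FM G H c q z := (htri q z).mpr ⟨hqz, Or.inr (Or.inl rfl), Or.inr (Or.inr rfl)⟩
    obtain ⟨a, b, hab, ha1, ha2⟩ : ∃ a b, FM G H c a b ∧ c a ≠ i1 ∧ c a ≠ i2 := by
      have k1 := hFpq.2.2.1
      have k2 := hFpz.2.2.1
      have k3 := hFqz.2.2.1
      by_cases m1 : c p = i1 ∨ c p = i2
      · by_cases m2 : c q = i1 ∨ c q = i2
        · refine ⟨z, p, EQS.FM_symm hFpz, ?_, ?_⟩
          · intro m3
            rcases m1 with m1 | m1
            · exact k2 (m1.trans m3.symm)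
            · rcases m2 with m2 | m2
              · exact k3 (m2.trans m3.symm)
              · exact k1 (m1.trans m2.symm)
          · intro m3
            rcases m1 with m1 | m1
            · rcases m2 with m2 | m2
              · exact k1 (m1.trans m2.symm)
              · exact k3 (m2.trans m3.symm)
            · exact k2 (m1.trans m3.symm)
        · rw [not_or] at m2
          exact ⟨q, p, EQS.FM_symm hFpq, m2.1, m2.2⟩
      · rw [not_or] at m1
        exact ⟨p, q, hFpq, m1.1, m1.2⟩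
    -- the excess of the pair
    have hex0 : ∀ u v, FM G H c u v → 0 ≤ γ (c u) + γ (c v) - γ i1 - γ i2 := by
      intro u v huv
      by_cases m1 : c u = i1
      · have m2 : c v ≠ i1 := fun m3 => huv.2.2.1 (m1.trans m3.symm)
        have := hγi _ m2
        rw [m1]
        linarith only [this]
      · have m3 := hγi _ m1
        by_cases m2 : c v = i1
        · rw [m2]; linarith only [m3]
        · have := hγi _ m2
          linarith only [hγ12, m3, this]
    have hex1 : 1 / (2 * lam) ≤ γ (c a) + γ (c b) - γ i1 - γ i2 := by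
      have m1 := hgap (c a) i2 ha2 (hγi _ ha1)
      have m2 : γ i1 ≤ γ (c b) := by
        by_cases m3 : c b = i1
        · rw [m3]
        · exact hγ12.trans (hγi _ m3)
      linarith only [m1, m2]
    have hEge : 1 / (2 * lam) + 1 / (2 * lam) ≤ E := by
      have hba := EQS.FM_symm hab
      have hne : a ≠ b := fun h => hab.2.2.1 (by rw [h])
      have hrow : ∀ u, 0 ≤ ∑ v, chi (FM G H c u v) * (γ (c u) + γ (c v) - γ i1 - γ i2) := by
        intro u
        refine Finset.sum_nonneg fun v _ => ?_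
        by_cases huv : FM G H c u v
        · rw [chi_pos huv, one_mul]; exact hex0 u v huv
        · rw [chi_neg huv, zero_mul]
      have hrow2 : ∀ u v, FM G H c u v → γ (c u) + γ (c v) - γ i1 - γ i2 ≤
          ∑ v, chi (FM G H c u v) * (γ (c u) + γ (c v) - γ i1 - γ i2) := by
        intro u v huv
        have h9 := Finset.single_le_sum (s := univ)
          (f := fun v => chi (FM G H c u v) * (γ (c u) + γ (c v) - γ i1 - γ i2)) (fun v _ => by
            by_cases huv : FM G H c u v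
            · simp only [chi_pos huv, one_mul]; exact hex0 u v huv
            · simp only [chi_neg huv, zero_mul]; exact le_rfl) (Finset.mem_univ v)
        simp only [chi_pos huv, one_mul] at h9
        exact h9
      have h9 := Finset.sum_le_sum_of_subset_of_nonneg (s := {a, b}) (t := univ)
        (f := fun u => ∑ v, chi (FM G H c u v) * (γ (c u) + γ (c v) - γ i1 - γ i2))
        (Finset.subset_univ _) (fun u _ _ => hrow u)
      rw [Finset.sum_pair hne, ← hEdef] at h9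
      have h10 := hrow2 a b hab
      have h11 := hrow2 b a hba
      linarith only [hex1, h9, h10, h11]
    rw [ht1] at h8
    have h9 : 1 / (4 * (N : ℝ)) ≤ 1 / (2 * lam) :=
      one_div_le_one_div_of_le (by linarith only [hlam0]) (by linarith only [hlam2])
    have e1 : 1 / (4 * (N : ℝ)) = 1 / 4 * (1 / N) := by field_simp
    have e2 : C * 6 ^ 2 / (N : ℝ) ^ 2 = 36 * C / N * (1 / N) := by field_simp; norm_num
    have h10 : 36 * C / N * (1 / N) ≤ 1 / 5 * (1 / N) := by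
      apply mul_le_mul_of_nonneg_right _ (by positivity)
      rw [div_le_iff₀ hNpos]
      linarith only [hNR]
    have h11 : 0 < 1 / (N : ℝ) := by positivity
    rw [e1] at h9
    rw [e2] at h8
    linarith only [h8, hEge, h9, h10, h11]

end Pool.Agent.Work.MP_5532fa_up

end
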